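import Pool.Agent.P.MP_b75a1e_co.Defs

set_option autoImplicit false

open Finset

namespace Pool.Agent.P.MP_b75a1e_co

/-- A cut of the circle: the vectors seen before the cut have positive total determinant. -/
theorem cut_pos {ι : Type} [Fintype ι] [DecidableEq ι] (g φ : ι → ℝ) (r : ℝ) (hr : 0 < r) (j : ι)
    (hg : ∀ a, g a = r * Real.sin (φ a)) (h0 : φ j = 0)
    (hφ : ∀ a, a ≠ j → 0 < φ a ∧ φ a < 2 * Real.pi) (hs : ∑ a, g a = 0) (T : Finset ι)
    (hj : j ∉ T) (hT : T.Nonempty) (hc : ∃ b, b ≠ j ∧ b ∉ T)
    (hlt : ∀ a ∈ T, ∀ b, b ≠ j → b ∉ T → φ a < φ b) : 0 < ∑ a ∈ T, g a := by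
  by_cases h : ∀ a ∈ T, φ a < Real.pi
  · refine sum_pos (fun a ha => ?_) hT
    rw [hg]
    exact mul_pos hr (Real.sin_pos_of_pos_of_lt_pi (hφ a (fun e => hj (e ▸ ha))).1 (h a ha))
  · push Not at h
    obtain ⟨a, ha, hπ⟩ := h
    have key : ∀ b, b ≠ j → b ∉ T → g b < 0 := by
      intro b hb hbT
      have h1 := hlt a ha b hb hbT
      have h2 := (hφ b hb).2
      have h3 : 0 < Real.sin (φ b - Real.pi) :=
        Real.sin_pos_of_pos_of_lt_pi (by linarith) (by linarith)
      rw [Real.sin_sub_pi] at h3
      rw [hg]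
      exact mul_neg_of_pos_of_neg hr (by linarith)
    have h4 : ∑ b ∈ Tᶜ, g b < ∑ b ∈ Tᶜ, (0 : ℝ) := by
      obtain ⟨b, hb, hbT⟩ := hc
      refine sum_lt_sum (fun c hc => ?_) ⟨b, mem_compl.2 hbT, key b hb hbT⟩
      by_cases e : c = j
      · rw [e, hg, h0]; simp
      · exact (key c e (mem_compl.1 hc)).le
    have h5 := sum_add_sum_compl T g
    rw [sum_const_zero] at h4
    linarith

theorem convex_sorted {n : ℕ} (e : Fin (n + 1) → ℂ) (r : ℝ) (hr : 0 < r) (he : ∀ i, ‖e i‖ = r)
    (hm : StrictMono fun i => Complex.arg (e i)) (hs : ∑ i, e i = 0) :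
    (∀ i, (∑ a ∈ univ.filter (· < finRotate (n + 1) i), e a) - ∑ a ∈ univ.filter (· < i), e a = e i) ∧
    ∀ i k, k ≠ i → k ≠ finRotate (n + 1) i →
      0 < (e i).re * ((∑ a ∈ univ.filter (· < k), e a) - ∑ a ∈ univ.filter (· < i), e a).im -
        (e i).im * ((∑ a ∈ univ.filter (· < k), e a) - ∑ a ∈ univ.filter (· < i), e a).re := by
  have hrot : ∀ i : Fin (n + 1), ((finRotate (n + 1) i : Fin (n + 1)) : ℕ) =
      if (i : ℕ) = n then 0 else (i : ℕ) + 1 := by
    intro i
    rw [finRotate_apply, Fin.val_add_one]
    simp [Fin.ext_iff]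
  have hsum : ∀ (f : Fin (n + 1) → ℂ) (P : Fin (n + 1) → Prop) [DecidablePred P],
      ∑ a ∈ univ.filter P, f a = ∑ a, if P a then f a else 0 := fun f P _ => sum_filter _ _
  constructor
  · intro i
    rw [hsum, hsum, ← sum_sub_distrib]
    have hi := hrot i
    split_ifs at hi with h
    · have : ∑ a, ((if a < finRotate (n + 1) i then e a else 0) - if a < i then e a else 0) =
          ∑ a, ((if a = i then e a else 0) - e a) := by
        refine sum_congr rfl fun a _ => ?_
        have := a.2
        simp only [Fin.lt_def, Fin.ext_iff, hi]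
        split_ifs <;> first | omega | simp
      rw [this, sum_sub_distrib, hs]
      simp
    · have : ∑ a, ((if a < finRotate (n + 1) i then e a else 0) - if a < i then e a else 0) =
          ∑ a, (if a = i then e a else 0) := by
        refine sum_congr rfl fun a _ => ?_
        simp only [Fin.lt_def, Fin.ext_iff, hi]
        split_ifs <;> first | omega | simp
      rw [this]
      simp
  · intro i k hk hk'
    set θ : Fin (n + 1) → ℝ := fun a => Complex.arg (e a) with hθ
    have hre : ∀ a, (e a).re = r * Real.cos (θ a) := fun a => by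
      rw [← he a]; exact (Complex.norm_mul_cos_arg _).symm
    have him : ∀ a, (e a).im = r * Real.sin (θ a) := fun a => by
      rw [← he a]; exact (Complex.norm_mul_sin_arg _).symm
    set g : Fin (n + 1) → ℝ := fun a => (e i).re * (e a).im - (e i).im * (e a).re with hg
    set φ : Fin (n + 1) → ℝ := fun a => if i ≤ a then θ a - θ i else θ a - θ i + 2 * Real.pi with hφ
    have hb : ∀ a, -Real.pi < θ a ∧ θ a ≤ Real.pi := fun a =>
      ⟨Complex.neg_pi_lt_arg _, Complex.arg_le_pi _⟩
    have hgs : ∑ a, g a = 0 := by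
      have h1 := congrArg Complex.re hs
      have h2 := congrArg Complex.im hs
      rw [Complex.re_sum] at h1
      rw [Complex.im_sum] at h2
      simp only [hg, sum_sub_distrib, ← mul_sum, h1, h2]
      simp
    set T : Finset (Fin (n + 1)) :=
      univ.filter fun a => if i < k then (i < a ∧ a < k) else (i < a ∨ a < k) with hT
    have hi := hrot i
    have hk1 : (k : ℕ) ≠ i := fun h => hk (Fin.ext h)
    have hk2 : (k : ℕ) ≠ (finRotate (n + 1) i : Fin (n + 1)) := fun h => hk' (Fin.ext h)
    have hmem : ∀ a, a ∈ T ↔ if (i : ℕ) < k then ((i : ℕ) < a ∧ (a : ℕ) < k) else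
        ((i : ℕ) < a ∨ (a : ℕ) < k) := by
      intro a; simp only [hT, mem_filter, mem_univ, true_and, Fin.lt_def]
    have hpos : 0 < ∑ a ∈ T, g a := by
      refine cut_pos g φ (r * r) (mul_pos hr hr) i (fun a => ?_) (by simp [hφ]) (fun a ha => ?_) hgs T
        ?_ ?_ ?_ ?_
      · have : Real.sin (φ a) = Real.sin (θ a - θ i) := by
          simp only [hφ]; split_ifs
          · rfl
          · exact Real.sin_add_two_pi _
        rw [this, Real.sin_sub]
        simp only [hg, hre, him]
        ring
      · have h1 := hb a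
        have h2 := hb i
        simp only [hφ]
        split_ifs with h
        · have : θ i < θ a := hm (lt_of_le_of_ne h ha.symm)
          constructor <;> linarith [h1.1, h1.2, h2.1, h2.2]
        · have : θ a < θ i := hm (not_le.1 h)
          constructor <;> linarith [h1.1, h1.2, h2.1, h2.2]
      · rw [hmem]; split_ifs <;> omega
      · refine ⟨finRotate (n + 1) i, ?_⟩
        rw [hmem]
        have := k.2
        split_ifs at hi ⊢ <;> omega
      · by_cases h : (i : ℕ) < k
        · exact ⟨k, hk, by rw [hmem]; simp [h]⟩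
        · exact ⟨k, hk, by rw [hmem]; simp [h]⟩
      · intro a ha b hb' hbT
        rw [hmem] at ha hbT
        have hb1 : (b : ℕ) ≠ i := fun h => hb' (Fin.ext h)
        have h1 := hb a
        have h2 := hb b
        simp only [hφ, Fin.le_def]
        split_ifs at ha hbT ⊢ <;>
          first
          | omega
          | (have : θ a < θ b := hm (by rw [Fin.lt_def]; omega); linarith)
          | linarith [h1.1, h1.2, h2.1, h2.2]
    have hd : (∑ a ∈ univ.filter (· < k), e a) - ∑ a ∈ univ.filter (· < i), e a =
        e i + ∑ a ∈ T, e a := by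
      rw [hsum, hsum, ← sum_sub_distrib, hT, hsum]
      by_cases h : i < k
      · have : ∑ a, ((if a < k then e a else 0) - if a < i then e a else 0) =
            ∑ a, ((if a = i then e a else 0) +
              if (if i < k then (i < a ∧ a < k) else (i < a ∨ a < k)) then e a else 0) := by
          refine sum_congr rfl fun a _ => ?_
          simp only [h, if_true]
          simp only [Fin.lt_def, Fin.ext_iff] at h ⊢
          split_ifs <;> first | omega | simp
        rw [this, sum_add_distrib]
        simp
      · have : ∑ a, ((if a < k then e a else 0) - if a < i then e a else 0) =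
            ∑ a, ((if a = i then e a else 0) +
              (if (if i < k then (i < a ∧ a < k) else (i < a ∨ a < k)) then e a else 0) - e a) := by
          refine sum_congr rfl fun a _ => ?_
          simp only [h, if_false]
          simp only [Fin.lt_def, Fin.ext_iff] at h ⊢
          split_ifs <;> first | omega | simp
        rw [this, sum_sub_distrib, sum_add_distrib, hs]
        simp
    rw [hd, Complex.add_im, Complex.add_re, Complex.re_sum, Complex.im_sum]
    simp only [hg, sum_sub_distrib, ← mul_sum] at hpos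
    linarith

/-- Distinct lattice vectors of one length with sum zero give a convex equilateral polygon. -/
theorem hasGon_of_vectors (m n : ℕ) (hn : 3 ≤ n) (e : Fin n → ℂ) (r : ℝ) (hr : 0 < r)
    (he : ∀ i, ‖e i‖ = r) (hinj : Function.Injective e) (hs : ∑ i, e i = 0)
    (hl : ∀ i, ∃ a b : ℤ, (e i).re = a ∧ (e i).im = b * Real.sqrt m) : HasGon m n := by
  obtain ⟨n, rfl⟩ : ∃ k, n = k + 1 := ⟨n - 1, by omega⟩
  set σ := Tuple.sort fun i => Complex.arg (e i) with hσ
  have hm : StrictMono fun i => Complex.arg (e (σ i)) := by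
    refine (Tuple.monotone_sort fun i => Complex.arg (e i)).strictMono_of_injective ?_
    intro a b hab
    exact σ.injective (hinj (Complex.ext_norm_arg (by rw [he, he]) hab))
  have hs' : ∑ i, e (σ i) = 0 := by rw [Equiv.sum_comp σ e, hs]
  obtain ⟨h1, h2⟩ := convex_sorted (fun i => e (σ i)) r hr (fun i => he _) hm hs'
  set w : Fin (n + 1) → ℂ := fun i => ∑ a ∈ univ.filter (· < i), e (σ a) with hw
  have h1' : ∀ i, w (finRotate (n + 1) i) - w i = e (σ i) := h1
  have h3 : ∀ i k, k ≠ i → k ≠ finRotate (n + 1) i →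
      0 < cross (!₂[(w (finRotate (n + 1) i)).re, (w (finRotate (n + 1) i)).im] - !₂[(w i).re, (w i).im])
        (!₂[(w k).re, (w k).im] - !₂[(w i).re, (w i).im]) := by
    intro i k hk hk'
    have := h2 i k hk hk'
    rw [← h1' i] at this
    simpa [cross, hw] using this
  have h4 : ∀ i, dist (!₂[(w i).re, (w i).im] : EuclideanSpace ℝ (Fin 2))
      !₂[(w (finRotate (n + 1) i)).re, (w (finRotate (n + 1) i)).im] = r := by
    intro i
    rw [← he (σ i), ← h1' i, dist_comm, EuclideanSpace.dist_eq, Complex.norm_eq_sqrt_sq_add_sq]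
    simp [Real.dist_eq, sq_abs]
  refine ⟨fun i => !₂[(w i).re, (w i).im], fun i => ?_, ?_, ⟨r, h4⟩, h3⟩
  · choose a b ha hb using hl
    refine ⟨∑ c ∈ univ.filter (· < i), a (σ c), ∑ c ∈ univ.filter (· < i), b (σ c), ?_, ?_⟩
    · simp [hw, Complex.re_sum, ha]
    · simp [hw, Complex.im_sum, hb, sum_mul]
  · intro i k hik
    by_contra hne
    by_cases hk' : k = finRotate (n + 1) i
    · have := h4 i
      rw [← hk'] at this
      simp only at hik
      rw [hik, dist_self] at this
      exact hr.ne this
    · have := h3 i k (Ne.symm hne) hk'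
      simp only at hik
      rw [← hik] at this
      simp [cross] at this

end Pool.Agent.P.MP_b75a1e_co
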