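import Mathlib

set_option autoImplicit false

namespace Pool.Agent.P.MP_b75a1e_co

section General

variable {A : Type} [CommRing A] {ι : Type}

/-- First and second differences are controlled by the increments. -/
def Good (f : (ι → A) → A) : Prop :=
  (∀ x a s, (∀ i, s ∣ a i) → s ∣ f (x + a) - f x) ∧
    ∀ x a b s t, (∀ i, s ∣ a i) → (∀ i, t ∣ b i) →
      s * t ∣ f (x + a + b) - f (x + a) - f (x + b) + f x

theorem good_const (c : A) : Good fun _ : ι → A => c :=
  ⟨fun _ _ _ _ => by simp, fun _ _ _ _ _ _ _ => by simp⟩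

theorem good_coord (i : ι) : Good fun x : ι → A => x i :=
  ⟨fun _ _ _ h => by simpa using h i, fun x a b _ _ _ _ => by
    have : (x + a + b) i - (x + a) i - (x + b) i + x i = 0 := by simp only [Pi.add_apply]; ring
    rw [this]; exact dvd_zero _⟩

theorem Good.add {f g : (ι → A) → A} (hf : Good f) (hg : Good g) : Good fun x => f x + g x :=
  ⟨fun x a s h => by
    convert dvd_add (hf.1 x a s h) (hg.1 x a s h) using 1; ring,
   fun x a b s t h h' => by
    convert dvd_add (hf.2 x a b s t h h') (hg.2 x a b s t h h') using 1; ring⟩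

theorem Good.mul {f g : (ι → A) → A} (hf : Good f) (hg : Good g) : Good fun x => f x * g x :=
  ⟨fun x a s h => by
    convert dvd_add ((hf.1 x a s h).mul_right (g (x + a))) ((hg.1 x a s h).mul_left (f x)) using 1
    ring,
   fun x a b s t h h' => by
    have h1 := (hf.2 x a b s t h h').mul_right (g (x + a + b))
    have h2 := mul_dvd_mul (hf.1 x a s h) (hg.1 (x + a) b t h')
    have h3 := mul_dvd_mul (hg.1 (x + b) a s h) (hf.1 x b t h')
    have h4 := (hg.2 x a b s t h h').mul_left (f x)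
    rw [add_right_comm x b a] at h3
    convert dvd_add (dvd_add h1 h2) (dvd_add h3 h4) using 1
    ring⟩

theorem Good.inv {f g : (ι → A) → A} (hf : Good f) (hg : ∀ x, f x * g x = 1) : Good g :=
  ⟨fun x a s h => by
    convert (hf.1 x a s h).mul_right (-(g x * g (x + a))) using 1
    linear_combination (-g (x + a)) * hg x + g x * hg (x + a),
   fun x a b s t h h' => by
    have h1 := hf.2 x a b s t h h'
    have h2 := mul_dvd_mul (hf.1 x a s h) (hf.1 x b t h')
    have e0 := hg x
    have e1 := hg (x + a)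
    have e2 := hg (x + b)
    have e3 := hg (x + a + b)
    generalize f x = f0 at *
    generalize f (x + a) = f1 at *
    generalize f (x + b) = f2 at *
    generalize f (x + a + b) = f3 at *
    generalize g x = g0 at *
    generalize g (x + a) = g1 at *
    generalize g (x + b) = g2 at *
    generalize g (x + a + b) = g3 at *
    convert dvd_add (h1.mul_right (-((f0 * f1 + f0 * f2 - f1 * f2) * (g0 * g1 * g2 * g3))))
      (h2.mul_right ((f1 + f2) * (g0 * g1 * g2 * g3))) using 1
    linear_combination (-(g3 * f1 * g1 * f2 * g2) + g1 * f2 * g2 * f3 * g3 + g2 * f1 * g1 * f3 * g3) * e0 +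
      (-(g3 * f2 * g2) + g2 * f3 * g3 - g0 * f2 * g2 * f3 * g3) * e1 +
      (-g3 + g1 * f3 * g3 - g0 * f3 * g3) * e2 + (g1 + g2 - g0) * e3⟩

theorem Good.comp {f : (ι → A) → A} (hf : Good f) {Φ : (ι → A) → ι → A}
    (hΦ : ∀ i, Good fun x => Φ x i) : Good fun x => f (Φ x) :=
  ⟨fun x a s h => by
    have := hf.1 (Φ x) (Φ (x + a) - Φ x) s fun i => (hΦ i).1 x a s h
    rwa [add_sub_cancel] at this,
   fun x a b s t h h' => by
    have h1 := hf.2 (Φ x) (Φ (x + a) - Φ x) (Φ (x + b) - Φ x) s t (fun i => (hΦ i).1 x a s h)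
      fun i => (hΦ i).1 x b t h'
    have h2 := hf.1 (Φ x + (Φ (x + a) - Φ x) + (Φ (x + b) - Φ x))
      (Φ (x + a + b) - Φ (x + a) - Φ (x + b) + Φ x) (s * t) fun i => (hΦ i).2 x a b s t h h'
    have e : Φ x + (Φ (x + a) - Φ x) + (Φ (x + b) - Φ x) +
        (Φ (x + a + b) - Φ (x + a) - Φ (x + b) + Φ x) = Φ (x + a + b) := by abel
    rw [e] at h2
    have h3 := dvd_add h1 h2
    rw [add_sub_cancel, add_sub_cancel] at h3
    convert h3 using 1
    ring⟩

/-- The good functions form a ring. -/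
def goodRing (A : Type) [CommRing A] (ι : Type) : Subring ((ι → A) → A) where
  carrier := {f | Good f}
  mul_mem' := fun ha hb => Good.mul ha hb
  one_mem' := good_const 1
  add_mem' := fun ha hb => Good.add ha hb
  zero_mem' := good_const 0
  neg_mem' := fun {f} ha => by
    have := Good.mul (good_const (-1)) ha
    simp only [neg_mul, one_mul] at this
    exact this

/-- Maps congruent to the identity. -/
def Near (q : A) (G : (ι → A) → ι → A) : Prop :=
  ∃ H : (ι → A) → ι → A, (∀ i, Good fun x => H x i) ∧ ∀ x i, G x i = x i + q * H x i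

theorem Near.good {q : A} {G : (ι → A) → ι → A} (h : Near q G) (i : ι) : Good fun x => G x i := by
  obtain ⟨H, h1, h2⟩ := h
  simp only [h2]
  exact (good_coord i).add ((good_const q).mul (h1 i))

theorem Near.iterate {q : A} {G : (ι → A) → ι → A} (h : Near q G) (n : ℕ) : Near q G^[n] := by
  induction n with
  | zero => exact ⟨fun _ _ => 0, fun _ => good_const 0, fun x i => by simp⟩
  | succ n ih =>
    obtain ⟨H, h1, h2⟩ := h
    have hg := ih.good
    obtain ⟨K, k1, k2⟩ := ih
    refine ⟨fun x i => K x i + H (G^[n] x) i, fun i => (k1 i).add ((h1 i).comp hg), fun x i => ?_⟩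
    rw [Function.iterate_succ_apply', h2, k2]
    ring

theorem Near.estimate {q : A} {G : (ι → A) → ι → A} (h : Near q G) (x : ι → A) (s : A)
    (hs : ∀ i, s ∣ G x i - x i) :
    ∃ η : ι → A, (∀ i, s ∣ η i) ∧ ∀ (n : ℕ) (i : ι),
      q * s ∣ G (G^[n] x) i - G^[n] x i - (G x i - x i) ∧
      q * (q * s) ∣ 2 * (G^[n] x i - x i) - 2 * n * (G x i - x i) - n * (n - 1) * (q * η i) := by
  obtain ⟨H, h1, h2⟩ := h
  have hG : G x = x + (G x - x) := by abel
  have hn : ∀ n : ℕ, G^[n] x = x + (G^[n] x - x) := fun n => by abel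
  have a1 : ∀ (n : ℕ) (i : ι), s ∣ G^[n] x i - x i ∧ q ∣ G^[n] x i - x i := by
    intro n
    induction n with
    | zero => intro i; simp
    | succ n ih =>
      intro i
      have b1 := (h1 i).1 x (G^[n] x - x) s fun j => (ih j).1
      rw [← hn] at b1
      rw [Function.iterate_succ_apply', h2]
      constructor
      · convert dvd_add (dvd_add (ih i).1 (hs i)) (b1.mul_left q) using 1
        rw [h2 x i]; ring
      · convert dvd_add (ih i).2 (dvd_mul_right q (H (G^[n] x) i)) using 1
        ring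
  have a2 : ∀ (n : ℕ) (i : ι), q * s ∣ G (G^[n] x) i - G^[n] x i - (G x i - x i) := by
    intro n i
    have b1 := (h1 i).1 x (G^[n] x - x) s fun j => (a1 n j).1
    rw [← hn] at b1
    convert mul_dvd_mul_left q b1 using 1
    rw [h2, h2 x i]; ring
  have a3 : ∀ (n : ℕ) (i : ι), q * (q * s) ∣
      G (G^[n] x) i - G^[n] x i - (G x i - x i) - n * (q * (H (G x) i - H x i)) := by
    intro n i
    induction n with
    | zero => simp
    | succ n ih =>
      have b1 := (h1 i).1 (G^[n] x + (G x - x)) (G (G^[n] x) - G^[n] x - (G x - x)) (q * s) (a2 n)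
      have b2 := (h1 i).2 x (G^[n] x - x) (G x - x) q s (fun j => (a1 n j).2) hs
      rw [← hn, ← hG] at b2
      have e : G^[n] x + (G x - x) + (G (G^[n] x) - G^[n] x - (G x - x)) = G (G^[n] x) := by abel
      rw [e] at b1
      convert dvd_add ih (mul_dvd_mul_left q (dvd_add b1 b2)) using 1
      rw [Function.iterate_succ_apply', h2 (G (G^[n] x)) i, h2 (G^[n] x) i]
      push_cast
      ring
  refine ⟨fun i => H (G x) i - H x i, fun i => ?_, fun n i => ⟨a2 n i, ?_⟩⟩
  · have := (h1 i).1 x (G x - x) s hs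
    rwa [← hG] at this
  · induction n with
    | zero => simp
    | succ n ih =>
      convert dvd_add ih ((a3 n i).mul_left 2) using 1
      rw [Function.iterate_succ_apply']
      push_cast
      ring

end General

section Padic

variable {p : ℕ} [Fact p.Prime] {ι : Type}

theorem exists_exact (δ : ι → ℤ_[p]) (hδ : δ ≠ 0) :
    ∃ s : ℤ_[p], (∀ i, s ∣ δ i) ∧ ¬ ∀ i, (p : ℤ_[p]) * s ∣ δ i := by
  by_contra h
  push Not at h
  have h1 : ∀ k : ℕ, ∀ i, (p : ℤ_[p]) ^ k ∣ δ i := by
    intro k
    induction k with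
    | zero => simp
    | succ k ih => rw [pow_succ']; exact h _ ih
  apply hδ
  funext i
  by_contra h2
  have := (FiniteMultiplicity.of_not_isUnit (a := (p : ℤ_[p])) PadicInt.irreducible_p.not_isUnit h2)
  obtain ⟨n, hn⟩ := this
  exact hn (h1 _ i)

theorem unit_of_not_dvd {n : ℕ} (h : ¬ p ∣ n) : IsUnit (n : ℤ_[p]) := by
  rw [PadicInt.isUnit_iff]
  refine le_antisymm (PadicInt.norm_le_one _) (not_lt.1 fun h1 => h ?_)
  have : ‖((n : ℤ) : ℤ_[p])‖ < 1 := by simpa using h1
  exact_mod_cast (PadicInt.norm_int_lt_one_iff_dvd _).1 this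

theorem Near.ne_iterate (hp : p ≠ 2) (N : ℕ) : ∀ {G : (ι → ℤ_[p]) → ι → ℤ_[p]}, Near (p : ℤ_[p]) G →
    ∀ x, G x ≠ x → 0 < N → G^[N] x ≠ x := by
  have hp' : p.Prime := Fact.out
  have h2 : IsUnit ((2 : ℕ) : ℤ_[p]) :=
    unit_of_not_dvd fun h => hp ((Nat.prime_dvd_prime_iff_eq hp' Nat.prime_two).1 h)
  have hp0 : (p : ℤ_[p]) ≠ 0 := by exact_mod_cast hp'.ne_zero
  induction N using Nat.strong_induction_on with
  | _ N ih =>
    intro G hG x hx hN
    obtain ⟨s, hs, hs'⟩ := exists_exact (G x - x) (sub_ne_zero.2 hx)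
    obtain ⟨η, hη, he⟩ := hG.estimate x s hs
    by_cases hd : p ∣ N
    · obtain ⟨N', rfl⟩ := hd
      have hN' : 0 < N' := Nat.pos_of_mul_pos_left hN
      rw [Function.iterate_mul]
      refine ih N' (lt_mul_of_one_lt_left hN' hp'.one_lt) (hG.iterate p) x (fun h => hs' fun i => ?_) hN'
      have h3 := (he p i).2
      rw [h] at h3
      have h4 : (p : ℤ_[p]) * (p * s) ∣ (p : ℤ_[p]) * (p - 1) * (p * η i) := by
        obtain ⟨c, hc⟩ := hη i
        exact ⟨(p - 1) * c, by rw [hc]; ring⟩
      have h5 : (p : ℤ_[p]) * (p * s) ∣ p * (((2 : ℕ) : ℤ_[p]) * (G x i - x i)) := by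
        convert (dvd_add h3 h4).neg_right using 1
        push_cast
        ring
      exact h2.dvd_mul_left.1 ((mul_dvd_mul_iff_left hp0).1 h5)
    · intro h
      refine hs' fun i => ?_
      have h3 := (he N i).2
      rw [h] at h3
      have h4 : (p : ℤ_[p]) * s ∣ (N : ℤ_[p]) * (N - 1) * (p * η i) :=
        (mul_dvd_mul_left _ (hη i)).mul_left _
      have h5 : (p : ℤ_[p]) * s ∣ ((2 : ℕ) : ℤ_[p]) * (N * (G x i - x i)) := by
        convert (dvd_add ((dvd_mul_left _ _).trans h3) h4).neg_right using 1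
        push_cast
        ring
      exact (unit_of_not_dvd hd).dvd_mul_left.1 (h2.dvd_mul_left.1 h5)

theorem Near.orbit_injective (hp : p ≠ 2) {G : (ι → ℤ_[p]) → ι → ℤ_[p]} (hG : Near (p : ℤ_[p]) G)
    (x : ι → ℤ_[p]) (hx : G x ≠ x) : Function.Injective fun n : ℕ => G^[n] x := by
  obtain ⟨s, hs, hs'⟩ := exists_exact (G x - x) (sub_ne_zero.2 hx)
  obtain ⟨η, -, he⟩ := hG.estimate x s hs
  have h1 : ∀ n : ℕ, G (G^[n] x) ≠ G^[n] x := by
    intro n h
    refine hs' fun i => ?_
    have := (he n i).1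
    rw [h, sub_self, zero_sub] at this
    exact dvd_neg.1 this
  refine Function.Injective.of_lt_imp_ne fun a b hab h => ?_
  refine Near.ne_iterate hp (b - a) hG (G^[a] x) (h1 a) (by omega) ?_
  rw [← Function.iterate_add_apply, Nat.sub_add_cancel hab.le]
  exact h.symm

end Padic

end Pool.Agent.P.MP_b75a1e_co
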