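import Pool.Agent.K.MP_b75a1e_co.C3
import Pool.Agent.P.MP_ad7a55_nt.SgD

-- part Pool.Agent.P.MP_b75a1e_co.EGMid
section

set_option autoImplicit false

open Finset
open scoped BigOperators ComplexConjugate

namespace Pool.Agent.P.MP_b75a1e_co.EG

theorem split_EGMid (N : ℤ) (d : ℕ) (hd : d ≠ 0) : ∃ D B : ℕ, d = D * B ∧ IsCoprime (D : ℤ) N ∧
    ∀ l : ℕ, l.Prime → l ∣ B → (l : ℤ) ∣ N := by
  induction d using induction_on_primes with
  | zero => exact absurd rfl hd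
  | one => exact ⟨1, 1, rfl, by simpa using isCoprime_one_left, fun l hl h =>
      absurd (Nat.dvd_one.1 h) hl.ne_one⟩
  | prime_mul p a hp ih =>
    obtain ⟨D, B, h1, h2, h3⟩ := ih (by rintro rfl; simp at hd)
    by_cases h : (p : ℤ) ∣ N
    · refine ⟨D, p * B, by rw [h1]; ring, h2, fun l hl hl' => ?_⟩
      rcases (Nat.Prime.dvd_mul hl).1 hl' with e | e
      · rwa [(Nat.prime_dvd_prime_iff_eq hl hp).1 e]
      · exact h3 l hl e
    · refine ⟨p * D, B, by rw [h1]; ring, ?_, h3⟩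
      push_cast
      exact IsCoprime.mul_left
        ((Nat.prime_iff_prime_int.1 hp).irreducible.coprime_iff_not_dvd.2 h) h2

/-- Some group of blocks meets `d` only in small parts. -/
theorem good_group (Y d : ℕ) (hd : 1 ≤ d) (hR : Rough Y d) (N : Fin 100 × Fin 300 → ℤ)
    (hN : ∀ b b', b ≠ b' → Cop Y (N b) (N b')) :
    ∃ g : Fin 100, ∀ c : Fin 300, ∃ b : ℕ, b ^ 100 ≤ d ∧
      ∀ d2, d2 ∣ d → ∃ d1, d1 ∣ d2 ∧ d2 ≤ d1 * b ∧ IsCoprime (d1 : ℤ) (N (g, c)) := by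
  choose D B h1 h2 h3 using fun b => split_EGMid (N b) d (by omega)
  have hB : ∀ b, B b ∣ d := fun b => ⟨D b, (h1 b).trans (mul_comm _ _)⟩
  have key : ∃ g : Fin 100, ∀ c : Fin 300, B (g, c) ^ 100 ≤ d := by
    by_contra hn
    push Not at hn
    choose c hc using hn
    have h4 : ∏ g, B (g, c g) ∣ d := by
      refine Finset.prod_dvd_of_isRelPrime (fun g _ g' _ hg => ?_) fun g _ => hB _
      refine Nat.coprime_iff_isRelPrime.1 (Nat.coprime_of_dvd fun l hl a b => ?_)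
      exact hN _ _ (fun e => hg (congrArg Prod.fst e)) l hl (hR l hl (a.trans (hB _)))
        (h3 _ l hl a) (h3 _ l hl b)
    have h5 : ∏ _g : Fin 100, d < ∏ g, B (g, c g) ^ 100 :=
      Finset.prod_lt_prod_of_nonempty (fun _ _ => hd) (fun g _ => hc g) univ_nonempty
    rw [Finset.prod_pow, Finset.prod_const, card_univ, Fintype.card_fin] at h5
    exact absurd (Nat.pow_le_pow_left (Nat.le_of_dvd hd h4) 100) (not_le.2 h5)
  obtain ⟨g, hg⟩ := key
  refine ⟨g, fun c => ⟨_, hg c, fun d2 h => ?_⟩⟩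
  rw [h1 (g, c)] at h
  obtain ⟨d1, b, e1, e2, rfl⟩ := exists_dvd_and_dvd_of_dvd_mul h
  exact ⟨d1, dvd_mul_right _ _, Nat.mul_le_mul_left _
    (Nat.le_of_dvd (Nat.pos_of_dvd_of_pos (hB _) hd) e2),
    (h2 _).of_isCoprime_of_dvd_left (Int.natCast_dvd_natCast.2 e1)⟩

theorem Zc_nonneg_EGMid {m r : ℕ} (d : ℕ) (z : Fin 3 → Fin r → O m) : 0 ≤ Zc d z := by
  refine sum_nonneg fun d1 _ => mul_nonneg (mul_nonneg (by positivity) ?_) ?_
  · unfold cY
    split_ifs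
    · exact expect_nonneg fun q _ => by split_ifs <;> norm_num
    · exact le_rfl
  · unfold cX
    split_ifs
    · exact expect_nonneg fun q _ => by split_ifs <;> norm_num
    · exact le_rfl

theorem P_nonneg_EGMid {m r : ℕ} (z : Fin 100 × Fin 300 → Fin 3 → Fin r → O m) (d : ℕ)
    (g : Fin 100) : 0 ≤ ∏ c : Fin 300, ((d : ℝ) ^ (1 / 50 : ℝ) * Zc d (z (g, c))) :=
  prod_nonneg fun c _ => mul_nonneg (by positivity) (Zc_nonneg_EGMid _ _)

theorem one_EGMid {m Y r d e : ℕ} (hm : 1 ≤ m) (hc : Nat.Coprime d (2 * m)) (Γ : O m)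
    (z : Fin 100 × Fin 300 → Fin 3 → Fin r → O m)
    (hN : ∀ b b', b ≠ b' → Cop Y (blockB (z b)).norm (blockB (z b')).norm)
    (hd : 1 ≤ d) (hR : Rough Y d) (γ : O m) (he : d ≤ e ^ 2)
    (heγ : ∀ f : ℕ, 1 ≤ f → (d : O m) ∣ (f : O m) * (γ * (Γ * midC z)) → e ≤ f) :
    ‖ch (midY Γ z) (ph m γ / d)‖ ≤ WW z d := by
  obtain ⟨g, hg⟩ := good_group Y d hd hR _ hN
  let F : Fin 100 × Fin 300 → ℝ := fun b =>
    ‖ch (fun q : ((Fin r → Bool) × (Fin r → Bool)) × (Fin r → Bool) =>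
      cube (z b 2) q.2 * yy (z b 0) (z b 1) q.1)
      (ph m (γ * (Γ * ∏ b' ∈ univ.erase b, blockB (z b'))) / d)‖
  have h1 : ‖ch (midY Γ z) (ph m γ / d)‖ = ∏ b, F b := by
    have := ch_pi (ι := Fin 100 × Fin 300)
      (Ω := fun _ => ((Fin r → Bool) × (Fin r → Bool)) × (Fin r → Bool))
      (fun b q => (Γ * ∏ b' ∈ univ.erase b, blockB (z b')) *
        (cube (z b 2) q.2 * yy (z b 0) (z b 1) q.1)) (ph m γ / d)
    refine (congrArg norm this).trans ?_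
    rw [norm_prod]
    refine prod_congr rfl fun b _ => ?_
    rw [ch_mul, div_mul_eq_mul_div, ← map_mul]
  have h2 : ∀ c, F (g, c) ^ 2 ≤ (d : ℝ) ^ (1 / 50 : ℝ) * Zc d (z (g, c)) := fun c => by
    obtain ⟨b, b1, b2⟩ := hg c
    refine block_mid m r d b e hm hd hc _ _ b1 b2 he fun f hf h => heγ f hf (h.trans ?_)
    refine ⟨blockB (z (g, c)), ?_⟩
    rw [midC, ← mul_prod_erase univ (fun b => blockB (z b)) (mem_univ (g, c))]
    ring
  have h0 : ∀ b, 0 ≤ F b := fun b => norm_nonneg _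
  have h3 : ∏ b, F b ≤ ∏ c, F (g, c) := by
    rw [Fintype.prod_prod_type, ← mul_prod_erase univ _ (mem_univ g)]
    exact mul_le_of_le_one_right (prod_nonneg fun c _ => h0 _) (prod_le_one
      (fun a _ => prod_nonneg fun c _ => h0 _) fun a _ =>
        prod_le_one (fun c _ => h0 _) fun c _ => norm_ch_le _ _)
  have h4 : (∏ c, F (g, c)) ^ 2 ≤
      ∑ g : Fin 100, ∏ c : Fin 300, ((d : ℝ) ^ (1 / 50 : ℝ) * Zc d (z (g, c))) := by
    rw [← prod_pow]
    exact (prod_le_prod (fun c _ => sq_nonneg _) fun c _ => h2 c).trans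
      (single_le_sum (fun a _ => P_nonneg_EGMid z d a) (mem_univ g))
  rw [h1, WW]
  refine h3.trans ?_
  generalize ∏ c, F (g, c) = x at h4 ⊢
  generalize ∑ g : Fin 100, ∏ c : Fin 300, ((d : ℝ) ^ (1 / 50 : ℝ) * Zc d (z (g, c))) = P at h4 ⊢
  have h5 : (0 : ℝ) < (d : ℝ) ^ 4 := by positivity
  generalize (d : ℝ) ^ 4 = a at h5 ⊢
  rw [div_add' _ _ _ h5.ne', le_div_iff₀ h5]
  nlinarith [mul_le_mul_of_nonneg_right h4 (sq_nonneg a), sq_nonneg (x * a - 1), sq_nonneg (x * a)]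

theorem dvd_EGMid {m r : ℕ} (Γ : O m) (z : Fin 100 × Fin 300 → Fin 3 → Fin r → O m)
    (hz : ∀ b a i, mu m ∣ z b a i - star (z b a i)) (ω : OmM r) :
    mu m ∣ midY Γ z ω - 60000 * (Γ * midC z) := by
  have h : (60000 : O m) * (Γ * midC z) = ∑ _b : Fin 100 × Fin 300, 2 * (Γ * midC z) := by
    rw [sum_const, card_univ, Fintype.card_prod, Fintype.card_fin, Fintype.card_fin, nsmul_eq_mul]
    push_cast
    ring
  rw [h, midY, ← sum_sub_distrib]
  refine dvd_sum fun b _ => ?_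
  obtain ⟨u0, h0⟩ := dvd_cube_sub (z b 0) _ (hz b 0) (ω b).1.1
  obtain ⟨u1, h1⟩ := dvd_cube_sub (z b 1) _ (hz b 1) (ω b).1.2
  obtain ⟨u2, h2⟩ := dvd_cube_sub (z b 2) _ (hz b 2) (ω b).2
  rw [midC, ← mul_prod_erase univ (fun b => blockB (z b)) (mem_univ b), yy, eq_add_of_sub_eq h0,
    eq_add_of_sub_eq h1, eq_add_of_sub_eq h2]
  generalize ∏ b' ∈ univ.erase b, blockB (z b') = P
  rw [blockB]
  exact ⟨Γ * P * (u2 * ((mu m * u0 + base (z b 0)) * base (z b 1) +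
    base (z b 0) * (mu m * u1 + base (z b 1))) +
      base (z b 2) * (u0 * base (z b 1) + base (z b 0) * u1)), by ring⟩

theorem ch_dv_EGMid {m d : ℕ} (hm : 1 ≤ m) (hd : 1 ≤ d) {Ω : Type} [Fintype Ω] (X : Ω → O m)
    (h : ∀ ω, mu m ∣ X ω) (β ν : O m) (hν : (d : O m) ∣ ν * mu m - 1) :
    ch (fun ω => dv (X ω)) (ph m β / d) = ch X (ph m (β * ν) / d) := by
  refine expect_congr rfl fun ω _ => ?_
  obtain ⟨k, hk⟩ := hν
  have e : β * ν * X ω = β * dv (X ω) + (d : O m) * (k * (β * dv (X ω))) := by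
    conv_lhs => rw [← mu_mul_dv (h ω)]
    linear_combination (β * dv (X ω)) * hk
  have hd' : (d : ℝ) ≠ 0 := by positivity
  have := pr_ph_div hm β (dv (X ω)) d
  have := pr_ph_div hm (β * ν) (X ω) d
  simp only [Complex.ofReal_natCast] at *
  simp only [*]
  rw [Zsqrtd.im_add, Zsqrtd.im_mul (d : O m), Zsqrtd.re_natCast, Zsqrtd.im_natCast, zero_mul,
    add_zero]
  push_cast
  rw [add_div, mul_div_cancel_left₀ _ hd', ee_add, ee_int, mul_one]

theorem prim_EGMid {m d n : ℕ} {β : O m} (hβ : PrimAt β d) (h : (d : O m) ∣ (n : O m) * β) :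
    d ∣ n := by
  obtain ⟨h1, h2⟩ := (nat_dvd_iff d _).1 h
  simp only [Zsqrtd.re_mul, Zsqrtd.im_mul, Zsqrtd.re_natCast, Zsqrtd.im_natCast, mul_zero,
    zero_mul, add_zero] at h1 h2
  have h3 : d ∣ n * Int.gcd β.re β.im := by
    rw [← Int.natCast_dvd_natCast]
    push_cast
    rw [Int.gcd_eq_gcd_ab, mul_add, ← mul_assoc, ← mul_assoc]
    exact (h1.mul_right _).add (h2.mul_right _)
  refine Nat.Coprime.dvd_of_dvd_mul_right (Nat.coprime_of_dvd fun l hl a b => ?_) h3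
  have b' := Int.natCast_dvd_natCast.2 b
  exact hβ l hl a ((nat_dvd_iff l β).2
    ⟨b'.trans (Int.gcd_dvd_left ..), b'.trans (Int.gcd_dvd_right ..)⟩)

/-- L11: the pointwise bound for the middle families. -/
theorem mid_bound (m Y r d : ℕ) (hm : 1 ≤ m) (hY : 2 ≤ Y) (hsm : Smo Y m) (Γ : O m)
    (z : Fin 100 × Fin 300 → Fin 3 → Fin r → O m)
    (hG : IsCoprime (Γ * midC z) (star (Γ * midC z)))
    (hz : ∀ b a i, mu m ∣ z b a i - star (z b a i))
    (hN : ∀ b b', b ≠ b' → Cop Y (blockB (z b)).norm (blockB (z b')).norm)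
    (hd : 1 < d) (hR : Rough Y d) (β : O m) (hβ : PrimAt β d) :
    ‖ch (fun ω : OmM r × OmM r => dv (midY Γ z ω.1 + star (midY Γ z ω.2) -
      (60000 : O m) * (Γ * midC z + star (Γ * midC z)))) (ph m β / d)‖ ≤ WW z d := by
  classical
  have hc : Nat.Coprime d (2 * m) := Nat.coprime_of_dvd fun l hl a b => by
    have h1 := hR l hl a
    rcases (Nat.Prime.dvd_mul hl).1 b with e | e
    · have := Nat.le_of_dvd two_pos e
      omega
    · have := hsm l hl e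
      omega
  obtain ⟨a, b, hab⟩ : IsCoprime (d : ℤ) ((m : ℤ) ^ 2) :=
    (Nat.isCoprime_iff_coprime.2 (hc.coprime_dvd_right (dvd_mul_left m 2))).pow_right
  have hν : (d : O m) ∣ -rt m * (b : O m) * mu m - 1 := by
    have h1 : ((a * d + b * (m : ℤ) ^ 2 : ℤ) : O m) = 1 := by rw [hab, Int.cast_one]
    push_cast at h1
    refine ⟨-(a : O m), ?_⟩
    rw [mu_eq]
    linear_combination h1 - (b : O m) * (m : O m) * rt_sq (m := m)
  generalize -rt m * (b : O m) = ν at hν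
  rw [ch_dv_EGMid hm hd.le _ (fun ω => ?_) β ν hν]
  swap
  · have h1 := dvd_EGMid Γ z hz ω.1
    have h2 := dvd_star (dvd_EGMid Γ z hz ω.2)
    rw [star_mu, neg_dvd, star_sub, star_mul', star_ofNat] at h2
    have := h1.add h2
    rwa [show midY Γ z ω.1 - 60000 * (Γ * midC z) + (star (midY Γ z ω.2) -
      60000 * star (Γ * midC z)) = midY Γ z ω.1 + star (midY Γ z ω.2) -
        60000 * (Γ * midC z + star (Γ * midC z)) by ring] at this
  rw [norm_ch_sub_const (fun ω : OmM r × OmM r => midY Γ z ω.1 + star (midY Γ z ω.2)),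
    ch_prod (midY Γ z) fun ω => star (midY Γ z ω), ch_star, norm_mul,
    show -conj (ph m (β * ν) / d) = ph m (-star (β * ν)) / d by
      rw [map_neg, ph_star, map_div₀, map_natCast, neg_div]]
  have ex : ∀ γ : O m, ∃ f : ℕ, 1 ≤ f ∧ (d : O m) ∣ (f : O m) * (γ * (Γ * midC z)) := fun γ =>
    ⟨d, hd.le, dvd_mul_right _ _⟩
  have h1 := Nat.find_spec (ex (β * ν))
  have h2 := Nat.find_spec (ex (-star (β * ν)))
  have h3 := fun γ he => one_EGMid hm hc Γ z hN hd.le hR γ (e := Nat.find (ex γ)) he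
    fun f hf h => Nat.find_min' (ex γ) ⟨hf, h⟩
  have h4 : d ∣ Nat.find (ex (β * ν)) * Nat.find (ex (-star (β * ν))) := by
    refine prim_EGMid hβ ?_
    generalize Nat.find (ex (β * ν)) = e1 at h1 ⊢
    generalize Nat.find (ex (-star (β * ν))) = e2 at h2 ⊢
    generalize Γ * midC z = G at h1 h2 hG
    have h5 := dvd_star h2.2
    rw [star_natCast, star_mul', star_natCast, star_mul', star_neg, star_star] at h5
    obtain ⟨u, v, huv⟩ := hG
    obtain ⟨k1, e1'⟩ := h1.2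
    obtain ⟨k2, e2'⟩ := h5
    obtain ⟨k, hk⟩ := hν
    refine ⟨mu m * (u * e2 * k1 - v * e1 * k2) - e1 * e2 * β * k, ?_⟩
    push_cast
    linear_combination (mu m * u * e2) * e1' - (mu m * v * e1) * e2' - (e1 * e2 * β) * hk -
      (e1 * e2 * β * ν * mu m) * huv
  have h5 := Nat.le_of_dvd (Nat.mul_pos h1.1 h2.1) h4
  rcases le_total (Nat.find (ex (β * ν))) (Nat.find (ex (-star (β * ν)))) with h | h
  · exact (mul_le_of_le_one_left (norm_nonneg _) (norm_ch_le _ _)).trans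
      (h3 _ (h5.trans (by rw [sq]; exact Nat.mul_le_mul_right _ h)))
  · exact (mul_le_of_le_one_right (norm_nonneg _) (norm_ch_le _ _)).trans
      (h3 _ (h5.trans (by rw [sq]; exact Nat.mul_le_mul_left _ h)))

theorem WW_nonneg {m r : ℕ} (z : Fin 100 × Fin 300 → Fin 3 → Fin r → O m) (d : ℕ) : 0 ≤ WW z d :=
  add_nonneg (by positivity)
    (mul_nonneg (by positivity) (sum_nonneg fun g _ => P_nonneg_EGMid z d g))

end Pool.Agent.P.MP_b75a1e_co.EG
end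

-- part Pool.Agent.P.MP_b75a1e_co.EGStep
section

set_option autoImplicit false

open Finset
open scoped BigOperators ComplexConjugate

namespace Pool.Agent.P.MP_b75a1e_co.EG

theorem pf_card_EGStep (N b : ℕ) (h : N ≤ 2 ^ b) : N.primeFactors.card ≤ b := by
  rcases Nat.eq_zero_or_pos N with h0 | h0
  · simp [h0]
  have h1 : 2 ^ N.primeFactors.card ≤ ∏ l ∈ N.primeFactors, l :=
    Finset.pow_card_le_prod _ _ _ fun l hl => (Nat.prime_of_mem_primeFactors hl).two_le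
  have h2 : ∏ l ∈ N.primeFactors, l ≤ N := Nat.le_of_dvd h0 (Nat.prod_primeFactors_dvd N)
  exact (Nat.pow_le_pow_iff_right (by norm_num : 1 < 2)).1 (h1.trans (h2.trans h))

theorem norm_sub_le_EGStep {m : ℕ} (v w : O m) : (v - w).norm ≤ 2 * v.norm + 2 * w.norm := by
  rw [norm_eq, norm_eq, norm_eq, Zsqrtd.re_sub, Zsqrtd.im_sub]
  have hm : (0 : ℤ) ≤ m := Int.natCast_nonneg m
  nlinarith [sq_nonneg (v.re + w.re), mul_nonneg hm (sq_nonneg (v.im + w.im))]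

theorem sumRes_zero_EGStep {m : ℕ} (e : O m) : SumRes e 0 0 :=
  ⟨0, by simp, by simp, by simp⟩

theorem kappa_EGStep (p κ : ℕ) (hp : 10 ^ 20 ≤ p) (hκ2 : κ ^ 2 ≤ p) : 1002 * κ ≤ p := by
  rcases le_total 1002 κ with h | h
  · calc 1002 * κ ≤ κ * κ := Nat.mul_le_mul_right _ h
      _ = κ ^ 2 := by ring
      _ ≤ p := hκ2
  · omega

theorem kappa_pos_EGStep (p κ : ℕ) (hp : 10 ^ 20 ≤ p) (hκ1 : p ^ 20 ≤ 2 ^ κ) : 1 ≤ κ := by
  rcases Nat.eq_zero_or_pos κ with h | h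
  · subst h
    have h2 : 2 ^ 20 ≤ p ^ 20 := Nat.pow_le_pow_left (by omega) 20
    omega
  · exact h

theorem sq_EGStep (p κ : ℕ) (hκ1 : p ^ 20 ≤ 2 ^ κ) : p ^ 40 ≤ 2 ^ (2 * κ) := by
  calc p ^ 40 = (p ^ 20) ^ 2 := by ring
    _ ≤ (2 ^ κ) ^ 2 := Nat.pow_le_pow_left hκ1 2
    _ = 2 ^ (2 * κ) := by ring

theorem expo_EGStep (k r r' j w : ℕ) (hk : 1 ≤ k) (h1 : r ≤ k * r') (h2 : 1000 * k * r' ≤ 1001 * r)
    (hw : 999 * r ≤ 1000 * w + 1000) :
    (998 / 1000 : ℝ) * k * ((r + r' : ℕ) : ℝ) * (1 - ((k : ℝ) / (k + 1)) ^ (j + 1)) - 2 * ((j + 1 : ℕ) : ℝ)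
      ≤ ((w : ℝ) - 1) + ((998 / 1000 : ℝ) * k * r * (1 - ((k : ℝ) / (k + 1)) ^ j) - 2 * j) := by
  have hk' : (1 : ℝ) ≤ k := by exact_mod_cast hk
  have h1' : (r : ℝ) ≤ k * r' := by exact_mod_cast h1
  have h2' : (1000 : ℝ) * k * r' ≤ 1001 * r := by exact_mod_cast h2
  have hw' : (999 : ℝ) * r ≤ 1000 * w + 1000 := by exact_mod_cast hw
  have hr0 : (0 : ℝ) ≤ r := Nat.cast_nonneg r
  have hq : (0 : ℝ) ≤ ((k : ℝ) / (k + 1)) ^ j := by positivity
  have hq1 : (r : ℝ) ≤ ((r : ℝ) + r') * ((k : ℝ) / (k + 1)) := by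
    rw [mul_div_assoc', le_div_iff₀ (by linarith)]
    nlinarith
  rw [pow_succ]
  generalize ((k : ℝ) / (k + 1)) ^ j = x at hq ⊢
  generalize ((k : ℝ) / (k + 1)) = q at hq1 ⊢
  push_cast
  have h3 : (k : ℝ) * x * r ≤ k * x * (((r : ℝ) + r') * q) :=
    mul_le_mul_of_nonneg_left hq1 (mul_nonneg (by linarith) hq)
  nlinarith

/-- The first state of the tower. -/
theorem start (m p κ : ℕ) (hm : 2 ≤ m) (hmp : m ≤ 4 ^ p) (hp : 10 ^ 20 ≤ p) (hκ1 : p ^ 20 ≤ 2 ^ κ)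
    (PP : Finset ℕ) (hPP : ∀ l ∈ PP, Split m l) (hc : 2 ^ (998 * κ) ≤ PP.card) :
    ∃ S : St m, S.Ok PP (996 * κ) 0 ∧ p ^ 4 ≤ S.D.card ∧ S.D.card ≤ p ^ 4 + p ^ 2 := by
  have hp6 : 10 ^ 6 ≤ p := le_trans (by norm_num) hp
  have hκ : 1 ≤ κ := kappa_pos_EGStep p κ hp hκ1
  have hcard : 2 ^ (0 + 5) * 1 + p ^ 4 + 2 * p ^ 2 ≤ PP.card := by
    have h1 : 2 ^ κ ≤ 2 ^ (998 * κ) := Nat.pow_le_pow_right (by norm_num) (by omega)
    have h2 : p ^ 5 ≤ p ^ 20 := Nat.pow_le_pow_right (by omega) (by norm_num)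
    have h3 : p ^ 2 ≤ p ^ 4 := Nat.pow_le_pow_right (by omega) (by norm_num)
    have h4 : 1 ≤ p ^ 4 := Nat.one_le_pow _ _ (by omega)
    have h5 : 100 * p ^ 4 ≤ p ^ 5 := by
      calc 100 * p ^ 4 ≤ p * p ^ 4 := Nat.mul_le_mul_right _ (by omega)
        _ = p ^ 5 := by ring
    omega
  have h4 : 1 ≤ p ^ 4 := Nat.one_le_pow _ _ (by omega)
  obtain ⟨D, hD, ρ, E, hB, hτ1, hτ2, hbig, -⟩ := level m p hm hmp hp6 PP hPP ∅ 0 1
    (2 ^ (0 + 5) * 1) (p ^ 4) 0 hcard le_rfl le_rfl (by simp) (by simp) (by omega)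
  have hE : E.Nonempty := by
    rw [← Finset.card_pos]
    rcases Nat.eq_zero_or_pos E.card with h0 | h0
    · rw [h0] at hbig
      simp at hbig
    · exact h0
  obtain ⟨e, he⟩ := hE
  refine ⟨⟨D, ρ, E, e, fun j => if j = 0 then {0} else ∅⟩, ⟨hD, hB, hbig, he, ?_, ?_⟩, hτ1, hτ2⟩
  · intro j u hu
    by_cases hj : j = 0
    · subst hj
      simp only [if_true, Finset.mem_singleton] at hu
      subst hu
      exact sumRes_zero_EGStep e
    · simp [hj] at hu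
  · intro j hj
    obtain rfl : j = 0 := by omega
    simp

/-- One step of the tower. -/
theorem step (m p κ i : ℕ) (hm : 2 ≤ m) (hmp : m ≤ 4 ^ p) (hp : 10 ^ 20 ≤ p) (hκ1 : p ^ 20 ≤ 2 ^ κ)
    (hκ2 : κ ^ 2 ≤ p) (PP : Finset ℕ) (hPP : ∀ l ∈ PP, Split m l ∧ l ≤ 2 ^ (1001 * κ))
    (hc : 2 ^ (998 * κ) ≤ PP.card) (S : St m) (hS : S.Ok PP (996 * κ) i) (h1 : p ^ 4 ≤ S.D.card)
    (h2 : S.D.card ≤ p ^ 37) :
    ∃ S' : St m, S'.Ok PP (996 * κ) (i + 1) ∧ S.e ∣ S'.e ∧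
      (996 * κ + 1) * S.D.card ≤ 996 * κ * S'.D.card ∧
      1000 * (996 * κ) * S'.D.card ≤ (1000 * (996 * κ) + 1001) * S.D.card := by
  classical
  have hp6 : 10 ^ 6 ≤ p := le_trans (by norm_num) hp
  have hκ : 1 ≤ κ := kappa_pos_EGStep p κ hp hκ1
  have hκp : 1002 * κ ≤ p := kappa_EGStep p κ hp hκ2
  have hsq := sq_EGStep p κ hκ1
  have hm1 : 1 ≤ m := by omega
  obtain ⟨k, hk⟩ : ∃ k, k = 996 * κ := ⟨_, rfl⟩
  obtain ⟨r, hr⟩ : ∃ r, r = S.D.card := ⟨_, rfl⟩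
  obtain ⟨w, hw⟩ : ∃ w, w = 999 * r / 1000 := ⟨_, rfl⟩
  have hk1 : 1 ≤ k := by omega
  rw [← hk] at hS ⊢
  rw [← hr] at h1 h2 ⊢
  have hwV : 2 ^ w ≤ S.V.card := by
    have h3 : (2 ^ w) ^ 1000 ≤ S.V.card ^ 1000 := by
      calc (2 ^ w) ^ 1000 = 2 ^ (w * 1000) := (pow_mul 2 w 1000).symm
        _ ≤ 2 ^ (999 * S.D.card) := Nat.pow_le_pow_right (by norm_num) (by omega)
        _ ≤ _ := hS.big
    exact (Nat.pow_le_pow_iff_left (by norm_num)).1 h3
  obtain ⟨W, hWV, hWc⟩ := Finset.exists_subset_card_eq hwV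
  have hp37 : 1 ≤ p ^ 37 := Nat.one_le_pow _ _ (by omega)
  have hp2 : p ^ 2 ≤ p ^ 37 := Nat.pow_le_pow_right (by omega) (by norm_num)
  have hp38 : 100 * p ^ 37 ≤ p ^ 38 := by
    calc 100 * p ^ 37 ≤ p * p ^ 37 := Nat.mul_le_mul_right _ (by omega)
      _ = p ^ 38 := by ring
  have hp40 : 64 * p ^ 38 ≤ p ^ 40 := by
    calc 64 * p ^ 38 ≤ p * p ^ 38 := Nat.mul_le_mul_right _ (by omega)
      _ = p ^ 39 := by ring
      _ ≤ p ^ 40 := Nat.pow_le_pow_right (by omega) (by norm_num)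
  have hpow : 2 ^ (998 * κ) = 2 * 2 ^ (998 * κ - 1) := by
    rw [← pow_succ']
    congr 1
    omega
  have hpow2 : 2 ^ (2 * κ) ≤ 2 ^ (998 * κ - 1) := Nat.pow_le_pow_right (by norm_num) (by omega)
  have hdiv : r / k ≤ r := Nat.div_le_self _ _
  have hcard : 2 ^ (998 * κ - 1) + (r / k + 1) + 2 * p ^ 2 ≤ (PP \ S.D).card := by
    have h3 := Finset.le_card_sdiff S.D PP
    omega
  have hlam : 2 ^ (k + 5) * p ^ 38 ≤ 2 ^ (998 * κ - 1) := by
    have h3 : 2 ^ (998 * κ) = 2 ^ k * 2 ^ (2 * κ) := by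
      rw [← pow_add]
      congr 1
      omega
    have h4 : 2 ^ k * (64 * p ^ 38) ≤ 2 ^ k * 2 ^ (2 * κ) :=
      Nat.mul_le_mul_left _ (hp40.trans hsq)
    have h5 : 2 ^ k * (64 * p ^ 38) = 2 * (2 ^ (k + 5) * p ^ 38) := by ring
    omega
  have hn : (∏ l ∈ S.D, (l : ℤ)) ≤ 2 ^ (1001 * κ * r) := by
    have h3 : ∏ l ∈ S.D, l ≤ (2 ^ (1001 * κ)) ^ S.D.card :=
      Finset.prod_le_pow_card _ _ _ fun l hl => (hPP l (hS.sub hl)).2
    rw [← pow_mul, ← hr] at h3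
    have h4 : ((∏ l ∈ S.D, l : ℕ) : ℤ) ≤ ((2 ^ (1001 * κ * r) : ℕ) : ℤ) := Int.ofNat_le.2 h3
    rw [Nat.cast_prod, Nat.cast_pow] at h4
    exact h4
  have hW : ∀ v ∈ W, ∀ v' ∈ W, v ≠ v' → (v - v').norm.natAbs.primeFactors.card ≤ p ^ 38 := by
    intro v hv v' hv' _
    have h3 := norm_sub_le_EGStep v v'
    rw [hS.box.nrm v (hWV hv), hS.box.nrm v' (hWV hv')] at h3
    have h4 : (v - v').norm.natAbs ≤ 2 ^ (1001 * κ * r + 2) := by
      have h5 : (((v - v').norm.natAbs : ℕ) : ℤ) ≤ 2 ^ (1001 * κ * r + 2) := by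
        rw [Int.natAbs_of_nonneg (norm_nonneg' _), pow_add]
        linarith
      exact_mod_cast h5
    refine (pf_card_EGStep _ _ h4).trans ?_
    have h6 : 1001 * κ * r ≤ 1001 * κ * p ^ 37 := Nat.mul_le_mul_left _ h2
    have h7 : 1002 * κ * p ^ 37 ≤ p * p ^ 37 := Nat.mul_le_mul_right _ hκp
    have h8 : p * p ^ 37 = p ^ 38 := by ring
    have h9 : 1 * p ^ 37 ≤ κ * p ^ 37 := Nat.mul_le_mul_right _ hκ
    have h10 : 2 ≤ p ^ 37 := le_trans (by nlinarith) hp2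
    have h11 : 1002 * κ * p ^ 37 = 1001 * κ * p ^ 37 + κ * p ^ 37 := by ring
    omega
  have hτ0 : r + 1 ≤ k * (r / k + 1) := Nat.lt_mul_div_succ r hk1
  have hτ : r + 1 ≤ (k + 1) * (r / k + 1) := hτ0.trans (Nat.mul_le_mul_right _ (by omega))
  have hWr : W.card ≤ 2 ^ r := by
    rw [hWc]
    exact Nat.pow_le_pow_right (by norm_num) (by omega)
  obtain ⟨D, hD, ρ, E, hB, hτ1, hτ2, hbig, W', hW'W, hW'c, hsep⟩ := level m p hm hmp hp6 (PP \ S.D)
    (fun l hl => (hPP l (Finset.mem_sdiff.1 hl).1).1) W k (p ^ 38) (2 ^ (998 * κ - 1)) (r / k + 1) r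
    hcard (by omega) hlam hW hWr hτ
  have hE : E.Nonempty := by
    rw [← Finset.card_pos]
    rcases Nat.eq_zero_or_pos E.card with h0 | h0
    · rw [h0] at hbig
      simp at hbig
    · exact h0
  obtain ⟨e, he⟩ := hE
  have hDs : ∀ l ∈ D, Split m l := fun l hl => (hPP l (Finset.mem_sdiff.1 (hD hl)).1).1
  have hSs : ∀ l ∈ S.D, Split m l := fun l hl => (hPP l (hS.sub hl)).1
  have hdisj : Disjoint S.D D :=
    Finset.disjoint_left.2 fun l hl hl' => (Finset.mem_sdiff.1 (hD hl')).2 hl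
  obtain ⟨hBm, hBc⟩ := Box.mul hm hS.box hB hdisj hSs hDs
  have hcu : (S.D ∪ D).card = r + D.card := by rw [Finset.card_union_of_disjoint hdisj, hr]
  have hlow : r ≤ k * D.card := le_trans (by omega) (hτ0.trans (Nat.mul_le_mul_left _ hτ1))
  have hup : 1000 * k * D.card ≤ 1001 * r := by
    have h3 : k * D.card ≤ k * (r / k + 1 + p ^ 2) := Nat.mul_le_mul_left _ hτ2
    have h4 : k * (r / k) ≤ r := Nat.mul_div_le _ _
    have h5 : k ≤ p := by omega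
    have h6 : 1 ≤ p ^ 2 := Nat.one_le_pow _ _ (by omega)
    have h7 : k * (1 + p ^ 2) ≤ p * (2 * p ^ 2) := Nat.mul_le_mul h5 (by omega)
    have h8 : 2000 * p ^ 3 ≤ p ^ 4 := by
      calc 2000 * p ^ 3 ≤ p * p ^ 3 := Nat.mul_le_mul_right _ (by omega)
        _ = p ^ 4 := by ring
    have h9 : p * (2 * p ^ 2) = 2 * p ^ 3 := by ring
    have h10 : k * (r / k + 1 + p ^ 2) = k * (r / k) + k * (1 + p ^ 2) := by ring
    have h11 : 1000 * k * D.card = 1000 * (k * D.card) := by ring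
    omega
  have hen : e.norm = ∏ l ∈ D, (l : ℤ) := hB.nrm e he
  have he0 : e ≠ 0 := by
    intro h0
    rw [h0, Zsqrtd.norm_zero] at hen
    exact Finset.prod_ne_zero_iff.2
      (fun l hl => Int.natCast_ne_zero.2 (hDs l hl).1.ne_zero) hen.symm
  have hcop : IsCoprime e (star e) := hB.coprime_star hDs he
  have hres : (m : O m) ^ 2 ∣ star e - e := by
    have h3 := dvd_star (hB.res e he)
    rw [star_pow, star_natCast, star_sub, star_intCast] at h3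
    have h4 : star e - e = (star e - (ρ : O m)) - (e - (ρ : O m)) := by ring
    rw [h4]
    exact dvd_sub h3 (hB.res e he)
  refine ⟨⟨S.D ∪ D, S.ρ * ρ, image₂ (· * ·) S.V E, S.e * e, fun j => match j with
      | 0 => {0}
      | j + 1 => image₂ (fun v u => star e * v + e * u) W' (S.U j)⟩,
    ⟨?_, hBm, ?_, Finset.mem_image₂_of_mem hS.mem he, ?_, ?_⟩, Dvd.intro _ rfl, ?_, ?_⟩
  · exact Finset.union_subset hS.sub fun l hl => (Finset.mem_sdiff.1 (hD hl)).1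
  · show 2 ^ (999 * (S.D ∪ D).card) ≤ (image₂ (· * ·) S.V E).card ^ 1000
    rw [hBc, hcu, mul_add, pow_add, mul_pow, hr]
    exact Nat.mul_le_mul hS.big hbig
  · intro j u hu
    cases j with
    | zero =>
      obtain rfl : u = 0 := Finset.mem_singleton.1 hu
      exact sumRes_zero_EGStep _
    | succ j =>
      obtain ⟨v, hv, u0, hu0, rfl⟩ := Finset.mem_image₂.1 hu
      obtain ⟨L, hL1, hL2, hL3⟩ := hS.sum j u0 hu0
      have hvV : v ∈ S.V := hWV (hW'W hv)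
      refine ⟨(star e * v) ::ₘ L.map (fun a => e * a), by simp [hL1], ?_, ?_⟩
      · intro a ha
        rcases Multiset.mem_cons.1 ha with rfl | ha
        · constructor
          · show (star e * v).norm = (S.e * e).norm
            rw [Zsqrtd.norm_mul, Zsqrtd.norm_mul, Zsqrtd.norm_conj, hS.box.nrm v hvV,
              hS.box.nrm _ hS.mem, mul_comm]
          · show (m : O m) ^ 2 ∣ star e * v - S.e * e
            have h3 : star e * v - S.e * e =
                (star e - e) * v + e * ((v - (S.ρ : O m)) - (S.e - (S.ρ : O m))) := by ring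
            rw [h3]
            exact dvd_add (hres.mul_right _)
              ((dvd_sub (hS.box.res v hvV) (hS.box.res _ hS.mem)).mul_left _)
        · obtain ⟨a0, ha0, rfl⟩ := Multiset.mem_map.1 ha
          constructor
          · show (e * a0).norm = (S.e * e).norm
            rw [Zsqrtd.norm_mul, Zsqrtd.norm_mul, (hL2 a0 ha0).1, mul_comm]
          · show (m : O m) ^ 2 ∣ e * a0 - S.e * e
            have h3 : e * a0 - S.e * e = e * (a0 - S.e) := by ring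
            rw [h3]
            exact (hL2 a0 ha0).2.mul_left _
      · rw [Multiset.sum_cons, Multiset.sum_map_mul_left, Multiset.map_id', hL3]
  · intro j hj
    cases j with
    | zero => simp
    | succ j =>
      have hinj : Set.InjOn (fun x : O m × O m => star e * x.1 + e * x.2)
          ((W' : Set (O m)) ×ˢ (S.U j : Set (O m))) := by
        rintro ⟨v, u⟩ ⟨hv, -⟩ ⟨v', u'⟩ ⟨hv', -⟩ h
        have h3 : star e * v + e * u = star e * v' + e * u' := h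
        have h4 : e ∣ star e * (v - v') := ⟨u' - u, by linear_combination h3⟩
        have h5 : e ∣ v - v' := hcop.dvd_of_dvd_mul_left h4
        have h6 : v = v' := by
          by_contra hne
          exact hsep v hv v' hv' hne (hen ▸ norm_dvd_norm h5)
        subst h6
        have h7 : u = u' := o_cancel hm1 he0 (by linear_combination h3)
        rw [h7]
      have hcardU : (image₂ (fun v u => star e * v + e * u) W' (S.U j)).card =
          W'.card * (S.U j).card := Finset.card_image₂_iff.2 hinj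
      show (2 : ℝ) ^ ((998 / 1000 : ℝ) * k * ((S.D ∪ D).card : ℕ) *
          (1 - ((k : ℝ) / (k + 1)) ^ (j + 1)) - 2 * ((j + 1 : ℕ) : ℝ)) ≤
        ((image₂ (fun v u => star e * v + e * u) W' (S.U j)).card : ℝ)
      rw [hcardU, hcu, Nat.cast_mul]
      have h3 := hS.crd j (by omega)
      rw [← hr] at h3
      have h4 : (2 : ℝ) ^ ((w : ℝ) - 1) ≤ W'.card := by
        rw [Real.rpow_sub (by norm_num), Real.rpow_natCast, Real.rpow_one, div_le_iff₀ (by norm_num)]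
        rw [hWc] at hW'c
        have h5 : ((2 ^ w : ℕ) : ℝ) ≤ ((2 * W'.card : ℕ) : ℝ) := by exact_mod_cast hW'c
        push_cast at h5
        linarith
      calc _ ≤ (2 : ℝ) ^ (((w : ℝ) - 1) + ((998 / 1000 : ℝ) * k * r *
              (1 - ((k : ℝ) / (k + 1)) ^ j) - 2 * j)) :=
            Real.rpow_le_rpow_of_exponent_le (by norm_num)
              (expo_EGStep k r D.card j w hk1 hlow hup (by omega))
        _ = (2 : ℝ) ^ ((w : ℝ) - 1) * (2 : ℝ) ^ ((998 / 1000 : ℝ) * k * r *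
              (1 - ((k : ℝ) / (k + 1)) ^ j) - 2 * j) := Real.rpow_add (by norm_num) _ _
        _ ≤ _ := mul_le_mul h4 h3 (by positivity) (Nat.cast_nonneg _)
  · show (k + 1) * r ≤ k * (S.D ∪ D).card
    rw [hcu]
    nlinarith
  · show 1000 * k * (S.D ∪ D).card ≤ (1000 * k + 1001) * r
    rw [hcu]
    nlinarith

end Pool.Agent.P.MP_b75a1e_co.EG
end

-- part Pool.Agent.P.MP_b75a1e_co.FLBase0
section

set_option autoImplicit false

open Finset
open scoped BigOperators ComplexConjugate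

namespace Pool.Agent.P.MP_b75a1e_co.EG

variable {m : ℕ}

theorem copr_FLBase0 {a b : ℤ} (h : ∀ p : ℕ, p.Prime → (p : ℤ) ∣ a → (p : ℤ) ∣ b → False) :
    IsCoprime a b := by
  rw [Int.isCoprime_iff_gcd_eq_one]
  by_contra hne
  obtain ⟨p, hp, hd⟩ := Nat.exists_prime_and_dvd hne
  have hd' : (p : ℤ) ∣ (Int.gcd a b : ℤ) := Int.natCast_dvd_natCast.2 hd
  exact h p hp (hd'.trans (Int.gcd_dvd_left a b)) (hd'.trans (Int.gcd_dvd_right a b))

theorem sq_FLBase0 {n : ℤ} (h1 : Squarefree n.natAbs) {p : ℕ} (hp : p.Prime)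
    (h : (p : ℤ) ^ 2 ∣ n) : False := by
  have h2 : p * p ∣ n.natAbs := by
    have := Int.natAbs_dvd_natAbs.2 h
    rwa [Int.natAbs_pow, Int.natAbs_natCast, sq] at this
  exact hp.prime.not_isUnit (h1 p h2)

theorem cop_im {ε : O m} (h1 : Squarefree ε.norm.natAbs) : IsCoprime ε.norm ε.im := by
  refine copr_FLBase0 fun p hp ha hb => sq_FLBase0 h1 hp ?_
  have hP : Prime (p : ℤ) := Nat.prime_iff_prime_int.1 hp
  have h3 : (p : ℤ) ∣ ε.re ^ 2 := by
    have h4 : (p : ℤ) ∣ m * ε.im ^ 2 := Dvd.dvd.mul_left (dvd_pow hb two_ne_zero) _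
    rw [norm_eq] at ha
    exact (dvd_add_left h4).1 ha
  have h5 := hP.dvd_of_dvd_pow h3
  rw [norm_eq]
  exact dvd_add (pow_dvd_pow_of_dvd h5 2) (Dvd.dvd.mul_left (pow_dvd_pow_of_dvd hb 2) _)

theorem cop_star {ε : O m} (h1 : Squarefree ε.norm.natAbs)
    (h2 : Nat.Coprime ε.norm.natAbs (2 * m)) : IsCoprime ε (star ε) := by
  have h3 : IsCoprime ε.norm (2 * ε.re) := by
    refine copr_FLBase0 fun p hp ha hb => ?_
    have hP : Prime (p : ℤ) := Nat.prime_iff_prime_int.1 hp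
    have ha' : p ∣ ε.norm.natAbs := Int.natCast_dvd.1 ha
    have hn : ¬ p ∣ 2 * m := fun hd => hp.one_lt.ne' (Nat.eq_one_of_dvd_coprimes h2 ha' hd)
    have h4 : (p : ℤ) ∣ ε.re := by
      rcases hP.dvd_or_dvd hb with h | h
      · exact absurd (Dvd.dvd.mul_right (by exact_mod_cast h) _) hn
      · exact h
    have h5 : (p : ℤ) ∣ m * ε.im ^ 2 := by
      rw [norm_eq] at ha
      exact (dvd_add_right (dvd_pow h4 two_ne_zero)).1 ha
    rcases hP.dvd_or_dvd h5 with h | h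
    · exact hn (Dvd.dvd.mul_left (by exact_mod_cast h) _)
    · exact hP.not_isUnit ((cop_im h1).isUnit_of_dvd' ha (hP.dvd_of_dvd_pow h))
  obtain ⟨a, b, hab⟩ := h3
  have h6 : ((2 * ε.re : ℤ) : O m) = ε + star ε := by
    ext
    · simp; ring
    · simp
  have h7 : (a : O m) * (ε * star ε) + (b : O m) * (ε + star ε) = 1 := by
    rw [← h6, ← Zsqrtd.norm_eq_mul_conj]
    exact_mod_cast congrArg (fun z : ℤ => (z : O m)) hab
  exact ⟨a * star ε + b, b, by rw [← h7]; ring⟩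

theorem star_dvd_iff (hm : 1 ≤ m) {ε : O m} (h1 : Squarefree ε.norm.natAbs) (Y : O m) :
    star ε ∣ Y ↔ ε.norm ∣ (Y * ε).im := by
  constructor
  · rintro ⟨c, rfl⟩
    have h2 : star ε * c * ε = (ε.norm : O m) * c := by
      rw [Zsqrtd.norm_eq_mul_conj]; ring
    rw [h2]
    exact ⟨c.im, by simp⟩
  · intro h
    have h2 : Y * ε * star ε = (ε.norm : O m) * Y := by
      rw [Zsqrtd.norm_eq_mul_conj]; ring
    have h3 := congrArg Zsqrtd.im h2
    generalize hZ : Y * ε = Z at h h3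
    have h4 : Z.re * ε.im = Z.im * ε.re - ε.norm * Y.im := by
      simp at h3
      linarith
    have h5 : ε.norm ∣ Z.re := by
      refine (cop_im h1).dvd_of_dvd_mul_right ?_
      rw [h4]
      exact dvd_sub (Dvd.dvd.mul_right h _) (Dvd.intro _ rfl)
    obtain ⟨W, hW⟩ := (Zsqrtd.intCast_dvd ε.norm Z).2 ⟨h5, h⟩
    have h0 : ε ≠ 0 := by
      rintro rfl
      simp at h1
    refine ⟨W, o_cancel hm h0 ?_⟩
    rw [mul_comm ε Y, hZ, hW, Zsqrtd.norm_eq_mul_conj]; ring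

theorem cancel_unit {g : ℕ} {δ x : O m} (h : IsCoprime (g : ℤ) δ.norm) :
    ((g : O m) ∣ δ * x → (g : O m) ∣ x) ∧ ((g : O m) ∣ star δ * x → (g : O m) ∣ x) := by
  have h1 : IsCoprime (g : O m) (δ * star δ) := by
    rw [← Zsqrtd.norm_eq_mul_conj]
    have := h.intCast (R := O m)
    rwa [Int.cast_natCast] at this
  exact ⟨fun hd => h1.of_mul_right_left.dvd_of_dvd_mul_left hd,
    fun hd => h1.of_mul_right_right.dvd_of_dvd_mul_left hd⟩

theorem inv_spec {D : ℕ} (hD : 1 ≤ D) {n : ℤ} (h : IsCoprime (D : ℤ) n) :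
    (D : ℤ) ∣ n * ((((n : ZMod D)⁻¹).val : ℕ) : ℤ) - 1 := by
  have : NeZero D := ⟨by omega⟩
  rw [← ZMod.intCast_zmod_eq_zero_iff_dvd]
  have h1 : IsUnit (n : ZMod D) := (ZMod.coe_int_isUnit_iff_isCoprime n D).2 h
  push_cast
  rw [ZMod.natCast_val, ZMod.cast_id', id, ZMod.mul_inv_of_unit _ h1, sub_self]

theorem tb_spec {D : ℕ} (hD : 1 ≤ D) {δ : O m} (h : IsCoprime (D : ℤ) δ.norm) :
    (D : O m) ∣ star δ * tb D δ - δ := by
  obtain ⟨c, hc⟩ := inv_spec hD h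
  unfold tb
  generalize ((δ.norm : ZMod D)⁻¹).val = i at hc ⊢
  have h2 : (δ * star δ) * (i : O m) - 1 = (D : O m) * (c : O m) := by
    rw [← Zsqrtd.norm_eq_mul_conj]
    exact_mod_cast congrArg (fun z : ℤ => (z : O m)) hc
  refine ⟨δ * c, ?_⟩
  linear_combination δ * h2

theorem tb_norm {D : ℕ} (hD : 1 ≤ D) {δ : O m} (h : IsCoprime (D : ℤ) δ.norm) :
    (D : ℤ) ∣ (tb D δ).norm - 1 := by
  obtain ⟨c, hc⟩ := inv_spec hD h
  unfold tb
  generalize ((δ.norm : ZMod D)⁻¹).val = i at hc ⊢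
  rw [Zsqrtd.norm_mul, norm_pow', Zsqrtd.norm_natCast]
  refine ⟨c * (δ.norm * i + 1), ?_⟩
  linear_combination (δ.norm * i + 1) * hc

theorem tb_shift (D : ℕ) (δ v : O m) : (D : O m) ∣ tb D (δ + (D : O m) * v) - tb D δ := by
  have h1 : (((δ + (D : O m) * v).norm : ℤ) : ZMod D) = (δ.norm : ZMod D) := by
    rw [norm_eq, norm_eq]
    simp
  unfold tb
  rw [h1]
  generalize ((δ.norm : ZMod D)⁻¹).val = i
  exact ⟨(2 * δ * v + D * v ^ 2) * i, by ring⟩

variable {y J : ℕ} {k : ℝ} {F : Finset (O m)}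

theorem Fam.ne (h : Fam m y J k F) (hm : 1 ≤ m) : F.Nonempty := by
  rw [Finset.nonempty_iff_ne_empty]
  rintro rfl
  have h1 := h.big
  have h2 := h.pos
  have h3 := h.thin
  have h4 : 1 ≤ 10 * m ^ 2 * J := Nat.one_le_iff_ne_zero.2 (by positivity)
  have h5 : (0 : ℝ) < (y : ℝ) * J := by
    have : 0 < y * J := Nat.mul_pos (by omega) (by omega)
    exact_mod_cast this
  simp only [Finset.card_empty, Nat.cast_zero, mul_zero] at h1
  linarith

theorem Fam.im_ne (h : Fam m y J k F) {δ : O m} (hδ : δ ∈ F) : δ.im ≠ 0 := by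
  intro h0
  obtain ⟨l, l', hl, hl', hne, -, -, -, -, hn⟩ := h.nrm δ hδ
  rw [norm_eq, h0] at hn
  have hP : Prime (l : ℤ) := Nat.prime_iff_prime_int.1 hl
  have h1 : δ.re ^ 2 = l * l' := by simpa using hn
  have h2 : (l : ℤ) ∣ δ.re := hP.dvd_of_dvd_pow (n := 2) ⟨l', h1⟩
  have h3 : (l : ℤ) * l ∣ l * l' := by
    rw [← h1, sq]; exact mul_dvd_mul h2 h2
  have h4 : (l : ℤ) ∣ l' := (mul_dvd_mul_iff_left hP.ne_zero).1 h3
  exact hne ((Nat.prime_dvd_prime_iff_eq hl hl').1 (by exact_mod_cast h4))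

theorem Fam.ne_zero (h : Fam m y J k F) {δ : O m} (hδ : δ ∈ F) : δ ≠ 0 := by
  rintro rfl
  exact h.im_ne hδ rfl

theorem Fam.abs (h : Fam m y J k F) {δ : O m} (hδ : δ ∈ F) :
    (y : ℝ) < ‖ph m δ‖ ∧ ‖ph m δ‖ ≤ 2 * y := by
  obtain ⟨l, l', -, -, -, h1, h2, h3, h4, hn⟩ := h.nrm δ hδ
  have h5 := norm_sq_ph δ
  rw [hn] at h5
  push_cast at h5
  have e1 : (y : ℝ) < l := by exact_mod_cast h1
  have e2 : (y : ℝ) < l' := by exact_mod_cast h2
  have e3 : (l : ℝ) ≤ 2 * y := by exact_mod_cast h3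
  have e4 : (l' : ℝ) ≤ 2 * y := by exact_mod_cast h4
  have e0 : (0 : ℝ) ≤ y := Nat.cast_nonneg _
  constructor
  · refine lt_of_pow_lt_pow_left₀ 2 (norm_nonneg _) ?_
    rw [h5]; nlinarith
  · refine le_of_pow_le_pow_left₀ two_ne_zero (by positivity) ?_
    rw [h5]; nlinarith

theorem Fam.cop (h : Fam m y J k F) {δ : O m} (hδ : δ ∈ F) {D : ℕ} (h1 : 1 ≤ D) (hD : D ≤ y) :
    IsCoprime (D : ℤ) δ.norm := by
  obtain ⟨l, l', hl, hl', -, h2, h3, -, -, hn⟩ := h.nrm δ hδ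
  rw [hn]
  have key : ∀ q : ℕ, q.Prime → y < q → IsCoprime (D : ℤ) (q : ℤ) := fun q hq hy =>
    Nat.isCoprime_iff_coprime.2
      (((Nat.Prime.coprime_iff_not_dvd hq).2 fun hd => by
        have := Nat.le_of_dvd (by omega) hd
        omega).symm)
  exact (key l hl h2).mul_right (key l' hl' h3)

theorem Fam.sqf (h : Fam m y J k F) {δ : O m} (hδ : δ ∈ F) : Squarefree δ.norm.natAbs := by
  obtain ⟨l, l', hl, hl', hne, -, -, -, -, hn⟩ := h.nrm δ hδ
  rw [hn, Int.natAbs_mul, Int.natAbs_natCast, Int.natAbs_natCast,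
    Nat.squarefree_mul ((Nat.coprime_primes hl hl').2 hne)]
  exact ⟨hl.prime.squarefree, hl'.prime.squarefree⟩

theorem Fam.cop2 (h : Fam m y J k F) (hm : 1 ≤ m) {δ : O m} (hδ : δ ∈ F) :
    Nat.Coprime δ.norm.natAbs (2 * m) := by
  have h2 := h.pos
  have h3 := h.thin
  have h4 : 2 * m ≤ y := by nlinarith [Nat.mul_le_mul hm hm, Nat.mul_le_mul (le_refl (m ^ 2)) h2]
  have h5 := h.cop hδ (D := 2 * m) (by omega) h4
  rw [Int.isCoprime_iff_gcd_eq_one] at h5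
  exact Nat.Coprime.symm h5

theorem Fam.nat_le (h : Fam m y J k F) {δ : O m} (hδ : δ ∈ F) : δ.norm.natAbs ≤ 4 * y ^ 2 := by
  obtain ⟨l, l', -, -, -, -, -, h3, h4, hn⟩ := h.nrm δ hδ
  rw [hn, Int.natAbs_mul, Int.natAbs_natCast, Int.natAbs_natCast]
  calc l * l' ≤ (2 * y) * (2 * y) := Nat.mul_le_mul h3 h4
    _ = 4 * y ^ 2 := by ring

end Pool.Agent.P.MP_b75a1e_co.EG
end

-- part Pool.Agent.P.MP_b75a1e_co.FLCheb0
section

set_option autoImplicit false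

open Finset
open scoped BigOperators ComplexConjugate

namespace Pool.Agent.P.MP_b75a1e_co.EG

theorem mertens_vm (N : ℕ) (hN : 1 ≤ N) :
    ∑ q ∈ Icc 1 N, ArithmeticFunction.vonMangoldt q / q ≤ Real.log N + 6 := by
  have hN' : (0 : ℝ) < N := by exact_mod_cast hN
  have h1 : ∑ n ∈ Ioc 0 N, Real.log n =
      ∑ q ∈ Ioc 0 N, ArithmeticFunction.vonMangoldt q * ((N / q : ℕ) : ℝ) := by
    have e : ∀ n ∈ Ioc 0 N, Real.log n =
        ∑ q ∈ Ioc 0 N, if q ∣ n then ArithmeticFunction.vonMangoldt q else 0 := by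
      intro n hn
      rw [← ArithmeticFunction.vonMangoldt_sum, ← sum_filter]
      refine sum_congr ?_ fun _ _ => rfl
      ext q
      have := mem_Ioc.1 hn
      simp only [Nat.mem_divisors, mem_filter, mem_Ioc]
      exact ⟨fun h => ⟨⟨Nat.pos_of_dvd_of_pos h.1 this.1, (Nat.le_of_dvd this.1 h.1).trans this.2⟩,
        h.1⟩, fun h => ⟨h.2, this.1.ne'⟩⟩
    rw [sum_congr rfl e, sum_comm]
    refine sum_congr rfl fun q _ => ?_
    rw [← sum_filter, sum_const, Nat.Ioc_filter_dvd_card_eq_div, nsmul_eq_mul, mul_comm]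
  have h2 : ∑ n ∈ Ioc 0 N, Real.log n ≤ N * Real.log N := by
    have := sum_le_card_nsmul (Ioc 0 N) (fun n : ℕ => Real.log n) (Real.log N) fun n hn =>
      Real.log_le_log (by exact_mod_cast (mem_Ioc.1 hn).1) (by exact_mod_cast (mem_Ioc.1 hn).2)
    simpa using this
  have h3 : ∑ q ∈ Ioc 0 N, ArithmeticFunction.vonMangoldt q ≤ 6 * N := by
    have h := Chebyshev.psi_le_const_mul_self hN'.le
    rw [Chebyshev.psi, Nat.floor_natCast] at h
    have h4 : Real.log 4 ≤ 2 := by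
      have : Real.log 4 = 2 * Real.log 2 := by
        rw [show (4 : ℝ) = 2 ^ 2 by norm_num, Real.log_pow]; norm_num
      linarith [Real.log_two_lt_d9]
    nlinarith
  have h4 : N * ∑ q ∈ Ioc 0 N, ArithmeticFunction.vonMangoldt q / q ≤
      ∑ q ∈ Ioc 0 N, ArithmeticFunction.vonMangoldt q * ((N / q : ℕ) : ℝ) +
        ∑ q ∈ Ioc 0 N, ArithmeticFunction.vonMangoldt q := by
    rw [mul_sum, ← sum_add_distrib]
    refine sum_le_sum fun q hq => ?_
    have hq' : (0 : ℝ) < q := by exact_mod_cast (mem_Ioc.1 hq).1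
    have h5 : (N : ℝ) / q ≤ ((N / q : ℕ) : ℝ) + 1 := by
      rw [div_le_iff₀ hq']
      have := Nat.lt_mul_div_succ N (mem_Ioc.1 hq).1
      have h6 : (N : ℝ) < q * (((N / q : ℕ) : ℝ) + 1) := by exact_mod_cast this
      linarith
    calc (N : ℝ) * (ArithmeticFunction.vonMangoldt q / q)
        = ArithmeticFunction.vonMangoldt q * ((N : ℝ) / q) := by ring
      _ ≤ ArithmeticFunction.vonMangoldt q * (((N / q : ℕ) : ℝ) + 1) :=
          mul_le_mul_of_nonneg_left h5 ArithmeticFunction.vonMangoldt_nonneg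
      _ = _ := by ring
  have e : Icc 1 N = Ioc 0 N := rfl
  rw [e]
  refine le_of_mul_le_mul_left ?_ hN'
  linarith

/-- The values of the form used to produce split primes. -/
def nv (m : ℕ) (z : ℕ × ℕ) : ℕ := (1 + 210 * m * z.1) ^ 2 + m * (210 * z.2) ^ 2

/-- The coprime pairs in the box. -/
def cp (m B : ℕ) : Finset (ℕ × ℕ) :=
  (Ioc B (2 * B) ×ˢ Ioc B (2 * B)).filter fun z => Nat.Coprime (1 + 210 * m * z.1) z.2

theorem cls_card_FLCheb0 (B q : ℕ) (hq : 1 ≤ q) (S : Finset ℕ) (hS : S ⊆ Ioc B (2 * B))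
    (h : ∀ t ∈ S, ∀ t' ∈ S, (q : ℤ) ∣ (t : ℤ) - t') : (S.card : ℝ) ≤ (B : ℝ) / q + 1 := by
  have h1 : S.card ≤ (range (B / q + 1)).card := by
    refine card_le_card_of_injOn (fun t => (t - B) / q) (fun t ht => ?_) fun t ht t' ht' e => ?_
    · have := mem_Ioc.1 (hS ht)
      exact mem_coe.2 (mem_range.2 (Nat.lt_succ_of_le (Nat.div_le_div_right (by omega))))
    · have h2 := mem_Ioc.1 (hS ht)
      have h3 := mem_Ioc.1 (hS ht')
      have h4 : (t - B) % q = (t' - B) % q := by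
        refine (Nat.modEq_iff_dvd.2 ?_ : t - B ≡ t' - B [MOD q])
        rw [Nat.cast_sub h2.1.le, Nat.cast_sub h3.1.le, sub_sub_sub_cancel_right]
        exact h t' ht' t ht
      have h5 := Nat.div_add_mod (t - B) q
      have h6 := Nat.div_add_mod (t' - B) q
      have e' : (t - B) / q = (t' - B) / q := e
      rw [e', h4] at h5
      omega
  rw [card_range] at h1
  calc (S.card : ℝ) ≤ ((B / q + 1 : ℕ) : ℝ) := by exact_mod_cast h1
    _ ≤ _ := by push_cast; linarith [Nat.cast_div_le (α := ℝ) (m := B) (n := q)]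

theorem lin_FLCheb0 {M q : ℕ} (hc : Nat.Coprime q M) {t t' : ℕ}
    (h : (q : ℤ) ∣ (1 + M * t) - (1 + M * t')) : (q : ℤ) ∣ (t : ℤ) - t' := by
  refine (Nat.isCoprime_iff_coprime.2 hc).dvd_of_dvd_mul_left ?_
  rwa [show (M : ℤ) * (t - t') = (1 + M * t) - (1 + M * t') by ring]

theorem cp_card (m B : ℕ) (hB : 10 ^ 6 ≤ B) : (89 / 100 : ℝ) * (B : ℝ) ^ 2 ≤ (cp m B).card := by
  have hB' : (10 : ℝ) ^ 6 ≤ B := by exact_mod_cast hB
  have h0 := card_filter_add_card_filter_not (s := Ioc B (2 * B) ×ˢ Ioc B (2 * B))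
    fun z : ℕ × ℕ => Nat.Coprime (1 + 210 * m * z.1) z.2
  rw [card_product, Nat.card_Ioc, show 2 * B - B = B by omega] at h0
  have h1 : ((Ioc B (2 * B) ×ˢ Ioc B (2 * B)).filter
      fun z : ℕ × ℕ => ¬ Nat.Coprime (1 + 210 * m * z.1) z.2) ⊆ (Ioc 10 (2 * B)).biUnion fun l =>
        ((Ioc B (2 * B)).filter fun t => l ∣ 1 + 210 * m * t) ×ˢ
          (Ioc B (2 * B)).filter fun t => l ∣ t := by
    intro z hz
    obtain ⟨h2, h3⟩ := mem_filter.1 hz
    obtain ⟨h4, h5⟩ := mem_product.1 h2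
    obtain ⟨l, hl, h6, h7⟩ := Nat.Prime.not_coprime_iff_dvd.1 h3
    refine mem_biUnion.2 ⟨l, mem_Ioc.2 ⟨?_, ?_⟩,
      mem_product.2 ⟨mem_filter.2 ⟨h4, h6⟩, mem_filter.2 ⟨h5, h7⟩⟩⟩
    · by_contra hn
      have h8 : l ∣ 210 := by
        have := hl.two_le
        have h9 : l ≤ 10 := by omega
        interval_cases l <;> first | decide | exact absurd hl (by decide)
      exact hl.one_lt.ne' (Nat.dvd_one.1
        ((Nat.dvd_add_left ((h8.mul_right m).mul_right z.1)).1 h6))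
    · have := mem_Ioc.1 h5
      exact (Nat.le_of_dvd (by omega) h7).trans this.2
  have h2 : ∀ l ∈ Ioc 10 (2 * B), (((((Ioc B (2 * B)).filter fun t => l ∣ 1 + 210 * m * t) ×ˢ
      (Ioc B (2 * B)).filter fun t => l ∣ t).card : ℕ) : ℝ) ≤
        21 / 20 * (B : ℝ) ^ 2 * ((l : ℝ) ^ 2)⁻¹ + 21 := by
    intro l hl
    have hl' : 1 ≤ l := by have := mem_Ioc.1 hl; omega
    have a1 := cls_card_FLCheb0 B l hl' _ (filter_subset (fun t => l ∣ 1 + 210 * m * t) _)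
      fun t ht t' ht' => by
        have b1 := (mem_filter.1 ht).2
        have b2 := (mem_filter.1 ht').2
        have b3 : Nat.Coprime l (210 * m) := Nat.dvd_one.1 ((Nat.dvd_add_left
          ((Nat.gcd_dvd_right l (210 * m)).mul_right t)).1 ((Nat.gcd_dvd_left _ _).trans b1))
        exact lin_FLCheb0 b3 (dvd_sub (by exact_mod_cast b1) (by exact_mod_cast b2))
    have a2 := cls_card_FLCheb0 B l hl' _ (filter_subset (fun t => l ∣ t) _) fun t ht t' ht' =>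
      dvd_sub (by exact_mod_cast (mem_filter.1 ht).2) (by exact_mod_cast (mem_filter.1 ht').2)
    rw [card_product, Nat.cast_mul]
    refine (mul_le_mul a1 a2 (Nat.cast_nonneg _) (by positivity)).trans ?_
    have e : 21 / 20 * (B : ℝ) ^ 2 * ((l : ℝ) ^ 2)⁻¹ = 21 / 20 * ((B : ℝ) / l) ^ 2 := by
      rw [div_pow]; ring
    rw [e]
    nlinarith [sq_nonneg ((B : ℝ) / l - 20)]
  have h3 : ∑ l ∈ Ioc 10 (2 * B), ((l : ℝ) ^ 2)⁻¹ ≤ 1 / 10 := by
    have := sum_Ioc_inv_sq_le_sub (α := ℝ) (k := 10) (n := 2 * B) (by norm_num) (by omega)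
    have h4 : (0 : ℝ) ≤ ((2 * B : ℕ) : ℝ)⁻¹ := by positivity
    have h5 : ((10 : ℕ) : ℝ)⁻¹ = 1 / 10 := by norm_num
    linarith
  have h4 : ((((Ioc B (2 * B) ×ˢ Ioc B (2 * B)).filter
      fun z : ℕ × ℕ => ¬ Nat.Coprime (1 + 210 * m * z.1) z.2).card : ℕ) : ℝ) ≤
        21 / 20 * (B : ℝ) ^ 2 * (1 / 10) + 21 * (2 * B) := by
    refine le_trans (Nat.cast_le.2 ((card_le_card h1).trans card_biUnion_le)) ?_
    rw [Nat.cast_sum]
    refine (sum_le_sum h2).trans ?_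
    rw [sum_add_distrib, ← mul_sum, sum_const, Nat.card_Ioc, nsmul_eq_mul]
    have h5 : ((2 * B - 10 : ℕ) : ℝ) ≤ 2 * B := by exact_mod_cast Nat.sub_le _ _
    have h6 := mul_le_mul_of_nonneg_left h3 (show 0 ≤ 21 / 20 * (B : ℝ) ^ 2 by positivity)
    linarith
  have h5 := congrArg (Nat.cast : ℕ → ℝ) h0
  rw [Nat.cast_add, Nat.cast_mul] at h5
  unfold cp
  nlinarith

theorem cp_split (m B : ℕ) (hm : 1 ≤ m) {z : ℕ × ℕ} (hz : z ∈ cp m B) {l : ℕ} (hl : l.Prime)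
    (h : l ∣ nv m z) : Split m l ∧ ¬ l ∣ 210 * m ∧ ¬ l ∣ z.2 := by
  have h1 : ¬ l ∣ 210 * m := fun h1 => by
    have e : nv m z = 1 + 210 * m * (2 * z.1 + 210 * m * z.1 ^ 2 + 210 * z.2 ^ 2) := by
      unfold nv; ring
    rw [e] at h
    exact hl.one_lt.ne' (Nat.dvd_one.1 ((Nat.dvd_add_left (h1.mul_right _)).1 h))
  have h2 : ¬ l ∣ z.2 := fun h2 => by
    have h3 : l ∣ m * (210 * z.2) ^ 2 := (dvd_pow (h2.mul_left 210) two_ne_zero).mul_left m
    have h4 := hl.dvd_of_dvd_pow ((Nat.dvd_add_left h3).1 h)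
    exact hl.one_lt.ne' (Nat.eq_one_of_dvd_coprimes (mem_filter.1 hz).2 h4 h2)
  refine ⟨⟨hl, fun h3 => h1 (h3.trans ⟨105, by ring⟩), ?_⟩, h1, h2⟩
  have h3 : ¬ l ∣ 210 * z.2 := fun h3 =>
    (hl.dvd_mul.1 h3).elim (fun h4 => h1 (h4.mul_right m)) h2
  obtain ⟨v, u, e⟩ := Nat.isCoprime_iff_coprime.2 (hl.coprime_iff_not_dvd.2 h3)
  have h4 : (l : ℤ) ∣ ((nv m z : ℕ) : ℤ) := Int.natCast_dvd_natCast.2 h
  refine ⟨(1 + 210 * m * z.1) * u, ?_⟩
  have e' : ((1 + 210 * m * z.1) * u : ℤ) ^ 2 + m = u ^ 2 * ((nv m z : ℕ) : ℤ) +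
      l * (m * v * (1 + u * ((210 * z.2 : ℕ) : ℤ))) := by
    unfold nv
    push_cast at e ⊢
    linear_combination (-(m : ℤ)) * (1 + u * (210 * z.2)) * e
  rw [e']
  exact dvd_add (h4.mul_left _) (dvd_mul_right _ _)

theorem two_roots {l j : ℕ} (hl : l.Prime) (h2 : l ≠ 2) {x x' : ℤ} (hx : ¬ (l : ℤ) ∣ x)
    (h : ((l : ℤ) ^ j) ∣ x ^ 2 - x' ^ 2) : ((l : ℤ) ^ j) ∣ x - x' ∨ ((l : ℤ) ^ j) ∣ x + x' := by
  have hp : Prime (l : ℤ) := Nat.prime_iff_prime_int.1 hl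
  rw [sq_sub_sq] at h
  by_cases h1 : (l : ℤ) ∣ x + x'
  · have h3 : ¬ (l : ℤ) ∣ x - x' := fun h3 => by
      have h4 : (l : ℤ) ∣ 2 * x := by
        rw [show 2 * x = (x + x') + (x - x') by ring]; exact dvd_add h1 h3
      rcases hp.dvd_mul.1 h4 with h5 | h5
      · exact h2 ((Nat.prime_dvd_prime_iff_eq hl Nat.prime_two).1 (by exact_mod_cast h5))
      · exact hx h5
    exact Or.inr (hp.pow_dvd_of_dvd_mul_right j h3 h)
  · exact Or.inl (hp.pow_dvd_of_dvd_mul_left j h1 h)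

theorem cp_small (m B q : ℕ) (hm : 1 ≤ m) (hq : IsPrimePow q) :
    (((cp m B).filter fun z => q ∣ nv m z).card : ℝ) ≤ B * (2 * ((B : ℝ) / q + 1)) := by
  obtain ⟨l, j, hl, hj, rfl⟩ := (isPrimePow_nat_iff q).1 hq
  have hq1 : 1 ≤ l ^ j := Nat.pow_pos hl.pos
  have key : ∀ b ∈ Ioc B (2 * B), (((((cp m B).filter fun z => l ^ j ∣ nv m z).filter
      fun z => z.2 = b).card : ℕ) : ℝ) ≤ 2 * ((B : ℝ) / (l ^ j : ℕ) + 1) := by
    intro b _
    rcases (((cp m B).filter fun z => l ^ j ∣ nv m z).filter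
      fun z => z.2 = b).eq_empty_or_nonempty with e | ⟨z0, hz0⟩
    · rw [e, card_empty, Nat.cast_zero]; positivity
    obtain ⟨h1, h2⟩ := mem_filter.1 hz0
    obtain ⟨h3, h4⟩ := mem_filter.1 h1
    have h5 : l ∣ nv m z0 := (dvd_pow_self l hj.ne').trans h4
    obtain ⟨-, h6, h7⟩ := cp_split m B hm h3 hl h5
    have hc : Nat.Coprime (l ^ j) (210 * m) := (hl.coprime_iff_not_dvd.2 h6).pow_left j
    have h8 : ¬ (l : ℤ) ∣ 1 + (210 * m : ℕ) * (z0.1 : ℤ) := fun h8 => by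
      have h9 : l ∣ 1 + 210 * m * z0.1 := by exact_mod_cast h8
      have h10 := (Nat.dvd_add_right (dvd_pow h9 two_ne_zero)).1 h5
      rcases hl.dvd_mul.1 h10 with g | g
      · exact h6 (g.mul_left _)
      · exact (hl.dvd_mul.1 (hl.dvd_of_dvd_pow g)).elim (fun g => h6 (g.mul_right m)) h7
    have a1 := cls_card_FLCheb0 B _ hq1 _ (filter_subset (fun t : ℕ => ((l ^ j : ℕ) : ℤ) ∣
      (1 + (210 * m : ℕ) * (z0.1 : ℤ)) - (1 + (210 * m : ℕ) * (t : ℤ))) (Ioc B (2 * B)))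
      fun t ht t' ht' => lin_FLCheb0 hc (by
        have := dvd_sub (mem_filter.1 ht').2 (mem_filter.1 ht).2
        rwa [sub_sub_sub_cancel_left] at this)
    have a2 := cls_card_FLCheb0 B _ hq1 _ (filter_subset (fun t : ℕ => ((l ^ j : ℕ) : ℤ) ∣
      (1 + (210 * m : ℕ) * (z0.1 : ℤ)) + (1 + (210 * m : ℕ) * (t : ℤ))) (Ioc B (2 * B)))
      fun t ht t' ht' => lin_FLCheb0 hc (by
        have := dvd_sub (mem_filter.1 ht).2 (mem_filter.1 ht').2
        rwa [add_sub_add_left_eq_sub] at this)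
    rw [two_mul]
    refine le_trans ?_ (add_le_add a1 a2)
    rw [← Nat.cast_add]
    refine Nat.cast_le.2 (le_trans (card_le_card_of_injOn Prod.fst (fun z hz => ?_)
      fun z hz z' hz' e => ?_) (card_union_le _ _))
    · obtain ⟨g1, g2⟩ := mem_filter.1 (mem_coe.1 hz)
      obtain ⟨g3, g4⟩ := mem_filter.1 g1
      have g5 := (mem_product.1 (mem_filter.1 g3).1).1
      have g6 : ((l : ℤ) ^ j) ∣ (1 + (210 * m : ℕ) * (z0.1 : ℤ)) ^ 2 -
          (1 + (210 * m : ℕ) * (z.1 : ℤ)) ^ 2 := by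
        have := dvd_sub (Int.natCast_dvd_natCast.2 h4) (Int.natCast_dvd_natCast.2 g4)
        unfold nv at this
        rw [h2, g2] at this
        push_cast at this ⊢
        rwa [add_sub_add_right_eq_sub] at this
      refine mem_coe.2 (mem_union.2 ((two_roots hl (fun e => h6 (e ▸ ⟨105 * m, by ring⟩)) h8
        g6).imp (fun g => mem_filter.2 ⟨g5, ?_⟩) fun g => mem_filter.2 ⟨g5, ?_⟩))
      · exact_mod_cast g
      · exact_mod_cast g
    · exact Prod.ext e ((mem_filter.1 (mem_coe.1 hz)).2.trans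
        (mem_filter.1 (mem_coe.1 hz')).2.symm)
  rw [card_eq_sum_card_fiberwise (s := (cp m B).filter fun z => l ^ j ∣ nv m z) (f := Prod.snd)
    (t := Ioc B (2 * B)) fun z hz =>
    mem_coe.2 (mem_product.1 (mem_filter.1 (mem_filter.1 (mem_coe.1 hz)).1).1).2, Nat.cast_sum]
  refine (sum_le_card_nsmul _ _ _ key).trans (le_of_eq ?_)
  rw [Nat.card_Ioc, show 2 * B - B = B by omega, nsmul_eq_mul]

end Pool.Agent.P.MP_b75a1e_co.EG
end

-- part Pool.Agent.P.MP_b75a1e_co.FLCube0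
section

set_option autoImplicit false

open Finset
open scoped BigOperators ComplexConjugate

namespace Pool.Agent.P.MP_b75a1e_co.EG

theorem TT_nonneg {G : Type} [AddCommGroup G] [Fintype G] (r : ℕ) (g : G → ℝ) : 0 ≤ TT r g := by
  induction r generalizing g with
  | zero => exact abs_nonneg _
  | succ r ih => exact expect_nonneg fun h _ => expect_nonneg fun h' _ => ih _

theorem TT_le_one {G : Type} [AddCommGroup G] [Fintype G] (r : ℕ) (g : G → ℝ)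
    (hg : ∀ x, |g x| ≤ 1) : TT r g ≤ 1 := by
  induction r generalizing g with
  | zero =>
    show |𝔼 x, g x| ≤ 1
    rw [abs_le]
    exact ⟨le_expect univ_nonempty fun x _ => (abs_le.1 (hg x)).1,
      expect_le univ_nonempty fun x _ => (abs_le.1 (hg x)).2⟩
  | succ r ih =>
    refine expect_le univ_nonempty fun h _ => expect_le univ_nonempty fun h' _ => ih _ fun x => ?_
    rw [abs_mul]
    exact mul_le_one₀ (hg _) (abs_nonneg _) (hg _)

theorem TT_equiv {G G' : Type} [AddCommGroup G] [Fintype G] [AddCommGroup G'] [Fintype G']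
    (e : G ≃+ G') (r : ℕ) (g : G' → ℝ) : TT r (fun x => g (e x)) = TT r g := by
  induction r generalizing g with
  | zero =>
    show |𝔼 x, g (e x)| = |𝔼 x, g x|
    rw [Fintype.expect_equiv e.toEquiv (fun x => g (e x)) g fun _ => rfl]
  | succ r ih =>
    show (𝔼 h, 𝔼 h', TT r fun x => g (e (x + h)) * g (e (x + h'))) =
      𝔼 h, 𝔼 h', TT r fun x => g (x + h) * g (x + h')
    refine Fintype.expect_equiv e.toEquiv _ _ fun h => Fintype.expect_equiv e.toEquiv _ _ fun h' => ?_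
    rw [← ih fun x => g (x + e.toEquiv h) * g (x + e.toEquiv h')]
    simp only [map_add]
    rfl

theorem expect_pair_FLCube0 {G G' : Type} [Fintype G] [Fintype G'] (u : G → ℝ) (v : G' → ℝ) :
    (𝔼 x : G × G', u x.1 * v x.2) = (𝔼 x, u x) * 𝔼 y, v y := by
  rw [expect_mul_expect, ← univ_product_univ, expect_product]

theorem TT_prod {G G' : Type} [AddCommGroup G] [Fintype G] [AddCommGroup G'] [Fintype G']
    (r : ℕ) (g : G → ℝ) (g' : G' → ℝ) :
    TT r (fun x : G × G' => g x.1 * g' x.2) = TT r g * TT r g' := by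
  induction r generalizing g g' with
  | zero =>
    show |𝔼 x : G × G', g x.1 * g' x.2| = |𝔼 x, g x| * |𝔼 x, g' x|
    rw [expect_pair_FLCube0, abs_mul]
  | succ r ih =>
    show (𝔼 h : G × G', 𝔼 h' : G × G', TT r fun x : G × G' =>
        g (x + h).1 * g' (x + h).2 * (g (x + h').1 * g' (x + h').2)) =
      (𝔼 h, 𝔼 h', TT r fun x => g (x + h) * g (x + h')) *
        𝔼 h, 𝔼 h', TT r fun x => g' (x + h) * g' (x + h')
    rw [← expect_pair_FLCube0]
    refine expect_congr rfl fun h _ => ?_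
    rw [← expect_pair_FLCube0]
    refine expect_congr rfl fun h' _ => ?_
    rw [← ih]
    congr 1
    funext x
    simp only [Prod.fst_add, Prod.snd_add]
    ring

theorem chi_odd_FLCube0 (l : ℕ) [Fact l.Prime] (S : Multiset (ZMod l)) (x : ZMod l)
    (hx : -x ∉ S) :
    quadraticChar (ZMod l) (S.map fun z => x + z).prod =
      quadraticChar (ZMod l) (∏ z ∈ S.toFinset.filter fun z => Odd (S.count z), (x + z)) := by
  rw [Finset.prod_multiset_map_count, map_prod, map_prod, prod_filter]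
  refine prod_congr rfl fun z hz => ?_
  have hne : x + z ≠ 0 := by
    intro h
    apply hx
    rw [neg_eq_of_add_eq_zero_right h]
    exact Multiset.mem_toFinset.1 hz
  have h2 := quadraticChar_sq_one hne
  rw [map_pow]
  split_ifs with ho
  · obtain ⟨k, hk⟩ := ho
    rw [hk, pow_succ, pow_mul, h2, one_pow, one_mul]
  · obtain ⟨k, hk⟩ := Nat.not_odd_iff_even.1 ho
    rw [hk, ← two_mul, pow_mul, h2, one_pow]

theorem chi_abs_FLCube0 (l : ℕ) [Fact l.Prime] (y : ZMod l) :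
    |(quadraticChar (ZMod l) y : ℝ)| ≤ 1 := by
  rcases quadraticChar_isQuadratic (ZMod l) y with h | h | h <;> rw [h] <;> simp

theorem ind_sum_FLCube0 (l : ℕ) [Fact l.Prime] (S : Multiset (ZMod l)) (c : ZMod l) :
    ∑ x : ZMod l, (if c - x ∈ S then (1 : ℝ) else 0) ≤ Multiset.card S := by
  rw [sum_boole]
  have h : (univ.filter fun x : ZMod l => c - x ∈ S).card ≤ S.toFinset.card := by
    refine card_le_card_of_injOn (fun x => c - x) (fun x hx => ?_) fun x _ y _ h => ?_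
    · simpa using hx
    · simpa using h
  exact_mod_cast h.trans (Multiset.toFinset_card_le S)

theorem prime_zero_FLCube0 (l : ℕ) [Fact l.Prime] (hl : l ≠ 2) (S : Multiset (ZMod l))
    (hS : ∃ a, Odd (S.count a)) :
    |∑ x : ZMod l, (quadraticChar (ZMod l) (S.map fun z => x + z).prod : ℝ)| ≤
      Multiset.card S * 102 * Real.sqrt l := by
  obtain ⟨a, ha⟩ := hS
  set A := S.toFinset.filter fun z => Odd (S.count z) with hA
  have hne : A.Nonempty := ⟨a, mem_filter.2 ⟨Multiset.mem_toFinset.2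
    (Multiset.count_pos.1 ha.pos), ha⟩⟩
  have h1 := stepanov l hl A hne
  have hc : (A.card : ℝ) ≤ Multiset.card S := by
    exact_mod_cast (card_filter_le _ _).trans (Multiset.toFinset_card_le S)
  have hs : 1 ≤ Real.sqrt l := by
    rw [Real.one_le_sqrt]
    exact_mod_cast (Fact.out : l.Prime).one_lt.le
  have h2 : |∑ x : ZMod l, ((quadraticChar (ZMod l) (S.map fun z => x + z).prod : ℝ) -
      (quadraticChar (ZMod l) (∏ z ∈ A, (x + z)) : ℝ))| ≤ 2 * Multiset.card S := by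
    refine (abs_sum_le_sum_abs _ _).trans ?_
    refine le_trans (sum_le_sum (g := fun x => 2 * if 0 - x ∈ S then (1 : ℝ) else 0)
      fun x _ => ?_) ?_
    · split_ifs with hx
      · have a1 := chi_abs_FLCube0 l (S.map fun z => x + z).prod
        have a2 := chi_abs_FLCube0 l (∏ z ∈ A, (x + z))
        have a3 := abs_sub (quadraticChar (ZMod l) (S.map fun z => x + z).prod : ℝ)
          (quadraticChar (ZMod l) (∏ z ∈ A, (x + z)) : ℝ)
        linarith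
      · rw [zero_sub] at hx
        rw [chi_odd_FLCube0 l S x hx]
        simp [hA]
    · rw [← mul_sum]
      have := ind_sum_FLCube0 l S 0
      linarith
  rw [sum_sub_distrib] at h2
  have h3 := abs_sub_abs_le_abs_sub
    (∑ x : ZMod l, (quadraticChar (ZMod l) (S.map fun z => x + z).prod : ℝ))
    (∑ x : ZMod l, (quadraticChar (ZMod l) (∏ z ∈ A, (x + z)) : ℝ))
  have h4 : (0 : ℝ) ≤ Multiset.card S := Nat.cast_nonneg _
  have h5 := mul_le_mul_of_nonneg_right hc (Real.sqrt_nonneg l)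
  have h6 := mul_le_mul_of_nonneg_left hs h4
  linarith

theorem TT_prime (l : ℕ) [Fact l.Prime] (hl : l ≠ 2) (r : ℕ) (S : Multiset (ZMod l))
    (hS : ∃ a, Odd (S.count a)) :
    TT r (fun x : ZMod l => (quadraticChar (ZMod l) (S.map fun z => x + z).prod : ℝ)) ≤
      Multiset.card S * 2 ^ r * (102 + r) / Real.sqrt l := by
  have hl0 : (0 : ℝ) < l := by exact_mod_cast (Fact.out : l.Prime).pos
  have hs : 1 ≤ Real.sqrt l := by
    rw [Real.one_le_sqrt]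
    exact_mod_cast (Fact.out : l.Prime).one_lt.le
  have hs0 : 0 < Real.sqrt l := by linarith
  have hss : Real.sqrt l * Real.sqrt l = l := Real.mul_self_sqrt hl0.le
  induction r generalizing S with
  | zero =>
    show |𝔼 x : ZMod l, (quadraticChar (ZMod l) (S.map fun z => x + z).prod : ℝ)| ≤ _
    have h := prime_zero_FLCube0 l hl S hS
    rw [Fintype.expect_eq_sum_div_card, ZMod.card, abs_div, abs_of_pos hl0, div_le_div_iff₀ hl0 hs0]
    have h' := mul_le_mul_of_nonneg_right h hs0.le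
    rw [mul_assoc _ _ (Real.sqrt l), hss] at h'
    simpa using h'
  | succ r ih =>
    obtain ⟨a, ha⟩ := hS
    have h4 : (0 : ℝ) ≤ Multiset.card S := Nat.cast_nonneg _
    set B : ℝ := Multiset.card S * 2 ^ (r + 1) * (102 + r) / Real.sqrt l with hB
    have hB0 : 0 ≤ B := by positivity
    have key : ∀ h h' : ZMod l, (TT r fun x : ZMod l =>
        (quadraticChar (ZMod l) (S.map fun z => x + h + z).prod : ℝ) *
          (quadraticChar (ZMod l) (S.map fun z => x + h' + z).prod : ℝ)) ≤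
        B + if a + h - h' ∈ S then 1 else 0 := by
      intro h h'
      split_ifs with hm
      · refine (TT_le_one r _ fun x => ?_).trans (by linarith)
        rw [abs_mul]
        exact mul_le_one₀ (chi_abs_FLCube0 l _) (abs_nonneg _) (chi_abs_FLCube0 l _)
      · have hodd : Odd ((S.map (fun z => z + h) + S.map fun z => z + h').count (a + h)) := by
          have e1 := Multiset.count_map_eq_count' (fun z : ZMod l => z + h) S
            (add_left_injective h) a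
          have e2 := Multiset.count_map_eq_count' (fun z : ZMod l => z + h') S
            (add_left_injective h') (a + h - h')
          simp only [sub_add_cancel] at e1 e2
          rw [Multiset.count_add, e1, e2, Multiset.count_eq_zero.2 hm]
          exact ha
        have h1 := ih _ ⟨_, hodd⟩
        have e3 : (fun x : ZMod l => (quadraticChar (ZMod l)
            ((S.map (fun z => z + h) + S.map fun z => z + h').map fun z => x + z).prod : ℝ)) =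
            fun x : ZMod l => (quadraticChar (ZMod l) (S.map fun z => x + h + z).prod : ℝ) *
              (quadraticChar (ZMod l) (S.map fun z => x + h' + z).prod : ℝ) := by
          funext x
          have f1 : ((fun z => x + z) ∘ fun z => z + h) = fun z => x + h + z := by
            funext z; simp only [Function.comp]; ring
          have f2 : ((fun z => x + z) ∘ fun z => z + h') = fun z => x + h' + z := by
            funext z; simp only [Function.comp]; ring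
          rw [Multiset.map_add, Multiset.prod_add, map_mul, Multiset.map_map, Multiset.map_map,
            f1, f2]
          push_cast
          rfl
        rw [e3] at h1
        refine h1.trans (le_of_eq ?_)
        rw [hB, Multiset.card_add, Multiset.card_map, Multiset.card_map]
        push_cast
        ring
    show (𝔼 h : ZMod l, 𝔼 h' : ZMod l, TT r fun x : ZMod l =>
        (quadraticChar (ZMod l) (S.map fun z => x + h + z).prod : ℝ) *
          (quadraticChar (ZMod l) (S.map fun z => x + h' + z).prod : ℝ)) ≤ _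
    refine expect_le univ_nonempty fun h _ => ?_
    refine (expect_le_expect fun h' _ => key h h').trans ?_
    rw [expect_add_distrib, expect_const univ_nonempty, Fintype.expect_eq_sum_div_card, ZMod.card]
    have h5 := ind_sum_FLCube0 l S (a + h)
    have h6 : (1 : ℝ) ≤ 2 ^ (r + 1) := one_le_pow₀ (by norm_num)
    have h7 : (∑ x : ZMod l, if a + h - x ∈ S then (1 : ℝ) else 0) / l ≤
        Multiset.card S * 2 ^ (r + 1) / Real.sqrt l := by
      refine div_le_div₀ (by positivity) (h5.trans (le_mul_of_one_le_right h4 h6)) hs0 ?_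
      nlinarith
    have h8 : (Multiset.card S : ℝ) * 2 ^ (r + 1) * (102 + ((r + 1 : ℕ) : ℝ)) / Real.sqrt l =
        B + Multiset.card S * 2 ^ (r + 1) / Real.sqrt l := by
      rw [hB]
      push_cast
      ring
    rw [h8]
    linarith

end Pool.Agent.P.MP_b75a1e_co.EG
end

-- part Pool.Agent.P.MP_b75a1e_co.FLFam
section

set_option autoImplicit false

open Finset
open scoped BigOperators ComplexConjugate

namespace Pool.Agent.P.MP_b75a1e_co.EG

theorem pairs_FLFam {β : Type} [DecidableEq β] (P : Finset ℕ) (T : Finset β) (cl : ℕ → β)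
    (h : ∀ l ∈ P, cl l ∈ T) :
    P.card ^ 2 ≤ T.card *
      (((P ×ˢ P).filter fun q => q.1 ≠ q.2 ∧ cl q.1 = cl q.2).card + P.card) := by
  have h1 : P.card = ∑ t ∈ T, (P.filter fun l => cl l = t).card :=
    card_eq_sum_card_fiberwise h
  have h2 : ((P ×ˢ P).filter fun q => cl q.1 = cl q.2).card
      = ∑ t ∈ T, (P.filter fun l => cl l = t).card ^ 2 := by
    rw [card_eq_sum_card_fiberwise (f := fun q : ℕ × ℕ => cl q.1) (t := T)]
    · refine sum_congr rfl fun t _ => ?_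
      rw [sq, ← card_product]
      congr 1
      ext q
      simp only [mem_filter, mem_product]
      constructor
      · rintro ⟨⟨⟨a, b⟩, c⟩, d⟩
        exact ⟨⟨a, d⟩, b, c ▸ d⟩
      · rintro ⟨⟨a, b⟩, c, d⟩
        exact ⟨⟨⟨a, c⟩, b.trans d.symm⟩, b⟩
    · intro q hq
      exact h _ (mem_product.1 (mem_filter.1 hq).1).1
  have h3 : ((P ×ˢ P).filter fun q => cl q.1 = cl q.2).card ≤
      ((P ×ˢ P).filter fun q => q.1 ≠ q.2 ∧ cl q.1 = cl q.2).card + P.card := by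
    calc ((P ×ˢ P).filter fun q => cl q.1 = cl q.2).card
        ≤ (((P ×ˢ P).filter fun q => q.1 ≠ q.2 ∧ cl q.1 = cl q.2) ∪
            P.image fun l => (l, l)).card := by
          refine card_le_card fun q hq => ?_
          obtain ⟨hq1, hq2⟩ := mem_filter.1 hq
          by_cases he : q.1 = q.2
          · exact mem_union_right _ (mem_image.2 ⟨q.1, (mem_product.1 hq1).1, Prod.ext rfl he⟩)
          · exact mem_union_left _ (mem_filter.2 ⟨hq1, he, hq2⟩)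
      _ ≤ _ := (card_union_le _ _).trans (Nat.add_le_add_left card_image_le _)
  calc P.card ^ 2 = (∑ t ∈ T, (P.filter fun l => cl l = t).card) ^ 2 := by rw [← h1]
    _ ≤ T.card * ∑ t ∈ T, (P.filter fun l => cl l = t).card ^ 2 := sq_sum_le_card_mul_sum_sq
    _ ≤ _ := by
      rw [← h2]
      exact Nat.mul_le_mul_left _ h3

theorem polar_FLFam (a b : ℂ) :
    (a * conj b).re = ‖a‖ * ‖b‖ * Real.cos (a.arg - b.arg) ∧
      (a * conj b).im = ‖a‖ * ‖b‖ * Real.sin (a.arg - b.arg) := by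
  have a1 := Complex.norm_mul_cos_arg a
  have a2 := Complex.norm_mul_sin_arg a
  have b1 := Complex.norm_mul_cos_arg b
  have b2 := Complex.norm_mul_sin_arg b
  rw [Real.cos_sub, Real.sin_sub, Complex.mul_re, Complex.mul_im, Complex.conj_re, Complex.conj_im]
  constructor
  · rw [← a1, ← a2, ← b1, ← b2]
    ring
  · rw [← a1, ← a2, ← b1, ← b2]
    ring

theorem pair_FLFam {m : ℕ} (hm : 1 ≤ m) (y J c l l' : ℕ) (w w' : O m) (hc : 1 ≤ c)
    (hw : w.norm = c * l) (hw' : w'.norm = c * l') (hl : y < l) (hl' : y < l') (hl2 : l ≤ 2 * y)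
    (hl2' : l' ≤ 2 * y) (hre : (c * m : ℤ) ∣ w.re - w'.re) (him : (c * m : ℤ) ∣ w.im - w'.im)
    (th : ℝ) (hth : th ≤ 1) (hth2 : 2 * y * th ≤ m * J)
    (harg : |(ph m w).arg - (ph m w').arg| ≤ th) :
    ∃ δ : O m, InBox m y J δ ∧ δ.norm = l * l' := by
  obtain ⟨t1, ht1⟩ := hre
  obtain ⟨t2, ht2⟩ := him
  set t : O m := ⟨t1, t2⟩ with ht
  have hsub : w = w' + (c : O m) * (m : O m) * t := by
    ext
    · simp [ht]
      linarith
    · simp [ht]
      linarith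
  set δ : O m := (l' : O m) + (m : O m) * (t * star w') with hδ
  have hcδ : (c : O m) * δ = w * star w' := by
    have h1 := mul_star_EGBox w'
    rw [hw'] at h1
    push_cast at h1
    rw [hδ]
    linear_combination (-(star w')) * hsub - h1
  have hc0 : (0 : ℤ) < c := by exact_mod_cast hc
  have hn : δ.norm = l * l' := by
    have h1 := congrArg Zsqrtd.norm hcδ
    rw [Zsqrtd.norm_mul, Zsqrtd.norm_mul, Zsqrtd.norm_conj, Zsqrtd.norm_natCast, hw, hw'] at h1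
    have h2 : (c : ℤ) * c ≠ 0 := by positivity
    refine mul_left_cancel₀ h2 ?_
    rw [h1]
    ring
  refine ⟨δ, ?_, hn⟩
  have hcr : (0 : ℝ) < c := by exact_mod_cast hc
  obtain ⟨p1, p2⟩ := polar_FLFam (ph m w) (ph m w')
  have hph : ph m w * conj (ph m w') = (c : ℂ) * ph m δ := by
    rw [← ph_star, ← map_mul, ← hcδ, map_mul, map_natCast]
  set ρ : ℝ := ‖ph m δ‖ with hρ
  have hρ2 : ρ ^ 2 = (l : ℝ) * l' := by
    rw [hρ, norm_sq_ph, hn]
    push_cast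
    ring
  have hρ0 : 0 ≤ ρ := norm_nonneg _
  have hnn : ‖ph m w‖ * ‖ph m w'‖ = c * ρ := by
    have h1 := congrArg norm hph
    rw [norm_mul, norm_mul, Complex.norm_conj, Complex.norm_natCast] at h1
    exact h1
  rw [hph, hnn] at p1 p2
  set s : ℝ := (ph m w).arg - (ph m w').arg with hs
  have q1 : (δ.re : ℝ) = ρ * Real.cos s := by
    have h1 : ((c : ℂ) * ph m δ).re = c * δ.re := by simp [ph_re]
    rw [h1, mul_assoc] at p1
    exact mul_left_cancel₀ hcr.ne' p1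
  have q2 : (δ.im : ℝ) * Real.sqrt m = ρ * Real.sin s := by
    have h1 : ((c : ℂ) * ph m δ).im = c * (δ.im * Real.sqrt m) := by simp [ph_im]
    rw [h1, mul_assoc] at p2
    exact mul_left_cancel₀ hcr.ne' p2
  have y0 : (0 : ℝ) ≤ y := Nat.cast_nonneg y
  have l1 : (y : ℝ) < l := by exact_mod_cast hl
  have l1' : (y : ℝ) < l' := by exact_mod_cast hl'
  have l2 : (l : ℝ) ≤ 2 * y := by exact_mod_cast hl2
  have l2' : (l' : ℝ) ≤ 2 * y := by exact_mod_cast hl2'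
  have r1 : (y : ℝ) < ρ := by
    refine lt_of_pow_lt_pow_left₀ 2 hρ0 ?_
    rw [hρ2, sq]
    exact mul_lt_mul'' l1 l1' y0 y0
  have r2 : ρ ≤ 2 * y := by
    refine le_of_pow_le_pow_left₀ two_ne_zero (by positivity) ?_
    rw [hρ2, sq]
    exact mul_le_mul l2 l2' (by linarith) (by linarith)
  have s2 : s ^ 2 ≤ 1 := by
    rw [← sq_abs]
    exact pow_le_one₀ (abs_nonneg _) (harg.trans hth)
  have c1 : 1 / 2 ≤ Real.cos s := by
    have := Real.one_sub_sq_div_two_le_cos (x := s)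
    linarith
  have c2 := Real.cos_le_one s
  refine ⟨?_, ?_, ⟨(t * star w').im, by simp [hδ]⟩, ?_⟩
  · have : (y : ℝ) < 2 * δ.re := by
      rw [q1]
      nlinarith
    exact_mod_cast this
  · have : (δ.re : ℝ) ≤ 2 * y := by
      rw [q1]
      nlinarith
    exact_mod_cast this
  · have h1 : (1 : ℝ) ≤ Real.sqrt m := Real.one_le_sqrt.2 (by exact_mod_cast hm)
    have h2 : |(δ.im : ℝ)| ≤ |(δ.im : ℝ) * Real.sqrt m| := by
      rw [abs_mul, abs_of_nonneg (Real.sqrt_nonneg _)]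
      exact le_mul_of_one_le_right (abs_nonneg _) h1
    have h3 : |ρ * Real.sin s| ≤ 2 * y * th := by
      rw [abs_mul, abs_of_nonneg hρ0]
      exact mul_le_mul r2 (Real.abs_sin_le_abs.trans harg) (abs_nonneg _) (by positivity)
    have : |(δ.im : ℝ)| ≤ m * J := by
      rw [q2] at h2
      linarith
    exact_mod_cast this

theorem fibre_FLFam {a b c d : ℕ} (ha : a.Prime) (hc : c.Prime) (hd : d.Prime)
    (h : a * b = c * d) : (a, b) = (c, d) ∨ (a, b) = (d, c) := by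
  have h1 : a ∣ c * d := ⟨b, h.symm⟩
  rcases (Nat.Prime.dvd_mul ha).1 h1 with h2 | h2
  · left
    have e := (Nat.prime_dvd_prime_iff_eq ha hc).1 h2
    subst e
    rw [Nat.eq_of_mul_eq_mul_left ha.pos h]
  · right
    have e := (Nat.prime_dvd_prime_iff_eq ha hd).1 h2
    subst e
    rw [mul_comm c a] at h
    rw [Nat.eq_of_mul_eq_mul_left ha.pos h]

/-- Quotients of short vectors in one class give a dense family. -/
theorem family (m y J : ℕ) (K k : ℝ) (hm : 1 ≤ m) (P : Finset ℕ)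
    (hP : ∀ l ∈ P, Split m l ∧ y < l ∧ l ≤ 2 * y) (hc : (y : ℝ) ≤ K * P.card) (hK : 1 ≤ K)
    (hJ1 : 40 * K * ((m : ℝ) + 1) ^ 5 ≤ J) (hJ2 : 10 * m ^ 2 * J ≤ y)
    (hk : 80 * K ^ 2 * ((m : ℝ) + 1) ^ 5 ≤ k) : ∃ F : Finset (O m), Fam m y J k F := by
  classical
  have hex : ∀ l : ℕ, ∃ (w : O m) (c : ℕ), l ∈ P → 1 ≤ c ∧ c ≤ m + 1 ∧ w.norm = c * l := by
    intro l
    by_cases hl : l ∈ P
    · obtain ⟨hp, -, r, hr⟩ := (hP l hl).1
      obtain ⟨w, c, h1, h2, h3, -⟩ := thue hm {l} (by simpa using hp) (fun _ => r) (by simpa using hr)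
      exact ⟨w, c, fun _ => ⟨h1, h2, by simpa using h3⟩⟩
    · exact ⟨0, 0, fun h => absurd h hl⟩
  choose w c hw using hex
  have m1 : (1 : ℝ) ≤ m := by exact_mod_cast hm
  have M1 : (1 : ℝ) ≤ ((m : ℝ) + 1) ^ 5 := one_le_pow₀ (by linarith)
  have J1 : (40 : ℝ) ≤ J := by nlinarith
  have hJ2' : 10 * (m : ℝ) ^ 2 * J ≤ y := by exact_mod_cast hJ2
  have mJ : 10 * ((m : ℝ) * J) ≤ y := by nlinarith [mul_nonneg (sub_nonneg.2 m1) (by positivity : (0 : ℝ) ≤ m * J)]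
  have J2 : (J : ℝ) ≤ m * J := le_mul_of_one_le_left (by positivity) m1
  have y0 : (0 : ℝ) < y := by linarith
  set th : ℝ := J / (2 * y) with hth
  have th0 : 0 < th := by positivity
  have th1 : th ≤ 1 := by
    rw [hth, div_le_one (by positivity)]
    linarith
  have th2 : 2 * y * th ≤ m * J := by
    rw [hth, mul_div_cancel₀ _ (by positivity)]
    exact J2
  set N : ℕ := ⌊8 / th⌋₊ + 1 with hN
  have N1 : (N : ℝ) * J ≤ 20 * y := by
    have h1 : (N : ℝ) ≤ 8 / th + 1 := by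
      rw [hN]
      push_cast
      exact add_le_add_left (Nat.floor_le (by positivity)) _
    have h2 : 8 / th * J = 16 * y := by
      rw [hth]
      field_simp
      norm_num
    nlinarith
  obtain ⟨A, hA⟩ : ∃ A : ℤ, A = (((m + 1) ^ 2 : ℕ) : ℤ) := ⟨_, rfl⟩
  set T : Finset (ℕ × ℤ × ℤ × ℕ) := Icc 1 (m + 1) ×ˢ Ico 0 A ×ˢ Ico 0 A ×ˢ range N with hT
  have T1 : T.card = (m + 1) ^ 5 * N := by
    rw [hT, card_product, card_product, card_product, Nat.card_Icc, Int.card_Ico, card_range, hA,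
      sub_zero, Int.toNat_natCast, Nat.add_sub_cancel]
    ring
  set cl : ℕ → ℕ × ℤ × ℤ × ℕ := fun l => (c l, (w l).re % (c l * m), (w l).im % (c l * m),
    ⌊((ph m (w l)).arg + 4) / th⌋₊) with hcl
  have arg0 : ∀ z : ℂ, 0 ≤ (z.arg + 4) / th := by
    intro z
    have h1 := Complex.neg_pi_lt_arg z
    have h2 := Real.pi_le_four
    exact div_nonneg (by linarith) th0.le
  have hmap : ∀ l ∈ P, cl l ∈ T := by
    intro l hl
    obtain ⟨h1, h2, -⟩ := hw l hl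
    have h3 : (0 : ℤ) < c l * m := by positivity
    have h4 : (c l : ℤ) * m ≤ A := by
      rw [hA, sq]
      exact_mod_cast Nat.mul_le_mul h2 (Nat.le_succ m)
    simp only [hT, hcl, mem_product, mem_Icc, mem_Ico, mem_range]
    refine ⟨⟨h1, h2⟩, ⟨Int.emod_nonneg _ h3.ne', (Int.emod_lt_of_pos _ h3).trans_le h4⟩,
      ⟨Int.emod_nonneg _ h3.ne', (Int.emod_lt_of_pos _ h3).trans_le h4⟩, ?_⟩
    rw [hN]
    refine Nat.lt_succ_of_le (Nat.floor_le_floor (div_le_div_of_nonneg_right ?_ th0.le))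
    have h5 := Complex.arg_le_pi (ph m (w l))
    have h6 := Real.pi_le_four
    linarith
  have hpairs := pairs_FLFam P T cl hmap
  set Q : Finset (ℕ × ℕ) := (P ×ˢ P).filter fun q => q.1 ≠ q.2 ∧ cl q.1 = cl q.2 with hQ
  have hex2 : ∀ q : ℕ × ℕ, ∃ δ : O m, q ∈ Q → InBox m y J δ ∧ δ.norm = q.1 * q.2 := by
    intro q
    by_cases hq : q ∈ Q
    · obtain ⟨h1, -, h2⟩ := mem_filter.1 hq
      obtain ⟨ha, hb⟩ := mem_product.1 h1
      simp only [hcl, Prod.mk.injEq] at h2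
      obtain ⟨e1, e2, e3, e4⟩ := h2
      rw [← e1] at e2 e3
      obtain ⟨δ, hδ⟩ := pair_FLFam hm y J (c q.1) q.1 q.2 (w q.1) (w q.2) (hw _ ha).1
        (hw _ ha).2.2 (by rw [e1]; exact (hw _ hb).2.2) (hP _ ha).2.1 (hP _ hb).2.1 (hP _ ha).2.2
        (hP _ hb).2.2 (Int.ModEq.dvd (Int.ModEq.symm e2)) (Int.ModEq.dvd (Int.ModEq.symm e3)) th th1
        th2 (by
          have a1 := Nat.floor_le (arg0 (ph m (w q.1)))
          have a2 := Nat.lt_floor_add_one (((ph m (w q.1)).arg + 4) / th)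
          have b1 := Nat.floor_le (arg0 (ph m (w q.2)))
          have b2 := Nat.lt_floor_add_one (((ph m (w q.2)).arg + 4) / th)
          rw [e4] at a1 a2
          rw [le_div_iff₀ th0] at a1 b1
          rw [div_lt_iff₀ th0] at a2 b2
          rw [abs_le]
          constructor <;> linarith)
      exact ⟨δ, fun _ => hδ⟩
    · exact ⟨0, fun h => absurd h hq⟩
  choose δ hδ using hex2
  have hQm : ∀ q ∈ Q, q.1 ∈ P ∧ q.2 ∈ P ∧ q.1 ≠ q.2 := fun q hq =>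
    ⟨(mem_product.1 (mem_filter.1 hq).1).1, (mem_product.1 (mem_filter.1 hq).1).2,
      (mem_filter.1 hq).2.1⟩
  have hfib : Q.card ≤ 2 * (Q.image δ).card := by
    refine card_le_mul_card_image Q 2 fun a ha => ?_
    obtain ⟨q0, hq0, rfl⟩ := mem_image.1 ha
    refine le_trans (card_le_card (t := {(q0.1, q0.2), (q0.2, q0.1)}) fun q hq => ?_) card_le_two
    obtain ⟨hq1, hq2⟩ := mem_filter.1 hq
    have h1 : ((q.1 : ℤ)) * q.2 = q0.1 * q0.2 := by
      rw [← (hδ q hq1).2, ← (hδ q0 hq0).2, hq2]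
    have h2 : q.1 * q.2 = q0.1 * q0.2 := by exact_mod_cast h1
    have h3 := fibre_FLFam (hP _ (hQm q hq1).1).1.1 (hP _ (hQm q0 hq0).1).1.1
      (hP _ (hQm q0 hq0).2.1).1.1 h2
    rw [mem_insert, mem_singleton]
    exact h3
  refine ⟨Q.image δ, ⟨?_, ?_, ?_, by exact_mod_cast (by linarith : (1 : ℝ) ≤ J), hJ2⟩⟩
  · intro a ha
    obtain ⟨q, hq, rfl⟩ := mem_image.1 ha
    exact (hδ q hq).1
  · intro a ha
    obtain ⟨q, hq, rfl⟩ := mem_image.1 ha
    obtain ⟨h1, h2, h3⟩ := hQm q hq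
    exact ⟨q.1, q.2, (hP _ h1).1.1, (hP _ h2).1.1, h3, (hP _ h1).2.1, (hP _ h2).2.1, (hP _ h1).2.2,
      (hP _ h2).2.2, (hδ q hq).2⟩
  · have a1 : (P.card : ℝ) ^ 2 ≤ ((m : ℝ) + 1) ^ 5 * N * (Q.card + P.card) := by
      rw [T1] at hpairs
      exact_mod_cast hpairs
    have a2 : (Q.card : ℝ) ≤ 2 * (Q.image δ).card := by exact_mod_cast hfib
    have f0 : (0 : ℝ) ≤ (Q.image δ).card := Nat.cast_nonneg _
    have q0 : (0 : ℝ) ≤ Q.card := Nat.cast_nonneg _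
    have p0 : (0 : ℝ) ≤ P.card := Nat.cast_nonneg _
    generalize ((Q.image δ).card : ℝ) = f at a2 f0
    generalize (Q.card : ℝ) = q at a1 a2 q0
    generalize (P.card : ℝ) = p at a1 hc p0
    generalize ((m : ℝ) + 1) ^ 5 = M at a1 hJ1 hk M1
    have b1 : p ^ 2 * J ≤ 20 * M * y * (q + p) := by
      calc p ^ 2 * J ≤ M * N * (q + p) * J := mul_le_mul_of_nonneg_right a1 (by positivity)
        _ = M * (q + p) * (N * J) := by ring
        _ ≤ M * (q + p) * (20 * y) := mul_le_mul_of_nonneg_left N1 (by positivity)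
        _ = _ := by ring
    have b2 : 40 * M * y ≤ J * p := by
      calc 40 * M * y ≤ 40 * M * (K * p) := mul_le_mul_of_nonneg_left hc (by positivity)
        _ = 40 * K * M * p := by ring
        _ ≤ J * p := mul_le_mul_of_nonneg_right hJ1 p0
    have b3 : p ^ 2 * J ≤ 40 * M * y * q := by
      nlinarith [mul_le_mul_of_nonneg_right b2 p0]
    have b4 : (y : ℝ) * (y * J) ≤ y * (k * f) := by
      calc (y : ℝ) * (y * J) = (y : ℝ) ^ 2 * J := by ring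
        _ ≤ (K * p) ^ 2 * J :=
          mul_le_mul_of_nonneg_right (pow_le_pow_left₀ y0.le hc 2) (by positivity)
        _ = K ^ 2 * (p ^ 2 * J) := by ring
        _ ≤ K ^ 2 * (40 * M * y * q) := mul_le_mul_of_nonneg_left b3 (by positivity)
        _ ≤ K ^ 2 * (40 * M * y * (2 * f)) := by gcongr
        _ = y * (80 * K ^ 2 * M * f) := by ring
        _ ≤ y * (k * f) := by gcongr
    exact le_of_mul_le_mul_left b4 y0

end Pool.Agent.P.MP_b75a1e_co.EG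
end

-- part Pool.Agent.P.MP_b75a1e_co.FLSieve
section

set_option autoImplicit false

open Finset
open scoped BigOperators ComplexConjugate

namespace Pool.Agent.P.MP_b75a1e_co.EG

theorem bomb_FLSieve {κ σ τ : Type} (S : Finset κ) (T : Finset σ) (W : Finset τ) (ι : σ → τ)
    (hT : ∀ s ∈ T, ι s ∈ W) (hι : Set.InjOn ι T) (φ : κ → τ → ℂ) (B : ℝ) (hB0 : 0 ≤ B)
    (hB : ∀ j ∈ S, ∑ j' ∈ S, ‖∑ t ∈ W, φ j' t * conj (φ j t)‖ ≤ B) :
    ∑ j ∈ S, ‖∑ s ∈ T, φ j (ι s)‖ ^ 2 ≤ T.card * B := by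
  classical
  obtain ⟨F, hF⟩ : ∃ F : κ → ℂ, ∀ j, F j = ∑ s ∈ T, φ j (ι s) := ⟨_, fun _ => rfl⟩
  obtain ⟨g, hg⟩ : ∃ g : τ → ℂ, ∀ t, g t = ∑ j ∈ S, conj (F j) * φ j t := ⟨_, fun _ => rfl⟩
  obtain ⟨K, hK⟩ : ∃ K : κ → κ → ℂ, ∀ j j', K j j' = ∑ t ∈ W, φ j' t * conj (φ j t) :=
    ⟨_, fun _ _ => rfl⟩
  simp only [← hF]
  simp only [← hK] at hB
  set S0 : ℝ := ∑ j ∈ S, ‖F j‖ ^ 2 with hS0
  have hS : 0 ≤ S0 := sum_nonneg fun _ _ => by positivity
  have h1 : (S0 : ℂ) = ∑ s ∈ T, g (ι s) := by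
    simp only [hg]
    rw [sum_comm, hS0]
    push_cast
    refine sum_congr rfl fun j _ => ?_
    rw [← mul_sum, ← hF, Complex.conj_mul']
  have h2 : S0 ≤ ∑ s ∈ T, ‖g (ι s)‖ := by
    have := norm_sum_le T fun s => g (ι s)
    rwa [← h1, Complex.norm_real, Real.norm_of_nonneg hS] at this
  have h3 : ∑ s ∈ T, ‖g (ι s)‖ ^ 2 ≤ ∑ t ∈ W, ‖g t‖ ^ 2 := by
    rw [← sum_image (f := fun t => ‖g t‖ ^ 2) hι]
    refine sum_le_sum_of_subset_of_nonneg ?_ fun _ _ _ => by positivity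
    intro t ht
    obtain ⟨s, hs, rfl⟩ := mem_image.1 ht
    exact hT s hs
  have hsym : ∀ j j', ‖K j j'‖ = ‖K j' j‖ := by
    intro j j'
    rw [← Complex.norm_conj, hK, hK, map_sum]
    congr 1
    refine sum_congr rfl fun t _ => ?_
    rw [map_mul, Complex.conj_conj, mul_comm]
  have h4 : ((∑ t ∈ W, ‖g t‖ ^ 2 : ℝ) : ℂ) =
      ∑ j ∈ S, ∑ j' ∈ S, F j * conj (F j') * K j j' := by
    push_cast
    have : ∀ t, ((‖g t‖ : ℝ) : ℂ) ^ 2 =
        ∑ j ∈ S, ∑ j' ∈ S, F j * conj (F j') * (φ j' t * conj (φ j t)) := by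
      intro t
      rw [← Complex.conj_mul', hg, map_sum, sum_mul_sum]
      refine sum_congr rfl fun j _ => sum_congr rfl fun j' _ => ?_
      rw [map_mul, Complex.conj_conj]
      ring
    simp only [this]
    rw [sum_comm]
    refine sum_congr rfl fun j _ => ?_
    rw [sum_comm]
    refine sum_congr rfl fun j' _ => ?_
    rw [hK, mul_sum]
  have h5 : ∑ t ∈ W, ‖g t‖ ^ 2 ≤ B * S0 := by
    have hn : 0 ≤ ∑ t ∈ W, ‖g t‖ ^ 2 := sum_nonneg fun _ _ => by positivity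
    have e1 : ∑ t ∈ W, ‖g t‖ ^ 2 = ‖∑ j ∈ S, ∑ j' ∈ S, F j * conj (F j') * K j j'‖ := by
      rw [← h4, Complex.norm_real, Real.norm_of_nonneg hn]
    have e2 : ‖∑ j ∈ S, ∑ j' ∈ S, F j * conj (F j') * K j j'‖ ≤
        ∑ j ∈ S, ∑ j' ∈ S, (‖F j‖ ^ 2 * ‖K j j'‖ / 2 + ‖F j'‖ ^ 2 * ‖K j' j‖ / 2) := by
      refine (norm_sum_le _ _).trans (sum_le_sum fun j _ => ?_)
      refine (norm_sum_le _ _).trans (sum_le_sum fun j' _ => ?_)
      rw [norm_mul, norm_mul, Complex.norm_conj, ← hsym j j']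
      have := mul_nonneg (sq_nonneg (‖F j‖ - ‖F j'‖)) (norm_nonneg (K j j'))
      nlinarith
    have e3 : ∑ j ∈ S, ∑ j' ∈ S, ‖F j‖ ^ 2 * ‖K j j'‖ / 2 ≤ B * S0 / 2 := by
      rw [hS0, mul_sum, sum_div]
      refine sum_le_sum fun j hj => ?_
      rw [← sum_div, ← mul_sum]
      have := mul_le_mul_of_nonneg_left (hB j hj) (sq_nonneg ‖F j‖)
      linarith
    have e4 : ∑ j ∈ S, ∑ j' ∈ S, ‖F j'‖ ^ 2 * ‖K j' j‖ / 2 ≤ B * S0 / 2 := by
      rw [sum_comm]; exact e3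
    simp only [sum_add_distrib] at e2
    linarith
  have h6 : S0 ^ 2 ≤ T.card * (B * S0) := by
    calc S0 ^ 2 ≤ (∑ s ∈ T, ‖g (ι s)‖) ^ 2 := by gcongr
      _ ≤ T.card * ∑ s ∈ T, ‖g (ι s)‖ ^ 2 := sq_sum_le_card_mul_sum_sq
      _ ≤ T.card * (B * S0) := by gcongr; exact h3.trans h5
  rcases hS.eq_or_lt with h0 | h0
  · rw [← h0]; positivity
  · have : S0 * S0 ≤ (T.card * B) * S0 := by nlinarith
    exact le_of_mul_le_mul_right this h0

/-- The Dirichlet kernel. -/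
noncomputable def dk_FLSieve (N : ℕ) (x : ℝ) : ℂ := ∑ v ∈ range N, ee (x * v)

/-- The cell of a real number modulo one. -/
noncomputable def cl_FLSieve (N : ℕ) (x : ℝ) : ℤ := ⌊(N : ℝ) * (x - round x)⌋

theorem dk_neg_FLSieve (N : ℕ) (x : ℝ) : ‖dk_FLSieve N (-x)‖ = ‖dk_FLSieve N x‖ := by
  rw [← Complex.norm_conj (dk_FLSieve N x), dk_FLSieve, dk_FLSieve, map_sum]
  congr 1
  refine sum_congr rfl fun v _ => ?_
  rw [← ee_neg, neg_mul]

theorem cl_mem_FLSieve (N : ℕ) (x : ℝ) : cl_FLSieve N x ∈ Icc (-(N : ℤ)) N := by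
  have h := abs_le.1 (abs_sub_round x)
  have hN : (0 : ℝ) ≤ N := Nat.cast_nonneg N
  rw [mem_Icc, cl_FLSieve]
  constructor
  · rw [Int.le_floor]; push_cast; nlinarith [h.1]
  · have : ((⌊(N : ℝ) * (x - round x)⌋ : ℤ) : ℝ) ≤ ((N : ℤ) : ℝ) := by
      refine (Int.floor_le _).trans ?_
      push_cast; nlinarith [h.2]
    exact_mod_cast this

theorem dk_le_FLSieve (N : ℕ) (x : ℝ) :
    ‖dk_FLSieve N x‖ ^ 2 ≤ (5 / 2 * N) ^ 2 * (1 / (|(cl_FLSieve N x : ℝ)| + 1) ^ 2) := by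
  have hN : (0 : ℝ) ≤ N := Nat.cast_nonneg N
  have h1 : ‖dk_FLSieve N x‖ ≤ N := by
    refine (norm_sum_le _ _).trans ?_
    simp [norm_ee]
  have h2 : ‖dk_FLSieve N x‖ * |x - round x| ≤ 1 / 2 := by
    rcases (abs_nonneg (x - round x)).eq_or_lt with h0 | h0
    · rw [← h0]; norm_num
    · have := geom_ee 0 x _ h0 (fun z => round_le x z) N
      simp only [zero_add] at this
      rw [le_div_iff₀ (by positivity)] at this
      rw [dk_FLSieve]
      linarith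
  have h3 : |(cl_FLSieve N x : ℝ)| ≤ N * |x - round x| + 1 := by
    have a1 := Int.floor_le ((N : ℝ) * (x - round x))
    have a2 := Int.lt_floor_add_one ((N : ℝ) * (x - round x))
    have a3 := le_abs_self ((N : ℝ) * (x - round x))
    have a4 := neg_abs_le ((N : ℝ) * (x - round x))
    rw [abs_mul, abs_of_nonneg hN] at a3 a4
    rw [cl_FLSieve, abs_le]
    constructor <;> linarith
  have h4 : ‖dk_FLSieve N x‖ * (|(cl_FLSieve N x : ℝ)| + 1) ≤ 5 / 2 * N := by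
    have hn := norm_nonneg (dk_FLSieve N x)
    have b1 := mul_le_mul_of_nonneg_left h3 hn
    have b2 := mul_le_mul_of_nonneg_left h2 hN
    nlinarith
  rw [mul_one_div, le_div_iff₀ (by positivity), ← mul_pow]
  gcongr

theorem sig_FLSieve (n : ℕ) :
    ∑ c ∈ Icc (-(n : ℤ)) n, 1 / (|(c : ℝ)| + 1) ^ 2 ≤ 3 - 2 / ((n : ℝ) + 1) := by
  induction n with
  | zero => norm_num
  | succ n ih =>
    have e : Icc (-((n + 1 : ℕ) : ℤ)) ((n + 1 : ℕ) : ℤ) =
        insert ((n : ℤ) + 1) (insert (-((n : ℤ) + 1)) (Icc (-(n : ℤ)) n)) := by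
      ext c
      simp only [mem_Icc, mem_insert]
      omega
    rw [e, sum_insert (by simp only [mem_Icc, mem_insert]; omega),
      sum_insert (by simp only [mem_Icc]; omega)]
    have hn : (0 : ℝ) ≤ n := Nat.cast_nonneg n
    have a1 : |((((n : ℤ) + 1 : ℤ)) : ℝ)| = n + 1 := by
      push_cast; exact abs_of_nonneg (by positivity)
    have a2 : |(((-((n : ℤ) + 1) : ℤ)) : ℝ)| = n + 1 := by
      push_cast; rw [abs_neg]; exact abs_of_nonneg (by positivity)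
    rw [a1, a2]
    have a3 : 1 / ((n : ℝ) + 1 + 1) ^ 2 ≤ 1 / ((n : ℝ) + 1) - 1 / ((n : ℝ) + 1 + 1) := by
      rw [div_sub_div _ _ (by positivity) (by positivity), div_le_div_iff₀ (by positivity)
        (by positivity)]
      nlinarith
    have a4 : 2 / ((n : ℝ) + 1) = 2 * (1 / ((n : ℝ) + 1)) := by ring
    have a5 : 2 / (((n + 1 : ℕ) : ℝ) + 1) = 2 * (1 / ((n : ℝ) + 1 + 1)) := by push_cast; ring
    linarith

theorem cl_near_FLSieve (N : ℕ) (hN : 1 ≤ N) {x x' : ℝ} (h : cl_FLSieve N x = cl_FLSieve N x') :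
    |x - x' - ((round x - round x' : ℤ) : ℝ)| ≤ 1 / N := by
  have hN' : (0 : ℝ) < N := by exact_mod_cast hN
  have h1 := Int.abs_sub_lt_one_of_floor_eq_floor h
  rw [le_div_iff₀ hN']
  have : (N : ℝ) * (x - round x) - N * (x' - round x') =
      (x - x' - ((round x - round x' : ℤ) : ℝ)) * N := by push_cast; ring
  rw [this, abs_mul, abs_of_pos hN'] at h1
  exact h1.le

theorem row_FLSieve {κ : Type} (S : Finset κ) (x y : κ → ℝ) (N : ℕ) (μ : ℝ) (hμ : 0 ≤ μ)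
    (h : ∀ j0 ∈ S, ((S.filter fun j => (cl_FLSieve N (x j), cl_FLSieve N (y j)) =
      (cl_FLSieve N (x j0), cl_FLSieve N (y j0))).card : ℝ) ≤ μ) :
    ∑ j ∈ S, ‖dk_FLSieve N (x j)‖ ^ 2 * ‖dk_FLSieve N (y j)‖ ^ 2 ≤ μ * ((5 / 2 * N) ^ 2 * 3) ^ 2 := by
  obtain ⟨w, hw⟩ : ∃ w : ℤ → ℝ, ∀ c, w c = (5 / 2 * N) ^ 2 * (1 / (|(c : ℝ)| + 1) ^ 2) :=
    ⟨_, fun _ => rfl⟩
  have hw0 : ∀ c, 0 ≤ w c := fun c => by rw [hw]; positivity
  have hs : ∑ c ∈ Icc (-(N : ℤ)) N, w c ≤ (5 / 2 * N) ^ 2 * 3 := by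
    simp only [hw]
    rw [← mul_sum]
    have h1 := sig_FLSieve N
    have h2 : (0 : ℝ) ≤ 2 / ((N : ℝ) + 1) := by positivity
    gcongr
    linarith
  have hs0 : 0 ≤ ∑ c ∈ Icc (-(N : ℤ)) N, w c := sum_nonneg fun c _ => hw0 c
  calc ∑ j ∈ S, ‖dk_FLSieve N (x j)‖ ^ 2 * ‖dk_FLSieve N (y j)‖ ^ 2
      ≤ ∑ j ∈ S, (fun b : ℤ × ℤ => w b.1 * w b.2) (cl_FLSieve N (x j), cl_FLSieve N (y j)) := by
        refine sum_le_sum fun j _ => ?_
        have a1 := dk_le_FLSieve N (x j)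
        have a2 := dk_le_FLSieve N (y j)
        rw [← hw] at a1 a2
        exact mul_le_mul a1 a2 (by positivity) (hw0 _)
    _ = _ := sum_comp (fun b : ℤ × ℤ => w b.1 * w b.2)
        (fun j => (cl_FLSieve N (x j), cl_FLSieve N (y j)))
    _ ≤ ∑ b ∈ S.image (fun j => (cl_FLSieve N (x j), cl_FLSieve N (y j))),
          μ * (w b.1 * w b.2) := by
        refine sum_le_sum fun b hb => ?_
        obtain ⟨j0, hj0, rfl⟩ := mem_image.1 hb
        rw [nsmul_eq_mul]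
        exact mul_le_mul_of_nonneg_right (h j0 hj0) (mul_nonneg (hw0 _) (hw0 _))
    _ ≤ ∑ b ∈ Icc (-(N : ℤ)) N ×ˢ Icc (-(N : ℤ)) N, μ * (w b.1 * w b.2) := by
        refine sum_le_sum_of_subset_of_nonneg ?_ fun b _ _ =>
          mul_nonneg hμ (mul_nonneg (hw0 _) (hw0 _))
        intro b hb
        obtain ⟨j0, _, rfl⟩ := mem_image.1 hb
        exact mem_product.2 ⟨cl_mem_FLSieve _ _, cl_mem_FLSieve _ _⟩
    _ = μ * (∑ c ∈ Icc (-(N : ℤ)) N, w c) ^ 2 := by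
        rw [← mul_sum, sq, sum_mul_sum, sum_product]
    _ ≤ _ := by gcongr

theorem ker_FLSieve (N : ℕ) (x y x' y' : ℝ) :
    ‖∑ t ∈ (range N ×ˢ range N) ×ˢ (range N ×ˢ range N),
      ee (x * ((t.1.1 : ℝ) - t.1.2) + y * ((t.2.1 : ℝ) - t.2.2)) *
        conj (ee (x' * ((t.1.1 : ℝ) - t.1.2) + y' * ((t.2.1 : ℝ) - t.2.2)))‖ =
      ‖dk_FLSieve N (x - x')‖ ^ 2 * ‖dk_FLSieve N (y - y')‖ ^ 2 := by
  have e : ∑ t ∈ (range N ×ˢ range N) ×ˢ (range N ×ˢ range N),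
      ee (x * ((t.1.1 : ℝ) - t.1.2) + y * ((t.2.1 : ℝ) - t.2.2)) *
        conj (ee (x' * ((t.1.1 : ℝ) - t.1.2) + y' * ((t.2.1 : ℝ) - t.2.2))) =
      (dk_FLSieve N (x - x') * dk_FLSieve N (-(x - x'))) *
        (dk_FLSieve N (y - y') * dk_FLSieve N (-(y - y'))) := by
    simp only [dk_FLSieve]
    rw [sum_mul_sum, sum_mul_sum, ← sum_product', ← sum_product', sum_mul_sum, ← sum_product']
    refine sum_congr rfl fun t _ => ?_
    rw [← ee_neg, ← ee_add, ← ee_add, ← ee_add, ← ee_add]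
    congr 1
    ring
  rw [e, norm_mul, norm_mul, norm_mul, dk_neg_FLSieve, dk_neg_FLSieve]
  ring

open Classical in
/-- The large sieve in the plane, with multiplicity. -/
theorem ls {κ : Type} (m : ℕ) (hm : 1 ≤ m) (S : Finset κ) (P : κ → ℂ) (U : Finset (O m)) (L μ : ℝ)
    (hL : 1 ≤ L) (hμ : 0 ≤ μ) (hU : ∀ u ∈ U, ‖ph m u‖ ≤ L)
    (h : ∀ j0 ∈ S, ((S.filter fun j =>
      ∃ a : O m, ‖P j - P j0 - ph m a‖ ≤ 2 * Real.sqrt m / L).card : ℝ) ≤ μ) :
    ∑ j ∈ S, ‖fU U (P j)‖ ^ 2 ≤ 10 ^ 4 * μ * L ^ 2 * U.card := by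
  obtain ⟨M, hM⟩ : ∃ M : ℕ, M = ⌊L⌋₊ := ⟨_, rfl⟩
  have hM1 : 1 ≤ M := by rw [hM]; exact Nat.le_floor (by exact_mod_cast hL)
  have hM1' : (1 : ℝ) ≤ M := by exact_mod_cast hM1
  have hML : (M : ℝ) ≤ L := by rw [hM]; exact Nat.floor_le (by linarith)
  have hLM : L < M + 1 := by rw [hM]; exact Nat.lt_floor_add_one L
  have hsq : (1 : ℝ) ≤ Real.sqrt m := Real.one_le_sqrt.2 (by exact_mod_cast hm)
  have hre : ∀ u ∈ U, |u.re| ≤ M := by
    intro u hu
    have : ((|u.re| : ℤ) : ℝ) < (((M : ℤ) + 1 : ℤ) : ℝ) := by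
      push_cast
      exact ((abs_re_le u).trans (hU u hu)).trans_lt hLM
    have : |u.re| < (M : ℤ) + 1 := by exact_mod_cast this
    omega
  have him : ∀ u ∈ U, |u.im| ≤ M := by
    intro u hu
    have : ((|u.im| : ℤ) : ℝ) < (((M : ℤ) + 1 : ℤ) : ℝ) := by
      push_cast
      exact ((abs_im_le hm u).trans (hU u hu)).trans_lt hLM
    have : |u.im| < (M : ℤ) + 1 := by exact_mod_cast this
    omega
  have key := bomb_FLSieve S (U ×ˢ (range M ×ˢ range M))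
    ((range (2 * M) ×ˢ range (2 * M)) ×ˢ (range (2 * M) ×ˢ range (2 * M)))
    (fun s => ((s.2.1 + s.1.im.toNat, s.2.1 + (-s.1.im).toNat),
      (s.2.2 + s.1.re.toNat, s.2.2 + (-s.1.re).toNat)))
    (by
      rintro ⟨u, a, b⟩ hs
      simp only [mem_product, mem_range] at hs ⊢
      have h1 := abs_le.1 (hre u hs.1)
      have h2 := abs_le.1 (him u hs.1)
      omega)
    (by
      rintro ⟨u, a, b⟩ _ ⟨u', a', b'⟩ _ hs
      simp only [Prod.mk.injEq] at hs ⊢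
      refine ⟨?_, by omega, by omega⟩
      ext <;> omega)
    (fun j t => ee ((P j).re * ((t.1.1 : ℝ) - t.1.2) +
      (P j).im / Real.sqrt m * ((t.2.1 : ℝ) - t.2.2)))
    (μ * ((5 / 2 * ((2 * M : ℕ) : ℝ)) ^ 2 * 3) ^ 2) (by positivity)
    (by
      intro j0 _
      simp only [ker_FLSieve]
      refine row_FLSieve S (fun j => (P j).re - (P j0).re)
        (fun j => (P j).im / Real.sqrt m - (P j0).im / Real.sqrt m) (2 * M) μ hμ ?_
      intro j1 hj1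
      refine le_trans ?_ (h j1 hj1)
      refine Nat.cast_le.2 (card_le_card ?_)
      intro j hj
      rw [mem_filter] at hj ⊢
      refine ⟨hj.1, ?_⟩
      obtain ⟨e1, e2⟩ := Prod.mk.inj hj.2
      have n1 := cl_near_FLSieve (2 * M) (by omega) e1
      have n2 := cl_near_FLSieve (2 * M) (by omega) e2
      generalize round ((P j).re - (P j0).re) - round ((P j1).re - (P j0).re) = r1 at n1
      generalize round ((P j).im / Real.sqrt m - (P j0).im / Real.sqrt m) -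
        round ((P j1).im / Real.sqrt m - (P j0).im / Real.sqrt m) = r2 at n2
      refine ⟨⟨r1, r2⟩, (Complex.norm_le_abs_re_add_abs_im _).trans ?_⟩
      have f1 : (P j - P j1 - ph m ⟨r1, r2⟩).re =
          (P j).re - (P j0).re - ((P j1).re - (P j0).re) - r1 := by
        rw [Complex.sub_re, Complex.sub_re, ph_re]; ring
      have f2 : (P j - P j1 - ph m ⟨r1, r2⟩).im = ((P j).im / Real.sqrt m - (P j0).im / Real.sqrt m -
          ((P j1).im / Real.sqrt m - (P j0).im / Real.sqrt m) - r2) * Real.sqrt m := by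
        rw [Complex.sub_im, Complex.sub_im, ph_im]; field_simp; ring
      rw [f1, f2, abs_mul, abs_of_nonneg (Real.sqrt_nonneg _)]
      have g1 : (1 : ℝ) / ((2 * M : ℕ) : ℝ) ≤ 1 / L := by
        apply one_div_le_one_div_of_le (by linarith)
        push_cast; linarith
      have g2 := mul_le_mul_of_nonneg_right (n2.trans g1) (Real.sqrt_nonneg (m : ℝ))
      have g3 : 1 / L ≤ 1 / L * Real.sqrt m := le_mul_of_one_le_right (by positivity) hsq
      have g4 : 2 * Real.sqrt m / L = 2 * (1 / L * Real.sqrt m) := by ring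
      linarith)
  have e : ∀ j, ∑ s ∈ U ×ˢ (range M ×ˢ range M),
      ee ((P j).re * (((s.2.1 + s.1.im.toNat : ℕ) : ℝ) - ((s.2.1 + (-s.1.im).toNat : ℕ) : ℝ)) +
        (P j).im / Real.sqrt m *
          (((s.2.2 + s.1.re.toNat : ℕ) : ℝ) - ((s.2.2 + (-s.1.re).toNat : ℕ) : ℝ))) =
      (M : ℂ) ^ 2 * fU U (P j) := by
    intro j
    have t : ∀ (a : ℕ) (z : ℤ), ((a + z.toNat : ℕ) : ℝ) - ((a + (-z).toNat : ℕ) : ℝ) = z := by
      intro a z
      have : ((a + z.toNat : ℕ) : ℤ) - ((a + (-z).toNat : ℕ) : ℤ) = z := by omega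
      exact_mod_cast this
    simp only [t]
    rw [sum_product, fU, mul_sum]
    refine sum_congr rfl fun u _ => ?_
    simp only [sum_const, card_product, card_range, nsmul_eq_mul]
    rw [pr_coord hm]
    push_cast
    ring
  simp only [e, norm_mul, norm_pow, Complex.norm_natCast, mul_pow, card_product, card_range] at key
  rw [← mul_sum] at key
  push_cast at key
  have hc : (0 : ℝ) ≤ U.card := Nat.cast_nonneg _
  have k2 : ∑ j ∈ S, ‖fU U (P j)‖ ^ 2 ≤ 5625 * μ * (M : ℝ) ^ 2 * U.card := by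
    apply le_of_mul_le_mul_left _ (by positivity : (0 : ℝ) < ((M : ℝ) ^ 2) ^ 2)
    refine key.trans (le_of_eq ?_)
    ring
  refine k2.trans ?_
  gcongr
  norm_num

end Pool.Agent.P.MP_b75a1e_co.EG
end

-- part Pool.Agent.P.MP_b75a1e_co.FLTail
section

set_option autoImplicit false

open Finset
open scoped BigOperators ComplexConjugate

namespace Pool.Agent.P.MP_b75a1e_co.EG

open MeasureTheory Pool.Agent.EQ in
theorem int_FLTail {q : ℕ} [NeZero q] {χ : DirichletCharacter ℂ q} (hχ : χ ≠ 1) {c : ℝ}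
    (hc : 0 < c) :
    IntegrableOn (fun t : ℝ => sgbA χ ⌊t⌋₊ * (t : ℂ) ^ (-((1 : ℂ) + 1))) (Set.Ioi c) := by
  have hm : Measurable fun t : ℝ => sgbA χ ⌊t⌋₊ :=
    (measurable_of_countable (sgbA χ)).comp Nat.measurable_floor
  have ha : (-((1 : ℂ) + 1)).re < -1 := by
    simp only [Complex.neg_re, Complex.add_re, Complex.one_re]
    norm_num
  exact Integrable.bdd_mul (c := q) (integrableOn_Ioi_cpow_of_lt ha hc) hm.aestronglyMeasurable
    (Filter.Eventually.of_forall fun t => sgb_le_q hχ _)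

open MeasureTheory Pool.Agent.EQ in
theorem step_FLTail {q : ℕ} [NeZero q] {χ : DirichletCharacter ℂ q} (hχ : χ ≠ 1) {B : ℕ}
    (hB : 1 ≤ B) :
    ∫ t in Set.Ioi (B : ℝ), sgbA χ ⌊t⌋₊ * (t : ℂ) ^ (-((1 : ℂ) + 1)) =
      sgbA χ B * (1 / (B : ℂ) - 1 / ((B : ℂ) + 1)) +
        ∫ t in Set.Ioi ((B + 1 : ℕ) : ℝ), sgbA χ ⌊t⌋₊ * (t : ℂ) ^ (-((1 : ℂ) + 1)) := by
  have hB0 : (0 : ℝ) < B := by exact_mod_cast hB
  have hle : (B : ℝ) ≤ ((B + 1 : ℕ) : ℝ) := by exact_mod_cast Nat.le_succ B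
  have hI := int_FLTail hχ hB0
  rw [← Set.Ioc_union_Ioi_eq_Ioi hle, setIntegral_union (Set.Ioc_disjoint_Ioi_same)
    measurableSet_Ioi (hI.mono_set Set.Ioc_subset_Ioi_self)
    (hI.mono_set (Set.Ioi_subset_Ioi hle))]
  congr 1
  rw [integral_Ioc_eq_integral_Ioo,
    setIntegral_congr_fun (g := fun t : ℝ => sgbA χ B * (t : ℂ) ^ (-((1 : ℂ) + 1)))
      measurableSet_Ioo ?_, integral_const_mul, ← integral_Ioc_eq_integral_Ioo,
    ← intervalIntegral.integral_of_le hle, integral_cpow]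
  · congr 1
    have h1 : -((1 : ℂ) + 1) + 1 = -1 := by ring
    rw [h1, Complex.cpow_neg_one, Complex.cpow_neg_one]
    push_cast
    rw [one_div, one_div]
    ring
  · right
    refine ⟨by norm_num, ?_⟩
    rw [Set.uIcc_of_le hle]
    intro h0
    exact absurd h0.1 (not_le.2 hB0)
  · intro t ht
    have h2 : ⌊t⌋₊ = B := by
      rw [Nat.floor_eq_iff (hB0.le.trans ht.1.le)]
      refine ⟨ht.1.le, ?_⟩
      have h3 := ht.2
      push_cast at h3
      exact h3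
    simp only [h2]

open MeasureTheory Pool.Agent.EQ in
theorem repr_FLTail {q : ℕ} [NeZero q] {χ : DirichletCharacter ℂ q} (hχ : χ ≠ 1) {B : ℕ}
    (hB : 1 ≤ B) :
    χ.LFunction 1 - ∑ b ∈ Icc 1 B, χ (b : ZMod q) / b =
      (∫ t in Set.Ioi (B : ℝ), sgbA χ ⌊t⌋₊ * (t : ℂ) ^ (-((1 : ℂ) + 1))) - sgbA χ B / B := by
  induction B, hB using Nat.le_induction with
  | base =>
    rw [sgb_repr hχ (s := 1) (by simp), one_mul]
    simp [sgbA]
  | succ B hB ih =>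
    rw [Finset.sum_Icc_succ_top (by omega), ← sub_sub, ih, step_FLTail hχ hB, sgb_succ]
    push_cast
    ring

theorem tail {q : ℕ} [NeZero q] (χ : DirichletCharacter ℂ q) (hχ : χ ≠ 1) (B : ℕ) (hB : 1 ≤ B)
    (δ θ : ℝ) (hδ : 0 < δ) (h0 : 0 < θ) (h1 : θ ≤ 1)
    (h : ∀ N : ℕ, B ≤ N → ‖∑ n ∈ Icc 1 N, χ (n : ZMod q)‖ ≤ δ * N) :
    ‖χ.LFunction 1 - ∑ b ∈ Icc 1 B, χ (b : ZMod q) / b‖ ≤ δ + δ ^ (1 - θ) * (q : ℝ) ^ θ / θ := by
  have hB1 : (1 : ℝ) ≤ B := by exact_mod_cast hB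
  have hB0 : (0 : ℝ) < B := zero_lt_one.trans_le hB1
  have ha : -θ - 1 < -1 := by linarith
  have hC : 0 ≤ δ ^ (1 - θ) * (q : ℝ) ^ θ :=
    mul_nonneg (Real.rpow_nonneg hδ.le _) (Real.rpow_nonneg (Nat.cast_nonneg q) _)
  rw [repr_FLTail hχ hB, add_comm δ]
  refine (norm_sub_le _ _).trans (add_le_add ?_ ?_)
  · have h2 : ∫ t in Set.Ioi (B : ℝ), (δ ^ (1 - θ) * (q : ℝ) ^ θ) * t ^ (-θ - 1) ≤
        δ ^ (1 - θ) * (q : ℝ) ^ θ / θ := by
      rw [MeasureTheory.integral_const_mul, integral_Ioi_rpow_of_lt ha hB0, mul_div_assoc']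
      have h4 : -θ - 1 + 1 = -θ := by ring
      rw [h4, mul_neg, neg_div_neg_eq]
      refine div_le_div_of_nonneg_right (mul_le_of_le_one_right hC ?_) h0.le
      exact Real.rpow_le_one_of_one_le_of_nonpos hB1 (by linarith)
    refine le_trans ?_ h2
    refine MeasureTheory.norm_integral_le_of_norm_le
      ((integrableOn_Ioi_rpow_of_lt ha hB0).const_mul _) ?_
    filter_upwards [MeasureTheory.ae_restrict_mem measurableSet_Ioi] with t ht
    have ht0 : 0 < t := hB0.trans ht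
    rw [norm_mul, Complex.norm_cpow_eq_rpow_re_of_pos ht0]
    have h6 : B ≤ ⌊t⌋₊ := Nat.le_floor (le_of_lt ht)
    have h5 : ‖Pool.Agent.EQ.sgbA χ ⌊t⌋₊‖ ≤ (q : ℝ) ^ θ * (δ * t) ^ (1 - θ) :=
      Pool.Agent.EQ.sgb_interp (norm_nonneg _) (Pool.Agent.EQ.sgb_le_q hχ _)
        ((h _ h6).trans (mul_le_mul_of_nonneg_left (Nat.floor_le ht0.le) hδ.le)) h0.le h1
    refine (mul_le_mul_of_nonneg_right h5 (Real.rpow_nonneg ht0.le _)).trans (le_of_eq ?_)
    have h7 : (-((1 : ℂ) + 1)).re = -2 := by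
      simp only [Complex.neg_re, Complex.add_re, Complex.one_re]
      norm_num
    have h8 : -θ - 1 = (1 - θ) + -2 := by ring
    rw [h7, h8, Real.mul_rpow hδ.le ht0.le, Real.rpow_add ht0]
    ring
  · rw [norm_div, Complex.norm_natCast, div_le_iff₀ hB0]
    exact h B le_rfl

end Pool.Agent.P.MP_b75a1e_co.EG
end

-- part Pool.Agent.P.MP_b75a1e_co.FLUpper
section

set_option autoImplicit false

open Finset
open scoped BigOperators ComplexConjugate

namespace Pool.Agent.P.MP_b75a1e_co.EG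

theorem split_FLUpper (m a b : ℕ) (h : a.Coprime b) :
    ∑ d ∈ (a * b).divisors, (jacobiSym d m : ℝ) =
      (∑ d ∈ a.divisors, (jacobiSym d m : ℝ)) * ∑ d ∈ b.divisors, (jacobiSym d m : ℝ) := by
  rw [Nat.divisors_mul, Finset.mul_def, Finset.sum_image h.mul_injOn_divisors, Finset.sum_product,
    Finset.sum_mul_sum]
  refine Finset.sum_congr rfl fun x _ => Finset.sum_congr rfl fun y _ => ?_
  push_cast
  rw [jacobiSym.mul_left]
  push_cast
  rfl

theorem zero_FLUpper (m a b l : ℕ) (hb : 0 < b) (ha : Squarefree a) (hl : l.Prime) (hla : l ∣ a)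
    (hJ : jacobiSym l m = -1) : ∑ d ∈ (b ^ 2 * a).divisors, (jacobiSym d m : ℝ) = 0 := by
  obtain ⟨e, b', hb', rfl⟩ := Nat.exists_eq_pow_mul_and_not_dvd hb.ne' l hl.ne_one
  obtain ⟨a', rfl⟩ := hla
  have ha' : ¬ l ∣ a' := by
    intro h
    have h2 : l * l ∣ l * a' := Nat.mul_dvd_mul_left l h
    exact hl.ne_one (Nat.isUnit_iff.mp (ha l h2))
  have hcop : (l ^ (2 * e + 1)).Coprime (b' ^ 2 * a') := by
    apply Nat.Coprime.pow_left
    apply Nat.Coprime.mul_right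
    · exact Nat.Coprime.pow_right _ ((Nat.Prime.coprime_iff_not_dvd hl).mpr hb')
    · exact (Nat.Prime.coprime_iff_not_dvd hl).mpr ha'
  have he : (l ^ e * b') ^ 2 * (l * a') = l ^ (2 * e + 1) * (b' ^ 2 * a') := by ring
  rw [he, split_FLUpper m _ _ hcop, Nat.sum_divisors_prime_pow hl]
  have h0 : ∑ x ∈ range (2 * e + 1 + 1), (jacobiSym ((l ^ x : ℕ) : ℤ) m : ℝ) = 0 := by
    have h1 : ∀ x ∈ range (2 * e + 1 + 1),
        (jacobiSym ((l ^ x : ℕ) : ℤ) m : ℝ) = (-1 : ℝ) ^ x := by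
      intro x _
      push_cast
      rw [jacobiSym.pow_left, hJ]
      push_cast
      rfl
    rw [Finset.sum_congr rfl h1, neg_one_geom_sum, if_pos]
    exact ⟨e + 1, by ring⟩
  rw [h0, zero_mul]

theorem step_FLUpper (s t : ℝ) (hs : 0 < s) (hst : s ≤ t) (hd : t ^ 2 = s ^ 2 + 1) :
    1 / (t ^ 2 * t) ≤ 2 / s - 2 / t := by
  have ht : 0 < t := lt_of_lt_of_le hs hst
  have h1 : 1 ≤ 2 * t * (t - s) := by nlinarith [sq_nonneg (t - s)]
  have h2 : 2 / s - 2 / t = 2 * (t - s) / (s * t) := by field_simp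
  rw [h2, div_le_div_iff₀ (by positivity) (by positivity)]
  have h3 : s * t ≤ t ^ 2 := by nlinarith
  have h4 : t ^ 2 * 1 ≤ t ^ 2 * (2 * t * (t - s)) := by gcongr
  nlinarith

theorem zeta_FLUpper (X : ℕ) :
    ∑ b ∈ Icc 1 (X + 1), (1 : ℝ) / ((b : ℝ) * Real.sqrt b) ≤ 3 - 2 / Real.sqrt (X + 1 : ℕ) := by
  induction X with
  | zero => norm_num
  | succ k ih =>
    rw [Finset.sum_Icc_succ_top (by omega)]
    have hs : (0 : ℝ) < Real.sqrt (k + 1 : ℕ) := Real.sqrt_pos.mpr (by positivity)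
    have hs2 : Real.sqrt (k + 1 : ℕ) ^ 2 = (k + 1 : ℕ) := Real.sq_sqrt (by positivity)
    have ht2 : Real.sqrt (k + 1 + 1 : ℕ) ^ 2 = (k + 1 + 1 : ℕ) := Real.sq_sqrt (by positivity)
    have hst : Real.sqrt (k + 1 : ℕ) ≤ Real.sqrt (k + 1 + 1 : ℕ) :=
      Real.sqrt_le_sqrt (by push_cast; linarith)
    have hd : Real.sqrt (k + 1 + 1 : ℕ) ^ 2 = Real.sqrt (k + 1 : ℕ) ^ 2 + 1 := by
      rw [hs2, ht2]; push_cast; ring
    have h := step_FLUpper _ _ hs hst hd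
    rw [ht2] at h
    linarith

theorem zeta3_FLUpper (X : ℕ) (σ : ℝ) (h1 : 3 / 4 ≤ σ) :
    ∑ b ∈ Icc 1 X, (((b ^ 2 : ℕ) : ℝ)) ^ (-σ) ≤ 3 := by
  have hA : ∑ b ∈ Icc 1 X, (((b ^ 2 : ℕ) : ℝ)) ^ (-σ) ≤
      ∑ b ∈ Icc 1 X, (1 : ℝ) / ((b : ℝ) * Real.sqrt b) := by
    refine Finset.sum_le_sum fun b hb => ?_
    have hb1 : (1 : ℝ) ≤ b := by exact_mod_cast (Finset.mem_Icc.mp hb).1
    have hb0 : (0 : ℝ) < b := by linarith
    have e1 : (((b ^ 2 : ℕ) : ℝ)) ^ (-σ) = (b : ℝ) ^ (2 * (-σ)) := by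
      rw [Real.rpow_mul hb0.le]
      push_cast
      rw [Real.rpow_two]
    have e2 : (1 : ℝ) / ((b : ℝ) * Real.sqrt b) = (b : ℝ) ^ (-(1 + 1 / 2 : ℝ)) := by
      rw [Real.rpow_neg hb0.le, Real.rpow_add hb0, Real.rpow_one, Real.sqrt_eq_rpow, one_div]
    rw [e1, e2]
    exact Real.rpow_le_rpow_of_exponent_le hb1 (by linarith)
  have hB : ∑ b ∈ Icc 1 X, (1 : ℝ) / ((b : ℝ) * Real.sqrt b) ≤
      ∑ b ∈ Icc 1 (X + 1), (1 : ℝ) / ((b : ℝ) * Real.sqrt b) :=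
    Finset.sum_le_sum_of_subset_of_nonneg (Finset.Icc_subset_Icc_right (by omega))
      (fun b _ _ => by positivity)
  have hC := zeta_FLUpper X
  have hD : (0 : ℝ) ≤ 2 / Real.sqrt (X + 1 : ℕ) := by positivity
  linarith

theorem upper (m X : ℕ) (σ T : ℝ) (h1 : 3 / 4 ≤ σ) (hT0 : 0 ≤ T)
    (hT : ∀ n ∈ Icc 1 X, (n.divisors.card : ℝ) ≤ T) :
    ∑ n ∈ Icc 1 X, ∑ d ∈ n.divisors, (jacobiSym d m : ℝ) ≤ 3 * T * (X : ℝ) ^ σ *
      Real.exp (∑ l ∈ (Icc 1 X).filter (fun l : ℕ => l.Prime ∧ jacobiSym l m ≠ -1), (l : ℝ) ^ (-σ)) := by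
  classical
  generalize hP : (Icc 1 X).filter (fun l : ℕ => l.Prime ∧ jacobiSym l m ≠ -1) = P
  let g : ℕ × Finset ℕ → ℕ := fun q => q.1 ^ 2 * ∏ l ∈ q.2, l
  let G : Finset ℕ := (Icc 1 X ×ˢ P.powerset).image g
  have hσ : 0 ≤ σ := by linarith
  have hX : (0 : ℝ) ≤ (X : ℝ) ^ σ := Real.rpow_nonneg (Nat.cast_nonneg _) _
  have hf : ∀ n : ℕ, (0 : ℝ) ≤ (n : ℝ) ^ (-σ) := fun n => Real.rpow_nonneg (Nat.cast_nonneg _) _
  have hA : ∀ n ∈ Icc 1 X, ∑ d ∈ n.divisors, (jacobiSym d m : ℝ) ≤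
      if n ∈ G then T * (X : ℝ) ^ σ * (n : ℝ) ^ (-σ) else 0 := by
    intro n hn
    obtain ⟨hn1, hnX⟩ := Finset.mem_Icc.mp hn
    split_ifs with hG
    · have hn0 : (0 : ℝ) < n := by exact_mod_cast hn1
      have h2 : ∑ d ∈ n.divisors, (jacobiSym d m : ℝ) ≤ T := by
        refine le_trans ?_ (hT n hn)
        rw [Finset.card_eq_sum_ones]
        push_cast
        refine Finset.sum_le_sum fun d _ => ?_
        rcases jacobiSym.trichotomy (d : ℤ) m with h | h | h <;> rw [h] <;> norm_num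
      have h3 : (1 : ℝ) ≤ (X : ℝ) ^ σ * (n : ℝ) ^ (-σ) := by
        rw [Real.rpow_neg hn0.le, ← div_eq_mul_inv, le_div_iff₀ (Real.rpow_pos_of_pos hn0 _),
          one_mul]
        exact Real.rpow_le_rpow hn0.le (by exact_mod_cast hnX) hσ
      calc _ ≤ T * 1 := by rw [mul_one]; exact h2
        _ ≤ T * ((X : ℝ) ^ σ * (n : ℝ) ^ (-σ)) := by gcongr
        _ = _ := by ring
    · obtain ⟨a, b, ha0, hb0, hab, ha⟩ := Nat.sq_mul_squarefree_of_pos (n := n) hn1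
      by_cases hex : ∃ l, l.Prime ∧ l ∣ a ∧ jacobiSym l m = -1
      · obtain ⟨l, hl, hla, hJ⟩ := hex
        rw [← hab, zero_FLUpper m a b l hb0 ha hl hla hJ]
      · exfalso
        apply hG
        refine Finset.mem_image.mpr ⟨(b, a.primeFactors), ?_, ?_⟩
        · rw [Finset.mem_product]
          constructor
          · refine Finset.mem_Icc.mpr ⟨hb0, le_trans ?_ hnX⟩
            rw [← hab]
            exact Nat.le_of_dvd (by positivity) ⟨b * a, by ring⟩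
          · rw [Finset.mem_powerset, ← hP]
            intro l hl
            have hlp := Nat.prime_of_mem_primeFactors hl
            have hla := Nat.dvd_of_mem_primeFactors hl
            refine Finset.mem_filter.mpr ⟨Finset.mem_Icc.mpr ⟨hlp.pos, le_trans ?_ hnX⟩, hlp,
              fun hJ => hex ⟨l, hlp, hla, hJ⟩⟩
            rw [← hab]
            exact Nat.le_of_dvd (by positivity) (Dvd.dvd.mul_left hla _)
        · show b ^ 2 * ∏ l ∈ a.primeFactors, l = n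
          rw [Nat.prod_primeFactors_of_squarefree ha, hab]
  have hB : ∑ n ∈ G, (n : ℝ) ^ (-σ) ≤ 3 * Real.exp (∑ l ∈ P, (l : ℝ) ^ (-σ)) := by
    have h2 : ∑ n ∈ G, (n : ℝ) ^ (-σ) ≤
        ∑ q ∈ Icc 1 X ×ˢ P.powerset, ((g q : ℕ) : ℝ) ^ (-σ) :=
      Finset.sum_image_le_of_nonneg (f := fun n : ℕ => (n : ℝ) ^ (-σ)) (fun u _ => hf u)
    have h3 : ∑ q ∈ Icc 1 X ×ˢ P.powerset, ((g q : ℕ) : ℝ) ^ (-σ) =
        (∑ b ∈ Icc 1 X, (((b ^ 2 : ℕ) : ℝ)) ^ (-σ)) * ∏ l ∈ P, (1 + (l : ℝ) ^ (-σ)) := by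
      rw [Finset.prod_one_add, Finset.sum_mul_sum, Finset.sum_product]
      refine Finset.sum_congr rfl fun b _ => Finset.sum_congr rfl fun S _ => ?_
      show (((b ^ 2 * ∏ l ∈ S, l : ℕ)) : ℝ) ^ (-σ) = _
      rw [Nat.cast_mul, Real.mul_rpow (Nat.cast_nonneg _) (Nat.cast_nonneg _), Nat.cast_prod,
        Real.finsetProd_rpow _ _ (fun i _ => Nat.cast_nonneg _)]
    have h4 := Real.prod_one_add_le_exp_sum P (f := fun l : ℕ => (l : ℝ) ^ (-σ)) hf
    have h5 : (0 : ℝ) ≤ ∏ l ∈ P, (1 + (l : ℝ) ^ (-σ)) :=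
      Finset.prod_nonneg fun l _ => add_nonneg zero_le_one (hf l)
    rw [h3] at h2
    exact h2.trans (mul_le_mul (zeta3_FLUpper X σ h1) h4 h5 (by norm_num))
  calc ∑ n ∈ Icc 1 X, ∑ d ∈ n.divisors, (jacobiSym d m : ℝ)
      ≤ ∑ n ∈ Icc 1 X, (if n ∈ G then T * (X : ℝ) ^ σ * (n : ℝ) ^ (-σ) else 0) :=
        Finset.sum_le_sum hA
    _ = ∑ n ∈ (Icc 1 X).filter (fun n => n ∈ G), T * (X : ℝ) ^ σ * (n : ℝ) ^ (-σ) := by
        rw [Finset.sum_filter]
    _ ≤ ∑ n ∈ G, T * (X : ℝ) ^ σ * (n : ℝ) ^ (-σ) :=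
        Finset.sum_le_sum_of_subset_of_nonneg (fun n hn => (Finset.mem_filter.mp hn).2)
          (fun n _ _ => mul_nonneg (mul_nonneg hT0 hX) (hf n))
    _ = T * (X : ℝ) ^ σ * ∑ n ∈ G, (n : ℝ) ^ (-σ) := by rw [Finset.mul_sum]
    _ ≤ T * (X : ℝ) ^ σ * (3 * Real.exp (∑ l ∈ P, (l : ℝ) ^ (-σ))) :=
        mul_le_mul_of_nonneg_left hB (mul_nonneg hT0 hX)
    _ = _ := by ring

end Pool.Agent.P.MP_b75a1e_co.EG
end

-- part Pool.Agent.P.MP_b75a1e_co.FLVdc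
section

set_option autoImplicit false

open Finset
open scoped BigOperators ComplexConjugate

namespace Pool.Agent.P.MP_b75a1e_co.EG

theorem nonneg_FLVdc {G : Type} [AddCommGroup G] [Fintype G] (r : ℕ) :
    ∀ g : G → ℝ, 0 ≤ TT r g := by
  induction r with
  | zero => exact fun g => abs_nonneg _
  | succ r ih => exact fun g => expect_nonneg fun h _ => expect_nonneg fun h' _ => ih _

theorem cs_FLVdc {ι : Type} (s : Finset ι) (hs : s.Nonempty) (w f : ι → ℝ)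
    (hw : ∀ i, |w i| ≤ 1) : (𝔼 i ∈ s, w i * f i) ^ 2 ≤ 𝔼 i ∈ s, f i ^ 2 := by
  refine (expect_mul_sq_le_sq_mul_sq s w f).trans ?_
  refine mul_le_of_le_one_left (expect_nonneg fun i _ => sq_nonneg _) ?_
  exact expect_le hs fun i _ => (sq_le_one_iff_abs_le_one _).2 (hw i)

theorem pm_FLVdc {ι : Type} (s : Finset ι) (hs : s.Nonempty) (f : ι → ℝ) (hf : ∀ i, 0 ≤ f i)
    (r : ℕ) : (𝔼 i ∈ s, f i) ^ 2 ^ r ≤ 𝔼 i ∈ s, f i ^ 2 ^ r := by
  induction r with
  | zero => simp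
  | succ r ih =>
    have h := cs_FLVdc s hs (fun _ => 1) (fun i => f i ^ 2 ^ r) fun _ => by simp
    simp only [one_mul, ← pow_mul] at h
    rw [pow_succ 2 r, pow_mul]
    exact (pow_le_pow_left₀ (pow_nonneg (expect_nonneg fun i _ => hf i) _) ih 2).trans h

theorem shift_FLVdc (F : ℕ → ℝ) (hF : ∀ n, |F n| ≤ 1) (M t : ℕ) :
    |∑ n ∈ range M, F n - ∑ n ∈ range M, F (n + t)| ≤ 2 * t := by
  have h1 := sum_range_add F M t
  have h2 := sum_range_add F t M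
  rw [add_comm t M, h1] at h2
  have h3 : ∀ u : ℕ → ℝ, (∀ n, |u n| ≤ 1) → |∑ n ∈ range t, u n| ≤ t := fun u hu =>
    (abs_sum_le_sum_abs _ _).trans (by simpa using sum_le_card_nsmul (range t) _ 1 fun n _ => hu n)
  have h4 := abs_le.1 (h3 F hF)
  have h5 := abs_le.1 (h3 (fun n => F (M + n)) fun n => hF _)
  simp only [add_comm t] at h2
  rw [abs_le]
  constructor <;> linarith [h4.1, h4.2, h5.1, h5.2]

theorem period_FLVdc (q0 : ℕ) [NeZero q0] (γ : ZMod q0 → ℝ) (b : ℕ) :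
    ∑ n ∈ range q0, γ ((b + n : ℕ) : ZMod q0) = ∑ x, γ x := by
  refine sum_nbij' (fun n => ((b + n : ℕ) : ZMod q0)) (fun x => (x - b).val) ?_ ?_ ?_ ?_ ?_
  · simp
  · exact fun x _ => mem_range.2 (ZMod.val_lt _)
  · intro n hn
    simp only [Nat.cast_add, add_sub_cancel_left]
    exact ZMod.val_cast_of_lt (mem_range.1 hn)
  · intro x _
    simp
  · simp

theorem periods_FLVdc (q0 : ℕ) [NeZero q0] (γ : ZMod q0 → ℝ) (a N : ℕ) :
    ∑ n ∈ range (N * q0), γ ((a + n : ℕ) : ZMod q0) = N * ∑ x, γ x := by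
  induction N with
  | zero => simp
  | succ N ih =>
    rw [Nat.succ_mul, sum_range_add, ih, Nat.cast_succ, add_mul, one_mul,
      ← period_FLVdc q0 γ (a + N * q0)]
    simp only [add_assoc]

theorem per_FLVdc (g : ℕ → ℝ) (q : ℕ) (h : ∀ n, g (n + q) = g n) (n k : ℕ) :
    g (n + q * k) = g n := by
  induction k with
  | zero => simp
  | succ k ih => rw [Nat.mul_succ, ← add_assoc, h, ih]

theorem abs_prod_FLVdc {r : ℕ} (u : Fin r → ℝ) (hu : ∀ i, |u i| ≤ 1) : |∏ i, u i| ≤ 1 := by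
  rw [abs_prod]
  exact prod_le_one (fun i _ => abs_nonneg _) fun i _ => hu i

theorem abs_mul_FLVdc {x y : ℝ} (hx : |x| ≤ 1) (hy : |y| ≤ 1) : |x * y| ≤ 1 := by
  rw [abs_mul]
  exact mul_le_one₀ hx (abs_nonneg _) hy

theorem main_FLVdc (r : ℕ) : ∃ K : ℝ, 1 ≤ K ∧ ∀ (q0 : ℕ) [NeZero q0] (Z N a : ℕ) (q : Fin r → ℕ)
    (γ : ZMod q0 → ℝ) (g : Fin r → ℕ → ℝ), 1 ≤ N → (∀ x, |γ x| ≤ 1) → (∀ i n, |g i n| ≤ 1) →
    (∀ i n, g i (n + q i) = g i n) → (∀ i, Nat.Coprime (q i) q0) → (∀ i, q i ≤ Z) →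
    |𝔼 n ∈ range (N * q0), γ ((a + n : ℕ) : ZMod q0) * ∏ i, g i (a + n)| ^ 2 ^ r ≤
      K * (TT r γ + Z / N) := by
  induction r with
  | zero =>
    refine ⟨1, le_rfl, fun q0 _ Z N a q γ g hN _ _ _ _ _ => ?_⟩
    have hN' : (N : ℝ) ≠ 0 := by exact_mod_cast (by omega : N ≠ 0)
    simp only [univ_eq_empty, prod_empty, mul_one, pow_zero, pow_one, one_mul, TT]
    rw [expect_eq_sum_div_card, expect_eq_sum_div_card, periods_FLVdc, card_range, card_univ,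
      ZMod.card, Nat.cast_mul, mul_div_mul_left _ _ hN']
    exact le_add_of_nonneg_right (by positivity)
  | succ r ih =>
    obtain ⟨K, hK, ih⟩ := ih
    have hP : (1 : ℝ) ≤ 2 ^ 2 ^ (r + 1) := one_le_pow₀ (by norm_num)
    have hK' : (1 : ℝ) ≤ 2 ^ 2 ^ (r + 1) * (K + 2 ^ 2 ^ (r + 1)) :=
      one_le_mul_of_one_le_of_one_le hP (by linarith)
    refine ⟨_, hK', fun q0 _ Z N a q γ g hN hγ hg hper hcop hZ => ?_⟩
    have hq0 : 0 < q0 := Nat.pos_of_ne_zero (NeZero.ne q0)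
    have hN' : (0 : ℝ) < N := by exact_mod_cast hN
    have hq0' : (0 : ℝ) < q0 := by exact_mod_cast hq0
    have hs : (range (N * q0)).Nonempty := nonempty_range_iff.2 (by positivity)
    have hT := nonneg_FLVdc (r + 1) γ
    have hZN : (0 : ℝ) ≤ Z / N := by positivity
    let G : ℕ → ℝ := fun m => γ (m : ZMod q0) * ∏ i : Fin r, g i.succ m
    let F : ℕ → ℝ := fun n => γ ((a + n : ℕ) : ZMod q0) * ∏ i, g i (a + n)
    have hF : ∀ n, |F n| ≤ 1 := fun n => abs_mul_FLVdc (hγ _) (abs_prod_FLVdc _ fun i => hg i _)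
    change |𝔼 n ∈ range (N * q0), F n| ^ 2 ^ (r + 1) ≤ _
    by_cases hbig : (1 : ℝ) ≤ Z / N
    · have h1 : |𝔼 n ∈ range (N * q0), F n| ≤ 1 :=
        (abs_expect_le _ _).trans (expect_le hs fun n _ => hF n)
      exact (pow_le_one₀ (abs_nonneg _) h1).trans
        (one_le_mul_of_one_le_of_one_le hK' (by linarith))
    have hsm : (Z : ℝ) / N ≤ 1 := (not_le.1 hbig).le
    have hFG : ∀ n k, F (n + q 0 * k) = g 0 (a + n) * G (a + n + q 0 * k) := by
      intro n k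
      simp only [F, G, Fin.prod_univ_succ, ← add_assoc, per_FLVdc (g 0) (q 0) (hper 0)]
      ring
    set E' : ℝ := 𝔼 n ∈ range (N * q0), g 0 (a + n) * 𝔼 h : ZMod q0, G (a + n + q 0 * h.val)
      with hE'
    have h1 : |(𝔼 n ∈ range (N * q0), F n) - E'| ≤ 2 * (Z / N) := by
      have e : E' = 𝔼 h : ZMod q0, 𝔼 n ∈ range (N * q0), F (n + q 0 * h.val) := by
        rw [hE', expect_comm]
        simp only [mul_expect, hFG]
      rw [e, ← Fintype.expect_const (ι := ZMod q0) (𝔼 n ∈ range (N * q0), F n),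
        ← expect_sub_distrib]
      refine (abs_expect_le _ _).trans (expect_le univ_nonempty fun h _ => ?_)
      rw [expect_eq_sum_div_card, expect_eq_sum_div_card, ← sub_div, abs_div, card_range,
        Nat.abs_cast, Nat.cast_mul, div_le_iff₀ (by positivity)]
      refine (shift_FLVdc F hF _ _).trans ?_
      have a1 : ((q 0 * h.val : ℕ) : ℝ) ≤ Z * q0 := by
        exact_mod_cast Nat.mul_le_mul (hZ 0) (ZMod.val_lt h).le
      have a2 : 2 * ((Z : ℝ) / N) * (N * q0) = 2 * (Z * q0) := by field_simp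
      rw [a2]
      linarith
    have h2 : |E'| ^ 2 ^ (r + 1) ≤ K * (TT (r + 1) γ + Z / N) := by
      let B : ZMod q0 → ZMod q0 → ℝ := fun h h' =>
        𝔼 n ∈ range (N * q0), G (a + n + q 0 * h.val) * G (a + n + q 0 * h'.val)
      have b1 : E' ^ 2 ≤ 𝔼 h, 𝔼 h', |B h h'| := by
        refine (cs_FLVdc _ hs _ _ fun n => hg 0 _).trans ?_
        simp only [sq, expect_mul_expect]
        rw [expect_comm]
        refine expect_le_expect fun h _ => ?_
        rw [expect_comm]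
        exact expect_le_expect fun h' _ => le_abs_self _
      have b2 : ∀ h h', |B h h'| ^ 2 ^ r ≤
          K * (TT r (fun x => γ (x + q 0 * h) * γ (x + q 0 * h')) + Z / N) := by
        intro h h'
        have := ih q0 Z N a (fun i => q i.succ) (fun x => γ (x + q 0 * h) * γ (x + q 0 * h'))
          (fun i m => g i.succ (m + q 0 * h.val) * g i.succ (m + q 0 * h'.val)) hN
          (fun x => abs_mul_FLVdc (hγ _) (hγ _)) (fun i m => abs_mul_FLVdc (hg _ _) (hg _ _))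
          (fun i m => by
            rw [add_right_comm m, hper, add_right_comm m, hper])
          (fun i => hcop _) fun i => hZ _
        refine le_of_eq_of_le ?_ this
        congr 2
        refine expect_congr rfl fun n _ => ?_
        simp only [G, prod_mul_distrib, Nat.cast_add, Nat.cast_mul, ZMod.natCast_val,
          ZMod.cast_id', id]
        ring
      have hu : Function.Bijective fun h : ZMod q0 => (q 0 : ZMod q0) * h :=
        (ZMod.unitOfCoprime _ (hcop 0)).mulLeft_bijective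
      have b3 : (𝔼 h, 𝔼 h', TT r fun x => γ (x + q 0 * h) * γ (x + q 0 * h')) = TT (r + 1) γ := by
        refine Fintype.expect_bijective _ hu _ _ fun h => ?_
        exact Fintype.expect_bijective _ hu _ _ fun h' => rfl
      rw [pow_succ' 2 r, pow_mul, sq_abs]
      refine (pow_le_pow_left₀ (sq_nonneg _) b1 _).trans ?_
      refine (pm_FLVdc _ univ_nonempty _ (fun h => expect_nonneg fun h' _ => abs_nonneg _) r).trans ?_
      refine (expect_le_expect fun h _ => (pm_FLVdc _ univ_nonempty _ (fun h' => abs_nonneg _)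
        r).trans (expect_le_expect fun h' _ => b2 h h')).trans (le_of_eq ?_)
      simp only [← mul_expect, expect_add_distrib, Fintype.expect_const, b3]
    have h3 : |𝔼 n ∈ range (N * q0), F n| ≤ |E'| + 2 * (Z / N) := by
      have := abs_add_le E' ((𝔼 n ∈ range (N * q0), F n) - E')
      rw [add_sub_cancel] at this
      linarith
    have h4 : (2 * ((Z : ℝ) / N)) ^ 2 ^ (r + 1) ≤ 2 ^ 2 ^ (r + 1) * (TT (r + 1) γ + Z / N) := by
      rw [mul_pow]
      refine mul_le_mul_of_nonneg_left ?_ (by positivity)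
      exact (pow_le_of_le_one hZN hsm (by positivity)).trans (by linarith)
    have h5 : (2 : ℝ) ^ (2 ^ (r + 1) - 1) ≤ 2 ^ 2 ^ (r + 1) :=
      pow_le_pow_right₀ (by norm_num) (Nat.sub_le _ _)
    refine (pow_le_pow_left₀ (abs_nonneg _) h3 _).trans ?_
    refine (add_pow_le (abs_nonneg _) (by positivity) _).trans ?_
    rw [mul_assoc, add_mul]
    exact mul_le_mul h5 (add_le_add h2 h4) (by positivity) (by positivity)

/-- Repeated van der Corput differencing along the moduli `q i`. -/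
theorem vdc (r : ℕ) : ∃ K : ℝ, 1 ≤ K ∧ ∀ (q0 : ℕ) [NeZero q0] (Z N a : ℕ) (q : Fin r → ℕ)
    (γ : ZMod q0 → ℝ) (g : Fin r → ℕ → ℝ), 1 ≤ N → (∀ x, |γ x| ≤ 1) → (∀ i n, |g i n| ≤ 1) →
    (∀ i n, g i (n + q i) = g i n) → (∀ i, Nat.Coprime (q i) q0) → (∀ i, q i ≤ Z) →
    |(∑ n ∈ range (N * q0), γ ((a + n : ℕ) : ZMod q0) * ∏ i, g i (a + n)) / (N * q0 : ℕ)| ^ 2 ^ r ≤
      K * (TT r γ + Z / N) := by
  obtain ⟨K, hK, h⟩ := main_FLVdc r
  refine ⟨K, hK, fun q0 _ Z N a q γ g h1 h2 h3 h4 h5 h6 => ?_⟩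
  have := h q0 Z N a q γ g h1 h2 h3 h4 h5 h6
  rwa [expect_eq_sum_div_card, card_range] at this

end Pool.Agent.P.MP_b75a1e_co.EG
end

-- part Pool.Agent.P.MP_b75a1e_co.EGCoords
section

set_option autoImplicit false

open Finset
open scoped BigOperators ComplexConjugate

namespace Pool.Agent.P.MP_b75a1e_co.EG

theorem dvd_norm_sub_EGCoords {m : ℕ} (l : ℕ) {x y : O m} (h : (l : O m) ∣ x - y) :
    (l : ℤ) ∣ x.norm - y.norm := by
  rw [nat_dvd_iff] at h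
  obtain ⟨h1, h2⟩ := h
  rw [Zsqrtd.re_sub] at h1
  rw [Zsqrtd.im_sub] at h2
  rw [norm_eq, norm_eq]
  have e1 : x.re ^ 2 + m * x.im ^ 2 - (y.re ^ 2 + m * y.im ^ 2)
      = (x.re - y.re) * (x.re + y.re) + (x.im - y.im) * (m * (x.im + y.im)) := by ring
  rw [e1]
  exact dvd_add (h1.mul_right _) (h2.mul_right _)

theorem cast_dvd_EGCoords {m a b : ℕ} (h : a ∣ b) {x : O m} (hx : (b : O m) ∣ x) : (a : O m) ∣ x :=
  (Nat.cast_dvd_cast h).trans hx

theorem star_dvd_EGCoords {m a : ℕ} {x : O m} (hx : (a : O m) ∣ x) : (a : O m) ∣ star x := by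
  have h := dvd_star hx
  rwa [star_natCast] at h

theorem norm_le_EGCoords {m : ℕ} (z : O m) (ω : ℂ) (B η : ℝ) (w : ℕ) (hω : ‖ω‖ = 1) (hB : 1 ≤ B)
    (h : ‖ph m z - B * ω‖ ≤ η) (hw : (B + η) ^ 2 ≤ 2 ^ w) : z.norm ≤ 2 ^ w := by
  have h1 : ‖ph m z‖ ≤ B + η := by
    have h2 : ‖ph m z‖ ≤ ‖(B : ℂ) * ω‖ + ‖ph m z - B * ω‖ := by
      have := norm_add_le ((B : ℂ) * ω) (ph m z - B * ω)
      rwa [add_sub_cancel] at this
    rw [norm_mul, hω, Complex.norm_real, Real.norm_eq_abs, abs_of_nonneg (by linarith)] at h2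
    linarith
  have h3 : (z.norm : ℝ) ≤ 2 ^ w := by
    rw [← norm_sq_ph]
    exact (pow_le_pow_left₀ (norm_nonneg _) h1 2).trans hw
  exact_mod_cast h3

theorem trace_small_EGCoords (z : ℂ) (B η ε : ℝ) (hB : 1 ≤ B) (h : ‖z - B * Complex.I‖ ≤ η)
    (hε : 4 * η ≤ ε * B) (hε1 : ε ≤ 1) : ‖z + conj z‖ ≤ ε * ‖z‖ := by
  have hη : 0 ≤ η := (norm_nonneg _).trans h
  have hε0 : 0 ≤ ε := by
    by_contra hc
    push Not at hc
    nlinarith
  have e1 : z + conj z = (z - B * Complex.I) + conj (z - B * Complex.I) := by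
    simp only [map_sub, map_mul, Complex.conj_ofReal, Complex.conj_I]
    ring
  have h1 : ‖z + conj z‖ ≤ 2 * η := by
    rw [e1]
    have := norm_add_le (z - B * Complex.I) (conj (z - B * Complex.I))
    rw [Complex.norm_conj] at this
    linarith
  have h2 : B - η ≤ ‖z‖ := by
    have h3 : ‖(B : ℂ) * Complex.I‖ ≤ ‖z‖ + ‖z - B * Complex.I‖ := by
      have := norm_sub_le z (z - B * Complex.I)
      rwa [sub_sub_cancel] at this
    rw [norm_mul, Complex.norm_I, Complex.norm_real, Real.norm_eq_abs,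
      abs_of_nonneg (by linarith)] at h3
    linarith
  have h4 : B / 2 ≤ ‖z‖ := by nlinarith
  nlinarith [mul_le_mul_of_nonneg_left h4 hε0]

theorem unit_rep_EGCoords {m : ℕ} (hm : 1 ≤ m) (G z : O m) (hz : z ≠ 0) :
    (∃ (x : O m) (n : ℕ), n ≠ 0 ∧ ph m G * (ph m z / conj (ph m z)) = ph m x / n) ∧
      ‖ph m G * (ph m z / conj (ph m z))‖ ^ 2 = (G.norm : ℝ) := by
  have h1 := norm_pos' hm hz
  have h0 := ph_ne_zero hm hz
  have hc : conj (ph m z) ≠ 0 := by simpa using h0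
  constructor
  · refine ⟨G * z ^ 2, z.norm.toNat, by omega, ?_⟩
    have e1 : ((z.norm.toNat : ℕ) : ℂ) = ph m z * conj (ph m z) := by
      rw [Complex.mul_conj, Complex.normSq_eq_norm_sq, norm_sq_ph]
      have : ((z.norm.toNat : ℕ) : ℤ) = z.norm := Int.toNat_of_nonneg (by omega)
      rw [Complex.ofReal_intCast, ← Int.cast_natCast, this]
    rw [e1, map_mul, map_pow]
    field_simp
  · rw [norm_mul, norm_div, Complex.norm_conj, div_self (norm_ne_zero_iff.mpr h0), mul_one, norm_sq_ph]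

theorem pure_primes_EGCoords {Y : ℕ} (D : Finset ℕ) (hD : ∀ l ∈ D, l.Prime ∧ Y < l) :
    Pure Y (∏ l ∈ D, (l : ℤ)) := by
  intro q hq hqY hdvd
  rw [← Nat.cast_prod, Int.natCast_dvd_natCast] at hdvd
  obtain ⟨l, hl, hql⟩ := (Prime.dvd_finsetProd_iff hq.prime _).mp hdvd
  have := (Nat.prime_dvd_prime_iff_eq hq (hD l hl).1).mp hql
  have := (hD l hl).2
  omega

theorem cop_sq_left_EGCoords {Y : ℕ} {a b : ℤ} (h : Cop Y a b) : Cop Y (a ^ 2) b := by
  rw [sq]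
  exact h.mul_left h

theorem gen_EGCoords (m p n Nf Y len w K : ℕ) (B η ε σ τ : ℝ) (hsq : Squarefree m) (h4 : m % 4 = 3)
    (hmax : ∀ q, q.Prime → q ∣ m → q ≤ p) (hodd : p % 2 = 1) (hn : 16 * n ≤ p) (hp : 100 ≤ p)
    (hpY : p ≤ Y) (hN : Nf + 4 * n = p) (e : O m) (D : Finset ℕ) (hD : ∀ l ∈ D, l.Prime ∧ Y < l)
    (he : e.norm = ∏ l ∈ D, (l : ℤ)) (hB : 1 ≤ B) (hlen1 : 1 ≤ len) (hlen : Y * w ≤ len)
    (hη : η = 4 * ((primorial Y ^ 10 : ℕ) : ℝ) * len * Real.sqrt m) (hw : (B + η) ^ 2 ≤ 2 ^ w)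
    (hσ0 : 0 ≤ σ) (hσ : wt Y len e.norm ≤ σ)
    (hI1 : 2 * ((Nf : ℝ) + 1) * σ + 220 * ((Nf : ℝ) + 1) ^ 2 / Y ≤ 1 / 2)
    (hI2 : 2 * (σ + 100 * ((Nf : ℝ) + 1) / Y) + 220 / Y ≤ 1 / 2)
    (hτ : σ + 100 * ((Nf : ℝ) + 1) / Y + 100 / Y ≤ τ) (hε : 4 * η ≤ ε * B) (hε1 : ε ≤ 1)
    (hK : w * (2 * Nf + 2) ≤ K) :
    ∃ zg R : O m, Shape m Y (star zg * (e ^ 2 * R)) ∧ Prim Y (star zg * (e ^ 2 * R)) ∧
      Pure Y (star zg * (e ^ 2 * R)).norm ∧
      wt Y len (star zg * (e ^ 2 * R)).norm ≤ τ ∧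
      (star zg * R).norm ≤ 2 ^ K ∧ (QQ m Y : O m) ∣ zg + star zg ∧
      (m : O m) ^ 2 ∣ zg - 1 ∧ ‖ph m (zg + star zg)‖ ≤ ε * ‖ph m zg‖ ∧
      ∀ C : O m, (M1 m Y : O m) ∣ C - 1 →
        ∃ S : O m, Rep m (star zg * (e ^ 2 * R * C)).norm Nf (ph m S) ∧
          (QQ m Y : O m) ∣ S ∧
          mu m ∣ S + ((4 * n * (star zg * (e ^ 2 * R * C)).re : ℤ) : O m) ∧
          ‖ph m S‖ ≤ p * ε * ‖ph m (star zg * (e ^ 2 * R * C))‖ := by
  classical
  have hm : 1 ≤ m := by omega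
  have hmo : m % 2 = 1 := by omega
  have hY2 : 2 ≤ Y := by omega
  have hY3 : 3 ≤ Y := by omega
  have hYpos : (0 : ℝ) < Y := by exact_mod_cast (by omega : 0 < Y)
  have hsm : Smo Y m := fun l hl hlm => (hmax l hl hlm).trans hpY
  have hE1 : 1 ≤ primorial Y ^ 10 := Nat.one_le_pow _ _ (primorial_pos Y)
  obtain ⟨ζ, hζ⟩ := fixed_part m p Y n Nf hsq h4 hmax hodd hpY hN hn hp
  obtain ⟨ζg, hζg1, hζg2⟩ := exists_partner hmo Y
  have hen0 : e.norm ≠ 0 := by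
    rw [he]
    exact prod_ne_zero_iff.mpr fun l hl => by exact_mod_cast (hD l hl).1.ne_zero
  have hcard : (Fintype.card (Option (Fin Nf)) : ℝ) = (Nf : ℝ) + 1 := by simp
  obtain ⟨z1, hz1, hz1c, hz1w⟩ := design (I := Option (Fin Nf)) m Y len (primorial Y ^ 10) w B σ
    (fun o => o.elim ζg fun i => ζ i) (fun o => o.elim Complex.I fun i => dir i) e.norm hm hE1
    (smo_E Y) (by
      rintro (_ | i)
      · exact Complex.norm_I
      · exact norm_dir i) hB hY2 hlen1 hlen (by rw [← hη]; exact hw) hen0 hσ0 hσ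
    (by rw [hcard]; exact hI1)
  rw [hcard, Fintype.sum_option] at hz1w
  rw [← hη] at hz1
  obtain ⟨zg, hzg⟩ : ∃ zg, zg = z1 none := ⟨_, rfl⟩
  obtain ⟨z, hz⟩ : ∃ z : ℕ → O m, ∀ i : Fin Nf, z i = z1 (some i) :=
    ⟨fun i => if h : i < Nf then z1 (some ⟨i, h⟩) else 0, fun i => by simp [i.2]⟩
  have hzi : ∀ i < Nf, ((primorial Y ^ 10 : ℕ) : O m) ∣ z i - ζ i ∧
      ‖ph m (z i) - B * dir i‖ ≤ η ∧ Prim Y (z i) ∧ z i ≠ 0 ∧ Cop Y e.norm (z i).norm := by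
    intro i hi
    have h := hz1 (some ⟨i, hi⟩)
    rw [← hz ⟨i, hi⟩] at h
    exact h
  have hzz : ∀ i < Nf, ∀ k < Nf, i ≠ k → Cop Y (z i).norm (z k).norm := by
    intro i hi k hk hik
    have h := hz1c (some ⟨i, hi⟩) (some ⟨k, hk⟩) (by simpa using hik)
    rw [← hz ⟨i, hi⟩, ← hz ⟨k, hk⟩] at h
    exact h
  have hzgz : ∀ i < Nf, Cop Y (z i).norm zg.norm := by
    intro i hi
    have h := hz1c (some ⟨i, hi⟩) none (by simp)
    rw [← hz ⟨i, hi⟩, ← hzg] at h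
    exact h
  obtain ⟨hg1, hg2, hg3, hg4, hg5⟩ : ((primorial Y ^ 10 : ℕ) : O m) ∣ zg - ζg ∧
      ‖ph m zg - B * Complex.I‖ ≤ η ∧ Prim Y zg ∧ zg ≠ 0 ∧ Cop Y e.norm zg.norm := by
    have h := hz1 none
    rw [← hzg] at h
    exact h
  have hw1 : wt Y len zg.norm + ∑ i ∈ range Nf, wt Y len (z i).norm ≤ 100 * ((Nf : ℝ) + 1) / Y := by
    rw [← hzg] at hz1w
    rw [Finset.sum_range]
    simp only [hz]
    exact hz1w
  clear hz1 hz1c hz1w hzg hz z1
  obtain ⟨Gf, Dn, hDn, hGf, hGp, hS⟩ := hζ z fun i hi => (hzi i hi).1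
  obtain ⟨b, hb1, hb2, hb3⟩ := exists_slope hmo hsm
  obtain ⟨P, hP⟩ : ∃ P : ℤ, P = ∏ i ∈ range Nf, (z i).norm := ⟨_, rfl⟩
  have hPpos : 1 ≤ P := by
    have h : 0 < ∏ i ∈ range Nf, (z i).norm := prod_pos fun i hi =>
      lt_of_lt_of_le zero_lt_one (norm_pos' hm (hzi i (mem_range.mp hi)).2.2.2.1)
    omega
  have hGn : (Dn : ℤ) ^ 2 * Gf.norm = P ^ 2 := by
    have h := congrArg Zsqrtd.norm hGf
    rw [Zsqrtd.norm_mul, Zsqrtd.norm_natCast, norm_prod'] at h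
    simp only [norm_pow', Zsqrtd.norm_conj] at h
    rw [prod_pow] at h
    rw [hP, ← h]
    ring
  have hGdvd : Gf.norm ∣ P ^ 2 := ⟨(Dn : ℤ) ^ 2, by rw [← hGn]; ring⟩
  have hzg1 := norm_pos' hm hg4
  have hwP : wt Y len P ≤ ∑ i ∈ range Nf, wt Y len (z i).norm := by
    rw [hP]
    exact wt_prod Y len _ _
  have hDD0 : zg.norm * e.norm * P ≠ 0 := mul_ne_zero (mul_ne_zero (by omega) hen0) (by omega)
  have hwDD : wt Y len (zg.norm * e.norm * P) ≤ σ + 100 * ((Nf : ℝ) + 1) / Y := by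
    have h1 := wt_mul Y len (zg.norm * e.norm) P
    have h2 := wt_mul Y len zg.norm e.norm
    linarith
  obtain ⟨Γ0, hΓ0⟩ : ∃ Γ0 : O m, Γ0 = star zg * e ^ 2 * Gf := ⟨_, rfl⟩
  obtain ⟨sl, hsl⟩ : ∃ sl : O m, sl = ⟨1, cc m * b⟩ := ⟨_, rfl⟩
  obtain ⟨z2, hz2, -, hz2w⟩ := design (I := Unit) m Y len (primorial Y ^ 10) w B
    (σ + 100 * ((Nf : ℝ) + 1) / Y) (fun _ => star sl * Γ0) (fun _ => 1) (zg.norm * e.norm * P) hm hE1
    (smo_E Y) (fun _ => norm_one) hB hY2 hlen1 hlen (by rw [← hη]; exact hw) hDD0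
    (by positivity) hwDD (by simpa using hI2)
  obtain ⟨hs1, hs2, hs3, hs4, hs5⟩ := hz2 ()
  rw [← hη] at hs2
  have hw2 : wt Y len (z2 ()).norm ≤ 100 / Y := by simpa using hz2w
  generalize z2 () = zs at hs1 hs2 hs3 hs4 hs5 hw2
  clear hz2 hz2w z2
  have hq1 : (QQ m Y : O m) ∣ zg - rt m := by
    have h := dvd_add (cast_dvd_EGCoords (QQ_dvd_E hY3 m) hg1) hζg1
    rwa [sub_add_sub_cancel] at h
  have hq2 : (m : O m) ^ 2 ∣ zg - 1 := by
    have h0 : m ^ 2 ∣ primorial Y ^ 10 :=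
      (pow_dvd_pow_of_dvd (m_dvd_primorial hsq hsm) 2).trans (pow_dvd_pow _ (by norm_num))
    have h1 := cast_dvd_EGCoords h0 hg1
    rw [Nat.cast_pow] at h1
    have h := dvd_add h1 hζg2
    rwa [sub_add_sub_cancel] at h
  have hpg : Pure Y zg.norm := pure_partner hmo hq1 hq2
  have hpe : Pure Y e.norm := by rw [he]; exact pure_primes_EGCoords D hD
  have hΓn : Γ0.norm = zg.norm * (e.norm * e.norm) * Gf.norm := by
    rw [hΓ0, Zsqrtd.norm_mul, Zsqrtd.norm_mul, Zsqrtd.norm_conj, sq, Zsqrtd.norm_mul]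
  have hpΓ : Pure Y Γ0.norm := by
    rw [hΓn]
    exact (hpg.mul (hpe.mul hpe)).mul hGp
  have hsln : sl.norm = 1 + m * (cc m * b) ^ 2 := by
    rw [norm_eq, hsl]
    simp
  have hps : Pure Y zs.norm := by
    intro l hl hlY hdvd
    have h0 : l ∣ primorial Y ^ 10 :=
      (hl.dvd_primorial_iff.mpr hlY).trans (dvd_pow_self _ (by norm_num))
    have h1 := dvd_norm_sub_EGCoords l (cast_dvd_EGCoords h0 hs1)
    have h2 := (dvd_iff_dvd_of_dvd_sub h1).mp hdvd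
    rw [Zsqrtd.norm_mul, Zsqrtd.norm_conj, hsln] at h2
    exact (hb3.mul hpΓ) l hl hlY h2
  have hfull : star zg * (e ^ 2 * (Gf * star zs)) = Γ0 * star zs := by rw [hΓ0]; ring
  have hshape : Shape m Y (star zg * (e ^ 2 * (Gf * star zs))) := by
    refine ⟨Γ0.norm, b, hpΓ, hb1, hb2, ?_⟩
    have h1 := star_dvd_EGCoords (cast_dvd_EGCoords (M1_dvd_E hY3 hsq hsm) hs1)
    rw [star_sub, star_mul', star_star] at h1
    have e1 : (⟨Γ0.norm, Γ0.norm * (cc m * b)⟩ : O m) = Γ0 * (sl * star Γ0) := by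
      have e2 : Γ0 * (sl * star Γ0) = (Γ0.norm : O m) * sl := by
        rw [Zsqrtd.norm_eq_mul_conj]
        ring
      rw [e2, hsl]
      ext <;> simp
    rw [hfull, e1, ← mul_sub]
    exact h1.mul_left _
  have hfn : (star zg * (e ^ 2 * (Gf * star zs))).norm
      = zg.norm * (e.norm * e.norm) * Gf.norm * zs.norm := by
    rw [hfull, Zsqrtd.norm_mul, Zsqrtd.norm_conj, hΓn]
  have hzs1 := norm_pos' hm hs4
  -- coprimality
  have cPg : Cop Y P zg.norm := by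
    rw [hP]
    exact Cop.prod_left _ _ _ fun i hi => hzgz i (mem_range.mp hi)
  have cPe : Cop Y P e.norm := by
    rw [hP]
    exact Cop.prod_left _ _ _ fun i hi => (hzi i (mem_range.mp hi)).2.2.2.2.symm
  have cGg : Cop Y Gf.norm zg.norm := (cop_sq_left_EGCoords cPg).of_dvd hGdvd dvd_rfl
  have cGe : Cop Y Gf.norm e.norm := (cop_sq_left_EGCoords cPe).of_dvd hGdvd dvd_rfl
  have cPs : Cop Y P zs.norm := hs5.of_dvd (dvd_mul_left _ _) dvd_rfl
  have cGs : Cop Y Gf.norm zs.norm := (cop_sq_left_EGCoords cPs).of_dvd hGdvd dvd_rfl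
  have ces : Cop Y e.norm zs.norm :=
    hs5.of_dvd ((dvd_mul_left _ _).trans (dvd_mul_right _ _)) dvd_rfl
  have cgs : Cop Y zg.norm zs.norm :=
    hs5.of_dvd ((dvd_mul_right _ _).trans (dvd_mul_right _ _)) dvd_rfl
  have prG : Prim Y Gf := by
    have h : Prim Y (∏ i ∈ range Nf, star (z i) ^ 2) := by
      refine Prim.prod _ _ (fun i hi => Prim.sq hY2 hsm (hzi i (mem_range.mp hi)).2.2.1.conj) ?_
      intro i hi k hk hik
      rw [norm_pow', norm_pow', Zsqrtd.norm_conj, Zsqrtd.norm_conj]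
      exact cop_sq_left_EGCoords
        (cop_sq_left_EGCoords (hzz i (mem_range.mp hi) k (mem_range.mp hk) hik).symm).symm
    exact h.of_dvd ⟨(Dn : O m), by rw [← hGf]; ring⟩
  have prR : Prim Y (Gf * star zs) := prG.mul hs3.conj (by rw [Zsqrtd.norm_conj]; exact cGs)
  have pre : Prim Y (e ^ 2) := Prim.sq hY2 hsm (prim_of_norm (fun l hl => (hD l hl).1) he)
  have prER : Prim Y (e ^ 2 * (Gf * star zs)) := by
    refine pre.mul prR ?_
    rw [norm_pow', Zsqrtd.norm_mul, Zsqrtd.norm_conj]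
    exact cop_sq_left_EGCoords (cGe.mul_left ces.symm).symm
  have prF : Prim Y (star zg * (e ^ 2 * (Gf * star zs))) := by
    refine hg3.conj.mul prER ?_
    rw [Zsqrtd.norm_conj, Zsqrtd.norm_mul, norm_pow', Zsqrtd.norm_mul, Zsqrtd.norm_conj]
    exact ((cop_sq_left_EGCoords hg5).mul_left (cGg.mul_left cgs.symm)).symm
  have hη0 : 0 ≤ η := (norm_nonneg _).trans hg2
  have hε0 : 0 ≤ ε := by
    by_contra hc
    push Not at hc
    nlinarith
  refine ⟨zg, Gf * star zs, hshape, prF, ?_, ?_, ?_, ?_, hq2, ?_, ?_⟩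
  · rw [hfn]
    exact ((hpg.mul (hpe.mul hpe)).mul hGp).mul hps
  · rw [hfn]
    have hd : zg.norm * (e.norm * e.norm) * Gf.norm * zs.norm ∣ (zg.norm * e.norm * P) ^ 2 * zs.norm := by
      refine mul_dvd_mul ?_ dvd_rfl
      obtain ⟨c, hc⟩ := hGdvd
      exact ⟨zg.norm * c, by rw [mul_pow, hc]; ring⟩
    have h1 := wt_of_dvd Y len hd (mul_ne_zero (pow_ne_zero 2 hDD0) (by omega))
    have h2 := wt_mul Y len ((zg.norm * e.norm * P) ^ 2) zs.norm
    rw [wt_sq] at h2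
    linarith
  · have h1 := norm_le_EGCoords zg _ B η w Complex.norm_I hB hg2 hw
    have h2 := norm_le_EGCoords zs _ B η w norm_one hB hs2 hw
    have h3 : P ≤ (2 ^ w) ^ Nf := by
      rw [hP]
      refine (prod_le_prod (g := fun _ => (2 : ℤ) ^ w) (fun i _ => norm_nonneg' _) fun i hi => ?_).trans ?_
      · exact norm_le_EGCoords (z i) _ B η w (norm_dir i) hB (hzi i (mem_range.mp hi)).2.1 hw
      · rw [prod_const, card_range]
    have h4 : Gf.norm ≤ P ^ 2 := Int.le_of_dvd (by positivity) hGdvd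
    have h5 : Gf.norm ≤ ((2 ^ w) ^ Nf) ^ 2 := h4.trans (pow_le_pow_left₀ (by omega) h3 2)
    have h6 := norm_nonneg' Gf
    rw [Zsqrtd.norm_mul, Zsqrtd.norm_mul, Zsqrtd.norm_conj, Zsqrtd.norm_conj]
    calc zg.norm * (Gf.norm * zs.norm) ≤ 2 ^ w * (((2 ^ w) ^ Nf) ^ 2 * 2 ^ w) := by gcongr
      _ = 2 ^ (w * (2 * Nf + 2)) := by ring
      _ ≤ 2 ^ K := pow_le_pow_right₀ (by norm_num) hK
  · have h1 := star_dvd_EGCoords hq1
    have e1 : star (rt m) = -rt m := by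
      ext <;> simp [rt]
    rw [star_sub, e1] at h1
    have h := dvd_add hq1 h1
    have e2 : zg - rt m + (star zg - -rt m) = zg + star zg := by ring
    rwa [e2] at h
  · rw [map_add, ph_star]
    exact trace_small_EGCoords _ B η ε hB hg2 hε hε1
  · intro C hC
    have hΓ : star zg * e ^ 2 * star zs * C * Gf = star zg * (e ^ 2 * (Gf * star zs) * C) := by ring
    have hΓ' : star zg * (e ^ 2 * (Gf * star zs)) * C = star zg * (e ^ 2 * (Gf * star zs) * C) := by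
      ring
    have hd := (hshape.mul hC).diff
    rw [hΓ'] at hd
    obtain ⟨S, hS1, hS2, hS3⟩ := hS (star zg * e ^ 2 * star zs * C) (by rw [hΓ]; exact hd)
    rw [hΓ] at hS1 hS3
    generalize star zg * (e ^ 2 * (Gf * star zs) * C) = G at hS1 hS3 ⊢
    refine ⟨S, ?_, hS2, hS3, ?_⟩
    · refine ⟨(range Nf).val.map fun i => ph m G * (ph m (z i) / conj (ph m (z i))), by simp, ?_, ?_⟩
      · intro a ha
        obtain ⟨i, hi, rfl⟩ := Multiset.mem_map.mp ha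
        exact unit_rep_EGCoords hm G (z i) (hzi i (mem_range.mp hi)).2.2.2.1
      · rw [hS1]
        rfl
    · have hsd := sum_dir Nf (by omega) (by omega)
      have e1 : ∑ i ∈ range Nf, ph m (z i) / conj (ph m (z i))
          = ∑ i ∈ range Nf, (ph m (z i) / conj (ph m (z i)) - dir i / conj (dir i)) := by
        rw [sum_sub_distrib, hsd, sub_zero]
      have hB0 : 0 < B := by linarith
      have h2 : 2 * η / B ≤ ε := by
        rw [div_le_iff₀ hB0]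
        linarith
      have h1 : ‖∑ i ∈ range Nf, ph m (z i) / conj (ph m (z i))‖ ≤ p * ε := by
        rw [e1]
        refine (norm_sum_le _ _).trans ?_
        refine (sum_le_card_nsmul _ _ ε fun i hi => ?_).trans ?_
        · have h := hzi i (mem_range.mp hi)
          exact (unit_close _ _ B η (norm_dir i) hB0 (ph_ne_zero hm h.2.2.2.1) h.2.1).trans h2
        · rw [card_range, nsmul_eq_mul]
          have : (Nf : ℝ) ≤ p := by exact_mod_cast (by omega : Nf ≤ p)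
          exact mul_le_mul_of_nonneg_right this hε0
      rw [hS1, ← mul_sum, norm_mul, mul_comm]
      exact mul_le_mul_of_nonneg_right h1 (norm_nonneg _)

theorem pow_step_EGCoords {p : ℕ} (hp : 10 ^ 20 ≤ p) (a : ℕ) : 100 * p ^ a ≤ p ^ (a + 1) := by
  rw [pow_succ, mul_comm]
  exact Nat.mul_le_mul_left _ (by omega)

theorem pow_mono_EGCoords {p : ℕ} (hp : 10 ^ 20 ≤ p) {a b : ℕ} (h : a ≤ b) : p ^ a ≤ p ^ b :=
  Nat.pow_le_pow_right (by omega) h

theorem pow_le_two_EGCoords {p : ℕ} (hp : 10 ^ 20 ≤ p) : p ^ 60 ≤ 2 ^ p ^ 7 := by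
  have h1 : p ^ 60 ≤ (2 ^ p) ^ 60 := Nat.pow_le_pow_left Nat.lt_two_pow_self.le 60
  rw [← pow_mul] at h1
  refine h1.trans (Nat.pow_le_pow_right (by norm_num) ?_)
  have h2 := pow_step_EGCoords hp 1
  have h3 := pow_mono_EGCoords hp (show 1 + 1 ≤ 7 by norm_num)
  rw [pow_one] at h2
  omega

theorem eta_le_EGCoords {m p : ℕ} (hmp : m ≤ 4 ^ p) (hp : 10 ^ 20 ≤ p) :
    4 * ((primorial (p ^ 15) ^ 10 : ℕ) : ℝ) * ((2 ^ p ^ 7 : ℕ) : ℝ) * Real.sqrt m ≤ 2 ^ p ^ 16 := by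
  have h1 : primorial (p ^ 15) ^ 10 ≤ 2 ^ (20 * p ^ 15) := by
    have h := Nat.pow_le_pow_left (primorial_le_four_pow (p ^ 15)) 10
    have e1 : (4 ^ p ^ 15) ^ 10 = 2 ^ (20 * p ^ 15) := by
      rw [show (4 : ℕ) = 2 ^ 2 by norm_num, ← pow_mul, ← pow_mul]
      congr 1
      ring
    rwa [e1] at h
  have h2 : Real.sqrt m ≤ 2 ^ p := by
    rw [Real.sqrt_le_left (by positivity)]
    have e1 : ((2 : ℝ) ^ p) ^ 2 = 4 ^ p := by
      rw [← pow_mul, mul_comm, pow_mul]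
      norm_num
    rw [e1]
    exact_mod_cast hmp
  have h3 : ((primorial (p ^ 15) ^ 10 : ℕ) : ℝ) ≤ 2 ^ (20 * p ^ 15) := by exact_mod_cast h1
  have h4 : 2 + 20 * p ^ 15 + p ^ 7 + p ≤ p ^ 16 := by
    have a1 := pow_step_EGCoords hp 15
    have a2 := pow_mono_EGCoords hp (show 7 ≤ 15 by norm_num)
    have a3 := pow_mono_EGCoords hp (show 1 ≤ 15 by norm_num)
    rw [pow_one] at a3
    norm_num at a1
    omega
  calc 4 * ((primorial (p ^ 15) ^ 10 : ℕ) : ℝ) * ((2 ^ p ^ 7 : ℕ) : ℝ) * Real.sqrt m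
      ≤ 4 * 2 ^ (20 * p ^ 15) * ((2 ^ p ^ 7 : ℕ) : ℝ) * 2 ^ p := by gcongr
    _ = 2 ^ (2 + 20 * p ^ 15 + p ^ 7 + p) := by
      rw [pow_add, pow_add, pow_add]
      push_cast
      norm_num
    _ ≤ 2 ^ p ^ 16 := pow_le_pow_right₀ (by norm_num) h4

/-- The partner coordinate, the fixed coordinates and the compensating coordinate. -/
theorem coords (m p n : ℕ) (hsq : Squarefree m) (h4 : m % 4 = 3) (hmax : ∀ q, q.Prime → q ∣ m → q ≤ p)
    (hmp : m ≤ 4 ^ p) (hp : 10 ^ 20 ≤ p) (hodd : p % 2 = 1) (hn : 16 * n ≤ p) (e : O m) (D : Finset ℕ)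
    (hD : ∀ l ∈ D, l.Prime ∧ p ^ 60 ≤ l) (hDc : D.card ≤ p ^ 37) (he : e.norm = ∏ l ∈ D, (l : ℤ)) :
    ∃ zg R : O m, Shape m (p ^ 15) (star zg * (e ^ 2 * R)) ∧ Prim (p ^ 15) (star zg * (e ^ 2 * R)) ∧
      Pure (p ^ 15) (star zg * (e ^ 2 * R)).norm ∧
      wt (p ^ 15) (2 ^ p ^ 7) (star zg * (e ^ 2 * R)).norm ≤ 1 / (p : ℝ) ^ 12 ∧
      (star zg * R).norm ≤ 2 ^ p ^ 21 ∧ (QQ m (p ^ 15) : O m) ∣ zg + star zg ∧
      (m : O m) ^ 2 ∣ zg - 1 ∧ ‖ph m (zg + star zg)‖ ≤ 1 / 2 ^ p ^ 17 * ‖ph m zg‖ ∧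
      ∀ C : O m, (M1 m (p ^ 15) : O m) ∣ C - 1 →
        ∃ S : O m, Rep m (star zg * (e ^ 2 * R * C)).norm (p - 4 * n) (ph m S) ∧
          (QQ m (p ^ 15) : O m) ∣ S ∧
          mu m ∣ S + ((4 * n * (star zg * (e ^ 2 * R * C)).re : ℤ) : O m) ∧
          ‖ph m S‖ ≤ p * (1 / 2 ^ p ^ 17) * ‖ph m (star zg * (e ^ 2 * R * C))‖ := by
  have hp0 : (10 : ℝ) ^ 20 ≤ p := by exact_mod_cast hp
  have hp1 : (0 : ℝ) < p := by linarith [show (0 : ℝ) < 10 ^ 20 by norm_num]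
  have h60 := pow_le_two_EGCoords hp
  have hη := eta_le_EGCoords hmp hp
  have hη0 : (0 : ℝ) ≤ 4 * ((primorial (p ^ 15) ^ 10 : ℕ) : ℝ) * ((2 ^ p ^ 7 : ℕ) : ℝ) * Real.sqrt m := by
    positivity
  have hNf : ((p - 4 * n : ℕ) : ℝ) + 1 ≤ 2 * p := by
    have : p - 4 * n + 1 ≤ 2 * p := by omega
    exact_mod_cast this
  have hNf0 : (0 : ℝ) ≤ ((p - 4 * n : ℕ) : ℝ) + 1 := by positivity
  have a1 := pow_step_EGCoords hp 16
  have a2 := pow_step_EGCoords hp 17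
  have a3 := pow_step_EGCoords hp 0
  have a4 := pow_mono_EGCoords hp (show 1 ≤ 16 by norm_num)
  have a5 := pow_mono_EGCoords hp (show 1 ≤ 15 by norm_num)
  have a6 := pow_step_EGCoords hp 15
  have a7 := pow_mono_EGCoords hp (show 16 ≤ 60 by norm_num)
  have a8 := pow_step_EGCoords hp 33
  have a9 := pow_mono_EGCoords hp (show 34 ≤ 60 by norm_num)
  have a10 := pow_step_EGCoords hp 19
  have a11 := pow_mono_EGCoords hp (show 20 ≤ 21 by norm_num)
  rw [pow_one] at a4 a5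
  norm_num only at a1 a2 a6 a8 a10
  have hinv : ∀ (c : ℝ) (k : ℕ), c ≤ 10 ^ 20 → c / (p : ℝ) ^ (k + 1) ≤ 1 / (p : ℝ) ^ k := by
    intro c k hc
    rw [div_le_div_iff₀ (by positivity) (by positivity), pow_succ, one_mul, mul_comm]
    exact mul_le_mul_of_nonneg_left (hc.trans hp0) (by positivity)
  have hmono : ∀ {j k : ℕ}, j ≤ k → 1 / (p : ℝ) ^ k ≤ 1 / (p : ℝ) ^ j := by
    intro j k hjk
    exact one_div_le_one_div_of_le (by positivity)
      (pow_le_pow_right₀ (by linarith [show (1 : ℝ) ≤ 10 ^ 20 by norm_num]) hjk)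
  have hsmall : 1 / (p : ℝ) ^ 1 ≤ 1 / 1000 := by
    rw [pow_one]
    exact one_div_le_one_div_of_le (by norm_num) (by linarith [show (1000 : ℝ) ≤ 10 ^ 20 by norm_num])
  have b1 : 100 * (((p - 4 * n : ℕ) : ℝ) + 1) / ((p ^ 15 : ℕ) : ℝ) ≤ 1 / (p : ℝ) ^ 13 := by
    calc 100 * (((p - 4 * n : ℕ) : ℝ) + 1) / ((p ^ 15 : ℕ) : ℝ) ≤ 100 * (2 * p) / ((p ^ 15 : ℕ) : ℝ) := by
          gcongr
      _ = 200 / (p : ℝ) ^ (13 + 1) := by
          push_cast
          field_simp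
          norm_num
      _ ≤ 1 / (p : ℝ) ^ 13 := hinv _ _ (by norm_num)
  have b2 : 220 / ((p ^ 15 : ℕ) : ℝ) ≤ 1 / (p : ℝ) ^ 14 := by
    rw [Nat.cast_pow]
    exact hinv _ 14 (by norm_num)
  have b3 : 100 / ((p ^ 15 : ℕ) : ℝ) ≤ 1 / (p : ℝ) ^ 14 := by
    rw [Nat.cast_pow]
    exact hinv _ 14 (by norm_num)
  have b4 : 3 / (p : ℝ) ^ 13 ≤ 1 / (p : ℝ) ^ 12 := hinv _ 12 (by norm_num)
  have m1 := hmono (show 13 ≤ 22 by norm_num)
  have m2 := hmono (show 13 ≤ 14 by norm_num)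
  have m3 := hmono (show 1 ≤ 13 by norm_num)
  have m4 := hmono (show 1 ≤ 12 by norm_num)
  have m5 := hmono (show 1 ≤ 20 by norm_num)
  refine gen_EGCoords m p n (p - 4 * n) (p ^ 15) (2 ^ p ^ 7) (2 * p ^ 18 + 2) (p ^ 21) (2 ^ p ^ 18) _
    (1 / 2 ^ p ^ 17) (1 / (p : ℝ) ^ 22) (1 / (p : ℝ) ^ 12) hsq h4 hmax hodd hn (by omega) a5 (by omega)
    e D (fun l hl => ⟨(hD l hl).1, lt_of_lt_of_le (by omega) (hD l hl).2⟩) he
    (one_le_pow₀ (by norm_num)) Nat.one_le_two_pow ?_ rfl ?_ (by positivity) ?_ ?_ ?_ ?_ ?_ ?_ ?_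
  · have h1 : p ^ 15 * (2 * p ^ 18 + 2) ≤ p ^ 15 * (4 * p ^ 18) :=
      Nat.mul_le_mul_left _ (by omega)
    have e1 : p ^ 15 * (4 * p ^ 18) = 4 * p ^ 33 := by ring
    omega
  · have h1 : (2 : ℝ) ^ p ^ 16 ≤ 2 ^ p ^ 18 := pow_le_pow_right₀ (by norm_num) (by omega)
    have e1 : (2 : ℝ) ^ (2 * p ^ 18 + 2) = (2 ^ p ^ 18 + 2 ^ p ^ 18) ^ 2 := by
      rw [pow_add, mul_comm 2 (p ^ 18), pow_mul]
      generalize (2 : ℝ) ^ p ^ 18 = t
      ring
    rw [e1]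
    exact pow_le_pow_left₀ (by positivity) (by linarith) 2
  · rw [he]
    refine (wt_primes _ _ (p ^ 60) (by omega) D hD).trans ?_
    have h1 : (D.card : ℝ) ≤ (p : ℝ) ^ 37 := by exact_mod_cast hDc
    have h2 : (1 : ℝ) / ((2 ^ p ^ 7 : ℕ) : ℝ) ≤ 1 / ((p ^ 60 : ℕ) : ℝ) :=
      one_div_le_one_div_of_le (by positivity) (by exact_mod_cast h60)
    calc (D.card : ℝ) * (1 / ((p ^ 60 : ℕ) : ℝ) + 1 / ((2 ^ p ^ 7 : ℕ) : ℝ))
        ≤ (p : ℝ) ^ 37 * (1 / ((p ^ 60 : ℕ) : ℝ) + 1 / ((p ^ 60 : ℕ) : ℝ)) := by gcongr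
      _ = 2 / (p : ℝ) ^ (22 + 1) := by
          push_cast
          field_simp
          norm_num
      _ ≤ 1 / (p : ℝ) ^ 22 := hinv _ _ (by norm_num)
  · have h1 : 2 * (((p - 4 * n : ℕ) : ℝ) + 1) * (1 / (p : ℝ) ^ 22) ≤ 1 / (p : ℝ) ^ 20 := by
      calc 2 * (((p - 4 * n : ℕ) : ℝ) + 1) * (1 / (p : ℝ) ^ 22) ≤ 2 * (2 * p) * (1 / (p : ℝ) ^ 22) := by
            gcongr
        _ = 4 / (p : ℝ) ^ (20 + 1) := by
            field_simp
            ring
        _ ≤ 1 / (p : ℝ) ^ 20 := hinv _ _ (by norm_num)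
    have h2 : 220 * (((p - 4 * n : ℕ) : ℝ) + 1) ^ 2 / ((p ^ 15 : ℕ) : ℝ) ≤ 1 / (p : ℝ) ^ 12 := by
      calc 220 * (((p - 4 * n : ℕ) : ℝ) + 1) ^ 2 / ((p ^ 15 : ℕ) : ℝ)
          ≤ 220 * (2 * p) ^ 2 / ((p ^ 15 : ℕ) : ℝ) := by gcongr
        _ = 880 / (p : ℝ) ^ (12 + 1) := by
            push_cast
            field_simp
            norm_num
        _ ≤ 1 / (p : ℝ) ^ 12 := hinv _ _ (by norm_num)
    linarith
  · linarith
  · have e1 : 3 / (p : ℝ) ^ 13 = 3 * (1 / (p : ℝ) ^ 13) := by ring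
    linarith
  · have h1 : (2 : ℝ) ^ (2 + p ^ 16 + p ^ 17) ≤ 2 ^ p ^ 18 := pow_le_pow_right₀ (by norm_num) (by omega)
    rw [pow_add, pow_add] at h1
    rw [one_div, inv_mul_eq_div, le_div_iff₀ (by positivity)]
    refine le_trans ?_ h1
    have e1 : (2 : ℝ) ^ 2 = 4 := by norm_num
    rw [e1]
    gcongr
  · rw [div_le_one (by positivity)]
    exact one_le_pow₀ (by norm_num)
  · have h1 : (2 * p ^ 18 + 2) * (2 * (p - 4 * n) + 2) ≤ (4 * p ^ 18) * (4 * p) :=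
      Nat.mul_le_mul (by omega) (by omega)
    have e1 : (4 * p ^ 18) * (4 * p) = 16 * p ^ 19 := by ring
    omega

end Pool.Agent.P.MP_b75a1e_co.EG
end

-- part Pool.Agent.P.MP_b75a1e_co.EGMExp
section

set_option autoImplicit false

open Finset
open scoped BigOperators ComplexConjugate

namespace Pool.Agent.P.MP_b75a1e_co.EG

theorem card_pow_le_EGMExp (Y : ℕ) (hY : 2 ^ 200 ≤ Y) (d : ℕ) :
    1 ≤ d → Rough Y d → d.divisors.card ^ 200 ≤ d := by
  induction d using induction_on_primes with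
  | zero => intro h; omega
  | one => intro _ _; simp
  | prime_mul p a hp ih =>
    intro hd hR
    have ha : 1 ≤ a := by
      rcases Nat.eq_zero_or_pos a with h | h
      · simp [h] at hd
      · exact h
    have hRa : Rough Y a := fun l hl hla => hR l hl (Dvd.dvd.mul_left hla p)
    have hp' : Y < p := hR p hp (Dvd.intro a rfl)
    have h1 : (p * a).divisors.card ≤ 2 * a.divisors.card := by
      rw [Nat.divisors_mul]
      refine Finset.card_mul_le.trans ?_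
      rw [hp.divisors, Finset.card_pair hp.one_lt.ne]
    calc (p * a).divisors.card ^ 200 ≤ (2 * a.divisors.card) ^ 200 := Nat.pow_le_pow_left h1 _
      _ = 2 ^ 200 * a.divisors.card ^ 200 := mul_pow _ _ _
      _ ≤ p * a := Nat.mul_le_mul (hY.trans hp'.le) (ih ha hRa)

theorem card_divisors_rough (Y d : ℕ) (hY : 2 ^ 200 ≤ Y) (hd : 1 ≤ d) (hR : Rough Y d) :
    (d.divisors.card : ℝ) ≤ (d : ℝ) ^ (1 / 200 : ℝ) := by
  have h := card_pow_le_EGMExp Y hY d hd hR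
  have h' : ((d.divisors.card : ℝ)) ^ 200 ≤ d := by exact_mod_cast h
  have h0 : (0 : ℝ) ≤ d.divisors.card := Nat.cast_nonneg _
  calc (d.divisors.card : ℝ) = (((d.divisors.card : ℝ)) ^ 200) ^ (1 / 200 : ℝ) := by
        rw [← Real.rpow_natCast, ← Real.rpow_mul h0]; norm_num
    _ ≤ (d : ℝ) ^ (1 / 200 : ℝ) := Real.rpow_le_rpow (by positivity) h' (by norm_num)

theorem cX_nonneg_EGMExp {m r : ℕ} (d : ℕ) (z : Fin r → O m) : 0 ≤ cX d z := by
  unfold cX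
  split_ifs
  · exact Finset.expect_nonneg fun q _ => by split_ifs <;> norm_num
  · exact le_rfl

theorem cY_nonneg_EGMExp {m r : ℕ} (d : ℕ) (z1 z2 : Fin r → O m) : 0 ≤ cY d z1 z2 := by
  unfold cY
  split_ifs
  · exact Finset.expect_nonneg fun q _ => by split_ifs <;> norm_num
  · exact le_rfl

theorem Zc_nonneg_EGMExp {m r : ℕ} (d : ℕ) (z : Fin 3 → Fin r → O m) : 0 ≤ Zc d z :=
  Finset.sum_nonneg fun d1 _ =>
    mul_nonneg (mul_nonneg (by positivity) (cY_nonneg_EGMExp _ _ _)) (cX_nonneg_EGMExp _ _)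

/-- Three coordinates as a pair and a point. -/
def three_EGMExp (α : Type) : (Fin 3 → α) ≃ (α × α) × α where
  toFun t := ((t 0, t 1), t 2)
  invFun q := ![q.1.1, q.1.2, q.2]
  left_inv t := by
    funext i
    fin_cases i <;> rfl
  right_inv q := rfl

theorem expect_three_EGMExp {α : Type} [Fintype α] (F : α × α → ℝ) (G : α → ℝ) :
    𝔼 t : Fin 3 → α, F (t 0, t 1) * G (t 2) = (𝔼 q, F q) * 𝔼 x, G x := by
  rw [Finset.expect_mul_expect, ← Finset.expect_product', Finset.univ_product_univ]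
  exact Fintype.expect_equiv (three_EGMExp α) _ _ fun t => rfl

theorem expect_eval_EGMExp {ι α : Type} [Fintype ι] [DecidableEq ι] [Fintype α] [Nonempty α]
    (f : α → ℝ) (g : ι) : 𝔼 ω : ι → α, f (ω g) = 𝔼 x, f x := by
  have h := expect_pi_prod (ι := ι) (Ω := fun _ => α) (fun i x => if i = g then f x else 1)
  simp only [Finset.prod_ite_eq', Finset.mem_univ, if_true] at h
  have h1 : ∀ ω : ι → α, (∏ i, if i = g then f (ω i) else 1) = f (ω g) := fun ω => by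
    rw [Finset.prod_ite_eq']; simp
  have h2 : (∏ i : ι, 𝔼 x : α, if i = g then f x else 1) = 𝔼 x, f x := by
    rw [Finset.prod_eq_single g]
    · simp
    · intro b _ hb
      simp [hb]
    · simp
  rw [← h2, ← h]

theorem coprime_EGMExp {Y d n : ℕ} (hR : Rough Y d) (hs : Smo Y n) : Nat.Coprime d n := by
  apply Nat.coprime_of_dvd
  intro l hl h1 h2
  have := hR l hl h1
  have := hs l hl h2
  omega

theorem lt_of_rough_EGMExp {Y d : ℕ} (hd : 1 < d) (hR : Rough Y d) : Y < d := by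
  obtain ⟨l, hl, hld⟩ := Nat.exists_prime_and_dvd hd.ne'
  exact (hR l hl hld).trans_le (Nat.le_of_dvd (by omega) hld)

theorem term_EGMExp (m Y M A len r d d1 : ℕ) (hsm : Smo Y (2 * m * M)) (hd : 1 < d)
    (hR : Rough Y d) (hlen : d ≤ len) (hr : (d : ℝ) ^ 3 ≤ (4 / 3 : ℝ) ^ r) (h1 : d1 ∣ d)
    (h2 : d ^ 49 ≤ d1 ^ 100) :
    𝔼 t : Fin 3 → Fin r → Fin len,
      (d1 : ℝ) ^ 2 * cY d1 (fun i => mz m M (A + t 0 i)) (fun i => mz m M (A + t 1 i)) *
        cX d1 (fun i => mz m M (A + t 2 i)) ≤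
      90 * (d.divisors.card : ℝ) * (d : ℝ) ^ (-49 / 600 : ℝ) := by
  have hd1 : 1 ≤ d1 := Nat.pos_of_dvd_of_pos h1 (by omega)
  have hle : d1 ≤ d := Nat.le_of_dvd (by omega) h1
  have hR1 : Rough Y d1 := fun l hl hla => hR l hl (hla.trans h1)
  have hc := coprime_EGMExp hR1 hsm
  have hd1R : (1 : ℝ) ≤ d1 := by exact_mod_cast hd1
  have hleR : (d1 : ℝ) ≤ d := by exact_mod_cast hle
  have hr1 : (d1 : ℝ) ^ 3 ≤ (4 / 3 : ℝ) ^ r := (pow_le_pow_left₀ (by positivity) hleR 3).trans hr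
  have hr2 : d1 ≤ 2 ^ r := by
    have : (d1 : ℝ) ≤ 2 ^ r := by
      calc (d1 : ℝ) ≤ (d1 : ℝ) ^ 3 := le_self_pow₀ hd1R (by norm_num)
        _ ≤ (4 / 3 : ℝ) ^ r := hr1
        _ ≤ 2 ^ r := pow_le_pow_left₀ (by norm_num) (by norm_num) r
    exact_mod_cast this
  have hY := collY m M A len r d1 hd1 hc (hle.trans hlen) hr1
  have hX := collX m M A len r d1 hd1 hc (hle.trans hlen) hr2
  have e := expect_three_EGMExp (α := Fin r → Fin len)
    (fun q => cY d1 (fun i => mz m M (A + q.1 i)) (fun i => mz m M (A + q.2 i)))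
    (fun x => cX d1 (fun i => mz m M (A + x i)))
  have hcard : (d1.divisors.card : ℝ) ≤ d.divisors.card := by
    exact_mod_cast Finset.card_le_card (Nat.divisors_subset_of_dvd (by omega) h1)
  have hX0 : 0 ≤ 𝔼 x : Fin r → Fin len, cX d1 (fun i => mz m M (A + x i)) :=
    Finset.expect_nonneg fun _ _ => cX_nonneg_EGMExp _ _
  have hpos : (0 : ℝ) < d1 := by linarith
  have hpow : (d1 : ℝ) ^ (-1 / 6 : ℝ) ≤ (d : ℝ) ^ (-49 / 600 : ℝ) := by
    have h2R : (d : ℝ) ^ 49 ≤ (d1 : ℝ) ^ 100 := by exact_mod_cast h2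
    have hdpos : (0 : ℝ) < d := by linarith
    calc (d1 : ℝ) ^ (-1 / 6 : ℝ) = ((d1 : ℝ) ^ 100) ^ (-1 / 600 : ℝ) := by
          rw [← Real.rpow_natCast, ← Real.rpow_mul hpos.le]; norm_num
      _ ≤ ((d : ℝ) ^ 49) ^ (-1 / 600 : ℝ) :=
          Real.rpow_le_rpow_of_nonpos (by positivity) h2R (by norm_num)
      _ = (d : ℝ) ^ (-49 / 600 : ℝ) := by
          rw [← Real.rpow_natCast, ← Real.rpow_mul hdpos.le]; norm_num
  have hid : (d1 : ℝ) ^ 2 * (d1 : ℝ) ^ (-7 / 6 : ℝ) / d1 = (d1 : ℝ) ^ (-1 / 6 : ℝ) := by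
    have : (d1 : ℝ) ^ (-1 / 6 : ℝ) = (d1 : ℝ) ^ (1 : ℝ) * (d1 : ℝ) ^ (-7 / 6 : ℝ) := by
      rw [← Real.rpow_add hpos]; norm_num
    rw [this, Real.rpow_one]; field_simp
  calc 𝔼 t : Fin 3 → Fin r → Fin len,
        (d1 : ℝ) ^ 2 * cY d1 (fun i => mz m M (A + t 0 i)) (fun i => mz m M (A + t 1 i)) *
          cX d1 (fun i => mz m M (A + t 2 i))
      = (d1 : ℝ) ^ 2 * 𝔼 t : Fin 3 → Fin r → Fin len,
        cY d1 (fun i => mz m M (A + t 0 i)) (fun i => mz m M (A + t 1 i)) *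
          cX d1 (fun i => mz m M (A + t 2 i)) := by
        rw [Finset.mul_expect]
        exact Finset.expect_congr rfl fun t _ => mul_assoc _ _ _
    _ ≤ (d1 : ℝ) ^ 2 * ((30 * (d1.divisors.card : ℝ) * (d1 : ℝ) ^ (-7 / 6 : ℝ)) * (3 / d1)) := by
        refine mul_le_mul_of_nonneg_left ?_ (by positivity)
        refine e.trans_le ?_
        exact mul_le_mul hY hX hX0 (by positivity)
    _ = 90 * (d1.divisors.card : ℝ) * ((d1 : ℝ) ^ 2 * (d1 : ℝ) ^ (-7 / 6 : ℝ) / d1) := by ring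
    _ ≤ 90 * (d.divisors.card : ℝ) * (d : ℝ) ^ (-49 / 600 : ℝ) := by
        rw [hid]
        exact mul_le_mul (by linarith) hpow (by positivity) (by positivity)

/-- The expected weight of one block. -/
theorem exp_Zc (m Y M A len r d : ℕ) (hY : 10 ^ 200 ≤ Y) (hsm : Smo Y (2 * m * M)) (hd : 1 < d)
    (hR : Rough Y d) (hlen : d ≤ len) (hr : (d : ℝ) ^ 3 ≤ (4 / 3 : ℝ) ^ r) :
    𝔼 t : Fin 3 → Fin r → Fin len,
      (d : ℝ) ^ (1 / 50 : ℝ) * Zc d (fun a i => mz m M (A + t a i)) ≤ (d : ℝ) ^ (-1 / 25 : ℝ) := by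
  have hY2 : 2 ^ 200 ≤ Y := (Nat.pow_le_pow_left (by norm_num) 200).trans hY
  have hτ := card_divisors_rough Y d hY2 hd.le hR
  have hYd : 10 ^ 200 ≤ d := hY.trans (lt_of_rough_EGMExp hd hR).le
  have hdpos : (0 : ℝ) < d := by exact_mod_cast (by omega : 0 < d)
  have h90 : (90 : ℝ) ≤ (d : ℝ) ^ (7 / 600 : ℝ) := by
    have h1 : ((10 : ℝ) ^ 200) ≤ d := by exact_mod_cast hYd
    calc (90 : ℝ) ≤ (10 : ℝ) ^ (2 : ℝ) := by norm_num
      _ ≤ (10 : ℝ) ^ ((200 : ℕ) * (7 / 600 : ℝ)) :=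
          Real.rpow_le_rpow_of_exponent_le (by norm_num) (by norm_num)
      _ = ((10 : ℝ) ^ 200) ^ (7 / 600 : ℝ) := by
          rw [Real.rpow_mul (by norm_num), Real.rpow_natCast]
      _ ≤ (d : ℝ) ^ (7 / 600 : ℝ) := Real.rpow_le_rpow (by positivity) h1 (by norm_num)
  rw [← Finset.mul_expect]
  have hZ : 𝔼 t : Fin 3 → Fin r → Fin len, Zc d (fun a i => mz m M (A + t a i)) ≤
      (d.divisors.card : ℝ) * (90 * (d.divisors.card : ℝ) * (d : ℝ) ^ (-49 / 600 : ℝ)) := by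
    unfold Zc
    rw [Finset.expect_sum_comm]
    refine (Finset.sum_le_card_nsmul _ _
      (90 * (d.divisors.card : ℝ) * (d : ℝ) ^ (-49 / 600 : ℝ)) ?_).trans ?_
    · intro d1 h1
      rw [Finset.mem_filter] at h1
      exact term_EGMExp m Y M A len r d d1 hsm hd hR hlen hr (Nat.dvd_of_mem_divisors h1.1) h1.2
    · rw [nsmul_eq_mul]
      refine mul_le_mul_of_nonneg_right ?_ (by positivity)
      exact_mod_cast Finset.card_filter_le _ _
  calc (d : ℝ) ^ (1 / 50 : ℝ) *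
        𝔼 t : Fin 3 → Fin r → Fin len, Zc d (fun a i => mz m M (A + t a i))
      ≤ (d : ℝ) ^ (1 / 50 : ℝ) *
        ((d.divisors.card : ℝ) * (90 * (d.divisors.card : ℝ) * (d : ℝ) ^ (-49 / 600 : ℝ))) :=
        mul_le_mul_of_nonneg_left hZ (by positivity)
    _ ≤ (d : ℝ) ^ (1 / 50 : ℝ) * ((d : ℝ) ^ (1 / 200 : ℝ) *
        ((d : ℝ) ^ (7 / 600 : ℝ) * (d : ℝ) ^ (1 / 200 : ℝ) * (d : ℝ) ^ (-49 / 600 : ℝ))) := by
        gcongr
    _ = (d : ℝ) ^ (-1 / 25 : ℝ) := by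
        rw [← Real.rpow_add hdpos, ← Real.rpow_add hdpos, ← Real.rpow_add hdpos,
          ← Real.rpow_add hdpos]
        norm_num

/-- Currying of the sample space. -/
def cur_EGMExp (r : ℕ) (α : Type) :
    ((Fin 100 × Fin 300) × Fin 3 × Fin r → α) ≃ (Fin 100 → Fin 300 → Fin 3 → Fin r → α) where
  toFun t := fun g c a i => t ((g, c), a, i)
  invFun s := fun q => s q.1.1 q.1.2 q.2.1 q.2.2
  left_inv _ := rfl
  right_inv _ := rfl

theorem group_EGMExp {r len : ℕ} (hlen1 : 1 ≤ len) (X : (Fin 3 → Fin r → Fin len) → ℝ)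
    (g : Fin 100) :
    𝔼 t : (Fin 100 × Fin 300) × Fin 3 × Fin r → Fin len,
      ∏ c : Fin 300, X (fun a i => t ((g, c), a, i)) = (𝔼 x, X x) ^ 300 := by
  have : Nonempty (Fin len) := ⟨⟨0, hlen1⟩⟩
  have h1 := Fintype.expect_equiv (cur_EGMExp r (Fin len))
    (fun t => ∏ c : Fin 300, X (fun a i => t ((g, c), a, i)))
    (fun s => ∏ c : Fin 300, X (s g c)) fun t => rfl
  have h2 := expect_eval_EGMExp (ι := Fin 100)
    (fun u : Fin 300 → Fin 3 → Fin r → Fin len => ∏ c, X (u c)) g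
  have h3 := expect_pi_prod (ι := Fin 300) (Ω := fun _ => Fin 3 → Fin r → Fin len) (fun _ => X)
  rw [Finset.prod_const, Finset.card_univ, Fintype.card_fin] at h3
  exact h1.trans (h2.trans h3)

theorem one_d_EGMExp (m Y M A len r d : ℕ) (hY : 10 ^ 200 ≤ Y) (hsm : Smo Y (2 * m * M))
    (hd : 1 < d) (hR : Rough Y d) (hlen : d ≤ len) (hr : (d : ℝ) ^ 3 ≤ (4 / 3 : ℝ) ^ r) :
    𝔼 t : (Fin 100 × Fin 300) × Fin 3 × Fin r → Fin len,
      (d : ℝ) ^ 2 * WW (fun b a i => mz m M (A + t (b, a, i))) d ≤ 2 / (d : ℝ) ^ 2 := by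
  have hlen1 : 1 ≤ len := by omega
  have : Nonempty (Fin len) := ⟨⟨0, hlen1⟩⟩
  have hE := exp_Zc m Y M A len r d hY hsm hd hR hlen hr
  have hdpos : (0 : ℝ) < d := by exact_mod_cast (by omega : 0 < d)
  have hd10 : (10 : ℝ) ≤ d := by
    have h1 : 10 ≤ 10 ^ 200 := by norm_num
    have := lt_of_rough_EGMExp hd hR
    exact_mod_cast (by omega : 10 ≤ d)
  have hE0 : 0 ≤ 𝔼 t : Fin 3 → Fin r → Fin len,
      (d : ℝ) ^ (1 / 50 : ℝ) * Zc d (fun a i => mz m M (A + t a i)) :=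
    Finset.expect_nonneg fun _ _ => mul_nonneg (by positivity) (Zc_nonneg_EGMExp _ _)
  have hg : ∀ g : Fin 100, 𝔼 t : (Fin 100 × Fin 300) × Fin 3 × Fin r → Fin len,
      ∏ c : Fin 300, ((d : ℝ) ^ (1 / 50 : ℝ) * Zc d (fun a i => mz m M (A + t ((g, c), a, i))))
        ≤ 1 / (d : ℝ) ^ 12 := by
    intro g
    refine (group_EGMExp hlen1
      (fun x => (d : ℝ) ^ (1 / 50 : ℝ) * Zc d (fun a i => mz m M (A + x a i))) g).trans_le ?_
    refine (pow_le_pow_left₀ hE0 hE 300).trans_eq ?_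
    rw [← Real.rpow_natCast, ← Real.rpow_mul hdpos.le, one_div ((d : ℝ) ^ 12), ← Real.rpow_natCast,
      ← Real.rpow_neg hdpos.le]
    norm_num
  rw [← Finset.mul_expect]
  unfold WW
  rw [Finset.expect_add_distrib, Fintype.expect_const, ← Finset.mul_expect, Finset.expect_sum_comm]
  have hs := Finset.sum_le_card_nsmul (univ : Finset (Fin 100)) _ _ fun g _ => hg g
  rw [Finset.card_univ, Fintype.card_fin, nsmul_eq_mul] at hs
  have h4 : (100 : ℝ) ≤ (d : ℝ) ^ 4 := by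
    calc (100 : ℝ) ≤ 10 ^ 4 := by norm_num
      _ ≤ (d : ℝ) ^ 4 := pow_le_pow_left₀ (by norm_num) hd10 4
  refine (mul_le_mul_of_nonneg_left (add_le_add_right
    (mul_le_mul_of_nonneg_left hs (by positivity)) _) (by positivity)).trans ?_
  calc (d : ℝ) ^ 2 * (1 / (d : ℝ) ^ 4 + (d : ℝ) ^ 4 * (((100 : ℕ) : ℝ) * (1 / (d : ℝ) ^ 12)))
      ≤ (d : ℝ) ^ 2 * (1 / (d : ℝ) ^ 4 + (d : ℝ) ^ 4 * ((d : ℝ) ^ 4 * (1 / (d : ℝ) ^ 12))) := by
        gcongr
        exact_mod_cast h4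
    _ = 2 / (d : ℝ) ^ 2 := by field_simp; ring

theorem tail_EGMExp (Y N : ℕ) (hY : 1 ≤ Y) :
    ∑ d ∈ Ioc Y N, (1 : ℝ) / (d : ℝ) ^ 2 ≤ 1 / Y := by
  have h := sum_Ioc_inv_sq_le_sub (α := ℝ) (k := Y) (n := max Y N) (by omega) (le_max_left _ _)
  have h0 : (0 : ℝ) ≤ ((max Y N : ℕ) : ℝ)⁻¹ := by positivity
  calc ∑ d ∈ Ioc Y N, (1 : ℝ) / (d : ℝ) ^ 2 ≤ ∑ d ∈ Ioc Y (max Y N), ((d : ℝ) ^ 2)⁻¹ := by
        simp only [one_div]
        exact Finset.sum_le_sum_of_subset_of_nonneg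
          (Finset.Ioc_subset_Ioc_right (le_max_right _ _)) fun _ _ _ => by positivity
    _ ≤ 1 / Y := by rw [one_div]; linarith

open Classical in
/-- The expected total weight. -/
theorem mid_exp (m Y M A len r : ℕ) (H : ℝ) (hY : 10 ^ 200 ≤ Y) (hsm : Smo Y (2 * m * M))
    (hlen1 : 1 ≤ len) (hlen : H ≤ len) (hr : H ^ 3 ≤ (4 / 3 : ℝ) ^ r) :
    𝔼 t : (Fin 100 × Fin 300) × Fin 3 × Fin r → Fin len,
      ∑ d ∈ (Icc 2 ⌊H⌋₊).filter (Rough Y),
        (d : ℝ) ^ 2 * WW (fun b a i => mz m M (A + t (b, a, i))) d ≤ 2 / Y := by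
  have hY1 : 1 ≤ Y := le_trans (Nat.one_le_pow _ _ (by norm_num)) hY
  rw [Finset.expect_sum_comm]
  have hsub : (Icc 2 ⌊H⌋₊).filter (Rough Y) ⊆ Ioc Y ⌊H⌋₊ := by
    intro d hd
    rw [Finset.mem_filter, Finset.mem_Icc] at hd
    exact Finset.mem_Ioc.2 ⟨lt_of_rough_EGMExp (by omega) hd.2, hd.1.2⟩
  calc _ ≤ ∑ d ∈ (Icc 2 ⌊H⌋₊).filter (Rough Y), 2 * ((1 : ℝ) / (d : ℝ) ^ 2) := by
        refine Finset.sum_le_sum fun d hd => ?_
        rw [Finset.mem_filter, Finset.mem_Icc] at hd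
        have hH : 0 ≤ H := by
          by_contra hn
          rw [Nat.floor_of_nonpos (le_of_not_ge hn)] at hd
          omega
        have hdH : (d : ℝ) ≤ H := (Nat.le_floor_iff hH).1 hd.1.2
        have h1 : d ≤ len := by exact_mod_cast hdH.trans hlen
        have h2 : (d : ℝ) ^ 3 ≤ (4 / 3 : ℝ) ^ r := (pow_le_pow_left₀ (by positivity) hdH 3).trans hr
        refine (one_d_EGMExp m Y M A len r d hY hsm (by omega) hd.2 h1 h2).trans_eq ?_
        ring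
    _ ≤ ∑ d ∈ Ioc Y ⌊H⌋₊, 2 * ((1 : ℝ) / (d : ℝ) ^ 2) :=
        Finset.sum_le_sum_of_subset_of_nonneg hsub fun _ _ _ => by positivity
    _ ≤ 2 / Y := by
        rw [← Finset.mul_sum]
        have := tail_EGMExp Y ⌊H⌋₊ hY1
        calc 2 * ∑ d ∈ Ioc Y ⌊H⌋₊, (1 : ℝ) / (d : ℝ) ^ 2 ≤ 2 * (1 / Y) := by linarith
          _ = 2 / Y := by ring

end Pool.Agent.P.MP_b75a1e_co.EG
end

-- part Pool.Agent.P.MP_b75a1e_co.EGRLift
section

set_option autoImplicit false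

open Finset
open scoped BigOperators ComplexConjugate

namespace Pool.Agent.P.MP_b75a1e_co.EG

theorem ex_EGRLift {p : ℕ} (hp : 10 ^ 20 ≤ p) :
    33 * p + 2 ≤ p ^ 7 ∧ 6 * p + 21 + 4 * p ^ 15 + 2 * p ^ 18 ≤ 3 * p ^ 18 ∧
    p ^ 5 + p ^ 6 ≤ p ^ 7 ∧ 29 + 4 * p + 8 * p ^ 5 ≤ p ^ 6 ∧ 7 + 2 * p ^ 5 ≤ p ^ 18 ∧
    3 + 6 * p + p ^ 7 ≤ p ^ 18 ∧ 17 + 2 * p ^ 15 + p + p ^ 5 ≤ p ^ 18 ∧
    3 * p ^ 18 * (2 * p ^ 6) ≤ p ^ 25 ∧ p ≤ p ^ 15 := by
  have h100 : 100 ≤ p := le_trans (by norm_num) hp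
  have h1 : ∀ a, 100 * p ^ a ≤ p ^ (a + 1) := fun a => by
    rw [pow_succ, mul_comm]; exact Nat.mul_le_mul_left _ h100
  have h2 : ∀ a b, a ≤ b → p ^ a ≤ p ^ b := fun a b h => Nat.pow_le_pow_right (by omega) h
  have a1 : 100 * p ≤ p ^ 2 := by simpa using h1 1
  have a2 := h2 2 5 (by norm_num)
  have a3 := h1 5
  have a4 := h1 6
  have a5 := h2 7 14 (by norm_num)
  have a6 := h1 14
  have a7 := h1 15
  have a8 := h2 16 18 (by norm_num)
  have a9 := h1 24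
  have a10 : 3 * p ^ 18 * (2 * p ^ 6) = 6 * p ^ 24 := by ring
  rw [a10]
  norm_num at a3 a4 a6 a7 a9
  generalize p ^ 2 = x2 at *
  generalize p ^ 5 = x5 at *
  generalize p ^ 6 = x6 at *
  generalize p ^ 7 = x7 at *
  generalize p ^ 14 = x14 at *
  generalize p ^ 15 = x15 at *
  generalize p ^ 16 = x16 at *
  generalize p ^ 18 = x18 at *
  generalize p ^ 24 = x24 at *
  generalize p ^ 25 = x25 at *
  omega

theorem two_EGRLift {a b : ℕ} (h : a ≤ b) : 2 ^ a ≤ 2 ^ b := Nat.pow_le_pow_right (by norm_num) h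

theorem pp_EGRLift (p k : ℕ) : p ^ k ≤ 2 ^ (k * p) := by
  rw [mul_comm, pow_mul]
  exact Nat.pow_le_pow_left Nat.lt_two_pow_self.le k

theorem nz_EGRLift (m M t : ℕ) : (hz m M t).norm = ((1 + m * (M * t) ^ 2 : ℕ) : ℤ) := by
  rw [norm_eq]; simp [hz]

theorem val_EGRLift {m p M t : ℕ} (hp : 10 ^ 20 ≤ p) (hmp : m ≤ 4 ^ p) (hM : M ≤ M2 m (p ^ 15))
    (ht : t < 2 ^ p ^ 7) : 1 + m * (M * (2 ^ p ^ 18 + t)) ^ 2 ≤ 2 ^ (3 * p ^ 18) := by
  obtain ⟨-, e2, -, -, -, e6, -⟩ := ex_EGRLift hp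
  have h1 : m ≤ 2 ^ (2 * p) := by rw [pow_mul]; exact hmp
  have h2 : M ≤ 2 ^ (9 + 2 * p ^ 15 + 2 * p) := by
    refine hM.trans ((M2_le m _).trans ?_)
    rw [pow_add, pow_add, pow_mul 2 2 (p ^ 15)]
    exact Nat.mul_le_mul (Nat.mul_le_mul (by norm_num) le_rfl) h1
  have h3 : 2 ^ p ^ 18 + t ≤ 2 ^ (p ^ 18 + 1) := by
    have := two_EGRLift (show p ^ 7 ≤ p ^ 18 by omega)
    rw [pow_succ 2 (p ^ 18)]; omega
  have h4 : m * (M * (2 ^ p ^ 18 + t)) ^ 2 ≤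
      2 ^ (2 * p + (9 + 2 * p ^ 15 + 2 * p + (p ^ 18 + 1)) * 2) := by
    rw [pow_add, pow_mul 2 (9 + 2 * p ^ 15 + 2 * p + (p ^ 18 + 1)), pow_add 2 (9 + 2 * p ^ 15 + 2 * p)]
    exact Nat.mul_le_mul h1 (Nat.pow_le_pow_left (Nat.mul_le_mul h2 h3) 2)
  have h5 := two_EGRLift
    (show 2 * p + (9 + 2 * p ^ 15 + 2 * p + (p ^ 18 + 1)) * 2 + 1 ≤ 3 * p ^ 18 by omega)
  have h6 : 1 ≤ 2 ^ (2 * p + (9 + 2 * p ^ 15 + 2 * p + (p ^ 18 + 1)) * 2) := Nat.one_le_two_pow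
  rw [pow_succ 2 (2 * p + (9 + 2 * p ^ 15 + 2 * p + (p ^ 18 + 1)) * 2)] at h5
  omega

theorem base_EGRLift {m r : ℕ} (z : Bool × Fin r → O m) :
    base (fun i => z (false, i)) * base (fun i => z (true, i)) = ∏ x, star (z x) := by
  rw [Fintype.prod_prod_type, Fintype.prod_bool, mul_comm]
  simp [base, cube]

theorem ratio_EGRLift {m M A t len : ℕ} (hA : 1 ≤ A) (ht : t < len) :
    ((hz m M (A + t)).norm : ℝ) ≤ (1 + (len : ℝ) / A) ^ 2 * (hz m M (A + 0)).norm := by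
  rw [nz_EGRLift, nz_EGRLift]
  push_cast
  have h0 : (0 : ℝ) < A := by exact_mod_cast hA
  have h1 : (t : ℝ) ≤ len := by exact_mod_cast ht.le
  have h2 : (0 : ℝ) ≤ len / A := by positivity
  have h3 : (A : ℝ) + t ≤ (1 + (len : ℝ) / A) * A := by
    rw [add_mul, div_mul_cancel₀ _ h0.ne']; linarith
  have h4 : ((M : ℝ) * (A + t)) ^ 2 ≤ (M * ((1 + (len : ℝ) / A) * A)) ^ 2 := by gcongr
  have h5 : (1 : ℝ) ≤ (1 + (len : ℝ) / A) ^ 2 := one_le_pow₀ (by linarith)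
  have h6 : (m : ℝ) * (M * (A + t)) ^ 2 ≤ m * (M * ((1 + (len : ℝ) / A) * A)) ^ 2 := by gcongr
  have h7 : (1 + (len : ℝ) / A) ^ 2 * (1 + m * (M * (A + 0)) ^ 2) =
      (1 + (len : ℝ) / A) ^ 2 + m * (M * ((1 + (len : ℝ) / A) * A)) ^ 2 := by ring
  rw [h7]
  linarith

theorem pw_EGRLift {x : ℝ} {N : ℕ} (hx : 0 ≤ x) (h : N * x ≤ 1 / 2) : (1 + x) ^ N ≤ 2 := by
  have h1 : (1 + x) ^ N ≤ Real.exp x ^ N := by
    gcongr
    linarith [Real.add_one_le_exp x]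
  rw [← Real.exp_nat_mul] at h1
  have h2 : Real.exp (N * x) ≤ Real.exp (1 / 2) := Real.exp_le_exp.2 h
  have h3 := Real.exp_bound_div_one_sub_of_interval (x := 1 / 2) (by norm_num) (by norm_num)
  norm_num at h3 h2 h1 ⊢
  linarith [Real.exp_le_exp.2 h2]

theorem err_EGRLift {p : ℕ} (hp : 10 ^ 20 ≤ p) {H : ℝ} (hH1 : 1 ≤ H) (hH : H ≤ 2 ^ p ^ 5) :
    10 * (400 * (p : ℝ) ^ 2 * H ^ 4 * Real.sqrt (1 / 2 ^ p ^ 6 + H / (2 ^ p ^ 7 : ℕ))) ≤ 1 / 4 := by
  obtain ⟨-, -, e3, e4, -⟩ := ex_EGRLift hp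
  have hp0 : (0 : ℝ) < p := by exact_mod_cast lt_of_lt_of_le (by norm_num) hp
  have h1 : H * 2 ^ p ^ 6 ≤ 2 ^ p ^ 7 := by
    calc H * 2 ^ p ^ 6 ≤ 2 ^ p ^ 5 * 2 ^ p ^ 6 := by gcongr
      _ = 2 ^ (p ^ 5 + p ^ 6) := (pow_add _ _ _).symm
      _ ≤ 2 ^ p ^ 7 := pow_le_pow_right₀ (by norm_num) e3
  have h2 : (16000 * (p : ℝ) ^ 2 * H ^ 4) ^ 2 * 2 ≤ 2 ^ p ^ 6 := by
    have h3 : (p : ℝ) ^ 4 ≤ 2 ^ (4 * p) := by exact_mod_cast pp_EGRLift p 4
    have h4 : H ^ 8 ≤ 2 ^ (8 * p ^ 5) := by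
      rw [mul_comm, pow_mul]; gcongr
    calc (16000 * (p : ℝ) ^ 2 * H ^ 4) ^ 2 * 2 = 512000000 * (p : ℝ) ^ 4 * H ^ 8 := by ring
      _ ≤ 2 ^ 29 * 2 ^ (4 * p) * 2 ^ (8 * p ^ 5) := by gcongr; norm_num
      _ = 2 ^ (29 + 4 * p + 8 * p ^ 5) := by rw [pow_add, pow_add]
      _ ≤ 2 ^ p ^ 6 := pow_le_pow_right₀ (by norm_num) e4
  push_cast
  have h6 : (0 : ℝ) < 2 ^ p ^ 6 := by positivity
  have h7 : (0 : ℝ) < 2 ^ p ^ 7 := by positivity
  generalize (2 : ℝ) ^ p ^ 6 = a at *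
  generalize (2 : ℝ) ^ p ^ 7 = b at *
  have h8 : (0 : ℝ) < 16000 * (p : ℝ) ^ 2 * H ^ 4 := by positivity
  have h9 : 10 * (400 * (p : ℝ) ^ 2 * H ^ 4 * Real.sqrt (1 / a + H / b)) =
      16000 * (p : ℝ) ^ 2 * H ^ 4 * Real.sqrt (1 / a + H / b) / 4 := by ring
  rw [h9]
  generalize 16000 * (p : ℝ) ^ 2 * H ^ 4 = c at *
  have h10 : H / b ≤ 1 / a := by rw [div_le_div_iff₀ h7 h6]; linarith
  have h11 : 1 / a + H / b ≤ (1 / c) ^ 2 := by
    have : 2 / a ≤ (1 / c) ^ 2 := by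
      rw [div_pow, div_le_div_iff₀ h6 (by positivity)]; linarith
    have h12 : 2 / a = 1 / a + 1 / a := by ring
    linarith
  have h12 : Real.sqrt (1 / a + H / b) ≤ 1 / c := Real.sqrt_le_iff.2 ⟨by positivity, h11⟩
  have h13 : c * Real.sqrt (1 / a + H / b) ≤ c * (1 / c) := by gcongr
  rw [mul_one_div_cancel h8.ne'] at h13
  linarith

theorem hI_EGRLift {p : ℕ} (hp : 10 ^ 20 ≤ p) :
    2 * ((2 * p ^ 6 : ℕ) : ℝ) * (10 ^ 8 / (p : ℝ) ^ 9) + 20 * ((2 * p ^ 6 : ℕ) : ℝ) ^ 2 / (p ^ 15 : ℕ) ≤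
      1 / 2 := by
  have hp1 : (10 : ℝ) ^ 20 ≤ p := by exact_mod_cast hp
  have hp0 : (0 : ℝ) < p := lt_of_lt_of_le (by norm_num) hp1
  have h1 : 2 * ((2 * p ^ 6 : ℕ) : ℝ) * (10 ^ 8 / (p : ℝ) ^ 9) +
      20 * ((2 * p ^ 6 : ℕ) : ℝ) ^ 2 / (p ^ 15 : ℕ) = (4 * 10 ^ 8 + 80) / (p : ℝ) ^ 3 := by
    push_cast; field_simp; ring
  rw [h1, div_le_iff₀ (by positivity)]
  have h2 : (p : ℝ) ≤ (p : ℝ) ^ 3 := le_self_pow₀ (le_trans (by norm_num) hp1) (by norm_num)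
  have h3 : (10 : ℝ) ^ 20 = 100000000000000000000 := by norm_num
  have h4 : (4 * 10 ^ 8 + 80 : ℝ) = 400000080 := by norm_num
  rw [h3] at hp1
  rw [h4]
  linarith

theorem big_EGRLift {m p : ℕ} (hp : 10 ^ 20 ≤ p) {H : ℝ} (hH1 : 1 ≤ H) (hH : H ≤ 2 ^ p ^ 5) :
    100 * (QQ m (p ^ 15) : ℝ) * p * H ≤ (2 ^ p ^ 18 : ℕ) ∧ 100 * H ^ 2 ≤ (2 ^ p ^ 18 : ℕ) ∧
      ((2 * p ^ 6 * 2 : ℕ) : ℝ) * (((2 ^ p ^ 7 : ℕ) : ℝ) / (2 ^ p ^ 18 : ℕ)) ≤ 1 / 2 := by
  obtain ⟨-, -, -, -, e5, e6, e7, -⟩ := ex_EGRLift hp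
  refine ⟨?_, ?_, ?_⟩
  · have h1 : (QQ m (p ^ 15) : ℝ) ≤ 2 ^ 10 * 2 ^ (2 * p ^ 15) := by
      have := QQ_le m (p ^ 15)
      have h2 : 864 * 4 ^ p ^ 15 ≤ 2 ^ 10 * 2 ^ (2 * p ^ 15) := by
        rw [pow_mul]; exact Nat.mul_le_mul (by norm_num) le_rfl
      exact_mod_cast this.trans h2
    have h2 : (p : ℝ) ≤ 2 ^ p := by exact_mod_cast Nat.lt_two_pow_self.le
    push_cast
    calc 100 * (QQ m (p ^ 15) : ℝ) * p * H ≤ 2 ^ 7 * (2 ^ 10 * 2 ^ (2 * p ^ 15)) * 2 ^ p * 2 ^ p ^ 5 := by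
          gcongr; norm_num
      _ = 2 ^ (17 + 2 * p ^ 15 + p + p ^ 5) := by rw [pow_add, pow_add, pow_add]; ring
      _ ≤ 2 ^ p ^ 18 := pow_le_pow_right₀ (by norm_num) e7
  · push_cast
    calc 100 * H ^ 2 ≤ 2 ^ 7 * (2 ^ p ^ 5) ^ 2 := by gcongr; norm_num
      _ = 2 ^ (7 + 2 * p ^ 5) := by rw [pow_add, ← pow_mul, mul_comm (p ^ 5)]
      _ ≤ 2 ^ p ^ 18 := pow_le_pow_right₀ (by norm_num) e5
  · rw [← mul_div_assoc, div_le_div_iff₀ (by positivity) (by norm_num)]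
    have h1 : 2 * p ^ 6 * 2 * 2 ^ p ^ 7 * 2 ≤ 1 * 2 ^ p ^ 18 := by
      have h2 := pp_EGRLift p 6
      have h3 := two_EGRLift e6
      rw [pow_add, pow_add] at h3
      calc 2 * p ^ 6 * 2 * 2 ^ p ^ 7 * 2 = 2 ^ 3 * p ^ 6 * 2 ^ p ^ 7 := by ring
        _ ≤ 2 ^ 3 * 2 ^ (6 * p) * 2 ^ p ^ 7 := by gcongr
        _ ≤ 1 * 2 ^ p ^ 18 := by omega
    exact_mod_cast h1

open Classical in
/-- The choice of the lifting coordinates and of the grid. -/
theorem random_lift (m p : ℕ) (hm : 1 ≤ m) (hmax : ∀ q, q.Prime → q ∣ m → q ≤ p) (hmp : m ≤ 4 ^ p)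
    (hp : 10 ^ 20 ≤ p) (H : ℝ) (hH1 : 1 ≤ H) (hH : H ≤ 2 ^ p ^ 5) (Γ : O m)
    (h0 : Shape m (p ^ 15) Γ) (h1 : Prim (p ^ 15) Γ) (h2 : Pure (p ^ 15) Γ.norm)
    (h3 : wt (p ^ 15) (2 ^ p ^ 7) Γ.norm ≤ 10 ^ 8 / (p : ℝ) ^ 9) :
    ∃ (zI zII : Fin (p ^ 6) → O m) (NN0 : ℝ) (Mg : ℕ),
      IsCoprime (Γ * (base zI * base zII)) (star (Γ * (base zI * base zII))) ∧
      NN0 ≤ (Γ * (base zI * base zII)).norm ∧ ((Γ * (base zI * base zII)).norm : ℝ) ≤ 2 * NN0 ∧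
      (M1 m (p ^ 15) : O m) ∣ base zI * base zII - 1 ∧ (base zI * base zII).norm ≤ 2 ^ p ^ 25 ∧
      (∀ i, mu m ∣ zI i - star (zI i)) ∧ (∀ i, mu m ∣ zII i - star (zII i)) ∧
      QQ m (p ^ 15) ∣ Mg ∧ 8 * p * Real.sqrt NN0 ≤ Mg ∧ (Mg : ℝ) ≤ 9 * p * Real.sqrt NN0 ∧
      (100 * (QQ m (p ^ 15) : ℝ) * p * H) ^ 2 ≤ NN0 ∧
      ∑ n ∈ (grid Mg).filter (fun n => ∃ (β : O m) (d : ℕ),
          Near m (gp m Mg n) β d H NN0 ∧ Deep (p ^ 15) (QQ m (p ^ 15)) d),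
        ‖FI Γ zI zII (gp m Mg n)‖ * ‖FII Γ zI zII (gp m Mg n)‖ ≤ 1 / 10 := by
  obtain ⟨e1, -, -, -, -, -, -, e8, e9⟩ := ex_EGRLift hp
  obtain ⟨b1, b2, b3⟩ := big_EGRLift (m := m) hp hH1 hH
  have herr := err_EGRLift hp hH1 hH
  have hI := hI_EGRLift hp
  have hval := fun M t => val_EGRLift (m := m) (M := M) (t := t) hp hmp
  have hp3 : 3 ≤ p := le_trans (by norm_num) hp
  have hlen : p ^ 15 * (3 * p ^ 18) ≤ 2 ^ p ^ 7 := by
    have h4 := pp_EGRLift p 33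
    have h5 := two_EGRLift e1
    rw [pow_add] at h5
    calc p ^ 15 * (3 * p ^ 18) = 3 * p ^ 33 := by ring
      _ ≤ 2 ^ p ^ 7 := by omega
  have hw : (2 ^ (3 * p ^ 18)) ^ (2 * p ^ 6) ≤ 2 ^ p ^ 25 := by
    rw [← pow_mul]; exact two_EGRLift e8
  have hr0 : 0 < p ^ 6 := by positivity
  have hA1 : 1 ≤ 2 ^ p ^ 18 := Nat.one_le_two_pow
  have hl1 : 1 ≤ 2 ^ p ^ 7 := Nat.one_le_two_pow
  have hc : ((2 : ℤ) ^ p ^ 25) = ((2 ^ p ^ 25 : ℕ) : ℤ) := by push_cast; rfl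
  rw [hc]
  generalize 2 ^ p ^ 25 = W at *
  generalize 2 ^ p ^ 18 = A at *
  generalize 2 ^ p ^ 7 = len at *
  generalize 3 * p ^ 18 = w at *
  generalize p ^ 15 = Y at *
  generalize p ^ 6 = r at *
  have hY3 : 3 ≤ Y := by omega
  have hsm : Smo Y m := fun l hl h => (hmax l hl h).trans e9
  obtain ⟨Mb, hMf, hMt⟩ : ∃ Mb : Bool → ℕ, Mb false = M1 m Y ∧ Mb true = M2 m Y :=
    ⟨fun b => if b then M2 m Y else M1 m Y, rfl, rfl⟩
  have hM : ∀ b, 1 ≤ Mb b ∧ Mb b ≤ M2 m Y ∧ Smo Y (Mb b) ∧ M1 m Y ∣ Mb b := by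
    rintro (_ | _)
    · rw [hMf]; exact ⟨M1_pos hm Y, M1_le m Y, smo_M1 hY3 hsm, dvd_rfl⟩
    · rw [hMt]; exact ⟨M2_pos hm Y, le_rfl, smo_M2 hY3 hsm, by rw [M2_eq]; exact dvd_mul_left _ _⟩
  have hG1 : 1 ≤ Γ.norm := by
    have h4 := norm_nonneg' Γ
    have h5 : Γ.norm ≠ 0 := fun h => h2 2 Nat.prime_two (by omega) (by rw [h]; exact dvd_zero _)
    omega
  have hG1' : (1 : ℝ) ≤ Γ.norm := by exact_mod_cast hG1
  have hf1 : ∀ M t, (1 : ℤ) ≤ (hz m M t).norm := fun M t => by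
    rw [nz_EGRLift]; exact_mod_cast Nat.le_add_right _ _
  have hf1' : ∀ M t, (1 : ℝ) ≤ (hz m M t).norm := fun M t => by exact_mod_cast hf1 M t
  have hnorm : ∀ t : Bool × Fin r → Fin len,
      (base (fun i => hz m (M1 m Y) (A + t (false, i))) *
        base fun i => hz m (M2 m Y) (A + t (true, i))) = ∏ x, star (hz m (Mb x.1) (A + t x)) := by
    intro t
    rw [← base_EGRLift fun x => hz m (Mb x.1) (A + t x)]
    simp only [hMf, hMt]
  have hnorm2 : ∀ t : Bool × Fin r → Fin len,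
      (∏ x, star (hz m (Mb x.1) (A + t x))).norm = ∏ x, (hz m (Mb x.1) (A + t x)).norm := by
    intro t
    rw [norm_prod']
    simp only [Zsqrtd.norm_conj]
  obtain ⟨NN0, hNN⟩ : ∃ NN0 : ℝ,
      NN0 = Γ.norm * ∏ x : Bool × Fin r, ((hz m (Mb x.1) (A + 0)).norm : ℝ) := ⟨_, rfl⟩
  have hcard : Fintype.card (Bool × Fin r) = 2 * r := by simp
  have hup : ∀ t : Bool × Fin r → Fin len,
      ((Γ * ∏ x, star (hz m (Mb x.1) (A + t x))).norm : ℝ) ≤ 2 * NN0 := by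
    intro t
    rw [Zsqrtd.norm_mul, hnorm2, hNN]
    push_cast
    have h4 : ∏ x : Bool × Fin r, ((hz m (Mb x.1) (A + t x)).norm : ℝ) ≤
        ∏ x : Bool × Fin r, (1 + (len : ℝ) / A) ^ 2 * ((hz m (Mb x.1) (A + 0)).norm : ℝ) :=
      prod_le_prod (fun x _ => le_trans zero_le_one (hf1' _ _)) fun x _ => ratio_EGRLift hA1 (t x).2
    rw [prod_mul_distrib, prod_const, card_univ, hcard, ← pow_mul, mul_comm 2 (2 * r)] at h4
    have h5 := pw_EGRLift (x := (len : ℝ) / A) (N := 2 * r * 2) (by positivity) b3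
    have h6 : (0 : ℝ) ≤ ∏ x : Bool × Fin r, ((hz m (Mb x.1) (A + 0)).norm : ℝ) :=
      prod_nonneg fun x _ => le_trans zero_le_one (hf1' _ _)
    have h7 := h4.trans (mul_le_mul_of_nonneg_right h5 h6)
    have h8 := mul_le_mul_of_nonneg_left h7 (le_trans zero_le_one hG1')
    simp only [add_zero] at h8 ⊢
    linarith
  have hlo : ∀ t : Bool × Fin r → Fin len,
      NN0 ≤ ((Γ * ∏ x, star (hz m (Mb x.1) (A + t x))).norm : ℝ) := by
    intro t
    rw [Zsqrtd.norm_mul, hnorm2, hNN]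
    push_cast
    refine mul_le_mul_of_nonneg_left (prod_le_prod (fun x _ => le_trans zero_le_one (hf1' _ _))
      fun x _ => ?_) (le_trans zero_le_one hG1')
    rw [nz_EGRLift, nz_EGRLift]
    push_cast
    gcongr
    positivity
  have hbig : (100 * (QQ m Y : ℝ) * p * H) ^ 2 ≤ NN0 := by
    have h4 : ((hz m (Mb false) (A + 0)).norm : ℝ) ≤
        ∏ x : Bool × Fin r, ((hz m (Mb x.1) (A + 0)).norm : ℝ) := by
      rw [← mul_prod_erase univ _ (mem_univ (false, (⟨0, hr0⟩ : Fin r)))]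
      refine le_mul_of_one_le_right (le_trans zero_le_one (hf1' _ _)) ?_
      exact le_trans (by simp) (prod_le_prod (f := fun _ => (1 : ℝ)) (fun _ _ => zero_le_one)
        fun x _ => hf1' _ _)
    have h5 : (A : ℝ) ^ 2 ≤ (hz m (Mb false) (A + 0)).norm := by
      rw [nz_EGRLift]
      have h6 : A ^ 2 ≤ 1 + m * (Mb false * (A + 0)) ^ 2 := by
        have h7 : A ≤ Mb false * (A + 0) := Nat.le_mul_of_pos_left _ (hM false).1
        have h8 := Nat.pow_le_pow_left h7 2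
        have h9 := Nat.le_mul_of_pos_left ((Mb false * (A + 0)) ^ 2) hm
        omega
      exact_mod_cast h6
    have h6 : (100 * (QQ m Y : ℝ) * p * H) ^ 2 ≤ (A : ℝ) ^ 2 := by gcongr
    rw [hNN]
    exact (h6.trans (h5.trans h4)).trans
      (le_mul_of_one_le_left (le_trans zero_le_one ((hf1' _ _).trans h4)) hG1')
  have hQ1 : (1 : ℝ) ≤ QQ m Y := by exact_mod_cast QQ_pos m Y
  have hp1 : (1 : ℝ) ≤ p := by exact_mod_cast (by omega : 1 ≤ p)
  have hN0 : 0 < NN0 := lt_of_lt_of_le (by positivity) hbig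
  have hQs : (QQ m Y : ℝ) ≤ p * Real.sqrt NN0 := by
    have h4 := Real.le_sqrt_of_sq_le hbig
    have h5 : (QQ m Y : ℝ) ≤ 100 * (QQ m Y : ℝ) * p * H := by
      calc (QQ m Y : ℝ) = 1 * (QQ m Y : ℝ) * 1 * 1 := by ring
        _ ≤ 100 * (QQ m Y : ℝ) * p * H := by gcongr; norm_num
    exact (h5.trans h4).trans (le_mul_of_one_le_left (Real.sqrt_nonneg _) hp1)
  obtain ⟨Mg, hMg⟩ : ∃ Mg : ℕ, Mg = QQ m Y * (⌊8 * p * Real.sqrt NN0 / QQ m Y⌋₊ + 1) := ⟨_, rfl⟩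
  have hMg1 : 8 * p * Real.sqrt NN0 ≤ Mg := by
    have h4 := (Nat.lt_floor_add_one (8 * p * Real.sqrt NN0 / QQ m Y)).le
    rw [div_le_iff₀ (by linarith)] at h4
    rw [hMg]; push_cast; linarith
  have hMg2 : (Mg : ℝ) ≤ 9 * p * Real.sqrt NN0 := by
    have h4 := Nat.floor_le (a := 8 * p * Real.sqrt NN0 / QQ m Y) (by positivity)
    rw [le_div_iff₀ (by linarith)] at h4
    rw [hMg]; push_cast; linarith
  have hE := hensel_err m p Y r A len Mg H NN0 Γ hm (by omega) hN0 hH1 h0 hl1 b2 hMg2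
    fun t => by rw [hnorm]; exact hup t
  obtain ⟨t, t1, t2, t3, -⟩ := stage (I := Bool × Fin r) Y len w
    (fun x t => (hz m (Mb x.1) (A + t)).norm) Γ.norm (10 ^ 8 / (p : ℝ) ^ 9)
    (fun t => 10 * ∑ n ∈ (grid Mg).filter
      (fun n => ∃ (β : O m) (d : ℕ), Near m (gp m Mg n) β d H NN0 ∧ Deep Y (QQ m Y) d),
      ‖FI Γ (fun i => hz m (M1 m Y) (A + t (false, i))) (fun i => hz m (M2 m Y) (A + t (true, i)))
          (gp m Mg n)‖ *
        ‖FII Γ (fun i => hz m (M1 m Y) (A + t (false, i))) (fun i => hz m (M2 m Y) (A + t (true, i)))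
          (gp m Mg n)‖) (by omega) hl1 hlen
    (fun x t ht => ⟨by have := hf1 (Mb x.1) (A + t); omega, by
      rw [abs_of_nonneg (norm_nonneg' _), nz_EGRLift]
      exact_mod_cast hval _ _ (hM x.1).2.1 ht⟩)
    (fun x => by
      have h4 := roots_norm (m := m) Y len ⟨1, Mb x.1 * A⟩ ⟨0, Mb x.1⟩ (fun l hl hY h => by
        rw [norm_eq] at h
        have h5 : l ∣ m * Mb x.1 ^ 2 := by
          have : ((l : ℕ) : ℤ) ∣ ((m * Mb x.1 ^ 2 : ℕ) : ℤ) := by simpa using h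
          exact_mod_cast this
        rcases (Nat.Prime.dvd_mul hl).1 h5 with h6 | h6
        · exact absurd (hsm l hl h6) (by omega)
        · exact absurd ((hM x.1).2.2.1 l hl (hl.dvd_of_dvd_pow h6)) (by omega))
      have h5 : ∀ t : ℕ, (⟨1, Mb x.1 * A⟩ + (t : O m) * ⟨0, Mb x.1⟩ : O m) = hz m (Mb x.1) (A + t) := by
        intro t
        ext <;> simp [hz]
        ring
      simpa only [h5] using h4)
    (by omega) h3 (by rw [hcard]; exact hI)
    (fun t => mul_nonneg (by norm_num) (sum_nonneg fun n _ => by positivity))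
    (by rw [← mul_expect]; linarith)
  have hdv : (M1 m Y : O m) ∣ (base (fun i => hz m (M1 m Y) (A + t (false, i))) *
      base fun i => hz m (M2 m Y) (A + t (true, i))) - 1 := by
    have key : ∀ b s, (M1 m Y : O m) ∣ hz m (Mb b) s - 1 := fun b s => by
      rw [nat_dvd_iff]
      refine ⟨by simp [hz], ?_⟩
      have : (M1 m Y : ℤ) ∣ (Mb b : ℤ) := by exact_mod_cast (hM b).2.2.2
      simpa [hz] using this.mul_right _
    have h4 := dvd_base_sub_one (fun i => hz m (M1 m Y) (A + t (false, i))) (M1 m Y)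
      fun i => by have := key false (A + t (false, i)); rwa [hMf] at this
    have h5 := dvd_base_sub_one (fun i => hz m (M2 m Y) (A + t (true, i))) (M1 m Y)
      fun i => by have := key true (A + t (true, i)); rwa [hMt] at this
    have h6 : ∀ a b : O m, a * b - 1 = (a - 1) * b + (b - 1) := fun a b => by ring
    rw [h6]
    exact (h4.mul_right _).add h5
  have hmu : ∀ b s, mu m ∣ hz m (Mb b) s - star (hz m (Mb b) s) := fun b s => by
    rw [mu_dvd_iff]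
    refine ⟨by simp [hz], ?_⟩
    have h4 : m ∣ Mb b := (show m ∣ M1 m Y from dvd_mul_left _ _).trans (hM b).2.2.2
    have h5 : (m : ℤ) ∣ (Mb b : ℤ) * s := Dvd.dvd.mul_right (by exact_mod_cast h4) _
    simpa [hz] using h5.add h5
  refine ⟨fun i => hz m (M1 m Y) (A + t (false, i)), fun i => hz m (M2 m Y) (A + t (true, i)), NN0, Mg,
    ?_, by rw [hnorm]; exact hlo t, by rw [hnorm]; exact hup t, hdv, ?_, fun i => hMf ▸ hmu false _,
    fun i => hMt ▸ hmu true _, hMg ▸ dvd_mul_right _ _, hMg1, hMg2, hbig, by linarith⟩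
  · refine coprime_star (Y := Y) (by omega) hsm ?_ ?_
    · rw [hnorm]
      refine h1.mul (Prim.prod _ _ (fun x _ => Prim.conj fun l hl _ h => ?_) fun x _ y _ h => ?_) ?_
      · have h4 := ((nat_dvd_iff l _).1 h).1
        have h5 : l ∣ 1 := by
          have : (l : ℤ) ∣ ((1 : ℕ) : ℤ) := by simpa [hz] using h4
          exact_mod_cast this
        exact hl.one_lt.ne' (Nat.dvd_one.1 h5)
      · simpa only [Zsqrtd.norm_conj] using t3 x y h
      · rw [hnorm2]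
        exact (Cop.prod_left _ _ _ fun x _ => (t2 x).symm).symm
    · rw [Zsqrtd.norm_mul]
      exact h2.mul (pure_of_one hdv)
  · rw [hnorm, hnorm2]
    have h4 : ∏ x : Bool × Fin r, (hz m (Mb x.1) (A + t x)).norm ≤
        ∏ _x : Bool × Fin r, ((2 ^ w : ℕ) : ℤ) :=
      prod_le_prod (fun x _ => norm_nonneg' _) fun x _ => by
        rw [nz_EGRLift]; exact_mod_cast hval _ _ (hM x.1).2.1 (t x).2
    rw [prod_const, card_univ, hcard] at h4
    exact h4.trans (by exact_mod_cast hw)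

end Pool.Agent.P.MP_b75a1e_co.EG
end

-- part Pool.Agent.P.MP_b75a1e_co.EGTower
section

set_option autoImplicit false

open Finset
open scoped BigOperators ComplexConjugate

namespace Pool.Agent.P.MP_b75a1e_co.EG

theorem chain_EGTower {α : Type} (P : ℕ → α → Prop) (R : α → α → Prop) (N : ℕ) (a0 : α)
    (h0 : P 0 a0) (hs : ∀ i, i < N → ∀ a, P i a → ∃ b, P (i + 1) b ∧ R a b) :
    ∃ f : ℕ → α, (∀ i ≤ N, P i (f i)) ∧ ∀ i < N, R (f i) (f (i + 1)) := by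
  have : Nonempty α := ⟨a0⟩
  choose! g hg using hs
  let f : ℕ → α := fun n => Nat.rec a0 (fun i a => g i a) n
  have hf : ∀ i, f (i + 1) = g i (f i) := fun _ => rfl
  have hP : ∀ i ≤ N, P i (f i) := by
    intro i
    induction i with
    | zero => intro _; exact h0
    | succ i ih =>
      intro hi
      rw [hf]
      exact (hg i (by omega) _ (ih (by omega))).1
  refine ⟨f, hP, fun i hi => ?_⟩
  rw [hf]
  exact (hg i hi _ (hP i hi.le)).2

theorem exp_ten_EGTower : Real.exp 10 ≤ 30000 := by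
  have h := Real.exp_one_lt_d9
  have h2 : Real.exp 10 = Real.exp 1 ^ 10 := by
    rw [← Real.exp_nat_mul]; norm_num
  rw [h2]
  calc Real.exp 1 ^ 10 ≤ (2.7182818286 : ℝ) ^ 10 :=
        pow_le_pow_left₀ (Real.exp_pos 1).le h.le 10
    _ ≤ 30000 := by norm_num

theorem exp_22_EGTower : Real.exp 22 ≤ 2 ^ 32 := by
  have h := Real.exp_one_lt_d9
  have h2 : Real.exp 22 = Real.exp 1 ^ 22 := by
    rw [← Real.exp_nat_mul]; norm_num
  rw [h2]
  calc Real.exp 1 ^ 22 ≤ (2.7182818286 : ℝ) ^ 22 :=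
        pow_le_pow_left₀ (Real.exp_pos 1).le h.le 22
    _ ≤ 2 ^ 32 := by norm_num

theorem pow_le_exp_EGTower (x : ℝ) (hx : 0 ≤ x) (n : ℕ) : (1 + x) ^ n ≤ Real.exp (n * x) := by
  rw [Real.exp_nat_mul]
  apply pow_le_pow_left₀ (by linarith)
  have := Real.add_one_le_exp x
  linarith

/-- The upper growth factor over at most `9 k` steps. -/
theorem up9_EGTower (k n : ℕ) (hk : 1 ≤ k) (hn : n ≤ 9 * k) :
    (1 + (1001 / 1000 : ℝ) / k) ^ n ≤ 30000 := by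
  have hk' : (0 : ℝ) < k := by exact_mod_cast hk
  have hn' : (n : ℝ) ≤ 9 * k := by exact_mod_cast hn
  refine (pow_le_exp_EGTower _ (by positivity) n).trans (le_trans ?_ exp_ten_EGTower)
  apply Real.exp_le_exp.mpr
  rw [← mul_div_assoc, div_le_iff₀ hk']
  linarith

/-- The upper growth factor over `k / 10` steps. -/
theorem upsig_EGTower (k : ℕ) (hk : 1 ≤ k) :
    (1 + (1001 / 1000 : ℝ) / k) ^ (k / 10) ≤ 9 / 8 := by
  have hk' : (0 : ℝ) < k := by exact_mod_cast hk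
  have hn : 10 * (k / 10) ≤ k := Nat.mul_div_le k 10
  have hn' : (10 : ℝ) * ((k / 10 : ℕ) : ℝ) ≤ k := by exact_mod_cast hn
  refine (pow_le_exp_EGTower _ (by positivity) _).trans ?_
  have h1 : ((k / 10 : ℕ) : ℝ) * ((1001 / 1000 : ℝ) / k) ≤ 1 / 9 := by
    rw [← mul_div_assoc, div_le_iff₀ hk']
    linarith
  refine (Real.exp_le_exp.mpr h1).trans ?_
  refine (Real.exp_bound_div_one_sub_of_interval (by norm_num) (by norm_num)).trans ?_
  norm_num

/-- The upper growth factor over the whole tower. -/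
theorem upall_EGTower (k lp n : ℕ) (hk : 1 ≤ k) (hn : n ≤ 9 * k + 216 * lp * (k / 10)) :
    (1 + (1001 / 1000 : ℝ) / k) ^ n ≤ 30000 * (2 ^ lp) ^ 32 := by
  have hk' : (0 : ℝ) < k := by exact_mod_cast hk
  have hs : 10 * (k / 10) ≤ k := Nat.mul_div_le k 10
  have hn2 : 10 * n ≤ 90 * k + 216 * lp * k := by
    have : 216 * lp * (10 * (k / 10)) ≤ 216 * lp * k := Nat.mul_le_mul_left _ hs
    nlinarith
  have hn' : (10 : ℝ) * n ≤ 90 * k + 216 * lp * k := by exact_mod_cast hn2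
  refine (pow_le_exp_EGTower _ (by positivity) n).trans ?_
  have h1 : (n : ℝ) * ((1001 / 1000 : ℝ) / k) ≤ 10 + lp * 22 := by
    rw [← mul_div_assoc, div_le_iff₀ hk']
    have : (0 : ℝ) ≤ lp * k := by positivity
    nlinarith
  refine (Real.exp_le_exp.mpr h1).trans ?_
  rw [Real.exp_add, Real.exp_nat_mul, ← pow_mul, mul_comm lp 32, pow_mul]
  exact mul_le_mul exp_ten_EGTower (pow_le_pow_left₀ (Real.exp_pos _).le exp_22_EGTower lp)
    (by positivity) (by norm_num)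

theorem two_le_EGTower (k : ℕ) (hk : 1 ≤ k) : (2 : ℝ) ≤ (1 + 1 / k) ^ k := by
  have hk' : (0 : ℝ) < k := by exact_mod_cast hk
  have h := one_add_mul_le_pow (a := (1 / k : ℝ)) (by
    have : (0 : ℝ) ≤ 1 / k := by positivity
    linarith) k
  have h2 : (k : ℝ) * (1 / k) = 1 := by field_simp
  linarith

theorem q_small_EGTower (k : ℕ) (hk : 1 ≤ k) : ((k : ℝ) / (k + 1)) ^ (9 * k) ≤ 1 / 512 := by
  have hk' : (0 : ℝ) < k := by exact_mod_cast hk
  have h := two_le_EGTower k hk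
  have h1 : ((k : ℝ) / (k + 1)) = (1 + 1 / (k : ℝ))⁻¹ := by field_simp
  have h2 : ((k : ℝ) / (k + 1)) ^ k ≤ 1 / 2 := by
    rw [h1, inv_pow, one_div (2 : ℝ)]
    exact inv_anti₀ (by norm_num) h
  rw [mul_comm 9 k, pow_mul]
  calc (((k : ℝ) / (k + 1)) ^ k) ^ 9 ≤ (1 / 2 : ℝ) ^ 9 := pow_le_pow_left₀ (by positivity) h2 9
    _ = 1 / 512 := by norm_num

/-- The lower growth factor over the scales. -/
theorem lowall_EGTower (k lp : ℕ) (hk : 100 ≤ k) :
    ((2 : ℝ) ^ lp) ^ 24 ≤ (1 + 1 / k) ^ (216 * lp * (k / 10)) := by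
  have hk' : (0 : ℝ) < k := by
    have : 0 < k := by omega
    exact_mod_cast this
  have hs : 9 * k ≤ 100 * (k / 10) := by omega
  have hs' : (9 : ℝ) * k ≤ 100 * ((k / 10 : ℕ) : ℝ) := by exact_mod_cast hs
  have h := one_add_mul_le_pow (a := (1 / k : ℝ)) (by
    have : (0 : ℝ) ≤ 1 / k := by positivity
    linarith) (k / 10)
  have h1 : (109 / 100 : ℝ) ≤ (1 + 1 / k) ^ (k / 10) := by
    refine le_trans ?_ h
    have : (9 / 100 : ℝ) ≤ ((k / 10 : ℕ) : ℝ) * (1 / k) := by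
      rw [← mul_div_assoc, le_div_iff₀ hk']
      linarith
    linarith
  have h2 : (2 : ℝ) ≤ ((1 + 1 / k) ^ (k / 10)) ^ 9 :=
    le_trans (by norm_num) (pow_le_pow_left₀ (by norm_num) h1 9)
  have h3 : 216 * lp * (k / 10) = (k / 10) * 9 * (lp * 24) := by ring
  rw [h3, pow_mul _ (k / 10 * 9), pow_mul _ (k / 10), ← pow_mul (2 : ℝ)]
  exact pow_le_pow_left₀ (by norm_num) h2 _

theorem prod_bounds_EGTower (D : Finset ℕ) (a b : ℕ) (h : ∀ l ∈ D, 2 ^ a < l ∧ l ≤ 2 ^ b) :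
    (2 : ℝ) ^ (a * D.card) ≤ ((∏ l ∈ D, (l : ℤ) : ℤ) : ℝ) ∧
      ((∏ l ∈ D, (l : ℤ) : ℤ) : ℝ) ≤ (2 : ℝ) ^ (b * D.card) := by
  have h1 : (2 ^ a) ^ D.card ≤ ∏ l ∈ D, l :=
    Finset.pow_card_le_prod D (fun l => l) _ fun l hl => (h l hl).1.le
  have h2 : ∏ l ∈ D, l ≤ (2 ^ b) ^ D.card :=
    Finset.prod_le_pow_card D (fun l => l) _ fun l hl => (h l hl).2
  rw [← pow_mul] at h1 h2
  have h3 : ((∏ l ∈ D, (l : ℤ) : ℤ) : ℝ) = ((∏ l ∈ D, l : ℕ) : ℝ) := by push_cast; rfl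
  rw [h3]
  exact ⟨by exact_mod_cast h1, by exact_mod_cast h2⟩

/-- The chain of states. -/
theorem states_EGTower (m p κ lp : ℕ) (hm : 2 ≤ m) (hmp : m ≤ 4 ^ p) (hp : 10 ^ 20 ≤ p)
    (hlp : p < 2 ^ lp) (hlp2 : 2 ^ lp ≤ 2 * p) (hκ1 : 20 * lp ≤ κ) (hκ2 : κ ^ 2 ≤ p) (hκ0 : 1 ≤ κ)
    (PP : Finset ℕ) (hPP : ∀ l ∈ PP, Split m l ∧ 2 ^ (990 * κ) < l ∧ l ≤ 2 ^ (1001 * κ))
    (hc : 2 ^ (998 * κ) ≤ PP.card) :
    ∃ S : ℕ → St m,
      (∀ i ≤ 9 * (996 * κ) + 216 * lp * (996 * κ / 10), (S i).Ok PP (996 * κ) i ∧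
        p ^ 4 ≤ (S i).D.card ∧ (S i).D.card ≤ p ^ 37 ∧
        ((S i).D.card : ℝ) ≤ 2 * (p : ℝ) ^ 4 * (1 + (1001 / 1000 : ℝ) / (996 * κ : ℕ)) ^ i) ∧
      ∀ i < 9 * (996 * κ) + 216 * lp * (996 * κ / 10), (S i).e ∣ (S (i + 1)).e ∧
        (1 + 1 / ((996 * κ : ℕ) : ℝ)) * (S i).D.card ≤ (S (i + 1)).D.card ∧
        ((S (i + 1)).D.card : ℝ) ≤ (1 + (1001 / 1000 : ℝ) / (996 * κ : ℕ)) * (S i).D.card := by
  have hκ3 : p ^ 20 ≤ 2 ^ κ := by
    calc p ^ 20 ≤ (2 ^ lp) ^ 20 := Nat.pow_le_pow_left hlp.le 20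
      _ = 2 ^ (20 * lp) := by rw [← pow_mul, mul_comm]
      _ ≤ 2 ^ κ := Nat.pow_le_pow_right (by norm_num) hκ1
  obtain ⟨S0, hS0, h01, h02⟩ := start m p κ hm hmp hp hκ3 PP (fun l hl => (hPP l hl).1) hc
  have hk : 1 ≤ 996 * κ := by omega
  have hp1 : 1 ≤ p := le_trans (by norm_num) hp
  have hp' : (10 : ℝ) ^ 20 ≤ p := by exact_mod_cast hp
  have hlp' : (2 : ℝ) ^ lp ≤ 2 * p := by exact_mod_cast hlp2
  have hcap : ∀ i ≤ 9 * (996 * κ) + 216 * lp * (996 * κ / 10), ∀ r : ℕ,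
      (r : ℝ) ≤ 2 * (p : ℝ) ^ 4 * (1 + (1001 / 1000 : ℝ) / (996 * κ : ℕ)) ^ i → r ≤ p ^ 37 := by
    intro i hi r hr
    have h1 := upall_EGTower (996 * κ) lp i hk hi
    have h2 : ((2 : ℝ) ^ lp) ^ 32 ≤ (2 * p) ^ 32 := pow_le_pow_left₀ (by positivity) hlp' 32
    have h3 : (r : ℝ) ≤ (p : ℝ) ^ 37 := by
      calc (r : ℝ) ≤ 2 * (p : ℝ) ^ 4 * (30000 * (2 * p) ^ 32) := by
            refine hr.trans (mul_le_mul_of_nonneg_left (h1.trans ?_) (by positivity))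
            exact mul_le_mul_of_nonneg_left h2 (by norm_num)
        _ = (60000 * 2 ^ 32) * (p : ℝ) ^ 36 := by ring
        _ ≤ p * (p : ℝ) ^ 36 := by
            apply mul_le_mul_of_nonneg_right _ (by positivity)
            exact le_trans (by norm_num) hp'
        _ = (p : ℝ) ^ 37 := by ring
    exact_mod_cast h3
  generalize hK : 996 * κ = K at *
  have hK' : (0 : ℝ) < K := by exact_mod_cast hk
  refine chain_EGTower
    (fun i (S : St m) => S.Ok PP K i ∧ p ^ 4 ≤ S.D.card ∧ S.D.card ≤ p ^ 37 ∧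
      (S.D.card : ℝ) ≤ 2 * (p : ℝ) ^ 4 * (1 + (1001 / 1000 : ℝ) / K) ^ i)
    (fun S S' => S.e ∣ S'.e ∧ (1 + 1 / (K : ℝ)) * S.D.card ≤ S'.D.card ∧
      (S'.D.card : ℝ) ≤ (1 + (1001 / 1000 : ℝ) / K) * S.D.card) _ S0 ?_ ?_
  · have h1 : p ^ 2 ≤ p ^ 4 := Nat.pow_le_pow_right hp1 (by norm_num)
    have h2 : S0.D.card ≤ 2 * p ^ 4 := by omega
    have h3 : (S0.D.card : ℝ) ≤ 2 * (p : ℝ) ^ 4 * (1 + (1001 / 1000 : ℝ) / K) ^ 0 := by
      rw [pow_zero, mul_one]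
      exact_mod_cast h2
    exact ⟨hS0, h01, hcap 0 (Nat.zero_le _) _ h3, h3⟩
  · rintro i hi S ⟨hS, h1, h2, h3⟩
    obtain ⟨S', hS', hd, h4, h5⟩ := step m p κ i hm hmp hp hκ3 hκ2 PP
      (fun l hl => ⟨(hPP l hl).1, (hPP l hl).2.2⟩) hc S (hK ▸ hS) h1 h2
    rw [hK] at hS' h4 h5
    have h4' : ((K : ℝ) + 1) * S.D.card ≤ K * S'.D.card := by exact_mod_cast h4
    have h5' : 1000 * (K : ℝ) * S'.D.card ≤ (1000 * K + 1001) * S.D.card := by exact_mod_cast h5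
    have h6 : (1 + 1 / (K : ℝ)) * S.D.card ≤ S'.D.card := by
      have : (1 + 1 / (K : ℝ)) * S.D.card = ((K : ℝ) + 1) * S.D.card / K := by field_simp
      rw [this, div_le_iff₀ hK']
      linarith
    have h7 : (S'.D.card : ℝ) ≤ (1 + (1001 / 1000 : ℝ) / K) * S.D.card := by
      have : (1 + (1001 / 1000 : ℝ) / K) * S.D.card
          = (1000 * (K : ℝ) + 1001) * S.D.card / (1000 * K) := by field_simp
      rw [this, le_div_iff₀ (by positivity)]
      linarith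
    have h8 : S.D.card ≤ S'.D.card := by
      have : K * S.D.card ≤ K * S'.D.card := by nlinarith
      exact Nat.le_of_mul_le_mul_left this hk
    have h9 : (S'.D.card : ℝ) ≤ 2 * (p : ℝ) ^ 4 * (1 + (1001 / 1000 : ℝ) / K) ^ (i + 1) := by
      refine h7.trans ?_
      calc (1 + (1001 / 1000 : ℝ) / K) * S.D.card
          ≤ (1 + (1001 / 1000 : ℝ) / K) * (2 * (p : ℝ) ^ 4 * (1 + (1001 / 1000 : ℝ) / K) ^ i) :=
            mul_le_mul_of_nonneg_left h3 (by positivity)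
        _ = _ := by ring
    exact ⟨S', ⟨hS', h1.trans h8, hcap (i + 1) hi _ h9, h9⟩, hd, h6, h7⟩

theorem iter_EGTower {m : ℕ} (S : ℕ → St m) (N : ℕ) (x y : ℝ) (hx : 0 ≤ x) (hy : 0 ≤ y)
    (h : ∀ i < N, (S i).e ∣ (S (i + 1)).e ∧ x * (S i).D.card ≤ (S (i + 1)).D.card ∧
      ((S (i + 1)).D.card : ℝ) ≤ y * (S i).D.card) (a n : ℕ) (hn : a + n ≤ N) :
    (S a).e ∣ (S (a + n)).e ∧ x ^ n * (S a).D.card ≤ (S (a + n)).D.card ∧
      ((S (a + n)).D.card : ℝ) ≤ y ^ n * (S a).D.card := by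
  induction n with
  | zero => simp
  | succ n ih =>
    obtain ⟨h1, h2, h3⟩ := ih (by omega)
    obtain ⟨h4, h5, h6⟩ := h (a + n) (by omega)
    refine ⟨h1.trans h4, ?_, ?_⟩
    · calc x ^ (n + 1) * (S a).D.card = x * (x ^ n * (S a).D.card) := by ring
        _ ≤ x * (S (a + n)).D.card := mul_le_mul_of_nonneg_left h2 hx
        _ ≤ _ := h5
    · calc ((S (a + (n + 1))).D.card : ℝ) ≤ y * (S (a + n)).D.card := h6
        _ ≤ y * (y ^ n * (S a).D.card) := mul_le_mul_of_nonneg_left h3 hy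
        _ = _ := by ring

/-- L3: the scales. -/
theorem tower (m p κ lp : ℕ) (hm : 2 ≤ m) (hmp : m ≤ 4 ^ p) (hp : 10 ^ 20 ≤ p) (hlp : p < 2 ^ lp)
    (hlp2 : 2 ^ lp ≤ 2 * p) (hκ1 : 20 * lp ≤ κ) (hκ2 : κ ^ 2 ≤ p) (PP : Finset ℕ)
    (hPP : ∀ l ∈ PP, Split m l ∧ 2 ^ (990 * κ) < l ∧ l ≤ 2 ^ (1001 * κ))
    (hc : 2 ^ (998 * κ) ≤ PP.card) :
    ∃ (lam : ℕ → ℝ) (e : ℕ → O m) (U : ℕ → Finset (O m)) (D : Finset ℕ),
      D ⊆ PP ∧ D.card ≤ p ^ 37 ∧ (e (216 * lp)).norm = ∏ l ∈ D, (l : ℤ) ∧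
      (∀ j ≤ 216 * lp, ((e j).norm : ℝ) = lam j ^ 100 ∧ (2 : ℝ) ^ (p ^ 4) ≤ lam j ∧
        e j ∣ e (216 * lp) ∧ lam j ^ 99 ≤ (U j).card ∧ ∀ u ∈ U j, SumRes (e j) (8964 * κ) u) ∧
      (∀ j < 216 * lp, lam (j + 1) ^ 121 ≤ lam j ^ 139) ∧ lam 0 ^ 121 ≤ (2 : ℝ) ^ (p ^ 5) ∧
      (2 : ℝ) ^ (p ^ 28) ≤ lam (216 * lp) := by
  have hp1 : 1 ≤ p := le_trans (by norm_num) hp
  have hlp0 : 1 ≤ lp := by
    rcases Nat.eq_zero_or_pos lp with h | h
    · rw [h] at hlp; omega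
    · exact h
  have hκ0 : 1 ≤ κ := by omega
  obtain ⟨S, hS, hR⟩ := states_EGTower m p κ lp hm hmp hp hlp hlp2 hκ1 hκ2 hκ0 PP hPP hc
  have hk : 100 ≤ 996 * κ := by omega
  have hs0 : 8964 * κ = 9 * (996 * κ) := by ring
  have hKR : ((996 * κ : ℕ) : ℝ) = 996 * κ := by push_cast; ring
  rw [hs0]
  generalize hK : 996 * κ = K at *
  have hK' : (0 : ℝ) < K := by
    have : 0 < K := by omega
    exact_mod_cast this
  have hit := iter_EGTower S _ _ _ (by positivity) (by positivity) hR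
  have hle : ∀ j ≤ 216 * lp, 9 * K + j * (K / 10) ≤ 9 * K + 216 * lp * (K / 10) := fun j hj =>
    Nat.add_le_add_left (Nat.mul_le_mul_right _ hj) _
  have hnorm : ∀ j ≤ 216 * lp, (S (9 * K + j * (K / 10))).e.norm
      = ∏ l ∈ (S (9 * K + j * (K / 10))).D, (l : ℤ) := fun j hj =>
    (hS _ (hle j hj)).1.box.nrm _ (hS _ (hle j hj)).1.mem
  have hb : ∀ j ≤ 216 * lp,
      (2 : ℝ) ^ (990 * κ * (S (9 * K + j * (K / 10))).D.card)
        ≤ ((S (9 * K + j * (K / 10))).e.norm : ℝ) ∧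
      ((S (9 * K + j * (K / 10))).e.norm : ℝ)
        ≤ (2 : ℝ) ^ (1001 * κ * (S (9 * K + j * (K / 10))).D.card) := by
    intro j hj
    rw [hnorm j hj]
    exact prod_bounds_EGTower _ _ _ fun l hl => (hPP l ((hS _ (hle j hj)).1.sub hl)).2
  obtain ⟨lam, hlam0, hlam⟩ : ∃ lam : ℕ → ℝ, (∀ j, 0 ≤ lam j) ∧
      ∀ j, ((S (9 * K + j * (K / 10))).e.norm : ℝ) = lam j ^ 100 := by
    have hn : ∀ j, (0 : ℝ) ≤ ((S (9 * K + j * (K / 10))).e.norm : ℝ) := fun j => by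
      exact_mod_cast Zsqrtd.norm_nonneg (by omega) _
    refine ⟨fun j => ((S (9 * K + j * (K / 10))).e.norm : ℝ) ^ ((100 : ℕ) : ℝ)⁻¹,
      fun j => Real.rpow_nonneg (hn j) _, fun j => ?_⟩
    exact (Real.rpow_inv_natCast_pow (hn j) (by norm_num)).symm
  have hlow : ∀ j ≤ 216 * lp, ∀ n : ℕ, n ≤ (S (9 * K + j * (K / 10))).D.card →
      (2 : ℝ) ^ n ≤ lam j := by
    intro j hj n hn
    refine le_of_pow_le_pow_left₀ (n := 100) (by norm_num) (hlam0 j) ?_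
    rw [← hlam j, ← pow_mul]
    refine le_trans (pow_le_pow_right₀ (by norm_num) ?_) (hb j hj).1
    calc n * 100 ≤ (S (9 * K + j * (K / 10))).D.card * (990 * κ) :=
          Nat.mul_le_mul hn (by omega)
      _ = _ := mul_comm _ _
  have hp' : (10 : ℝ) ^ 20 ≤ p := by exact_mod_cast hp
  refine ⟨lam, fun j => (S (9 * K + j * (K / 10))).e, fun j => (S (9 * K + j * (K / 10))).U (9 * K),
    (S (9 * K + 216 * lp * (K / 10))).D, (hS _ le_rfl).1.sub, (hS _ le_rfl).2.2.1,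
    hnorm _ le_rfl, fun j hj => ⟨hlam j, hlow j hj _ (hS _ (hle j hj)).2.1, ?_, ?_,
      (hS _ (hle j hj)).1.sum _⟩, fun j hj => ?_, ?_, ?_⟩
  · obtain ⟨n, hn⟩ := Nat.exists_eq_add_of_le (hle j hj)
    have h1 := (hit _ n hn.symm.le).1
    rw [← hn] at h1
    exact h1
  · have h1 := (hS _ (hle j hj)).1.crd (9 * K) (Nat.le_add_right _ _)
    have h2 := q_small_EGTower K (by omega)
    have h3 := (hb j hj).2
    have h4 : 100000 ≤ (S (9 * K + j * (K / 10))).D.card := by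
      refine le_trans ?_ (hS _ (hle j hj)).2.1
      calc 100000 ≤ p := le_trans (by norm_num) hp
        _ = p ^ 1 := (pow_one p).symm
        _ ≤ p ^ 4 := Nat.pow_le_pow_right hp1 (by norm_num)
    refine le_trans ?_ h1
    rw [hlam j] at h3
    generalize (S (9 * K + j * (K / 10))).D.card = r at *
    have h4' : (100000 : ℝ) ≤ r := by exact_mod_cast h4
    refine le_of_pow_le_pow_left₀ (n := 100) (by norm_num) (by positivity) ?_
    rw [← pow_mul, mul_comm 99 100, pow_mul]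
    refine (pow_le_pow_left₀ (by positivity) h3 99).trans ?_
    rw [← pow_mul, ← Real.rpow_natCast, ← Real.rpow_natCast, ← Real.rpow_mul (by norm_num)]
    apply Real.rpow_le_rpow_of_exponent_le (by norm_num)
    generalize ((K : ℝ) / (K + 1)) ^ (9 * K) = q at *
    have hκ' : (0 : ℝ) < κ := by exact_mod_cast hκ0
    push_cast
    rw [hKR]
    have h5 : (0 : ℝ) ≤ κ * r * (1 / 512 - q) := by
      apply mul_nonneg (by positivity); linarith
    have h6 : (0 : ℝ) ≤ κ * (r - 100000) := by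
      apply mul_nonneg hκ'.le; linarith
    nlinarith
  · have hj1 : 9 * K + (j + 1) * (K / 10) = 9 * K + j * (K / 10) + K / 10 := by ring
    have h1 := (hit (9 * K + j * (K / 10)) (K / 10) (by rw [← hj1]; exact hle _ hj)).2.2
    rw [← hj1] at h1
    have h2 := upsig_EGTower K (by omega)
    have h3 := (hb (j + 1) hj).2
    have h4 := (hb j hj.le).1
    rw [hlam] at h3 h4
    generalize (S (9 * K + (j + 1) * (K / 10))).D.card = r' at *
    generalize (S (9 * K + j * (K / 10))).D.card = r at *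
    have h5 : (r' : ℝ) ≤ 9 / 8 * r := h1.trans (mul_le_mul_of_nonneg_right h2 (by positivity))
    have h6 : 8 * r' ≤ 9 * r := by
      have : (8 : ℝ) * r' ≤ 9 * r := by linarith
      exact_mod_cast this
    refine le_of_pow_le_pow_left₀ (n := 100) (by norm_num) (pow_nonneg (hlam0 j) _) ?_
    rw [← pow_mul, ← pow_mul, mul_comm 121 100, mul_comm 139 100, pow_mul, pow_mul]
    refine (pow_le_pow_left₀ (pow_nonneg (hlam0 _) _) h3 121).trans
      (le_trans ?_ (pow_le_pow_left₀ (by positivity) h4 139))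
    rw [← pow_mul, ← pow_mul]
    apply pow_le_pow_right₀ (by norm_num)
    have h7 : 1001 * 121 * r' ≤ 990 * 139 * r := by omega
    calc 1001 * κ * r' * 121 = κ * (1001 * 121 * r') := by ring
      _ ≤ κ * (990 * 139 * r) := Nat.mul_le_mul_left _ h7
      _ = 990 * κ * r * 139 := by ring
  · have h1 := (hS _ (hle 0 (Nat.zero_le _))).2.2.2
    have h2 := up9_EGTower K (9 * K + 0 * (K / 10)) (by omega) (by omega)
    have h3 := (hb 0 (Nat.zero_le _)).2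
    rw [hlam] at h3
    generalize (S (9 * K + 0 * (K / 10))).D.card = r at *
    have h4 : r ≤ 60000 * p ^ 4 := by
      have : (r : ℝ) ≤ 60000 * (p : ℝ) ^ 4 := by
        refine h1.trans ((mul_le_mul_of_nonneg_left h2 (by positivity)).trans (le_of_eq ?_))
        ring
      exact_mod_cast this
    have h5 : κ * 10 ^ 10 ≤ p := by
      refine le_of_pow_le_pow_left₀ (n := 2) (by norm_num) (Nat.zero_le _) ?_
      calc (κ * 10 ^ 10) ^ 2 = κ ^ 2 * 10 ^ 20 := by ring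
        _ ≤ p * p := Nat.mul_le_mul hκ2 hp
        _ = p ^ 2 := by ring
    refine le_of_pow_le_pow_left₀ (n := 100) (by norm_num) (by positivity) ?_
    rw [← pow_mul, mul_comm 121 100, pow_mul]
    refine (pow_le_pow_left₀ (pow_nonneg (hlam0 _) _) h3 121).trans ?_
    rw [← pow_mul, ← pow_mul]
    apply pow_le_pow_right₀ (by norm_num)
    calc 1001 * κ * r * 121 ≤ 1001 * κ * (60000 * p ^ 4) * 121 :=
          Nat.mul_le_mul_right _ (Nat.mul_le_mul_left _ h4)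
      _ = (κ * (1001 * 600 * 121)) * (p ^ 4 * 100) := by ring
      _ ≤ p * (p ^ 4 * 100) :=
          Nat.mul_le_mul_right _ (le_trans (Nat.mul_le_mul_left κ (by norm_num)) h5)
      _ = p ^ 5 * 100 := by ring
  · apply hlow _ le_rfl
    have h1 := (hit (9 * K) (216 * lp * (K / 10)) le_rfl).2.1
    have h2 := lowall_EGTower K lp hk
    have h3 := (hS (9 * K) (Nat.le_add_right _ _)).2.1
    have h3' : (p : ℝ) ^ 4 ≤ (S (9 * K)).D.card := by exact_mod_cast h3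
    have h4 : (p : ℝ) ≤ 2 ^ lp := by exact_mod_cast hlp.le
    have h5 : (p : ℝ) ^ 28 ≤ (S (9 * K + 216 * lp * (K / 10))).D.card := by
      refine le_trans ?_ h1
      calc (p : ℝ) ^ 28 = (p : ℝ) ^ 24 * (p : ℝ) ^ 4 := by ring
        _ ≤ _ := mul_le_mul ((pow_le_pow_left₀ (by positivity) h4 24).trans h2) h3'
            (by positivity) (by positivity)
    exact_mod_cast h5

end Pool.Agent.P.MP_b75a1e_co.EG
end

-- part Pool.Agent.P.MP_b75a1e_co.FLBase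
section

set_option autoImplicit false

open Finset
open scoped BigOperators ComplexConjugate

namespace Pool.Agent.P.MP_b75a1e_co.EG

variable {m : ℕ}

theorem Rep.mul_left {N : ℝ} {k : ℕ} {y : ℂ} (h : Rep m N k y) (g : O m) :
    Rep m (g.norm * N) k (ph m g * y) := by
  obtain ⟨L, rfl, a, rfl⟩ := h
  refine ⟨L.map fun x => ph m g * x, Multiset.card_map _ _, fun x hx => ?_, ?_⟩
  · obtain ⟨u, hu, rfl⟩ := Multiset.mem_map.1 hx
    obtain ⟨⟨z, n, hn, rfl⟩, h2⟩ := a u hu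
    refine ⟨⟨g * z, n, hn, by rw [map_mul, mul_div_assoc]⟩, ?_⟩
    rw [norm_mul, mul_pow, norm_sq_ph, h2]
  · rw [Multiset.sum_map_mul_left, Multiset.map_id']

theorem Rep.conj {N : ℝ} {k : ℕ} {y : ℂ} (h : Rep m N k y) : Rep m N k (conj y) := by
  obtain ⟨L, rfl, a, rfl⟩ := h
  refine ⟨L.map (starRingEnd ℂ), Multiset.card_map _ _, fun x hx => ?_,
    (map_multiset_sum (starRingEnd ℂ) L).symm⟩
  obtain ⟨u, hu, rfl⟩ := Multiset.mem_map.1 hx
  obtain ⟨⟨z, n, hn, rfl⟩, h2⟩ := a u hu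
  refine ⟨⟨star z, n, hn, by rw [ph_star, map_div₀, map_natCast]⟩, ?_⟩
  rw [Complex.norm_conj, h2]

theorem Rep.norm_le {N : ℝ} {k : ℕ} {y : ℂ} (h : Rep m N k y) : ‖y‖ ≤ k * Real.sqrt N := by
  obtain ⟨L, rfl, a, rfl⟩ := h
  induction L using Multiset.induction_on with
  | empty => simp
  | cons x L ih =>
    have h1 := (a x (Multiset.mem_cons_self _ _)).2
    have h2 := ih fun z hz => a z (Multiset.mem_cons_of_mem hz)
    have h3 : ‖x‖ = Real.sqrt N := by rw [← h1, Real.sqrt_sq (norm_nonneg _)]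
    rw [Multiset.sum_cons, Multiset.card_cons]
    refine (norm_add_le _ _).trans ?_
    push_cast
    linarith

theorem Adm.mul {e : O m} {n n' : ℕ} {φ φ' : ℂ → ℂ} (h : Adm e n φ) (h' : Adm e n' φ') :
    Adm e (n + n') fun b => φ b * φ' b := by
  obtain ⟨Ω, i1, i2, X, hX, hc⟩ := h
  obtain ⟨Ω', i1', i2', X', hX', hc'⟩ := h'
  refine ⟨Ω × Ω', inferInstance, inferInstance, fun q => X q.1 + X' q.2, fun q => ⟨?_, ?_⟩,
    fun b => ?_⟩
  · rw [map_add]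
    exact (hX q.1).1.add (hX' q.2).1
  · have e1 : X q.1 + X' q.2 - ((n + n' : ℕ) : O m) * e =
        (X q.1 - (n : O m) * e) + (X' q.2 - (n' : O m) * e) := by
      push_cast
      ring
    rw [e1]
    exact dvd_add (hX q.1).2 (hX' q.2).2
  · rw [ch_prod, hc, hc']

theorem Adm.pow {e : O m} {n : ℕ} {φ : ℂ → ℂ} (h : Adm e n φ) (N : ℕ) :
    Adm e (N * n) fun b => φ b ^ N := by
  induction N with
  | zero =>
    refine ⟨Unit, inferInstance, inferInstance, fun _ => 0, fun _ => ⟨?_, by simp⟩, fun b => ?_⟩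
    · exact ⟨0, by simp, by simp, by simp⟩
    · simp [ch, pr, ee_zero]
  | succ N ih =>
    have := ih.mul h
    simpa only [Nat.succ_mul, pow_succ] using this

theorem Adm.norm_le {e : O m} {n : ℕ} {φ : ℂ → ℂ} (h : Adm e n φ) (b : ℂ) : ‖φ b‖ ≤ 1 := by
  obtain ⟨Ω, i1, i2, X, -, hc⟩ := h
  rw [← hc]
  exact norm_ch_le X b

theorem ee_im_congr {D : ℕ} (hD : 1 ≤ D) {x x' : O m} (h : (D : O m) ∣ x - x') (t : ℝ) :
    ee ((x.im : ℝ) / D + t) = ee ((x'.im : ℝ) / D + t) := by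
  obtain ⟨c, hc⟩ := ((nat_dvd_iff D _).1 h).2
  have hD0 : (D : ℝ) ≠ 0 := by positivity
  have h1 : (x.im : ℝ) = x'.im + D * c := by
    rw [Zsqrtd.im_sub] at hc
    have : x.im = x'.im + D * c := by linarith
    exact_mod_cast this
  have h2 : (x.im : ℝ) / D + t = ((x'.im : ℝ) / D + t) + (c : ℝ) := by
    rw [h1]
    field_simp
    ring
  rw [h2, ee_add _ (c : ℝ), ee_int, mul_one]

theorem norm_rot (hm : 1 ≤ m) {δ : O m} (hδ : δ ≠ 0) : ‖rot δ‖ = 1 := by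
  have h0 := norm_ne_zero_iff.2 (ph_ne_zero hm hδ)
  rw [rot, norm_div, Complex.norm_conj, div_self h0]

theorem norm_rot_sub (hm : 1 ≤ m) {δ δ' : O m} (hδ : δ ≠ 0) (hδ' : δ' ≠ 0) :
    ‖rot δ - rot δ'‖ * (‖ph m δ‖ * ‖ph m δ'‖) = 2 * |(ph m δ * conj (ph m δ')).im| := by
  have h0 : conj (ph m δ) ≠ 0 := (map_ne_zero _).2 (ph_ne_zero hm hδ)
  have h0' : conj (ph m δ') ≠ 0 := (map_ne_zero _).2 (ph_ne_zero hm hδ')
  have e1 : (rot δ - rot δ') * (conj (ph m δ) * conj (ph m δ')) =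
      ((2 * (ph m δ * conj (ph m δ')).im : ℝ) : ℂ) * Complex.I := by
    rw [← Complex.sub_conj, map_mul, Complex.conj_conj, rot, rot]
    field_simp
  have e2 := congrArg norm e1
  rw [norm_mul, norm_mul, Complex.norm_conj, Complex.norm_conj, norm_mul, Complex.norm_I, mul_one,
    Complex.norm_real, Real.norm_eq_abs, abs_mul, abs_two] at e2
  exact e2

theorem Pile.norm_le {e : O m} {s : ℕ} {ν : ℝ} {U : Finset (O m)} (h : Pile e s ν U) (hν : 0 ≤ ν)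
    {u : O m} (hu : u ∈ U) : ‖ph m u‖ ≤ s * ν ^ 1000 := by
  have := (h.sum u hu).norm_le (lam := ν ^ 20) (pow_nonneg hν _) (by rw [h.nrm, ← pow_mul])
  rwa [← pow_mul] at this

theorem Pile.norm_e {e : O m} {s : ℕ} {ν : ℝ} {U : Finset (O m)} (h : Pile e s ν U) (hν : 0 ≤ ν) :
    ‖ph m e‖ = ν ^ 1000 := by
  have h1 := norm_sq_ph e
  rw [h.nrm, show ν ^ 2000 = (ν ^ 1000) ^ 2 by rw [← pow_mul]] at h1
  exact (pow_left_inj₀ (norm_nonneg _) (pow_nonneg hν _) two_ne_zero).1 h1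

variable {y J : ℕ} {k : ℝ} {F : Finset (O m)}

theorem Fam.rot_one (h : Fam m y J k F) (hm : 1 ≤ m) {δ : O m} (hδ : δ ∈ F) :
    ‖rot δ - 1‖ ≤ 2 * (m : ℝ) ^ 2 * J / y := by
  have h1 := norm_rot_sub hm (h.ne_zero hδ) (one_ne_zero : (1 : O m) ≠ 0)
  have r1 : rot (1 : O m) = 1 := by simp [rot]
  rw [r1, map_one, map_one, mul_one, norm_one, mul_one, ph_im, abs_mul,
    abs_of_nonneg (Real.sqrt_nonneg _)] at h1
  have h2 := (h.abs hδ).1
  have h3 : |(δ.im : ℝ)| ≤ m * J := by exact_mod_cast (h.box δ hδ).2.2.2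
  have hm1 : (1 : ℝ) ≤ m := by exact_mod_cast hm
  have h4 : Real.sqrt m ≤ m := by
    rw [Real.sqrt_le_left (by linarith)]
    nlinarith
  have hy : (0 : ℝ) < y := by
    have h5 := h.thin
    have h6 := h.pos
    have : 0 < 10 * m ^ 2 * J := by positivity
    exact_mod_cast this.trans_le h5
  rw [le_div_iff₀ hy]
  have h7 : ‖rot δ - 1‖ * y ≤ ‖rot δ - 1‖ * ‖ph m δ‖ :=
    mul_le_mul_of_nonneg_left h2.le (norm_nonneg _)
  have h8 : |(δ.im : ℝ)| * Real.sqrt m ≤ (m * J) * m :=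
    mul_le_mul h3 h4 (Real.sqrt_nonneg _) (by positivity)
  nlinarith

end Pool.Agent.P.MP_b75a1e_co.EG
end

-- part Pool.Agent.P.MP_b75a1e_co.FLCheb
section

set_option autoImplicit false

open Finset
open scoped BigOperators ComplexConjugate

namespace Pool.Agent.P.MP_b75a1e_co.EG

theorem key_FLCheb {q a b a' b' a0 b0 m e : ℤ} (h0 : q ∣ a0 ^ 2 + m * b0 ^ 2)
    (hc : IsCoprime q b0) (he : e ^ 2 = 1) (h1 : q ∣ a * b0 - e * a0 * b)
    (h2 : q ∣ a' * b0 - e * a0 * b') : q ∣ (a - a') ^ 2 + m * (b - b') ^ 2 := by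
  have h3 := (dvd_sub h1 h2).mul_right ((a - a') * b0 + e * a0 * (b - b'))
  have h4 := h0.mul_right ((b - b') ^ 2)
  have h5 : b0 ^ 2 * ((a - a') ^ 2 + m * (b - b') ^ 2) =
      (a * b0 - e * a0 * b - (a' * b0 - e * a0 * b')) * ((a - a') * b0 + e * a0 * (b - b')) +
        (a0 ^ 2 + m * b0 ^ 2) * (b - b') ^ 2 := by
    linear_combination (a0 ^ 2 * (b - b') ^ 2) * he
  have h6 : q ∣ b0 ^ 2 * ((a - a') ^ 2 + m * (b - b') ^ 2) := by
    rw [h5]; exact dvd_add h3 h4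
  exact (hc.pow_right (n := 2)).dvd_of_dvd_mul_left h6

theorem cell_FLCheb {x y h : ℕ} (e : x / (h + 1) = y / (h + 1)) :
    ((x : ℤ) - y) ^ 2 ≤ (h : ℤ) ^ 2 := by
  have h1 := Nat.div_add_mod x (h + 1)
  have h2 := Nat.div_add_mod y (h + 1)
  have h3 : x % (h + 1) < h + 1 := Nat.mod_lt x (Nat.succ_pos h)
  have h4 : y % (h + 1) < h + 1 := Nat.mod_lt y (Nat.succ_pos h)
  rw [e] at h1
  generalize (h + 1) * (y / (h + 1)) = c at h1 h2
  generalize x % (h + 1) = a at h1 h3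
  generalize y % (h + 1) = b at h2 h4
  refine sq_le_sq' ?_ ?_ <;> omega

theorem cp_large (m B q : ℕ) (hm : 1 ≤ m) (hB : 1 ≤ B) (hq : IsPrimePow q)
    (hqB : q ≤ (1200 * m * B) ^ 2) :
    (((cp m B).filter fun z => q ∣ nv m z).card : ℝ) ≤ 12 * 10 ^ 6 * (m : ℝ) ^ 2 * (B : ℝ) ^ 2 / q := by
  classical
  obtain ⟨l, j, hl, hj, hqe⟩ := (isPrimePow_nat_iff q).1 hq
  have hq0 : 0 < q := hq.pos
  have hlq : l ∣ q := by rw [← hqe]; exact dvd_pow_self l hj.ne'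
  have hqz : (q : ℤ) = (l : ℤ) ^ j := by rw [← hqe]; push_cast; rfl
  have hlz : Prime (l : ℤ) := Nat.prime_iff_prime_int.1 hl
  obtain ⟨S, hS⟩ : ∃ S, S = (cp m B).filter fun z => q ∣ nv m z := ⟨_, rfl⟩
  rw [← hS]
  obtain ⟨h, hh⟩ : ∃ h, h = Nat.sqrt q / 2 := ⟨_, rfl⟩
  obtain ⟨K, hK⟩ : ∃ K, K = 421 * (m * B) / (h + 1) + 1 := ⟨_, rfl⟩
  have hmB : 1 ≤ m * B := Nat.mul_pos hm hB
  have hr1 : Nat.sqrt q * Nat.sqrt q ≤ q := Nat.sqrt_le q
  have hr2 : q < (Nat.sqrt q + 1) * (Nat.sqrt q + 1) := Nat.lt_succ_sqrt q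
  have hr3 : Nat.sqrt q ≤ 1200 * (m * B) := by
    have h1 := Nat.sqrt_le_sqrt hqB
    rwa [Nat.sqrt_eq', mul_assoc] at h1
  have hh1 : 2 * h ≤ Nat.sqrt q := by omega
  have hh2 : Nat.sqrt q + 1 ≤ 2 * (h + 1) := by omega
  have hsm : 2 * h ^ 2 < q := by nlinarith [Nat.mul_le_mul hh1 hh1]
  have hbg : q ≤ 4 * ((h + 1) * (h + 1)) := by nlinarith [Nat.mul_le_mul hh2 hh2]
  have hKt : K * (h + 1) ≤ 1022 * (m * B) := by
    have h1 := Nat.div_mul_le_self (421 * (m * B)) (h + 1)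
    rw [hK, add_mul, one_mul]
    omega
  have hmem : ∀ z ∈ S, z ∈ cp m B ∧ q ∣ nv m z := fun z hz => by
    rw [hS] at hz; exact mem_filter.1 hz
  have hdv : ∀ z ∈ S, (q : ℤ) ∣ (1 + 210 * m * z.1 : ℤ) ^ 2 + m * (210 * z.2 : ℤ) ^ 2 := fun z hz => by
    have h1 := Int.natCast_dvd_natCast.2 (hmem z hz).2
    unfold nv at h1
    push_cast at h1
    exact h1
  have hnb : ∀ z ∈ S, ¬ (l : ℤ) ∣ m * 210 ∧ ¬ (l : ℤ) ∣ (210 * z.2 : ℤ) := fun z hz => by
    obtain ⟨-, h1, h2⟩ := cp_split m B hm (hmem z hz).1 hl (hlq.trans (hmem z hz).2)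
    have h3 : ¬ (l : ℤ) ∣ m * 210 := fun h4 => h1 (by rw [mul_comm]; exact_mod_cast h4)
    refine ⟨h3, fun h4 => ?_⟩
    rcases hlz.dvd_or_dvd h4 with h5 | h5
    · exact h3 (h5.mul_left _)
    · exact h2 (by exact_mod_cast h5)
  have hna : ∀ z ∈ S, ¬ (l : ℤ) ∣ (1 + 210 * m * z.1 : ℤ) := fun z hz h1 => by
    have h3 : (l : ℤ) ∣ (q : ℤ) := by exact_mod_cast hlq
    have h4 : (l : ℤ) ∣ m * (210 * z.2 : ℤ) ^ 2 :=
      (dvd_add_right (h1.trans (dvd_pow_self _ two_ne_zero))).1 (h3.trans (hdv z hz))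
    rcases hlz.dvd_or_dvd h4 with h5 | h5
    · exact (hnb z hz).1 (h5.mul_right _)
    · exact (hnb z hz).2 (hlz.dvd_of_dvd_pow h5)
  have hcard : S.card ≤ 2 * (K * K) := by
    rcases S.eq_empty_or_nonempty with h0 | ⟨z0, hz0⟩
    · rw [h0]; exact Nat.zero_le _
    have hl2 : l ≠ 2 := fun h1 => (hnb z0 hz0).1 (by rw [h1]; exact Dvd.dvd.mul_left (by norm_num) _)
    have hcop : IsCoprime (q : ℤ) (210 * z0.2 : ℤ) := by
      rw [hqz]
      exact ((hlz.coprime_iff_not_dvd).2 (hnb z0 hz0).2).pow_left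
    have hsg : ∀ z ∈ S, (q : ℤ) ∣ (1 + 210 * m * z.1 : ℤ) * (210 * z0.2) -
        1 * (1 + 210 * m * z0.1 : ℤ) * (210 * z.2) ∨ (q : ℤ) ∣ (1 + 210 * m * z.1 : ℤ) * (210 * z0.2) -
        (-1) * (1 + 210 * m * z0.1 : ℤ) * (210 * z.2) := fun z hz => by
      have h1 : ¬ (l : ℤ) ∣ (1 + 210 * m * z.1 : ℤ) * (210 * z0.2) := fun h2 =>
        (hlz.dvd_or_dvd h2).elim (hna z hz) (hnb z0 hz0).2
      have h2 := dvd_sub ((hdv z hz).mul_right ((210 * z0.2 : ℤ) ^ 2))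
        ((hdv z0 hz0).mul_right ((210 * z.2 : ℤ) ^ 2))
      have h3 : (l : ℤ) ^ j ∣ ((1 + 210 * m * z.1 : ℤ) * (210 * z0.2)) ^ 2 -
          ((1 + 210 * m * z0.1 : ℤ) * (210 * z.2)) ^ 2 := by
        rw [← hqz]
        refine h2.trans (dvd_of_eq ?_)
        ring
      rw [hqz]
      rcases two_roots hl hl2 h1 h3 with h4 | h4
      · left; rwa [one_mul]
      · right; rwa [mul_assoc (-1 : ℤ), neg_one_mul, sub_neg_eq_add]
    let f : ℕ × ℕ → Bool × ℕ × ℕ := fun z =>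
      (decide ((q : ℤ) ∣ (1 + 210 * m * z.1 : ℤ) * (210 * z0.2) -
        1 * (1 + 210 * m * z0.1 : ℤ) * (210 * z.2)),
        (1 + 210 * m * z.1) / (h + 1), (m * (210 * z.2)) / (h + 1))
    have hf : ∀ z ∈ S, f z ∈ (univ : Finset Bool) ×ˢ (range K ×ˢ range K) := fun z hz => by
      have h1 := (mem_filter.1 (hmem z hz).1).1
      obtain ⟨h2, h3⟩ := mem_product.1 h1
      have h4 := Nat.mul_le_mul_left m (mem_Ioc.1 h2).2
      have h5 := Nat.mul_le_mul_left m (mem_Ioc.1 h3).2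
      refine mem_product.2 ⟨mem_univ _, mem_product.2 ⟨mem_range.2 ?_, mem_range.2 ?_⟩⟩
      · rw [hK]
        refine Nat.lt_succ_of_le (Nat.div_le_div_right ?_)
        show 1 + 210 * m * z.1 ≤ 421 * (m * B)
        nlinarith
      · rw [hK]
        refine Nat.lt_succ_of_le (Nat.div_le_div_right ?_)
        show m * (210 * z.2) ≤ 421 * (m * B)
        nlinarith
    have hinj : Set.InjOn f S := fun z hz z' hz' e => by
      have hz : z ∈ S := hz
      have hz' : z' ∈ S := hz'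
      have e1 := decide_eq_decide.1 (congrArg Prod.fst e)
      have e2 : (1 + 210 * m * z.1) / (h + 1) = (1 + 210 * m * z'.1) / (h + 1) :=
        congrArg (fun w => w.2.1) e
      have e3 : (m * (210 * z.2)) / (h + 1) = (m * (210 * z'.2)) / (h + 1) :=
        congrArg (fun w => w.2.2) e
      have c2 := cell_FLCheb e2
      have c3 := cell_FLCheb e3
      push_cast at c2 c3
      have hd : (q : ℤ) ∣ ((1 + 210 * m * z.1 : ℤ) - (1 + 210 * m * z'.1)) ^ 2 +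
          m * ((210 * z.2 : ℤ) - 210 * z'.2) ^ 2 := by
        rcases hsg z hz with h1 | h1
        · exact key_FLCheb (hdv z0 hz0) hcop (by norm_num) h1 (e1.1 h1)
        · rcases hsg z' hz' with h2 | h2
          · exact key_FLCheb (hdv z0 hz0) hcop (by norm_num) (e1.2 h2) h2
          · exact key_FLCheb (hdv z0 hz0) hcop (by norm_num) h1 h2
      have hm1 : (1 : ℤ) ≤ m := by exact_mod_cast hm
      have hsm' : 2 * (h : ℤ) ^ 2 < q := by exact_mod_cast hsm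
      generalize hu : (1 + 210 * m * z.1 : ℤ) - (1 + 210 * m * z'.1) = u at hd c2
      generalize hv : (210 * z.2 : ℤ) - 210 * z'.2 = v at hd
      have c4 : (m * v) ^ 2 ≤ (h : ℤ) ^ 2 := by
        rw [← hv, mul_sub]; exact c3
      have c5 : (m : ℤ) * v ^ 2 ≤ (m * v) ^ 2 := by
        have h1 : (m : ℤ) * v ^ 2 * 1 ≤ m * v ^ 2 * m :=
          mul_le_mul_of_nonneg_left hm1 (by positivity)
        nlinarith
      have c6 : 0 ≤ (m : ℤ) * v ^ 2 := by positivity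
      have c7 : u ^ 2 + m * v ^ 2 = 0 :=
        Int.eq_zero_of_dvd_of_nonneg_of_lt (by positivity) (by linarith) hd
      have c8 : u ^ 2 = 0 := by nlinarith [sq_nonneg u]
      have c9 : (m : ℤ) * v ^ 2 = 0 := by linarith
      have hu0 : u = 0 := pow_eq_zero_iff two_ne_zero |>.1 c8
      have hv0 : v = 0 := by
        rcases mul_eq_zero.1 c9 with h1 | h1
        · omega
        · exact pow_eq_zero_iff two_ne_zero |>.1 h1
      have g1 : (210 * m : ℤ) * ((z.1 : ℤ) - z'.1) = 0 := by rw [← hu0, ← hu]; ring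
      have g2 : (z.1 : ℤ) - z'.1 = 0 := (mul_eq_zero.1 g1).resolve_left (by omega)
      exact Prod.ext (by omega) (by omega)
    have h1 := card_le_card_of_injOn f hf hinj
    rwa [card_product, card_product, card_range, card_univ, Fintype.card_bool] at h1
  have hfin : S.card * q ≤ 12 * 10 ^ 6 * m ^ 2 * B ^ 2 := by
    calc S.card * q ≤ 2 * (K * K) * (4 * ((h + 1) * (h + 1))) := Nat.mul_le_mul hcard hbg
      _ = 8 * ((K * (h + 1)) * (K * (h + 1))) := by ring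
      _ ≤ 8 * ((1022 * (m * B)) * (1022 * (m * B))) := Nat.mul_le_mul_left _ (Nat.mul_le_mul hKt hKt)
      _ = 8355872 * (m ^ 2 * B ^ 2) := by ring
      _ ≤ 12 * 10 ^ 6 * (m ^ 2 * B ^ 2) := Nat.mul_le_mul_right _ (by norm_num)
      _ = 12 * 10 ^ 6 * m ^ 2 * B ^ 2 := by ring
  rw [le_div_iff₀ (by exact_mod_cast hq0)]
  exact_mod_cast hfin

end Pool.Agent.P.MP_b75a1e_co.EG
end

-- part Pool.Agent.P.MP_b75a1e_co.FLCube
section

set_option autoImplicit false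

open Finset
open scoped BigOperators ComplexConjugate

namespace Pool.Agent.P.MP_b75a1e_co.EG

theorem jac_abs_FLCube (a : ℤ) (q : ℕ) : |(jacobiSym a q : ℝ)| ≤ 1 := by
  rcases jacobiSym.trichotomy a q with h | h | h <;> rw [h] <;> norm_num

theorem jac_cast_FLCube (n d : ℕ) [NeZero n] [NeZero d] (x : ZMod n) :
    jacobiSym (((x.cast : ZMod d).val : ℕ) : ℤ) d = jacobiSym (x.val : ℤ) d := by
  rw [ZMod.cast_eq_val, ZMod.val_natCast]
  apply jacobiSym.mod_left'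
  push_cast
  exact Int.emod_emod_of_dvd _ dvd_rfl

theorem TT_mul_FLCube (r a b : ℕ) [NeZero a] [NeZero b] (h : a.Coprime b) :
    TT r (fun x : ZMod (a * b) => (jacobiSym x.val (a * b) : ℝ)) =
      TT r (fun x : ZMod a => (jacobiSym x.val a : ℝ)) *
        TT r (fun x : ZMod b => (jacobiSym x.val b : ℝ)) := by
  rw [← TT_prod, ← TT_equiv (ZMod.chineseRemainder h).toAddEquiv]
  refine congrArg (TT r) (funext fun x => ?_)
  have h1 : ((ZMod.chineseRemainder h).toAddEquiv x).1 = (x.cast : ZMod a) := by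
    show ((ZMod.cast x : ZMod a × ZMod b)).1 = _
    exact Prod.fst_zmod_cast x
  have h2 : ((ZMod.chineseRemainder h).toAddEquiv x).2 = (x.cast : ZMod b) := by
    show ((ZMod.cast x : ZMod a × ZMod b)).2 = _
    exact Prod.snd_zmod_cast x
  simp only [h1, h2]
  rw [jac_cast_FLCube, jac_cast_FLCube, jacobiSym.mul_right]
  push_cast
  rfl

theorem TT_pr_FLCube (r l : ℕ) [NeZero l] (hp : l.Prime) (hl : l ≠ 2) :
    TT r (fun x : ZMod l => (jacobiSym x.val l : ℝ)) ≤ 2 ^ r * (102 + r) / Real.sqrt l := by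
  have : Fact l.Prime := ⟨hp⟩
  have h := TT_prime l hl r ({0} : Multiset (ZMod l)) ⟨0, by simp⟩
  have e : (fun x : ZMod l => (jacobiSym x.val l : ℝ)) =
      fun x : ZMod l => (quadraticChar (ZMod l)
        (({0} : Multiset (ZMod l)).map fun z => x + z).prod : ℝ) := by
    funext x
    rw [← jacobiSym.legendreSym.to_jacobiSym, legendreSym]
    simp
  rw [e]
  simpa using h

theorem TT_pr'_FLCube (r l c : ℕ) [NeZero l] (hp : l.Prime) (hl : l ≠ 2)
    (hc : c = 2 ^ r * (102 + r)) :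
    TT r (fun x : ZMod l => (jacobiSym x.val l : ℝ)) ≤
      (if l < c ^ 4 then (c : ℝ) else 1) * (l : ℝ) ^ (-1 / 4 : ℝ) := by
  have h := TT_pr_FLCube r l hp hl
  have hc' : (2 : ℝ) ^ r * (102 + r) = c := by rw [hc]; push_cast; ring
  rw [hc'] at h
  have hl1 : (1 : ℝ) ≤ l := by exact_mod_cast hp.one_le
  have hl0 : (0 : ℝ) < l := by linarith
  have hc0 : (0 : ℝ) ≤ c := Nat.cast_nonneg c
  set t : ℝ := (l : ℝ) ^ (-1 / 4 : ℝ) with ht
  have ht0 : 0 < t := Real.rpow_pos_of_pos hl0 _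
  have ht1 : t ≤ 1 := Real.rpow_le_one_of_one_le_of_nonpos hl1 (by norm_num)
  have hs : (c : ℝ) / Real.sqrt l = c * t * t := by
    rw [Real.sqrt_eq_rpow, mul_assoc, ht, ← Real.rpow_add hl0, div_eq_mul_inv,
      ← Real.rpow_neg hl0.le]
    norm_num
  rw [hs] at h
  refine h.trans (mul_le_mul_of_nonneg_right ?_ ht0.le)
  split_ifs with hlt
  · exact mul_le_of_le_one_right hc0 ht1
  · have h4 : (c : ℝ) ^ 4 ≤ l := by exact_mod_cast Nat.le_of_not_lt hlt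
    have ht4 : t ^ 4 * l = 1 := by
      rw [ht, ← Real.rpow_natCast, ← Real.rpow_mul hl0.le]
      norm_num
      rw [Real.rpow_neg_one]
      exact inv_mul_cancel₀ hl0.ne'
    have h5 : (c * t) ^ 4 ≤ 1 := by
      rw [mul_pow, ← ht4, mul_comm]
      exact mul_le_mul_of_nonneg_left h4 (by positivity)
    exact (pow_le_one_iff_of_nonneg (by positivity) (by norm_num)).1 h5

theorem TT_ind_FLCube (r c : ℕ) (hc : c = 2 ^ r * (102 + r)) (q : ℕ) :
    ∀ [NeZero q], Odd q → Squarefree q →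
      TT r (fun x : ZMod q => (jacobiSym x.val q : ℝ)) ≤
        (∏ l ∈ q.primeFactors, if l < c ^ 4 then (c : ℝ) else 1) * (q : ℝ) ^ (-1 / 4 : ℝ) := by
  induction q using Nat.strong_induction_on with
  | _ q ih =>
    intro _ ho hs
    by_cases h1 : q = 1
    · subst h1
      simpa using TT_le_one r _ fun x : ZMod 1 => jac_abs_FLCube (x.val : ℤ) 1
    · obtain ⟨l, hp, b, rfl⟩ := Nat.exists_prime_and_dvd h1
      have hb0 : b ≠ 0 := fun h => NeZero.ne (l * b) (by rw [h, mul_zero])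
      have : NeZero b := ⟨hb0⟩
      have : NeZero l := ⟨hp.ne_zero⟩
      have hcop : l.Coprime b := Nat.coprime_of_squarefree_mul hs
      have hol : Odd l := (Nat.odd_mul.1 ho).1
      have hob : Odd b := (Nat.odd_mul.1 ho).2
      have hl2 : l ≠ 2 := by
        rintro rfl
        exact absurd hol (by decide)
      have hlt : b < l * b := lt_mul_of_one_lt_left (Nat.pos_of_ne_zero hb0) hp.one_lt
      have hb := ih b hlt hob hs.of_mul_right
      have hl := TT_pr'_FLCube r l c hp hl2 hc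
      rw [TT_mul_FLCube r l b hcop, hcop.primeFactors_mul, prod_union hcop.disjoint_primeFactors,
        hp.primeFactors, prod_singleton, Nat.cast_mul,
        Real.mul_rpow (Nat.cast_nonneg l) (Nat.cast_nonneg b)]
      refine (mul_le_mul hl hb (TT_nonneg _ _) ((TT_nonneg _ _).trans hl)).trans (le_of_eq ?_)
      ring

theorem TT_jac (r : ℕ) : ∃ C : ℝ, 1 ≤ C ∧ ∀ (q : ℕ) [NeZero q], Odd q → Squarefree q →
    TT r (fun x : ZMod q => (jacobiSym x.val q : ℝ)) ≤ C * (q : ℝ) ^ (-1 / 4 : ℝ) := by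
  obtain ⟨c, hc⟩ : ∃ c : ℕ, c = 2 ^ r * (102 + r) := ⟨_, rfl⟩
  have hc1 : 1 ≤ c := by
    rw [hc]
    exact Nat.succ_le_of_lt (by positivity)
  have hc1' : (1 : ℝ) ≤ c := by exact_mod_cast hc1
  refine ⟨(c : ℝ) ^ (c ^ 4), one_le_pow₀ hc1', fun q _ ho hs => ?_⟩
  refine (TT_ind_FLCube r c hc q ho hs).trans
    (mul_le_mul_of_nonneg_right ?_ (Real.rpow_nonneg (Nat.cast_nonneg q) _))
  rw [prod_ite, prod_const, prod_const_one, mul_one]
  refine pow_le_pow_right₀ hc1' ?_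
  calc _ ≤ (range (c ^ 4)).card :=
        card_le_card fun l hl => mem_range.2 (mem_filter.1 hl).2
    _ = c ^ 4 := card_range _

end Pool.Agent.P.MP_b75a1e_co.EG
end

-- part Pool.Agent.P.MP_b75a1e_co.FLHyp
section

set_option autoImplicit false

open Finset
open scoped BigOperators ComplexConjugate

namespace Pool.Agent.P.MP_b75a1e_co.EG

theorem swap_FLHyp (χ : ℕ → ℝ) (N : ℕ) :
    ∑ n ∈ Icc 1 N, ∑ d ∈ n.divisors, χ d = ∑ d ∈ Icc 1 N, χ d * ((N / d : ℕ) : ℝ) := by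
  rw [Finset.sum_comm' (t' := Icc 1 N) (s' := fun d => (Ioc 0 N).filter (d ∣ ·))]
  · refine Finset.sum_congr rfl fun d _ => ?_
    rw [Finset.sum_const, Nat.Ioc_filter_dvd_card_eq_div, nsmul_eq_mul, mul_comm]
  · intro n d
    simp only [Finset.mem_Icc, Nat.mem_divisors, Finset.mem_filter, Finset.mem_Ioc]
    constructor
    · rintro ⟨⟨h1, h2⟩, h3, h4⟩
      exact ⟨⟨⟨h1, h2⟩, h3⟩, Nat.pos_of_dvd_of_pos h3 h1, (Nat.le_of_dvd h1 h3).trans h2⟩
    · rintro ⟨⟨⟨h1, h2⟩, h3⟩, _⟩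
      exact ⟨⟨h1, h2⟩, h3, h1.ne'⟩

theorem split_FLHyp (f : ℕ → ℝ) {B N : ℕ} (h : B ≤ N) :
    ∑ d ∈ Icc 1 N, f d = ∑ d ∈ Icc 1 B, f d + ∑ d ∈ Ioc B N, f d := by
  have e : ∀ n : ℕ, Icc 1 n = Ioc 0 n := fun n => by
    ext x
    simp only [Finset.mem_Icc, Finset.mem_Ioc]
    omega
  rw [e, e, Finset.sum_Ioc_consecutive f (Nat.zero_le B) h]

theorem far_FLHyp (χ : ℕ → ℝ) (B : ℕ) :
    ∑ d ∈ Ioc B (B ^ 2), χ d * ((B ^ 2 / d : ℕ) : ℝ) =
      ∑ a ∈ Icc 1 B, ∑ d ∈ Ioc B (B ^ 2 / a), χ d := by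
  rw [Finset.sum_comm' (t' := Ioc B (B ^ 2)) (s' := fun d => Icc 1 (B ^ 2 / d))]
  · refine Finset.sum_congr rfl fun d _ => ?_
    rw [Finset.sum_const, Nat.card_Icc, Nat.add_sub_cancel, nsmul_eq_mul, mul_comm]
  · intro a d
    simp only [Finset.mem_Icc, Finset.mem_Ioc]
    constructor
    · rintro ⟨⟨h1, h2⟩, h3, h4⟩
      have h5 := (Nat.le_div_iff_mul_le h1).1 h4
      refine ⟨⟨h1, (Nat.le_div_iff_mul_le (by omega)).2 (by rwa [mul_comm])⟩, h3, ?_⟩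
      exact h4.trans (Nat.div_le_self _ _)
    · rintro ⟨⟨h1, h2⟩, h3, h4⟩
      have h5 := (Nat.le_div_iff_mul_le (by omega : 0 < d)).1 h2
      refine ⟨⟨h1, ?_⟩, h3, (Nat.le_div_iff_mul_le h1).2 (by rwa [mul_comm])⟩
      by_contra h6
      have h7 : B * B < a * d := Nat.mul_lt_mul'' (not_le.1 h6) h3
      rw [sq] at h5
      omega

theorem hyper (χ : ℕ → ℝ) (hχ : ∀ n, |χ n| ≤ 1) (B : ℕ) (hB : 1 ≤ B) (δ : ℝ) (hδ : 0 ≤ δ)
    (h : ∀ N : ℕ, B ≤ N → |∑ n ∈ Icc 1 N, χ n| ≤ δ * N) :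
    |∑ n ∈ Icc 1 (B ^ 2), ∑ d ∈ n.divisors, χ d - (B : ℝ) ^ 2 * ∑ b ∈ Icc 1 B, χ b / b| ≤
      B + δ * (B : ℝ) ^ 2 * (2 + Real.log B) := by
  have hBB : B ≤ B ^ 2 := Nat.le_self_pow two_ne_zero B
  rw [swap_FLHyp, split_FLHyp _ hBB, far_FLHyp, add_sub_right_comm]
  refine (abs_add_le _ _).trans (add_le_add ?_ ?_)
  · rw [Finset.mul_sum, ← Finset.sum_sub_distrib]
    refine (Finset.abs_sum_le_sum_abs _ _).trans ?_
    refine (Finset.sum_le_sum (g := fun _ => (1 : ℝ)) fun d hd => ?_).trans (by simp)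
    have hd0 : (0 : ℝ) < d := by exact_mod_cast (Finset.mem_Icc.1 hd).1
    have e : χ d * ((B ^ 2 / d : ℕ) : ℝ) - (B : ℝ) ^ 2 * (χ d / d) =
        χ d * (((B ^ 2 / d : ℕ) : ℝ) - (B : ℝ) ^ 2 / d) := by ring
    rw [e, abs_mul]
    refine mul_le_one₀ (hχ d) (abs_nonneg _) ?_
    have h1 : ((B ^ 2 / d : ℕ) : ℝ) ≤ (B : ℝ) ^ 2 / d := by
      have := @Nat.cast_div_le ℝ _ _ _ (B ^ 2) d
      rwa [Nat.cast_pow] at this
    have h2 : (B : ℝ) ^ 2 / d ≤ ((B ^ 2 / d : ℕ) : ℝ) + 1 := by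
      rw [div_le_iff₀ hd0]
      have h3 : B ^ 2 ≤ (B ^ 2 / d + 1) * d := by
        rw [mul_comm]
        exact (Nat.lt_mul_div_succ _ (Finset.mem_Icc.1 hd).1).le
      exact_mod_cast h3
    rw [abs_le]
    constructor <;> linarith
  · refine (Finset.abs_sum_le_sum_abs _ _).trans ?_
    refine (Finset.sum_le_sum (g := fun a : ℕ => δ * (B : ℝ) ^ 2 * (a : ℝ)⁻¹ + δ * B)
      fun a ha => ?_).trans ?_
    · obtain ⟨h1, h2⟩ := Finset.mem_Icc.1 ha
      have h3 : B ≤ B ^ 2 / a := by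
        rw [Nat.le_div_iff_mul_le h1, sq]
        exact Nat.mul_le_mul_left _ h2
      have h4 := split_FLHyp χ h3
      have h5 := h _ h3
      have h6 := h B le_rfl
      have h7 : ((B ^ 2 / a : ℕ) : ℝ) ≤ (B : ℝ) ^ 2 * (a : ℝ)⁻¹ := by
        have := @Nat.cast_div_le ℝ _ _ _ (B ^ 2) a
        rwa [Nat.cast_pow, div_eq_mul_inv] at this
      have h8 := mul_le_mul_of_nonneg_left h7 hδ
      rw [abs_le] at h5 h6 ⊢
      constructor <;> linarith [h5.1, h5.2, h6.1, h6.2]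
    · rw [Finset.sum_add_distrib, ← Finset.mul_sum, Finset.sum_const, Nat.card_Icc,
        Nat.add_sub_cancel, nsmul_eq_mul]
      have h1 := harmonic_le_one_add_log B
      rw [harmonic_eq_sum_Icc] at h1
      push_cast at h1
      have h2 := mul_le_mul_of_nonneg_left h1 (by positivity : 0 ≤ δ * (B : ℝ) ^ 2)
      linarith

theorem jac_char (m : ℕ) [NeZero m] (ho : Odd m) (hsq : Squarefree m) (h1 : 1 < m) :
    ∃ χ : DirichletCharacter ℂ m, χ ≠ 1 ∧ χ ^ 2 = 1 ∧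
      ∀ n : ℕ, χ (n : ZMod m) = (jacobiSym n m : ℂ) := by
  have hv : ∀ n : ℕ, jacobiSym (((n : ZMod m).val : ℕ) : ℤ) m = jacobiSym n m := fun n => by
    rw [ZMod.val_natCast, Int.natCast_mod, ← jacobiSym.mod_left]
  let χ : DirichletCharacter ℂ m :=
    { toFun := fun x => (jacobiSym ((x.val : ℕ) : ℤ) m : ℂ)
      map_one' := by
        have := hv 1
        rw [Nat.cast_one] at this
        simp only [this, Nat.cast_one, jacobiSym.one_left, Int.cast_one]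
      map_mul' := fun x y => by
        have := hv (x.val * y.val)
        rw [Nat.cast_mul, ZMod.natCast_zmod_val, ZMod.natCast_zmod_val] at this
        simp only [this, Nat.cast_mul, jacobiSym.mul_left, Int.cast_mul]
      map_nonunit' := fun x hx => by
        have h2 : ¬ Nat.Coprime x.val m := fun h => hx (by
          have := (ZMod.isUnit_iff_coprime x.val m).2 h
          rwa [ZMod.natCast_zmod_val] at this)
        simp only [Int.cast_eq_zero]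
        exact (jacobiSym.eq_zero_iff_not_coprime).2 (by rwa [Int.gcd_natCast_natCast]) }
  have hχ : ∀ n : ℕ, χ (n : ZMod m) = (jacobiSym n m : ℂ) := fun n =>
    congrArg (fun z : ℤ => (z : ℂ)) (hv n)
  refine ⟨χ, fun h => ?_, ?_, hχ⟩
  · obtain ⟨q, hq, hqm⟩ := Nat.exists_prime_and_dvd h1.ne'
    obtain ⟨a, ha⟩ := egt_neg hsq one_ne_zero ho hq hqm hq.not_dvd_one
    rw [mul_one] at ha
    have h2 := hχ a
    rw [ha, h] at h2
    by_cases h3 : IsUnit (a : ZMod m)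
    · rw [MulChar.one_apply h3] at h2
      norm_num at h2
    · rw [MulChar.map_nonunit _ h3] at h2
      norm_num at h2
  · refine MulChar.IsQuadratic.sq_eq_one fun x => ?_
    rw [← ZMod.natCast_zmod_val x, hχ]
    rcases jacobiSym.trichotomy (x.val : ℕ) m with h | h | h <;> rw [h] <;> simp

end Pool.Agent.P.MP_b75a1e_co.EG
end

-- part Pool.Agent.P.MP_b75a1e_co.FLRank
section

set_option autoImplicit false

open Finset
open scoped BigOperators ComplexConjugate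

namespace Pool.Agent.P.MP_b75a1e_co.EG

theorem small_FLRank (z : ℕ) : ∑ n ∈ Icc 1 z, (n : ℝ) ^ (-(49999 / 50000) : ℝ) ≤
    50000 * (z : ℝ) ^ (1 / 50000 : ℝ) := by
  induction z with
  | zero => simp
  | succ z ih =>
    rw [Finset.sum_Icc_succ_top (by omega)]
    have hz : (0 : ℝ) < (z + 1 : ℕ) := by positivity
    generalize hw : ((z + 1 : ℕ) : ℝ) = w at hz
    have hw1 : 1 ≤ w := by rw [← hw]; exact_mod_cast Nat.succ_pos z
    have hzw : (z : ℝ) = w * (1 + -(1 / w)) := by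
      rw [mul_add, mul_one, mul_neg, mul_one_div_cancel hz.ne', ← hw]; push_cast; ring
    have h1 : (1 : ℝ) / w ≤ 1 := by rw [div_le_one hz]; exact hw1
    have h2 := rpow_one_add_le_one_add_mul_self (s := -(1 / w)) (by linarith)
      (p := (1 / 50000 : ℝ)) (by norm_num) (by norm_num)
    have h3 : (z : ℝ) ^ (1 / 50000 : ℝ) ≤ w ^ (1 / 50000 : ℝ) * (1 + 1 / 50000 * -(1 / w)) := by
      rw [hzw, Real.mul_rpow hz.le (by linarith)]
      exact mul_le_mul_of_nonneg_left h2 (by positivity)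
    have h4 : w ^ (-(49999 / 50000) : ℝ) = w ^ (1 / 50000 : ℝ) * (1 / w) := by
      rw [show (-(49999 / 50000) : ℝ) = 1 / 50000 - 1 by norm_num, Real.rpow_sub_one hz.ne']
      ring
    rw [h4]
    nlinarith

theorem block_FLRank (m p a b : ℕ) (h4 : m % 4 = 3) (hmax : ∀ q, q.Prime → q ∣ m → q ≤ p)
    (ha : 1000 ≤ a) (hp : p ≤ 2 ^ a)
    (h : ∀ κ, a ≤ κ → κ ≤ b → ∀ PP : Finset ℕ,
      (∀ l ∈ PP, Split m l ∧ 2 ^ (990 * κ) < l ∧ l ≤ 2 ^ (1001 * κ)) → PP.card < 2 ^ (998 * κ))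
    (n : ℕ) (h1 : a ≤ n) (h2 : n + 1 ≤ b) :
    ∑ l ∈ (Ioc (2 ^ (1001 * n)) (2 ^ (1001 * (n + 1)))).filter
      (fun l : ℕ => l.Prime ∧ jacobiSym l m ≠ -1), (l : ℝ) ^ (-(49999 / 50000) : ℝ) ≤
      (1 / 2 : ℝ) ^ (n + 1) := by
  have hc := h (n + 1) (by omega) h2 ((Ioc (2 ^ (1001 * n)) (2 ^ (1001 * (n + 1)))).filter
    (fun l : ℕ => l.Prime ∧ jacobiSym l m ≠ -1)) (by
      intro l hl
      rw [mem_filter, mem_Ioc] at hl
      obtain ⟨⟨l1, l2⟩, l3, l4⟩ := hl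
      have e1 : 2 ^ a ≤ 2 ^ (1001 * n) := Nat.pow_le_pow_right (by norm_num) (by omega)
      have e2 : 2 ^ (990 * (n + 1)) ≤ 2 ^ (1001 * n) :=
        Nat.pow_le_pow_right (by norm_num) (by omega)
      have e3 : 2 ^ 1 ≤ 2 ^ a := Nat.pow_le_pow_right (by norm_num) (by omega)
      have e4 : l ≠ 2 := by omega
      obtain ⟨r, hr⟩ := egt_split h4 l3 e4 l4
      refine ⟨⟨l3, fun hd => ?_, r, by exact_mod_cast hr⟩, by omega, l2⟩
      rcases (Nat.Prime.dvd_mul l3).1 hd with hd | hd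
      · exact e4 ((Nat.prime_dvd_prime_iff_eq l3 Nat.prime_two).1 hd)
      · have := hmax l l3 hd
        omega)
  have hb : ∀ l ∈ (Ioc (2 ^ (1001 * n)) (2 ^ (1001 * (n + 1)))).filter
      (fun l : ℕ => l.Prime ∧ jacobiSym l m ≠ -1),
      (l : ℝ) ^ (-(49999 / 50000) : ℝ) ≤ (1 / 2 : ℝ) ^ (1000 * n) := by
    intro l hl
    rw [mem_filter, mem_Ioc] at hl
    have e1 : (2 : ℝ) ^ (1001 * n) ≤ l := by exact_mod_cast hl.1.1.le
    calc (l : ℝ) ^ (-(49999 / 50000) : ℝ) ≤ ((2 : ℝ) ^ (1001 * n)) ^ (-(49999 / 50000) : ℝ) :=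
          Real.rpow_le_rpow_of_nonpos (by positivity) e1 (by norm_num)
      _ = (2 : ℝ) ^ (((1001 * n : ℕ) : ℝ) * (-(49999 / 50000) : ℝ)) := by
          rw [Real.rpow_mul (by norm_num), Real.rpow_natCast]
      _ ≤ (2 : ℝ) ^ (-((1000 * n : ℕ) : ℝ)) := by
          apply Real.rpow_le_rpow_of_exponent_le (by norm_num)
          have : (0 : ℝ) ≤ n := Nat.cast_nonneg n
          push_cast
          linarith
      _ = (1 / 2 : ℝ) ^ (1000 * n) := by
          rw [Real.rpow_neg (by norm_num), Real.rpow_natCast, one_div, inv_pow]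
  refine (sum_le_card_nsmul _ _ _ hb).trans ?_
  rw [nsmul_eq_mul]
  have hc' : (((Ioc (2 ^ (1001 * n)) (2 ^ (1001 * (n + 1)))).filter
      (fun l : ℕ => l.Prime ∧ jacobiSym l m ≠ -1)).card : ℝ) ≤ (2 : ℝ) ^ (998 * (n + 1)) := by
    exact_mod_cast hc.le
  refine (mul_le_mul_of_nonneg_right hc' (by positivity)).trans ?_
  obtain ⟨t, ht⟩ : ∃ t, 1000 * n = 998 * (n + 1) + (n + 1) + t := ⟨n - 999, by omega⟩
  rw [ht]
  generalize 998 * (n + 1) = u
  have e5 : (2 : ℝ) ^ u * (1 / 2) ^ u = 1 := by rw [← mul_pow]; norm_num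
  have e6 : (1 / 2 : ℝ) ^ t ≤ 1 := pow_le_one₀ (by norm_num) (by norm_num)
  rw [pow_add, pow_add _ u, ← mul_assoc, ← mul_assoc, e5, one_mul]
  exact mul_le_of_le_one_right (by positivity) e6

theorem few_sum (m p a b : ℕ) (h4 : m % 4 = 3) (hmax : ∀ q, q.Prime → q ∣ m → q ≤ p)
    (ha : 1000 ≤ a) (hp : p ≤ 2 ^ a)
    (h : ∀ κ, a ≤ κ → κ ≤ b → ∀ PP : Finset ℕ,
      (∀ l ∈ PP, Split m l ∧ 2 ^ (990 * κ) < l ∧ l ≤ 2 ^ (1001 * κ)) → PP.card < 2 ^ (998 * κ)) :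
    ∑ l ∈ (Icc 1 (2 ^ (1000 * b))).filter (fun l : ℕ => l.Prime ∧ jacobiSym l m ≠ -1),
      (l : ℝ) ^ (-(49999 / 50000) : ℝ) ≤ 50000 * (2 : ℝ) ^ ((1001 / 50000 : ℝ) * a) + 1 := by
  have base : ∑ l ∈ (Icc 1 (2 ^ (1001 * a))).filter (fun l : ℕ => l.Prime ∧ jacobiSym l m ≠ -1),
      (l : ℝ) ^ (-(49999 / 50000) : ℝ) ≤ 50000 * (2 : ℝ) ^ ((1001 / 50000 : ℝ) * a) := by
    refine (sum_le_sum_of_subset_of_nonneg (filter_subset _ _) fun _ _ _ => by positivity).trans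
      ((small_FLRank _).trans (le_of_eq ?_))
    rw [Nat.cast_pow, Nat.cast_ofNat, ← Real.rpow_natCast, ← Real.rpow_mul (by norm_num)]
    congr 2
    push_cast
    ring
  have key : ∀ n, a ≤ n → n ≤ max a b →
      ∑ l ∈ (Icc 1 (2 ^ (1001 * n))).filter (fun l : ℕ => l.Prime ∧ jacobiSym l m ≠ -1),
        (l : ℝ) ^ (-(49999 / 50000) : ℝ) ≤
        50000 * (2 : ℝ) ^ ((1001 / 50000 : ℝ) * a) + 1 - (1 / 2 : ℝ) ^ n := by
    intro n hn
    induction n, hn using Nat.le_induction with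
    | base =>
      intro _
      have : (1 / 2 : ℝ) ^ a ≤ 1 := pow_le_one₀ (by norm_num) (by norm_num)
      linarith
    | succ n hn ih =>
      intro h2
      have e1 := ih (by omega)
      have e2 := block_FLRank m p a b h4 hmax ha hp h n hn (by omega)
      have e3 : 2 ^ (1001 * n) ≤ 2 ^ (1001 * (n + 1)) :=
        Nat.pow_le_pow_right (by norm_num) (by omega)
      have e4 : Icc 1 (2 ^ (1001 * (n + 1))) =
          Icc 1 (2 ^ (1001 * n)) ∪ Ioc (2 ^ (1001 * n)) (2 ^ (1001 * (n + 1))) := by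
        have e5 : 1 ≤ 2 ^ (1001 * n) := Nat.one_le_two_pow
        ext l
        rw [mem_union, mem_Icc, mem_Icc, mem_Ioc]
        omega
      rw [e4, filter_union, sum_union]
      · have e6 : (1 / 2 : ℝ) ^ n = 2 * (1 / 2 : ℝ) ^ (n + 1) := by rw [pow_succ]; ring
        linarith
      · refine disjoint_filter_filter ?_
        rw [disjoint_left]
        intro l l1 l2
        rw [mem_Icc] at l1
        rw [mem_Ioc] at l2
        omega
  have e1 := key (max a b) (le_max_left _ _) le_rfl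
  have e2 : (0 : ℝ) ≤ (1 / 2 : ℝ) ^ max a b := by positivity
  refine (sum_le_sum_of_subset_of_nonneg (filter_subset_filter _ (Icc_subset_Icc_right
    (Nat.pow_le_pow_right (by norm_num) ?_))) fun _ _ _ => by positivity).trans
    (e1.trans (by linarith))
  have := le_max_right a b
  omega

end Pool.Agent.P.MP_b75a1e_co.EG
end

-- part Pool.Agent.P.MP_b75a1e_co.EGRMid
section

set_option autoImplicit false

open Finset
open scoped BigOperators ComplexConjugate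

namespace Pool.Agent.P.MP_b75a1e_co.EG

lemma block_eq_EGRMid {m r : ℕ} (z : Fin 3 → Fin r → O m) :
    blockB z = ∏ j : Fin 3 × Fin r, star (z j.1 j.2) := by
  rw [Fintype.prod_prod_type, Fin.prod_univ_three]
  rfl

lemma midC_eq_EGRMid {m r : ℕ} (Z : (Fin 100 × Fin 300) × Fin 3 × Fin r → O m) :
    midC (fun b a i => Z (b, a, i)) = ∏ j, star (Z j) := by
  rw [Fintype.prod_prod_type]
  exact prod_congr rfl fun b _ => block_eq_EGRMid _

lemma mz_add_EGRMid (m M A t : ℕ) : mz m M (A + t) = mz m M A + (t : O m) * (M : O m) := by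
  ext <;> simp [mz]
  ring

lemma mz_prim_EGRMid {m M Y : ℕ} (hM : Smo Y M) (t : ℕ) : Prim Y (mz m M t) := by
  intro l hl hY h
  have h2 : (l : ℤ) ∣ (M : ℤ) := ((nat_dvd_iff l _).1 h).2
  exact absurd (hM l hl (Int.natCast_dvd_natCast.1 h2)) (not_le.2 hY)

lemma mz_one_EGRMid {m M n : ℕ} (h : n ∣ M) (t : ℕ) : (n : O m) ∣ star (mz m M t) - 1 := by
  have h' : (n : ℤ) ∣ (M : ℤ) := Int.natCast_dvd_natCast.2 h
  refine (nat_dvd_iff n _).2 ⟨?_, ?_⟩
  · simpa [mz] using h'.mul_right _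
  · simpa [mz] using h'

lemma exps_EGRMid {p : ℕ} (hp : 10 ^ 20 ≤ p) :
    9 + 2 * p ^ 15 + 2 * p ≤ p ^ 16 ∧ 2 * p ^ 16 + 5 ≤ p ^ 18 ∧ 34 * p ≤ p ^ 7 ∧
      8 * p ^ 5 ≤ p ^ 6 ∧ p ^ 5 ≤ p ^ 7 ∧ 3 * p ^ 18 * (90000 * p ^ 6) ≤ p ^ 25 ∧
      7 * p + 2 + p ^ 17 ≤ p ^ 18 ∧ p ≤ p ^ 16 := by
  have h1 : 1 ≤ p := by omega
  have a : ∀ i j : ℕ, i ≤ j → p ^ i ≤ p ^ j := fun i j h => Nat.pow_le_pow_right h1 h
  have b : ∀ i : ℕ, 10 ^ 20 * p ^ i ≤ p ^ (i + 1) := fun i => by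
    rw [pow_succ p i, mul_comm (p ^ i)]
    exact Nat.mul_le_mul_right _ hp
  have e1 : p ^ 1 = p := pow_one p
  have e2 : 3 * p ^ 18 * (90000 * p ^ 6) = 270000 * p ^ 24 := by ring
  have := a 1 15 (by norm_num)
  have := a 1 6 (by norm_num)
  have := a 1 17 (by norm_num)
  have := a 16 17 (by norm_num)
  have := a 5 7 (by norm_num)
  have := a 15 16 (by norm_num)
  have := b 15
  have := b 17
  have := b 6
  have := b 5
  have := b 24
  norm_num at *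
  omega

lemma M2_le_EGRMid {m p : ℕ} (hmp : m ≤ 4 ^ p) (hp : 10 ^ 20 ≤ p) : M2 m (p ^ 15) ≤ 2 ^ p ^ 16 := by
  have h4 : ∀ n : ℕ, 4 ^ n = 2 ^ (2 * n) := fun n => by rw [pow_mul]; rfl
  calc M2 m (p ^ 15) ≤ 432 * 4 ^ p ^ 15 * m := M2_le _ _
    _ ≤ 2 ^ 9 * 4 ^ p ^ 15 * 4 ^ p := by gcongr; norm_num
    _ = 2 ^ (9 + 2 * p ^ 15 + 2 * p) := by rw [h4, h4, pow_add, pow_add]
    _ ≤ 2 ^ p ^ 16 := Nat.pow_le_pow_right (by norm_num) (exps_EGRMid hp).1

lemma mz_norm_EGRMid {m M A t a b : ℕ} (hM1 : 1 ≤ M) (hM : M ≤ 2 ^ a) (hm : m ≤ 2 ^ (2 * b))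
    (hA : A = 2 ^ b) (ht : t ≤ A) :
    (mz m M (A + t)).norm ≠ 0 ∧ |(mz m M (A + t)).norm| ≤ 2 ^ (2 * a + 5 + 2 * b) := by
  have e : (mz m M (A + t)).norm = (((1 + M * (A + t)) ^ 2 + m * M ^ 2 : ℕ) : ℤ) := by
    rw [norm_eq]
    simp [mz]
  have h1 : 1 ≤ A := hA ▸ Nat.one_le_two_pow
  have h2 : 1 + M * (A + t) ≤ 3 * (M * A) := by nlinarith
  have h3 : m * M ^ 2 ≤ (M * A) ^ 2 := by
    rw [mul_pow, hA, ← pow_mul, mul_comm b 2, mul_comm]
    exact Nat.mul_le_mul_left _ hm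
  have h4 : M * A ≤ 2 ^ (a + b) := by
    rw [pow_add, hA]
    exact Nat.mul_le_mul_right _ hM
  have h5 : (1 + M * (A + t)) ^ 2 + m * M ^ 2 ≤ 2 ^ (2 * a + 5 + 2 * b) :=
    calc (1 + M * (A + t)) ^ 2 + m * M ^ 2 ≤ (3 * (M * A)) ^ 2 + (M * A) ^ 2 := by gcongr
      _ = 10 * (M * A) ^ 2 := by ring
      _ ≤ 2 ^ 5 * (2 ^ (a + b)) ^ 2 := by gcongr; norm_num
      _ = 2 ^ (2 * a + 5 + 2 * b) := by ring
  rw [e, Nat.abs_cast]
  exact ⟨Nat.cast_ne_zero.2 (by positivity), by exact_mod_cast h5⟩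

lemma mz_close_EGRMid {m M A t c : ℕ} {K : ℝ} (hm : m ≤ c ^ 2) (hK : 0 < K)
    (hA : 2 * c * K ≤ A) :
    ‖ph m (mz m M (A + t) - star (mz m M (A + t)))‖ ≤ 1 / K * ‖ph m (mz m M (A + t))‖ := by
  have h1 : ‖ph m (mz m M (A + t) - star (mz m M (A + t)))‖ ≤ 2 * c * M := by
    refine (sq_le_sq₀ (norm_nonneg _) (by positivity)).1 ?_
    rw [norm_sq_ph, norm_eq]
    have hm' : (m : ℝ) ≤ (c : ℝ) ^ 2 := by exact_mod_cast hm
    have := mul_le_mul_of_nonneg_right hm' (sq_nonneg (2 * (M : ℝ)))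
    simp [mz]
    nlinarith
  have h2 : (M : ℝ) * A ≤ ‖ph m (mz m M (A + t))‖ := by
    refine le_trans (le_trans ?_ (le_abs_self _)) (abs_re_le _)
    have : (0 : ℝ) ≤ M * t := by positivity
    simp only [mz]
    push_cast
    linarith
  rw [one_div, ← div_eq_inv_mul, le_div_iff₀ hK]
  have h3 := mul_le_mul_of_nonneg_right h1 hK.le
  have h4 := mul_le_mul_of_nonneg_left hA (Nat.cast_nonneg (α := ℝ) M)
  linarith

open Classical in
/-- The choice of the middle coordinates. -/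
theorem random_mid (m p : ℕ) (hm : 1 ≤ m) (hmax : ∀ q, q.Prime → q ∣ m → q ≤ p) (hmp : m ≤ 4 ^ p)
    (hp : 10 ^ 20 ≤ p) (H : ℝ) (hH : H ≤ 2 ^ p ^ 5) (Γ : O m) (h1 : Prim (p ^ 15) Γ)
    (h2 : Pure (p ^ 15) Γ.norm) (h3 : wt (p ^ 15) (2 ^ p ^ 7) Γ.norm ≤ 1 / (p : ℝ) ^ 12) :
    ∃ z : Fin 100 × Fin 300 → Fin 3 → Fin (p ^ 6) → O m,
      Prim (p ^ 15) (Γ * midC z) ∧ Pure (p ^ 15) (Γ * midC z).norm ∧
      wt (p ^ 15) (2 ^ p ^ 7) (Γ * midC z).norm ≤ 10 ^ 8 / (p : ℝ) ^ 9 ∧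
      (M1 m (p ^ 15) : O m) ∣ midC z - 1 ∧ (midC z).norm ≤ 2 ^ p ^ 25 ∧
      (∀ b a i, (QQ m (p ^ 15) : O m) * mu m ∣ z b a i - star (z b a i) ∧
        ‖ph m (z b a i - star (z b a i))‖ ≤ 1 / (2 * (p : ℝ) ^ 6 * 2 ^ p ^ 17) * ‖ph m (z b a i)‖) ∧
      (∀ b b', b ≠ b' → Cop (p ^ 15) (blockB (z b)).norm (blockB (z b')).norm) ∧
      ∑ d ∈ (Icc 2 ⌊H⌋₊).filter (Rough (p ^ 15)), (d : ℝ) ^ 2 * WW z d ≤ 1 / 100 := by
  obtain ⟨-, x2, x3, x4, x5, x6, x7, x8⟩ := exps_EGRMid hp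
  have hp1 : 1 ≤ p := by omega
  have hpY : p ≤ p ^ 15 := Nat.le_self_pow (by norm_num) p
  have hY : 10 ^ 200 ≤ p ^ 15 :=
    le_trans (by norm_num) (Nat.pow_le_pow_left hp 15)
  have hsm : Smo (p ^ 15) m := fun l hl h => (hmax l hl h).trans hpY
  have hsM : Smo (p ^ 15) (M2 m (p ^ 15)) := smo_M2 (by omega) hsm
  have hM := M2_le_EGRMid hmp hp
  have hM1 := M2_pos hm (p ^ 15)
  have hdv : M1 m (p ^ 15) ∣ M2 m (p ^ 15) := M2_eq m _ ▸ Dvd.intro_left _ rfl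
  have hQ := QQ_mul m (p ^ 15)
  generalize M2 m (p ^ 15) = M at hsM hM hM1 hdv hQ
  have two : ∀ {a b : ℕ}, a ≤ b → 2 ^ a ≤ 2 ^ b := fun h => Nat.pow_le_pow_right (by norm_num) h
  have hp2 : p ≤ 2 ^ p := Nat.lt_two_pow_self.le
  have hm4 : m ≤ 2 ^ (2 * p) := by rwa [pow_mul]
  have hP : (10 : ℝ) ^ 20 ≤ p := by exact_mod_cast hp
  have hP0 : (0 : ℝ) < p := lt_of_lt_of_le (by norm_num) hP
  have hP3 : (10 : ℝ) ^ 20 ≤ (p : ℝ) ^ 3 := hP.trans (le_self_pow₀ (by linarith) (by norm_num))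
  have hP6 : (10 : ℝ) ^ 20 ≤ (p : ℝ) ^ 6 := hP.trans (le_self_pow₀ (by linarith) (by norm_num))
  have hP15 : (10 : ℝ) ^ 20 ≤ (p : ℝ) ^ 15 := hP.trans (le_self_pow₀ (by linarith) (by norm_num))
  have hc : (Fintype.card ((Fin 100 × Fin 300) × Fin 3 × Fin (p ^ 6)) : ℝ) = 90000 * (p : ℝ) ^ 6 := by
    simp only [Fintype.card_prod, Fintype.card_fin]
    push_cast
    ring
  have hf : ∀ t < 2 ^ p ^ 7, (mz m M (2 ^ p ^ 18 + t)).norm ≠ 0 ∧
      |(mz m M (2 ^ p ^ 18 + t)).norm| ≤ 2 ^ (3 * p ^ 18) := by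
    intro t ht
    obtain ⟨a1, a2⟩ := mz_norm_EGRMid (m := m) (b := p ^ 18) (t := t) hM1 hM
      (hm4.trans (two (by omega))) rfl
      (ht.le.trans (two (Nat.pow_le_pow_right hp1 (by norm_num))))
    exact ⟨a1, a2.trans (pow_le_pow_right₀ (by norm_num) (by omega))⟩
  have hE := mid_exp m (p ^ 15) M (2 ^ p ^ 18) (2 ^ p ^ 7) (p ^ 6) H hY
    (fun l hl h => by
      rcases (Nat.Prime.dvd_mul hl).1 h with h | h
      · rcases (Nat.Prime.dvd_mul hl).1 h with h | h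
        · exact (Nat.le_of_dvd two_pos h).trans (by omega)
        · exact hsm l hl h
      · exact hsM l hl h) Nat.one_le_two_pow
    (by
      push_cast
      exact hH.trans (pow_le_pow_right₀ (by norm_num) x5))
    (calc H ^ 3 ≤ (2 ^ p ^ 5) ^ 3 := (by decide : Odd 3).pow_le_pow.2 hH
      _ = (2 ^ 3) ^ p ^ 5 := by rw [← pow_mul, ← pow_mul, mul_comm]
      _ ≤ ((4 / 3 : ℝ) ^ 8) ^ p ^ 5 := pow_le_pow_left₀ (by norm_num) (by norm_num) _
      _ ≤ (4 / 3 : ℝ) ^ p ^ 6 := by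
        rw [← pow_mul]
        exact pow_le_pow_right₀ (by norm_num) x4)
  obtain ⟨t, t1, t2, t3, t4⟩ := stage (I := (Fin 100 × Fin 300) × Fin 3 × Fin (p ^ 6)) (p ^ 15)
    (2 ^ p ^ 7) (3 * p ^ 18) (fun _ t => (mz m M (2 ^ p ^ 18 + t)).norm) Γ.norm (1 / (p : ℝ) ^ 12)
    (fun t => 100 * ∑ d ∈ (Icc 2 ⌊H⌋₊).filter (Rough (p ^ 15)),
      (d : ℝ) ^ 2 * WW (fun b a i => mz m M (2 ^ p ^ 18 + t (b, a, i))) d)
    (by omega) Nat.one_le_two_pow
    (calc p ^ 15 * (3 * p ^ 18) = 3 * p ^ 33 := by ring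
      _ ≤ p * p ^ 33 := Nat.mul_le_mul_right _ (by omega)
      _ = p ^ 34 := by ring
      _ ≤ (2 ^ p) ^ 34 := Nat.pow_le_pow_left hp2 _
      _ = 2 ^ (34 * p) := by rw [← pow_mul, mul_comm]
      _ ≤ 2 ^ p ^ 7 := two x3)
    (fun _ => hf)
    (fun _ => by
      simp only [mz_add_EGRMid]
      refine roots_norm _ _ _ _ fun l hl hl' h => ?_
      rw [Zsqrtd.norm_natCast] at h
      have h' : l ∣ M * M := by exact_mod_cast h
      exact absurd (hsM l hl (((Nat.Prime.dvd_mul hl).1 h').elim id id)) (not_le.2 hl'))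
    (fun h => h2 2 Nat.prime_two (by omega) (h ▸ dvd_zero _)) h3
    (by
      rw [hc]
      push_cast
      have e1 : 2 * (90000 * (p : ℝ) ^ 6) * (1 / (p : ℝ) ^ 12) = 180000 / (p : ℝ) ^ 6 := by
        field_simp
        ring
      have e2 : 20 * (90000 * (p : ℝ) ^ 6) ^ 2 / (p : ℝ) ^ 15 = 162000000000 / (p : ℝ) ^ 3 := by
        field_simp
        ring
      have a1 : 180000 / (p : ℝ) ^ 6 ≤ 1 / 4 := by
        rw [div_le_iff₀ (by positivity)]
        linarith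
      have a2 : 162000000000 / (p : ℝ) ^ 3 ≤ 1 / 4 := by
        rw [div_le_iff₀ (by positivity)]
        linarith
      rw [e1, e2]
      linarith)
    (fun t => mul_nonneg (by norm_num)
      (sum_nonneg fun d _ => mul_nonneg (sq_nonneg _) (WW_nonneg _ _)))
    (by
      rw [← mul_expect]
      have a1 : 2 / ((p ^ 15 : ℕ) : ℝ) ≤ 1 / 400 := by
        push_cast
        rw [div_le_iff₀ (by positivity)]
        linarith
      linarith)
  generalize hZ : (fun j => mz m M (2 ^ p ^ 18 + t j)) = Z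
  have hZ' : ∀ j, mz m M (2 ^ p ^ 18 + t j) = Z j := fun j => congrFun hZ j
  have hn : (midC fun b a i => Z (b, a, i)).norm = ∏ j, (Z j).norm := by
    rw [midC_eq_EGRMid, norm_prod']
    simp only [Zsqrtd.norm_conj]
  have hone : (M1 m (p ^ 15) : O m) ∣ midC (fun b a i => Z (b, a, i)) - 1 := by
    rw [midC_eq_EGRMid]
    refine prod_induction _ (fun x => (M1 m (p ^ 15) : O m) ∣ x - 1) (fun x y hx hy => ?_)
      (by simp) fun j _ => hZ' j ▸ mz_one_EGRMid hdv _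
    have e : x * y - 1 = (x - 1) * y + (y - 1) := by ring
    rw [e]
    exact (hx.mul_right y).add hy
  simp only [hZ'] at t1 t2 t3 t4
  refine ⟨fun b a i => Z (b, a, i), Prim.mul h1 ?_ ?_, ?_, ?_, hone, ?_, fun b a i => ⟨?_, ?_⟩,
    fun b b' hb => ?_, by linarith⟩
  · rw [midC_eq_EGRMid]
    refine Prim.prod _ _ (fun j _ => Prim.conj (hZ' j ▸ mz_prim_EGRMid hsM _)) fun i _ k _ h => ?_
    simpa only [Zsqrtd.norm_conj] using t3 i k h
  · rw [hn]
    exact (Cop.prod_left _ _ _ fun j _ => (t2 j).symm).symm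
  · rw [Zsqrtd.norm_mul]
    exact h2.mul (pure_of_one hone)
  · rw [Zsqrtd.norm_mul, hn]
    have a1 := wt_mul (p ^ 15) (2 ^ p ^ 7) Γ.norm (∏ j, (Z j).norm)
    have a2 := wt_prod (p ^ 15) (2 ^ p ^ 7) univ fun j => (Z j).norm
    rw [hc] at t4
    push_cast at t4
    have e1 : 100 * (90000 * (p : ℝ) ^ 6) / (p : ℝ) ^ 15 = 9000000 / (p : ℝ) ^ 9 := by
      field_simp
      ring
    have a3 : 1 / (p : ℝ) ^ 12 ≤ 1 / (p : ℝ) ^ 9 :=
      one_div_le_one_div_of_le (by positivity) (pow_le_pow_right₀ (by linarith) (by norm_num))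
    have a4 : 0 ≤ 1 / (p : ℝ) ^ 9 := by positivity
    have e2 : 9000000 / (p : ℝ) ^ 9 = 9000000 * (1 / (p : ℝ) ^ 9) := by ring
    have e3 : 10 ^ 8 / (p : ℝ) ^ 9 = 100000000 * (1 / (p : ℝ) ^ 9) := by ring
    rw [e1, e2] at t4
    rw [e3]
    linarith
  · rw [hn]
    calc ∏ j, (Z j).norm
        ≤ ∏ _j : (Fin 100 × Fin 300) × Fin 3 × Fin (p ^ 6), (2 : ℤ) ^ (3 * p ^ 18) :=
          prod_le_prod (fun j _ => norm_nonneg' _) fun j _ =>
            hZ' j ▸ (le_abs_self _).trans (hf _ (t j).2).2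
      _ = 2 ^ (3 * p ^ 18 * (90000 * p ^ 6)) := by
          rw [prod_const, card_univ, ← pow_mul]
          simp only [Fintype.card_prod, Fintype.card_fin]
          rw [show 100 * 300 * (3 * p ^ 6) = 90000 * p ^ 6 by ring]
      _ ≤ 2 ^ p ^ 25 := pow_le_pow_right₀ (by norm_num) x6
  · have hQ' : (QQ m (p ^ 15) : ℤ) * m = 2 * M := by exact_mod_cast hQ
    refine Dvd.intro 1 ?_
    beta_reduce
    rw [← hZ']
    ext <;> simp [mz, mu]
    linarith
  · beta_reduce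
    rw [← hZ']
    refine mz_close_EGRMid (c := 2 ^ p) (by rwa [← pow_mul, mul_comm]) (by positivity) ?_
    have a1 : 2 * 2 ^ p * (2 * p ^ 6 * 2 ^ p ^ 17) ≤ 2 ^ p ^ 18 :=
      calc 2 * 2 ^ p * (2 * p ^ 6 * 2 ^ p ^ 17) ≤ 2 * 2 ^ p * (2 * (2 ^ p) ^ 6 * 2 ^ p ^ 17) := by
            gcongr
        _ = 2 ^ (7 * p + 2 + p ^ 17) := by ring
        _ ≤ 2 ^ p ^ 18 := two x7
    exact_mod_cast a1
  · simp only [block_eq_EGRMid, norm_prod', Zsqrtd.norm_conj]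
    exact Cop.prod_left _ _ _ fun j _ => (Cop.prod_left _ _ _ fun j' _ =>
      t3 (b', j') (b, j) fun e => hb (congrArg Prod.fst e).symm).symm

end Pool.Agent.P.MP_b75a1e_co.EG
end

-- part Pool.Agent.P.MP_b75a1e_co.FLAdm
section

set_option autoImplicit false

open Finset
open scoped BigOperators ComplexConjugate

namespace Pool.Agent.P.MP_b75a1e_co.EG

section

variable {m : ℕ}

theorem cast_norm_FLAdm (g : O m) : ((g.norm.natAbs : ℕ) : ℤ) = g.norm :=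
  Int.natAbs_of_nonneg (norm_nonneg' g)

theorem mul_star_FLAdm (g : O m) : g * star g = ((g.norm.natAbs : ℕ) : O m) := by
  rw [← Zsqrtd.norm_eq_mul_conj, ← Int.cast_natCast g.norm.natAbs, cast_norm_FLAdm]

theorem mul_conj_FLAdm (g : O m) : ph m g * conj (ph m g) = ((g.norm.natAbs : ℕ) : ℂ) := by
  rw [← ph_star, ← map_mul, mul_star_FLAdm, map_natCast]

theorem rep_rot_FLAdm (hm : 1 ≤ m) {N : ℝ} {k : ℕ} {y : ℂ} (h : Rep m N k y) {g : O m}
    (hg : g ≠ 0) : Rep m N k (rot g * y) := by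
  obtain ⟨L, rfl, a, rfl⟩ := h
  have h1 : conj (ph m g) ≠ 0 := (map_ne_zero _).2 (ph_ne_zero hm hg)
  have h2 := mul_conj_FLAdm g
  have h3 : g.norm.natAbs ≠ 0 := by
    have := norm_pos' hm hg
    omega
  refine ⟨L.map fun x => rot g * x, Multiset.card_map _ _, fun x hx => ?_, ?_⟩
  · obtain ⟨u, hu, rfl⟩ := Multiset.mem_map.1 hx
    obtain ⟨⟨x, n, hn, rfl⟩, h4⟩ := a u hu
    refine ⟨⟨g * g * x, g.norm.natAbs * n, mul_ne_zero h3 hn, ?_⟩, ?_⟩
    · have h5 : (n : ℂ) ≠ 0 := Nat.cast_ne_zero.2 hn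
      have h6 := ph_ne_zero hm hg
      rw [rot, Nat.cast_mul, ← h2, map_mul, map_mul]
      field_simp
    · rw [norm_mul, norm_rot hm hg, one_mul, h4]
  · rw [Multiset.sum_map_mul_left, Multiset.map_id']

theorem res_FLAdm {e u : O m} {s : ℕ} (h : SumRes e s u) :
    SumOf e.norm s u ∧ mu m ∣ u - (s : O m) * e := by
  obtain ⟨L, rfl, a, rfl⟩ := h
  refine ⟨⟨L, rfl, fun x hx => (a x hx).1, rfl⟩, mu_dvd_sq.trans ?_⟩
  induction L using Multiset.induction_on with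
  | empty => simp
  | cons x L ih =>
    have h1 := (a x (Multiset.mem_cons_self x L)).2
    have h2 := ih fun z hz => a z (Multiset.mem_cons_of_mem hz)
    have h3 : (x ::ₘ L).sum - ((Multiset.card (x ::ₘ L) : ℕ) : O m) * e =
        (x - e) + (L.sum - ((Multiset.card L : ℕ) : O m) * e) := by
      rw [Multiset.sum_cons, Multiset.card_cons]
      push_cast
      ring
    rw [h3]
    exact dvd_add h1 h2

theorem mu_star_FLAdm {x : O m} (h : (m : ℤ) ∣ x.im) : mu m ∣ x - star x := by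
  rw [mu_dvd_iff]
  refine ⟨by simp, ?_⟩
  rw [Zsqrtd.im_sub, Zsqrtd.im_star]
  exact dvd_sub h (dvd_neg.2 h)

theorem ne_FLAdm {Δ : ℕ} {α δ : O m} (h : Good m Δ α δ) : α * δ ≠ 0 := by
  intro h0
  have := h.sq
  rw [h0] at this
  simp at this

theorem point_FLAdm (hm : 1 ≤ m) {Δ s : ℕ} {α δ e u u' W : O m} (h : Good m Δ α δ)
    (hu : SumRes e s u) (hu' : SumRes e s u') (hW : Yb e s δ u u' = star (α * δ) * W) :
    Rep m e.norm (6 * s) (ph m (α * W)) ∧ mu m ∣ α * W - ((6 * s : ℕ) : O m) * e := by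
  have h0 := ne_FLAdm h
  have hα : α ≠ 0 := left_ne_zero_of_mul h0
  have hδ : δ ≠ 0 := right_ne_zero_of_mul h0
  obtain ⟨r1, c1⟩ := res_FLAdm hu
  obtain ⟨r2, c2⟩ := res_FLAdm hu'
  constructor
  · have h1 := (rep_rot_FLAdm hm (r1.add r2).rep h0).add
      (rep_rot_FLAdm hm (SumOf.smul (y := e) rfl (4 * s)).rep hα)
    have h2 : s + s + 4 * s = 6 * s := by ring
    have h3 : rot (α * δ) * ph m (u + u') + rot α * ph m (((4 * s : ℕ) : O m) * e) =
        ph m (α * W) := by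
      have h4 := congrArg (ph m) hW
      have h5 : conj (ph m α) ≠ 0 := (map_ne_zero _).2 (ph_ne_zero hm hα)
      have h6 : conj (ph m δ) ≠ 0 := (map_ne_zero _).2 (ph_ne_zero hm hδ)
      simp only [Yb, map_add, map_mul, ph_star] at h4
      simp only [rot, map_add, map_mul]
      field_simp
      linear_combination ph m α * h4
    rwa [h2, h3] at h1
  · have c3 := mu_star_FLAdm h.ima
    have c4 := mu_star_FLAdm h.imd
    have h1 : star (α * δ) * (α * W - ((6 * s : ℕ) : O m) * e) =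
        α * δ * (u - s * e) + α * δ * (u' - s * e) + 2 * s * e * α * (δ - star δ) +
          6 * s * e * star δ * (α - star α) := by
      have h2 : star (α * δ) * (α * W) = α * Yb e s δ u u' := by rw [hW]; ring
      rw [mul_sub, h2, Yb, star_mul]
      push_cast
      ring
    have h3 : mu m ∣ star (α * δ) * (α * W - ((6 * s : ℕ) : O m) * e) := by
      rw [h1]
      exact dvd_add (dvd_add (dvd_add (c1.mul_left _) (c2.mul_left _)) (c4.mul_left _))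
        (c3.mul_left _)
    have h4 := h3.mul_left (α * δ)
    rw [← mul_assoc, mul_star_FLAdm] at h4
    have h5 : Nat.Coprime (m ^ 2) (α * δ).norm.natAbs :=
      Nat.Coprime.pow_left 2 (Nat.Coprime.coprime_mul_left_right h.cop).symm
    have h6 : IsCoprime ((m : O m) ^ 2) (((α * δ).norm.natAbs : ℕ) : O m) := by
      have := Nat.Coprime.cast (R := O m) h5
      rwa [Nat.cast_pow] at this
    exact (h6.of_isCoprime_of_dvd_left mu_dvd_sq).dvd_of_dvd_mul_left h4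

theorem range_FLAdm (q : ℕ) (hq : 1 ≤ q) (x : ℤ) :
    ∑ c ∈ range q, ee ((((c : ℤ) * x : ℤ) : ℝ) / q) = if (q : ℤ) ∣ x then (q : ℂ) else 0 := by
  rw [← sum_ee_range q hq x]
  refine sum_nbij' (fun c => (c : ℤ)) Int.toNat (fun c hc => ?_) (fun z hz => ?_) (fun c _ => ?_)
    (fun z hz => ?_) fun c _ => rfl
  · have := mem_range.1 hc
    exact mem_Ico.2 ⟨by omega, by omega⟩
  · have := mem_Ico.1 hz
    exact mem_range.2 (by omega)
  · simp
  · have := mem_Ico.1 hz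
    omega

open Classical in
/-- The rotated point. -/
noncomputable def Xo_FLAdm (α ε Y : O m) : O m := if h : star ε ∣ Y then α * h.choose else 0

open Classical in
theorem sum_FLAdm (hm : 1 ≤ m) {Δ : ℕ} {α δ : O m} (h : Good m Δ α δ) (Y : O m) (b : ℂ) :
    ∑ c ∈ range (α * δ).norm.natAbs,
        ee (pr m ((b * ph m α + c) / conj (ph m (α * δ))) (ph m Y)) =
      if star (α * δ) ∣ Y then
        ((α * δ).norm.natAbs : ℂ) * ee (pr m b (ph m (Xo_FLAdm α (α * δ) Y))) else 0 := by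
  have h0 := ne_FLAdm h
  have hsq := h.sq
  generalize α * δ = ε at h0 hsq ⊢
  have h1 : conj (ph m ε) ≠ 0 := (map_ne_zero _).2 (ph_ne_zero hm h0)
  have h2 := mul_conj_FLAdm ε
  have h3 : 1 ≤ ε.norm.natAbs := by
    have := norm_pos' hm h0
    omega
  have h4 : ∀ c : ℕ, pr m ((b * ph m α + c) / conj (ph m ε)) (ph m Y) =
      pr m (b * ph m α / conj (ph m ε)) (ph m Y) +
        (((c : ℤ) * (Y * ε).im : ℤ) : ℝ) / (ε.norm.natAbs : ℕ) := by
    intro c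
    have h5 : (c : ℂ) / conj (ph m ε) = ph m ((c : O m) * ε) / ((ε.norm.natAbs : ℝ) : ℂ) := by
      have h6 := ph_ne_zero hm h0
      rw [Complex.ofReal_natCast, ← h2, map_mul, map_natCast]
      field_simp
    have h7 : ((c : O m) * ε * Y).im = (c : ℤ) * (Y * ε).im := by
      rw [mul_assoc, mul_comm ε, Zsqrtd.im_mul]
      simp
    rw [add_div, pr_add_left, h5, pr_ph_div hm, h7]
  simp only [h4, ee_add]
  rw [← mul_sum, range_FLAdm _ h3, cast_norm_FLAdm]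
  by_cases hd : star ε ∣ Y
  · rw [if_pos hd, if_pos ((star_dvd_iff hm hsq Y).1 hd), mul_comm, Xo_FLAdm, dif_pos hd]
    have h5 := congrArg (ph m) hd.choose_spec
    rw [map_mul, ph_star] at h5
    have h6 : b * ph m α / conj (ph m ε) * ph m Y = b * ph m (α * hd.choose) := by
      rw [map_mul]
      generalize ph m hd.choose = w at h5 ⊢
      rw [h5]
      field_simp
    rw [pr, pr, h6]
  · rw [if_neg hd, if_neg fun h' => hd ((star_dvd_iff hm hsq Y).2 h'), mul_zero]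

end

/-- A block is the characteristic function of a random rotated pile. -/
theorem block_adm {m : ℕ} {ι : Type} (hm : 1 ≤ m) (I : Finset ι) (α δ : ι → O m) (e : O m) (s Δ : ℕ)
    (U : Finset (O m)) (hG : ∀ i ∈ I, Good m Δ (α i) (δ i)) (hU : ∀ u ∈ U, SumRes e s u)
    (h0 : Tb I α δ e s U 0 ≠ 0) :
    Adm e (6 * s) fun b => Tb I α δ e s U b / Tb I α δ e s U 0 := by
  classical
  let S : Finset (Σ _ : ι, (O m × O m) × ℕ) := I.sigma fun i =>
    ((U ×ˢ U).filter fun q => star (α i * δ i) ∣ Yb e s (δ i) q.1 q.2) ×ˢ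
      range (α i * δ i).norm.natAbs
  let X : (Σ _ : ι, (O m × O m) × ℕ) → O m := fun q =>
    Xo_FLAdm (α q.1) (α q.1 * δ q.1) (Yb e s (δ q.1) q.2.1.1 q.2.1.2)
  have hs : ∀ b, ∑ q ∈ S, ee (pr m b (ph m (X q))) = Tb I α δ e s U b := by
    intro b
    rw [sum_sigma, Tb]
    refine sum_congr rfl fun i hi => ?_
    rw [sum_product, sum_filter, sum_product]
    simp only [trm]
    rw [sum_comm (s := range _)]
    refine sum_congr rfl fun u _ => ?_
    rw [sum_comm (s := range _)]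
    refine sum_congr rfl fun u' _ => ?_
    rw [sum_FLAdm hm (hG i hi)]
    simp only [X, sum_const, card_range, nsmul_eq_mul]
  have hc : (S.card : ℂ) = Tb I α δ e s U 0 := by
    rw [← hs 0]
    simp [pr, ee_zero]
  have hne : S.Nonempty := by
    rw [← card_pos, Nat.pos_iff_ne_zero]
    intro h1
    rw [h1, Nat.cast_zero] at hc
    exact h0 hc.symm
  refine ⟨S, inferInstance, hne.to_subtype, fun ω => X ω.1, fun ω => ?_, fun b => ?_⟩
  · obtain ⟨h1, h2⟩ := mem_sigma.1 ω.2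
    obtain ⟨h3, h4⟩ := mem_filter.1 (mem_product.1 h2).1
    obtain ⟨h5, h6⟩ := mem_product.1 h3
    simp only [X, Xo_FLAdm, dif_pos h4]
    exact point_FLAdm hm (hG _ h1) (hU _ h5) (hU _ h6) h4.choose_spec
  · rw [ch, Fintype.expect_eq_sum_div_card, Fintype.card_coe, hc,
      sum_coe_sort S fun q => ee (pr m b (ph m (X q))), hs]

end Pool.Agent.P.MP_b75a1e_co.EG
end

-- part Pool.Agent.P.MP_b75a1e_co.FLChar
section

set_option autoImplicit false

open Finset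
open scoped BigOperators ComplexConjugate

namespace Pool.Agent.P.MP_b75a1e_co.EG

theorem big_div (Z m : ℕ) (hZ : 1 ≤ Z) (hm : Z < m) (h : ∀ l, l.Prime → l ∣ m → l ≤ Z) :
    ∃ q, q ∣ m ∧ Z < q ∧ q ≤ Z ^ 2 := by
  induction m using Nat.strong_induction_on with
  | _ m ih =>
    have hp : (m.minFac).Prime := Nat.minFac_prime (by omega)
    obtain ⟨c, hc⟩ := Nat.minFac_dvd m
    have hl := h _ hp (Nat.minFac_dvd m)
    by_cases hcZ : Z < c
    · have h2 := hp.two_le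
      obtain ⟨q, h1, h3⟩ := ih c (by nlinarith) hcZ
        fun l hl' hd => h l hl' (hc ▸ Dvd.dvd.mul_left hd _)
      exact ⟨q, hc ▸ Dvd.dvd.mul_left h1 _, h3⟩
    · refine ⟨m, dvd_rfl, hm, ?_⟩
      rw [hc, sq]
      exact Nat.mul_le_mul hl (by omega)

theorem split_mod (Z r : ℕ) (hZ : 1 ≤ Z) : ∀ m : ℕ, 1 ≤ m → (∀ l, l.Prime → l ∣ m → l ≤ Z) →
    m ≤ Z ^ r → ∃ q : Fin r → ℕ, ∏ i, q i = m ∧ ∀ i, q i ≤ Z ^ 2 := by
  have hZ2 : Z ≤ Z ^ 2 := by nlinarith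
  induction r with
  | zero =>
    intro m h1 _ h3
    exact ⟨Fin.elim0, by simp at h3 ⊢; omega, fun i => i.elim0⟩
  | succ r ih =>
    intro m h1 h2 h3
    by_cases hm : Z < m
    · obtain ⟨q0, ⟨c, rfl⟩, h4, h5⟩ := big_div Z m hZ hm h2
      have hc : 1 ≤ c := Nat.pos_of_mul_pos_left h1
      have hc2 : c ≤ Z ^ r := by
        refine Nat.le_of_mul_le_mul_left (c := Z) ?_ hZ
        calc Z * c ≤ q0 * c := Nat.mul_le_mul_right _ h4.le
          _ ≤ Z ^ (r + 1) := h3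
          _ = Z * Z ^ r := pow_succ' Z r
      obtain ⟨q, e1, e2⟩ := ih c hc (fun l hl hd => h2 l hl (Dvd.dvd.mul_left hd _)) hc2
      refine ⟨Fin.cons q0 q, by rw [Fin.prod_univ_succ]; simp [e1], fun i => ?_⟩
      refine Fin.cases ?_ (fun j => ?_) i
      · exact h5
      · exact e2 j
    · refine ⟨Fin.cons m fun _ => 1, by rw [Fin.prod_univ_succ]; simp, fun i => ?_⟩
      refine Fin.cases ?_ (fun j => ?_) i
      · show m ≤ Z ^ 2
        omega
      · show 1 ≤ Z ^ 2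
        omega

theorem jac_prod_FLChar {ι : Type} (s : Finset ι) (q : ι → ℕ) (hq : ∀ i, q i ≠ 0) (a : ℤ) :
    jacobiSym a (∏ i ∈ s, q i) = ∏ i ∈ s, jacobiSym a (q i) := by
  classical
  induction s using Finset.induction_on with
  | empty => simp
  | insert i s hi ih =>
    rw [prod_insert hi, prod_insert hi,
      jacobiSym.mul_right' a (hq i) (prod_ne_zero_iff.2 fun j _ => hq j), ih]

theorem jac_abs_FLChar (a : ℤ) (d : ℕ) : |(jacobiSym a d : ℝ)| ≤ 1 := by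
  exact_mod_cast egt_abs a d

theorem part_FLChar {d : ℕ} (hd : d ≠ 0) (h0 : ∑ n ∈ range d, jacobiSym n d = 0) (X : ℕ) :
    |∑ n ∈ range X, jacobiSym n d| ≤ d := by
  induction X using Nat.strong_induction_on with
  | _ X ih =>
    rcases lt_or_ge X d with h | h
    · refine (abs_sum_le_sum_abs _ _).trans
        ((sum_le_card_nsmul _ _ 1 fun n _ => egt_abs _ _).trans ?_)
      simpa using h.le
    · obtain ⟨Y, rfl⟩ := Nat.exists_eq_add_of_le h
      rw [sum_range_add, h0, zero_add]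
      refine le_trans (le_of_eq (congrArg abs (sum_congr rfl fun n _ => ?_))) (ih Y (by omega))
      exact jacobiSym.mod_left' (by push_cast; simp)

theorem blocks_FLChar (f : ℕ → ℝ) (hf : ∀ n, |f n| ≤ 1) (L s : ℕ) (B : ℝ)
    (hB : ∀ a, |∑ n ∈ range L, f (a + n)| ≤ B) (t : ℕ) :
    |∑ n ∈ range (s + L * t), f n| ≤ s + t * B := by
  induction t with
  | zero =>
    simp only [mul_zero, add_zero, Nat.cast_zero, zero_mul]
    calc |∑ n ∈ range s, f n| ≤ ∑ n ∈ range s, |f n| := abs_sum_le_sum_abs _ _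
      _ ≤ ∑ n ∈ range s, (1 : ℝ) := sum_le_sum fun n _ => hf n
      _ = s := by simp
  | succ t ih =>
    rw [mul_add_one, ← add_assoc, sum_range_add]
    have := abs_add_le (∑ n ∈ range (s + L * t), f n) (∑ n ∈ range L, f (s + L * t + n))
    have := hB (s + L * t)
    push_cast
    linarith

/-- A power saving in short character sums to smooth moduli. -/
theorem charsum (r : ℕ) : ∃ C η : ℝ, 1 ≤ C ∧ 0 < η ∧ η ≤ 1 ∧ ∀ m Z N : ℕ, Odd m → Squarefree m →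
    1 < m → 2 ≤ Z → (∀ l, l.Prime → l ∣ m → l ≤ Z) → m ≤ Z ^ r → Z ^ 10 ≤ N →
    |∑ n ∈ range N, (jacobiSym n m : ℝ)| ≤ C * N * (Z : ℝ) ^ (-η) := by
  obtain ⟨K, hK, hv⟩ := vdc r
  obtain ⟨C, hC, ht⟩ := TT_jac r
  have hD : 1 ≤ K * (C + 1) := by nlinarith
  have h2r : (1 : ℝ) ≤ 2 ^ r := one_le_pow₀ (by norm_num)
  have hη0 : (0 : ℝ) < 1 / (4 * 2 ^ r) := by positivity
  have hη1 : (1 : ℝ) / (4 * 2 ^ r) ≤ 1 := by
    rw [div_le_one (by positivity)]
    linarith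
  have hηr : -(1 / (4 * 2 ^ r) : ℝ) * ((2 ^ r : ℕ) : ℝ) = -1 / 4 := by
    push_cast
    field_simp
  generalize (1 / (4 * 2 ^ r) : ℝ) = η at hη0 hη1 hηr
  refine ⟨K * (C + 1) + 1, η, by linarith, hη0, hη1, fun m Z N ho hs h1 hZ hl hr hN => ?_⟩
  have hZ1 : (1 : ℝ) ≤ Z := by exact_mod_cast (by omega : 1 ≤ Z)
  have hZ0 : (0 : ℝ) < Z := by linarith
  have hw : (0 : ℝ) < (Z : ℝ) ^ (-η) := Real.rpow_pos_of_pos hZ0 _
  have h8 : (Z : ℝ) ^ 8 ≤ N * (Z : ℝ) ^ (-η) := by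
    have a1 : (Z : ℝ) ^ (-1 : ℝ) ≤ (Z : ℝ) ^ (-η) :=
      Real.rpow_le_rpow_of_exponent_le hZ1 (by linarith)
    rw [Real.rpow_neg_one] at a1
    have a2 : (Z : ℝ) ^ 10 ≤ N := by exact_mod_cast hN
    calc (Z : ℝ) ^ 8 ≤ (Z : ℝ) ^ 9 := pow_le_pow_right₀ hZ1 (by norm_num)
      _ = (Z : ℝ) ^ 10 * (Z : ℝ)⁻¹ := by field_simp
      _ ≤ N * (Z : ℝ) ^ (-η) := mul_le_mul a2 a1 (by positivity) (by positivity)
  have hNw : (0 : ℝ) ≤ N * (Z : ℝ) ^ (-η) := by positivity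
  by_cases hm : Z < m
  swap
  · have hp : (m.minFac).Prime := Nat.minFac_prime (by omega)
    obtain ⟨a, ha⟩ := egt_neg (m' := 1) hs one_ne_zero ho hp (Nat.minFac_dvd m) hp.not_dvd_one
    rw [mul_one] at ha
    have a1 := part_FLChar (by omega) (egt_period (by omega) ha) N
    have a2 : |∑ n ∈ range N, (jacobiSym n m : ℝ)| ≤ m := by exact_mod_cast a1
    have a3 : (m : ℝ) ≤ Z := by exact_mod_cast (by omega : m ≤ Z)
    have a4 : (Z : ℝ) ≤ (Z : ℝ) ^ 8 := le_self_pow₀ hZ1 (by norm_num)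
    nlinarith
  obtain ⟨q0, ⟨c, rfl⟩, h4, h5⟩ := big_div Z m (by omega) hm hl
  have hc : 1 ≤ c := Nat.pos_of_mul_pos_left (by omega : 0 < q0 * c)
  have hq0 : q0 ≠ 0 := by omega
  have : NeZero q0 := ⟨hq0⟩
  obtain ⟨q, e1, e2⟩ := split_mod Z r (by omega) c hc
    (fun l hl' hd => hl l hl' (Dvd.dvd.mul_left hd _))
    (le_trans (Nat.le_mul_of_pos_left _ (by omega)) hr)
  have hqc : ∀ i, q i ∣ c := fun i => e1 ▸ dvd_prod_of_mem q (mem_univ i)
  have hq : ∀ i, q i ≠ 0 := fun i h => by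
    have := hqc i
    rw [h, zero_dvd_iff] at this
    omega
  have hcop : ∀ i, Nat.Coprime (q i) q0 := fun i =>
    ((Nat.coprime_of_squarefree_mul hs).symm).coprime_dvd_left (hqc i)
  have hT := ht q0 (Nat.Odd.of_mul_left ho) (hs.of_mul_left)
  have hq4 : (q0 : ℝ) ^ (-1 / 4 : ℝ) ≤ (Z : ℝ) ^ (-1 / 4 : ℝ) :=
    Real.rpow_le_rpow_of_nonpos hZ0 (by exact_mod_cast h4.le) (by norm_num)
  have hZ4 : ((Z ^ 2 : ℕ) : ℝ) / ((Z ^ 6 : ℕ) : ℝ) ≤ (Z : ℝ) ^ (-1 / 4 : ℝ) := by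
    have a1 : (Z : ℝ) ^ (-1 : ℝ) ≤ (Z : ℝ) ^ (-1 / 4 : ℝ) :=
      Real.rpow_le_rpow_of_exponent_le hZ1 (by norm_num)
    rw [Real.rpow_neg_one] at a1
    refine le_trans ?_ a1
    push_cast
    rw [div_le_iff₀ (by positivity)]
    calc (Z : ℝ) ^ 2 ≤ (Z : ℝ) ^ 5 := pow_le_pow_right₀ hZ1 (by norm_num)
      _ = (Z : ℝ)⁻¹ * (Z : ℝ) ^ 6 := by field_simp
  have hL0 : (0 : ℝ) < (Z ^ 6 * q0 : ℕ) := by
    exact_mod_cast Nat.mul_pos (by positivity) (by omega)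
  have hB : ∀ a : ℕ, |∑ n ∈ range (Z ^ 6 * q0), (jacobiSym ((a + n : ℕ) : ℤ) (q0 * c) : ℝ)| ≤
      (Z ^ 6 * q0 : ℕ) * (K * (C + 1) * (Z : ℝ) ^ (-η)) := by
    intro a
    have a1 := hv q0 (Z ^ 2) (Z ^ 6) a q (fun x => (jacobiSym x.val q0 : ℝ))
      (fun i n => (jacobiSym n (q i) : ℝ)) (Nat.one_le_pow _ _ (by omega))
      (fun x => jac_abs_FLChar _ _) (fun i n => jac_abs_FLChar _ _)
      (fun i n => by
        rw [jacobiSym.mod_left' (a₂ := (n : ℤ)) (by push_cast; exact Int.add_emod_right _ _)])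
      hcop e2
    have a2 : ∀ n : ℕ, (jacobiSym ((n : ZMod q0).val) q0 : ℝ) * ∏ i, (jacobiSym n (q i) : ℝ) =
        (jacobiSym (n : ℤ) (q0 * c) : ℝ) := fun n => by
      rw [jacobiSym.mul_right' _ hq0 (by omega), ← e1, jac_prod_FLChar _ _ hq, ZMod.val_natCast,
        jacobiSym.mod_left' (a₂ := (n : ℤ)) (by push_cast; exact Int.emod_emod_of_dvd _ dvd_rfl)]
      push_cast
      rfl
    simp only [a2] at a1
    have a3 : (K * (C + 1) * (Z : ℝ) ^ (-η)) ^ 2 ^ r =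
        (K * (C + 1)) ^ 2 ^ r * (Z : ℝ) ^ (-1 / 4 : ℝ) := by
      rw [mul_pow, ← Real.rpow_natCast ((Z : ℝ) ^ (-η)), ← Real.rpow_mul hZ0.le, hηr]
    have a4 : K * (C + 1) ≤ (K * (C + 1)) ^ 2 ^ r := le_self_pow₀ hD (by positivity)
    have a5 : (0 : ℝ) ≤ (Z : ℝ) ^ (-1 / 4 : ℝ) := by positivity
    have a6 := mul_le_mul_of_nonneg_left hq4 (by linarith : 0 ≤ C)
    have a7 := le_of_pow_le_pow_left₀ (n := 2 ^ r) (by positivity)
      (by positivity : 0 ≤ K * (C + 1) * (Z : ℝ) ^ (-η)) (a1.trans (by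
        rw [a3]
        refine le_trans ?_ (mul_le_mul_of_nonneg_right a4 a5)
        rw [mul_assoc]
        refine mul_le_mul_of_nonneg_left ?_ (by linarith)
        linarith))
    rwa [abs_div, abs_of_pos hL0, div_le_iff₀' hL0] at a7
  have hL8 : Z ^ 6 * q0 ≤ Z ^ 8 := by
    calc Z ^ 6 * q0 ≤ Z ^ 6 * Z ^ 2 := Nat.mul_le_mul_left _ h5
      _ = Z ^ 8 := by ring
  have hL1 : 0 < Z ^ 6 * q0 := by exact_mod_cast hL0
  generalize Z ^ 6 * q0 = L at hB hL8 hL1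
  have b1 := blocks_FLChar (fun n => (jacobiSym (n : ℤ) (q0 * c) : ℝ)) (fun n => jac_abs_FLChar _ _)
    L (N % L) _ hB (N / L)
  rw [Nat.mod_add_div] at b1
  have b2 : ((N % L : ℕ) : ℝ) ≤ (Z : ℝ) ^ 8 := by
    exact_mod_cast (Nat.mod_lt N hL1).le.trans hL8
  have b3 : ((N / L : ℕ) : ℝ) * L ≤ N := by exact_mod_cast Nat.div_mul_le_self N L
  have b4 := mul_le_mul_of_nonneg_right b3
    (by positivity : 0 ≤ K * (C + 1) * (Z : ℝ) ^ (-η))
  refine b1.trans ?_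
  nlinarith

end Pool.Agent.P.MP_b75a1e_co.EG
end

-- part Pool.Agent.P.MP_b75a1e_co.FLCoords
section

set_option autoImplicit false

open Finset
open scoped BigOperators ComplexConjugate

namespace Pool.Agent.P.MP_b75a1e_co.EG

theorem gen_FLCoords (m p n Nf Y len w K : ℕ) (B η ε σ τ : ℝ) (hsq : Squarefree m) (h4 : m % 4 = 3)
    (hmax : ∀ q, q.Prime → q ∣ m → q ≤ p) (hodd : p % 2 = 1) (hn : 16 * n ≤ p) (hp : 100 ≤ p)
    (hpY : p ≤ Y) (hN : Nf + 4 * n = p) (e : O m) (D : Finset ℕ) (hD : ∀ l ∈ D, l.Prime ∧ Y < l)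
    (he : e.norm = ∏ l ∈ D, (l : ℤ)) (hB : 1 ≤ B) (hlen1 : 1 ≤ len) (hlen : Y * w ≤ len)
    (hη : η = 4 * ((primorial Y ^ 10 : ℕ) : ℝ) * len * Real.sqrt m) (hw : (B + η) ^ 2 ≤ 2 ^ w)
    (hσ0 : 0 ≤ σ) (hσ : wt Y len e.norm ≤ σ)
    (hI1 : 2 * ((Nf : ℝ) + 1) * σ + 220 * ((Nf : ℝ) + 1) ^ 2 / Y ≤ 1 / 2)
    (hI2 : 2 * (σ + 100 * ((Nf : ℝ) + 1) / Y) + 220 / Y ≤ 1 / 2)
    (hτ : σ + 100 * ((Nf : ℝ) + 1) / Y + 100 / Y ≤ τ) (hε : 4 * η ≤ ε * B) (hε1 : ε ≤ 1)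
    (hK : w * (2 * Nf + 2) ≤ K) :
    ∃ zg R : O m, Shape m Y (star zg * (e * R)) ∧ Prim Y (star zg * (e * R)) ∧
      Pure Y (star zg * (e * R)).norm ∧
      wt Y len (star zg * (e * R)).norm ≤ τ ∧
      (star zg * R).norm ≤ 2 ^ K ∧ (QQ m Y : O m) ∣ zg + star zg ∧
      (m : O m) ^ 2 ∣ zg - 1 ∧ ‖ph m (zg + star zg)‖ ≤ ε * ‖ph m zg‖ ∧
      ∀ C : O m, (M1 m Y : O m) ∣ C - 1 →
        ∃ S : O m, Rep m (star zg * (e * R * C)).norm Nf (ph m S) ∧
          (QQ m Y : O m) ∣ S ∧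
          mu m ∣ S + ((4 * n * (star zg * (e * R * C)).re : ℤ) : O m) ∧
          ‖ph m S‖ ≤ p * ε * ‖ph m (star zg * (e * R * C))‖ := by
  classical
  have hm : 1 ≤ m := by omega
  have hmo : m % 2 = 1 := by omega
  have hY2 : 2 ≤ Y := by omega
  have hY3 : 3 ≤ Y := by omega
  have hYpos : (0 : ℝ) < Y := by exact_mod_cast (by omega : 0 < Y)
  have hsm : Smo Y m := fun l hl hlm => (hmax l hl hlm).trans hpY
  have hE1 : 1 ≤ primorial Y ^ 10 := Nat.one_le_pow _ _ (primorial_pos Y)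
  obtain ⟨ζ, hζ⟩ := fixed_part m p Y n Nf hsq h4 hmax hodd hpY hN hn hp
  obtain ⟨ζg, hζg1, hζg2⟩ := exists_partner hmo Y
  have hen0 : e.norm ≠ 0 := by
    rw [he]
    exact prod_ne_zero_iff.mpr fun l hl => by exact_mod_cast (hD l hl).1.ne_zero
  have hcard : (Fintype.card (Option (Fin Nf)) : ℝ) = (Nf : ℝ) + 1 := by simp
  obtain ⟨z1, hz1, hz1c, hz1w⟩ := design (I := Option (Fin Nf)) m Y len (primorial Y ^ 10) w B σ
    (fun o => o.elim ζg fun i => ζ i) (fun o => o.elim Complex.I fun i => dir i) e.norm hm hE1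
    (smo_E Y) (by
      rintro (_ | i)
      · exact Complex.norm_I
      · exact norm_dir i) hB hY2 hlen1 hlen (by rw [← hη]; exact hw) hen0 hσ0 hσ
    (by rw [hcard]; exact hI1)
  rw [hcard, Fintype.sum_option] at hz1w
  rw [← hη] at hz1
  obtain ⟨zg, hzg⟩ : ∃ zg, zg = z1 none := ⟨_, rfl⟩
  obtain ⟨z, hz⟩ : ∃ z : ℕ → O m, ∀ i : Fin Nf, z i = z1 (some i) :=
    ⟨fun i => if h : i < Nf then z1 (some ⟨i, h⟩) else 0, fun i => by simp [i.2]⟩
  have hzi : ∀ i < Nf, ((primorial Y ^ 10 : ℕ) : O m) ∣ z i - ζ i ∧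
      ‖ph m (z i) - B * dir i‖ ≤ η ∧ Prim Y (z i) ∧ z i ≠ 0 ∧ Cop Y e.norm (z i).norm := by
    intro i hi
    have h := hz1 (some ⟨i, hi⟩)
    rw [← hz ⟨i, hi⟩] at h
    exact h
  have hzz : ∀ i < Nf, ∀ k < Nf, i ≠ k → Cop Y (z i).norm (z k).norm := by
    intro i hi k hk hik
    have h := hz1c (some ⟨i, hi⟩) (some ⟨k, hk⟩) (by simpa using hik)
    rw [← hz ⟨i, hi⟩, ← hz ⟨k, hk⟩] at h
    exact h
  have hzgz : ∀ i < Nf, Cop Y (z i).norm zg.norm := by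
    intro i hi
    have h := hz1c (some ⟨i, hi⟩) none (by simp)
    rw [← hz ⟨i, hi⟩, ← hzg] at h
    exact h
  obtain ⟨hg1, hg2, hg3, hg4, hg5⟩ : ((primorial Y ^ 10 : ℕ) : O m) ∣ zg - ζg ∧
      ‖ph m zg - B * Complex.I‖ ≤ η ∧ Prim Y zg ∧ zg ≠ 0 ∧ Cop Y e.norm zg.norm := by
    have h := hz1 none
    rw [← hzg] at h
    exact h
  have hw1 : wt Y len zg.norm + ∑ i ∈ range Nf, wt Y len (z i).norm ≤ 100 * ((Nf : ℝ) + 1) / Y := by
    rw [← hzg] at hz1w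
    rw [Finset.sum_range]
    simp only [hz]
    exact hz1w
  clear hz1 hz1c hz1w hzg hz z1
  obtain ⟨Gf, Dn, hDn, hGf, hGp, hS⟩ := hζ z fun i hi => (hzi i hi).1
  obtain ⟨b, hb1, hb2, hb3⟩ := exists_slope hmo hsm
  obtain ⟨P, hP⟩ : ∃ P : ℤ, P = ∏ i ∈ range Nf, (z i).norm := ⟨_, rfl⟩
  have hPpos : 1 ≤ P := by
    have h : 0 < ∏ i ∈ range Nf, (z i).norm := prod_pos fun i hi =>
      lt_of_lt_of_le zero_lt_one (norm_pos' hm (hzi i (mem_range.mp hi)).2.2.2.1)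
    omega
  have hGn : (Dn : ℤ) ^ 2 * Gf.norm = P ^ 2 := by
    have h := congrArg Zsqrtd.norm hGf
    rw [Zsqrtd.norm_mul, Zsqrtd.norm_natCast, norm_prod'] at h
    simp only [norm_pow', Zsqrtd.norm_conj] at h
    rw [prod_pow] at h
    rw [hP, ← h]
    ring
  have hGdvd : Gf.norm ∣ P ^ 2 := ⟨(Dn : ℤ) ^ 2, by rw [← hGn]; ring⟩
  have hzg1 := norm_pos' hm hg4
  have hwP : wt Y len P ≤ ∑ i ∈ range Nf, wt Y len (z i).norm := by
    rw [hP]
    exact wt_prod Y len _ _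
  have hDD0 : zg.norm * e.norm * P ≠ 0 := mul_ne_zero (mul_ne_zero (by omega) hen0) (by omega)
  have hwDD : wt Y len (zg.norm * e.norm * P) ≤ σ + 100 * ((Nf : ℝ) + 1) / Y := by
    have h1 := wt_mul Y len (zg.norm * e.norm) P
    have h2 := wt_mul Y len zg.norm e.norm
    linarith
  obtain ⟨Γ0, hΓ0⟩ : ∃ Γ0 : O m, Γ0 = star zg * e * Gf := ⟨_, rfl⟩
  obtain ⟨sl, hsl⟩ : ∃ sl : O m, sl = ⟨1, cc m * b⟩ := ⟨_, rfl⟩
  obtain ⟨z2, hz2, -, hz2w⟩ := design (I := Unit) m Y len (primorial Y ^ 10) w B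
    (σ + 100 * ((Nf : ℝ) + 1) / Y) (fun _ => star sl * Γ0) (fun _ => 1) (zg.norm * e.norm * P) hm hE1
    (smo_E Y) (fun _ => norm_one) hB hY2 hlen1 hlen (by rw [← hη]; exact hw) hDD0
    (by positivity) hwDD (by simpa using hI2)
  obtain ⟨hs1, hs2, hs3, hs4, hs5⟩ := hz2 ()
  rw [← hη] at hs2
  have hw2 : wt Y len (z2 ()).norm ≤ 100 / Y := by simpa using hz2w
  generalize z2 () = zs at hs1 hs2 hs3 hs4 hs5 hw2
  clear hz2 hz2w z2
  have hq1 : (QQ m Y : O m) ∣ zg - rt m := by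
    have h := dvd_add (cast_dvd_EGCoords (QQ_dvd_E hY3 m) hg1) hζg1
    rwa [sub_add_sub_cancel] at h
  have hq2 : (m : O m) ^ 2 ∣ zg - 1 := by
    have h0 : m ^ 2 ∣ primorial Y ^ 10 :=
      (pow_dvd_pow_of_dvd (m_dvd_primorial hsq hsm) 2).trans (pow_dvd_pow _ (by norm_num))
    have h1 := cast_dvd_EGCoords h0 hg1
    rw [Nat.cast_pow] at h1
    have h := dvd_add h1 hζg2
    rwa [sub_add_sub_cancel] at h
  have hpg : Pure Y zg.norm := pure_partner hmo hq1 hq2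
  have hpe : Pure Y e.norm := by rw [he]; exact pure_primes_EGCoords D hD
  have hΓn : Γ0.norm = zg.norm * e.norm * Gf.norm := by
    rw [hΓ0, Zsqrtd.norm_mul, Zsqrtd.norm_mul, Zsqrtd.norm_conj]
  have hpΓ : Pure Y Γ0.norm := by
    rw [hΓn]
    exact (hpg.mul hpe).mul hGp
  have hsln : sl.norm = 1 + m * (cc m * b) ^ 2 := by
    rw [norm_eq, hsl]
    simp
  have hps : Pure Y zs.norm := by
    intro l hl hlY hdvd
    have h0 : l ∣ primorial Y ^ 10 :=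
      (hl.dvd_primorial_iff.mpr hlY).trans (dvd_pow_self _ (by norm_num))
    have h1 := dvd_norm_sub_EGCoords l (cast_dvd_EGCoords h0 hs1)
    have h2 := (dvd_iff_dvd_of_dvd_sub h1).mp hdvd
    rw [Zsqrtd.norm_mul, Zsqrtd.norm_conj, hsln] at h2
    exact (hb3.mul hpΓ) l hl hlY h2
  have hfull : star zg * (e * (Gf * star zs)) = Γ0 * star zs := by rw [hΓ0]; ring
  have hshape : Shape m Y (star zg * (e * (Gf * star zs))) := by
    refine ⟨Γ0.norm, b, hpΓ, hb1, hb2, ?_⟩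
    have h1 := star_dvd_EGCoords (cast_dvd_EGCoords (M1_dvd_E hY3 hsq hsm) hs1)
    rw [star_sub, star_mul', star_star] at h1
    have e1 : (⟨Γ0.norm, Γ0.norm * (cc m * b)⟩ : O m) = Γ0 * (sl * star Γ0) := by
      have e2 : Γ0 * (sl * star Γ0) = (Γ0.norm : O m) * sl := by
        rw [Zsqrtd.norm_eq_mul_conj]
        ring
      rw [e2, hsl]
      ext <;> simp
    rw [hfull, e1, ← mul_sub]
    exact h1.mul_left _
  have hfn : (star zg * (e * (Gf * star zs))).norm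
      = zg.norm * e.norm * Gf.norm * zs.norm := by
    rw [hfull, Zsqrtd.norm_mul, Zsqrtd.norm_conj, hΓn]
  have hzs1 := norm_pos' hm hs4
  -- coprimality
  have cPg : Cop Y P zg.norm := by
    rw [hP]
    exact Cop.prod_left _ _ _ fun i hi => hzgz i (mem_range.mp hi)
  have cPe : Cop Y P e.norm := by
    rw [hP]
    exact Cop.prod_left _ _ _ fun i hi => (hzi i (mem_range.mp hi)).2.2.2.2.symm
  have cGg : Cop Y Gf.norm zg.norm := (cop_sq_left_EGCoords cPg).of_dvd hGdvd dvd_rfl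
  have cGe : Cop Y Gf.norm e.norm := (cop_sq_left_EGCoords cPe).of_dvd hGdvd dvd_rfl
  have cPs : Cop Y P zs.norm := hs5.of_dvd (dvd_mul_left _ _) dvd_rfl
  have cGs : Cop Y Gf.norm zs.norm := (cop_sq_left_EGCoords cPs).of_dvd hGdvd dvd_rfl
  have ces : Cop Y e.norm zs.norm :=
    hs5.of_dvd ((dvd_mul_left _ _).trans (dvd_mul_right _ _)) dvd_rfl
  have cgs : Cop Y zg.norm zs.norm :=
    hs5.of_dvd ((dvd_mul_right _ _).trans (dvd_mul_right _ _)) dvd_rfl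
  have prG : Prim Y Gf := by
    have h : Prim Y (∏ i ∈ range Nf, star (z i) ^ 2) := by
      refine Prim.prod _ _ (fun i hi => Prim.sq hY2 hsm (hzi i (mem_range.mp hi)).2.2.1.conj) ?_
      intro i hi k hk hik
      rw [norm_pow', norm_pow', Zsqrtd.norm_conj, Zsqrtd.norm_conj]
      exact cop_sq_left_EGCoords
        (cop_sq_left_EGCoords (hzz i (mem_range.mp hi) k (mem_range.mp hk) hik).symm).symm
    exact h.of_dvd ⟨(Dn : O m), by rw [← hGf]; ring⟩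
  have prR : Prim Y (Gf * star zs) := prG.mul hs3.conj (by rw [Zsqrtd.norm_conj]; exact cGs)
  have pre : Prim Y e := prim_of_norm (fun l hl => (hD l hl).1) he
  have prER : Prim Y (e * (Gf * star zs)) := by
    refine pre.mul prR ?_
    rw [Zsqrtd.norm_mul, Zsqrtd.norm_conj]
    exact (cGe.mul_left ces.symm).symm
  have prF : Prim Y (star zg * (e * (Gf * star zs))) := by
    refine hg3.conj.mul prER ?_
    rw [Zsqrtd.norm_conj, Zsqrtd.norm_mul, Zsqrtd.norm_mul, Zsqrtd.norm_conj]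
    exact (hg5.mul_left (cGg.mul_left cgs.symm)).symm
  have hη0 : 0 ≤ η := (norm_nonneg _).trans hg2
  have hε0 : 0 ≤ ε := by
    by_contra hc
    push Not at hc
    nlinarith
  refine ⟨zg, Gf * star zs, hshape, prF, ?_, ?_, ?_, ?_, hq2, ?_, ?_⟩
  · rw [hfn]
    exact ((hpg.mul hpe).mul hGp).mul hps
  · rw [hfn]
    have hd : zg.norm * e.norm * Gf.norm * zs.norm ∣ (zg.norm * e.norm * P) ^ 2 * zs.norm := by
      refine mul_dvd_mul ?_ dvd_rfl
      obtain ⟨c, hc⟩ := hGdvd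
      exact ⟨zg.norm * e.norm * c, by rw [mul_pow, hc]; ring⟩
    have h1 := wt_of_dvd Y len hd (mul_ne_zero (pow_ne_zero 2 hDD0) (by omega))
    have h2 := wt_mul Y len ((zg.norm * e.norm * P) ^ 2) zs.norm
    rw [wt_sq] at h2
    linarith
  · have h1 := norm_le_EGCoords zg _ B η w Complex.norm_I hB hg2 hw
    have h2 := norm_le_EGCoords zs _ B η w norm_one hB hs2 hw
    have h3 : P ≤ (2 ^ w) ^ Nf := by
      rw [hP]
      refine (prod_le_prod (g := fun _ => (2 : ℤ) ^ w) (fun i _ => norm_nonneg' _) fun i hi => ?_).trans ?_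
      · exact norm_le_EGCoords (z i) _ B η w (norm_dir i) hB (hzi i (mem_range.mp hi)).2.1 hw
      · rw [prod_const, card_range]
    have h4 : Gf.norm ≤ P ^ 2 := Int.le_of_dvd (by positivity) hGdvd
    have h5 : Gf.norm ≤ ((2 ^ w) ^ Nf) ^ 2 := h4.trans (pow_le_pow_left₀ (by omega) h3 2)
    have h6 := norm_nonneg' Gf
    rw [Zsqrtd.norm_mul, Zsqrtd.norm_mul, Zsqrtd.norm_conj, Zsqrtd.norm_conj]
    calc zg.norm * (Gf.norm * zs.norm) ≤ 2 ^ w * (((2 ^ w) ^ Nf) ^ 2 * 2 ^ w) := by gcongr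
      _ = 2 ^ (w * (2 * Nf + 2)) := by ring
      _ ≤ 2 ^ K := pow_le_pow_right₀ (by norm_num) hK
  · have h1 := star_dvd_EGCoords hq1
    have e1 : star (rt m) = -rt m := by
      ext <;> simp [rt]
    rw [star_sub, e1] at h1
    have h := dvd_add hq1 h1
    have e2 : zg - rt m + (star zg - -rt m) = zg + star zg := by ring
    rwa [e2] at h
  · rw [map_add, ph_star]
    exact trace_small_EGCoords _ B η ε hB hg2 hε hε1
  · intro C hC
    have hΓ : star zg * e * star zs * C * Gf = star zg * (e * (Gf * star zs) * C) := by ring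
    have hΓ' : star zg * (e * (Gf * star zs)) * C = star zg * (e * (Gf * star zs) * C) := by
      ring
    have hd := (hshape.mul hC).diff
    rw [hΓ'] at hd
    obtain ⟨S, hS1, hS2, hS3⟩ := hS (star zg * e * star zs * C) (by rw [hΓ]; exact hd)
    rw [hΓ] at hS1 hS3
    generalize star zg * (e * (Gf * star zs) * C) = G at hS1 hS3 ⊢
    refine ⟨S, ?_, hS2, hS3, ?_⟩
    · refine ⟨(range Nf).val.map fun i => ph m G * (ph m (z i) / conj (ph m (z i))), by simp, ?_, ?_⟩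
      · intro a ha
        obtain ⟨i, hi, rfl⟩ := Multiset.mem_map.mp ha
        exact unit_rep_EGCoords hm G (z i) (hzi i (mem_range.mp hi)).2.2.2.1
      · rw [hS1]
        rfl
    · have hsd := sum_dir Nf (by omega) (by omega)
      have e1 : ∑ i ∈ range Nf, ph m (z i) / conj (ph m (z i))
          = ∑ i ∈ range Nf, (ph m (z i) / conj (ph m (z i)) - dir i / conj (dir i)) := by
        rw [sum_sub_distrib, hsd, sub_zero]
      have hB0 : 0 < B := by linarith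
      have h2 : 2 * η / B ≤ ε := by
        rw [div_le_iff₀ hB0]
        linarith
      have h1 : ‖∑ i ∈ range Nf, ph m (z i) / conj (ph m (z i))‖ ≤ p * ε := by
        rw [e1]
        refine (norm_sum_le _ _).trans ?_
        refine (sum_le_card_nsmul _ _ ε fun i hi => ?_).trans ?_
        · have h := hzi i (mem_range.mp hi)
          exact (unit_close _ _ B η (norm_dir i) hB0 (ph_ne_zero hm h.2.2.2.1) h.2.1).trans h2
        · rw [card_range, nsmul_eq_mul]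
          have : (Nf : ℝ) ≤ p := by exact_mod_cast (by omega : Nf ≤ p)
          exact mul_le_mul_of_nonneg_right this hε0
      rw [hS1, ← mul_sum, norm_mul, mul_comm]
      exact mul_le_mul_of_nonneg_right h1 (norm_nonneg _)

theorem coords_FLCoords (m p n : ℕ) (hsq : Squarefree m) (h4 : m % 4 = 3) (hmax : ∀ q, q.Prime → q ∣ m → q ≤ p)
    (hmp : m ≤ 4 ^ p) (hp : 10 ^ 20 ≤ p) (hodd : p % 2 = 1) (hn : 16 * n ≤ p) (e : O m) (D : Finset ℕ)
    (hD : ∀ l ∈ D, l.Prime ∧ p ^ 60 ≤ l) (hDc : D.card ≤ p ^ 37) (he : e.norm = ∏ l ∈ D, (l : ℤ)) :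
    ∃ zg R : O m, Shape m (p ^ 15) (star zg * (e * R)) ∧ Prim (p ^ 15) (star zg * (e * R)) ∧
      Pure (p ^ 15) (star zg * (e * R)).norm ∧
      wt (p ^ 15) (2 ^ p ^ 7) (star zg * (e * R)).norm ≤ 1 / (p : ℝ) ^ 12 ∧
      (star zg * R).norm ≤ 2 ^ p ^ 21 ∧ (QQ m (p ^ 15) : O m) ∣ zg + star zg ∧
      (m : O m) ^ 2 ∣ zg - 1 ∧ ‖ph m (zg + star zg)‖ ≤ 1 / 2 ^ p ^ 17 * ‖ph m zg‖ ∧
      ∀ C : O m, (M1 m (p ^ 15) : O m) ∣ C - 1 →
        ∃ S : O m, Rep m (star zg * (e * R * C)).norm (p - 4 * n) (ph m S) ∧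
          (QQ m (p ^ 15) : O m) ∣ S ∧
          mu m ∣ S + ((4 * n * (star zg * (e * R * C)).re : ℤ) : O m) ∧
          ‖ph m S‖ ≤ p * (1 / 2 ^ p ^ 17) * ‖ph m (star zg * (e * R * C))‖ := by
  have hp0 : (10 : ℝ) ^ 20 ≤ p := by exact_mod_cast hp
  have hp1 : (0 : ℝ) < p := by linarith [show (0 : ℝ) < 10 ^ 20 by norm_num]
  have h60 := pow_le_two_EGCoords hp
  have hη := eta_le_EGCoords hmp hp
  have hη0 : (0 : ℝ) ≤ 4 * ((primorial (p ^ 15) ^ 10 : ℕ) : ℝ) * ((2 ^ p ^ 7 : ℕ) : ℝ) * Real.sqrt m := by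
    positivity
  have hNf : ((p - 4 * n : ℕ) : ℝ) + 1 ≤ 2 * p := by
    have : p - 4 * n + 1 ≤ 2 * p := by omega
    exact_mod_cast this
  have hNf0 : (0 : ℝ) ≤ ((p - 4 * n : ℕ) : ℝ) + 1 := by positivity
  have a1 := pow_step_EGCoords hp 16
  have a2 := pow_step_EGCoords hp 17
  have a3 := pow_step_EGCoords hp 0
  have a4 := pow_mono_EGCoords hp (show 1 ≤ 16 by norm_num)
  have a5 := pow_mono_EGCoords hp (show 1 ≤ 15 by norm_num)
  have a6 := pow_step_EGCoords hp 15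
  have a7 := pow_mono_EGCoords hp (show 16 ≤ 60 by norm_num)
  have a8 := pow_step_EGCoords hp 33
  have a9 := pow_mono_EGCoords hp (show 34 ≤ 60 by norm_num)
  have a10 := pow_step_EGCoords hp 19
  have a11 := pow_mono_EGCoords hp (show 20 ≤ 21 by norm_num)
  rw [pow_one] at a4 a5
  norm_num only at a1 a2 a6 a8 a10
  have hinv : ∀ (c : ℝ) (k : ℕ), c ≤ 10 ^ 20 → c / (p : ℝ) ^ (k + 1) ≤ 1 / (p : ℝ) ^ k := by
    intro c k hc
    rw [div_le_div_iff₀ (by positivity) (by positivity), pow_succ, one_mul, mul_comm]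
    exact mul_le_mul_of_nonneg_left (hc.trans hp0) (by positivity)
  have hmono : ∀ {j k : ℕ}, j ≤ k → 1 / (p : ℝ) ^ k ≤ 1 / (p : ℝ) ^ j := by
    intro j k hjk
    exact one_div_le_one_div_of_le (by positivity)
      (pow_le_pow_right₀ (by linarith [show (1 : ℝ) ≤ 10 ^ 20 by norm_num]) hjk)
  have hsmall : 1 / (p : ℝ) ^ 1 ≤ 1 / 1000 := by
    rw [pow_one]
    exact one_div_le_one_div_of_le (by norm_num) (by linarith [show (1000 : ℝ) ≤ 10 ^ 20 by norm_num])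
  have b1 : 100 * (((p - 4 * n : ℕ) : ℝ) + 1) / ((p ^ 15 : ℕ) : ℝ) ≤ 1 / (p : ℝ) ^ 13 := by
    calc 100 * (((p - 4 * n : ℕ) : ℝ) + 1) / ((p ^ 15 : ℕ) : ℝ) ≤ 100 * (2 * p) / ((p ^ 15 : ℕ) : ℝ) := by
          gcongr
      _ = 200 / (p : ℝ) ^ (13 + 1) := by
          push_cast
          field_simp
          norm_num
      _ ≤ 1 / (p : ℝ) ^ 13 := hinv _ _ (by norm_num)
  have b2 : 220 / ((p ^ 15 : ℕ) : ℝ) ≤ 1 / (p : ℝ) ^ 14 := by
    rw [Nat.cast_pow]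
    exact hinv _ 14 (by norm_num)
  have b3 : 100 / ((p ^ 15 : ℕ) : ℝ) ≤ 1 / (p : ℝ) ^ 14 := by
    rw [Nat.cast_pow]
    exact hinv _ 14 (by norm_num)
  have b4 : 3 / (p : ℝ) ^ 13 ≤ 1 / (p : ℝ) ^ 12 := hinv _ 12 (by norm_num)
  have m1 := hmono (show 13 ≤ 22 by norm_num)
  have m2 := hmono (show 13 ≤ 14 by norm_num)
  have m3 := hmono (show 1 ≤ 13 by norm_num)
  have m4 := hmono (show 1 ≤ 12 by norm_num)
  have m5 := hmono (show 1 ≤ 20 by norm_num)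
  refine gen_FLCoords m p n (p - 4 * n) (p ^ 15) (2 ^ p ^ 7) (2 * p ^ 18 + 2) (p ^ 21) (2 ^ p ^ 18) _
    (1 / 2 ^ p ^ 17) (1 / (p : ℝ) ^ 22) (1 / (p : ℝ) ^ 12) hsq h4 hmax hodd hn (by omega) a5 (by omega)
    e D (fun l hl => ⟨(hD l hl).1, lt_of_lt_of_le (by omega) (hD l hl).2⟩) he
    (one_le_pow₀ (by norm_num)) Nat.one_le_two_pow ?_ rfl ?_ (by positivity) ?_ ?_ ?_ ?_ ?_ ?_ ?_
  · have h1 : p ^ 15 * (2 * p ^ 18 + 2) ≤ p ^ 15 * (4 * p ^ 18) :=
      Nat.mul_le_mul_left _ (by omega)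
    have e1 : p ^ 15 * (4 * p ^ 18) = 4 * p ^ 33 := by ring
    omega
  · have h1 : (2 : ℝ) ^ p ^ 16 ≤ 2 ^ p ^ 18 := pow_le_pow_right₀ (by norm_num) (by omega)
    have e1 : (2 : ℝ) ^ (2 * p ^ 18 + 2) = (2 ^ p ^ 18 + 2 ^ p ^ 18) ^ 2 := by
      rw [pow_add, mul_comm 2 (p ^ 18), pow_mul]
      generalize (2 : ℝ) ^ p ^ 18 = t
      ring
    rw [e1]
    exact pow_le_pow_left₀ (by positivity) (by linarith) 2
  · rw [he]
    refine (wt_primes _ _ (p ^ 60) (by omega) D hD).trans ?_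
    have h1 : (D.card : ℝ) ≤ (p : ℝ) ^ 37 := by exact_mod_cast hDc
    have h2 : (1 : ℝ) / ((2 ^ p ^ 7 : ℕ) : ℝ) ≤ 1 / ((p ^ 60 : ℕ) : ℝ) :=
      one_div_le_one_div_of_le (by positivity) (by exact_mod_cast h60)
    calc (D.card : ℝ) * (1 / ((p ^ 60 : ℕ) : ℝ) + 1 / ((2 ^ p ^ 7 : ℕ) : ℝ))
        ≤ (p : ℝ) ^ 37 * (1 / ((p ^ 60 : ℕ) : ℝ) + 1 / ((p ^ 60 : ℕ) : ℝ)) := by gcongr
      _ = 2 / (p : ℝ) ^ (22 + 1) := by
          push_cast
          field_simp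
          norm_num
      _ ≤ 1 / (p : ℝ) ^ 22 := hinv _ _ (by norm_num)
  · have h1 : 2 * (((p - 4 * n : ℕ) : ℝ) + 1) * (1 / (p : ℝ) ^ 22) ≤ 1 / (p : ℝ) ^ 20 := by
      calc 2 * (((p - 4 * n : ℕ) : ℝ) + 1) * (1 / (p : ℝ) ^ 22) ≤ 2 * (2 * p) * (1 / (p : ℝ) ^ 22) := by
            gcongr
        _ = 4 / (p : ℝ) ^ (20 + 1) := by
            field_simp
            ring
        _ ≤ 1 / (p : ℝ) ^ 20 := hinv _ _ (by norm_num)
    have h2 : 220 * (((p - 4 * n : ℕ) : ℝ) + 1) ^ 2 / ((p ^ 15 : ℕ) : ℝ) ≤ 1 / (p : ℝ) ^ 12 := by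
      calc 220 * (((p - 4 * n : ℕ) : ℝ) + 1) ^ 2 / ((p ^ 15 : ℕ) : ℝ)
          ≤ 220 * (2 * p) ^ 2 / ((p ^ 15 : ℕ) : ℝ) := by gcongr
        _ = 880 / (p : ℝ) ^ (12 + 1) := by
            push_cast
            field_simp
            norm_num
        _ ≤ 1 / (p : ℝ) ^ 12 := hinv _ _ (by norm_num)
    linarith
  · linarith
  · have e1 : 3 / (p : ℝ) ^ 13 = 3 * (1 / (p : ℝ) ^ 13) := by ring
    linarith
  · have h1 : (2 : ℝ) ^ (2 + p ^ 16 + p ^ 17) ≤ 2 ^ p ^ 18 := pow_le_pow_right₀ (by norm_num) (by omega)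
    rw [pow_add, pow_add] at h1
    rw [one_div, inv_mul_eq_div, le_div_iff₀ (by positivity)]
    refine le_trans ?_ h1
    have e1 : (2 : ℝ) ^ 2 = 4 := by norm_num
    rw [e1]
    gcongr
  · rw [div_le_one (by positivity)]
    exact one_le_pow₀ (by norm_num)
  · have h1 : (2 * p ^ 18 + 2) * (2 * (p - 4 * n) + 2) ≤ (4 * p ^ 18) * (4 * p) :=
      Nat.mul_le_mul (by omega) (by omega)
    have e1 : (4 * p ^ 18) * (4 * p) = 16 * p ^ 19 := by ring
    omega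

end Pool.Agent.P.MP_b75a1e_co.EG
end

-- part Pool.Agent.P.MP_b75a1e_co.FLCount0
section

set_option autoImplicit false

open Finset
open scoped BigOperators ComplexConjugate

namespace Pool.Agent.P.MP_b75a1e_co.EG

variable {m y J : ℕ} {k : ℝ} {F : Finset (O m)}

theorem gcd_sum_nat_FLCount0 (g J : ℕ) (hg : 1 ≤ g) :
    ∑ j ∈ Icc 1 J, Nat.gcd j g ≤ g.divisors.card * J := by
  have h1 : ∀ j ∈ Icc 1 J, Nat.gcd j g ≤ ∑ f ∈ g.divisors, if f ∣ j then f else 0 := by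
    intro j _
    have hm : Nat.gcd j g ∈ g.divisors :=
      Nat.mem_divisors.2 ⟨Nat.gcd_dvd_right j g, by omega⟩
    have := single_le_sum (f := fun f => if f ∣ j then f else 0) (s := g.divisors)
      (fun _ _ => Nat.zero_le _) hm
    simpa [Nat.gcd_dvd_left j g] using this
  refine (sum_le_sum h1).trans ?_
  rw [sum_comm]
  have h2 : ∀ f ∈ g.divisors, (∑ j ∈ Icc 1 J, if f ∣ j then f else 0) ≤ J := by
    intro f _
    have e : Icc 1 J = Ioc 0 J := by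
      ext x
      simp only [mem_Icc, mem_Ioc]
      omega
    rw [← sum_filter, sum_const, e, Nat.Ioc_filter_dvd_card_eq_div, smul_eq_mul]
    exact Nat.div_mul_le_self J f
  have := sum_le_card_nsmul _ _ _ h2
  simpa using this

theorem gcd_sum (g J : ℕ) (hg : 1 ≤ g) :
    ∑ j ∈ Icc 1 J, (Nat.gcd j g : ℝ) ≤ g.divisors.card * J := by
  exact_mod_cast gcd_sum_nat_FLCount0 g J hg

theorem two_FLCount0 (S : Finset (O m)) (l : ℕ) (hl : 0 < l) (c t : ℤ)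
    (h : ∀ δ ∈ S, 0 ≤ δ.re ∧ δ.re < 2 * l ∧ (l : ℤ) ∣ δ.re - c ∧ δ.im = t) : S.card ≤ 2 := by
  have hl' : (0 : ℤ) < l := by exact_mod_cast hl
  have h2 : (Ico (0 : ℤ) 2).card = 2 := by simp
  rw [← h2]
  refine card_le_card_of_injOn (fun δ => δ.re / l) (fun δ hδ => ?_) (fun δ hδ δ' hδ' e => ?_)
  · obtain ⟨a, b, -, -⟩ := h δ hδ
    simp only [coe_Ico, Set.mem_Ico]
    exact ⟨Int.ediv_nonneg a hl'.le, Int.ediv_lt_of_lt_mul hl' b⟩
  · obtain ⟨-, -, a, b⟩ := h δ hδ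
    obtain ⟨-, -, a', b'⟩ := h δ' hδ'
    have e' : δ.re / l = δ'.re / l := e
    have d : (l : ℤ) ∣ δ'.re - δ.re := by
      have := dvd_sub a' a
      rwa [sub_sub_sub_cancel_right] at this
    have md : δ.re % l = δ'.re % l := (Int.emod_emod_of_dvd _ dvd_rfl).symm.trans
      ((Int.emod_emod_of_dvd _ dvd_rfl).trans (Int.modEq_iff_dvd.2 d))
    have e1 := Int.mul_ediv_add_emod δ.re l
    have e2 := Int.mul_ediv_add_emod δ'.re l
    refine Zsqrtd.ext ?_ (b.trans b'.symm)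
    rw [← e1, ← e2, e', md]

open Classical in
theorem cnt_prime_nat_FLCount0 (h : Fam m y J k F) {l : ℕ} (hl : l.Prime) (hy : y < l) :
    (F.filter fun δ => (l : ℤ) ∣ δ.norm).card ≤ 12 * J := by
  have hp := Nat.prime_iff_prime_int.1 hl
  have hy' : (y : ℤ) < l := by exact_mod_cast hy
  have key := card_le_mul_card_image_of_maps_to (s := F.filter fun δ => (l : ℤ) ∣ δ.norm)
    (t := (Icc (-(J : ℤ)) J).image fun j => (m : ℤ) * j) (f := fun δ => δ.im) (fun δ hδ => by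
      obtain ⟨-, -, ⟨j, hj⟩, hb⟩ := h.box δ (mem_filter.1 hδ).1
      rcases Nat.eq_zero_or_pos m with hm | hm
      · refine mem_image.2 ⟨0, mem_Icc.2 ⟨by omega, by omega⟩, ?_⟩
        rw [hj, hm]
        simp
      · refine mem_image.2 ⟨j, mem_Icc.2 (abs_le.1 ?_), hj.symm⟩
        have hm' : (0 : ℤ) < m := by exact_mod_cast hm
        rw [hj, abs_mul, abs_of_pos hm'] at hb
        exact le_of_mul_le_mul_left hb hm') 4 (fun t _ => by
      rcases ((F.filter fun δ => (l : ℤ) ∣ δ.norm).filter fun δ => δ.im = t).eq_empty_or_nonempty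
        with he | ⟨δ0, h0⟩
      · rw [he]
        simp
      · have hsub : ((F.filter fun δ => (l : ℤ) ∣ δ.norm).filter fun δ => δ.im = t) ⊆
            ((F.filter fun δ => (l : ℤ) ∣ δ.re - δ0.re ∧ δ.im = t) ∪
              (F.filter fun δ => (l : ℤ) ∣ δ.re - (-δ0.re) ∧ δ.im = t)) := by
          intro δ hδ
          simp only [mem_filter, mem_union] at hδ h0 ⊢
          have d : (l : ℤ) ∣ (δ.re - δ0.re) * (δ.re - (-δ0.re)) := by
            have := dvd_sub hδ.1.2 h0.1.2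
            rw [norm_eq, norm_eq, hδ.2, h0.2] at this
            refine this.trans (dvd_of_eq ?_)
            ring
          rcases hp.dvd_or_dvd d with d | d
          · exact Or.inl ⟨hδ.1.1, d, hδ.2⟩
          · exact Or.inr ⟨hδ.1.1, d, hδ.2⟩
        have hb : ∀ c : ℤ, (F.filter fun δ => (l : ℤ) ∣ δ.re - c ∧ δ.im = t).card ≤ 2 := by
          intro c
          refine two_FLCount0 _ l hl.pos c t fun δ hδ => ?_
          obtain ⟨a, b, -, -⟩ := h.box δ (mem_filter.1 hδ).1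
          exact ⟨by omega, by omega, (mem_filter.1 hδ).2⟩
        have h1 := hb δ0.re
        have h2 := hb (-δ0.re)
        have h3 := (card_le_card hsub).trans (card_union_le _ _)
        omega)
  have hc : ((Icc (-(J : ℤ)) J).image fun j => (m : ℤ) * j).card ≤ 2 * J + 1 := by
    refine card_image_le.trans ?_
    rw [Int.card_Icc]
    omega
  have := h.pos
  omega

open Classical in
theorem cnt_prime (h : Fam m y J k F) {l : ℕ} (hl : l.Prime) (hy : y < l) :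
    ((F.filter fun δ => (l : ℤ) ∣ δ.norm).card : ℝ) ≤ 12 * J := by
  exact_mod_cast cnt_prime_nat_FLCount0 h hl hy

open Classical in
theorem cnt_cop (h : Fam m y J k F) {δ0 : O m} (h0 : δ0 ∈ F) :
    ((F.filter fun δ => ¬ Nat.Coprime δ0.norm.natAbs δ.norm.natAbs).card : ℝ) * y ≤
      24 * k * F.card := by
  obtain ⟨l, l', hl, hl', -, hy, hy', -, -, hn⟩ := h.nrm δ0 h0
  have hsub : (F.filter fun δ => ¬ Nat.Coprime δ0.norm.natAbs δ.norm.natAbs) ⊆
      (F.filter fun δ => (l : ℤ) ∣ δ.norm) ∪ (F.filter fun δ => (l' : ℤ) ∣ δ.norm) := by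
    intro δ hδ
    simp only [mem_filter, mem_union] at hδ ⊢
    by_contra hc
    refine hδ.2 ?_
    have e : δ0.norm.natAbs = l * l' := by
      rw [hn, Int.natAbs_mul, Int.natAbs_natCast, Int.natAbs_natCast]
    rw [e]
    refine Nat.Coprime.mul_left ((Nat.Prime.coprime_iff_not_dvd hl).2 fun d => hc ?_)
      ((Nat.Prime.coprime_iff_not_dvd hl').2 fun d => hc ?_)
    · exact Or.inl ⟨hδ.1, Int.natCast_dvd.2 d⟩
    · exact Or.inr ⟨hδ.1, Int.natCast_dvd.2 d⟩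
  have h1 := cnt_prime_nat_FLCount0 h hl hy
  have h2 := cnt_prime_nat_FLCount0 h hl' hy'
  have h3 := (card_le_card hsub).trans (card_union_le _ _)
  have h4 : (F.filter fun δ => ¬ Nat.Coprime δ0.norm.natAbs δ.norm.natAbs).card ≤ 24 * J := by
    omega
  have h5 : ((F.filter fun δ => ¬ Nat.Coprime δ0.norm.natAbs δ.norm.natAbs).card : ℝ) ≤
      24 * J := by exact_mod_cast h4
  have h6 := mul_le_mul_of_nonneg_right h5 (Nat.cast_nonneg (α := ℝ) y)
  have h7 := h.big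
  linarith

theorem short_FLCount0 (S : Finset (O m)) (R : ℝ) (c : ℤ)
    (h : ∀ δ ∈ S, δ.re = c) (h' : ∀ δ ∈ S, ∀ δ' ∈ S, ((δ.im : ℝ) - δ'.im) ≤ R) :
    S.card ≤ ⌊R⌋₊ + 1 := by
  rcases S.eq_empty_or_nonempty with he | hne
  · rw [he]
    simp
  obtain ⟨δ0, h0, hmin⟩ := exists_min_image S (fun δ => δ.im) hne
  have h2 : (Icc δ0.im (δ0.im + ⌊R⌋₊)).card = ⌊R⌋₊ + 1 := by
    rw [Int.card_Icc]
    omega
  rw [← h2]
  refine card_le_card_of_injOn (fun δ => δ.im) (fun δ hδ => ?_) (fun δ hδ δ' hδ' e => ?_)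
  · simp only [coe_Icc, Set.mem_Icc]
    have a := hmin δ hδ
    refine ⟨a, ?_⟩
    have b := h' δ hδ δ0 h0
    obtain ⟨n, hn⟩ := Int.eq_ofNat_of_zero_le (sub_nonneg.2 a)
    have c1 : (n : ℝ) ≤ R := by
      have : ((δ.im - δ0.im : ℤ) : ℝ) = (n : ℝ) := by rw [hn]; simp
      push_cast at this
      linarith
    have c2 : n ≤ ⌊R⌋₊ := Nat.le_floor c1
    omega
  · exact Zsqrtd.ext ((h δ hδ).trans (h δ' hδ').symm) e

theorem im_small_FLCount0 (hm : 1 ≤ m) {δ : O m} (hT : InBox m y J δ) (hJ : 10 * m ^ 2 * J ≤ y) :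
    10 * (|(δ.im : ℝ)| * Real.sqrt m) ≤ y := by
  have h1 : |(δ.im : ℝ)| ≤ m * J := by exact_mod_cast hT.2.2.2
  have hm' : (1 : ℝ) ≤ m := by exact_mod_cast hm
  have h2 : Real.sqrt m ≤ m := by
    rw [Real.sqrt_le_left (by linarith)]
    nlinarith
  have h3 : (10 : ℝ) * m ^ 2 * J ≤ y := by exact_mod_cast hJ
  have h4 := mul_le_mul h1 h2 (Real.sqrt_nonneg _) (by positivity)
  nlinarith

theorem diff_FLCount0 (hm : 1 ≤ m) {δ δ' : O m} (hT : InBox m y J δ) (hT' : InBox m y J δ')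
    (hJ : 10 * m ^ 2 * J ≤ y) (ω : ℂ) (hω : 1 ≤ ‖ω‖) (r : ℝ) (e : δ.re = δ'.re)
    (h : |(ω * ph m δ).re| ≤ r) (h' : |(ω * ph m δ').re| ≤ r) : (δ.im : ℝ) - δ'.im ≤ 3 * r := by
  have hr : 0 ≤ r := (abs_nonneg _).trans h
  have s1 : 1 ≤ Real.sqrt m := Real.one_le_sqrt.2 (by exact_mod_cast hm)
  have a := im_small_FLCount0 hm hT hJ
  have a' := im_small_FLCount0 hm hT' hJ
  have n2 : 1 ≤ ω.re ^ 2 + ω.im ^ 2 := by
    have := Complex.sq_norm ω
    rw [Complex.normSq_apply] at this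
    nlinarith
  rw [Complex.mul_re, ph_re, ph_im] at h h'
  by_cases c1 : (y : ℝ) < 10 * r
  · have b := le_mul_of_one_le_right (abs_nonneg (δ.im : ℝ)) s1
    have b' := le_mul_of_one_le_right (abs_nonneg (δ'.im : ℝ)) s1
    have := le_abs_self (δ.im : ℝ)
    have := neg_abs_le (δ'.im : ℝ)
    linarith
  · rw [not_lt] at c1
    by_cases c2 : |ω.im| ≤ |ω.re|
    · exfalso
      have x1 : (y : ℝ) < 2 * δ.re := by exact_mod_cast hT.1
      have y0 : (0 : ℝ) ≤ y := Nat.cast_nonneg y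
      have w1 : 7 / 10 ≤ |ω.re| := by
        by_contra hc
        rw [not_le] at hc
        have := sq_abs ω.re
        have := sq_abs ω.im
        nlinarith [abs_nonneg ω.re, abs_nonneg ω.im]
      have t1 : |ω.re * δ.re| ≤ r + |ω.im * (δ.im * Real.sqrt m)| := by
        have := abs_add_le (ω.re * δ.re - ω.im * (δ.im * Real.sqrt m))
          (ω.im * (δ.im * Real.sqrt m))
        rw [sub_add_cancel] at this
        linarith
      rw [abs_mul, abs_mul, abs_mul, abs_of_nonneg (Real.sqrt_nonneg _),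
        abs_of_nonneg (show (0 : ℝ) ≤ δ.re by linarith)] at t1
      have p0 : 0 ≤ |(δ.im : ℝ)| * Real.sqrt m := by positivity
      have t2 := mul_le_mul_of_nonneg_right c2 p0
      have t3 : 4 / 10 * (y : ℝ) < δ.re - |(δ.im : ℝ)| * Real.sqrt m := by linarith
      have t4 := mul_le_mul_of_nonneg_right w1
        (show 0 ≤ δ.re - |(δ.im : ℝ)| * Real.sqrt m by linarith)
      nlinarith
    · rw [not_le] at c2
      have w1 : 7 / 10 ≤ |ω.im| := by
        by_contra hc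
        rw [not_le] at hc
        have := sq_abs ω.re
        have := sq_abs ω.im
        nlinarith [abs_nonneg ω.re, abs_nonneg ω.im]
      have t1 : |ω.im * (((δ.im : ℝ) - δ'.im) * Real.sqrt m)| ≤ 2 * r := by
        have := abs_sub (ω.re * δ'.re - ω.im * (δ'.im * Real.sqrt m))
          (ω.re * δ.re - ω.im * (δ.im * Real.sqrt m))
        have e2 : ω.re * δ'.re - ω.im * (δ'.im * Real.sqrt m) -
            (ω.re * δ.re - ω.im * (δ.im * Real.sqrt m)) =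
            ω.im * (((δ.im : ℝ) - δ'.im) * Real.sqrt m) := by
          rw [e]
          ring
        rw [e2] at this
        linarith
      rw [abs_mul, abs_mul, abs_of_nonneg (Real.sqrt_nonneg _)] at t1
      have b := le_mul_of_one_le_right (abs_nonneg ((δ.im : ℝ) - δ'.im)) s1
      have t2 := mul_le_mul w1 b (abs_nonneg _) (abs_nonneg _)
      have := le_abs_self ((δ.im : ℝ) - δ'.im)
      linarith

open Classical in
theorem cnt_line (hm : 1 ≤ m) (T : Finset (O m)) (hT : ∀ δ ∈ T, InBox m y J δ)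
    (hJ : 10 * m ^ 2 * J ≤ y) (ω : ℂ) (hω : 1 ≤ ‖ω‖) (r : ℝ) (hr : 0 ≤ r) :
    ((T.filter fun δ => |(ω * ph m δ).re| ≤ r).card : ℝ) ≤ 2 * y * (3 * r + 1) := by
  have key := card_le_mul_card_image_of_maps_to (s := T.filter fun δ => |(ω * ph m δ).re| ≤ r)
    (t := Ioc (0 : ℤ) (2 * y)) (f := fun δ => δ.re) (fun δ hδ => by
      obtain ⟨a, b, -, -⟩ := hT δ (mem_filter.1 hδ).1
      exact mem_Ioc.2 ⟨by omega, b⟩) (⌊3 * r⌋₊ + 1) (fun c _ => by
      refine short_FLCount0 _ _ c (fun δ hδ => (mem_filter.1 hδ).2) fun δ hδ δ' hδ' => ?_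
      simp only [mem_filter] at hδ hδ'
      exact diff_FLCount0 hm (hT δ hδ.1.1) (hT δ' hδ'.1.1) hJ ω hω r (hδ.2.trans hδ'.2.symm)
        hδ.1.2 hδ'.1.2)
  have hc : (Ioc (0 : ℤ) (2 * y)).card = 2 * y := by
    rw [Int.card_Ioc]
    omega
  rw [hc] at key
  have k2 : ((T.filter fun δ => |(ω * ph m δ).re| ≤ r).card : ℝ) ≤
      ((⌊3 * r⌋₊ : ℝ) + 1) * (2 * y) := by exact_mod_cast key
  have k3 : (⌊3 * r⌋₊ : ℝ) ≤ 3 * r := Nat.floor_le (by linarith)
  have y0 : (0 : ℝ) ≤ y := Nat.cast_nonneg y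
  nlinarith

open Classical in
theorem cnt_arc (h : Fam m y J k F) (hm : 1 ≤ m) (hJ : y ≤ 20 * m ^ 2 * J) {δ0 : O m} (h0 : δ0 ∈ F)
    (a : ℝ) (ha : 0 ≤ a) :
    ((F.filter fun δ => |(ph m δ * conj (ph m δ0)).im| ≤ a * (y : ℝ) ^ 2).card : ℝ) ≤
      40 * k * (m : ℝ) ^ 2 * (3 * a + 1 / y) * F.card := by
  have hy : 0 < y := by
    have h1 := h.thin
    have h2 := h.pos
    have h3 : 0 < 10 * m ^ 2 * J := by positivity
    omega
  have y0 : (0 : ℝ) < y := by exact_mod_cast hy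
  have hω : 1 ≤ ‖-Complex.I * conj (ph m δ0) / (y : ℂ)‖ := by
    rw [norm_div, norm_mul, norm_neg, Complex.norm_I, one_mul, Complex.norm_conj,
      Complex.norm_natCast, one_le_div y0]
    exact (h.abs h0).1.le
  have key := cnt_line hm F h.box h.thin _ hω (a * y) (by positivity)
  have hsub : (F.filter fun δ => |(ph m δ * conj (ph m δ0)).im| ≤ a * (y : ℝ) ^ 2) ⊆
      F.filter fun δ => |(-Complex.I * conj (ph m δ0) / (y : ℂ) * ph m δ).re| ≤ a * y := by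
    intro δ hδ
    simp only [mem_filter] at hδ ⊢
    refine ⟨hδ.1, ?_⟩
    have e : -Complex.I * conj (ph m δ0) / (y : ℂ) * ph m δ =
        -Complex.I * (ph m δ * conj (ph m δ0)) / ((y : ℝ) : ℂ) := by
      push_cast
      ring
    have e2 : (-Complex.I * (ph m δ * conj (ph m δ0))).re = (ph m δ * conj (ph m δ0)).im := by
      generalize ph m δ * conj (ph m δ0) = z
      simp
    rw [e, Complex.div_ofReal_re, e2, abs_div, abs_of_pos y0, div_le_iff₀ y0]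
    linarith [hδ.2]
  have k1 : ((F.filter fun δ => |(ph m δ * conj (ph m δ0)).im| ≤ a * (y : ℝ) ^ 2).card : ℝ) ≤
      2 * y * (3 * (a * y) + 1) := le_trans (by exact_mod_cast card_le_card hsub) key
  have k2 : (y : ℝ) ≤ 20 * m ^ 2 * J := by exact_mod_cast hJ
  have k3 := h.big
  have p : 0 ≤ 3 * a + 1 / (y : ℝ) := by positivity
  have k4 : (y : ℝ) * y ≤ 20 * m ^ 2 * (k * F.card) := by
    have t1 := mul_le_mul_of_nonneg_left k2 y0.le
    have t2 := mul_le_mul_of_nonneg_left k3 (show (0 : ℝ) ≤ 20 * m ^ 2 by positivity)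
    linarith
  have k5 := mul_le_mul_of_nonneg_right k4 p
  have e : 2 * (y : ℝ) * (3 * (a * y) + 1) = 2 * (y * y * (3 * a + 1 / y)) := by
    field_simp
  rw [e] at k1
  linarith

end Pool.Agent.P.MP_b75a1e_co.EG
end

-- part Pool.Agent.P.MP_b75a1e_co.FLEnd
section

set_option autoImplicit false

open Finset
open scoped BigOperators ComplexConjugate

namespace Pool.Agent.P.MP_b75a1e_co.EG

lemma dev_FLEnd {m n : ℕ} {G2 A : O m} (h : Rep m G2.norm n (ph m A)) :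
    ‖ph m (A - (n : O m) * G2)‖ ≤ 2 * n * ‖ph m G2‖ := by
  have h1 := h.norm_le
  rw [nsqrt_EGEnd] at h1
  have h2 := nsub_EGEnd A ((n : O m) * G2)
  rw [nnat_EGEnd] at h2
  linarith

lemma pair_sum_FLEnd {m : ℕ} (g G2 A A' : O m) (n : ℕ) (N : ℤ) (hN : g.norm * G2.norm = N)
    (h : Rep m G2.norm n (ph m A)) (h' : Rep m G2.norm n (ph m A')) :
    Rep m N (n + n) (ph m (g * A + star (g * A'))) := by
  have a := h.mul_left g
  have b := (h'.mul_left g).conj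
  have hN' : (g.norm : ℝ) * G2.norm = N := by exact_mod_cast hN
  rw [hN', ← map_mul] at a b
  rw [← ph_star] at b
  rw [map_add]
  exact a.add b

open Classical in
/-- From the families of summands to a closed walk. -/
theorem endgame_FLEnd (m p Y Q Mg n1 n2 Nf : ℕ) (H NN0 ε : ℝ) {Ω Ω' : Type} [Fintype Ω] [Fintype Ω']
    [Nonempty Ω] [Nonempty Ω'] (zg G2 S : O m) (A A' : Ω → O m) (B B' : Ω' → O m) (W : ℕ → ℝ)
    (hm : 1 ≤ m) (hp1 : 1 ≤ p) (hQ : 1 ≤ Q) (hQm : Nat.Coprime Q m) (hQM : Q ∣ Mg) (hH : 1 ≤ H)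
    (hM1 : 8 * p * Real.sqrt NN0 ≤ Mg) (hM2 : (Mg : ℝ) ≤ 9 * p * Real.sqrt NN0)
    (hN : (100 * Q * p * H) ^ 2 ≤ NN0) (hε0 : 0 ≤ ε)
    (hε : 10 * p * ε * (Q : ℝ) ^ 2 * (p : ℝ) ^ 2 * H ^ 5 ≤ 1 / 10 ^ 9)
    (hp : 4 * (n1 + n2) + Nf = p) (hNN : ((star zg * G2).norm : ℝ) ≤ 2 * NN0)
    (hg1 : (Q : O m) ∣ zg + star zg) (hg2 : (m : O m) ^ 2 ∣ zg - 1)
    (hg3 : ‖ph m (zg + star zg)‖ ≤ ε * ‖ph m zg‖)
    (hA : ∀ ω, Rep m G2.norm n1 (ph m (A ω)) ∧ mu m ∣ A ω - (n1 : O m) * G2)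
    (hA' : ∀ ω, Rep m G2.norm n1 (ph m (A' ω)) ∧ mu m ∣ A' ω - (n1 : O m) * G2)
    (hB : ∀ ω, SumOf G2.norm n2 (B ω) ∧ (Q : O m) * mu m ∣ B ω - (n2 : O m) * G2 ∧
      ‖ph m (B ω - (n2 : O m) * G2)‖ ≤ n2 * ε * ‖ph m G2‖)
    (hB' : ∀ ω, SumOf G2.norm n2 (B' ω) ∧ (Q : O m) * mu m ∣ B' ω - (n2 : O m) * G2 ∧
      ‖ph m (B' ω - (n2 : O m) * G2)‖ ≤ n2 * ε * ‖ph m G2‖)
    (hS : Rep m (star zg * G2).norm Nf (ph m S) ∧ (Q : O m) ∣ S ∧
      mu m ∣ S + ((4 * (n1 + n2 : ℕ) * (star zg * G2).re : ℤ) : O m) ∧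
      ‖ph m S‖ ≤ p * ε * ‖ph m (star zg * G2)‖)
    (h1 : ∑ n ∈ (grid Mg).filter (fun n => ¬ Low m (gp m Mg n) H NN0),
      ‖ch (fun ω => star zg * A ω + star (star zg * A' ω)) (gp m Mg n / ph m (mu m))‖ ≤ 1 / 10)
    (h2 : ∑ n ∈ (grid Mg).filter
      (fun n => ∃ (β : O m) (d : ℕ), Near m (gp m Mg n) β d H NN0 ∧ Deep Y Q d),
      ‖ch (fun ω => star zg * A ω + star (star zg * A' ω)) (gp m Mg n / ph m (mu m))‖ ≤ 1 / 10)
    (h3 : ∀ (d : ℕ) (β : O m), 1 < d → (d : ℝ) ≤ H → Rough Y d → PrimAt β d →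
      ‖ch (fun ω => dv (star zg * B ω + star (star zg * B' ω) -
        (n2 : O m) * (star zg * G2 + star (star zg * G2)))) (ph m β / d)‖ ≤ W d)
    (hW0 : ∀ d, 0 ≤ W d)
    (h4 : ∑ d ∈ (Icc 2 ⌊H⌋₊).filter (Rough Y), (d : ℝ) ^ 2 * W d ≤ 1 / 100) :
    Rep m (star zg * G2).norm p 0 := by
  have hnz : (star zg).norm = zg.norm := Zsqrtd.norm_conj zg
  have hN1 : (star zg).norm * G2.norm = (star zg * G2).norm := (Zsqrtd.norm_mul _ _).symm
  have hN2 : zg.norm * G2.norm = (star zg * G2).norm := by rw [← hN1, hnz]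
  set s := Real.sqrt NN0 with hs
  have hs0 : 0 ≤ s := Real.sqrt_nonneg _
  have hNN0 : 0 ≤ NN0 := le_trans (sq_nonneg _) hN
  set a := ‖ph m zg‖ with ha
  set b := ‖ph m G2‖ with hb
  have a0 : 0 ≤ a := norm_nonneg _
  have b0 : 0 ≤ b := norm_nonneg _
  have hsa : ‖ph m (star zg)‖ = a := nstar_EGEnd zg
  have hG : ‖ph m (star zg * G2)‖ = a * b := by rw [nmul_EGEnd, hsa]
  have hab : a * b ≤ 2 * s := by
    have e1 : (a * b) ^ 2 ≤ (2 * s) ^ 2 := by
      have e2 : s ^ 2 = NN0 := Real.sq_sqrt hNN0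
      rw [← hG, norm_sq_ph, mul_pow, e2]
      linarith
    exact (sq_le_sq₀ (mul_nonneg a0 b0) (by positivity)).1 e1
  have ab0 : 0 ≤ a * b := mul_nonneg a0 b0
  have hn1 : (4 : ℝ) * n1 ≤ p := by exact_mod_cast (show 4 * n1 ≤ p by omega)
  have hn2 : (4 : ℝ) * n2 ≤ p := by exact_mod_cast (show 4 * n2 ≤ p by omega)
  have hn : (4 : ℝ) * (n1 + n2 : ℕ) ≤ p := by exact_mod_cast (show 4 * (n1 + n2) ≤ p by omega)
  have p0 : (0 : ℝ) ≤ p := Nat.cast_nonneg _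
  have pe : 0 ≤ (p : ℝ) * ε := mul_nonneg p0 hε0
  have key : (p : ℝ) * ε * (a * b) ≤ p * ε * (2 * s) := mul_le_mul_of_nonneg_left hab pe
  have pes : 0 ≤ (p : ℝ) * ε * s := mul_nonneg pe hs0
  choose x hx using fun ω => (hA ω).2
  choose x' hx' using fun ω => (hA' ω).2
  choose y hy using fun ω => (hB ω).2.1
  choose y' hy' using fun ω => (hB' ω).2.1
  have eX := fun ω => pair_mu_EGEnd (star zg) G2 (A ω) (A' ω) (x ω) (x' ω) n1 (hx ω) (hx' ω)
  have eXt := fun ω => pair_mu_EGEnd zg G2 (A ω) (A' ω) (x ω) (x' ω) n1 (hx ω) (hx' ω)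
  have eZ := fun ω => pair_mu_EGEnd (star zg) G2 (B ω) (B' ω) ((Q : O m) * y ω) ((Q : O m) * y' ω) n2
    (by rw [hy ω]; ring) (by rw [hy' ω]; ring)
  have hT : mu m ∣ ((n1 + n2 : ℕ) : O m) * ((zg + star zg) * (G2 + star G2)) + S := by
    have d1 : (m : O m) ^ 2 ∣ star zg - 1 := by
      have := dvd_star hg2
      simpa using this
    have d2 : mu m ∣ zg - star zg := by
      have := dvd_sub hg2 d1
      rw [show zg - 1 - (star zg - 1) = zg - star zg by ring] at this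
      exact mu_dvd_sq.trans this
    have e : ((n1 + n2 : ℕ) : O m) * ((zg + star zg) * (G2 + star G2)) + S =
        (S + ((4 * (n1 + n2 : ℕ) * (star zg * G2).re : ℤ) : O m)) +
          (zg - star zg) * (((n1 + n2 : ℕ) : O m) * (G2 - star G2)) := by
      have e1 : ((4 * (n1 + n2 : ℕ) * (star zg * G2).re : ℤ) : O m) =
          2 * ((n1 + n2 : ℕ) : O m) * ((2 * (star zg * G2).re : ℤ) : O m) := by
        push_cast
        ring
      rw [e1, two_re_EGEnd]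
      simp only [star_mul', star_star]
      ring
    rw [e]
    exact dvd_add hS.2.2.1 (Dvd.dvd.mul_right d2 _)
  obtain ⟨t, ht⟩ := hT
  have hQt : (Q : O m) ∣ t := by
    have c1 : IsCoprime (Q : O m) (m : O m) := hQm.cast
    have c2 : IsCoprime (Q : O m) (mu m) := (c1.pow_right (n := 2)).of_isCoprime_of_dvd_right mu_dvd_sq
    refine c2.dvd_of_dvd_mul_left ?_
    rw [← ht]
    exact dvd_add (Dvd.dvd.mul_left (Dvd.dvd.mul_right hg1 _) _) hS.2.1
  have main := circle m p Y Q Mg H NN0 (10 * p * ε)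
    (fun ω => dv (star zg * A ω + star (star zg * A' ω) -
      (n1 : O m) * (star zg * G2 + star (star zg * G2))))
    (fun ω => dv (zg * A ω + star (zg * A' ω) - (n1 : O m) * (zg * G2 + star (zg * G2))))
    (fun ω => dv (star zg * B ω + star (star zg * B' ω) -
      (n2 : O m) * (star zg * G2 + star (star zg * G2))))
    (-t) W hm hp1 hQ hQM hH hM1 hM2 hN (by positivity) hε ?_ ?_ ?_ ?_ ?_ ?_ h3 hW0 h4
  · obtain ⟨ω, ω', ω'', hE⟩ := main
    rw [eX, eXt, eZ, dv_mu_EGEnd hm, dv_mu_EGEnd hm, dv_mu_EGEnd hm] at hE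
    have s1 := pair_sum_FLEnd (star zg) G2 (A ω) (A' ω) n1 _ hN1 (hA ω).1 (hA' ω).1
    have s2 := pair_sum_FLEnd zg G2 (A ω') (A' ω') n1 _ hN2 (hA ω').1 (hA' ω').1
    have s3 := pair_sum_EGEnd (star zg) G2 (B ω'') (B' ω'') n2 _ hN1 (hB ω'').1 (hB' ω'').1
    have s0 : SumOf G2.norm n2 ((n2 : O m) * G2) := SumOf.smul rfl n2
    have s4 := pair_sum_EGEnd zg G2 _ _ n2 _ hN2 s0 s0
    have r := (((s1.add s2).add s3.rep).add s4.rep).add hS.1
    rw [show n1 + n1 + (n1 + n1) + (n2 + n2) + (n2 + n2) + Nf = p by omega, ← map_add, ← map_add,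
      ← map_add, ← map_add] at r
    have z : star zg * A ω + star (star zg * A' ω) + (zg * A ω' + star (zg * A' ω')) +
        (star zg * B ω'' + star (star zg * B' ω'')) +
        (zg * ((n2 : O m) * G2) + star (zg * ((n2 : O m) * G2))) + S = 0 := by
      have f1 := eX ω
      have f2 := eXt ω'
      have f3 := eZ ω''
      simp only [star_mul', star_star, star_natCast] at f1 f2 f3 hE ⊢
      push_cast at ht
      linear_combination f1 + f2 + f3 + ht + mu m * hE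
    rw [z, map_zero] at r
    exact r
  · intro ω
    have u := pair_norm_EGEnd (star zg) _ _ _ (dev_FLEnd (hA ω).1) (dev_FLEnd (hA' ω).1)
    rw [← pair_eq_EGEnd, eX, hsa] at u
    rw [eX, dv_mu_EGEnd hm]
    have v := (nle_mu_EGEnd hm _).trans u
    have w1 := mul_le_mul_of_nonneg_right hn1 ab0
    have w2 := mul_le_mul_of_nonneg_left hab p0
    linarith
  · intro ω
    rw [eX, eXt, dv_mu_EGEnd hm, dv_mu_EGEnd hm]
    have e : star zg * x ω - star (star zg * x' ω) + (zg * x ω - star (zg * x' ω)) =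
        (zg + star zg) * (x ω - star (x' ω)) := by
      simp only [star_mul', star_star]
      ring
    refine ⟨by rw [e]; exact Dvd.dvd.mul_right hg1 _, ?_⟩
    have u := pair_norm_EGEnd (zg + star zg) _ _ _ (dev_FLEnd (hA ω).1) (dev_FLEnd (hA' ω).1)
    have e2 : (zg + star zg) * (A ω - (n1 : O m) * G2) +
        star ((zg + star zg) * (A' ω - (n1 : O m) * G2)) =
        mu m * (star zg * x ω - star (star zg * x' ω) + (zg * x ω - star (zg * x' ω))) := by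
      rw [hx, hx']
      simp only [star_mul', star_star, star_add, star_mu]
      ring
    rw [e2] at u
    have v := (nle_mu_EGEnd hm _).trans u
    have w0 : ‖ph m (zg + star zg)‖ * (2 * n1 * b) ≤ ε * a * (2 * n1 * b) :=
      mul_le_mul_of_nonneg_right hg3 (by positivity)
    have w1 := mul_le_mul_of_nonneg_right hn1 (mul_nonneg hε0 ab0)
    linarith
  · intro ω
    have u := pair_norm_EGEnd (star zg) _ _ _ (hB ω).2.2 (hB' ω).2.2
    rw [← pair_eq_EGEnd, eZ, hsa] at u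
    rw [eZ, dv_mu_EGEnd hm]
    refine ⟨?_, ?_⟩
    · refine ⟨star zg * y ω - star (star zg * y' ω), ?_⟩
      simp only [star_mul', star_star, star_natCast]
      ring
    · have v := (nle_mu_EGEnd hm _).trans u
      have w1 := mul_le_mul_of_nonneg_right hn2 (mul_nonneg hε0 ab0)
      linarith
  · refine ⟨(dvd_neg).2 hQt, ?_⟩
    rw [map_neg, norm_neg]
    have v := nle_mu_EGEnd hm t
    rw [← ht] at v
    have u := nadd_EGEnd (((n1 + n2 : ℕ) : O m) * ((zg + star zg) * (G2 + star G2))) S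
    rw [nnat_EGEnd, nmul_EGEnd] at u
    have g := nadd_EGEnd G2 (star G2)
    rw [nstar_EGEnd] at g
    have w0 : ‖ph m (zg + star zg)‖ * ‖ph m (G2 + star G2)‖ ≤ ε * a * (b + b) :=
      mul_le_mul hg3 g (norm_nonneg _) (mul_nonneg hε0 a0)
    have w2 := mul_le_mul_of_nonneg_left w0 (Nat.cast_nonneg (α := ℝ) (n1 + n2))
    have w1 := mul_le_mul_of_nonneg_right hn (mul_nonneg hε0 ab0)
    have w3 := hS.2.2.2
    rw [hG] at w3
    linarith
  · refine le_of_eq_of_le (Finset.sum_congr rfl fun n _ => ?_) h1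
    exact norm_ch_dv hm (fun ω => star zg * A ω + star (star zg * A' ω)) _
      (fun ω => ⟨_, eX ω⟩) _
  · refine le_of_eq_of_le (Finset.sum_congr rfl fun n _ => ?_) h2
    exact norm_ch_dv hm (fun ω => star zg * A ω + star (star zg * A' ω)) _
      (fun ω => ⟨_, eX ω⟩) _

end Pool.Agent.P.MP_b75a1e_co.EG
end

-- part Pool.Agent.P.MP_b75a1e_co.FLErr
section

set_option autoImplicit false

open Finset
open scoped BigOperators ComplexConjugate

namespace Pool.Agent.P.MP_b75a1e_co.EG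

theorem norm_trm {m : ℕ} (α δ e : O m) (s : ℕ) (U : Finset (O m)) (b : ℂ) (c : ℕ) :
    ‖trm α δ e s U b c‖ = ‖fU U (pt α δ b c)‖ ^ 2 := by
  have h1 : trm α δ e s U b c = fU U (pt α δ b c) * fU U (pt α δ b c) *
      ee (pr m ((b * ph m α + c) / conj (ph m (α * δ)))
        (ph m (((4 * s : ℕ) : O m) * e * star δ))) := by
    rw [trm, fU, sum_mul_sum, sum_mul]
    refine sum_congr rfl fun u _ => ?_
    rw [sum_mul]
    refine sum_congr rfl fun u' _ => ?_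
    rw [← ee_add, ← ee_add, Yb, map_add, pr_add_right, map_mul (ph m) δ (u + u'), pr_mul, map_add,
      pr_add_right, pt]
  rw [h1, norm_mul, norm_mul, norm_ee, mul_one, sq]

/-- Two residues whose points are close modulo the lattice coincide. -/
lemma uniq_FLErr {m : ℕ} (hm : 1 ≤ m) {Δ : ℕ} {α δ : O m} (hG : Good m Δ α δ) {L : ℝ} (hL : 1 ≤ L)
    (hΔ : 4 * Real.sqrt m * Δ < L) (b : ℂ) {c c' : ℕ} (hc : c < (α * δ).norm.natAbs)
    (hc' : c' < (α * δ).norm.natAbs) (a : O m)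
    (h : ‖pt α δ b c - pt α δ b c' - ph m a‖ ≤ 4 * Real.sqrt m / L) : c = c' := by
  have hn0 : (α * δ).norm.natAbs ≠ 0 := by omega
  have hε : α * δ ≠ 0 := by
    intro h0
    rw [h0] at hn0
    simp at hn0
  have hp : ph m (α * δ) ≠ 0 := ph_ne_zero hm hε
  have hcp : conj (ph m (α * δ)) ≠ 0 := (map_ne_zero (starRingEnd ℂ)).2 hp
  have hnn := norm_nonneg' (α * δ)
  have hn1 : (1 : ℝ) ≤ ((α * δ).norm : ℝ) := by exact_mod_cast norm_pos' hm hε
  have hnΔ : ((α * δ).norm : ℝ) ≤ Δ := by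
    have h1 := hG.le
    have h2 : (α * δ).norm ≤ (Δ : ℤ) := by omega
    exact_mod_cast h2
  have hsq := norm_sq_ph (α * δ)
  have hle : ‖ph m (α * δ)‖ ≤ Δ := by
    have h0 := norm_nonneg (ph m (α * δ))
    nlinarith
  have e1 : ph m ((((c : ℤ) - c' : ℤ) : O m) * δ - a * star (α * δ)) =
      (pt α δ b c - pt α δ b c' - ph m a) * conj (ph m (α * δ)) := by
    rw [map_sub, map_mul, map_mul, ph_star, map_intCast, pt, pt]
    generalize conj (ph m (α * δ)) = w at hcp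
    push_cast
    field_simp
    ring
  have hL0 : 0 < L := by linarith
  have e2 : ‖ph m ((((c : ℤ) - c' : ℤ) : O m) * δ - a * star (α * δ))‖ < 1 := by
    rw [e1, norm_mul, Complex.norm_conj]
    calc ‖pt α δ b c - pt α δ b c' - ph m a‖ * ‖ph m (α * δ)‖
        ≤ 4 * Real.sqrt m / L * Δ :=
          mul_le_mul h hle (norm_nonneg _) (by positivity)
      _ = 4 * Real.sqrt m * Δ / L := by ring
      _ < 1 := (div_lt_one hL0).2 hΔ
  have e3 := sub_eq_zero.1 (eq_zero_of_norm_lt hm e2)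
  have d1 : star (α * δ) ∣ (((c : ℤ) - c' : ℤ) : O m) * δ := ⟨a, by rw [e3, mul_comm]⟩
  have c1 : IsCoprime (star (α * δ)) δ := ((cop_star hG.sq hG.cop).of_mul_left_right).symm
  have d2 := c1.dvd_of_dvd_mul_right d1
  have d3 := (star_dvd_iff hm hG.sq _).1 d2
  have e4 : ((((c : ℤ) - c' : ℤ) : O m) * (α * δ)).im = ((c : ℤ) - c') * (α * δ).im := by
    rw [Zsqrtd.im_mul, Zsqrtd.re_intCast, Zsqrtd.im_intCast, zero_mul, add_zero]
  rw [e4] at d3
  have d4 := (cop_im hG.sq).dvd_of_dvd_mul_right d3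
  have e5 : (c : ℤ) - c' = 0 := by
    refine Int.eq_zero_of_abs_lt_dvd d4 ?_
    rw [abs_lt]
    constructor <;> omega
  omega

open Classical in
/-- Terms at points of small multiplicity are negligible. -/
theorem err_le {m : ℕ} {ι : Type} (hm : 1 ≤ m) (I : Finset ι) (α δ : ι → O m) (e : O m) (s Δ : ℕ)
    (U : Finset (O m)) (L μ : ℝ) (b : ℂ) (E : ι → ℕ → Prop) (hG : ∀ i ∈ I, Good m Δ (α i) (δ i))
    (hL : 1 ≤ L) (hμ : 0 ≤ μ) (hU : ∀ u ∈ U, ‖ph m u‖ ≤ L) (hΔ : 4 * Real.sqrt m * Δ < L)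
    (h : ∀ i ∈ I, ∀ c, E i c → ((I.filter fun j => ∃ (c' : ℕ) (a : O m), E j c' ∧
      ‖pt (α j) (δ j) b c' - pt (α i) (δ i) b c - ph m a‖ ≤ 2 * Real.sqrt m / L).card : ℝ) ≤ μ) :
    ‖∑ i ∈ I, ∑ c ∈ (range (α i * δ i).norm.natAbs).filter (E i), trm (α i) (δ i) e s U b c‖ ≤
      10 ^ 4 * μ * L ^ 2 * U.card := by
  have key := ls m hm (I.sigma fun i => (range (α i * δ i).norm.natAbs).filter (E i))
    (fun j => pt (α j.1) (δ j.1) b j.2) U L μ hL hμ hU (by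
      rintro ⟨i, c⟩ hj0
      simp only [mem_sigma, mem_filter, mem_range] at hj0
      refine le_trans ?_ (h i hj0.1 c hj0.2.2)
      rw [Nat.cast_le]
      refine card_le_card_of_injOn (fun j => j.1) ?_ ?_
      · rintro ⟨j, c'⟩ hj
        simp only [coe_filter, mem_sigma, mem_filter, mem_range, Set.mem_ofPred_eq] at hj ⊢
        obtain ⟨⟨h1, -, h3⟩, a, ha⟩ := hj
        exact ⟨h1, c', a, h3, ha⟩
      · rintro ⟨j, c'⟩ hj ⟨j', c''⟩ hj' hjj
        simp only at hjj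
        subst hjj
        simp only [coe_filter, mem_sigma, mem_filter, mem_range, Set.mem_ofPred_eq] at hj hj'
        obtain ⟨⟨h1, h2, -⟩, a, ha⟩ := hj
        obtain ⟨⟨-, h2', -⟩, a', ha'⟩ := hj'
        have : c' = c'' := by
          refine uniq_FLErr hm (hG j h1) hL hΔ b h2 h2' (a - a') ?_
          have e1 : pt (α j) (δ j) b c' - pt (α j) (δ j) b c'' - ph m (a - a') =
              (pt (α j) (δ j) b c' - pt (α i) (δ i) b c - ph m a) -
                (pt (α j) (δ j) b c'' - pt (α i) (δ i) b c - ph m a') := by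
            rw [map_sub]; ring
          rw [e1]
          refine (norm_sub_le _ _).trans ?_
          have e2 : 4 * Real.sqrt m / L = 2 * Real.sqrt m / L + 2 * Real.sqrt m / L := by ring
          rw [e2]
          exact add_le_add ha ha'
        rw [this])
  refine le_trans ?_ key
  rw [sum_sigma]
  refine (norm_sum_le _ _).trans (sum_le_sum fun i _ => (norm_sum_le _ _).trans ?_)
  exact le_of_eq (sum_congr rfl fun c _ => norm_trm _ _ _ _ _ _ _)

end Pool.Agent.P.MP_b75a1e_co.EG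
end

-- part Pool.Agent.P.MP_b75a1e_co.FLPoint0
section

set_option autoImplicit false

open Finset
open scoped BigOperators ComplexConjugate

namespace Pool.Agent.P.MP_b75a1e_co.EG

theorem version {m : ℕ} (G β : O m) (d : ℕ) (hG : IsCoprime G (star G)) (hβ : PrimAt β d)
    (hd : 1 ≤ d) :
    (∀ f : ℕ, f ∣ d → (f : O m) ∣ β * G → f ^ 2 ≤ d) ∨
      ∀ f : ℕ, f ∣ d → (f : O m) ∣ star β * G → f ^ 2 ≤ d := by
  by_contra hc
  rw [not_or] at hc
  obtain ⟨h1, h2⟩ := hc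
  simp only [not_forall, not_le] at h1 h2
  obtain ⟨f1, a1, b1, c1⟩ := h1
  obtain ⟨f2, a2, b2, c2⟩ := h2
  have hcop : Nat.Coprime f1 f2 := by
    refine Nat.coprime_of_dvd fun l hl hl1 hl2 => hβ l hl (hl1.trans a1) ?_
    have e1 : (l : O m) ∣ β * G := (Nat.cast_dvd_cast hl1).trans b1
    have e2 : (l : O m) ∣ β * star G := by
      have := dvd_star ((Nat.cast_dvd_cast (α := O m) hl2).trans b2)
      rwa [star_natCast, star_mul', star_star] at this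
    obtain ⟨u, v, huv⟩ := hG
    have e3 : β = u * (β * G) + v * (β * star G) := by
      linear_combination (-β) * huv
    rw [e3]
    exact dvd_add (e1.mul_left u) (e2.mul_left v)
  have h3 : f1 * f2 ≤ d := Nat.le_of_dvd hd (hcop.mul_dvd_of_dvd_of_dvd a1 a2)
  have h4 : d * d < f1 ^ 2 * f2 ^ 2 := Nat.mul_lt_mul'' c1 c2
  have h5 : (f1 * f2) * (f1 * f2) ≤ d * d := Nat.mul_le_mul h3 h3
  have h6 : f1 ^ 2 * f2 ^ 2 = (f1 * f2) * (f1 * f2) := by ring
  omega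

theorem geom_FLPoint0 (N : ℕ) : ∑ i ∈ range N, ((1 : ℝ) / 4) ^ i ≤ 4 / 3 := by
  have h : ∀ N : ℕ, ∑ i ∈ range N, ((1 : ℝ) / 4) ^ i = 4 / 3 - 4 / 3 * (1 / 4) ^ N := by
    intro N
    induction N with
    | zero => simp
    | succ n ih => rw [sum_range_succ, ih, pow_succ]; ring
  rw [h]
  have : (0 : ℝ) ≤ 4 / 3 * (1 / 4) ^ N := by positivity
  linarith

theorem dyadic (m p Mg : ℕ) (hm : 1 ≤ m) (hp : 1 ≤ p) (H X : ℝ) (hH : 1 ≤ H) (hX : 0 < X)
    (hMg : (Mg : ℝ) ≤ 9 * p * Real.sqrt X) (S : Finset (ℤ × ℤ)) (hS : S ⊆ grid Mg) (f : ℤ × ℤ → ℝ)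
    (h : ∀ n ∈ S, ∃ (H' : ℝ) (β : O m) (d : ℕ), H ≤ H' ∧ Near m (gp m Mg n) β d H' X ∧
      f n ≤ 1 / H' ^ 6) :
    ∑ n ∈ S, f n ≤ 10 ^ 4 * (p : ℝ) ^ 2 / H ^ 2 := by
  classical
  have hH0 : 0 < H := by linarith
  have h' : ∀ n ∈ S, ∃ i : ℕ, (∃ (β : O m) (d : ℕ), Near m (gp m Mg n) β d (2 ^ (i + 1) * H) X) ∧
      f n ≤ 1 / (2 ^ i * H) ^ 6 := by
    intro n hn
    obtain ⟨H', β, d, h1, ⟨h2, h3, h4, h5⟩, h6⟩ := h n hn
    obtain ⟨i, hi1, hi2⟩ := exists_nat_pow_near (x := H' / H) (y := 2)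
      ((one_le_div hH0).2 h1) one_lt_two
    rw [le_div_iff₀ hH0] at hi1
    rw [div_lt_iff₀ hH0] at hi2
    refine ⟨i, ⟨β, d, h2, h3.trans hi2.le, h4, h5.trans hi2.le⟩, h6.trans ?_⟩
    exact one_div_le_one_div_of_le (by positivity) (pow_le_pow_left₀ (by positivity) hi1 6)
  choose! i hi1 hi2 using h'
  rw [← sum_fiberwise_of_maps_to (t := range (S.sup i + 1)) (g := i) fun n hn =>
    mem_range.2 (Nat.lt_succ_of_le (le_sup hn))]
  have key : ∀ j : ℕ, ∑ n ∈ S.filter (fun n => i n = j), f n ≤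
      6400 * (p : ℝ) ^ 2 / H ^ 2 * (1 / 4) ^ j := by
    intro j
    have hj : (1 : ℝ) ≤ 2 ^ (j + 1) * H :=
      one_le_mul_of_one_le_of_one_le (one_le_pow₀ one_le_two) hH
    have hc : ((S.filter fun n => i n = j).card : ℝ) ≤ 400 * (p : ℝ) ^ 2 * (2 ^ (j + 1) * H) ^ 4 := by
      refine le_trans (Nat.cast_le.2 (card_le_card fun n hn => ?_))
        (count_near m p Mg hm hp _ X hj hX hMg)
      obtain ⟨h1, rfl⟩ := mem_filter.1 hn
      exact mem_filter.2 ⟨hS h1, hi1 n h1⟩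
    refine (sum_le_card_nsmul _ _ (1 / (2 ^ j * H) ^ 6) fun n hn => ?_).trans ?_
    · obtain ⟨h1, rfl⟩ := mem_filter.1 hn
      exact hi2 n h1
    rw [nsmul_eq_mul]
    refine (mul_le_mul_of_nonneg_right hc (by positivity)).trans (le_of_eq ?_)
    have e : ((1 : ℝ) / 4) ^ j = 1 / (2 ^ j) ^ 2 := by
      rw [one_div_pow, ← pow_mul, mul_comm, pow_mul]
      norm_num
    rw [e, pow_succ (2 : ℝ) j]
    have : (0 : ℝ) < 2 ^ j := by positivity
    generalize (2 : ℝ) ^ j = t at this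
    field_simp
    norm_num
  refine (sum_le_sum fun j _ => key j).trans ?_
  rw [← mul_sum]
  refine (mul_le_mul_of_nonneg_left (geom_FLPoint0 _) (by positivity)).trans ?_
  have : (0 : ℝ) ≤ (p : ℝ) ^ 2 / H ^ 2 := by positivity
  rw [mul_div_assoc, mul_div_assoc]
  linarith

end Pool.Agent.P.MP_b75a1e_co.EG
end

-- part Pool.Agent.P.MP_b75a1e_co.FLPrimes
section

set_option autoImplicit false

open Finset
open scoped BigOperators ComplexConjugate

namespace Pool.Agent.P.MP_b75a1e_co.EG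

open ArithmeticFunction

theorem pow_ge_FLPrimes (m X : ℕ) (hm : 1 ≤ m) (hX : (10 ^ 4 * m) ^ 200 ≤ X) (a b : ℕ)
    (ha : a ≤ 4 * 200) (hb : b ≤ 200) : 10 ^ a * m ^ b ≤ X := by
  refine le_trans ?_ hX
  generalize 200 = n at ha hb ⊢
  rw [mul_pow, ← pow_mul]
  exact Nat.mul_le_mul (Nat.pow_le_pow_right (by norm_num) ha) (Nat.pow_le_pow_right hm hb)

theorem log_ge_FLPrimes (m X : ℕ) (hm : 1 ≤ m) (hX : (10 ^ 4 * m) ^ 200 ≤ X) :
    1400 ≤ Real.log X := by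
  have h : (2 ^ 13) ^ 200 ≤ X := (Nat.pow_le_pow_left (by omega) 200).trans hX
  have h2 : ((2 : ℝ) ^ 13) ^ 200 ≤ X := by exact_mod_cast h
  have h3 := Real.log_le_log (by positivity) h2
  rw [Real.log_pow, Real.log_pow] at h3
  have := Real.log_two_gt_d9
  push_cast at h3
  linarith

theorem sqrt_ge_FLPrimes (m X y : ℕ) (hm : 1 ≤ m) (hX : (10 ^ 4 * m) ^ 200 ≤ X)
    (hy : X ^ 2 ≤ y ^ 5) : 6 * 10 ^ 10 * (m : ℝ) ^ 2 * Real.log X ≤ √y := by
  have hX1 : 10 ^ 120 * m ^ 20 ≤ X := pow_ge_FLPrimes m X hm hX 120 20 (by norm_num) (by norm_num)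
  have hm' : (1 : ℝ) ≤ m := by exact_mod_cast hm
  have hX0 : (0 : ℝ) < X := by
    have : 0 < X := lt_of_lt_of_le (by positivity) hX1
    exact_mod_cast this
  set u := √(√(y : ℝ)) with hu
  have hu0 : 0 ≤ u := Real.sqrt_nonneg _
  have h2 : u ^ 2 = √y := Real.sq_sqrt (Real.sqrt_nonneg _)
  have h4 : (u ^ 10) ^ 2 = (y : ℝ) ^ 5 := by
    rw [show (u ^ 10) ^ 2 = ((u ^ 2) ^ 2) ^ 5 by ring, h2, Real.sq_sqrt (Nat.cast_nonneg _)]
  have h5 : (X : ℝ) ≤ u ^ 10 :=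
    le_of_pow_le_pow_left₀ two_ne_zero (by positivity) (by rw [h4]; exact_mod_cast hy)
  have h6 : 10 ^ 12 * (m : ℝ) ^ 2 ≤ u := by
    refine le_of_pow_le_pow_left₀ (n := 10) (by norm_num) hu0 (le_trans ?_ h5)
    rw [mul_pow, ← pow_mul, ← pow_mul]
    exact_mod_cast hX1
  have hu1 : 0 < u := lt_of_lt_of_le (by positivity) h6
  have h7 : Real.log X ≤ 10 * u := by
    have := Real.log_le_log hX0 h5
    rw [Real.log_pow] at this
    have h8 := Real.log_le_sub_one_of_pos hu1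
    push_cast at this
    linarith
  rw [← h2]
  have : (0 : ℝ) ≤ (m : ℝ) ^ 2 := by positivity
  nlinarith [mul_le_mul_of_nonneg_left h7 this, mul_le_mul_of_nonneg_right h6 hu0,
    mul_nonneg this hu0]

open Classical in
theorem block_FLPrimes (m X y : ℕ) (hm : 1 ≤ m) (hX : (10 ^ 4 * m) ^ 200 ≤ X)
    (hy : X ^ 2 ≤ y ^ 5) (hyX : y ≤ X) (g : ℕ → Prop) [DecidablePred g]
    (hg : ∀ l, l.Prime → g l → Split m l)
    (hP : 10 ^ 10 * (m : ℝ) ^ 2 * Real.log X * ((Ioc y (2 * y)).filter (Split m)).card < y) :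
    ∑ q ∈ Ioc y (2 * y), (if g q then vonMangoldt q / q else 0) ≤ 4 / (10 ^ 10 * (m : ℝ) ^ 2) := by
  have hL := log_ge_FLPrimes m X hm hX
  have hs := sqrt_ge_FLPrimes m X y hm hX hy
  have hm' : (1 : ℝ) ≤ m := by exact_mod_cast hm
  have hM : (0 : ℝ) < 10 ^ 10 * (m : ℝ) ^ 2 := by positivity
  have hy0 : (0 : ℝ) < y := lt_of_le_of_lt (by positivity) hP
  have hy1 : (1 : ℝ) ≤ y := by
    have : 0 < y := by exact_mod_cast hy0
    exact_mod_cast this
  have hlog : Real.log (2 * y) ≤ 2 * Real.log X := by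
    rw [Real.log_mul two_ne_zero hy0.ne']
    have h1 : Real.log y ≤ Real.log X := Real.log_le_log hy0 (by exact_mod_cast hyX)
    have := Real.log_two_lt_d9
    linarith
  have h1 : ∀ q ∈ Ioc y (2 * y), (if g q then vonMangoldt q / q else 0) ≤
      ((if Split m q then 2 * Real.log X else 0) + if ¬ q.Prime then vonMangoldt q else 0) / y := by
    intro q hq
    obtain ⟨hq1, hq2⟩ := mem_Ioc.1 hq
    have hq1' : (y : ℝ) ≤ q := by exact_mod_cast hq1.le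
    have hq2' : (q : ℝ) ≤ 2 * y := by exact_mod_cast hq2
    have hΛ : 0 ≤ vonMangoldt q := vonMangoldt_nonneg
    have hA : (0 : ℝ) ≤ if Split m q then 2 * Real.log X else 0 := by
      split_ifs
      · linarith
      · exact le_rfl
    have hB : (0 : ℝ) ≤ if ¬ q.Prime then vonMangoldt q else 0 := by
      split_ifs
      · exact le_rfl
      · exact hΛ
    split_ifs with hgq h1 h2 h2 h1 h2 h2
    all_goals first
      | positivity
      | skip
    · refine div_le_div₀ (by linarith) ?_ hy0 hq1'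
      have : vonMangoldt q ≤ Real.log (2 * y) :=
        vonMangoldt_le_log.trans (Real.log_le_log (by linarith) hq2')
      linarith
    · exact div_le_div₀ (by linarith) (by linarith) hy0 hq1'
    · exact absurd (hg q h2 hgq) h1
    · exact div_le_div₀ (by linarith) (by linarith) hy0 hq1'
  refine (sum_le_sum h1).trans ?_
  rw [← sum_div, sum_add_distrib, ← sum_filter, ← sum_filter, sum_const, nsmul_eq_mul]
  have h2 : ∑ q ∈ Ioc y (2 * y) with ¬ q.Prime, vonMangoldt q ≤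
      2 * √(2 * y) * Real.log (2 * y) := by
    refine le_trans ?_ (Chebyshev.psi_sub_theta_le (x := 2 * y) (by linarith))
    rw [Chebyshev.psi_sub_theta_eq_sum_not_prime]
    refine sum_le_sum_of_subset_of_nonneg (filter_subset_filter _ ?_) fun _ _ _ => vonMangoldt_nonneg
    rw [show (2 * y : ℝ) = ((2 * y : ℕ) : ℝ) by push_cast; ring, Nat.floor_natCast]
    exact Ioc_subset_Ioc_left (Nat.zero_le _)
  have h3 : √(2 * y : ℝ) ≤ 2 * √y := by
    rw [Real.sqrt_le_left (by positivity), mul_pow, Real.sq_sqrt hy0.le]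
    linarith
  have h4 : √(y : ℝ) * √y = y := Real.mul_self_sqrt hy0.le
  have h5 : 0 ≤ √(y : ℝ) := Real.sqrt_nonneg _
  have h6 : 2 * √(2 * y : ℝ) * Real.log (2 * y) ≤ 8 * (√y * Real.log X) := by
    have := mul_le_mul h3 hlog (Real.log_nonneg (by linarith)) (by positivity)
    linarith
  have h7 := mul_le_mul_of_nonneg_left hs h5
  rw [div_le_div_iff₀ hy0 hM]
  nlinarith [mul_le_mul_of_nonneg_right (h2.trans h6) hM.le]

theorem dyadic_FLPrimes (f : ℕ → ℝ) (c : ℝ) (y : ℕ) (h : ∀ z, y ≤ z → ∑ q ∈ Ioc z (2 * z), f q ≤ c)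
    (k : ℕ) : ∑ q ∈ Ioc y (2 ^ k * y), f q ≤ k * c := by
  induction k with
  | zero => simp
  | succ k ih =>
    have h1 : y ≤ 2 ^ k * y := Nat.le_mul_of_pos_left _ (by positivity)
    have h2 : 2 ^ (k + 1) * y = 2 * (2 ^ k * y) := by ring
    rw [h2, ← sum_Ioc_consecutive f h1 (by omega)]
    have := h _ h1
    push_cast
    linarith

theorem count_FLPrimes {α : Type} (s : Finset α) (v : α → ℕ) (X : ℕ)
    (h : ∀ z ∈ s, 1 ≤ v z ∧ v z ≤ X) :
    ∑ z ∈ s, Real.log (v z) =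
      ∑ q ∈ Ioc 0 X, vonMangoldt q * ((s.filter fun z => q ∣ v z).card : ℝ) := by
  simp only [card_filter, Nat.cast_sum, mul_sum]
  rw [sum_comm]
  refine sum_congr rfl fun z hz => ?_
  obtain ⟨h1, h2⟩ := h z hz
  rw [← vonMangoldt_sum]
  have : (v z).divisors = (Ioc 0 X).filter (· ∣ v z) := by
    ext q
    simp only [Nat.mem_divisors, mem_filter, mem_Ioc]
    exact ⟨fun ⟨a, _⟩ => ⟨⟨Nat.pos_of_dvd_of_pos a h1, (Nat.le_of_dvd h1 a).trans h2⟩, a⟩,
      fun ⟨_, a⟩ => ⟨a, by omega⟩⟩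
  rw [this, sum_filter]
  refine sum_congr rfl fun q _ => ?_
  split_ifs <;> simp

theorem nv_FLPrimes (m B : ℕ) (hm : 1 ≤ m) {z : ℕ × ℕ} (hz : z ∈ cp m B) (hB : 1 ≤ B) :
    (210 * m * B) ^ 2 ≤ nv m z ∧ nv m z ≤ (600 * m * B) ^ 2 := by
  obtain ⟨h1, -⟩ := mem_filter.1 hz
  obtain ⟨h1, h2⟩ := mem_product.1 h1
  obtain ⟨h1, h1'⟩ := mem_Ioc.1 h1
  obtain ⟨-, h2'⟩ := mem_Ioc.1 h2
  have hmB : 1 ≤ m * B := Nat.mul_pos hm hB
  have h3 : m * B ≤ m * z.1 := Nat.mul_le_mul_left _ h1.le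
  have h4 : m * z.1 ≤ m * (2 * B) := Nat.mul_le_mul_left _ h1'
  unfold nv
  constructor
  · refine le_trans (Nat.pow_le_pow_left ?_ 2) (Nat.le_add_right _ _)
    nlinarith
  · have h5 : (1 + 210 * m * z.1) ^ 2 ≤ (421 * m * B) ^ 2 := Nat.pow_le_pow_left (by nlinarith) 2
    have h6 : (210 * z.2) ^ 2 ≤ (420 * B) ^ 2 := Nat.pow_le_pow_left (by omega) 2
    have h7 : m * (210 * z.2) ^ 2 ≤ m ^ 2 * (420 * B) ^ 2 := Nat.mul_le_mul (by nlinarith) h6
    nlinarith [Nat.zero_le ((m * B) ^ 2)]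

theorem par_FLPrimes (m X : ℕ) (hm : 1 ≤ m) (hX : (10 ^ 4 * m) ^ 200 ≤ X) :
    ∃ B y : ℕ, (600 * m * B) ^ 2 ≤ X ∧ X ≤ (1200 * m * B) ^ 2 ∧ 10 ^ 6 ≤ B ∧ X ^ 2 ≤ y ^ 5 ∧
      y ^ 5 ≤ 32 * X ^ 2 ∧ 100 * y ≤ B ∧ 1 ≤ y := by
  have hp := pow_ge_FLPrimes m X hm hX
  have h10 : 10 ^ 10 ≤ X := by simpa using hp 10 0 (by norm_num) (by norm_num)
  have hex : ∃ y : ℕ, X ^ 2 ≤ y ^ 5 := ⟨X, Nat.pow_le_pow_right (by omega) (by norm_num)⟩
  have hy := Nat.find_spec hex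
  set y := Nat.find hex with hyd
  have hy4 : 10 ^ 4 ≤ y := by
    refine (Nat.pow_le_pow_iff_left (n := 5) (by norm_num)).1 (le_trans ?_ hy)
    exact le_trans (by norm_num) (Nat.pow_le_pow_left h10 2)
  have hy1 : (y - 1) ^ 5 < X ^ 2 := not_le.1 (Nat.find_min hex (by omega))
  have hy2 : y ^ 5 ≤ 32 * X ^ 2 := by
    calc y ^ 5 ≤ (2 * (y - 1)) ^ 5 := Nat.pow_le_pow_left (by omega) 5
      _ = 32 * (y - 1) ^ 5 := by ring
      _ ≤ _ := by omega
  have hM : 0 < 600 * m := by omega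
  set B := X.sqrt / (600 * m) with hB
  have hB1 : 600 * m * B ≤ X.sqrt := Nat.mul_div_le _ _
  have hB2 : X.sqrt < 600 * m * (B + 1) := Nat.lt_mul_div_succ _ hM
  have hB3 : 1 ≤ B := by
    refine (Nat.le_div_iff_mul_le hM).2
      (Nat.le_sqrt'.2 (le_trans ?_ (hp 6 2 (by norm_num) (by norm_num))))
    nlinarith [Nat.zero_le (m ^ 2)]
  have hB4 : X ≤ (1200 * m * B) ^ 2 := by
    refine (Nat.lt_succ_sqrt' X).le.trans (Nat.pow_le_pow_left ?_ 2)
    have : m * 1 ≤ m * B := Nat.mul_le_mul_left _ hB3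
    nlinarith
  have hB5 : 100 * y ≤ B := by
    refine (Nat.pow_le_pow_iff_left (n := 10) (by norm_num)).1 ?_
    refine Nat.le_of_mul_le_mul_left (c := (1200 * m) ^ 10) ?_ (by positivity)
    calc (1200 * m) ^ 10 * (100 * y) ^ 10 = 1200 ^ 10 * 10 ^ 20 * m ^ 10 * (y ^ 5) ^ 2 := by ring
      _ ≤ 1200 ^ 10 * 10 ^ 20 * m ^ 10 * (32 * X ^ 2) ^ 2 :=
        Nat.mul_le_mul_left _ (Nat.pow_le_pow_left hy2 2)
      _ = (1200 ^ 10 * 10 ^ 20 * 32 ^ 2) * m ^ 10 * X ^ 4 := by ring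
      _ ≤ 10 ^ 60 * m ^ 10 * X ^ 4 :=
        Nat.mul_le_mul_right _ (Nat.mul_le_mul_right _ (by norm_num))
      _ ≤ X * X ^ 4 := Nat.mul_le_mul_right _ (hp 60 10 (by norm_num) (by norm_num))
      _ = X ^ 5 := by ring
      _ ≤ ((1200 * m * B) ^ 2) ^ 5 := Nat.pow_le_pow_left hB4 5
      _ = _ := by ring
  exact ⟨B, y, (Nat.pow_le_pow_left hB1 2).trans (Nat.sqrt_le' X), hB4, by omega, hy, hy2, hB5,
    by omega⟩

/-- Many split primes in some dyadic interval of a prescribed range. -/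
theorem big_primes (m X : ℕ) (hm : 1 ≤ m) (hX : (10 ^ 4 * m) ^ 200 ≤ X) :
    ∃ (y : ℕ) (P : Finset ℕ), X ^ 2 ≤ y ^ 5 ∧ y ≤ X ∧ (∀ l ∈ P, Split m l ∧ y < l ∧ l ≤ 2 * y) ∧
      (y : ℝ) ≤ 10 ^ 10 * (m : ℝ) ^ 2 * Real.log X * P.card := by
  classical
  by_contra hc
  have hP : ∀ y, X ^ 2 ≤ y ^ 5 → y ≤ X →
      10 ^ 10 * (m : ℝ) ^ 2 * Real.log X * ((Ioc y (2 * y)).filter (Split m)).card < y :=
    fun y h1 h2 => not_le.1 fun h => hc ⟨y, _, h1, h2, fun l hl =>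
      ⟨(mem_filter.1 hl).2, mem_Ioc.1 (mem_filter.1 hl).1⟩, h⟩
  obtain ⟨B, y, hB1, hB2, hB6, hy1, hy2, hyB, hy0⟩ := par_FLPrimes m X hm hX
  have hL := log_ge_FLPrimes m X hm hX
  have hB : 1 ≤ B := by omega
  have hm' : (1 : ℝ) ≤ m := by exact_mod_cast hm
  have hB' : (1 : ℝ) ≤ B := by exact_mod_cast hB
  have hBX : B ≤ X := by
    refine le_trans ?_ hB1
    have : 1 * B ≤ m * B := Nat.mul_le_mul_right _ hm
    nlinarith
  have hyX : y ≤ X := by omega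
  have hX0 : (0 : ℝ) < X := by
    have : 0 < X := by omega
    exact_mod_cast this
  set L := Real.log X with hLd
  set cnt : ℕ → ℝ := fun q => (((cp m B).filter fun z => q ∣ nv m z).card : ℝ) with hcnt
  have hnv : ∀ z ∈ cp m B, X ≤ 33 * nv m z ∧ nv m z ≤ X := fun z hz => by
    obtain ⟨h1, h2⟩ := nv_FLPrimes m B hm hz hB
    exact ⟨by nlinarith [Nat.zero_le ((m * B) ^ 2)], h2.trans hB1⟩
  have hsum := count_FLPrimes (cp m B) (nv m) X fun z hz => ⟨by have := (hnv z hz).1; omega,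
    (hnv z hz).2⟩
  have hlow : (88 / 100 : ℝ) * (B ^ 2 * L) ≤ ∑ z ∈ cp m B, Real.log (nv m z) := by
    have h1 : ∀ z ∈ cp m B, (99 / 100 : ℝ) * L ≤ Real.log (nv m z) := fun z hz => by
      have h2 : (X : ℝ) ≤ 2 ^ 6 * nv m z := by
        have : X ≤ 2 ^ 6 * nv m z := by have := (hnv z hz).1; omega
        exact_mod_cast this
      have h3 := Real.log_le_log hX0 h2
      rw [Real.log_mul (by positivity) (fun h => by rw [h] at h2; linarith), Real.log_pow] at h3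
      have := Real.log_two_lt_d9
      push_cast at h3
      linarith
    have h2 := card_nsmul_le_sum _ _ _ h1
    rw [nsmul_eq_mul] at h2
    have h3 := mul_le_mul_of_nonneg_right (cp_card m B hB6) (show (0 : ℝ) ≤ 99 / 100 * L by linarith)
    have h4 : (0 : ℝ) ≤ B ^ 2 * L := by positivity
    nlinarith
  have hsmall : ∑ q ∈ Ioc 0 y, vonMangoldt q * cnt q ≤ (82 / 100 : ℝ) * (B ^ 2 * L) := by
    have h1 : ∀ q ∈ Ioc 0 y, vonMangoldt q * cnt q ≤
        (202 / 100 : ℝ) * B ^ 2 * (vonMangoldt q / q) := fun q hq => by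
      obtain ⟨hq1, hq2⟩ := mem_Ioc.1 hq
      by_cases hq3 : IsPrimePow q
      · have hq0 : (0 : ℝ) < q := by exact_mod_cast hq1
        have h2 : (100 : ℝ) ≤ B / q := by
          rw [le_div_iff₀ hq0]
          have : 100 * q ≤ B := by omega
          exact_mod_cast this
        have h3 : cnt q ≤ (202 / 100 : ℝ) * B * (B / q) :=
          (cp_small m B q hm hq3).trans (by nlinarith)
        calc _ ≤ vonMangoldt q * ((202 / 100 : ℝ) * B * (B / q)) :=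
              mul_le_mul_of_nonneg_left h3 vonMangoldt_nonneg
          _ = _ := by ring
      · simp [vonMangoldt_eq_zero_iff.2 hq3]
    refine (sum_le_sum h1).trans ?_
    rw [← mul_sum]
    have h2 := mertens_vm y hy0
    rw [show Icc 1 y = Ioc 0 y from rfl] at h2
    have h3 : Real.log y ≤ 2 / 5 * L + 1 := by
      have h4 : (y : ℝ) ^ 5 ≤ 2 ^ 5 * X ^ 2 := by exact_mod_cast hy2
      have h5 := Real.log_le_log (by positivity) h4
      rw [Real.log_mul (by positivity) (by positivity), Real.log_pow, Real.log_pow,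
        Real.log_pow] at h5
      have := Real.log_two_lt_d9
      push_cast at h5
      linarith
    have h4 : ∑ q ∈ Ioc 0 y, vonMangoldt q / q ≤ 405 / 1000 * L := by linarith
    have h5 : (0 : ℝ) ≤ B ^ 2 * L := by positivity
    nlinarith [mul_le_mul_of_nonneg_left h4 (show (0 : ℝ) ≤ 202 / 100 * B ^ 2 by positivity)]
  have hbig : ∑ q ∈ Ioc y X, vonMangoldt q * cnt q ≤ (1 / 100 : ℝ) * (B ^ 2 * L) := by
    let g : ℕ → Prop := fun q => q ≤ X ∧ ∃ z ∈ cp m B, q ∣ nv m z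
    let f : ℕ → ℝ := fun q => if g q then vonMangoldt q / q else 0
    have hf : ∀ q, 0 ≤ f q := fun q => by
      simp only [f]
      split_ifs
      · exact div_nonneg vonMangoldt_nonneg (Nat.cast_nonneg _)
      · exact le_rfl
    have h1 : ∀ q ∈ Ioc y X, vonMangoldt q * cnt q ≤
        12 * 10 ^ 6 * (m : ℝ) ^ 2 * B ^ 2 * f q := fun q hq => by
      obtain ⟨hq1, hq2⟩ := mem_Ioc.1 hq
      by_cases hg : g q
      · simp only [f, if_pos hg]
        by_cases hq3 : IsPrimePow q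
        · calc _ ≤ vonMangoldt q * (12 * 10 ^ 6 * (m : ℝ) ^ 2 * (B : ℝ) ^ 2 / q) :=
              mul_le_mul_of_nonneg_left (cp_large m B q hm hB hq3 (hq2.trans hB2))
                vonMangoldt_nonneg
            _ = _ := by ring
        · simp [vonMangoldt_eq_zero_iff.2 hq3]
      · have : cnt q = 0 := by
          simp only [hcnt, Nat.cast_eq_zero, card_eq_zero, filter_eq_empty_iff]
          exact fun z hz h => hg ⟨hq2, z, hz, h⟩
        simp only [f, if_neg hg, this, mul_zero, le_refl]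
    refine (sum_le_sum h1).trans ?_
    rw [← mul_sum]
    have h2 := dyadic_FLPrimes f (4 / (10 ^ 10 * (m : ℝ) ^ 2)) y (fun z hz => by
      by_cases hzX : z ≤ X
      · have hz5 := hy1.trans (Nat.pow_le_pow_left hz 5)
        exact block_FLPrimes m X z hm hX hz5 hzX g
          (fun l hl ⟨_, w, hw, h⟩ => (cp_split m B hm hw hl h).1) (hP z hz5 hzX)
      · rw [sum_eq_zero fun q hq => if_neg fun h => hzX ((mem_Ioc.1 hq).1.le.trans h.1)]
        positivity) (Nat.log 2 X + 1)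
    have h3 : X ≤ 2 ^ (Nat.log 2 X + 1) * y :=
      (Nat.lt_pow_succ_log_self one_lt_two X).le.trans (Nat.le_mul_of_pos_right _ hy0)
    have h4 : ∑ q ∈ Ioc y X, f q ≤ _ :=
      (sum_le_sum_of_subset_of_nonneg (Ioc_subset_Ioc_right h3) fun _ _ _ => hf _).trans h2
    have h5 : ((Nat.log 2 X + 1 : ℕ) : ℝ) ≤ 2 * L := by
      have h6 : (2 : ℝ) ^ Nat.log 2 X ≤ X := by
        exact_mod_cast Nat.pow_log_le_self 2 (show X ≠ 0 by omega)
      have h7 := Real.log_le_log (by positivity) h6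
      rw [Real.log_pow] at h7
      have := mul_le_mul_of_nonneg_left Real.log_two_gt_d9.le (Nat.cast_nonneg (Nat.log 2 X))
      push_cast
      linarith
    have h6 : ∑ q ∈ Ioc y X, f q ≤ 2 * L * (4 / (10 ^ 10 * (m : ℝ) ^ 2)) :=
      h4.trans (mul_le_mul_of_nonneg_right h5 (by positivity))
    calc _ ≤ 12 * 10 ^ 6 * (m : ℝ) ^ 2 * B ^ 2 * (2 * L * (4 / (10 ^ 10 * (m : ℝ) ^ 2))) :=
          mul_le_mul_of_nonneg_left h6 (by positivity)
      _ = 96 / 10000 * (B ^ 2 * L) := by field_simp; norm_num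
      _ ≤ _ := mul_le_mul_of_nonneg_right (by norm_num) (by positivity)
  rw [← sum_Ioc_consecutive _ (Nat.zero_le y) hyX] at hsum
  have h5 : (0 : ℝ) < B ^ 2 * L := by positivity
  linarith

end Pool.Agent.P.MP_b75a1e_co.EG
end

-- part Pool.Agent.P.MP_b75a1e_co.FLTower
section

set_option autoImplicit false

open Finset
open scoped BigOperators ComplexConjugate

namespace Pool.Agent.P.MP_b75a1e_co.EG

theorem step_FLTower (m p κ i : ℕ) (hm : 2 ≤ m) (hmp : m ≤ 4 ^ p) (hp : 10 ^ 20 ≤ p) (hκ1 : p ^ 20 ≤ 2 ^ κ)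
    (hκp : 1002 * κ ≤ p) (PP : Finset ℕ) (hPP : ∀ l ∈ PP, Split m l ∧ l ≤ 2 ^ (1001 * κ))
    (hc : 2 ^ (998 * κ) ≤ PP.card) (S : St m) (hS : S.Ok PP (996 * κ) i) (h1 : p ^ 4 ≤ S.D.card)
    (h2 : S.D.card ≤ p ^ 37) :
    ∃ S' : St m, S'.Ok PP (996 * κ) (i + 1) ∧ S.e ∣ S'.e ∧
      (996 * κ + 1) * S.D.card ≤ 996 * κ * S'.D.card ∧
      1000 * (996 * κ) * S'.D.card ≤ (1000 * (996 * κ) + 1001) * S.D.card := by
  classical
  have hp6 : 10 ^ 6 ≤ p := le_trans (by norm_num) hp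
  have hκ : 1 ≤ κ := kappa_pos_EGStep p κ hp hκ1
  have hsq := sq_EGStep p κ hκ1
  have hm1 : 1 ≤ m := by omega
  obtain ⟨k, hk⟩ : ∃ k, k = 996 * κ := ⟨_, rfl⟩
  obtain ⟨r, hr⟩ : ∃ r, r = S.D.card := ⟨_, rfl⟩
  obtain ⟨w, hw⟩ : ∃ w, w = 999 * r / 1000 := ⟨_, rfl⟩
  have hk1 : 1 ≤ k := by omega
  rw [← hk] at hS ⊢
  rw [← hr] at h1 h2 ⊢
  have hwV : 2 ^ w ≤ S.V.card := by
    have h3 : (2 ^ w) ^ 1000 ≤ S.V.card ^ 1000 := by
      calc (2 ^ w) ^ 1000 = 2 ^ (w * 1000) := (pow_mul 2 w 1000).symm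
        _ ≤ 2 ^ (999 * S.D.card) := Nat.pow_le_pow_right (by norm_num) (by omega)
        _ ≤ _ := hS.big
    exact (Nat.pow_le_pow_iff_left (by norm_num)).1 h3
  obtain ⟨W, hWV, hWc⟩ := Finset.exists_subset_card_eq hwV
  have hp37 : 1 ≤ p ^ 37 := Nat.one_le_pow _ _ (by omega)
  have hp2 : p ^ 2 ≤ p ^ 37 := Nat.pow_le_pow_right (by omega) (by norm_num)
  have hp38 : 100 * p ^ 37 ≤ p ^ 38 := by
    calc 100 * p ^ 37 ≤ p * p ^ 37 := Nat.mul_le_mul_right _ (by omega)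
      _ = p ^ 38 := by ring
  have hp40 : 64 * p ^ 38 ≤ p ^ 40 := by
    calc 64 * p ^ 38 ≤ p * p ^ 38 := Nat.mul_le_mul_right _ (by omega)
      _ = p ^ 39 := by ring
      _ ≤ p ^ 40 := Nat.pow_le_pow_right (by omega) (by norm_num)
  have hpow : 2 ^ (998 * κ) = 2 * 2 ^ (998 * κ - 1) := by
    rw [← pow_succ']
    congr 1
    omega
  have hpow2 : 2 ^ (2 * κ) ≤ 2 ^ (998 * κ - 1) := Nat.pow_le_pow_right (by norm_num) (by omega)
  have hdiv : r / k ≤ r := Nat.div_le_self _ _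
  have hcard : 2 ^ (998 * κ - 1) + (r / k + 1) + 2 * p ^ 2 ≤ (PP \ S.D).card := by
    have h3 := Finset.le_card_sdiff S.D PP
    omega
  have hlam : 2 ^ (k + 5) * p ^ 38 ≤ 2 ^ (998 * κ - 1) := by
    have h3 : 2 ^ (998 * κ) = 2 ^ k * 2 ^ (2 * κ) := by
      rw [← pow_add]
      congr 1
      omega
    have h4 : 2 ^ k * (64 * p ^ 38) ≤ 2 ^ k * 2 ^ (2 * κ) :=
      Nat.mul_le_mul_left _ (hp40.trans hsq)
    have h5 : 2 ^ k * (64 * p ^ 38) = 2 * (2 ^ (k + 5) * p ^ 38) := by ring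
    omega
  have hn : (∏ l ∈ S.D, (l : ℤ)) ≤ 2 ^ (1001 * κ * r) := by
    have h3 : ∏ l ∈ S.D, l ≤ (2 ^ (1001 * κ)) ^ S.D.card :=
      Finset.prod_le_pow_card _ _ _ fun l hl => (hPP l (hS.sub hl)).2
    rw [← pow_mul, ← hr] at h3
    have h4 : ((∏ l ∈ S.D, l : ℕ) : ℤ) ≤ ((2 ^ (1001 * κ * r) : ℕ) : ℤ) := Int.ofNat_le.2 h3
    rw [Nat.cast_prod, Nat.cast_pow] at h4
    exact h4
  have hW : ∀ v ∈ W, ∀ v' ∈ W, v ≠ v' → (v - v').norm.natAbs.primeFactors.card ≤ p ^ 38 := by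
    intro v hv v' hv' _
    have h3 := norm_sub_le_EGStep v v'
    rw [hS.box.nrm v (hWV hv), hS.box.nrm v' (hWV hv')] at h3
    have h4 : (v - v').norm.natAbs ≤ 2 ^ (1001 * κ * r + 2) := by
      have h5 : (((v - v').norm.natAbs : ℕ) : ℤ) ≤ 2 ^ (1001 * κ * r + 2) := by
        rw [Int.natAbs_of_nonneg (norm_nonneg' _), pow_add]
        linarith
      exact_mod_cast h5
    refine (pf_card_EGStep _ _ h4).trans ?_
    have h6 : 1001 * κ * r ≤ 1001 * κ * p ^ 37 := Nat.mul_le_mul_left _ h2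
    have h7 : 1002 * κ * p ^ 37 ≤ p * p ^ 37 := Nat.mul_le_mul_right _ hκp
    have h8 : p * p ^ 37 = p ^ 38 := by ring
    have h9 : 1 * p ^ 37 ≤ κ * p ^ 37 := Nat.mul_le_mul_right _ hκ
    have h10 : 2 ≤ p ^ 37 := le_trans (by nlinarith) hp2
    have h11 : 1002 * κ * p ^ 37 = 1001 * κ * p ^ 37 + κ * p ^ 37 := by ring
    omega
  have hτ0 : r + 1 ≤ k * (r / k + 1) := Nat.lt_mul_div_succ r hk1
  have hτ : r + 1 ≤ (k + 1) * (r / k + 1) := hτ0.trans (Nat.mul_le_mul_right _ (by omega))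
  have hWr : W.card ≤ 2 ^ r := by
    rw [hWc]
    exact Nat.pow_le_pow_right (by norm_num) (by omega)
  obtain ⟨D, hD, ρ, E, hB, hτ1, hτ2, hbig, W', hW'W, hW'c, hsep⟩ := level m p hm hmp hp6 (PP \ S.D)
    (fun l hl => (hPP l (Finset.mem_sdiff.1 hl).1).1) W k (p ^ 38) (2 ^ (998 * κ - 1)) (r / k + 1) r
    hcard (by omega) hlam hW hWr hτ
  have hE : E.Nonempty := by
    rw [← Finset.card_pos]
    rcases Nat.eq_zero_or_pos E.card with h0 | h0
    · rw [h0] at hbig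
      simp at hbig
    · exact h0
  obtain ⟨e, he⟩ := hE
  have hDs : ∀ l ∈ D, Split m l := fun l hl => (hPP l (Finset.mem_sdiff.1 (hD hl)).1).1
  have hSs : ∀ l ∈ S.D, Split m l := fun l hl => (hPP l (hS.sub hl)).1
  have hdisj : Disjoint S.D D :=
    Finset.disjoint_left.2 fun l hl hl' => (Finset.mem_sdiff.1 (hD hl')).2 hl
  obtain ⟨hBm, hBc⟩ := Box.mul hm hS.box hB hdisj hSs hDs
  have hcu : (S.D ∪ D).card = r + D.card := by rw [Finset.card_union_of_disjoint hdisj, hr]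
  have hlow : r ≤ k * D.card := le_trans (by omega) (hτ0.trans (Nat.mul_le_mul_left _ hτ1))
  have hup : 1000 * k * D.card ≤ 1001 * r := by
    have h3 : k * D.card ≤ k * (r / k + 1 + p ^ 2) := Nat.mul_le_mul_left _ hτ2
    have h4 : k * (r / k) ≤ r := Nat.mul_div_le _ _
    have h5 : k ≤ p := by omega
    have h6 : 1 ≤ p ^ 2 := Nat.one_le_pow _ _ (by omega)
    have h7 : k * (1 + p ^ 2) ≤ p * (2 * p ^ 2) := Nat.mul_le_mul h5 (by omega)
    have h8 : 2000 * p ^ 3 ≤ p ^ 4 := by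
      calc 2000 * p ^ 3 ≤ p * p ^ 3 := Nat.mul_le_mul_right _ (by omega)
        _ = p ^ 4 := by ring
    have h9 : p * (2 * p ^ 2) = 2 * p ^ 3 := by ring
    have h10 : k * (r / k + 1 + p ^ 2) = k * (r / k) + k * (1 + p ^ 2) := by ring
    have h11 : 1000 * k * D.card = 1000 * (k * D.card) := by ring
    omega
  have hen : e.norm = ∏ l ∈ D, (l : ℤ) := hB.nrm e he
  have he0 : e ≠ 0 := by
    intro h0
    rw [h0, Zsqrtd.norm_zero] at hen
    exact Finset.prod_ne_zero_iff.2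
      (fun l hl => Int.natCast_ne_zero.2 (hDs l hl).1.ne_zero) hen.symm
  have hcop : IsCoprime e (star e) := hB.coprime_star hDs he
  have hres : (m : O m) ^ 2 ∣ star e - e := by
    have h3 := dvd_star (hB.res e he)
    rw [star_pow, star_natCast, star_sub, star_intCast] at h3
    have h4 : star e - e = (star e - (ρ : O m)) - (e - (ρ : O m)) := by ring
    rw [h4]
    exact dvd_sub h3 (hB.res e he)
  refine ⟨⟨S.D ∪ D, S.ρ * ρ, image₂ (· * ·) S.V E, S.e * e, fun j => match j with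
      | 0 => {0}
      | j + 1 => image₂ (fun v u => star e * v + e * u) W' (S.U j)⟩,
    ⟨?_, hBm, ?_, Finset.mem_image₂_of_mem hS.mem he, ?_, ?_⟩, Dvd.intro _ rfl, ?_, ?_⟩
  · exact Finset.union_subset hS.sub fun l hl => (Finset.mem_sdiff.1 (hD hl)).1
  · show 2 ^ (999 * (S.D ∪ D).card) ≤ (image₂ (· * ·) S.V E).card ^ 1000
    rw [hBc, hcu, mul_add, pow_add, mul_pow, hr]
    exact Nat.mul_le_mul hS.big hbig
  · intro j u hu
    cases j with
    | zero =>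
      obtain rfl : u = 0 := Finset.mem_singleton.1 hu
      exact sumRes_zero_EGStep _
    | succ j =>
      obtain ⟨v, hv, u0, hu0, rfl⟩ := Finset.mem_image₂.1 hu
      obtain ⟨L, hL1, hL2, hL3⟩ := hS.sum j u0 hu0
      have hvV : v ∈ S.V := hWV (hW'W hv)
      refine ⟨(star e * v) ::ₘ L.map (fun a => e * a), by simp [hL1], ?_, ?_⟩
      · intro a ha
        rcases Multiset.mem_cons.1 ha with rfl | ha
        · constructor
          · show (star e * v).norm = (S.e * e).norm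
            rw [Zsqrtd.norm_mul, Zsqrtd.norm_mul, Zsqrtd.norm_conj, hS.box.nrm v hvV,
              hS.box.nrm _ hS.mem, mul_comm]
          · show (m : O m) ^ 2 ∣ star e * v - S.e * e
            have h3 : star e * v - S.e * e =
                (star e - e) * v + e * ((v - (S.ρ : O m)) - (S.e - (S.ρ : O m))) := by ring
            rw [h3]
            exact dvd_add (hres.mul_right _)
              ((dvd_sub (hS.box.res v hvV) (hS.box.res _ hS.mem)).mul_left _)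
        · obtain ⟨a0, ha0, rfl⟩ := Multiset.mem_map.1 ha
          constructor
          · show (e * a0).norm = (S.e * e).norm
            rw [Zsqrtd.norm_mul, Zsqrtd.norm_mul, (hL2 a0 ha0).1, mul_comm]
          · show (m : O m) ^ 2 ∣ e * a0 - S.e * e
            have h3 : e * a0 - S.e * e = e * (a0 - S.e) := by ring
            rw [h3]
            exact (hL2 a0 ha0).2.mul_left _
      · rw [Multiset.sum_cons, Multiset.sum_map_mul_left, Multiset.map_id', hL3]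
  · intro j hj
    cases j with
    | zero => simp
    | succ j =>
      have hinj : Set.InjOn (fun x : O m × O m => star e * x.1 + e * x.2)
          ((W' : Set (O m)) ×ˢ (S.U j : Set (O m))) := by
        rintro ⟨v, u⟩ ⟨hv, -⟩ ⟨v', u'⟩ ⟨hv', -⟩ h
        have h3 : star e * v + e * u = star e * v' + e * u' := h
        have h4 : e ∣ star e * (v - v') := ⟨u' - u, by linear_combination h3⟩
        have h5 : e ∣ v - v' := hcop.dvd_of_dvd_mul_left h4
        have h6 : v = v' := by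
          by_contra hne
          exact hsep v hv v' hv' hne (hen ▸ norm_dvd_norm h5)
        subst h6
        have h7 : u = u' := o_cancel hm1 he0 (by linear_combination h3)
        rw [h7]
      have hcardU : (image₂ (fun v u => star e * v + e * u) W' (S.U j)).card =
          W'.card * (S.U j).card := Finset.card_image₂_iff.2 hinj
      show (2 : ℝ) ^ ((998 / 1000 : ℝ) * k * ((S.D ∪ D).card : ℕ) *
          (1 - ((k : ℝ) / (k + 1)) ^ (j + 1)) - 2 * ((j + 1 : ℕ) : ℝ)) ≤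
        ((image₂ (fun v u => star e * v + e * u) W' (S.U j)).card : ℝ)
      rw [hcardU, hcu, Nat.cast_mul]
      have h3 := hS.crd j (by omega)
      rw [← hr] at h3
      have h4 : (2 : ℝ) ^ ((w : ℝ) - 1) ≤ W'.card := by
        rw [Real.rpow_sub (by norm_num), Real.rpow_natCast, Real.rpow_one, div_le_iff₀ (by norm_num)]
        rw [hWc] at hW'c
        have h5 : ((2 ^ w : ℕ) : ℝ) ≤ ((2 * W'.card : ℕ) : ℝ) := by exact_mod_cast hW'c
        push_cast at h5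
        linarith
      calc _ ≤ (2 : ℝ) ^ (((w : ℝ) - 1) + ((998 / 1000 : ℝ) * k * r *
              (1 - ((k : ℝ) / (k + 1)) ^ j) - 2 * j)) :=
            Real.rpow_le_rpow_of_exponent_le (by norm_num)
              (expo_EGStep k r D.card j w hk1 hlow hup (by omega))
        _ = (2 : ℝ) ^ ((w : ℝ) - 1) * (2 : ℝ) ^ ((998 / 1000 : ℝ) * k * r *
              (1 - ((k : ℝ) / (k + 1)) ^ j) - 2 * j) := Real.rpow_add (by norm_num) _ _
        _ ≤ _ := mul_le_mul h4 h3 (by positivity) (Nat.cast_nonneg _)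
  · show (k + 1) * r ≤ k * (S.D ∪ D).card
    rw [hcu]
    nlinarith
  · show 1000 * k * (S.D ∪ D).card ≤ (1000 * k + 1001) * r
    rw [hcu]
    nlinarith

theorem states_FLTower (m p κ lp : ℕ) (hm : 2 ≤ m) (hmp : m ≤ 4 ^ p) (hp : 10 ^ 20 ≤ p)
    (hlp : p < 2 ^ lp) (hlp2 : 2 ^ lp ≤ 2 * p) (hκ1 : 20 * lp ≤ κ) (hκ2 : 1002 * κ ≤ p) (hκ0 : 1 ≤ κ)
    (PP : Finset ℕ) (hPP : ∀ l ∈ PP, Split m l ∧ 2 ^ (990 * κ) < l ∧ l ≤ 2 ^ (1001 * κ))
    (hc : 2 ^ (998 * κ) ≤ PP.card) :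
    ∃ S : ℕ → St m,
      (∀ i ≤ 9 * (996 * κ) + 216 * lp * (996 * κ / 10), (S i).Ok PP (996 * κ) i ∧
        p ^ 4 ≤ (S i).D.card ∧ (S i).D.card ≤ p ^ 37 ∧
        ((S i).D.card : ℝ) ≤ 2 * (p : ℝ) ^ 4 * (1 + (1001 / 1000 : ℝ) / (996 * κ : ℕ)) ^ i) ∧
      ∀ i < 9 * (996 * κ) + 216 * lp * (996 * κ / 10), (S i).e ∣ (S (i + 1)).e ∧
        (1 + 1 / ((996 * κ : ℕ) : ℝ)) * (S i).D.card ≤ (S (i + 1)).D.card ∧
        ((S (i + 1)).D.card : ℝ) ≤ (1 + (1001 / 1000 : ℝ) / (996 * κ : ℕ)) * (S i).D.card := by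
  have hκ3 : p ^ 20 ≤ 2 ^ κ := by
    calc p ^ 20 ≤ (2 ^ lp) ^ 20 := Nat.pow_le_pow_left hlp.le 20
      _ = 2 ^ (20 * lp) := by rw [← pow_mul, mul_comm]
      _ ≤ 2 ^ κ := Nat.pow_le_pow_right (by norm_num) hκ1
  obtain ⟨S0, hS0, h01, h02⟩ := start m p κ hm hmp hp hκ3 PP (fun l hl => (hPP l hl).1) hc
  have hk : 1 ≤ 996 * κ := by omega
  have hp1 : 1 ≤ p := le_trans (by norm_num) hp
  have hp' : (10 : ℝ) ^ 20 ≤ p := by exact_mod_cast hp
  have hlp' : (2 : ℝ) ^ lp ≤ 2 * p := by exact_mod_cast hlp2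
  have hcap : ∀ i ≤ 9 * (996 * κ) + 216 * lp * (996 * κ / 10), ∀ r : ℕ,
      (r : ℝ) ≤ 2 * (p : ℝ) ^ 4 * (1 + (1001 / 1000 : ℝ) / (996 * κ : ℕ)) ^ i → r ≤ p ^ 37 := by
    intro i hi r hr
    have h1 := upall_EGTower (996 * κ) lp i hk hi
    have h2 : ((2 : ℝ) ^ lp) ^ 32 ≤ (2 * p) ^ 32 := pow_le_pow_left₀ (by positivity) hlp' 32
    have h3 : (r : ℝ) ≤ (p : ℝ) ^ 37 := by
      calc (r : ℝ) ≤ 2 * (p : ℝ) ^ 4 * (30000 * (2 * p) ^ 32) := by
            refine hr.trans (mul_le_mul_of_nonneg_left (h1.trans ?_) (by positivity))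
            exact mul_le_mul_of_nonneg_left h2 (by norm_num)
        _ = (60000 * 2 ^ 32) * (p : ℝ) ^ 36 := by ring
        _ ≤ p * (p : ℝ) ^ 36 := by
            apply mul_le_mul_of_nonneg_right _ (by positivity)
            exact le_trans (by norm_num) hp'
        _ = (p : ℝ) ^ 37 := by ring
    exact_mod_cast h3
  generalize hK : 996 * κ = K at *
  have hK' : (0 : ℝ) < K := by exact_mod_cast hk
  refine chain_EGTower
    (fun i (S : St m) => S.Ok PP K i ∧ p ^ 4 ≤ S.D.card ∧ S.D.card ≤ p ^ 37 ∧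
      (S.D.card : ℝ) ≤ 2 * (p : ℝ) ^ 4 * (1 + (1001 / 1000 : ℝ) / K) ^ i)
    (fun S S' => S.e ∣ S'.e ∧ (1 + 1 / (K : ℝ)) * S.D.card ≤ S'.D.card ∧
      (S'.D.card : ℝ) ≤ (1 + (1001 / 1000 : ℝ) / K) * S.D.card) _ S0 ?_ ?_
  · have h1 : p ^ 2 ≤ p ^ 4 := Nat.pow_le_pow_right hp1 (by norm_num)
    have h2 : S0.D.card ≤ 2 * p ^ 4 := by omega
    have h3 : (S0.D.card : ℝ) ≤ 2 * (p : ℝ) ^ 4 * (1 + (1001 / 1000 : ℝ) / K) ^ 0 := by
      rw [pow_zero, mul_one]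
      exact_mod_cast h2
    exact ⟨hS0, h01, hcap 0 (Nat.zero_le _) _ h3, h3⟩
  · rintro i hi S ⟨hS, h1, h2, h3⟩
    obtain ⟨S', hS', hd, h4, h5⟩ := step_FLTower m p κ i hm hmp hp hκ3 hκ2 PP
      (fun l hl => ⟨(hPP l hl).1, (hPP l hl).2.2⟩) hc S (hK ▸ hS) h1 h2
    rw [hK] at hS' h4 h5
    have h4' : ((K : ℝ) + 1) * S.D.card ≤ K * S'.D.card := by exact_mod_cast h4
    have h5' : 1000 * (K : ℝ) * S'.D.card ≤ (1000 * K + 1001) * S.D.card := by exact_mod_cast h5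
    have h6 : (1 + 1 / (K : ℝ)) * S.D.card ≤ S'.D.card := by
      have : (1 + 1 / (K : ℝ)) * S.D.card = ((K : ℝ) + 1) * S.D.card / K := by field_simp
      rw [this, div_le_iff₀ hK']
      linarith
    have h7 : (S'.D.card : ℝ) ≤ (1 + (1001 / 1000 : ℝ) / K) * S.D.card := by
      have : (1 + (1001 / 1000 : ℝ) / K) * S.D.card
          = (1000 * (K : ℝ) + 1001) * S.D.card / (1000 * K) := by field_simp
      rw [this, le_div_iff₀ (by positivity)]
      linarith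
    have h8 : S.D.card ≤ S'.D.card := by
      have : K * S.D.card ≤ K * S'.D.card := by nlinarith
      exact Nat.le_of_mul_le_mul_left this hk
    have h9 : (S'.D.card : ℝ) ≤ 2 * (p : ℝ) ^ 4 * (1 + (1001 / 1000 : ℝ) / K) ^ (i + 1) := by
      refine h7.trans ?_
      calc (1 + (1001 / 1000 : ℝ) / K) * S.D.card
          ≤ (1 + (1001 / 1000 : ℝ) / K) * (2 * (p : ℝ) ^ 4 * (1 + (1001 / 1000 : ℝ) / K) ^ i) :=
            mul_le_mul_of_nonneg_left h3 (by positivity)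
        _ = _ := by ring
    exact ⟨S', ⟨hS', h1.trans h8, hcap (i + 1) hi _ h9, h9⟩, hd, h6, h7⟩

theorem tower_FLTower (m p κ lp : ℕ) (hm : 2 ≤ m) (hmp : m ≤ 4 ^ p) (hp : 10 ^ 20 ≤ p) (hlp : p < 2 ^ lp)
    (hlp2 : 2 ^ lp ≤ 2 * p) (hκ1 : 20 * lp ≤ κ) (hκ2 : κ * 10 ^ 10 ≤ p) (PP : Finset ℕ)
    (hPP : ∀ l ∈ PP, Split m l ∧ 2 ^ (990 * κ) < l ∧ l ≤ 2 ^ (1001 * κ))
    (hc : 2 ^ (998 * κ) ≤ PP.card) :
    ∃ (lam : ℕ → ℝ) (e : ℕ → O m) (U : ℕ → Finset (O m)) (D : Finset ℕ),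
      D ⊆ PP ∧ D.card ≤ p ^ 37 ∧ (e (216 * lp)).norm = ∏ l ∈ D, (l : ℤ) ∧
      (∀ j ≤ 216 * lp, ((e j).norm : ℝ) = lam j ^ 100 ∧ (2 : ℝ) ^ (p ^ 4) ≤ lam j ∧
        e j ∣ e (216 * lp) ∧ lam j ^ 99 ≤ (U j).card ∧ ∀ u ∈ U j, SumRes (e j) (8964 * κ) u) ∧
      (∀ j < 216 * lp, lam (j + 1) ^ 121 ≤ lam j ^ 139) ∧ lam 0 ^ 121 ≤ (2 : ℝ) ^ (p ^ 5) ∧
      (2 : ℝ) ^ (p ^ 28) ≤ lam (216 * lp) := by
  have hp1 : 1 ≤ p := le_trans (by norm_num) hp
  have hlp0 : 1 ≤ lp := by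
    rcases Nat.eq_zero_or_pos lp with h | h
    · rw [h] at hlp; omega
    · exact h
  have hκ0 : 1 ≤ κ := by omega
  obtain ⟨S, hS, hR⟩ := states_FLTower m p κ lp hm hmp hp hlp hlp2 hκ1
    (le_trans (by rw [mul_comm]; exact Nat.mul_le_mul_left _ (by norm_num)) hκ2) hκ0 PP hPP hc
  have hk : 100 ≤ 996 * κ := by omega
  have hs0 : 8964 * κ = 9 * (996 * κ) := by ring
  have hKR : ((996 * κ : ℕ) : ℝ) = 996 * κ := by push_cast; ring
  rw [hs0]
  generalize hK : 996 * κ = K at *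
  have hK' : (0 : ℝ) < K := by
    have : 0 < K := by omega
    exact_mod_cast this
  have hit := iter_EGTower S _ _ _ (by positivity) (by positivity) hR
  have hle : ∀ j ≤ 216 * lp, 9 * K + j * (K / 10) ≤ 9 * K + 216 * lp * (K / 10) := fun j hj =>
    Nat.add_le_add_left (Nat.mul_le_mul_right _ hj) _
  have hnorm : ∀ j ≤ 216 * lp, (S (9 * K + j * (K / 10))).e.norm
      = ∏ l ∈ (S (9 * K + j * (K / 10))).D, (l : ℤ) := fun j hj =>
    (hS _ (hle j hj)).1.box.nrm _ (hS _ (hle j hj)).1.mem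
  have hb : ∀ j ≤ 216 * lp,
      (2 : ℝ) ^ (990 * κ * (S (9 * K + j * (K / 10))).D.card)
        ≤ ((S (9 * K + j * (K / 10))).e.norm : ℝ) ∧
      ((S (9 * K + j * (K / 10))).e.norm : ℝ)
        ≤ (2 : ℝ) ^ (1001 * κ * (S (9 * K + j * (K / 10))).D.card) := by
    intro j hj
    rw [hnorm j hj]
    exact prod_bounds_EGTower _ _ _ fun l hl => (hPP l ((hS _ (hle j hj)).1.sub hl)).2
  obtain ⟨lam, hlam0, hlam⟩ : ∃ lam : ℕ → ℝ, (∀ j, 0 ≤ lam j) ∧
      ∀ j, ((S (9 * K + j * (K / 10))).e.norm : ℝ) = lam j ^ 100 := by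
    have hn : ∀ j, (0 : ℝ) ≤ ((S (9 * K + j * (K / 10))).e.norm : ℝ) := fun j => by
      exact_mod_cast Zsqrtd.norm_nonneg (by omega) _
    refine ⟨fun j => ((S (9 * K + j * (K / 10))).e.norm : ℝ) ^ ((100 : ℕ) : ℝ)⁻¹,
      fun j => Real.rpow_nonneg (hn j) _, fun j => ?_⟩
    exact (Real.rpow_inv_natCast_pow (hn j) (by norm_num)).symm
  have hlow : ∀ j ≤ 216 * lp, ∀ n : ℕ, n ≤ (S (9 * K + j * (K / 10))).D.card →
      (2 : ℝ) ^ n ≤ lam j := by
    intro j hj n hn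
    refine le_of_pow_le_pow_left₀ (n := 100) (by norm_num) (hlam0 j) ?_
    rw [← hlam j, ← pow_mul]
    refine le_trans (pow_le_pow_right₀ (by norm_num) ?_) (hb j hj).1
    calc n * 100 ≤ (S (9 * K + j * (K / 10))).D.card * (990 * κ) :=
          Nat.mul_le_mul hn (by omega)
      _ = _ := mul_comm _ _
  have hp' : (10 : ℝ) ^ 20 ≤ p := by exact_mod_cast hp
  refine ⟨lam, fun j => (S (9 * K + j * (K / 10))).e, fun j => (S (9 * K + j * (K / 10))).U (9 * K),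
    (S (9 * K + 216 * lp * (K / 10))).D, (hS _ le_rfl).1.sub, (hS _ le_rfl).2.2.1,
    hnorm _ le_rfl, fun j hj => ⟨hlam j, hlow j hj _ (hS _ (hle j hj)).2.1, ?_, ?_,
      (hS _ (hle j hj)).1.sum _⟩, fun j hj => ?_, ?_, ?_⟩
  · obtain ⟨n, hn⟩ := Nat.exists_eq_add_of_le (hle j hj)
    have h1 := (hit _ n hn.symm.le).1
    rw [← hn] at h1
    exact h1
  · have h1 := (hS _ (hle j hj)).1.crd (9 * K) (Nat.le_add_right _ _)
    have h2 := q_small_EGTower K (by omega)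
    have h3 := (hb j hj).2
    have h4 : 100000 ≤ (S (9 * K + j * (K / 10))).D.card := by
      refine le_trans ?_ (hS _ (hle j hj)).2.1
      calc 100000 ≤ p := le_trans (by norm_num) hp
        _ = p ^ 1 := (pow_one p).symm
        _ ≤ p ^ 4 := Nat.pow_le_pow_right hp1 (by norm_num)
    refine le_trans ?_ h1
    rw [hlam j] at h3
    generalize (S (9 * K + j * (K / 10))).D.card = r at *
    have h4' : (100000 : ℝ) ≤ r := by exact_mod_cast h4
    refine le_of_pow_le_pow_left₀ (n := 100) (by norm_num) (by positivity) ?_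
    rw [← pow_mul, mul_comm 99 100, pow_mul]
    refine (pow_le_pow_left₀ (by positivity) h3 99).trans ?_
    rw [← pow_mul, ← Real.rpow_natCast, ← Real.rpow_natCast, ← Real.rpow_mul (by norm_num)]
    apply Real.rpow_le_rpow_of_exponent_le (by norm_num)
    generalize ((K : ℝ) / (K + 1)) ^ (9 * K) = q at *
    have hκ' : (0 : ℝ) < κ := by exact_mod_cast hκ0
    push_cast
    rw [hKR]
    have h5 : (0 : ℝ) ≤ κ * r * (1 / 512 - q) := by
      apply mul_nonneg (by positivity); linarith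
    have h6 : (0 : ℝ) ≤ κ * (r - 100000) := by
      apply mul_nonneg hκ'.le; linarith
    nlinarith
  · have hj1 : 9 * K + (j + 1) * (K / 10) = 9 * K + j * (K / 10) + K / 10 := by ring
    have h1 := (hit (9 * K + j * (K / 10)) (K / 10) (by rw [← hj1]; exact hle _ hj)).2.2
    rw [← hj1] at h1
    have h2 := upsig_EGTower K (by omega)
    have h3 := (hb (j + 1) hj).2
    have h4 := (hb j hj.le).1
    rw [hlam] at h3 h4
    generalize (S (9 * K + (j + 1) * (K / 10))).D.card = r' at *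
    generalize (S (9 * K + j * (K / 10))).D.card = r at *
    have h5 : (r' : ℝ) ≤ 9 / 8 * r := h1.trans (mul_le_mul_of_nonneg_right h2 (by positivity))
    have h6 : 8 * r' ≤ 9 * r := by
      have : (8 : ℝ) * r' ≤ 9 * r := by linarith
      exact_mod_cast this
    refine le_of_pow_le_pow_left₀ (n := 100) (by norm_num) (pow_nonneg (hlam0 j) _) ?_
    rw [← pow_mul, ← pow_mul, mul_comm 121 100, mul_comm 139 100, pow_mul, pow_mul]
    refine (pow_le_pow_left₀ (pow_nonneg (hlam0 _) _) h3 121).trans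
      (le_trans ?_ (pow_le_pow_left₀ (by positivity) h4 139))
    rw [← pow_mul, ← pow_mul]
    apply pow_le_pow_right₀ (by norm_num)
    have h7 : 1001 * 121 * r' ≤ 990 * 139 * r := by omega
    calc 1001 * κ * r' * 121 = κ * (1001 * 121 * r') := by ring
      _ ≤ κ * (990 * 139 * r) := Nat.mul_le_mul_left _ h7
      _ = 990 * κ * r * 139 := by ring
  · have h1 := (hS _ (hle 0 (Nat.zero_le _))).2.2.2
    have h2 := up9_EGTower K (9 * K + 0 * (K / 10)) (by omega) (by omega)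
    have h3 := (hb 0 (Nat.zero_le _)).2
    rw [hlam] at h3
    generalize (S (9 * K + 0 * (K / 10))).D.card = r at *
    have h4 : r ≤ 60000 * p ^ 4 := by
      have : (r : ℝ) ≤ 60000 * (p : ℝ) ^ 4 := by
        refine h1.trans ((mul_le_mul_of_nonneg_left h2 (by positivity)).trans (le_of_eq ?_))
        ring
      exact_mod_cast this
    have h5 : κ * 10 ^ 10 ≤ p := hκ2
    refine le_of_pow_le_pow_left₀ (n := 100) (by norm_num) (by positivity) ?_
    rw [← pow_mul, mul_comm 121 100, pow_mul]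
    refine (pow_le_pow_left₀ (pow_nonneg (hlam0 _) _) h3 121).trans ?_
    rw [← pow_mul, ← pow_mul]
    apply pow_le_pow_right₀ (by norm_num)
    calc 1001 * κ * r * 121 ≤ 1001 * κ * (60000 * p ^ 4) * 121 :=
          Nat.mul_le_mul_right _ (Nat.mul_le_mul_left _ h4)
      _ = (κ * (1001 * 600 * 121)) * (p ^ 4 * 100) := by ring
      _ ≤ p * (p ^ 4 * 100) :=
          Nat.mul_le_mul_right _ (le_trans (Nat.mul_le_mul_left κ (by norm_num)) h5)
      _ = p ^ 5 * 100 := by ring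
  · apply hlow _ le_rfl
    have h1 := (hit (9 * K) (216 * lp * (K / 10)) le_rfl).2.1
    have h2 := lowall_EGTower K lp hk
    have h3 := (hS (9 * K) (Nat.le_add_right _ _)).2.1
    have h3' : (p : ℝ) ^ 4 ≤ (S (9 * K)).D.card := by exact_mod_cast h3
    have h4 : (p : ℝ) ≤ 2 ^ lp := by exact_mod_cast hlp.le
    have h5 : (p : ℝ) ^ 28 ≤ (S (9 * K + 216 * lp * (K / 10))).D.card := by
      refine le_trans ?_ h1
      calc (p : ℝ) ^ 28 = (p : ℝ) ^ 24 * (p : ℝ) ^ 4 := by ring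
        _ ≤ _ := mul_le_mul ((pow_le_pow_left₀ (by positivity) h4 24).trans h2) h3'
            (by positivity) (by positivity)
    exact_mod_cast h5

end Pool.Agent.P.MP_b75a1e_co.EG
end
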