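import Pool.Agent.K.MP_b75a1e_co.C4

-- part Pool.Agent.P.MP_b75a1e_co.FLCount
section

set_option autoImplicit false

open Finset
open scoped BigOperators ComplexConjugate

namespace Pool.Agent.P.MP_b75a1e_co.EG

variable {m y J : ℕ} {k : ℝ} {F : Finset (O m)}

theorem cnt_lin_class (X : Finset ℤ) (N q : ℕ) (hq : 1 ≤ q)
    (hX : ∀ x ∈ X, 0 ≤ x ∧ x ≤ N) (hd : ∀ x ∈ X, ∀ x' ∈ X, (q : ℤ) ∣ x - x') :
    (X.card : ℝ) ≤ (N : ℝ) / q + 1 := by
  have hq0 : (0 : ℤ) < q := by exact_mod_cast hq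
  have h1 : X.card ≤ (Finset.Icc (0 : ℤ) ((N / q : ℕ) : ℤ)).card := by
    apply Finset.card_le_card_of_injOn (fun x => x / (q : ℤ))
    · intro x hx
      have hx' := hX x (by simpa using hx)
      simp only [coe_Icc, Set.mem_Icc]
      refine ⟨Int.ediv_nonneg hx'.1 hq0.le, ?_⟩
      rw [Int.natCast_div]
      exact Int.ediv_le_ediv hq0 hx'.2
    · intro x hx x' hx' hxx
      have h2 := hd x (by simpa using hx) x' (by simpa using hx')
      have h3 : x % q = x' % q :=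
        Int.emod_eq_emod_iff_emod_sub_eq_zero.mpr (Int.emod_eq_zero_of_dvd h2)
      have h4 := Int.emod_add_mul_ediv x q
      have h5 := Int.emod_add_mul_ediv x' q
      simp only at hxx
      rw [← h4, ← h5, h3, hxx]
  rw [Int.card_Icc] at h1
  have h2 : X.card ≤ N / q + 1 := by
    generalize N / q = w at h1 ⊢
    omega
  have h3 : ((N / q : ℕ) : ℝ) ≤ (N : ℝ) / q := Nat.cast_div_le
  have h4 : (X.card : ℝ) ≤ ((N / q : ℕ) : ℝ) + 1 := by exact_mod_cast h2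
  linarith

theorem cnt_lin_div {h t : ℕ} (hh : 0 < h) {a : ℤ} (ha : (h : ℤ) ∣ (t : ℤ) * a) :
    ((h / Nat.gcd h t : ℕ) : ℤ) ∣ a := by
  have hg : 0 < Nat.gcd h t := Nat.gcd_pos_of_pos_left _ hh
  have hc : Nat.Coprime (h / Nat.gcd h t) (t / Nat.gcd h t) := Nat.coprime_div_gcd_div_gcd hg
  have e1 : (h : ℤ) = (Nat.gcd h t : ℤ) * ((h / Nat.gcd h t : ℕ) : ℤ) := by
    exact_mod_cast (Nat.mul_div_cancel' (Nat.gcd_dvd_left h t)).symm
  have e2 : (t : ℤ) = (Nat.gcd h t : ℤ) * ((t / Nat.gcd h t : ℕ) : ℤ) := by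
    exact_mod_cast (Nat.mul_div_cancel' (Nat.gcd_dvd_right h t)).symm
  have h1 : (Nat.gcd h t : ℤ) * ((h / Nat.gcd h t : ℕ) : ℤ) ∣
      (Nat.gcd h t : ℤ) * (((t / Nat.gcd h t : ℕ) : ℤ) * a) := by
    rw [← mul_assoc, ← e1, ← e2]; exact ha
  have h2 := (mul_dvd_mul_iff_left (by exact_mod_cast hg.ne' : (Nat.gcd h t : ℤ) ≠ 0)).mp h1
  exact (Nat.isCoprime_iff_coprime.mpr hc).dvd_of_dvd_mul_left h2

theorem cnt_lin_fibre (hm : 1 ≤ m) (g : ℕ) (hg : 1 ≤ g) (A B : O m) (c : ℝ)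
    (hc : ∀ f : ℕ, f ∣ g → (f : O m) ∣ A → (f : O m) ∣ B → (f : ℝ) ≤ c)
    (j : ℤ) (T : Finset (O m))
    (hT : ∀ δ ∈ T, 0 ≤ δ.re ∧ δ.re ≤ 2 * y ∧ δ.im = m * j ∧ (g : O m) ∣ A * δ + B * star δ) :
    (T.card : ℝ) ≤ 4 * y * (m : ℝ) ^ 2 * c * (Nat.gcd j.natAbs g : ℝ) / g + 1 := by
  have hc1 : (1 : ℝ) ≤ c := by simpa using hc 1 (one_dvd _) (by simp) (by simp)
  have hg0 : (0 : ℝ) < g := by exact_mod_cast hg
  rcases T.eq_empty_or_nonempty with rfl | ⟨δ0, h0⟩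
  · simp only [card_empty, Nat.cast_zero]; positivity
  have key : ∀ δ ∈ T, (g : ℤ) ∣ (A.re + B.re) * δ.re - (m : ℤ) * (m * j) * (A.im - B.im) ∧
      (g : ℤ) ∣ (A.im + B.im) * δ.re + (m * j) * (A.re - B.re) := by
    intro δ hδ
    obtain ⟨-, -, h3, h4⟩ := hT δ hδ
    have h5 : ((g : ℤ) : O m) ∣ A * δ + B * star δ := by exact_mod_cast h4
    rw [Zsqrtd.intCast_dvd] at h5
    obtain ⟨h6, h7⟩ := h5
    simp only [Zsqrtd.re_add, Zsqrtd.re_mul, Zsqrtd.re_star, Zsqrtd.im_star, Zsqrtd.im_add,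
      Zsqrtd.im_mul, h3] at h6 h7
    constructor
    · have e : (A.re + B.re) * δ.re - (m : ℤ) * (m * j) * (A.im - B.im) =
          A.re * δ.re + -(m : ℤ) * A.im * (m * j) + (B.re * δ.re + -(m : ℤ) * B.im * -(m * j)) := by
        ring
      rw [e]; exact h6
    · have e : (A.im + B.im) * δ.re + (m * j) * (A.re - B.re) =
          A.re * (m * j) + A.im * δ.re + (B.re * -(m * j) + B.im * δ.re) := by ring
      rw [e]; exact h7
  set h : ℕ := Nat.gcd g (Int.gcd (A.re + B.re) (A.im + B.im)) with hh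
  have hh0 : 0 < h := Nat.gcd_pos_of_pos_left _ hg
  have hhg : h ∣ g := Nat.gcd_dvd_left _ _
  have hhs : (h : ℤ) ∣ (Int.gcd (A.re + B.re) (A.im + B.im) : ℤ) := by
    exact_mod_cast Nat.gcd_dvd_right _ _
  have hh1 : (h : ℤ) ∣ A.re + B.re := hhs.trans (Int.gcd_dvd_left _ _)
  have hh2 : (h : ℤ) ∣ A.im + B.im := hhs.trans (Int.gcd_dvd_right _ _)
  have hhg' : (h : ℤ) ∣ (g : ℤ) := by exact_mod_cast hhg
  have hq : 1 ≤ g / h := Nat.div_pos (Nat.le_of_dvd hg hhg) hh0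
  have hcard : T.card = (T.image fun δ => δ.re).card := by
    symm
    apply Finset.card_image_of_injOn
    intro δ hδ δ' hδ' e
    have a1 := hT δ (by simpa using hδ)
    have a2 := hT δ' (by simpa using hδ')
    exact Zsqrtd.ext e (by rw [a1.2.2.1, a2.2.2.1])
  have hcls := cnt_lin_class (T.image fun δ => δ.re) (2 * y) (g / h) hq
    (by
      intro x hx
      obtain ⟨δ, hδ, rfl⟩ := Finset.mem_image.mp hx
      have a1 := hT δ hδ
      exact ⟨a1.1, by push_cast; exact a1.2.1⟩)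
    (by
      intro x hx x' hx'
      obtain ⟨δ, hδ, rfl⟩ := Finset.mem_image.mp hx
      obtain ⟨δ', hδ', rfl⟩ := Finset.mem_image.mp hx'
      have a1 := key δ hδ
      have a2 := key δ' hδ'
      have b1 : (g : ℤ) ∣ (A.re + B.re) * (δ.re - δ'.re) := by
        have := dvd_sub a1.1 a2.1
        have e : (A.re + B.re) * (δ.re - δ'.re) =
          (A.re + B.re) * δ.re - (m : ℤ) * (m * j) * (A.im - B.im) -
            ((A.re + B.re) * δ'.re - (m : ℤ) * (m * j) * (A.im - B.im)) := by ring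
        rw [e]; exact this
      have b2 : (g : ℤ) ∣ (A.im + B.im) * (δ.re - δ'.re) := by
        have := dvd_sub a1.2 a2.2
        have e : (A.im + B.im) * (δ.re - δ'.re) =
          (A.im + B.im) * δ.re + (m * j) * (A.re - B.re) -
            ((A.im + B.im) * δ'.re + (m * j) * (A.re - B.re)) := by ring
        rw [e]; exact this
      have b3 : (g : ℤ) ∣ (Int.gcd (A.re + B.re) (A.im + B.im) : ℤ) * (δ.re - δ'.re) := by
        rw [Int.gcd_eq_gcd_ab, add_mul]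
        apply dvd_add
        · rw [mul_right_comm]; exact b1.mul_right _
        · rw [mul_right_comm]; exact b2.mul_right _
      exact cnt_lin_div hg b3)
  have k0 := key δ0 h0
  have d1 : (h : ℤ) ∣ (m : ℤ) * (m * j) * (A.im - B.im) := by
    have := dvd_sub (hh1.mul_right δ0.re) (hhg'.trans k0.1)
    have e : (m : ℤ) * (m * j) * (A.im - B.im) = (A.re + B.re) * δ0.re -
      ((A.re + B.re) * δ0.re - (m : ℤ) * (m * j) * (A.im - B.im)) := by ring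
    rw [e]; exact this
  have d2 : (h : ℤ) ∣ (m : ℤ) * (m * j) * (A.re - B.re) := by
    have := (dvd_sub (hhg'.trans k0.2) (hh2.mul_right δ0.re)).mul_left (m : ℤ)
    have e : (m : ℤ) * (m * j) * (A.re - B.re) = m * ((A.im + B.im) * δ0.re +
      (m * j) * (A.re - B.re) - (A.im + B.im) * δ0.re) := by ring
    rw [e]; exact this
  have tr : ∀ a : ℤ, (h : ℤ) ∣ 2 * (m : ℤ) ^ 2 * j * a →
      ((h / Nat.gcd h (2 * m ^ 2 * j.natAbs) : ℕ) : ℤ) ∣ a := by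
    intro a ha
    apply cnt_lin_div hh0
    push_cast
    rcases abs_choice j with e | e
    · rw [e]; exact ha
    · rw [e]
      have e2 : 2 * (m : ℤ) ^ 2 * -j * a = -(2 * (m : ℤ) ^ 2 * j * a) := by ring
      rw [e2]; exact ha.neg_right
  have f1 := tr A.re (by
    have := dvd_add (hh1.mul_left ((m : ℤ) * (m * j))) d2
    have e : 2 * (m : ℤ) ^ 2 * j * A.re =
      (m : ℤ) * (m * j) * (A.re + B.re) + (m : ℤ) * (m * j) * (A.re - B.re) := by ring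
    rw [e]; exact this)
  have f2 := tr A.im (by
    have := dvd_add (hh2.mul_left ((m : ℤ) * (m * j))) d1
    have e : 2 * (m : ℤ) ^ 2 * j * A.im =
      (m : ℤ) * (m * j) * (A.im + B.im) + (m : ℤ) * (m * j) * (A.im - B.im) := by ring
    rw [e]; exact this)
  have f3 := tr B.re (by
    have := dvd_sub (hh1.mul_left ((m : ℤ) * (m * j))) d2
    have e : 2 * (m : ℤ) ^ 2 * j * B.re =
      (m : ℤ) * (m * j) * (A.re + B.re) - (m : ℤ) * (m * j) * (A.re - B.re) := by ring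
    rw [e]; exact this)
  have f4 := tr B.im (by
    have := dvd_sub (hh2.mul_left ((m : ℤ) * (m * j))) d1
    have e : 2 * (m : ℤ) ^ 2 * j * B.im =
      (m : ℤ) * (m * j) * (A.im + B.im) - (m : ℤ) * (m * j) * (A.im - B.im) := by ring
    rw [e]; exact this)
  set t : ℕ := Nat.gcd h (2 * m ^ 2 * j.natAbs) with ht
  have hft : h = t * (h / t) := (Nat.mul_div_cancel' (Nat.gcd_dvd_left _ _)).symm
  have hfc : ((h / t : ℕ) : ℝ) ≤ c := by
    apply hc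
    · exact (Nat.div_dvd_of_dvd (Nat.gcd_dvd_left _ _)).trans hhg
    · have : (((h / t : ℕ) : ℤ) : O m) ∣ A := Zsqrtd.intCast_dvd _ _ |>.mpr ⟨f1, f2⟩
      exact_mod_cast this
    · have : (((h / t : ℕ) : ℤ) : O m) ∣ B := Zsqrtd.intCast_dvd _ _ |>.mpr ⟨f3, f4⟩
      exact_mod_cast this
  have htl : t ≤ 2 * m ^ 2 * Nat.gcd j.natAbs g := by
    have a1 : t ∣ Nat.gcd h (2 * m ^ 2) * Nat.gcd h j.natAbs := gcd_mul_dvd_mul_gcd h (2 * m ^ 2) j.natAbs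
    have a2 : Nat.gcd h (2 * m ^ 2) ∣ 2 * m ^ 2 := Nat.gcd_dvd_right _ _
    have a3 : Nat.gcd h j.natAbs ∣ Nat.gcd j.natAbs g :=
      Nat.dvd_gcd (Nat.gcd_dvd_right _ _) ((Nat.gcd_dvd_left _ _).trans hhg)
    have a4 : 0 < 2 * m ^ 2 * Nat.gcd j.natAbs g :=
      Nat.mul_pos (by positivity) (Nat.gcd_pos_of_pos_right _ hg)
    exact Nat.le_of_dvd a4 (a1.trans (Nat.mul_dvd_mul a2 a3))
  have hhl : (h : ℝ) ≤ 2 * (m : ℝ) ^ 2 * (Nat.gcd j.natAbs g : ℝ) * c := by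
    have a1 : (h : ℝ) = (t : ℝ) * ((h / t : ℕ) : ℝ) := by exact_mod_cast hft
    have a2 : (t : ℝ) ≤ 2 * (m : ℝ) ^ 2 * (Nat.gcd j.natAbs g : ℝ) := by exact_mod_cast htl
    rw [a1]
    exact mul_le_mul a2 hfc (by positivity) (by positivity)
  have hdiv : ((g / h : ℕ) : ℝ) = (g : ℝ) / h := Nat.cast_div hhg (by exact_mod_cast hh0.ne')
  rw [hcard]
  refine hcls.trans ?_
  rw [hdiv, div_div_eq_mul_div]
  push_cast
  have hy0 : (0 : ℝ) ≤ y := by positivity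
  have : 2 * (y : ℝ) * h ≤ 4 * y * (m : ℝ) ^ 2 * c * (Nat.gcd j.natAbs g : ℝ) := by
    nlinarith [mul_le_mul_of_nonneg_left hhl hy0]
  gcongr

open Classical in
theorem cnt_lin (h : Fam m y J k F) (hm : 1 ≤ m) (g : ℕ) (hg : 1 ≤ g) (A B : O m) (c : ℝ)
    (hc : ∀ f : ℕ, f ∣ g → (f : O m) ∣ A → (f : O m) ∣ B → (f : ℝ) ≤ c) :
    ((F.filter fun δ => (g : O m) ∣ A * δ + B * star δ).card : ℝ) ≤
      k * (8 * (m : ℝ) ^ 2 * c * g.divisors.card / g + 2 / y) * F.card := by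
  have hc1 : (1 : ℝ) ≤ c := by simpa using hc 1 (one_dvd _) (by simp) (by simp)
  have hg0 : (0 : ℝ) < g := by exact_mod_cast hg
  have hm0 : (0 : ℤ) < m := by exact_mod_cast hm
  have hy : 1 ≤ y := by
    have a1 := h.thin
    have a2 := h.pos
    have a3 : 0 < 10 * m ^ 2 * J := by positivity
    omega
  have hy0 : (0 : ℝ) < y := by exact_mod_cast hy
  set T := F.filter fun δ => (g : O m) ∣ A * δ + B * star δ with hT
  have hfib : ∀ j : ℤ, ((T.filter fun δ => δ.im = m * j).card : ℝ) ≤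
      4 * y * (m : ℝ) ^ 2 * c * (Nat.gcd j.natAbs g : ℝ) / g + 1 := by
    intro j
    apply cnt_lin_fibre hm g hg A B c hc j
    intro δ hδ
    obtain ⟨a1, a2⟩ := Finset.mem_filter.mp hδ
    obtain ⟨a3, a4⟩ := Finset.mem_filter.mp a1
    obtain ⟨b1, b2, -, -⟩ := h.box δ a3
    exact ⟨by omega, b2, a2, a4⟩
  have hsub : T ⊆ (Icc 1 J).biUnion fun j : ℕ =>
      (T.filter fun δ => δ.im = m * (j : ℤ)) ∪ (T.filter fun δ => δ.im = m * (-(j : ℤ))) := by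
    intro δ hδ
    have a3 := (Finset.mem_filter.mp hδ).1
    obtain ⟨-, -, ⟨j, b3⟩, b4⟩ := h.box δ a3
    have b5 := h.im_ne a3
    have b6 : j ≠ 0 := by rintro rfl; simp at b3; exact b5 b3
    have b7 : |j| ≤ J := by
      rw [b3, abs_mul, abs_of_pos hm0] at b4
      exact le_of_mul_le_mul_left b4 hm0
    refine Finset.mem_biUnion.mpr ⟨j.natAbs, Finset.mem_Icc.mpr ⟨by omega, ?_⟩, ?_⟩
    · have : ((j.natAbs : ℕ) : ℤ) ≤ J := by rw [Int.natCast_natAbs]; exact b7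
      exact_mod_cast this
    · rw [Finset.mem_union, Int.natCast_natAbs]
      rcases abs_choice j with e | e
      · left; rw [e]; exact Finset.mem_filter.mpr ⟨hδ, b3⟩
      · right; rw [e, neg_neg]; exact Finset.mem_filter.mpr ⟨hδ, b3⟩
  have h1 : (T.card : ℝ) ≤ ∑ j ∈ Icc 1 J,
      (8 * y * (m : ℝ) ^ 2 * c / g * (Nat.gcd j g : ℝ) + 2) := by
    have a1 := (Finset.card_le_card hsub).trans Finset.card_biUnion_le
    have a2 : (T.card : ℝ) ≤ ∑ j ∈ Icc 1 J, ((((T.filter fun δ => δ.im = m * (j : ℤ)) ∪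
        (T.filter fun δ => δ.im = m * (-(j : ℤ)))).card : ℕ) : ℝ) := by exact_mod_cast a1
    refine a2.trans (Finset.sum_le_sum fun j _ => ?_)
    have a3 : ((((T.filter fun δ => δ.im = m * (j : ℤ)) ∪
        (T.filter fun δ => δ.im = m * (-(j : ℤ)))).card : ℕ) : ℝ) ≤
        ((T.filter fun δ => δ.im = m * (j : ℤ)).card : ℝ) +
          ((T.filter fun δ => δ.im = m * (-(j : ℤ))).card : ℝ) := by
      exact_mod_cast Finset.card_union_le _ _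
    have a4 := hfib (j : ℤ)
    have a5 := hfib (-(j : ℤ))
    rw [Int.natAbs_natCast] at a4
    rw [Int.natAbs_neg, Int.natAbs_natCast] at a5
    have e : 8 * y * (m : ℝ) ^ 2 * c / g * (Nat.gcd j g : ℝ) + 2 =
      2 * (4 * y * (m : ℝ) ^ 2 * c * (Nat.gcd j g : ℝ) / g + 1) := by ring
    rw [e]; linarith
  rw [Finset.sum_add_distrib, ← Finset.mul_sum, Finset.sum_const, Nat.card_Icc] at h1
  have h2 := gcd_sum g J hg
  have h3 : (T.card : ℝ) ≤ (8 * (m : ℝ) ^ 2 * c * g.divisors.card / g + 2 / y) * (y * J) := by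
    have a1 : 8 * y * (m : ℝ) ^ 2 * c / g * ∑ j ∈ Icc 1 J, (Nat.gcd j g : ℝ) ≤
        8 * y * (m : ℝ) ^ 2 * c / g * (g.divisors.card * J) :=
      mul_le_mul_of_nonneg_left h2 (by positivity)
    have e : (8 * (m : ℝ) ^ 2 * c * g.divisors.card / g + 2 / y) * (y * J) =
        8 * y * (m : ℝ) ^ 2 * c / g * (g.divisors.card * J) + J * 2 := by
      field_simp
    rw [e]
    simp only [add_tsub_cancel_right, nsmul_eq_mul] at h1
    linarith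
  refine h3.trans ?_
  have h4 := mul_le_mul_of_nonneg_left h.big
    (by positivity : (0 : ℝ) ≤ 8 * (m : ℝ) ^ 2 * c * g.divisors.card / g + 2 / y)
  linarith

open Classical in
theorem tb_lin (hS : Sml m k) (h : Fam m y J k F) (D g : ℕ) (hD1 : 1 ≤ D) (hD : D ≤ y) (hg : g ∣ D)
    (A B : O m) (c : ℝ) (hc : ∀ f : ℕ, f ∣ g → (f : O m) ∣ A → (f : O m) ∣ B → (f : ℝ) ≤ c) :
    ((F.filter fun δ => (g : O m) ∣ A * tb D δ + B).card : ℝ) ≤
      10 * k ^ 4 * c * (g : ℝ) ^ (-999 / 1000 : ℝ) * F.card := by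
  have hc1 : (1 : ℝ) ≤ c := by simpa using hc 1 (one_dvd _) (by simp) (by simp)
  have hg1 : 1 ≤ g := Nat.pos_of_dvd_of_pos hg hD1
  have hg1' : (1 : ℝ) ≤ g := by exact_mod_cast hg1
  have hg0 : (0 : ℝ) < g := by linarith
  have hgy : (g : ℝ) ≤ y := by exact_mod_cast (Nat.le_of_dvd hD1 hg).trans hD
  have hk1 : (1 : ℝ) ≤ k := le_trans (by norm_num) hS.k1
  have hsub : (F.filter fun δ => (g : O m) ∣ A * tb D δ + B) ⊆
      F.filter fun δ => (g : O m) ∣ A * δ + B * star δ := by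
    intro δ hδ
    obtain ⟨a1, a2⟩ := Finset.mem_filter.mp hδ
    refine Finset.mem_filter.mpr ⟨a1, ?_⟩
    have a3 := tb_spec hD1 (h.cop a1 hD1 hD)
    have a4 : (g : O m) ∣ (D : O m) := Nat.cast_dvd_cast hg
    have a5 := dvd_sub (a2.mul_left (star δ)) ((a4.trans a3).mul_left A)
    have e : A * δ + B * star δ =
      star δ * (A * tb D δ + B) - A * (star δ * tb D δ - δ) := by ring
    rw [e]; exact a5
  have h1 : ((F.filter fun δ => (g : O m) ∣ A * tb D δ + B).card : ℝ) ≤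
      ((F.filter fun δ => (g : O m) ∣ A * δ + B * star δ).card : ℝ) := by
    exact_mod_cast Finset.card_le_card hsub
  refine h1.trans ((cnt_lin h hS.m1 g hg1 A B c hc).trans ?_)
  apply mul_le_mul_of_nonneg_right _ (by positivity)
  set P : ℝ := (g : ℝ) ^ (-999 / 1000 : ℝ) with hP
  have hP0 : 0 < P := Real.rpow_pos_of_pos hg0 _
  have e1 : (g : ℝ) ^ (1 / 1000 : ℝ) / g = P := by
    rw [hP, div_eq_iff hg0.ne', ← Real.rpow_add_one hg0.ne']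
    norm_num
  have e2 : (1 : ℝ) ≤ (g : ℝ) ^ (1 / 1000 : ℝ) := Real.one_le_rpow hg1' (by norm_num)
  have a1 : (g.divisors.card : ℝ) / g ≤ k * P := by
    rw [← e1, ← mul_div_assoc]
    exact div_le_div_of_nonneg_right (hS.tau g hg1) hg0.le
  have a2 : (1 : ℝ) / y ≤ P := by
    rw [← e1]
    exact div_le_div₀ (by positivity) e2 hg0 hgy
  have a3 : (m : ℝ) ^ 2 ≤ k ^ 2 := pow_le_pow_left₀ (by positivity) hS.mk' 2
  have a4 : 8 * (m : ℝ) ^ 2 * c * g.divisors.card / g ≤ 8 * k ^ 2 * c * (k * P) := by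
    rw [mul_div_assoc]
    exact mul_le_mul (by gcongr) a1 (by positivity) (by positivity)
  have a5 : (1 : ℝ) ≤ k ^ 3 * c := one_le_mul_of_one_le_of_one_le (one_le_pow₀ hk1) hc1
  have a6 : 2 / (y : ℝ) ≤ 2 * (k ^ 3 * c) * P := by
    have : 2 / (y : ℝ) = 2 * (1 / y) := by ring
    rw [this]
    nlinarith
  have a7 : 8 * (m : ℝ) ^ 2 * c * g.divisors.card / g + 2 / y ≤ 10 * k ^ 3 * c * P := by
    nlinarith
  calc k * (8 * (m : ℝ) ^ 2 * c * g.divisors.card / g + 2 / y) ≤ k * (10 * k ^ 3 * c * P) :=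
        mul_le_mul_of_nonneg_left a7 (by linarith)
    _ = 10 * k ^ 4 * c * P := by ring

end Pool.Agent.P.MP_b75a1e_co.EG
end

-- part Pool.Agent.P.MP_b75a1e_co.FLLower
section

set_option autoImplicit false

open Finset
open scoped BigOperators ComplexConjugate

namespace Pool.Agent.P.MP_b75a1e_co.EG

theorem icc_range_FLLower (m N : ℕ) (h1 : 1 < m) :
    ∑ n ∈ Icc 1 N, (jacobiSym n m : ℝ) = ∑ n ∈ range (N + 1), (jacobiSym n m : ℝ) := by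
  rw [Finset.range_eq_Ico, Finset.sum_eq_sum_Ico_succ_bot (by omega : 0 < N + 1)]
  have h0 : jacobiSym ((0 : ℕ) : ℤ) m = 0 := by
    simpa using jacobiSym.zero_left h1
  rw [h0]
  simp only [Int.cast_zero, zero_add]
  rfl

theorem jac_abs_FLLower (n m : ℕ) : |(jacobiSym n m : ℝ)| ≤ 1 := by
  rcases jacobiSym.trichotomy (n : ℤ) m with h | h | h <;> rw [h] <;> simp

theorem r_nonneg_FLLower (m : ℕ) [NeZero m] (χ : DirichletCharacter ℂ m) (h2 : χ ^ 2 = 1)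
    (hχ : ∀ n : ℕ, χ (n : ZMod m) = (jacobiSym n m : ℂ)) (n : ℕ) :
    0 ≤ ∑ d ∈ n.divisors, (jacobiSym d m : ℝ) := by
  have h := DirichletCharacter.zetaMul_nonneg h2 n
  have e : χ.zetaMul n = ((∑ d ∈ n.divisors, (jacobiSym d m : ℝ) : ℝ) : ℂ) := by
    rw [DirichletCharacter.zetaMul, ArithmeticFunction.coe_zeta_mul_apply]
    push_cast
    refine Finset.sum_congr rfl fun d hd => ?_
    have hd0 : d ≠ 0 := (Nat.pos_of_mem_divisors hd).ne'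
    rw [← χ.apply_eq_toArithmeticFunction_apply hd0, hχ]
  rw [e] at h
  exact_mod_cast h

theorem big_FLLower (K a c : ℝ) (ha : 0 < a) (hc : 0 < c) :
    ∃ Z0 : ℕ, 2 ≤ Z0 ∧ ∀ Z : ℕ, Z0 ≤ Z → K ≤ c * (Z : ℝ) ^ a := by
  have h1 : Filter.Tendsto (fun Z : ℕ => c * (Z : ℝ) ^ a) Filter.atTop Filter.atTop :=
    ((tendsto_rpow_atTop ha).comp tendsto_natCast_atTop_atTop).const_mul_atTop hc
  obtain ⟨Z1, hZ1⟩ := Filter.eventually_atTop.1 (h1.eventually_ge_atTop K)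
  exact ⟨max 2 Z1, le_max_left _ _, fun Z hZ => hZ1 Z (le_trans (le_max_right _ _) hZ)⟩

theorem err_tail_FLLower (C η θ z x : ℝ) (k : ℕ) (hC : 1 ≤ C) (hη : 0 < η) (hz : 1 ≤ z)
    (hθ : 0 < θ) (hθ4 : θ ≤ 1 / 4) (hk : (k : ℝ) * θ = η / 4) (hx : 0 ≤ x) (hxz : x ≤ z ^ k) :
    (2 * C * z ^ (-η)) ^ (1 - θ) * x ^ θ ≤ 2 * C * z ^ (-(η / 2)) := by
  have hz0 : 0 < z := by linarith
  have h2C : (1 : ℝ) ≤ 2 * C := by linarith
  have e1 : (2 * C * z ^ (-η)) ^ (1 - θ) = (2 * C) ^ (1 - θ) * z ^ (-η * (1 - θ)) := by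
    rw [Real.mul_rpow (by linarith) (Real.rpow_nonneg hz0.le _), ← Real.rpow_mul hz0.le]
  have e2 : (2 * C) ^ (1 - θ) ≤ 2 * C := by
    have := Real.rpow_le_rpow_of_exponent_le h2C (show 1 - θ ≤ 1 by linarith)
    rwa [Real.rpow_one] at this
  have e3 : x ^ θ ≤ z ^ (η / 4) := by
    have := Real.rpow_le_rpow hx hxz hθ.le
    rwa [← Real.rpow_natCast, ← Real.rpow_mul hz0.le, hk] at this
  have e4 : z ^ (-η * (1 - θ)) * z ^ (η / 4) ≤ z ^ (-(η / 2)) := by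
    rw [← Real.rpow_add hz0]
    apply Real.rpow_le_rpow_of_exponent_le hz
    nlinarith
  have p1 : 0 ≤ z ^ (-η * (1 - θ)) := Real.rpow_nonneg hz0.le _
  have p2 : 0 ≤ x ^ θ := Real.rpow_nonneg hx _
  rw [e1]
  calc (2 * C) ^ (1 - θ) * z ^ (-η * (1 - θ)) * x ^ θ
      ≤ (2 * C) * z ^ (-η * (1 - θ)) * z ^ (η / 4) := by
        apply mul_le_mul (mul_le_mul_of_nonneg_right e2 p1) e3 p2
        positivity
    _ = 2 * C * (z ^ (-η * (1 - θ)) * z ^ (η / 4)) := by ring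
    _ ≤ 2 * C * z ^ (-(η / 2)) := mul_le_mul_of_nonneg_left e4 (by linarith)

theorem err_log_FLLower (η z : ℝ) (hη : 0 < η) (hz : 1 ≤ z) :
    z ^ (-η) * (2 + Real.log (z ^ 10)) ≤ (2 + 20 / η) * z ^ (-(η / 2)) := by
  have hz0 : 0 < z := by linarith
  have h1 : Real.log z ≤ z ^ (η / 2) / (η / 2) := Real.log_le_rpow_div hz0.le (by linarith)
  have h2 : (1 : ℝ) ≤ z ^ (η / 2) := Real.one_le_rpow hz (by linarith)
  have h3 : z ^ (-η) * z ^ (η / 2) = z ^ (-(η / 2)) := by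
    rw [← Real.rpow_add hz0]; congr 1; ring
  have p1 : 0 ≤ z ^ (-η) := Real.rpow_nonneg hz0.le _
  have h4 : 2 + Real.log (z ^ 10) ≤ (2 + 20 / η) * z ^ (η / 2) := by
    rw [Real.log_pow]
    have : z ^ (η / 2) / (η / 2) * 10 = 20 / η * z ^ (η / 2) := by
      field_simp; ring
    push_cast
    nlinarith
  calc z ^ (-η) * (2 + Real.log (z ^ 10)) ≤ z ^ (-η) * ((2 + 20 / η) * z ^ (η / 2)) :=
        mul_le_mul_of_nonneg_left h4 p1
    _ = (2 + 20 / η) * (z ^ (-η) * z ^ (η / 2)) := by ring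
    _ = _ := by rw [h3]

theorem lower (r : ℕ) (ε : ℝ) (hε : 0 < ε) : ∃ (c : ℝ) (Z0 : ℕ), 0 < c ∧ ∀ m Z : ℕ, Z0 ≤ Z →
    Odd m → Squarefree m → 1 < m → (∀ l, l.Prime → l ∣ m → l ≤ Z) → m ≤ Z ^ r →
    c * (Z : ℝ) ^ 20 * (Z : ℝ) ^ (-ε) ≤
      ∑ n ∈ Icc 1 (Z ^ 20), ∑ d ∈ n.divisors, (jacobiSym d m : ℝ) := by
  obtain ⟨C, η, hC, hη, hη1, hcs⟩ := charsum r
  have hr1 : (0 : ℝ) < ((r + 1 : ℕ) : ℝ) := by positivity
  have hr2 : (1 : ℝ) ≤ ((r + 1 : ℕ) : ℝ) := by exact_mod_cast Nat.succ_le_succ (Nat.zero_le r)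
  obtain ⟨θ, hθdef⟩ : ∃ θ : ℝ, θ = η / (4 * ((r + 1 : ℕ) : ℝ)) := ⟨_, rfl⟩
  have hθ : 0 < θ := by rw [hθdef]; positivity
  have hk : ((r + 1 : ℕ) : ℝ) * θ = η / 4 := by rw [hθdef]; field_simp
  have hθ4 : θ ≤ 1 / 4 := by nlinarith
  obtain ⟨ε1, hε1def⟩ : ∃ ε1 : ℝ, ε1 = min ε (η / 4) := ⟨_, rfl⟩
  have hε1 : 0 < ε1 := by rw [hε1def]; exact lt_min hε (by linarith)
  have hε1a : ε1 ≤ ε := by rw [hε1def]; exact min_le_left _ _
  have hε1b : ε1 ≤ η / 4 := by rw [hε1def]; exact min_le_right _ _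
  obtain ⟨c0, hc0, hsg⟩ := Pool.Agent.EQ.siegel (ε := ε1 / ((r + 1 : ℕ) : ℝ)) (by positivity)
  obtain ⟨K, hK⟩ : ∃ K : ℝ, K = 2 * C + 2 * C / θ + 1 + 2 * C * (2 + 20 / η) := ⟨_, rfl⟩
  obtain ⟨Z0, hZ0, hbig⟩ := big_FLLower K (η / 4) (c0 / 2) (by linarith) (by linarith)
  refine ⟨c0 / 2, Z0, by linarith, fun m Z hZ ho hsq h1 hsm hmr => ?_⟩
  have hZ2 : 2 ≤ Z := le_trans hZ0 hZ
  have : NeZero m := ⟨by omega⟩
  obtain ⟨χ, hχ1, hχ2, hχ⟩ := jac_char m ho hsq h1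
  have hz : (1 : ℝ) ≤ Z := by exact_mod_cast (by omega : 1 ≤ Z)
  have hz0 : (0 : ℝ) < Z := by linarith
  have hB : 1 ≤ Z ^ 10 := Nat.one_le_pow _ _ (by omega)
  obtain ⟨δ, hδdef⟩ : ∃ δ : ℝ, δ = 2 * C * (Z : ℝ) ^ (-η) := ⟨_, rfl⟩
  have pη : 0 < (Z : ℝ) ^ (-η) := Real.rpow_pos_of_pos hz0 _
  have hδ : 0 < δ := by rw [hδdef]; positivity
  have hshort : ∀ N : ℕ, Z ^ 10 ≤ N → |∑ n ∈ Icc 1 N, (jacobiSym n m : ℝ)| ≤ δ * N := by
    intro N hN
    rw [icc_range_FLLower m N h1]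
    have h := hcs m Z (N + 1) ho hsq h1 hZ2 hsm hmr (by omega)
    have hN1 : (1 : ℝ) ≤ N := by exact_mod_cast le_trans hB hN
    refine le_trans h ?_
    rw [hδdef]
    push_cast
    have : 0 ≤ C * (Z : ℝ) ^ (-η) := by positivity
    nlinarith
  have hhyp := hyper (fun n => (jacobiSym n m : ℝ)) (fun n => jac_abs_FLLower n m) (Z ^ 10) hB δ
    hδ.le hshort
  have hshortC : ∀ N : ℕ, Z ^ 10 ≤ N → ‖∑ n ∈ Icc 1 N, χ (n : ZMod m)‖ ≤ δ * N := by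
    intro N hN
    have e : ∑ n ∈ Icc 1 N, χ (n : ZMod m) = ((∑ n ∈ Icc 1 N, (jacobiSym n m : ℝ) : ℝ) : ℂ) := by
      push_cast
      exact Finset.sum_congr rfl fun n _ => hχ n
    rw [e, Complex.norm_real, Real.norm_eq_abs]
    exact hshort N hN
  have htail := tail χ hχ1 (Z ^ 10) hB δ θ hδ hθ (by linarith) hshortC
  obtain ⟨T, hT⟩ : ∃ T : ℝ, T = ∑ b ∈ Icc 1 (Z ^ 10), (jacobiSym b m : ℝ) / b := ⟨_, rfl⟩
  have eT : ∑ b ∈ Icc 1 (Z ^ 10), χ (b : ZMod m) / b = (T : ℂ) := by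
    rw [hT]
    push_cast
    exact Finset.sum_congr rfl fun n _ => by rw [hχ n]
  rw [eT] at htail
  have e20 : (Z ^ 10) ^ 2 = Z ^ 20 := by rw [← pow_mul]
  rw [e20, ← hT] at hhyp
  obtain ⟨S, hS⟩ : ∃ S : ℝ, S = ∑ n ∈ Icc 1 (Z ^ 20), ∑ d ∈ n.divisors, (jacobiSym d m : ℝ) :=
    ⟨_, rfl⟩
  rw [← hS] at hhyp ⊢
  have hS0 : 0 ≤ S := by
    rw [hS]
    exact Finset.sum_nonneg fun n _ => r_nonneg_FLLower m χ hχ2 hχ n
  have hmz : (m : ℝ) ≤ (Z : ℝ) ^ (r + 1) := by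
    have : m ≤ Z ^ (r + 1) := le_trans hmr (Nat.pow_le_pow_right (by omega) (by omega))
    exact_mod_cast this
  have hm0 : (0 : ℝ) < m := by exact_mod_cast (by omega : 0 < m)
  have hL := hsg m χ hχ1 hχ2
  have hLz : (Z : ℝ) ^ (-ε1) ≤ (m : ℝ) ^ (-(ε1 / ((r + 1 : ℕ) : ℝ))) := by
    have h := Real.rpow_le_rpow_of_nonpos hm0 hmz
      (show -(ε1 / ((r + 1 : ℕ) : ℝ)) ≤ 0 by
        have : 0 < ε1 / ((r + 1 : ℕ) : ℝ) := by positivity
        linarith)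
    rw [← Real.rpow_natCast, ← Real.rpow_mul hz0.le] at h
    have e : ((r + 1 : ℕ) : ℝ) * -(ε1 / ((r + 1 : ℕ) : ℝ)) = -ε1 := by field_simp
    rwa [e] at h
  have hLz2 : c0 * (Z : ℝ) ^ (-ε1) ≤ ‖χ.LFunction 1‖ :=
    le_trans (mul_le_mul_of_nonneg_left hLz hc0.le) hL
  obtain ⟨w, hw⟩ : ∃ w : ℝ, w = (Z : ℝ) ^ (-(η / 2)) := ⟨_, rfl⟩
  have hw0 : 0 < w := by rw [hw]; exact Real.rpow_pos_of_pos hz0 _
  have E1 : δ ≤ 2 * C * w := by
    rw [hδdef, hw]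
    exact mul_le_mul_of_nonneg_left
      (Real.rpow_le_rpow_of_exponent_le hz (by linarith)) (by linarith)
  have E2 : δ ^ (1 - θ) * (m : ℝ) ^ θ / θ ≤ 2 * C / θ * w := by
    have h := err_tail_FLLower C η θ Z m (r + 1) hC hη hz hθ hθ4 hk hm0.le hmz
    rw [← hδdef, ← hw] at h
    calc δ ^ (1 - θ) * (m : ℝ) ^ θ / θ ≤ 2 * C * w / θ := div_le_div_of_nonneg_right h hθ.le
      _ = 2 * C / θ * w := by ring
  have E3 : δ * (2 + Real.log ((Z : ℝ) ^ 10)) ≤ 2 * C * (2 + 20 / η) * w := by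
    have h := err_log_FLLower η Z hη hz
    rw [← hw] at h
    rw [hδdef]
    calc 2 * C * (Z : ℝ) ^ (-η) * (2 + Real.log ((Z : ℝ) ^ 10))
        = 2 * C * ((Z : ℝ) ^ (-η) * (2 + Real.log ((Z : ℝ) ^ 10))) := by ring
      _ ≤ 2 * C * ((2 + 20 / η) * w) := mul_le_mul_of_nonneg_left h (by linarith)
      _ = _ := by ring
  have E4 : (Z : ℝ) ^ 10 ≤ (Z : ℝ) ^ 20 * w := by
    have h : (Z : ℝ) ^ (-(10 : ℝ)) ≤ w := by
      rw [hw]; exact Real.rpow_le_rpow_of_exponent_le hz (by linarith)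
    have e : (Z : ℝ) ^ 20 * (Z : ℝ) ^ (-(10 : ℝ)) = (Z : ℝ) ^ 10 := by
      rw [Real.rpow_neg hz0.le]
      have : (Z : ℝ) ^ (10 : ℝ) = (Z : ℝ) ^ (10 : ℕ) := by
        rw [← Real.rpow_natCast]; norm_num
      rw [this]
      field_simp
    rw [← e]
    exact mul_le_mul_of_nonneg_left h (by positivity)
  have hTabs : ‖χ.LFunction 1‖ - (δ + δ ^ (1 - θ) * (m : ℝ) ^ θ / θ) ≤ |T| := by
    have h := norm_sub_norm_le (χ.LFunction 1) (T : ℂ)
    rw [Complex.norm_real, Real.norm_eq_abs] at h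
    linarith
  have p20 : (0 : ℝ) < (Z : ℝ) ^ 20 := by positivity
  have hcast : ((Z ^ 10 : ℕ) : ℝ) = (Z : ℝ) ^ 10 := by push_cast; rfl
  have e20r : ((Z : ℝ) ^ 10) ^ 2 = (Z : ℝ) ^ 20 := by rw [← pow_mul]
  rw [hcast, e20r] at hhyp
  have hS1 : (Z : ℝ) ^ 20 * |T| - ((Z : ℝ) ^ 10 + δ * (Z : ℝ) ^ 20 * (2 + Real.log ((Z : ℝ) ^ 10)))
      ≤ S := by
    have h := abs_sub_abs_le_abs_sub ((Z : ℝ) ^ 20 * T) S
    rw [abs_sub_comm, abs_mul, abs_of_pos p20, abs_of_nonneg hS0] at h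
    linarith
  have hKw : K * w ≤ c0 / 2 * (Z : ℝ) ^ (-ε1) := by
    have h := hbig Z hZ
    have e : (Z : ℝ) ^ (η / 4) * w = (Z : ℝ) ^ (-(η / 4)) := by
      rw [hw, ← Real.rpow_add hz0]; congr 1; ring
    have h2 : (Z : ℝ) ^ (-(η / 4)) ≤ (Z : ℝ) ^ (-ε1) :=
      Real.rpow_le_rpow_of_exponent_le hz (by linarith)
    calc K * w ≤ c0 / 2 * (Z : ℝ) ^ (η / 4) * w := mul_le_mul_of_nonneg_right h hw0.le
      _ = c0 / 2 * ((Z : ℝ) ^ (η / 4) * w) := by ring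
      _ ≤ c0 / 2 * (Z : ℝ) ^ (-ε1) := by
        rw [e]; exact mul_le_mul_of_nonneg_left h2 (by linarith)
  have hεε : (Z : ℝ) ^ (-ε) ≤ (Z : ℝ) ^ (-ε1) :=
    Real.rpow_le_rpow_of_exponent_le hz (by linarith)
  have hT2 : c0 * (Z : ℝ) ^ (-ε1) - (2 * C * w + 2 * C / θ * w) ≤ |T| := by linarith
  have F1 := mul_le_mul_of_nonneg_left hT2 p20.le
  have F2 := mul_le_mul_of_nonneg_left E3 p20.le
  have F3 := mul_le_mul_of_nonneg_left hKw p20.le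
  have F4 := mul_le_mul_of_nonneg_left (mul_le_mul_of_nonneg_left hεε
    (show 0 ≤ c0 / 2 by linarith)) p20.le
  rw [hK] at F3
  nlinarith

end Pool.Agent.P.MP_b75a1e_co.EG
end

-- part Pool.Agent.P.MP_b75a1e_co.FLOsc
section

set_option autoImplicit false

open Finset
open scoped BigOperators ComplexConjugate

namespace Pool.Agent.P.MP_b75a1e_co.EG

theorem tele_FLOsc (G : ℤ → ℂ) (hG : ∀ j, ‖G j‖ ≤ 1) (J s : ℕ) :
    ‖∑ j ∈ Icc (-(J : ℤ)) J, G j - ∑ j ∈ Icc (-(J : ℤ)) J, G (j + s)‖ ≤ 2 * s := by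
  have one : ∀ g : ℤ → ℂ, (∀ j, ‖g j‖ ≤ 1) →
      ‖∑ j ∈ Icc (-(J : ℤ)) J, g j - ∑ j ∈ Icc (-(J : ℤ)) J, g (j + 1)‖ ≤ 2 := by
    intro g hg
    rw [← sum_sub_distrib, Int.Icc_eq_finset_map, sum_map]
    have := sum_range_sub' (fun i : ℕ => g (-(J : ℤ) + i)) ((J : ℤ) + 1 - -(J : ℤ)).toNat
    simp only [Nat.cast_add, Nat.cast_one, ← add_assoc] at this
    simp only [Function.Embedding.trans_apply, Nat.castEmbedding_apply, addLeftEmbedding_apply]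
    rw [this]
    exact (norm_sub_le _ _).trans ((add_le_add (hg _) (hg _)).trans (by norm_num))
  induction s with
  | zero => simp
  | succ s ih =>
    have h1 := one (fun j => G (j + s)) fun j => hG _
    have e : ∀ j : ℤ, j + 1 + (s : ℤ) = j + ((s + 1 : ℕ) : ℤ) := fun j => by push_cast; ring
    simp only [e] at h1
    have := norm_sub_le_norm_sub_add_norm_sub (∑ j ∈ Icc (-(J : ℤ)) J, G j)
      (∑ j ∈ Icc (-(J : ℤ)) J, G (j + s)) (∑ j ∈ Icc (-(J : ℤ)) J, G (j + ((s + 1 : ℕ) : ℤ)))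
    push_cast at this h1 ⊢
    linarith

theorem avg_FLOsc (G : ℤ → ℂ) (hG : ∀ j, ‖G j‖ ≤ 1) (J D H : ℕ) (hH : 1 ≤ H) :
    ‖∑ j ∈ Icc (-(J : ℤ)) J, G j‖ ≤
      ∑ j ∈ Icc (-(J : ℤ)) J, ‖∑ h ∈ range H, G (j + (h * D : ℕ))‖ / H + 2 * (H * D) := by
  have hH0 : (0 : ℝ) < H := by exact_mod_cast hH
  have e : (H : ℂ) * ∑ j ∈ Icc (-(J : ℤ)) J, G j =
      ∑ j ∈ Icc (-(J : ℤ)) J, ∑ h ∈ range H, G (j + (h * D : ℕ)) + ∑ h ∈ range H,
        (∑ j ∈ Icc (-(J : ℤ)) J, G j - ∑ j ∈ Icc (-(J : ℤ)) J, G (j + (h * D : ℕ))) := by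
    rw [sum_sub_distrib, sum_const, card_range, nsmul_eq_mul, sum_comm]; ring
  have h1 := congrArg norm e
  rw [norm_mul, Complex.norm_natCast] at h1
  have h2 : ‖∑ h ∈ range H, (∑ j ∈ Icc (-(J : ℤ)) J, G j -
      ∑ j ∈ Icc (-(J : ℤ)) J, G (j + (h * D : ℕ)))‖ ≤ H * (2 * (H * D)) := by
    refine (norm_sum_le _ _).trans ((sum_le_card_nsmul _ _ (2 * ((H : ℝ) * D)) fun h hh => ?_).trans
      (by rw [card_range, nsmul_eq_mul]))
    refine (tele_FLOsc G hG J _).trans ?_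
    have : (h : ℝ) ≤ H := by exact_mod_cast (mem_range.1 hh).le
    push_cast
    gcongr
  have h3 := norm_sum_le (Icc (-(J : ℤ)) J) fun j => ∑ h ∈ range H, G (j + (h * D : ℕ))
  rw [← sum_div, div_add' _ _ _ hH0.ne', le_div_iff₀ hH0]
  have h4 := (h1.le.trans (norm_add_le _ _)).trans (add_le_add h3 h2)
  linarith

theorem taylor_FLOsc (d : ℂ) (t : ℝ) (hx : 0 < d.re) :
    ‖(d + t * Complex.I) / conj (d + t * Complex.I) -
      (d / conj d + t * (2 * d.re * Complex.I / conj d ^ 2))‖ ≤ 2 * (t / d.re) ^ 2 := by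
  have h1 : d.re ≤ ‖conj d‖ := by rw [Complex.norm_conj]; exact Complex.re_le_norm d
  have h2 : d.re ≤ ‖conj d - t * Complex.I‖ :=
    le_trans (by simp) (Complex.re_le_norm (conj d - t * Complex.I))
  have e0 : conj (d + t * Complex.I) = conj d - t * Complex.I := by simp [sub_eq_add_neg]
  have e1 : d = 2 * d.re - conj d := by
    have := Complex.add_conj d
    push_cast at this
    linear_combination this
  have n1 : conj d ≠ 0 := fun h => by rw [h, norm_zero] at h1; linarith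
  have n2 : conj d - t * Complex.I ≠ 0 := fun h => by rw [h, norm_zero] at h2; linarith
  have e2 : (d + t * Complex.I) / conj (d + t * Complex.I) -
      (d / conj d + t * (2 * d.re * Complex.I / conj d ^ 2)) =
      2 * d.re * (t * Complex.I) ^ 2 / (conj d ^ 2 * (conj d - t * Complex.I)) := by
    rw [e0]
    generalize conj d = c at *
    generalize (d.re : ℂ) = x at *
    subst e1
    field_simp
    ring
  rw [e2, norm_div, norm_mul, norm_mul, norm_mul, norm_pow, norm_pow, norm_mul, Complex.norm_I,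
    Complex.norm_real, Complex.norm_real, Real.norm_of_nonneg hx.le, mul_one, Real.norm_eq_abs,
    sq_abs, Complex.norm_ofNat]
  calc 2 * d.re * t ^ 2 / (‖conj d‖ ^ 2 * ‖conj d - t * Complex.I‖)
      ≤ 2 * d.re * t ^ 2 / (d.re ^ 2 * d.re) := by gcongr
    _ = 2 * (t / d.re) ^ 2 := by field_simp

theorem sig_FLOsc {m : ℕ} (hm : 1 ≤ m) (d ξ : ℂ) (c : ℝ) (hx : 0 < d.re) :
    pr m ξ ((c * Real.sqrt m : ℝ) * (2 * d.re * Complex.I / conj d ^ 2)) =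
      c * (2 * d.re * (ξ * d ^ 2).re / ‖d‖ ^ 4) := by
  have h0 : d ≠ 0 := fun h => by simp [h] at hx
  have n1 : conj d ≠ 0 := by simpa using h0
  have h1 : Real.sqrt m ≠ 0 := by positivity
  have h2 : (‖d‖ : ℂ) ^ 4 = (conj d * d) ^ 2 := by rw [Complex.conj_mul']; ring
  have e : ξ * ((c * Real.sqrt m : ℝ) * (2 * d.re * Complex.I / conj d ^ 2)) =
      ((c * Real.sqrt m * (2 * d.re) / ‖d‖ ^ 4 : ℝ) : ℂ) * (Complex.I * (ξ * d ^ 2)) := by
    push_cast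
    rw [h2]
    field_simp
  rw [pr, e, Complex.im_ofReal_mul, Complex.I_mul_im]
  field_simp

theorem inner_FLOsc {m : ℕ} (hm : 1 ≤ m) (y w D : ℝ) (H : ℕ) (d ξ : ℂ) (hw : 1 ≤ w)
    (hξ : ‖ξ‖ = w ^ 10) (hD : 1 ≤ D) (hy : 10 * D * (m : ℝ) ^ 2 * w ^ 10 ≤ y) (hx : y < 2 * d.re)
    (hd : ‖d‖ ^ 2 ≤ 5 * y ^ 2) (hH1 : y ≤ H * (D * (m : ℝ) ^ 2 * w ^ 6))
    (hH2 : ∀ h < H, (h : ℝ) * (D * (m : ℝ) ^ 2 * w ^ 6) ≤ y)
    (hg : w ^ 8 * ‖d‖ ^ 2 ≤ |(ξ * d ^ 2).re|) :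
    ‖∑ h ∈ range H, ee (pr m ξ ((d + (h * (D * m) * Real.sqrt m : ℝ) * Complex.I) /
      conj (d + (h * (D * m) * Real.sqrt m : ℝ) * Complex.I)))‖ / H ≤ 60 * (m : ℝ) ^ 2 / w := by
  have hm1 : (1 : ℝ) ≤ m := by exact_mod_cast hm
  have hy0 : 0 < y := lt_of_lt_of_le (by positivity) hy
  have hx0 : 0 < d.re := by linarith
  have hH0 : (0 : ℝ) < H := by
    by_contra h
    have : (H : ℝ) = 0 := le_antisymm (not_lt.1 h) (Nat.cast_nonneg _)
    rw [this, zero_mul] at hH1; linarith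
  have hdx : d.re ≤ ‖d‖ := Complex.re_le_norm d
  have hd0 : 0 < ‖d‖ := by linarith
  have hsq : Real.sqrt m ≤ m := Real.sqrt_le_iff.2 ⟨by positivity, by nlinarith⟩
  set σ := D * m * (2 * d.re * (ξ * d ^ 2).re / ‖d‖ ^ 4) with hσ
  have habs : |σ| = D * m * (2 * d.re * |(ξ * d ^ 2).re| / ‖d‖ ^ 4) := by
    rw [hσ, abs_mul, abs_div, abs_mul (2 * d.re), abs_of_nonneg (by positivity : 0 ≤ D * m),
      abs_of_nonneg (by positivity : 0 ≤ 2 * d.re), abs_of_nonneg (by positivity : 0 ≤ ‖d‖ ^ 4)]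
  have hup : |σ| ≤ 1 / 2 := by
    have h1 : |(ξ * d ^ 2).re| ≤ w ^ 10 * ‖d‖ ^ 2 := by
      rw [← hξ, ← norm_pow, ← norm_mul]; exact Complex.abs_re_le_norm _
    have h2 : D * m * w ^ 10 ≤ D * (m : ℝ) ^ 2 * w ^ 10 := by gcongr; nlinarith
    calc |σ| ≤ D * m * (2 * ‖d‖ * (w ^ 10 * ‖d‖ ^ 2) / ‖d‖ ^ 4) := by rw [habs]; gcongr
      _ = 2 * (D * m * w ^ 10) / ‖d‖ := by field_simp
      _ ≤ 1 / 2 := by rw [div_le_iff₀ hd0]; linarith
  have hlo : D * m * w ^ 8 / (5 * y) ≤ |σ| := by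
    calc D * m * w ^ 8 / (5 * y) = D * m * (y * w ^ 8 / (5 * y ^ 2)) := by field_simp
      _ ≤ D * m * (2 * d.re * w ^ 8 / ‖d‖ ^ 2) := by gcongr
      _ = D * m * (2 * d.re * (w ^ 8 * ‖d‖ ^ 2) / ‖d‖ ^ 4) := by field_simp
      _ ≤ |σ| := by rw [habs]; gcongr
  have hgeo := geom_ee (pr m ξ (d / conj d)) σ _ (by positivity : 0 < D * m * w ^ 8 / (5 * y))
    (fun z => by
      rcases eq_or_ne z 0 with rfl | hz
      · simpa using hlo
      · have h1 : (1 : ℝ) ≤ |(z : ℝ)| := by exact_mod_cast Int.one_le_abs hz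
        have h2 := abs_sub_abs_le_abs_sub (z : ℝ) σ
        rw [abs_sub_comm] at h2
        linarith) H
  have hterm : ∀ h ∈ range H, ‖ee (pr m ξ ((d + (h * (D * m) * Real.sqrt m : ℝ) * Complex.I) /
      conj (d + (h * (D * m) * Real.sqrt m : ℝ) * Complex.I))) -
      ee (pr m ξ (d / conj d) + σ * h)‖ ≤ 56 / w ^ 2 := by
    intro h hh
    have e : pr m ξ (d / conj d) + σ * h = pr m ξ (d / conj d + (h * (D * m) * Real.sqrt m : ℝ) *
        (2 * d.re * Complex.I / conj d ^ 2)) := by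
      rw [pr_add_right, sig_FLOsc hm d ξ _ hx0, hσ]; ring
    rw [e]
    refine (norm_ee_sub _ _).trans ?_
    rw [← pr_sub_right]
    have h1 := (abs_pr_le hm ξ _).trans
      (mul_le_mul_of_nonneg_left (taylor_FLOsc d (h * (D * m) * Real.sqrt m) hx0) (norm_nonneg ξ))
    have h2 : (h * (D * m) * Real.sqrt m : ℝ) / d.re ≤ 2 / w ^ 6 := by
      rw [div_le_div_iff₀ hx0 (by positivity)]
      have := hH2 h (mem_range.1 hh)
      calc (h * (D * m) * Real.sqrt m : ℝ) * w ^ 6 ≤ h * (D * m) * m * w ^ 6 := by gcongr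
        _ = h * (D * (m : ℝ) ^ 2 * w ^ 6) := by ring
        _ ≤ 2 * d.re := by linarith
    calc _ ≤ 7 * (‖ξ‖ * (2 * ((h * (D * m) * Real.sqrt m : ℝ) / d.re) ^ 2)) := by linarith
      _ ≤ 7 * (w ^ 10 * (2 * (2 / w ^ 6) ^ 2)) := by rw [hξ]; gcongr
      _ = 56 / w ^ 2 := by field_simp; ring
  have hs := (norm_sum_le _ _).trans (sum_le_card_nsmul _ _ _ hterm)
  rw [sum_sub_distrib, card_range, nsmul_eq_mul] at hs
  have ht := (norm_le_norm_add_norm_sub' _ _).trans (add_le_add hgeo hs)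
  have h3 : 1 / (2 * (D * m * w ^ 8 / (5 * y))) ≤ H * (3 * m / w ^ 2) := by
    calc 1 / (2 * (D * m * w ^ 8 / (5 * y))) = 5 / 2 * y / (D * m * w ^ 8) := by field_simp
      _ ≤ 3 * (H * (D * (m : ℝ) ^ 2 * w ^ 6)) / (D * m * w ^ 8) := by gcongr; norm_num
      _ = H * (3 * m / w ^ 2) := by field_simp
  rw [div_le_iff₀ hH0]
  have h4 : 3 * m / w ^ 2 + 56 / w ^ 2 ≤ 60 * (m : ℝ) ^ 2 / w := by
    rw [← add_div]
    gcongr
    · nlinarith
    · nlinarith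
  nlinarith

theorem bad_FLOsc (ξ d w0 : ℂ) (w r : ℝ) (hw : 1 ≤ w) (hr : 0 ≤ r)
    (h0 : ξ = (w ^ 10 : ℝ) * w0 ^ 2) (hd : ‖d‖ ^ 2 ≤ (r * w) ^ 2)
    (hb : |(ξ * d ^ 2).re| < w ^ 8 * ‖d‖ ^ 2) :
    |((1 + Complex.I) * w0 * d).re| ≤ r ∨ |((1 - Complex.I) * w0 * d).re| ≤ r := by
  have e : (ξ * d ^ 2).re =
      w ^ 10 * (((1 + Complex.I) * w0 * d).re * ((1 - Complex.I) * w0 * d).re) := by
    rw [h0, mul_assoc, Complex.re_ofReal_mul, ← mul_pow, mul_assoc, mul_assoc]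
    generalize w0 * d = z
    simp [sq]
    left; ring
  by_contra hc
  push Not at hc
  rw [e, abs_mul, abs_mul, abs_of_nonneg (by positivity : 0 ≤ w ^ 10)] at hb
  have h1 := mul_le_mul hc.1.le hc.2.le hr (abs_nonneg _)
  have h2 : w ^ 8 * ‖d‖ ^ 2 ≤ w ^ 10 * (r * r) := by
    calc _ ≤ w ^ 8 * (r * w) ^ 2 := by gcongr
      _ = _ := by ring
  have h3 := mul_le_mul_of_nonneg_left h1 (by positivity : 0 ≤ w ^ 10)
  linarith

/-- An oscillatory sum over a box. -/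
theorem osc (m y J D : ℕ) (hm : 1 ≤ m) (hD : 1 ≤ D) (h1 : 10 * m ^ 2 * J ≤ y)
    (h2 : y ≤ 20 * m ^ 2 * J) (a : ℤ → ℤ → ℂ) (ha : ∀ x j, ‖a x j‖ ≤ 1)
    (hp : ∀ x j, a x (j + D) = a x j) (ξ : ℂ) (hξ1 : 1 ≤ ‖ξ‖)
    (hξ2 : 10 * D * (m : ℝ) ^ 2 * ‖ξ‖ ≤ y) :
    ‖∑ x ∈ Ioc ((y : ℤ) / 2) (2 * y), ∑ j ∈ Icc (-(J : ℤ)) J,
      a x j * ee (pr m ξ (rot (⟨x, m * j⟩ : O m)))‖ ≤
      10 ^ 4 * (m : ℝ) ^ 2 * ‖ξ‖ ^ (-1 / 10 : ℝ) * (y * J) := by
  classical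
  have hm1 : (1 : ℝ) ≤ m := by exact_mod_cast hm
  have hD1 : (1 : ℝ) ≤ D := by exact_mod_cast hD
  obtain ⟨w, hw, hξ, hw'⟩ : ∃ w : ℝ, 1 ≤ w ∧ ‖ξ‖ = w ^ 10 ∧ ‖ξ‖ ^ (-1 / 10 : ℝ) = 1 / w := by
    refine ⟨‖ξ‖ ^ (1 / 10 : ℝ), Real.one_le_rpow hξ1 (by norm_num), ?_, ?_⟩
    · rw [← Real.rpow_natCast, ← Real.rpow_mul (norm_nonneg _)]; norm_num
    · rw [one_div (_ ^ _), ← Real.rpow_neg (norm_nonneg _)]; norm_num
  rw [hw']
  rw [hξ] at hξ2
  have hw0 : 0 < w := by linarith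
  have hw10 : w ≤ w ^ 10 := le_self_pow₀ hw (by norm_num)
  have hw6 : w ≤ w ^ 6 := le_self_pow₀ hw (by norm_num)
  have hw610 : w ^ 6 ≤ w ^ 10 := pow_le_pow_right₀ hw (by norm_num)
  have hP : (0 : ℝ) < D * (m : ℝ) ^ 2 * w ^ 6 := by positivity
  have hDm : (1 : ℝ) ≤ D * (m : ℝ) ^ 2 := by nlinarith
  have hPy : (D : ℝ) * (m : ℝ) ^ 2 * w ^ 6 ≤ y := by nlinarith
  have hwy : w ≤ y := by nlinarith
  have hy0 : (0 : ℝ) < y := by linarith
  have h1' : 10 * (m : ℝ) ^ 2 * J ≤ y := by exact_mod_cast h1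
  have h2' : (y : ℝ) ≤ 20 * (m : ℝ) ^ 2 * J := by exact_mod_cast h2
  have hJ : (1 : ℝ) ≤ J := by
    have : J ≠ 0 := by rintro rfl; simp at h2'; simp [h2'] at hy0
    exact_mod_cast Nat.one_le_iff_ne_zero.2 this
  obtain ⟨H, hH1, hH2, hH3⟩ : ∃ H : ℕ, (y : ℝ) ≤ H * (D * (m : ℝ) ^ 2 * w ^ 6) ∧
      (∀ h < H, (h : ℝ) * (D * (m : ℝ) ^ 2 * w ^ 6) ≤ y) ∧
      (H : ℝ) * (D * (m : ℝ) ^ 2 * w ^ 6) ≤ 2 * y := by
    refine ⟨⌈(y : ℝ) / (D * (m : ℝ) ^ 2 * w ^ 6)⌉₊, (div_le_iff₀ hP).1 (Nat.le_ceil _),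
      fun h hh => ((lt_div_iff₀ hP).1 (Nat.lt_ceil.1 hh)).le, ?_⟩
    have := (Nat.ceil_lt_add_one (div_pos hy0 hP).le).le
    rw [div_add_one hP.ne', le_div_iff₀ hP] at this
    linarith
  have hH : 1 ≤ H := by
    by_contra h
    obtain rfl : H = 0 := by omega
    simp at hH1; simp [hH1] at hy0
  have hH0 : (0 : ℝ) < H := by exact_mod_cast hH
  obtain ⟨w0, hw0sq⟩ : ∃ w0 : ℂ, w0 ^ 2 = ξ / (w ^ 10 : ℝ) := IsAlgClosed.exists_pow_nat_eq _ two_pos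
  have hξ0 : ξ = (w ^ 10 : ℝ) * w0 ^ 2 := by
    have : ((w ^ 10 : ℝ) : ℂ) ≠ 0 := by exact_mod_cast (by positivity : w ^ 10 ≠ 0)
    rw [hw0sq]; field_simp
  have hn0 : ‖w0‖ = 1 := by
    have := congrArg norm hw0sq
    rw [norm_pow, norm_div, hξ, Complex.norm_real, Real.norm_of_nonneg (by positivity),
      div_self (by positivity)] at this
    exact (pow_eq_one_iff_of_nonneg (norm_nonneg _) two_ne_zero).1 this
  have hω1 : 1 ≤ ‖(1 + Complex.I) * w0‖ := by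
    rw [norm_mul, hn0, mul_one]; exact le_trans (by simp) (Complex.re_le_norm _)
  have hω2 : 1 ≤ ‖(1 - Complex.I) * w0‖ := by
    rw [norm_mul, hn0, mul_one]; exact le_trans (by simp) (Complex.re_le_norm _)
  set X := Ioc ((y : ℤ) / 2) (2 * y) with hX
  set K := Icc (-(J : ℤ)) J with hK
  set f : ℤ × ℤ → O m := fun q => ⟨q.1, m * q.2⟩ with hf
  have hbox : ∀ δ ∈ (X ×ˢ K).image f, InBox m y J δ := by
    intro δ hδ
    obtain ⟨⟨x, j⟩, hq, rfl⟩ := mem_image.1 hδ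
    simp only [hX, hK, mem_product, mem_Ioc, mem_Icc] at hq
    refine ⟨by simp only [hf]; omega, hq.1.2, Dvd.intro _ rfl, ?_⟩
    simp only [hf, abs_mul, Nat.abs_cast]
    exact mul_le_mul_of_nonneg_left (abs_le.2 hq.2) (Nat.cast_nonneg _)
  have hinj : Function.Injective f := by
    rintro ⟨x, j⟩ ⟨x', j'⟩ h
    simp only [hf, Zsqrtd.mk.injEq] at h
    exact Prod.ext h.1 (mul_left_cancel₀ (by omega) h.2)
  set B := fun δ : O m => |((1 + Complex.I) * w0 * ph m δ).re| ≤ 3 * y / w ∨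
    |((1 - Complex.I) * w0 * ph m δ).re| ≤ 3 * y / w with hB
  have hcnt : (((X ×ˢ K).filter fun q => B (f q)).card : ℝ) ≤ 800 * (m : ℝ) ^ 2 / w * (y * J) := by
    have c1 := cnt_line hm _ hbox h1 _ hω1 (3 * y / w) (by positivity)
    have c2 := cnt_line hm _ hbox h1 _ hω2 (3 * y / w) (by positivity)
    have c3 : ((X ×ˢ K).filter fun q => B (f q)).card = (((X ×ˢ K).image f).filter B).card := by
      rw [filter_image, card_image_of_injective _ hinj]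
    have c4 := card_union_le (((X ×ˢ K).image f).filter fun δ =>
      |((1 + Complex.I) * w0 * ph m δ).re| ≤ 3 * y / w) (((X ×ˢ K).image f).filter fun δ =>
      |((1 - Complex.I) * w0 * ph m δ).re| ≤ 3 * y / w)
    rw [← filter_or, ← c3] at c4
    have c5 : (1 : ℝ) ≤ y / w := (one_le_div hw0).2 hwy
    have c6 : (3 : ℝ) * (3 * y / w) + 1 ≤ 200 * (m : ℝ) ^ 2 * J / w := by
      calc (3 : ℝ) * (3 * y / w) + 1 ≤ 3 * (3 * y / w) + y / w := by linarith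
        _ = 10 * y / w := by ring
        _ ≤ _ := div_le_div_of_nonneg_right (by linarith) hw0.le
    have c7 : 2 * (y : ℝ) * (3 * (3 * y / w) + 1) ≤ 400 * (m : ℝ) ^ 2 / w * (y * J) := by
      calc _ ≤ 2 * (y : ℝ) * (200 * (m : ℝ) ^ 2 * J / w) := by gcongr
        _ = _ := by ring
    have c8 := (Nat.cast_le (α := ℝ)).2 c4
    push_cast at c8
    calc _ ≤ _ := c8
      _ ≤ _ := add_le_add (c1.trans c7) (c2.trans c7)
      _ = _ := by ring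
  have hG : ∀ x j, ‖a x j * ee (pr m ξ (rot (⟨x, m * j⟩ : O m)))‖ ≤ 1 := fun x j => by
    rw [norm_mul, norm_ee, mul_one]; exact ha x j
  have hper : ∀ x j (h : ℕ), a x (j + (h * D : ℕ)) = a x j := by
    intro x j h
    induction h with
    | zero => simp
    | succ h ih => rw [← ih, ← hp x (j + (h * D : ℕ))]; congr 1; push_cast; ring
  have hpt : ∀ x ∈ X, ∀ j ∈ K, ‖∑ h ∈ range H, a x (j + (h * D : ℕ)) *
      ee (pr m ξ (rot (⟨x, m * (j + (h * D : ℕ))⟩ : O m)))‖ / H ≤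
      60 * (m : ℝ) ^ 2 / w + if B (f (x, j)) then 1 else 0 := by
    intro x hx j hj
    split_ifs with hb
    · have : ‖∑ h ∈ range H, a x (j + (h * D : ℕ)) *
          ee (pr m ξ (rot (⟨x, m * (j + (h * D : ℕ))⟩ : O m)))‖ ≤ H :=
        (norm_sum_le _ _).trans ((sum_le_card_nsmul _ _ 1 fun h _ => hG _ _).trans (by simp))
      have h5 : (0 : ℝ) ≤ 60 * (m : ℝ) ^ 2 / w := by positivity
      linarith [(div_le_one hH0).2 this]
    · obtain ⟨b1, b2, -, b4⟩ := hbox _ (mem_image_of_mem f (mk_mem_product hx hj))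
      have b1' : (y : ℝ) < 2 * x := by exact_mod_cast b1
      have b2' : (x : ℝ) ≤ 2 * y := by exact_mod_cast b2
      have b4' : |((m * j : ℤ) : ℝ)| ≤ m * J := by exact_mod_cast b4
      have hd : ‖ph m (f (x, j))‖ ^ 2 ≤ 5 * (y : ℝ) ^ 2 := by
        rw [norm_sq_ph, norm_eq]
        have e1 : ((m * j : ℤ) : ℝ) ^ 2 ≤ (m * J) ^ 2 := by
          rw [← sq_abs]; gcongr
        have e2 : (m : ℝ) * ((m * j : ℤ) : ℝ) ^ 2 ≤ ((m : ℝ) ^ 2 * J) ^ 2 := by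
          calc _ ≤ (m : ℝ) ^ 2 * (m * J) ^ 2 := by gcongr; nlinarith
            _ = _ := by ring
        have e3 : ((m : ℝ) ^ 2 * J) ^ 2 ≤ (y : ℝ) ^ 2 := by
          gcongr; nlinarith [(by positivity : (0 : ℝ) ≤ (m : ℝ) ^ 2 * J)]
        have e4 : (x : ℝ) ^ 2 ≤ (2 * y) ^ 2 := by gcongr; linarith
        simp only [hf]
        push_cast at e2 ⊢
        linarith
      have hgood : w ^ 8 * ‖ph m (f (x, j))‖ ^ 2 ≤ |(ξ * ph m (f (x, j)) ^ 2).re| := by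
        by_contra hc
        refine hb (bad_FLOsc ξ _ w0 w _ hw (by positivity) hξ0 ?_ (not_le.1 hc))
        rw [div_mul_cancel₀ _ hw0.ne']; nlinarith
      have hin := inner_FLOsc hm y w D H _ ξ hw hξ hD1 hξ2 (by rw [ph_re]; exact b1') hd hH1 hH2 hgood
      have e : ∀ h : ℕ, ph m (⟨x, m * (j + (h * D : ℕ))⟩ : O m) =
          ph m (f (x, j)) + ((h : ℝ) * (D * m) * Real.sqrt m : ℝ) * Complex.I := fun h => by
        apply Complex.ext
        · simp only [hf, ph_re, Complex.add_re, Complex.re_ofReal_mul, Complex.I_re, mul_zero, add_zero]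
        · simp only [hf, ph_im, Complex.add_im, Complex.im_ofReal_mul, Complex.I_im, mul_one]
          push_cast; ring
      simp only [hper, rot, e, ← mul_sum, norm_mul, add_zero]
      refine le_trans ?_ hin
      gcongr
      exact mul_le_of_le_one_left (norm_nonneg _) (ha x j)
  have hcX : (X.card : ℝ) ≤ 2 * y := by
    have : X.card ≤ 2 * y := by rw [hX, Int.card_Ioc]; omega
    exact_mod_cast this
  have hcK : (K.card : ℝ) ≤ 3 * J := by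
    have : K.card = 2 * J + 1 := by rw [hK, Int.card_Icc]; omega
    rw [this]; push_cast; linarith
  have hHD : 2 * ((H : ℝ) * D) ≤ 80 * J / w := by
    rw [le_div_iff₀ hw0]
    have : (H : ℝ) * D * w * (m : ℝ) ^ 2 ≤ 40 * J * (m : ℝ) ^ 2 := by
      calc (H : ℝ) * D * w * (m : ℝ) ^ 2 ≤ H * D * w ^ 6 * (m : ℝ) ^ 2 := by gcongr
        _ = H * (D * (m : ℝ) ^ 2 * w ^ 6) := by ring
        _ ≤ _ := by linarith
    have := le_of_mul_le_mul_right this (by positivity)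
    linarith
  have hrow : ∀ x ∈ X, ‖∑ j ∈ K, a x j * ee (pr m ξ (rot (⟨x, m * j⟩ : O m)))‖ ≤
      (∑ j ∈ K, if B (f (x, j)) then (1 : ℝ) else 0) + 260 * (m : ℝ) ^ 2 * J / w := by
    intro x hx
    have r1 := avg_FLOsc (fun j => a x j * ee (pr m ξ (rot (⟨x, m * j⟩ : O m)))) (hG x) J D H hH
    have r2 := sum_le_sum (hpt x hx)
    rw [sum_add_distrib, sum_const, nsmul_eq_mul] at r2
    have r3 : (K.card : ℝ) * (60 * (m : ℝ) ^ 2 / w) ≤ 180 * (m : ℝ) ^ 2 * J / w := by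
      calc _ ≤ 3 * J * (60 * (m : ℝ) ^ 2 / w) := by gcongr
        _ = _ := by ring
    have r4 : 80 * J / w ≤ 80 * (m : ℝ) ^ 2 * J / w := by gcongr; nlinarith
    have r5 : 260 * (m : ℝ) ^ 2 * J / w = 180 * (m : ℝ) ^ 2 * J / w + 80 * (m : ℝ) ^ 2 * J / w := by
      ring
    linarith
  refine (norm_sum_le _ _).trans ((sum_le_sum hrow).trans ?_)
  rw [sum_add_distrib, sum_const, nsmul_eq_mul, ← sum_product', sum_boole]
  have t1 : (X.card : ℝ) * (260 * (m : ℝ) ^ 2 * J / w) ≤ 520 * ((m : ℝ) ^ 2 / w * (y * J)) := by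
    calc _ ≤ 2 * y * (260 * (m : ℝ) ^ 2 * J / w) := by gcongr
      _ = _ := by ring
  have t2 : (0 : ℝ) ≤ (m : ℝ) ^ 2 / w * (y * J) := by positivity
  have t3 : 800 * (m : ℝ) ^ 2 / w * (y * J) = 800 * ((m : ℝ) ^ 2 / w * (y * J)) := by ring
  have t4 : 10 ^ 4 * (m : ℝ) ^ 2 * (1 / w) * (y * J) = 10 ^ 4 * ((m : ℝ) ^ 2 / w * (y * J)) := by ring
  linarith

end Pool.Agent.P.MP_b75a1e_co.EG
end
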