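import Pool.Agent.K.MP_b75a1e_co.C6
import Pool.Agent.K.MP_b75a1e_co.C4
import Pool.Agent.K.MP_b75a1e_co.C7

set_option autoImplicit false

open Finset
open scoped BigOperators ComplexConjugate

namespace Pool.Agent.P.MP_b75a1e_co.EG

variable {m s y J : ℕ} {k ν : ℝ} {F U : Finset (O m)} {e : O m}

/-- Indicator of a common factor of the norms. -/
noncomputable def chi_FLM (a b : O m) : ℝ :=
  if ¬ Nat.Coprime a.norm.natAbs b.norm.natAbs then 1 else 0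

theorem chi_nonneg_FLM (a b : O m) : 0 ≤ chi_FLM a b := by
  unfold chi_FLM
  split_ifs <;> norm_num

theorem chi_one_FLM {a b : O m} (h : ¬ Nat.Coprime a.norm.natAbs b.norm.natAbs) :
    chi_FLM a b = 1 := by
  unfold chi_FLM
  rw [if_pos h]

theorem y_pos_FLM (h : Fam m y J k F) (hm : 1 ≤ m) : (0 : ℝ) < y := by
  have h1 := h.thin
  have h2 := h.pos
  have h3 : 0 < 10 * m ^ 2 * J := by positivity
  have h4 : 0 < y := by omega
  exact_mod_cast h4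

theorem chi_sum_FLM (h : Fam m y J k F) (hm : 1 ≤ m) {a : O m} (ha : a ∈ F) :
    ∑ b ∈ F, chi_FLM a b ≤ 24 * k * F.card / y := by
  have h1 := cnt_cop h ha
  rw [← Finset.sum_boole] at h1
  rw [le_div_iff₀ (y_pos_FLM h hm)]
  exact h1

theorem card_le_sum_FLM {ι : Type} (S T : Finset ι) (hST : S ⊆ T) (g : ι → ℝ)
    (h0 : ∀ j ∈ T, 0 ≤ g j) (h1 : ∀ j ∈ S, 1 ≤ g j) : (S.card : ℝ) ≤ ∑ j ∈ T, g j := by
  calc (S.card : ℝ) = ∑ _j ∈ S, (1 : ℝ) := by simp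
    _ ≤ ∑ j ∈ S, g j := sum_le_sum h1
    _ ≤ ∑ j ∈ T, g j := sum_le_sum_of_subset_of_nonneg hST fun j hj _ => h0 j hj

theorem sum_one_FLM (F : Finset (O m)) (g : O m → ℝ) :
    ∑ j ∈ F ×ˢ F ×ˢ F, (g j.1 + g j.2.1 + g j.2.2) = 3 * (F.card : ℝ) ^ 2 * ∑ b ∈ F, g b := by
  simp only [sum_product, sum_add_distrib, sum_const, nsmul_eq_mul, ← mul_sum, card_product,
    Nat.cast_mul]
  ring

theorem sum_two_FLM (F : Finset (O m)) (g : O m → O m → ℝ) :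
    ∑ j ∈ F ×ˢ F ×ˢ F, (g j.1 j.2.1 + g j.1 j.2.2 + g j.2.1 j.2.2) =
      3 * (F.card : ℝ) * ∑ a ∈ F, ∑ b ∈ F, g a b := by
  simp only [sum_product, sum_add_distrib, sum_const, nsmul_eq_mul, ← mul_sum]
  ring

/-- Triples with pairwise coprime norms. -/
def tri_FLM (F : Finset (O m)) : Finset (O m × O m × O m) :=
  (F ×ˢ F ×ˢ F).filter fun i => Nat.Coprime i.1.norm.natAbs i.2.1.norm.natAbs ∧
    Nat.Coprime i.1.norm.natAbs i.2.2.norm.natAbs ∧ Nat.Coprime i.2.1.norm.natAbs i.2.2.norm.natAbs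

theorem tri_sub_FLM (F : Finset (O m)) : tri_FLM F ⊆ F ×ˢ F ×ˢ F := filter_subset _ _

theorem tri_mem_FLM {i : O m × O m × O m} (hi : i ∈ F ×ˢ F ×ˢ F) :
    i.1 ∈ F ∧ i.2.1 ∈ F ∧ i.2.2 ∈ F := by
  simpa only [mem_product] using hi

theorem nrm_FLM (a b c : O m) :
    (a * b * c).norm.natAbs = a.norm.natAbs * b.norm.natAbs * c.norm.natAbs := by
  rw [Zsqrtd.norm_mul, Zsqrtd.norm_mul, Int.natAbs_mul, Int.natAbs_mul]

theorem bad_card_FLM (h : Fam m y J k F) (hm : 1 ≤ m) :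
    (((F ×ˢ F ×ˢ F) \ tri_FLM F).card : ℝ) ≤ 72 * k * (F.card : ℝ) ^ 3 / y := by
  refine (card_le_sum_FLM _ (F ×ˢ F ×ˢ F) sdiff_subset
    (fun j => chi_FLM j.1 j.2.1 + chi_FLM j.1 j.2.2 + chi_FLM j.2.1 j.2.2) ?_ ?_).trans ?_
  · intro j _
    have := chi_nonneg_FLM j.1 j.2.1
    have := chi_nonneg_FLM j.1 j.2.2
    have := chi_nonneg_FLM j.2.1 j.2.2
    linarith
  · intro j hj
    have h1 := chi_nonneg_FLM j.1 j.2.1
    have h2 := chi_nonneg_FLM j.1 j.2.2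
    have h3 := chi_nonneg_FLM j.2.1 j.2.2
    obtain ⟨hj1, hj2⟩ := mem_sdiff.1 hj
    by_cases c1 : Nat.Coprime j.1.norm.natAbs j.2.1.norm.natAbs
    · by_cases c2 : Nat.Coprime j.1.norm.natAbs j.2.2.norm.natAbs
      · by_cases c3 : Nat.Coprime j.2.1.norm.natAbs j.2.2.norm.natAbs
        · exact absurd (mem_filter.2 ⟨hj1, c1, c2, c3⟩) hj2
        · have := chi_one_FLM c3
          linarith
      · have := chi_one_FLM c2
        linarith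
    · have := chi_one_FLM c1
      linarith
  · rw [sum_two_FLM F chi_FLM]
    have h1 : ∑ a ∈ F, ∑ b ∈ F, chi_FLM a b ≤ ∑ _a ∈ F, 24 * k * (F.card : ℝ) / y :=
      sum_le_sum fun a ha => chi_sum_FLM h hm ha
    rw [sum_const, nsmul_eq_mul] at h1
    calc _ ≤ 3 * (F.card : ℝ) * ((F.card : ℝ) * (24 * k * (F.card : ℝ) / y)) :=
          mul_le_mul_of_nonneg_left h1 (by positivity)
      _ = _ := by ring

theorem mu_card_FLM (h : Fam m y J k F) (hm : 1 ≤ m) {i : O m × O m × O m} (hi : i ∈ tri_FLM F)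
    (S : Finset (O m × O m × O m)) (hS : ∀ j ∈ S, j ∈ tri_FLM F ∧
      ¬ Nat.Coprime (i.2.1 * i.2.2 * i.1).norm.natAbs (j.2.1 * j.2.2 * j.1).norm.natAbs) :
    (S.card : ℝ) ≤ 216 * k * (F.card : ℝ) ^ 3 / y := by
  obtain ⟨m0, m1, m2⟩ := tri_mem_FLM (tri_sub_FLM F hi)
  let g : O m → ℝ := fun b => chi_FLM i.1 b + chi_FLM i.2.1 b + chi_FLM i.2.2 b
  have g0 : ∀ b, 0 ≤ g b := fun b => by
    have := chi_nonneg_FLM i.1 b
    have := chi_nonneg_FLM i.2.1 b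
    have := chi_nonneg_FLM i.2.2 b
    simp only [g]
    linarith
  have g1 : ∀ b, ¬ Nat.Coprime (i.2.1 * i.2.2 * i.1).norm.natAbs b.norm.natAbs → 1 ≤ g b := by
    intro b hb
    have h1 := chi_nonneg_FLM i.1 b
    have h2 := chi_nonneg_FLM i.2.1 b
    have h3 := chi_nonneg_FLM i.2.2 b
    rw [nrm_FLM] at hb
    simp only [g]
    by_cases c1 : Nat.Coprime i.1.norm.natAbs b.norm.natAbs
    · by_cases c2 : Nat.Coprime i.2.1.norm.natAbs b.norm.natAbs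
      · by_cases c3 : Nat.Coprime i.2.2.norm.natAbs b.norm.natAbs
        · exact absurd (Nat.Coprime.mul_left (Nat.Coprime.mul_left c2 c3) c1) hb
        · have := chi_one_FLM c3
          linarith
      · have := chi_one_FLM c2
        linarith
    · have := chi_one_FLM c1
      linarith
  refine (card_le_sum_FLM S (F ×ˢ F ×ˢ F) (fun j hj => tri_sub_FLM F (hS j hj).1)
    (fun j => g j.1 + g j.2.1 + g j.2.2) ?_ ?_).trans ?_
  · intro j _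
    have := g0 j.1
    have := g0 j.2.1
    have := g0 j.2.2
    linarith
  · intro j hj
    have h1 := g0 j.1
    have h2 := g0 j.2.1
    have h3 := g0 j.2.2
    have hb := (hS j hj).2
    rw [nrm_FLM j.2.1] at hb
    by_cases c1 : Nat.Coprime (i.2.1 * i.2.2 * i.1).norm.natAbs j.1.norm.natAbs
    · by_cases c2 : Nat.Coprime (i.2.1 * i.2.2 * i.1).norm.natAbs j.2.1.norm.natAbs
      · by_cases c3 : Nat.Coprime (i.2.1 * i.2.2 * i.1).norm.natAbs j.2.2.norm.natAbs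
        · exact absurd (Nat.Coprime.mul_right (Nat.Coprime.mul_right c2 c3) c1) hb
        · have := g1 _ c3
          linarith
      · have := g1 _ c2
        linarith
    · have := g1 _ c1
      linarith
  · rw [sum_one_FLM F g]
    have h1 : ∑ b ∈ F, g b ≤ 3 * (24 * k * (F.card : ℝ) / y) := by
      simp only [g, sum_add_distrib]
      have := chi_sum_FLM h hm m0
      have := chi_sum_FLM h hm m1
      have := chi_sum_FLM h hm m2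
      linarith
    calc _ ≤ 3 * (F.card : ℝ) ^ 2 * (3 * (24 * k * (F.card : ℝ) / y)) :=
          mul_le_mul_of_nonneg_left h1 (by positivity)
      _ = _ := by ring

theorem good_FLM (h : Fam m y J k F) (hm : 1 ≤ m) {i : O m × O m × O m} (hi : i ∈ tri_FLM F) :
    Good m (64 * y ^ 6) (i.2.1 * i.2.2) i.1 := by
  obtain ⟨hi1, c1, c2, c3⟩ := mem_filter.1 hi
  obtain ⟨m0, m1, m2⟩ := tri_mem_FLM hi1
  refine ⟨?_, ?_, ?_, ?_, (h.box _ m0).2.2.1⟩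
  · rw [nrm_FLM]
    exact (Nat.squarefree_mul (Nat.Coprime.mul_left c1.symm c2.symm)).2
      ⟨(Nat.squarefree_mul c3).2 ⟨h.sqf m1, h.sqf m2⟩, h.sqf m0⟩
  · rw [nrm_FLM]
    exact Nat.Coprime.mul_left (Nat.Coprime.mul_left (h.cop2 hm m1) (h.cop2 hm m2)) (h.cop2 hm m0)
  · rw [nrm_FLM]
    calc _ ≤ 4 * y ^ 2 * (4 * y ^ 2) * (4 * y ^ 2) :=
          Nat.mul_le_mul (Nat.mul_le_mul (h.nat_le m1) (h.nat_le m2)) (h.nat_le m0)
      _ = _ := by ring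
  · rw [Zsqrtd.im_mul]
    exact dvd_add (Dvd.dvd.mul_left (h.box _ m2).2.2.1 _) (Dvd.dvd.mul_right (h.box _ m1).2.2.1 _)

/-- The inverse of the norm modulo `D`. -/
def iv_FLM (D : ℕ) (δ : O m) : O m := ((((δ.norm : ZMod D)⁻¹).val : ℕ) : O m)

theorem iv_spec_FLM {D : ℕ} (hD : 1 ≤ D) {δ : O m} (h : IsCoprime (D : ℤ) δ.norm) :
    (D : O m) ∣ δ * star δ * iv_FLM D δ - 1 := by
  obtain ⟨c, hc⟩ := inv_spec hD h
  refine ⟨(c : O m), ?_⟩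
  rw [← Zsqrtd.norm_eq_mul_conj, iv_FLM]
  exact_mod_cast congrArg (fun z : ℤ => (z : O m)) hc

theorem kap_FLM {D : ℕ} (hD : 1 ≤ D) {a b c : O m} (ha : IsCoprime (D : ℤ) a.norm)
    (hb : IsCoprime (D : ℤ) b.norm) (hc : IsCoprime (D : ℤ) c.norm) :
    (D : O m) ∣ star (b * c * a) * (a * b * c * (iv_FLM D a * iv_FLM D b * iv_FLM D c)) - 1 := by
  have e1 : star (b * c * a) * (a * b * c * (iv_FLM D a * iv_FLM D b * iv_FLM D c)) - 1 =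
      (a * star a * iv_FLM D a - 1) * ((b * star b * iv_FLM D b) * (c * star c * iv_FLM D c)) +
        (b * star b * iv_FLM D b - 1) * (c * star c * iv_FLM D c) + (c * star c * iv_FLM D c - 1) := by
    rw [star_mul', star_mul']
    ring
  rw [e1]
  exact dvd_add (dvd_add ((iv_spec_FLM hD ha).mul_right _) ((iv_spec_FLM hD hb).mul_right _))
    (iv_spec_FLM hD hc)

theorem term_FLM (hm : 1 ≤ m) {D : ℕ} (hD : 1 ≤ D) {a b c : O m} (ha : IsCoprime (D : ℤ) a.norm)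
    (a0 : a ≠ 0) (b0 : b ≠ 0) (c0 : c ≠ 0) (γ e u u' : O m) (s : ℕ) (η : ℂ) :
    ee (((γ * (b * c) * (a * b * c * (iv_FLM D a * iv_FLM D b * iv_FLM D c)) *
        Yb e s a u u').im : ℝ) / D + pr m η (ph m (b * c * Yb e s a u u') / conj (ph m (b * c * a)))) =
      ee (((γ * (tb D a * (u + u') + ((4 * s : ℕ) : O m) * e) * (tb D b * tb D c)).im : ℝ) / D +
        pr m (η * (rot a * ph m (u + u') + ((4 * s : ℕ) : ℂ) * ph m e)) (rot b * rot c)) := by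
  have ca : conj (ph m a) ≠ 0 := by
    rw [← ph_star]
    exact ph_ne_zero hm (star_ne_zero.2 a0)
  have cb : conj (ph m b) ≠ 0 := by
    rw [← ph_star]
    exact ph_ne_zero hm (star_ne_zero.2 b0)
  have cc' : conj (ph m c) ≠ 0 := by
    rw [← ph_star]
    exact ph_ne_zero hm (star_ne_zero.2 c0)
  have e1 : ph m (b * c * Yb e s a u u') / conj (ph m (b * c * a)) =
      (rot a * ph m (u + u') + ((4 * s : ℕ) : ℂ) * ph m e) * (rot b * rot c) := by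
    simp only [Yb, rot, map_mul, map_add, map_natCast, ph_star]
    generalize conj (ph m a) = A at ca ⊢
    generalize conj (ph m b) = B at cb ⊢
    generalize conj (ph m c) = C at cc' ⊢
    field_simp
  rw [e1, pr_mul]
  refine ee_im_congr hD ?_ _
  have e2 : γ * (b * c) * (a * b * c * (iv_FLM D a * iv_FLM D b * iv_FLM D c)) * Yb e s a u u' -
      γ * (tb D a * (u + u') + ((4 * s : ℕ) : O m) * e) * (tb D b * tb D c) =
      (a * star a * iv_FLM D a - 1) * (γ * (tb D b * tb D c) * (((4 * s : ℕ) : O m) * e)) := by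
    have t : ∀ x : O m, tb D x = x ^ 2 * iv_FLM D x := fun x => rfl
    rw [t, t, t, Yb]
    ring
  rw [e2]
  exact (iv_spec_FLM hD ha).mul_right _

theorem sum_le_FLM (F U : Finset (O m)) (t : O m → O m → O m → O m → O m → ℂ) :
    ‖∑ i ∈ F ×ˢ F ×ˢ F, ∑ u ∈ U, ∑ u' ∈ U, t i.1 i.2.1 i.2.2 u u'‖ ≤
      (F.card : ℝ) ^ 3 * (U.card : ℝ) ^ 2 *
        (𝔼 a ∈ F, 𝔼 u ∈ U, 𝔼 u' ∈ U, ‖𝔼 b ∈ F, 𝔼 c ∈ F, t a b c u u'‖) := by
  have e1 : ∑ i ∈ F ×ˢ F ×ˢ F, ∑ u ∈ U, ∑ u' ∈ U, t i.1 i.2.1 i.2.2 u u' =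
      ∑ a ∈ F, ∑ u ∈ U, ∑ u' ∈ U,
        (F.card : ℂ) * ((F.card : ℂ) * 𝔼 b ∈ F, 𝔼 c ∈ F, t a b c u u') := by
    rw [sum_product]
    refine sum_congr rfl fun a _ => ?_
    rw [sum_comm]
    refine sum_congr rfl fun u _ => ?_
    rw [sum_comm]
    refine sum_congr rfl fun u' _ => ?_
    rw [card_mul_expect, mul_sum, sum_product]
    refine sum_congr rfl fun b _ => ?_
    rw [card_mul_expect]
  have e2 : (F.card : ℝ) ^ 3 * (U.card : ℝ) ^ 2 *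
      (𝔼 a ∈ F, 𝔼 u ∈ U, 𝔼 u' ∈ U, ‖𝔼 b ∈ F, 𝔼 c ∈ F, t a b c u u'‖) =
      ∑ a ∈ F, ∑ u ∈ U, ∑ u' ∈ U,
        (F.card : ℝ) * ((F.card : ℝ) * ‖𝔼 b ∈ F, 𝔼 c ∈ F, t a b c u u'‖) := by
    have e3 : ∀ G : O m → O m → O m → ℝ, ∑ a ∈ F, ∑ u ∈ U, ∑ u' ∈ U, G a u u' =
        (F.card : ℝ) * ((U.card : ℝ) * ((U.card : ℝ) * 𝔼 a ∈ F, 𝔼 u ∈ U, 𝔼 u' ∈ U, G a u u')) := by
      intro G
      simp only [mul_expect, ← card_mul_expect]
    simp only [← mul_sum]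
    rw [e3]
    ring
  rw [e1, e2]
  refine (norm_sum_le _ _).trans (sum_le_sum fun a _ => ?_)
  refine (norm_sum_le _ _).trans (sum_le_sum fun u _ => ?_)
  refine (norm_sum_le _ _).trans (sum_le_sum fun u' _ => ?_)
  rw [norm_mul, norm_mul, Complex.norm_natCast]

theorem ext_FLM {ι : Type} [DecidableEq ι] (I P : Finset ι) (hIP : I ⊆ P) (U : Finset (O m))
    (t : ι → O m → O m → ℝ) :
    ‖∑ i ∈ I, ∑ u ∈ U, ∑ u' ∈ U, ee (t i u u')‖ ≤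
      ‖∑ i ∈ P, ∑ u ∈ U, ∑ u' ∈ U, ee (t i u u')‖ + ((P \ I).card : ℝ) * (U.card : ℝ) ^ 2 := by
  have e1 := sum_sdiff (f := fun i => ∑ u ∈ U, ∑ u' ∈ U, ee (t i u u')) hIP
  have e2 : ‖∑ i ∈ P \ I, ∑ u ∈ U, ∑ u' ∈ U, ee (t i u u')‖ ≤
      ((P \ I).card : ℝ) * (U.card : ℝ) ^ 2 := by
    calc _ ≤ ∑ i ∈ P \ I, ∑ u ∈ U, ∑ u' ∈ U, (1 : ℝ) := by
          refine (norm_sum_le _ _).trans (sum_le_sum fun a _ => ?_)
          refine (norm_sum_le _ _).trans (sum_le_sum fun u _ => ?_)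
          refine (norm_sum_le _ _).trans (sum_le_sum fun u' _ => ?_)
          rw [norm_ee]
      _ = _ := by
          simp only [sum_const, nsmul_eq_mul]
          ring
  rw [eq_sub_of_add_eq' e1]
  exact (norm_sub_le _ _).trans (by linarith)

theorem nu_FLM (hP : Par m s y k ν) : 1 ≤ k ∧ 10 ^ 10 ≤ ν ∧ k ≤ ν ∧ 10 ^ 10 * k ^ 3 ≤ ν := by
  have h1 := hP.sml.k1
  have h2 : (1 : ℝ) ≤ k := le_trans (by norm_num) h1
  have h3 : k ^ 4 ≤ ν := (pow_le_pow_right₀ h2 (by norm_num : 4 ≤ 100)).trans hP.kν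
  have h4 : k ≤ k ^ 4 := le_self_pow₀ h2 (by norm_num)
  have h5 : 10 ^ 10 * k ^ 3 ≤ k * k ^ 3 := mul_le_mul_of_nonneg_right h1 (by positivity)
  have h6 : k * k ^ 3 = k ^ 4 := by ring
  exact ⟨h2, by linarith, by linarith, by linarith⟩

theorem sqrt_FLM (hP : Par m s y k ν) : Real.sqrt m ≤ ν := by
  have h1 : (1 : ℝ) ≤ m := by exact_mod_cast hP.sml.m1
  have h2 : Real.sqrt m ≤ m := Real.sqrt_le_iff.2 ⟨by linarith, by nlinarith⟩
  exact h2.trans (hP.sml.mk'.trans (nu_FLM hP).2.2.1)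

theorem del_FLM (hP : Par m s y k ν) : ((64 * y ^ 6 : ℕ) : ℝ) ≤ 64 * ν ^ 690 := by
  have h1 : (y : ℝ) ^ 6 ≤ (ν ^ 115) ^ 6 := pow_le_pow_left₀ (Nat.cast_nonneg _) hP.y2 6
  have h2 : (ν ^ 115) ^ 6 = ν ^ 690 := by rw [← pow_mul]
  push_cast
  linarith

theorem L_FLM (hP : Par m s y k ν) : ν ^ 1000 ≤ s * ν ^ 1000 := by
  have h1 : (1 : ℝ) ≤ s := by exact_mod_cast hP.s1
  have h2 : (0 : ℝ) < ν := lt_of_lt_of_le (by norm_num) (nu_FLM hP).2.1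
  exact le_mul_of_one_le_left (pow_pos h2 _).le h1

theorem pw_FLM {ν : ℝ} (h : 10 ^ 10 ≤ ν) {a b : ℕ} (hab : a + 1 ≤ b) : 1000 * ν ^ a < ν ^ b := by
  have h1 : (1 : ℝ) ≤ ν := le_trans (by norm_num) h
  have h2 : ν ^ (a + 1) ≤ ν ^ b := pow_le_pow_right₀ h1 hab
  have h3 : (0 : ℝ) < ν ^ a := by positivity
  have h4 : 1000 * ν ^ a < ν * ν ^ a := mul_lt_mul_of_pos_right (lt_of_lt_of_le (by norm_num) h) h3
  rw [pow_succ'] at h2
  linarith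

theorem hdel_FLM (hP : Par m s y k ν) :
    4 * Real.sqrt m * ((64 * y ^ 6 : ℕ) : ℝ) < s * ν ^ 1000 := by
  have h0 := (nu_FLM hP).2.1
  have h2 : (0 : ℝ) < ν := lt_of_lt_of_le (by norm_num) h0
  have h1 : 4 * Real.sqrt m * ((64 * y ^ 6 : ℕ) : ℝ) ≤ 4 * ν * (64 * ν ^ 690) :=
    mul_le_mul (by linarith [sqrt_FLM hP]) (del_FLM hP) (Nat.cast_nonneg _) (by positivity)
  have h3 : 4 * ν * (64 * ν ^ 690) = 256 * ν ^ 691 := by ring
  have h4 := pw_FLM h0 (by norm_num : 691 + 1 ≤ 1000)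
  have h5 : (0 : ℝ) < ν ^ 691 := by positivity
  have h6 := L_FLM hP
  linarith

theorem hs_FLM (hP : Par m s y k ν) {D : ℕ} {η : ℂ} (hD : (D : ℝ) ≤ ν ^ 23)
    (hη : ‖η‖ * ν ^ 1000 ≤ ν ^ 23) :
    (D : ℝ) * ((64 * y ^ 6 : ℕ) : ℝ) * (4 * Real.sqrt m / (s * ν ^ 1000) + 2 * ‖η‖) < 1 := by
  have h0 := (nu_FLM hP).2.1
  have h1 : (1 : ℝ) ≤ ν := le_trans (by norm_num) h0
  have h2 : (0 : ℝ) < ν := by linarith
  have hX : (0 : ℝ) < ν ^ 1000 := by positivity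
  have a1 : Real.sqrt m ≤ ν ^ 23 := (sqrt_FLM hP).trans (le_self_pow₀ h1 (by norm_num))
  have a2 : 4 * Real.sqrt m / (s * ν ^ 1000) ≤ 4 * ν ^ 23 / ν ^ 1000 :=
    div_le_div₀ (by positivity) (by linarith) hX (L_FLM hP)
  have a3 : ‖η‖ ≤ ν ^ 23 / ν ^ 1000 := (le_div_iff₀ hX).2 hη
  have a4 : 4 * Real.sqrt m / (s * ν ^ 1000) + 2 * ‖η‖ ≤ 6 * ν ^ 23 / ν ^ 1000 := by
    have : 6 * ν ^ 23 / ν ^ 1000 = 4 * ν ^ 23 / ν ^ 1000 + 2 * (ν ^ 23 / ν ^ 1000) := by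
      generalize ν ^ 1000 = X
      ring
    linarith
  have a5 : (D : ℝ) * ((64 * y ^ 6 : ℕ) : ℝ) ≤ ν ^ 23 * (64 * ν ^ 690) :=
    mul_le_mul hD (del_FLM hP) (Nat.cast_nonneg _) (by positivity)
  have a6 : 0 ≤ 4 * Real.sqrt m / (s * ν ^ 1000) + 2 * ‖η‖ := by positivity
  refine (mul_le_mul a5 a4 a6 (by positivity)).trans_lt ?_
  rw [← mul_div_assoc, div_lt_one hX]
  have a7 : ν ^ 23 * (64 * ν ^ 690) * (6 * ν ^ 23) = 384 * ν ^ 736 := by ring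
  have a8 := pw_FLM h0 (by norm_num : 736 + 1 ≤ 1000)
  have a9 : (0 : ℝ) < ν ^ 736 := by positivity
  linarith

theorem ky_FLM (hP : Par m s y k ν) : 10 ^ 10 * k ^ 3 / y ≤ 1 / ν ^ 44 := by
  have h0 := (nu_FLM hP).2.1
  have h2 : (0 : ℝ) < ν := lt_of_lt_of_le (by norm_num) h0
  have h3 : 10 ^ 10 * k ^ 3 / y ≤ ν / ν ^ 45 :=
    div_le_div₀ h2.le (nu_FLM hP).2.2.2 (by positivity) hP.y1
  refine h3.trans (le_of_eq ?_)
  field_simp

theorem err_FLM (hP : Par m s y k ν) (hU : Pile e s ν U) (n : ℝ) (hn : 0 ≤ n) :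
    10 ^ 4 * (216 * k * n / y) * (s * ν ^ 1000) ^ 2 * U.card ≤
      1 / ν ^ 20 * (n * (U.card : ℝ) ^ 2) := by
  obtain ⟨k1, h0, -, -⟩ := nu_FLM hP
  have h1 : (1 : ℝ) ≤ ν := le_trans (by norm_num) h0
  have h2 : (0 : ℝ) < ν := by linarith
  have a1 : (s * ν ^ 1000) ^ 2 ≤ k ^ 2 * ν ^ 20 * U.card := by
    have b1 : (s : ℝ) ^ 2 ≤ k ^ 2 := pow_le_pow_left₀ (Nat.cast_nonneg _) hP.sk 2
    have b2 : (ν ^ 1000) ^ 2 = ν ^ 20 * ν ^ 1980 := by rw [← pow_mul, ← pow_add]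
    rw [mul_pow, b2, mul_assoc]
    exact mul_le_mul b1 (mul_le_mul_of_nonneg_left hU.crd (by positivity)) (by positivity)
      (by positivity)
  have a2 := ky_FLM hP
  have a3 : 1 / ν ^ 44 * ν ^ 20 ≤ 1 / ν ^ 20 := by
    rw [div_mul_eq_mul_div, one_mul, div_le_div_iff₀ (by positivity) (by positivity), one_mul,
      ← pow_add]
    exact pow_le_pow_right₀ h1 (by norm_num)
  have a4 : 0 ≤ k ^ 3 / y := by positivity
  generalize (s * ν ^ 1000) ^ 2 = X at a1 ⊢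
  calc _ ≤ 10 ^ 4 * (216 * k * n / y) * (k ^ 2 * ν ^ 20 * U.card) * U.card := by gcongr
    _ = 2160000 * (k ^ 3 / y) * ν ^ 20 * (n * (U.card : ℝ) ^ 2) := by ring
    _ ≤ 1 / ν ^ 44 * ν ^ 20 * (n * (U.card : ℝ) ^ 2) := by
        have : 2160000 * (k ^ 3 / y) ≤ 1 / ν ^ 44 := by
          rw [mul_div_assoc] at a2
          linarith
        gcongr
    _ ≤ _ := mul_le_mul_of_nonneg_right a3 (by positivity)

theorem bad_FLM (hP : Par m s y k ν) (n : ℝ) (hn : 0 ≤ n) : 72 * k * n / y ≤ 1 / ν ^ 20 * n := by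
  obtain ⟨k1, h0, -, -⟩ := nu_FLM hP
  have h1 : (1 : ℝ) ≤ ν := le_trans (by norm_num) h0
  have h2 : (0 : ℝ) < ν := by linarith
  have a2 := ky_FLM hP
  have a3 : 1 / ν ^ 44 ≤ 1 / ν ^ 20 :=
    one_div_le_one_div_of_le (by positivity) (pow_le_pow_right₀ h1 (by norm_num))
  have a4 : k ≤ k ^ 3 := le_self_pow₀ k1 (by norm_num)
  have a5 : 72 * k / y ≤ 10 ^ 10 * k ^ 3 / y :=
    div_le_div_of_nonneg_right (by linarith) (Nat.cast_nonneg _)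
  calc _ = 72 * k / y * n := by ring
    _ ≤ _ := mul_le_mul_of_nonneg_right (by linarith) hn

theorem eps_FLM {ν : ℝ} (h : 10 ^ 10 ≤ ν) : 1 / ν ^ 20 ≤ 1 / 4 ∧ 4 * (1 / ν ^ 20) ≤ 1 / ν ^ 10 := by
  have h2 : (0 : ℝ) < ν := lt_of_lt_of_le (by norm_num) h
  have a1 := pw_FLM h (by norm_num : 0 + 1 ≤ 20)
  have a2 := pw_FLM h (by norm_num : 10 + 1 ≤ 20)
  have a3 : (0 : ℝ) < ν ^ 10 := by positivity
  rw [pow_zero] at a1
  refine ⟨one_div_le_one_div_of_le (by norm_num) (by linarith), ?_⟩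
  rw [mul_one_div, div_le_div_iff₀ (by positivity) a3]
  linarith

/-- The block with two outer rotations and one inner rotation. -/
theorem mblock (hP : Par m s y k ν) (h : Fam m y J k F) (hU : Pile e s ν U) :
    ∃ φ : ℂ → ℂ, Adm e (6 * s) φ ∧ MB F U e s ν φ := by
  classical
  have hm := hP.sml.m1
  obtain ⟨k1, h0, -, -⟩ := nu_FLM hP
  have h1 : (1 : ℝ) ≤ ν := le_trans (by norm_num) h0
  have h2 : (0 : ℝ) < ν := by linarith
  have hG : ∀ i ∈ tri_FLM F, Good m (64 * y ^ 6) (i.2.1 * i.2.2) i.1 := fun i hi => good_FLM h hm hi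
  have hL : (1 : ℝ) ≤ s * ν ^ 1000 := (one_le_pow₀ h1).trans (L_FLM hP)
  have hμ : (0 : ℝ) ≤ 216 * k * (F.card : ℝ) ^ 3 / y := by positivity
  have hUL : ∀ u ∈ U, ‖ph m u‖ ≤ s * ν ^ 1000 := fun u hu => hU.norm_le h2.le hu
  have hF : (0 : ℝ) < F.card := by exact_mod_cast (h.ne hm).card_pos
  have hUc : (0 : ℝ) < U.card := lt_of_lt_of_le (pow_pos h2 _) hU.crd
  have hE := err_FLM hP hU ((F.card : ℝ) ^ 3) (by positivity)
  have hB := (bad_card_FLM h hm).trans (bad_FLM hP ((F.card : ℝ) ^ 3) (by positivity))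
  have hB2 := mul_le_mul_of_nonneg_right hB (sq_nonneg (U.card : ℝ))
  rw [mul_assoc] at hB2
  obtain ⟨e1, e2⟩ := eps_FLM h0
  have hW : (0 : ℝ) < (F.card : ℝ) ^ 3 * (U.card : ℝ) ^ 2 := by positivity
  have hT := (Tb_zero hm (tri_FLM F) (fun i => i.2.1 * i.2.2) (fun i => i.1) e s (64 * y ^ 6) U
    (s * ν ^ 1000) _ hG hL hμ hUL (hdel_FLM hP)
    (fun i hi => mu_card_FLM h hm hi _ fun j hj => mem_filter.1 hj)).trans hE
  have hI : (((F ×ˢ F ×ˢ F) \ tri_FLM F).card : ℝ) + (tri_FLM F).card = (F.card : ℝ) ^ 3 := by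
    have := card_sdiff_add_card_eq_card (tri_sub_FLM F)
    rw [card_product, card_product] at this
    have h3 : ((((F ×ˢ F ×ˢ F) \ tri_FLM F).card + (tri_FLM F).card : ℕ) : ℝ) =
        ((F.card * (F.card * F.card) : ℕ) : ℝ) := by rw [this]
    push_cast at h3
    rw [h3]
    ring
  have hT0 : (F.card : ℝ) ^ 3 * (U.card : ℝ) ^ 2 / 2 ≤
      ‖Tb (tri_FLM F) (fun i => i.2.1 * i.2.2) (fun i => i.1) e s U 0‖ := by
    have a1 := norm_sub_norm_le (((tri_FLM F).card : ℂ) * (U.card : ℂ) ^ 2)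
      (Tb (tri_FLM F) (fun i => i.2.1 * i.2.2) (fun i => i.1) e s U 0)
    rw [norm_sub_rev, norm_mul, norm_pow, Complex.norm_natCast, Complex.norm_natCast] at a1
    have a2 : ((tri_FLM F).card : ℝ) * (U.card : ℝ) ^ 2 = (F.card : ℝ) ^ 3 * (U.card : ℝ) ^ 2 -
        (((F ×ˢ F ×ˢ F) \ tri_FLM F).card : ℝ) * (U.card : ℝ) ^ 2 := by
      rw [← hI]
      ring
    have a3 := mul_le_mul_of_nonneg_right e1 hW.le
    linarith
  have hne : Tb (tri_FLM F) (fun i => i.2.1 * i.2.2) (fun i => i.1) e s U 0 ≠ 0 := by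
    intro hz
    rw [hz, norm_zero] at hT0
    linarith
  refine ⟨_, block_adm hm (tri_FLM F) (fun i => i.2.1 * i.2.2) (fun i => i.1) e s (64 * y ^ 6) U hG
    hU.sum hne, ?_⟩
  intro γ D η hD1 hD hη
  have hDy : D ≤ y := by
    have : (D : ℝ) ≤ y := hD.trans ((pow_le_pow_right₀ h1 (by norm_num)).trans hP.y1)
    exact_mod_cast this
  have hc : ∀ δ ∈ F, IsCoprime (D : ℤ) δ.norm := fun δ hδ => h.cop hδ hD1 hDy
  have hS := (split hm (tri_FLM F) (fun i => i.2.1 * i.2.2) (fun i => i.1)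
    (fun i => i.1 * i.2.1 * i.2.2 * (iv_FLM D i.1 * iv_FLM D i.2.1 * iv_FLM D i.2.2)) e s
    (64 * y ^ 6) U (s * ν ^ 1000) _ γ D η hG hL hμ hUL hD1
    (fun i hi => by
      obtain ⟨m0, m1, m2⟩ := tri_mem_FLM (tri_sub_FLM F hi)
      rw [Zsqrtd.norm_mul, Zsqrtd.norm_mul]
      exact ((hc _ m1).mul_right (hc _ m2)).mul_right (hc _ m0))
    (fun i hi => by
      obtain ⟨m0, m1, m2⟩ := tri_mem_FLM (tri_sub_FLM F hi)
      exact kap_FLM hD1 (hc _ m0) (hc _ m1) (hc _ m2))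
    (hs_FLM hP hD hη)
    (fun i hi => mu_card_FLM h hm hi _ fun j hj => mem_filter.1 hj)).trans hE
  let t : O m → O m → O m → O m → O m → ℝ := fun a b c u u' =>
    ((γ * (tb D a * (u + u') + ((4 * s : ℕ) : O m) * e) * (tb D b * tb D c)).im : ℝ) / D +
      pr m (η * (rot a * ph m (u + u') + ((4 * s : ℕ) : ℂ) * ph m e)) (rot b * rot c)
  have hM : ∑ i ∈ tri_FLM F, ∑ u ∈ U, ∑ u' ∈ U,
      ee (((γ * (i.2.1 * i.2.2) *
        (i.1 * i.2.1 * i.2.2 * (iv_FLM D i.1 * iv_FLM D i.2.1 * iv_FLM D i.2.2)) *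
          Yb e s i.1 u u').im : ℝ) / D +
        pr m η (ph m (i.2.1 * i.2.2 * Yb e s i.1 u u') / conj (ph m (i.2.1 * i.2.2 * i.1)))) =
      ∑ i ∈ tri_FLM F, ∑ u ∈ U, ∑ u' ∈ U, ee (t i.1 i.2.1 i.2.2 u u') := by
    refine sum_congr rfl fun i hi => sum_congr rfl fun u _ => sum_congr rfl fun u' _ => ?_
    obtain ⟨m0, m1, m2⟩ := tri_mem_FLM (tri_sub_FLM F hi)
    exact term_FLM hm hD1 (hc _ m0) (h.ne_zero m0) (h.ne_zero m1) (h.ne_zero m2) γ e u u' s η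
  rw [hM] at hS
  have b1 := ext_FLM (tri_FLM F) (F ×ˢ F ×ˢ F) (tri_sub_FLM F) U fun i u u' => t i.1 i.2.1 i.2.2 u u'
  have b2 := sum_le_FLM F U fun a b c u u' => ee (t a b c u u')
  have b3 := norm_sub_norm_le
    (Tb (tri_FLM F) (fun i => i.2.1 * i.2.2) (fun i => i.1) e s U (ph m γ / D + η))
    (∑ i ∈ tri_FLM F, ∑ u ∈ U, ∑ u' ∈ U, ee (t i.1 i.2.1 i.2.2 u u'))
  have b4 : 0 ≤ 𝔼 a ∈ F, 𝔼 u ∈ U, 𝔼 u' ∈ U, ‖𝔼 b ∈ F, 𝔼 c ∈ F, ee (t a b c u u')‖ :=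
    expect_nonneg fun a _ => expect_nonneg fun u _ => expect_nonneg fun u' _ => norm_nonneg _
  change ‖Tb (tri_FLM F) (fun i => i.2.1 * i.2.2) (fun i => i.1) e s U (ph m γ / D + η) /
      Tb (tri_FLM F) (fun i => i.2.1 * i.2.2) (fun i => i.1) e s U 0‖ ≤
    4 * (𝔼 a ∈ F, 𝔼 u ∈ U, 𝔼 u' ∈ U, ‖𝔼 b ∈ F, 𝔼 c ∈ F, ee (t a b c u u')‖) + 1 / ν ^ 10
  generalize (𝔼 a ∈ F, 𝔼 u ∈ U, 𝔼 u' ∈ U, ‖𝔼 b ∈ F, 𝔼 c ∈ F, ee (t a b c u u')‖) = A at b2 b4 ⊢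
  have e0 : (0 : ℝ) ≤ 1 / ν ^ 20 := by positivity
  generalize 1 / ν ^ 20 = ε at e0 e1 e2 hS hB2
  generalize (F.card : ℝ) ^ 3 * (U.card : ℝ) ^ 2 = W at hW hT0 hS hB2 b2
  rw [norm_div, div_le_iff₀ (norm_pos_iff.2 hne)]
  have c1 : (2 * A + 4 * ε) * (W / 2) ≤ (4 * A + 1 / ν ^ 10) *
      ‖Tb (tri_FLM F) (fun i => i.2.1 * i.2.2) (fun i => i.1) e s U 0‖ :=
    mul_le_mul (by linarith) hT0 (by linarith) (by linarith)
  have c2 : (2 * A + 4 * ε) * (W / 2) = W * A + 2 * (ε * W) := by ring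
  linarith

end Pool.Agent.P.MP_b75a1e_co.EG
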