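import Mathlib

-- part Pool.Agent.P.MP_b75a1e_co.EGDefs
section

set_option autoImplicit false

open Finset
open scoped BigOperators ComplexConjugate

namespace Pool.Agent.P.MP_b75a1e_co.EG

/-- The order generated by a square root of `-m`. -/
abbrev O (m : ℕ) : Type := Zsqrtd (-(m : ℤ))

/-- The square root of `-m`. -/
def rt (m : ℕ) : O m := ⟨0, 1⟩

/-- The embedding into the complex numbers. -/
noncomputable def ph (m : ℕ) : O m →+* ℂ :=
  Zsqrtd.lift ⟨(Real.sqrt m : ℂ) * Complex.I, by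
    have h : (Real.sqrt m : ℂ) * (Real.sqrt m : ℂ) = (m : ℂ) := by
      exact_mod_cast Real.mul_self_sqrt (Nat.cast_nonneg (α := ℝ) m)
    have h2 := Complex.I_mul_I
    push_cast
    linear_combination (Complex.I * Complex.I) * h + (m : ℂ) * h2⟩

/-- The element `m * rt m`. -/
def mu (m : ℕ) : O m := ⟨0, m⟩

/-- Division by `mu m` (exact when `mu m` divides). -/
def dv {m : ℕ} (y : O m) : O m := ⟨y.im / m, -(y.re / (m : ℤ) ^ 2)⟩

/-- The additive character. -/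
noncomputable def ee (t : ℝ) : ℂ := Complex.exp (2 * Real.pi * t * Complex.I)

/-- The pairing: the second coordinate of the product. -/
noncomputable def pr (m : ℕ) (θ z : ℂ) : ℝ := (θ * z).im / Real.sqrt m

/-- Characteristic function of a uniformly sampled lattice point. -/
noncomputable def ch {m : ℕ} {Ω : Type} [Fintype Ω] (X : Ω → O m) (θ : ℂ) : ℂ :=
  𝔼 ω, ee (pr m θ (ph m (X ω)))

/-- `θ` has a good rational approximation. -/
def Low (m : ℕ) (θ : ℂ) (H X : ℝ) : Prop :=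
  ∃ w a : O m, w ≠ 0 ∧ (w.norm : ℝ) ≤ H ∧ ‖θ * ph m w - ph m a‖ ^ 2 * X ≤ H

/-- No prime factor of `d` divides `β`. -/
def PrimAt {m : ℕ} (β : O m) (d : ℕ) : Prop := ∀ l : ℕ, l.Prime → l ∣ d → ¬ (l : O m) ∣ β

/-- `θ` is close to the reduced fraction `β / d`. -/
def Near (m : ℕ) (θ : ℂ) (β : O m) (d : ℕ) (H X : ℝ) : Prop :=
  1 ≤ d ∧ (d : ℝ) ≤ H ∧ PrimAt β d ∧ ‖θ - ph m β / d‖ ^ 2 * X ≤ H

/-- Index set of the grid. -/
noncomputable def grid (Mg : ℕ) : Finset (ℤ × ℤ) := Ico (0 : ℤ) Mg ×ˢ Ico (0 : ℤ) Mg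

/-- Grid point. -/
noncomputable def gp (m Mg : ℕ) (n : ℤ × ℤ) : ℂ := ph m ⟨n.1, n.2⟩ / Mg

/-- Some prime `l ≤ Y` divides `d` more often than it divides `Q`. -/
def Deep (Y Q d : ℕ) : Prop := ∃ l j : ℕ, l.Prime ∧ l ≤ Y ∧ l ^ j ∣ d ∧ ¬ l ^ j ∣ Q

/-- All prime factors exceed `Y`. -/
def Rough (Y d : ℕ) : Prop := ∀ l : ℕ, l.Prime → l ∣ d → Y < l

/-- All prime factors are at most `Y`. -/
def Smo (Y d : ℕ) : Prop := ∀ l : ℕ, l.Prime → l ∣ d → l ≤ Y

/-- No prime `l ≤ Y` divides `a`. -/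
def Pure (Y : ℕ) (a : ℤ) : Prop := ∀ l : ℕ, l.Prime → l ≤ Y → ¬ (l : ℤ) ∣ a

/-- No common prime factor above `Y`. -/
def Cop (Y : ℕ) (a b : ℤ) : Prop := ∀ l : ℕ, l.Prime → Y < l → (l : ℤ) ∣ a → ¬ (l : ℤ) ∣ b

/-- No prime above `Y` divides `x`. -/
def Prim {m : ℕ} (Y : ℕ) (x : O m) : Prop := ∀ l : ℕ, l.Prime → Y < l → ¬ (l : O m) ∣ x

/-- Weight of the large prime factors. -/
noncomputable def wt (Y len : ℕ) (a : ℤ) : ℝ :=
  ∑ l ∈ a.natAbs.primeFactors.filter (fun l => Y < l), ((1 : ℝ) / l + 1 / len)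

/-- Each large prime divides few values. -/
def Roots (Y len : ℕ) (f : ℕ → ℤ) : Prop :=
  ∀ l : ℕ, l.Prime → Y < l → ((range len).filter fun t => (l : ℤ) ∣ f t).card ≤ 2 * (len / l + 1)

/-- `y` is a sum of `k` elements of norm `n`. -/
def SumOf {m : ℕ} (n : ℤ) (k : ℕ) (y : O m) : Prop :=
  ∃ L : Multiset (O m), Multiset.card L = k ∧ (∀ a ∈ L, a.norm = n) ∧ L.sum = y

/-- `y` is a sum of `k` elements with the norm of `e` and congruent to `e` modulo `m ^ 2`. -/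
def SumRes {m : ℕ} (e : O m) (k : ℕ) (y : O m) : Prop :=
  ∃ L : Multiset (O m), Multiset.card L = k ∧
    (∀ a ∈ L, a.norm = e.norm ∧ (m : O m) ^ 2 ∣ a - e) ∧ L.sum = y

/-- `y` is a sum of `k` field elements of squared length `N`. -/
def Rep (m : ℕ) (N : ℝ) (k : ℕ) (y : ℂ) : Prop :=
  ∃ L : Multiset ℂ, Multiset.card L = k ∧
    (∀ a ∈ L, (∃ (x : O m) (n : ℕ), n ≠ 0 ∧ a = ph m x / n) ∧ ‖a‖ ^ 2 = N) ∧ L.sum = y

/-- A prime that splits. -/
def Split (m l : ℕ) : Prop := l.Prime ∧ ¬ l ∣ 2 * m ∧ ∃ r : ℤ, (l : ℤ) ∣ r ^ 2 + m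

/-- Elements of one squarefree norm in one rational class modulo `m ^ 2`. -/
structure Box (m : ℕ) (D : Finset ℕ) (ρ : ℤ) (V : Finset (O m)) : Prop where
  nrm : ∀ x ∈ V, x.norm = ∏ l ∈ D, (l : ℤ)
  res : ∀ x ∈ V, (m : O m) ^ 2 ∣ x - (ρ : O m)

/-- A state of the tower. -/
structure St (m : ℕ) where
  D : Finset ℕ
  ρ : ℤ
  V : Finset (O m)
  e : O m
  U : ℕ → Finset (O m)

/-- The invariants of the tower after `i` steps. -/
structure St.Ok {m : ℕ} (S : St m) (PP : Finset ℕ) (k i : ℕ) : Prop where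
  sub : S.D ⊆ PP
  box : Box m S.D S.ρ S.V
  big : 2 ^ (999 * S.D.card) ≤ S.V.card ^ 1000
  mem : S.e ∈ S.V
  sum : ∀ j, ∀ u ∈ S.U j, SumRes S.e j u
  crd : ∀ j ≤ i, (2 : ℝ) ^ ((998 / 1000 : ℝ) * k * S.D.card * (1 - ((k : ℝ) / (k + 1)) ^ j) - 2 * j)
    ≤ (S.U j).card

/-- A vertex of the cube spanned by the coordinates `z`. -/
def cube {m r : ℕ} (z : Fin r → O m) (ε : Fin r → Bool) : O m :=
  ∏ i, if ε i then z i else star (z i)

/-- The base vertex of the cube. -/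
def base {m r : ℕ} (z : Fin r → O m) : O m := cube z fun _ => false

/-- The bilinear block. -/
noncomputable def blk {m : ℕ} (U : Finset (O m)) (g : O m) (θ : ℂ) : ℂ :=
  ch (fun q : U × U => (q.1 : O m) * (q.2 : O m)) (θ / ph m (mu m) * ph m g)

/-- The special factor at `2` and `3`. -/
def cc (m : ℕ) : ℕ := if 3 ∣ m then 2 else 6

/-- Product of the unramified primes in `[5, Y]`. -/
def Q1 (m Y : ℕ) : ℕ := ∏ l ∈ (range (Y + 1)).filter (fun l => l.Prime ∧ 5 ≤ l ∧ ¬ l ∣ m), l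

def M1 (m Y : ℕ) : ℕ := cc m ^ 2 * Q1 m Y * m

def M2 (m Y : ℕ) : ℕ := 2 * cc m ^ 3 * Q1 m Y * m

def QQ (m Y : ℕ) : ℕ := 4 * cc m ^ 3 * Q1 m Y

/-- The residue class that the base point must have. -/
def Shape (m Y : ℕ) (Γ : O m) : Prop :=
  ∃ a b : ℤ, Pure Y a ∧ Pure Y b ∧ (m : ℤ) ∣ cc m * b - 1 ∧
    (M1 m Y : O m) ∣ Γ - (⟨a, a * (cc m * b)⟩ : O m)

/-- Coordinates of the lifting families. -/
def hz (m M t : ℕ) : O m := ⟨1, M * t⟩

/-- Coordinates of the middle families. -/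
def mz (m M t : ℕ) : O m := ⟨1 + M * t, M⟩

/-- The first lifting family: a summand together with its conjugate. -/
noncomputable def FI {m r : ℕ} (Γ : O m) (zI zII : Fin r → O m) (θ : ℂ) : ℂ :=
  ch (fun ε : Fin r → Bool => Γ * base zII * cube zI ε + star (Γ * base zII * cube zI ε))
    (θ / ph m (mu m))

/-- The second lifting family. -/
noncomputable def FII {m r : ℕ} (Γ : O m) (zI zII : Fin r → O m) (θ : ℂ) : ℂ :=
  ch (fun ε : Fin r → Bool => Γ * base zI * cube zII ε) (θ / ph m (mu m))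

open Classical in
/-- Collision probability of a cube. -/
noncomputable def cX {m r : ℕ} (d : ℕ) (z : Fin r → O m) : ℝ :=
  if IsCoprime (d : ℤ) (base z).norm then
    𝔼 q : (Fin r → Bool) × (Fin r → Bool), if (d : O m) ∣ cube z q.1 - cube z q.2 then (1 : ℝ) else 0
  else 0

/-- Sum of two cube vertices with a common norm. -/
def yy {m r : ℕ} (z1 z2 : Fin r → O m) (ε : (Fin r → Bool) × (Fin r → Bool)) : O m :=
  cube z1 ε.1 * base z2 + base z1 * cube z2 ε.2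

open Classical in
/-- Collision probability of the sum of two cubes. -/
noncomputable def cY {m r : ℕ} (d : ℕ) (z1 z2 : Fin r → O m) : ℝ :=
  if IsCoprime (d : ℤ) ((base z1).norm * (base z2).norm) then
    𝔼 q : ((Fin r → Bool) × (Fin r → Bool)) × ((Fin r → Bool) × (Fin r → Bool)),
      if (d : O m) ∣ yy z1 z2 q.1 - yy z1 z2 q.2 then (1 : ℝ) else 0
  else 0

/-- The collision weight of one block. -/
noncomputable def Zc {m r : ℕ} (d : ℕ) (z : Fin 3 → Fin r → O m) : ℝ :=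
  ∑ d1 ∈ d.divisors.filter (fun d1 => d ^ 49 ≤ d1 ^ 100), (d1 : ℝ) ^ 2 * cY d1 (z 0) (z 1) * cX d1 (z 2)

/-- The bound for the middle families at denominator `d`. -/
noncomputable def WW {m r : ℕ} (z : Fin 100 × Fin 300 → Fin 3 → Fin r → O m) (d : ℕ) : ℝ :=
  1 / (d : ℝ) ^ 4 + (d : ℝ) ^ 4 * ∑ g : Fin 100, ∏ c : Fin 300, ((d : ℝ) ^ (1 / 50 : ℝ) * Zc d (z (g, c)))

/-- Base point of one block. -/
def blockB {m r : ℕ} (z : Fin 3 → Fin r → O m) : O m := base (z 0) * base (z 1) * base (z 2)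

/-- Base point of all blocks. -/
def midC {m r : ℕ} (z : Fin 100 × Fin 300 → Fin 3 → Fin r → O m) : O m := ∏ b, blockB (z b)

/-- Sample space of the middle families. -/
abbrev OmM (r : ℕ) : Type :=
  Fin 100 × Fin 300 → ((Fin r → Bool) × (Fin r → Bool)) × (Fin r → Bool)

/-- The sum of the middle summands. -/
def midY {m r : ℕ} (Γ : O m) (z : Fin 100 × Fin 300 → Fin 3 → Fin r → O m) (ω : OmM r) : O m :=
  ∑ b, (Γ * ∏ b' ∈ univ.erase b, blockB (z b')) *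
    (cube (z b 2) (ω b).2 * yy (z b 0) (z b 1) (ω b).1)

/-- Sample space of the big blocks. -/
abbrev OmB {m : ℕ} (J : ℕ) (U : ℕ → Finset (O m)) : Type :=
  (j : Fin (J + 1)) → Fin 600 → U j × U j

/-- Sample space of the paired families. -/
abbrev OmP {m : ℕ} (J r : ℕ) (U : ℕ → Finset (O m)) : Type :=
  (OmB J U × OmB J U) × ((Fin r → Bool) × (Fin r → Bool)) × (Fin r → Bool)

/-- The sum of the big blocks and of the two lifting summands. -/
def psiA {m r : ℕ} (J : ℕ) (g : ℕ → O m) (U : ℕ → Finset (O m)) (Γ : O m) (zI zII : Fin r → O m)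
    (b : OmB J U) (ε2 ε1 : Fin r → Bool) : O m :=
  (∑ j : Fin (J + 1), ∑ c : Fin 600, g j * (((b j c).1 : O m) * ((b j c).2 : O m))) +
    Γ * base zI * cube zII ε2 + Γ * base zII * cube zI ε1

/-- A sublattice given coordinatewise. -/
def Lat {m : ℕ} (a b : ℕ) (x : O m) : Prop := (a : ℤ) ∣ x.re ∧ (b : ℤ) ∣ x.im

/-- Local data at the prime `l`. -/
def Loc (m Nf l e0 e1 : ℕ) (x0 : ℤ) : Prop :=
  ∃ (ζ w : ℕ → O m) (j : ℕ → ℕ),
    (∀ i < Nf, j i ≤ 3 ∧ (l : ℤ) ^ j i ∣ (ζ i).norm ∧ ¬ (l : ℤ) ^ (j i + 1) ∣ (ζ i).norm ∧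
      Lat (l ^ (j i + e0)) (l ^ (j i + e1)) (4 * ζ i ^ 2 - ((ζ i).norm : O m) * w i)) ∧
    (∀ G : O m, (l ∣ m → (l : ℤ) ∣ G.im - G.re) →
      Lat (l ^ e0) (l ^ e1) (((x0 * G.re : ℤ) : O m) + G * ∑ i ∈ range Nf, w i)) ∧
    ∀ z : ℕ → O m, (∀ i < Nf, (l : O m) ^ 10 ∣ z i - ζ i) →
      (l : O m) ^ (∑ i ∈ range Nf, j i) ∣ ∏ i ∈ range Nf, star (z i) ^ 2

/-- Directions of the fixed coordinates. -/
noncomputable def dir (i : ℕ) : ℂ :=
  if i = 0 then ⟨1 / 2, Real.sqrt 3 / 2⟩ else if i = 1 then ⟨-1 / 2, Real.sqrt 3 / 2⟩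
  else if i = 3 then Complex.I else if i ≤ 4 then 1 else if i % 2 = 1 then 1 else Complex.I

/-- The number of split primes up to `x`. -/
noncomputable def nsplit (m : ℕ) (x : ℝ) : ℕ :=
  {l : ℕ | l.Prime ∧ (l : ℝ) ≤ x ∧ ¬ l ∣ 2 * m ∧ IsSquare (-(m : ZMod l))}.ncard

end Pool.Agent.P.MP_b75a1e_co.EG
end

-- part Pool.Agent.P.MP_b75a1e_co.EGT1a
section

set_option autoImplicit false

/-! Few moduli have few split primes in a long range. -/

open Finset

namespace Pool.Agent.P.MP_b75a1e_co.EG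

/-- The Jacobi symbol as a multiplicative map in the numerator. -/
def egtJ (d : ℕ) : ℤ →* ℤ where
  toFun a := jacobiSym a d
  map_one' := jacobiSym.one_left d
  map_mul' a b := jacobiSym.mul_left a b d

theorem egt_abs (a : ℤ) (d : ℕ) : |jacobiSym a d| ≤ 1 := by
  rcases jacobiSym.trichotomy a d with h | h | h <;> simp [h]

theorem egt_neg {m m' q : ℕ} (hm : Squarefree m) (h0 : m' ≠ 0) (ho : Odd m) (hq : q.Prime)
    (h1 : q ∣ m) (h2 : ¬ q ∣ m') : ∃ a : ℕ, jacobiSym a (m * m') = -1 := by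
  obtain ⟨c, rfl⟩ := h1
  have := Fact.mk hq
  have hc : c ≠ 0 := fun h => by simp [h] at hm
  have hq2 : q ≠ 2 := fun h => by
    rw [h] at ho
    exact (Nat.not_odd_iff_even.2 (even_two_mul c)) ho
  have hco : q.Coprime (c * m') := Nat.Coprime.mul_right (Nat.coprime_of_squarefree_mul hm)
    (hq.coprime_iff_not_dvd.2 h2)
  obtain ⟨b, hb⟩ := FiniteField.exists_nonsquare (F := ZMod q) (by rwa [ZMod.ringChar_zmod_n])
  obtain ⟨a, ha1, ha2⟩ := Nat.chineseRemainder hco b.val 1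
  refine ⟨a, ?_⟩
  have e1 : jacobiSym a q = -1 := by
    rw [← jacobiSym.legendreSym.to_jacobiSym, legendreSym.eq_neg_one_iff']
    rwa [(ZMod.natCast_eq_natCast_iff _ _ _).2 ha1, ZMod.natCast_zmod_val]
  have e2 : jacobiSym a (c * m') = 1 := by
    rw [jacobiSym.mod_left' (a₂ := 1) (by exact_mod_cast Int.natCast_modEq_iff.2 ha2),
      jacobiSym.one_left]
  rw [mul_assoc, jacobiSym.mul_right' _ hq.ne_zero (mul_ne_zero hc h0), e1, e2, mul_one]

theorem egt_period {d : ℕ} (hd : d ≠ 0) {a : ℕ} (ha : jacobiSym a d = -1) :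
    ∑ n ∈ range d, jacobiSym n d = 0 := by
  have : NeZero d := ⟨hd⟩
  have h1 : ∑ n ∈ range d, jacobiSym n d = ∑ x : ZMod d, jacobiSym (x.val : ℕ) d :=
    sum_bij' (fun n _ => (n : ZMod d)) (fun x _ => x.val) (fun _ _ => mem_univ _)
      (fun x _ => mem_range.2 (ZMod.val_lt x)) (fun n hn => ZMod.val_cast_of_lt (mem_range.1 hn))
      (fun x _ => ZMod.natCast_zmod_val x)
      fun n hn => by rw [ZMod.val_cast_of_lt (mem_range.1 hn)]
  have hc : a.Coprime d := by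
    by_contra h
    rw [(jacobiSym.eq_zero_iff_not_coprime).2 (by simpa using h)] at ha
    exact absurd ha (by norm_num)
  have h2 := Equiv.sum_comp (ZMod.unitOfCoprime a hc).mulLeft
    fun x : ZMod d => jacobiSym (x.val : ℕ) d
  have h3 : ∀ x : ZMod d, jacobiSym (((ZMod.unitOfCoprime a hc).mulLeft x).val : ℕ) d =
      -jacobiSym (x.val : ℕ) d := fun x => by
    rw [Units.mulLeft_apply, ZMod.coe_unitOfCoprime, ZMod.val_mul, ZMod.val_natCast,
      Nat.mod_mul_mod, Int.natCast_mod, ← jacobiSym.mod_left, Nat.cast_mul, jacobiSym.mul_left, ha,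
      neg_one_mul]
  simp only [h3, sum_neg_distrib] at h2
  omega

theorem egt_part {d : ℕ} (hd : d ≠ 0) (h0 : ∑ n ∈ range d, jacobiSym n d = 0) (X : ℕ) :
    ∑ n ∈ range X, jacobiSym n d ≤ d := by
  induction X using Nat.strong_induction_on with
  | _ X ih =>
    rcases lt_or_ge X d with h | h
    · refine (sum_le_card_nsmul _ _ 1 fun n _ => (le_abs_self _).trans (egt_abs _ _)).trans ?_
      simpa using h.le
    · obtain ⟨Y, rfl⟩ := Nat.exists_eq_add_of_le h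
      rw [sum_range_add, h0, zero_add]
      refine le_trans (le_of_eq (sum_congr rfl fun n _ => ?_)) (ih Y (by omega))
      exact jacobiSym.mod_left' (by push_cast; simp)

theorem egt_gram {B : Finset ℕ} {M : ℕ} (hB : ∀ m ∈ B, Squarefree m ∧ Odd m ∧ m ≤ M) (X : ℕ) :
    ∑ n ∈ range X, (∑ m ∈ B, jacobiSym n m) ^ 2 ≤ B.card * X + B.card ^ 2 * M ^ 2 := by
  have h1 : ∀ m ∈ B, ∀ m' ∈ B, ∑ n ∈ range X, jacobiSym n m * jacobiSym n m' ≤
      (if m = m' then (X : ℤ) else 0) + M ^ 2 := by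
    intro m hm m' hm'
    obtain ⟨a1, a2, a3⟩ := hB m hm
    obtain ⟨b1, b2, b3⟩ := hB m' hm'
    simp only [← jacobiSym.mul_right' _ a1.ne_zero b1.ne_zero]
    split_ifs with h
    · refine (sum_le_card_nsmul _ _ 1 fun n _ => (le_abs_self _).trans (egt_abs _ _)).trans ?_
      simp
    · have h2 : ∃ a : ℕ, jacobiSym a (m * m') = -1 := by
        by_contra h3
        refine h ((Nat.Squarefree.ext_iff a1 b1).2 fun q hq => ⟨fun h4 => ?_, fun h4 => ?_⟩)
        · by_contra h5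
          exact h3 (egt_neg a1 b1.ne_zero a2 hq h4 h5)
        · by_contra h5
          exact h3 (mul_comm m m' ▸ egt_neg b1 a1.ne_zero b2 hq h4 h5)
      obtain ⟨a, ha⟩ := h2
      have h0 := mul_ne_zero a1.ne_zero b1.ne_zero
      refine (egt_part h0 (egt_period h0 ha) X).trans ?_
      rw [zero_add, sq]
      exact_mod_cast Nat.mul_le_mul a3 b3
  simp only [sq (∑ m ∈ B, _), sum_mul_sum]
  rw [sum_comm]
  refine (sum_le_sum fun m hm => (sum_comm.trans_le (sum_le_sum (h1 m hm)))).trans (le_of_eq ?_)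
  simp only [sum_add_distrib, sum_ite_eq, sum_const, nsmul_eq_mul]
  rw [sum_congr rfl fun m hm => if_pos hm, sum_const, nsmul_eq_mul]
  ring

theorem egt_fib {PP : Finset ℕ} (hP : ∀ l ∈ PP, l.Prime) (u n : ℕ) :
    ((Fintype.piFinset fun _ : Fin u => PP).filter fun t => ∏ i, t i = n).card ≤ u ^ u := by
  rcases eq_empty_or_nonempty {t ∈ Fintype.piFinset fun _ : Fin u => PP | ∏ i, t i = n} with h | h
  · rw [h, card_empty]
    exact Nat.zero_le _
  obtain ⟨t₀, ht₀⟩ := h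
  obtain ⟨h1, h2⟩ := mem_filter.1 ht₀
  refine (card_le_card (t := Fintype.piFinset fun _ : Fin u => univ.image t₀)
    fun t ht => ?_).trans ?_
  · obtain ⟨h3, h4⟩ := mem_filter.1 ht
    refine Fintype.mem_piFinset.2 fun i => ?_
    have h5 := hP _ (Fintype.mem_piFinset.1 h3 i)
    obtain ⟨j, -, hj⟩ := (h5.prime.dvd_finsetProd_iff t₀).1
      ((h4.trans h2.symm) ▸ dvd_prod_of_mem t (mem_univ i))
    exact mem_image.2 ⟨j, mem_univ _, ((Nat.prime_dvd_prime_iff_eq h5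
      (hP _ (Fintype.mem_piFinset.1 h1 j))).1 hj).symm⟩
  · rw [Fintype.card_piFinset_const]
    exact Nat.pow_le_pow_left (card_image_le.trans (by simp)) u

/-- The counting lemma. -/
theorem egt_count {PP B : Finset ℕ} {M x u s : ℕ} (hP : ∀ l ∈ PP, l.Prime ∧ l ≤ x)
    (hB : ∀ m ∈ B, Squarefree m ∧ Odd m ∧ m ≤ M)
    (hs : ∀ m ∈ B, (PP.filter fun l : ℕ => jacobiSym l m ≠ -1).card ≤ s)
    (h1 : 4 * s * u ≤ PP.card) (hu : 1 ≤ u)
    (h2 : 8 * u ^ u * M ^ 2 ≤ PP.card ^ u) (h3 : 0 < PP.card) :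
    B.card * PP.card ^ u ≤ 8 * u ^ u * (x ^ u + 1) := by
  set F := Fintype.piFinset fun _ : Fin u => PP with hF
  set T : ℕ → ℤ := fun n => ∑ m ∈ B, jacobiSym n m with hT
  have hc : F.card = PP.card ^ u := Fintype.card_piFinset_const _ _
  have a1 : ∀ m ∈ B, (PP.card : ℤ) ^ u ≤ 2 * ∑ t ∈ F, (-1) ^ u * jacobiSym (∏ i, t i : ℕ) m := by
    intro m hm
    have e1 : ∑ t ∈ F, (-1) ^ u * jacobiSym (∏ i, t i : ℕ) m = (∑ l ∈ PP, -jacobiSym l m) ^ u := by
      rw [sum_pow']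
      refine sum_congr rfl fun t _ => ?_
      rw [prod_neg, card_univ, Fintype.card_fin, Nat.cast_prod]
      exact congrArg _ (map_prod (egtJ m) _ _)
    have e2 : (PP.card : ℤ) - 2 * s ≤ ∑ l ∈ PP, -jacobiSym l m := by
      have : ∑ l ∈ PP, (1 - if jacobiSym l m ≠ -1 then 2 else 0 : ℤ) ≤
          ∑ l ∈ PP, -jacobiSym l m := sum_le_sum fun l _ => by
        have := (abs_le.1 (egt_abs l m)).2
        split_ifs with h
        · omega
        · omega
      rw [sum_sub_distrib, ← sum_filter, sum_const, sum_const] at this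
      have h4 : ((PP.filter fun l : ℕ => jacobiSym l m ≠ -1).card : ℤ) ≤ s := by
        exact_mod_cast hs m hm
      simp only [nsmul_eq_mul] at this
      linarith
    have h4 : (4 : ℝ) * s * u ≤ PP.card := by exact_mod_cast h1
    have h5 : (1 : ℝ) ≤ u := by exact_mod_cast hu
    have h6 : (0 : ℝ) < PP.card := by exact_mod_cast h3
    have h7 : (0 : ℝ) ≤ s := Nat.cast_nonneg s
    have h8 : 2 * s / (PP.card : ℝ) ≤ 1 := by
      rw [div_le_one h6]
      nlinarith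
    have h9 := one_add_mul_le_pow (a := -(2 * s / (PP.card : ℝ))) (by linarith) u
    have h10 : u * (2 * s / (PP.card : ℝ)) ≤ 1 / 2 := by
      rw [← mul_div_assoc, div_le_iff₀ h6]
      linarith
    have h11 : (PP.card : ℝ) ^ u ≤ 2 * ((PP.card : ℝ) - 2 * s) ^ u := by
      have : (PP.card : ℝ) - 2 * s = PP.card * (1 + -(2 * s / (PP.card : ℝ))) := by
        field_simp
        ring
      rw [this, mul_pow]
      nlinarith [pow_pos h6 u]
    have h12 : (PP.card : ℤ) ^ u ≤ 2 * ((PP.card : ℤ) - 2 * s) ^ u := by exact_mod_cast h11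
    have h13 : (0 : ℤ) ≤ PP.card - 2 * s := by
      have : 2 * s ≤ PP.card := by nlinarith
      omega
    rw [e1]
    linarith [pow_le_pow_left₀ h13 e2 u]
  have a2 : (B.card : ℤ) * PP.card ^ u ≤ 2 * ∑ t ∈ F, (-1) ^ u * T (∏ i, t i) := by
    simp only [hT, mul_sum B]
    rw [sum_comm, mul_sum, ← nsmul_eq_mul]
    exact card_nsmul_le_sum _ _ _ a1
  have a3 : (∑ t ∈ F, (-1) ^ u * T (∏ i, t i)) ^ 2 ≤ PP.card ^ u * ∑ t ∈ F, T (∏ i, t i) ^ 2 := by
    have := sq_sum_le_card_mul_sum_sq (s := F) (f := fun t => (-1) ^ u * T (∏ i, t i))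
    simp only [mul_pow, ← pow_mul, mul_comm u 2, pow_mul (-1 : ℤ) 2, neg_one_sq, one_pow, one_mul,
      hc] at this
    exact_mod_cast this
  have a4 : ∑ t ∈ F, T (∏ i, t i) ^ 2 ≤ u ^ u * ∑ n ∈ range (x ^ u + 1), T n ^ 2 := by
    rw [← sum_fiberwise_of_maps_to (t := range (x ^ u + 1)) (g := fun t => ∏ i, t i) fun t ht =>
      mem_range.2 (Nat.lt_succ_of_le ((prod_le_pow_card _ _ x fun i _ =>
        (hP _ (Fintype.mem_piFinset.1 ht i)).2).trans (by simp))), mul_sum]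
    refine sum_le_sum fun n _ => ?_
    rw [sum_congr rfl fun t ht => by rw [(mem_filter.1 ht).2], sum_const, nsmul_eq_mul]
    exact mul_le_mul_of_nonneg_right (by exact_mod_cast egt_fib (fun l hl => (hP l hl).1) u n)
      (sq_nonneg _)
  have a5 := egt_gram hB (x ^ u + 1)
  have h4 : (8 : ℤ) * u ^ u * M ^ 2 ≤ PP.card ^ u := by exact_mod_cast h2
  have h5 : (0 : ℤ) < PP.card ^ u := by positivity
  rcases Nat.eq_zero_or_pos B.card with h6 | h6
  · rw [h6, zero_mul]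
    exact Nat.zero_le _
  have h7 : (0 : ℤ) < B.card := by exact_mod_cast h6
  zify
  push_cast at a5
  generalize (PP.card : ℤ) ^ u = Q at *
  generalize (B.card : ℤ) = R at *
  generalize (x : ℤ) ^ u + 1 = X at *
  have a6 := pow_le_pow_left₀ (mul_pos h7 h5).le a2 2
  have a7 := mul_le_mul_of_nonneg_left
    (a4.trans (mul_le_mul_of_nonneg_left a5 (by positivity))) h5.le
  have a8 := mul_le_mul_of_nonneg_left h4 (mul_pos (mul_pos h7 h7) h5).le
  refine le_of_mul_le_mul_left ?_ (mul_pos h7 h5)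
  nlinarith

theorem egt_split {m l : ℕ} (hm : m % 4 = 3) (hl : l.Prime) (h2 : l ≠ 2)
    (h : jacobiSym l m ≠ -1) : ∃ r : ℕ, l ∣ r ^ 2 + m := by
  have := Fact.mk hl
  have ho := hl.odd_of_ne_two h2
  have hmo : Odd m := Nat.odd_iff.2 (by omega)
  have e : jacobiSym (-(m : ℤ)) l = jacobiSym l m := by
    rw [jacobiSym.neg _ ho]
    rcases Nat.odd_mod_four_iff.1 (Nat.odd_iff.1 ho) with h1 | h1
    · rw [ZMod.χ₄_nat_one_mod_four h1, jacobiSym.quadratic_reciprocity_one_mod_four' hmo h1, one_mul]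
    · rw [ZMod.χ₄_nat_three_mod_four h1, jacobiSym.quadratic_reciprocity_three_mod_four hm h1]
      ring
  rw [← e, ← jacobiSym.legendreSym.to_jacobiSym, Ne, legendreSym.eq_neg_one_iff, not_not] at h
  obtain ⟨r, hr⟩ := h
  refine ⟨r.val, (ZMod.natCast_eq_zero_iff _ _).1 ?_⟩
  push_cast at hr ⊢
  rw [ZMod.natCast_zmod_val, sq, ← hr, neg_add_cancel]

theorem egt_primes {k : ℕ} (hk : 2 ≤ k) :
    2 ^ (1001 * k) ≤ 2002 * k * ((Ioc (2 ^ (990 * k)) (2 ^ (1001 * k))).filter Nat.Prime).card := by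
  set n := 2 ^ (1001 * k) with hn
  set y := 2 ^ (990 * k) with hy
  set P := ((Ioc y n).filter Nat.Prime).card with hP
  have h0 : 0 < n := by positivity
  have h1 : (Nat.primesLE n).card ≤ P + y := by
    refine (card_le_card (t := (Ioc y n).filter Nat.Prime ∪ Ioc 0 y) fun q hq => ?_).trans
      ((card_union_le _ _).trans (by simp [hP]))
    obtain ⟨h2, h3⟩ := Nat.mem_primesLE.1 hq
    have := h3.pos
    simp only [mem_union, mem_filter, mem_Ioc, h3, and_true]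
    omega
  have h2 : Nat.lcmUpto n ≤ n ^ (P + y) := by
    rw [Nat.lcmUpto_eq_prod_pow_log]
    exact (prod_le_pow_card _ _ n fun q _ => Nat.pow_log_le_self q h0.ne').trans
      (Nat.pow_le_pow_right h0 h1)
  have h3 : 2 ^ n ≤ 2 ^ (1001 * k + 1 + 1001 * k * (P + y)) := by
    refine (Chebyshev.two_pow_le_mul_lcmUpto n).trans ?_
    rw [pow_add, pow_succ, pow_mul 2 (1001 * k), ← hn]
    exact Nat.mul_le_mul (by omega) h2
  have h4 := (Nat.pow_le_pow_iff_right one_lt_two).1 h3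
  have h5 : 8008 * k ≤ 2 ^ (11 * k) := by
    have h6 : k ≤ 2 ^ k := Nat.lt_two_pow_self.le
    have h7 : 2 ^ 20 ≤ 2 ^ (10 * k) := Nat.pow_le_pow_right two_pos (by omega)
    rw [show 11 * k = 10 * k + k by ring, pow_add]
    exact Nat.mul_le_mul (le_trans (by norm_num) h7) h6
  have h6 : 8008 * k * y ≤ n := by
    rw [hn, show 1001 * k = 11 * k + 990 * k by ring, pow_add]
    exact Nat.mul_le_mul_right _ h5
  have h7 : k * 1 ≤ k * y := Nat.mul_le_mul_left _ Nat.one_le_two_pow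
  nlinarith

theorem egt_log {j : ℕ} (hj : 100 ≤ j) : 400 * 10 ^ 15 * (j + 1) ^ 3 ≤ 2 ^ j := by
  induction j, hj using Nat.le_induction with
  | base => norm_num
  | succ j hj ih =>
    have : (j + 1 + 1) ^ 3 ≤ 2 * (j + 1) ^ 3 := by
      obtain ⟨i, rfl⟩ := Nat.exists_eq_add_of_le hj
      ring_nf
      omega
    rw [pow_succ]
    omega

theorem few_sparse : ∃ (C : ℝ) (p₀ : ℕ), ∀ p ≥ p₀, ∃ k : ℕ, 20 * (Nat.log 2 p + 1) ≤ k ∧
    10 ^ 15 * k ^ 2 * (Nat.log 2 p + 1) ≤ p ∧ ∀ B : Finset ℕ,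
      (∀ m ∈ B, Squarefree m ∧ m % 4 = 3 ∧ (∀ q, q.Prime → q ∣ m → q ≤ p) ∧
        ∀ PP : Finset ℕ, (∀ l ∈ PP, l.Prime ∧ 2 ^ (990 * k) < l ∧ l ≤ 2 ^ (1001 * k) ∧
          ∃ r : ℕ, l ∣ r ^ 2 + m) → PP.card < 2 ^ (998 * k)) →
      (B.card : ℝ) ≤ Real.exp (C * √(p * Real.log p ^ 3)) := by
  refine ⟨10 ^ 9, 2 ^ 100, fun p hp => ?_⟩
  have hp0 : p ≠ 0 := by omega
  have hj : 100 ≤ Nat.log 2 p := Nat.le_log_of_pow_le one_lt_two hp
  have hl1 := (egt_log hj).trans (Nat.pow_log_le_self 2 hp0)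
  have hl2 : p < 2 ^ (Nat.log 2 p + 1) := Nat.lt_pow_succ_log_self one_lt_two p
  set j := Nat.log 2 p + 1 with hjd
  set k := Nat.sqrt (p / (10 ^ 15 * j)) with hk
  have hj0 : 0 < 10 ^ 15 * j := by positivity
  have k1 : 20 * j ≤ k := Nat.le_sqrt'.2 ((Nat.le_div_iff_mul_le hj0).2
    (le_trans (le_of_eq (by ring)) hl1))
  have k2 : 10 ^ 15 * k ^ 2 * j ≤ p :=
    le_trans (le_of_eq (by ring)) ((Nat.le_div_iff_mul_le hj0).1 (Nat.sqrt_le' _))
  have k3 : p < (k + 1) ^ 2 * (10 ^ 15 * j) :=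
    (Nat.div_lt_iff_lt_mul hj0).1 (Nat.lt_succ_sqrt' _)
  refine ⟨k, k1, k2, fun B hB => ?_⟩
  have k0 : 2020 ≤ k := by omega
  have kp : k ≤ p := by nlinarith
  have hP := egt_primes (by omega : 2 ≤ k)
  set PP := (Ioc (2 ^ (990 * k)) (2 ^ (1001 * k))).filter Nat.Prime with hPP
  set u := p / k + 1 with hu
  have u0 : 1 ≤ u := Nat.le_add_left _ _
  have u1 : p < k * u := Nat.lt_mul_div_succ p (by omega)
  have u2 : k * u ≤ 2 * p := by
    have := Nat.mul_div_le p k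
    rw [hu, mul_add]
    omega
  have u3 : u ≤ 2 ^ j := by
    have := Nat.div_le_self p k
    omega
  have hP1 : 2 ^ (1000 * k) ≤ PP.card := by
    have h1 : 2002 * k ≤ 2 ^ k := by
      obtain ⟨i, hi⟩ := Nat.exists_eq_add_of_le (by omega : 22 ≤ k)
      have h2 : i < 2 ^ i := Nat.lt_two_pow_self
      rw [hi, pow_add]
      omega
    refine Nat.le_of_mul_le_mul_left ?_ (by positivity : 0 < 2 ^ k)
    rw [← pow_add, show k + 1000 * k = 1001 * k by ring]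
    exact hP.trans (Nat.mul_le_mul_right _ h1)
  have hP0 : 0 < PP.card := lt_of_lt_of_le (by positivity) hP1
  have key := egt_count (PP := PP) (B := B) (M := 4 ^ p) (x := 2 ^ (1001 * k)) (u := u)
    (s := 2 ^ (998 * k)) (fun l hl => ⟨(mem_filter.1 hl).2, (mem_Ioc.1 (mem_filter.1 hl).1).2⟩)
    (fun m hm => ?_) (fun m hm => ?_) ?_ u0 ?_ hP0
  rotate_left
  · obtain ⟨h1, h2, h3, -⟩ := hB m hm
    refine ⟨h1, Nat.odd_iff.2 (by omega), le_trans ?_ (primorial_le_four_pow p)⟩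
    rw [← Nat.prod_primeFactors_of_squarefree h1]
    refine Nat.le_of_dvd (primorial_pos p) (prod_dvd_prod_of_subset _ _ _ fun q hq => ?_)
    have h4 := Nat.prime_of_mem_primeFactors hq
    exact mem_filter.2 ⟨mem_range.2 (Nat.lt_succ_of_le (h3 q h4 (Nat.dvd_of_mem_primeFactors hq))), h4⟩
  · obtain ⟨-, h2, -, h3⟩ := hB m hm
    refine (h3 _ fun l hl => ?_).le
    obtain ⟨h4, h5⟩ := mem_filter.1 hl
    obtain ⟨h6, h7⟩ := mem_filter.1 h4
    obtain ⟨h8, h9⟩ := mem_Ioc.1 h6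
    refine ⟨h7, h8, h9, egt_split h2 h7 (fun h => ?_) h5⟩
    have : 2 ^ 1 ≤ 2 ^ (990 * k) := Nat.pow_le_pow_right two_pos (by omega)
    omega
  · refine le_trans ?_ hP1
    refine (Nat.mul_le_mul_left _ u3).trans ?_
    rw [show 4 = 2 ^ 2 by norm_num, ← pow_add, ← pow_add]
    exact Nat.pow_le_pow_right two_pos (by omega)
  · refine le_trans ?_ (Nat.pow_le_pow_left hP1 u)
    refine (Nat.mul_le_mul_right _ (Nat.mul_le_mul_left _ (Nat.pow_le_pow_left
      (u3.trans (Nat.pow_le_pow_right two_pos (by omega : j ≤ k))) u))).trans ?_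
    rw [show 8 = 2 ^ 3 by norm_num, show 4 = 2 ^ 2 by norm_num, ← pow_mul, ← pow_mul, ← pow_mul,
      ← pow_mul, ← pow_add, ← pow_add]
    refine Nat.pow_le_pow_right two_pos ?_
    rw [mul_assoc 1000]
    omega
  have a1 : B.card ≤ p ^ (2 * u + 1) := by
    refine Nat.le_of_mul_le_mul_right (key.trans ?_) (pow_pos hP0 u)
    have h1 : 0 < (2 ^ (1001 * k)) ^ u := by positivity
    have h2 := Nat.pow_le_pow_left hP u
    have h3 : (u * (2002 * k)) ^ u ≤ (p ^ 2) ^ u := Nat.pow_le_pow_left (by nlinarith) u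
    calc _ ≤ 8 * u ^ u * (2 * (2002 * k * PP.card) ^ u) := Nat.mul_le_mul_left _ (by omega)
      _ = 16 * (u * (2002 * k)) ^ u * PP.card ^ u := by simp only [mul_pow]; ring
      _ ≤ p * (p ^ 2) ^ u * PP.card ^ u :=
        Nat.mul_le_mul_right _ (Nat.mul_le_mul (by omega) h3)
      _ = _ := by ring
  have hp1 : (3 : ℝ) ≤ p := by exact_mod_cast (by omega : 3 ≤ p)
  have l1 : 1 ≤ Real.log p := by
    rw [Real.le_log_iff_exp_le (by linarith)]
    linarith [Real.exp_one_lt_d9]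
  have l2 : (j : ℝ) ≤ 3 * Real.log p := by
    have h1 : ((2 : ℝ) ^ Nat.log 2 p) ≤ p := by exact_mod_cast Nat.pow_log_le_self 2 hp0
    have h2 := Real.log_le_log (by positivity) h1
    rw [Real.log_pow] at h2
    have h3 : (0 : ℝ) ≤ Nat.log 2 p := Nat.cast_nonneg _
    rw [hjd]
    push_cast
    nlinarith [Real.log_two_gt_d9]
  have a2 : (2 * u + 1) ^ 2 ≤ 10 ^ 17 * p * j := by
    have h1 : k * (2 * u + 1) ≤ 5 * p := by nlinarith
    have h2 : p ≤ (2 * k) ^ 2 * (10 ^ 15 * j) :=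
      k3.le.trans (Nat.mul_le_mul_right _ (Nat.pow_le_pow_left (by omega) 2))
    refine Nat.le_of_mul_le_mul_left ?_ (by positivity : 0 < k ^ 2)
    calc _ = (k * (2 * u + 1)) ^ 2 := by ring
      _ ≤ (5 * p) ^ 2 := Nat.pow_le_pow_left h1 2
      _ = 25 * p * p := by ring
      _ ≤ 25 * p * ((2 * k) ^ 2 * (10 ^ 15 * j)) := Nat.mul_le_mul_left _ h2
      _ = _ := by ring
  have a3 : ((2 * u + 1 : ℕ) : ℝ) ^ 2 ≤ 10 ^ 17 * p * j := by exact_mod_cast a2
  have a4 : (B.card : ℝ) ≤ (p : ℝ) ^ (2 * u + 1) := by exact_mod_cast a1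
  refine a4.trans ?_
  rw [← Real.exp_log (by positivity : (0 : ℝ) < (p : ℝ) ^ (2 * u + 1)), Real.log_pow,
    Real.exp_le_exp]
  refine abs_le_of_sq_le_sq' ?_ (by positivity) |>.2
  rw [mul_pow, mul_pow, Real.sq_sqrt (by positivity)]
  have a5 := mul_le_mul_of_nonneg_left l2 (by positivity : (0 : ℝ) ≤ 10 ^ 17 * p)
  have a6 := mul_le_mul_of_nonneg_right (a3.trans a5) (sq_nonneg (Real.log p))
  have a7 : (0 : ℝ) ≤ p * Real.log p ^ 3 := by positivity
  nlinarith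

end Pool.Agent.P.MP_b75a1e_co.EG
end

-- part Pool.Agent.P.MP_b75a1e_co.FLStep0
section

set_option autoImplicit false

open Finset Polynomial
open scoped BigOperators

namespace Pool.Agent.P.MP_b75a1e_co.EG

theorem one_FLStep0 (l : ℕ) [Fact l.Prime] (hl : l ≠ 2) (A : Finset (ZMod l)) (hA : A.Nonempty)
    (h0 : (0 : ZMod l) ∉ A) (b : ℕ) (hb : 2 * b + A.card ≤ l + 1) (r s : (ZMod l)[X])
    (hr : r.degree < b) (hs : s.degree < b)
    (h : X ^ l ∣ r + s * (∏ a ∈ A, (X + C a)) ^ (l / 2)) : r = 0 ∧ s = 0 := by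
  classical
  have hp : l.Prime := Fact.out
  have hodd : 2 * (l / 2) + 1 = l := by
    have := hp.eq_two_or_odd
    omega
  set f : (ZMod l)[X] := ∏ a ∈ A, (X + C a) with hf
  have hfm : f.Monic := monic_prod_of_monic _ _ fun a _ => monic_X_add_C a
  have hfd : f.natDegree = A.card := by
    rw [hf, natDegree_prod_of_monic _ _ fun a _ => monic_X_add_C a]
    simp
  have hf0 : f.coeff 0 ≠ 0 := by
    rw [coeff_zero_eq_eval_zero, hf, eval_prod]
    refine prod_ne_zero_iff.2 fun a ha => ?_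
    have : a ≠ 0 := fun e => h0 (e ▸ ha)
    simpa using this
  have hcard : 1 ≤ A.card := hA.card_pos
  have hfl : X ^ l ∣ f ^ l - C (f.coeff 0) ^ l := by
    have e : f = X * f.divX + C (f.coeff 0) := (X_mul_divX_add f).symm
    have e2 : f ^ l = (X * f.divX) ^ l + C (f.coeff 0) ^ l := by
      conv_lhs => rw [e]
      exact add_pow_char _ _ l
    rw [e2, add_sub_cancel_right, mul_pow]
    exact dvd_mul_right _ _
  have hd : X ^ l ∣ r ^ 2 * f - s ^ 2 * C (f.coeff 0) ^ l := by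
    have e : r ^ 2 * f - s ^ 2 * C (f.coeff 0) ^ l
        = (r + s * f ^ (l / 2)) * ((r - s * f ^ (l / 2)) * f)
          + s ^ 2 * (f ^ l - C (f.coeff 0) ^ l) := by
      have e3 : f ^ l = f ^ (l / 2) * f ^ (l / 2) * f := by
        rw [← pow_add, ← pow_succ]
        exact congrArg (fun k => f ^ k) (by omega)
      rw [e3]
      ring
    rw [e]
    exact dvd_add (dvd_mul_of_dvd_left h _) (dvd_mul_of_dvd_right hfl _)
  rcases Nat.eq_zero_or_pos b with hb0 | hb0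
  · subst hb0
    constructor
    · by_contra hne
      rw [degree_eq_natDegree hne] at hr
      exact absurd (by exact_mod_cast hr : r.natDegree < 0) (Nat.not_lt_zero _)
    · by_contra hne
      rw [degree_eq_natDegree hne] at hs
      exact absurd (by exact_mod_cast hs : s.natDegree < 0) (Nat.not_lt_zero _)
  have hr' : r.natDegree < b := by
    by_cases e : r = 0
    · rw [e, natDegree_zero]; exact hb0
    · exact (natDegree_lt_iff_degree_lt e).2 hr
  have hs' : s.natDegree < b := by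
    by_cases e : s = 0
    · rw [e, natDegree_zero]; exact hb0
    · exact (natDegree_lt_iff_degree_lt e).2 hs
  have hdeg : (r ^ 2 * f - s ^ 2 * C (f.coeff 0) ^ l).natDegree < l := by
    have a1 : (r ^ 2 * f).natDegree ≤ 2 * r.natDegree + A.card := by
      refine natDegree_mul_le.trans ?_
      rw [hfd]
      exact Nat.add_le_add_right natDegree_pow_le _
    have a2 : (s ^ 2 * C (f.coeff 0) ^ l).natDegree ≤ 2 * s.natDegree := by
      rw [← C_pow]
      refine natDegree_mul_le.trans ?_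
      rw [natDegree_C, add_zero]
      exact natDegree_pow_le
    have a3 := natDegree_sub_le (r ^ 2 * f) (s ^ 2 * C (f.coeff 0) ^ l)
    have a4 : max (r ^ 2 * f).natDegree (s ^ 2 * C (f.coeff 0) ^ l).natDegree < l :=
      max_lt (by omega) (by omega)
    omega
  have hz : r ^ 2 * f - s ^ 2 * C (f.coeff 0) ^ l = 0 :=
    eq_zero_of_dvd_of_natDegree_lt hd (by rw [natDegree_X_pow]; exact hdeg)
  have hz' : r ^ 2 * f = s ^ 2 * C (f.coeff 0 ^ l) := by
    rw [C_pow]; exact sub_eq_zero.1 hz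
  have hC : (C (f.coeff 0 ^ l) : (ZMod l)[X]) ≠ 0 := C_ne_zero.2 (pow_ne_zero _ hf0)
  have hr0 : r = 0 := by
    by_contra hne
    obtain ⟨a, ha⟩ := hA
    have hL : r ^ 2 * f ≠ 0 := mul_ne_zero (pow_ne_zero _ hne) hfm.ne_zero
    have hR : s ^ 2 * C (f.coeff 0 ^ l) ≠ 0 := hz' ▸ hL
    have hs0 : s ≠ 0 := fun e => hR (by rw [e]; ring)
    have m1 : rootMultiplicity (-a) f = 1 := by
      have e : f = (X - C (-a)) * ∏ c ∈ A.erase a, (X + C c) := by
        rw [hf, ← mul_prod_erase A _ ha, C_neg, sub_neg_eq_add]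
      have hne2 : (X - C (-a)) * ∏ c ∈ A.erase a, (X + C c) ≠ 0 := e ▸ hfm.ne_zero
      rw [e, rootMultiplicity_mul hne2, rootMultiplicity_X_sub_C_self,
        rootMultiplicity_eq_zero]
      rw [IsRoot.def, eval_prod]
      refine prod_ne_zero_iff.2 fun c hc => ?_
      have hca : c ≠ a := (mem_erase.1 hc).1
      simp only [eval_add, eval_X, eval_C]
      intro e
      exact hca (by linear_combination e)
    have m2 := congrArg (rootMultiplicity (-a)) hz'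
    rw [rootMultiplicity_mul hL, rootMultiplicity_mul hR, m1, rootMultiplicity_C, pow_two, pow_two,
      rootMultiplicity_mul (mul_ne_zero hne hne), rootMultiplicity_mul (mul_ne_zero hs0 hs0)] at m2
    omega
  refine ⟨hr0, ?_⟩
  rw [hr0] at hz'
  have : s ^ 2 * C (f.coeff 0 ^ l) = 0 := by rw [← hz']; ring
  exact pow_eq_zero_iff (two_ne_zero) |>.1 ((mul_eq_zero.1 this).resolve_right hC)

theorem step_ne (l : ℕ) [Fact l.Prime] (hl : l ≠ 2) (A : Finset (ZMod l)) (hA : A.Nonempty)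
    (h0 : (0 : ZMod l) ∉ A) (b : ℕ) (hb : 2 * b + A.card ≤ l + 1) (J : ℕ) (r s : ℕ → (ZMod l)[X])
    (hr : ∀ j, (r j).degree < b) (hs : ∀ j, (s j).degree < b)
    (h : ∑ j ∈ range J, (r j + s j * (∏ a ∈ A, (X + C a)) ^ (l / 2)) * X ^ (j * l) = 0) :
    ∀ j < J, r j = 0 ∧ s j = 0 := by
  induction J generalizing r s with
  | zero => intro j hj; exact absurd hj (Nat.not_lt_zero _)
  | succ J ih =>
    rw [sum_range_succ'] at h
    have e : ∑ j ∈ range J,
        (r (j + 1) + s (j + 1) * (∏ a ∈ A, (X + C a)) ^ (l / 2)) * X ^ ((j + 1) * l)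
        = X ^ l * ∑ j ∈ range J,
          (r (j + 1) + s (j + 1) * (∏ a ∈ A, (X + C a)) ^ (l / 2)) * X ^ (j * l) := by
      rw [mul_sum]
      refine sum_congr rfl fun j _ => ?_
      rw [add_mul j 1 l, one_mul, pow_add]
      ring
    rw [e, zero_mul, pow_zero, mul_one] at h
    have hd : X ^ l ∣ r 0 + s 0 * (∏ a ∈ A, (X + C a)) ^ (l / 2) := by
      rw [eq_neg_of_add_eq_zero_right h]
      exact (dvd_mul_right _ _).neg_right
    have h00 := one_FLStep0 l hl A hA h0 b hb (r 0) (s 0) (hr 0) (hs 0) hd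
    rw [h00.1, h00.2, zero_mul, add_zero, add_zero] at h
    have h1 := (mul_eq_zero.1 h).resolve_left (pow_ne_zero _ X_ne_zero)
    have ih' := ih (fun j => r (j + 1)) (fun j => s (j + 1)) (fun j => hr _) (fun j => hs _) h1
    intro j hj
    rcases j with _ | j
    · exact h00
    · exact ih' j (Nat.lt_of_succ_lt_succ hj)

end Pool.Agent.P.MP_b75a1e_co.EG
end

-- part Pool.Agent.P.MP_b75a1e_co.EGBasic0
section

set_option autoImplicit false

open Finset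
open scoped BigOperators ComplexConjugate

namespace Pool.Agent.P.MP_b75a1e_co.EG

variable {m : ℕ}

theorem ph_re (x : O m) : (ph m x).re = x.re := by
  simp [ph, Zsqrtd.lift]

theorem ph_im (x : O m) : (ph m x).im = x.im * Real.sqrt m := by
  simp [ph, Zsqrtd.lift]

theorem ph_star (x : O m) : ph m (star x) = conj (ph m x) := by
  apply Complex.ext <;> simp [ph_re, ph_im]

theorem norm_eq (x : O m) : x.norm = x.re ^ 2 + m * x.im ^ 2 := by
  rw [Zsqrtd.norm_def]; ring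

theorem norm_nonneg' (x : O m) : 0 ≤ x.norm := by
  rw [norm_eq]; positivity

theorem norm_sq_ph (x : O m) : ‖ph m x‖ ^ 2 = (x.norm : ℝ) := by
  rw [← Complex.normSq_eq_norm_sq, Complex.normSq_apply, ph_re, ph_im, norm_eq]
  have := Real.mul_self_sqrt (Nat.cast_nonneg (α := ℝ) m)
  push_cast
  linear_combination (x.im : ℝ) ^ 2 * this

theorem norm_pos' (hm : 1 ≤ m) {x : O m} (hx : x ≠ 0) : 1 ≤ x.norm := by
  have h1 := norm_nonneg' x
  have h2 : x.norm ≠ 0 := fun h => hx ((Zsqrtd.norm_eq_zero_iff (by omega) x).1 h)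
  omega

theorem ph_ne_zero (hm : 1 ≤ m) {x : O m} (hx : x ≠ 0) : ph m x ≠ 0 := by
  intro h
  have h1 := norm_sq_ph x
  rw [h, norm_zero] at h1
  have h2 : (1 : ℝ) ≤ x.norm := by exact_mod_cast norm_pos' hm hx
  linarith

theorem ph_inj (hm : 1 ≤ m) : Function.Injective (ph m) := by
  intro x y h
  by_contra hne
  exact ph_ne_zero hm (sub_ne_zero.2 hne) (by rw [map_sub, h, sub_self])

theorem eq_zero_of_norm_lt (hm : 1 ≤ m) {x : O m} (hx : ‖ph m x‖ < 1) : x = 0 := by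
  by_contra h
  have h2 : (1 : ℝ) ≤ x.norm := by exact_mod_cast norm_pos' hm h
  have h1 := norm_sq_ph x
  nlinarith [norm_nonneg (ph m x)]

theorem o_cancel (hm : 1 ≤ m) {a x y : O m} (ha : a ≠ 0) (h : a * x = a * y) : x = y := by
  apply ph_inj hm
  have := congrArg (ph m) h
  rw [map_mul, map_mul] at this
  exact mul_left_cancel₀ (ph_ne_zero hm ha) this

theorem abs_re_le (x : O m) : |(x.re : ℝ)| ≤ ‖ph m x‖ := by
  rw [← ph_re]; exact Complex.abs_re_le_norm _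

theorem abs_im_le (hm : 1 ≤ m) (x : O m) : |(x.im : ℝ)| ≤ ‖ph m x‖ := by
  have h1 : (1 : ℝ) ≤ Real.sqrt m := Real.one_le_sqrt.2 (by exact_mod_cast hm)
  refine le_trans ?_ (Complex.abs_im_le_norm _)
  rw [ph_im, abs_mul, abs_of_nonneg (Real.sqrt_nonneg _)]
  exact le_mul_of_one_le_right (abs_nonneg _) h1

theorem norm_prod' {ι : Type} (s : Finset ι) (f : ι → O m) :
    (∏ i ∈ s, f i).norm = ∏ i ∈ s, (f i).norm := map_prod Zsqrtd.normMonoidHom f s

theorem norm_pow' (x : O m) (k : ℕ) : (x ^ k).norm = x.norm ^ k := map_pow Zsqrtd.normMonoidHom x k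

theorem norm_dvd_norm {x y : O m} (h : x ∣ y) : x.norm ∣ y.norm := by
  obtain ⟨c, rfl⟩ := h
  rw [Zsqrtd.norm_mul]
  exact Dvd.intro _ rfl

theorem nat_dvd_iff (n : ℕ) (x : O m) : (n : O m) ∣ x ↔ (n : ℤ) ∣ x.re ∧ (n : ℤ) ∣ x.im := by
  rw [← Zsqrtd.intCast_dvd, Int.cast_natCast]

theorem dvd_star {a x : O m} (h : a ∣ x) : star a ∣ star x := by
  obtain ⟨c, rfl⟩ := h
  rw [star_mul']
  exact Dvd.intro _ rfl

theorem rt_sq : rt m * rt m = -(m : O m) := by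
  ext <;> simp [rt]

theorem mu_eq : mu m = (m : O m) * rt m := by
  ext <;> simp [rt, mu]

theorem star_mu : star (mu m) = -mu m := by
  ext <;> simp [mu]

theorem mu_ne_zero (hm : 1 ≤ m) : mu m ≠ 0 := by
  intro h
  have := congrArg Zsqrtd.im h
  simp [mu] at this
  omega

theorem norm_mu : (mu m).norm = (m : ℤ) ^ 3 := by
  rw [norm_eq]; simp [mu]; ring

theorem one_le_norm_mu (hm : 1 ≤ m) : 1 ≤ ‖ph m (mu m)‖ := by
  by_contra h
  exact mu_ne_zero hm (eq_zero_of_norm_lt hm (not_le.1 h))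

theorem mu_dvd_sq : mu m ∣ (m : O m) ^ 2 := by
  refine ⟨-rt m, ?_⟩
  ext <;> simp [rt, mu, sq]

theorem mu_dvd_iff (x : O m) : mu m ∣ x ↔ (m : ℤ) ^ 2 ∣ x.re ∧ (m : ℤ) ∣ x.im := by
  constructor
  · rintro ⟨c, rfl⟩
    exact ⟨⟨-c.im, by simp only [mu, Zsqrtd.re_mul]; ring⟩, ⟨c.re, by simp [mu]⟩⟩
  · rintro ⟨⟨a, ha⟩, ⟨b, hb⟩⟩
    refine ⟨⟨b, -a⟩, ?_⟩
    ext
    · simp only [mu, ha, Zsqrtd.re_mul]; ring
    · simp [mu, hb]

theorem mu_mul_dv {y : O m} (h : mu m ∣ y) : mu m * dv y = y := by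
  obtain ⟨h1, h2⟩ := (mu_dvd_iff y).1 h
  ext
  · have := Int.mul_ediv_cancel' h1
    simp only [mu, dv, Zsqrtd.re_mul]
    linear_combination this
  · have := Int.mul_ediv_cancel' h2
    simp only [mu, dv, Zsqrtd.im_mul]
    linear_combination this

theorem ee_add (s t : ℝ) : ee (s + t) = ee s * ee t := by
  rw [ee, ee, ee, ← Complex.exp_add]; congr 1; push_cast; ring

theorem ee_zero : ee 0 = 1 := by
  simp [ee]

theorem ee_int (n : ℤ) : ee n = 1 := by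
  rw [ee, ← Complex.exp_int_mul_two_pi_mul_I n]; congr 1; push_cast; ring

theorem ee_neg (t : ℝ) : ee (-t) = conj (ee t) := by
  rw [ee, ee, ← Complex.exp_conj]; congr 1; simp [map_ofNat]

theorem norm_ee (t : ℝ) : ‖ee t‖ = 1 := by
  have : ee t = Complex.exp (((2 * Real.pi * t : ℝ) : ℂ) * Complex.I) := by
    rw [ee]; congr 1; push_cast; ring
  rw [this, Complex.norm_exp_ofReal_mul_I]

theorem ee_sum {ι : Type} (s : Finset ι) (f : ι → ℝ) : ee (∑ i ∈ s, f i) = ∏ i ∈ s, ee (f i) := by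
  classical
  induction s using Finset.induction_on with
  | empty => simp [ee_zero]
  | insert a s ha ih => rw [sum_insert ha, prod_insert ha, ee_add, ih]

theorem norm_ee_sub (s t : ℝ) : ‖ee s - ee t‖ ≤ 7 * |s - t| := by
  have h1 : ee s - ee t = ee t * (ee (s - t) - 1) := by
    rw [mul_sub, ← ee_add, mul_one]; congr 2; ring
  have h2 : ee (s - t) = Complex.exp (Complex.I * ((2 * Real.pi * (s - t) : ℝ) : ℂ)) := by
    rw [ee]; congr 1; push_cast; ring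
  rw [h1, norm_mul, norm_ee, one_mul, h2]
  refine Real.norm_exp_I_mul_ofReal_sub_one_le.trans ?_
  rw [Real.norm_eq_abs, abs_mul, abs_of_pos (by positivity : 0 < 2 * Real.pi)]
  exact mul_le_mul_of_nonneg_right (by linarith [Real.pi_lt_d2]) (abs_nonneg _)

/-- Geometric sums. -/
theorem geom_ee (a b δ : ℝ) (hδ : 0 < δ) (hb : ∀ z : ℤ, δ ≤ |b - z|) (N : ℕ) :
    ‖∑ v ∈ range N, ee (a + b * v)‖ ≤ 1 / (2 * δ) := by
  have hu : |b - round b| ≤ 1 / 2 := abs_sub_round b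
  have hl := hb (round b)
  set u := b - round b with hud
  have e1 : ee b = ee u := by
    have : b = u + (round b : ℤ) := by rw [hud]; ring
    rw [this, ee_add, ee_int, mul_one]
  have e2 : 4 * δ ≤ ‖ee b - 1‖ := by
    have h2 : ee u = Complex.exp (Complex.I * ((2 * Real.pi * u : ℝ) : ℂ)) := by
      rw [ee]; congr 1; push_cast; ring
    rw [e1, h2, Complex.norm_exp_I_mul_ofReal_sub_one, Real.norm_eq_abs, abs_mul, abs_two]
    have h3 : 2 * Real.pi * u / 2 = Real.pi * u := by ring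
    rw [h3]
    have h4 : |Real.pi * u| ≤ Real.pi / 2 := by
      rw [abs_mul, abs_of_pos Real.pi_pos]
      nlinarith [Real.pi_pos]
    have h5 := Real.mul_abs_le_abs_sin h4
    rw [abs_mul, abs_of_pos Real.pi_pos] at h5
    have h6 : 2 / Real.pi * (Real.pi * |u|) = 2 * |u| := by field_simp
    linarith
  have e3 : ∀ N : ℕ, (∑ v ∈ range N, ee (a + b * v)) * (ee b - 1) = ee (a + b * N) - ee a := by
    intro N
    induction N with
    | zero => simp
    | succ n ih =>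
      rw [sum_range_succ, add_mul, ih]
      have : a + b * ((n + 1 : ℕ) : ℝ) = a + b * n + b := by push_cast; ring
      rw [this, ee_add (a + b * n) b]
      ring
  have e4 : ‖∑ v ∈ range N, ee (a + b * v)‖ * ‖ee b - 1‖ ≤ 2 := by
    rw [← norm_mul, e3]
    refine (norm_sub_le _ _).trans ?_
    rw [norm_ee, norm_ee]
    norm_num
  rw [le_div_iff₀ (by positivity)]
  nlinarith [norm_nonneg (∑ v ∈ range N, ee (a + b * v))]

/-- Orthogonality. -/
theorem sum_ee_range (q : ℕ) (hq : 1 ≤ q) (x : ℤ) :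
    ∑ n ∈ Ico (0 : ℤ) q, ee ((n * x : ℤ) / q) = if (q : ℤ) ∣ x then (q : ℂ) else 0 := by
  have hq0 : (q : ℝ) ≠ 0 := by positivity
  have e0 : ∑ n ∈ Ico (0 : ℤ) q, ee ((n * x : ℤ) / q) = ∑ v ∈ range q, ee ((x : ℝ) / q) ^ v := by
    have : Ico (0 : ℤ) q = (range q).image (fun v : ℕ => (v : ℤ)) := by
      ext n
      simp only [mem_Ico, mem_image, mem_range]
      constructor
      · rintro ⟨h1, h2⟩
        exact ⟨n.toNat, by omega, by omega⟩
      · rintro ⟨v, h1, rfl⟩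
        omega
    rw [this, sum_image (fun a _ b _ h => by exact_mod_cast h)]
    refine sum_congr rfl fun v _ => ?_
    rw [ee, ee, ← Complex.exp_nat_mul]; congr 1; push_cast; ring
  rw [e0]
  split_ifs with h
  · obtain ⟨c, rfl⟩ := h
    have : (((q : ℤ) * c : ℤ) : ℝ) / q = (c : ℤ) := by push_cast; field_simp
    rw [this, ee_int]
    simp
  · have h1 : ee ((x : ℝ) / q) ≠ 1 := by
      intro h1
      rw [ee, Complex.exp_eq_one_iff] at h1
      obtain ⟨n, hn⟩ := h1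
      apply h
      have hpi : (2 * Real.pi * Complex.I : ℂ) ≠ 0 := Complex.two_pi_I_ne_zero
      have h2 : (((x : ℝ) / q : ℝ) : ℂ) = n := mul_right_cancel₀ hpi (by rw [← hn]; ring)
      have h3 : (x : ℝ) / q = n := by exact_mod_cast h2
      rw [div_eq_iff hq0] at h3
      exact ⟨n, by exact_mod_cast h3.trans (mul_comm _ _)⟩
    have h2 : ee ((x : ℝ) / q) ^ q = 1 := by
      rw [← ee_int x, ee, ee, ← Complex.exp_nat_mul]; congr 1
      have : (q : ℂ) ≠ 0 := by exact_mod_cast hq0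
      push_cast; field_simp
    rw [geom_sum_eq h1, h2, sub_self, zero_div]

theorem pr_add_left (θ θ' z : ℂ) : pr m (θ + θ') z = pr m θ z + pr m θ' z := by
  simp only [pr, add_mul, Complex.add_im, add_div]

theorem pr_add_right (θ z z' : ℂ) : pr m θ (z + z') = pr m θ z + pr m θ z' := by
  simp only [pr, mul_add, Complex.add_im, add_div]

theorem pr_sub_right (θ z z' : ℂ) : pr m θ (z - z') = pr m θ z - pr m θ z' := by
  simp only [pr, mul_sub, Complex.sub_im, sub_div]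

theorem pr_mul (θ g z : ℂ) : pr m θ (g * z) = pr m (θ * g) z := by
  simp only [pr, mul_assoc]

theorem pr_conj (θ z : ℂ) : pr m θ (conj z) = -pr m (conj θ) z := by
  simp only [pr, Complex.mul_im, Complex.conj_re, Complex.conj_im]; ring

theorem abs_pr_le (hm : 1 ≤ m) (θ z : ℂ) : |pr m θ z| ≤ ‖θ‖ * ‖z‖ := by
  have h1 : (1 : ℝ) ≤ Real.sqrt m := Real.one_le_sqrt.2 (by exact_mod_cast hm)
  rw [pr, abs_div, abs_of_nonneg (Real.sqrt_nonneg _), ← norm_mul]
  exact (div_le_self (abs_nonneg _) h1).trans (Complex.abs_im_le_norm _)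

theorem pr_ph_div (hm : 1 ≤ m) (a x : O m) (d : ℝ) :
    pr m (ph m a / d) (ph m x) = ((a * x).im : ℝ) / d := by
  have h1 : Real.sqrt m ≠ 0 := by positivity
  rw [pr, div_mul_eq_mul_div, ← map_mul, Complex.div_ofReal_im, ph_im]
  field_simp

theorem pr_coord (hm : 1 ≤ m) (θ : ℂ) (x : O m) :
    pr m θ (ph m x) = θ.re * x.im + θ.im / Real.sqrt m * x.re := by
  have h1 : Real.sqrt m ≠ 0 := by positivity
  rw [pr, Complex.mul_im, ph_re, ph_im]
  field_simp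

end Pool.Agent.P.MP_b75a1e_co.EG
end

-- part Pool.Agent.P.MP_b75a1e_co.FLStepA
section

set_option autoImplicit false

open Finset Polynomial
open scoped BigOperators

namespace Pool.Agent.P.MP_b75a1e_co.EG

theorem deg_mul_lt_FLStepA {F : Type} [Field F] (p q : F[X]) (B d : ℕ) (hp : p.degree < B)
    (hq : q.natDegree ≤ d) : (q * p).degree < (B + d : ℕ) := by
  by_cases h0 : p = 0
  · rw [h0, mul_zero, degree_zero]
    exact WithBot.bot_lt_coe _
  have h1 : p.natDegree < B := (natDegree_lt_iff_degree_lt h0).2 hp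
  have h2 : (q * p).natDegree < B + d := natDegree_mul_le.trans_lt (by omega)
  exact degree_le_natDegree.trans_lt (by exact_mod_cast h2)

theorem step_deriv {F : Type} [Field F] (f : F[X]) (n k : ℕ) (hk : k ≤ n) :
    ∃ T : F[X] →ₗ[F] F[X], (∀ r, derivative^[k] (f ^ n * r) = f ^ (n - k) * T r) ∧
      ∀ (r : F[X]) (b : ℕ), r.degree < b → (T r).degree < (b + k * f.natDegree : ℕ) := by
  induction k with
  | zero => exact ⟨LinearMap.id, fun r => by simp, fun r b h => by simpa using h⟩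
  | succ k ih =>
    obtain ⟨T, h1, h2⟩ := ih (by omega)
    obtain ⟨m, hm⟩ : ∃ m, n - k = m + 1 := ⟨n - k - 1, by omega⟩
    have hm' : n - (k + 1) = m := by omega
    refine ⟨(LinearMap.mulLeft F (C ((m + 1 : ℕ) : F) * derivative f)).comp T +
      (LinearMap.mulLeft F f).comp (derivative.comp T), fun r => ?_, fun r b hb => ?_⟩
    · rw [Function.iterate_succ_apply', h1, hm, hm', derivative_mul, derivative_pow_succ]
      simp only [LinearMap.add_apply, LinearMap.comp_apply, LinearMap.mulLeft_apply]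
      push_cast
      ring
    · simp only [LinearMap.add_apply, LinearMap.comp_apply, LinearMap.mulLeft_apply]
      have e : b + (k + 1) * f.natDegree = b + k * f.natDegree + f.natDegree := by ring
      rw [e]
      refine (degree_add_le _ _).trans_lt (max_lt ?_ ?_)
      · refine deg_mul_lt_FLStepA _ _ _ _ (h2 r b hb) ?_
        exact (natDegree_C_mul_le _ _).trans ((natDegree_derivative_le f).trans (Nat.sub_le _ _))
      · exact deg_mul_lt_FLStepA _ _ _ _ (degree_derivative_le.trans_lt (h2 r b hb)) le_rfl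

theorem iter_deriv_mul_FLStepA {F : Type} [Field F] (q : F[X]) (hq : derivative q = 0) (k : ℕ)
    (p : F[X]) : derivative^[k] (p * q) = derivative^[k] p * q := by
  induction k with
  | zero => rfl
  | succ k ih =>
    rw [Function.iterate_succ_apply', ih, derivative_mul, hq, mul_zero, add_zero,
      Function.iterate_succ_apply']

theorem step_aux (l : ℕ) [Fact l.Prime] (f : (ZMod l)[X]) (a : ZMod l) (c t J b : ℕ)
    (h : t * (b + t * f.natDegree + J) < 2 * J * b) :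
    ∃ r s : ℕ → (ZMod l)[X], (∀ j, (r j).degree < b) ∧ (∀ j, (s j).degree < b) ∧
      (∃ j < J, r j ≠ 0 ∨ s j ≠ 0) ∧ ∀ k < t, ∀ x : ZMod l, (f.eval x = 0 ∨ f.eval x ^ c = a) →
        (derivative^[k] (f ^ t * ∑ j ∈ range J, (r j + s j * f ^ c) * X ^ (j * l))).eval x = 0 := by
  classical
  choose T hT1 hT2 using fun k : Fin t => step_deriv f t k k.2.le
  choose T' hT1' hT2' using fun k : Fin t => step_deriv f (t + c) k (by have := k.2; omega)
  set N := b + t * f.natDegree + J with hN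
  let σ : Fin t → ((Fin J → degreeLT (ZMod l) b) × (Fin J → degreeLT (ZMod l) b)) →ₗ[ZMod l]
      (ZMod l)[X] := fun k => ∑ j : Fin J, (LinearMap.mulRight (ZMod l) (X ^ (j : ℕ))).comp
        (((T k).comp ((degreeLT (ZMod l) b).subtype.comp
            ((LinearMap.proj j).comp (LinearMap.fst _ _ _)))) +
          a • ((T' k).comp ((degreeLT (ZMod l) b).subtype.comp
            ((LinearMap.proj j).comp (LinearMap.snd _ _ _)))))
  have hσ : ∀ k v, σ k v = ∑ j : Fin J, (T k (v.1 j) + C a * T' k (v.2 j)) * X ^ (j : ℕ) := by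
    intro k v
    simp only [σ, LinearMap.sum_apply, LinearMap.comp_apply, LinearMap.add_apply,
      LinearMap.smul_apply, LinearMap.mulRight_apply, LinearMap.proj_apply, LinearMap.fst_apply,
      LinearMap.snd_apply, Submodule.subtype_apply, smul_eq_C_mul]
  let Φ : ((Fin J → degreeLT (ZMod l) b) × (Fin J → degreeLT (ZMod l) b)) →ₗ[ZMod l]
      (Fin t → Fin N → ZMod l) :=
    LinearMap.pi fun k => LinearMap.pi fun i => (lcoeff (ZMod l) (i : ℕ)).comp (σ k)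
  have : Module.Finite (ZMod l) (degreeLT (ZMod l) b) :=
    Module.Finite.equiv (degreeLTEquiv (ZMod l) b).symm
  have hb : Module.finrank (ZMod l) (degreeLT (ZMod l) b) = b := by
    rw [(degreeLTEquiv (ZMod l) b).finrank_eq, Module.finrank_fin_fun]
  have hlt : Module.finrank (ZMod l) (Fin t → Fin N → ZMod l) < Module.finrank (ZMod l)
      ((Fin J → degreeLT (ZMod l) b) × (Fin J → degreeLT (ZMod l) b)) := by
    simp only [Module.finrank_prod, Module.finrank_pi_fintype, hb, Module.finrank_self, sum_const,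
      card_univ, Fintype.card_fin, smul_eq_mul, mul_one]
    linarith
  obtain ⟨v, hv, hv0⟩ := Submodule.exists_mem_ne_zero_of_ne_bot
    (LinearMap.ker_ne_bot_of_finrank_lt (f := Φ) hlt)
  have hzero : ∀ k, σ k v = 0 := by
    intro k
    have hdeg : (σ k v).degree < (N : ℕ) := by
      rw [hσ]
      refine (degree_sum_le _ _).trans_lt ((Finset.sup_lt_iff (WithBot.bot_lt_coe _)).2 ?_)
      intro j _
      rw [mul_comm, hN]
      refine deg_mul_lt_FLStepA _ _ _ _ ?_ (by rw [natDegree_X_pow]; exact j.2.le)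
      have hk : ((b + k * f.natDegree : ℕ) : WithBot ℕ) ≤ (b + t * f.natDegree : ℕ) := by
        exact_mod_cast Nat.add_le_add_left (Nat.mul_le_mul_right _ k.2.le) _
      refine (degree_add_le _ _).trans_lt (max_lt ?_ ?_)
      · exact (hT2 k _ b (mem_degreeLT.1 (v.1 j).2)).trans_le hk
      · rw [← smul_eq_C_mul]
        exact (degree_smul_le _ _).trans_lt ((hT2' k _ b (mem_degreeLT.1 (v.2 j).2)).trans_le hk)
    ext i
    rcases lt_or_ge i N with hi | hi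
    · exact congrFun (congrFun (LinearMap.mem_ker.1 hv) k) ⟨i, hi⟩
    · exact coeff_eq_zero_of_degree_lt (hdeg.trans_le (by exact_mod_cast hi))
  refine ⟨fun j => if hj : j < J then (v.1 ⟨j, hj⟩ : (ZMod l)[X]) else 0,
    fun j => if hj : j < J then (v.2 ⟨j, hj⟩ : (ZMod l)[X]) else 0, fun j => ?_, fun j => ?_, ?_, ?_⟩
  · beta_reduce
    split_ifs with hj
    · exact mem_degreeLT.1 (v.1 _).2
    · rw [degree_zero]
      exact WithBot.bot_lt_coe _
  · beta_reduce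
    split_ifs with hj
    · exact mem_degreeLT.1 (v.2 _).2
    · rw [degree_zero]
      exact WithBot.bot_lt_coe _
  · by_contra hne
    push Not at hne
    apply hv0
    ext j i
    · have := (hne j j.2).1
      rw [dif_pos j.2] at this
      simp [this]
    · have := (hne j j.2).2
      rw [dif_pos j.2] at this
      simp [this]
  · intro k hk x hx
    have hX : ∀ j : ℕ, derivative (X ^ (j * l) : (ZMod l)[X]) = 0 := by
      intro j
      rw [derivative_X_pow]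
      simp
    have hx' : ∀ j : ℕ, x ^ (j * l) = x ^ j := by
      intro j
      rw [pow_mul, ZMod.pow_card]
    have e1 : derivative^[k] (f ^ t * ∑ j ∈ range J,
        ((if hj : j < J then (v.1 ⟨j, hj⟩ : (ZMod l)[X]) else 0) +
          (if hj : j < J then (v.2 ⟨j, hj⟩ : (ZMod l)[X]) else 0) * f ^ c) * X ^ (j * l)) =
        ∑ j : Fin J, (f ^ (t - k) * T ⟨k, hk⟩ (v.1 j) + f ^ (t + c - k) * T' ⟨k, hk⟩ (v.2 j)) *
          X ^ ((j : ℕ) * l) := by
      rw [mul_sum, iterate_derivative_sum, sum_range]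
      refine sum_congr rfl fun j _ => ?_
      rw [dif_pos j.2, dif_pos j.2, ← mul_assoc, iter_deriv_mul_FLStepA _ (hX j), mul_add,
        iterate_map_add, hT1 ⟨k, hk⟩, mul_comm _ (f ^ c), ← mul_assoc, ← pow_add, hT1' ⟨k, hk⟩]
    rw [e1, eval_finsetSum]
    have e2 : t + c - k = (t - k) + c := by omega
    rcases hx with hx | hx
    · refine sum_eq_zero fun j _ => ?_
      have h1 : t - k ≠ 0 := by omega
      simp [e2, pow_add, hx, h1]
    · have h0 := congrArg (eval x) (hzero ⟨k, hk⟩)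
      rw [hσ, eval_finsetSum, eval_zero] at h0
      have e3 : ∀ j : Fin J, eval x ((f ^ (t - k) * T ⟨k, hk⟩ (v.1 j) +
          f ^ (t + c - k) * T' ⟨k, hk⟩ (v.2 j)) * X ^ ((j : ℕ) * l)) = eval x f ^ (t - k) *
          eval x ((T ⟨k, hk⟩ (v.1 j) + C a * T' ⟨k, hk⟩ (v.2 j)) * X ^ (j : ℕ)) := by
        intro j
        simp only [e2, pow_add, eval_mul, eval_add, eval_pow, eval_X, eval_C, hx, hx']
        ring
      simp only [e3]
      rw [← mul_sum, h0, mul_zero]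

end Pool.Agent.P.MP_b75a1e_co.EG
end

-- part Pool.Agent.P.MP_b75a1e_co.EGBasic
section

set_option autoImplicit false

open Finset
open scoped BigOperators ComplexConjugate

namespace Pool.Agent.P.MP_b75a1e_co.EG

variable {m : ℕ}

lemma pr_zero_EGBasic (θ : ℂ) : pr m θ 0 = 0 := by simp [pr]

lemma pr_sum_EGBasic {ι : Type} (s : Finset ι) (θ : ℂ) (f : ι → ℂ) :
    pr m θ (∑ i ∈ s, f i) = ∑ i ∈ s, pr m θ (f i) := by
  classical
  induction s using Finset.induction_on with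
  | empty => simp [pr_zero_EGBasic]
  | insert a s ha ih => rw [sum_insert ha, sum_insert ha, pr_add_right, ih]

lemma expect_pi_EGBasic {K : Type} [Field K] [CharZero K] {ι : Type} [Fintype ι] [DecidableEq ι]
    {Ω : ι → Type} [∀ i, Fintype (Ω i)] (f : ∀ i, Ω i → K) :
    𝔼 ω : ∀ i, Ω i, ∏ i, f i (ω i) = ∏ i, 𝔼 x, f i x := by
  simp only [Fintype.expect_eq_sum_div_card, prod_div_distrib, Fintype.card_pi, Nat.cast_prod]
  rw [Fintype.prod_sum]

lemma expect_update_EGBasic {K : Type} [Field K] [CharZero K] {ι α : Type} [Fintype ι]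
    [DecidableEq ι] [Fintype α] [Nonempty α] (f : (ι → α) → K) (j : ι) :
    𝔼 t : ι → α, f t = 𝔼 t : ι → α, 𝔼 v : α, f (Function.update t j v) := by
  have hc : (Fintype.card α : K) ≠ 0 := Nat.cast_ne_zero.2 Fintype.card_ne_zero
  let e : (ι → α) × α → (ι → α) × α := fun q => (Function.update q.1 j q.2, q.1 j)
  have he : Function.Involutive e := fun q => by simp [e]
  have h : ∑ t : ι → α, ∑ v : α, f (Function.update t j v) = ∑ t : ι → α, ∑ _v : α, f t := by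
    rw [← Fintype.sum_prod_type', ← Fintype.sum_prod_type']
    exact Fintype.sum_bijective e he.bijective _ _ fun _ => rfl
  simp only [Fintype.expect_eq_sum_div_card]
  rw [← sum_div, h]
  simp only [sum_const, card_univ, nsmul_eq_mul]
  rw [← mul_sum, mul_div_cancel_left₀ _ hc]

theorem norm_ch_le {Ω : Type} [Fintype Ω] (X : Ω → O m) (θ : ℂ) : ‖ch X θ‖ ≤ 1 := by
  unfold ch
  rw [Fintype.expect_eq_sum_div_card, norm_div, Complex.norm_natCast]
  refine div_le_one_of_le₀ ((norm_sum_le _ _).trans ?_) (Nat.cast_nonneg _)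
  simp [norm_ee]

theorem ch_zero {Ω : Type} [Fintype Ω] [Nonempty Ω] (X : Ω → O m) : ch X 0 = 1 := by
  simp [ch, pr, ee_zero]

theorem ch_period (hm : 1 ≤ m) {Ω : Type} [Fintype Ω] (X : Ω → O m) (θ : ℂ) (a : O m) :
    ch X (θ + ph m a) = ch X θ := by
  unfold ch
  refine expect_congr rfl fun ω _ => ?_
  have h := pr_ph_div hm a (X ω) 1
  rw [Complex.ofReal_one, div_one, div_one] at h
  rw [pr_add_left, ee_add, h, ee_int, mul_one]

theorem ch_mul {Ω : Type} [Fintype Ω] (X : Ω → O m) (g : O m) (θ : ℂ) :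
    ch (fun ω => g * X ω) θ = ch X (θ * ph m g) := by
  simp only [ch, map_mul, pr_mul]

theorem norm_ch_sub_const {Ω : Type} [Fintype Ω] (X : Ω → O m) (c : O m) (θ : ℂ) :
    ‖ch (fun ω => X ω - c) θ‖ = ‖ch X θ‖ := by
  have h : ch (fun ω => X ω - c) θ = ch X θ * ee (-pr m θ (ph m c)) := by
    simp only [ch, map_sub, pr_sub_right, expect_mul]
    simp only [sub_eq_add_neg, ee_add]
  rw [h, norm_mul, norm_ee, mul_one]

theorem norm_ch_dv (hm : 1 ≤ m) {Ω : Type} [Fintype Ω] (X : Ω → O m) (c : O m)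
    (h : ∀ ω, mu m ∣ X ω - c) (θ : ℂ) :
    ‖ch (fun ω => dv (X ω - c)) θ‖ = ‖ch X (θ / ph m (mu m))‖ := by
  have h0 := ph_ne_zero hm (mu_ne_zero hm)
  have e := ch_mul (fun ω => dv (X ω - c)) (mu m) (θ / ph m (mu m))
  rw [div_mul_cancel₀ _ h0] at e
  rw [← e, ← norm_ch_sub_const X c]
  simp only [mu_mul_dv (h _)]

theorem ch_star {Ω : Type} [Fintype Ω] (X : Ω → O m) (θ : ℂ) :
    ch (fun ω => star (X ω)) θ = ch X (-conj θ) := by
  have e : ∀ z, pr m (-conj θ) z = -pr m (conj θ) z := fun z => by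
    rw [pr, pr, neg_mul, Complex.neg_im, neg_div]
  simp only [ch, ph_star, pr_conj, e]

theorem ch_star_mu {Ω : Type} [Fintype Ω] (X : Ω → O m) (θ : ℂ) :
    ch (fun ω => star (X ω)) (θ / ph m (mu m)) = ch X (conj θ / ph m (mu m)) := by
  rw [ch_star, map_div₀, ← ph_star, star_mu, map_neg, div_neg, neg_neg]

theorem ch_prod {Ω Ω' : Type} [Fintype Ω] [Fintype Ω'] (X : Ω → O m) (X' : Ω' → O m) (θ : ℂ) :
    ch (fun q : Ω × Ω' => X q.1 + X' q.2) θ = ch X θ * ch X' θ := by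
  simp only [ch, map_add, pr_add_right, ee_add]
  rw [expect_mul_expect, ← univ_product_univ, expect_product]

theorem ch_pi {ι : Type} [Fintype ι] [DecidableEq ι] {Ω : ι → Type} [∀ i, Fintype (Ω i)]
    (X : ∀ i, Ω i → O m) (θ : ℂ) :
    ch (fun ω : ∀ i, Ω i => ∑ i, X i (ω i)) θ = ∏ i, ch (X i) θ := by
  simp only [ch, map_sum, pr_sum_EGBasic, ee_sum]
  exact expect_pi_EGBasic fun i x => ee (pr m θ (ph m (X i x)))

theorem norm_ch_sq {Ω : Type} [Fintype Ω] (X : Ω → O m) (θ : ℂ) :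
    ((‖ch X θ‖ ^ 2 : ℝ) : ℂ) = 𝔼 q : Ω × Ω, ee (pr m θ (ph m (X q.1 - X q.2))) := by
  have h : conj (ch X θ) = 𝔼 ω, ee (-pr m θ (ph m (X ω))) := by
    simp only [ch, Fintype.expect_eq_sum_div_card, map_div₀, map_sum, map_natCast, ee_neg]
  rw [Complex.ofReal_pow, ← Complex.mul_conj', h, ch, expect_mul_expect, ← univ_product_univ,
    expect_product]
  simp only [map_sub, pr_sub_right]
  simp only [sub_eq_add_neg, ee_add]

/-- Independence. -/
theorem expect_pi_prod {ι : Type} [Fintype ι] [DecidableEq ι] {Ω : ι → Type} [∀ i, Fintype (Ω i)]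
    (f : ∀ i, Ω i → ℝ) : 𝔼 ω : ∀ i, Ω i, ∏ i, f i (ω i) = ∏ i, 𝔼 x, f i x :=
  expect_pi_EGBasic f

/-- Conditioning on all coordinates but one. -/
theorem expect_update {ι α : Type} [Fintype ι] [DecidableEq ι] [Fintype α] [Nonempty α]
    (f : (ι → α) → ℝ) (j : ι) :
    𝔼 t : ι → α, f t = 𝔼 t : ι → α, 𝔼 v : α, f (Function.update t j v) :=
  expect_update_EGBasic f j

theorem expect_update_c {ι α : Type} [Fintype ι] [DecidableEq ι] [Fintype α] [Nonempty α]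
    (f : (ι → α) → ℂ) (j : ι) :
    𝔼 t : ι → α, f t = 𝔼 t : ι → α, 𝔼 v : α, f (Function.update t j v) :=
  expect_update_EGBasic f j

theorem norm_cube {r : ℕ} (z : Fin r → O m) (ε : Fin r → Bool) : (cube z ε).norm = (base z).norm := by
  unfold base cube
  rw [norm_prod', norm_prod']
  refine prod_congr rfl fun i _ => ?_
  cases ε i <;> simp

theorem norm_base {r : ℕ} (z : Fin r → O m) : (base z).norm = ∏ i, (z i).norm := by
  unfold base cube
  rw [norm_prod']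
  simp

lemma dvd_prod_sub_EGBasic {ι : Type} (s : Finset ι) (a : O m) (f g : ι → O m)
    (h : ∀ i ∈ s, a ∣ f i - g i) : a ∣ ∏ i ∈ s, f i - ∏ i ∈ s, g i := by
  classical
  induction s using Finset.induction_on with
  | empty => simp
  | insert j s hj ih =>
    rw [prod_insert hj, prod_insert hj]
    have e : f j * ∏ i ∈ s, f i - g j * ∏ i ∈ s, g i =
        (f j - g j) * ∏ i ∈ s, f i + g j * (∏ i ∈ s, f i - ∏ i ∈ s, g i) := by ring
    rw [e]
    exact ((h j (mem_insert_self _ _)).mul_right _).add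
      ((ih fun i hi => h i (mem_insert_of_mem hi)).mul_left _)

theorem dvd_cube_sub {r : ℕ} (z : Fin r → O m) (a : O m) (h : ∀ i, a ∣ z i - star (z i))
    (ε : Fin r → Bool) : a ∣ cube z ε - base z := by
  refine dvd_prod_sub_EGBasic _ a _ _ fun i _ => ?_
  cases ε i
  · simp
  · simpa using h i

theorem dvd_base_sub_one {r : ℕ} (z : Fin r → O m) (n : ℕ) (h : ∀ i, (n : O m) ∣ z i - 1) :
    (n : O m) ∣ base z - 1 := by
  have := dvd_prod_sub_EGBasic univ (n : O m) (fun i => star (z i)) (fun _ => 1) fun i _ => by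
    simpa using dvd_star (h i)
  simpa [base, cube] using this

lemma prod_close_EGBasic {ι : Type} (s : Finset ι) (f g : ι → ℂ) (η : ℝ)
    (h1 : ∀ i, ‖f i‖ = ‖g i‖) (h2 : ∀ i, ‖f i - g i‖ ≤ η * ‖g i‖) :
    ‖∏ i ∈ s, f i - ∏ i ∈ s, g i‖ ≤ s.card * η * ‖∏ i ∈ s, g i‖ := by
  classical
  induction s using Finset.induction_on with
  | empty => simp
  | insert j s hj ih =>
    rw [prod_insert hj, prod_insert hj, card_insert_of_notMem hj]
    have e : f j * ∏ i ∈ s, f i - g j * ∏ i ∈ s, g i =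
        (f j - g j) * ∏ i ∈ s, g i + f j * (∏ i ∈ s, f i - ∏ i ∈ s, g i) := by ring
    rw [e]
    refine (norm_add_le _ _).trans ?_
    rw [norm_mul, norm_mul, norm_mul, h1 j]
    have a1 := mul_le_mul_of_nonneg_right (h2 j) (norm_nonneg (∏ i ∈ s, g i))
    have a2 := mul_le_mul_of_nonneg_left ih (norm_nonneg (g j))
    push_cast
    linarith

theorem cube_close {r : ℕ} (z : Fin r → O m) (η : ℝ) (hη : 0 ≤ η)
    (h : ∀ i, ‖ph m (z i - star (z i))‖ ≤ η * ‖ph m (z i)‖) (ε : Fin r → Bool) :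
    ‖ph m (cube z ε - base z)‖ ≤ r * η * ‖ph m (base z)‖ := by
  have hs : ∀ x : O m, ‖ph m (star x)‖ = ‖ph m x‖ := fun x => by rw [ph_star, Complex.norm_conj]
  have := prod_close_EGBasic univ (fun i => ph m (if ε i then z i else star (z i)))
    (fun i => ph m (star (z i))) η (fun i => by cases ε i <;> simp [hs]) fun i => by
      cases ε i
      · simpa using mul_nonneg hη (norm_nonneg _)
      · simpa [hs] using h i
  simpa [base, cube, map_prod] using this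

theorem SumOf.add {n : ℤ} {k k' : ℕ} {y y' : O m} (h : SumOf n k y) (h' : SumOf n k' y') :
    SumOf n (k + k') (y + y') := by
  obtain ⟨L, rfl, a, rfl⟩ := h
  obtain ⟨L', rfl, a', rfl⟩ := h'
  exact ⟨L + L', Multiset.card_add _ _, fun x hx => (Multiset.mem_add.1 hx).elim (a x) (a' x),
    Multiset.sum_add _ _⟩

theorem SumOf.single {n : ℤ} {y : O m} (h : y.norm = n) : SumOf n 1 y :=
  ⟨{y}, rfl, fun _ hx => Multiset.mem_singleton.1 hx ▸ h, Multiset.sum_singleton y⟩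

theorem SumOf.smul {n : ℤ} {y : O m} (h : y.norm = n) (k : ℕ) : SumOf n k ((k : O m) * y) :=
  ⟨Multiset.replicate k y, Multiset.card_replicate _ _,
    fun _ hx => Multiset.eq_of_mem_replicate hx ▸ h, by rw [Multiset.sum_replicate, nsmul_eq_mul]⟩

theorem SumOf.mul_left {n : ℤ} {k : ℕ} {y : O m} (h : SumOf n k y) (g : O m) :
    SumOf (g.norm * n) k (g * y) := by
  obtain ⟨L, rfl, a, rfl⟩ := h
  refine ⟨L.map fun x => g * x, Multiset.card_map _ _, fun x hx => ?_, ?_⟩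
  · obtain ⟨u, hu, rfl⟩ := Multiset.mem_map.1 hx
    rw [Zsqrtd.norm_mul, a u hu]
  · rw [Multiset.sum_map_mul_left, Multiset.map_id']

theorem SumOf.conj {n : ℤ} {k : ℕ} {y : O m} (h : SumOf n k y) : SumOf n k (star y) := by
  obtain ⟨L, rfl, a, rfl⟩ := h
  refine ⟨L.map star, Multiset.card_map _ _, fun x hx => ?_, ?_⟩
  · obtain ⟨u, hu, rfl⟩ := Multiset.mem_map.1 hx
    rw [Zsqrtd.norm_conj, a u hu]
  · exact (map_multiset_sum (starAddEquiv (R := O m)) L).symm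

theorem SumOf.sum {ι : Type} (s : Finset ι) {n : ℤ} {k : ℕ} {y : ι → O m}
    (h : ∀ i ∈ s, SumOf n k (y i)) : SumOf n (s.card * k) (∑ i ∈ s, y i) := by
  classical
  induction s using Finset.induction_on with
  | empty => exact ⟨0, by simp, by simp, by simp⟩
  | insert j s hj ih =>
    rw [sum_insert hj, card_insert_of_notMem hj, add_mul, one_mul, add_comm (s.card * k)]
    exact (h j (mem_insert_self _ _)).add (ih fun i hi => h i (mem_insert_of_mem hi))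

theorem SumOf.norm_le {n : ℤ} {k : ℕ} {y : O m} (h : SumOf n k y) :
    ‖ph m y‖ ≤ k * Real.sqrt n := by
  obtain ⟨L, rfl, a, rfl⟩ := h
  induction L using Multiset.induction_on with
  | empty => simp
  | cons x L ih =>
    have h1 : ‖ph m x‖ = Real.sqrt n := by
      rw [← a x (Multiset.mem_cons_self _ _), ← norm_sq_ph, Real.sqrt_sq (norm_nonneg _)]
    have h2 := ih fun u hu => a u (Multiset.mem_cons_of_mem hu)
    rw [Multiset.sum_cons, map_add, Multiset.card_cons]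
    refine (norm_add_le _ _).trans ?_
    push_cast
    linarith

theorem SumOf.rep {n : ℤ} {k : ℕ} {y : O m} (h : SumOf n k y) : Rep m n k (ph m y) := by
  obtain ⟨L, rfl, a, rfl⟩ := h
  refine ⟨L.map (ph m), Multiset.card_map _ _, fun x hx => ?_, (map_multiset_sum (ph m) L).symm⟩
  obtain ⟨u, hu, rfl⟩ := Multiset.mem_map.1 hx
  exact ⟨⟨u, 1, one_ne_zero, by simp⟩, by rw [norm_sq_ph, a u hu]⟩

theorem Rep.add {N : ℝ} {k k' : ℕ} {y y' : ℂ} (h : Rep m N k y) (h' : Rep m N k' y') :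
    Rep m N (k + k') (y + y') := by
  obtain ⟨L, rfl, a, rfl⟩ := h
  obtain ⟨L', rfl, a', rfl⟩ := h'
  exact ⟨L + L', Multiset.card_add _ _, fun x hx => (Multiset.mem_add.1 hx).elim (a x) (a' x),
    Multiset.sum_add _ _⟩

end Pool.Agent.P.MP_b75a1e_co.EG
end

-- part Pool.Agent.P.MP_b75a1e_co.FLStepB
section

set_option autoImplicit false

open Finset Polynomial
open scoped BigOperators

namespace Pool.Agent.P.MP_b75a1e_co.EG

/-- Many roots of high multiplicity force a high degree. -/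
theorem mult_deg_FLStepB {F : Type} [Field F] [DecidableEq F] (R : F[X]) (S : Finset F) (t : ℕ)
    (h : ∀ x ∈ S, t ≤ R.rootMultiplicity x) : S.card * t ≤ R.natDegree := by
  calc S.card * t = ∑ _x ∈ S, t := by simp
    _ ≤ ∑ x ∈ S, R.roots.count x := by
        refine Finset.sum_le_sum fun x hx => ?_
        rw [count_roots]; exact h x hx
    _ ≤ ∑ x ∈ S ∪ R.roots.toFinset, R.roots.count x :=
        Finset.sum_le_sum_of_subset Finset.subset_union_left
    _ = Multiset.card R.roots := by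
        refine Multiset.sum_count_eq_card fun x hx => ?_
        exact Finset.mem_union_right _ (Multiset.mem_toFinset.2 hx)
    _ ≤ R.natDegree := card_roots' R

/-- The dimension count. -/
theorem dim_FLStepB (l n t c b J : ℕ) (hn : 1 ≤ n) (htl : t * t ≤ l) (htn : 100 * n ≤ t)
    (hc : l ≤ 2 * c + 1) (hb : b + n = c) (hJ : t + 6 * n + 1 ≤ 2 * J)
    (hJ' : 2 * J ≤ t + 6 * n + 2) : t * (b + t * n + J) < 2 * J * b := by
  have h1 : (t + 6 * n + 1) * b ≤ 2 * J * b := Nat.mul_le_mul_right b hJ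
  have h2 : t * (2 * J) ≤ t * (t + 6 * n + 2) := Nat.mul_le_mul_left t hJ'
  have h3 : t * t ≤ 2 * b + 2 * n + 1 := by omega
  have h4 : n * (t * t) ≤ n * (2 * b + 2 * n + 1) := Nat.mul_le_mul_left n h3
  have h5 : t * (100 * n) ≤ t * t := Nat.mul_le_mul_left t htn
  have h6 : 100 * n * n ≤ t * n := Nat.mul_le_mul_right n htn
  have h7 : n ≤ n * n := Nat.le_mul_self n
  have h8 : b ≤ n * b := Nat.le_mul_of_pos_left b hn
  have h9 : t ≤ t * n := Nat.le_mul_of_pos_right t hn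
  nlinarith

/-- The final arithmetic. -/
theorem fin_FLStepB (l n t c b J N : ℕ) (hn : 1 ≤ n) (ht : 1 ≤ t) (hlt : l < (t + 1) * (t + 1))
    (hl : 1 ≤ l) (hc : 2 * c ≤ l) (hb : b ≤ c) (hJ' : 2 * J ≤ t + 6 * n)
    (h : N * t ≤ t * n + (b + c * n + J * l)) :
    (N : ℝ) ≤ l / 2 + 10 * n * Real.sqrt l := by
  have hn' : (1 : ℝ) ≤ n := by exact_mod_cast hn
  have ht' : (1 : ℝ) ≤ t := by exact_mod_cast ht
  have hl' : (1 : ℝ) ≤ l := by exact_mod_cast hl
  have hc' : 2 * (c : ℝ) ≤ l := by exact_mod_cast hc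
  have hb' : (b : ℝ) ≤ c := by exact_mod_cast hb
  have hJ : 2 * (J : ℝ) ≤ t + 6 * n := by exact_mod_cast hJ'
  have h' : (N : ℝ) * t ≤ t * n + (b + c * n + J * l) := by exact_mod_cast h
  have hlt' : (l : ℝ) < (t + 1) * (t + 1) := by exact_mod_cast hlt
  set q := Real.sqrt l with hq
  have hq0 : 0 ≤ q := Real.sqrt_nonneg _
  have hqq : q * q = l := Real.mul_self_sqrt (by linarith)
  have hq1 : 1 ≤ q := by
    by_contra hcon
    have : q < 1 := not_le.1 hcon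
    nlinarith
  have hqt : q ≤ 2 * t := by
    by_contra hcon
    have : 2 * (t : ℝ) < q := not_le.1 hcon
    nlinarith
  have hl2 : (l : ℝ) ≤ 2 * t * q := by rw [← hqq]; exact mul_le_mul_of_nonneg_right hqt hq0
  have a1 : (J : ℝ) * l ≤ (t + 6 * n) / 2 * l :=
    mul_le_mul_of_nonneg_right (by linarith) (by linarith)
  have a2 : (c : ℝ) * n ≤ l / 2 * n := mul_le_mul_of_nonneg_right (by linarith) (by linarith)
  have a3 : (l : ℝ) * n ≤ 2 * t * q * n := mul_le_mul_of_nonneg_right hl2 (by linarith)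
  have a4 : (l : ℝ) ≤ l * n := le_mul_of_one_le_right (by linarith) hn'
  have a5 : (t : ℝ) * n ≤ t * n * q := le_mul_of_one_le_right (by positivity) hq1
  have a6 : 0 ≤ (t : ℝ) * n * q := by positivity
  have key : (N : ℝ) * t ≤ (l / 2 + 10 * n * q) * t := by nlinarith
  exact le_of_mul_le_mul_right key (by linarith)

theorem step_count (l : ℕ) [Fact l.Prime] (hl : l ≠ 2) (A : Finset (ZMod l)) (hA : A.Nonempty)
    (h0 : (0 : ZMod l) ∉ A) (hc : 10 ^ 4 * A.card ^ 2 ≤ l) (a : ZMod l) :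
    (((univ : Finset (ZMod l)).filter fun x =>
      ∏ z ∈ A, (x + z) = 0 ∨ (∏ z ∈ A, (x + z)) ^ (l / 2) = a).card : ℝ) ≤
      l / 2 + 10 * A.card * Real.sqrt l := by
  have hp : l.Prime := Fact.out
  have hn : 1 ≤ A.card := Finset.card_pos.2 hA
  obtain ⟨n, hnn⟩ : ∃ n, n = A.card := ⟨_, rfl⟩
  obtain ⟨t, htt⟩ : ∃ t, t = Nat.sqrt l := ⟨_, rfl⟩
  obtain ⟨f, hf⟩ : ∃ f : (ZMod l)[X], f = ∏ z ∈ A, (X + C z) := ⟨_, rfl⟩
  rw [← hnn] at hn hc ⊢
  have htl : t * t ≤ l := by rw [htt]; exact Nat.sqrt_le l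
  have hlt : l < (t + 1) * (t + 1) := by rw [htt]; exact Nat.lt_succ_sqrt l
  have htn : 100 * n ≤ t := by
    rw [htt, Nat.le_sqrt]
    calc 100 * n * (100 * n) = 10 ^ 4 * n ^ 2 := by ring
      _ ≤ l := hc
  have htl' : t ≤ l := le_trans (Nat.le_mul_self t) htl
  have hmon : f.Monic := by
    rw [hf]; exact monic_prod_of_monic _ _ fun z _ => monic_X_add_C z
  have hdeg : f.natDegree = n := by
    rw [hf, natDegree_prod_of_monic _ _ fun z _ => monic_X_add_C z, hnn]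
    simp
  have hev : ∀ x, f.eval x = ∏ z ∈ A, (x + z) := by
    intro x; rw [hf, eval_prod]; simp
  obtain ⟨r, s, hr, hs, hne, hz⟩ := step_aux l f a (l / 2) t (t / 2 + 3 * n + 1) (l / 2 - n) (by
    rw [hdeg]
    exact dim_FLStepB l n t (l / 2) (l / 2 - n) (t / 2 + 3 * n + 1) hn htl htn (by omega)
      (by omega) (by omega) (by omega))
  obtain ⟨Q, hQ⟩ : ∃ Q : (ZMod l)[X], Q = ∑ j ∈ range (t / 2 + 3 * n + 1),
    (r j + s j * f ^ (l / 2)) * X ^ (j * l) := ⟨_, rfl⟩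
  rw [← hQ] at hz
  have hQ0 : Q ≠ 0 := by
    intro hQ0
    have h1 := step_ne l hl A hA h0 (l / 2 - n) (by omega) (t / 2 + 3 * n + 1) r s hr hs
      (by rw [← hf, ← hQ]; exact hQ0)
    obtain ⟨j, hj, hj'⟩ := hne
    rcases hj' with h | h
    · exact h (h1 j hj).1
    · exact h (h1 j hj).2
  have hR0 : f ^ t * Q ≠ 0 := mul_ne_zero (pow_ne_zero _ hmon.ne_zero) hQ0
  have hnd : ∀ p : (ZMod l)[X], p.degree < (l / 2 - n : ℕ) → p.natDegree ≤ l / 2 - n := fun p h =>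
    natDegree_le_of_degree_le h.le
  have hQd : Q.natDegree ≤ l / 2 - n + l / 2 * n + (t / 2 + 3 * n) * l := by
    rw [hQ]
    refine natDegree_sum_le_of_forall_le _ _ fun j hj => ?_
    have hj' : j ≤ t / 2 + 3 * n := by have := Finset.mem_range.1 hj; omega
    refine le_trans natDegree_mul_le (add_le_add ?_ ?_)
    · refine le_trans (natDegree_add_le _ _) (max_le ?_ ?_)
      · exact le_trans (hnd _ (hr j)) (Nat.le_add_right _ _)
      · refine le_trans natDegree_mul_le (add_le_add (hnd _ (hs j)) ?_)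
        refine le_trans natDegree_pow_le ?_
        rw [hdeg]
    · rw [natDegree_X_pow]; exact Nat.mul_le_mul_right l hj'
  have hRd : (f ^ t * Q).natDegree ≤ t * n + (l / 2 - n + l / 2 * n + (t / 2 + 3 * n) * l) := by
    refine le_trans natDegree_mul_le (add_le_add ?_ hQd)
    refine le_trans natDegree_pow_le ?_
    rw [hdeg]
  have hfac : (((t - 1).factorial : ℕ) : ZMod l) ∈ nonZeroDivisors (ZMod l) := by
    refine mem_nonZeroDivisors_of_ne_zero ?_
    rw [Ne, ZMod.natCast_eq_zero_iff, hp.dvd_factorial]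
    omega
  have hmul := mult_deg_FLStepB (f ^ t * Q) ((univ : Finset (ZMod l)).filter fun x =>
      ∏ z ∈ A, (x + z) = 0 ∨ (∏ z ∈ A, (x + z)) ^ (l / 2) = a) t (by
    intro x hx
    have hx' := (Finset.mem_filter.1 hx).2
    rw [← hev] at hx'
    have h1 := (lt_rootMultiplicity_iff_isRoot_iterate_derivative_of_mem_nonZeroDivisors
      (t := x) hR0 hfac).2 fun k hk => hz k (by omega) x hx'
    omega)
  exact fin_FLStepB l n t (l / 2) (l / 2 - n) (t / 2 + 3 * n) _ hn (by omega) hlt (by omega)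
    (by omega) (by omega) (by omega) (le_trans hmul hRd)

/-- One sign of the character sum, no zero in `A`. -/
theorem sign_FLStepB (l : ℕ) [Fact l.Prime] (hl : l ≠ 2) (A : Finset (ZMod l)) (hA : A.Nonempty)
    (h0 : (0 : ZMod l) ∉ A) (hc : 10 ^ 4 * A.card ^ 2 ≤ l) (e : ℤ) (he : e = 1 ∨ e = -1) :
    (e : ℝ) * ∑ x : ZMod l, (quadraticChar (ZMod l) (∏ z ∈ A, (x + z)) : ℝ) ≤
      20 * A.card * Real.sqrt l := by
  have hcnt := step_count l hl A hA h0 hc (e : ZMod l)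
  have hch : ringChar (ZMod l) ≠ 2 := by rw [ZMod.ringChar_zmod_n]; exact hl
  have hpt : ∀ x : ZMod l, (e : ℝ) * (quadraticChar (ZMod l) (∏ z ∈ A, (x + z)) : ℝ) ≤
      2 * (if ∏ z ∈ A, (x + z) = 0 ∨ (∏ z ∈ A, (x + z)) ^ (l / 2) = (e : ZMod l) then 1 else 0) -
        1 := by
    intro x
    generalize ∏ z ∈ A, (x + z) = w
    have h1 := quadraticChar_eq_pow_of_char_ne_two' hch w
    rw [ZMod.card] at h1
    by_cases hw : w = 0
    · subst hw
      norm_num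
    · have hd := quadraticChar_dichotomy hw
      split_ifs with hi
      · rcases he with rfl | rfl <;> rcases hd with h | h <;> rw [h] <;> norm_num
      · have hne : quadraticChar (ZMod l) w ≠ e := by
          intro h
          exact hi (Or.inr (by rw [← h1, h]))
        rcases he with rfl | rfl <;> rcases hd with h | h
        · exact absurd h hne
        · rw [h]; norm_num
        · rw [h]; norm_num
        · exact absurd h hne
  rw [Finset.mul_sum]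
  refine le_trans (Finset.sum_le_sum fun x _ => hpt x) ?_
  rw [Finset.sum_sub_distrib, ← Finset.mul_sum, Finset.sum_boole]
  simp only [Finset.sum_const, Finset.card_univ, ZMod.card, nsmul_eq_mul, mul_one]
  linarith

/-- A bound of Weil type for the quadratic character of a product of distinct linear factors. -/
theorem stepanov (l : ℕ) [Fact l.Prime] (hl : l ≠ 2) (A : Finset (ZMod l)) (hA : A.Nonempty) :
    |∑ x : ZMod l, (quadraticChar (ZMod l) (∏ z ∈ A, (x + z)) : ℝ)| ≤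
      100 * A.card * Real.sqrt l := by
  have hq0 : 0 ≤ Real.sqrt l := Real.sqrt_nonneg _
  have hn : 1 ≤ A.card := Finset.card_pos.2 hA
  by_cases hc : 10 ^ 4 * A.card ^ 2 ≤ l
  · have hlt : A.card < Fintype.card (ZMod l) := by
      rw [ZMod.card]
      have : A.card ≤ A.card ^ 2 := Nat.le_self_pow (by norm_num) _
      omega
    obtain ⟨y, hy⟩ : ∃ y : ZMod l, y ∉ A := by
      by_contra hcon
      have h1 : A = univ := Finset.eq_univ_of_forall fun y => by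
        by_contra hy
        exact hcon ⟨y, hy⟩
      rw [h1, Finset.card_univ] at hlt
      exact lt_irrefl _ hlt
    have hinj : Function.Injective fun z : ZMod l => z - y := sub_left_injective
    have hcard : (A.image fun z => z - y).card = A.card := Finset.card_image_of_injective _ hinj
    have h0 : (0 : ZMod l) ∉ A.image fun z => z - y := by
      intro h
      obtain ⟨z, hz, hzy⟩ := Finset.mem_image.1 h
      exact hy (by rw [← sub_eq_zero.1 hzy]; exact hz)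
    have hsum : ∑ x : ZMod l, (quadraticChar (ZMod l) (∏ z ∈ A, (x + z)) : ℝ) =
        ∑ x : ZMod l, (quadraticChar (ZMod l) (∏ z ∈ A.image fun z => z - y, (x + z)) : ℝ) := by
      refine Fintype.sum_equiv (Equiv.addRight y) _ _ fun x => ?_
      rw [Finset.prod_image fun a _ b _ h => hinj h]
      have : ∀ z : ZMod l, Equiv.addRight y x + (z - y) = x + z := fun z => by
        simp only [Equiv.coe_addRight]; ring
      simp only [this]
    have h1 := sign_FLStepB l hl _ (hA.image _) h0 (by rw [hcard]; exact hc) 1 (Or.inl rfl)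
    have h2 := sign_FLStepB l hl _ (hA.image _) h0 (by rw [hcard]; exact hc) (-1) (Or.inr rfl)
    rw [hcard, ← hsum] at h1 h2
    have h3 : 0 ≤ (A.card : ℝ) * Real.sqrt l := by positivity
    push_cast at h1 h2
    rw [abs_le]
    constructor <;> linarith
  · have hc' : (l : ℝ) ≤ (100 * A.card) ^ 2 := by
      have : l ≤ (100 * A.card) ^ 2 := by
        have : (100 * A.card) ^ 2 = 10 ^ 4 * A.card ^ 2 := by ring
        omega
      exact_mod_cast this
    have hs : Real.sqrt l ≤ 100 * A.card := Real.sqrt_le_iff.2 ⟨by positivity, hc'⟩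
    have hb : |∑ x : ZMod l, (quadraticChar (ZMod l) (∏ z ∈ A, (x + z)) : ℝ)| ≤ l := by
      refine le_trans (Finset.abs_sum_le_sum_abs _ _) ?_
      refine le_trans (Finset.sum_le_sum (g := fun _ => (1 : ℝ)) fun x _ => ?_) ?_
      · rcases quadraticChar_isQuadratic (ZMod l) (∏ z ∈ A, (x + z)) with h | h | h <;>
          rw [h] <;> norm_num
      · simp [ZMod.card]
    refine le_trans hb ?_
    calc (l : ℝ) = Real.sqrt l * Real.sqrt l := (Real.mul_self_sqrt (Nat.cast_nonneg l)).symm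
      _ ≤ 100 * A.card * Real.sqrt l := mul_le_mul_of_nonneg_right hs hq0

end Pool.Agent.P.MP_b75a1e_co.EG
end

-- part Pool.Agent.P.MP_b75a1e_co.EGArith0
section

set_option autoImplicit false

open Finset
open scoped BigOperators ComplexConjugate

namespace Pool.Agent.P.MP_b75a1e_co.EG

variable {m Y : ℕ}

theorem cc_cases (m : ℕ) : (3 ∣ m ∧ cc m = 2) ∨ (¬ 3 ∣ m ∧ cc m = 6) := by
  unfold cc
  by_cases h : 3 ∣ m
  · exact Or.inl ⟨h, if_pos h⟩
  · exact Or.inr ⟨h, if_neg h⟩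

theorem cc_pos_EGArith0 (m : ℕ) : 1 ≤ cc m := by
  rcases cc_cases m with h | h <;> omega

theorem cc_le_EGArith0 (m : ℕ) : cc m ≤ 6 := by
  rcases cc_cases m with h | h <;> omega

theorem cc_dvd_EGArith0 (m : ℕ) : cc m ∣ 6 := by
  rcases cc_cases m with h | h <;> rw [h.2] <;> norm_num

theorem Q1_pos (m Y : ℕ) : 1 ≤ Q1 m Y := by
  refine Nat.succ_le_of_lt ?_
  unfold Q1
  exact prod_pos fun l hl => (mem_filter.1 hl).2.1.pos

theorem QQ_pos (m Y : ℕ) : 1 ≤ QQ m Y := by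
  have h1 := cc_pos_EGArith0 m
  have h2 := Q1_pos m Y
  exact Nat.succ_le_of_lt (by unfold QQ; positivity)

theorem M1_pos (hm : 1 ≤ m) (Y : ℕ) : 1 ≤ M1 m Y := by
  have h1 := cc_pos_EGArith0 m
  have h2 := Q1_pos m Y
  exact Nat.succ_le_of_lt (by unfold M1; positivity)

theorem M2_pos (hm : 1 ≤ m) (Y : ℕ) : 1 ≤ M2 m Y := by
  have h1 := cc_pos_EGArith0 m
  have h2 := Q1_pos m Y
  exact Nat.succ_le_of_lt (by unfold M2; positivity)

theorem M2_eq (m Y : ℕ) : M2 m Y = 2 * cc m * M1 m Y := by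
  unfold M2 M1; ring

theorem QQ_mul (m Y : ℕ) : QQ m Y * m = 2 * M2 m Y := by
  unfold QQ M2; ring

theorem prime_dvd_or_EGArith0 (m : ℕ) {l : ℕ} (hl : l.Prime) (hY : l ≤ Y) :
    l ∣ cc m * Q1 m Y ∨ l ∣ m := by
  by_cases hm : l ∣ m
  · exact Or.inr hm
  left
  by_cases h5 : 5 ≤ l
  · exact Dvd.dvd.mul_left
      (dvd_prod_of_mem _ (mem_filter.2 ⟨mem_range.2 (by omega), hl, h5, hm⟩)) _
  · refine Dvd.dvd.mul_right ?_ _
    have h2 := hl.two_le
    have h4 : l ≠ 4 := by rintro rfl; norm_num at hl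
    have : l = 2 ∨ l = 3 := by omega
    rcases this with rfl | rfl <;> rcases cc_cases m with h | h
    · rw [h.2]
    · rw [h.2]; norm_num
    · exact absurd h.1 hm
    · rw [h.2]; norm_num

theorem prime_dvd_all (m : ℕ) {l : ℕ} (hl : l.Prime) (hY : l ≤ Y) : l ∣ cc m * Q1 m Y * m := by
  rcases prime_dvd_or_EGArith0 m hl hY with h | h
  · exact h.mul_right _
  · exact h.mul_left _

theorem prime_dvd_M1 (m : ℕ) {l : ℕ} (hl : l.Prime) (hY : l ≤ Y) : l ∣ M1 m Y :=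
  (prime_dvd_all m hl hY).trans ⟨cc m, by unfold M1; ring⟩

theorem prime_dvd_QQ_or (m : ℕ) {l : ℕ} (hl : l.Prime) (hY : l ≤ Y) : l ∣ QQ m Y ∨ l ∣ m :=
  (prime_dvd_or_EGArith0 m hl hY).imp_left fun h =>
    h.trans ⟨4 * cc m ^ 2, by unfold QQ; ring⟩

theorem coprime_cc_EGArith0 (hodd : m % 2 = 1) : Nat.Coprime (cc m) m := by
  have h2 : Nat.Coprime 2 m := (Nat.Prime.coprime_iff_not_dvd Nat.prime_two).2 (by omega)
  rcases cc_cases m with h | h <;> rw [h.2]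
  · exact h2
  · exact Nat.Coprime.mul_left h2 ((Nat.Prime.coprime_iff_not_dvd Nat.prime_three).2 h.1)

theorem coprime_QQ (hodd : m % 2 = 1) (Y : ℕ) : Nat.Coprime (QQ m Y) m := by
  have h2 : Nat.Coprime 2 m := (Nat.Prime.coprime_iff_not_dvd Nat.prime_two).2 (by omega)
  have h4 : Nat.Coprime 4 m := Nat.Coprime.mul_left h2 h2
  refine Nat.Coprime.mul_left (Nat.Coprime.mul_left h4
    (Nat.Coprime.pow_left 3 (coprime_cc_EGArith0 hodd))) ?_
  refine Nat.Coprime.prod_left fun l hl => ?_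
  have := (mem_filter.1 hl).2
  exact (Nat.Prime.coprime_iff_not_dvd this.1).2 this.2.2

theorem smo_mul_EGArith0 {a b : ℕ} (ha : Smo Y a) (hb : Smo Y b) : Smo Y (a * b) :=
  fun l hl h => ((Nat.Prime.dvd_mul hl).1 h).elim (ha l hl) (hb l hl)

theorem smo_pow_EGArith0 {a : ℕ} (ha : Smo Y a) (k : ℕ) : Smo Y (a ^ k) :=
  fun l hl h => ha l hl (hl.dvd_of_dvd_pow h)

theorem smo_primorial_EGArith0 (Y : ℕ) : Smo Y (primorial Y) := fun l hl h => by
  obtain ⟨q, hq, hlq⟩ := (Prime.dvd_finsetProd_iff hl.prime _).1 h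
  have hq' := mem_filter.1 hq
  have := Nat.le_of_dvd hq'.2.pos hlq
  have := mem_range.1 hq'.1
  omega

theorem Q1_dvd_EGArith0 (m Y : ℕ) : Q1 m Y ∣ primorial Y :=
  prod_dvd_prod_of_subset _ _ _ fun l hl =>
    mem_filter.2 ⟨(mem_filter.1 hl).1, (mem_filter.1 hl).2.1⟩

theorem six_dvd_EGArith0 (hY : 3 ≤ Y) : 6 ∣ primorial Y := by
  have h2 : 2 ∣ primorial Y :=
    dvd_prod_of_mem _ (mem_filter.2 ⟨mem_range.2 (by omega), Nat.prime_two⟩)
  have h3 : 3 ∣ primorial Y :=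
    dvd_prod_of_mem _ (mem_filter.2 ⟨mem_range.2 (by omega), Nat.prime_three⟩)
  omega

theorem smo_of_dvd_EGArith0 {a : ℕ} (h : a ∣ primorial Y) : Smo Y a :=
  fun l hl h' => smo_primorial_EGArith0 Y l hl (h'.trans h)

theorem smo_M1 (hY : 3 ≤ Y) (hm : Smo Y m) : Smo Y (M1 m Y) :=
  smo_mul_EGArith0 (smo_mul_EGArith0 (smo_pow_EGArith0
    (smo_of_dvd_EGArith0 ((cc_dvd_EGArith0 m).trans (six_dvd_EGArith0 hY))) 2)
    (smo_of_dvd_EGArith0 (Q1_dvd_EGArith0 m Y))) hm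

theorem smo_M2 (hY : 3 ≤ Y) (hm : Smo Y m) : Smo Y (M2 m Y) := by
  rw [M2_eq]
  exact smo_mul_EGArith0 (smo_mul_EGArith0
    (smo_of_dvd_EGArith0 (Dvd.dvd.trans (by norm_num) (six_dvd_EGArith0 hY)))
    (smo_of_dvd_EGArith0 ((cc_dvd_EGArith0 m).trans (six_dvd_EGArith0 hY)))) (smo_M1 hY hm)

theorem Q1_le_EGArith0 (m Y : ℕ) : Q1 m Y ≤ 4 ^ Y :=
  (Nat.le_of_dvd (primorial_pos Y) (Q1_dvd_EGArith0 m Y)).trans (primorial_le_four_pow Y)

theorem QQ_le (m Y : ℕ) : QQ m Y ≤ 864 * 4 ^ Y := by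
  have h1 : cc m ^ 3 ≤ 6 ^ 3 := Nat.pow_le_pow_left (cc_le_EGArith0 m) 3
  exact Nat.mul_le_mul (by omega) (Q1_le_EGArith0 m Y)

theorem M2_le (m Y : ℕ) : M2 m Y ≤ 432 * 4 ^ Y * m := by
  have h1 : cc m ^ 3 ≤ 6 ^ 3 := Nat.pow_le_pow_left (cc_le_EGArith0 m) 3
  exact Nat.mul_le_mul (Nat.mul_le_mul (by omega) (Q1_le_EGArith0 m Y)) le_rfl

theorem M1_le (m Y : ℕ) : M1 m Y ≤ M2 m Y := by
  have h1 := cc_pos_EGArith0 m
  rw [M2_eq]
  exact Nat.le_mul_of_pos_left _ (by omega)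

theorem m_dvd_primorial (hsq : Squarefree m) (hm : Smo Y m) : m ∣ primorial Y := by
  rw [← Nat.prod_primeFactors_of_squarefree hsq]
  refine prod_dvd_prod_of_subset _ _ _ fun l hl => ?_
  have hp := Nat.prime_of_mem_primeFactors hl
  have := hm l hp (Nat.dvd_of_mem_primeFactors hl)
  exact mem_filter.2 ⟨mem_range.2 (by omega), hp⟩

theorem M1_dvd_E (hY : 3 ≤ Y) (hsq : Squarefree m) (hm : Smo Y m) : M1 m Y ∣ primorial Y ^ 10 := by
  have h1 := (cc_dvd_EGArith0 m).trans (six_dvd_EGArith0 hY)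
  refine (Nat.mul_dvd_mul (Nat.mul_dvd_mul (pow_dvd_pow_of_dvd h1 2) (Q1_dvd_EGArith0 m Y))
    (m_dvd_primorial hsq hm)).trans ⟨primorial Y ^ 6, by ring⟩

theorem QQ_dvd_E (hY : 3 ≤ Y) (m : ℕ) : QQ m Y ∣ primorial Y ^ 10 := by
  have h1 := (cc_dvd_EGArith0 m).trans (six_dvd_EGArith0 hY)
  have h2 : 2 ∣ primorial Y := Dvd.dvd.trans (by norm_num) (six_dvd_EGArith0 hY)
  have h4 : 4 ∣ primorial Y ^ 2 := pow_dvd_pow_of_dvd h2 2
  refine (Nat.mul_dvd_mul (Nat.mul_dvd_mul h4 (pow_dvd_pow_of_dvd h1 3))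
    (Q1_dvd_EGArith0 m Y)).trans ⟨primorial Y ^ 4, by ring⟩

theorem smo_E (Y : ℕ) : Smo Y (primorial Y ^ 10) :=
  smo_pow_EGArith0 (smo_primorial_EGArith0 Y) 10

theorem pure_mul_EGArith0 {a b : ℤ} (ha : Pure Y a) (hb : Pure Y b) : Pure Y (a * b) :=
  fun l hl hY h => ((Nat.prime_iff_prime_int.1 hl).dvd_or_dvd h).elim (ha l hl hY) (hb l hl hY)

theorem not_dvd_one_EGArith0 {l : ℕ} (hl : l.Prime) : ¬ (l : ℤ) ∣ 1 :=
  (Nat.prime_iff_prime_int.1 hl).not_dvd_one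

theorem Shape.mul {Γ C : O m} (h : Shape m Y Γ) (hC : (M1 m Y : O m) ∣ C - 1) : Shape m Y (Γ * C) := by
  obtain ⟨a, b, ha, hb, hm, hd⟩ := h
  refine ⟨a, b, ha, hb, hm, ?_⟩
  have e : Γ * C - (⟨a, a * (cc m * b)⟩ : O m) =
      Γ * (C - 1) + (Γ - (⟨a, a * (cc m * b)⟩ : O m)) := by ring
  rw [e]
  exact dvd_add (hC.mul_left _) hd

theorem shape_coord_EGArith0 {Γ : O m} {a c : ℤ} (hd : (M1 m Y : O m) ∣ Γ - (⟨a, c⟩ : O m)) :
    ((M1 m Y : ℕ) : ℤ) ∣ Γ.re - a ∧ ((M1 m Y : ℕ) : ℤ) ∣ Γ.im - c := by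
  simpa only [Zsqrtd.re_sub, Zsqrtd.im_sub] using (nat_dvd_iff _ _).1 hd

theorem Shape.diff {Γ : O m} (h : Shape m Y Γ) : (m : ℤ) ∣ Γ.im - Γ.re := by
  obtain ⟨a, b, -, -, hm, hd⟩ := h
  obtain ⟨h1, h2⟩ := shape_coord_EGArith0 hd
  have h3 : (m : ℤ) ∣ ((M1 m Y : ℕ) : ℤ) := Int.natCast_dvd_natCast.2 (Dvd.intro_left _ rfl)
  have e : Γ.im - Γ.re = (Γ.im - a * (cc m * b)) - (Γ.re - a) + a * (cc m * b - 1) := by ring
  rw [e]
  exact dvd_add (dvd_sub (h3.trans h2) (h3.trans h1)) (hm.mul_left _)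

theorem Shape.re {Γ : O m} (h : Shape m Y Γ) : Pure Y Γ.re := by
  obtain ⟨a, b, ha, -, -, hd⟩ := h
  intro l hl hY hdv
  have h1 := (Int.natCast_dvd_natCast.2 (prime_dvd_M1 m hl hY)).trans (shape_coord_EGArith0 hd).1
  exact ha l hl hY (by simpa using dvd_sub hdv h1)

theorem Shape.im {Γ : O m} (hm : 1 ≤ m) (h : Shape m Y Γ) : ∃ b : ℤ, Γ.im = cc m * b ∧ Pure Y b := by
  obtain ⟨a, b, ha, hb, -, hd⟩ := h
  obtain ⟨t, ht⟩ := (shape_coord_EGArith0 hd).2
  refine ⟨a * b + ((cc m * Q1 m Y * m : ℕ) : ℤ) * t, ?_, fun l hl hY hdv => ?_⟩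
  · simp only [M1] at ht
    push_cast at ht ⊢
    linear_combination ht
  · have h1 := (Int.natCast_dvd_natCast.2 (prime_dvd_all m hl hY)).mul_right t
    exact pure_mul_EGArith0 ha hb l hl hY ((dvd_add_left h1).1 hdv)

theorem slope_EGArith0 (hodd : m % 2 = 1) (S : Finset ℕ)
    (hS : ∀ l ∈ S, l.Prime ∧ 5 ≤ l ∧ ¬ l ∣ m) :
    ∃ b : ℤ, (cc m : ℤ) ∣ b - 1 ∧ (m : ℤ) ∣ cc m * b - 1 ∧
      ∀ l ∈ S, ¬ (l : ℤ) ∣ b ∧ ¬ (l : ℤ) ∣ 1 + m * (cc m * b) ^ 2 := by
  induction S using Finset.induction_on with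
  | empty =>
    obtain ⟨u, v, huv⟩ := Nat.isCoprime_iff_coprime.2 (coprime_cc_EGArith0 hodd)
    refine ⟨u + m * (v * (1 - u)), ⟨(u - 1) * u, ?_⟩, ⟨cc m * (v * (1 - u)) - v, ?_⟩, by simp⟩
    · linear_combination (1 - u) * huv
    · linear_combination huv
  | insert l S hlS ih =>
    obtain ⟨b, h1, h2, h3⟩ := ih fun q hq => hS q (mem_insert_of_mem hq)
    obtain ⟨hl, h5, hlm⟩ := hS l (mem_insert_self _ _)
    have hsm : ∀ n : ℕ, 0 < n → n < 5 → ¬ (l : ℤ) ∣ (n : ℤ) := fun n h0 hn h => by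
      have := Nat.le_of_dvd h0 (Int.natCast_dvd_natCast.1 h)
      omega
    obtain ⟨r, hr1, hr2⟩ : ∃ r : ℤ, ¬ (l : ℤ) ∣ r ∧ ¬ (l : ℤ) ∣ 1 + m * (cc m * r) ^ 2 := by
      by_cases h : (l : ℤ) ∣ 1 + m * (cc m * 1) ^ 2
      · refine ⟨2, hsm 2 (by norm_num) (by norm_num), fun h' => hsm 3 (by norm_num) (by norm_num) ?_⟩
        have e : ((3 : ℕ) : ℤ) = 4 * (1 + m * (cc m * 1) ^ 2) - (1 + m * (cc m * 2) ^ 2) := by
          push_cast; ring
        rw [e]
        exact dvd_sub (h.mul_left 4) h'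
      · exact ⟨1, hsm 1 (by norm_num) (by norm_num), h⟩
    have hcop : Nat.Coprime l (cc m * m * ∏ q ∈ S, q) := by
      refine Nat.Coprime.mul_right (Nat.Coprime.mul_right ?_ ?_) ?_
      · refine (Nat.Prime.coprime_iff_not_dvd hl).2 fun h => ?_
        have h6 := h.trans (cc_dvd_EGArith0 m)
        have : l ∣ 2 * 3 := h6
        rcases (Nat.Prime.dvd_mul hl).1 this with h' | h' <;>
          have := Nat.le_of_dvd (by norm_num) h' <;> omega
      · exact (Nat.Prime.coprime_iff_not_dvd hl).2 hlm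
      · refine Nat.Coprime.prod_right fun q hq => ?_
        refine (Nat.coprime_primes hl (hS q (mem_insert_of_mem hq)).1).2 ?_
        rintro rfl
        exact hlS hq
    obtain ⟨u, v, huv⟩ := Nat.isCoprime_iff_coprime.2 hcop
    have hN : ∀ n : ℕ, n ∣ cc m * m * ∏ q ∈ S, q →
        (n : ℤ) ∣ ((cc m * m * ∏ q ∈ S, q : ℕ) : ℤ) * (v * (r - b)) := fun n hn =>
      (Int.natCast_dvd_natCast.2 hn).mul_right _
    have key : ∀ (n x y : ℤ), n ∣ x - y → (¬ n ∣ y ∧ ¬ n ∣ 1 + m * (cc m * y) ^ 2) →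
        (¬ n ∣ x ∧ ¬ n ∣ 1 + m * (cc m * x) ^ 2) := fun n x y hxy h => by
      refine ⟨fun h' => h.1 (by simpa using dvd_sub h' hxy), fun h' => h.2 ?_⟩
      have e : 1 + (m : ℤ) * (cc m * y) ^ 2 =
          1 + m * (cc m * x) ^ 2 - (x - y) * (m * cc m ^ 2 * (x + y)) := by ring
      rw [e]
      exact dvd_sub h' (hxy.mul_right _)
    generalize ((cc m * m * ∏ q ∈ S, q : ℕ) : ℤ) = N at huv hN
    refine ⟨b + N * (v * (r - b)), ?_, ?_, fun q hq => ?_⟩
    · have e : b + N * (v * (r - b)) - 1 = b - 1 + N * (v * (r - b)) := by ring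
      rw [e]
      exact dvd_add h1 (hN _ ((Dvd.intro _ rfl).mul_right _))
    · have e : (cc m : ℤ) * (b + N * (v * (r - b))) - 1 =
          cc m * b - 1 + cc m * (N * (v * (r - b))) := by ring
      rw [e]
      exact dvd_add h2 ((hN _ ((Dvd.intro_left _ rfl).mul_right _)).mul_left _)
    · rcases mem_insert.1 hq with rfl | hq
      · exact key _ _ r ⟨u * (b - r), by linear_combination (r - b) * huv⟩ ⟨hr1, hr2⟩
      · refine key _ _ b ?_ (h3 q hq)
        rw [add_sub_cancel_left]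
        exact hN _ ((dvd_prod_of_mem (fun q => q) hq).mul_left _)

/-- The slope of the base point can be chosen. -/
theorem exists_slope (hodd : m % 2 = 1) (hm : Smo Y m) :
    ∃ b : ℤ, Pure Y b ∧ (m : ℤ) ∣ cc m * b - 1 ∧ Pure Y (1 + m * (cc m * b) ^ 2) := by
  obtain ⟨b, h1, h2, h3⟩ := slope_EGArith0 hodd
    ((range (Y + 1)).filter fun l => l.Prime ∧ 5 ≤ l ∧ ¬ l ∣ m) fun l hl => (mem_filter.1 hl).2
  have key : ∀ l : ℕ, l.Prime → l ≤ Y → ¬ (l : ℤ) ∣ b ∧ ¬ (l : ℤ) ∣ 1 + m * (cc m * b) ^ 2 := by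
    intro l hl hY
    have one := not_dvd_one_EGArith0 hl
    rcases prime_dvd_or_EGArith0 m hl hY with h | h
    · rcases (Nat.Prime.dvd_mul hl).1 h with h | h
      · have h' : (l : ℤ) ∣ cc m := Int.natCast_dvd_natCast.2 h
        refine ⟨fun hb => one (by simpa using dvd_sub hb (h'.trans h1)), fun hb => one ?_⟩
        exact (dvd_add_left ((dvd_pow (h'.mul_right b) two_ne_zero).mul_left _)).1 hb
      · obtain ⟨q, hq, hlq⟩ := (Prime.dvd_finsetProd_iff hl.prime _).1 h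
        have := (Nat.prime_dvd_prime_iff_eq hl (mem_filter.1 hq).2.1).1 hlq
        subst this
        exact h3 l hq
    · have h' : (l : ℤ) ∣ m := Int.natCast_dvd_natCast.2 h
      refine ⟨fun hb => one (by simpa using dvd_sub (hb.mul_left (cc m : ℤ)) (h'.trans h2)),
        fun hb => one ((dvd_add_left (h'.mul_right _)).1 hb)⟩
  exact ⟨b, fun l hl hY => (key l hl hY).1, h2, fun l hl hY => (key l hl hY).2⟩

/-- The residue of the partner coordinate. -/
theorem exists_partner (hodd : m % 2 = 1) (Y : ℕ) :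
    ∃ ζ : O m, (QQ m Y : O m) ∣ ζ - rt m ∧ (m : O m) ^ 2 ∣ ζ - 1 := by
  obtain ⟨u, v, huv⟩ := (Nat.isCoprime_iff_coprime.2 (coprime_QQ hodd Y)).pow_right (n := 2)
  have h : (u : O m) * (QQ m Y : O m) + (v : O m) * (m : O m) ^ 2 = 1 := by
    have := congrArg (Int.cast : ℤ → O m) huv
    push_cast at this
    exact this
  refine ⟨(u : O m) * (QQ m Y : O m) + (v : O m) * (m : O m) ^ 2 * rt m,
    ⟨(u : O m) * (1 - rt m), ?_⟩, ⟨(v : O m) * (rt m - 1), ?_⟩⟩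
  · linear_combination rt m * h
  · linear_combination h

theorem norm_one_EGArith0 {z : O m} {l : ℕ} (hl : l.Prime) (h : (l : O m) ∣ z - 1) :
    ¬ (l : ℤ) ∣ z.norm := fun hn => by
  obtain ⟨h1, h2⟩ := (nat_dvd_iff _ _).1 h
  simp only [Zsqrtd.re_sub, Zsqrtd.im_sub, Zsqrtd.re_one, Zsqrtd.im_one, sub_zero] at h1 h2
  have e : (1 : ℤ) = z.norm - (z.re - 1) * (z.re + 1) - z.im * (m * z.im) := by
    rw [norm_eq]; ring
  refine not_dvd_one_EGArith0 hl ?_
  rw [e]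
  exact dvd_sub (dvd_sub hn (h1.mul_right _)) (h2.mul_right _)

theorem pure_partner (hodd : m % 2 = 1) {z : O m} (h1 : (QQ m Y : O m) ∣ z - rt m)
    (h2 : (m : O m) ^ 2 ∣ z - 1) : Pure Y z.norm := by
  intro l hl hY hn
  rcases prime_dvd_QQ_or m hl hY with h | h
  · obtain ⟨a1, a2⟩ := (nat_dvd_iff _ _).1 ((Nat.cast_dvd_cast h).trans h1)
    simp only [Zsqrtd.re_sub, Zsqrtd.im_sub, rt, sub_zero] at a1 a2
    have e : (m : ℤ) = z.norm - z.re * z.re - (z.im - 1) * (m * (z.im + 1)) := by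
      rw [norm_eq]; ring
    have h3 : (l : ℤ) ∣ m := by
      rw [e]
      exact dvd_sub (dvd_sub hn (a1.mul_right _)) (a2.mul_right _)
    exact hl.one_lt.ne' (Nat.eq_one_of_dvd_coprimes (coprime_QQ hodd Y) h
      (Int.natCast_dvd_natCast.1 h3))
  · exact norm_one_EGArith0 hl
      ((dvd_pow (Nat.cast_dvd_cast h) two_ne_zero).trans h2) hn

theorem Pure.mul {a b : ℤ} (ha : Pure Y a) (hb : Pure Y b) : Pure Y (a * b) :=
  pure_mul_EGArith0 ha hb

theorem pure_of_one {z : O m} (h : (M1 m Y : O m) ∣ z - 1) : Pure Y z.norm :=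
  fun _ hl hY => norm_one_EGArith0 hl ((Nat.cast_dvd_cast (prime_dvd_M1 m hl hY)).trans h)

end Pool.Agent.P.MP_b75a1e_co.EG
end

-- part Pool.Agent.P.MP_b75a1e_co.EGBlock
section

set_option autoImplicit false

open Finset
open scoped BigOperators ComplexConjugate

namespace Pool.Agent.P.MP_b75a1e_co.EG

theorem card_EGBlock {B : ℝ} (hB : 0 ≤ B) : ((Icc ⌊-B⌋ ⌊B⌋).card : ℝ) ≤ 2 * B + 2 := by
  have h1 : ⌊-B⌋ ≤ ⌊B⌋ + 1 := (Int.floor_mono (by linarith)).trans (lt_add_one _).le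
  have h2 : (((Icc ⌊-B⌋ ⌊B⌋).card : ℤ) : ℝ) = ((⌊B⌋ + 1 - ⌊-B⌋ : ℤ) : ℝ) :=
    congrArg _ (Int.card_Icc_of_le _ _ h1)
  push_cast at h2
  linarith [Int.floor_le B, Int.lt_floor_add_one (-B)]

theorem mem_EGBlock {x c B D : ℝ} (hc : 0 < c) (h : |x| ≤ D) (hB : D * c = B) :
    ⌊x * c⌋ ∈ Icc ⌊-B⌋ ⌊B⌋ := by
  obtain ⟨h1, h2⟩ := abs_le.1 h
  exact mem_Icc.2 ⟨Int.floor_mono (by nlinarith), Int.floor_mono (by nlinarith)⟩

theorem cell_EGBlock {z z' : ℂ} {c : ℝ} (h1 : ⌊z.re * c⌋ = ⌊z'.re * c⌋)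
    (h2 : ⌊z.im * c⌋ = ⌊z'.im * c⌋) : ‖z - z'‖ ^ 2 * c ^ 2 ≤ 2 := by
  have a1 := abs_lt.1 (Int.abs_sub_lt_one_of_floor_eq_floor h1)
  have a2 := abs_lt.1 (Int.abs_sub_lt_one_of_floor_eq_floor h2)
  rw [Complex.sq_norm, Complex.normSq_apply, Complex.sub_re, Complex.sub_im]
  nlinarith [a1.1, a1.2, a2.1, a2.2]

open Classical in
/-- Few small elements are nearly annihilated by a point that is not low. -/
theorem bohr (m : ℕ) (hm : 1 ≤ m) (s lam : ℝ) (β : ℂ) (hs : 1 ≤ s) (hlam : 10 ^ 4 * s ^ 2 * m ≤ lam)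
    (hβ : ¬ Low m β (lam ^ 60) (lam ^ 200)) (T : Finset (O m))
    (hT : ∀ w ∈ T, ‖ph m w‖ ≤ 2 * (s * lam ^ 50) ∧
      ∃ a : O m, |(β * ph m w - ph m a).re| ≤ Real.sqrt m / lam ^ 44 ∧
        |(β * ph m w - ph m a).im| ≤ Real.sqrt m / lam ^ 44) :
    (T.card : ℝ) ≤ lam ^ 93 := by
  have hm1 : (1 : ℝ) ≤ m := by exact_mod_cast hm
  have hl1 : 1 ≤ lam := le_trans (by nlinarith [one_le_pow₀ (n := 2) hs]) hlam
  have hl0 : 0 < lam := by linarith
  have hq : Real.sqrt m ^ 2 = m := Real.sq_sqrt (by linarith)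
  have hq1 : 1 ≤ Real.sqrt m := Real.one_le_sqrt.2 hm1
  choose! a ha using fun w hw => (hT w hw).2
  have key := card_le_card_of_injOn (s := T)
    (t := (Icc ⌊-(4 * s * lam ^ 20)⌋ ⌊4 * s * lam ^ 20⌋ ×ˢ
      Icc ⌊-(4 * s * lam ^ 20)⌋ ⌊4 * s * lam ^ 20⌋) ×ˢ
      (Icc ⌊-(2 * Real.sqrt m * lam ^ 26)⌋ ⌊2 * Real.sqrt m * lam ^ 26⌋ ×ˢ
        Icc ⌊-(2 * Real.sqrt m * lam ^ 26)⌋ ⌊2 * Real.sqrt m * lam ^ 26⌋))
    (fun w => ((⌊(ph m w).re * (2 / lam ^ 30)⌋, ⌊(ph m w).im * (2 / lam ^ 30)⌋),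
      (⌊(β * ph m w - ph m (a w)).re * (2 * lam ^ 70)⌋,
        ⌊(β * ph m w - ph m (a w)).im * (2 * lam ^ 70)⌋)))
    (fun w hw => by
      have e1 : 2 * (s * lam ^ 50) * (2 / lam ^ 30) = 4 * s * lam ^ 20 := by field_simp; ring
      have e2 : Real.sqrt m / lam ^ 44 * (2 * lam ^ 70) = 2 * Real.sqrt m * lam ^ 26 := by
        field_simp
      refine mem_coe.2 (mem_product.2 ⟨mem_product.2 ⟨?_, ?_⟩, mem_product.2 ⟨?_, ?_⟩⟩)
      · exact mem_EGBlock (by positivity) ((Complex.abs_re_le_norm _).trans (hT w hw).1) e1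
      · exact mem_EGBlock (by positivity) ((Complex.abs_im_le_norm _).trans (hT w hw).1) e1
      · exact mem_EGBlock (by positivity) (ha w hw).1 e2
      · exact mem_EGBlock (by positivity) (ha w hw).2 e2)
    (fun w _ w' _ he => by
      by_contra hne
      simp only [Prod.mk.injEq] at he
      have h1 := cell_EGBlock he.1.1 he.1.2
      have h2 := cell_EGBlock he.2.1 he.2.2
      refine hβ ⟨w - w', a w - a w', sub_ne_zero.2 hne, ?_, ?_⟩
      · rw [← norm_sq_ph, map_sub]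
        rw [div_pow, ← mul_div_assoc, div_le_iff₀ (by positivity)] at h1
        nlinarith [pow_pos hl0 60]
      · have e : β * ph m (w - w') - ph m (a w - a w') =
            β * ph m w - ph m (a w) - (β * ph m w' - ph m (a w')) := by
          rw [map_sub, map_sub]
          ring
        rw [e]
        have h3 := mul_le_mul_of_nonneg_right h2 (pow_pos hl0 60).le
        nlinarith [pow_pos hl0 60])
  have k2 := (Nat.cast_le (α := ℝ)).2 key
  rw [card_product, card_product, card_product] at k2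
  push_cast at k2
  have b1 : ((Icc ⌊-(4 * s * lam ^ 20)⌋ ⌊4 * s * lam ^ 20⌋).card : ℝ) ≤ 10 * s * lam ^ 20 := by
    refine (card_EGBlock (by positivity)).trans ?_
    nlinarith [one_le_mul_of_one_le_of_one_le hs (one_le_pow₀ (n := 20) hl1)]
  have b2 : ((Icc ⌊-(2 * Real.sqrt m * lam ^ 26)⌋ ⌊2 * Real.sqrt m * lam ^ 26⌋).card : ℝ) ≤
      6 * Real.sqrt m * lam ^ 26 := by
    refine (card_EGBlock (by positivity)).trans ?_
    nlinarith [one_le_mul_of_one_le_of_one_le hq1 (one_le_pow₀ (n := 26) hl1)]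
  calc (T.card : ℝ) ≤ _ := k2
    _ ≤ (10 * s * lam ^ 20 * (10 * s * lam ^ 20)) *
        (6 * Real.sqrt m * lam ^ 26 * (6 * Real.sqrt m * lam ^ 26)) := by gcongr
    _ = 3600 * s ^ 2 * Real.sqrt m ^ 2 * lam ^ 92 := by ring
    _ ≤ lam * lam ^ 92 := by
      rw [hq]
      exact mul_le_mul_of_nonneg_right (by nlinarith [sq_nonneg s]) (by positivity)
    _ = lam ^ 93 := by ring

theorem geo_EGBlock (K N : ℕ) (b : ℝ) : ‖∑ v ∈ range N, ee (b * ((v : ℝ) - K))‖ ≤ N ∧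
    ∀ δ : ℝ, 0 < δ → (∀ z : ℤ, δ ≤ |b - z|) →
      ‖∑ v ∈ range N, ee (b * ((v : ℝ) - K))‖ ≤ 1 / (2 * δ) := by
  refine ⟨(norm_sum_le _ _).trans (by simp [norm_ee]), fun δ hδ h => ?_⟩
  have := geom_ee (-(b * K)) b δ hδ h N
  rwa [sum_congr rfl fun (v : ℕ) _ =>
    congrArg ee (show -(b * K) + b * v = b * ((v : ℝ) - K) by ring)] at this

/-- The sum of a character over a box. -/
theorem box_EGBlock {m : ℕ} (hm : 1 ≤ m) (β : ℂ) (w : O m) (K N : ℕ) {δ : ℝ} (hδ : 0 < δ) :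
    ‖∑ p ∈ range N ×ˢ range N, ee (pr m β (ph m (w * ⟨(p.1 : ℤ) - K, (p.2 : ℤ) - K⟩)))‖ ≤ N * N ∧
      ((¬ ∃ a : O m, |(β * ph m w - ph m a).re| ≤ Real.sqrt m * δ ∧
        |(β * ph m w - ph m a).im| ≤ Real.sqrt m * δ) →
      ‖∑ p ∈ range N ×ˢ range N, ee (pr m β (ph m (w * ⟨(p.1 : ℤ) - K, (p.2 : ℤ) - K⟩)))‖ ≤
        N * (1 / (2 * δ))) := by
  have hq1 : 1 ≤ Real.sqrt m := Real.one_le_sqrt.2 (by exact_mod_cast hm)
  have e : ∑ p ∈ range N ×ˢ range N, ee (pr m β (ph m (w * ⟨(p.1 : ℤ) - K, (p.2 : ℤ) - K⟩))) =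
      (∑ v ∈ range N, ee ((β * ph m w).im / Real.sqrt m * ((v : ℝ) - K))) *
        ∑ v ∈ range N, ee ((β * ph m w).re * ((v : ℝ) - K)) := by
    rw [sum_mul_sum, sum_product]
    refine sum_congr rfl fun i _ => sum_congr rfl fun j _ => ?_
    rw [map_mul, pr_mul, pr_coord hm, ← ee_add, add_comm]
    push_cast
    rfl
  obtain ⟨a1, a2⟩ := geo_EGBlock K N ((β * ph m w).im / Real.sqrt m)
  obtain ⟨b1, b2⟩ := geo_EGBlock K N (β * ph m w).re
  rw [e, norm_mul]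
  refine ⟨mul_le_mul a1 b1 (norm_nonneg _) (by positivity), fun h => ?_⟩
  by_cases h1 : ∀ z : ℤ, δ ≤ |(β * ph m w).re - z|
  · exact mul_le_mul a1 (b2 δ hδ h1) (norm_nonneg _) (by positivity)
  rw [mul_comm]
  refine mul_le_mul b1 (a2 δ hδ fun z' => ?_) (norm_nonneg _) (by positivity)
  push Not at h1
  obtain ⟨z, hz⟩ := h1
  by_contra h2
  refine h ⟨⟨z, z'⟩, ?_, ?_⟩
  · rw [Complex.sub_re, ph_re]
    exact hz.le.trans (le_mul_of_one_le_left hδ.le hq1)
  · have e2 : (β * ph m w).im - z' * Real.sqrt m =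
        Real.sqrt m * ((β * ph m w).im / Real.sqrt m - z') := by field_simp
    rw [Complex.sub_im, ph_im, e2, abs_mul, abs_of_pos (by linarith)]
    exact mul_le_mul_of_nonneg_left (not_le.1 h2).le (by linarith)

theorem sq_EGBlock {m : ℕ} (U : Finset (O m)) (β : ℂ) (y : O m) :
    ((‖∑ u ∈ U, ee (pr m β (ph m (u * y)))‖ ^ 2 : ℝ) : ℂ) =
      ∑ u ∈ U, ∑ v ∈ U, ee (pr m β (ph m ((u - v) * y))) := by
  rw [Complex.ofReal_pow, ← Complex.mul_conj', map_sum, sum_mul_sum]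
  refine sum_congr rfl fun u _ => sum_congr rfl fun v _ => ?_
  rw [← ee_neg, ← ee_add, sub_mul, map_sub, pr_sub_right, sub_eq_add_neg]

/-- L4: the double sieve bound for one block. -/
theorem block (m : ℕ) (hm : 1 ≤ m) (U : Finset (O m)) (s lam : ℝ) (β : ℂ) (hs : 1 ≤ s)
    (hlam : 10 ^ 4 * s ^ 2 * m ≤ lam) (hU : ∀ u ∈ U, ‖ph m u‖ ≤ s * lam ^ 50)
    (hc : lam ^ 99 ≤ U.card) (hβ : ¬ Low m β (lam ^ 60) (lam ^ 200)) :
    ‖ch (fun q : U × U => (q.1 : O m) * (q.2 : O m)) β‖ ≤ 1 / lam := by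
  classical
  have hm1 : (1 : ℝ) ≤ m := by exact_mod_cast hm
  have hs2 : 1 ≤ s ^ 2 := one_le_pow₀ hs
  have hl2 : 10 ^ 4 * s ^ 2 ≤ lam := le_trans (by nlinarith) hlam
  have hl1 : 1 ≤ lam := by linarith
  have hl0 : 0 < lam := by linarith
  have hR : 1 ≤ s * lam ^ 50 := one_le_mul_of_one_le_of_one_le hs (one_le_pow₀ hl1)
  have hn : (0 : ℝ) < U.card := (pow_pos hl0 99).trans_le hc
  obtain ⟨K, hK⟩ : ∃ K : ℕ, K = ⌊s * lam ^ 50⌋₊ := ⟨_, rfl⟩
  obtain ⟨N, hN⟩ : ∃ N : ℕ, N = 2 * K + 1 := ⟨_, rfl⟩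
  have hN3 : (N : ℝ) ≤ 3 * (s * lam ^ 50) := by
    have := Nat.floor_le (zero_le_one.trans hR)
    rw [hN, hK]
    push_cast
    linarith
  have hco : ∀ x : ℤ, |(x : ℝ)| ≤ s * lam ^ 50 → ∃ i ∈ range N, (i : ℤ) - K = x := fun x hx => by
    have h1 : x.natAbs ≤ K := by
      rw [hK]
      refine Nat.le_floor ?_
      rwa [Nat.cast_natAbs, Int.cast_abs]
    exact ⟨(x + K).toNat, mem_range.2 (by omega), by omega⟩
  have e0 : ch (fun q : U × U => (q.1 : O m) * (q.2 : O m)) β =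
      (∑ y ∈ U, ∑ u ∈ U, ee (pr m β (ph m (u * y)))) / (U.card * U.card) := by
    rw [ch, Fintype.expect_eq_sum_div_card, Fintype.sum_prod_type_right, Fintype.card_prod,
      Fintype.card_coe, Nat.cast_mul,
      ← sum_coe_sort U fun y => ∑ u ∈ U, ee (pr m β (ph m (u * y)))]
    congr 1
    exact sum_congr rfl fun y _ => sum_coe_sort U fun u => ee (pr m β (ph m (u * y)))
  have h1 : ‖∑ y ∈ U, ∑ u ∈ U, ee (pr m β (ph m (u * y)))‖ ^ 2 ≤
      U.card * ∑ y ∈ U, ‖∑ u ∈ U, ee (pr m β (ph m (u * y)))‖ ^ 2 :=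
    (pow_le_pow_left₀ (norm_nonneg _) (norm_sum_le _ _) 2).trans sq_sum_le_card_mul_sum_sq
  have h2 : ∑ y ∈ U, ‖∑ u ∈ U, ee (pr m β (ph m (u * y)))‖ ^ 2 ≤ ∑ p ∈ range N ×ˢ range N,
      ‖∑ u ∈ U, ee (pr m β (ph m (u * ⟨(p.1 : ℤ) - K, (p.2 : ℤ) - K⟩)))‖ ^ 2 := by
    rw [← sum_image (s := range N ×ˢ range N)
      (g := fun p : ℕ × ℕ => (⟨(p.1 : ℤ) - K, (p.2 : ℤ) - K⟩ : O m))
      (f := fun y => ‖∑ u ∈ U, ee (pr m β (ph m (u * y)))‖ ^ 2) fun p _ q _ h => by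
        simp only [Zsqrtd.mk.injEq] at h
        exact Prod.ext (by omega) (by omega)]
    refine sum_le_sum_of_subset_of_nonneg (fun y hy => ?_) fun _ _ _ => sq_nonneg _
    obtain ⟨i, hi, e1⟩ := hco _ ((abs_re_le y).trans (hU y hy))
    obtain ⟨j, hj, e2⟩ := hco _ ((abs_im_le hm y).trans (hU y hy))
    exact mem_image.2 ⟨(i, j), mem_product.2 ⟨hi, hj⟩, Zsqrtd.ext e1 e2⟩
  have h3 : ∑ p ∈ range N ×ˢ range N,
      ‖∑ u ∈ U, ee (pr m β (ph m (u * ⟨(p.1 : ℤ) - K, (p.2 : ℤ) - K⟩)))‖ ^ 2 ≤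
      ∑ u ∈ U, ∑ v ∈ U, ‖∑ p ∈ range N ×ˢ range N,
        ee (pr m β (ph m ((u - v) * ⟨(p.1 : ℤ) - K, (p.2 : ℤ) - K⟩)))‖ := by
    refine (le_abs_self _).trans ?_
    rw [← Real.norm_eq_abs, ← Complex.norm_real, Complex.ofReal_sum]
    simp only [sq_EGBlock]
    rw [sum_comm]
    refine (norm_sum_le _ _).trans (sum_le_sum fun u _ => ?_)
    rw [sum_comm]
    exact norm_sum_le _ _
  have h4 : ∀ u ∈ U, ∑ v ∈ U, ‖∑ p ∈ range N ×ˢ range N,
      ee (pr m β (ph m ((u - v) * ⟨(p.1 : ℤ) - K, (p.2 : ℤ) - K⟩)))‖ ≤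
      lam ^ 93 * (N * N) + U.card * (N * (1 / (2 * (lam ^ 44)⁻¹))) := fun u hu => by
    have hδ : 0 < (lam ^ 44)⁻¹ := by positivity
    rw [← sum_filter_add_sum_filter_not U fun v => ∃ a : O m,
      |(β * ph m (u - v) - ph m a).re| ≤ Real.sqrt m * (lam ^ 44)⁻¹ ∧
        |(β * ph m (u - v) - ph m a).im| ≤ Real.sqrt m * (lam ^ 44)⁻¹]
    refine add_le_add ?_ ?_
    · refine (sum_le_card_nsmul _ _ _ fun v _ => (box_EGBlock hm β (u - v) K N hδ).1).trans ?_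
      rw [nsmul_eq_mul, ← card_image_of_injective _ (sub_right_injective (b := u))]
      refine mul_le_mul_of_nonneg_right (bohr m hm s lam β hs hlam hβ _ fun w hw => ?_)
        (by positivity)
      obtain ⟨v, hv, rfl⟩ := mem_image.1 hw
      refine ⟨?_, (mem_filter.1 hv).2⟩
      rw [map_sub, two_mul]
      exact (norm_sub_le _ _).trans (add_le_add (hU u hu) (hU v (mem_filter.1 hv).1))
    · refine (sum_le_card_nsmul _ _ _ fun v hv =>
        (box_EGBlock hm β (u - v) K N hδ).2 (mem_filter.1 hv).2).trans ?_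
      rw [nsmul_eq_mul]
      exact mul_le_mul_of_nonneg_right (Nat.cast_le.2 (card_filter_le _ _)) (by positivity)
  have h5 := h1.trans (mul_le_mul_of_nonneg_left
    ((h2.trans h3).trans (sum_le_card_nsmul _ _ _ h4)) hn.le)
  rw [nsmul_eq_mul] at h5
  rw [e0, norm_div, norm_mul, Complex.norm_natCast, div_le_div_iff₀ (by positivity) hl0, one_mul]
  refine le_of_sq_le_sq ?_ (by positivity)
  generalize ‖∑ y ∈ U, ∑ u ∈ U, ee (pr m β (ph m (u * y)))‖ = x at h5 ⊢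
  generalize (U.card : ℝ) = n at h5 hc hn ⊢
  have hN4 : (N : ℝ) ≤ 3 * s * lam ^ 50 := by linarith
  have c1 : lam ^ 93 * (N * N) * lam ^ 2 ≤ n * n / 2 :=
    calc lam ^ 93 * (N * N) * lam ^ 2
        ≤ lam ^ 93 * (3 * s * lam ^ 50 * (3 * s * lam ^ 50)) * lam ^ 2 := by gcongr
      _ = 9 * s ^ 2 * lam ^ 195 := by ring
      _ ≤ lam / 2 * lam ^ 197 :=
          mul_le_mul (by linarith) (pow_le_pow_right₀ hl1 (by norm_num)) (by positivity)
            (by positivity)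
      _ = lam ^ 99 * lam ^ 99 / 2 := by ring
      _ ≤ n * n / 2 := by gcongr
  have c2 : n * (N * (1 / (2 * (lam ^ 44)⁻¹))) * lam ^ 2 ≤ n * n / 2 :=
    calc n * (N * (1 / (2 * (lam ^ 44)⁻¹))) * lam ^ 2
        ≤ n * (3 * s * lam ^ 50 * (1 / (2 * (lam ^ 44)⁻¹))) * lam ^ 2 := by gcongr
      _ = n * (3 * s * lam ^ 96) / 2 := by field_simp
      _ ≤ n * (lam * lam ^ 98) / 2 := by
          gcongr
          · nlinarith
          · norm_num
      _ = n * lam ^ 99 / 2 := by ring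
      _ ≤ n * n / 2 := by gcongr
  have h6 := mul_le_mul_of_nonneg_right h5 (sq_nonneg lam)
  have h7 := mul_le_mul_of_nonneg_left (add_le_add c1 c2) (mul_pos hn hn).le
  calc (x * lam) ^ 2 = x ^ 2 * lam ^ 2 := by ring
    _ ≤ _ := h6
    _ = _ := by ring
    _ ≤ _ := h7
    _ = (n * n) ^ 2 := by ring

end Pool.Agent.P.MP_b75a1e_co.EG
end

-- part Pool.Agent.P.MP_b75a1e_co.EGBox
section

set_option autoImplicit false

open Finset
open scoped BigOperators ComplexConjugate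

namespace Pool.Agent.P.MP_b75a1e_co.EG

variable {m : ℕ}

theorem mul_star_EGBox (x : O m) : x * star x = ((x.norm : ℤ) : O m) :=
  (Zsqrtd.norm_eq_mul_conj x).symm

theorem prod_pos_EGBox {D : Finset ℕ} (hD : ∀ l ∈ D, l.Prime) : (1 : ℤ) ≤ ∏ l ∈ D, (l : ℤ) := by
  have h : (0 : ℤ) < ∏ l ∈ D, (l : ℤ) :=
    Finset.prod_pos fun l hl => by exact_mod_cast (hD l hl).pos
  omega

theorem cop_prod_EGBox {D D' : Finset ℕ} (hd : Disjoint D D') (hD : ∀ l ∈ D, l.Prime)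
    (hD' : ∀ l ∈ D', l.Prime) : IsCoprime (∏ l ∈ D, (l : ℤ)) (∏ l ∈ D', (l : ℤ)) := by
  refine IsCoprime.prod_left fun l hl => IsCoprime.prod_right fun l' hl' => ?_
  rw [Nat.isCoprime_iff_coprime]
  refine (Nat.coprime_primes (hD l hl) (hD' l' hl')).2 ?_
  rintro rfl
  exact (Finset.disjoint_left.1 hd hl) hl'

theorem cop_m_EGBox {D : Finset ℕ} (hD : ∀ l ∈ D, Split m l) :
    IsCoprime (m : ℤ) (∏ l ∈ D, (l : ℤ)) := by
  refine IsCoprime.prod_right fun l hl => ?_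
  rw [Nat.isCoprime_iff_coprime]
  refine ((Nat.Prime.coprime_iff_not_dvd (hD l hl).1).2 ?_).symm
  intro h
  exact (hD l hl).2.1 (Dvd.dvd.mul_left h 2)

theorem unit_EGBox (hm : 2 ≤ m) {u : O m} (hu : u.norm = 1) : u = 1 ∨ u = -1 := by
  rw [norm_eq] at hu
  have hm' : (2 : ℤ) ≤ m := by exact_mod_cast hm
  have hb : u.im = 0 := by
    by_contra hb
    have h1 : 1 ≤ u.im ^ 2 := by
      have : 0 < u.im ^ 2 := by positivity
      omega
    nlinarith [sq_nonneg u.re]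
  rw [hb] at hu
  have ha : u.re ^ 2 = 1 := by simpa using hu
  rcases sq_eq_one_iff.1 ha with h | h
  · left
    ext <;> simp [h, hb]
  · right
    ext <;> simp [h, hb]

theorem ne_zero_EGBox {x : O m} (hx : 1 ≤ x.norm) : x ≠ 0 := by
  rintro rfl
  simp at hx

/-- Two elements of one box that differ by a sign cannot exist. -/
theorem not_neg_EGBox (hm : 2 ≤ m) {D : Finset ℕ} {ρ : ℤ} {V : Finset (O m)} (h : Box m D ρ V)
    (hD : ∀ l ∈ D, Split m l) {x : O m} (hx : x ∈ V) (hx' : -x ∈ V) : False := by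
  have h1 := h.res x hx
  have h2 := h.res (-x) hx'
  have h3 : (m : O m) ^ 2 ∣ 2 * x := by
    have := dvd_sub h1 h2
    have e : x - (ρ : O m) - (-x - (ρ : O m)) = 2 * x := by ring
    rwa [e] at this
  have h4 := norm_dvd_norm h3
  rw [norm_pow', Zsqrtd.norm_natCast, Zsqrtd.norm_mul, h.nrm x hx] at h4
  have h5 : (2 : O m).norm = 4 := by
    have : (2 : O m) = ((2 : ℕ) : O m) := by norm_num
    rw [this, Zsqrtd.norm_natCast]
    norm_num
  rw [h5] at h4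
  have hc : IsCoprime (((m : ℤ) * m) ^ 2) (∏ l ∈ D, (l : ℤ)) :=
    ((cop_m_EGBox hD).mul_left (cop_m_EGBox hD)).pow_left
  have h6 : ((m : ℤ) * m) ^ 2 ∣ 4 := hc.dvd_of_dvd_mul_right h4
  have h7 := Int.le_of_dvd (by norm_num) h6
  have hm' : (2 : ℤ) ≤ m := by exact_mod_cast hm
  have h8 : (4 : ℤ) ≤ m * m := by nlinarith
  nlinarith

/-- Boxes multiply without loss. -/
theorem Box.mul (hm : 2 ≤ m) {D D' : Finset ℕ} {ρ ρ' : ℤ} {V V' : Finset (O m)} (h : Box m D ρ V)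
    (h' : Box m D' ρ' V') (hd : Disjoint D D') (hD : ∀ l ∈ D, Split m l) (hD' : ∀ l ∈ D', Split m l) :
    Box m (D ∪ D') (ρ * ρ') (image₂ (· * ·) V V') ∧ (image₂ (· * ·) V V').card = V.card * V'.card := by
  have hm1 : 1 ≤ m := by omega
  refine ⟨⟨?_, ?_⟩, ?_⟩
  · intro x hx
    obtain ⟨a, ha, b, hb, rfl⟩ := mem_image₂.1 hx
    rw [Zsqrtd.norm_mul, h.nrm a ha, h'.nrm b hb, Finset.prod_union hd]
  · intro x hx
    obtain ⟨a, ha, b, hb, rfl⟩ := mem_image₂.1 hx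
    have e : a * b - ((ρ * ρ' : ℤ) : O m) = a * (b - (ρ' : O m)) + (a - (ρ : O m)) * (ρ' : O m) := by
      push_cast
      ring
    rw [e]
    exact dvd_add (Dvd.dvd.mul_left (h'.res b hb) _) (Dvd.dvd.mul_right (h.res a ha) _)
  · rw [card_image₂_iff]
    rintro ⟨a, b⟩ hab ⟨a', b'⟩ hab' hq
    simp only [Set.mem_prod, mem_coe] at hab hab'
    obtain ⟨ha, hb⟩ := hab
    obtain ⟨ha', hb'⟩ := hab'
    have hq' : a * b = a' * b' := hq
    have hn := prod_pos_EGBox fun l hl => (hD l hl).1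
    have hc := cop_prod_EGBox hd (fun l hl => (hD l hl).1) fun l hl => (hD' l hl).1
    have na := h.nrm a ha
    have na' := h.nrm a' ha'
    have nb := h'.nrm b hb
    generalize (∏ l ∈ D, (l : ℤ)) = n at hn hc na na'
    generalize (∏ l ∈ D', (l : ℤ)) = n' at hc nb
    have e1 : (n' : O m) * (a * star a') = (n : O m) * (b' * star b) := by
      have t1 := mul_star_EGBox b
      have t2 := mul_star_EGBox a'
      rw [nb] at t1
      rw [na'] at t2
      rw [← t1, ← t2]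
      linear_combination (star a' * star b) * hq'
    obtain ⟨s, t, hst⟩ := hc
    have hst' : (s : O m) * n + t * n' = 1 := by exact_mod_cast congrArg (Int.cast : ℤ → O m) hst
    have e2 : a * star a' = (n : O m) * (s * (a * star a') + t * (b' * star b)) := by
      linear_combination (t : O m) * e1 - (a * star a') * hst'
    generalize (s * (a * star a') + t * (b' * star b) : O m) = u at e2
    have nu : u.norm = 1 := by
      have := congrArg Zsqrtd.norm e2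
      rw [Zsqrtd.norm_mul, Zsqrtd.norm_mul, Zsqrtd.norm_conj, Zsqrtd.norm_intCast, na, na'] at this
      have hnn : n * n ≠ 0 := by positivity
      exact (mul_left_cancel₀ hnn (by rw [mul_one]; exact this)).symm
    have hs : star a' ≠ 0 := ne_zero_EGBox (by rw [Zsqrtd.norm_conj, na']; exact hn)
    have t2 := mul_star_EGBox a'
    rw [na'] at t2
    rcases unit_EGBox hm nu with hu | hu
    · have e3 : a = a' := by
        refine o_cancel hm1 hs ?_
        rw [hu] at e2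
        linear_combination e2 - t2
      subst e3
      have e4 : b = b' := o_cancel hm1 (ne_zero_EGBox (by rw [na]; exact hn)) hq'
      rw [e4]
    · exfalso
      have e3 : a = -a' := by
        refine o_cancel hm1 hs ?_
        rw [hu] at e2
        linear_combination e2 + t2
      exact not_neg_EGBox hm h hD ha' (e3 ▸ ha)

theorem not_sq_EGBox {D : Finset ℕ} (hD : ∀ l ∈ D, l.Prime) {l : ℕ} (hl : l ∈ D) :
    ¬ (l : ℤ) * l ∣ ∏ k ∈ D, (k : ℤ) := by
  intro h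
  rw [← Finset.mul_prod_erase D _ hl] at h
  have hl0 : (l : ℤ) ≠ 0 := by exact_mod_cast (hD l hl).ne_zero
  have h1 : (l : ℤ) ∣ ∏ k ∈ D.erase l, (k : ℤ) := (mul_dvd_mul_iff_left hl0).1 h
  have hp : Prime (l : ℤ) := Nat.prime_iff_prime_int.1 (hD l hl)
  obtain ⟨k, hk, hlk⟩ := (hp.dvd_finsetProd_iff _).1 h1
  have h2 : l ∣ k := by exact_mod_cast hlk
  have h3 := (Nat.prime_dvd_prime_iff_eq (hD l hl) (hD k (mem_of_mem_erase hk))).1 h2
  exact (ne_of_mem_erase hk) h3.symm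

/-- An element of a box is coprime to its conjugate. -/
theorem Box.coprime_star {D : Finset ℕ} {ρ : ℤ} {V : Finset (O m)} (h : Box m D ρ V)
    (hD : ∀ l ∈ D, Split m l) {e : O m} (he : e ∈ V) : IsCoprime e (star e) := by
  have hn := h.nrm e he
  have hc : IsCoprime (∏ l ∈ D, (l : ℤ)) (2 * e.re) := by
    refine IsCoprime.prod_left fun l hl => ?_
    have hp : Prime (l : ℤ) := Nat.prime_iff_prime_int.1 (hD l hl).1
    refine (hp.irreducible.coprime_iff_not_dvd).2 ?_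
    intro hdv
    have hl2 : ¬ (l : ℤ) ∣ 2 := by
      intro h2
      have : l ∣ 2 := by exact_mod_cast h2
      exact (hD l hl).2.1 (Dvd.dvd.mul_right this m)
    have hlm : ¬ (l : ℤ) ∣ m := by
      intro h2
      have : l ∣ m := by exact_mod_cast h2
      exact (hD l hl).2.1 (Dvd.dvd.mul_left this 2)
    have ha : (l : ℤ) ∣ e.re := (hp.dvd_or_dvd hdv).resolve_left hl2
    have hN : (l : ℤ) ∣ e.norm := by
      rw [hn]
      exact Finset.dvd_prod_of_mem _ hl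
    rw [norm_eq] at hN
    have h1 : (l : ℤ) ∣ m * e.im ^ 2 := (dvd_add_right (Dvd.dvd.pow ha two_ne_zero)).1 hN
    have hb : (l : ℤ) ∣ e.im := hp.dvd_of_dvd_pow ((hp.dvd_or_dvd h1).resolve_left hlm)
    refine not_sq_EGBox (fun k hk => (hD k hk).1) hl ?_
    rw [← hn, norm_eq]
    obtain ⟨a, ha⟩ := ha
    obtain ⟨b, hb⟩ := hb
    exact ⟨a ^ 2 + m * b ^ 2, by rw [ha, hb]; ring⟩
  rw [← hn] at hc
  obtain ⟨u, v, huv⟩ := hc
  have h1 : (u : O m) * (e.norm : O m) + v * (2 * (e.re : O m)) = 1 := by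
    exact_mod_cast congrArg (Int.cast : ℤ → O m) huv
  have h2 : e + star e = 2 * (e.re : O m) := by
    ext
    · simp [two_mul]
    · simp
  have h3 := mul_star_EGBox e
  exact ⟨u * star e + v, v, by linear_combination h1 + (u : O m) * h3 + (v : O m) * h2⟩

/-- Thue's lemma for a set of split primes with chosen roots. -/
theorem thue (hm : 1 ≤ m) (S : Finset ℕ) (hS : ∀ l ∈ S, l.Prime) (r : ℕ → ℤ)
    (hr : ∀ l ∈ S, (l : ℤ) ∣ r l ^ 2 + m) :
    ∃ (w : O m) (c : ℕ), 1 ≤ c ∧ c ≤ m + 1 ∧ w.norm = c * ∏ l ∈ S, (l : ℤ) ∧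
      ∀ l ∈ S, (l : ℤ) ∣ w.re + w.im * r l := by
  classical
  set n : ℕ := ∏ l ∈ S, l with hn
  set s : ℕ := Nat.sqrt n with hs
  have hcard : (S.pi fun l => Ico (0 : ℤ) l).card < (range (s + 1) ×ˢ range (s + 1)).card := by
    rw [Finset.card_pi, card_product, card_range]
    have : ∏ l ∈ S, (Ico (0 : ℤ) l).card = n := by
      refine Finset.prod_congr rfl fun l _ => ?_
      simp
    rw [this]
    exact Nat.lt_succ_sqrt n
  obtain ⟨p, hp, q, hq, hpq, hf⟩ := Finset.exists_ne_map_eq_of_card_lt_of_maps_to hcard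
    (f := fun (p : ℕ × ℕ) (l : ℕ) (_ : l ∈ S) => ((p.1 : ℤ) + p.2 * r l) % l) (by
      intro p _
      rw [mem_coe, Finset.mem_pi]
      intro l hl
      have hl0 : (0 : ℤ) < l := by exact_mod_cast (hS l hl).pos
      exact mem_Ico.2 ⟨Int.emod_nonneg _ hl0.ne', Int.emod_lt_of_pos _ hl0⟩)
  rw [mem_product, mem_range, mem_range] at hp hq
  set w : O m := ⟨(p.1 : ℤ) - q.1, (p.2 : ℤ) - q.2⟩ with hw
  have hre : w.re = (p.1 : ℤ) - q.1 := rfl
  have him : w.im = (p.2 : ℤ) - q.2 := rfl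
  have hw0 : w ≠ 0 := by
    intro h0
    have h1 : w.re = 0 := by rw [h0]; rfl
    have h2 : w.im = 0 := by rw [h0]; rfl
    apply hpq
    ext <;> omega
  have hdv : ∀ l ∈ S, (l : ℤ) ∣ w.re + w.im * r l := by
    intro l hl
    have h1 : ((p.1 : ℤ) + p.2 * r l) % l = ((q.1 : ℤ) + q.2 * r l) % l :=
      congrFun (congrFun hf l) hl
    have h2 := Int.ModEq.dvd (Int.ModEq.symm h1)
    have e : w.re + w.im * r l = (p.1 : ℤ) + p.2 * r l - ((q.1 : ℤ) + q.2 * r l) := by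
      rw [hre, him]
      ring
    rw [e]
    exact h2
  have hN : (∏ l ∈ S, (l : ℤ)) ∣ w.norm := by
    refine Finset.prod_dvd_of_coprime ?_ ?_
    · intro l hl k hk hlk
      show IsCoprime (l : ℤ) (k : ℤ)
      rw [Nat.isCoprime_iff_coprime]
      exact (Nat.coprime_primes (hS l hl) (hS k hk)).2 hlk
    · intro l hl
      have e : w.norm = (w.re + w.im * r l) * (w.re - w.im * r l) + w.im ^ 2 * (r l ^ 2 + m) := by
        rw [norm_eq]
        ring
      rw [e]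
      exact dvd_add (Dvd.dvd.mul_right (hdv l hl) _) (Dvd.dvd.mul_left (hr l hl) _)
  have hnz : (∏ l ∈ S, (l : ℤ)) = (n : ℤ) := by
    rw [hn]
    push_cast
    rfl
  have hn1 := prod_pos_EGBox hS
  rw [hnz] at hN hn1 ⊢
  obtain ⟨c, hc⟩ := hN
  have hpos := norm_pos' hm hw0
  have hss : (s : ℤ) * s ≤ n := by exact_mod_cast Nat.sqrt_le n
  have b1 : w.re ^ 2 ≤ (s : ℤ) ^ 2 := by
    refine sq_le_sq' ?_ ?_ <;> rw [hre] <;> omega
  have b2 : w.im ^ 2 ≤ (s : ℤ) ^ 2 := by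
    refine sq_le_sq' ?_ ?_ <;> rw [him] <;> omega
  have hm0 : (0 : ℤ) ≤ m := by positivity
  have hle : w.norm ≤ n * (m + 1) := by
    rw [norm_eq]
    nlinarith [mul_le_mul_of_nonneg_left b2 hm0, mul_le_mul_of_nonneg_left hss hm0]
  have hc1 : 1 ≤ c := by
    by_contra hlt
    have : c ≤ 0 := by omega
    nlinarith
  have hc2 : c ≤ m + 1 := by
    rw [hc] at hle
    exact le_of_mul_le_mul_left hle (by omega)
  refine ⟨w, c.toNat, by omega, by omega, ?_, hdv⟩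
  rw [hc, Int.toNat_of_nonneg (by omega), mul_comm]

/-- Subsets of size below a quarter are few. -/
theorem small_subsets (C : Finset ℕ) :
    ((C.powerset.filter fun D => 4 * D.card < C.card).card : ℝ) ≤ (176 / 100 : ℝ) ^ C.card := by
  have key : ∀ D ∈ C.powerset.filter fun D => 4 * D.card < C.card,
      (1 : ℝ) ≤ (132 / 100 : ℝ) ^ C.card * ((1 / 3 : ℝ) ^ D.card * 1 ^ (C.card - D.card)) := by
    intro D hD
    have h4 := (mem_filter.1 hD).2
    have h1 : (3 : ℝ) ^ D.card ≤ (132 / 100 : ℝ) ^ C.card := by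
      calc (3 : ℝ) ^ D.card ≤ ((132 / 100 : ℝ) ^ 4) ^ D.card :=
            pow_le_pow_left₀ (by norm_num) (by norm_num) _
        _ = (132 / 100 : ℝ) ^ (4 * D.card) := by rw [pow_mul]
        _ ≤ (132 / 100 : ℝ) ^ C.card := pow_le_pow_right₀ (by norm_num) h4.le
    have h3 : (0 : ℝ) < (3 : ℝ) ^ D.card := by positivity
    rw [one_pow, mul_one, one_div, inv_pow, ← div_eq_mul_inv, le_div_iff₀ h3, one_mul]
    exact h1
  calc ((C.powerset.filter fun D => 4 * D.card < C.card).card : ℝ)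
      = ∑ D ∈ C.powerset.filter fun D => 4 * D.card < C.card, (1 : ℝ) := by simp
    _ ≤ ∑ D ∈ C.powerset.filter fun D => 4 * D.card < C.card,
          (132 / 100 : ℝ) ^ C.card * ((1 / 3 : ℝ) ^ D.card * 1 ^ (C.card - D.card)) :=
        Finset.sum_le_sum key
    _ ≤ ∑ D ∈ C.powerset,
          (132 / 100 : ℝ) ^ C.card * ((1 / 3 : ℝ) ^ D.card * 1 ^ (C.card - D.card)) :=
        Finset.sum_le_sum_of_subset_of_nonneg (filter_subset _ _) fun _ _ _ => by positivity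
    _ = (132 / 100 : ℝ) ^ C.card * (1 / 3 + 1) ^ C.card := by
        rw [← Finset.mul_sum, Finset.sum_pow_mul_eq_add_pow]
    _ = (176 / 100 : ℝ) ^ C.card := by
        rw [← mul_pow]
        norm_num

end Pool.Agent.P.MP_b75a1e_co.EG
end

-- part Pool.Agent.P.MP_b75a1e_co.EGCollX
section

set_option autoImplicit false

open Finset
open scoped BigOperators ComplexConjugate

namespace Pool.Agent.P.MP_b75a1e_co.EG

theorem card_EGCollX (len W k : ℕ) (S : Finset ℕ) (hS : S ⊆ range len)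
    (h : ∀ q, (S.filter fun t => t / W = q).card ≤ k) : (S.card : ℝ) ≤ k * (len / W + 1) := by
  have h1 : S.card ≤ k * (range (len / W + 1)).card :=
    card_le_mul_card_image_of_maps_to (f := fun t => t / W) (fun t ht => mem_range.2
      (Nat.lt_succ_of_le (Nat.div_le_div_right (mem_range.1 (hS ht)).le))) k fun q _ => h q
  rw [card_range] at h1
  have h2 : ((len / W : ℕ) : ℝ) ≤ len / W := Nat.cast_div_le
  have h3 : (S.card : ℝ) ≤ k * ((len / W : ℕ) + 1) := by exact_mod_cast h1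
  exact h3.trans (by gcongr)

theorem near_EGCollX {W s t : ℕ} (hW : 1 ≤ W) (h : s / W = t / W) : |(s : ℤ) - t| < W := by
  have h1 := Nat.div_add_mod s W
  have h2 := Nat.div_add_mod t W
  have h3 := Nat.mod_lt s hW
  have h4 := Nat.mod_lt t hW
  rw [h] at h1
  generalize W * (t / W) = u at h1 h2
  rw [abs_lt]
  omega

open Classical in
/-- At most one residue class solves the linear congruence. -/
theorem lin_count (m M A len d : ℕ) (hd : 1 ≤ d) (hc : Nat.Coprime d (2 * m * M)) (a b : O m)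
    (hb : IsCoprime (d : ℤ) b.norm) :
    (((range len).filter fun t =>
      (d : O m) ∣ a * star (mz m M (A + t)) - b * mz m M (A + t)).card : ℝ) ≤ len / d + 1 := by
  refine (card_EGCollX len d 1 _ (filter_subset _ _) fun q => card_le_one.2 fun s hs t ht => ?_).trans
    (by simp)
  simp only [mem_filter] at hs ht
  have h1 := near_EGCollX hd (hs.2.trans ht.2.symm)
  have e : star b * rt m * (star (mz m M (A + t)) * (a * star (mz m M (A + s)) - b * mz m M (A + s)) -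
      star (mz m M (A + s)) * (a * star (mz m M (A + t)) - b * mz m M (A + t))) =
      ((b.norm * ((2 * m * M : ℕ) * (M * ((t : ℤ) - s))) : ℤ) : O m) := by
    rw [norm_eq]
    ext <;> simp [mz, rt, Zsqrtd.re_mul, Zsqrtd.im_mul, sq] <;> ring
  have h2 := ((hs.1.2.mul_left (star (mz m M (A + t)))).sub
    (ht.1.2.mul_left (star (mz m M (A + s))))).mul_left (star b * rt m)
  rw [e] at h2
  have h3 := ((nat_dvd_iff d _).1 h2).1
  rw [Zsqrtd.re_intCast] at h3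
  have h4 := (Nat.isCoprime_iff_coprime.2 (hc.coprime_dvd_right (dvd_mul_left M _))).dvd_of_dvd_mul_left
    ((Nat.isCoprime_iff_coprime.2 hc).dvd_of_dvd_mul_left (hb.dvd_of_dvd_mul_left h3))
  have h5 := Int.eq_zero_of_abs_lt_dvd h4 (by rwa [abs_sub_comm])
  omega

theorem gcd_EGCollX {d x a b : ℤ} (ha : d ∣ x * a) (hb : d ∣ x * b) : d ∣ x * Int.gcd a b := by
  rw [Int.gcd_eq_gcd_ab, mul_add, ← mul_assoc, ← mul_assoc]
  exact (ha.mul_right _).add (hb.mul_right _)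

/-- Roots of a quadratic congruence are sparse. -/
theorem quad_count (len d W : ℕ) (a b c : ℤ) (hd : 1 ≤ d) (hW : 1 ≤ W)
    (hWd : W ^ 3 * Int.gcd (Int.gcd a b) (Int.gcd c d) ≤ d) :
    (((range len).filter fun t : ℕ => (d : ℤ) ∣ a * t ^ 2 + b * t + c).card : ℝ) ≤
      2 * (len / W + 1) := by
  refine (card_EGCollX len W 2 _ (filter_subset _ _) fun q => ?_).trans (by simp)
  by_contra hn
  obtain ⟨s, t, u, hs, ht, hu, n1, n2, n3⟩ := two_lt_card_iff.1 (not_le.1 hn)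
  simp only [mem_filter] at hs ht hu
  have h1 := near_EGCollX hW (hs.2.trans ht.2.symm)
  have h2 := near_EGCollX hW (hs.2.trans hu.2.symm)
  have h3 := near_EGCollX hW (ht.2.trans hu.2.symm)
  obtain ⟨k1, e1⟩ := hs.1.2
  obtain ⟨k2, e2⟩ := ht.1.2
  obtain ⟨k3, e3⟩ := hu.1.2
  have m1 : (s : ℤ) - t ≠ 0 := by omega
  have m2 : (s : ℤ) - u ≠ 0 := by omega
  have m3 : (t : ℤ) - u ≠ 0 := by omega
  generalize (s : ℤ) = x at *
  generalize (t : ℤ) = y at *
  generalize (u : ℤ) = w at *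
  have ha : (d : ℤ) ∣ (x - y) * (x - w) * (y - w) * a :=
    ⟨k1 * (y - w) - k2 * (x - w) + k3 * (x - y), by
      linear_combination (y - w) * e1 - (x - w) * e2 + (x - y) * e3⟩
  have hb : (d : ℤ) ∣ (x - y) * (x - w) * (y - w) * b :=
    ⟨-(k1 * (y + w) * (y - w) - k2 * (x + w) * (x - w) + k3 * (x + y) * (x - y)), by
      linear_combination -((y + w) * (y - w)) * e1 + (x + w) * (x - w) * e2 -
        (x + y) * (x - y) * e3⟩
  have hc : (d : ℤ) ∣ (x - y) * (x - w) * (y - w) * c :=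
    ⟨k1 * (y * w) * (y - w) - k2 * (x * w) * (x - w) + k3 * (x * y) * (x - y), by
      linear_combination (y * w) * (y - w) * e1 - (x * w) * (x - w) * e2 + (x * y) * (x - y) * e3⟩
  have h4 := gcd_EGCollX (gcd_EGCollX ha hb) (gcd_EGCollX hc (dvd_mul_left _ _))
  have h5 : 0 < Int.gcd (Int.gcd a b) (Int.gcd c d) :=
    Int.gcd_pos_of_ne_zero_right _ (Int.natCast_ne_zero.2
      (Int.gcd_pos_of_ne_zero_right _ (by omega)).ne')
  generalize Int.gcd (Int.gcd a b) (Int.gcd c d) = g at *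
  have h6 : (0 : ℤ) < g := by exact_mod_cast h5
  have h7 : |(x - y) * (x - w) * (y - w)| < (W : ℤ) ^ 3 := by
    rw [abs_mul, abs_mul, pow_three']
    exact mul_lt_mul'' (mul_lt_mul'' h1 h2 (abs_nonneg _) (abs_nonneg _)) h3 (by positivity)
      (abs_nonneg _)
  have h8 : (W : ℤ) ^ 3 * g ≤ d := by exact_mod_cast hWd
  refine mul_ne_zero (mul_ne_zero (mul_ne_zero m1 m2) m3) h6.ne'
    (Int.eq_zero_of_abs_lt_dvd h4 ?_)
  rw [abs_mul, abs_of_pos h6]
  exact (mul_lt_mul_of_pos_right h7 h6).trans_le h8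

theorem cube_EGCollX {m r : ℕ} {α : Type} (f : α → O m) (t : Fin r → α) (j : Fin r) (v : α)
    (ε : Fin r → Bool) : cube (fun i => f (Function.update t j v i)) ε =
      (∏ i ∈ univ.erase j, if ε i then f (t i) else star (f (t i))) *
        if ε j then f v else star (f v) := by
  rw [cube, ← prod_erase_mul univ _ (mem_univ j), Function.update_self]
  refine congrArg (· * _) (prod_congr rfl fun i hi => ?_)
  rw [Function.update_of_ne (ne_of_mem_erase hi)]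

open Classical in
theorem pair_EGCollX (m M A len r d : ℕ) (hd : 1 ≤ d) (hc : Nat.Coprime d (2 * m * M))
    (hlen : d ≤ len) (ε ε' : Fin r → Bool) (j : Fin r) (h1 : ε j = false) (h2 : ε' j = true) :
    𝔼 t : Fin r → Fin len, (if IsCoprime (d : ℤ) (base fun i => mz m M (A + t i)).norm ∧
      (d : O m) ∣ cube (fun i => mz m M (A + t i)) ε - cube (fun i => mz m M (A + t i)) ε'
        then (1 : ℝ) else 0) ≤ 2 / d := by
  have hl : 0 < len := by omega
  have : Nonempty (Fin len) := ⟨⟨0, hl⟩⟩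
  rw [expect_update _ j]
  refine expect_le univ_nonempty fun t _ => ?_
  let P : (Fin r → Bool) → O m := fun e =>
    ∏ i ∈ univ.erase j, if e i then mz m M (A + t i) else star (mz m M (A + t i))
  by_cases hP : IsCoprime (d : ℤ) (P ε').norm
  · have h3 := lin_count m M A len d hd hc (P ε) (P ε') hP
    have hd' : (0 : ℝ) < d := by exact_mod_cast hd
    have hl' : (0 : ℝ) < len := by exact_mod_cast hl
    refine (expect_le_expect (g := fun v : Fin len => if (d : O m) ∣ P ε * star (mz m M (A + v)) -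
      P ε' * mz m M (A + v) then (1 : ℝ) else 0) fun v _ => ?_).trans ?_
    · rw [cube_EGCollX (fun v : Fin len => mz m M (A + v)),
        cube_EGCollX (fun v : Fin len => mz m M (A + v)), h1, h2, if_neg Bool.false_ne_true,
        if_pos rfl]
      split_ifs with a b c <;> first | exact (b a.2).elim | norm_num
    · rw [expect_eq_sum_div_card, Fin.sum_univ_eq_sum_range (fun v => if (d : O m) ∣
        P ε * star (mz m M (A + v)) - P ε' * mz m M (A + v) then (1 : ℝ) else 0), sum_boole,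
        card_univ, Fintype.card_fin, div_le_iff₀ hl']
      refine h3.trans ?_
      have : (1 : ℝ) ≤ len / d := (one_le_div hd').2 (by exact_mod_cast hlen)
      rw [div_mul_eq_mul_div, mul_div_assoc]
      linarith
  · refine expect_le univ_nonempty fun v _ => ?_
    rw [if_neg]
    · positivity
    · rintro ⟨a, -⟩
      rw [← norm_cube _ ε', cube_EGCollX (fun v : Fin len => mz m M (A + v)), Zsqrtd.norm_mul] at a
      exact hP a.of_mul_right_left

open Classical in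
/-- L10, one cube. -/
theorem collX (m M A len r d : ℕ) (hd : 1 ≤ d) (hc : Nat.Coprime d (2 * m * M)) (hlen : d ≤ len)
    (hr : d ≤ 2 ^ r) :
    𝔼 t : Fin r → Fin len, cX d (fun i => mz m M (A + t i)) ≤ 3 / d := by
  have : Nonempty (Fin len) := ⟨⟨0, by omega⟩⟩
  have hd' : (0 : ℝ) < d := by exact_mod_cast hd
  have e : ∀ z : Fin r → O m, cX d z = 𝔼 q : (Fin r → Bool) × (Fin r → Bool),
      if IsCoprime (d : ℤ) (base z).norm ∧ (d : O m) ∣ cube z q.1 - cube z q.2 then (1 : ℝ)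
        else 0 := fun z => by
    rw [cX]
    split_ifs with h <;> simp [h]
  simp only [e]
  rw [expect_comm]
  refine (expect_le_expect (g := fun q => (if q.1 = q.2 then (1 : ℝ) else 0) + 2 / d)
    fun q _ => ?_).trans ?_
  · by_cases h : q.1 = q.2
    · rw [if_pos h]
      refine expect_le univ_nonempty fun t _ => le_add_of_le_of_nonneg ?_ (by positivity)
      split_ifs <;> norm_num
    · rw [if_neg h, zero_add]
      obtain ⟨j, hj⟩ := Function.ne_iff.1 h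
      cases h1 : q.1 j
      · exact pair_EGCollX m M A len r d hd hc hlen _ _ j h1 (by simpa [h1] using hj)
      · simp only [dvd_sub_comm (b := cube _ q.1)]
        exact pair_EGCollX m M A len r d hd hc hlen _ _ j (by simpa [h1] using hj) h1
  · rw [expect_add_distrib, expect_const univ_nonempty, expect_eq_sum_div_card,
      Fintype.sum_prod_type]
    simp only [sum_ite_eq, mem_univ, if_true, sum_const, card_univ, Fintype.card_prod,
      Fintype.card_fun, Fintype.card_bool, Fintype.card_fin, nsmul_eq_mul, mul_one]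
    have h1 : (d : ℝ) ≤ (2 ^ r : ℕ) := by exact_mod_cast hr
    have h2 : ((2 ^ r : ℕ) : ℝ) / ((2 ^ r * 2 ^ r : ℕ) : ℝ) ≤ 1 / d := by
      rw [Nat.cast_mul, div_mul_eq_div_div, div_self (hd'.trans_le h1).ne']
      exact one_div_le_one_div_of_le hd' h1
    have h3 : (3 : ℝ) / d = 1 / d + 2 / d := by ring
    linarith

end Pool.Agent.P.MP_b75a1e_co.EG
end

-- part Pool.Agent.P.MP_b75a1e_co.EGFam
section

set_option autoImplicit false

open Finset
open scoped BigOperators ComplexConjugate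

namespace Pool.Agent.P.MP_b75a1e_co.EG

variable {m r : ℕ}

/-- A sum of `k` elements with the norm of `c`, congruent to `k * c` modulo `a`. -/
def Gd_EGFam (a c : O m) (k : ℕ) (y : O m) : Prop := SumOf c.norm k y ∧ a ∣ y - (k : O m) * c

theorem gd_add_EGFam {a c y y' : O m} {k k' : ℕ} (h : Gd_EGFam a c k y) (h' : Gd_EGFam a c k' y') :
    Gd_EGFam a c (k + k') (y + y') := by
  refine ⟨h.1.add h'.1, ?_⟩
  have e : y + y' - ((k + k' : ℕ) : O m) * c = (y - k * c) + (y' - k' * c) := by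
    push_cast
    ring
  rw [e]
  exact dvd_add h.2 h'.2

theorem gd_one_EGFam {a c y : O m} (h : y.norm = c.norm) (h' : a ∣ y - c) : Gd_EGFam a c 1 y :=
  ⟨SumOf.single h, by simpa using h'⟩

theorem gd_msum_EGFam {α : Type} {a c : O m} {k : ℕ} (L : Multiset α) (f : α → O m)
    (h : ∀ x ∈ L, Gd_EGFam a c k (f x)) : Gd_EGFam a c (Multiset.card L * k) (L.map f).sum := by
  induction L using Multiset.induction_on with
  | empty => exact ⟨⟨0, by simp, by simp, by simp⟩, by simp⟩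
  | cons x L ih =>
    rw [Multiset.card_cons, Multiset.map_cons, Multiset.sum_cons, add_mul, one_mul, add_comm _ k]
    exact gd_add_EGFam (h x (Multiset.mem_cons_self _ _))
      (ih fun y hy => h y (Multiset.mem_cons_of_mem hy))

theorem gd_sum_EGFam {α : Type} {a c : O m} {k : ℕ} (s : Finset α) (f : α → O m)
    (h : ∀ x ∈ s, Gd_EGFam a c k (f x)) : Gd_EGFam a c (s.card * k) (∑ x ∈ s, f x) :=
  gd_msum_EGFam s.val f h

theorem SumRes.norm_le {e u : O m} {s : ℕ} {lam : ℝ} (h : SumRes e s u) (hl : 0 ≤ lam)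
    (he : (e.norm : ℝ) = lam ^ 100) : ‖ph m u‖ ≤ s * lam ^ 50 := by
  obtain ⟨L, h1, h2, h3⟩ := h
  have h4 : SumOf e.norm s u := ⟨L, h1, fun a ha => (h2 a ha).1, h3⟩
  have h5 := h4.norm_le
  rwa [he, show lam ^ 100 = (lam ^ 50) ^ 2 by ring, Real.sqrt_sq (pow_nonneg hl _)] at h5

/-- One big block is a sum of `s ^ 2` elements in the class of the base point. -/
theorem block_sum {e g u u' : O m} {s : ℕ} (h : SumRes e s u) (h' : SumRes e s u') :
    SumOf (g * e ^ 2).norm (s ^ 2) (g * (u * u')) ∧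
      mu m ∣ g * (u * u') - ((s ^ 2 : ℕ) : O m) * (g * e ^ 2) := by
  obtain ⟨L, h1, h2, rfl⟩ := h
  obtain ⟨L', h1', h2', rfl⟩ := h'
  have key := gd_msum_EGFam (a := mu m) (c := g * e ^ 2) L
    (fun x => (L'.map fun y => g * (x * y)).sum) fun x hx =>
      gd_msum_EGFam L' (fun y => g * (x * y)) fun y hy => gd_one_EGFam
        (by rw [Zsqrtd.norm_mul, Zsqrtd.norm_mul, Zsqrtd.norm_mul, norm_pow', (h2 x hx).1,
          (h2' y hy).1, sq])
        (by
          rw [show g * (x * y) - g * e ^ 2 = g * x * (y - e) + g * e * (x - e) by ring]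
          exact dvd_add ((mu_dvd_sq.trans (h2' y hy).2).mul_left _)
            ((mu_dvd_sq.trans (h2 x hx).2).mul_left _))
  rw [h1, h1', mul_one, ← sq] at key
  have e1 : (L.map fun x => (L'.map fun y => g * (x * y)).sum).sum = g * (L.sum * L'.sum) := by
    have e2 : ∀ x, (L'.map fun y => g * (x * y)).sum = g * (x * L'.sum) := fun x => by
      rw [Multiset.sum_map_mul_left, Multiset.sum_map_mul_left, Multiset.map_id']
    rw [Multiset.map_congr rfl fun x _ => e2 x, Multiset.sum_map_mul_left,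
      Multiset.sum_map_mul_right, Multiset.map_id']
  rw [e1] at key
  exact key

theorem psi_sum (J s : ℕ) (g e : ℕ → O m) (U : ℕ → Finset (O m)) (Γ : O m) (zI zII : Fin r → O m)
    (hg : ∀ j ≤ J, g j * e j ^ 2 = Γ * (base zI * base zII))
    (hU : ∀ j ≤ J, ∀ u ∈ U j, SumRes (e j) s u) (hI : ∀ i, mu m ∣ zI i - star (zI i))
    (hII : ∀ i, mu m ∣ zII i - star (zII i)) (b : OmB J U) (ε2 ε1 : Fin r → Bool) :
    SumOf (Γ * (base zI * base zII)).norm ((J + 1) * 600 * s ^ 2 + 2) (psiA J g U Γ zI zII b ε2 ε1) ∧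
      mu m ∣ psiA J g U Γ zI zII b ε2 ε1 -
        (((J + 1) * 600 * s ^ 2 + 2 : ℕ) : O m) * (Γ * (base zI * base zII)) := by
  have h1 : Gd_EGFam (mu m) (Γ * (base zI * base zII)) _ _ :=
    gd_sum_EGFam univ (fun j : Fin (J + 1) =>
      ∑ c : Fin 600, g j * (((b j c).1 : O m) * ((b j c).2 : O m))) fun j _ =>
      gd_sum_EGFam univ _ fun c _ => by
        have hj : (j : ℕ) ≤ J := Nat.lt_succ_iff.1 j.2
        rw [← hg j hj]
        exact block_sum (hU j hj _ (b j c).1.2) (hU j hj _ (b j c).2.2)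
  have h2 : Gd_EGFam (mu m) (Γ * (base zI * base zII)) 1 (Γ * base zI * cube zII ε2) :=
    gd_one_EGFam (by simp only [Zsqrtd.norm_mul, norm_cube, mul_assoc]) (by
      rw [show Γ * base zI * cube zII ε2 - Γ * (base zI * base zII) =
        Γ * base zI * (cube zII ε2 - base zII) by ring]
      exact (dvd_cube_sub zII _ hII ε2).mul_left _)
  have h3 : Gd_EGFam (mu m) (Γ * (base zI * base zII)) 1 (Γ * base zII * cube zI ε1) :=
    gd_one_EGFam (by simp only [Zsqrtd.norm_mul, norm_cube]; ring) (by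
      rw [show Γ * base zII * cube zI ε1 - Γ * (base zI * base zII) =
        Γ * base zII * (cube zI ε1 - base zI) by ring]
      exact (dvd_cube_sub zI _ hI ε1).mul_left _)
  have h4 := gd_add_EGFam (gd_add_EGFam h1 h2) h3
  rw [card_univ, card_univ, Fintype.card_fin, Fintype.card_fin,
    ← mul_assoc (J + 1)] at h4
  exact h4

theorem ch_big_EGFam (J : ℕ) (g : ℕ → O m) (U : ℕ → Finset (O m)) (θ : ℂ) :
    ch (fun b : OmB J U => ∑ j : Fin (J + 1), ∑ c : Fin 600,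
      g j * (((b j c).1 : O m) * ((b j c).2 : O m))) (θ / ph m (mu m)) =
      ∏ j : Fin (J + 1), blk (U j) (g j) θ ^ 600 := by
  refine (ch_pi (fun (j : Fin (J + 1)) (b : Fin 600 → U j × U j) => ∑ c : Fin 600,
    g j * (((b c).1 : O m) * ((b c).2 : O m))) _).trans (prod_congr rfl fun j _ => ?_)
  refine (ch_pi (fun (_ : Fin 600) (q : U j × U j) => g j * ((q.1 : O m) * (q.2 : O m))) _).trans ?_
  rw [prod_const, card_univ, Fintype.card_fin, ch_mul]
  rfl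

theorem psi_ch (J : ℕ) (g : ℕ → O m) (U : ℕ → Finset (O m)) (h Γ : O m) (zI zII : Fin r → O m)
    (θ : ℂ) :
    ‖ch (fun ω : OmP J r U => h * psiA J g U Γ zI zII ω.1.1 ω.2.1.1 ω.2.2 +
        star (h * psiA J g U Γ zI zII ω.1.2 ω.2.1.2 ω.2.2)) (θ / ph m (mu m))‖ ≤
        ∏ j : Fin (J + 1), (‖blk (U j) (h * g j) θ‖ * ‖blk (U j) (h * g j) (conj θ)‖) ^ 600 ∧
      ‖ch (fun ω : OmP J r U => h * psiA J g U Γ zI zII ω.1.1 ω.2.1.1 ω.2.2 +
        star (h * psiA J g U Γ zI zII ω.1.2 ω.2.1.2 ω.2.2)) (θ / ph m (mu m))‖ ≤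
        ‖FI (h * Γ) zI zII θ‖ * ‖FII (h * Γ) zI zII θ‖ := by
  set A : OmB J U → O m := fun b => ∑ j : Fin (J + 1), ∑ c : Fin 600,
    (h * g j) * (((b j c).1 : O m) * ((b j c).2 : O m)) with hA
  set B : (Fin r → Bool) → O m := fun ε => h * Γ * base zI * cube zII ε with hB
  set C : (Fin r → Bool) → O m := fun ε => h * Γ * base zII * cube zI ε with hC
  have e1 : ∀ b ε2 ε1, h * psiA J g U Γ zI zII b ε2 ε1 = A b + B ε2 + C ε1 := fun b ε2 ε1 => by
    simp only [psiA, hA, hB, hC, mul_add, mul_sum, mul_assoc]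
  have e2 : (fun ω : OmP J r U => h * psiA J g U Γ zI zII ω.1.1 ω.2.1.1 ω.2.2 +
      star (h * psiA J g U Γ zI zII ω.1.2 ω.2.1.2 ω.2.2)) = fun ω : OmP J r U =>
      A ω.1.1 + star (A ω.1.2) +
        (B ω.2.1.1 + star (B ω.2.1.2) + (C ω.2.2 + star (C ω.2.2))) := by
    funext ω
    simp only [e1, star_add]
    ring
  have a1 := ch_big_EGFam J (fun j => h * g j) U θ
  have a2 := ch_big_EGFam J (fun j => h * g j) U (conj θ)
  have b1 : ch B (θ / ph m (mu m)) = FII (h * Γ) zI zII θ := rfl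
  have c1 : ch (fun ε => C ε + star (C ε)) (θ / ph m (mu m)) = FI (h * Γ) zI zII θ := rfl
  have q1 := ch_prod A (fun b => star (A b)) (θ / ph m (mu m))
  have q2 := ch_prod B (fun ε => star (B ε)) (θ / ph m (mu m))
  have q3 := ch_prod (fun q : (Fin r → Bool) × (Fin r → Bool) => B q.1 + star (B q.2))
    (fun ε => C ε + star (C ε)) (θ / ph m (mu m))
  have q4 := ch_prod (fun q : OmB J U × OmB J U => A q.1 + star (A q.2))
    (fun q : ((Fin r → Bool) × (Fin r → Bool)) × (Fin r → Bool) =>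
      B q.1.1 + star (B q.1.2) + (C q.2 + star (C q.2))) (θ / ph m (mu m))
  rw [e2, q4, q3, q2, q1, ch_star_mu A, norm_mul, norm_mul, norm_mul, norm_mul]
  have n1 := norm_ch_le A (θ / ph m (mu m))
  have n2 := norm_ch_le A (conj θ / ph m (mu m))
  have n3 := norm_ch_le B (θ / ph m (mu m))
  have n4 := norm_ch_le (fun ε => star (B ε)) (θ / ph m (mu m))
  have n5 := norm_ch_le (fun ε => C ε + star (C ε)) (θ / ph m (mu m))
  constructor
  · refine (mul_le_of_le_one_right (by positivity)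
      (mul_le_one₀ (mul_le_one₀ n3 (norm_nonneg _) n4) (norm_nonneg _) n5)).trans (le_of_eq ?_)
    rw [a1, a2, norm_prod, norm_prod, ← prod_mul_distrib]
    simp only [norm_pow, mul_pow]
  · refine (mul_le_of_le_one_left (by positivity) (mul_le_one₀ n1 (norm_nonneg _) n2)).trans ?_
    rw [← b1, ← c1, mul_comm]
    exact mul_le_mul_of_nonneg_left (mul_le_of_le_one_right (norm_nonneg _) n4) (norm_nonneg _)

theorem midY_mul (h Γ : O m) (z : Fin 100 × Fin 300 → Fin 3 → Fin r → O m) (ω : OmM r) :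
    h * midY Γ z ω = midY (h * Γ) z ω := by
  simp only [midY, mul_sum, mul_assoc]

theorem two_cube_EGFam (P a : O m) (x y : Fin r → O m) (η : ℝ) (hη : 0 ≤ η)
    (hx : ∀ i, a ∣ x i - star (x i) ∧ ‖ph m (x i - star (x i))‖ ≤ η * ‖ph m (x i)‖)
    (hy : ∀ i, a ∣ y i - star (y i) ∧ ‖ph m (y i - star (y i))‖ ≤ η * ‖ph m (y i)‖)
    (ε ε' : Fin r → Bool) {c : O m} (hc : c = P * (base x * base y)) :
    Gd_EGFam a c 1 (P * (cube x ε * cube y ε')) ∧
      ‖ph m (P * (cube x ε * cube y ε') - c)‖ ≤ 2 * r * η * ‖ph m c‖ := by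
  have e : P * (cube x ε * cube y ε') - c =
      P * cube x ε * (cube y ε' - base y) + P * base y * (cube x ε - base x) := by
    rw [hc]
    ring
  refine ⟨gd_one_EGFam (by simp only [hc, Zsqrtd.norm_mul, norm_cube]) ?_, ?_⟩
  · rw [e]
    exact dvd_add ((dvd_cube_sub y a (fun i => (hy i).1) ε').mul_left _)
      ((dvd_cube_sub x a (fun i => (hx i).1) ε).mul_left _)
  · have h1 := cube_close x η hη (fun i => (hx i).2) ε
    have h2 := cube_close y η hη (fun i => (hy i).2) ε'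
    have h3 : ‖ph m (cube x ε)‖ = ‖ph m (base x)‖ := by
      rw [← sq_eq_sq₀ (norm_nonneg _) (norm_nonneg _), norm_sq_ph, norm_sq_ph, norm_cube]
    rw [e, map_add]
    refine (norm_add_le _ _).trans ?_
    simp only [hc, map_mul, norm_mul, h3]
    calc _ ≤ ‖ph m P‖ * ‖ph m (base x)‖ * (r * η * ‖ph m (base y)‖) +
          ‖ph m P‖ * ‖ph m (base y)‖ * (r * η * ‖ph m (base x)‖) := by gcongr
      _ = _ := by ring

theorem mid_sum (Γ a : O m) (z : Fin 100 × Fin 300 → Fin 3 → Fin r → O m) (η : ℝ) (hη : 0 ≤ η)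
    (hz : ∀ b c i, a ∣ z b c i - star (z b c i) ∧
      ‖ph m (z b c i - star (z b c i))‖ ≤ η * ‖ph m (z b c i)‖) (ω : OmM r) :
    SumOf (Γ * midC z).norm 60000 (midY Γ z ω) ∧ a ∣ midY Γ z ω - ((60000 : ℕ) : O m) * (Γ * midC z) ∧
      ‖ph m (midY Γ z ω - ((60000 : ℕ) : O m) * (Γ * midC z))‖ ≤
        (60000 : ℕ) * (2 * r * η) * ‖ph m (Γ * midC z)‖ := by
  have key : ∀ b, Gd_EGFam a (Γ * midC z) 2 ((Γ * ∏ b' ∈ univ.erase b, blockB (z b')) *
      (cube (z b 2) (ω b).2 * yy (z b 0) (z b 1) (ω b).1)) ∧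
      ‖ph m ((Γ * ∏ b' ∈ univ.erase b, blockB (z b')) *
        (cube (z b 2) (ω b).2 * yy (z b 0) (z b 1) (ω b).1) - 2 * (Γ * midC z))‖ ≤
        2 * (2 * r * η * ‖ph m (Γ * midC z)‖) := fun b => by
    have e : midC z = blockB (z b) * ∏ b' ∈ univ.erase b, blockB (z b') :=
      (mul_prod_erase univ (fun b => blockB (z b)) (mem_univ b)).symm
    generalize ∏ b' ∈ univ.erase b, blockB (z b') = P at e ⊢
    obtain ⟨h1, h2⟩ := two_cube_EGFam (Γ * P * base (z b 1)) a (z b 2) (z b 0) η hη (hz b 2)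
      (hz b 0) (ω b).2 (ω b).1.1 (c := Γ * midC z) (by rw [e, blockB]; ring)
    obtain ⟨h3, h4⟩ := two_cube_EGFam (Γ * P * base (z b 0)) a (z b 2) (z b 1) η hη (hz b 2)
      (hz b 1) (ω b).2 (ω b).1.2 (c := Γ * midC z) (by rw [e, blockB]; ring)
    have e2 : Γ * P * (cube (z b 2) (ω b).2 * yy (z b 0) (z b 1) (ω b).1) =
        Γ * P * base (z b 1) * (cube (z b 2) (ω b).2 * cube (z b 0) (ω b).1.1) +
        Γ * P * base (z b 0) * (cube (z b 2) (ω b).2 * cube (z b 1) (ω b).1.2) := by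
      rw [yy]
      ring
    rw [e2]
    refine ⟨gd_add_EGFam h1 h3, ?_⟩
    rw [two_mul, add_sub_add_comm, map_add, two_mul]
    exact (norm_add_le _ _).trans (add_le_add h2 h4)
  have hc : (univ : Finset (Fin 100 × Fin 300)).card = 30000 := by simp
  have h1 := gd_sum_EGFam univ _ fun b _ => (key b).1
  rw [hc] at h1
  refine ⟨h1.1, h1.2, ?_⟩
  have e : midY Γ z ω - ((60000 : ℕ) : O m) * (Γ * midC z) =
      ∑ b, ((Γ * ∏ b' ∈ univ.erase b, blockB (z b')) *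
        (cube (z b 2) (ω b).2 * yy (z b 0) (z b 1) (ω b).1) - 2 * (Γ * midC z)) := by
    rw [sum_sub_distrib, sum_const, hc, midY, nsmul_eq_mul]
    push_cast
    ring
  rw [e, map_sum]
  refine (norm_sum_le _ _).trans ((sum_le_sum fun b _ => (key b).2).trans (le_of_eq ?_))
  rw [sum_const, hc, nsmul_eq_mul]
  push_cast
  ring

end Pool.Agent.P.MP_b75a1e_co.EG
end

-- part Pool.Agent.P.MP_b75a1e_co.EGFour
section

set_option autoImplicit false

open Finset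
open scoped BigOperators ComplexConjugate

namespace Pool.Agent.P.MP_b75a1e_co.EG

theorem phmk_EGFour (m : ℕ) (a b : ℤ) : ph m ⟨a, b⟩ = a + b * ph m (rt m) := by
  have : (⟨a, b⟩ : O m) = (a : O m) + (b : O m) * rt m := by ext <;> simp [rt]
  rw [this, map_add, map_mul, map_intCast, map_intCast]

theorem kernel_EGFour {m q : ℕ} (hm : 1 ≤ m) (hq : 1 ≤ q) (D : O m) :
    ∑ k ∈ grid q, ee (pr m (gp m q k) (ph m D)) =
      if (q : ℤ) ∣ D.im ∧ (q : ℤ) ∣ D.re then (q : ℂ) ^ 2 else 0 := by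
  have h : ∀ k : ℤ × ℤ, ee (pr m (gp m q k) (ph m D)) =
      ee ((k.1 * D.im : ℤ) / q) * ee ((k.2 * D.re : ℤ) / q) := by
    intro k
    rw [gp, ← Complex.ofReal_natCast, pr_ph_div hm, ← ee_add, Zsqrtd.im_mul, ← add_div]
    push_cast
    rfl
  simp only [h]
  rw [grid, sum_product]
  dsimp only
  rw [← sum_mul_sum, sum_ee_range q hq, sum_ee_range q hq]
  by_cases h1 : (q : ℤ) ∣ D.im <;> by_cases h2 : (q : ℤ) ∣ D.re <;> simp [h1, h2, sq]

/-- Finite Fourier inversion at the origin. -/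
theorem inversion (m Mg : ℕ) (hm : 1 ≤ m) (hMg : 1 ≤ Mg) {Ω : Type} [Fintype Ω] (A : Ω → O m)
    (hA : ∀ ω, ‖ph m (A ω)‖ < Mg) (h0 : ∀ ω, A ω ≠ 0) :
    ∑ n ∈ grid Mg, ch A (gp m Mg n) = 0 := by
  unfold ch
  rw [← expect_sum_comm]
  refine expect_eq_zero fun ω _ => ?_
  rw [kernel_EGFour hm hMg, if_neg]
  rintro ⟨h1, h2⟩
  have a1 : |(A ω).im| < Mg := by exact_mod_cast (abs_im_le hm (A ω)).trans_lt (hA ω)
  have a2 : |(A ω).re| < Mg := by exact_mod_cast (abs_re_le (A ω)).trans_lt (hA ω)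
  exact h0 ω (Zsqrtd.ext (Int.eq_zero_of_abs_lt_dvd h2 a2) (Int.eq_zero_of_abs_lt_dvd h1 a1))

/-- The point `k / Q + c / Mg`. -/
noncomputable def mp (m Q Mg : ℕ) (k c : ℤ × ℤ) : ℂ := gp m Q k + gp m Mg c

/-- The square of radius `V`. -/
noncomputable def sqr (V : ℕ) : Finset (ℤ × ℤ) := Icc (-(V : ℤ)) V ×ˢ Icc (-(V : ℤ)) V

theorem inj_EGFour {α β : Type} [DecidableEq β] {s : Finset α} {t : Finset β} (e : α → β)
    (he : Set.InjOn e s) (ht : ∀ a ∈ s, e a ∈ t) (f : β → ℝ) (hf : ∀ b, 0 ≤ f b) :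
    ∑ a ∈ s, f (e a) ≤ ∑ b ∈ t, f b := by
  rw [← sum_image he]
  exact sum_le_sum_of_subset_of_nonneg (image_subset_iff.2 ht) fun b _ _ => hf b

/-- The square with a corner at the origin. -/
noncomputable def box_EGFour (L : ℕ) : Finset (ℤ × ℤ) := Icc (0 : ℤ) L ×ˢ Icc (0 : ℤ) L

theorem card_EGFour (L : ℕ) : ((box_EGFour L).card : ℝ) = (L + 1) ^ 2 := by
  have : (Icc (0 : ℤ) L).card = L + 1 := by
    rw [Int.card_Icc]
    omega
  rw [box_EGFour, card_product, this]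
  push_cast
  ring

theorem count_EGFour (V : ℕ) (g g0 : ℤ × ℤ → ℝ) (hg : ∀ c, 0 ≤ g c) (hg0 : ∀ c, 0 ≤ g0 c)
    (h : ∑ p ∈ box_EGFour (2 * V) ×ˢ box_EGFour (2 * V), g (p.1 - p.2) ≤
      ∑ p ∈ box_EGFour (2 * V) ×ˢ box_EGFour (2 * V), g0 (p.1 - p.2)) :
    ∑ c ∈ sqr V, g c ≤ 4 * ∑ c ∈ sqr (2 * V), g0 c := by
  have h1 : (V + 1 : ℝ) ^ 2 * ∑ c ∈ sqr V, g c ≤
      ∑ p ∈ box_EGFour (2 * V) ×ˢ box_EGFour (2 * V), g (p.1 - p.2) := by
    refine le_trans (le_of_eq ?_) (inj_EGFour (s := sqr V ×ˢ box_EGFour V)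
      (fun q => ((q.2.1 + max q.1.1 0, q.2.2 + max q.1.2 0),
        (q.2.1 + max (-q.1.1) 0, q.2.2 + max (-q.1.2) 0))) ?_ ?_ (fun p => g (p.1 - p.2))
      fun _ => hg _)
    · rw [sum_product, mul_sum]
      refine sum_congr rfl fun c _ => ?_
      rw [← card_EGFour, ← nsmul_eq_mul, ← sum_const]
      refine sum_congr rfl fun t _ => congrArg g ?_
      ext <;> simp only [Prod.fst_sub, Prod.snd_sub] <;> omega
    · rintro ⟨⟨a, b⟩, c, d⟩ _ ⟨⟨a', b'⟩, c', d'⟩ _ e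
      simp only [Prod.mk.injEq] at e ⊢
      omega
    · rintro ⟨⟨a, b⟩, c, d⟩ e
      simp only [sqr, box_EGFour, mem_product, mem_Icc] at e ⊢
      push_cast
      omega
  have h2 : ∑ p ∈ box_EGFour (2 * V) ×ˢ box_EGFour (2 * V), g0 (p.1 - p.2) ≤
      (2 * V + 1 : ℝ) ^ 2 * ∑ c ∈ sqr (2 * V), g0 c := by
    have e := card_EGFour (2 * V)
    push_cast at e
    rw [sum_product_right, ← e, ← nsmul_eq_mul, ← sum_const]
    refine sum_le_sum fun a ha => inj_EGFour (fun x => x - a)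
      (fun x _ y _ e => sub_left_injective e) ?_ g0 hg0
    rintro ⟨x, y⟩ e
    simp only [sqr, box_EGFour, mem_product, mem_Icc, Prod.fst_sub, Prod.snd_sub] at e ha ⊢
    omega
  have h3 : 0 ≤ ∑ c ∈ sqr (2 * V), g0 c := sum_nonneg fun c _ => hg0 c
  have h4 : (2 * V + 1 : ℝ) ^ 2 ≤ (V + 1) ^ 2 * 4 := by nlinarith [Nat.cast_nonneg (α := ℝ) V]
  refine le_of_mul_le_mul_left ?_ (by positivity : (0 : ℝ) < (V + 1) ^ 2)
  calc _ ≤ (2 * V + 1 : ℝ) ^ 2 * ∑ c ∈ sqr (2 * V), g0 c := h1.trans (h.trans h2)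
    _ ≤ (V + 1) ^ 2 * 4 * ∑ c ∈ sqr (2 * V), g0 c := mul_le_mul_of_nonneg_right h4 h3
    _ = _ := mul_assoc _ _ _

theorem weight_EGFour {m Q : ℕ} (Mg : ℕ) (hm : 1 ≤ m) (hQ : 1 ≤ Q) (B : Finset (ℤ × ℤ)) (D : O m) :
    ∃ w : ℝ, 0 ≤ w ∧ ∀ θ : ℂ, ∑ p ∈ B ×ˢ B, ∑ k ∈ grid Q,
      ee (pr m (θ + mp m Q Mg k (p.1 - p.2)) (ph m D)) = ee (pr m θ (ph m D)) * w := by
  refine ⟨(if (Q : ℤ) ∣ D.im ∧ (Q : ℤ) ∣ D.re then (Q : ℝ) ^ 2 else 0) *
    ‖∑ a ∈ B, ee (pr m (gp m Mg a) (ph m D))‖ ^ 2, by positivity, fun θ => ?_⟩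
  have h : ∀ (p : (ℤ × ℤ) × ℤ × ℤ) (k : ℤ × ℤ), ee (pr m (θ + mp m Q Mg k (p.1 - p.2)) (ph m D)) =
      ee (pr m θ (ph m D)) * (ee (pr m (gp m Q k) (ph m D)) *
        (ee (pr m (gp m Mg p.1) (ph m D)) * conj (ee (pr m (gp m Mg p.2) (ph m D))))) := by
    intro p k
    have e : gp m Mg p.1 = gp m Mg (p.1 - p.2) + gp m Mg p.2 := by
      simp only [gp, phmk_EGFour, Prod.fst_sub, Prod.snd_sub]
      push_cast
      ring
    rw [← ee_neg, ← ee_add, ← ee_add, ← ee_add, mp, e, pr_add_left, pr_add_left, pr_add_left]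
    congr 1
    ring
  simp only [h, ← mul_sum, ← sum_mul]
  rw [kernel_EGFour hm hQ, sum_product]
  dsimp only
  rw [← sum_mul_sum, ← map_sum, Complex.mul_conj, Complex.normSq_eq_norm_sq]
  split_ifs <;> push_cast <;> ring

/-- Positivity: a shifted neighbourhood carries at most four times the mass of the main one. -/
theorem compare (m Q Mg V : ℕ) (hm : 1 ≤ m) (hQ : 1 ≤ Q) {Ω : Type} [Fintype Ω] (X : Ω → O m)
    (θ : ℂ) :
    ∑ k ∈ grid Q, ∑ c ∈ sqr V, ‖ch X (θ + mp m Q Mg k c)‖ ^ 2 ≤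
      4 * ∑ k ∈ grid Q, ∑ c ∈ sqr (2 * V), ‖ch X (mp m Q Mg k c)‖ ^ 2 := by
  choose w w0 hw using weight_EGFour Mg hm hQ (box_EGFour (2 * V))
  have key : ∀ θ : ℂ, ∑ p ∈ box_EGFour (2 * V) ×ˢ box_EGFour (2 * V), ∑ k ∈ grid Q,
      ‖ch X (θ + mp m Q Mg k (p.1 - p.2))‖ ^ 2 =
      𝔼 q : Ω × Ω, (ee (pr m θ (ph m (X q.1 - X q.2))) * w (X q.1 - X q.2)).re := by
    intro θ
    rw [← Complex.re_expect, ← Complex.ofReal_re (∑ p ∈ _, _)]
    congr 1
    simp only [Complex.ofReal_sum, norm_ch_sq, ← expect_sum_comm, hw]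
  rw [sum_comm, sum_comm (s := grid Q)]
  refine count_EGFour V _ _ (fun c => by positivity) (fun c => by positivity) ?_
  have k0 := key 0
  simp only [zero_add] at k0
  rw [key, k0]
  refine expect_le_expect fun q _ => ?_
  have e : pr m 0 (ph m (X q.1 - X q.2)) = 0 := by simp [pr]
  rw [e, ee_zero, one_mul, Complex.ofReal_re]
  refine (Complex.re_le_norm _).trans ?_
  rw [norm_mul, norm_ee, one_mul, Complex.norm_real, Real.norm_of_nonneg (w0 _)]

/-- Reduction of an index modulo `Mg`. -/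
def red (Mg : ℕ) (n : ℤ × ℤ) : ℤ × ℤ := (n.1 % Mg, n.2 % Mg)

/-- The index of a main point. -/
def mi (Q Mg : ℕ) (q : (ℤ × ℤ) × (ℤ × ℤ)) : ℤ × ℤ :=
  red Mg (q.1.1 * (Mg / Q : ℕ) + q.2.1, q.1.2 * (Mg / Q : ℕ) + q.2.2)

theorem mi_mem (Q Mg : ℕ) (hMg : 1 ≤ Mg) (q : (ℤ × ℤ) × (ℤ × ℤ)) : mi Q Mg q ∈ grid Mg := by
  have h : (0 : ℤ) < Mg := by exact_mod_cast hMg
  simp only [mi, red, grid, mem_product, mem_Ico]
  exact ⟨⟨Int.emod_nonneg _ h.ne', Int.emod_lt_of_pos _ h⟩,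
    Int.emod_nonneg _ h.ne', Int.emod_lt_of_pos _ h⟩

theorem mi_inj (Q Mg V : ℕ) (hQ : 1 ≤ Q) (hQM : Q ∣ Mg) (hV : 2 * V < Mg / Q) :
    Set.InjOn (mi Q Mg) (grid Q ×ˢ sqr V : Finset _) := by
  obtain ⟨N, rfl⟩ := hQM
  rw [Nat.mul_div_cancel_left _ hQ] at hV
  have key : ∀ k k' c c' : ℤ, 0 ≤ k → k < Q → 0 ≤ k' → k' < Q → -(V : ℤ) ≤ c → c ≤ V →
      -(V : ℤ) ≤ c' → c' ≤ V → (k * N + c) % (Q * N : ℕ) = (k' * N + c') % (Q * N : ℕ) →
      k = k' ∧ c = c' := by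
    intro k k' c c' a1 a2 a3 a4 a5 a6 a7 a8 h
    have h1 : (Q : ℤ) * N ∣ (k' - k) * N + (c' - c) := by
      have := Int.ModEq.dvd h
      push_cast at this
      rwa [show k' * N + c' - (k * N + c) = (k' - k) * N + (c' - c) by ring] at this
    have h2 : c' - c = 0 := Int.eq_zero_of_abs_lt_dvd
      ((dvd_add_right (dvd_mul_left _ _)).1 ((dvd_mul_left _ _).trans h1)) (abs_lt.2 (by omega))
    rw [h2, add_zero, mul_dvd_mul_iff_right (by omega)] at h1
    have h3 := Int.eq_zero_of_abs_lt_dvd h1 (abs_lt.2 (by omega))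
    omega
  rintro ⟨⟨a, b⟩, c, d⟩ h ⟨⟨a', b'⟩, c', d'⟩ h' e
  simp only [coe_product, Set.mem_prod, mem_coe, grid, sqr, mem_Ico, mem_Icc] at h h'
  simp only [mi, red, Nat.mul_div_cancel_left _ hQ, Prod.mk.injEq] at e ⊢
  have k1 := key a a' c c' h.1.1.1 h.1.1.2 h'.1.1.1 h'.1.1.2 h.2.1.1 h.2.1.2 h'.2.1.1 h'.2.1.2 e.1
  have k2 := key b b' d d' h.1.2.1 h.1.2.2 h'.1.2.1 h'.1.2.2 h.2.2.1 h.2.2.2 h'.2.2.1 h'.2.2.2 e.2
  exact ⟨⟨k1.1, k2.1⟩, k1.2, k2.2⟩

theorem gp_mi (m Q Mg : ℕ) (hQ : 1 ≤ Q) (hMg : 1 ≤ Mg) (hQM : Q ∣ Mg) (q : (ℤ × ℤ) × (ℤ × ℤ)) :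
    ∃ a : O m, gp m Mg (mi Q Mg q) = mp m Q Mg q.1 q.2 + ph m a := by
  obtain ⟨N, rfl⟩ := hQM
  have h1 : (Q : ℂ) ≠ 0 := Nat.cast_ne_zero.2 (by omega)
  have h2 : (N : ℂ) ≠ 0 := Nat.cast_ne_zero.2 (by rintro rfl; simp at hMg)
  refine ⟨⟨-((q.1.1 * N + q.2.1) / (Q * N : ℕ)), -((q.1.2 * N + q.2.2) / (Q * N : ℕ))⟩, ?_⟩
  simp only [mp, gp, mi, red, Nat.mul_div_cancel_left _ hQ, phmk_EGFour, Int.emod_def]
  generalize (q.1.1 * N + q.2.1) / (Q * N : ℕ) = x
  generalize (q.1.2 * N + q.2.2) / (Q * N : ℕ) = y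
  push_cast
  field_simp
  ring

end Pool.Agent.P.MP_b75a1e_co.EG
end

-- part Pool.Agent.P.MP_b75a1e_co.EGHeight
section

set_option autoImplicit false

open Finset
open scoped BigOperators ComplexConjugate

namespace Pool.Agent.P.MP_b75a1e_co.EG

theorem norm_sq_mu_EGHeight (m : ℕ) : ‖ph m (mu m)‖ ^ 2 = (m : ℝ) ^ 3 := by
  rw [norm_sq_ph, norm_mu]; push_cast; rfl

theorem lam_ge_EGHeight {m : ℕ} (hm : 1 ≤ m) {lam : ℝ} (hlam : 100 * (m : ℝ) ^ 3 ≤ lam) :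
    100 ≤ lam ∧ (m : ℝ) ^ 3 ≤ lam := by
  have h1 : (1 : ℝ) ≤ m := by exact_mod_cast hm
  have h2 : (1 : ℝ) ≤ (m : ℝ) ^ 3 := one_le_pow₀ h1
  constructor <;> linarith

theorem g_ne_EGHeight {m : ℕ} {g : O m} {lam NN0 : ℝ} (h0 : 0 < NN0)
    (h1 : NN0 ≤ g.norm * lam ^ 200) : g ≠ 0 := by
  rintro rfl
  simp at h1
  linarith

theorem mul_ne_EGHeight {m : ℕ} (hm : 1 ≤ m) {x y : O m} (hx : x ≠ 0) (hy : y ≠ 0) :
    x * y ≠ 0 := by
  intro h
  exact hy (o_cancel hm hx (by rw [h, mul_zero]))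

/-- Two good approximations agree. -/
theorem link_EGHeight (m : ℕ) (hm : 1 ≤ m) (g w0 a0 w1 a1 : O m) (θ : ℂ) (lam NN0 : ℝ)
    (hlam : 100 * (m : ℝ) ^ 3 ≤ lam) (_h0 : 0 < NN0) (h2 : g.norm * lam ^ 200 ≤ 2 * NN0)
    (hw0 : (w0.norm : ℝ) ≤ lam ^ 139) (he0 : ‖θ * ph m w0 - ph m a0‖ ^ 2 * NN0 ≤ lam ^ 139)
    (hw1 : (w1.norm : ℝ) ≤ lam ^ 60)
    (he1 : ‖θ / ph m (mu m) * ph m g * ph m w1 - ph m a1‖ ^ 2 * lam ^ 200 ≤ lam ^ 60) :
    mu m * a1 * w0 = a0 * g * w1 := by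
  obtain ⟨hl, -⟩ := lam_ge_EGHeight hm hlam
  have hl0 : 0 < lam := by linarith
  have hmu : ph m (mu m) ≠ 0 := ph_ne_zero hm (mu_ne_zero hm)
  set e0 := θ * ph m w0 - ph m a0 with he0d
  set e1 := θ / ph m (mu m) * ph m g * ph m w1 - ph m a1 with he1d
  have key : ph m (mu m * a1 * w0 - a0 * g * w1) =
      e0 * ph m g * ph m w1 - ph m (mu m) * e1 * ph m w0 := by
    rw [he0d, he1d]
    simp only [map_sub, map_mul]
    field_simp
    ring
  have hg0 : (0 : ℝ) ≤ g.norm := by exact_mod_cast norm_nonneg' g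
  have hw00 : (0 : ℝ) ≤ w0.norm := by exact_mod_cast norm_nonneg' w0
  have hw10 : (0 : ℝ) ≤ w1.norm := by exact_mod_cast norm_nonneg' w1
  have hA : ‖e0 * ph m g * ph m w1‖ ^ 2 ≤ (1 / 4) ^ 2 := by
    rw [norm_mul, norm_mul, mul_pow, mul_pow, norm_sq_ph, norm_sq_ph]
    have hE : 0 ≤ ‖e0‖ ^ 2 := sq_nonneg _
    generalize ‖e0‖ ^ 2 = E at *
    have s1 : E * (g.norm * lam ^ 200) ≤ 2 * lam ^ 139 := by
      calc E * (g.norm * lam ^ 200) ≤ E * (2 * NN0) := mul_le_mul_of_nonneg_left h2 hE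
        _ = 2 * (E * NN0) := by ring
        _ ≤ 2 * lam ^ 139 := by linarith
    have s2 : E * g.norm * w1.norm * lam ^ 200 ≤ 2 * lam ^ 199 := by
      calc E * g.norm * w1.norm * lam ^ 200 = E * (g.norm * lam ^ 200) * w1.norm := by ring
        _ ≤ 2 * lam ^ 139 * lam ^ 60 :=
          mul_le_mul s1 hw1 hw10 (by positivity)
        _ = 2 * lam ^ 199 := by ring
    have s3 : 2 * lam ^ 199 ≤ (1 / 4) ^ 2 * lam ^ 200 := by
      have : (0 : ℝ) < lam ^ 199 := by positivity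
      have e : lam ^ 200 = lam * lam ^ 199 := by ring
      rw [e]
      generalize lam ^ 199 = L at *
      nlinarith
    exact le_of_mul_le_mul_right (s2.trans s3) (by positivity)
  have hB : ‖ph m (mu m) * e1 * ph m w0‖ ^ 2 ≤ (1 / 4) ^ 2 := by
    rw [norm_mul, norm_mul, mul_pow, mul_pow, norm_sq_mu_EGHeight, norm_sq_ph]
    have hE : 0 ≤ ‖e1‖ ^ 2 := sq_nonneg _
    generalize ‖e1‖ ^ 2 = E at *
    have hm3 : (0 : ℝ) ≤ (m : ℝ) ^ 3 := by positivity
    generalize (m : ℝ) ^ 3 = M at *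
    have s2 : M * E * w0.norm * lam ^ 200 ≤ M * lam ^ 199 := by
      calc M * E * w0.norm * lam ^ 200 = M * (E * lam ^ 200 * w0.norm) := by ring
        _ ≤ M * (lam ^ 60 * lam ^ 139) :=
          mul_le_mul_of_nonneg_left (mul_le_mul he1 hw0 hw00 (by positivity)) hm3
        _ = M * lam ^ 199 := by ring
    have s3 : M * lam ^ 199 ≤ (1 / 4) ^ 2 * lam ^ 200 := by
      have : (0 : ℝ) < lam ^ 199 := by positivity
      have e : lam ^ 200 = lam * lam ^ 199 := by ring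
      rw [e]
      generalize lam ^ 199 = L at *
      nlinarith
    exact le_of_mul_le_mul_right (s2.trans s3) (by positivity)
  have hA' := (pow_le_pow_iff_left₀ (norm_nonneg _) (by norm_num) two_ne_zero).1 hA
  have hB' := (pow_le_pow_iff_left₀ (norm_nonneg _) (by norm_num) two_ne_zero).1 hB
  have hz : mu m * a1 * w0 - a0 * g * w1 = 0 := by
    apply eq_zero_of_norm_lt hm
    rw [key]
    have := norm_sub_le (e0 * ph m g * ph m w1) (ph m (mu m) * e1 * ph m w0)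
    linarith
  exact sub_eq_zero.1 hz

/-- L5: one of the two versions is not low. -/
theorem versions (m : ℕ) (hm : 1 ≤ m) (g : O m) (hg : IsCoprime g (star g)) (θ : ℂ) (lam NN0 : ℝ)
    (hlam : 100 * (m : ℝ) ^ 3 ≤ lam) (h0 : 0 < NN0) (h1 : NN0 ≤ g.norm * lam ^ 200)
    (h2 : g.norm * lam ^ 200 ≤ 2 * NN0) (hL : Low m θ (lam ^ 139) NN0)
    (hN : ¬ Low m θ (lam ^ 121) NN0) :
    ¬ Low m (θ / ph m (mu m) * ph m g) (lam ^ 60) (lam ^ 200) ∨
      ¬ Low m (conj θ / ph m (mu m) * ph m g) (lam ^ 60) (lam ^ 200) := by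
  by_contra hcon
  rw [not_or, not_not, not_not] at hcon
  obtain ⟨⟨w1, a1, hw1, hn1, he1⟩, ⟨w2, a2, hw2, hn2, he2⟩⟩ := hcon
  obtain ⟨w0, a0, hw0, hn0, he0⟩ := hL
  obtain ⟨hl, hml⟩ := lam_ge_EGHeight hm hlam
  have hl0 : 0 < lam := by linarith
  have hmu : ph m (mu m) ≠ 0 := ph_ne_zero hm (mu_ne_zero hm)
  have hcmu : conj (ph m (mu m)) = -ph m (mu m) := by rw [← ph_star, star_mu, map_neg]
  have he2' : ‖θ / ph m (mu m) * ph m (star g) * ph m (star w2) - ph m (-star a2)‖ ^ 2 * lam ^ 200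
      ≤ lam ^ 60 := by
    have e : θ / ph m (mu m) * ph m (star g) * ph m (star w2) - ph m (-star a2) =
        -conj (conj θ / ph m (mu m) * ph m g * ph m w2 - ph m a2) := by
      simp only [map_sub, map_mul, map_div₀, map_neg, ph_star, Complex.conj_conj, hcmu]
      field_simp
      ring
    rw [e, norm_neg, Complex.norm_conj]
    exact he2
  have L1 := link_EGHeight m hm g w0 a0 w1 a1 θ lam NN0 hlam h0 h2 hn0 he0 hn1 he1
  have L2 := link_EGHeight m hm (star g) w0 a0 (star w2) (-star a2) θ lam NN0 hlam h0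
    (by rw [Zsqrtd.norm_conj]; exact h2) hn0 he0 (by rw [Zsqrtd.norm_conj]; exact hn2) he2'
  obtain ⟨x, y, hxy⟩ := hg
  have hw2' : star w2 ≠ 0 := by
    intro h
    apply hw2
    have := congrArg star h
    simpa using this
  have hn2' : ((star w2).norm : ℝ) ≤ lam ^ 60 := by rw [Zsqrtd.norm_conj]; exact hn2
  generalize star w2 = v2 at *
  generalize -star a2 = b2 at *
  have hstar : a0 * w1 * v2 = w0 * (mu m * (x * a1 * v2 + y * b2 * w1)) := by
    linear_combination (-(a0 * w1 * v2)) * hxy - x * v2 * L1 - y * w1 * L2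
  have hw10 : (0 : ℝ) ≤ w1.norm := by exact_mod_cast norm_nonneg' w1
  have hv20 : (0 : ℝ) ≤ v2.norm := by exact_mod_cast norm_nonneg' v2
  apply hN
  refine ⟨w1 * v2, mu m * (x * a1 * v2 + y * b2 * w1), mul_ne_EGHeight hm hw1 hw2', ?_, ?_⟩
  · rw [Zsqrtd.norm_mul]
    push_cast
    calc (w1.norm : ℝ) * v2.norm ≤ lam ^ 60 * lam ^ 60 := mul_le_mul hn1 hn2' hv20 (by positivity)
      _ = lam ^ 120 := by ring
      _ ≤ lam ^ 121 := pow_le_pow_right₀ (by linarith) (by norm_num)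
  · generalize mu m * (x * a1 * v2 + y * b2 * w1) = s at *
    have hw0c : ph m w0 ≠ 0 := ph_ne_zero hm hw0
    have c1 := congrArg (ph m) L1
    have c2 := congrArg (ph m) hstar
    simp only [map_mul] at c1 c2
    have key : (θ * ph m (w1 * v2) - ph m s) * ph m g =
        ph m (mu m) * (θ / ph m (mu m) * ph m g * ph m w1 - ph m a1) * ph m v2 := by
      apply mul_right_cancel₀ hw0c
      rw [map_mul]
      have e : ph m (mu m) * (θ / ph m (mu m) * ph m g * ph m w1 - ph m a1) =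
          θ * ph m g * ph m w1 - ph m (mu m) * ph m a1 := by
        field_simp
      rw [e]
      linear_combination (ph m g) * c2 + ph m v2 * c1
    have k2 := congrArg (fun z : ℂ => ‖z‖ ^ 2) key
    simp only [norm_mul, mul_pow, norm_sq_mu_EGHeight] at k2
    rw [norm_sq_ph g, norm_sq_ph v2] at k2
    have hE : 0 ≤ ‖θ * ph m (w1 * v2) - ph m s‖ ^ 2 := sq_nonneg _
    generalize ‖θ * ph m (w1 * v2) - ph m s‖ ^ 2 = E at *
    generalize ‖θ / ph m (mu m) * ph m g * ph m w1 - ph m a1‖ ^ 2 = E1 at *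
    calc E * NN0 ≤ E * (g.norm * lam ^ 200) := mul_le_mul_of_nonneg_left h1 hE
      _ = (E * g.norm) * lam ^ 200 := by ring
      _ = (m : ℝ) ^ 3 * (E1 * lam ^ 200 * v2.norm) := by rw [k2]; ring
      _ ≤ lam * (lam ^ 60 * lam ^ 60) := by
        have h3 : E1 * lam ^ 200 * v2.norm ≤ lam ^ 60 * lam ^ 60 :=
          mul_le_mul he1 hn2' hv20 (by positivity)
        calc (m : ℝ) ^ 3 * (E1 * lam ^ 200 * v2.norm) ≤ (m : ℝ) ^ 3 * (lam ^ 60 * lam ^ 60) :=
              mul_le_mul_of_nonneg_left h3 (by positivity)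
          _ ≤ lam * (lam ^ 60 * lam ^ 60) := mul_le_mul_of_nonneg_right hml (by positivity)
      _ = lam ^ 121 := by ring

/-- L5 at the top scale. -/
theorem version_top (m : ℕ) (hm : 1 ≤ m) (g : O m) (θ : ℂ) (lam NN0 : ℝ)
    (hlam : 100 * (m : ℝ) ^ 3 ≤ lam) (h0 : 0 < NN0) (h1 : NN0 ≤ g.norm * lam ^ 200)
    (hg : (g.norm : ℝ) ≤ lam ^ 50) (hN : ¬ Low m θ (lam ^ 121) NN0) :
    ¬ Low m (θ / ph m (mu m) * ph m g) (lam ^ 60) (lam ^ 200) := by
  rintro ⟨w1, a1, hw1, hn1, he1⟩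
  obtain ⟨hl, hml⟩ := lam_ge_EGHeight hm hlam
  have hl0 : 0 < lam := by linarith
  have hmu : ph m (mu m) ≠ 0 := ph_ne_zero hm (mu_ne_zero hm)
  have hw10 : (0 : ℝ) ≤ w1.norm := by exact_mod_cast norm_nonneg' w1
  have hg0 : (0 : ℝ) ≤ g.norm := by exact_mod_cast norm_nonneg' g
  apply hN
  refine ⟨g * w1, mu m * a1, mul_ne_EGHeight hm (g_ne_EGHeight h0 h1) hw1, ?_, ?_⟩
  · rw [Zsqrtd.norm_mul]
    push_cast
    calc (g.norm : ℝ) * w1.norm ≤ lam ^ 50 * lam ^ 60 := mul_le_mul hg hn1 hw10 (by positivity)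
      _ = lam ^ 110 := by ring
      _ ≤ lam ^ 121 := pow_le_pow_right₀ (by linarith) (by norm_num)
  · have key : θ * ph m (g * w1) - ph m (mu m * a1) =
        ph m (mu m) * (θ / ph m (mu m) * ph m g * ph m w1 - ph m a1) := by
      simp only [map_mul]
      field_simp
    rw [key, norm_mul, mul_pow, norm_sq_mu_EGHeight]
    have hE : 0 ≤ ‖θ / ph m (mu m) * ph m g * ph m w1 - ph m a1‖ ^ 2 := sq_nonneg _
    generalize ‖θ / ph m (mu m) * ph m g * ph m w1 - ph m a1‖ ^ 2 = E1 at *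
    have h3 : E1 * NN0 ≤ lam ^ 60 * lam ^ 50 := by
      calc E1 * NN0 ≤ E1 * (g.norm * lam ^ 200) := mul_le_mul_of_nonneg_left h1 hE
        _ = E1 * lam ^ 200 * g.norm := by ring
        _ ≤ lam ^ 60 * lam ^ 50 := mul_le_mul he1 hg hg0 (by positivity)
    calc (m : ℝ) ^ 3 * E1 * NN0 = (m : ℝ) ^ 3 * (E1 * NN0) := by ring
      _ ≤ (m : ℝ) ^ 3 * (lam ^ 60 * lam ^ 50) := mul_le_mul_of_nonneg_left h3 (by positivity)
      _ ≤ lam * (lam ^ 60 * lam ^ 50) := mul_le_mul_of_nonneg_right hml (by positivity)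
      _ = lam ^ 111 := by ring
      _ ≤ lam ^ 121 := pow_le_pow_right₀ (by linarith) (by norm_num)

theorem reduce_EGHeight (m : ℕ) (n : ℕ) : ∀ β0 : O m, 1 ≤ n →
    ∃ (β : O m) (d : ℕ), 1 ≤ d ∧ d ≤ n ∧ PrimAt β d ∧ ph m β / d = ph m β0 / n := by
  induction n using Nat.strong_induction_on with
  | _ n ih =>
    intro β0 hn
    by_cases hP : PrimAt β0 n
    · exact ⟨β0, n, hn, le_rfl, hP, rfl⟩
    · unfold PrimAt at hP
      push Not at hP
      obtain ⟨l, hl, ⟨n1, rfl⟩, ⟨β1, rfl⟩⟩ := hP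
      have hn1 : 1 ≤ n1 := by
        rcases Nat.eq_zero_or_pos n1 with h | h
        · subst h; simp at hn
        · exact h
      have hlt : n1 < l * n1 := by
        have := hl.two_le
        nlinarith
      obtain ⟨β, d, h1, h2, h3, h4⟩ := ih n1 hlt β1 hn1
      refine ⟨β, d, h1, h2.trans hlt.le, h3, ?_⟩
      have hl0 : (l : ℂ) ≠ 0 := by exact_mod_cast hl.ne_zero
      rw [h4, map_mul, map_natCast]
      push_cast
      rw [mul_div_mul_left _ _ hl0]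

theorem near_of_low (m : ℕ) (hm : 1 ≤ m) (θ : ℂ) (H X : ℝ) (hX : 0 ≤ X) (h : Low m θ H X) :
    ∃ (β : O m) (d : ℕ), Near m θ β d H X := by
  obtain ⟨w, a, hw, hn, he⟩ := h
  have h1 : 1 ≤ w.norm := norm_pos' hm hw
  obtain ⟨n, hnw⟩ : ∃ n : ℕ, (n : ℤ) = w.norm := ⟨w.norm.toNat, Int.toNat_of_nonneg (by omega)⟩
  have hn1 : 1 ≤ n := by omega
  obtain ⟨β, d, hd1, hd2, hP, hq⟩ := reduce_EGHeight m n (a * star w) hn1
  have hnr : (n : ℝ) = (w.norm : ℝ) := by exact_mod_cast hnw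
  have hwc : ph m w ≠ 0 := ph_ne_zero hm hw
  refine ⟨β, d, hd1, ?_, hP, ?_⟩
  · calc (d : ℝ) ≤ n := by exact_mod_cast hd2
      _ ≤ H := by rw [hnr]; exact hn
  · have hnc : (n : ℂ) = ph m w * ph m (star w) := by
      rw [← map_mul, ← Zsqrtd.norm_eq_mul_conj, ← hnw]
      simp
    have hs : ph m (star w) ≠ 0 := by
      rw [ph_star]; simpa using hwc
    have key : (θ - ph m β / d) * ph m w = θ * ph m w - ph m a := by
      rw [hq, hnc, map_mul]
      field_simp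
    rw [← key, norm_mul, mul_pow, norm_sq_ph] at he
    have hE : 0 ≤ ‖θ - ph m β / d‖ ^ 2 * X := mul_nonneg (sq_nonneg _) hX
    have h1r : (1 : ℝ) ≤ w.norm := by exact_mod_cast h1
    calc ‖θ - ph m β / d‖ ^ 2 * X ≤ ‖θ - ph m β / d‖ ^ 2 * X * w.norm :=
          le_mul_of_one_le_right hE h1r
      _ = ‖θ - ph m β / d‖ ^ 2 * w.norm * X := by ring
      _ ≤ H := he

theorem card_Icc_EGHeight (a R : ℝ) (hR : 0 ≤ R) :
    ((Icc ⌈a - R⌉ ⌊a + R⌋).card : ℝ) ≤ 2 * R + 1 := by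
  rw [Int.card_Icc]
  rcases le_total 0 (⌊a + R⌋ + 1 - ⌈a - R⌉) with h | h
  · have e : (((⌊a + R⌋ + 1 - ⌈a - R⌉).toNat : ℤ) : ℝ) = ((⌊a + R⌋ + 1 - ⌈a - R⌉ : ℤ) : ℝ) := by
      rw [Int.toNat_of_nonneg h]
    push_cast at e
    rw [e]
    have := Int.floor_le (a + R)
    have := Int.le_ceil (a - R)
    linarith
  · rw [Int.toNat_eq_zero.2 h]
    simp only [Nat.cast_zero]
    linarith

open Classical in
theorem line_EGHeight (Mg d : ℕ) (hd : 1 ≤ d) (r : ℝ) (hr : 0 ≤ r) :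
    (((Ico (0 : ℤ) Mg).filter fun n : ℤ => ∃ b : ℤ, |(n : ℝ) / Mg - (b : ℝ) / d| ≤ r).card : ℝ) ≤
      d * (2 * (Mg * r) + 1) := by
  have hdr : (0 : ℝ) < d := by exact_mod_cast hd
  have hsub : ((Ico (0 : ℤ) Mg).filter fun n : ℤ => ∃ b : ℤ, |(n : ℝ) / Mg - (b : ℝ) / d| ≤ r) ⊆
      ((Ico (0 : ℤ) d).biUnion fun ρ =>
        Icc ⌈(Mg : ℝ) * ρ / d - Mg * r⌉ ⌊(Mg : ℝ) * ρ / d + Mg * r⌋).image
          (fun k : ℤ => k % (Mg : ℤ)) := by
    intro n hn
    obtain ⟨hn1, b, hb⟩ := mem_filter.1 hn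
    obtain ⟨hn0, hnM⟩ := mem_Ico.1 hn1
    have hM : (0 : ℤ) < Mg := by omega
    have hMr : (0 : ℝ) < Mg := by exact_mod_cast hM
    have hdz : (0 : ℤ) < d := by exact_mod_cast hd
    refine mem_image.2 ⟨n - Mg * (b / d), mem_biUnion.2 ⟨b % d, mem_Ico.2
      ⟨Int.emod_nonneg _ hdz.ne', Int.emod_lt_of_pos _ hdz⟩, ?_⟩, ?_⟩
    · have hbq : (b : ℝ) = d * ((b / d : ℤ) : ℝ) + ((b % d : ℤ) : ℝ) := by
        exact_mod_cast (Int.mul_ediv_add_emod b d).symm
      generalize b / (d : ℤ) = q at *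
      generalize b % (d : ℤ) = ρ at *
      have e : ((n - Mg * q : ℤ) : ℝ) - (Mg : ℝ) * ρ / d = Mg * ((n : ℝ) / Mg - (b : ℝ) / d) := by
        rw [hbq]
        push_cast
        field_simp
        ring
      obtain ⟨hb1, hb2⟩ := abs_le.1 hb
      have k1 := mul_le_mul_of_nonneg_left hb1 hMr.le
      have k2 := mul_le_mul_of_nonneg_left hb2 hMr.le
      refine mem_Icc.2 ⟨Int.ceil_le.2 ?_, Int.le_floor.2 ?_⟩ <;> linarith
    · show (n - Mg * (b / d)) % (Mg : ℤ) = n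
      rw [Int.sub_mul_emod_self_left, Int.emod_eq_of_lt hn0 hnM]
  have h1 := (card_le_card hsub).trans (card_image_le.trans card_biUnion_le)
  have h2 : ((((Ico (0 : ℤ) Mg).filter
      fun n : ℤ => ∃ b : ℤ, |(n : ℝ) / Mg - (b : ℝ) / d| ≤ r).card : ℕ) : ℝ) ≤
      ∑ ρ ∈ Ico (0 : ℤ) d,
        ((Icc ⌈(Mg : ℝ) * ρ / d - Mg * r⌉ ⌊(Mg : ℝ) * ρ / d + Mg * r⌋).card : ℝ) := by
    exact_mod_cast h1
  refine h2.trans ?_
  calc ∑ ρ ∈ Ico (0 : ℤ) d,
        ((Icc ⌈(Mg : ℝ) * ρ / d - Mg * r⌉ ⌊(Mg : ℝ) * ρ / d + Mg * r⌋).card : ℝ)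
      ≤ ∑ _ρ ∈ Ico (0 : ℤ) d, (2 * (Mg * r) + 1) :=
        sum_le_sum fun ρ _ => card_Icc_EGHeight _ _ (by positivity)
    _ = d * (2 * (Mg * r) + 1) := by simp [mul_add]

open Classical in
/-- L6: the number of grid points near a fraction. -/
theorem count_near (m p Mg : ℕ) (hm : 1 ≤ m) (hp : 1 ≤ p) (H X : ℝ) (hH : 1 ≤ H) (hX : 0 < X)
    (hMg : (Mg : ℝ) ≤ 9 * p * Real.sqrt X) :
    (((grid Mg).filter fun n => ∃ (β : O m) (d : ℕ), Near m (gp m Mg n) β d H X).card : ℝ) ≤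
      400 * (p : ℝ) ^ 2 * H ^ 4 := by
  have hH0 : 0 ≤ H := by linarith
  have hsX : 0 < Real.sqrt X := Real.sqrt_pos.2 hX
  have hsH : 1 ≤ Real.sqrt H := Real.one_le_sqrt.2 hH
  have hpr : (1 : ℝ) ≤ p := by exact_mod_cast hp
  set r := Real.sqrt H / Real.sqrt X with hr
  have hr0 : 0 ≤ r := by positivity
  set A : ℕ → Finset ℤ := fun d =>
    (Ico (0 : ℤ) Mg).filter fun n : ℤ => ∃ b : ℤ, |(n : ℝ) / Mg - (b : ℝ) / d| ≤ r with hA
  have hsub : ((grid Mg).filter fun n => ∃ (β : O m) (d : ℕ), Near m (gp m Mg n) β d H X) ⊆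
      (Icc 1 ⌊H⌋₊).biUnion fun d => A d ×ˢ A d := by
    intro n hn
    obtain ⟨hn1, β, d, hd1, hdH, -, he⟩ := mem_filter.1 hn
    obtain ⟨hn2, hn3⟩ := mem_product.1 hn1
    have hle : ‖gp m Mg n - ph m β / d‖ ≤ r := by
      rw [hr, ← Real.sqrt_div hH0]
      apply Real.le_sqrt_of_sq_le
      rw [le_div_iff₀ hX]
      exact he
    have hsm : (1 : ℝ) ≤ Real.sqrt m := Real.one_le_sqrt.2 (by exact_mod_cast hm)
    refine mem_biUnion.2 ⟨d, mem_Icc.2 ⟨hd1, Nat.le_floor hdH⟩, mem_product.2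
      ⟨mem_filter.2 ⟨hn2, β.re, ?_⟩, mem_filter.2 ⟨hn3, β.im, ?_⟩⟩⟩
    · have e : (gp m Mg n - ph m β / d).re = (n.1 : ℝ) / Mg - (β.re : ℝ) / d := by
        unfold gp
        rw [Complex.sub_re, Complex.div_natCast_re, Complex.div_natCast_re, ph_re, ph_re]
      rw [← e]
      exact (Complex.abs_re_le_norm _).trans hle
    · have e : (gp m Mg n - ph m β / d).im =
          ((n.2 : ℝ) / Mg - (β.im : ℝ) / d) * Real.sqrt m := by
        unfold gp
        rw [Complex.sub_im, Complex.div_natCast_im, Complex.div_natCast_im, ph_im, ph_im]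
        ring
      have h3 := (Complex.abs_im_le_norm _).trans hle
      rw [e, abs_mul, abs_of_nonneg (Real.sqrt_nonneg _)] at h3
      exact (le_mul_of_one_le_right (abs_nonneg _) hsm).trans h3
  have hB : 2 * (Mg * r) + 1 ≤ 19 * p * Real.sqrt H := by
    have h1 : Mg * r ≤ 9 * p * Real.sqrt H := by
      calc (Mg : ℝ) * r ≤ 9 * p * Real.sqrt X * r := mul_le_mul_of_nonneg_right hMg hr0
        _ = 9 * p * Real.sqrt H := by rw [hr]; field_simp
    have h2 : (1 : ℝ) ≤ p * Real.sqrt H := one_le_mul_of_one_le_of_one_le hpr hsH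
    linarith
  have h1 := (card_le_card hsub).trans card_biUnion_le
  have h2 : ((((grid Mg).filter
      fun n => ∃ (β : O m) (d : ℕ), Near m (gp m Mg n) β d H X).card : ℕ) : ℝ) ≤
      ∑ d ∈ Icc 1 ⌊H⌋₊, (((A d ×ˢ A d).card : ℕ) : ℝ) := by
    exact_mod_cast h1
  refine h2.trans ?_
  have hterm : ∀ d ∈ Icc 1 ⌊H⌋₊, (((A d ×ˢ A d).card : ℕ) : ℝ) ≤ 361 * (p : ℝ) ^ 2 * H ^ 3 := by
    intro d hd
    obtain ⟨hd1, hd2⟩ := mem_Icc.1 hd
    have hdH : (d : ℝ) ≤ H := (Nat.le_floor_iff hH0).1 hd2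
    have hc : ((A d).card : ℝ) ≤ H * (19 * p * Real.sqrt H) :=
      (line_EGHeight Mg d hd1 r hr0).trans (mul_le_mul hdH hB (by positivity) hH0)
    rw [card_product]
    push_cast
    calc ((A d).card : ℝ) * (A d).card ≤ (H * (19 * p * Real.sqrt H)) * (H * (19 * p * Real.sqrt H)) :=
          mul_le_mul hc hc (by positivity) (by positivity)
      _ = 361 * (p : ℝ) ^ 2 * H ^ 2 * (Real.sqrt H * Real.sqrt H) := by ring
      _ = 361 * (p : ℝ) ^ 2 * H ^ 3 := by rw [Real.mul_self_sqrt hH0]; ring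
  calc ∑ d ∈ Icc 1 ⌊H⌋₊, (((A d ×ˢ A d).card : ℕ) : ℝ)
      ≤ ∑ _d ∈ Icc 1 ⌊H⌋₊, 361 * (p : ℝ) ^ 2 * H ^ 3 := sum_le_sum hterm
    _ = (⌊H⌋₊ : ℝ) * (361 * (p : ℝ) ^ 2 * H ^ 3) := by simp
    _ ≤ H * (361 * (p : ℝ) ^ 2 * H ^ 3) :=
        mul_le_mul_of_nonneg_right (Nat.floor_le hH0) (by positivity)
    _ = 361 * ((p : ℝ) ^ 2 * H ^ 4) := by ring
    _ ≤ 400 * ((p : ℝ) ^ 2 * H ^ 4) := mul_le_mul_of_nonneg_right (by norm_num) (by positivity)
    _ = 400 * (p : ℝ) ^ 2 * H ^ 4 := by ring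

end Pool.Agent.P.MP_b75a1e_co.EG
end

-- part Pool.Agent.P.MP_b75a1e_co.EGLocA
section

set_option autoImplicit false

open Finset
open scoped BigOperators ComplexConjugate

namespace Pool.Agent.P.MP_b75a1e_co.EG

theorem sum_alt_EGLocA {m : ℕ} (w : ℕ → O m) (n : ℕ) :
    ∑ i ∈ range (9 + 2 * n), (if i < 9 then w i else if i % 2 = 1 then (4 : O m) else -4) =
      ∑ i ∈ range 9, w i := by
  induction n with
  | zero => exact sum_congr rfl fun i hi => if_pos (mem_range.1 hi)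
  | succ n ih =>
    rw [show 9 + 2 * (n + 1) = 9 + 2 * n + 1 + 1 by ring, sum_range_succ, sum_range_succ, ih,
      if_neg (by omega), if_pos (by omega), if_neg (by omega), if_neg (by omega)]
    ring

theorem sum_j_EGLocA (j : ℕ → ℕ) (n : ℕ) :
    ∑ i ∈ range (9 + n), (if i < 9 then j i else 0) = ∑ i ∈ range 9, j i := by
  induction n with
  | zero => exact sum_congr rfl fun i hi => if_pos (mem_range.1 hi)
  | succ n ih => rw [← add_assoc, sum_range_succ, ih, if_neg (by omega), add_zero]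

/-- The condition at one position. -/
def Pos_EGLocA (m l e : ℕ) (ζ w : O m) (j : ℕ) : Prop :=
  j ≤ 3 ∧ (l : ℤ) ^ j ∣ ζ.norm ∧ ¬ (l : ℤ) ^ (j + 1) ∣ ζ.norm ∧
    Lat (l ^ (j + e)) (l ^ (j + e)) (4 * ζ ^ 2 - (ζ.norm : O m) * w)

theorem pos_one_EGLocA (m l e : ℕ) (hl : l ≠ 1) : Pos_EGLocA m l e 1 4 0 := by
  refine ⟨by omega, by simp, ?_, ?_⟩
  · rw [Zsqrtd.norm_one, zero_add, pow_one]
    intro h
    exact hl (Nat.dvd_one.1 (by exact_mod_cast h))
  · rw [Zsqrtd.norm_one]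
    simp [Lat]

theorem pos_rt_EGLocA (m l e : ℕ) (hl : ¬ l ∣ m) : Pos_EGLocA m l e (rt m) (-4) 0 := by
  have hn : (rt m).norm = m := by rw [norm_eq]; simp [rt]
  refine ⟨by omega, by simp, ?_, ?_⟩
  · rw [hn, zero_add, pow_one]
    intro h
    exact hl (by exact_mod_cast h)
  · have : 4 * rt m ^ 2 - (((rt m).norm : ℤ) : O m) * (-4) = 0 := by
      rw [hn, sq, rt_sq]; push_cast; ring
    rw [this]
    simp [Lat]

theorem pos_gen_EGLocA (m l e j : ℕ) (a y c d : ℤ) (hj : j ≤ 3)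
    (h1 : (l : ℤ) ^ j ∣ a ^ 2 + m * y ^ 2) (h2 : ¬ (l : ℤ) ^ (j + 1) ∣ a ^ 2 + m * y ^ 2)
    (h3 : (l : ℤ) ^ (j + e) ∣ 4 * (a ^ 2 - m * y ^ 2) - (a ^ 2 + m * y ^ 2) * c)
    (h4 : (l : ℤ) ^ (j + e) ∣ 8 * a * y - (a ^ 2 + m * y ^ 2) * d) :
    Pos_EGLocA m l e ⟨a, y⟩ ⟨c, d⟩ j ∧ Pos_EGLocA m l e ⟨a, -y⟩ ⟨c, -d⟩ j := by
  have key : ∀ y d : ℤ,
      (4 * (⟨a, y⟩ : O m) ^ 2 - (((⟨a, y⟩ : O m).norm : ℤ) : O m) * ⟨c, d⟩) =
        ⟨4 * (a ^ 2 - m * y ^ 2) - (a ^ 2 + m * y ^ 2) * c,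
          8 * a * y - (a ^ 2 + m * y ^ 2) * d⟩ := by
    intro y d
    rw [norm_eq]
    ext <;> simp [sq, Zsqrtd.re_mul, Zsqrtd.im_mul] <;> ring
  refine ⟨⟨hj, by rwa [norm_eq], by rwa [norm_eq], ?_⟩, ⟨hj, ?_, ?_, ?_⟩⟩
  · rw [key]
    exact ⟨by exact_mod_cast h3, by exact_mod_cast h4⟩
  · rw [norm_eq]; simpa using h1
  · rw [norm_eq]; simpa using h2
  · rw [key]
    refine ⟨?_, ?_⟩
    · push_cast
      simpa using h3
    · push_cast
      have : 8 * a * -y - (a ^ 2 + m * (-y) ^ 2) * -d = -(8 * a * y - (a ^ 2 + m * y ^ 2) * d) := by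
        ring
      rw [this]
      exact h4.neg_right

theorem loc_ext_EGLocA (m Nf l e : ℕ) (hl : l ≠ 1) (hlm : ¬ l ∣ m) (h9 : 9 ≤ Nf)
    (hodd : Nf % 2 = 1) (ζ w : ℕ → O m) (j : ℕ → ℕ)
    (h1 : ∀ i < 9, Pos_EGLocA m l e (ζ i) (w i) (j i)) (h2 : ∑ i ∈ range 9, w i = 0)
    (h3 : ∀ z : ℕ → O m, (∀ i < 9, (l : O m) ^ 10 ∣ z i - ζ i) →
      (l : O m) ^ (∑ i ∈ range 9, j i) ∣ ∏ i ∈ range 9, star (z i) ^ 2) :
    Loc m Nf l e e 0 := by
  obtain ⟨n, rfl⟩ : ∃ n, Nf = 9 + 2 * n := ⟨(Nf - 9) / 2, by omega⟩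
  refine ⟨fun i => if i < 9 then ζ i else if i % 2 = 1 then 1 else rt m,
    fun i => if i < 9 then w i else if i % 2 = 1 then 4 else -4,
    fun i => if i < 9 then j i else 0, ?_, ?_, ?_⟩
  · intro i _
    by_cases hi : i < 9
    · simp only [if_pos hi]
      exact h1 i hi
    · simp only [if_neg hi]
      by_cases h2 : i % 2 = 1
      · simp only [if_pos h2]
        exact pos_one_EGLocA m l e hl
      · simp only [if_neg h2]
        exact pos_rt_EGLocA m l e hlm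
  · intro G _
    rw [sum_alt_EGLocA, h2]
    simp [Lat]
  · intro z hz
    rw [sum_j_EGLocA, prod_range_add]
    refine Dvd.dvd.mul_right (h3 z fun i hi => ?_) _
    have := hz i (by omega)
    simpa only [if_pos hi] using this

theorem pair_EGLocA {m : ℕ} (l j : ℕ) (hj : j ≤ 10) (a y : ℤ) (z z' : O m)
    (h : (l : ℤ) ^ j ∣ a ^ 2 + m * y ^ 2) (hz : (l : O m) ^ 10 ∣ z - ⟨a, y⟩)
    (hz' : (l : O m) ^ 10 ∣ z' - ⟨a, -y⟩) :
    (l : O m) ^ (j + j) ∣ star z ^ 2 * star z' ^ 2 := by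
  have h0 : (l : O m) ^ j ∣ (⟨a, y⟩ : O m) * ⟨a, -y⟩ := by
    have : (⟨a, y⟩ : O m) * ⟨a, -y⟩ = ((a ^ 2 + m * y ^ 2 : ℤ) : O m) := by
      ext <;> simp [sq, Zsqrtd.re_mul, Zsqrtd.im_mul] <;> ring
    rw [this]
    obtain ⟨k, hk⟩ := h
    exact ⟨k, by rw [hk]; push_cast; ring⟩
  have h1 : (l : O m) ^ j ∣ z * z' := by
    have : z * z' = (z - ⟨a, y⟩) * z' + ⟨a, y⟩ * (z' - ⟨a, -y⟩) + (⟨a, y⟩ : O m) * ⟨a, -y⟩ := by
      ring
    rw [this]
    exact ((((pow_dvd_pow _ hj).trans hz).mul_right _).add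
      (((pow_dvd_pow _ hj).trans hz').mul_left _)).add h0
  have h2 := dvd_star h1
  rw [star_pow, star_natCast, star_mul'] at h2
  rw [pow_add, show star z ^ 2 * star z' ^ 2 = star z * star z' * (star z * star z') by ring]
  exact mul_dvd_mul h2 h2

theorem root_EGLocA (m q r c : ℕ) {b : ℕ} (hq : 0 < q)
    (h : ∀ s < q, s % r = m % r → ∃ y < b, s * (y * y) % q = c) (hr : r ∣ q) :
    ∃ y k : ℤ, (m : ℤ) * y ^ 2 = c + q * k := by
  obtain ⟨y, -, hy⟩ := h (m % q) (Nat.mod_lt _ hq) (Nat.mod_mod_of_dvd _ hr)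
  have h2 : m * (y * y) % q = c := by rw [← hy]; simp [Nat.mul_mod]
  refine ⟨y, (m * (y * y) / q : ℕ), ?_⟩
  have := Nat.mod_add_div (m * (y * y)) q
  rw [h2] at this
  rw [sq]
  exact_mod_cast this.symm

theorem tab7_EGLocA : ∀ s < 1024, s % 8 = 7 → ∃ y < 256, s * (y * y) % 1024 = 15 := by
  decide +kernel

theorem tab3_EGLocA : ∀ s < 1024, s % 8 = 3 → ∃ y < 256, s * (y * y) % 1024 = 3 := by
  decide +kernel

theorem tab1_EGLocA : ∀ s < 27, s % 3 = 1 → ∃ y < 27, s * (y * y) % 27 = 7 := by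
  decide +kernel

/-- L14 at the prime two. -/
theorem loc_two (m Nf : ℕ) (h4 : m % 4 = 3) (h9 : 9 ≤ Nf) (hodd : Nf % 2 = 1) : Loc m Nf 2 7 7 0 := by
  have hm : ¬ 2 ∣ m := by omega
  have p1 := pos_one_EGLocA m 2 7 (by norm_num)
  have ps := pos_rt_EGLocA m 2 7 hm
  rcases (show m % 8 = 7 ∨ m % 8 = 3 by omega) with h8 | h8
  · obtain ⟨y, k, hy⟩ := root_EGLocA m 1024 8 15 (by norm_num) (by rw [h8]; exact tab7_EGLocA)
      (by norm_num)
    push_cast at hy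
    have hN : ((2 : ℕ) : ℤ) ^ 3 ∣ 3 ^ 2 + m * y ^ 2 := by rw [hy]; push_cast; omega
    obtain ⟨pa, pb⟩ := pos_gen_EGLocA m 2 7 3 3 y (-1) y le_rfl hN
      (by rw [hy]; push_cast; omega) (by rw [hy]; push_cast; omega)
      (by rw [hy]; exact ⟨-(k * y), by push_cast; ring⟩)
    refine loc_ext_EGLocA m Nf 2 7 (by norm_num) hm h9 hodd
      (fun i => [⟨3, y⟩, ⟨3, -y⟩, ⟨3, y⟩, ⟨3, -y⟩, 1, 1, rt m, 1, rt m].getD i 0)
      (fun i => [⟨-1, y⟩, ⟨-1, -y⟩, ⟨-1, y⟩, ⟨-1, -y⟩, 4, 4, -4, 4, -4].getD i 0)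
      (fun i => [3, 3, 3, 3, 0, 0, 0, 0, 0].getD i 0) ?_ ?_ ?_
    · intro i hi
      interval_cases i <;> assumption
    · simp only [sum_range_succ, sum_range_zero, List.getD_cons_zero, List.getD_cons_succ]
      ext <;> simp
    · intro z hz
      have ha := pair_EGLocA 2 3 (by norm_num) 3 y _ _ hN (hz 0 (by norm_num)) (hz 1 (by norm_num))
      have hb := pair_EGLocA 2 3 (by norm_num) 3 y _ _ hN (hz 2 (by norm_num)) (hz 3 (by norm_num))
      have hc := mul_dvd_mul ha hb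
      rw [← pow_add] at hc
      simp only [sum_range_succ, sum_range_zero, prod_range_succ, prod_range_zero,
        List.getD_cons_zero, List.getD_cons_succ]
      refine hc.trans ⟨star (z 4) ^ 2 * star (z 5) ^ 2 * star (z 6) ^ 2 * star (z 7) ^ 2 *
        star (z 8) ^ 2, by ring⟩
  · obtain ⟨y, k, hy⟩ := root_EGLocA m 1024 8 3 (by norm_num) (by rw [h8]; exact tab3_EGLocA)
      (by norm_num)
    push_cast at hy
    have hN : ((2 : ℕ) : ℤ) ^ 2 ∣ 1 ^ 2 + m * y ^ 2 := by rw [hy]; push_cast; omega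
    obtain ⟨pa, pb⟩ := pos_gen_EGLocA m 2 7 2 1 y (-2) (2 * y) (by norm_num) hN
      (by rw [hy]; push_cast; omega) (by rw [hy]; push_cast; omega)
      (by rw [hy]; exact ⟨-(4 * k * y), by push_cast; ring⟩)
    refine loc_ext_EGLocA m Nf 2 7 (by norm_num) hm h9 hodd
      (fun i => [⟨1, y⟩, ⟨1, -y⟩, 1, rt m, 1, 1, rt m, 1, rt m].getD i 0)
      (fun i => [⟨-2, 2 * y⟩, ⟨-2, -(2 * y)⟩, 4, -4, 4, 4, -4, 4, -4].getD i 0)
      (fun i => [2, 2, 0, 0, 0, 0, 0, 0, 0].getD i 0) ?_ ?_ ?_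
    · intro i hi
      interval_cases i <;> assumption
    · simp only [sum_range_succ, sum_range_zero, List.getD_cons_zero, List.getD_cons_succ]
      ext <;> simp
    · intro z hz
      have ha := pair_EGLocA 2 2 (by norm_num) 1 y _ _ hN (hz 0 (by norm_num)) (hz 1 (by norm_num))
      simp only [sum_range_succ, sum_range_zero, prod_range_succ, prod_range_zero,
        List.getD_cons_zero, List.getD_cons_succ]
      refine ha.trans ⟨star (z 2) ^ 2 * star (z 3) ^ 2 * star (z 4) ^ 2 * star (z 5) ^ 2 *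
        star (z 6) ^ 2 * star (z 7) ^ 2 * star (z 8) ^ 2, by ring⟩

/-- L14 at the prime three, unramified. -/
theorem loc_three (m Nf : ℕ) (h3 : ¬ 3 ∣ m) (h9 : 9 ≤ Nf) (hodd : Nf % 2 = 1) : Loc m Nf 3 3 3 0 := by
  have p1 := pos_one_EGLocA m 3 3 (by norm_num)
  have ps := pos_rt_EGLocA m 3 3 h3
  rcases (show m % 3 = 2 ∨ m % 3 = 1 by omega) with h8 | h8
  · obtain ⟨pa, pb⟩ := pos_gen_EGLocA m 3 3 0 (-1) 3 (-5) 3 (by norm_num) (by simp)
      (by push_cast; omega) (by push_cast; omega) (by push_cast; omega)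
    refine loc_ext_EGLocA m Nf 3 3 (by norm_num) h3 h9 hodd
      (fun i => [⟨-1, 3⟩, ⟨-1, -3⟩, ⟨-1, 3⟩, ⟨-1, -3⟩, 1, 1, 1, 1, 1].getD i 0)
      (fun i => [⟨-5, 3⟩, ⟨-5, -3⟩, ⟨-5, 3⟩, ⟨-5, -3⟩, 4, 4, 4, 4, 4].getD i 0)
      (fun _ => 0) ?_ ?_ ?_
    · intro i hi
      interval_cases i <;> assumption
    · simp only [sum_range_succ, sum_range_zero, List.getD_cons_zero, List.getD_cons_succ]
      ext <;> simp
    · intro z _
      simp
  · obtain ⟨y, k, hy⟩ := root_EGLocA m 27 3 7 (by norm_num) (by rw [h8]; exact tab1_EGLocA)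
      (by norm_num)
    push_cast at hy
    obtain ⟨pa, pb⟩ := pos_gen_EGLocA m 3 3 0 1 y (-3) y (by norm_num) (by simp)
      (by rw [hy]; push_cast; omega) (by rw [hy]; push_cast; omega)
      (by rw [hy]; exact ⟨-(k * y), by push_cast; ring⟩)
    refine loc_ext_EGLocA m Nf 3 3 (by norm_num) h3 h9 hodd
      (fun i => [⟨1, y⟩, ⟨1, -y⟩, ⟨1, y⟩, ⟨1, -y⟩, 1, 1, 1, 1, rt m].getD i 0)
      (fun i => [⟨-3, y⟩, ⟨-3, -y⟩, ⟨-3, y⟩, ⟨-3, -y⟩, 4, 4, 4, 4, -4].getD i 0)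
      (fun _ => 0) ?_ ?_ ?_
    · intro i hi
      interval_cases i <;> assumption
    · simp only [sum_range_succ, sum_range_zero, List.getD_cons_zero, List.getD_cons_succ]
      ext <;> simp
    · intro z _
      simp

end Pool.Agent.P.MP_b75a1e_co.EG
end

-- part Pool.Agent.P.MP_b75a1e_co.EGLocB
section

set_option autoImplicit false

open Finset
open scoped BigOperators ComplexConjugate

namespace Pool.Agent.P.MP_b75a1e_co.EG

def Gd_EGLocB {m : ℕ} (l : ℕ) (ζ w : O m) : Prop :=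
  ¬ (l : ℤ) ∣ ζ.norm ∧ Lat l l (4 * ζ ^ 2 - (ζ.norm : O m) * w)

theorem one_EGLocB (m l : ℕ) (hl : l.Prime) : Gd_EGLocB l (1 : O m) 4 := by
  refine ⟨fun h => hl.one_lt.ne' ?_, ?_⟩
  · rw [Zsqrtd.norm_one] at h
    exact_mod_cast Int.eq_one_of_dvd_one (by positivity) h
  · simp [Lat]

theorem rt_norm_EGLocB (m : ℕ) : (rt m).norm = m := by simp [norm_eq, rt]

theorem rt_eq_EGLocB (m : ℕ) : 4 * rt m ^ 2 - ((rt m).norm : O m) * (-4) = 0 := by
  rw [rt_norm_EGLocB, sq, rt_sq]; push_cast; ring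

theorem rt_EGLocB (m l : ℕ) (hlm : ¬ l ∣ m) : Gd_EGLocB l (rt m) (-4) := by
  refine ⟨by rw [rt_norm_EGLocB]; exact_mod_cast hlm, ?_⟩
  rw [rt_eq_EGLocB]; simp [Lat]

theorem half_EGLocB (m l : ℕ) (hl : l.Prime) (b c : ℤ) (h : (l : ℤ) ∣ 1 - (1 + m * b ^ 2) * c) :
    Gd_EGLocB l (⟨1, b⟩ : O m) ⟨4 * (1 - m * b ^ 2) * c, 8 * b * c⟩ := by
  have hn : (⟨1, b⟩ : O m).norm = 1 + m * b ^ 2 := by simp [norm_eq]
  refine ⟨fun h' => hl.one_lt.ne' ?_, ?_⟩
  · rw [hn] at h'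
    have := h.add (h'.mul_right c)
    rw [sub_add_cancel] at this
    exact_mod_cast Int.eq_one_of_dvd_one (by positivity) this
  · rw [hn]
    obtain ⟨k, hk⟩ := h
    refine ⟨⟨4 * (1 - m * b ^ 2) * k, ?_⟩, ⟨8 * b * k, ?_⟩⟩
    · simp [sq, Zsqrtd.re_mul, Zsqrtd.im_mul]
      linear_combination 4 * (1 - m * b ^ 2) * hk
    · simp [sq, Zsqrtd.re_mul, Zsqrtd.im_mul]
      linear_combination 8 * b * hk

theorem pair_EGLocB (m l : ℕ) [hl : Fact l.Prime] (hlm : ¬ l ∣ m) (β : ZMod l) :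
    ∃ (ζ ζ' w w' : O m) (x : ℤ), Gd_EGLocB l ζ w ∧ Gd_EGLocB l ζ' w' ∧ w + w' = (x : O m) ∧
      (x : ZMod l) = 16 * (1 + m * β ^ 2)⁻¹ - 8 := by
  by_cases h : (1 + m * β ^ 2 : ZMod l) = 0
  · exact ⟨_, _, _, _, -8, rt_EGLocB m l hlm, rt_EGLocB m l hlm, by push_cast; ring, by simp [h]⟩
  obtain ⟨b, rfl⟩ := ZMod.intCast_surjective β
  obtain ⟨c, hc⟩ := ZMod.intCast_surjective ((1 + (m : ZMod l) * (b : ZMod l) ^ 2)⁻¹)
  have h1 : (1 + m * (b : ZMod l) ^ 2) * c = 1 := by rw [hc, mul_inv_cancel₀ h]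
  have hd : (l : ℤ) ∣ 1 - (1 + m * b ^ 2) * c := by
    rw [← ZMod.intCast_zmod_eq_zero_iff_dvd]; push_cast; rw [h1, sub_self]
  refine ⟨_, _, _, _, 8 * (1 - m * b ^ 2) * c, half_EGLocB m l hl.out b c hd,
    half_EGLocB m l hl.out (-b) c (by simpa using hd), ?_, ?_⟩
  · generalize hx : 8 * (1 - m * b ^ 2) * c = x
    ext
    · simp [← hx, -Int.cast_mul]; ring
    · simp
  · rw [← hc]; push_cast; linear_combination (-8) * h1

theorem solve_EGLocB (m l : ℕ) [hl : Fact l.Prime] (h5 : 5 ≤ l) (hlm : ¬ l ∣ m) :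
    ∃ β β' : ZMod l, 4 * (1 + m * β ^ 2)⁻¹ + 4 * (1 + m * β' ^ 2)⁻¹ = 3 := by
  have hm : (m : ZMod l) ≠ 0 := by rwa [Ne, ZMod.natCast_eq_zero_iff]
  have h2 : (2 : ZMod l) ≠ 0 := by
    intro h
    have : l ∣ 2 := (ZMod.natCast_eq_zero_iff 2 l).1 (by exact_mod_cast h)
    have := Nat.le_of_dvd two_pos this
    omega
  have h4 : (4 : ZMod l) ≠ 0 := by
    have := mul_ne_zero h2 h2
    rwa [show (2 : ZMod l) * 2 = 4 by norm_num] at this
  have hodd := hl.out.eq_two_or_odd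
  set f : ZMod l → ZMod l := fun β => 4 * (1 + m * β ^ 2)⁻¹ with hf
  have hc : l ≤ 2 * (univ.image f).card := by
    have := Finset.card_le_mul_card_image (f := f) univ 2 fun a ha => by
      obtain ⟨β, -, rfl⟩ := mem_image.1 ha
      refine (card_le_card (t := {β, -β}) fun γ hγ => ?_).trans card_le_two
      have e := inv_injective (mul_left_cancel₀ h4 (mem_filter.1 hγ).2)
      have e2 := mul_left_cancel₀ hm (add_left_cancel e)
      simpa using sq_eq_sq_iff_eq_or_eq_neg.1 e2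
    simpa using this
  by_contra hn
  push Not at hn
  have hd : Disjoint (univ.image f) ((univ.image f).image fun x => 3 - x) := by
    rw [disjoint_left]
    intro a ha hb
    obtain ⟨β, -, rfl⟩ := mem_image.1 ha
    obtain ⟨x, hx, e⟩ := mem_image.1 hb
    obtain ⟨β', -, rfl⟩ := mem_image.1 hx
    exact hn β β' (by simp only [hf] at e; linear_combination -e)
  have h1 := card_le_univ ((univ.image f) ∪ ((univ.image f).image fun x => 3 - x))
  rw [card_union_of_disjoint hd, card_image_of_injective _ sub_right_injective, ZMod.card] at h1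
  omega

/-- L14 at an unramified prime `l ≥ 5`. -/
theorem loc_big (m Nf l : ℕ) (hl : l.Prime) (h5 : 5 ≤ l) (hlm : ¬ l ∣ m) (h9 : 9 ≤ Nf)
    (hodd : Nf % 2 = 1) : Loc m Nf l 1 1 0 := by
  have := Fact.mk hl
  obtain ⟨β, β', hβ⟩ := solve_EGLocB m l h5 hlm
  obtain ⟨ζ0, ζ1, w0, w1, x, g0, g1, e, hx⟩ := pair_EGLocB m l hlm β
  obtain ⟨ζ2, ζ3, w2, w3, x', g2, g3, e', hx'⟩ := pair_EGLocB m l hlm β'
  let P : ℕ → O m × O m := fun i => if i = 0 then (ζ0, w0) else if i = 1 then (ζ1, w1) else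
    if i = 2 then (ζ2, w2) else if i = 3 then (ζ3, w3) else if i % 2 = 0 then (1, 4) else (rt m, -4)
  have hP : ∀ i, Gd_EGLocB l (P i).1 (P i).2 := fun i => by
    simp only [P]
    split_ifs
    exacts [g0, g1, g2, g3, one_EGLocB m l hl, rt_EGLocB m l hlm]
  have hs : ∀ k, ∑ i ∈ range (5 + 2 * k), (P i).2 = ((x + x' + 4 : ℤ) : O m) := fun k => by
    induction k with
    | zero =>
      simp only [P, sum_range_succ, Nat.mul_zero, Nat.add_zero]
      push_cast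
      simp
      linear_combination e + e'
    | succ k ih =>
      rw [show 5 + 2 * (k + 1) = 5 + 2 * k + 1 + 1 by ring, sum_range_succ, sum_range_succ, ih]
      simp only [P]
      rw [if_neg (by omega), if_neg (by omega), if_neg (by omega), if_neg (by omega),
        if_neg (by omega), if_neg (by omega), if_neg (by omega), if_neg (by omega),
        if_neg (by omega), if_pos (by omega)]
      ring
  have hd : (l : ℤ) ∣ x + x' + 4 := by
    rw [← ZMod.intCast_zmod_eq_zero_iff_dvd]; push_cast; rw [hx, hx']; linear_combination 4 * hβ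
  refine ⟨fun i => (P i).1, fun i => (P i).2, fun _ => 0, fun i _ => ⟨by simp, by simp, ?_, ?_⟩,
    fun G _ => ?_, fun z _ => by simp⟩
  · simpa using (hP i).1
  · simpa using (hP i).2
  · obtain ⟨k, rfl⟩ : ∃ k, Nf = 5 + 2 * k := ⟨(Nf - 5) / 2, by omega⟩
    rw [hs]
    generalize x + x' + 4 = y at hd
    simpa [Lat] using ⟨hd.mul_left _, hd.mul_left _⟩

theorem ram_EGLocB (m q : ℕ) (hq : q.Prime) (hqm : q ∣ m) (y : ℤ) :
    ¬ (q : ℤ) ∣ (⟨1, y⟩ : O m).norm ∧ Lat (q ^ 2) q (4 * (⟨1, y⟩ : O m) ^ 2 -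
      ((⟨1, y⟩ : O m).norm : O m) * ⟨4 * (1 - 2 * m * y ^ 2), 8 * y⟩) := by
  have hn : (⟨1, y⟩ : O m).norm = 1 + m * y ^ 2 := by simp [norm_eq]
  obtain ⟨k, rfl⟩ := hqm
  rw [hn]
  refine ⟨fun h => hq.one_lt.ne' ?_, ⟨8 * k ^ 2 * y ^ 4, ?_⟩, ⟨-8 * k * y ^ 3, ?_⟩⟩
  · have := (Int.dvd_add_left (a := q) (b := 1) (c := ((q * k : ℕ) : ℤ) * y ^ 2)
      ⟨k * y ^ 2, by push_cast; ring⟩).1 h
    exact_mod_cast Int.eq_one_of_dvd_one (by positivity) this
  · simp [sq, Zsqrtd.re_mul, Zsqrtd.im_mul]; ring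
  · simp [sq, Zsqrtd.re_mul, Zsqrtd.im_mul]; ring

/-- L14 at a ramified prime. -/
theorem loc_ram (m Nf n p q : ℕ) (hq : q.Prime) (hq2 : q ≠ 2) (hqm : q ∣ m) (hq1 : ¬ q ^ 2 ∣ m)
    (hqp : q ≤ p) (hodd : p % 2 = 1) (hN : Nf + 4 * n = p) (hn : 16 * n ≤ p) (hp : 100 ≤ p) :
    Loc m Nf q 2 1 (16 * n) := by
  have := Fact.mk hq
  obtain ⟨m', hm'⟩ := hqm
  have hqm : q ∣ m := ⟨m', hm'⟩
  have hm0 : (m' : ZMod q) ≠ 0 := by
    rw [Ne, ZMod.natCast_eq_zero_iff]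
    rintro ⟨k, rfl⟩
    exact hq1 ⟨k, by rw [hm']; ring⟩
  have h2 : (2 : ZMod q) ≠ 0 := by
    intro h
    have : q ∣ 2 := (ZMod.natCast_eq_zero_iff 2 q).1 (by exact_mod_cast h)
    exact hq2 ((Nat.prime_dvd_prime_iff_eq hq Nat.prime_two).1 this)
  obtain ⟨a, a', ha⟩ := ZMod.sq_add_sq q ((1 - m' * (8 * n ^ 2 + 4 * n)) / (2 * 2 * m'))
  obtain ⟨y, rfl⟩ := ZMod.intCast_surjective a
  obtain ⟨y', rfl⟩ := ZMod.intCast_surjective a'
  have hy : (q : ℤ) ∣ 1 - m' * (8 * n ^ 2 + 4 * n) - 4 * m' * (y ^ 2 + y' ^ 2) := by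
    rw [← ZMod.intCast_zmod_eq_zero_iff_dvd]; push_cast; rw [ha]; field_simp; ring
  have hqo := hq.eq_two_or_odd
  obtain ⟨k, hk⟩ : ∃ k, p = q + 2 * k := ⟨(p - q) / 2, by omega⟩
  obtain ⟨r, hr⟩ : ∃ r, Nf = 5 + k + r := ⟨Nf - 5 - k, by omega⟩
  let Y : ℕ → ℤ := fun i => if i = 0 then y else if i = 1 then -y else if i = 2 then y' else
    if i = 3 then -y' else if i = 4 then 2 * n else 0
  let ζ : ℕ → O m := fun i => if 5 ≤ i ∧ i < 5 + k then rt m else ⟨1, Y i⟩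
  let w : ℕ → O m := fun i => if 5 ≤ i ∧ i < 5 + k then -4 else ⟨4 * (1 - 2 * m * Y i ^ 2), 8 * Y i⟩
  let j : ℕ → ℕ := fun i => if 5 ≤ i ∧ i < 5 + k then 1 else 0
  have hs : ∑ i ∈ range Nf, w i =
      ⟨4 * q - 16 * n - 8 * m * (2 * y ^ 2 + 2 * y' ^ 2 + 4 * n ^ 2), 16 * n⟩ := by
    have e1 : ∑ i ∈ range k, w (5 + i) = k * -4 := by
      rw [sum_congr rfl (g := fun _ => -4) fun i hi => if_pos ⟨by omega, by simpa using hi⟩]
      simp
    have e2 : ∑ i ∈ range r, w (5 + k + i) = r * 4 := by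
      rw [sum_congr rfl (g := fun _ => 4) fun i _ => ?_]
      · simp
      simp only [w, Y]
      rw [if_neg (by omega), if_neg (by omega), if_neg (by omega), if_neg (by omega),
        if_neg (by omega), if_neg (by omega)]
      ext <;> simp
    have e3 : (r : ℤ) = q + k - 4 * n - 5 := by omega
    rw [hr, sum_range_add, sum_range_add, e1, e2]
    ext
    · simp [sum_range_succ, w, Y, e3]; ring
    · simp [sum_range_succ, w, Y]; ring
  refine ⟨ζ, w, j, fun i _ => ?_, fun G hG => ?_, fun z hz => ?_⟩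
  · simp only [ζ, w, j]
    split_ifs
    · rw [rt_eq_EGLocB, rt_norm_EGLocB]
      refine ⟨by omega, by simpa using Int.natCast_dvd_natCast.2 hqm, by exact_mod_cast hq1, ?_⟩
      simp [Lat]
    · have := ram_EGLocB m q hq hqm (Y i)
      exact ⟨by omega, by simp, by simpa using this.1, by simpa using this.2⟩
  · obtain ⟨t, ht⟩ := hG hqm
    obtain ⟨u, hu⟩ := hy
    have hm : (m : ℤ) = q * m' := by exact_mod_cast hm'
    rw [hs]
    refine ⟨⟨4 * G.re * u - 16 * m' * n * t, ?_⟩,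
      ⟨-16 * n * t + G.im * (4 - 8 * m' * (2 * y ^ 2 + 2 * y' ^ 2 + 4 * n ^ 2)), ?_⟩⟩
    · simp [Zsqrtd.re_mul]
      linear_combination 4 * q * G.re * hu - 16 * q * m' * n * ht -
        (8 * G.re * (2 * y ^ 2 + 2 * y' ^ 2 + 4 * n ^ 2) + 16 * n * G.im) * hm
    · simp [Zsqrtd.im_mul]
      linear_combination -16 * n * ht - 8 * G.im * (2 * y ^ 2 + 2 * y' ^ 2 + 4 * n ^ 2) * hm
  · rw [← prod_pow_eq_pow_sum]
    refine prod_dvd_prod_of_dvd _ _ fun i hi => ?_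
    have h := hz i (mem_range.1 hi)
    simp only [ζ, j] at h ⊢
    split_ifs at h ⊢
    · obtain ⟨c, hc⟩ := h
      have e : z i ^ 2 = q * (-m' + 2 * q ^ 9 * c * rt m + q ^ 19 * c ^ 2) := by
        have hm : (m : O m) = q * m' := by exact_mod_cast congrArg (Nat.cast (R := O m)) hm'
        rw [eq_add_of_sub_eq hc]
        linear_combination rt_sq (m := m) - hm
      have := dvd_star (⟨_, e⟩ : (q : O m) ∣ z i ^ 2)
      simpa using this
    · simp

end Pool.Agent.P.MP_b75a1e_co.EG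
end

-- part Pool.Agent.P.MP_b75a1e_co.EGArith
section

set_option autoImplicit false

open Finset
open scoped BigOperators ComplexConjugate

namespace Pool.Agent.P.MP_b75a1e_co.EG

variable {m Y : ℕ}

theorem Cop.symm {a b : ℤ} (h : Cop Y a b) : Cop Y b a := fun l hl g hb ha => h l hl g ha hb

theorem Cop.mul_left {a a' b : ℤ} (h : Cop Y a b) (h' : Cop Y a' b) : Cop Y (a * a') b :=
  fun l hl g x => ((Nat.prime_iff_prime_int.1 hl).dvd_or_dvd x).elim (h l hl g) (h' l hl g)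

theorem Cop.of_dvd {a a' b b' : ℤ} (h : Cop Y a b) (ha : a' ∣ a) (hb : b' ∣ b) : Cop Y a' b' :=
  fun l hl g x y => h l hl g (x.trans ha) (y.trans hb)

theorem Cop.prod_left {ι : Type} (s : Finset ι) (f : ι → ℤ) (b : ℤ) (h : ∀ i ∈ s, Cop Y (f i) b) :
    Cop Y (∏ i ∈ s, f i) b := fun l hl g x => by
  obtain ⟨i, hi, e⟩ := (Prime.dvd_finsetProd_iff (Nat.prime_iff_prime_int.1 hl) f).1 x
  exact h i hi l hl g e

theorem Prim.conj {x : O m} (h : Prim Y x) : Prim Y (star x) := fun l hl g e => by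
  have := dvd_star e
  rw [star_star, star_natCast] at this
  exact h l hl g this

lemma cancel_EGArith {l : ℕ} (hl : l.Prime) {x : O m} {n : ℤ} (h : (l : O m) ∣ (n : O m) * x)
    (hn : ¬ (l : ℤ) ∣ n) : (l : O m) ∣ x := by
  have p := Nat.prime_iff_prime_int.1 hl
  rw [nat_dvd_iff] at h ⊢
  obtain ⟨a, b⟩ := h
  simp only [Zsqrtd.re_smul, Zsqrtd.im_smul] at a b
  exact ⟨(p.dvd_or_dvd a).resolve_left hn, (p.dvd_or_dvd b).resolve_left hn⟩

theorem Prim.mul {x y : O m} (hx : Prim Y x) (hy : Prim Y y) (h : Cop Y x.norm y.norm) :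
    Prim Y (x * y) := fun l hl g e => by
  by_cases c : (l : ℤ) ∣ x.norm
  · refine hx l hl g (cancel_EGArith hl ?_ (h l hl g c))
    rw [Zsqrtd.norm_eq_mul_conj, show y * star y * x = x * y * star y by ring]
    exact e.mul_right _
  · refine hy l hl g (cancel_EGArith hl ?_ c)
    rw [Zsqrtd.norm_eq_mul_conj, show x * star x * y = x * y * star x by ring]
    exact e.mul_right _

lemma odd_EGArith (hY : 2 ≤ Y) (hm : Smo Y m) {l : ℕ} (hl : l.Prime) (g : Y < l) :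
    ¬ (l : ℤ) ∣ 2 ∧ ¬ (l : ℤ) ∣ m := by
  refine ⟨fun e => ?_, fun e => ?_⟩
  · have := Nat.le_of_dvd two_pos (Int.natCast_dvd_natCast.1 (show (l : ℤ) ∣ (2 : ℕ) from e))
    omega
  · have := hm l hl (Int.natCast_dvd_natCast.1 e)
    omega

theorem Prim.sq (hY : 2 ≤ Y) (hm : Smo Y m) {x : O m} (hx : Prim Y x) : Prim Y (x ^ 2) :=
  fun l hl g e => by
  have p := Nat.prime_iff_prime_int.1 hl
  obtain ⟨h2, h3⟩ := odd_EGArith hY hm hl g
  refine hx l hl g ?_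
  rw [nat_dvd_iff] at e ⊢
  obtain ⟨a, b⟩ := e
  rw [show (x ^ 2).re = x.re * x.re - m * (x.im * x.im) by simp [pow_two]; ring] at a
  rw [show (x ^ 2).im = 2 * (x.re * x.im) by simp [pow_two]; ring] at b
  rcases p.dvd_or_dvd ((p.dvd_or_dvd b).resolve_left h2) with c | c
  · have d : (l : ℤ) ∣ m * (x.im * x.im) := (dvd_sub_right (c.mul_right _)).1 a
    exact ⟨c, (p.dvd_or_dvd ((p.dvd_or_dvd d).resolve_left h3)).elim id id⟩
  · have d : (l : ℤ) ∣ x.re * x.re := (dvd_sub_left ((c.mul_right _).mul_left _)).1 a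
    exact ⟨(p.dvd_or_dvd d).elim id id, c⟩

theorem Prim.prod {ι : Type} (s : Finset ι) (x : ι → O m) (hx : ∀ i ∈ s, Prim Y (x i))
    (h : ∀ i ∈ s, ∀ k ∈ s, i ≠ k → Cop Y (x i).norm (x k).norm) : Prim Y (∏ i ∈ s, x i) := by
  classical
  induction s using Finset.induction_on with
  | empty =>
    intro l hl _ e
    rw [prod_empty, nat_dvd_iff] at e
    exact (Nat.prime_iff_prime_int.1 hl).not_dvd_one e.1
  | insert a s ha ih =>
    rw [prod_insert ha]
    refine (hx a (mem_insert_self _ _)).mul (ih (fun i hi => hx i (mem_insert_of_mem hi))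
      fun i hi k hk => h i (mem_insert_of_mem hi) k (mem_insert_of_mem hk)) ?_
    rw [norm_prod']
    exact (Cop.prod_left s _ _ fun i hi => h i (mem_insert_of_mem hi) a (mem_insert_self _ _)
      fun e => ha (e ▸ hi)).symm

theorem Prim.of_dvd {x y : O m} (hy : Prim Y y) (h : x ∣ y) : Prim Y x :=
  fun l hl g e => hy l hl g (e.trans h)

theorem prim_of_norm {x : O m} {D : Finset ℕ} (hD : ∀ l ∈ D, l.Prime)
    (h : x.norm = ∏ l ∈ D, (l : ℤ)) : Prim Y x := fun l hl _ e => by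
  have a := norm_dvd_norm e
  rw [Zsqrtd.norm_natCast, h, ← Nat.cast_prod, ← Nat.cast_mul, Int.natCast_dvd_natCast] at a
  have b : Squarefree (∏ l ∈ D, l) :=
    squarefree_prod_of_pairwise_isCoprime (fun p hp q hq e =>
      Nat.coprime_iff_isRelPrime.1 ((Nat.coprime_primes (hD p hp) (hD q hq)).2 e))
      fun p hp => (hD p hp).squarefree
  exact hl.prime.not_isUnit (b l a)

theorem coprime_star (hY : 2 ≤ Y) (hm : Smo Y m) {x : O m} (hx : Prim Y x) (h : Pure Y x.norm) :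
    IsCoprime x (star x) := by
  have c : IsCoprime x.norm (2 * x.re) := by
    rw [Int.isCoprime_iff_gcd_eq_one]
    refine Nat.coprime_of_dvd fun l hl a b => ?_
    have p := Nat.prime_iff_prime_int.1 hl
    have a' : (l : ℤ) ∣ x.norm := Int.natCast_dvd.2 a
    have b' : (l : ℤ) ∣ 2 * x.re := Int.natCast_dvd.2 b
    have g : Y < l := by
      by_contra g
      exact h l hl (by omega) a'
    obtain ⟨h2, h3⟩ := odd_EGArith hY hm hl g
    have c := (p.dvd_or_dvd b').resolve_left h2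
    rw [norm_eq] at a'
    have d := (dvd_add_right (dvd_pow c two_ne_zero)).1 a'
    exact hx l hl g ((nat_dvd_iff l x).2
      ⟨c, p.dvd_of_dvd_pow ((p.dvd_or_dvd d).resolve_left h3)⟩)
  obtain ⟨u, v, e⟩ := c
  have e' := congrArg (Int.cast : ℤ → O m) e
  have t : ((2 * x.re : ℤ) : O m) = x + star x := by ext <;> simp; ring
  rw [Int.cast_add, Int.cast_mul, Int.cast_mul v, t, Zsqrtd.norm_eq_mul_conj, Int.cast_one] at e'
  exact ⟨u * star x + v, v, by linear_combination e'⟩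

theorem wt_nonneg (Y len : ℕ) (a : ℤ) : 0 ≤ wt Y len a :=
  sum_nonneg fun _ _ => by positivity

theorem wt_mul (Y len : ℕ) (a b : ℤ) : wt Y len (a * b) ≤ wt Y len a + wt Y len b := by
  have h1 := wt_nonneg Y len a
  have h2 := wt_nonneg Y len b
  by_cases e : a * b = 0
  · rw [e]
    have : wt Y len 0 = 0 := by simp [wt]
    linarith
  · unfold wt
    rw [Int.natAbs_mul, Nat.primeFactors_mul (Int.natAbs_ne_zero.2 (left_ne_zero_of_mul e))
      (Int.natAbs_ne_zero.2 (right_ne_zero_of_mul e)), filter_union, ← sum_union_inter]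
    exact le_add_of_nonneg_right (sum_nonneg fun _ _ => by positivity)

theorem wt_prod {ι : Type} (Y len : ℕ) (s : Finset ι) (f : ι → ℤ) :
    wt Y len (∏ i ∈ s, f i) ≤ ∑ i ∈ s, wt Y len (f i) := by
  classical
  induction s using Finset.induction_on with
  | empty => simp [wt]
  | insert a s ha ih =>
    rw [prod_insert ha, sum_insert ha]
    have := wt_mul Y len (f a) (∏ i ∈ s, f i)
    linarith

theorem wt_sq (Y len : ℕ) (a : ℤ) : wt Y len (a ^ 2) = wt Y len a := by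
  unfold wt
  rw [Int.natAbs_pow, Nat.primeFactors_pow _ two_ne_zero]

theorem wt_of_dvd (Y len : ℕ) {a b : ℤ} (h : a ∣ b) (hb : b ≠ 0) : wt Y len a ≤ wt Y len b :=
  sum_le_sum_of_subset_of_nonneg (filter_subset_filter _
    (Nat.primeFactors_mono (Int.natAbs_dvd_natAbs.2 h) (Int.natAbs_ne_zero.2 hb)))
    fun _ _ _ => by positivity

theorem wt_primes (Y len z : ℕ) (hz : 1 ≤ z) (D : Finset ℕ) (hD : ∀ l ∈ D, l.Prime ∧ z ≤ l) :
    wt Y len (∏ l ∈ D, (l : ℤ)) ≤ D.card * ((1 : ℝ) / z + 1 / len) := by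
  unfold wt
  rw [← Nat.cast_prod, Int.natAbs_natCast, Nat.primeFactors_prod fun l hl => (hD l hl).1,
    ← nsmul_eq_mul]
  refine (sum_le_sum_of_subset_of_nonneg (filter_subset _ _) fun _ _ _ => by positivity).trans
    (sum_le_card_nsmul _ _ _ fun l hl => ?_)
  have : (1 : ℝ) / l ≤ 1 / z :=
    one_div_le_one_div_of_le (by exact_mod_cast hz) (by exact_mod_cast (hD l hl).2)
  linarith

end Pool.Agent.P.MP_b75a1e_co.EG
end

-- part Pool.Agent.P.MP_b75a1e_co.EGAtom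
section

set_option autoImplicit false

open Finset
open scoped BigOperators ComplexConjugate

namespace Pool.Agent.P.MP_b75a1e_co.EG

theorem mem_of_dvd_EGAtom {S : Finset ℕ} (hS : ∀ l ∈ S, l.Prime) {l : ℕ} (hl : l.Prime)
    (h : (l : ℤ) ∣ ∏ q ∈ S, (q : ℤ)) : l ∈ S := by
  obtain ⟨q, hq, h1⟩ := (Prime.dvd_finsetProd_iff (Nat.prime_iff_prime_int.1 hl) _).1 h
  rwa [(Nat.prime_dvd_prime_iff_eq hl (hS q hq)).1 (Int.natCast_dvd_natCast.1 h1)]

theorem prod_dvd_EGAtom {S : Finset ℕ} (hS : ∀ l ∈ S, l.Prime) {z : ℤ}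
    (h : ∀ l ∈ S, (l : ℤ) ∣ z) : (∏ q ∈ S, (q : ℤ)) ∣ z :=
  Finset.prod_dvd_of_coprime (fun a ha b hb hab => Nat.isCoprime_iff_coprime.2
    ((Nat.coprime_primes (hS a ha) (hS b hb)).2 hab)) h

/-- Two sets in one class give an element of the order. -/
theorem pair_EGAtom {m : ℕ} {C S S' : Finset ℕ} (hC : ∀ l ∈ C, l.Prime ∧ ¬ l ∣ 2 * m) {r : ℕ → ℤ}
    (hr : ∀ l ∈ C, (l : ℤ) ∣ r l ^ 2 + m) (hS : S ⊆ C) (hS' : S' ⊆ C) {a b a' b' : ℤ} {c : ℕ}
    (hc : 1 ≤ c) (hn : a ^ 2 + m * b ^ 2 = c * ∏ l ∈ S, (l : ℤ))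
    (hn' : a' ^ 2 + m * b' ^ 2 = c * ∏ l ∈ S', (l : ℤ)) (hk : ∀ l ∈ S, (l : ℤ) ∣ a + b * r l)
    (hk' : ∀ l ∈ S', (l : ℤ) ∣ a' + b' * r l) (ha : (c : ℤ) ^ 2 * m ^ 2 ∣ a - a')
    (hb : (c : ℤ) ^ 2 * m ^ 2 ∣ b - b') (hcl : ∀ l, l ∣ c → (l ∈ S ↔ l ∈ S')) :
    ∃ x : O m, x.norm = ∏ l ∈ S \ S' ∪ S' \ S, (l : ℤ) ∧
      (m : ℤ) ^ 2 ∣ x.re - ∏ l ∈ S' \ S, (l : ℤ) ∧ (m : ℤ) ^ 2 ∣ x.im ∧
      ∀ l ∈ S \ S' ∪ S' \ S, (l ∈ S ↔ (l : ℤ) ∣ x.re + x.im * r l) := by
  obtain ⟨u, hu⟩ := ha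
  obtain ⟨v, hv⟩ := hb
  have hc0 : (c : ℤ) ≠ 0 := by exact_mod_cast (by omega : c ≠ 0)
  have pI : ∀ l ∈ S ∩ S', l.Prime := fun l hl => (hC l (hS (mem_inter.1 hl).1)).1
  have e1 : ∏ l ∈ S, (l : ℤ) = (∏ l ∈ S ∩ S', (l : ℤ)) * ∏ l ∈ S \ S', (l : ℤ) :=
    (prod_inter_mul_prod_sdiff S S' _).symm
  have e2 : ∏ l ∈ S', (l : ℤ) = (∏ l ∈ S ∩ S', (l : ℤ)) * ∏ l ∈ S' \ S, (l : ℤ) := by
    rw [inter_comm]
    exact (prod_inter_mul_prod_sdiff S' S _).symm
  have e3 : ∏ l ∈ S \ S' ∪ S' \ S, (l : ℤ) = (∏ l ∈ S \ S', (l : ℤ)) * ∏ l ∈ S' \ S, (l : ℤ) :=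
    prod_union disjoint_sdiff_sdiff
  obtain ⟨y0, y1, k0, k1, f0, f1, g0, g1⟩ : ∃ y0 y1 k0 k1 : ℤ,
      y0 = ∏ l ∈ S', (l : ℤ) + c * m ^ 2 * k0 ∧ y1 = c * m ^ 2 * k1 ∧
      c * y0 = a * a' + m * b * b' ∧ c * y1 = b * a' - a * b' :=
    ⟨_, _, u * a' + m * v * b', v * a' - u * b', rfl, rfl,
      by linear_combination -hn' - a' * hu - m * b' * hv,
      by linear_combination -a' * hv + b' * hu⟩
  have dI : ∀ l ∈ S ∩ S', (l : ℤ) ∣ y0 ∧ (l : ℤ) ∣ y1 := by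
    intro l hl
    obtain ⟨l1, l2⟩ := mem_inter.1 hl
    by_cases hlc : l ∣ c
    · have h1 : (l : ℤ) ∣ c := Int.natCast_dvd_natCast.2 hlc
      rw [f0, f1]
      exact ⟨(dvd_prod_of_mem _ l2).add ((h1.mul_right _).mul_right _),
        (h1.mul_right _).mul_right _⟩
    · have hp := Nat.prime_iff_prime_int.1 (pI l hl)
      have h1 : ¬ (l : ℤ) ∣ c := fun h => hlc (Int.natCast_dvd_natCast.1 h)
      constructor
      · refine (hp.dvd_or_dvd (a := c) ?_).resolve_left h1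
        rw [g0, show a * a' + m * b * b' = (a + b * r l) * a' - b * r l * (a' + b' * r l) +
          b * b' * (r l ^ 2 + m) by ring]
        exact (((hk l l1).mul_right _).sub ((hk' l l2).mul_left _)).add ((hr l (hS l1)).mul_left _)
      · refine (hp.dvd_or_dvd (a := c) ?_).resolve_left h1
        rw [g1, show b * a' - a * b' = b * (a' + b' * r l) - b' * (a + b * r l) by ring]
        exact ((hk' l l2).mul_left _).sub ((hk l l1).mul_left _)
  obtain ⟨x0, hx0⟩ := prod_dvd_EGAtom pI fun l hl => (dI l hl).1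
  obtain ⟨x1, hx1⟩ := prod_dvd_EGAtom pI fun l hl => (dI l hl).2
  have hI0 : ∏ l ∈ S ∩ S', (l : ℤ) ≠ 0 :=
    prod_ne_zero_iff.2 fun l hl => by exact_mod_cast (pI l hl).ne_zero
  have cop : IsCoprime ((m : ℤ) ^ 2) (∏ l ∈ S ∩ S', (l : ℤ)) := by
    refine IsCoprime.prod_right fun l hl => IsCoprime.pow_left ?_
    refine Nat.isCoprime_iff_coprime.2 (((pI l hl).coprime_iff_not_dvd).2 fun h => ?_).symm
    exact (hC l (hS (mem_inter.1 hl).1)).2 (h.mul_left 2)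
  have unit : ∀ l ∈ S \ S' ∪ S' \ S, ∀ z : ℤ, (l : ℤ) ∣ c * ((∏ l ∈ S ∩ S', (l : ℤ)) * z) →
      (l : ℤ) ∣ z := by
    intro l hl z hz
    have h1 : l ∈ C ∧ ¬ (l ∈ S ↔ l ∈ S') := by
      rcases mem_union.1 hl with h | h <;> obtain ⟨h2, h3⟩ := mem_sdiff.1 h
      · exact ⟨hS h2, fun h4 => h3 (h4.1 h2)⟩
      · exact ⟨hS' h2, fun h4 => h3 (h4.2 h2)⟩
    have hp := Nat.prime_iff_prime_int.1 (hC l h1.1).1
    refine (hp.dvd_or_dvd ((hp.dvd_or_dvd hz).resolve_left fun h => h1.2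
      (hcl l (Int.natCast_dvd_natCast.1 h)))).resolve_left fun h => ?_
    have h2 := mem_inter.1 (mem_of_dvd_EGAtom pI (hC l h1.1).1 h)
    exact h1.2 ⟨fun _ => h2.2, fun _ => h2.1⟩
  generalize ∏ l ∈ S ∩ S', (l : ℤ) = nI at *
  have hN : x0 ^ 2 + m * x1 ^ 2 = ∏ l ∈ S \ S' ∪ S' \ S, (l : ℤ) := by
    rw [e3]
    refine mul_left_cancel₀ (pow_ne_zero 2 (mul_ne_zero hc0 hI0)) ?_
    rw [e1] at hn
    rw [e2] at hn'
    rw [hx0] at g0
    rw [hx1] at g1
    calc (c * nI) ^ 2 * (x0 ^ 2 + m * x1 ^ 2) = (c * (nI * x0)) ^ 2 + m * (c * (nI * x1)) ^ 2 := by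
          ring
      _ = (a ^ 2 + m * b ^ 2) * (a' ^ 2 + m * b' ^ 2) := by rw [g0, g1]; ring
      _ = _ := by rw [hn, hn']; ring
  refine ⟨⟨x0, x1⟩, by rw [norm_eq]; exact hN, cop.dvd_of_dvd_mul_left ⟨c * k0, ?_⟩,
    cop.dvd_of_dvd_mul_left ⟨c * k1, ?_⟩, fun l hl => ⟨fun h => unit l hl _ ?_, fun h => ?_⟩⟩
  · linear_combination f0 - hx0 + e2
  · linear_combination f1 - hx1
  · rw [show (c : ℤ) * (nI * (x0 + x1 * r l)) = (a' - b' * r l) * (a + b * r l) +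
      b * b' * (r l ^ 2 + m) by linear_combination g0 + r l * g1 - c * hx0 - c * r l * hx1]
    exact ((hk l h).mul_left _).add ((hr l (hS h)).mul_left _)
  · by_contra h0
    have l2 : l ∈ S' := by
      rcases mem_union.1 hl with h1 | h1
      · exact absurd (mem_sdiff.1 h1).1 h0
      · exact (mem_sdiff.1 h1).1
    have h' : (l : ℤ) ∣ x0 - x1 * r l := by
      refine unit l hl _ ?_
      rw [show (c : ℤ) * (nI * (x0 - x1 * r l)) = (a - b * r l) * (a' + b' * r l) +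
        b * b' * (r l ^ 2 + m) by linear_combination g0 - r l * g1 - c * hx0 + c * r l * hx1]
      exact ((hk' l l2).mul_left _).add ((hr l (hS' l2)).mul_left _)
    obtain ⟨hl1, hl2⟩ := hC l (hS' l2)
    have hp := Nat.prime_iff_prime_int.1 hl1
    have n2 : ¬ (l : ℤ) ∣ 2 := fun h1 => hl2 ((Int.natCast_dvd_natCast.1 h1).mul_right m)
    have nr : ¬ (l : ℤ) ∣ r l := fun h1 => hl2 (Dvd.dvd.mul_left (Int.natCast_dvd_natCast.1
      ((dvd_add_right (dvd_pow h1 two_ne_zero)).1 (hr l (hS' l2)))) 2)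
    have d0 : (l : ℤ) ∣ x0 := by
      refine (hp.dvd_or_dvd (a := 2) ?_).resolve_left n2
      rw [show 2 * x0 = x0 + x1 * r l + (x0 - x1 * r l) by ring]
      exact h.add h'
    have d1 : (l : ℤ) ∣ x1 := (hp.dvd_or_dvd ((dvd_add_right d0).1 h)).resolve_right nr
    have d2 : (l : ℤ) * l ∣ (l : ℤ) * ∏ q ∈ (S \ S' ∪ S' \ S).erase l, (q : ℤ) := by
      rw [mul_prod_erase _ (fun q : ℕ => (q : ℤ)) hl, ← hN, ← sq]
      exact (pow_dvd_pow_of_dvd d0 2).add ((pow_dvd_pow_of_dvd d1 2).mul_left _)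
    have d3 := mem_of_dvd_EGAtom (fun q hq => by
      rcases mem_union.1 (mem_of_mem_erase hq) with h1 | h1
      · exact (hC q (hS (mem_sdiff.1 h1).1)).1
      · exact (hC q (hS' (mem_sdiff.1 h1).1)).1) hl1
      ((mul_dvd_mul_iff_left hp.ne_zero).1 d2)
    exact notMem_erase l _ d3

/-- A large family of sets in one class. -/
theorem family_EGAtom {m p : ℕ} (hm : 2 ≤ m) (hmp : m ≤ 4 ^ p) (hp : 10 ^ 6 ≤ p) {C : Finset ℕ}
    (hC : ∀ l ∈ C, Split m l) (hc : C.card = p ^ 2) : ∃ (r : ℕ → ℤ) (K : Finset (Finset ℕ)),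
      K ⊆ C.powerset ∧ 2 ^ (p ^ 2 - 30 * p) ≤ K.card ∧ ∀ S ∈ K, ∀ S' ∈ K,
        ∃ x : O m, x.norm = ∏ l ∈ S \ S' ∪ S' \ S, (l : ℤ) ∧
          (m : ℤ) ^ 2 ∣ x.re - ∏ l ∈ S' \ S, (l : ℤ) ∧ (m : ℤ) ^ 2 ∣ x.im ∧
          ∀ l ∈ S \ S' ∪ S' \ S, (l ∈ S ↔ (l : ℤ) ∣ x.re + x.im * r l) := by
  choose! r hr using fun l hl => (hC l hl).2.2
  choose! w c c1 c2 hn hk using fun (S : Finset ℕ) (hS : S ⊆ C) =>
    thue (m := m) (by omega) S (fun l hl => (hC l (hS hl)).1) r fun l hl => hr l (hS hl)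
  have hM : ∀ S ⊆ C, (0 : ℤ) < (c S : ℤ) ^ 2 * m ^ 2 ∧ (c S : ℤ) ^ 2 * m ^ 2 ≤ ((m + 2) ^ 4 : ℕ) := by
    intro S hS
    have a1 : (1 : ℤ) ≤ c S := by exact_mod_cast c1 S hS
    have a2 : (c S : ℤ) ≤ m + 2 := by exact_mod_cast (c2 S hS).trans (Nat.le_succ _)
    have a3 : (2 : ℤ) ≤ m := by exact_mod_cast hm
    refine ⟨by positivity, ?_⟩
    push_cast
    rw [show ((m : ℤ) + 2) ^ 4 = (m + 2) ^ 2 * (m + 2) ^ 2 by ring]
    gcongr
    linarith
  have h30 : 30 * p ≤ p ^ 2 := by nlinarith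
  obtain ⟨κ, -, hκ⟩ := exists_le_card_fiber_of_mul_le_card_of_maps_to (s := C.powerset)
    (t := (range (m + 2) ×ˢ range (m + 2)) ×ˢ
      (Ico (0 : ℤ) ((m + 2) ^ 4 : ℕ) ×ˢ Ico (0 : ℤ) ((m + 2) ^ 4 : ℕ)))
    (f := fun S => ((c S, ∏ l ∈ S.filter (· ∣ c S), l), ((w S).re % ((c S : ℤ) ^ 2 * m ^ 2),
      (w S).im % ((c S : ℤ) ^ 2 * m ^ 2)))) (n := 2 ^ (p ^ 2 - 30 * p))
    (fun S hS => by
      have hS := mem_powerset.1 hS
      have a1 := c2 S hS
      have a2 : ∏ l ∈ S.filter (· ∣ c S), l ≤ c S := by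
        refine Nat.le_of_dvd (c1 S hS) (Int.natCast_dvd_natCast.1 ?_)
        rw [Nat.cast_prod]
        exact prod_dvd_EGAtom (fun l hl => (hC l (hS (mem_filter.1 hl).1)).1)
          fun l hl => Int.natCast_dvd_natCast.2 (mem_filter.1 hl).2
      obtain ⟨b1, b2⟩ := hM S hS
      simp only [mem_product, mem_range, mem_Ico]
      exact ⟨⟨by omega, by omega⟩, ⟨Int.emod_nonneg _ b1.ne', (Int.emod_lt_of_pos _ b1).trans_le b2⟩,
        Int.emod_nonneg _ b1.ne', (Int.emod_lt_of_pos _ b1).trans_le b2⟩)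
    ⟨((0, 0), (0, 0)), by
      simp only [mem_product, mem_range, mem_Ico]
      exact ⟨⟨by omega, by omega⟩, ⟨le_rfl, by positivity⟩, le_rfl, by positivity⟩⟩
    (by
      simp only [card_product, card_range, Int.card_Ico, sub_zero, Int.toNat_natCast,
        card_powerset, hc]
      have a1 : m + 2 ≤ 2 ^ (3 * p) := by
        have a2 : 4 ^ p * 2 ^ 1 ≤ 4 ^ p * 2 ^ p :=
          Nat.mul_le_mul_left _ (Nat.pow_le_pow_right two_pos (by omega))
        rw [pow_mul, show 2 ^ 3 = 4 * 2 by norm_num, mul_pow]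
        omega
      calc _ = (m + 2) ^ 10 * 2 ^ (p ^ 2 - 30 * p) := by ring
        _ ≤ (2 ^ (3 * p)) ^ 10 * 2 ^ (p ^ 2 - 30 * p) := by gcongr
        _ = 2 ^ p ^ 2 := by rw [← pow_mul, ← pow_add]; congr 1; omega)
  refine ⟨r, _, filter_subset _ _, hκ, fun S hS S' hS' => ?_⟩
  obtain ⟨h1, e1⟩ := mem_filter.1 hS
  obtain ⟨h2, e2⟩ := mem_filter.1 hS'
  rw [mem_powerset] at h1 h2
  have e := e1.trans e2.symm
  simp only [Prod.mk.injEq] at e
  obtain ⟨⟨f1, f2⟩, f3, f4⟩ := e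
  rw [← f1] at f2 f3 f4
  have key : ∀ A B : Finset ℕ, A ⊆ C → B ⊆ C → ∏ l ∈ A.filter (· ∣ c S), l =
      ∏ l ∈ B.filter (· ∣ c S), l → ∀ l, l ∣ c S → l ∈ A → l ∈ B := by
    intro A B hA hB h l hl hlA
    refine (mem_filter.1 (mem_of_dvd_EGAtom (S := B.filter (· ∣ c S))
      (fun q hq => (hC q (hB (mem_filter.1 hq).1)).1) (hC l (hA hlA)).1 ?_)).1
    rw [← Nat.cast_prod, ← h]
    exact Int.natCast_dvd_natCast.2 (dvd_prod_of_mem _ (mem_filter.2 ⟨hlA, hl⟩))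
  exact pair_EGAtom (fun l hl => ⟨(hC l hl).1, (hC l hl).2.1⟩) hr h1 h2 (c1 S h1)
    (by rw [← norm_eq]; exact hn S h1) (by rw [← norm_eq, f1]; exact hn S' h2) (hk S h1) (hk S' h2)
    (Int.ModEq.dvd f3.symm) (Int.ModEq.dvd f4.symm)
    fun l hl => ⟨key S S' h1 h2 f2 l hl, key S' S h2 h1 f2.symm l hl⟩

theorem prop_EGAtom {a b a' b' : Prop} (m1 : a ∧ ¬b ∨ b ∧ ¬a ↔ a' ∧ ¬b' ∨ b' ∧ ¬a')
    (m2 : a ∧ b ↔ a' ∧ b') (m3 : a ∧ ¬b ∨ b ∧ ¬a → (a ↔ a')) : (a ↔ a') ∧ (b ↔ b') := by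
  by_cases h1 : a <;> by_cases h2 : b <;> by_cases h3 : a' <;> by_cases h4 : b' <;> simp_all

/-- L1: a large box on a quarter of any given set of split primes. -/
theorem atom (m p : ℕ) (hm : 2 ≤ m) (hmp : m ≤ 4 ^ p) (hp : 10 ^ 6 ≤ p) (C : Finset ℕ)
    (hC : ∀ l ∈ C, Split m l) (hc : C.card = p ^ 2) :
    ∃ D ⊆ C, ∃ (ρ : ℤ) (E : Finset (O m)), Box m D ρ E ∧ p ^ 2 ≤ 4 * D.card ∧
      2 ^ (999 * D.card) ≤ E.card ^ 1000 := by
  classical
  by_contra h0
  obtain ⟨r, K, hK, hcard, hx⟩ := family_EGAtom hm hmp hp hC hc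
  choose! x x1 x2 x3 x4 using hx
  have hm2 : (0 : ℤ) < (m : ℤ) ^ 2 := by positivity
  have sub : ∀ S ∈ K, S ⊆ C := fun S hS => mem_powerset.1 (hK hS)
  have subD : ∀ q ∈ K ×ˢ K, q.1 \ q.2 ∪ q.2 \ q.1 ⊆ C := fun q hq =>
    union_subset (sdiff_subset.trans (sub _ (mem_product.1 hq).1))
      (sdiff_subset.trans (sub _ (mem_product.1 hq).2))
  have hL : ((K ×ˢ K).filter fun q => ¬ 4 * (q.1 \ q.2 ∪ q.2 \ q.1).card < C.card).card ≤
      2 ^ p ^ 2 * m ^ 2 / 2 ^ (64 * p + 2) * C.powerset.card := by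
    refine card_le_mul_card_image_of_maps_to (f := fun q => q.1 \ q.2 ∪ q.2 \ q.1)
      (fun q hq => mem_powerset.2 (subD q (mem_filter.1 hq).1)) _ fun D hD => ?_
    rw [mem_powerset] at hD
    refine (card_le_mul_card_image_of_maps_to
      (f := fun q : Finset ℕ × Finset ℕ =>
        (q.1 ∩ q.2, (∏ l ∈ q.2 \ q.1, ((l : ℕ) : ℤ)) % (m : ℤ) ^ 2))
      (t := (C \ D).powerset ×ˢ Ico (0 : ℤ) ((m ^ 2 : ℕ) : ℤ)) (fun q hq => ?_)
      (2 ^ D.card / 2 ^ (64 * p + 2)) fun y _ => ?_).trans ?_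
    · obtain ⟨h1, h2⟩ := mem_filter.1 hq
      refine mem_product.2 ⟨mem_powerset.2 fun l hl => mem_sdiff.2
        ⟨sub _ (mem_product.1 (mem_filter.1 h1).1).1 (mem_inter.1 hl).1, ?_⟩, mem_Ico.2
        ⟨Int.emod_nonneg _ hm2.ne', by exact_mod_cast Int.emod_lt_of_pos _ hm2⟩⟩
      rw [← h2]
      simp only [mem_inter] at hl
      simp [hl.1, hl.2]
    · set P := ((((K ×ˢ K).filter fun q => ¬ 4 * (q.1 \ q.2 ∪ q.2 \ q.1).card < C.card).filter
        fun q => q.1 \ q.2 ∪ q.2 \ q.1 = D).filter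
        fun q : Finset ℕ × Finset ℕ =>
          (q.1 ∩ q.2, (∏ l ∈ q.2 \ q.1, ((l : ℕ) : ℤ)) % (m : ℤ) ^ 2) = y) with hP
      have mP : ∀ q ∈ P, q.1 ∈ K ∧ q.2 ∈ K ∧ p ^ 2 ≤ 4 * D.card ∧ q.1 \ q.2 ∪ q.2 \ q.1 = D ∧
          q.1 ∩ q.2 = y.1 ∧ (∏ l ∈ q.2 \ q.1, (l : ℤ)) % (m : ℤ) ^ 2 = y.2 := by
        intro q hq
        simp only [hP, mem_filter, mem_product] at hq
        obtain ⟨⟨⟨⟨a1, a2⟩, a3⟩, a4⟩, a5⟩ := hq
        rw [a4, hc] at a3
        exact ⟨a1, a2, not_lt.1 a3, a4, congrArg Prod.fst a5, congrArg Prod.snd a5⟩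
      rcases P.eq_empty_or_nonempty with h | ⟨q₀, hq₀⟩
      · rw [h]
        exact Nat.zero_le _
      have h4 := (mP q₀ hq₀).2.2.1
      have inj : Set.InjOn (fun q : Finset ℕ × Finset ℕ => x q.1 q.2) P := by
        intro q hq q' hq' e
        obtain ⟨a1, a2, -, a4, a5, -⟩ := mP q hq
        obtain ⟨b1, b2, -, b4, b5, -⟩ := mP q' hq'
        have k1 := x4 _ a1 _ a2
        have k2 := x4 _ b1 _ b2
        simp only [] at e
        rw [a4, e] at k1
        rw [b4] at k2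
        have k3 : ∀ l, (l ∈ q.1 ↔ l ∈ q'.1) ∧ (l ∈ q.2 ↔ l ∈ q'.2) := by
          intro l
          have m1 := Finset.ext_iff.1 (a4.trans b4.symm) l
          have m2 := Finset.ext_iff.1 (a5.trans b5.symm) l
          have m3 : l ∈ q.1 \ q.2 ∪ q.2 \ q.1 → (l ∈ q.1 ↔ l ∈ q'.1) := fun hl =>
            (k1 l (a4 ▸ hl)).trans (k2 l (a4 ▸ hl)).symm
          simp only [mem_union, mem_sdiff, mem_inter] at m1 m2 m3
          exact prop_EGAtom m1 m2 m3
        exact Prod.ext (Finset.ext fun l => (k3 l).1) (Finset.ext fun l => (k3 l).2)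
      have hB : Box m D y.2 (P.image fun q => x q.1 q.2) := by
        constructor
        · intro z hz
          obtain ⟨q, hq, rfl⟩ := mem_image.1 hz
          obtain ⟨a1, a2, -, a4, -⟩ := mP q hq
          rw [x1 _ a1 _ a2, a4]
        · intro z hz
          obtain ⟨q, hq, rfl⟩ := mem_image.1 hz
          obtain ⟨a1, a2, -, -, -, a6⟩ := mP q hq
          rw [← Nat.cast_pow, nat_dvd_iff]
          simp only [Zsqrtd.re_sub, Zsqrtd.im_sub, Zsqrtd.re_intCast, Zsqrtd.im_intCast, sub_zero,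
            Nat.cast_pow]
          refine ⟨?_, x3 _ a1 _ a2⟩
          rw [← a6, ← sub_add_sub_cancel _ (∏ l ∈ q.2 \ q.1, (l : ℤ))]
          exact (x2 _ a1 _ a2).add Int.dvd_self_sub_emod
      have h5 : P.card ^ 1000 < 2 ^ (999 * D.card) := by
        rw [← card_image_of_injOn inj]
        exact not_le.1 fun h => h0 ⟨D, hD, _, _, hB, h4, h⟩
      refine (Nat.le_div_iff_mul_le (by positivity)).2
        ((Nat.pow_le_pow_iff_left (n := 1000) (by norm_num)).1 ?_)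
      rw [mul_pow, ← pow_mul, ← pow_mul]
      refine (Nat.mul_le_mul_right _ h5.le).trans ?_
      rw [← pow_add]
      exact Nat.pow_le_pow_right two_pos (by nlinarith)
    · refine (Nat.le_div_iff_mul_le (by positivity)).2 ?_
      rw [card_product, card_powerset, Int.card_Ico, sub_zero, Int.toNat_natCast,
        card_sdiff_of_subset hD, hc, mul_right_comm, ← mul_assoc]
      refine Nat.mul_le_mul_right _ ((Nat.mul_le_mul_right _ (Nat.div_mul_le_self _ _)).trans ?_)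
      rw [← pow_add, Nat.add_sub_cancel' (hc ▸ card_le_card hD)]
  have hS : ((K ×ˢ K).filter fun q => 4 * (q.1 \ q.2 ∪ q.2 \ q.1).card < C.card).card ≤
      (C.powerset.filter fun D => 4 * D.card < C.card).card * C.powerset.card := by
    rw [← card_product]
    refine card_le_card_of_injOn (fun q => (q.1 \ q.2 ∪ q.2 \ q.1, q.1)) (fun q hq => ?_)
      fun q _ q' _ e => ?_
    · obtain ⟨h1, h2⟩ := mem_filter.1 (mem_coe.1 hq)
      exact mem_coe.2 (mem_product.2 ⟨mem_filter.2 ⟨mem_powerset.2 (subD q h1), h2⟩,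
        hK (mem_product.1 h1).1⟩)
    · simp only [Prod.mk.injEq] at e
      refine Prod.ext e.2 (Finset.ext fun l => ?_)
      have m1 := Finset.ext_iff.1 e.1 l
      have m2 := Finset.ext_iff.1 e.2 l
      simp only [mem_union, mem_sdiff] at m1
      rw [m2] at m1
      by_cases h1 : l ∈ q'.1 <;> simpa [h1, not_iff_not] using m1
  have hs := small_subsets C
  have tot := card_filter_add_card_filter_not (s := K ×ˢ K)
    fun q => 4 * (q.1 \ q.2 ∪ q.2 \ q.1).card < C.card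
  rw [card_product] at tot
  rw [card_powerset] at hL hS
  generalize (C.powerset.filter fun D => 4 * D.card < C.card).card = s at hs hS
  generalize ((K ×ˢ K).filter fun q => 4 * (q.1 \ q.2 ∪ q.2 \ q.1).card < C.card).card = A
    at hS tot
  generalize ((K ×ˢ K).filter fun q => ¬ 4 * (q.1 \ q.2 ∪ q.2 \ q.1).card < C.card).card = B
    at hL tot
  rw [hc] at hs hL hS
  obtain ⟨v, hv⟩ : ∃ v, p ^ 2 = 6 * (60 * p + 2) + v := Nat.exists_eq_add_of_le (by nlinarith)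
  have s1 : s * 2 ^ (60 * p + 2) ≤ 2 ^ p ^ 2 := by
    have a1 : (s : ℝ) ≤ 2 ^ (5 * (60 * p + 2) + v) := by
      refine hs.trans ?_
      rw [hv, pow_add, pow_add, pow_mul, pow_mul (2 : ℝ) 5]
      gcongr <;> norm_num
    have a2 : s ≤ 2 ^ (5 * (60 * p + 2) + v) := by exact_mod_cast a1
    refine (Nat.mul_le_mul_right _ a2).trans ?_
    rw [← pow_add]
    exact Nat.pow_le_pow_right two_pos (by omega)
  have s2 : 2 ^ p ^ 2 * m ^ 2 / 2 ^ (64 * p + 2) * 2 ^ (60 * p + 2) ≤ 2 ^ p ^ 2 := by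
    refine Nat.le_of_mul_le_mul_right (c := 2 ^ (4 * p)) ?_ (by positivity)
    rw [mul_assoc, ← pow_add, show 60 * p + 2 + 4 * p = 64 * p + 2 by ring]
    refine (Nat.div_mul_le_self _ _).trans (Nat.mul_le_mul_left _ ?_)
    rw [show 4 * p = 2 * p * 2 by ring, pow_mul, pow_mul]
    exact Nat.pow_le_pow_left hmp 2
  have s3 : 2 ^ p ^ 2 ≤ K.card * 2 ^ (30 * p) := by
    refine le_trans (le_of_eq ?_) (Nat.mul_le_mul_right _ hcard)
    rw [← pow_add, Nat.sub_add_cancel (by omega)]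
  have s4 : 2 ^ (60 * p + 2) = 4 * (2 ^ (30 * p) * 2 ^ (30 * p)) := by ring
  have s5 : 0 < 2 ^ p ^ 2 := by positivity
  rw [s4] at s1 s2
  generalize 2 ^ p ^ 2 * m ^ 2 / 2 ^ (64 * p + 2) = b at hL s2
  generalize 2 ^ p ^ 2 = T at *
  generalize 2 ^ (30 * p) = G at *
  have t1 : T * T ≤ (A + B) * (G * G) := by
    rw [tot]
    calc T * T ≤ K.card * G * (K.card * G) := Nat.mul_le_mul s3 s3
      _ = _ := by ring
  have t2 : A * (4 * (G * G)) ≤ T * T := by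
    calc A * (4 * (G * G)) ≤ s * T * (4 * (G * G)) := Nat.mul_le_mul_right _ hS
      _ = s * (4 * (G * G)) * T := by ring
      _ ≤ T * T := Nat.mul_le_mul_right _ s1
  have t3 : B * (4 * (G * G)) ≤ T * T := by
    calc B * (4 * (G * G)) ≤ b * T * (4 * (G * G)) := Nat.mul_le_mul_right _ hL
      _ = b * (4 * (G * G)) * T := by ring
      _ ≤ T * T := Nat.mul_le_mul_right _ s2
  nlinarith [Nat.mul_pos s5 s5]

end Pool.Agent.P.MP_b75a1e_co.EG
end

-- part Pool.Agent.P.MP_b75a1e_co.EGCollY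
section

set_option autoImplicit false

open Finset
open scoped BigOperators ComplexConjugate

namespace Pool.Agent.P.MP_b75a1e_co.EG

theorem ind_EGCollY (len : ℕ) (p : ℕ → Prop) [DecidablePred p] :
    𝔼 v : Fin len, (if p v then (1 : ℝ) else 0) = (((range len).filter p).card : ℝ) / len := by
  rw [Fintype.expect_eq_sum_div_card, Fintype.card_fin,
    Fin.sum_univ_eq_sum_range (fun v => if p v then (1 : ℝ) else 0), sum_boole]

theorem prod_EGCollY {α β : Type} [Fintype α] [Fintype β] (f : α × β → ℝ) :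
    𝔼 q : α × β, f q = 𝔼 a : α, 𝔼 b : β, f (a, b) := by
  rw [← univ_product_univ, expect_product]

/-- The condition on the first coordinate given by the norms. -/
def Nq_EGCollY {m : ℕ} (d : ℕ) (al bb Cb x : O m) : Prop :=
  IsCoprime (d : ℤ) Cb.norm ∧ (d : ℤ) ∣ (al * x - bb * star x).norm - al.norm * x.norm

open Classical in
theorem lin_EGCollY (m M A len d : ℕ) (hd : 1 ≤ d) (hc : Nat.Coprime d (2 * m * M)) (hlen : d ≤ len)
    (Z2 V0 P P' Cb x : O m) (hZ : IsCoprime (d : ℤ) Z2.norm) (hP : P.norm = Cb.norm)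
    (hP' : P'.norm = Cb.norm) :
    𝔼 v : Fin len, (if IsCoprime (d : ℤ) (star x * (star (mz m M (A + v)) * Cb)).norm ∧
        (d : O m) ∣ (x * (star (mz m M (A + v)) * P) - star x * (mz m M (A + v) * P')) * Z2 -
          star x * (star (mz m M (A + v)) * Cb) * V0 then (1 : ℝ) else 0) ≤
      if Nq_EGCollY d (Z2 * P) (Cb * V0) Cb x then 2 / (d : ℝ) else 0 := by
  have h0 : (0 : ℝ) < d := by exact_mod_cast hd
  have h1 : (d : ℝ) ≤ len := by exact_mod_cast hlen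
  have e : ∀ y : O m, (x * (star y * P) - star x * (y * P')) * Z2 - star x * (star y * Cb) * V0 =
      (Z2 * P * x - Cb * V0 * star x) * star y - Z2 * P' * star x * y := fun y => by ring
  simp only [e, Zsqrtd.norm_mul, Zsqrtd.norm_conj]
  by_cases h : ∃ v : Fin len, IsCoprime (d : ℤ) (x.norm * ((mz m M (A + v)).norm * Cb.norm)) ∧
      (d : O m) ∣ (Z2 * P * x - Cb * V0 * star x) * star (mz m M (A + v)) -
        Z2 * P' * star x * mz m M (A + v)
  · obtain ⟨v, h2, h3⟩ := h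
    generalize mz m M (A + v) = y at h2 h3
    have h4 := h2.of_mul_right_left
    have h5 := h2.of_mul_right_right.of_mul_right_left
    have h6 := h2.of_mul_right_right.of_mul_right_right
    have h7 : (Z2 * P' * star x).norm = (Z2 * P).norm * x.norm := by
      simp only [Zsqrtd.norm_mul, Zsqrtd.norm_conj, hP, hP']
    have hq : Nq_EGCollY d (Z2 * P) (Cb * V0) Cb x := by
      refine ⟨h6, ?_⟩
      rw [← h7]
      generalize Z2 * P * x - Cb * V0 * star x = a at h3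
      generalize Z2 * P' * star x = b at h3
      obtain ⟨c, hc⟩ := h3
      have h8 : (a * star y).norm = (b * y + d * c).norm := by rw [← hc]; congr 1; ring
      rw [Zsqrtd.norm_mul, Zsqrtd.norm_conj] at h8
      refine h5.dvd_of_dvd_mul_right ⟨2 * ((b * y).re * c.re + m * ((b * y).im * c.im)) +
        d * c.norm, ?_⟩
      rw [sub_mul, h8, ← Zsqrtd.norm_mul]
      generalize b * y = w
      simp only [norm_eq, Zsqrtd.re_add, Zsqrtd.im_add, Zsqrtd.re_mul, Zsqrtd.im_mul,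
        Zsqrtd.re_natCast, Zsqrtd.im_natCast]
      ring
    rw [if_pos hq]
    have h8 := lin_count m M A len d hd hc (Z2 * P * x - Cb * V0 * star x) (Z2 * P' * star x)
      (by rw [h7, Zsqrtd.norm_mul, hP]; exact (hZ.mul_right h6).mul_right h4)
    refine (expect_le_expect (g := fun v : Fin len => if (d : O m) ∣
      (Z2 * P * x - Cb * V0 * star x) * star (mz m M (A + v)) -
        Z2 * P' * star x * mz m M (A + v) then (1 : ℝ) else 0) fun v _ => ?_).trans ?_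
    · split_ifs with h9 h10
      · exact le_rfl
      · exact absurd h9.2 h10
      · exact zero_le_one
      · exact le_rfl
    · rw [ind_EGCollY len fun v => (d : O m) ∣
        (Z2 * P * x - Cb * V0 * star x) * star (mz m M (A + v)) -
          Z2 * P' * star x * mz m M (A + v), div_le_iff₀ (by linarith)]
      refine h8.trans ?_
      have : 1 ≤ (len : ℝ) / d := (one_le_div h0).2 h1
      rw [div_mul_eq_mul_div, mul_div_assoc]
      linarith
  · rw [expect_eq_zero fun v _ => if_neg fun h2 => h ⟨v, h2⟩]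
    split_ifs
    · positivity
    · exact le_rfl

theorem content_EGCollY {m M d : ℕ} (hc : Nat.Coprime d (2 * m * M)) {x0 n e0 e1 g : ℤ}
    (hg : g ∣ d) (h1 : g ∣ (n - 2 * e0) * M ^ 2)
    (h2 : g ∣ M * (2 * (n - 2 * e0) * x0 + 4 * m * M * e1))
    (h3 : g ∣ (n - 2 * e0) * x0 ^ 2 + 4 * m * M * e1 * x0 + m * M ^ 2 * (n + 2 * e0)) :
    g ∣ e0 ∧ g ∣ e1 := by
  have c0 : IsCoprime g (2 * m * M : ℤ) :=
    IsCoprime.of_isCoprime_of_dvd_left (by exact_mod_cast Nat.isCoprime_iff_coprime.2 hc) hg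
  have c1 : IsCoprime g (M : ℤ) := c0.of_mul_right_right
  have c2 : IsCoprime g (m : ℤ) := c0.of_mul_right_left.of_mul_right_right
  have c3 : IsCoprime g (4 : ℤ) := by
    simpa using (c0.of_mul_right_left.of_mul_right_left.pow_right (n := 2))
  have a1 : g ∣ n - 2 * e0 := c1.pow_right.dvd_of_dvd_mul_right h1
  have a2 : g ∣ 4 * m * M * e1 :=
    (dvd_add_right ((a1.mul_left 2).mul_right x0)).1 (c1.dvd_of_dvd_mul_left h2)
  have a3 : g ∣ n + 2 * e0 := (c2.mul_right c1.pow_right).dvd_of_dvd_mul_left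
    ((dvd_add_right ((a1.mul_right _).add (a2.mul_right _))).1 h3)
  refine ⟨c3.dvd_of_dvd_mul_left ?_, ((c3.mul_right c2).mul_right c1).dvd_of_dvd_mul_left a2⟩
  have := a3.sub a1
  rwa [show n + 2 * e0 - (n - 2 * e0) = 4 * e0 by ring] at this

open Classical in
theorem quad_EGCollY (m M A len d : ℕ) (hd : 1 ≤ d) (hc : Nat.Coprime d (2 * m * M)) (hlen : d ≤ len)
    (Z2 V0 P Cb : O m) (hZ : IsCoprime (d : ℤ) Z2.norm) (hP : P.norm = Cb.norm)
    (hg : Int.gcd (Int.gcd V0.re V0.im) d ^ 2 ≤ d) :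
    𝔼 v : Fin len, (if Nq_EGCollY d (Z2 * P) (Cb * V0) Cb (mz m M (A + v)) then (1 : ℝ) else 0) ≤
      6 * (d : ℝ) ^ (-1 / 6 : ℝ) := by
  have h0 : (0 : ℝ) < d := by exact_mod_cast hd
  have h1 : (d : ℝ) ≤ len := by exact_mod_cast hlen
  by_cases hC : IsCoprime (d : ℤ) Cb.norm
  swap
  · rw [expect_eq_zero fun v _ => if_neg fun h2 => hC h2.1]
    positivity
  obtain ⟨W, hW1, hW2⟩ : ∃ W : ℕ, W ^ 6 ≤ d ∧ d < (W + 1) ^ 6 :=
    ⟨Nat.nthRoot 6 d, Nat.pow_nthRoot_le (Or.inl (by norm_num)),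
      Nat.lt_pow_nthRoot_add_one (by norm_num) d⟩
  have hW : 1 ≤ W := by
    by_contra h
    obtain rfl : W = 0 := by omega
    omega
  set de := Z2 * P * star (Cb * V0) with hde
  set n := (Cb * V0).norm with hn
  set x0 : ℤ := 1 + M * A with hx0
  have key := quad_count len d W ((n - 2 * de.re) * M ^ 2)
    (M * (2 * (n - 2 * de.re) * x0 + 4 * m * M * de.im))
    ((n - 2 * de.re) * x0 ^ 2 + 4 * m * M * de.im * x0 + m * M ^ 2 * (n + 2 * de.re)) hd hW ?_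
  · rw [ind_EGCollY len fun v => Nq_EGCollY d (Z2 * P) (Cb * V0) Cb (mz m M (A + v)),
      div_le_iff₀ (by linarith)]
    refine le_trans (Nat.cast_le.2 (card_le_card fun t ht => ?_)) (key.trans ?_)
    · obtain ⟨h2, -, h3⟩ := mem_filter.1 ht
      refine mem_filter.2 ⟨h2, (dvd_iff_dvd_of_dvd_sub (Dvd.intro 0 ?_)).1 h3⟩
      rw [hde, hn, hx0]
      generalize Z2 * P = al
      generalize Cb * V0 = bb
      simp only [norm_eq, mz, Zsqrtd.re_sub, Zsqrtd.im_sub, Zsqrtd.re_mul, Zsqrtd.im_mul,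
        Zsqrtd.re_star, Zsqrtd.im_star]
      push_cast
      ring
    · have a0 : (0 : ℝ) < W := by exact_mod_cast hW
      have a1 : (d : ℝ) ^ (1 / 6 : ℝ) ≤ 2 * W := by
        have h2 : (d : ℝ) ≤ (2 * W) ^ 6 := by
          exact_mod_cast hW2.le.trans (Nat.pow_le_pow_left (by omega) 6)
        refine (Real.rpow_le_rpow h0.le h2 (by norm_num)).trans (le_of_eq ?_)
        rw [← Real.rpow_natCast, ← Real.rpow_mul (by positivity)]
        norm_num
      have a2 : (d : ℝ) ^ (1 / 6 : ℝ) ≤ len := le_trans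
        (Real.rpow_le_self_of_one_le (by exact_mod_cast hd) (by norm_num)) h1
      have a3 : 0 < (d : ℝ) ^ (1 / 6 : ℝ) := by positivity
      rw [show (-1 / 6 : ℝ) = -(1 / 6) by norm_num, Real.rpow_neg h0.le]
      generalize (d : ℝ) ^ (1 / 6 : ℝ) = s at *
      have a4 : (len : ℝ) / W ≤ 2 * (s⁻¹ * len) := by
        rw [div_le_iff₀ a0, inv_mul_eq_div, mul_right_comm, ← mul_div_assoc, le_div_iff₀ a3]
        nlinarith
      have a5 : 1 ≤ s⁻¹ * len := by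
        rw [inv_mul_eq_div]
        exact (one_le_div a3).2 a2
      linarith
  · set g := Int.gcd (Int.gcd ((n - 2 * de.re) * M ^ 2)
      (M * (2 * (n - 2 * de.re) * x0 + 4 * m * M * de.im)))
      (Int.gcd ((n - 2 * de.re) * x0 ^ 2 + 4 * m * M * de.im * x0 + m * M ^ 2 * (n + 2 * de.re)) d)
      with hgd
    have g1 : (g : ℤ) ∣ d := (Int.gcd_dvd_right _ _).trans (Int.gcd_dvd_right _ _)
    have g2 := (nat_dvd_iff g de).2 (content_EGCollY hc g1
      ((Int.gcd_dvd_left _ _).trans (Int.gcd_dvd_left _ _))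
      ((Int.gcd_dvd_left _ _).trans (Int.gcd_dvd_right _ _))
      ((Int.gcd_dvd_right _ _).trans (Int.gcd_dvd_left _ _)))
    have g3 : (g : O m) ∣ ((Z2.norm * Cb.norm * Cb.norm : ℤ) : O m) * V0 := by
      have h2 := (dvd_star g2).mul_left (Z2 * P * star Cb)
      rw [star_natCast] at h2
      refine h2.trans (dvd_of_eq ?_)
      rw [Int.cast_mul, Int.cast_mul, Zsqrtd.norm_eq_mul_conj Z2]
      nth_rewrite 1 [← hP]
      rw [Zsqrtd.norm_eq_mul_conj, Zsqrtd.norm_eq_mul_conj, hde]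
      simp only [star_mul', star_star]
      ring
    have g4 : IsCoprime (g : ℤ) (Z2.norm * Cb.norm * Cb.norm) :=
      IsCoprime.of_isCoprime_of_dvd_left ((hZ.mul_right hC).mul_right hC) g1
    rw [nat_dvd_iff, Zsqrtd.re_mul, Zsqrtd.im_mul, Zsqrtd.re_intCast, Zsqrtd.im_intCast] at g3
    simp only [mul_zero, zero_mul, add_zero] at g3
    have g5 : g ∣ Int.gcd (Int.gcd V0.re V0.im) d := Int.dvd_gcd (Int.natCast_dvd_natCast.2
      (Int.dvd_gcd (g4.dvd_of_dvd_mul_left g3.1) (g4.dvd_of_dvd_mul_left g3.2))) g1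
    have g6 := Nat.le_of_dvd (Int.gcd_pos_of_ne_zero_right _ (by omega)) g5
    refine (Nat.mul_le_mul_left _ g6).trans ((Nat.pow_le_pow_iff_left two_ne_zero).1 ?_)
    rw [mul_pow, ← pow_mul, sq d]
    exact Nat.mul_le_mul hW1 hg

/-- The product over the other coordinates. -/
def rest_EGCollY {m r : ℕ} (i j : Fin r) (z : Fin r → O m) (ε : Fin r → Bool) : O m :=
  ∏ k ∈ (univ.erase j).erase i, if ε k then z k else star (z k)

theorem cube_EGCollY {m r : ℕ} {i j : Fin r} (h : i ≠ j) (z : Fin r → O m) (ε : Fin r → Bool) :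
    cube z ε = (if ε j then z j else star (z j)) *
      ((if ε i then z i else star (z i)) * rest_EGCollY i j z ε) := by
  rw [rest_EGCollY, mul_prod_erase _ (fun k => if ε k then z k else star (z k))
    (mem_erase.2 ⟨h, mem_univ i⟩), mul_prod_erase _ (fun k => if ε k then z k else star (z k))
    (mem_univ j), cube]

theorem rnorm_EGCollY {m r : ℕ} (i j : Fin r) (z : Fin r → O m) (ε ε' : Fin r → Bool) :
    (rest_EGCollY i j z ε).norm = (rest_EGCollY i j z ε').norm := by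
  simp only [rest_EGCollY, norm_prod', apply_ite Zsqrtd.norm, Zsqrtd.norm_conj, ite_self]

theorem rupd_EGCollY {m r len : ℕ} (i j : Fin r) (F : Fin len → O m) (t : Fin r → Fin len)
    (v : Fin len) (ε : Fin r → Bool) :
    rest_EGCollY i j (fun k => F (Function.update t i v k)) ε =
        rest_EGCollY i j (fun k => F (t k)) ε ∧
      rest_EGCollY i j (fun k => F (Function.update t j v k)) ε =
        rest_EGCollY i j (fun k => F (t k)) ε :=
  ⟨prod_congr rfl fun k hk => by simp only [Function.update_of_ne (mem_erase.1 hk).1],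
    prod_congr rfl fun k hk => by
      simp only [Function.update_of_ne (mem_erase.1 (mem_erase.1 hk).2).1]⟩

open Classical in
/-- L10, the first cube against a fixed difference of small content. -/
theorem collY_fixed (m M A len r d : ℕ) (hd : 1 ≤ d) (hc : Nat.Coprime d (2 * m * M)) (hlen : d ≤ len)
    (Z2 V0 : O m) (hZ : IsCoprime (d : ℤ) Z2.norm) (ε ε' : Fin r → Bool) (i j : Fin r)
    (hj : ε j = true ∧ ε' j = false) (hi : ε i = false ∧ ε' i = true) :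
    𝔼 t : Fin r → Fin len,
      (if IsCoprime (d : ℤ) (base fun k => mz m M (A + t k)).norm ∧
          (d : O m) ∣ (cube (fun k => mz m M (A + t k)) ε - cube (fun k => mz m M (A + t k)) ε') * Z2 -
            (base fun k => mz m M (A + t k)) * V0 then (1 : ℝ) else 0) ≤
      if Int.gcd (Int.gcd V0.re V0.im) d ^ 2 ≤ d then 12 * (d : ℝ) ^ (-7 / 6 : ℝ) else 2 / d := by
  have h0 : (0 : ℝ) < d := by exact_mod_cast hd
  have : Nonempty (Fin len) := ⟨⟨0, by omega⟩⟩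
  have hij : i ≠ j := fun h => by simp [h, hj.1] at hi
  set F : Fin len → O m := fun v => mz m M (A + v) with hF
  have a1 : 𝔼 t : Fin r → Fin len,
      (if IsCoprime (d : ℤ) (base fun k => F (t k)).norm ∧
          (d : O m) ∣ (cube (fun k => F (t k)) ε - cube (fun k => F (t k)) ε') * Z2 -
            (base fun k => F (t k)) * V0 then (1 : ℝ) else 0) ≤
      𝔼 t : Fin r → Fin len, if Nq_EGCollY d (Z2 * rest_EGCollY i j (fun k => F (t k)) ε)
        ((rest_EGCollY i j (fun k => F (t k)) fun _ => false) * V0)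
        (rest_EGCollY i j (fun k => F (t k)) fun _ => false) (F (t j)) then 2 / (d : ℝ) else 0 := by
    rw [expect_update _ i]
    refine expect_le_expect fun t _ => le_trans (le_of_eq (expect_congr rfl fun v _ => ?_))
      (lin_EGCollY m M A len d hd hc hlen Z2 V0 _ (rest_EGCollY i j (fun k => F (t k)) ε') _ _ hZ
        (rnorm_EGCollY _ _ _ _ _) (rnorm_EGCollY _ _ _ _ _))
    simp only [base, cube_EGCollY hij, (rupd_EGCollY i j F t v _).1, hi.1, hi.2, hj.1, hj.2,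
      Function.update_self, Function.update_of_ne hij.symm, if_true, Bool.false_eq_true, if_false]
    rfl
  refine a1.trans ?_
  split_ifs with hg
  · rw [expect_update _ j]
    refine expect_le univ_nonempty fun t _ => ?_
    have a2 := quad_EGCollY m M A len d hd hc hlen Z2 V0 (rest_EGCollY i j (fun k => F (t k)) ε)
      (rest_EGCollY i j (fun k => F (t k)) fun _ => false) hZ (rnorm_EGCollY _ _ _ _ _) hg
    have a3 := mul_le_mul_of_nonneg_left a2 (by positivity : 0 ≤ 2 / (d : ℝ))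
    rw [mul_expect] at a3
    refine le_trans (le_of_eq (expect_congr rfl fun v _ => ?_)) (a3.trans (le_of_eq ?_))
    · simp only [(rupd_EGCollY i j F t v _).2, Function.update_self, mul_ite, mul_one, mul_zero]
      rfl
    · rw [show (-7 / 6 : ℝ) = -1 / 6 - 1 by norm_num, Real.rpow_sub_one h0.ne']
      ring
  · refine expect_le univ_nonempty fun t _ => ?_
    split_ifs
    · exact le_rfl
    · positivity

theorem bad_EGCollY (r : ℕ) (b : Bool) :
    𝔼 q : (Fin r → Bool) × (Fin r → Bool),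
      ∏ k, (if q.1 k = b ∧ q.2 k = !b then (0 : ℝ) else 1) = (3 / 4) ^ r := by
  rw [prod_EGCollY]
  have h1 : ∀ x : Fin r → Bool, 𝔼 y : Fin r → Bool,
      ∏ k, (if x k = b ∧ y k = !b then (0 : ℝ) else 1) =
        ∏ k, 𝔼 y : Bool, (if x k = b ∧ y = !b then (0 : ℝ) else 1) := fun x =>
    expect_pi_prod (Ω := fun _ => Bool) fun k y => if x k = b ∧ y = !b then (0 : ℝ) else 1
  have h2 : 𝔼 x : Bool, 𝔼 y : Bool, (if x = b ∧ y = !b then (0 : ℝ) else 1) = 3 / 4 := by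
    simp only [Fintype.expect_eq_sum_div_card]
    cases b <;> simp <;> norm_num
  simp only [h1]
  rw [expect_pi_prod (Ω := fun _ => Bool) fun _ x => 𝔼 y : Bool,
    (if x = b ∧ y = !b then (0 : ℝ) else 1)]
  simp only [h2, prod_const, card_univ, Fintype.card_fin]

open Classical in
theorem big_EGCollY (m M A len r d : ℕ) (hd : 1 ≤ d) (hc : Nat.Coprime d (2 * m * M))
    (hlen : d ≤ len) (hr : d ≤ 2 ^ r) :
    𝔼 t : Fin r → Fin len, 𝔼 q : (Fin r → Bool) × (Fin r → Bool),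
      ∑ g ∈ d.divisors.filter (fun g => d < g ^ 2),
        (if IsCoprime (g : ℤ) (base fun k => mz m M (A + t k)).norm ∧
          (g : O m) ∣ cube (fun k => mz m M (A + t k)) q.1 - cube (fun k => mz m M (A + t k)) q.2
          then (1 : ℝ) else 0) ≤ 3 * (d.divisors.card : ℝ) * (d : ℝ) ^ (-1 / 6 : ℝ) := by
  have h0 : (0 : ℝ) < d := by exact_mod_cast hd
  simp only [expect_sum_comm]
  refine (sum_le_card_nsmul _ _ (3 * (d : ℝ) ^ (-1 / 6 : ℝ)) fun g hg => ?_).trans ?_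
  · obtain ⟨h1, h2⟩ := mem_filter.1 hg
    have h3 := Nat.dvd_of_mem_divisors h1
    have h4 := Nat.le_of_dvd hd h3
    have h5 := Nat.pos_of_mem_divisors h1
    refine le_trans (le_of_eq (expect_congr rfl fun t _ => ?_))
      ((collX m M A len r g h5 (hc.coprime_dvd_left h3) (h4.trans hlen) (h4.trans hr)).trans ?_)
    · rw [cX]
      split_ifs with h
      · simp only [h, true_and]
      · simp only [h, false_and, if_false, expect_const_zero]
    · have h6 : (d : ℝ) ^ (1 / 6 : ℝ) ≤ g := by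
        have h7 : (d : ℝ) ≤ g ^ 6 := by
          exact_mod_cast h2.le.trans (Nat.pow_le_pow_right h5 (by norm_num))
        refine (Real.rpow_le_rpow h0.le h7 (by norm_num)).trans (le_of_eq ?_)
        rw [← Real.rpow_natCast, ← Real.rpow_mul (by positivity)]
        norm_num
      rw [show (-1 / 6 : ℝ) = -(1 / 6) by norm_num, Real.rpow_neg h0.le, ← div_eq_mul_inv]
      exact div_le_div_of_nonneg_left (by norm_num) (by positivity) h6
  · have h1 : ((d.divisors.filter fun g => d < g ^ 2).card : ℝ) ≤ d.divisors.card := by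
      exact_mod_cast card_filter_le _ _
    rw [nsmul_eq_mul, mul_comm 3 (d.divisors.card : ℝ), mul_assoc]
    exact mul_le_mul_of_nonneg_right h1 (by positivity)

open Classical in
theorem one_EGCollY (m M A len r d : ℕ) (hd : 1 ≤ d) (hc : Nat.Coprime d (2 * m * M))
    (hlen : d ≤ len) (z2 : Fin r → O m) (a b : (Fin r → Bool) × (Fin r → Bool)) :
    𝔼 t : Fin r → Fin len,
      (if IsCoprime (d : ℤ) ((base fun k => mz m M (A + t k)).norm * (base z2).norm) ∧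
          (d : O m) ∣ yy (fun k => mz m M (A + t k)) z2 (a.1, b.1) -
            yy (fun k => mz m M (A + t k)) z2 (a.2, b.2) then (1 : ℝ) else 0) ≤
      (∏ k, (if a.1 k = true ∧ a.2 k = !true then (0 : ℝ) else 1) +
        ∏ k, (if a.1 k = false ∧ a.2 k = !false then (0 : ℝ) else 1)) +
      (12 * (d : ℝ) ^ (-7 / 6 : ℝ) + 2 / d * ∑ g ∈ d.divisors.filter (fun g => d < g ^ 2),
        (if IsCoprime (g : ℤ) (base z2).norm ∧ (g : O m) ∣ cube z2 b.1 - cube z2 b.2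
          then (1 : ℝ) else 0)) := by
  have : Nonempty (Fin len) := ⟨⟨0, by omega⟩⟩
  have p0 : ∀ c : Bool, 0 ≤ ∏ k, (if a.1 k = c ∧ a.2 k = !c then (0 : ℝ) else 1) := fun c =>
    prod_nonneg fun k _ => by split_ifs <;> norm_num
  have p1 : ∀ c : Bool, (¬ ∃ k, a.1 k = c ∧ a.2 k = !c) →
      ∏ k, (if a.1 k = c ∧ a.2 k = !c then (0 : ℝ) else 1) = 1 := fun c h =>
    prod_eq_one fun k _ => if_neg fun h1 => h ⟨k, h1⟩
  have s0 : ∀ g ∈ d.divisors.filter (fun g => d < g ^ 2),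
      0 ≤ (if IsCoprime (g : ℤ) (base z2).norm ∧ (g : O m) ∣ cube z2 b.1 - cube z2 b.2
        then (1 : ℝ) else 0) := fun g _ => by split_ifs <;> norm_num
  have s1 := sum_nonneg s0
  have d0 : (0 : ℝ) ≤ 2 / d := by positivity
  have d1 : 0 ≤ 12 * (d : ℝ) ^ (-7 / 6 : ℝ) := by positivity
  have s2 := mul_nonneg d0 s1
  have one : ∀ {c : (Fin r → Fin len) → Prop} [DecidablePred c],
      𝔼 t : Fin r → Fin len, (if c t then (1 : ℝ) else 0) ≤ 1 := fun {c} _ =>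
    expect_le univ_nonempty fun t _ => by split_ifs <;> norm_num
  by_cases hj : ∃ k, a.1 k = true ∧ a.2 k = !true
  swap
  · refine one.trans ?_
    linarith [p1 _ hj, p0 false]
  by_cases hi : ∃ k, a.1 k = false ∧ a.2 k = !false
  swap
  · refine one.trans ?_
    linarith [p1 _ hi, p0 true]
  refine le_add_of_nonneg_of_le (add_nonneg (p0 _) (p0 _)) ?_
  by_cases hZ : IsCoprime (d : ℤ) (base z2).norm
  swap
  · rw [expect_eq_zero fun t _ => if_neg fun h => hZ h.1.of_mul_right_right]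
    linarith
  obtain ⟨j, hj⟩ := hj
  obtain ⟨i, hi⟩ := hi
  refine le_trans (expect_le_expect fun t _ => ?_)
    ((collY_fixed m M A len r d hd hc hlen (base z2) (cube z2 b.2 - cube z2 b.1) hZ a.1 a.2 i j
      hj hi).trans ?_)
  · split_ifs with h1 h2
    · exact le_rfl
    · refine absurd ⟨h1.1.of_mul_right_left, h1.2.trans (dvd_of_eq ?_)⟩ h2
      simp only [yy]
      ring
    · exact zero_le_one
    · exact le_rfl
  · generalize hV : cube z2 b.2 - cube z2 b.1 = V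
    split_ifs with h
    · linarith
    · have h1 : ((Int.gcd (Int.gcd V.re V.im) d : ℕ) : ℤ) ∣ d := Int.gcd_dvd_right _ _
      have h2 := single_le_sum s0 (a := Int.gcd (Int.gcd V.re V.im) d) (mem_filter.2
        ⟨Nat.mem_divisors.2 ⟨Int.natCast_dvd_natCast.1 h1, by omega⟩, not_le.1 h⟩)
      have h3 : ((Int.gcd (Int.gcd V.re V.im) d : ℕ) : O m) ∣ cube z2 b.1 - cube z2 b.2 := by
        rw [← dvd_neg, neg_sub, hV, nat_dvd_iff]
        exact ⟨(Int.gcd_dvd_left _ _).trans (Int.gcd_dvd_left _ _),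
          (Int.gcd_dvd_left _ _).trans (Int.gcd_dvd_right _ _)⟩
      rw [if_pos ⟨IsCoprime.of_isCoprime_of_dvd_left hZ h1, h3⟩] at h2
      linarith [mul_le_mul_of_nonneg_left h2 d0]

/-- L10, two cubes. -/
theorem collY (m M A len r d : ℕ) (hd : 1 ≤ d) (hc : Nat.Coprime d (2 * m * M)) (hlen : d ≤ len)
    (hr : (d : ℝ) ^ 3 ≤ (4 / 3 : ℝ) ^ r) :
    𝔼 q : (Fin r → Fin len) × (Fin r → Fin len),
      cY d (fun i => mz m M (A + q.1 i)) (fun i => mz m M (A + q.2 i)) ≤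
      30 * (d.divisors.card : ℝ) * (d : ℝ) ^ (-7 / 6 : ℝ) := by
  classical
  have : Nonempty (Fin len) := ⟨⟨0, by omega⟩⟩
  have h0 : (0 : ℝ) < d := by exact_mod_cast hd
  have h1 : (1 : ℝ) ≤ d := by exact_mod_cast hd
  have hr2 : d ≤ 2 ^ r := by
    have := (le_self_pow₀ h1 three_ne_zero).trans
      (hr.trans (pow_le_pow_left₀ (by norm_num) (by norm_num : (4 / 3 : ℝ) ≤ 2) r))
    exact_mod_cast this
  have e1 : ∀ z1 z2 : Fin r → O m, cY d z1 z2 =
      𝔼 a : (Fin r → Bool) × (Fin r → Bool), 𝔼 b : (Fin r → Bool) × (Fin r → Bool),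
        if IsCoprime (d : ℤ) ((base z1).norm * (base z2).norm) ∧
          (d : O m) ∣ yy z1 z2 (a.1, b.1) - yy z1 z2 (a.2, b.2) then (1 : ℝ) else 0 := by
    intro z1 z2
    rw [cY]
    split_ifs with h
    · simp only [h, true_and]
      refine Eq.trans (Fintype.expect_equiv (Equiv.prodProdProdComm _ _ _ _) _ (fun q =>
        if (d : O m) ∣ yy z1 z2 (q.1.1, q.2.1) - yy z1 z2 (q.1.2, q.2.2) then (1 : ℝ) else 0)
        fun q => ?_) (prod_EGCollY _)
      rfl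
    · simp only [h, false_and, if_false, expect_const_zero]
  rw [prod_EGCollY, expect_comm]
  simp only [e1]
  have e2 := big_EGCollY m M A len r d hd hc hlen hr2
  have e3 : (3 / 4 : ℝ) ^ r ≤ (d : ℝ) ^ (-7 / 6 : ℝ) := by
    refine le_trans ?_ (Real.rpow_le_rpow_of_exponent_le h1 (by norm_num : (-3 : ℝ) ≤ -7 / 6))
    rw [Real.rpow_neg h0.le, show (3 / 4 : ℝ) = (4 / 3)⁻¹ by norm_num, inv_pow]
    exact inv_anti₀ (by positivity) (by exact_mod_cast hr)
  have e4 : (1 : ℝ) ≤ d.divisors.card := by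
    exact_mod_cast card_pos.2 ⟨1, Nat.one_mem_divisors.2 (by omega)⟩
  have e5 : (d : ℝ) ^ (-7 / 6 : ℝ) = (d : ℝ) ^ (-1 / 6 : ℝ) / d := by
    rw [show (-7 / 6 : ℝ) = -1 / 6 - 1 by norm_num, Real.rpow_sub_one h0.ne']
  refine (expect_le_expect fun t _ => (expect_comm _ _ _).trans_le (expect_le_expect fun a _ =>
    (expect_comm _ _ _).trans_le (expect_le_expect fun b _ =>
      one_EGCollY m M A len r d hd hc hlen _ a b))).trans ?_
  simp only [expect_add_distrib, Fintype.expect_const, bad_EGCollY, ← mul_expect]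
  have e6 : 0 < (d : ℝ) ^ (-7 / 6 : ℝ) := by positivity
  have e7 := mul_le_mul_of_nonneg_left e2 (by positivity : 0 ≤ 2 / (d : ℝ))
  rw [show 2 / (d : ℝ) * (3 * (d.divisors.card : ℝ) * (d : ℝ) ^ (-1 / 6 : ℝ)) =
    6 * (d.divisors.card : ℝ) * (d : ℝ) ^ (-7 / 6 : ℝ) by rw [e5]; ring] at e7
  nlinarith

end Pool.Agent.P.MP_b75a1e_co.EG
end

-- part Pool.Agent.P.MP_b75a1e_co.EGMinor
section

set_option autoImplicit false

open Finset
open scoped BigOperators ComplexConjugate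

namespace Pool.Agent.P.MP_b75a1e_co.EG

theorem mono_EGMinor {m : ℕ} {θ : ℂ} {H H' X : ℝ} (h : Low m θ H X) (hH : H ≤ H') :
    Low m θ H' X := by
  obtain ⟨w, a, h1, h2, h3⟩ := h
  exact ⟨w, a, h1, h2.trans hH, h3.trans hH⟩

theorem prod_EGMinor {m J : ℕ} (g : ℕ → O m) (U : ℕ → Finset (O m)) (θ : ℂ) {j : ℕ} (hj : j ≤ J)
    {c : ℝ} (h : ‖blk (U j) (g j) θ‖ ≤ c ∨ ‖blk (U j) (g j) (conj θ)‖ ≤ c) :
    ∏ i : Fin (J + 1), (‖blk (U i) (g i) θ‖ * ‖blk (U i) (g i) (conj θ)‖) ^ 600 ≤ c ^ 600 := by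
  have h1 : ∀ i θ, ‖blk (U i) (g i) θ‖ ≤ 1 := fun i θ => norm_ch_le _ _
  rw [← mul_prod_erase univ _ (mem_univ (⟨j, Nat.lt_succ_of_le hj⟩ : Fin (J + 1)))]
  refine (mul_le_of_le_one_right (by positivity) (prod_le_one (fun _ _ => by positivity)
    fun i _ => pow_le_one₀ (by positivity) (mul_le_one₀ (h1 _ _) (norm_nonneg _) (h1 _ _)))).trans
    (pow_le_pow_left₀ (by positivity) ?_ 600)
  rcases h with h | h
  · exact (mul_le_of_le_one_right (norm_nonneg _) (h1 _ _)).trans h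
  · exact (mul_le_of_le_one_left (norm_nonneg _) (h1 _ _)).trans h

open Classical in
/-- L7: the minor arcs. -/
theorem minor (m p J Mg : ℕ) (hm : 1 ≤ m) (hp : 1 ≤ p) (lam : ℕ → ℝ) (g : ℕ → O m)
    (U : ℕ → Finset (O m)) (s NN0 : ℝ) (hs : 1 ≤ s) (h0 : 0 < NN0)
    (hMg : (Mg : ℝ) ≤ 9 * p * Real.sqrt NN0)
    (hj : ∀ j ≤ J, IsCoprime (g j) (star (g j)) ∧ NN0 ≤ (g j).norm * lam j ^ 200 ∧
      (g j).norm * lam j ^ 200 ≤ 2 * NN0 ∧ 10 ^ 4 * s ^ 2 * m ≤ lam j ∧ 100 * (m : ℝ) ^ 3 ≤ lam j ∧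
      400 * (p : ℝ) ^ 2 ≤ lam j ∧ 10 * ((J : ℝ) + 1) ≤ lam j ∧
      (∀ u ∈ U j, ‖ph m u‖ ≤ s * lam j ^ 50) ∧ lam j ^ 99 ≤ (U j).card)
    (hch : ∀ j < J, lam (j + 1) ^ 121 ≤ lam j ^ 139) (htop : ((g J).norm : ℝ) ≤ lam J ^ 50) :
    ∑ n ∈ (grid Mg).filter (fun n => ¬ Low m (gp m Mg n) (lam 0 ^ 121) NN0),
      ∏ j : Fin (J + 1), (‖blk (U j) (g j) (gp m Mg n)‖ * ‖blk (U j) (g j) (conj (gp m Mg n))‖) ^ 600
        ≤ 1 / 10 := by
  obtain ⟨φ, hφ⟩ : ∃ φ : ℤ × ℤ → ℕ, ∀ n, ¬ Low m (gp m Mg n) (lam 0 ^ 121) NN0 → φ n ≤ J ∧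
      ¬ Low m (gp m Mg n) (lam (φ n) ^ 121) NN0 ∧
        (φ n < J → Low m (gp m Mg n) (lam (φ n) ^ 139) NN0) :=
    ⟨fun n => Nat.findGreatest (fun j => ¬ Low m (gp m Mg n) (lam j ^ 121) NN0) J, fun n hn =>
      ⟨Nat.findGreatest_le J, Nat.findGreatest_spec
        (P := fun j => ¬ Low m (gp m Mg n) (lam j ^ 121) NN0) (Nat.zero_le J) hn, fun h =>
          mono_EGMinor (not_not.1 (Nat.findGreatest_is_greatest
            (P := fun j => ¬ Low m (gp m Mg n) (lam j ^ 121) NN0) (Nat.lt_succ_self _) h))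
            (hch _ h)⟩⟩
  rw [← sum_fiberwise_of_maps_to (t := range (J + 1)) (g := φ) fun n hn =>
    mem_range.2 (Nat.lt_succ_of_le (hφ n (mem_filter.1 hn).2).1)]
  refine (sum_le_card_nsmul _ _ (1 / (10 * ((J : ℝ) + 1))) fun j hj' => ?_).trans (le_of_eq ?_)
  swap
  · rw [card_range, nsmul_eq_mul]
    push_cast
    field_simp
  have hJ := Nat.le_of_lt_succ (mem_range.1 hj')
  obtain ⟨a1, a2, a3, a4, a5, a6, a7, a8, a9⟩ := hj j hJ
  have hJ0 : (0 : ℝ) ≤ J := Nat.cast_nonneg J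
  have hl1 : 1 ≤ lam j := by linarith
  have hl0 : 0 < lam j := by linarith
  have hb := fun β => block m hm (U j) s (lam j) β hs a4 a8 a9
  refine (sum_le_card_nsmul _ _ ((1 / lam j) ^ 600) fun n hn => ?_).trans ?_
  · obtain ⟨h1, rfl⟩ := mem_filter.1 hn
    obtain ⟨-, h2, h3⟩ := hφ n (mem_filter.1 h1).2
    refine prod_EGMinor g U _ hJ ?_
    rcases hJ.lt_or_eq with h | h
    · exact (versions m hm _ a1 _ _ NN0 a5 h0 a2 a3 (h3 h) h2).imp (hb _) (hb _)
    · exact Or.inl (hb _ (version_top m hm _ _ _ NN0 a5 h0 a2 (h ▸ htop) h2))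
  have hc : ((((grid Mg).filter fun n => ¬ Low m (gp m Mg n) (lam 0 ^ 121) NN0).filter
      fun n => φ n = j).card : ℝ) ≤ lam j ^ 599 := by
    rcases hJ.lt_or_eq with h | h
    · refine le_trans (Nat.cast_le.2 (card_le_card fun n hn => ?_))
        ((count_near m p Mg hm hp (lam j ^ 139) NN0 (one_le_pow₀ hl1) h0 hMg).trans ?_)
      · obtain ⟨h1, rfl⟩ := mem_filter.1 hn
        exact mem_filter.2 ⟨(mem_filter.1 h1).1,
          near_of_low m hm _ _ _ h0.le ((hφ n (mem_filter.1 h1).2).2.2 h)⟩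
      · rw [← pow_mul]
        refine (mul_le_mul_of_nonneg_right a6 (by positivity)).trans ?_
        rw [← pow_succ']
        exact pow_le_pow_right₀ hl1 (by norm_num)
    · refine le_trans (Nat.cast_le.2 ((card_filter_le _ _).trans (card_filter_le _ _))) ?_
      have h1 : ((grid Mg).card : ℝ) = (Mg : ℝ) ^ 2 := by
        simp [grid, sq]
      have h2 := pow_le_pow_left₀ (Nat.cast_nonneg Mg) hMg 2
      rw [mul_pow, Real.sq_sqrt h0.le] at h2
      have h3 : NN0 ≤ lam j ^ 50 * lam j ^ 200 :=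
        a2.trans (mul_le_mul_of_nonneg_right (h ▸ htop) (by positivity))
      have h4 : (9 * (p : ℝ)) ^ 2 ≤ lam j := by nlinarith [sq_nonneg (p : ℝ)]
      rw [h1]
      refine (h2.trans (mul_le_mul h4 h3 h0.le hl0.le)).trans ?_
      rw [← pow_add, ← pow_succ']
      exact pow_le_pow_right₀ hl1 (by norm_num)
  rw [nsmul_eq_mul]
  refine (mul_le_mul_of_nonneg_right hc (by positivity)).trans ?_
  have e : lam j ^ 599 * (1 / lam j) ^ 600 = 1 / lam j := by field_simp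
  rw [e]
  exact one_div_le_one_div_of_le (by positivity) a7

end Pool.Agent.P.MP_b75a1e_co.EG
end

-- part Pool.Agent.P.MP_b75a1e_co.EGRegion
section

set_option autoImplicit false

open Finset
open scoped BigOperators ComplexConjugate

namespace Pool.Agent.P.MP_b75a1e_co.EG

lemma split_EGRegion (Y d : ℕ) (hd : d ≠ 0) : ∃ u v, d = u * v ∧ Smo Y u ∧ Rough Y v := by
  induction d using induction_on_primes with
  | zero => exact absurd rfl hd
  | one =>
    refine ⟨1, 1, rfl, fun l hl h => ?_, fun l hl h => ?_⟩ <;>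
      exact absurd (Nat.dvd_one.1 h) hl.ne_one
  | prime_mul p a hp ih =>
    obtain ⟨u, v, e, hu, hv⟩ := ih (fun h => hd (by rw [h, mul_zero]))
    rcases le_or_gt p Y with g | g
    · refine ⟨p * u, v, by rw [e]; ring, fun l hl h => ?_, hv⟩
      rcases (Nat.Prime.dvd_mul hl).1 h with h | h
      · rw [(Nat.prime_dvd_prime_iff_eq hl hp).1 h]; exact g
      · exact hu l hl h
    · refine ⟨u, p * v, by rw [e]; ring, hu, fun l hl h => ?_⟩
      rcases (Nat.Prime.dvd_mul hl).1 h with h | h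
      · rw [(Nat.prime_dvd_prime_iff_eq hl hp).1 h]; exact g
      · exact hv l hl h

lemma mem_grid_EGRegion {N : ℕ} {n : ℤ × ℤ} :
    n ∈ grid N ↔ (0 ≤ n.1 ∧ n.1 < N) ∧ (0 ≤ n.2 ∧ n.2 < N) := by
  simp [grid, mem_product, mem_Ico]

lemma mem_sqr_EGRegion {V : ℕ} {c : ℤ × ℤ} : c ∈ sqr V ↔ |c.1| ≤ V ∧ |c.2| ≤ V := by
  simp [sqr, mem_product, mem_Icc, abs_le]

/-- Reduction of a numerator modulo the denominator. -/
lemma reduce_EGRegion (m N : ℕ) (hN : 1 ≤ N) (x : O m) :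
    ∃ k ∈ grid N, ∃ a : O m, x = ⟨k.1, k.2⟩ + (N : O m) * a := by
  have h : (0 : ℤ) < N := by exact_mod_cast hN
  refine ⟨(x.re % N, x.im % N), mem_grid_EGRegion.2
    ⟨⟨Int.emod_nonneg _ h.ne', Int.emod_lt_of_pos _ h⟩, Int.emod_nonneg _ h.ne',
      Int.emod_lt_of_pos _ h⟩, ⟨x.re / N, x.im / N⟩, ?_⟩
  ext
  · simp [Int.emod_add_mul_ediv]
  · simp [Int.emod_add_mul_ediv]

lemma gp_re_EGRegion (m N : ℕ) (n : ℤ × ℤ) : (gp m N n).re = n.1 / N := by
  unfold gp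
  rw [Complex.div_natCast_re, ph_re]

lemma gp_im_EGRegion (m N : ℕ) (n : ℤ × ℤ) : (gp m N n).im = n.2 / N * Real.sqrt m := by
  unfold gp
  rw [Complex.div_natCast_im, ph_im]
  ring

/-- A fraction that is not deep is the sum of a rough fraction and a fraction with denominator `Q`. -/
lemma frac_EGRegion (m Y Q : ℕ) (hQ : 1 ≤ Q) (β : O m) (d : ℕ) (h1 : 1 ≤ d) (hp : PrimAt β d)
    (hd : ¬ Deep Y Q d) : ∃ (v : ℕ) (b k : ℤ × ℤ) (a : O m), 1 ≤ v ∧ v ≤ d ∧ Rough Y v ∧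
      b ∈ grid v ∧ PrimAt (⟨b.1, b.2⟩ : O m) v ∧ k ∈ grid Q ∧
      ph m β / d = gp m v b + gp m Q k + ph m a := by
  obtain ⟨u, v, e, hu, hv⟩ := split_EGRegion Y d (by omega)
  have u0 : u ≠ 0 := fun h => by rw [h, zero_mul] at e; omega
  have v0 : v ≠ 0 := fun h => by rw [h, mul_zero] at e; omega
  have uQ : u ∣ Q := by
    refine (Nat.dvd_iff_prime_pow_dvd_dvd Q u).2 fun l j hl h => ?_
    rcases Nat.eq_zero_or_pos j with rfl | j0
    · simp
    · by_contra g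
      exact hd ⟨l, j, hl, hu l hl ((dvd_pow_self l j0.ne').trans h), h.trans ⟨v, e⟩, g⟩
  obtain ⟨t, ht⟩ := uQ
  have cop : Nat.Coprime u v := by
    refine Nat.coprime_of_dvd fun l hl a b => ?_
    have := hu l hl a
    have := hv l hl b
    omega
  obtain ⟨x, y, hxy⟩ := Nat.isCoprime_iff_coprime.2 cop
  obtain ⟨b, hb, a1, e1⟩ := reduce_EGRegion m v (by omega) (β * (x : O m))
  obtain ⟨k, hk, a2, e2⟩ := reduce_EGRegion m Q hQ (β * (y : O m) * (t : O m))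
  refine ⟨v, b, k, a1 + a2, by omega, by rw [e]; exact Nat.le_mul_of_pos_left v (by omega), hv, hb,
    fun l hl h g => ?_, hk, ?_⟩
  · refine hp l hl (h.trans ⟨u, by rw [e]; ring⟩) ?_
    have g1 : (l : O m) ∣ β * (x : O m) := by
      rw [e1]
      exact dvd_add g (Dvd.dvd.mul_right (Nat.cast_dvd_cast h) _)
    have g2 : (l : O m) ∣ β * (y : O m) * (v : O m) := Dvd.dvd.mul_left (Nat.cast_dvd_cast h) _
    have g3 : ((x * u + y * v : ℤ) : O m) = 1 := by rw [hxy]; simp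
    push_cast at g3
    have : β = β * (x : O m) * (u : O m) + β * (y : O m) * (v : O m) := by
      linear_combination (-β) * g3
    rw [this]
    exact dvd_add (g1.mul_right _) g2
  · have f1 := congrArg (ph m) e1
    have f2 := congrArg (ph m) e2
    have g3 : ((x * u + y * v : ℤ) : ℂ) = 1 := by rw [hxy]; simp
    simp only [map_add, map_mul, map_natCast, map_intCast] at f1 f2 ⊢
    push_cast at g3
    have u1 : (u : ℂ) ≠ 0 := by exact_mod_cast u0
    have v1 : (v : ℂ) ≠ 0 := by exact_mod_cast v0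
    have t1 : (t : ℂ) ≠ 0 := by
      have : t ≠ 0 := fun h => by rw [h, mul_zero] at ht; omega
      exact_mod_cast this
    unfold gp
    rw [e, ht] at *
    push_cast at *
    field_simp
    linear_combination (-(t : ℂ) * u) * f1 * (-1) + (-(v : ℂ)) * f2 * (-1) - ph m β * t * g3

lemma small_EGRegion {z : ℂ} {H N : ℝ} (h0 : 0 < N) (h : ‖z‖ ^ 2 * N ≤ H) :
    ‖z‖ ≤ Real.sqrt (H / N) :=
  Real.le_sqrt_of_sq_le (by rwa [le_div_iff₀ h0])

lemma coord_EGRegion {Mg V : ℕ} {E x y : ℝ} {c : ℤ} (hMg : 1 ≤ Mg) (hV : Mg * E + 1 ≤ V)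
    (hx : |x| ≤ E) (e : (c : ℝ) = Mg * x + (y - round y)) : |c| ≤ V := by
  have a := abs_sub_round y
  have b : |(c : ℝ)| ≤ V := by
    have M0 : (0 : ℝ) < Mg := by exact_mod_cast hMg
    have := abs_add_le (Mg * x) (y - round y)
    rw [abs_mul, abs_of_pos M0] at this
    have := mul_le_mul_of_nonneg_left hx M0.le
    rw [e]
    linarith
  exact_mod_cast b

/-- A grid point near a fraction whose denominator is not deep is a main point, or it lies next to a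
fraction with a rough denominator. -/
theorem classify (m Y Q Mg V : ℕ) (H NN0 : ℝ) (hm : 1 ≤ m) (hQ : 1 ≤ Q) (hMg : 1 ≤ Mg) (hQM : Q ∣ Mg)
    (h0 : 0 < NN0) (hV : Mg * Real.sqrt (H / NN0) + 1 ≤ V) (n : ℤ × ℤ) (hn : n ∈ grid Mg) (β : O m)
    (d : ℕ) (h : Near m (gp m Mg n) β d H NN0) (hd : ¬ Deep Y Q d) :
    (∃ q ∈ grid Q ×ˢ sqr V, mi Q Mg q = n) ∨
      ∃ (d' : ℕ) (b : ℤ × ℤ) (k c : ℤ × ℤ) (a a' : O m), 1 < d' ∧ (d' : ℝ) ≤ H ∧ Rough Y d' ∧
        b ∈ grid d' ∧ PrimAt (⟨b.1, b.2⟩ : O m) d' ∧ k ∈ grid Q ∧ c ∈ sqr V ∧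
        gp m Mg n = gp m Mg (round ((Mg : ℝ) * b.1 / d'), round ((Mg : ℝ) * b.2 / d')) +
          mp m Q Mg k c + ph m a ∧
        ‖gp m Mg n - (gp m d' b + gp m Q k + ph m a')‖ ^ 2 * NN0 ≤ H := by
  obtain ⟨d1, dH, hp, hz⟩ := h
  obtain ⟨v, b, k, a, v1, vd, hv, hb, hpb, hk, e⟩ := frac_EGRegion m Y Q hQ β d d1 hp hd
  rw [e] at hz
  obtain ⟨s, hs⟩ := hQM
  have sm := small_EGRegion h0 hz
  have M0 : (Mg : ℝ) ≠ 0 := by exact_mod_cast (show Mg ≠ 0 by omega)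
  have Q0 : (Q : ℝ) ≠ 0 := by exact_mod_cast (show Q ≠ 0 by omega)
  have hs' : (Mg : ℝ) = Q * s := by exact_mod_cast hs
  have sq1 : 1 ≤ Real.sqrt m := Real.one_le_sqrt.2 (by exact_mod_cast hm)
  set ρ1 : ℤ := round ((Mg : ℝ) * b.1 / v) with hρ1
  set ρ2 : ℤ := round ((Mg : ℝ) * b.2 / v) with hρ2
  set c : ℤ × ℤ := (n.1 - ρ1 - k.1 * s - Mg * a.re, n.2 - ρ2 - k.2 * s - Mg * a.im) with hc
  have kq : ∀ x : ℝ, (Mg : ℝ) * (x / Q) = x * s := fun x => by rw [hs']; field_simp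
  have km : ∀ x : ℝ, (Mg : ℝ) * (x / Mg) = x := fun x => by field_simp
  have hcV : c ∈ sqr V := by
    refine mem_sqr_EGRegion.2 ⟨?_, ?_⟩
    · have r := (Complex.abs_re_le_norm _).trans sm
      simp only [Complex.sub_re, Complex.add_re, gp_re_EGRegion, ph_re] at r
      refine coord_EGRegion (y := (Mg : ℝ) * b.1 / v) hMg hV r ?_
      simp only [hc, ← hρ1, mul_sub, mul_add, kq, km]
      push_cast
      ring
    · have r := (Complex.abs_im_le_norm _).trans sm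
      simp only [Complex.sub_im, Complex.add_im, gp_im_EGRegion, ph_im] at r
      have r' : |(n.2 : ℝ) / Mg - (b.2 / v + k.2 / Q + a.im)| ≤ Real.sqrt (H / NN0) := by
        refine le_trans ?_ r
        rw [show (n.2 : ℝ) / Mg * Real.sqrt m - (b.2 / v * Real.sqrt m + k.2 / Q * Real.sqrt m +
          a.im * Real.sqrt m) = (n.2 / Mg - (b.2 / v + k.2 / Q + a.im)) * Real.sqrt m by ring,
          abs_mul, abs_of_nonneg (Real.sqrt_nonneg _)]
        exact le_mul_of_one_le_right (abs_nonneg _) sq1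
      refine coord_EGRegion (y := (Mg : ℝ) * b.2 / v) hMg hV r' ?_
      simp only [hc, ← hρ2, mul_sub, mul_add, kq, km]
      push_cast
      ring
  rcases eq_or_lt_of_le v1 with g | g
  · left
    refine ⟨(k, c), mem_product.2 ⟨hk, hcV⟩, ?_⟩
    subst g
    obtain ⟨⟨b1, b2⟩, b3, b4⟩ := mem_grid_EGRegion.1 hb
    obtain ⟨⟨n1, n2⟩, n3, n4⟩ := mem_grid_EGRegion.1 hn
    have z1 : ρ1 = 0 := by rw [hρ1, show b.1 = 0 by omega]; simp
    have z2 : ρ2 = 0 := by rw [hρ2, show b.2 = 0 by omega]; simp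
    have es : Mg / Q = s := by rw [hs]; exact Nat.mul_div_cancel_left s (by omega)
    unfold mi red
    simp only [es, hc, z1, z2]
    ext
    · show (k.1 * s + (n.1 - 0 - k.1 * s - Mg * a.re)) % Mg = n.1
      rw [show k.1 * s + (n.1 - 0 - k.1 * s - Mg * a.re) = n.1 + Mg * (-a.re) by ring,
        Int.add_mul_emod_self_left, Int.emod_eq_of_lt n1 n2]
    · show (k.2 * s + (n.2 - 0 - k.2 * s - Mg * a.im)) % Mg = n.2
      rw [show k.2 * s + (n.2 - 0 - k.2 * s - Mg * a.im) = n.2 + Mg * (-a.im) by ring,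
        Int.add_mul_emod_self_left, Int.emod_eq_of_lt n3 n4]
  · right
    refine ⟨v, b, k, c, a, a, g, le_trans (by exact_mod_cast vd) dH, hv, hb, hpb, hk, hcV, ?_, hz⟩
    have s0 : (s : ℝ) ≠ 0 := fun x => M0 (by rw [hs', x, mul_zero])
    unfold mp
    apply Complex.ext
    · simp only [Complex.add_re, gp_re_EGRegion, ph_re, hc, ← hρ1]
      push_cast
      rw [hs']
      field_simp
      ring
    · simp only [Complex.add_im, gp_im_EGRegion, ph_im, hc, ← hρ2]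
      push_cast
      rw [hs']
      field_simp
      ring

lemma norm_expect_EGRegion {Ω : Type} [Fintype Ω] (f : Ω → ℂ) {C : ℝ} (hC : 0 ≤ C)
    (h : ∀ ω, ‖f ω‖ ≤ C) : ‖𝔼 ω, f ω‖ ≤ C := by
  rcases isEmpty_or_nonempty Ω with e | e
  · simp [hC]
  · exact (RCLike.norm_expect_le (K := ℂ)).trans (expect_le univ_nonempty fun ω _ => h ω)

/-- The characteristic function of a small multiple of `Q` near a shifted fraction. -/
lemma chZ_EGRegion (m Q : ℕ) (hm : 1 ≤ m) (hQ : 1 ≤ Q) {Ω : Type} [Fintype Ω] (Z : Ω → O m)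
    {R E : ℝ} (hR : 0 ≤ R) (hZ : ∀ ω, (Q : O m) ∣ Z ω ∧ ‖ph m (Z ω)‖ ≤ R) (θ θ0 : ℂ) (k : ℤ × ℤ)
    (a : O m) (h : ‖θ - (θ0 + gp m Q k + ph m a)‖ ≤ E) : ‖ch Z θ‖ ≤ ‖ch Z θ0‖ + 7 * (E * R) := by
  have E0 : 0 ≤ E := (norm_nonneg _).trans h
  have key : ‖ch Z θ - ch Z θ0‖ ≤ 7 * (E * R) := by
    unfold ch
    rw [← expect_sub_distrib]
    refine norm_expect_EGRegion _ (by positivity) fun ω => ?_
    obtain ⟨⟨y, hy⟩, hn⟩ := hZ ω
    have Q0 : (Q : ℝ) ≠ 0 := by exact_mod_cast (show Q ≠ 0 by omega)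
    have e1 : pr m (gp m Q k) (ph m (Z ω)) = (((⟨k.1, k.2⟩ : O m) * y).im : ℤ) := by
      have := pr_ph_div hm (⟨k.1, k.2⟩ : O m) (Z ω) Q
      unfold gp
      rw [Complex.ofReal_natCast] at this
      rw [this, hy, show (⟨k.1, k.2⟩ : O m) * ((Q : O m) * y) = (Q : O m) * (⟨k.1, k.2⟩ * y) by ring,
        div_eq_iff Q0]
      generalize (⟨k.1, k.2⟩ : O m) * y = w
      simp [mul_comm]
    have e2 : pr m (ph m a) (ph m (Z ω)) = ((a * Z ω).im : ℤ) := by
      have := pr_ph_div hm a (Z ω) 1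
      simpa using this
    have e3 : ee (pr m θ0 (ph m (Z ω))) = ee (pr m (θ0 + gp m Q k + ph m a) (ph m (Z ω))) := by
      rw [pr_add_left, pr_add_left, ee_add, ee_add, e1, e2, ee_int, ee_int, mul_one, mul_one]
    rw [e3]
    refine (norm_ee_sub _ _).trans ?_
    have e4 := pr_add_left (m := m) (θ - (θ0 + gp m Q k + ph m a)) (θ0 + gp m Q k + ph m a)
      (ph m (Z ω))
    rw [sub_add_cancel] at e4
    rw [e4, add_sub_cancel_right]
    have := (abs_pr_le hm (θ - (θ0 + gp m Q k + ph m a)) (ph m (Z ω))).trans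
      (mul_le_mul h hn (norm_nonneg _) E0)
    linarith
  have := norm_sub_norm_le (ch Z θ) (ch Z θ0)
  linarith

lemma gp_uniq_EGRegion {m Mg : ℕ} (hm : 1 ≤ m) (hMg : 1 ≤ Mg) {n n' : ℤ × ℤ} (hn : n ∈ grid Mg)
    (hn' : n' ∈ grid Mg) {A : ℂ} {a a' : O m} (h : gp m Mg n = A + ph m a)
    (h' : gp m Mg n' = A + ph m a') : n = n' := by
  obtain ⟨⟨n1, n2⟩, n3, n4⟩ := mem_grid_EGRegion.1 hn
  obtain ⟨⟨p1, p2⟩, p3, p4⟩ := mem_grid_EGRegion.1 hn'
  have M0 : (Mg : ℂ) ≠ 0 := by exact_mod_cast (show Mg ≠ 0 by omega)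
  have e : (⟨n.1, n.2⟩ : O m) = ⟨n'.1, n'.2⟩ + (Mg : O m) * (a - a') := by
    apply ph_inj hm
    unfold gp at h h'
    rw [div_eq_iff M0] at h h'
    simp only [map_add, map_mul, map_sub, map_natCast]
    rw [h, h']
    ring
  generalize a - a' = w at e
  have e1 := congrArg Zsqrtd.re e
  have e2 := congrArg Zsqrtd.im e
  simp at e1 e2
  have key : ∀ x y t : ℤ, 0 ≤ x → x < Mg → 0 ≤ y → y < Mg → x = y + Mg * t → x = y := by
    intro x y t a1 a2 a3 a4 a5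
    have := congrArg (· % (Mg : ℤ)) a5
    simp only [Int.add_mul_emod_self_left] at this
    rwa [Int.emod_eq_of_lt a1 a2, Int.emod_eq_of_lt a3 a4] at this
  exact Prod.ext (key _ _ _ n1 n2 p1 p2 e1) (key _ _ _ n3 n4 p3 p4 e2)

lemma sum_le_EGRegion {α β : Type} (S : Finset α) (T : Finset β) (f : α → ℝ) (F : β → ℝ)
    (R : β → α → Prop) (h : ∀ n ∈ S, ∃ t ∈ T, R t n ∧ f n ≤ F t)
    (hu : ∀ t, ∀ n ∈ S, ∀ n' ∈ S, R t n → R t n' → n = n') (hF : ∀ t ∈ T, 0 ≤ F t) :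
    ∑ n ∈ S, f n ≤ ∑ t ∈ T, F t := by
  classical
  choose! τ h1 h2 h3 using fun n : S => h n.1 n.2
  have inj : Function.Injective τ := fun x y e =>
    Subtype.ext (hu (τ x) _ x.2 _ y.2 (h2 x) (e ▸ h2 y))
  calc ∑ n ∈ S, f n = ∑ n : S, f n := (sum_coe_sort S f).symm
    _ ≤ ∑ n : S, F (τ n) := sum_le_sum fun n _ => h3 n
    _ = ∑ t ∈ univ.image τ, F t := (sum_image fun x _ y _ e => inj e).symm
    _ ≤ ∑ t ∈ T, F t := by
      refine sum_le_sum_of_subset_of_nonneg (fun t ht => ?_) fun t ht _ => hF t ht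
      obtain ⟨x, -, rfl⟩ := mem_image.1 ht
      exact h1 x

open Classical in
/-- The contribution of the points next to fractions with rough denominators. -/
theorem mid_region (m Y Q Mg V : ℕ) (H NN0 δ Mn : ℝ) {Ω Ω' : Type} [Fintype Ω] [Fintype Ω']
    (X Xt : Ω → O m) (Z : Ω' → O m) (W : ℕ → ℝ) (hm : 1 ≤ m) (hQ : 1 ≤ Q) (hMg : 1 ≤ Mg)
    (hQM : Q ∣ Mg) (hH : 1 ≤ H) (h0 : 0 < NN0) (hδ0 : 0 ≤ δ) (hδ : δ * H ^ 4 ≤ 1 / 10 ^ 4)
    (hV : Mg * Real.sqrt (H / NN0) + 1 ≤ V)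
    (hZ : ∀ ω, (Q : O m) ∣ Z ω ∧ ‖ph m (Z ω)‖ ≤ δ * Real.sqrt NN0)
    (hX : ∑ k ∈ grid Q, ∑ c ∈ sqr (2 * V), ‖ch X (mp m Q Mg k c)‖ ^ 2 ≤ Mn)
    (hXt : ∑ k ∈ grid Q, ∑ c ∈ sqr (2 * V), ‖ch Xt (mp m Q Mg k c)‖ ^ 2 ≤ 2 * Mn)
    (h3 : ∀ (d : ℕ) (β : O m), 1 < d → (d : ℝ) ≤ H → Rough Y d → PrimAt β d →
      ‖ch Z (ph m β / d)‖ ≤ W d) (hW0 : ∀ d, 0 ≤ W d)
    (h4 : ∑ d ∈ (Icc 2 ⌊H⌋₊).filter (Rough Y), (d : ℝ) ^ 2 * W d ≤ 1 / 100) :
    ∑ n ∈ (grid Mg).filter (fun n => (∃ (β : O m) (d : ℕ), Near m (gp m Mg n) β d H NN0 ∧ ¬ Deep Y Q d) ∧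
        ¬ ∃ q ∈ grid Q ×ˢ sqr V, mi Q Mg q = n),
      ‖ch X (gp m Mg n)‖ * ‖ch Xt (gp m Mg n)‖ * ‖ch Z (gp m Mg n)‖ ≤ Mn / 10 := by
  set D := (Icc 2 ⌊H⌋₊).filter (Rough Y) with hD
  set ε : ℝ := 7 * (δ * H) with hε
  have ε0 : 0 ≤ ε := by positivity
  set st : ℕ → ℤ × ℤ → ℂ := fun d b =>
    gp m Mg (round ((Mg : ℝ) * b.1 / d), round ((Mg : ℝ) * b.2 / d)) with hst
  set P : (Σ _ : ℕ, (ℤ × ℤ) × (ℤ × ℤ) × (ℤ × ℤ)) → ℂ := fun t =>
    st t.1 t.2.1 + mp m Q Mg t.2.2.1 t.2.2.2 with hP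
  have Mn0 : 0 ≤ Mn := le_trans (by positivity) hX
  have sH : Real.sqrt (H / NN0) * (δ * Real.sqrt NN0) ≤ δ * H := by
    have a : Real.sqrt (H / NN0) * Real.sqrt NN0 = Real.sqrt H := by
      rw [← Real.sqrt_mul (by positivity), div_mul_cancel₀ _ h0.ne']
    have b : Real.sqrt H ≤ H := Real.sqrt_le_iff.2 ⟨by linarith, by nlinarith⟩
    rw [mul_left_comm, a]
    exact mul_le_mul_of_nonneg_left b hδ0
  refine (sum_le_EGRegion _ (D.sigma fun d => grid d ×ˢ grid Q ×ˢ sqr V) _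
    (fun t => ‖ch X (P t)‖ * ‖ch Xt (P t)‖ * (W t.1 + ε))
    (fun t n => ∃ a : O m, gp m Mg n = P t + ph m a) ?_ ?_ ?_).trans ?_
  · intro n hn
    obtain ⟨hg, ⟨β, d, hN, hd⟩, hq⟩ := mem_filter.1 hn
    obtain ⟨v, b, k, c, a, a', v1, vH, hv, hb, hpb, hk, hc, e, hz⟩ :=
      (classify m Y Q Mg V H NN0 hm hQ hMg hQM h0 hV n hg β d hN hd).resolve_left hq
    refine ⟨⟨v, b, k, c⟩, mem_sigma.2 ⟨mem_filter.2 ⟨mem_Icc.2 ⟨v1, Nat.le_floor vH⟩, hv⟩,
      mem_product.2 ⟨hb, mem_product.2 ⟨hk, hc⟩⟩⟩, ⟨a, e⟩, ?_⟩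
    have z := chZ_EGRegion m Q hm hQ Z (by positivity) hZ _ _ k a' (small_EGRegion h0 hz)
    have w : ‖ch Z (gp m v b)‖ ≤ W v := h3 v _ v1 vH hv hpb
    have e' : gp m Mg n = P ⟨v, b, k, c⟩ + ph m a := e
    have x1 : ch X (gp m Mg n) = ch X (P ⟨v, b, k, c⟩) := by rw [e', ch_period hm]
    have x2 : ch Xt (gp m Mg n) = ch Xt (P ⟨v, b, k, c⟩) := by rw [e', ch_period hm]
    rw [x1, x2]
    exact mul_le_mul_of_nonneg_left (by simp only [hε]; linarith) (by positivity)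
  · rintro t n hn n' hn' ⟨a, e⟩ ⟨a', e'⟩
    exact gp_uniq_EGRegion hm hMg (mem_filter.1 hn).1 (mem_filter.1 hn').1 e e'
  · intro t _
    have := hW0 t.1
    positivity
  rw [sum_sigma]
  have one : ∀ d ∈ D, ∑ s ∈ grid d ×ˢ grid Q ×ˢ sqr V,
      ‖ch X (P ⟨d, s⟩)‖ * ‖ch Xt (P ⟨d, s⟩)‖ * (W d + ε) ≤
        6 * Mn * ((d : ℝ) ^ 2 * W d) + 6 * Mn * (H ^ 2 * ε) := by
    intro d hd
    have dH : (d : ℝ) ≤ H :=
      le_trans (by exact_mod_cast (mem_Icc.1 (mem_filter.1 hd).1).2) (Nat.floor_le (by linarith))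
    have w0 : 0 ≤ W d + ε := add_nonneg (hW0 d) ε0
    have cd : ((grid d).card : ℝ) = (d : ℝ) ^ 2 := by
      simp [grid, card_product, sq]
    rw [← sum_mul, sum_product]
    have in1 : ∀ b ∈ grid d, ∑ s ∈ grid Q ×ˢ sqr V,
        ‖ch X (P ⟨d, b, s⟩)‖ * ‖ch Xt (P ⟨d, b, s⟩)‖ ≤ 6 * Mn := by
      intro b _
      have c1 := compare m Q Mg V hm hQ X (st d b)
      have c2 := compare m Q Mg V hm hQ Xt (st d b)
      rw [← sum_product'] at c1 c2
      have c3 : ∑ s ∈ grid Q ×ˢ sqr V, 2 * (‖ch X (P ⟨d, b, s⟩)‖ * ‖ch Xt (P ⟨d, b, s⟩)‖) ≤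
          ∑ s ∈ grid Q ×ˢ sqr V, (‖ch X (st d b + mp m Q Mg s.1 s.2)‖ ^ 2 +
            ‖ch Xt (st d b + mp m Q Mg s.1 s.2)‖ ^ 2) := sum_le_sum fun s _ => by
        simp only [hP]
        nlinarith [sq_nonneg (‖ch X (st d b + mp m Q Mg s.1 s.2)‖ -
          ‖ch Xt (st d b + mp m Q Mg s.1 s.2)‖)]
      rw [← mul_sum, sum_add_distrib] at c3
      linarith
    have in2 := sum_le_card_nsmul _ _ _ in1
    rw [nsmul_eq_mul, cd] at in2
    have d2 : (d : ℝ) ^ 2 ≤ H ^ 2 := pow_le_pow_left₀ (by positivity) dH 2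
    have := mul_le_mul_of_nonneg_right in2 w0
    have := mul_le_mul_of_nonneg_left (mul_le_mul_of_nonneg_right d2 ε0)
      (show 0 ≤ 6 * Mn by positivity)
    linarith
  refine (sum_le_sum one).trans ?_
  rw [sum_add_distrib, ← mul_sum, sum_const, nsmul_eq_mul]
  have cD : (D.card : ℝ) ≤ H := by
    have a : D.card ≤ ⌊H⌋₊ := (card_filter_le _ _).trans (by rw [Nat.card_Icc]; omega)
    exact le_trans (by exact_mod_cast a) (Nat.floor_le (by linarith))
  have a1 := mul_le_mul_of_nonneg_left h4 (show 0 ≤ 6 * Mn by positivity)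
  have a2 := mul_le_mul_of_nonneg_right cD (show 0 ≤ 6 * Mn * (H ^ 2 * ε) by positivity)
  have a3 := mul_le_mul_of_nonneg_left hδ (show 0 ≤ 42 * Mn by positivity)
  have a4 : H * (6 * Mn * (H ^ 2 * ε)) = 42 * Mn * (δ * H ^ 4) := by rw [hε]; ring
  linarith

end Pool.Agent.P.MP_b75a1e_co.EG
end

-- part Pool.Agent.P.MP_b75a1e_co.EGBilin
section

set_option autoImplicit false

open Finset
open scoped BigOperators ComplexConjugate

namespace Pool.Agent.P.MP_b75a1e_co.EG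

/-- Residue of a lattice point. -/
def res_EGBilin {m : ℕ} (d : ℕ) (v : O m) : ℤ × ℤ := (v.re % d, v.im % d)

theorem res_mem_EGBilin {m : ℕ} (d : ℕ) (hd : 1 ≤ d) (v : O m) : res_EGBilin d v ∈ grid d := by
  have h : (0 : ℤ) < d := by exact_mod_cast hd
  simp only [grid, res_EGBilin, mem_product, mem_Ico]
  exact ⟨⟨Int.emod_nonneg _ h.ne', Int.emod_lt_of_pos _ h⟩,
    ⟨Int.emod_nonneg _ h.ne', Int.emod_lt_of_pos _ h⟩⟩

theorem res_eq_EGBilin {m : ℕ} (d : ℕ) (v w : O m) :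
    res_EGBilin d v = res_EGBilin d w ↔ (d : O m) ∣ v - w := by
  rw [nat_dvd_iff]
  simp only [res_EGBilin, Prod.mk.injEq, Zsqrtd.re_sub, Zsqrtd.im_sub]
  rw [Int.emod_eq_emod_iff_emod_sub_eq_zero, Int.emod_eq_emod_iff_emod_sub_eq_zero,
    Int.dvd_iff_emod_eq_zero, Int.dvd_iff_emod_eq_zero]

theorem ch_res_EGBilin {m : ℕ} (d : ℕ) (hm : 1 ≤ m) (hd : 1 ≤ d) (γ v : O m) {Ω : Type} [Fintype Ω]
    (X : Ω → O m) :
    ch X (ph m (γ * v) / d) =
      ch X (ph m (γ * ⟨(res_EGBilin d v).1, (res_EGBilin d v).2⟩) / d) := by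
  have hv : v = (⟨(res_EGBilin d v).1, (res_EGBilin d v).2⟩ : O m) +
      (d : O m) * ⟨v.re / d, v.im / d⟩ := by
    ext
    · simp [res_EGBilin, Int.emod_add_mul_ediv]
    · simp [res_EGBilin, Int.emod_add_mul_ediv]
  have hd' : (d : ℂ) ≠ 0 := by exact_mod_cast (by omega : d ≠ 0)
  rw [← ch_period hm X (ph m (γ * ⟨(res_EGBilin d v).1, (res_EGBilin d v).2⟩) / d)
    (γ * ⟨v.re / d, v.im / d⟩)]
  refine congrArg (ch X) ?_
  conv_lhs => rw [hv]
  simp only [mul_add, map_add, map_mul, map_natCast]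
  field_simp

open Classical in
theorem pars_EGBilin {m : ℕ} (d : ℕ) (hm : 1 ≤ m) (hd : 1 ≤ d) (γ : O m) {Ω : Type} [Fintype Ω]
    (X : Ω → O m) :
    ∑ c ∈ grid d, ‖ch X (ph m (γ * ⟨c.1, c.2⟩) / d)‖ ^ 2 =
      (d : ℝ) ^ 2 * 𝔼 q : Ω × Ω, if (d : O m) ∣ γ * (X q.1 - X q.2) then (1 : ℝ) else 0 := by
  have key : ∀ w : O m, ∑ c ∈ grid d, ee ((((⟨c.1, c.2⟩ : O m) * w).im : ℝ) / d) =
      (d : ℂ) ^ 2 * (((if (d : O m) ∣ w then (1 : ℝ) else 0 : ℝ)) : ℂ) := by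
    intro w
    have h1 : ∀ c : ℤ × ℤ, ee ((((⟨c.1, c.2⟩ : O m) * w).im : ℝ) / d) =
        ee ((c.1 * w.im : ℤ) / d) * ee ((c.2 * w.re : ℤ) / d) := by
      intro c
      rw [← ee_add]
      refine congrArg ee ?_
      simp only [Zsqrtd.im_mul]
      push_cast
      ring
    simp only [h1, grid]
    rw [sum_product, ← sum_mul_sum (Ico (0 : ℤ) d) (Ico (0 : ℤ) d)
      (fun a => ee ((a * w.im : ℤ) / d)) (fun a => ee ((a * w.re : ℤ) / d)),
      sum_ee_range d hd, sum_ee_range d hd, nat_dvd_iff]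
    by_cases h2 : (d : ℤ) ∣ w.re <;> by_cases h3 : (d : ℤ) ∣ w.im <;> simp [h2, h3, sq]
  apply Complex.ofReal_injective
  rw [Complex.ofReal_sum]
  simp only [norm_ch_sq]
  rw [← expect_sum_comm, Complex.ofReal_mul, Complex.ofReal_expect, mul_expect]
  refine expect_congr rfl fun q _ => ?_
  have h2 := key (γ * (X q.1 - X q.2))
  push_cast at h2 ⊢
  rw [← h2]
  refine sum_congr rfl fun c _ => congrArg ee ?_
  have h3 := pr_ph_div hm (γ * ⟨c.1, c.2⟩) (X q.1 - X q.2) (d : ℝ)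
  rw [Complex.ofReal_natCast] at h3
  rw [h3]
  have h4 : γ * ⟨c.1, c.2⟩ * (X q.1 - X q.2) = ⟨c.1, c.2⟩ * (γ * (X q.1 - X q.2)) := by ring
  rw [h4]

open Classical in
/-- The bilinear bound modulo `d`. -/
theorem bilin (m d : ℕ) (hm : 1 ≤ m) (hd : 1 ≤ d) (γ : O m) {Ω Ω' : Type} [Fintype Ω] [Fintype Ω']
    (X : Ω → O m) (V : Ω' → O m) :
    ‖ch (fun q : Ω' × Ω => X q.2 * V q.1) (ph m γ / d)‖ ^ 2 ≤ (d : ℝ) ^ 2 *
      (𝔼 q : Ω' × Ω', if (d : O m) ∣ V q.1 - V q.2 then (1 : ℝ) else 0) *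
      (𝔼 q : Ω × Ω, if (d : O m) ∣ γ * (X q.1 - X q.2) then (1 : ℝ) else 0) := by
  set F : ℤ × ℤ → ℂ := fun c => ch X (ph m (γ * ⟨c.1, c.2⟩) / d) with hF
  set p : ℤ × ℤ → ℝ := fun c => 𝔼 ω : Ω', if res_EGBilin d (V ω) = c then (1 : ℝ) else 0 with hp
  have hp0 : ∀ c, 0 ≤ p c := fun c => expect_nonneg fun ω _ => by split_ifs <;> norm_num
  have h1 : ch (fun q : Ω' × Ω => X q.2 * V q.1) (ph m γ / d) =
      𝔼 ω : Ω', F (res_EGBilin d (V ω)) := by
    have h2 : ∀ ω : Ω', F (res_EGBilin d (V ω)) = ch (fun a => V ω * X a) (ph m γ / d) := by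
      intro ω
      rw [ch_mul, hF]
      simp only
      rw [← ch_res_EGBilin d hm hd γ (V ω) X]
      refine congrArg (ch X) ?_
      rw [map_mul]
      ring
    simp only [h2, ch]
    rw [← univ_product_univ, expect_product]
    refine expect_congr rfl fun ω _ => expect_congr rfl fun a _ => ?_
    rw [mul_comm (V ω)]
  have h3 : 𝔼 ω : Ω', F (res_EGBilin d (V ω)) = ∑ c ∈ grid d, (p c : ℂ) * F c := by
    simp only [hp, Complex.ofReal_expect, expect_mul]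
    rw [← expect_sum_comm]
    refine expect_congr rfl fun ω _ => ?_
    rw [sum_eq_single_of_mem _ (res_mem_EGBilin d hd (V ω))]
    · simp
    · intro c _ hc
      simp [hc.symm]
  have h4 : ∑ c ∈ grid d, p c ^ 2 =
      𝔼 q : Ω' × Ω', if (d : O m) ∣ V q.1 - V q.2 then (1 : ℝ) else 0 := by
    simp only [hp, sq, expect_mul_expect]
    rw [← univ_product_univ, expect_product, ← expect_sum_comm]
    refine expect_congr rfl fun ω _ => ?_
    rw [← expect_sum_comm]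
    refine expect_congr rfl fun ω' _ => ?_
    rw [sum_eq_single_of_mem _ (res_mem_EGBilin d hd (V ω))]
    · simp only [← res_eq_EGBilin, if_true, one_mul, eq_comm]
    · intro c _ hc
      simp [hc.symm]
  have h5 : ‖∑ c ∈ grid d, (p c : ℂ) * F c‖ ≤ ∑ c ∈ grid d, p c * ‖F c‖ := by
    refine (norm_sum_le _ _).trans (le_of_eq (sum_congr rfl fun c _ => ?_))
    rw [norm_mul, Complex.norm_real, Real.norm_of_nonneg (hp0 c)]
  rw [h1, h3]
  calc ‖∑ c ∈ grid d, (p c : ℂ) * F c‖ ^ 2 ≤ (∑ c ∈ grid d, p c * ‖F c‖) ^ 2 :=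
        pow_le_pow_left₀ (norm_nonneg _) h5 2
    _ ≤ (∑ c ∈ grid d, p c ^ 2) * ∑ c ∈ grid d, ‖F c‖ ^ 2 := sum_mul_sq_le_sq_mul_sq _ _ _
    _ = _ := by
        rw [h4, hF, pars_EGBilin d hm hd γ X]
        ring

theorem cancel_aux_EGBilin (m : ℕ) (γ : O m) (n : ℤ) (d : ℕ) : Nat.Coprime d (2 * m) → PrimAt γ d →
    IsCoprime (d : ℤ) n → ∀ (w : O m) (t : ℤ), t * w.norm = 2 * n * w.re → (d : O m) ∣ γ * w →
      (d : O m) ∣ w := by
  induction d using induction_on_primes with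
  | zero =>
    intro hc
    simp only [Nat.coprime_zero_left] at hc
    omega
  | one =>
    intro _ _ _ w _ _ _
    simp
  | prime_mul l a hl ih =>
    intro hc hγ hn w t ht h
    have hl' : Prime (l : ℤ) := Nat.prime_iff_prime_int.mp hl
    have hlc : Nat.Coprime l (2 * m) := Nat.Coprime.coprime_mul_right hc
    have hl2 : ¬ (l : ℤ) ∣ 2 * m := by
      intro h2
      have h3 : l ∣ 2 * m := by exact_mod_cast h2
      exact (Nat.Prime.coprime_iff_not_dvd hl).mp hlc h3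
    have hln : ¬ (l : ℤ) ∣ n := by
      intro h2
      have h3 : IsCoprime (l : ℤ) n := by
        push_cast at hn
        exact hn.of_mul_left_left
      exact hl'.not_isUnit (h3.isUnit_of_dvd h2)
    have h1 : (l : O m) ∣ γ * w := by
      refine dvd_trans ?_ h
      push_cast
      exact dvd_mul_right _ _
    have h2 : (l : O m) ∣ (w.norm : O m) * γ := by
      rw [Zsqrtd.norm_eq_mul_conj]
      have h3 : w * star w * γ = γ * w * star w := by ring
      rw [h3]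
      exact h1.mul_right _
    have h3 : (l : ℤ) ∣ w.norm := by
      by_contra h4
      refine hγ l hl (dvd_mul_right _ _) ?_
      rw [nat_dvd_iff] at h2 ⊢
      simp only [Zsqrtd.re_mul, Zsqrtd.im_mul, Zsqrtd.re_intCast, Zsqrtd.im_intCast, mul_zero,
        zero_mul, add_zero] at h2
      exact ⟨(hl'.dvd_or_dvd h2.1).resolve_left h4, (hl'.dvd_or_dvd h2.2).resolve_left h4⟩
    have h4 : (l : ℤ) ∣ w.re := by
      have h5 : (l : ℤ) ∣ 2 * n * w.re := ht ▸ h3.mul_left t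
      rcases hl'.dvd_or_dvd h5 with h6 | h6
      · rcases hl'.dvd_or_dvd h6 with h7 | h7
        · exact absurd (h7.mul_right _) hl2
        · exact absurd h7 hln
      · exact h6
    have h5 : (l : ℤ) ∣ w.im := by
      rw [norm_eq] at h3
      have h6 : (l : ℤ) ∣ m * w.im ^ 2 := (dvd_add_right (dvd_pow h4 two_ne_zero)).mp h3
      rcases hl'.dvd_or_dvd h6 with h7 | h7
      · exact absurd (h7.mul_left _) hl2
      · exact hl'.dvd_of_dvd_pow h7
    obtain ⟨w', rfl⟩ := (nat_dvd_iff l w).mpr ⟨h4, h5⟩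
    have hl0 : (l : ℤ) ≠ 0 := hl'.ne_zero
    have h6 : (a : O m) ∣ w' := by
      refine ih (Nat.Coprime.coprime_mul_left hc)
        (fun k hk hka => hγ k hk (hka.mul_left _)) ?_ w' (t * l) ?_ ?_
      · push_cast at hn
        exact hn.of_mul_left_right
      · apply mul_left_cancel₀ hl0
        rw [norm_eq] at ht ⊢
        simp only [Zsqrtd.re_mul, Zsqrtd.im_mul, Zsqrtd.re_natCast, Zsqrtd.im_natCast, mul_zero,
          zero_mul, add_zero] at ht
        linear_combination ht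
      · have h7 : γ * ((l : O m) * w') = (l : O m) * (γ * w') := by ring
        rw [h7, nat_dvd_iff] at h
        rw [nat_dvd_iff]
        generalize γ * w' = u at h ⊢
        simp only [Zsqrtd.re_mul, Zsqrtd.im_mul, Zsqrtd.re_natCast, Zsqrtd.im_natCast, mul_zero,
          zero_mul, add_zero, Nat.cast_mul] at h
        exact ⟨(mul_dvd_mul_iff_left hl0).mp h.1, (mul_dvd_mul_iff_left hl0).mp h.2⟩
    push_cast
    exact mul_dvd_mul_left _ h6

/-- A primitive multiplier can be cancelled against a difference of two units of one norm. -/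
theorem cancel_prim (m d : ℕ) (hc : Nat.Coprime d (2 * m)) (γ x x' : O m) (hγ : PrimAt γ d)
    (hn : x.norm = x'.norm) (hx : IsCoprime (d : ℤ) x.norm) (h : (d : O m) ∣ γ * (x - x')) :
    (d : O m) ∣ x - x' := by
  have h1 : (d : O m) ∣ (x - x') * star x' := by
    refine cancel_aux_EGBilin m γ x.norm d hc hγ hx _ (-1) ?_ ?_
    · rw [Zsqrtd.norm_mul, Zsqrtd.norm_conj, ← hn]
      simp only [norm_eq, Zsqrtd.re_mul, Zsqrtd.re_sub, Zsqrtd.im_sub, Zsqrtd.re_star,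
        Zsqrtd.im_star] at hn ⊢
      linear_combination (-(x.re ^ 2 + m * x.im ^ 2)) * hn
    · rw [← mul_assoc]
      exact h.mul_right _
  have h2 : (d : O m) ∣ (x.norm : O m) * (x - x') := by
    rw [hn, Zsqrtd.norm_eq_mul_conj]
    have h3 : x' * star x' * (x - x') = (x - x') * star x' * x' := by ring
    rw [h3]
    exact h1.mul_right _
  rw [nat_dvd_iff] at h2 ⊢
  generalize x - x' = u at h2 ⊢
  simp only [Zsqrtd.re_mul, Zsqrtd.im_mul, Zsqrtd.re_intCast, Zsqrtd.im_intCast, mul_zero,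
    zero_mul, add_zero] at h2
  exact ⟨hx.dvd_of_dvd_mul_left h2.1, hx.dvd_of_dvd_mul_left h2.2⟩

theorem cX_nonneg_EGBilin {m r : ℕ} (d : ℕ) (z : Fin r → O m) : 0 ≤ cX d z := by
  unfold cX
  split_ifs
  · exact expect_nonneg fun q _ => by split_ifs <;> norm_num
  · exact le_rfl

theorem cY_nonneg_EGBilin {m r : ℕ} (d : ℕ) (z z' : Fin r → O m) : 0 ≤ cY d z z' := by
  unfold cY
  split_ifs
  · exact expect_nonneg fun q _ => by split_ifs <;> norm_num
  · exact le_rfl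

/-- One block. `b` bounds the part of `d` that meets the norm of the block. -/
theorem block_mid (m r d b e : ℕ) (hm : 1 ≤ m) (hd : 1 ≤ d) (hc : Nat.Coprime d (2 * m))
    (z : Fin 3 → Fin r → O m) (γ : O m) (hb : b ^ 100 ≤ d)
    (hbd : ∀ d2, d2 ∣ d → ∃ d1, d1 ∣ d2 ∧ d2 ≤ d1 * b ∧ IsCoprime (d1 : ℤ) (blockB z).norm)
    (he : d ≤ e ^ 2) (heγ : ∀ f : ℕ, 1 ≤ f → (d : O m) ∣ (f : O m) * γ → e ≤ f) :
    ‖ch (fun q : ((Fin r → Bool) × (Fin r → Bool)) × (Fin r → Bool) =>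
      cube (z 2) q.2 * yy (z 0) (z 1) q.1) (ph m γ / d)‖ ^ 2 ≤ (d : ℝ) ^ (1 / 50 : ℝ) * Zc d z := by
  classical
  obtain ⟨g, hg⟩ : ∃ g, g = Nat.gcd (Int.gcd γ.re γ.im) d := ⟨_, rfl⟩
  have hg0 : 0 < g := hg ▸ Nat.gcd_pos_of_pos_right _ hd
  have hgd : g ∣ d := hg ▸ Nat.gcd_dvd_right _ _
  have hgγ : (g : O m) ∣ γ := by
    have h1 : (g : ℤ) ∣ (Int.gcd γ.re γ.im : ℤ) := by
      exact_mod_cast (hg ▸ Nat.gcd_dvd_left _ _ : g ∣ Int.gcd γ.re γ.im)
    exact (nat_dvd_iff g γ).mpr ⟨h1.trans (Int.gcd_dvd_left _ _), h1.trans (Int.gcd_dvd_right _ _)⟩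
  obtain ⟨d2, hd2⟩ := hgd
  obtain ⟨γ', hγ'⟩ := hgγ
  have hd20 : 1 ≤ d2 := by
    rcases Nat.eq_zero_or_pos d2 with h | h
    · rw [h] at hd2
      omega
    · exact h
  have hd2d : d2 ∣ d := ⟨g, by rw [hd2, mul_comm]⟩
  have hprim : PrimAt γ' d2 := by
    intro l hl hld hlγ
    have h1 : ((g * l : ℕ) : O m) ∣ γ := by
      rw [hγ']
      push_cast
      exact mul_dvd_mul_left _ hlγ
    rw [nat_dvd_iff] at h1
    have h2 : g * l ∣ Int.gcd γ.re γ.im := Int.dvd_gcd h1.1 h1.2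
    have h3 : g * l ∣ d := hd2 ▸ mul_dvd_mul_left _ hld
    have h4 : g * l ∣ g := by
      have h5 := Nat.dvd_gcd h2 h3
      rwa [← hg] at h5
    have h5 := Nat.le_of_dvd hg0 h4
    have h6 := hl.two_le
    nlinarith
  have hed : e ≤ d2 := by
    refine heγ d2 hd20 ⟨γ', ?_⟩
    rw [hγ', hd2]
    push_cast
    ring
  obtain ⟨d1, hd1, hd1b, hcop⟩ := hbd d2 hd2d
  have hmem : d1 ∈ d.divisors.filter (fun d1 => d ^ 49 ≤ d1 ^ 100) := by
    rw [mem_filter, Nat.mem_divisors]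
    refine ⟨⟨hd1.trans hd2d, by omega⟩, ?_⟩
    have h1 : d ^ 50 ≤ d2 ^ 100 := by
      calc d ^ 50 ≤ (d2 ^ 2) ^ 50 := Nat.pow_le_pow_left (he.trans (Nat.pow_le_pow_left hed 2)) 50
        _ = d2 ^ 100 := by rw [← pow_mul]
    have h2 : d2 ^ 100 ≤ d1 ^ 100 * d := by
      calc d2 ^ 100 ≤ (d1 * b) ^ 100 := Nat.pow_le_pow_left hd1b 100
        _ = d1 ^ 100 * b ^ 100 := mul_pow _ _ _
        _ ≤ d1 ^ 100 * d := Nat.mul_le_mul_left _ hb
    have h3 : d ^ 49 * d ≤ d1 ^ 100 * d := by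
      rw [← pow_succ]
      exact h1.trans h2
    exact Nat.le_of_mul_le_mul_right h3 hd
  have hθ : ph m γ / d = ph m γ' / d2 := by
    have h1 : (g : ℂ) ≠ 0 := by exact_mod_cast hg0.ne'
    have h2 : (d2 : ℂ) ≠ 0 := by exact_mod_cast (by omega : d2 ≠ 0)
    conv_lhs => rw [hγ', hd2]
    simp only [map_mul, map_natCast, Nat.cast_mul]
    field_simp
  have hbil := bilin m d2 hm hd20 γ' (fun ε : Fin r → Bool => cube (z 2) ε)
    (fun ε : (Fin r → Bool) × (Fin r → Bool) => yy (z 0) (z 1) ε)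
  have hd1O : (d1 : O m) ∣ (d2 : O m) := Nat.cast_dvd_cast hd1
  simp only [blockB, Zsqrtd.norm_mul] at hcop
  have hY : (𝔼 q : ((Fin r → Bool) × (Fin r → Bool)) × ((Fin r → Bool) × (Fin r → Bool)),
      if (d2 : O m) ∣ yy (z 0) (z 1) q.1 - yy (z 0) (z 1) q.2 then (1 : ℝ) else 0) ≤
      cY d1 (z 0) (z 1) := by
    unfold cY
    rw [if_pos hcop.of_mul_right_left]
    refine expect_le_expect fun q _ => ?_
    by_cases h : (d2 : O m) ∣ yy (z 0) (z 1) q.1 - yy (z 0) (z 1) q.2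
    · rw [if_pos h, if_pos (hd1O.trans h)]
    · rw [if_neg h]
      split_ifs <;> norm_num
  have hX : (𝔼 q : (Fin r → Bool) × (Fin r → Bool),
      if (d2 : O m) ∣ γ' * (cube (z 2) q.1 - cube (z 2) q.2) then (1 : ℝ) else 0) ≤
      cX d1 (z 2) := by
    unfold cX
    rw [if_pos hcop.of_mul_right_right]
    refine expect_le_expect fun q _ => ?_
    by_cases h : (d2 : O m) ∣ γ' * (cube (z 2) q.1 - cube (z 2) q.2)
    · rw [if_pos h, if_pos]
      refine cancel_prim m d1 (Nat.Coprime.coprime_dvd_left (hd1.trans hd2d) hc) γ' _ _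
        (fun l hl h1 => hprim l hl (h1.trans hd1)) (by rw [norm_cube, norm_cube]) ?_ (hd1O.trans h)
      rw [norm_cube]
      exact hcop.of_mul_right_right
    · rw [if_neg h]
      split_ifs <;> norm_num
  have hb2 : (b : ℝ) ^ 2 ≤ (d : ℝ) ^ (1 / 50 : ℝ) := by
    have h1 : ((b : ℝ) ^ 2) ^ (50 : ℕ) ≤ d := by
      rw [← pow_mul]
      exact_mod_cast hb
    have h2 := Real.rpow_le_rpow (by positivity) h1 (by norm_num : (0 : ℝ) ≤ 1 / 50)
    have h3 := Real.pow_rpow_inv_natCast (x := (b : ℝ) ^ 2) (n := 50) (by positivity) (by norm_num)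
    rw [Nat.cast_ofNat, ← one_div] at h3
    rwa [h3] at h2
  have hd22 : (d2 : ℝ) ^ 2 ≤ (d : ℝ) ^ (1 / 50 : ℝ) * (d1 : ℝ) ^ 2 := by
    have h1 : (d2 : ℝ) ≤ d1 * b := by exact_mod_cast hd1b
    calc (d2 : ℝ) ^ 2 ≤ ((d1 : ℝ) * b) ^ 2 := pow_le_pow_left₀ (by positivity) h1 2
      _ = (b : ℝ) ^ 2 * (d1 : ℝ) ^ 2 := by ring
      _ ≤ _ := mul_le_mul_of_nonneg_right hb2 (by positivity)
  have hZ : (d1 : ℝ) ^ 2 * cY d1 (z 0) (z 1) * cX d1 (z 2) ≤ Zc d z := by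
    unfold Zc
    exact single_le_sum (f := fun d1 : ℕ => (d1 : ℝ) ^ 2 * cY d1 (z 0) (z 1) * cX d1 (z 2))
      (fun k _ => mul_nonneg (mul_nonneg (by positivity) (cY_nonneg_EGBilin _ _ _))
        (cX_nonneg_EGBilin _ _)) hmem
  rw [hθ]
  refine hbil.trans ?_
  have hY0 := cY_nonneg_EGBilin d1 (z 0) (z 1)
  calc _ ≤ ((d : ℝ) ^ (1 / 50 : ℝ) * (d1 : ℝ) ^ 2) * cY d1 (z 0) (z 1) * cX d1 (z 2) := by
        refine mul_le_mul (mul_le_mul hd22 hY ?_ (by positivity)) hX ?_ (by positivity)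
        · exact expect_nonneg fun q _ => by split_ifs <;> norm_num
        · exact expect_nonneg fun q _ => by split_ifs <;> norm_num
    _ = (d : ℝ) ^ (1 / 50 : ℝ) * ((d1 : ℝ) ^ 2 * cY d1 (z 0) (z 1) * cX d1 (z 2)) := by ring
    _ ≤ _ := mul_le_mul_of_nonneg_left hZ (by positivity)

end Pool.Agent.P.MP_b75a1e_co.EG
end

-- part Pool.Agent.P.MP_b75a1e_co.EGCircle
section

set_option autoImplicit false

open Finset
open scoped BigOperators ComplexConjugate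

namespace Pool.Agent.P.MP_b75a1e_co.EG

theorem ee_small_EGCircle (m Q Mg V : ℕ) (R : ℝ) (hm : 1 ≤ m) (hQ : 1 ≤ Q) (hMg : 1 ≤ Mg)
    (y : O m) (hy : (Q : O m) ∣ y) (hR : ‖ph m y‖ ≤ R) (k c : ℤ × ℤ) (hc : c ∈ sqr V) :
    ‖ee (pr m (mp m Q Mg k c) (ph m y)) - 1‖ ≤ 14 * V * R / Mg := by
  have hQ0 : (Q : ℝ) ≠ 0 := by positivity
  have hM0 : (0 : ℝ) < Mg := by positivity
  have e1 : pr m (gp m Q k) (ph m y) = ((((⟨k.1, k.2⟩ : O m) * y).im : ℤ) : ℝ) / (Q : ℝ) := by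
    have := pr_ph_div hm (⟨k.1, k.2⟩ : O m) y (Q : ℝ)
    simpa [gp] using this
  have e2 : pr m (gp m Mg c) (ph m y) = ((((⟨c.1, c.2⟩ : O m) * y).im : ℤ) : ℝ) / (Mg : ℝ) := by
    have := pr_ph_div hm (⟨c.1, c.2⟩ : O m) y (Mg : ℝ)
    simpa [gp] using this
  obtain ⟨j, hj⟩ := ((nat_dvd_iff Q _).1 (hy.mul_left (⟨k.1, k.2⟩ : O m))).2
  have e3 : pr m (gp m Q k) (ph m y) = (j : ℝ) := by
    rw [e1, hj]; push_cast; field_simp
  have e4 : ee (pr m (mp m Q Mg k c) (ph m y)) = ee (pr m (gp m Mg c) (ph m y)) := by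
    rw [mp, pr_add_left, ee_add, e3, ee_int, one_mul]
  have h5 := norm_ee_sub (pr m (gp m Mg c) (ph m y)) 0
  rw [ee_zero, sub_zero] at h5
  rw [e4]
  refine h5.trans ?_
  rw [e2, abs_div, abs_of_pos hM0]
  have hc' := hc
  simp only [sqr, mem_product, mem_Icc] at hc'
  have a1 : |(c.1 : ℝ)| ≤ V := by
    rw [abs_le]; constructor
    · exact_mod_cast hc'.1.1
    · exact_mod_cast hc'.1.2
  have a2 : |(c.2 : ℝ)| ≤ V := by
    rw [abs_le]; constructor
    · exact_mod_cast hc'.2.1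
    · exact_mod_cast hc'.2.2
  have b1 := (abs_re_le y).trans hR
  have b2 := (abs_im_le hm y).trans hR
  have e5 : ((((⟨c.1, c.2⟩ : O m) * y).im : ℤ) : ℝ) = (c.1 : ℝ) * y.im + (c.2 : ℝ) * y.re := by
    simp [Zsqrtd.im_mul]
  have b3 : |(c.1 : ℝ) * y.im + (c.2 : ℝ) * y.re| ≤ 2 * V * R := by
    refine (abs_add_le _ _).trans ?_
    rw [abs_mul, abs_mul]
    have := mul_le_mul a1 b2 (abs_nonneg _) (Nat.cast_nonneg V)
    have := mul_le_mul a2 b1 (abs_nonneg _) (Nat.cast_nonneg V)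
    linarith
  rw [e5, ← mul_div_assoc]
  exact div_le_div_of_nonneg_right (by linarith) hM0.le

theorem norm_expect_EGCircle {Ω : Type} [Fintype Ω] [Nonempty Ω] (f : Ω → ℂ) (B : ℝ)
    (h : ∀ ω, ‖f ω‖ ≤ B) : ‖𝔼 ω, f ω‖ ≤ B := by
  have hc : (0 : ℝ) < Fintype.card Ω := by exact_mod_cast Fintype.card_pos
  rw [Fintype.expect_eq_sum_div_card, norm_div, Complex.norm_natCast, div_le_iff₀ hc]
  refine (norm_sum_le _ _).trans ?_
  refine (sum_le_card_nsmul _ _ B fun ω _ => h ω).trans ?_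
  simp [mul_comm]

/-- On the main points the partner is the conjugate and the remaining factors are trivial. -/
theorem main_point (m Q Mg V : ℕ) (NN0 δ : ℝ) {Ω Ω' : Type} [Fintype Ω] [Fintype Ω'] [Nonempty Ω]
    [Nonempty Ω'] (X Xt : Ω → O m) (Z : Ω' → O m) (τ : O m) (hm : 1 ≤ m) (hQ : 1 ≤ Q) (hMg : 1 ≤ Mg)
    (hδ0 : 0 ≤ δ)
    (hs : ∀ ω, (Q : O m) ∣ X ω + Xt ω ∧ ‖ph m (X ω + Xt ω)‖ ≤ δ * Real.sqrt NN0)
    (hZ : ∀ ω, (Q : O m) ∣ Z ω ∧ ‖ph m (Z ω)‖ ≤ δ * Real.sqrt NN0)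
    (hτ : (Q : O m) ∣ τ ∧ ‖ph m τ‖ ≤ δ * Real.sqrt NN0) (k c : ℤ × ℤ) (hc : c ∈ sqr V) :
    ‖ch Xt (mp m Q Mg k c) - conj (ch X (mp m Q Mg k c))‖ ≤ 14 * V * δ * Real.sqrt NN0 / Mg ∧
      ‖ch Z (mp m Q Mg k c) - 1‖ ≤ 14 * V * δ * Real.sqrt NN0 / Mg ∧
      ‖ee (-pr m (mp m Q Mg k c) (ph m τ)) - 1‖ ≤ 14 * V * δ * Real.sqrt NN0 / Mg := by
  refine ⟨?_, ?_, ?_⟩
  · have e : ch Xt (mp m Q Mg k c) - conj (ch X (mp m Q Mg k c)) =
        𝔼 ω, (ee (-pr m (mp m Q Mg k c) (ph m (X ω))) *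
          (ee (pr m (mp m Q Mg k c) (ph m (X ω + Xt ω))) - 1)) := by
      simp only [ch, Fintype.expect_eq_sum_div_card, map_div₀, map_sum, map_natCast, ← sub_div,
        ← sum_sub_distrib]
      refine congrArg (· / _) (sum_congr rfl fun ω _ => ?_)
      rw [mul_sub, ← ee_add, map_add, pr_add_right, ← ee_neg, mul_one]
      congr 2
      ring
    rw [e]
    refine norm_expect_EGCircle _ _ fun ω => ?_
    rw [norm_mul, norm_ee, one_mul, mul_assoc (14 * V : ℝ)]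
    exact ee_small_EGCircle m Q Mg V _ hm hQ hMg _ (hs ω).1 (hs ω).2 k c hc
  · have e : ch Z (mp m Q Mg k c) - 1 =
        𝔼 ω, (ee (pr m (mp m Q Mg k c) (ph m (Z ω))) - 1) := by
      rw [expect_sub_distrib, ch]
      simp
    rw [e]
    refine norm_expect_EGCircle _ _ fun ω => ?_
    rw [mul_assoc (14 * V : ℝ)]
    exact ee_small_EGCircle m Q Mg V _ hm hQ hMg _ (hZ ω).1 (hZ ω).2 k c hc
  · have e : ee (-pr m (mp m Q Mg k c) (ph m τ)) - 1 =
        conj (ee (pr m (mp m Q Mg k c) (ph m τ)) - 1) := by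
      rw [ee_neg, map_sub, map_one]
    rw [e, Complex.norm_conj, mul_assoc (14 * V : ℝ)]
    exact ee_small_EGCircle m Q Mg V _ hm hQ hMg _ hτ.1 hτ.2 k c hc

theorem ch_sub_EGCircle {m : ℕ} {Ω : Type} [Fintype Ω] (X : Ω → O m) (τ : O m) (θ : ℂ) :
    ch (fun ω => X ω - τ) θ = ch X θ * ee (-pr m θ (ph m τ)) := by
  simp only [ch]
  rw [expect_mul]
  refine expect_congr rfl fun ω _ => ?_
  rw [← ee_add, map_sub, pr_sub_right, sub_eq_add_neg]

theorem four_EGCircle (a b z e : ℂ) (ε : ℝ) (ha : ‖a‖ ≤ 1) (hb : ‖b‖ ≤ 1) (hz : ‖z‖ ≤ 1)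
    (h1 : ‖b - conj a‖ ≤ ε) (h2 : ‖z - 1‖ ≤ ε) (h3 : ‖e - 1‖ ≤ ε) :
    ‖a * b * z * e - ((‖a‖ ^ 2 : ℝ) : ℂ)‖ ≤ 3 * ε ∧ ‖b‖ ^ 2 ≤ ‖a‖ ^ 2 + 2 * ε := by
  have hε : 0 ≤ ε := (norm_nonneg _).trans h1
  constructor
  · have e1 : a * b * z * e - ((‖a‖ ^ 2 : ℝ) : ℂ) =
        a * (b - conj a) + a * b * (z - 1) + a * b * z * (e - 1) := by
      rw [← Complex.normSq_eq_norm_sq, ← Complex.mul_conj]; ring
    have hab : ‖a * b‖ ≤ 1 := by
      rw [norm_mul]; exact mul_le_one₀ ha (norm_nonneg _) hb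
    have habz : ‖a * b * z‖ ≤ 1 := by
      rw [norm_mul]; exact mul_le_one₀ hab (norm_nonneg _) hz
    have t : ∀ u v : ℂ, ‖u‖ ≤ 1 → ‖v‖ ≤ ε → ‖u * v‖ ≤ ε := fun u v hu hv => by
      rw [norm_mul]
      exact (mul_le_mul hu hv (norm_nonneg _) zero_le_one).trans (by rw [one_mul])
    rw [e1]
    have := norm_add₃_le (a := a * (b - conj a)) (b := a * b * (z - 1)) (c := a * b * z * (e - 1))
    linarith [t _ _ ha h1, t _ _ hab h2, t _ _ habz h3]
  · have h4 : ‖b‖ - ‖a‖ ≤ ε := by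
      have := norm_sub_norm_le b (conj a)
      rw [Complex.norm_conj] at this
      linarith
    nlinarith [norm_nonneg a, norm_nonneg b]

theorem cover_EGCircle {ι : Type} [DecidableEq ι] (R S1 S2 S3 : Finset ι) (f f1 f3 : ι → ℝ)
    (h1 : ∀ i, f i ≤ f1 i) (h3 : ∀ i, f i ≤ f3 i) (h0 : ∀ i, 0 ≤ f i)
    (h : ∀ i ∈ R, i ∈ S1 ∨ i ∈ S2 ∨ i ∈ S3) :
    ∑ i ∈ R, f i ≤ ∑ i ∈ S1, f1 i + ∑ i ∈ S2, f1 i + ∑ i ∈ S3, f3 i := by
  have u : ∀ A B : Finset ι, ∑ i ∈ A ∪ B, f i ≤ ∑ i ∈ A, f i + ∑ i ∈ B, f i := fun A B => by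
    have := sum_union_inter (s₁ := A) (s₂ := B) (f := f)
    have : 0 ≤ ∑ i ∈ A ∩ B, f i := sum_nonneg fun i _ => h0 i
    linarith
  have s : ∑ i ∈ R, f i ≤ ∑ i ∈ S1 ∪ S2 ∪ S3, f i :=
    sum_le_sum_of_subset_of_nonneg (fun i hi => by
      simpa only [mem_union, or_assoc] using h i hi) fun i _ _ => h0 i
  have a1 : ∑ i ∈ S1, f i ≤ ∑ i ∈ S1, f1 i := sum_le_sum fun i _ => h1 i
  have a2 : ∑ i ∈ S2, f i ≤ ∑ i ∈ S2, f1 i := sum_le_sum fun i _ => h1 i
  have a3 : ∑ i ∈ S3, f i ≤ ∑ i ∈ S3, f3 i := sum_le_sum fun i _ => h3 i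
  linarith [u (S1 ∪ S2) S3, u S1 S2]

theorem num_EGCircle (p Q Mg : ℕ) (H NN0 δ : ℝ) (hp : 1 ≤ p) (hQ : 1 ≤ Q) (hQM : Q ∣ Mg)
    (hH : 1 ≤ H) (hM1 : 8 * p * Real.sqrt NN0 ≤ Mg) (hM2 : (Mg : ℝ) ≤ 9 * p * Real.sqrt NN0)
    (hN : (100 * Q * p * H) ^ 2 ≤ NN0) (hδ0 : 0 ≤ δ)
    (hδ : δ * (Q : ℝ) ^ 2 * (p : ℝ) ^ 2 * H ^ 5 ≤ 1 / 10 ^ 9) :
    ∃ V : ℕ, 0 < NN0 ∧ 1 ≤ Mg ∧ Mg * Real.sqrt (H / NN0) + 1 ≤ V ∧ 2 * (2 * V) < Mg / Q ∧
      δ * H ^ 4 ≤ 1 / 10 ^ 4 ∧ (4 * p + 3 * δ) * Real.sqrt NN0 < Mg ∧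
      (Q : ℝ) ^ 2 * (4 * V + 1) ^ 2 * (14 * (2 * V : ℕ) * δ * Real.sqrt NN0 / Mg) ≤ 1 / 100 := by
  have hp' : (1 : ℝ) ≤ p := by exact_mod_cast hp
  have hQ' : (1 : ℝ) ≤ Q := by exact_mod_cast hQ
  have hpH : (1 : ℝ) ≤ p * H := one_le_mul_of_one_le_of_one_le hp' hH
  have hc : (0 : ℝ) < 100 * Q * p * H := by positivity
  have h0 : 0 < NN0 := lt_of_lt_of_le (by positivity) hN
  have hs : 100 * Q * p * H ≤ Real.sqrt NN0 := Real.le_sqrt_of_sq_le hN
  have hs0 : 0 < Real.sqrt NN0 := hc.trans_le hs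
  have hM0 : (0 : ℝ) < Mg := lt_of_lt_of_le (by positivity) hM1
  have hsH : Real.sqrt H ≤ H := by
    rw [Real.sqrt_le_left (by linarith)]; nlinarith
  have hx : Mg * Real.sqrt (H / NN0) ≤ 9 * (p * H) := by
    rw [Real.sqrt_div (by linarith), ← mul_div_assoc, div_le_iff₀ hs0]
    have := mul_le_mul hM2 hsH (Real.sqrt_nonneg _) (by positivity)
    nlinarith
  have hx0 : 0 ≤ Mg * Real.sqrt (H / NN0) := by positivity
  have hV1 := Nat.le_ceil (Mg * Real.sqrt (H / NN0))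
  have hV2 := Nat.ceil_lt_add_one hx0
  generalize ⌈Mg * Real.sqrt (H / NN0)⌉₊ = v at hV1 hV2
  have hV : ((v + 1 : ℕ) : ℝ) ≤ 11 * (p * H) := by push_cast; linarith
  have hQp : (1 : ℝ) ≤ (Q : ℝ) ^ 2 * (p : ℝ) ^ 2 :=
    one_le_mul_of_one_le_of_one_le (one_le_pow₀ hQ') (one_le_pow₀ hp')
  have hd5 : δ * H ^ 5 ≤ 1 / 10 ^ 9 := by
    have : δ * H ^ 5 * 1 ≤ δ * H ^ 5 * ((Q : ℝ) ^ 2 * (p : ℝ) ^ 2) :=
      mul_le_mul_of_nonneg_left hQp (by positivity)
    linarith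
  have hd4 : δ * H ^ 4 ≤ δ * H ^ 5 :=
    mul_le_mul_of_nonneg_left (pow_le_pow_right₀ hH (by norm_num)) hδ0
  have hd0 : δ * 1 ≤ δ * H ^ 5 := mul_le_mul_of_nonneg_left (one_le_pow₀ hH) hδ0
  refine ⟨v + 1, h0, by exact_mod_cast hM0, by push_cast; linarith, ?_, by linarith, ?_, ?_⟩
  · obtain ⟨t, rfl⟩ := hQM
    rw [Nat.mul_div_cancel_left _ hQ]
    have h1 : (Q : ℝ) * (100 * (p * H)) ≤ Q * t := by
      push_cast at hM1
      nlinarith
    have h2 : 100 * (p * H) ≤ t := le_of_mul_le_mul_left h1 (by linarith)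
    have h3 : ((2 * (2 * (v + 1)) : ℕ) : ℝ) < t := by
      push_cast at hV ⊢; linarith
    exact_mod_cast h3
  · have : (4 * p + 3 * δ) * Real.sqrt NN0 < 8 * p * Real.sqrt NN0 :=
      mul_lt_mul_of_pos_right (by linarith) hs0
    linarith
  · generalize v + 1 = V at hV
    have hV0 : (0 : ℝ) ≤ V := Nat.cast_nonneg V
    have a1 : 14 * (2 * V : ℕ) * δ * Real.sqrt NN0 / Mg ≤ 40 * (δ * H) := by
      rw [div_le_iff₀ hM0]
      push_cast
      have b1 : 14 * (2 * V) * δ * Real.sqrt NN0 ≤ 14 * (2 * (11 * (p * H))) * δ * Real.sqrt NN0 := by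
        gcongr
      have b2 : 40 * (δ * H) * (8 * p * Real.sqrt NN0) ≤ 40 * (δ * H) * Mg :=
        mul_le_mul_of_nonneg_left hM1 (by positivity)
      have b3 : 0 ≤ δ * H * p * Real.sqrt NN0 := by positivity
      nlinarith
    have a2 : (4 * V + 1 : ℝ) ^ 2 ≤ (45 * (p * H)) ^ 2 :=
      pow_le_pow_left₀ (by positivity) (by linarith) 2
    have a3 : (Q : ℝ) ^ 2 * (4 * V + 1) ^ 2 * (14 * (2 * V : ℕ) * δ * Real.sqrt NN0 / Mg) ≤
        (Q : ℝ) ^ 2 * (45 * (p * H)) ^ 2 * (40 * (δ * H)) := by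
      gcongr
    have a4 : δ * (Q : ℝ) ^ 2 * (p : ℝ) ^ 2 * H ^ 3 ≤ δ * (Q : ℝ) ^ 2 * (p : ℝ) ^ 2 * H ^ 5 :=
      mul_le_mul_of_nonneg_left (pow_le_pow_right₀ hH (by norm_num)) (by positivity)
    nlinarith

open Classical in
/-- L8: the endgame of the circle method. -/
theorem circle (m p Y Q Mg : ℕ) (H NN0 δ : ℝ) {Ω Ω' : Type} [Fintype Ω] [Fintype Ω'] [Nonempty Ω]
    [Nonempty Ω'] (X Xt : Ω → O m) (Z : Ω' → O m) (τ : O m) (W : ℕ → ℝ) (hm : 1 ≤ m) (hp : 1 ≤ p)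
    (hQ : 1 ≤ Q) (hQM : Q ∣ Mg) (hH : 1 ≤ H) (hM1 : 8 * p * Real.sqrt NN0 ≤ Mg)
    (hM2 : (Mg : ℝ) ≤ 9 * p * Real.sqrt NN0) (hN : (100 * Q * p * H) ^ 2 ≤ NN0) (hδ0 : 0 ≤ δ)
    (hδ : δ * (Q : ℝ) ^ 2 * (p : ℝ) ^ 2 * H ^ 5 ≤ 1 / 10 ^ 9)
    (hX : ∀ ω, ‖ph m (X ω)‖ ≤ 2 * p * Real.sqrt NN0)
    (hs : ∀ ω, (Q : O m) ∣ X ω + Xt ω ∧ ‖ph m (X ω + Xt ω)‖ ≤ δ * Real.sqrt NN0)
    (hZ : ∀ ω, (Q : O m) ∣ Z ω ∧ ‖ph m (Z ω)‖ ≤ δ * Real.sqrt NN0)
    (hτ : (Q : O m) ∣ τ ∧ ‖ph m τ‖ ≤ δ * Real.sqrt NN0)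
    (h1 : ∑ n ∈ (grid Mg).filter (fun n => ¬ Low m (gp m Mg n) H NN0), ‖ch X (gp m Mg n)‖ ≤ 1 / 10)
    (h2 : ∑ n ∈ (grid Mg).filter
      (fun n => ∃ (β : O m) (d : ℕ), Near m (gp m Mg n) β d H NN0 ∧ Deep Y Q d),
        ‖ch X (gp m Mg n)‖ ≤ 1 / 10)
    (h3 : ∀ (d : ℕ) (β : O m), 1 < d → (d : ℝ) ≤ H → Rough Y d → PrimAt β d →
      ‖ch Z (ph m β / d)‖ ≤ W d) (hW0 : ∀ d, 0 ≤ W d)
    (h4 : ∑ d ∈ (Icc 2 ⌊H⌋₊).filter (Rough Y), (d : ℝ) ^ 2 * W d ≤ 1 / 100) :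
    ∃ ω ω' ω'', X ω + Xt ω' + Z ω'' = τ := by
  by_contra hne
  push Not at hne
  obtain ⟨V, h0, hMg, hV, hinj, hδ4, hlt, herr⟩ :=
    num_EGCircle p Q Mg H NN0 δ hp hQ hQM hH hM1 hM2 hN hδ0 hδ
  generalize hε : 14 * (2 * V : ℕ) * δ * Real.sqrt NN0 / Mg = ε at herr
  let A : (Ω × Ω) × Ω' → O m := fun q => X q.1.1 + Xt q.1.2 + Z q.2 - τ
  have hA : ∀ θ, ch A θ = ch X θ * ch Xt θ * ch Z θ * ee (-pr m θ (ph m τ)) := fun θ => by
    have e1 := ch_sub_EGCircle (fun q : (Ω × Ω) × Ω' => X q.1.1 + Xt q.1.2 + Z q.2) τ θ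
    have e2 := ch_prod (fun q : Ω × Ω => X q.1 + Xt q.2) Z θ
    rw [← ch_prod X Xt θ, ← e2, ← e1]
  have hinv := inversion m Mg hm hMg A (fun q => by
      have e : ph m (A q) = ph m (X q.1.1) + (ph m (X q.1.2 + Xt q.1.2) - ph m (X q.1.2)) +
          (ph m (Z q.2) - ph m τ) := by
        simp only [A, map_sub, map_add]; ring
      have t1 := norm_add₃_le (a := ph m (X q.1.1))
        (b := ph m (X q.1.2 + Xt q.1.2) - ph m (X q.1.2)) (c := ph m (Z q.2) - ph m τ)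
      have t2 := norm_sub_le (ph m (X q.1.2 + Xt q.1.2)) (ph m (X q.1.2))
      have t3 := norm_sub_le (ph m (Z q.2)) (ph m τ)
      rw [e]
      linarith [hX q.1.1, hX q.1.2, (hs q.1.2).2, (hZ q.2).2, hτ.2])
    (fun q h => hne q.1.1 q.1.2 q.2 (sub_eq_zero.1 h))
  have hpt : ∀ q ∈ grid Q ×ˢ sqr (2 * V),
      ‖ch A (mp m Q Mg q.1 q.2) - ((‖ch X (mp m Q Mg q.1 q.2)‖ ^ 2 : ℝ) : ℂ)‖ ≤ 3 * ε ∧
        ‖ch Xt (mp m Q Mg q.1 q.2)‖ ^ 2 ≤ ‖ch X (mp m Q Mg q.1 q.2)‖ ^ 2 + 2 * ε := fun q hq => by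
    have h := main_point m Q Mg (2 * V) NN0 δ X Xt Z τ hm hQ hMg hδ0 hs hZ hτ q.1 q.2
      (mem_product.1 hq).2
    rw [hε] at h
    rw [hA]
    exact four_EGCircle _ _ _ _ ε (norm_ch_le _ _) (norm_ch_le _ _) (norm_ch_le _ _) h.1 h.2.1 h.2.2
  have hcard : ((grid Q ×ˢ sqr (2 * V)).card : ℝ) = (Q : ℝ) ^ 2 * (4 * V + 1) ^ 2 := by
    have c1 : (grid Q).card = Q * Q := by simp [grid]
    have c2 : (sqr (2 * V)).card = (4 * V + 1) * (4 * V + 1) := by
      have : (Icc (-((2 * V : ℕ) : ℤ)) ((2 * V : ℕ) : ℤ)).card = 4 * V + 1 := by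
        rw [Int.card_Icc]; omega
      rw [sqr, card_product, this]
    rw [card_product, c1, c2]; push_cast; ring
  generalize hMn : ∑ q ∈ grid Q ×ˢ sqr (2 * V), ‖ch X (mp m Q Mg q.1 q.2)‖ ^ 2 = Mn
  have hMn1 : 1 ≤ Mn := by
    have hmem : (((0, 0), (0, 0)) : (ℤ × ℤ) × (ℤ × ℤ)) ∈ grid Q ×ˢ sqr (2 * V) := by
      simp only [grid, sqr, mem_product, mem_Ico, mem_Icc]
      omega
    have := single_le_sum (f := fun q : (ℤ × ℤ) × (ℤ × ℤ) => ‖ch X (mp m Q Mg q.1 q.2)‖ ^ 2)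
      (fun q _ => by positivity) hmem
    have e0 : mp m Q Mg (0, 0) (0, 0) = 0 := by
      have : (⟨0, 0⟩ : O m) = 0 := rfl
      simp [mp, gp, this]
    rw [hMn] at this
    simpa [e0, ch_zero] using this
  have hXt : ∑ q ∈ grid Q ×ˢ sqr (2 * V), ‖ch Xt (mp m Q Mg q.1 q.2)‖ ^ 2 ≤ 2 * Mn := by
    refine (sum_le_sum fun q hq => (hpt q hq).2).trans ?_
    rw [sum_add_distrib, hMn, sum_const, nsmul_eq_mul, hcard]
    linarith
  have hmid := mid_region m Y Q Mg V H NN0 δ Mn X Xt Z W hm hQ hMg hQM hH h0 hδ0 hδ4 hV hZ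
    (by rw [← hMn, sum_product]) (by rw [sum_product] at hXt; exact hXt) h3 hW0 h4
  have hsub : (grid Q ×ˢ sqr (2 * V)).image (mi Q Mg) ⊆ grid Mg := fun n hn => by
    obtain ⟨q, _, rfl⟩ := mem_image.1 hn
    exact mi_mem Q Mg hMg q
  have hmain : ∑ n ∈ (grid Q ×ˢ sqr (2 * V)).image (mi Q Mg), ch A (gp m Mg n) =
      ∑ q ∈ grid Q ×ˢ sqr (2 * V), ch A (mp m Q Mg q.1 q.2) := by
    rw [sum_image (mi_inj Q Mg (2 * V) hQ hQM hinj)]
    refine sum_congr rfl fun q _ => ?_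
    obtain ⟨a, ha⟩ := gp_mi m Q Mg hQ hMg hQM q
    rw [ha, ch_period hm]
  have hclose : ‖∑ q ∈ grid Q ×ˢ sqr (2 * V), ch A (mp m Q Mg q.1 q.2) - (Mn : ℂ)‖ ≤ 3 / 100 := by
    rw [← hMn, Complex.ofReal_sum, ← sum_sub_distrib]
    refine (norm_sum_le _ _).trans ((sum_le_sum fun q hq => (hpt q hq).1).trans ?_)
    rw [sum_const, nsmul_eq_mul, hcard]
    linarith
  have hn3 : ∀ θ, ‖ch A θ‖ = ‖ch X θ‖ * ‖ch Xt θ‖ * ‖ch Z θ‖ := fun θ => by
    rw [hA, norm_mul, norm_mul, norm_mul, norm_ee, mul_one]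
  have hrest := cover_EGCircle (grid Mg \ (grid Q ×ˢ sqr (2 * V)).image (mi Q Mg))
    ((grid Mg).filter fun n => ¬ Low m (gp m Mg n) H NN0)
    ((grid Mg).filter fun n => ∃ (β : O m) (d : ℕ), Near m (gp m Mg n) β d H NN0 ∧ Deep Y Q d)
    ((grid Mg).filter fun n => (∃ (β : O m) (d : ℕ), Near m (gp m Mg n) β d H NN0 ∧ ¬ Deep Y Q d) ∧
        ¬ ∃ q ∈ grid Q ×ˢ sqr V, mi Q Mg q = n)
    (fun n => ‖ch A (gp m Mg n)‖) (fun n => ‖ch X (gp m Mg n)‖)
    (fun n => ‖ch X (gp m Mg n)‖ * ‖ch Xt (gp m Mg n)‖ * ‖ch Z (gp m Mg n)‖)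
    (fun n => by
      rw [hn3, mul_assoc]
      exact mul_le_of_le_one_right (norm_nonneg _)
        (mul_le_one₀ (norm_ch_le _ _) (norm_nonneg _) (norm_ch_le _ _)))
    (fun n => (hn3 _).le) (fun n => norm_nonneg _) (fun n hn => by
      obtain ⟨hg, hn⟩ := mem_sdiff.1 hn
      simp only [mem_filter]
      by_cases hl : Low m (gp m Mg n) H NN0
      · obtain ⟨β, d, hβ⟩ := near_of_low m hm _ H NN0 h0.le hl
        by_cases hd : Deep Y Q d
        · exact Or.inr (Or.inl ⟨hg, β, d, hβ, hd⟩)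
        · refine Or.inr (Or.inr ⟨hg, ⟨β, d, hβ, hd⟩, ?_⟩)
          rintro ⟨q, hq, rfl⟩
          refine hn (mem_image_of_mem _ ?_)
          simp only [sqr, mem_product, mem_Icc] at hq ⊢
          refine ⟨hq.1, ?_⟩
          omega
      · exact Or.inl ⟨hg, hl⟩)
  have hsplit := sum_sdiff (f := fun n => ch A (gp m Mg n)) hsub
  rw [hinv, hmain] at hsplit
  have hle := norm_sum_le (grid Mg \ (grid Q ×ˢ sqr (2 * V)).image (mi Q Mg))
    fun n => ch A (gp m Mg n)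
  rw [eq_neg_of_add_eq_zero_left hsplit, norm_neg] at hle
  have hfin := norm_sub_norm_le (Mn : ℂ) (∑ q ∈ grid Q ×ˢ sqr (2 * V), ch A (mp m Q Mg q.1 q.2))
  rw [norm_sub_rev, Complex.norm_real, Real.norm_of_nonneg (by linarith)] at hfin
  linarith

end Pool.Agent.P.MP_b75a1e_co.EG
end

-- part Pool.Agent.P.MP_b75a1e_co.EGFixed
section

set_option autoImplicit false

open Finset
open scoped BigOperators ComplexConjugate

namespace Pool.Agent.P.MP_b75a1e_co.EG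

theorem cop_EGFixed {R : Type} [CommRing R] {l l' : ℕ} (hl : l.Prime) (hl' : l'.Prime)
    (h : l ≠ l') (a b : ℕ) : IsCoprime ((l : R) ^ a) ((l' : R) ^ b) :=
  ((Nat.coprime_primes hl hl').2 h).cast.pow

theorem prod_dvd_EGFixed {R : Type} [CommRing R] {P : Finset ℕ} (hP : ∀ l ∈ P, l.Prime)
    (k : ℕ → ℕ) {x : R} (h : ∀ l ∈ P, (l : R) ^ k l ∣ x) : ∏ l ∈ P, (l : R) ^ k l ∣ x :=
  Finset.prod_dvd_of_coprime (fun l hl l' hl' e => cop_EGFixed (hP l hl) (hP l' hl') e _ _) h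

/-- Chinese remainders for families of elements. -/
theorem crt_family (m Y : ℕ) (ζ : ℕ → ℕ → O m) :
    ∃ ξ : ℕ → O m, ∀ l : ℕ, l.Prime → l ≤ Y → ∀ i, (l : O m) ^ 10 ∣ ξ i - ζ l i := by
  have : Finite {l : ℕ // l.Prime ∧ l ≤ Y} := (Set.finite_Iic Y).subset fun l hl => hl.2
  choose ξ h using fun i => Ideal.exists_forall_sub_mem_ideal
    (I := fun l : {l : ℕ // l.Prime ∧ l ≤ Y} => Ideal.span {(l.1 : O m) ^ 10})
    (fun l l' e => (Ideal.isCoprime_span_singleton_iff _ _).2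
      (cop_EGFixed l.2.1 l'.2.1 (fun h => e (Subtype.ext h)) _ _)) fun l => ζ l.1 i
  exact ⟨ξ, fun l hl hY i => Ideal.mem_span_singleton.1 (h i ⟨l, hl, hY⟩)⟩

theorem four_EGFixed {l : ℕ} (hl : l.Prime) (h2 : l ≠ 2) {k : ℕ} {x : ℤ}
    (h : ((l ^ k : ℕ) : ℤ) ∣ 4 * x) : (l : ℤ) ^ k ∣ x := by
  have := cop_EGFixed (R := ℤ) hl Nat.prime_two h2 k 2
  push_cast at h
  exact this.dvd_of_dvd_mul_left (by simpa using h)

theorem qq_EGFixed (m Y : ℕ) {x : ℤ} (h2 : ((2 ^ 7 : ℕ) : ℤ) ∣ 4 * x)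
    (h3 : ¬ 3 ∣ m → ((3 ^ 3 : ℕ) : ℤ) ∣ 4 * x)
    (h5 : ∀ l : ℕ, l.Prime → 5 ≤ l → l ≤ Y → ¬ l ∣ m → ((l ^ 1 : ℕ) : ℤ) ∣ 4 * x) :
    (QQ m Y : ℤ) ∣ x := by
  have hP : ∀ l ∈ (range (Y + 1)).filter (fun l => l.Prime ∧ 5 ≤ l ∧ ¬ l ∣ m),
      l.Prime ∧ 5 ≤ l ∧ l ≤ Y ∧ ¬ l ∣ m := fun l hl => by
    obtain ⟨a, b, c, d⟩ := mem_filter.1 hl
    exact ⟨b, c, Nat.lt_succ_iff.1 (mem_range.1 a), d⟩
  have h1 : (Q1 m Y : ℤ) ∣ x := by
    have := prod_dvd_EGFixed (fun l hl => (hP l hl).1) (fun _ => 1) fun l hl =>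
      four_EGFixed (hP l hl).1 (by have := (hP l hl).2.1; omega)
        (h5 l (hP l hl).1 (hP l hl).2.1 (hP l hl).2.2.1 (hP l hl).2.2.2)
    simpa [Q1] using this
  have hc : ∀ q a : ℕ, q.Prime → q < 5 → IsCoprime ((q : ℤ) ^ a) (Q1 m Y) := fun q a hq h => by
    rw [Q1, Nat.cast_prod]
    refine IsCoprime.prod_right fun l hl => ?_
    simpa using cop_EGFixed (R := ℤ) hq (hP l hl).1 (by have := (hP l hl).2.1; omega) a 1
  have c2 := hc 2 5 Nat.prime_two (by norm_num)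
  have c3 := hc 3 3 Nat.prime_three (by norm_num)
  rcases cc_cases m with ⟨-, e⟩ | ⟨h, e⟩
  · have := c2.mul_dvd (by push_cast at h2 ⊢; omega) h1
    simpa [QQ, e] using this
  · have h4 := h3 h
    have := (c2.mul_left c3).mul_dvd (by push_cast at h2 h4 ⊢; omega) h1
    simpa [QQ, e] using this

theorem sqf_EGFixed {m : ℕ} (hsq : Squarefree m) (hodd : m % 2 = 1) (k : ℕ) {x : ℤ}
    (h : ∀ q : ℕ, q.Prime → q ∣ m → ((q ^ k : ℕ) : ℤ) ∣ 4 * x) : (m : ℤ) ^ k ∣ x := by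
  rw [← Nat.prod_primeFactors_of_squarefree hsq, Nat.cast_prod, ← prod_pow]
  refine prod_dvd_EGFixed (fun l hl => Nat.prime_of_mem_primeFactors hl) (fun _ => k) fun l hl => ?_
  have h1 := Nat.dvd_of_mem_primeFactors hl
  exact four_EGFixed (Nat.prime_of_mem_primeFactors hl) (by rintro rfl; omega)
    (h l (Nat.prime_of_mem_primeFactors hl) h1)

/-- Gluing of the local congruences. -/
theorem glue (m Y n : ℕ) (hY : 3 ≤ Y) (hsq : Squarefree m) (hodd : m % 2 = 1) (hsm : Smo Y m)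
    (F : O m) (a : ℤ) (h2 : Lat (2 ^ 7) (2 ^ 7) F) (h3 : ¬ 3 ∣ m → Lat (3 ^ 3) (3 ^ 3) F)
    (h5 : ∀ l : ℕ, l.Prime → 5 ≤ l → l ≤ Y → ¬ l ∣ m → Lat (l ^ 1) (l ^ 1) F)
    (hq : ∀ q : ℕ, q.Prime → q ∣ m → Lat (q ^ 2) (q ^ 1) ((((16 * n : ℤ) * a : ℤ) : O m) + F)) :
    ∃ S : O m, F = 4 * S ∧ (QQ m Y : O m) ∣ S ∧ mu m ∣ S + ((4 * n * a : ℤ) : O m) := by
  obtain ⟨S, rfl⟩ : ((4 : ℕ) : O m) ∣ F :=
    (nat_dvd_iff 4 F).2 ⟨Dvd.dvd.trans (by norm_num) h2.1, Dvd.dvd.trans (by norm_num) h2.2⟩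
  have e1 : (((4 : ℕ) : O m) * S).re = 4 * S.re := by simp
  have e2 : (((4 : ℕ) : O m) * S).im = 4 * S.im := by simp
  refine ⟨S, by simp, (nat_dvd_iff _ _).2 ⟨?_, ?_⟩, (mu_dvd_iff _).2 ⟨?_, ?_⟩⟩
  · exact qq_EGFixed m Y (e1 ▸ h2.1) (fun h => e1 ▸ (h3 h).1) fun l a b c d => e1 ▸ (h5 l a b c d).1
  · exact qq_EGFixed m Y (e2 ▸ h2.2) (fun h => e2 ▸ (h3 h).2) fun l a b c d => e2 ▸ (h5 l a b c d).2
  · refine sqf_EGFixed hsq hodd 2 fun q c d => ?_
    have := (hq q c d).1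
    rw [Zsqrtd.re_add, e1, Zsqrtd.re_intCast] at this
    rwa [Zsqrtd.re_add, Zsqrtd.re_intCast, show 4 * (S.re + 4 * n * a) = 16 * n * a + 4 * S.re by ring]
  · refine (pow_one (m : ℤ)).symm.dvd.trans (sqf_EGFixed hsq hodd 1 fun q c d => ?_)
    have := (hq q c d).2
    rw [Zsqrtd.im_add, e2, Zsqrtd.im_intCast, zero_add] at this
    rwa [Zsqrtd.im_add, Zsqrtd.im_intCast, add_zero]

section
variable {m l a b j : ℕ} {x y : O m}

theorem lat_add_EGFixed (h : Lat a b x) (h' : Lat a b y) : Lat a b (x + y) :=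
  ⟨dvd_add h.1 h'.1, dvd_add h.2 h'.2⟩

theorem lat_sum_EGFixed (s : Finset ℕ) {f : ℕ → O m} (h : ∀ i ∈ s, Lat a b (f i)) :
    Lat a b (∑ i ∈ s, f i) :=
  Finset.sum_induction f (Lat a b) (fun _ _ => lat_add_EGFixed) ⟨dvd_zero _, dvd_zero _⟩ h

theorem lat_of_EGFixed (h : (l : O m) ^ j ∣ x) (ha : a ≤ j) (hb : b ≤ j) : Lat (l ^ a) (l ^ b) x := by
  rw [← Nat.cast_pow, nat_dvd_iff] at h
  exact ⟨(Int.natCast_dvd_natCast.2 (pow_dvd_pow l ha)).trans h.1,
    (Int.natCast_dvd_natCast.2 (pow_dvd_pow l hb)).trans h.2⟩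

theorem lat_dvd_EGFixed (h : Lat (l ^ (j + a)) (l ^ (j + b)) x) : (l : O m) ^ j ∣ x := by
  rw [← Nat.cast_pow, nat_dvd_iff]
  exact ⟨(Int.natCast_dvd_natCast.2 (pow_dvd_pow l (Nat.le_add_right _ _))).trans h.1,
    (Int.natCast_dvd_natCast.2 (pow_dvd_pow l (Nat.le_add_right _ _))).trans h.2⟩

theorem lat_mul_EGFixed (e : a = b ∨ l ∣ m ∧ a = b + 1) (h : Lat (l ^ a) (l ^ b) x) (G : O m) :
    Lat (l ^ a) (l ^ b) (G * x) := by
  refine ⟨?_, ?_⟩
  · rw [Zsqrtd.re_mul]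
    refine dvd_add (h.1.mul_left _) ?_
    rcases e with rfl | ⟨e, rfl⟩
    · exact h.2.mul_left _
    · rw [pow_succ', Nat.cast_mul]
      exact mul_dvd_mul ((dvd_neg.2 (Int.natCast_dvd_natCast.2 e)).mul_right _) h.2
  · rw [Zsqrtd.im_mul]
    exact dvd_add (h.2.mul_left _)
      (((Int.natCast_dvd_natCast.2 (pow_dvd_pow l (by omega))).trans h.1).mul_left _)

theorem lat_cancel_EGFixed (hl : l ≠ 0) {c : ℤ} (hc : IsCoprime (l : ℤ) c)
    (h : Lat (l ^ (j + a)) (l ^ (j + b)) ((((l : ℤ) ^ j * c : ℤ) : O m) * x)) :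
    Lat (l ^ a) (l ^ b) x := by
  have key : ∀ (a : ℕ) (t : ℤ), ((l ^ (j + a) : ℕ) : ℤ) ∣ (l : ℤ) ^ j * c * t → ((l ^ a : ℕ) : ℤ) ∣ t := by
    intro a t ht
    rw [Nat.cast_pow, pow_add, mul_assoc,
      mul_dvd_mul_iff_left (pow_ne_zero _ (Int.natCast_ne_zero.2 hl))] at ht
    rw [Nat.cast_pow]
    exact hc.pow_left.dvd_of_dvd_mul_left ht
  obtain ⟨h1, h2⟩ := h
  rw [Zsqrtd.re_mul, Zsqrtd.re_intCast, Zsqrtd.im_intCast, mul_zero, zero_mul, add_zero] at h1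
  rw [Zsqrtd.im_mul, Zsqrtd.re_intCast, Zsqrtd.im_intCast, zero_mul, add_zero] at h2
  exact ⟨key a _ h1, key b _ h2⟩

theorem norm_sub_EGFixed (h : (l : O m) ^ j ∣ x - y) : (l : ℤ) ^ j ∣ x.norm - y.norm := by
  rw [← Nat.cast_pow, nat_dvd_iff, Nat.cast_pow, Zsqrtd.re_sub, Zsqrtd.im_sub] at h
  rw [norm_eq, norm_eq, show x.re ^ 2 + m * x.im ^ 2 - (y.re ^ 2 + m * y.im ^ 2) =
    (x.re - y.re) * (x.re + y.re) + (x.im - y.im) * (m * (x.im + y.im)) by ring]
  exact dvd_add (h.1.mul_right _) (h.2.mul_right _)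

theorem cast_dvd_EGFixed {s : ℤ} (h : (l : ℤ) ^ j ∣ s) : (l : O m) ^ j ∣ (s : O m) := by
  simpa using map_dvd (Int.castRingHom (O m)) h

end

theorem loc_all_EGFixed (m p n Nf : ℕ) (hsq : Squarefree m) (h4 : m % 4 = 3)
    (hmax : ∀ q, q.Prime → q ∣ m → q ≤ p) (hodd : p % 2 = 1) (hN : Nf + 4 * n = p)
    (hn : 16 * n ≤ p) (hp : 100 ≤ p) (l : ℕ) : ∃ (e0 e1 : ℕ) (x0 : ℤ), l.Prime →
      Loc m Nf l e0 e1 x0 ∧ e0 ≤ 7 ∧ (e0 = e1 ∨ l ∣ m ∧ e0 = e1 + 1) ∧
        (l ∣ m → e0 = 2 ∧ e1 = 1 ∧ x0 = 16 * n) ∧ (¬ l ∣ m → x0 = 0 ∧ e1 = e0 ∧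
          (l = 2 → e0 = 7) ∧ (l = 3 → e0 = 3) ∧ (5 ≤ l → e0 = 1)) := by
  by_cases hm : l ∣ m
  · refine ⟨2, 1, 16 * n, fun hl => ⟨loc_ram m Nf n p l hl (by rintro rfl; omega) hm (fun h => ?_)
      (hmax l hl hm) hodd hN hn hp, by norm_num, Or.inr ⟨hm, rfl⟩, fun _ => ⟨rfl, rfl, rfl⟩,
      fun h => absurd hm h⟩⟩
    exact hl.one_lt.ne' (Nat.isUnit_iff.1 (hsq l (by rwa [← sq])))
  by_cases h2 : l = 2
  · subst h2
    exact ⟨7, 7, 0, fun _ => ⟨loc_two m Nf h4 (by omega) (by omega), le_rfl, Or.inl rfl,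
      fun h => absurd h hm, fun _ => by norm_num⟩⟩
  by_cases h3 : l = 3
  · subst h3
    exact ⟨3, 3, 0, fun _ => ⟨loc_three m Nf hm (by omega) (by omega), by norm_num, Or.inl rfl,
      fun h => absurd h hm, fun _ => by norm_num⟩⟩
  refine ⟨1, 1, 0, fun hl => ⟨loc_big m Nf l hl (hl.five_le_of_ne_two_of_ne_three h2 h3) hm
    (by omega) (by omega), by norm_num, Or.inl rfl, fun h => absurd h hm, fun _ => by simp [h2, h3]⟩⟩

/-- L15: the fixed summands. -/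
theorem fixed_part (m p Y n Nf : ℕ) (hsq : Squarefree m) (h4 : m % 4 = 3)
    (hmax : ∀ q, q.Prime → q ∣ m → q ≤ p) (hodd : p % 2 = 1) (hpY : p ≤ Y) (hN : Nf + 4 * n = p)
    (hn : 16 * n ≤ p) (hp : 100 ≤ p) :
    ∃ ζ : ℕ → O m, ∀ z : ℕ → O m, (∀ i < Nf, ((primorial Y ^ 10 : ℕ) : O m) ∣ z i - ζ i) →
      ∃ (Gf : O m) (D : ℕ), D ≠ 0 ∧ (D : O m) * Gf = ∏ i ∈ range Nf, star (z i) ^ 2 ∧
        Pure Y Gf.norm ∧
        ∀ Γ : O m, (m : ℤ) ∣ (Γ * Gf).im - (Γ * Gf).re →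
          ∃ S : O m, ph m S = ∑ i ∈ range Nf, ph m (Γ * Gf) * (ph m (z i) / conj (ph m (z i))) ∧
            (QQ m Y : O m) ∣ S ∧ mu m ∣ S + ((4 * n * (Γ * Gf).re : ℤ) : O m) := by
  choose e0 e1 x0 hL using loc_all_EGFixed m p n Nf hsq h4 hmax hodd hN hn hp
  choose! ζ w j h1 h2 h3 using fun l (hl : l.Prime) => (hL l hl).1
  obtain ⟨ξ, hξ⟩ := crt_family m Y ζ
  refine ⟨ξ, fun z hz => ?_⟩
  set P := (range (Y + 1)).filter Nat.Prime with hPd
  have hP : ∀ l, l ∈ P ↔ l.Prime ∧ l ≤ Y := fun l => by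
    rw [hPd, mem_filter, mem_range, Nat.lt_succ_iff, and_comm]
  have hP' : ∀ l ∈ P, l.Prime := fun l hl => ((hP l).1 hl).1
  have a1 : ∀ l ∈ P, ∀ i < Nf, (l : O m) ^ 10 ∣ z i - ζ l i := fun l hl i hi => by
    obtain ⟨b1, b2⟩ := (hP l).1 hl
    rw [← sub_add_sub_cancel (z i) (ξ i)]
    refine dvd_add (Dvd.dvd.trans ?_ (hz i hi)) (hξ l b1 b2 i)
    rw [Nat.cast_pow]
    exact pow_dvd_pow_of_dvd (Nat.cast_dvd_cast (b1.dvd_primorial_iff.2 b2)) _
  have a2 : ∀ l ∈ P, ∀ i < Nf, ∀ k ≤ 10, ((l : ℤ) ^ k ∣ (z i).norm ↔ (l : ℤ) ^ k ∣ (ζ l i).norm) :=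
    fun l hl i hi k hk => dvd_iff_dvd_of_dvd_sub
      ((pow_dvd_pow _ hk).trans (norm_sub_EGFixed (a1 l hl i hi)))
  have a3 : ∀ l ∈ P, ∀ i < Nf, Lat (l ^ (j l i + e0 l)) (l ^ (j l i + e1 l))
      (4 * z i ^ 2 - ((z i).norm : O m) * w l i) := fun l hl i hi => by
    obtain ⟨b1, -, -, b4⟩ := h1 l (hP' l hl) i hi
    obtain ⟨-, b5, b6, -⟩ := hL l (hP' l hl)
    have b7 := cast_dvd_EGFixed (m := m) (norm_sub_EGFixed (a1 l hl i hi))
    rw [show 4 * z i ^ 2 - ((z i).norm : O m) * w l i = 4 * ζ l i ^ 2 - ((ζ l i).norm : O m) * w l i +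
      ((z i - ζ l i) * (4 * (z i + ζ l i)) - (((z i).norm - (ζ l i).norm : ℤ) : O m) * w l i) by
        push_cast; ring]
    exact lat_add_EGFixed b4 (lat_of_EGFixed
      (dvd_sub ((a1 l hl i hi).mul_right _) (b7.mul_right _)) (by omega) (by omega))
  have a4 : ∀ l ∈ P, ∀ i < Nf, (l : ℤ) ^ j l i ∣ (z i).norm := fun l hl i hi =>
    (a2 l hl i hi _ (by have := (h1 l (hP' l hl) i hi).1; omega)).2 (h1 l (hP' l hl) i hi).2.1
  choose! N hN' using fun i (hi : i < Nf) =>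
    prod_dvd_EGFixed hP' (fun l => j l i) fun l hl => a4 l hl i hi
  choose! x hx using fun i (hi : i < Nf) =>
    prod_dvd_EGFixed hP' (fun l => j l i) (x := 4 * z i ^ 2) fun l hl => by
      have := dvd_add (lat_dvd_EGFixed (a3 l hl i hi))
        ((cast_dvd_EGFixed (a4 l hl i hi)).mul_right (w l i))
      rwa [sub_add_cancel] at this
  obtain ⟨Gf, hG⟩ := prod_dvd_EGFixed hP' (fun l => ∑ i ∈ range Nf, j l i) fun l hl =>
    h3 l (hP' l hl) z (a1 l hl)
  have a5 : ∀ l ∈ P, ∀ i < Nf, ¬ (l : ℤ) ∣ N i := fun l hl i hi h =>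
    (h1 l (hP' l hl) i hi).2.2.1 ((a2 l hl i hi _ (by
      have := (h1 l (hP' l hl) i hi).1; omega)).1 (by
        rw [hN' i hi, pow_succ]
        exact mul_dvd_mul (dvd_prod_of_mem (fun l : ℕ => (l : ℤ) ^ j l i) hl) h))
  have a6 : ∀ l ∈ P, ∀ i < Nf, IsCoprime (l : ℤ) (N i) := fun l hl i hi =>
    (Nat.prime_iff_prime_int.1 (hP' l hl)).irreducible.coprime_iff_not_dvd.2 (a5 l hl i hi)
  have a7 : ∀ i < Nf, ((z i).norm : O m) = (∏ l ∈ P, (l : O m) ^ j l i) * N i := fun i hi => by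
    rw [hN' i hi]
    push_cast
    rfl
  have a8 : ∀ i < Nf, (N i : O m) ∣ Gf * x i := fun i hi => by
    have c : ∀ k : ℕ → ℕ, IsCoprime (N i : O m) (∏ l ∈ P, (l : O m) ^ k l) := fun k =>
      IsCoprime.prod_right fun l hl => by
        simpa using ((a6 l hl i hi).symm.pow_right (n := k l)).map (Int.castRingHom (O m))
    refine ((c fun l => ∑ i ∈ range Nf, j l i).mul_right (c fun l => j l i)).dvd_of_dvd_mul_left ?_
    rw [mul_mul_mul_comm, ← hG, ← hx i hi, ← mul_prod_erase _ _ (mem_range.2 hi)]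
    refine ⟨(∏ l ∈ P, (l : O m) ^ j l i) * (z i * star (z i)) * 4 *
      ∏ k ∈ (range Nf).erase i, star (z k) ^ 2, ?_⟩
    have := a7 i hi
    rw [Zsqrtd.norm_eq_mul_conj] at this
    linear_combination ((z i * star (z i)) * 4 * ∏ k ∈ (range Nf).erase i, star (z k) ^ 2) * this
  choose! y hy using a8
  have hD : (∏ l ∈ P, l ^ ∑ i ∈ range Nf, j l i) ≠ 0 :=
    prod_ne_zero_iff.2 fun l hl => pow_ne_zero _ (hP' l hl).ne_zero
  refine ⟨Gf, ∏ l ∈ P, l ^ ∑ i ∈ range Nf, j l i, hD, by rw [hG]; push_cast; rfl, ?_, fun Γ hΓ => ?_⟩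
  · have b1 : Gf.norm = ∏ i ∈ range Nf, N i ^ 2 := by
      have b2 := congrArg Zsqrtd.norm hG
      rw [Zsqrtd.norm_mul, norm_prod', norm_prod', prod_congr rfl fun i hi => by
        rw [norm_pow', Zsqrtd.norm_conj, hN' i (mem_range.1 hi), mul_pow], prod_mul_distrib] at b2
      refine (mul_left_cancel₀ (prod_ne_zero_iff.2 fun l hl => ?_) (b2.symm.trans ?_))
      · rw [norm_pow', Zsqrtd.norm_natCast]
        exact pow_ne_zero _ (mul_self_ne_zero.2 (Int.natCast_ne_zero.2 (hP' l hl).ne_zero))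
      · congr 1
        simp only [norm_pow', Zsqrtd.norm_natCast]
        simp only [← prod_pow, ← prod_pow_eq_pow_sum]
        rw [prod_comm]
        exact prod_congr rfl fun l _ => prod_congr rfl fun i _ => by ring
    intro l hl hY h
    rw [b1] at h
    obtain ⟨i, hi, h⟩ := ((Nat.prime_iff_prime_int.1 hl).dvd_finsetProd_iff _).1 h
    exact a5 l ((hP l).2 ⟨hl, hY⟩) i (mem_range.1 hi)
      ((Nat.prime_iff_prime_int.1 hl).dvd_of_dvd_pow h)
  have a9 : ∀ l ∈ P, Lat (l ^ e0 l) (l ^ e1 l)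
      (((x0 l * (Γ * Gf).re : ℤ) : O m) + ∑ i ∈ range Nf, Γ * y i) := fun l hl => by
    have b0 := (hP' l hl).ne_zero
    rw [show ((x0 l * (Γ * Gf).re : ℤ) : O m) + ∑ i ∈ range Nf, Γ * y i =
      ((x0 l * (Γ * Gf).re : ℤ) : O m) + Γ * Gf * ∑ i ∈ range Nf, w l i +
        ∑ i ∈ range Nf, (Γ * y i - Γ * Gf * w l i) by rw [sum_sub_distrib, mul_sum]; ring]
    refine lat_add_EGFixed (h2 l (hP' l hl) _ fun h => (Int.natCast_dvd_natCast.2 h).trans hΓ)
      (lat_sum_EGFixed _ fun i hi => ?_)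
    rw [mem_range] at hi
    have b1 : Lat (l ^ e0 l) (l ^ e1 l) (x i - (N i : O m) * w l i) := by
      refine lat_cancel_EGFixed (j := j l i) b0 (c := ∏ k ∈ P.erase l, (k : ℤ) ^ j k i)
        (IsCoprime.prod_right fun k hk => ?_) ?_
      · simpa using cop_EGFixed (R := ℤ) (hP' l hl) (hP' k (mem_of_mem_erase hk))
          (ne_of_mem_erase hk).symm 1 (j k i)
      · have b2 := a3 l hl i hi
        rw [hx i hi, a7 i hi, mul_assoc, ← mul_sub] at b2
        rw [mul_prod_erase P (fun k : ℕ => (k : ℤ) ^ j k i) hl]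
        push_cast
        exact b2
    refine lat_cancel_EGFixed (j := 0) b0 (a6 l hl i hi) ?_
    have b3 := lat_mul_EGFixed (hL l (hP' l hl)).2.2.1 b1 (Γ * Gf)
    rw [zero_add, zero_add, pow_zero, one_mul, show (N i : O m) * (Γ * y i - Γ * Gf * w l i) =
      Γ * Gf * (x i - (N i : O m) * w l i) by linear_combination (-Γ) * hy i hi]
    exact b3
  have a10 : ∀ l : ℕ, l.Prime → l ≤ Y → ¬ l ∣ m →
      Lat (l ^ e0 l) (l ^ e0 l) (∑ i ∈ range Nf, Γ * y i) := fun l hl hY h => by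
    have b1 := a9 l ((hP l).2 ⟨hl, hY⟩)
    obtain ⟨b2, b3, -⟩ := (hL l hl).2.2.2.2 h
    rwa [b2, b3, zero_mul, Int.cast_zero, zero_add] at b1
  obtain ⟨S, hS, b1, b2⟩ := glue m Y n (by omega) hsq (by omega)
    (fun l hl h => (hmax l hl h).trans hpY) (∑ i ∈ range Nf, Γ * y i) (Γ * Gf).re
    (by
      have := a10 2 Nat.prime_two (by omega) (by omega)
      rwa [((hL 2 Nat.prime_two).2.2.2.2 (by omega)).2.2.1 rfl] at this)
    (fun h => by
      have := a10 3 Nat.prime_three (by omega) h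
      rwa [((hL 3 Nat.prime_three).2.2.2.2 h).2.2.2.1 rfl] at this)
    (fun l hl h5 hY h => by
      have := a10 l hl hY h
      rwa [((hL l hl).2.2.2.2 h).2.2.2.2 h5] at this)
    fun q hq h => by
      have := a9 q ((hP q).2 ⟨hq, (hmax q hq h).trans hpY⟩)
      obtain ⟨c1, c2, c3⟩ := (hL q hq).2.2.2.1 h
      rwa [c1, c2, c3] at this
  refine ⟨S, mul_left_cancel₀ (by norm_num : (4 : ℂ) ≠ 0) ?_, b1, b2⟩
  rw [← map_ofNat (ph m) 4, ← map_mul, ← hS, map_sum, mul_sum]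
  refine sum_congr rfl fun i hi => ?_
  rw [mem_range] at hi
  have c0 : ph m (z i) ≠ 0 := fun h => by
    have c1 := norm_sq_ph (z i)
    rw [h, norm_zero, zero_pow two_ne_zero, eq_comm, Int.cast_eq_zero] at c1
    exact (h1 2 Nat.prime_two i hi).2.2.1 ((a2 2 ((hP 2).2 ⟨Nat.prime_two, by omega⟩) i hi _ (by
      have := (h1 2 Nat.prime_two i hi).1; omega)).1 (c1 ▸ dvd_zero _))
  have c2 : Γ * y i * star (z i) * z i = 4 * (Γ * Gf) * z i * z i := by
    have := a7 i hi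
    rw [Zsqrtd.norm_eq_mul_conj] at this
    linear_combination (Γ * y i) * this - (Γ * ∏ l ∈ P, (l : O m) ^ j l i) * hy i hi -
      (Γ * Gf) * hx i hi
  have c3 := congrArg (ph m) c2
  rw [map_mul _ _ (z i), map_mul _ _ (z i), map_mul _ _ (star (z i)), map_mul _ _ (z i),
    map_mul _ 4, ph_star] at c3
  rw [← mul_div_assoc, ← mul_div_assoc, eq_div_iff ((map_ne_zero _).2 c0),
    mul_right_cancel₀ c0 c3, mul_assoc]

end Pool.Agent.P.MP_b75a1e_co.EG
end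

-- part Pool.Agent.P.MP_b75a1e_co.EGHensel
section

set_option autoImplicit false

open Finset
open scoped BigOperators ComplexConjugate

namespace Pool.Agent.P.MP_b75a1e_co.EG

/-- Second moment over a random cube with phases that are linear in each coordinate. -/
theorem second_moment (r len : ℕ) (hlen : 1 ≤ len) (H : ℝ) (hH : 0 < H)
    (f : (Fin r → Fin len) → (Fin r → Bool) → ℝ)
    (hf : ∀ ε ε' : Fin r → Bool, ε ≠ ε' → ∃ j, ∀ t, ∃ a b : ℝ, (∀ z : ℤ, 1 / (2 * H) ≤ |b - z|) ∧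
      ∀ v : Fin len, f (Function.update t j v) ε - f (Function.update t j v) ε' = a + b * (v : ℕ)) :
    𝔼 t : Fin r → Fin len, ‖𝔼 ε : Fin r → Bool, ee (f t ε)‖ ^ 2 ≤ 1 / 2 ^ r + H / len := by
  have hl : (0 : ℝ) < len := by exact_mod_cast hlen
  have : Nonempty (Fin len) := ⟨⟨0, hlen⟩⟩
  have key : ∀ ε ε' : Fin r → Bool, ‖𝔼 t : Fin r → Fin len, ee (f t ε - f t ε')‖ ≤
      (if ε = ε' then (1 : ℝ) else 0) + H / len := by
    intro ε ε'
    split_ifs with h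
    · subst h
      simp only [sub_self, ee_zero, Fintype.expect_const, norm_one, le_add_iff_nonneg_right]
      positivity
    obtain ⟨j, hj⟩ := hf ε ε' h
    rw [expect_update_c _ j, zero_add]
    refine (RCLike.norm_expect_le (K := ℂ)).trans (expect_le univ_nonempty fun t _ => ?_)
    obtain ⟨a, b, hb, hv⟩ := hj t
    simp only [hv]
    have h1 := geom_ee a b (1 / (2 * H)) (by positivity) hb len
    rw [Fintype.expect_eq_sum_div_card, Fintype.card_fin, norm_div, Complex.norm_natCast,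
      Fin.sum_univ_eq_sum_range (fun v => ee (a + b * (v : ℕ))) len]
    refine div_le_div_of_nonneg_right (h1.trans_eq ?_) hl.le
    field_simp
  have h1 : ∀ t, ((‖𝔼 ε : Fin r → Bool, ee (f t ε)‖ ^ 2 : ℝ) : ℂ) =
      𝔼 ε : Fin r → Bool, 𝔼 ε' : Fin r → Bool, ee (f t ε - f t ε') := fun t => by
    rw [Complex.ofReal_pow, ← Complex.mul_conj', map_expect, expect_mul_expect]
    simp only [sub_eq_add_neg, ee_add, ee_neg]
  have h2 : ((𝔼 t : Fin r → Fin len, ‖𝔼 ε : Fin r → Bool, ee (f t ε)‖ ^ 2 : ℝ) : ℂ) =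
      𝔼 ε : Fin r → Bool, 𝔼 ε' : Fin r → Bool, 𝔼 t : Fin r → Fin len, ee (f t ε - f t ε') := by
    rw [Complex.ofReal_expect]
    simp only [h1]
    rw [expect_comm]
    exact expect_congr rfl fun ε _ => expect_comm _ _ _
  refine (le_abs_self _).trans ?_
  rw [← Real.norm_eq_abs, ← Complex.norm_real, h2]
  refine (RCLike.norm_expect_le (K := ℂ)).trans (expect_le univ_nonempty fun ε _ => ?_)
  refine (RCLike.norm_expect_le (K := ℂ)).trans
    ((expect_le_expect fun ε' _ => key ε ε').trans_eq ?_)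
  rw [expect_add_distrib, Fintype.expect_const, Fintype.expect_eq_sum_div_card]
  simp

theorem dvd_prod_EGHensel {R ι : Type} [CommRing R] (s : Finset ι) (a : R) (f g : ι → R)
    (h : ∀ i ∈ s, a ∣ f i - g i) : a ∣ ∏ i ∈ s, f i - ∏ i ∈ s, g i := by
  classical
  induction s using Finset.induction_on with
  | empty => simp
  | insert i s hi ih =>
    rw [prod_insert hi, prod_insert hi, show f i * ∏ i ∈ s, f i - g i * ∏ i ∈ s, g i =
      f i * (∏ i ∈ s, f i - ∏ i ∈ s, g i) + (f i - g i) * ∏ i ∈ s, g i by ring]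
    exact ((ih fun k hk => h k (mem_insert_of_mem hk)).mul_left _).add
      ((h i (mem_insert_self _ _)).mul_right _)

theorem hz_EGHensel (m M t : ℕ) (b : Bool) : (if b then hz m M t else star (hz m M t)) =
    1 + (((if b then 1 else -1 : ℤ) : O m)) * ((M : O m) * (t : O m) * rt m) := by
  cases b <;> ext <;> simp [hz, rt]

theorem phase_EGHensel {m : ℕ} (hm : 1 ≤ m) (θ : ℂ) (y y' P V : O m) (v : ℕ)
    (h : y - y' = P + (v : O m) * (mu m * V)) :
    pr m (θ / ph m (mu m)) (ph m y) - pr m (θ / ph m (mu m)) (ph m y') =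
      pr m (θ / ph m (mu m)) (ph m P) + pr m θ (ph m V) * v := by
  have h0 := ph_ne_zero hm (mu_ne_zero hm)
  rw [← pr_sub_right, ← map_sub, h, map_add, pr_add_right, map_mul, map_mul, map_natCast]
  unfold pr
  rw [show θ / ph m (mu m) * ((v : ℂ) * (ph m (mu m) * ph m V)) = θ * ph m V * ((v : ℝ) : ℂ) by
    push_cast
    field_simp, Complex.im_mul_ofReal]
  ring

/-- Two vertices that differ in the coordinate `j`. -/
theorem split_EGHensel {m r len : ℕ} (hm : 1 ≤ m) (k A : ℕ) (Γ : O m) (NN0 : ℝ)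
    (hN : ∀ t : Fin r → Fin len,
      ((Γ * base fun i => hz m (k * m) (A + t i)).norm : ℝ) ≤ 2 * NN0)
    {ε ε' : Fin r → Bool} {j : Fin r} (hj : ε j ≠ ε' j) (t : Fin r → Fin len) :
    ∃ (P D : O m) (s : ℤ), (s = 1 ∨ s = -1) ∧ ((k * m : ℕ) : O m) ∣ D - 1 ∧
      ‖ph m (2 * k * (Γ * D))‖ * A ≤ 2 * √(2 * NN0) ∧ ∀ v : Fin len,
        Γ * cube (fun i => hz m (k * m) (A + Function.update t j v i)) ε -
          Γ * cube (fun i => hz m (k * m) (A + Function.update t j v i)) ε' =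
            P + ((v : ℕ) : O m) * (mu m * (s * (2 * k * (Γ * D)))) := by
  let C : (Fin r → Bool) → O m := fun e =>
    ∏ i ∈ univ.erase j, if e i then hz m (k * m) (A + t i) else star (hz m (k * m) (A + t i))
  have hc : ∀ (e : Fin r → Bool) (v : Fin len),
      cube (fun i => hz m (k * m) (A + Function.update t j v i)) e =
        (if e j then hz m (k * m) (A + v) else star (hz m (k * m) (A + v))) * C e := fun e v => by
    rw [cube, ← mul_prod_erase _ _ (mem_univ j), Function.update_self]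
    exact congrArg _ (prod_congr rfl fun i hi => by rw [Function.update_of_ne (ne_of_mem_erase hi)])
  have h1 : ((k * m : ℕ) : O m) ∣ C ε' - 1 := by
    have := dvd_prod_EGHensel (univ.erase j) ((k * m : ℕ) : O m) (fun i =>
      if ε' i then hz m (k * m) (A + t i) else star (hz m (k * m) (A + t i))) (fun _ => 1)
      fun i _ => by
        rw [hz_EGHensel, add_sub_cancel_left]
        exact ((dvd_mul_right _ _).mul_right _).mul_left _
    rwa [prod_const_one] at this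
  obtain ⟨w, hw⟩ : 2 * ((k * m : ℕ) : O m) ∣ C ε - C ε' :=
    dvd_prod_EGHensel _ _ _ _ fun i _ => by
      rw [hz_EGHensel, hz_EGHensel]
      cases ε i <;> cases ε' i
      · simp
      · exact ⟨-(((A + t i : ℕ) : O m) * rt m), by push_cast; simp; ring⟩
      · exact ⟨((A + t i : ℕ) : O m) * rt m, by push_cast; simp; ring⟩
      · simp
  have h2 : ∀ e, ‖ph m (k * (Γ * C e))‖ * A ≤ √(2 * NN0) := fun e => by
    have h3 := hN t
    have h4 := hc e (t j)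
    rw [Function.update_eq_self] at h4
    rw [Zsqrtd.norm_mul, ← norm_cube _ e, ← Zsqrtd.norm_mul, h4, ← norm_sq_ph, mul_left_comm,
      map_mul, norm_mul] at h3
    refine le_trans ?_ (Real.le_sqrt_of_sq_le h3)
    rw [map_mul, norm_mul, map_natCast, Complex.norm_natCast, mul_right_comm]
    refine mul_le_mul_of_nonneg_right (le_trans ?_ (abs_im_le hm _)) (norm_nonneg _)
    have h5 : (k : ℝ) * A ≤ k * m * (A + (t j : ℕ)) := by
      have : (1 : ℝ) ≤ m := by exact_mod_cast hm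
      have h6 : (0 : ℝ) ≤ k := Nat.cast_nonneg k
      exact mul_le_mul (le_mul_of_one_le_right h6 this)
        (le_add_of_nonneg_right (Nat.cast_nonneg _)) (Nat.cast_nonneg _) (by positivity)
    refine h5.trans ?_
    cases e j
    · refine le_trans (le_of_eq ?_) (neg_le_abs _)
      simp [hz]
    · refine le_trans (le_of_eq ?_) (le_abs_self _)
      simp [hz]
  have h7 : C ε = C ε' + 2 * ((k * m : ℕ) : O m) * w := by rw [← hw]; ring
  refine ⟨Γ * (C ε - C ε') + ((if ε j then 1 else -1 : ℤ) : O m) *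
    (((k * m : ℕ) : O m) * A * rt m) * (Γ * (C ε + C ε')), C ε' + ((k * m : ℕ) : O m) * w,
    if ε j then 1 else -1, by split_ifs <;> simp, ?_, ?_, fun v => ?_⟩
  · rw [add_sub_right_comm]
    exact h1.add (dvd_mul_right _ _)
  · rw [show 2 * (k : O m) * (Γ * (C ε' + ((k * m : ℕ) : O m) * w)) =
      k * (Γ * C ε) + k * (Γ * C ε') by rw [h7]; ring, map_add]
    have := mul_le_mul_of_nonneg_right (norm_add_le (ph m (k * (Γ * C ε))) (ph m (k * (Γ * C ε'))))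
      (Nat.cast_nonneg (α := ℝ) A)
    linarith [h2 ε, h2 ε']
  · have h8 : ((if ε' j then 1 else -1 : ℤ) : O m) = -((if ε j then 1 else -1 : ℤ) : O m) := by
      revert hj
      cases ε j <;> cases ε' j <;> simp
    rw [hc, hc, hz_EGHensel, hz_EGHensel, h8, h7, mu_eq]
    push_cast
    ring

/-- The slope stays away from the integers. -/
theorem slope_EGHensel {m d l j Q A : ℕ} {H NN0 : ℝ} {θ : ℂ} {β V : O m} {N0 : ℤ} (hm : 1 ≤ m)
    (h0 : 0 < NN0) (hn : Near m θ β d H NN0) (hl : l.Prime) (hld : l ^ j ∣ d) (hlQ : ¬ l ^ j ∣ Q)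
    (hA : 100 * H ^ 2 ≤ A) (hV : (β * V).im = Q * N0) (hN : ¬ (l : ℤ) ∣ N0)
    (hb : ‖ph m V‖ * A ≤ 4 * √(2 * NN0)) (z : ℤ) : 1 / (2 * H) ≤ |pr m θ (ph m V) - z| := by
  obtain ⟨hd, hdH, -, hη⟩ := hn
  have hd' : (1 : ℝ) ≤ d := by exact_mod_cast hd
  have hH : 1 ≤ H := hd'.trans hdH
  have h1 : pr m θ (ph m V) = ((Q * N0 : ℤ) : ℝ) / d + pr m (θ - ph m β / d) (ph m V) := by
    rw [← hV, ← pr_ph_div hm, ← pr_add_left, Complex.ofReal_natCast, add_sub_cancel]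
  have h2 : (Q * N0 - z * d : ℤ) ≠ 0 := fun h => by
    have h3 : ((l : ℤ)) ^ j ∣ Q * N0 := by
      rw [sub_eq_zero.1 h]
      exact Dvd.dvd.mul_left (by exact_mod_cast hld) _
    have h4 : IsCoprime ((l : ℤ) ^ j) N0 :=
      ((Nat.prime_iff_prime_int.1 hl).irreducible.coprime_iff_not_dvd.2 hN).pow_left
    exact hlQ (by exact_mod_cast h4.dvd_of_dvd_mul_right h3)
  have h3 : 1 / H ≤ |((Q * N0 : ℤ) : ℝ) / d - z| := by
    have h4 : (1 : ℝ) ≤ |((Q * N0 - z * d : ℤ) : ℝ)| := by exact_mod_cast Int.one_le_abs h2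
    rw [show ((Q * N0 : ℤ) : ℝ) / d - z = ((Q * N0 - z * d : ℤ) : ℝ) / d by
      push_cast
      field_simp, abs_div, Nat.abs_cast]
    exact div_le_div₀ (abs_nonneg _) h4 (by linarith) hdH
  have h4 : |pr m (θ - ph m β / d) (ph m V)| ≤ 1 / (2 * H) := by
    refine (abs_pr_le hm _ _).trans ?_
    generalize ‖θ - ph m β / d‖ = e at hη
    have hp := norm_nonneg (ph m V)
    generalize ‖ph m V‖ = u at hb hp
    have hA0 : (0 : ℝ) < A := lt_of_lt_of_le (by positivity) hA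
    have h5 : (u * A) ^ 2 ≤ 32 * NN0 := by
      have := pow_le_pow_left₀ (by positivity) hb 2
      rw [mul_pow 4, Real.sq_sqrt (by positivity)] at this
      linarith
    have h6 : (e * u * A) ^ 2 ≤ 32 * H := by
      have := mul_le_mul_of_nonneg_left h5 (sq_nonneg e)
      nlinarith
    have h7 : e * u * A ≤ 50 * H := by
      refine (abs_le_of_sq_le_sq' (h6.trans ?_) (by positivity)).2
      nlinarith
    rw [le_div_iff₀ (by positivity)]
    refine le_of_mul_le_mul_right ?_ hA0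
    nlinarith
  have h5 := abs_sub_abs_le_abs_add (((Q * N0 : ℤ) : ℝ) / d - z) (pr m (θ - ph m β / d) (ph m V))
  rw [h1, add_sub_right_comm]
  have h6 : 1 / H = 1 / (2 * H) + 1 / (2 * H) := by
    field_simp
    ring
  linarith

/-- L9, second family. -/
theorem henselII (m Y r A len : ℕ) (H NN0 : ℝ) (Γ : O m) (θ : ℂ) (β : O m) (d l j : ℕ) (hm : 1 ≤ m)
    (h0 : 0 < NN0) (hΓ : Shape m Y Γ) (hn : Near m θ β d H NN0) (hl : l.Prime) (hlY : l ≤ Y)
    (hld : l ^ j ∣ d) (hlQ : ¬ l ^ j ∣ QQ m Y) (hβ : (l : ℤ) ∣ β.re) (hlen : 1 ≤ len)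
    (hA : 100 * H ^ 2 ≤ A)
    (hN : ∀ t : Fin r → Fin len,
      ((Γ * base fun i => hz m (M2 m Y) (A + t i)).norm : ℝ) ≤ 2 * NN0) :
    𝔼 t : Fin r → Fin len, ‖ch (fun ε : Fin r → Bool => Γ * cube (fun i => hz m (M2 m Y) (A + t i)) ε)
      (θ / ph m (mu m))‖ ^ 2 ≤ 1 / 2 ^ r + H / len := by
  have hH : 0 < H := lt_of_lt_of_le (by exact_mod_cast hn.1) hn.2.1
  refine second_moment r len hlen H hH (fun t ε => pr m (θ / ph m (mu m))
    (ph m (Γ * cube (fun i => hz m (M2 m Y) (A + t i)) ε))) fun ε ε' h => ?_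
  obtain ⟨i, hi⟩ := Function.ne_iff.1 h
  refine ⟨i, fun t => ?_⟩
  obtain ⟨P, D, s, hs, h1, h2, h3⟩ := split_EGHensel hm (2 * cc m ^ 3 * Q1 m Y) A Γ NN0 hN hi t
  have hG : Shape m Y (Γ * D) := hΓ.mul (Dvd.dvd.trans
    (Nat.cast_dvd_cast ((M2_eq m Y).symm ▸ dvd_mul_left _ _ : M1 m Y ∣ M2 m Y)) h1)
  have hp := Nat.prime_iff_prime_int.1 hl
  have hj : j ≠ 0 := fun h => hlQ (by simp [h])
  have hβ' : ¬ (l : ℤ) ∣ β.im := fun h =>
    hn.2.2.1 l hl ((dvd_pow_self l hj).trans hld) ((nat_dvd_iff l β).2 ⟨hβ, h⟩)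
  refine ⟨_, _, slope_EGHensel (N0 := s * (β * (Γ * D)).im) hm h0 hn hl hld hlQ hA ?_ ?_ ?_,
    fun v => phase_EGHensel hm θ _ _ _ _ _ (h3 v)⟩
  · generalize Γ * D = G
    rw [show β * ((s : O m) * (2 * ((2 * cc m ^ 3 * Q1 m Y : ℕ) : O m) * G)) =
      (((QQ m Y * s : ℤ)) : O m) * (β * G) by
        unfold QQ
        push_cast
        ring, Zsqrtd.im_mul, Zsqrtd.re_intCast, Zsqrtd.im_intCast]
    ring
  · intro h
    have h4 : (l : ℤ) ∣ (β * (Γ * D)).im := by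
      generalize (β * (Γ * D)).im = x at h
      rcases hs with rfl | rfl <;> simpa using h
    rw [Zsqrtd.im_mul] at h4
    exact (hp.dvd_or_dvd ((dvd_add_right (hβ.mul_right _)).1 h4)).elim hβ' (hG.re l hl hlY)
  · rw [map_mul, norm_mul, map_intCast, Complex.norm_intCast,
      show |(s : ℝ)| = 1 by rcases hs with rfl | rfl <;> simp, one_mul]
    linarith [Real.sqrt_nonneg (2 * NN0)]

/-- L9, first family. -/
theorem henselI (m Y r A len : ℕ) (H NN0 : ℝ) (Γ : O m) (θ : ℂ) (β : O m) (d l j : ℕ) (hm : 1 ≤ m)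
    (h0 : 0 < NN0) (hΓ : Shape m Y Γ) (hn : Near m θ β d H NN0) (hl : l.Prime) (hlY : l ≤ Y)
    (hld : l ^ j ∣ d) (hlQ : ¬ l ^ j ∣ QQ m Y) (hβ : ¬ (l : ℤ) ∣ β.re) (hlen : 1 ≤ len)
    (hA : 100 * H ^ 2 ≤ A)
    (hN : ∀ t : Fin r → Fin len,
      ((Γ * base fun i => hz m (M1 m Y) (A + t i)).norm : ℝ) ≤ 2 * NN0) :
    𝔼 t : Fin r → Fin len, ‖ch (fun ε : Fin r → Bool =>
      Γ * cube (fun i => hz m (M1 m Y) (A + t i)) ε +
        star (Γ * cube (fun i => hz m (M1 m Y) (A + t i)) ε)) (θ / ph m (mu m))‖ ^ 2 ≤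
      1 / 2 ^ r + H / len := by
  have hH : 0 < H := lt_of_lt_of_le (by exact_mod_cast hn.1) hn.2.1
  refine second_moment r len hlen H hH (fun t ε => pr m (θ / ph m (mu m))
    (ph m (Γ * cube (fun i => hz m (M1 m Y) (A + t i)) ε +
      star (Γ * cube (fun i => hz m (M1 m Y) (A + t i)) ε)))) fun ε ε' h => ?_
  obtain ⟨i, hi⟩ := Function.ne_iff.1 h
  refine ⟨i, fun t => ?_⟩
  obtain ⟨P, D, s, hs, h1, h2, h3⟩ := split_EGHensel hm (cc m ^ 2 * Q1 m Y) A Γ NN0 hN hi t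
  obtain ⟨b, hb, hb'⟩ := (hΓ.mul h1).im hm
  have hp := Nat.prime_iff_prime_int.1 hl
  generalize Γ * D = G at h2 h3 hb
  refine ⟨pr m (θ / ph m (mu m)) (ph m (P + star P)), _, slope_EGHensel
    (V := (s : O m) * (2 * ((cc m ^ 2 * Q1 m Y : ℕ) : O m) * G -
      star (2 * ((cc m ^ 2 * Q1 m Y : ℕ) : O m) * G)))
    (N0 := s * (b * β.re)) hm h0 hn hl hld hlQ hA ?_ ?_ ?_,
    fun v => phase_EGHensel hm θ _ _ _ _ _ ?_⟩
  · have h4 : 2 * ((cc m ^ 2 * Q1 m Y : ℕ) : O m) = ((2 * (cc m ^ 2 * Q1 m Y) : ℕ) : O m) := by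
      push_cast
      ring
    simp only [h4, Zsqrtd.im_mul, Zsqrtd.re_mul, Zsqrtd.re_intCast, Zsqrtd.im_intCast,
      Zsqrtd.re_sub, Zsqrtd.im_sub, Zsqrtd.re_star, Zsqrtd.im_star, Zsqrtd.re_natCast,
      Zsqrtd.im_natCast, hb, QQ]
    push_cast
    ring
  · intro h
    have h4 : (l : ℤ) ∣ b * β.re := by
      rcases hs with rfl | rfl <;> simpa using h
    exact (hp.dvd_or_dvd h4).elim (hb' l hl hlY) hβ
  · rw [map_mul, norm_mul, map_intCast, Complex.norm_intCast,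
      show |(s : ℝ)| = 1 by rcases hs with rfl | rfl <;> simp, one_mul, map_sub, ph_star]
    generalize ph m (2 * ((cc m ^ 2 * Q1 m Y : ℕ) : O m) * G) = u at h2
    have := mul_le_mul_of_nonneg_right (norm_sub_le u (conj u)) (Nat.cast_nonneg (α := ℝ) A)
    rw [Complex.norm_conj] at this
    linarith
  · have h4 := h3 v
    have h5 := congrArg star h4
    rw [star_sub, star_add, star_mul' ((v : ℕ) : O m), star_mul' (mu m), star_mul' (s : O m),
      star_mu, star_natCast, star_intCast] at h5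
    rw [add_sub_add_comm]
    refine (congrArg₂ (· + ·) h4 h5).trans ?_
    ring

end Pool.Agent.P.MP_b75a1e_co.EG
end

-- part Pool.Agent.P.MP_b75a1e_co.EGLevel
section

set_option autoImplicit false

open Finset
open scoped BigOperators ComplexConjugate

namespace Pool.Agent.P.MP_b75a1e_co.EG

/-- The potential of a set of primes. -/
def Phi_EGLevel {ι : Type} (I : Finset ι) (a : ι → Finset ℕ) (lam : ℕ) (D : Finset ℕ) : ℕ :=
  ∑ q ∈ I, lam ^ (D ∩ a q).card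

theorem mono_EGLevel {ι : Type} (I : Finset ι) (a : ι → Finset ℕ) {lam : ℕ} (hl : 1 ≤ lam)
    {D D' : Finset ℕ} (h : D ⊆ D') : Phi_EGLevel I a lam D ≤ Phi_EGLevel I a lam D' :=
  sum_le_sum fun _ _ => Nat.pow_le_pow_right hl (card_le_card (inter_subset_inter_right h))

theorem one_EGLevel {ι : Type} (I : Finset ι) (a : ι → Finset ℕ) {lam ρ0 : ℕ} (hl : 1 ≤ lam)
    (ha : ∀ q ∈ I, (a q).card ≤ ρ0) (D R : Finset ℕ) (hR : lam * ρ0 ≤ R.card) (hne : R.Nonempty) :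
    ∃ l ∈ R, Phi_EGLevel I a lam (insert l D) ≤ 2 * Phi_EGLevel I a lam D := by
  refine exists_le_of_sum_le hne ?_
  unfold Phi_EGLevel
  rw [sum_comm, sum_const, smul_eq_mul, mul_sum, mul_sum]
  refine sum_le_sum fun q hq => ?_
  have h1 : ∀ l ∈ R, lam ^ (insert l D ∩ a q).card ≤
      lam ^ (D ∩ a q).card * (1 + if l ∈ a q then lam else 0) := by
    intro l _
    split_ifs with h
    · rw [insert_inter_of_mem h]
      refine (Nat.pow_le_pow_right hl (card_insert_le _ _)).trans ?_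
      rw [pow_succ]
      exact Nat.mul_le_mul_left _ (by omega)
    · rw [insert_inter_of_notMem h]
      simp
  refine (sum_le_sum h1).trans ?_
  rw [← mul_sum, sum_add_distrib, sum_const, smul_eq_mul, mul_one, sum_ite_mem, sum_const,
    smul_eq_mul]
  have h2 : (R ∩ a q).card * lam ≤ R.card := by
    refine le_trans ?_ hR
    rw [mul_comm]
    exact Nat.mul_le_mul_left _ ((card_le_card inter_subset_right).trans (ha q hq))
  calc _ ≤ lam ^ (D ∩ a q).card * (R.card + R.card) := Nat.mul_le_mul_left _ (by omega)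
    _ = _ := by ring

theorem many_EGLevel {ι : Type} (I : Finset ι) (a : ι → Finset ℕ) {lam ρ0 n' : ℕ} (hl : 1 ≤ lam)
    (ha : ∀ q ∈ I, (a q).card ≤ ρ0) (hn : lam * ρ0 ≤ n') (hn1 : 1 ≤ n') (PP D : Finset ℕ) (t : ℕ)
    (ht : n' + D.card + t ≤ PP.card) : ∃ C ⊆ PP, Disjoint D C ∧ C.card = t ∧
      Phi_EGLevel I a lam (D ∪ C) ≤ 2 ^ t * Phi_EGLevel I a lam D := by
  induction t with
  | zero => exact ⟨∅, empty_subset _, disjoint_empty_right _, rfl, by simp⟩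
  | succ t ih =>
    obtain ⟨C, h1, h2, h3, h4⟩ := ih (by omega)
    have h5 : n' ≤ (PP \ (D ∪ C)).card := by
      have := le_card_sdiff (D ∪ C) PP
      have := card_union_le D C
      omega
    obtain ⟨l, h6, h7⟩ := one_EGLevel I a hl ha (D ∪ C) (PP \ (D ∪ C)) (hn.trans h5)
      (card_pos.1 (by omega))
    rw [mem_sdiff, mem_union, not_or] at h6
    refine ⟨insert l C, insert_subset h6.1 h1, disjoint_insert_right.2 ⟨h6.2.1, h2⟩,
      by rw [card_insert_of_notMem h6.2.2, h3], ?_⟩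
    rw [union_insert, pow_succ]
    calc _ ≤ 2 * (2 ^ t * Phi_EGLevel I a lam D) := h7.trans (Nat.mul_le_mul_left _ h4)
      _ = _ := by ring

theorem box_EGLevel (m p : ℕ) (hm : 2 ≤ m) (hmp : m ≤ 4 ^ p) (hp : 10 ^ 6 ≤ p) (PP : Finset ℕ)
    (hPP : ∀ l ∈ PP, Split m l) {ι : Type} (I : Finset ι) (a : ι → Finset ℕ) {lam ρ0 n' : ℕ}
    (hl : 1 ≤ lam) (ha : ∀ q ∈ I, (a q).card ≤ ρ0) (hn : lam * ρ0 ≤ n') (hn1 : 1 ≤ n') (τ : ℕ)
    (hcard : n' + τ + 2 * p ^ 2 ≤ PP.card) :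
    ∃ D ⊆ PP, ∃ (ρ : ℤ) (E : Finset (O m)), Box m D ρ E ∧ τ ≤ D.card ∧ D.card ≤ τ + p ^ 2 ∧
      2 ^ (999 * D.card) ≤ E.card ^ 1000 ∧ Phi_EGLevel I a lam D ≤ 16 ^ D.card * I.card := by
  induction τ with
  | zero =>
    refine ⟨∅, empty_subset _, 1, {1}, ⟨?_, ?_⟩, le_rfl, by simp, by simp, ?_⟩
    · simp
    · simp
    · simp [Phi_EGLevel]
  | succ τ ih =>
    obtain ⟨D, h1, ρ, E, h2, h3, h4, h5, h6⟩ := ih (by omega)
    by_cases hc : τ + 1 ≤ D.card
    · exact ⟨D, h1, ρ, E, h2, hc, by omega, h5, h6⟩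
    obtain ⟨C, c1, c2, c3, c4⟩ := many_EGLevel I a hl ha hn hn1 PP D (p ^ 2) (by omega)
    obtain ⟨D', d1, ρ', E', d2, d3, d4⟩ := atom m p hm hmp hp C (fun l h => hPP l (c1 h)) c3
    have hd : Disjoint D D' := c2.mono_right d1
    obtain ⟨b1, b2⟩ := h2.mul hm d2 hd (fun l h => hPP l (h1 h)) fun l h => hPP l (c1 (d1 h))
    have e1 : (D ∪ D').card = D.card + D'.card := card_union_of_disjoint hd
    have e2 : D'.card ≤ p ^ 2 := c3 ▸ card_le_card d1
    have e3 : 1 ≤ p ^ 2 := Nat.one_le_pow _ _ (by omega)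
    refine ⟨D ∪ D', union_subset h1 (d1.trans c1), ρ * ρ', _, b1, by omega, by omega, ?_, ?_⟩
    · rw [b2, e1, mul_add, pow_add, mul_pow]
      exact Nat.mul_le_mul h5 d4
    · have e4 : 2 ^ p ^ 2 ≤ 16 ^ D'.card := by
        rw [show (16 : ℕ) = 2 ^ 4 by norm_num, ← pow_mul]
        exact Nat.pow_le_pow_right (by norm_num) d3
      calc _ ≤ Phi_EGLevel I a lam (D ∪ C) := mono_EGLevel I a hl (union_subset_union_right d1)
        _ ≤ 16 ^ D'.card * (16 ^ D.card * I.card) := c4.trans (Nat.mul_le_mul e4 h6)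
        _ = _ := by rw [e1, pow_add]; ring

/-- L2: a box whose norm separates half of a given set. -/
theorem level (m p : ℕ) (hm : 2 ≤ m) (hmp : m ≤ 4 ^ p) (hp : 10 ^ 6 ≤ p) (PP : Finset ℕ)
    (hPP : ∀ l ∈ PP, Split m l) (W : Finset (O m)) (k ρ0 n' τ r : ℕ)
    (hcard : n' + τ + 2 * p ^ 2 ≤ PP.card) (hρ0 : 1 ≤ ρ0) (hlam : 2 ^ (k + 5) * ρ0 ≤ n')
    (hW : ∀ v ∈ W, ∀ v' ∈ W, v ≠ v' → (v - v').norm.natAbs.primeFactors.card ≤ ρ0)
    (hr : W.card ≤ 2 ^ r) (hτ : r + 1 ≤ (k + 1) * τ) :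
    ∃ D ⊆ PP, ∃ (ρ : ℤ) (E : Finset (O m)), Box m D ρ E ∧ τ ≤ D.card ∧ D.card ≤ τ + p ^ 2 ∧
      2 ^ (999 * D.card) ≤ E.card ^ 1000 ∧
      ∃ W' ⊆ W, W.card ≤ 2 * W'.card ∧
        ∀ v ∈ W', ∀ v' ∈ W', v ≠ v' → ¬ (∏ l ∈ D, (l : ℤ)) ∣ (v - v').norm := by
  have hl : 1 ≤ 2 ^ (k + 5) := Nat.one_le_two_pow
  obtain ⟨D, h1, ρ, E, h2, h3, h4, h5, h6⟩ := box_EGLevel m p hm hmp hp PP hPP W.offDiag
    (fun q => (q.1 - q.2).norm.natAbs.primeFactors) hl
    (fun q hq => hW _ (mem_offDiag.1 hq).1 _ (mem_offDiag.1 hq).2.1 (mem_offDiag.1 hq).2.2) hlam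
    ((Nat.mul_pos hl hρ0).trans_le hlam) τ hcard
  refine ⟨D, h1, ρ, E, h2, h3, h4, h5, ?_⟩
  set Bd := W.offDiag.filter fun q => D ⊆ (q.1 - q.2).norm.natAbs.primeFactors with hBd
  have b1 : Bd.card * (2 ^ (k + 5)) ^ D.card ≤ 16 ^ D.card * W.offDiag.card := by
    refine le_trans ?_ h6
    rw [← smul_eq_mul, ← sum_const]
    refine le_trans (sum_le_sum fun q hq => ?_) (sum_le_sum_of_subset (filter_subset _ _))
    rw [inter_eq_left.2 (mem_filter.1 hq).2]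
  have b2 : Bd.card * 2 ^ ((k + 1) * D.card) ≤ W.card * W.card := by
    have e : (2 ^ (k + 5)) ^ D.card = 16 ^ D.card * 2 ^ ((k + 1) * D.card) := by
      rw [pow_mul, ← mul_pow]
      congr 1
      ring
    rw [e, mul_left_comm] at b1
    refine (Nat.le_of_mul_le_mul_left b1 (by positivity)).trans ?_
    rw [offDiag_card]
    omega
  have b3 : 2 * W.card ≤ 2 ^ ((k + 1) * D.card) := by
    refine le_trans ?_ (Nat.pow_le_pow_right (by norm_num) (hτ.trans (Nat.mul_le_mul_left _ h3)))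
    rw [pow_succ]
    omega
  have b4 : 2 * Bd.card ≤ W.card := by
    rcases Nat.eq_zero_or_pos W.card with h | h
    · have : Bd.card ≤ W.offDiag.card := card_filter_le _ _
      rw [offDiag_card, h] at this
      omega
    · refine Nat.le_of_mul_le_mul_right ?_ h
      calc 2 * Bd.card * W.card = Bd.card * (2 * W.card) := by ring
        _ ≤ _ := (Nat.mul_le_mul_left _ b3).trans b2
  refine ⟨W \ Bd.image Prod.fst, sdiff_subset, ?_, fun v hv v' hv' hne hd => ?_⟩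
  · have := le_card_sdiff (Bd.image Prod.fst) W
    have := card_image_le (s := Bd) (f := Prod.fst)
    omega
  · refine (mem_sdiff.1 hv).2 (mem_image.2 ⟨(v, v'), mem_filter.2 ⟨mem_offDiag.2
      ⟨(mem_sdiff.1 hv).1, (mem_sdiff.1 hv').1, hne⟩, fun l hl => ?_⟩, rfl⟩)
    have h0 := norm_pos' (m := m) (by omega) (sub_ne_zero.2 hne)
    refine Nat.mem_primeFactors.2 ⟨(hPP l (h1 hl)).1, ?_,
      Int.natAbs_ne_zero.2 (zero_lt_one.trans_le h0).ne'⟩
    exact Int.natCast_dvd.1 ((dvd_prod_of_mem (fun l : ℕ => (l : ℤ)) hl).trans hd)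

end Pool.Agent.P.MP_b75a1e_co.EG
end

-- part Pool.Agent.P.MP_b75a1e_co.EGStage
section

set_option autoImplicit false

open Finset
open scoped BigOperators ComplexConjugate

namespace Pool.Agent.P.MP_b75a1e_co.EG

theorem card_res_EGStage (l len : ℕ) (R : Finset (ZMod l)) (S : Finset ℕ)
    (hS : ∀ t ∈ S, t < len ∧ (t : ZMod l) ∈ R) : S.card ≤ R.card * (len / l + 1) := by
  classical
  have h := Finset.card_le_card_of_injOn (s := S) (t := R ×ˢ range (len / l + 1))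
    (fun t : ℕ => ((t : ZMod l), t / l)) (by
      intro t ht
      have h1 := hS t ht
      simp only [coe_product, Set.mem_prod, mem_coe, mem_range]
      exact ⟨h1.2, Nat.lt_succ_of_le (Nat.div_le_div_right h1.1.le)⟩) (by
      intro t _ t' _ h
      simp only [Prod.mk.injEq] at h
      have h1 : t % l = t' % l := (ZMod.natCast_eq_natCast_iff' t t' l).1 h.1
      rw [← Nat.div_add_mod t l, ← Nat.div_add_mod t' l, h1, h.2])
  simpa using h

theorem quad_EGStage (Y len : ℕ) (a b c : ℤ) (f : ℕ → ℤ) (hf : ∀ t, f t = a * t ^ 2 + b * t + c)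
    (h : ∀ l : ℕ, l.Prime → Y < l → ¬ (l : ℤ) ∣ a ∨ ¬ (l : ℤ) ∣ b) : Roots Y len f := by
  classical
  intro l hl hY
  have := Fact.mk hl
  set P : Polynomial (ZMod l) :=
    Polynomial.C (a : ZMod l) * Polynomial.X ^ 2 + Polynomial.C (b : ZMod l) * Polynomial.X +
      Polynomial.C (c : ZMod l) with hP
  have hP0 : P ≠ 0 := by
    intro h0
    have h2 : P.coeff 2 = (a : ZMod l) := by
      simp only [hP, Polynomial.coeff_add, Polynomial.coeff_C_mul, Polynomial.coeff_X_pow,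
        Polynomial.coeff_X, Polynomial.coeff_C]
      norm_num
    have h1 : P.coeff 1 = (b : ZMod l) := by
      simp only [hP, Polynomial.coeff_add, Polynomial.coeff_C_mul, Polynomial.coeff_X_pow,
        Polynomial.coeff_X, Polynomial.coeff_C]
      norm_num
    rw [h0, Polynomial.coeff_zero] at h1 h2
    rcases h l hl hY with h' | h'
    · exact h' ((ZMod.intCast_zmod_eq_zero_iff_dvd a l).1 h2.symm)
    · exact h' ((ZMod.intCast_zmod_eq_zero_iff_dvd b l).1 h1.symm)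
  have hc : P.roots.toFinset.card ≤ 2 :=
    (Multiset.toFinset_card_le _).trans ((Polynomial.card_roots' P).trans
      Polynomial.natDegree_quadratic_le)
  refine (card_res_EGStage l len P.roots.toFinset _ ?_).trans (Nat.mul_le_mul_right _ hc)
  intro t ht
  rw [mem_filter, mem_range] at ht
  refine ⟨ht.1, ?_⟩
  rw [Multiset.mem_toFinset, Polynomial.mem_roots hP0, Polynomial.IsRoot.def]
  have h0 := (ZMod.intCast_zmod_eq_zero_iff_dvd (f t) l).2 ht.2
  rw [hf] at h0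
  push_cast at h0
  simpa [hP] using h0

theorem roots_norm {m : ℕ} (Y len : ℕ) (z0 v : O m)
    (hv : ∀ l : ℕ, l.Prime → Y < l → ¬ (l : ℤ) ∣ v.norm) :
    Roots Y len fun t => (z0 + (t : O m) * v).norm := by
  refine quad_EGStage Y len v.norm (2 * (z0.re * v.re + m * z0.im * v.im)) z0.norm _ ?_
    fun l hl hY => Or.inl (hv l hl hY)
  intro t
  simp only [norm_eq, Zsqrtd.re_add, Zsqrtd.im_add, Zsqrtd.re_mul, Zsqrtd.im_mul,
    Zsqrtd.re_natCast, Zsqrtd.im_natCast]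
  ring

theorem roots_lin (Y len : ℕ) (b0 E : ℤ) (hE : ∀ l : ℕ, l.Prime → Y < l → ¬ (l : ℤ) ∣ E) :
    Roots Y len fun t => b0 + E * t :=
  quad_EGStage Y len 0 E b0 _ (fun t => by ring) fun l hl hY => Or.inr (hE l hl hY)

theorem expect_fin_EGStage (len : ℕ) (g : ℕ → ℝ) :
    𝔼 t : Fin len, g t = (∑ t ∈ range len, g t) / len := by
  rw [Fintype.expect_eq_sum_div_card, Fintype.card_fin, Fin.sum_univ_eq_sum_range]

/-- Density of the multiples of one prime. -/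
theorem dens_EGStage (Y len l : ℕ) (f : ℕ → ℤ) (hlen1 : 1 ≤ len) (hr : Roots Y len f)
    (hl : l.Prime) (hY : Y < l) :
    (∑ t ∈ range len, if (l : ℤ) ∣ f t then (1 : ℝ) else 0) / len ≤ 2 * (1 / l + 1 / len) := by
  have hlen : (0 : ℝ) < len := by exact_mod_cast hlen1
  have h1 : ((((range len).filter fun t => (l : ℤ) ∣ f t).card : ℕ) : ℝ) ≤
      ((2 * (len / l + 1) : ℕ) : ℝ) := by exact_mod_cast hr l hl hY
  have h2 : ((len / l : ℕ) : ℝ) ≤ len / l := Nat.cast_div_le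
  rw [Finset.sum_boole, div_le_iff₀ hlen]
  push_cast at h1
  have h3 : 2 * (1 / (l : ℝ) + 1 / len) * len = 2 * (len / l + 1) := by field_simp
  rw [h3]
  linarith

theorem card_pf_EGStage (n w : ℕ) (hn : n ≠ 0) (hw : n ≤ 2 ^ w) : n.primeFactors.card ≤ w := by
  have h1 : 2 ^ n.primeFactors.card ≤ ∏ p ∈ n.primeFactors, p :=
    Finset.pow_card_le_prod _ _ _ fun p hp => (Nat.prime_of_mem_primeFactors hp).two_le
  have h2 : ∏ p ∈ n.primeFactors, p ≤ n :=
    Nat.le_of_dvd (Nat.pos_of_ne_zero hn) (Nat.prod_primeFactors_dvd n)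
  exact (Nat.pow_le_pow_iff_right (by norm_num : 1 < 2)).1 (h1.trans (h2.trans hw))

theorem tail_EGStage (Y len : ℕ) (hY : 1 ≤ Y) :
    ∑ l ∈ Ioc Y len, (1 : ℝ) / (l : ℝ) ^ 2 ≤ 1 / Y := by
  rcases le_or_gt Y len with h | h
  · have h1 := sum_Ioc_inv_sq_le_sub (α := ℝ) (k := Y) (n := len) (by omega) h
    simp only [one_div]
    have h2 : (0 : ℝ) ≤ (len : ℝ)⁻¹ := by positivity
    linarith
  · rw [Finset.Ioc_eq_empty (by omega)]
    simp

theorem wt_split_EGStage (Y len w : ℕ) (a : ℤ) (hlen1 : 1 ≤ len) (ha : a ≠ 0) (hw : |a| ≤ 2 ^ w) :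
    wt Y len a ≤ (∑ l ∈ (Ioc Y len).filter Nat.Prime, 2 / (l : ℝ) * if (l : ℤ) ∣ a then 1 else 0) +
      w * (2 / len) := by
  classical
  have hlen : (0 : ℝ) < len := by exact_mod_cast hlen1
  unfold wt
  rw [← Finset.sum_filter_add_sum_filter_not _ (fun l => l ≤ len)]
  refine add_le_add ?_ ?_
  · calc _ ≤ ∑ l ∈ (a.natAbs.primeFactors.filter (fun l => Y < l)).filter (fun l => l ≤ len),
          2 / (l : ℝ) * (if (l : ℤ) ∣ a then 1 else 0) := by
          refine Finset.sum_le_sum fun l hl => ?_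
          simp only [mem_filter] at hl
          have hp := Nat.prime_of_mem_primeFactors hl.1.1
          have hd : (l : ℤ) ∣ a := Int.natCast_dvd.2 (Nat.dvd_of_mem_primeFactors hl.1.1)
          have hl0 : (0 : ℝ) < l := by exact_mod_cast hp.pos
          have h1 : (1 : ℝ) / len ≤ 1 / l :=
            one_div_le_one_div_of_le hl0 (by exact_mod_cast hl.2)
          rw [if_pos hd, mul_one]
          have h2 : 2 / (l : ℝ) = 1 / l + 1 / l := by ring
          linarith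
      _ ≤ _ := by
          refine Finset.sum_le_sum_of_subset_of_nonneg ?_ fun l _ _ => by positivity
          intro l hl
          simp only [mem_filter, mem_Ioc] at hl ⊢
          exact ⟨⟨hl.1.2, hl.2⟩, Nat.prime_of_mem_primeFactors hl.1.1⟩
  · have hc : a.natAbs.primeFactors.card ≤ w := by
      refine card_pf_EGStage _ _ (Int.natAbs_ne_zero.2 ha) ?_
      have : ((a.natAbs : ℕ) : ℤ) ≤ ((2 ^ w : ℕ) : ℤ) := by
        rw [Int.natCast_natAbs]; exact_mod_cast hw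
      exact_mod_cast this
    calc _ ≤ ∑ _l ∈ (a.natAbs.primeFactors.filter (fun l => Y < l)).filter (fun l => ¬ l ≤ len),
          2 / (len : ℝ) := by
          refine Finset.sum_le_sum fun l hl => ?_
          simp only [mem_filter] at hl
          have h1 : (1 : ℝ) / l ≤ 1 / len :=
            one_div_le_one_div_of_le hlen (by exact_mod_cast (not_le.1 hl.2).le)
          have h2 : 2 / (len : ℝ) = 1 / len + 1 / len := by ring
          linarith
      _ ≤ _ := by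
          rw [Finset.sum_const, nsmul_eq_mul]
          refine mul_le_mul_of_nonneg_right ?_ (by positivity)
          exact_mod_cast ((card_filter_le _ _).trans (card_filter_le _ _)).trans hc

/-- The expected weight of a value. -/
theorem exp_wt (Y len w : ℕ) (f : ℕ → ℤ) (hY : 2 ≤ Y) (hlen1 : 1 ≤ len) (hlen : Y * w ≤ len)
    (hf0 : ∀ t < len, f t ≠ 0 ∧ |f t| ≤ 2 ^ w) (hr : Roots Y len f) :
    𝔼 t : Fin len, wt Y len (f t) ≤ 10 / Y := by
  classical
  have hl0 : (0 : ℝ) < len := by exact_mod_cast hlen1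
  have hY0 : (0 : ℝ) < Y := by exact_mod_cast (by omega : 0 < Y)
  rw [expect_fin_EGStage len fun t => wt Y len (f t)]
  have h1 : ∑ t ∈ range len, wt Y len (f t) ≤ ∑ t ∈ range len,
      ((∑ l ∈ (Ioc Y len).filter Nat.Prime, 2 / (l : ℝ) * if (l : ℤ) ∣ f t then 1 else 0) +
        w * (2 / len)) :=
    Finset.sum_le_sum fun t ht =>
      wt_split_EGStage Y len w _ hlen1 (hf0 t (mem_range.1 ht)).1 (hf0 t (mem_range.1 ht)).2
  rw [Finset.sum_add_distrib, Finset.sum_comm, Finset.sum_const, card_range, nsmul_eq_mul] at h1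
  have h2 : ∑ l ∈ (Ioc Y len).filter Nat.Prime,
      ∑ t ∈ range len, (2 / (l : ℝ) * if (l : ℤ) ∣ f t then 1 else 0) ≤
      ∑ l ∈ (Ioc Y len).filter Nat.Prime, 8 * len * (1 / (l : ℝ) ^ 2) := by
    refine Finset.sum_le_sum fun l hl => ?_
    simp only [mem_filter, mem_Ioc] at hl
    have hp0 : (0 : ℝ) < l := by exact_mod_cast hl.2.pos
    have h3 := dens_EGStage Y len l f hlen1 hr hl.2 hl.1.1
    have h4 : (1 : ℝ) / len ≤ 1 / l := one_div_le_one_div_of_le hp0 (by exact_mod_cast hl.1.2)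
    rw [← Finset.mul_sum]
    rw [div_le_iff₀ hl0] at h3
    have h5 : 2 * (1 / (l : ℝ) + 1 / len) * len ≤ 2 * (1 / l + 1 / l) * len := by gcongr
    calc _ ≤ 2 / (l : ℝ) * (2 * (1 / l + 1 / l) * len) := by gcongr; exact h3.trans h5
      _ = _ := by ring
  have h6 : ∑ l ∈ (Ioc Y len).filter Nat.Prime, 8 * (len : ℝ) * (1 / (l : ℝ) ^ 2) ≤
      8 * (len : ℝ) * (1 / (Y : ℝ)) := by
    rw [← Finset.mul_sum]
    refine mul_le_mul_of_nonneg_left (le_trans ?_ (tail_EGStage Y len (by omega))) (by positivity)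
    exact Finset.sum_le_sum_of_subset_of_nonneg (filter_subset _ _) fun l _ _ => by positivity
  have h7 : (w : ℝ) * (2 / len) ≤ 2 / Y := by
    have h8 : (Y : ℝ) * w ≤ len := by exact_mod_cast hlen
    rw [← mul_div_assoc, div_le_div_iff₀ hl0 hY0]
    nlinarith
  rw [div_le_iff₀ hl0]
  have h9 : (len : ℝ) * (w * (2 / len)) ≤ len * (2 / Y) := by gcongr
  have h10 : 10 / (Y : ℝ) * len = 8 * len * (1 / Y) + len * (2 / Y) := by ring
  linarith

open Classical in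
theorem bad_EGStage (Y len : ℕ) (a : ℤ) (g : ℕ → ℤ) (hlen1 : 1 ≤ len) (ha : a ≠ 0)
    (hr : Roots Y len g) :
    𝔼 t : Fin len, (if Cop Y a (g t) then (0 : ℝ) else 1) ≤ 2 * wt Y len a := by
  have hl0 : (0 : ℝ) < len := by exact_mod_cast hlen1
  rw [expect_fin_EGStage len fun t => if Cop Y a (g t) then (0 : ℝ) else 1]
  have h1 : ∑ t ∈ range len, (if Cop Y a (g t) then (0 : ℝ) else 1) ≤ ∑ t ∈ range len,
      ∑ l ∈ a.natAbs.primeFactors.filter (fun l => Y < l),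
        (if (l : ℤ) ∣ g t then (1 : ℝ) else 0) := by
    refine Finset.sum_le_sum fun t _ => ?_
    by_cases h : Cop Y a (g t)
    · rw [if_pos h]
      exact Finset.sum_nonneg fun l _ => by positivity
    · rw [if_neg h]
      unfold Cop at h
      push Not at h
      obtain ⟨l, hl, hY, h1, h2⟩ := h
      have hm : l ∈ a.natAbs.primeFactors.filter (fun l => Y < l) :=
        mem_filter.2 ⟨Nat.mem_primeFactors.2 ⟨hl, Int.natCast_dvd.1 h1, Int.natAbs_ne_zero.2 ha⟩, hY⟩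
      have h3 := Finset.single_le_sum (f := fun l : ℕ => if (l : ℤ) ∣ g t then (1 : ℝ) else 0)
        (fun l _ => by positivity) hm
      rwa [if_pos h2] at h3
  rw [Finset.sum_comm] at h1
  calc _ ≤ (∑ l ∈ a.natAbs.primeFactors.filter (fun l => Y < l), ∑ t ∈ range len,
        (if (l : ℤ) ∣ g t then (1 : ℝ) else 0)) / len := by gcongr
    _ ≤ _ := by
      unfold wt
      rw [Finset.sum_div, Finset.mul_sum]
      refine Finset.sum_le_sum fun l hl => ?_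
      rw [mem_filter] at hl
      exact dens_EGStage Y len l g hlen1 hr (Nat.prime_of_mem_primeFactors hl.1) hl.2

theorem coord_EGStage {I α : Type} [Fintype I] [DecidableEq I] [Fintype α] [Nonempty α]
    (g : α → ℝ) (i : I) : 𝔼 t : I → α, g (t i) = 𝔼 v, g v := by
  rw [expect_update (fun t : I → α => g (t i)) i]
  simp only [Function.update_self]
  exact Finset.expect_const univ_nonempty _

/-- L12: one random stage. -/
theorem stage {I : Type} [Fintype I] [DecidableEq I] (Y len w : ℕ) (f : I → ℕ → ℤ) (DD : ℤ) (σ : ℝ)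
    (Err : (I → Fin len) → ℝ) (hY : 2 ≤ Y) (hlen1 : 1 ≤ len) (hlen : Y * w ≤ len)
    (hf0 : ∀ i, ∀ t < len, f i t ≠ 0 ∧ |f i t| ≤ 2 ^ w) (hr : ∀ i, Roots Y len (f i)) (hD : DD ≠ 0)
    (hσ : wt Y len DD ≤ σ)
    (hI : 2 * (Fintype.card I : ℝ) * σ + 20 * (Fintype.card I : ℝ) ^ 2 / Y ≤ 1 / 2)
    (hE0 : ∀ t, 0 ≤ Err t) (hE : 𝔼 t, Err t ≤ 1 / 4) :
    ∃ t : I → Fin len, Err t < 1 ∧ (∀ i, Cop Y DD (f i (t i))) ∧
      (∀ i k, i ≠ k → Cop Y (f i (t i)) (f k (t k))) ∧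
      ∑ i, wt Y len (f i (t i)) ≤ 100 * (Fintype.card I : ℝ) / Y := by
  classical
  have : Nonempty (Fin len) := ⟨⟨0, hlen1⟩⟩
  have hY0 : (0 : ℝ) < Y := by exact_mod_cast (by omega : 0 < Y)
  set N : ℝ := (Fintype.card I : ℝ) with hN
  have hN0 : 0 ≤ N := by positivity
  set A : (I → Fin len) → ℝ := fun t => ∑ i, if Cop Y DD (f i (t i)) then 0 else 1 with hA
  set B : (I → Fin len) → ℝ := fun t =>
    ∑ i, ∑ k, if i = k then 0 else if Cop Y (f i (t i)) (f k (t k)) then 0 else 1 with hB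
  set S : (I → Fin len) → ℝ := fun t => ∑ i, wt Y len (f i (t i)) with hS
  have hw : ∀ i, 𝔼 t : I → Fin len, wt Y len (f i (t i)) ≤ 10 / Y := fun i => by
    rw [coord_EGStage (fun v : Fin len => wt Y len (f i v)) i]
    exact exp_wt Y len w (f i) hY hlen1 hlen (hf0 i) (hr i)
  have hA1 : 𝔼 t, A t ≤ 2 * N * σ := by
    rw [hA, Finset.expect_sum_comm]
    calc _ ≤ ∑ _i : I, 2 * σ := by
          refine Finset.sum_le_sum fun i _ => ?_
          rw [coord_EGStage (fun v : Fin len => if Cop Y DD (f i v) then (0 : ℝ) else 1) i]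
          exact (bad_EGStage Y len DD (f i) hlen1 hD (hr i)).trans (by linarith)
      _ = _ := by rw [Finset.sum_const, card_univ, nsmul_eq_mul]; ring
  have hB1 : 𝔼 t, B t ≤ 20 * N ^ 2 / Y := by
    rw [hB, Finset.expect_sum_comm]
    calc _ ≤ ∑ _i : I, ∑ _k : I, 20 / (Y : ℝ) := by
          refine Finset.sum_le_sum fun i _ => ?_
          rw [Finset.expect_sum_comm]
          refine Finset.sum_le_sum fun k _ => ?_
          by_cases hik : i = k
          · simp only [if_pos hik, Finset.expect_const_zero]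
            positivity
          · simp only [if_neg hik]
            rw [expect_update _ k]
            simp only [Function.update_self, Function.update_of_ne hik]
            calc _ ≤ 𝔼 t : I → Fin len, 2 * wt Y len (f i (t i)) :=
                  Finset.expect_le_expect fun t _ =>
                    bad_EGStage Y len _ (f k) hlen1 (hf0 i _ (t i).2).1 (hr k)
              _ ≤ _ := by
                  rw [← Finset.mul_expect]
                  have := hw i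
                  have h2 : 20 / (Y : ℝ) = 2 * (10 / Y) := by ring
                  linarith
      _ = _ := by simp only [Finset.sum_const, card_univ, nsmul_eq_mul]; ring
  have hS1 : 𝔼 t, S t ≤ N * (10 / Y) := by
    rw [hS, Finset.expect_sum_comm]
    calc _ ≤ ∑ _i : I, 10 / (Y : ℝ) := Finset.sum_le_sum fun i _ => hw i
      _ = _ := by rw [Finset.sum_const, card_univ, nsmul_eq_mul]
  have hS2 : 𝔼 t, Y / (100 * N) * S t ≤ 1 / 10 := by
    rw [← Finset.mul_expect]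
    rcases hN0.eq_or_lt with h | h
    · rw [← h]; norm_num
    · calc _ ≤ Y / (100 * N) * (N * (10 / Y)) := by gcongr
        _ = _ := by field_simp; norm_num
  have hT : 𝔼 t, (Err t + A t + B t + Y / (100 * N) * S t) < 1 := by
    rw [Finset.expect_add_distrib, Finset.expect_add_distrib, Finset.expect_add_distrib]
    linarith
  obtain ⟨t, -, ht⟩ := Finset.exists_lt_of_expect_lt univ_nonempty hT
  have hA0 : 0 ≤ A t := Finset.sum_nonneg fun i _ => by positivity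
  have hB0 : 0 ≤ B t := Finset.sum_nonneg fun i _ => Finset.sum_nonneg fun k _ => by positivity
  have hS0 : 0 ≤ S t := Finset.sum_nonneg fun i _ => wt_nonneg _ _ _
  have hS3 : 0 ≤ Y / (100 * N) * S t := by positivity
  have hE1 := hE0 t
  refine ⟨t, by linarith, fun i => ?_, fun i k hik => ?_, ?_⟩
  · by_contra h
    have h1 := Finset.single_le_sum
      (f := fun i => if Cop Y DD (f i (t i)) then (0 : ℝ) else 1) (fun i _ => by positivity)
      (mem_univ i)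
    rw [if_neg h] at h1
    have h2 : 1 ≤ A t := h1
    linarith
  · by_contra h
    have h1 := Finset.single_le_sum (f := fun k => if i = k then (0 : ℝ) else
      if Cop Y (f i (t i)) (f k (t k)) then 0 else 1) (fun i _ => by positivity) (mem_univ k)
    have h2 := Finset.single_le_sum (f := fun i => ∑ k, if i = k then (0 : ℝ) else
      if Cop Y (f i (t i)) (f k (t k)) then 0 else 1)
      (fun i _ => Finset.sum_nonneg fun k _ => by positivity) (mem_univ i)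
    rw [if_neg hik, if_neg h] at h1
    have h3 : 1 ≤ B t := h1.trans h2
    linarith
  · change S t ≤ _
    rcases hN0.eq_or_lt with h | h
    · have hc : Fintype.card I = 0 := Nat.cast_eq_zero.1 (hN.symm.trans h.symm)
      have := Fintype.card_eq_zero_iff.1 hc
      rw [← h, hS]
      simp
    · have h1 : Y / (100 * N) * S t < 1 := by linarith
      rw [div_mul_eq_mul_div, div_lt_one (by positivity)] at h1
      rw [le_div_iff₀ hY0]
      linarith

end Pool.Agent.P.MP_b75a1e_co.EG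
end

-- part Pool.Agent.P.MP_b75a1e_co.FLDefs
section

set_option autoImplicit false

open Finset
open scoped BigOperators ComplexConjugate

namespace Pool.Agent.P.MP_b75a1e_co.EG

/-- The box that contains a family of rotations. -/
def InBox (m y J : ℕ) (δ : O m) : Prop :=
  (y : ℤ) < 2 * δ.re ∧ δ.re ≤ 2 * y ∧ (m : ℤ) ∣ δ.im ∧ |δ.im| ≤ m * J

/-- A dense family of elements whose norms are products of two large primes. -/
structure Fam (m y J : ℕ) (k : ℝ) (F : Finset (O m)) : Prop where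
  box : ∀ δ ∈ F, InBox m y J δ
  nrm : ∀ δ ∈ F, ∃ l l' : ℕ, l.Prime ∧ l'.Prime ∧ l ≠ l' ∧ y < l ∧ y < l' ∧ l ≤ 2 * y ∧ l' ≤ 2 * y ∧
    δ.norm = l * l'
  big : (y : ℝ) * J ≤ k * F.card
  pos : 1 ≤ J
  thin : 10 * m ^ 2 * J ≤ y

/-- The small parameter `k` dominates `m` and the constant of the divisor bound. -/
structure Sml (m : ℕ) (k : ℝ) : Prop where
  m1 : 1 ≤ m
  k1 : 10 ^ 10 ≤ k
  mk' : (m : ℝ) ≤ k
  tau : ∀ n : ℕ, 1 ≤ n → (n.divisors.card : ℝ) ≤ k * (n : ℝ) ^ (1 / 1000 : ℝ)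

/-- The sizes of the parameters. -/
structure Par (m s y : ℕ) (k ν : ℝ) : Prop where
  sml : Sml m k
  s1 : 1 ≤ s
  sk : (s : ℝ) ≤ k
  kν : k ^ 100 ≤ ν
  y1 : ν ^ 45 ≤ y
  y2 : (y : ℝ) ≤ ν ^ 115

/-- The top of the tower. -/
structure Pile {m : ℕ} (e : O m) (s : ℕ) (ν : ℝ) (U : Finset (O m)) : Prop where
  nrm : (e.norm : ℝ) = ν ^ 2000
  crd : ν ^ 1980 ≤ U.card
  sum : ∀ u ∈ U, SumRes e s u

/-- `φ` is the characteristic function of a random lattice point that is a sum of `n` field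
elements with the norm of `e` and is congruent to `n e` modulo `mu m`. -/
def Adm {m : ℕ} (e : O m) (n : ℕ) (φ : ℂ → ℂ) : Prop :=
  ∃ (Ω : Type) (_ : Fintype Ω) (_ : Nonempty Ω) (X : Ω → O m),
    (∀ ω, Rep m e.norm n (ph m (X ω)) ∧ mu m ∣ X ω - (n : O m) * e) ∧ ∀ b, ch X b = φ b

/-- The exponential sum of a set. -/
noncomputable def fU {m : ℕ} (U : Finset (O m)) (θ : ℂ) : ℂ := ∑ u ∈ U, ee (pr m θ (ph m u))

/-- The rotation attached to `δ`. -/
noncomputable def rot {m : ℕ} (δ : O m) : ℂ := ph m δ / conj (ph m δ)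

/-- The rotation attached to `δ`, reduced modulo `D`. -/
def tb {m : ℕ} (D : ℕ) (δ : O m) : O m := δ ^ 2 * ((((δ.norm : ZMod D)⁻¹).val : ℕ) : O m)

/-- The numerator of a rotated pile. -/
def Yb {m : ℕ} (e : O m) (s : ℕ) (δ u u' : O m) : O m :=
  δ * (u + u') + ((4 * s : ℕ) : O m) * e * star δ

/-- The conditions on an outer and an inner rotation. -/
structure Good (m Δ : ℕ) (α δ : O m) : Prop where
  sq : Squarefree (α * δ).norm.natAbs
  cop : Nat.Coprime (α * δ).norm.natAbs (2 * m)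
  le : (α * δ).norm.natAbs ≤ Δ
  ima : (m : ℤ) ∣ α.im
  imd : (m : ℤ) ∣ δ.im

/-- One term of the expansion of a block. -/
noncomputable def trm {m : ℕ} (α δ e : O m) (s : ℕ) (U : Finset (O m)) (b : ℂ) (c : ℕ) : ℂ :=
  ∑ u ∈ U, ∑ u' ∈ U,
    ee (pr m ((b * ph m α + c) / conj (ph m (α * δ))) (ph m (Yb e s δ u u')))

/-- The point at which that term samples the exponential sum. -/
noncomputable def pt {m : ℕ} (α δ : O m) (b : ℂ) (c : ℕ) : ℂ :=
  (b * ph m α + c) / conj (ph m (α * δ)) * ph m δ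

/-- The expansion of a block. -/
noncomputable def Tb {m : ℕ} {ι : Type} (I : Finset ι) (α δ : ι → O m) (e : O m) (s : ℕ)
    (U : Finset (O m)) (b : ℂ) : ℂ :=
  ∑ i ∈ I, ∑ c ∈ range (α i * δ i).norm.natAbs, trm (α i) (δ i) e s U b c

/-- The bilinear model sum over two rotations. -/
noncomputable def Sm {m : ℕ} (F : Finset (O m)) (D : ℕ) (γ : O m) (ζ : ℂ) : ℂ :=
  𝔼 δ1 ∈ F, 𝔼 δ2 ∈ F,
    ee (((γ * (tb D δ1 * tb D δ2)).im : ℝ) / D + pr m ζ (rot δ1 * rot δ2))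

/-- Near fractions with small denominator, `φ` is controlled by the model sums. -/
def MB {m : ℕ} (F U : Finset (O m)) (e : O m) (s : ℕ) (ν : ℝ) (φ : ℂ → ℂ) : Prop :=
  ∀ (γ : O m) (D : ℕ) (η : ℂ), 1 ≤ D → (D : ℝ) ≤ ν ^ 23 → ‖η‖ * ν ^ 1000 ≤ ν ^ 23 →
    ‖φ (ph m γ / D + η)‖ ≤ 4 * (𝔼 δ ∈ F, 𝔼 u ∈ U, 𝔼 u' ∈ U,
      ‖Sm F D (γ * (tb D δ * (u + u') + ((4 * s : ℕ) : O m) * e))
        (η * (rot δ * ph m (u + u') + ((4 * s : ℕ) : ℂ) * ph m e))‖) + 1 / ν ^ 10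

/-- The bounds for the block with one rotation. -/
def HB (m y : ℕ) (ν : ℝ) (φ : ℂ → ℂ) : Prop :=
  (∀ b, ¬ Low m b (64 * m * (y : ℝ) ^ 4) (ν ^ 2000) → ‖φ b‖ ≤ 1 / ν) ∧
    ∀ (γ : O m) (D : ℕ) (η : ℂ), 1 ≤ D → (D : ℝ) ≤ ν ^ 462 → ‖η‖ * ν ^ 1000 ≤ ν ^ 232 →
      ((ν ^ 22 ≤ D ∧ ∀ f : ℕ, f ∣ D → (f : O m) ∣ γ → (f : ℝ) ^ 5 ≤ ν) ∨
        ν ^ 43 ≤ (‖η‖ * ν ^ 1000) ^ 2) → ‖φ (ph m γ / D + η)‖ ≤ 1 / ν

/-- The bound for the block with a narrow family. -/
def NB {m : ℕ} (e : O m) (k ν : ℝ) (φ : ℂ → ℂ) : Prop :=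
  ∀ (g β : O m) (d : ℕ) (η : ℂ), k ^ 8000 ≤ d → (d : ℝ) ≤ ν ^ 22 →
    (∀ f : ℕ, f ∣ d → (f : O m) ∣ β * (g * e) → f ^ 2 ≤ d) → ‖η‖ * ν ^ 1000 ≤ 2 * ν ^ 22 →
      ‖φ (ph m (-(β * g * mu m)) / (d * m ^ 3 : ℕ) + η)‖ ≤ (d : ℝ) ^ (-1 / 600 : ℝ)

/-- The bound for the block with a wide family. -/
def WB (m : ℕ) (k ν : ℝ) (φ : ℂ → ℂ) : Prop :=
  ∀ (γ : O m) (D : ℕ) (η : ℂ), 1 ≤ D → (D : ℝ) ≤ ν ^ 22 * k ^ 3 → k ^ 1000 ≤ ‖η‖ * ν ^ 1000 →
    ‖η‖ * ν ^ 1000 ≤ 2 * ν ^ 22 → ‖φ (ph m γ / D + η)‖ ≤ 5 * (‖η‖ * ν ^ 1000) ^ (-1 / 25 : ℝ)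

/-- The average over cubes of shifts. -/
noncomputable def TT {G : Type} [AddCommGroup G] [Fintype G] : ℕ → (G → ℝ) → ℝ
  | 0, g => |𝔼 x, g x|
  | r + 1, g => 𝔼 h, 𝔼 h', TT r fun x => g (x + h) * g (x + h')

end Pool.Agent.P.MP_b75a1e_co.EG
end

-- part Pool.Agent.P.MP_b75a1e_co.EGDesign
section

set_option autoImplicit false

open Finset
open scoped BigOperators ComplexConjugate

namespace Pool.Agent.P.MP_b75a1e_co.EG

theorem near_res_EGDesign (E : ℕ) (hE : 1 ≤ E) (c : ℤ) (u : ℝ) :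
    ∃ a : ℤ, (E : ℤ) ∣ a - c ∧ u < a ∧ (a : ℝ) ≤ u + E := by
  have hE' : (0 : ℝ) < E := by exact_mod_cast hE
  refine ⟨c + E * (⌊(u - c) / E⌋ + 1), ⟨⌊(u - c) / E⌋ + 1, by ring⟩, ?_, ?_⟩
  · have h := Int.lt_floor_add_one ((u - c) / E)
    rw [div_lt_iff₀ hE'] at h
    push_cast
    nlinarith
  · have h := Int.floor_le ((u - c) / E)
    rw [le_div_iff₀ hE'] at h
    push_cast
    nlinarith

theorem near_ne_EGDesign (E len : ℕ) (hE : 1 ≤ E) (c : ℤ) (u : ℝ) :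
    ∃ b e : ℤ, (e = E ∨ e = -E) ∧ (E : ℤ) ∣ b - c ∧
      ∀ t < len, b + e * (t : ℕ) ≠ 0 ∧ |((b + e * (t : ℕ) : ℤ) : ℝ) - u| ≤ E * len := by
  have hE' : (0 : ℝ) < E := by exact_mod_cast hE
  rcases le_total 0 u with hu | hu
  · obtain ⟨a, h1, h2, h3⟩ := near_res_EGDesign E hE c u
    refine ⟨a, E, Or.inl rfl, h1, fun t ht => ?_⟩
    have ht0 : (0 : ℝ) ≤ t := Nat.cast_nonneg t
    have ht1 : (t : ℝ) + 1 ≤ len := by exact_mod_cast ht
    have hp : (0 : ℝ) ≤ E * t := mul_nonneg hE'.le ht0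
    constructor
    · intro h
      have h' : ((a + E * (t : ℕ) : ℤ) : ℝ) = 0 := by exact_mod_cast h
      push_cast at h'
      linarith
    · push_cast
      rw [abs_le]
      constructor <;> nlinarith
  · obtain ⟨a, h1, h2, h3⟩ := near_res_EGDesign E hE (-c) (-u)
    refine ⟨-a, -E, Or.inr rfl, ?_, fun t ht => ?_⟩
    · have : -a - c = -(a - -c) := by ring
      rw [this]
      exact h1.neg_right
    have ht0 : (0 : ℝ) ≤ t := Nat.cast_nonneg t
    have ht1 : (t : ℝ) + 1 ≤ len := by exact_mod_cast ht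
    have hp : (0 : ℝ) ≤ E * t := mul_nonneg hE'.le ht0
    constructor
    · intro h
      have h' : ((-a + -E * (t : ℕ) : ℤ) : ℝ) = 0 := by exact_mod_cast h
      push_cast at h'
      linarith
    · push_cast
      rw [abs_le]
      constructor <;> nlinarith

/-- L13: coordinates with prescribed residue and direction. -/
theorem design {I : Type} [Fintype I] [DecidableEq I] (m Y len E w : ℕ) (B σ : ℝ) (ζ : I → O m)
    (ω : I → ℂ) (DD : ℤ) (hm : 1 ≤ m) (hE : 1 ≤ E) (hEs : Smo Y E) (hω : ∀ i, ‖ω i‖ = 1)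
    (hB : 1 ≤ B) (hY : 2 ≤ Y) (hlen1 : 1 ≤ len) (hlen : Y * w ≤ len)
    (hw : (B + 4 * E * len * Real.sqrt m) ^ 2 ≤ 2 ^ w) (hD : DD ≠ 0) (hσ0 : 0 ≤ σ)
    (hσ : wt Y len DD ≤ σ)
    (hI : 2 * (Fintype.card I : ℝ) * σ + 220 * (Fintype.card I : ℝ) ^ 2 / Y ≤ 1 / 2) :
    ∃ z : I → O m, (∀ i, (E : O m) ∣ z i - ζ i ∧
        ‖ph m (z i) - B * ω i‖ ≤ 4 * E * len * Real.sqrt m ∧ Prim Y (z i) ∧ z i ≠ 0 ∧
        Cop Y DD (z i).norm) ∧
      (∀ i k, i ≠ k → Cop Y (z i).norm (z k).norm) ∧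
      ∑ i, wt Y len (z i).norm ≤ 100 * (Fintype.card I : ℝ) / Y := by
  have hE' : (1 : ℝ) ≤ E := by exact_mod_cast hE
  have hl' : (1 : ℝ) ≤ len := by exact_mod_cast hlen1
  have hY' : (0 : ℝ) < Y := by exact_mod_cast (by omega : 0 < Y)
  have hs : (1 : ℝ) ≤ Real.sqrt m := by
    rw [Real.one_le_sqrt]
    exact_mod_cast hm
  have hEl : (1 : ℝ) ≤ E * len := by nlinarith
  have hEls : (E : ℝ) * len ≤ E * len * Real.sqrt m := by nlinarith
  have hnB : ∀ i, ‖(B : ℂ) * ω i‖ = B := fun i => by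
    rw [norm_mul, hω i, mul_one, Complex.norm_real, Real.norm_eq_abs, abs_of_nonneg (by linarith)]
  have hnE : ∀ l : ℕ, l.Prime → Y < l → ¬ (l : ℤ) ∣ (E : ℤ) := fun l hl hY h => by
    have := hEs l hl (Int.natCast_dvd_natCast.1 h)
    omega
  choose b0 e he hb0 hb using fun i =>
    near_ne_EGDesign E len hE (ζ i).im (((B : ℂ) * ω i).im / Real.sqrt m)
  choose a0 ha0 ha1 ha2 using fun i => near_res_EGDesign E hE (ζ i).re ((B : ℂ) * ω i).re
  have hc0 : (0 : ℝ) ≤ (Fintype.card I : ℝ) ^ 2 / Y := by positivity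
  have hz4 : (𝔼 _t : I → Fin len, (0 : ℝ)) ≤ 1 / 4 := by
    rw [Finset.expect_const_zero]
    norm_num
  obtain ⟨t1, -, -, -, hw1⟩ := stage Y len w (fun i t => b0 i + e i * (t : ℕ)) DD σ (fun _ => 0) hY
    hlen1 hlen
    (fun i t ht => by
      refine ⟨(hb i t ht).1, ?_⟩
      have h1 := (hb i t ht).2
      have h2 : |((B : ℂ) * ω i).im / Real.sqrt m| ≤ B := by
        rw [abs_div, abs_of_nonneg (Real.sqrt_nonneg _), div_le_iff₀ (by linarith)]
        have := Complex.abs_im_le_norm ((B : ℂ) * ω i)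
        rw [hnB] at this
        nlinarith
      have h3 : |((b0 i + e i * (t : ℕ) : ℤ) : ℝ)| ≤ B + E * len := by
        have := abs_add_le (((b0 i + e i * (t : ℕ) : ℤ) : ℝ) - ((B : ℂ) * ω i).im / Real.sqrt m)
          (((B : ℂ) * ω i).im / Real.sqrt m)
        rw [sub_add_cancel] at this
        linarith
      have h4 : B + E * len ≤ (B + 4 * E * len * Real.sqrt m) ^ 2 := by nlinarith
      have h5 : ((|b0 i + e i * (t : ℕ)| : ℤ) : ℝ) ≤ ((2 ^ w : ℤ) : ℝ) := by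
        rw [Int.cast_abs]
        push_cast at h3 ⊢
        linarith
      exact_mod_cast h5)
    (fun i => roots_lin Y len (b0 i) (e i) fun l hl hY h => by
      rcases he i with h' | h'
      · exact hnE l hl hY (h' ▸ h)
      · rw [h'] at h
        exact hnE l hl hY (dvd_neg.1 h))
    hD hσ
    (by
      have : 20 * (Fintype.card I : ℝ) ^ 2 / Y ≤ 220 * (Fintype.card I : ℝ) ^ 2 / Y := by
        rw [mul_div_assoc, mul_div_assoc]
        linarith
      linarith)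
    (fun _ => le_rfl) hz4
  obtain ⟨b, hbdef⟩ : ∃ b : I → ℤ, ∀ i, b i = b0 i + e i * ((t1 i : ℕ) : ℤ) := ⟨_, fun _ => rfl⟩
  have hbne : ∀ i, b i ≠ 0 := fun i => by
    rw [hbdef]
    exact (hb i _ (t1 i).2).1
  have hbcl : ∀ i, |(b i : ℝ) - ((B : ℂ) * ω i).im / Real.sqrt m| ≤ E * len := fun i => by
    rw [hbdef]
    exact (hb i _ (t1 i).2).2
  have hbres : ∀ i, (E : ℤ) ∣ b i - (ζ i).im := fun i => by
    rw [hbdef]
    have h1 : b0 i + e i * ((t1 i : ℕ) : ℤ) - (ζ i).im = (b0 i - (ζ i).im) + e i * ((t1 i : ℕ) : ℤ) := by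
      ring
    rw [h1]
    refine dvd_add (hb0 i) (Dvd.dvd.mul_right ?_ _)
    rcases he i with h' | h' <;> rw [h']
    exact (dvd_refl _).neg_right
  have hbw : ∑ i, wt Y len (b i) ≤ 100 * (Fintype.card I : ℝ) / Y := by
    simpa only [hbdef] using hw1
  obtain ⟨zz, hzz⟩ : ∃ zz : I → ℕ → O m,
      ∀ i t, zz i t = (⟨a0 i, b i⟩ : O m) + (t : O m) * (E : O m) := ⟨_, fun _ _ => rfl⟩
  have hre : ∀ i t, (zz i t).re = a0 i + t * E := fun i t => by
    rw [hzz, ← Nat.cast_mul]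
    simp
  have him : ∀ i t, (zz i t).im = b i := fun i t => by
    rw [hzz, ← Nat.cast_mul]
    simp
  have hne : ∀ i t, zz i t ≠ 0 := fun i t h => by
    have := him i t
    rw [h] at this
    exact hbne i (by simpa using this.symm)
  have hcl : ∀ i, ∀ t < len, ‖ph m (zz i t) - B * ω i‖ ≤ 4 * E * len * Real.sqrt m := fun i t ht => by
    refine (Complex.norm_le_abs_re_add_abs_im _).trans ?_
    have ht0 : (0 : ℝ) ≤ t := Nat.cast_nonneg t
    have ht1 : (t : ℝ) + 1 ≤ len := by exact_mod_cast ht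
    have h1 : |(ph m (zz i t) - B * ω i).re| ≤ E * len := by
      rw [Complex.sub_re, ph_re, hre]
      have := ha1 i
      have := ha2 i
      push_cast
      rw [abs_le]
      constructor <;> nlinarith
    have h2 : |(ph m (zz i t) - B * ω i).im| ≤ E * len * Real.sqrt m := by
      rw [Complex.sub_im, ph_im, him]
      have h3 : (b i : ℝ) * Real.sqrt m - ((B : ℂ) * ω i).im
          = ((b i : ℝ) - ((B : ℂ) * ω i).im / Real.sqrt m) * Real.sqrt m := by
        field_simp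
      rw [h3, abs_mul, abs_of_nonneg (Real.sqrt_nonneg _)]
      exact mul_le_mul_of_nonneg_right (hbcl i) (Real.sqrt_nonneg _)
    nlinarith
  obtain ⟨t2, -, hc1, hc2, hw2⟩ := stage Y len w (fun i t => (zz i t).norm) (DD * ∏ i, b i)
    (σ + 100 * (Fintype.card I : ℝ) / Y) (fun _ => 0) hY hlen1 hlen
    (fun i t ht => by
      have hp := norm_pos' hm (hne i t)
      refine ⟨by omega, ?_⟩
      rw [abs_of_nonneg (by omega)]
      have h1 := norm_sq_ph (zz i t)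
      have h2 : ‖ph m (zz i t)‖ ≤ B + 4 * E * len * Real.sqrt m := by
        have := norm_add_le (ph m (zz i t) - B * ω i) (B * ω i)
        rw [sub_add_cancel, hnB] at this
        have := hcl i t ht
        linarith
      have h3 := pow_le_pow_left₀ (norm_nonneg _) h2 2
      have h5 : (((zz i t).norm : ℤ) : ℝ) ≤ ((2 ^ w : ℤ) : ℝ) := by
        push_cast
        linarith
      exact_mod_cast h5)
    (fun i => by
      simp only [hzz]
      refine roots_norm Y len _ _ fun l hl hY h => ?_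
      rw [Zsqrtd.norm_natCast] at h
      rcases (Nat.prime_iff_prime_int.1 hl).dvd_or_dvd h with h | h <;> exact hnE l hl hY h)
    (mul_ne_zero hD (Finset.prod_ne_zero_iff.2 fun i _ => hbne i))
    (by
      have h1 := wt_mul Y len DD (∏ i, b i)
      have h2 := wt_prod Y len univ b
      linarith)
    (by
      have : 2 * (Fintype.card I : ℝ) * (σ + 100 * (Fintype.card I : ℝ) / Y)
          + 20 * (Fintype.card I : ℝ) ^ 2 / Y
          = 2 * (Fintype.card I : ℝ) * σ + 220 * (Fintype.card I : ℝ) ^ 2 / Y := by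
        field_simp
        ring
      linarith)
    (fun _ => le_rfl) hz4
  refine ⟨fun i => zz i (t2 i), fun i => ⟨?_, hcl i _ (t2 i).2, ?_, hne i _, ?_⟩, hc2, hw2⟩
  · rw [nat_dvd_iff, Zsqrtd.re_sub, Zsqrtd.im_sub, hre, him]
    refine ⟨?_, hbres i⟩
    have h1 : a0 i + ((t2 i : ℕ) : ℤ) * E - (ζ i).re = (a0 i - (ζ i).re) + E * ((t2 i : ℕ) : ℤ) := by
      ring
    rw [h1]
    exact dvd_add (ha0 i) (Dvd.intro _ rfl)
  · intro l hl hY h
    have h1 := ((nat_dvd_iff l _).1 h).2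
    rw [him] at h1
    have h2 := norm_dvd_norm h
    rw [Zsqrtd.norm_natCast] at h2
    exact hc1 i l hl hY (Dvd.dvd.mul_left (h1.trans (Finset.dvd_prod_of_mem b (mem_univ i))) _)
      ((Dvd.intro _ rfl).trans h2)
  · exact (hc1 i).of_dvd (Dvd.intro _ rfl) (dvd_refl _)

/-- The unit vector of a point is close to that of its direction. -/
theorem unit_close (z ω : ℂ) (B η : ℝ) (hω : ‖ω‖ = 1) (hB : 0 < B) (hz : z ≠ 0)
    (h : ‖z - B * ω‖ ≤ η) : ‖z / conj z - ω / conj ω‖ ≤ 2 * η / B := by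
  have hω0 : ω ≠ 0 := by
    intro h0
    rw [h0, norm_zero] at hω
    exact zero_ne_one hω
  have hcz : conj z ≠ 0 := by simpa using hz
  have hcω : conj ω ≠ 0 := by simpa using hω0
  have hBc : (B : ℂ) ≠ 0 := by exact_mod_cast hB.ne'
  have hzp : 0 < ‖z‖ := norm_pos_iff.2 hz
  have key : z / conj z - ω / conj ω
      = ((z - B * ω) * conj z - z * conj (z - B * ω)) / (conj z * (B * conj ω)) := by
    rw [map_sub, map_mul, Complex.conj_ofReal]
    field_simp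
    ring
  have h1 : ‖(z - B * ω) * conj z - z * conj (z - B * ω)‖ ≤ 2 * η * ‖z‖ := by
    refine (norm_sub_le _ _).trans ?_
    rw [norm_mul, norm_mul, Complex.norm_conj, Complex.norm_conj]
    nlinarith
  rw [key, norm_div, norm_mul, norm_mul, Complex.norm_conj, Complex.norm_conj, hω,
    Complex.norm_real, Real.norm_eq_abs, abs_of_pos hB, mul_one,
    div_le_div_iff₀ (by positivity) hB]
  nlinarith

theorem norm_dir (i : ℕ) : ‖dir i‖ = 1 := by
  have h3 : Real.sqrt 3 * Real.sqrt 3 = 3 := Real.mul_self_sqrt (by norm_num)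
  have hq : ∀ z : ℂ, Complex.normSq z = 1 → ‖z‖ = 1 := fun z hz => by
    rw [Complex.norm_def, hz, Real.sqrt_one]
  unfold dir
  split_ifs
  · apply hq
    rw [Complex.normSq_mk]
    linarith
  · apply hq
    rw [Complex.normSq_mk]
    linarith
  all_goals simp

theorem div_dir_EGDesign (i : ℕ) : dir i / conj (dir i) = dir i ^ 2 := by
  have h := norm_dir i
  have h0 : dir i ≠ 0 := by
    intro h0
    rw [h0, norm_zero] at h
    exact zero_ne_one h
  have hc : conj (dir i) ≠ 0 := by simpa using h0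
  have h1 : dir i * conj (dir i) = 1 := by
    rw [Complex.mul_conj', h]
    simp
  rw [div_eq_iff hc, pow_two, mul_assoc, h1, mul_one]

theorem sum_dir (Nf : ℕ) (h : 5 ≤ Nf) (hodd : Nf % 2 = 1) :
    ∑ i ∈ range Nf, dir i / conj (dir i) = 0 := by
  simp only [div_dir_EGDesign]
  obtain ⟨k, rfl⟩ : ∃ k, Nf = 5 + 2 * k := ⟨(Nf - 5) / 2, by omega⟩
  clear h hodd
  induction k with
  | zero =>
    have h3 : Real.sqrt 3 * Real.sqrt 3 = 3 := Real.mul_self_sqrt (by norm_num)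
    have h0 : dir 0 ^ 2 + dir 1 ^ 2 = -1 := by
      have e0 : dir 0 = ⟨1 / 2, Real.sqrt 3 / 2⟩ := by simp [dir]
      have e1 : dir 1 = ⟨-1 / 2, Real.sqrt 3 / 2⟩ := by simp [dir]
      rw [e0, e1]
      apply Complex.ext
      · simp only [pow_two, Complex.add_re, Complex.mul_re, Complex.neg_re, Complex.one_re]
        linarith
      · simp only [pow_two, Complex.add_im, Complex.mul_im, Complex.neg_im, Complex.one_im]
        ring
    have e2 : dir 2 = 1 := by simp [dir]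
    have e3 : dir 3 = Complex.I := by simp [dir]
    have e4 : dir 4 = 1 := by simp [dir]
    simp only [mul_zero, add_zero, Finset.sum_range_succ, Finset.sum_range_zero, zero_add]
    rw [h0, e2, e3, e4, Complex.I_sq]
    ring
  | succ k ih =>
    have e1 : dir (5 + 2 * k) = 1 := by
      unfold dir
      rw [if_neg (by omega), if_neg (by omega), if_neg (by omega), if_neg (by omega),
        if_pos (by omega)]
    have e2 : dir (5 + 2 * k + 1) = Complex.I := by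
      unfold dir
      rw [if_neg (by omega), if_neg (by omega), if_neg (by omega), if_neg (by omega),
        if_neg (by omega)]
    rw [show 5 + 2 * (k + 1) = 5 + 2 * k + 1 + 1 by ring, Finset.sum_range_succ,
      Finset.sum_range_succ, ih, e1, e2, Complex.I_sq]
    ring

end Pool.Agent.P.MP_b75a1e_co.EG
end

-- part Pool.Agent.P.MP_b75a1e_co.EGEnd
section

set_option autoImplicit false

open Finset
open scoped BigOperators ComplexConjugate

namespace Pool.Agent.P.MP_b75a1e_co.EG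

section helpers
variable {m : ℕ}

lemma dv_mu_EGEnd (hm : 1 ≤ m) (x : O m) : dv (mu m * x) = x :=
  o_cancel hm (mu_ne_zero hm) (mu_mul_dv (Dvd.intro _ rfl))

lemma nle_mu_EGEnd (hm : 1 ≤ m) (x : O m) : ‖ph m x‖ ≤ ‖ph m (mu m * x)‖ := by
  rw [map_mul, norm_mul]
  have h1 := one_le_norm_mu hm
  have h2 := norm_nonneg (ph m x)
  nlinarith

lemma nstar_EGEnd (x : O m) : ‖ph m (star x)‖ = ‖ph m x‖ := by
  rw [ph_star, Complex.norm_conj]

lemma nsqrt_EGEnd (x : O m) : Real.sqrt (x.norm : ℝ) = ‖ph m x‖ := by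
  rw [← norm_sq_ph, Real.sqrt_sq (norm_nonneg _)]

lemma nadd_EGEnd (x y : O m) : ‖ph m (x + y)‖ ≤ ‖ph m x‖ + ‖ph m y‖ := by
  rw [map_add]
  exact norm_add_le _ _

lemma nsub_EGEnd (x y : O m) : ‖ph m (x - y)‖ ≤ ‖ph m x‖ + ‖ph m y‖ := by
  rw [map_sub]
  exact norm_sub_le _ _

lemma nmul_EGEnd (x y : O m) : ‖ph m (x * y)‖ = ‖ph m x‖ * ‖ph m y‖ := by
  rw [map_mul, norm_mul]

lemma nnat_EGEnd (n : ℕ) (x : O m) : ‖ph m ((n : O m) * x)‖ = n * ‖ph m x‖ := by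
  rw [map_mul, norm_mul, map_natCast, Complex.norm_natCast]

lemma dev_EGEnd {n : ℕ} {G2 A : O m} (h : SumOf G2.norm n A) :
    ‖ph m (A - (n : O m) * G2)‖ ≤ 2 * n * ‖ph m G2‖ := by
  have h1 := h.norm_le
  rw [nsqrt_EGEnd] at h1
  have h2 := nsub_EGEnd A ((n : O m) * G2)
  rw [nnat_EGEnd] at h2
  linarith

lemma pair_eq_EGEnd (g G2 A A' : O m) (n : ℕ) :
    g * A + star (g * A') - (n : O m) * (g * G2 + star (g * G2)) =
      g * (A - (n : O m) * G2) + star (g * (A' - (n : O m) * G2)) := by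
  simp only [star_mul', star_sub, star_natCast]
  ring

lemma pair_mu_EGEnd (g G2 A A' a a' : O m) (n : ℕ) (ha : A - (n : O m) * G2 = mu m * a)
    (ha' : A' - (n : O m) * G2 = mu m * a') :
    g * A + star (g * A') - (n : O m) * (g * G2 + star (g * G2)) =
      mu m * (g * a - star (g * a')) := by
  rw [pair_eq_EGEnd, ha, ha']
  simp only [star_mul', star_mu]
  ring

lemma pair_norm_EGEnd (g u u' : O m) (c : ℝ) (hu : ‖ph m u‖ ≤ c) (hu' : ‖ph m u'‖ ≤ c) :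
    ‖ph m (g * u + star (g * u'))‖ ≤ 2 * (‖ph m g‖ * c) := by
  have h1 := nadd_EGEnd (g * u) (star (g * u'))
  rw [nstar_EGEnd, nmul_EGEnd, nmul_EGEnd] at h1
  have h0 := norm_nonneg (ph m g)
  have h2 := mul_le_mul_of_nonneg_left hu h0
  have h3 := mul_le_mul_of_nonneg_left hu' h0
  linarith

lemma pair_sum_EGEnd (g G2 A A' : O m) (n : ℕ) (N : ℤ) (hN : g.norm * G2.norm = N)
    (h : SumOf G2.norm n A) (h' : SumOf G2.norm n A') :
    SumOf N (n + n) (g * A + star (g * A')) := by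
  have a := h.mul_left g
  have b := (h'.mul_left g).conj
  rw [hN] at a b
  exact a.add b

lemma two_re_EGEnd (x : O m) : ((2 * x.re : ℤ) : O m) = x + star x := by
  ext <;> simp [two_mul]

end helpers

open Classical in
/-- From the families of summands to a closed walk. -/
theorem endgame (m p Y Q Mg n1 n2 Nf : ℕ) (H NN0 ε : ℝ) {Ω Ω' : Type} [Fintype Ω] [Fintype Ω']
    [Nonempty Ω] [Nonempty Ω'] (zg G2 S : O m) (A A' : Ω → O m) (B B' : Ω' → O m) (W : ℕ → ℝ)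
    (hm : 1 ≤ m) (hp1 : 1 ≤ p) (hQ : 1 ≤ Q) (hQm : Nat.Coprime Q m) (hQM : Q ∣ Mg) (hH : 1 ≤ H)
    (hM1 : 8 * p * Real.sqrt NN0 ≤ Mg) (hM2 : (Mg : ℝ) ≤ 9 * p * Real.sqrt NN0)
    (hN : (100 * Q * p * H) ^ 2 ≤ NN0) (hε0 : 0 ≤ ε)
    (hε : 10 * p * ε * (Q : ℝ) ^ 2 * (p : ℝ) ^ 2 * H ^ 5 ≤ 1 / 10 ^ 9)
    (hp : 4 * (n1 + n2) + Nf = p) (hNN : ((star zg * G2).norm : ℝ) ≤ 2 * NN0)
    (hg1 : (Q : O m) ∣ zg + star zg) (hg2 : (m : O m) ^ 2 ∣ zg - 1)
    (hg3 : ‖ph m (zg + star zg)‖ ≤ ε * ‖ph m zg‖)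
    (hA : ∀ ω, SumOf G2.norm n1 (A ω) ∧ mu m ∣ A ω - (n1 : O m) * G2)
    (hA' : ∀ ω, SumOf G2.norm n1 (A' ω) ∧ mu m ∣ A' ω - (n1 : O m) * G2)
    (hB : ∀ ω, SumOf G2.norm n2 (B ω) ∧ (Q : O m) * mu m ∣ B ω - (n2 : O m) * G2 ∧
      ‖ph m (B ω - (n2 : O m) * G2)‖ ≤ n2 * ε * ‖ph m G2‖)
    (hB' : ∀ ω, SumOf G2.norm n2 (B' ω) ∧ (Q : O m) * mu m ∣ B' ω - (n2 : O m) * G2 ∧
      ‖ph m (B' ω - (n2 : O m) * G2)‖ ≤ n2 * ε * ‖ph m G2‖)
    (hS : Rep m (star zg * G2).norm Nf (ph m S) ∧ (Q : O m) ∣ S ∧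
      mu m ∣ S + ((4 * (n1 + n2 : ℕ) * (star zg * G2).re : ℤ) : O m) ∧
      ‖ph m S‖ ≤ p * ε * ‖ph m (star zg * G2)‖)
    (h1 : ∑ n ∈ (grid Mg).filter (fun n => ¬ Low m (gp m Mg n) H NN0),
      ‖ch (fun ω => star zg * A ω + star (star zg * A' ω)) (gp m Mg n / ph m (mu m))‖ ≤ 1 / 10)
    (h2 : ∑ n ∈ (grid Mg).filter
      (fun n => ∃ (β : O m) (d : ℕ), Near m (gp m Mg n) β d H NN0 ∧ Deep Y Q d),
      ‖ch (fun ω => star zg * A ω + star (star zg * A' ω)) (gp m Mg n / ph m (mu m))‖ ≤ 1 / 10)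
    (h3 : ∀ (d : ℕ) (β : O m), 1 < d → (d : ℝ) ≤ H → Rough Y d → PrimAt β d →
      ‖ch (fun ω => dv (star zg * B ω + star (star zg * B' ω) -
        (n2 : O m) * (star zg * G2 + star (star zg * G2)))) (ph m β / d)‖ ≤ W d)
    (hW0 : ∀ d, 0 ≤ W d)
    (h4 : ∑ d ∈ (Icc 2 ⌊H⌋₊).filter (Rough Y), (d : ℝ) ^ 2 * W d ≤ 1 / 100) :
    Rep m (star zg * G2).norm p 0 := by
  have hnz : (star zg).norm = zg.norm := Zsqrtd.norm_conj zg
  have hN1 : (star zg).norm * G2.norm = (star zg * G2).norm := (Zsqrtd.norm_mul _ _).symm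
  have hN2 : zg.norm * G2.norm = (star zg * G2).norm := by rw [← hN1, hnz]
  set s := Real.sqrt NN0 with hs
  have hs0 : 0 ≤ s := Real.sqrt_nonneg _
  have hNN0 : 0 ≤ NN0 := le_trans (sq_nonneg _) hN
  set a := ‖ph m zg‖ with ha
  set b := ‖ph m G2‖ with hb
  have a0 : 0 ≤ a := norm_nonneg _
  have b0 : 0 ≤ b := norm_nonneg _
  have hsa : ‖ph m (star zg)‖ = a := nstar_EGEnd zg
  have hG : ‖ph m (star zg * G2)‖ = a * b := by rw [nmul_EGEnd, hsa]
  have hab : a * b ≤ 2 * s := by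
    have e1 : (a * b) ^ 2 ≤ (2 * s) ^ 2 := by
      have e2 : s ^ 2 = NN0 := Real.sq_sqrt hNN0
      rw [← hG, norm_sq_ph, mul_pow, e2]
      linarith
    exact (sq_le_sq₀ (mul_nonneg a0 b0) (by positivity)).1 e1
  have ab0 : 0 ≤ a * b := mul_nonneg a0 b0
  have hn1 : (4 : ℝ) * n1 ≤ p := by exact_mod_cast (show 4 * n1 ≤ p by omega)
  have hn2 : (4 : ℝ) * n2 ≤ p := by exact_mod_cast (show 4 * n2 ≤ p by omega)
  have hn : (4 : ℝ) * (n1 + n2 : ℕ) ≤ p := by exact_mod_cast (show 4 * (n1 + n2) ≤ p by omega)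
  have p0 : (0 : ℝ) ≤ p := Nat.cast_nonneg _
  have pe : 0 ≤ (p : ℝ) * ε := mul_nonneg p0 hε0
  have key : (p : ℝ) * ε * (a * b) ≤ p * ε * (2 * s) := mul_le_mul_of_nonneg_left hab pe
  have pes : 0 ≤ (p : ℝ) * ε * s := mul_nonneg pe hs0
  choose x hx using fun ω => (hA ω).2
  choose x' hx' using fun ω => (hA' ω).2
  choose y hy using fun ω => (hB ω).2.1
  choose y' hy' using fun ω => (hB' ω).2.1
  have eX := fun ω => pair_mu_EGEnd (star zg) G2 (A ω) (A' ω) (x ω) (x' ω) n1 (hx ω) (hx' ω)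
  have eXt := fun ω => pair_mu_EGEnd zg G2 (A ω) (A' ω) (x ω) (x' ω) n1 (hx ω) (hx' ω)
  have eZ := fun ω => pair_mu_EGEnd (star zg) G2 (B ω) (B' ω) ((Q : O m) * y ω) ((Q : O m) * y' ω) n2
    (by rw [hy ω]; ring) (by rw [hy' ω]; ring)
  have hT : mu m ∣ ((n1 + n2 : ℕ) : O m) * ((zg + star zg) * (G2 + star G2)) + S := by
    have d1 : (m : O m) ^ 2 ∣ star zg - 1 := by
      have := dvd_star hg2
      simpa using this
    have d2 : mu m ∣ zg - star zg := by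
      have := dvd_sub hg2 d1
      rw [show zg - 1 - (star zg - 1) = zg - star zg by ring] at this
      exact mu_dvd_sq.trans this
    have e : ((n1 + n2 : ℕ) : O m) * ((zg + star zg) * (G2 + star G2)) + S =
        (S + ((4 * (n1 + n2 : ℕ) * (star zg * G2).re : ℤ) : O m)) +
          (zg - star zg) * (((n1 + n2 : ℕ) : O m) * (G2 - star G2)) := by
      have e1 : ((4 * (n1 + n2 : ℕ) * (star zg * G2).re : ℤ) : O m) =
          2 * ((n1 + n2 : ℕ) : O m) * ((2 * (star zg * G2).re : ℤ) : O m) := by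
        push_cast
        ring
      rw [e1, two_re_EGEnd]
      simp only [star_mul', star_star]
      ring
    rw [e]
    exact dvd_add hS.2.2.1 (Dvd.dvd.mul_right d2 _)
  obtain ⟨t, ht⟩ := hT
  have hQt : (Q : O m) ∣ t := by
    have c1 : IsCoprime (Q : O m) (m : O m) := hQm.cast
    have c2 : IsCoprime (Q : O m) (mu m) := (c1.pow_right (n := 2)).of_isCoprime_of_dvd_right mu_dvd_sq
    refine c2.dvd_of_dvd_mul_left ?_
    rw [← ht]
    exact dvd_add (Dvd.dvd.mul_left (Dvd.dvd.mul_right hg1 _) _) hS.2.1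
  have main := circle m p Y Q Mg H NN0 (10 * p * ε)
    (fun ω => dv (star zg * A ω + star (star zg * A' ω) -
      (n1 : O m) * (star zg * G2 + star (star zg * G2))))
    (fun ω => dv (zg * A ω + star (zg * A' ω) - (n1 : O m) * (zg * G2 + star (zg * G2))))
    (fun ω => dv (star zg * B ω + star (star zg * B' ω) -
      (n2 : O m) * (star zg * G2 + star (star zg * G2))))
    (-t) W hm hp1 hQ hQM hH hM1 hM2 hN (by positivity) hε ?_ ?_ ?_ ?_ ?_ ?_ h3 hW0 h4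
  · obtain ⟨ω, ω', ω'', hE⟩ := main
    rw [eX, eXt, eZ, dv_mu_EGEnd hm, dv_mu_EGEnd hm, dv_mu_EGEnd hm] at hE
    have s1 := pair_sum_EGEnd (star zg) G2 (A ω) (A' ω) n1 _ hN1 (hA ω).1 (hA' ω).1
    have s2 := pair_sum_EGEnd zg G2 (A ω') (A' ω') n1 _ hN2 (hA ω').1 (hA' ω').1
    have s3 := pair_sum_EGEnd (star zg) G2 (B ω'') (B' ω'') n2 _ hN1 (hB ω'').1 (hB' ω'').1
    have s0 : SumOf G2.norm n2 ((n2 : O m) * G2) := SumOf.smul rfl n2
    have s4 := pair_sum_EGEnd zg G2 _ _ n2 _ hN2 s0 s0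
    have r := (((s1.add s2).add s3).add s4).rep.add hS.1
    rw [show n1 + n1 + (n1 + n1) + (n2 + n2) + (n2 + n2) + Nf = p by omega, ← map_add] at r
    have z : star zg * A ω + star (star zg * A' ω) + (zg * A ω' + star (zg * A' ω')) +
        (star zg * B ω'' + star (star zg * B' ω'')) +
        (zg * ((n2 : O m) * G2) + star (zg * ((n2 : O m) * G2))) + S = 0 := by
      have f1 := eX ω
      have f2 := eXt ω'
      have f3 := eZ ω''
      simp only [star_mul', star_star, star_natCast] at f1 f2 f3 hE ⊢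
      push_cast at ht
      linear_combination f1 + f2 + f3 + ht + mu m * hE
    rw [z, map_zero] at r
    exact r
  · intro ω
    have u := pair_norm_EGEnd (star zg) _ _ _ (dev_EGEnd (hA ω).1) (dev_EGEnd (hA' ω).1)
    rw [← pair_eq_EGEnd, eX, hsa] at u
    rw [eX, dv_mu_EGEnd hm]
    have v := (nle_mu_EGEnd hm _).trans u
    have w1 := mul_le_mul_of_nonneg_right hn1 ab0
    have w2 := mul_le_mul_of_nonneg_left hab p0
    linarith
  · intro ω
    rw [eX, eXt, dv_mu_EGEnd hm, dv_mu_EGEnd hm]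
    have e : star zg * x ω - star (star zg * x' ω) + (zg * x ω - star (zg * x' ω)) =
        (zg + star zg) * (x ω - star (x' ω)) := by
      simp only [star_mul', star_star]
      ring
    refine ⟨by rw [e]; exact Dvd.dvd.mul_right hg1 _, ?_⟩
    have u := pair_norm_EGEnd (zg + star zg) _ _ _ (dev_EGEnd (hA ω).1) (dev_EGEnd (hA' ω).1)
    have e2 : (zg + star zg) * (A ω - (n1 : O m) * G2) +
        star ((zg + star zg) * (A' ω - (n1 : O m) * G2)) =
        mu m * (star zg * x ω - star (star zg * x' ω) + (zg * x ω - star (zg * x' ω))) := by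
      rw [hx, hx']
      simp only [star_mul', star_star, star_add, star_mu]
      ring
    rw [e2] at u
    have v := (nle_mu_EGEnd hm _).trans u
    have w0 : ‖ph m (zg + star zg)‖ * (2 * n1 * b) ≤ ε * a * (2 * n1 * b) :=
      mul_le_mul_of_nonneg_right hg3 (by positivity)
    have w1 := mul_le_mul_of_nonneg_right hn1 (mul_nonneg hε0 ab0)
    linarith
  · intro ω
    have u := pair_norm_EGEnd (star zg) _ _ _ (hB ω).2.2 (hB' ω).2.2
    rw [← pair_eq_EGEnd, eZ, hsa] at u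
    rw [eZ, dv_mu_EGEnd hm]
    refine ⟨?_, ?_⟩
    · refine ⟨star zg * y ω - star (star zg * y' ω), ?_⟩
      simp only [star_mul', star_star, star_natCast]
      ring
    · have v := (nle_mu_EGEnd hm _).trans u
      have w1 := mul_le_mul_of_nonneg_right hn2 (mul_nonneg hε0 ab0)
      linarith
  · refine ⟨(dvd_neg).2 hQt, ?_⟩
    rw [map_neg, norm_neg]
    have v := nle_mu_EGEnd hm t
    rw [← ht] at v
    have u := nadd_EGEnd (((n1 + n2 : ℕ) : O m) * ((zg + star zg) * (G2 + star G2))) S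
    rw [nnat_EGEnd, nmul_EGEnd] at u
    have g := nadd_EGEnd G2 (star G2)
    rw [nstar_EGEnd] at g
    have w0 : ‖ph m (zg + star zg)‖ * ‖ph m (G2 + star G2)‖ ≤ ε * a * (b + b) :=
      mul_le_mul hg3 g (norm_nonneg _) (mul_nonneg hε0 a0)
    have w2 := mul_le_mul_of_nonneg_left w0 (Nat.cast_nonneg (α := ℝ) (n1 + n2))
    have w1 := mul_le_mul_of_nonneg_right hn (mul_nonneg hε0 ab0)
    have w3 := hS.2.2.2
    rw [hG] at w3
    linarith
  · refine le_of_eq_of_le (Finset.sum_congr rfl fun n _ => ?_) h1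
    exact norm_ch_dv hm (fun ω => star zg * A ω + star (star zg * A' ω)) _
      (fun ω => ⟨_, eX ω⟩) _
  · refine le_of_eq_of_le (Finset.sum_congr rfl fun n _ => ?_) h2
    exact norm_ch_dv hm (fun ω => star zg * A ω + star (star zg * A' ω)) _
      (fun ω => ⟨_, eX ω⟩) _

end Pool.Agent.P.MP_b75a1e_co.EG
end

-- part Pool.Agent.P.MP_b75a1e_co.EGHErr
section

set_option autoImplicit false

open Finset
open scoped BigOperators ComplexConjugate

namespace Pool.Agent.P.MP_b75a1e_co.EG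

theorem split_EGHErr {r len : ℕ} (g : (Fin r → Fin len) → (Fin r → Fin len) → ℝ) :
    𝔼 t : Bool × Fin r → Fin len, g (fun i => t (false, i)) (fun i => t (true, i)) =
      𝔼 a, 𝔼 b, g a b := by
  let e : (Bool × Fin r → Fin len) ≃ (Fin r → Fin len) × (Fin r → Fin len) :=
    { toFun := fun t => (fun i => t (false, i), fun i => t (true, i))
      invFun := fun q x => cond x.1 (q.2 x.2) (q.1 x.2)
      left_inv := fun t => funext fun ⟨b, i⟩ => by cases b <;> rfl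
      right_inv := fun q => rfl }
  refine (Fintype.expect_equiv e _ (fun q => g q.1 q.2) fun _ => rfl).trans ?_
  rw [← univ_product_univ, expect_product]

theorem sqrt_EGHErr {ι : Type} [Fintype ι] [Nonempty ι] {f g : ι → ℝ} {c : ℝ} (hc : 0 < c)
    (hfg : ∀ i, f i ≤ g i) (h : 𝔼 i, g i ^ 2 ≤ c) : 𝔼 i, f i ≤ √c := by
  have h0 := Real.sqrt_pos.2 hc
  have h1 := Real.mul_self_sqrt hc.le
  refine le_of_mul_le_mul_right ?_ h0
  rw [expect_mul]
  refine (expect_le_expect (g := fun i => (g i ^ 2 + c) * (1 / 2)) fun i _ => ?_).trans ?_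
  · have := mul_le_mul_of_nonneg_right (hfg i) h0.le
    nlinarith [sq_nonneg (g i - √c)]
  · rw [← expect_mul, expect_add_distrib, Fintype.expect_const]
    linarith

theorem one_EGHErr {m r : ℕ} {M M' : ℕ} (h : M ∣ M') (t : Fin r → ℕ) :
    (M : O m) ∣ base (fun i => hz m M' (t i)) - 1 :=
  dvd_base_sub_one _ _ fun i => (nat_dvd_iff _ _).2
    ⟨by simp [hz], by simpa [hz] using (Int.natCast_dvd_natCast.2 h).mul_right _⟩

open Classical in
/-- The expected contribution of the deep denominators. -/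
theorem hensel_err (m p Y r A len Mg : ℕ) (H NN0 : ℝ) (Γ : O m) (hm : 1 ≤ m) (hp : 1 ≤ p)
    (h0 : 0 < NN0) (hH : 1 ≤ H) (hΓ : Shape m Y Γ) (hlen : 1 ≤ len) (hA : 100 * H ^ 2 ≤ A)
    (hMg : (Mg : ℝ) ≤ 9 * p * Real.sqrt NN0)
    (hN : ∀ t : Bool × Fin r → Fin len,
      ((Γ * (base (fun i => hz m (M1 m Y) (A + t (false, i))) *
        base fun i => hz m (M2 m Y) (A + t (true, i)))).norm : ℝ) ≤ 2 * NN0) :
    𝔼 t : Bool × Fin r → Fin len, ∑ n ∈ (grid Mg).filter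
      (fun n => ∃ (β : O m) (d : ℕ), Near m (gp m Mg n) β d H NN0 ∧ Deep Y (QQ m Y) d),
      ‖FI Γ (fun i => hz m (M1 m Y) (A + t (false, i))) (fun i => hz m (M2 m Y) (A + t (true, i)))
          (gp m Mg n)‖ *
        ‖FII Γ (fun i => hz m (M1 m Y) (A + t (false, i))) (fun i => hz m (M2 m Y) (A + t (true, i)))
          (gp m Mg n)‖ ≤ 400 * (p : ℝ) ^ 2 * H ^ 4 * Real.sqrt (1 / 2 ^ r + H / len) := by
  have : Nonempty (Fin len) := ⟨⟨0, hlen⟩⟩
  have hc : (0 : ℝ) < 1 / 2 ^ r + H / len := by positivity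
  have hN' : ∀ a b : Fin r → Fin len, ((Γ * (base (fun i => hz m (M1 m Y) (A + a i)) *
      base fun i => hz m (M2 m Y) (A + b i))).norm : ℝ) ≤ 2 * NN0 :=
    fun a b => hN fun x => cond x.1 (b x.2) (a x.2)
  rw [expect_sum_comm]
  refine (sum_le_card_nsmul _ _ (√(1 / 2 ^ r + H / len)) fun n hn => ?_).trans ?_
  · obtain ⟨β, d, h1, l, j, hl, hlY, hld, hlQ⟩ := (mem_filter.1 hn).2
    by_cases hβ : (l : ℤ) ∣ β.re
    · refine sqrt_EGHErr hc (fun t => mul_le_of_le_one_left (norm_nonneg _) (norm_ch_le _ _)) ?_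
      refine (split_EGHErr fun a b => ‖FII Γ (fun i => hz m (M1 m Y) (A + a i))
        (fun i => hz m (M2 m Y) (A + b i)) (gp m Mg n)‖ ^ 2).trans_le
        (expect_le univ_nonempty fun a _ => ?_)
      exact henselII m Y r A len H NN0 _ _ β d l j hm h0
        (hΓ.mul (one_EGHErr dvd_rfl fun i => A + a i)) h1 hl hlY hld hlQ hβ hlen hA
        fun b => by simpa only [mul_assoc] using hN' a b
    · refine sqrt_EGHErr hc (fun t => mul_le_of_le_one_right (norm_nonneg _) (norm_ch_le _ _)) ?_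
      refine (split_EGHErr fun a b => ‖FI Γ (fun i => hz m (M1 m Y) (A + a i))
        (fun i => hz m (M2 m Y) (A + b i)) (gp m Mg n)‖ ^ 2).trans_le ?_
      rw [expect_comm]
      refine expect_le univ_nonempty fun b _ => ?_
      exact henselI m Y r A len H NN0 _ _ β d l j hm h0
        (hΓ.mul (one_EGHErr ((M2_eq m Y).symm ▸ dvd_mul_left _ _) fun i => A + b i))
        h1 hl hlY hld hlQ hβ hlen hA fun a => by
          rw [mul_right_comm, mul_assoc]
          exact hN' a b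
  · rw [nsmul_eq_mul]
    refine mul_le_mul_of_nonneg_right (le_trans ?_ (count_near m p Mg hm hp H NN0 hH h0 hMg))
      (Real.sqrt_nonneg _)
    exact Nat.cast_le.2 (card_le_card fun n hn => mem_filter.2 ⟨(mem_filter.1 hn).1,
      (mem_filter.1 hn).2.imp fun β h => h.imp fun d h => h.1⟩)

end Pool.Agent.P.MP_b75a1e_co.EG
end
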