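import Pool.Agent.K.MP_b75a1e_co.C1
import Pool.Agent.K.MP_b75a1e_co.C0

-- part Pool.Agent.P.MP_b75a1e_co.Fold
section

set_option autoImplicit false

namespace Pool.Agent.P.MP_b75a1e_co

section Ring

variable {R : Type} [CommRing R]

/-- Reflection of two vectors `(n1 - μ c1, B1)`, `(n2 - μ c2, B2)` in the line of their sum. -/
def Flip (μ n1 n2 c1 B1 c2 B2 c1' B1' c2' B2' : R) : Prop :=
  ∃ l, l * ((n1 + n2 - μ * (c1 + c2)) ^ 2 + μ * (B1 + B2) ^ 2) =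
      2 * (B2 * (n1 - μ * c1) - (n2 - μ * c2) * B1) ∧
    c1' = c1 + l * (B1 + B2) ∧ B1' = B1 + l * (n1 + n2 - μ * (c1 + c2)) ∧
    c2' = c2 - l * (B1 + B2) ∧ B2' = B2 - l * (n1 + n2 - μ * (c1 + c2))

theorem flip_exists {μ n1 n2 : R} (h : ∀ c B, IsUnit ((n1 + n2 - μ * c) ^ 2 + μ * B ^ 2))
    (c1 B1 c2 B2 : R) : ∃ c1' B1' c2' B2', Flip μ n1 n2 c1 B1 c2 B2 c1' B1' c2' B2' := by
  obtain ⟨v, hv⟩ := (h (c1 + c2) (B1 + B2)).exists_left_inv
  exact ⟨_, _, _, _, 2 * (B2 * (n1 - μ * c1) - (n2 - μ * c2) * B1) * v, by rw [mul_assoc, hv, mul_one],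
    rfl, rfl, rfl, rfl⟩

theorem Flip.map {S : Type} [CommRing S] (f : R →+* S) {μ n1 n2 c1 B1 c2 B2 c1' B1' c2' B2' : R}
    (h : Flip μ n1 n2 c1 B1 c2 B2 c1' B1' c2' B2') :
    Flip (f μ) (f n1) (f n2) (f c1) (f B1) (f c2) (f B2) (f c1') (f B1') (f c2') (f B2') := by
  obtain ⟨l, h1, rfl, rfl, rfl, rfl⟩ := h
  refine ⟨f l, ?_, by simp, by simp, by simp, by simp⟩
  simpa [map_ofNat] using congrArg f h1

theorem Flip.inv {μ n1 n2 c1 B1 c2 B2 c1' B1' c2' B2' : R}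
    (h : Flip μ n1 n2 c1 B1 c2 B2 c1' B1' c2' B2') :
    (n1 - μ * c1') ^ 2 + μ * B1' ^ 2 = (n1 - μ * c1) ^ 2 + μ * B1 ^ 2 ∧
    (n2 - μ * c2') ^ 2 + μ * B2' ^ 2 = (n2 - μ * c2) ^ 2 + μ * B2 ^ 2 ∧
    c1' + c2' = c1 + c2 ∧ B1' + B2' = B1 + B2 := by
  obtain ⟨l, h1, rfl, rfl, rfl, rfl⟩ := h
  exact ⟨by linear_combination l * μ * h1, by linear_combination l * μ * h1, by ring, by ring⟩

theorem flip_ap {μ n1 n2 c1 B1 c2 B2 c1' B1' c2' B2' γ1 β1 δ1 γ2 β2 δ2 : R} (hu : IsUnit (n1 + n2))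
    (h : Flip μ n1 n2 c1 B1 c2 B2 c1' B1' c2' B2') (hc1 : μ ∣ c1 - γ1)
    (hB1 : μ * μ ∣ B1 - (β1 + μ * δ1)) (hc2 : μ ∣ c2 - γ2) (hB2 : μ * μ ∣ B2 - (β2 + μ * δ2))
    {l0 l1 γ1' β1' δ1' γ2' β2' δ2' : R} (e0 : (n1 + n2) ^ 2 * l0 = 2 * (n1 * β2 - n2 * β1))
    (e1 : (n1 + n2) ^ 2 * l1 = 2 * (n1 * δ2 - n2 * δ1) - 2 * (γ1 * β2 - γ2 * β1) -
      l0 * ((β1 + β2) ^ 2 - 2 * (n1 + n2) * (γ1 + γ2)))
    (e2 : γ1' = γ1 + l0 * (β1 + β2)) (e3 : β1' = β1 + l0 * (n1 + n2))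
    (e4 : δ1' = δ1 + (l1 * (n1 + n2) - l0 * (γ1 + γ2))) (e5 : γ2' = γ2 - l0 * (β1 + β2))
    (e6 : β2' = β2 - l0 * (n1 + n2)) (e7 : δ2' = δ2 - (l1 * (n1 + n2) - l0 * (γ1 + γ2))) :
    μ ∣ c1' - γ1' ∧ μ * μ ∣ B1' - (β1' + μ * δ1') ∧ μ ∣ c2' - γ2' ∧ μ * μ ∣ B2' - (β2' + μ * δ2') := by
  obtain ⟨l, h1, rfl, rfl, rfl, rfl⟩ := h
  obtain ⟨r1, hr1⟩ := hc1
  obtain ⟨r2, hr2⟩ := hc2
  obtain ⟨s1, hs1⟩ := hB1
  obtain ⟨s2, hs2⟩ := hB2
  obtain rfl : c1 = γ1 + μ * r1 := by linear_combination hr1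
  obtain rfl : c2 = γ2 + μ * r2 := by linear_combination hr2
  obtain rfl : B1 = β1 + μ * δ1 + μ * μ * s1 := by linear_combination hs1
  obtain rfl : B2 = β2 + μ * δ2 + μ * μ * s2 := by linear_combination hs2
  subst e2 e3 e4 e5 e6 e7
  obtain ⟨c, hc⟩ : ∃ c, c = γ1 + μ * r1 + (γ2 + μ * r2) := ⟨_, rfl⟩
  obtain ⟨B, hB⟩ : ∃ B, B = β1 + μ * δ1 + μ * μ * s1 + (β2 + μ * δ2 + μ * μ * s2) := ⟨_, rfl⟩
  obtain ⟨K, hK⟩ : ∃ K, K = B ^ 2 - 2 * (n1 + n2) * c + μ * c ^ 2 := ⟨_, rfl⟩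
  obtain ⟨ρ, hρ⟩ : ∃ ρ, ρ = 2 * (n1 * s2 - n2 * s1) -
      2 * (γ1 * (δ2 + μ * s2) + r1 * (β2 + μ * δ2 + μ * μ * s2) - γ2 * (δ1 + μ * s1) -
        r2 * (β1 + μ * δ1 + μ * μ * s1)) -
      l0 * ((δ1 + δ2 + μ * (s1 + s2)) * (B + (β1 + β2)) - 2 * (n1 + n2) * (r1 + r2) + c ^ 2) - l1 * K :=
    ⟨_, rfl⟩
  have k1 : (n1 + n2) ^ 2 * (l - l0 - μ * l1) = μ * (μ * ρ - (l - l0 - μ * l1) * K) := by
    rw [hρ, hK, hB, hc]
    linear_combination h1 - e0 - μ * e1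
  obtain ⟨e, he⟩ : μ ∣ l - l0 - μ * l1 := (hu.pow 2).dvd_mul_left.1 ⟨_, k1⟩
  obtain ⟨e', he'⟩ : μ * μ ∣ l - l0 - μ * l1 :=
    (hu.pow 2).dvd_mul_left.1 ⟨ρ - e * K, by rw [k1, he]; ring⟩
  obtain rfl : l = l0 + μ * l1 + μ * μ * e' := by linear_combination he'
  refine ⟨⟨r1 + (l0 * (δ1 + δ2 + μ * (s1 + s2)) + (l1 + μ * e') * B), ?_⟩,
    ⟨s1 + (e' * (n1 + n2) - l0 * (r1 + r2) - (l1 + μ * e') * c), ?_⟩,
    ⟨r2 - (l0 * (δ1 + δ2 + μ * (s1 + s2)) + (l1 + μ * e') * B), ?_⟩,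
    ⟨s2 - (e' * (n1 + n2) - l0 * (r1 + r2) - (l1 + μ * e') * c), ?_⟩⟩
  · rw [hB]; ring
  · rw [hc]; ring
  · rw [hB]; ring
  · rw [hc]; ring

/-- Six successive reflections of three bodies of sizes one, two and six. -/
def Six (μ : R) (x y : Fin 6 → R) : Prop :=
  ∃ c01 B01 c11 B11 c12 B12 c22 B22 c03 B03 c13 B13 c14 B14 c24 B24 c15 B15 : R,
    Flip μ 1 2 (x 0) (x 1) (x 2) (x 3) c01 B01 c11 B11 ∧
    Flip μ 2 6 c11 B11 (x 4) (x 5) c12 B12 c22 B22 ∧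
    Flip μ 1 2 c01 B01 c12 B12 c03 B03 c13 B13 ∧
    Flip μ 2 6 c13 B13 c22 B22 c14 B14 c24 B24 ∧
    Flip μ 1 2 c03 B03 c14 B14 (y 0) (y 1) c15 B15 ∧
    Flip μ 2 6 c15 B15 c24 B24 (y 2) (y 3) (y 4) (y 5)

theorem six_exists {μ : R} (h3 : ∀ c B, IsUnit ((1 + 2 - μ * c) ^ 2 + μ * B ^ 2))
    (h8 : ∀ c B, IsUnit ((2 + 6 - μ * c) ^ 2 + μ * B ^ 2)) (x : Fin 6 → R) : ∃ y, Six μ x y := by
  obtain ⟨c01, B01, c11, B11, f1⟩ := flip_exists h3 (x 0) (x 1) (x 2) (x 3)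
  obtain ⟨c12, B12, c22, B22, f2⟩ := flip_exists h8 c11 B11 (x 4) (x 5)
  obtain ⟨c03, B03, c13, B13, f3⟩ := flip_exists h3 c01 B01 c12 B12
  obtain ⟨c14, B14, c24, B24, f4⟩ := flip_exists h8 c13 B13 c22 B22
  obtain ⟨c05, B05, c15, B15, f5⟩ := flip_exists h3 c03 B03 c14 B14
  obtain ⟨c16, B16, c26, B26, f6⟩ := flip_exists h8 c15 B15 c24 B24
  exact ⟨![c05, B05, c16, B16, c26, B26], _, _, _, _, _, _, _, _, _, _, _, _, _, _, _, _, _, _,
    f1, f2, f3, f4, f5, f6⟩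

theorem Six.map {S : Type} [CommRing S] (f : R →+* S) {μ : R} {x y : Fin 6 → R} (h : Six μ x y) :
    Six (f μ) (fun i => f (x i)) fun i => f (y i) := by
  obtain ⟨_, _, _, _, _, _, _, _, _, _, _, _, _, _, _, _, _, _, f1, f2, f3, f4, f5, f6⟩ := h
  have g1 := f1.map f
  have g2 := f2.map f
  have g3 := f3.map f
  have g4 := f4.map f
  have g5 := f5.map f
  have g6 := f6.map f
  simp only [map_one, map_ofNat] at g1 g2 g3 g4 g5 g6
  exact ⟨_, _, _, _, _, _, _, _, _, _, _, _, _, _, _, _, _, _, g1, g2, g3, g4, g5, g6⟩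

/-- The three lengths and the sum agree. -/
def Inv (μ : R) (x y : Fin 6 → R) : Prop :=
  (1 - μ * y 0) ^ 2 + μ * y 1 ^ 2 = (1 - μ * x 0) ^ 2 + μ * x 1 ^ 2 ∧
  (2 - μ * y 2) ^ 2 + μ * y 3 ^ 2 = (2 - μ * x 2) ^ 2 + μ * x 3 ^ 2 ∧
  (6 - μ * y 4) ^ 2 + μ * y 5 ^ 2 = (6 - μ * x 4) ^ 2 + μ * x 5 ^ 2 ∧
  y 0 + y 2 + y 4 = x 0 + x 2 + x 4 ∧ y 1 + y 3 + y 5 = x 1 + x 3 + x 5

theorem Six.inv {μ : R} {x y : Fin 6 → R} (h : Six μ x y) : Inv μ x y := by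
  obtain ⟨_, _, _, _, _, _, _, _, _, _, _, _, _, _, _, _, _, _, f1, f2, f3, f4, f5, f6⟩ := h
  obtain ⟨a1, b1, c1, d1⟩ := f1.inv
  obtain ⟨a2, b2, c2, d2⟩ := f2.inv
  obtain ⟨a3, b3, c3, d3⟩ := f3.inv
  obtain ⟨a4, b4, c4, d4⟩ := f4.inv
  obtain ⟨a5, b5, c5, d5⟩ := f5.inv
  obtain ⟨a6, b6, c6, d6⟩ := f6.inv
  exact ⟨by linear_combination a1 + a3 + a5, by linear_combination b1 + a2 + b3 + a4 + b5 + a6,
    by linear_combination b2 + b4 + b6, by linear_combination c1 + c2 + c3 + c4 + c5 + c6,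
    by linear_combination d1 + d2 + d3 + d4 + d5 + d6⟩

/-- The second-order term of the six reflections. -/
def Psi (B0 B1 B2 C0 C1 C2 : R) : R :=
  20 * B0 * B1 * B2 - 438 * B0 * B1 ^ 2 + 2 * B0 * B2 ^ 2 - 1152 * B0 * C0 + 792 * B0 * C1 -
    72 * B0 * C2 + 24 * B0 ^ 2 * B1 - 152 * B0 ^ 2 * B2 + 1056 * B0 ^ 3 - 4 * B1 * B2 ^ 2 +
    73 * B1 ^ 2 * B2 + 192 * B2 * C0 - 132 * B2 * C1 + 12 * B2 * C2 - B2 ^ 3

theorem six_ap {μ j : R} (hj : 6 * j = 1) {x y : Fin 6 → R} (h : Six μ x y) :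
    (∀ i, μ ∣ y i - x i) ∧
      μ * μ ∣ 1728 * (y 3 - x 3) - μ * Psi (x 1) (x 3) (x 5) (2 * x 0) (2 * x 2) (2 * x 4) := by
  obtain ⟨_, _, _, _, _, _, _, _, _, _, _, _, _, _, _, _, _, _, f1, f2, f3, f4, f5, f6⟩ := h
  have h3 : IsUnit (1 + 2 : R) := IsUnit.of_mul_eq_one (2 * j) (by linear_combination hj)
  have h8 : IsUnit (2 + 6 : R) :=
    IsUnit.of_mul_eq_one (27 * j ^ 3) (by linear_combination (36 * j ^ 2 + 6 * j + 1) * hj)
  have hD : ∀ z : R, ∃ b, z = 288 * b := fun z => ⟨z * (27 * j ^ 5), by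
    linear_combination (-z * (1296 * j ^ 4 + 216 * j ^ 3 + 36 * j ^ 2 + 6 * j + 1)) * hj⟩
  have hD2 : ∀ z : R, ∃ b, z = 82944 * b := fun z => by
    obtain ⟨b, hb⟩ := hD z
    obtain ⟨c, hc⟩ := hD b
    exact ⟨c, by rw [hb, hc]; ring⟩
  obtain ⟨g0, hg0⟩ := hD2 (x 0)
  obtain ⟨g1, hg1⟩ := hD2 (x 2)
  obtain ⟨g2, hg2⟩ := hD2 (x 4)
  obtain ⟨b0, hb0⟩ := hD (x 1)
  obtain ⟨b1, hb1⟩ := hD (x 3)
  obtain ⟨b2, hb2⟩ := hD (x 5)
  have hc0_0 : μ ∣ x 0 - 82944 * g0 := by simp [hg0]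
  have hc1_0 : μ ∣ x 2 - 82944 * g1 := by simp [hg1]
  have hc2_0 : μ ∣ x 4 - 82944 * g2 := by simp [hg2]
  have hB0_0 : μ * μ ∣ x 1 - (288 * b0 + μ * 0) := by simp [hb0]
  have hB1_0 : μ * μ ∣ x 3 - (288 * b1 + μ * 0) := by simp [hb1]
  have hB2_0 : μ * μ ∣ x 5 - (288 * b2 + μ * 0) := by simp [hb2]
  obtain ⟨hc0_1, hB0_1, hc1_1, hB1_1⟩ := flip_ap h3 f1 hc0_0 hB0_0 hc1_0 hB1_0
    (l0 := (0 - 128 * b0 + 64 * b1))
    (l1 := (0 - 7077888 * b0 * g0 - 1769472 * b0 * g1 + 1769472 * b0 ^ 2 * b1 + 1179648 * b0 ^ 3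
      - 1769472 * b1 * g0 + 3538944 * b1 * g1 - 589824 * b1 ^ 3))
    (γ1' := (0 - 18432 * b0 * b1 - 36864 * b0 ^ 2 + 18432 * b1 ^ 2 + 82944 * g0))
    (β1' := (0 - 96 * b0 + 192 * b1))
    (δ1' := (0 - 10616832 * b0 * g0 + 5308416 * b0 * g1 + 5308416 * b0 ^ 2 * b1 + 3538944 * b0 ^ 3
      - 10616832 * b1 * g0 + 5308416 * b1 * g1 - 1769472 * b1 ^ 3))
    (γ2' := (18432 * b0 * b1 + 36864 * b0 ^ 2 - 18432 * b1 ^ 2 + 82944 * g1))
    (β2' := (384 * b0 + 96 * b1))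
    (δ2' := (10616832 * b0 * g0 - 5308416 * b0 * g1 - 5308416 * b0 ^ 2 * b1 - 3538944 * b0 ^ 3
      + 10616832 * b1 * g0 - 5308416 * b1 * g1 + 1769472 * b1 ^ 3))
    (by ring) (by ring) (by ring) (by ring) (by ring) (by ring) (by ring) (by ring)
  obtain ⟨hc1_2, hB1_2, hc2_2, hB2_2⟩ := flip_ap h8 f2 hc1_1 hB1_1 hc2_0 hB2_0
    (l0 := (0 - 72 * b0 - 18 * b1 + 18 * b2))
    (l1 := (20736 * b0 * b1 * b2 + 279936 * b0 * b1 ^ 2 + 31104 * b0 * b2 ^ 2 - 1990656 * b0 * g0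
      - 497664 * b0 * g1 - 497664 * b0 * g2 + 622080 * b0 ^ 2 * b1 + 41472 * b0 ^ 2 * b2
      + 165888 * b0 ^ 3 + 7776 * b1 * b2 ^ 2 - 1990656 * b1 * g0 + 622080 * b1 * g1 - 124416 * b1 * g2
      + 95904 * b1 ^ 2 * b2 - 246240 * b1 ^ 3 - 373248 * b2 * g1 + 373248 * b2 * g2 - 23328 * b2 ^ 3))
    (γ1' := (4608 * b0 * b1 - 13824 * b0 * b2 + 9216 * b0 ^ 2 - 3456 * b1 * b2 - 20160 * b1 ^ 2
      + 5184 * b2 ^ 2 + 82944 * g1))
    (β1' := (0 - 192 * b0 - 48 * b1 + 144 * b2))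
    (δ1' := (0 - 165888 * b0 * b1 * b2 + 1244160 * b0 * b1 ^ 2 + 248832 * b0 * b2 ^ 2
      - 5308416 * b0 * g0 - 3317760 * b0 * g1 + 1990656 * b0 * g2 + 1658880 * b0 ^ 2 * b1
      - 331776 * b0 ^ 2 * b2 + 442368 * b0 ^ 3 + 62208 * b1 * b2 ^ 2 - 5308416 * b1 * g0
      + 1161216 * b1 * g1 + 497664 * b1 * g2 + 1099008 * b1 ^ 2 * b2 - 532224 * b1 ^ 3
      - 4478976 * b2 * g1 + 1492992 * b2 * g2 - 186624 * b2 ^ 3))
    (γ2' := (13824 * b0 * b1 + 13824 * b0 * b2 + 27648 * b0 ^ 2 + 3456 * b1 * b2 + 1728 * b1 ^ 2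
      - 5184 * b2 ^ 2 + 82944 * g2))
    (β2' := (576 * b0 + 144 * b1 + 144 * b2))
    (δ2' := (165888 * b0 * b1 * b2 - 1244160 * b0 * b1 ^ 2 - 248832 * b0 * b2 ^ 2 + 15925248 * b0 * g0
      - 1990656 * b0 * g1 - 1990656 * b0 * g2 - 6967296 * b0 ^ 2 * b1 + 331776 * b0 ^ 2 * b2
      - 3981312 * b0 ^ 3 - 62208 * b1 * b2 ^ 2 + 15925248 * b1 * g0 - 6469632 * b1 * g1
      - 497664 * b1 * g2 - 1099008 * b1 ^ 2 * b2 + 2301696 * b1 ^ 3 + 4478976 * b2 * g1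
      - 1492992 * b2 * g2 + 186624 * b2 ^ 3))
    (by ring) (by ring) (by ring) (by ring) (by ring) (by ring) (by ring) (by ring)
  obtain ⟨hc0_3, hB0_3, hc1_3, hB1_3⟩ := flip_ap h3 f3 hc0_1 hB0_1 hc1_2 hB1_2
    (l0 := (0 - 96 * b1 + 32 * b2))
    (l1 := (36864 * b0 * b1 * b2 + 1492992 * b0 * b1 ^ 2 - 55296 * b0 * b2 ^ 2 + 7077888 * b0 * g0
      - 4866048 * b0 * g1 + 442368 * b0 * g2 - 221184 * b0 ^ 2 * b1 + 516096 * b0 ^ 2 * b2
      - 3244032 * b0 ^ 3 - 96768 * b1 * b2 ^ 2 - 884736 * b1 * g0 - 3870720 * b1 * g1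
      + 110592 * b1 * g2 + 59904 * b1 ^ 2 * b2 + 336384 * b1 ^ 3 - 884736 * b2 * g0 + 774144 * b2 * g1
      + 331776 * b2 * g2 - 4608 * b2 ^ 3))
    (γ1' := (9216 * b0 * b1 - 9216 * b0 * b2 - 36864 * b0 ^ 2 - 9216 * b1 * b2 + 4608 * b1 ^ 2
      + 4608 * b2 ^ 2 + 82944 * g0))
    (β1' := (0 - 96 * b0 - 96 * b1 + 96 * b2))
    (δ1' := (0 - 774144 * b0 * b1 * b2 + 3151872 * b0 * b1 ^ 2 + 276480 * b0 * b2 ^ 2
      + 10616832 * b0 * g0 - 9289728 * b0 * g1 + 1327104 * b0 * g2 + 1990656 * b0 ^ 2 * b1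
      + 2433024 * b0 ^ 2 * b2 - 6193152 * b0 ^ 3 + 317952 * b1 * b2 ^ 2 - 5308416 * b1 * g0
      + 1658880 * b1 * g1 + 331776 * b1 * g2 - 96768 * b1 ^ 2 * b2 - 926208 * b1 ^ 3
      - 5308416 * b2 * g0 - 331776 * b2 * g1 + 995328 * b2 * g2 - 179712 * b2 ^ 3))
    (γ2' := (0 - 23040 * b0 * b1 - 4608 * b0 * b2 + 9216 * b0 ^ 2 + 5760 * b1 * b2 - 6336 * b1 ^ 2
      + 576 * b2 ^ 2 + 82944 * g1))
    (β2' := (0 - 192 * b0 + 240 * b1 + 48 * b2))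
    (δ2' := (608256 * b0 * b1 * b2 - 1907712 * b0 * b1 ^ 2 - 27648 * b0 * b2 ^ 2 - 26542080 * b0 * g0
      + 11280384 * b0 * g1 + 663552 * b0 * g2 + 4976640 * b0 ^ 2 * b1 - 2764800 * b0 ^ 2 * b2
      + 10174464 * b0 ^ 3 - 255744 * b1 * b2 ^ 2 - 10616832 * b1 * g0 + 4810752 * b1 * g1
      + 165888 * b1 * g2 + 1195776 * b1 ^ 2 * b2 - 1375488 * b1 ^ 3 + 5308416 * b2 * g0
      - 4147200 * b2 * g1 + 497664 * b2 * g2 - 6912 * b2 ^ 3))
    (by ring) (by ring) (by ring) (by ring) (by ring) (by ring) (by ring) (by ring)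
  obtain ⟨hc1_4, hB1_4, hc2_4, hB2_4⟩ := flip_ap h8 f4 hc1_3 hB1_3 hc2_2 hB2_2
    (l0 := (72 * b0 - 36 * b1))
    (l1 := (20736 * b0 * b1 * b2 + 590976 * b0 * b1 ^ 2 - 72576 * b0 * b2 ^ 2 + 5971968 * b0 * g0
      - 2239488 * b0 * g1 + 746496 * b0 * g2 - 1617408 * b0 ^ 2 * b1 + 539136 * b0 ^ 2 * b2
      - 1990656 * b0 ^ 3 + 44064 * b1 * b2 ^ 2 + 2985984 * b1 * g0 - 2426112 * b1 * g1
      - 186624 * b1 * g2 - 261792 * b1 ^ 2 * b2 + 567648 * b1 ^ 3 - 995328 * b2 * g0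
      + 684288 * b2 * g1 - 62208 * b2 * g2 + 2592 * b2 ^ 3))
    (γ1' := (0 - 9216 * b0 * b1 + 9216 * b0 * b2 + 36864 * b0 ^ 2 - 1152 * b1 * b2 - 20160 * b1 ^ 2
      + 576 * b2 ^ 2 + 82944 * g1))
    (β1' := (384 * b0 - 48 * b1 + 48 * b2))
    (δ1' := (442368 * b0 * b1 * b2 + 2820096 * b0 * b1 ^ 2 - 276480 * b0 * b2 ^ 2 + 21233664 * b0 * g0
      - 12607488 * b0 * g1 + 663552 * b0 * g2 - 5971968 * b0 ^ 2 * b1 + 884736 * b0 ^ 2 * b2
      - 8404992 * b0 ^ 3 - 69120 * b1 * b2 ^ 2 + 13271040 * b1 * g0 - 11612160 * b1 * g1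
      + 1658880 * b1 * g2 - 566784 * b1 ^ 2 * b2 + 2999808 * b1 ^ 3 - 2654208 * b2 * g0
      + 1327104 * b2 * g1 + 13824 * b2 ^ 3))
    (γ2' := (10368 * b1 * b2 + 15552 * b1 ^ 2 - 5184 * b2 ^ 2 + 82944 * g2))
    (β2' := (432 * b1 + 144 * b2))
    (δ2' := (331776 * b0 * b1 * b2 - 5971968 * b0 * b1 ^ 2 - 31850496 * b0 * g0 + 21897216 * b0 * g1
      - 1990656 * b0 * g2 + 3981312 * b0 ^ 2 * b1 - 3317760 * b0 ^ 2 * b2 + 14598144 * b0 ^ 3
      - 248832 * b1 * b2 ^ 2 - 7962624 * b1 * g0 + 9953280 * b1 * g1 - 1990656 * b1 * g2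
      + 663552 * b1 ^ 2 * b2 - 2073600 * b1 ^ 3 + 7962624 * b2 * g0 - 995328 * b2 * g1
      - 995328 * b2 * g2 + 165888 * b2 ^ 3))
    (by ring) (by ring) (by ring) (by ring) (by ring) (by ring) (by ring) (by ring)
  obtain ⟨hc0_5, hB0_5, hc1_5, hB1_5⟩ := flip_ap h3 f5 hc0_3 hB0_3 hc1_4 hB1_4
    (l0 := (128 * b0 + 32 * b1 - 32 * b2))
    (l1 := (0 - 221184 * b0 * b1 * b2 - 1769472 * b0 * b1 ^ 2 + 147456 * b0 * b2 ^ 2
      + 6635520 * b0 * g1 - 442368 * b0 * g2 - 3096576 * b0 ^ 2 * b1 + 2064384 * b0 ^ 3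
      + 64512 * b1 * b2 ^ 2 + 7962624 * b1 * g0 - 3317760 * b1 * g1 + 221184 * b1 * g2
      - 304128 * b1 ^ 2 * b2 + 1152000 * b1 ^ 3 - 884736 * b2 * g0 + 442368 * b2 * g1
      - 442368 * b2 * g2 + 9216 * b2 ^ 3))
    (γ1' := (82944 * g0))
    (β1' := (288 * b0))
    (δ1' := (0 - 110592 * b0 * b1 * b2 - 165888 * b0 * b1 ^ 2 + 55296 * b0 * b2 ^ 2
      - 7299072 * b0 ^ 2 * b1 + 2433024 * b0 ^ 2 * b2 + 13824 * b1 * b2 ^ 2 + 15925248 * b1 * g0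
      - 10948608 * b1 * g1 + 995328 * b1 * g2 - 1175040 * b1 ^ 2 * b2 + 3027456 * b1 ^ 3
      - 5308416 * b2 * g0 + 3649536 * b2 * g1 - 331776 * b2 * g2 + 13824 * b2 ^ 3))
    (γ2' := (0 - 10368 * b1 * b2 - 15552 * b1 ^ 2 + 5184 * b2 ^ 2 + 82944 * g1))
    (β2' := (0 - 144 * b1 + 144 * b2))
    (δ2' := (0 - 221184 * b0 * b1 * b2 + 6137856 * b0 * b1 ^ 2 - 55296 * b0 * b2 ^ 2
      + 31850496 * b0 * g0 - 21897216 * b0 * g1 + 1990656 * b0 * g2 + 3317760 * b0 ^ 2 * b1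
      + 884736 * b0 ^ 2 * b2 - 14598144 * b0 ^ 3 + 235008 * b1 * b2 ^ 2 - 7962624 * b1 * g0
      + 995328 * b1 * g1 + 995328 * b1 * g2 + 511488 * b1 ^ 2 * b2 - 953856 * b1 ^ 3
      - 2654208 * b2 * g0 - 2654208 * b2 * g1 + 1327104 * b2 * g2 - 179712 * b2 ^ 3))
    (by ring) (by ring) (by ring) (by ring) (by ring) (by ring) (by ring) (by ring)
  obtain ⟨hc1_6, hB1_6, hc2_6, hB2_6⟩ := flip_ap h8 f6 hc1_5 hB1_5 hc2_4 hB2_4
    (l0 := (54 * b1 - 18 * b2))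
    (l1 := (62208 * b0 * b1 * b2 - 1524096 * b0 * b1 ^ 2 + 10368 * b0 * b2 ^ 2 - 7962624 * b0 * g0
      + 5474304 * b0 * g1 - 497664 * b0 * g2 - 373248 * b0 ^ 2 * b1 - 373248 * b0 ^ 2 * b2
      + 3649536 * b0 ^ 3 - 36288 * b1 * b2 ^ 2 + 995328 * b1 * g0 + 435456 * b1 * g1
      + 435456 * b1 * g2 + 62208 * b1 ^ 2 * b2 + 119232 * b1 ^ 3 + 995328 * b2 * g0 - 311040 * b2 * g1
      - 311040 * b2 * g2 + 20736 * b2 ^ 3))
    (γ1' := (82944 * g1))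
    (β1' := (288 * b1))
    (δ1' := (276480 * b0 * b1 * b2 - 6054912 * b0 * b1 ^ 2 + 27648 * b0 * b2 ^ 2 - 31850496 * b0 * g0
      + 21897216 * b0 * g1 - 1990656 * b0 * g2 + 331776 * b0 ^ 2 * b1 - 2101248 * b0 ^ 2 * b2
      + 14598144 * b0 ^ 3 - 55296 * b1 * b2 ^ 2 + 1009152 * b1 ^ 2 * b2 + 5308416 * b2 * g0
      - 3649536 * b2 * g1 + 331776 * b2 * g2 - 13824 * b2 ^ 3))
    (γ2' := (82944 * g2))
    (β2' := (288 * b2))
    (δ2' := (0 - 165888 * b0 * b1 * b2 + 6220800 * b0 * b1 ^ 2 - 82944 * b0 * b2 ^ 2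
      + 31850496 * b0 * g0 - 21897216 * b0 * g1 + 1990656 * b0 * g2 + 6967296 * b0 ^ 2 * b1
      - 331776 * b0 ^ 2 * b2 - 14598144 * b0 ^ 3 + 41472 * b1 * b2 ^ 2 - 15925248 * b1 * g0
      + 10948608 * b1 * g1 - 995328 * b1 * g2 + 165888 * b1 ^ 2 * b2 - 3027456 * b1 ^ 3))
    (by ring) (by ring) (by ring) (by ring) (by ring) (by ring) (by ring) (by ring)
  have key : ∀ {u v w : R}, μ * μ ∣ u - (v + μ * w) → μ ∣ u - v := fun {u v w} ⟨c, hc⟩ =>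
    ⟨μ * c + w, by linear_combination hc⟩
  constructor
  · intro i
    fin_cases i
    · simpa [hg0] using hc0_5
    · simpa [hb0] using key hB0_5
    · simpa [hg1] using hc1_6
    · simpa [hb1] using key hB1_6
    · simpa [hg2] using hc2_6
    · simpa [hb2] using key hB2_6
  · convert hB1_6.mul_left 1728 using 1
    rw [hg0, hg1, hg2, hb0, hb1, hb2, Psi]
    ring

end Ring

section Padic

variable {p : ℕ} [Fact p.Prime]

theorem unit_add {u v : ℤ_[p]} (hu : IsUnit u) : IsUnit (u + p * v) := by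
  by_contra h
  have h1 : u + p * v ∈ IsLocalRing.maximalIdeal ℤ_[p] := h
  have h2 : (p : ℤ_[p]) * v ∈ IsLocalRing.maximalIdeal ℤ_[p] := by
    rw [PadicInt.maximalIdeal_eq_span_p]
    exact Ideal.mul_mem_right _ _ (Ideal.mem_span_singleton_self _)
  have h3 := sub_mem h1 h2
  rw [add_sub_cancel_right] at h3
  exact h3 hu

/-- Being a rational number. -/
def IsRat (z : ℤ_[p]) : Prop := (z : ℚ_[p]) ∈ (Rat.castHom ℚ_[p]).fieldRange

theorem Flip.isRat {μ n1 n2 c1 B1 c2 B2 c1' B1' c2' B2' : ℤ_[p]}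
    (hu : ∀ c B, IsUnit ((n1 + n2 - μ * c) ^ 2 + μ * B ^ 2))
    (h : Flip μ n1 n2 c1 B1 c2 B2 c1' B1' c2' B2') (hμ : IsRat μ) (h1 : IsRat n1) (h2 : IsRat n2)
    (h3 : IsRat c1) (h4 : IsRat B1) (h5 : IsRat c2) (h6 : IsRat B2) :
    IsRat c1' ∧ IsRat B1' ∧ IsRat c2' ∧ IsRat B2' := by
  obtain ⟨l, e, rfl, rfl, rfl, rfl⟩ := h
  have hne : (((n1 + n2 - μ * (c1 + c2)) ^ 2 + μ * (B1 + B2) ^ 2 : ℤ_[p]) : ℚ_[p]) ≠ 0 :=
    fun h => (hu _ _).ne_zero (PadicInt.coe_eq_zero.1 h)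
  have e' := congrArg (fun z : ℤ_[p] => (z : ℚ_[p])) e
  simp only [PadicInt.coe_mul] at e'
  have hl : IsRat l := by
    rw [IsRat, eq_div_of_mul_eq hne e']
    unfold IsRat at *
    have h2' : ((2 : ℤ_[p]) : ℚ_[p]) ∈ (Rat.castHom ℚ_[p]).fieldRange := ofNat_mem _ 2
    push_cast
    apply_rules [div_mem, mul_mem, sub_mem, add_mem, pow_mem]
  unfold IsRat at *
  push_cast
  refine ⟨?_, ?_, ?_, ?_⟩ <;> apply_rules [mul_mem, sub_mem, add_mem]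

theorem fold_infinite (hp : 5 ≤ p) (m : ℤ) (hm : (p : ℤ) ∣ m) (hm0 : m ≠ 0) (x : Fin 6 → ℤ_[p])
    (y : Fin 6 → ℚ) (hxy : ∀ i, (x i : ℚ_[p]) = y i)
    (hΨ : ¬ (p : ℤ_[p]) ∣ Psi (x 1) (x 3) (x 5) (2 * x 0) (2 * x 2) (2 * x 4)) :
    {y' : Fin 6 → ℚ | Inv (m : ℚ) y y'}.Infinite := by
  have hp' : p.Prime := Fact.out
  obtain ⟨m', rfl⟩ := hm
  have h6 : IsUnit ((6 : ℕ) : ℤ_[p]) := unit_of_not_dvd fun h => by
    have := Nat.le_of_dvd (by norm_num) h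
    interval_cases p <;> first | omega | exact absurd hp' (by norm_num)
  obtain ⟨j, hj⟩ := h6.exists_right_inv
  push_cast at hj
  set μ : ℤ_[p] := p * m' with hμ
  have u3 : ∀ c B : ℤ_[p], IsUnit ((1 + 2 - μ * c) ^ 2 + μ * B ^ 2) := fun c B => by
    have : IsUnit (9 : ℤ_[p]) :=
      IsUnit.of_mul_eq_one (4 * j ^ 2) (by linear_combination (6 * j + 1) * hj)
    convert unit_add (v := (m' : ℤ_[p]) * (B ^ 2 - 6 * c + μ * c ^ 2)) this using 1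
    rw [hμ]; ring
  have u8 : ∀ c B : ℤ_[p], IsUnit ((2 + 6 - μ * c) ^ 2 + μ * B ^ 2) := fun c B => by
    have : IsUnit (8 : ℤ_[p]) :=
      IsUnit.of_mul_eq_one (27 * j ^ 3) (by linear_combination (36 * j ^ 2 + 6 * j + 1) * hj)
    convert unit_add (v := (m' : ℤ_[p]) * (B ^ 2 - 16 * c + μ * c ^ 2)) (this.pow 2) using 1
    rw [hμ]; ring
  let ev : (Fin 6 → ℤ_[p]) → goodRing ℤ_[p] (Fin 6) →+* ℤ_[p] := fun v =>
    (Pi.evalRingHom (fun _ : Fin 6 → ℤ_[p] => ℤ_[p]) v).comp (goodRing ℤ_[p] (Fin 6)).subtype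
  have hunit : ∀ f : goodRing ℤ_[p] (Fin 6), (∀ v, IsUnit (ev v f)) → IsUnit f := by
    intro f hf
    choose g hg using fun v => (hf v).exists_right_inv
    exact IsUnit.of_mul_eq_one ⟨g, Good.inv f.2 hg⟩ (Subtype.ext (funext hg))
  let M : goodRing ℤ_[p] (Fin 6) := ⟨fun _ => μ, good_const μ⟩
  have hM : ∀ v, ev v M = μ := fun _ => rfl
  obtain ⟨Y, hY⟩ := six_exists (μ := M)
    (fun c B => hunit _ fun v => by simpa [hM, map_ofNat] using u3 (ev v c) (ev v B))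
    (fun c B => hunit _ fun v => by simpa [hM, map_ofNat] using u8 (ev v c) (ev v B))
    fun i => ⟨fun v => v i, good_coord i⟩
  let G : (Fin 6 → ℤ_[p]) → Fin 6 → ℤ_[p] := fun v i => ev v (Y i)
  have hG : ∀ v, Six μ v (G v) := fun v => hY.map (ev v)
  have hN : Near (p : ℤ_[p]) G := by
    have := (six_ap (j := ⟨fun _ => j, good_const j⟩) (Subtype.ext (funext fun _ => hj)) hY).1
    choose H hH using this
    refine ⟨fun v i => m' * ev v (H i), fun i => (good_const _).mul (H i).2, fun v i => ?_⟩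
    have h1 := congrArg (ev v) (hH i)
    rw [map_sub, map_mul, hM] at h1
    have h2 : ev v ⟨fun v => v i, good_coord i⟩ = v i := rfl
    rw [h2, hμ] at h1
    linear_combination h1
  have hμ0 : μ ≠ 0 := by
    have : ((p * m' : ℤ) : ℤ_[p]) ≠ 0 := Int.cast_ne_zero.2 hm0
    simpa [hμ] using this
  have hx : G x ≠ x := by
    intro h
    have h1 := (six_ap hj (hG x)).2
    rw [h, sub_self, mul_zero, zero_sub, dvd_neg, mul_dvd_mul_iff_left hμ0] at h1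
    exact hΨ ((dvd_mul_right _ _).trans h1)
  have hinj := hN.orbit_injective (by omega) x hx
  have hμr : IsRat μ := ⟨(p * m' : ℤ), by simp [hμ]⟩
  have hr1 : IsRat (1 : ℤ_[p]) := one_mem _
  have hr2 : IsRat (2 : ℤ_[p]) := ofNat_mem _ 2
  have hr6 : IsRat (6 : ℤ_[p]) := ofNat_mem _ 6
  have hrat : ∀ n : ℕ, (∀ i, IsRat (G^[n] x i)) ∧ Inv μ x (G^[n] x) := by
    intro n
    induction n with
    | zero => exact ⟨fun i => ⟨y i, (hxy i).symm⟩, rfl, rfl, rfl, rfl, rfl⟩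
    | succ n ih =>
      rw [Function.iterate_succ_apply']
      obtain ⟨r, a1, a2, a3, a4, a5⟩ := ih
      obtain ⟨b1, b2, b3, b4, b5⟩ := (hG (G^[n] x)).inv
      refine ⟨?_, b1.trans a1, b2.trans a2, b3.trans a3, b4.trans a4, b5.trans a5⟩
      obtain ⟨_, _, _, _, _, _, _, _, _, _, _, _, _, _, _, _, _, _, f1, f2, f3, f4, f5, f6⟩ :=
        hG (G^[n] x)
      obtain ⟨k1, k2, k3, k4⟩ := f1.isRat u3 hμr hr1 hr2 (r 0) (r 1) (r 2) (r 3)
      obtain ⟨k5, k6, k7, k8⟩ := f2.isRat u8 hμr hr2 hr6 k3 k4 (r 4) (r 5)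
      obtain ⟨l1, l2, l3, l4⟩ := f3.isRat u3 hμr hr1 hr2 k1 k2 k5 k6
      obtain ⟨l5, l6, l7, l8⟩ := f4.isRat u8 hμr hr2 hr6 l3 l4 k7 k8
      obtain ⟨n1, n2, n3, n4⟩ := f5.isRat u3 hμr hr1 hr2 l1 l2 l5 l6
      obtain ⟨n5, n6, n7, n8⟩ := f6.isRat u8 hμr hr2 hr6 n3 n4 l7 l8
      intro i
      fin_cases i
      exacts [n1, n2, n5, n6, n7, n8]
  choose z hz using fun n i => (hrat n).1 i
  have hz' : ∀ n i, (G^[n] x i : ℚ_[p]) = z n i := fun n i => (hz n i).symm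
  refine Set.infinite_of_injective_forall_mem (f := z) (fun a b hab => hinj ?_) fun n => ?_
  · funext i
    apply Subtype.ext
    show (G^[a] x i : ℚ_[p]) = (G^[b] x i : ℚ_[p])
    rw [hz', hz', hab]
  · obtain ⟨a1, a2, a3, a4, a5⟩ := (hrat n).2
    have c2 : ((2 : ℤ_[p]) : ℚ_[p]) = 2 := rfl
    have c6 : ((6 : ℤ_[p]) : ℚ_[p]) = 6 := rfl
    have b1 := congrArg (fun z : ℤ_[p] => (z : ℚ_[p])) a1
    have b2 := congrArg (fun z : ℤ_[p] => (z : ℚ_[p])) a2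
    have b3 := congrArg (fun z : ℤ_[p] => (z : ℚ_[p])) a3
    have b4 := congrArg (fun z : ℤ_[p] => (z : ℚ_[p])) a4
    have b5 := congrArg (fun z : ℤ_[p] => (z : ℚ_[p])) a5
    simp only [hμ] at b1 b2 b3
    push_cast [hz', hxy, c2, c6] at b1 b2 b3 b4 b5
    refine ⟨?_, ?_, ?_, ?_, ?_⟩ <;> apply Rat.cast_injective (α := ℚ_[p]) <;> push_cast <;> assumption

end Padic

end Pool.Agent.P.MP_b75a1e_co
end

-- part Pool.Agent.P.MP_b75a1e_co.Bodies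
section

set_option autoImplicit false

open Finset

namespace Pool.Agent.P.MP_b75a1e_co

theorem cubic_four {F : Type} [Field F] {K e2 e1 e0 z1 z2 z3 z4 : F} (h12 : z1 ≠ z2) (h13 : z1 ≠ z3)
    (h14 : z1 ≠ z4) (h23 : z2 ≠ z3) (h24 : z2 ≠ z4) (h34 : z3 ≠ z4)
    (r1 : K * z1 ^ 3 + e2 * z1 ^ 2 + e1 * z1 + e0 = 0) (r2 : K * z2 ^ 3 + e2 * z2 ^ 2 + e1 * z2 + e0 = 0)
    (r3 : K * z3 ^ 3 + e2 * z3 ^ 2 + e1 * z3 + e0 = 0)
    (r4 : K * z4 ^ 3 + e2 * z4 ^ 2 + e1 * z4 + e0 = 0) : K = 0 := by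
  have a2 : K * (z1 ^ 2 + z1 * z2 + z2 ^ 2) + e2 * (z1 + z2) + e1 = 0 :=
    mul_left_cancel₀ (sub_ne_zero.2 h12) (by linear_combination r1 - r2)
  have a3 : K * (z1 ^ 2 + z1 * z3 + z3 ^ 2) + e2 * (z1 + z3) + e1 = 0 :=
    mul_left_cancel₀ (sub_ne_zero.2 h13) (by linear_combination r1 - r3)
  have a4 : K * (z1 ^ 2 + z1 * z4 + z4 ^ 2) + e2 * (z1 + z4) + e1 = 0 :=
    mul_left_cancel₀ (sub_ne_zero.2 h14) (by linear_combination r1 - r4)
  have b3 : K * (z1 + z2 + z3) + e2 = 0 :=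
    mul_left_cancel₀ (sub_ne_zero.2 h23) (by linear_combination a2 - a3)
  have b4 : K * (z1 + z2 + z4) + e2 = 0 :=
    mul_left_cancel₀ (sub_ne_zero.2 h24) (by linear_combination a2 - a4)
  exact mul_left_cancel₀ (sub_ne_zero.2 h34) (by linear_combination b3 - b4)

theorem exists_bodies {F : Type} [Field F] [DecidableEq F] {ι : Type} [Fintype ι] [DecidableEq ι]
    (hc : 27 ≤ Fintype.card ι) (h0 : (Fintype.card ι : F) = 0) (h96 : (96 : F) ≠ 0) (ρ : ι → F)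
    (hρ : ∑ i, ρ i ^ 2 ≠ 0) (i0 j0 : ι) (hij : i0 ≠ j0) (hr : ρ i0 = ρ j0) :
    ∃ (z : ι) (T1 T2 : Finset ι), T1.card = 2 ∧ T2.card = 6 ∧ Disjoint T1 T2 ∧ z ∉ T1 ∧ z ∉ T2 ∧
      j0 ≠ z ∧ j0 ∉ T1 ∧ j0 ∉ T2 ∧ (i0 = z ∨ i0 ∈ T1) ∧
      Psi (ρ z) (∑ i ∈ T1, ρ i) (∑ i ∈ T2, ρ i) (ρ z ^ 2) (∑ i ∈ T1, ρ i ^ 2) (∑ i ∈ T2, ρ i ^ 2) ≠ 0 := by
  set U : Finset ι := (univ.erase i0).erase j0 with hU
  have hUc : U.card + 2 = Fintype.card ι := by
    rw [hU, card_erase_of_mem (by simp [hij.symm]), card_erase_of_mem (mem_univ _), card_univ]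
    omega
  have hUm : ∀ i, i ∈ U ↔ i ≠ j0 ∧ i ≠ i0 := by simp [hU]
  have split7 : ∀ V : Finset ι, V ⊆ U → 7 ≤ V.card → ∃ T1 T2 : Finset ι, T1.card = 2 ∧ T2.card = 6 ∧
      Disjoint T1 T2 ∧ i0 ∈ T1 ∧ (∀ i ∈ T1, i = i0 ∨ i ∈ V) ∧ T2 ⊆ V := by
    intro V hV h7
    obtain ⟨T, hT, hT7⟩ := exists_subset_card_eq h7
    obtain ⟨t, ht⟩ : T.Nonempty := card_pos.1 (by omega)
    have hti : t ≠ i0 := ((hUm t).1 (hV (hT ht))).2
    refine ⟨{i0, t}, T.erase t, card_pair hti.symm, by rw [card_erase_of_mem ht, hT7], ?_, by simp,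
      ?_, (erase_subset _ _).trans hT⟩
    · rw [disjoint_left]
      intro a ha ha'
      rcases mem_insert.1 ha with rfl | h
      · exact ((hUm _).1 (hV (hT (mem_of_mem_erase ha')))).2 rfl
      · exact (mem_erase.1 ha').1 (mem_singleton.1 h)
    · intro i hi
      rcases mem_insert.1 hi with h | h
      · exact Or.inl h
      · exact Or.inr (hT (mem_singleton.1 h ▸ ht))
  have const : ∀ (z : ι) (T1 T2 : Finset ι) (c : F), T1.card = 2 → T2.card = 6 → (∀ i ∈ T1, ρ i = c) →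
      (∀ i ∈ T2, ρ i = c) → ρ z ≠ c →
      Psi (ρ z) (∑ i ∈ T1, ρ i) (∑ i ∈ T2, ρ i) (ρ z ^ 2) (∑ i ∈ T1, ρ i ^ 2) (∑ i ∈ T2, ρ i ^ 2) ≠ 0 := by
    intro z T1 T2 c h1 h2 e1 e2 hz
    rw [sum_congr rfl e1, sum_congr rfl e2, sum_congr rfl fun i hi => congrArg (· ^ 2) (e1 i hi),
      sum_congr rfl fun i hi => congrArg (· ^ 2) (e2 i hi)]
    simp only [sum_const, h1, h2, nsmul_eq_mul]
    have : Psi (ρ z) ((2 : ℕ) * c) ((6 : ℕ) * c) (ρ z ^ 2) ((2 : ℕ) * c ^ 2) ((6 : ℕ) * c ^ 2) =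
        -(96 * (ρ z - c) ^ 3) := by
      rw [Psi]; push_cast; ring
    rw [this]
    exact neg_ne_zero.2 (mul_ne_zero h96 (pow_ne_zero _ (sub_ne_zero.2 hz)))
  by_cases h4 : 3 < (U.image ρ).card
  · obtain ⟨r1, r2, r3, r4, m1, m2, m3, m4, h12, h13, h14, h23, h24, h34⟩ := three_lt_card_iff.1 h4
    obtain ⟨w1, n1, rfl⟩ := mem_image.1 m1
    obtain ⟨w2, n2, rfl⟩ := mem_image.1 m2
    obtain ⟨w3, n3, rfl⟩ := mem_image.1 m3
    obtain ⟨w4, n4, rfl⟩ := mem_image.1 m4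
    have hW : ({w1, w2, w3, w4} : Finset ι).card ≤ 4 := card_le_four
    obtain ⟨T1, T2, c1, c2, hd, hi, s1, s2⟩ := split7 (U \ {w1, w2, w3, w4}) sdiff_subset
      (by have := le_card_sdiff ({w1, w2, w3, w4} : Finset ι) U; omega)
    have hj1 : j0 ∉ T1 := fun h => (s1 _ h).elim (fun e => hij e.symm)
      fun e => ((hUm _).1 (mem_sdiff.1 e).1).1 rfl
    have hj2 : j0 ∉ T2 := fun h => ((hUm _).1 (mem_sdiff.1 (s2 h)).1).1 rfl
    by_contra hcon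
    have key : ∀ w, w ∈ U → w ∈ ({w1, w2, w3, w4} : Finset ι) →
        (-96) * ρ w ^ 3 + (24 * ∑ i ∈ T1, ρ i + 40 * ∑ i ∈ T2, ρ i) * ρ w ^ 2 +
        (20 * (∑ i ∈ T1, ρ i) * (∑ i ∈ T2, ρ i) - 438 * (∑ i ∈ T1, ρ i) ^ 2 + 2 * (∑ i ∈ T2, ρ i) ^ 2 +
          792 * (∑ i ∈ T1, ρ i ^ 2) - 72 * (∑ i ∈ T2, ρ i ^ 2)) * ρ w +
        Psi 0 (∑ i ∈ T1, ρ i) (∑ i ∈ T2, ρ i) 0 (∑ i ∈ T1, ρ i ^ 2) (∑ i ∈ T2, ρ i ^ 2) = 0 := by
      intro w hw hw'
      by_contra hne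
      refine hcon ⟨w, T1, T2, c1, c2, hd, fun h => ?_, fun h => (mem_sdiff.1 (s2 h)).2 hw',
        ((hUm _).1 hw).1.symm, hj1, hj2, Or.inr hi, fun h => hne ?_⟩
      · exact (s1 _ h).elim ((hUm _).1 hw).2 fun e => (mem_sdiff.1 e).2 hw'
      · rw [Psi] at h ⊢
        linear_combination h
    have := cubic_four h12 h13 h14 h23 h24 h34 (key w1 n1 (by simp)) (key w2 n2 (by simp))
      (key w3 n3 (by simp)) (key w4 n4 (by simp))
    exact h96 (neg_eq_zero.1 this)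
  · obtain ⟨c, -, hc8⟩ := exists_lt_card_fiber_of_mul_lt_card_of_maps_to (s := U) (t := U.image ρ)
      (f := ρ) (n := 7) (fun a ha => mem_image_of_mem _ ha) (by omega)
    set V := U.filter fun x => ρ x = c with hV
    have hVm : ∀ i ∈ V, i ∈ U ∧ ρ i = c := fun i hi => mem_filter.1 hi
    by_cases hi0 : ρ i0 = c
    · obtain ⟨z, hz⟩ : ∃ z, ρ z ≠ c := by
        by_contra h
        push Not at h
        apply hρ
        simp [h, card_univ, h0]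
      obtain ⟨T1, T2, c1, c2, hd, hi, s1, s2⟩ := split7 V (filter_subset _ _) (by omega)
      have e1 : ∀ i ∈ T1, ρ i = c := fun i h => (s1 i h).elim (fun e => e ▸ hi0) fun e => (hVm i e).2
      have e2 : ∀ i ∈ T2, ρ i = c := fun i h => (hVm i (s2 h)).2
      refine ⟨z, T1, T2, c1, c2, hd, fun h => hz (e1 _ h), fun h => hz (e2 _ h),
        fun h => hz (by rw [← h, ← hr, hi0]), fun h => ?_, fun h => ((hUm _).1 (hVm _ (s2 h)).1).1 rfl,
        Or.inr hi, const z T1 T2 c c1 c2 e1 e2 hz⟩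
      exact (s1 _ h).elim (fun e => hij e.symm) fun e => ((hUm _).1 (hVm _ e).1).1 rfl
    · obtain ⟨T, hT, hT8⟩ := exists_subset_card_eq (show 8 ≤ V.card by omega)
      obtain ⟨T1, hT1, c1⟩ := exists_subset_card_eq (show 2 ≤ T.card by omega)
      have c2 : (T \ T1).card = 6 := by rw [card_sdiff_of_subset hT1]; omega
      have e1 : ∀ i ∈ T1, ρ i = c := fun i h => (hVm i (hT (hT1 h))).2
      have e2 : ∀ i ∈ T \ T1, ρ i = c := fun i h => (hVm i (hT (mem_sdiff.1 h).1)).2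
      exact ⟨i0, T1, T \ T1, c1, c2, disjoint_sdiff, fun h => hi0 (e1 _ h), fun h => hi0 (e2 _ h),
        hij.symm, fun h => hi0 (hr ▸ e1 _ h), fun h => hi0 (hr ▸ e2 _ h), Or.inl rfl,
        const i0 T1 (T \ T1) c c1 c2 e1 e2 hi0⟩

theorem circ_finite (w : ℂ) (hw : w ≠ 0) (α β : ℝ) :
    {z : ℂ | Complex.normSq z = α ∧ Complex.normSq (w - z) = β}.Finite := by
  have hP : (Polynomial.C (starRingEnd ℂ w) * Polynomial.X ^ 2 +
      Polynomial.C (-((α : ℂ) + w * starRingEnd ℂ w - β)) * Polynomial.X +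
      Polynomial.C (α * w) : Polynomial ℂ) ≠ 0 := by
    intro h
    have := congrArg (fun P => Polynomial.coeff P 2) h
    simp only [Polynomial.coeff_add, Polynomial.coeff_C_mul, Polynomial.coeff_X_pow, Polynomial.coeff_X,
      Polynomial.coeff_C] at this
    simp [hw] at this
  refine (Polynomial.finite_setOfPred_isRoot hP).subset fun z ⟨h1, h2⟩ => ?_
  have e1 : z * starRingEnd ℂ z = α := by rw [Complex.mul_conj, h1]
  have e2 : (w - z) * starRingEnd ℂ (w - z) = β := by rw [Complex.mul_conj, h2]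
  rw [map_sub] at e2
  simp only [Set.mem_ofPred_eq, Polynomial.IsRoot, Polynomial.eval_add, Polynomial.eval_mul,
    Polynomial.eval_C, Polynomial.eval_pow, Polynomial.eval_X]
  linear_combination (z - w) * e1 - z * e2

theorem third (k t : Fin 3) (h : k ≠ t) :
    ∃ s, s ≠ k ∧ s ≠ t ∧ ∀ f : Fin 3 → ℂ, ∑ i, f i = f k + f t + f s := by
  obtain ⟨s, h1, h2, h3⟩ : ∃ s, s ≠ k ∧ s ≠ t ∧ (univ : Finset (Fin 3)) = {k, t, s} := by
    revert k t; decide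
  refine ⟨s, h1, h2, fun f => ?_⟩
  rw [h3, sum_insert (by simp [h, h1.symm]), sum_pair h2.symm, add_assoc]

theorem fix_finite (N : Fin 3 → ℝ) (hN : Function.Injective N) (w : ℂ) (k : Fin 3) (z : ℂ) :
    {σ : Fin 3 → ℂ | ((∀ t, Complex.normSq (σ t) = N t) ∧ ∑ t, σ t = w) ∧ σ k = z}.Finite := by
  have : ∀ t, ∃ A : Set ℂ, A.Finite ∧ ∀ σ : Fin 3 → ℂ, (∀ t, Complex.normSq (σ t) = N t) →
      ∑ t, σ t = w → σ k = z → σ t ∈ A := by
    intro t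
    by_cases h : k = t
    · exact ⟨{z}, Set.finite_singleton z, fun σ _ _ h3 => h ▸ h3⟩
    · obtain ⟨s, -, hst, hs⟩ := third k t h
      by_cases hw : w - z = 0
      · refine ⟨∅, Set.finite_empty, fun σ h1 h2 h3 => hst (hN ?_)⟩
        have : σ s = -σ t := by rw [hs, h3] at h2; linear_combination h2 + hw
        rw [← h1, ← h1, this, Complex.normSq_neg]
      · refine ⟨_, circ_finite (w - z) hw (N t) (N s), fun σ h1 h2 h3 => ⟨h1 t, ?_⟩⟩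
        have : w - z - σ t = σ s := by rw [hs, h3] at h2; linear_combination -h2
        rw [this, h1]
  choose A hA hA' using this
  exact (Set.Finite.pi' hA).subset fun σ ⟨⟨h1, h2⟩, h3⟩ t => hA' t σ h1 h2 h3

theorem ratio_finite (N : Fin 3 → ℝ) (hN : Function.Injective N) (w : ℂ) (hw : w ≠ 0) (k l : Fin 3)
    (hkl : k ≠ l) (z : ℂ) :
    {σ : Fin 3 → ℂ | ((∀ t, Complex.normSq (σ t) = N t) ∧ ∑ t, σ t = w) ∧ σ k = z * σ l}.Finite := by
  obtain ⟨s, -, -, hs⟩ := third k l hkl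
  refine ((circ_finite w hw (N s) (Complex.normSq (z + 1) * N l)).biUnion
    fun y _ => fix_finite N hN w s y).subset fun σ ⟨⟨h1, h2⟩, h3⟩ => ?_
  refine Set.mem_biUnion (x := σ s) ⟨h1 s, ?_⟩ ⟨⟨h1, h2⟩, rfl⟩
  have : w - σ s = (z + 1) * σ l := by rw [hs, h3] at h2; linear_combination -h2
  rw [this, map_mul, h1]

/-- Among infinitely many positions of the three bodies, one creates no coincidence between
vectors of different bodies. -/
theorem exists_position {ι : Type} [Fintype ι] (u : ι → ℂ) (hu : ∀ i, u i ≠ 0)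
    (l : ι → Option (Fin 3)) (σ0 : Fin 3 → ℂ) (h0 : ∀ k, σ0 k ≠ 0)
    (hN : Function.Injective fun k => Complex.normSq (σ0 k)) (hw : ∑ k, σ0 k ≠ 0)
    (S : Set (Fin 3 → ℂ)) (hS : S.Infinite)
    (hS' : ∀ σ ∈ S, (∀ t, Complex.normSq (σ t) = Complex.normSq (σ0 t)) ∧ ∑ t, σ t = ∑ t, σ0 t) :
    ∃ σ ∈ S, ∀ i j, l i ≠ l j →
      (l i).elim 1 (fun k => σ k / σ0 k) * u i ≠ (l j).elim 1 (fun k => σ k / σ0 k) * u j := by
  have hfin : ∀ i j, {σ : Fin 3 → ℂ | ((∀ t, Complex.normSq (σ t) = Complex.normSq (σ0 t)) ∧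
      ∑ t, σ t = ∑ t, σ0 t) ∧ l i ≠ l j ∧
      (l i).elim 1 (fun k => σ k / σ0 k) * u i = (l j).elim 1 (fun k => σ k / σ0 k) * u j}.Finite := by
    intro i j
    have hi := hu i
    have hj := hu j
    rcases l i with _ | a <;> rcases l j with _ | b
    · exact Set.finite_empty.subset fun σ h => h.2.1 rfl
    · refine (fix_finite _ hN _ b (σ0 b * u i / u j)).subset fun σ ⟨h1, _, h3⟩ => ⟨h1, ?_⟩
      have := h0 b
      simp only [Option.elim] at h3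
      field_simp at h3 ⊢
      linear_combination -h3
    · refine (fix_finite _ hN _ a (σ0 a * u j / u i)).subset fun σ ⟨h1, _, h3⟩ => ⟨h1, ?_⟩
      have := h0 a
      simp only [Option.elim] at h3
      field_simp at h3 ⊢
      linear_combination h3
    · by_cases hab : a = b
      · exact Set.finite_empty.subset fun σ h => h.2.1 (by rw [hab])
      · refine (ratio_finite _ hN _ hw a b hab (σ0 a * u j / (σ0 b * u i))).subset
          fun σ ⟨h1, _, h3⟩ => ⟨h1, ?_⟩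
        have := h0 a
        have := h0 b
        simp only [Option.elim] at h3
        field_simp at h3 ⊢
        linear_combination h3
  obtain ⟨σ, h1, h2⟩ := hS.exists_notMem_finite
    (Set.finite_iUnion fun i => Set.finite_iUnion fun j => hfin i j)
  refine ⟨σ, h1, fun i j hij h => h2 ?_⟩
  exact Set.mem_iUnion.2 ⟨i, Set.mem_iUnion.2 ⟨j, hS' σ h1, hij, h⟩⟩

end Pool.Agent.P.MP_b75a1e_co
end

-- part Pool.Agent.P.MP_b75a1e_co.Distinct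
section

set_option autoImplicit false

open Finset

namespace Pool.Agent.P.MP_b75a1e_co

/-- The complex number `a + b √(-m)`. -/
noncomputable def emb (m : ℕ) (a b : ℚ) : ℂ := ⟨a, b * Real.sqrt m⟩

theorem normSq_emb (m : ℕ) (a b : ℚ) : Complex.normSq (emb m a b) = (a ^ 2 + m * b ^ 2 : ℚ) := by
  have := Real.mul_self_sqrt (Nat.cast_nonneg (α := ℝ) m)
  rw [emb, Complex.normSq_mk]
  push_cast
  linear_combination (b : ℝ) ^ 2 * this

theorem emb_inj {m : ℕ} (hm : m ≠ 0) {a b a' b' : ℚ} (h : emb m a b = emb m a' b') :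
    a = a' ∧ b = b' := by
  have h0 : Real.sqrt m ≠ 0 := by positivity
  have h1 := congrArg Complex.re h
  have h2 := congrArg Complex.im h
  simp only [emb] at h1 h2
  exact ⟨by exact_mod_cast h1, by exact_mod_cast mul_right_cancel₀ h0 h2⟩

theorem sum_emb {ι : Type} (m : ℕ) (T : Finset ι) (a b : ι → ℚ) :
    ∑ i ∈ T, emb m (a i) (b i) = emb m (∑ i ∈ T, a i) (∑ i ∈ T, b i) := by
  apply Complex.ext
  · simp [Complex.re_sum, emb]
  · simp [Complex.im_sum, emb, sum_mul]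

theorem emb_zero (m : ℕ) : emb m 0 0 = 0 := by apply Complex.ext <;> simp [emb]

/-- Membership in the imaginary quadratic field. -/
def InK (m : ℕ) (z : ℂ) : Prop := ∃ a b : ℚ, z = emb m a b

theorem InK.mul {m : ℕ} {z w : ℂ} (hz : InK m z) (hw : InK m w) : InK m (z * w) := by
  obtain ⟨a, b, rfl⟩ := hz
  obtain ⟨c, d, rfl⟩ := hw
  have := Real.mul_self_sqrt (Nat.cast_nonneg (α := ℝ) m)
  refine ⟨a * c - m * b * d, a * d + b * c, Complex.ext ?_ ?_⟩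
  · simp only [emb, Complex.mul_re]; push_cast; linear_combination (-(b : ℝ) * d) * this
  · simp only [emb, Complex.mul_im]; push_cast; ring

theorem InK.inv {m : ℕ} {z : ℂ} (hz : InK m z) : InK m z⁻¹ := by
  obtain ⟨a, b, rfl⟩ := hz
  refine ⟨a / (a ^ 2 + m * b ^ 2), -b / (a ^ 2 + m * b ^ 2), Complex.ext ?_ ?_⟩
  · rw [Complex.inv_re, normSq_emb]; simp [emb]
  · rw [Complex.inv_im, normSq_emb]; simp only [emb]; push_cast; ring

/-- Unit vectors of the field with sum zero. -/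
def Conf {ι : Type} [Fintype ι] (m : ℕ) (u : ι → ℂ) : Prop :=
  (∀ i, InK m (u i)) ∧ (∀ i, Complex.normSq (u i) = 1) ∧ ∑ i, u i = 0

open Classical in
/-- The number of coincidences. -/
noncomputable def coll {ι : Type} [Fintype ι] (u : ι → ℂ) : ℕ :=
  (univ.filter fun q : ι × ι => u q.1 = u q.2).card

variable {p : ℕ} [Fact p.Prime]

theorem toZMod_eq_zero_iff (x : ℤ_[p]) : PadicInt.toZMod x = 0 ↔ (p : ℤ_[p]) ∣ x := by
  rw [← RingHom.mem_ker, PadicInt.ker_toZMod, PadicInt.maximalIdeal_eq_span_p,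
    Ideal.mem_span_singleton]

theorem lift_unit {m : ℕ} (h1 : p ∣ m) (h2 : ¬ p ^ 2 ∣ m) {a b : ℚ} (h : a ^ 2 + m * b ^ 2 = 1) :
    ∃ α β : ℤ_[p], (α : ℚ_[p]) = a ∧ (β : ℚ_[p]) = b := by
  have h' : (a : ℚ_[p]) ^ 2 + m * (b : ℚ_[p]) ^ 2 = 1 := by exact_mod_cast h
  have sq : ∀ (x : ℚ_[p]) (y : ℤ_[p]), x ^ 2 = y → ‖x‖ ≤ 1 := by
    intro x y hxy
    have : ‖x‖ ^ 2 ≤ 1 := by rw [← norm_pow, hxy]; exact y.2
    exact (pow_le_one_iff_of_nonneg (norm_nonneg _) two_ne_zero).1 this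
  have hb : ‖(b : ℚ_[p])‖ ≤ 1 := by
    by_contra hb
    push Not at hb
    have hb0 : (b : ℚ_[p]) ≠ 0 := fun e => by rw [e, norm_zero] at hb; linarith
    have ht : ‖(b : ℚ_[p])⁻¹‖ < 1 := by rw [norm_inv]; exact inv_lt_one_of_one_lt₀ hb
    set t : ℤ_[p] := ⟨(b : ℚ_[p])⁻¹, ht.le⟩ with htd
    have ht' : (p : ℤ_[p]) ∣ t := (PadicInt.norm_lt_one_iff_dvd t).1 ht
    have e : ((a : ℚ_[p]) * (b : ℚ_[p])⁻¹) ^ 2 = ((t ^ 2 - m : ℤ_[p]) : ℚ_[p]) := by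
      push_cast [htd]
      field_simp
      linear_combination h'
    set w : ℤ_[p] := ⟨_, sq _ _ e⟩ with hwd
    have e' : w ^ 2 = t ^ 2 - m := Subtype.ext (by rw [← e]; push_cast [hwd]; rfl)
    have hm : (p : ℤ_[p]) ∣ m := Nat.cast_dvd_cast h1
    have hw : (p : ℤ_[p]) ∣ w := PadicInt.prime_p.dvd_of_dvd_pow
      (e' ▸ dvd_sub (ht'.trans (dvd_pow_self t two_ne_zero)) hm)
    have h3 : (p : ℤ_[p]) ^ 2 ∣ ((m : ℤ) : ℤ_[p]) := by
      have := dvd_sub (pow_dvd_pow_of_dvd ht' 2) (pow_dvd_pow_of_dvd hw 2)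
      rw [e', sub_sub_cancel] at this
      exact_mod_cast this
    rw [PadicInt.pow_p_dvd_int_iff] at h3
    exact h2 (by exact_mod_cast h3)
  set β : ℤ_[p] := ⟨b, hb⟩ with hβ
  have e : (a : ℚ_[p]) ^ 2 = ((1 - m * β ^ 2 : ℤ_[p]) : ℚ_[p]) := by
    push_cast [hβ]
    linear_combination h'
  exact ⟨⟨a, sq _ _ e⟩, β, rfl, rfl⟩

theorem zmod_ne {n : ℕ} (hp : 29 ≤ p) (hn : ∀ q, q.Prime → q ∣ n → q < 29) : (n : ZMod p) ≠ 0 :=
  fun h => absurd (hn p Fact.out ((ZMod.natCast_eq_zero_iff n p).1 h)) (by omega)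

theorem smooth_small {q a b c d : ℕ} (hq : q.Prime) (h : q ∣ 2 ^ a * 3 ^ b * 5 ^ c * 7 ^ d) : q < 29 := by
  have k : ∀ r e, q ∣ r ^ e → 0 < r → r < 29 → q < 29 := fun r e h1 h2 h3 =>
    (Nat.le_of_dvd h2 (hq.dvd_of_dvd_pow h1)).trans_lt h3
  rcases (Nat.Prime.dvd_mul hq).1 h with h | h
  · rcases (Nat.Prime.dvd_mul hq).1 h with h | h
    · rcases (Nat.Prime.dvd_mul hq).1 h with h | h <;> exact k _ _ h (by norm_num) (by norm_num)
    · exact k _ _ h (by norm_num) (by norm_num)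
  · exact k _ _ h (by norm_num) (by norm_num)

theorem zmod_smooth (hp : 29 ≤ p) (a b c d : ℕ) : ((2 ^ a * 3 ^ b * 5 ^ c * 7 ^ d : ℕ) : ZMod p) ≠ 0 :=
  zmod_ne hp fun _ hq h => smooth_small hq h

theorem step_pos {ι : Type} [Fintype ι] {m : ℕ} (hp : 29 ≤ p) (hc : Fintype.card ι = p) (h1 : p ∣ m)
    (hm0 : m ≠ 0) (a b : ι → ℚ) (α β : ι → ℤ_[p]) (hα : ∀ i, (α i : ℚ_[p]) = a i)
    (hβ : ∀ i, (β i : ℚ_[p]) = b i) (hn : ∀ i, a i ^ 2 + m * b i ^ 2 = 1) (ha : ∑ i, a i = 0)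
    (hb : ∑ i, b i = 0) (hs : ∀ i, PadicInt.toZMod (α i) = 1) (i0 j0 : ι) (hij : i0 ≠ j0)
    (hab : a i0 = a j0 ∧ b i0 = b j0) :
    ∃ u' : ι → ℂ, Conf m u' ∧ coll u' < coll fun i => emb m (a i) (b i) := by
  classical
  have hp' : p.Prime := Fact.out
  have z2 : (2 : ZMod p) ≠ 0 := by simpa using zmod_smooth hp 1 0 0 0
  have hmz : (m : ZMod p) = 0 := (ZMod.natCast_eq_zero_iff m p).2 h1
  have hu : ∀ i, IsUnit (1 + α i) := fun i => by
    by_contra h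
    have h3 : 1 + α i ∈ IsLocalRing.maximalIdeal ℤ_[p] := h
    rw [← PadicInt.ker_toZMod, RingHom.mem_ker, map_add, map_one, hs, one_add_one_eq_two] at h3
    exact z2 h3
  choose v hv using fun i => (hu i).exists_right_inv
  set c : ι → ℤ_[p] := fun i => β i ^ 2 * v i with hcd
  set cq : ι → ℚ := fun i => b i ^ 2 / (1 + a i) with hcq
  have ha1 : ∀ i, (1 + a i : ℚ_[p]) * v i = 1 := fun i => by
    rw [← hα]; exact_mod_cast congrArg (fun z : ℤ_[p] => (z : ℚ_[p])) (hv i)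
  have ha2 : ∀ i, 1 + a i ≠ 0 := fun i h => by
    have h3 : (1 + a i : ℚ_[p]) = 0 := by exact_mod_cast h
    have := ha1 i
    rw [h3, zero_mul] at this
    exact zero_ne_one this
  have hcc : ∀ i, (c i : ℚ_[p]) = cq i := fun i => by
    have h3 : (1 + a i : ℚ_[p]) ≠ 0 := by exact_mod_cast ha2 i
    simp only [hcd, hcq]
    push_cast
    rw [hβ, eq_div_iff h3]
    linear_combination (b i : ℚ_[p]) ^ 2 * ha1 i
  have hac : ∀ i, a i = 1 - m * cq i := fun i => by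
    have := ha2 i
    simp only [hcq]
    field_simp
    linear_combination hn i
  set ρ : ι → ZMod p := fun i => PadicInt.toZMod (β i) with hρ
  have hρc : ∀ i, 2 * PadicInt.toZMod (c i) = ρ i ^ 2 := fun i => by
    have := congrArg PadicInt.toZMod (hv i)
    rw [map_mul, map_add, map_one, hs] at this
    simp only [hcd, hρ, map_mul, map_pow]
    linear_combination PadicInt.toZMod (β i) ^ 2 * this
  have hρ2 : ∑ i, ρ i ^ 2 ≠ 0 := by
    obtain ⟨m', rfl⟩ := h1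
    have e1 : (m' : ℚ) * ∑ i, cq i = 1 := by
      have hp0 : (p : ℚ) ≠ 0 := by exact_mod_cast hp'.ne_zero
      apply mul_left_cancel₀ hp0
      rw [sum_congr rfl fun i _ => hac i, sum_sub_distrib, ← mul_sum] at ha
      simp only [sum_const, card_univ, hc, nsmul_eq_mul] at ha
      push_cast at ha
      linear_combination -ha
    have e2 : (m' : ℤ_[p]) * ∑ i, c i = 1 := by
      apply Subtype.ext
      have : ((m' : ℚ_[p])) * ∑ i, (cq i : ℚ_[p]) = 1 := by exact_mod_cast e1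
      push_cast [hcc, PadicInt.coe_sum]
      exact this
    have e3 := congrArg PadicInt.toZMod e2
    rw [map_mul, map_sum, map_one] at e3
    intro h
    rw [← sum_congr rfl fun i _ => hρc i, ← mul_sum] at h
    rw [(mul_eq_zero.1 h).resolve_left z2, mul_zero] at e3
    exact zero_ne_one e3
  have hr : ρ i0 = ρ j0 := by
    have : β i0 = β j0 := Subtype.ext (by rw [hβ, hβ, hab.2])
    simp only [hρ, this]
  obtain ⟨z, T1, T2, c1, c2, hd, z1, z2', jz, j1, j2, hi, hΨ⟩ := exists_bodies (F := ZMod p) (by omega)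
    (by rw [hc]; simp) (by simpa using zmod_smooth hp 5 1 0 0) ρ hρ2 i0 j0 hij hr
  set l : ι → Option (Fin 3) := fun i =>
    if i = z then some 0 else if i ∈ T1 then some 1 else if i ∈ T2 then some 2 else none with hl
  set T : Fin 3 → Finset ι := ![{z}, T1, T2] with hT
  have hlT : ∀ k, (univ.filter fun i => l i = some k) = T k := by
    intro k
    ext i
    have : i ∈ T1 → i ∉ T2 := fun h => disjoint_left.1 hd h
    have hz1 : i ∈ T1 → i ≠ z := fun h e => z1 (e ▸ h)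
    have hz2 : i ∈ T2 → i ≠ z := fun h e => z2' (e ▸ h)
    rw [mem_filter]
    by_cases a1 : i = z
    · fin_cases k <;> simp [hl, hT, a1, z1, z2']
    · by_cases a2 : i ∈ T1
      · fin_cases k <;> simp [hl, hT, a1, a2, this a2]
      · by_cases a3 : i ∈ T2 <;> fin_cases k <;> simp [hl, hT, a1, a2, a3]
  set y : Fin 6 → ℚ := ![cq z, b z, ∑ i ∈ T1, cq i, ∑ i ∈ T1, b i, ∑ i ∈ T2, cq i, ∑ i ∈ T2, b i] with hy
  set x : Fin 6 → ℤ_[p] := ![c z, β z, ∑ i ∈ T1, c i, ∑ i ∈ T1, β i, ∑ i ∈ T2, c i, ∑ i ∈ T2, β i]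
    with hx
  have hxy : ∀ i, (x i : ℚ_[p]) = y i := by
    intro i
    fin_cases i <;> simp [hx, hy, hcc, hβ]
  have hinf := fold_infinite (p := p) (by omega) m (by exact_mod_cast h1) (by exact_mod_cast hm0) x y hxy
    (by
      rw [← toZMod_eq_zero_iff]
      have k : ∀ W : Finset ι, 2 * ∑ i ∈ W, PadicInt.toZMod (c i) = ∑ i ∈ W, ρ i ^ 2 := fun W => by
        rw [mul_sum]; exact sum_congr rfl fun i _ => hρc i
      convert hΨ using 2
      simp only [Psi, hx, map_sub, map_add, map_mul, map_pow, map_ofNat, Matrix.cons_val, map_sum,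
        k, hρc, hρ])
  set pos : (Fin 6 → ℚ) → Fin 3 → ℂ := fun y =>
    ![emb m (1 - m * y 0) (y 1), emb m (2 - m * y 2) (y 3), emb m (6 - m * y 4) (y 5)] with hpos
  have hmq : (m : ℚ) ≠ 0 := by exact_mod_cast hm0
  have hpi : Function.Injective pos := by
    intro s t h
    obtain ⟨e0, e1⟩ := emb_inj hm0 (congrFun h 0)
    obtain ⟨e2, e3⟩ := emb_inj hm0 (congrFun h 1)
    obtain ⟨e4, e5⟩ := emb_inj hm0 (congrFun h 2)
    funext i
    fin_cases i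
    · exact mul_left_cancel₀ hmq (sub_right_injective e0)
    · exact e1
    · exact mul_left_cancel₀ hmq (sub_right_injective e2)
    · exact e3
    · exact mul_left_cancel₀ hmq (sub_right_injective e4)
    · exact e5
  set u : ι → ℂ := fun i => emb m (a i) (b i) with hud
  have hσ0 : ∀ k, ∑ i ∈ T k, u i = pos y k := by
    intro k
    simp only [hud, sum_emb, hac, sum_sub_distrib, ← mul_sum]
    fin_cases k <;> simp [hT, hpos, hy, c1, c2]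
  have hsum : ∀ t : Fin 6 → ℚ, ∑ k, pos t k = emb m (9 - m * (t 0 + t 2 + t 4)) (t 1 + t 3 + t 5) := by
    intro t
    simp only [hpos, Fin.sum_univ_three, Matrix.cons_val]
    apply Complex.ext
    · simp [emb]; ring
    · simp [emb]; ring
  have res : ∀ (n : ℕ) (C B : ℤ_[p]) (Cq Bq : ℚ), (C : ℚ_[p]) = Cq → (B : ℚ_[p]) = Bq →
      ∃ t : ℤ_[p], (t : ℚ_[p]) = (((n - m * Cq) ^ 2 + m * Bq ^ 2 : ℚ) : ℚ_[p]) ∧
        PadicInt.toZMod t = n ^ 2 := by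
    intro n C B Cq Bq e1 e2
    refine ⟨(n - m * C) ^ 2 + m * B ^ 2, by push_cast [e1, e2]; rfl, ?_⟩
    simp [hmz]
  obtain ⟨t0, r0, s0⟩ := res 1 (x 0) (x 1) _ _ (hxy 0) (hxy 1)
  obtain ⟨t1, r1, s1⟩ := res 2 (x 2) (x 3) _ _ (hxy 2) (hxy 3)
  obtain ⟨t2, r2, s2⟩ := res 6 (x 4) (x 5) _ _ (hxy 4) (hxy 5)
  obtain ⟨t3, r3, s3⟩ := res 9 (x 0 + x 2 + x 4) (x 1 + x 3 + x 5) (y 0 + y 2 + y 4) (y 1 + y 3 + y 5)
    (by push_cast [hxy]; rfl) (by push_cast [hxy]; rfl)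
  have cmp : ∀ (s t : ℤ_[p]) (A B : ℚ), (s : ℚ_[p]) = A → (t : ℚ_[p]) = B → (A : ℝ) = B →
      PadicInt.toZMod s = PadicInt.toZMod t := by
    intro s t A B e1 e2 e3
    have : A = B := by exact_mod_cast e3
    rw [show s = t from Subtype.ext (by rw [e1, e2, this])]
  have n0 : Complex.normSq (pos y 0) = _ := normSq_emb m (1 - m * y 0) (y 1)
  have n1 : Complex.normSq (pos y 1) = _ := normSq_emb m (2 - m * y 2) (y 3)
  have n2 : Complex.normSq (pos y 2) = _ := normSq_emb m (6 - m * y 4) (y 5)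
  simp only [Nat.cast_one, Nat.cast_ofNat] at r0 r1 r2 r3 s0 s1 s2 s3
  have z3 : (3 : ZMod p) ≠ 0 := by simpa using zmod_smooth hp 0 1 0 0
  have z35 : (35 : ZMod p) ≠ 0 := by simpa using zmod_smooth hp 0 0 1 1
  have z32 : (32 : ZMod p) ≠ 0 := by simpa using zmod_smooth hp 5 0 0 0
  have z6 : (6 : ZMod p) ≠ 0 := by simpa using zmod_smooth hp 1 1 0 0
  have z9 : (9 : ZMod p) ≠ 0 := by simpa using zmod_smooth hp 0 2 0 0
  have nz : ∀ (t : ℤ_[p]) (A : ℚ) (w : ℂ), (t : ℚ_[p]) = A → Complex.normSq w = A →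
      PadicInt.toZMod t ≠ 0 → w ≠ 0 := by
    intro t A w e1 e2 e3 e4
    rw [e4, map_zero] at e2
    exact e3 (by rw [cmp t 0 A 0 e1 (by simp) (by simpa using e2.symm), map_zero])
  have h0 : ∀ k, pos y k ≠ 0 := by
    intro k
    fin_cases k
    · exact nz t0 _ _ r0 n0 (by rw [s0]; simp)
    · exact nz t1 _ _ r1 n1 (by rw [s1]; exact pow_ne_zero _ z2)
    · exact nz t2 _ _ r2 n2 (by rw [s2]; exact pow_ne_zero _ z6)
  have d01 : Complex.normSq (pos y 0) ≠ Complex.normSq (pos y 1) := fun h => z3 (by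
    have := cmp _ _ _ _ r0 r1 (n0.symm.trans (h.trans n1))
    rw [s0, s1] at this
    linear_combination -this)
  have d02 : Complex.normSq (pos y 0) ≠ Complex.normSq (pos y 2) := fun h => z35 (by
    have := cmp _ _ _ _ r0 r2 (n0.symm.trans (h.trans n2))
    rw [s0, s2] at this
    linear_combination -this)
  have d12 : Complex.normSq (pos y 1) ≠ Complex.normSq (pos y 2) := fun h => z32 (by
    have := cmp _ _ _ _ r1 r2 (n1.symm.trans (h.trans n2))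
    rw [s1, s2] at this
    linear_combination -this)
  have hN : Function.Injective fun k => Complex.normSq (pos y k) := by
    intro k k' h
    fin_cases k <;> fin_cases k' <;>
      first | rfl | exact absurd h d01 | exact absurd h d02 | exact absurd h d12
            | exact absurd h d01.symm | exact absurd h d02.symm | exact absurd h d12.symm
  have hw : ∑ k, pos y k ≠ 0 :=
    nz t3 _ _ r3 (by rw [hsum, normSq_emb]) (by rw [s3]; exact pow_ne_zero _ z9)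
  have hun : ∀ i, Complex.normSq (u i) = 1 := fun i => by simp only [hud, normSq_emb, hn, Rat.cast_one]
  have hu0 : ∀ i, u i ≠ 0 := fun i h => by simpa [h] using hun i
  have hS' : ∀ σ ∈ pos '' {y' | Inv ((m : ℤ) : ℚ) y y'},
      (∀ t, Complex.normSq (σ t) = Complex.normSq (pos y t)) ∧ ∑ t, σ t = ∑ t, pos y t := by
    rintro _ ⟨y', ⟨e1, e2, e3, e4, e5⟩, rfl⟩
    push_cast at e1 e2 e3
    refine ⟨fun t => ?_, by rw [hsum, hsum, e4, e5]⟩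
    fin_cases t
    · exact (normSq_emb m (1 - m * y' 0) (y' 1)).trans (by rw [e1]; exact n0.symm)
    · exact (normSq_emb m (2 - m * y' 2) (y' 3)).trans (by rw [e2]; exact n1.symm)
    · exact (normSq_emb m (6 - m * y' 4) (y' 5)).trans (by rw [e3]; exact n2.symm)
  obtain ⟨σ, hσ, hgood⟩ := exists_position u hu0 l (pos y) h0 hN hw _ (hinf.image hpi.injOn) hS'
  obtain ⟨hσ1, hσ2⟩ := hS' σ hσ
  have hK : ∀ t k, InK m (pos t k) := fun t k => by fin_cases k <;> exact ⟨_, _, rfl⟩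
  set r : Option (Fin 3) → ℂ := fun o => o.elim 1 fun k => σ k / pos y k with hrd
  have hr1 : ∀ o, Complex.normSq (r o) = 1 := by
    rintro (_ | k)
    · simp [hrd]
    · simp only [hrd, Option.elim, map_div₀, hσ1]
      exact div_self (by simpa using h0 k)
  have hrK : ∀ o, InK m (r o) := by
    rintro (_ | k)
    · exact ⟨1, 0, by apply Complex.ext <;> simp [hrd, emb]⟩
    · obtain ⟨y', -, rfl⟩ := hσ
      exact (hK y' k).mul (hK y k).inv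
  refine ⟨fun i => r (l i) * u i, ⟨fun i => (hrK _).mul ⟨_, _, rfl⟩, fun i => by
    rw [map_mul, hr1, hun, mul_one], ?_⟩, ?_⟩
  · have e0 : ∑ i, u i = 0 := by simp only [hud, sum_emb, ha, hb, emb_zero]
    have e1 : ∀ o, ∑ i ∈ univ.filter fun i => l i = o, r (l i) * u i =
        r o * ∑ i ∈ univ.filter fun i => l i = o, u i := fun o => by
      rw [mul_sum]
      exact sum_congr rfl fun i hi => by rw [(mem_filter.1 hi).2]
    rw [← sum_fiberwise univ l, Fintype.sum_option] at e0 ⊢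
    simp only [e1]
    simp only [hlT, hσ0] at e0 ⊢
    rw [← e0, ← hσ2]
    congr 1
    · simp [hrd]
    · exact sum_congr rfl fun k _ => div_mul_cancel₀ _ (h0 k)
  · refine card_lt_card ⟨fun q hq => ?_, fun h => ?_⟩
    · rw [mem_filter] at hq ⊢
      refine ⟨hq.1, ?_⟩
      have e : l q.1 = l q.2 := by
        by_contra h
        exact hgood _ _ h hq.2
      have := hq.2
      simp only [e] at this
      exact mul_left_cancel₀ (fun h => by simpa [h] using hr1 (l q.2)) this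
    · have := h (show (i0, j0) ∈ _ from mem_filter.2 ⟨mem_univ _, by simp only [hud, hab.1, hab.2]⟩)
      refine hgood i0 j0 ?_ (mem_filter.1 this).2
      have e : l j0 = none := by simp [hl, jz, j1, j2]
      rw [e]
      rcases hi with h | h
      · simp [hl, h]
      · have : i0 ≠ z := fun e => z1 (e ▸ h)
        simp [hl, h, this]

theorem step {ι : Type} [Fintype ι] {m : ℕ} (hp : 29 ≤ p) (hc : Fintype.card ι = p) (h1 : p ∣ m)
    (h2 : ¬ p ^ 2 ∣ m) (u : ι → ℂ) (hu : Conf m u) (hi : ¬ Function.Injective u) :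
    ∃ u' : ι → ℂ, Conf m u' ∧ coll u' < coll u := by
  classical
  have hp' : p.Prime := Fact.out
  have hm0 : m ≠ 0 := fun h => h2 (h ▸ dvd_zero _)
  obtain ⟨k1, k2, k3⟩ := hu
  choose a b hab using k1
  obtain rfl : u = fun i => emb m (a i) (b i) := funext hab
  have hn : ∀ i, a i ^ 2 + m * b i ^ 2 = 1 := fun i => by
    have := k2 i
    rw [normSq_emb] at this
    exact_mod_cast this
  rw [sum_emb, ← emb_zero m] at k3
  obtain ⟨ha, hb⟩ := emb_inj hm0 k3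
  choose α β hα hβ using fun i => lift_unit h1 h2 (hn i)
  obtain ⟨i0, j0, hij, hne⟩ := Function.not_injective_iff.1 hi
  have hmz : (m : ZMod p) = 0 := (ZMod.natCast_eq_zero_iff m p).2 h1
  have hs : ∀ i, PadicInt.toZMod (α i) = 1 ∨ PadicInt.toZMod (α i) = -1 := fun i => by
    have e : α i ^ 2 + m * β i ^ 2 = 1 := Subtype.ext (by
      push_cast [hα, hβ]
      exact_mod_cast hn i)
    have := congrArg PadicInt.toZMod e
    simpa [hmz] using this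
  have hsum : ∑ i, PadicInt.toZMod (α i) = 0 := by
    have e : ∑ i, α i = 0 := Subtype.ext (by
      push_cast [hα, PadicInt.coe_sum]
      exact_mod_cast ha)
    rw [← map_sum, e, map_zero]
  set W := univ.filter fun i => PadicInt.toZMod (α i) = 1 with hW
  have hWc : p ∣ W.card := by
    have e : ∑ i, (PadicInt.toZMod (α i) + 1) = ∑ i ∈ W, (2 : ZMod p) := by
      rw [hW, sum_filter]
      refine sum_congr rfl fun i _ => ?_
      split_ifs with h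
      · rw [h]; norm_num
      · rw [(hs i).resolve_left h]; simp
    rw [sum_add_distrib, hsum] at e
    simp only [sum_const, card_univ, hc, nsmul_eq_mul, CharP.cast_eq_zero, zero_mul, add_zero] at e
    have z2 : (2 : ZMod p) ≠ 0 := by simpa using zmod_smooth hp 1 0 0 0
    exact (ZMod.natCast_eq_zero_iff _ p).1 ((mul_eq_zero.1 e.symm).resolve_right z2)
  by_cases hW0 : W.card = 0
  · have hs' : ∀ i, PadicInt.toZMod (-α i) = 1 := fun i => by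
      have : PadicInt.toZMod (α i) ≠ 1 := fun h =>
        notMem_empty i (card_eq_zero.1 hW0 ▸ mem_filter.2 ⟨mem_univ i, h⟩)
      rw [map_neg, (hs i).resolve_left this, neg_neg]
    obtain ⟨u', k1, k2⟩ := step_pos hp hc h1 hm0 (fun i => -a i) b (fun i => -α i) β
      (fun i => by push_cast [hα]; rfl) hβ (fun i => by rw [neg_sq, hn]) (by rw [sum_neg_distrib, ha, neg_zero])
      hb hs' i0 j0 hne ⟨by rw [(emb_inj hm0 hij).1], (emb_inj hm0 hij).2⟩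
    refine ⟨u', k1, k2.trans_le (card_le_card fun q hq => ?_)⟩
    rw [mem_filter] at hq ⊢
    obtain ⟨e1, e2⟩ := emb_inj hm0 hq.2
    exact ⟨hq.1, by simp only [neg_injective e1, e2]⟩
  · have e : W = univ := eq_univ_of_card W (by
      have := Nat.le_of_dvd (Nat.pos_of_ne_zero hW0) hWc
      have := card_le_univ W
      omega)
    exact step_pos hp hc h1 hm0 a b α β hα hβ hn ha hb
      (fun i => (mem_filter.1 (e ▸ mem_univ i : i ∈ W)).2) i0 j0 hne (emb_inj hm0 hij)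

theorem exists_injective {ι : Type} [Fintype ι] {m : ℕ} (hp : 29 ≤ p) (hc : Fintype.card ι = p)
    (h1 : p ∣ m) (h2 : ¬ p ^ 2 ∣ m) (n : ℕ) : ∀ u : ι → ℂ, Conf m u → coll u = n →
    ∃ u' : ι → ℂ, Conf m u' ∧ Function.Injective u' := by
  induction n using Nat.strong_induction_on with
  | _ n ih =>
    intro u hu hn
    by_cases hi : Function.Injective u
    · exact ⟨u, hu, hi⟩
    · obtain ⟨u', k1, k2⟩ := step hp hc h1 h2 u hu hi
      exact ih _ (hn ▸ k2) u' k1 rfl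

/-- From a closed equilateral walk to a convex equilateral polygon. -/
theorem hasGon_of_walk {m : ℕ} (hp : 29 ≤ p) (h1 : p ∣ m) (h2 : ¬ p ^ 2 ∣ m) (e : Fin p → ℂ)
    (hK : ∀ i, InK m (e i)) (r : ℝ) (hr : r ≠ 0) (he : ∀ i, Complex.normSq (e i) = r)
    (hs : ∑ i, e i = 0) : HasGon m p := by
  have i0 : Fin p := ⟨0, by omega⟩
  have h0 : e i0 ≠ 0 := fun h => hr (by rw [← he i0, h, map_zero])
  obtain ⟨u, ⟨k1, k2, k3⟩, k4⟩ := exists_injective hp (Fintype.card_fin p) h1 h2 _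
    (fun i => e i * (e i0)⁻¹) ⟨fun i => (hK i).mul (hK i0).inv, fun i => by
      rw [map_mul, map_inv₀, he, he, mul_inv_cancel₀ hr], by rw [← sum_mul, hs, zero_mul]⟩ rfl
  choose a b hab using k1
  set D : ℕ := ∏ i, (a i).den * (b i).den with hD
  have hD0 : 0 < D := prod_pos fun i _ => Nat.mul_pos (a i).den_pos (b i).den_pos
  have hDc : (D : ℂ) ≠ 0 := by exact_mod_cast hD0.ne'
  have int : ∀ q : ℚ, q.den ∣ D → ∃ z : ℤ, (D : ℝ) * q = z := by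
    rintro q ⟨c, hc⟩
    refine ⟨c * q.num, ?_⟩
    have : (D : ℚ) * q = c * q.num := by
      rw [hc, ← Rat.mul_den_eq_num q]; push_cast; ring
    exact_mod_cast this
  refine hasGon_of_vectors m p (by omega) (fun i => D * u i) D (by exact_mod_cast hD0) (fun i => ?_)
    (fun i j h => k4 (mul_left_cancel₀ hDc h)) (by rw [← mul_sum, k3, mul_zero]) fun i => ?_
  · have : ‖u i‖ = 1 := by
      have := k2 i
      rw [Complex.normSq_eq_norm_sq] at this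
      exact (pow_eq_one_iff_of_nonneg (norm_nonneg _) two_ne_zero).1 this
    simp [this]
  · have hd : (a i).den * (b i).den ∣ D := dvd_prod_of_mem _ (mem_univ i)
    obtain ⟨z1, e1⟩ := int (a i) ((dvd_mul_right _ _).trans hd)
    obtain ⟨z2, e2⟩ := int (b i) ((dvd_mul_left _ _).trans hd)
    exact ⟨z1, z2, by simp [hab, emb, ← e1], by simp [hab, emb, ← e2, mul_assoc]⟩

end Pool.Agent.P.MP_b75a1e_co
end
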