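import Pool.Agent.K.MP_b75a1e_co.C4
import Pool.Agent.K.MP_b75a1e_co.C3
import Pool.Agent.K.MP_b75a1e_co.C2

set_option autoImplicit false

open Finset
open scoped BigOperators ComplexConjugate

namespace Pool.Agent.P.MP_b75a1e_co.EG

theorem hasGon_of_rep {m p : ℕ} (hp : p.Prime) (h29 : 29 ≤ p) (h1 : p ∣ m) (hsq : Squarefree m) {N : ℝ}
    (hN : N ≠ 0) (h : Rep m N p 0) : HasGon m p := by
  obtain ⟨L, hc, hL, hs⟩ := h
  have := Fact.mk hp
  obtain ⟨l, rfl⟩ : ∃ l : List ℂ, L = (l : Multiset ℂ) := ⟨L.toList, (Multiset.coe_toList L).symm⟩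
  have hl : l.length = p := by simpa using hc
  subst hl
  have h2 : ¬ l.length ^ 2 ∣ m := fun h => hp.prime.not_isUnit (hsq _ (by rwa [← sq]))
  have mem : ∀ i : Fin l.length, l.get i ∈ (l : Multiset ℂ) := fun i =>
    Multiset.mem_coe.2 (List.get_mem l i)
  refine hasGon_of_walk h29 h1 h2 (fun i => l.get i) (fun i => ?_) N hN (fun i => ?_) ?_
  · obtain ⟨⟨x, n, hn, hx⟩, _⟩ := hL _ (mem i)
    refine ⟨x.re / n, x.im / n, ?_⟩
    rw [hx]
    apply Complex.ext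
    · simp [emb, Complex.div_natCast_re, ph_re]
    · simp only [emb, Complex.div_natCast_im, ph_im]
      push_cast
      ring
  · rw [Complex.normSq_eq_norm_sq]
    exact (hL _ (mem i)).2
  · rw [← hs, Multiset.sum_coe]
    simp

theorem m_le_four_pow {m p : ℕ} (hsq : Squarefree m) (hmax : ∀ q, q.Prime → q ∣ m → q ≤ p) :
    m ≤ 4 ^ p :=
  (Nat.le_of_dvd (primorial_pos p) (m_dvd_primorial hsq hmax)).trans (primorial_le_four_pow p)

theorem pow_le_two_pow_EGCore (p a : ℕ) : p ^ a ≤ 2 ^ (a * p) := by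
  rw [mul_comm, pow_mul]
  exact Nat.pow_le_pow_left Nat.lt_two_pow_self.le a

/-- Small quantities are below the first scale. -/
theorem small_EGCore {m p s J : ℕ} (hp : 10 ^ 20 ≤ p) (hmp : m ≤ 4 ^ p) (hs : s ≤ p ^ 2)
    (hJ : J + 1 ≤ p) :
    10 ^ 4 * s ^ 2 * m ≤ 2 ^ p ^ 4 ∧ 100 * m ^ 3 ≤ 2 ^ p ^ 4 ∧ 400 * p ^ 2 ≤ 2 ^ p ^ 4 ∧
      10 * (J + 1) ≤ 2 ^ p ^ 4 := by
  have h4 : (4 : ℕ) ^ p = 2 ^ (2 * p) := by rw [pow_mul]; norm_num
  have hp4 : 20 * p ≤ p ^ 4 := by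
    calc 20 * p ≤ p ^ 3 * p := by
          apply Nat.mul_le_mul_right
          calc 20 ≤ p := by omega
            _ ≤ p ^ 3 := Nat.le_self_pow (by norm_num) p
      _ = p ^ 4 := by ring
  have up : ∀ k, k ≤ 20 * p → 2 ^ k ≤ 2 ^ p ^ 4 := fun k hk =>
    Nat.pow_le_pow_right (by norm_num) (hk.trans hp4)
  have c1 : (10 : ℕ) ^ 4 ≤ 2 ^ p := le_trans (by omega) Nat.lt_two_pow_self.le
  have c2 : p ≤ 2 ^ p := Nat.lt_two_pow_self.le
  refine ⟨?_, ?_, ?_, ?_⟩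
  · calc 10 ^ 4 * s ^ 2 * m ≤ 2 ^ p * 2 ^ (4 * p) * 2 ^ (2 * p) := by
          apply Nat.mul_le_mul (Nat.mul_le_mul c1 _) (h4 ▸ hmp)
          calc s ^ 2 ≤ (p ^ 2) ^ 2 := Nat.pow_le_pow_left hs 2
            _ = p ^ 4 := by ring
            _ ≤ _ := pow_le_two_pow_EGCore p 4
      _ = 2 ^ (7 * p) := by rw [← pow_add, ← pow_add]; congr 1; ring
      _ ≤ _ := up _ (by omega)
  · calc 100 * m ^ 3 ≤ 2 ^ p * (2 ^ (2 * p)) ^ 3 :=
          Nat.mul_le_mul (le_trans (by norm_num) c1) (Nat.pow_le_pow_left (h4 ▸ hmp) 3)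
      _ = 2 ^ (7 * p) := by rw [← pow_mul, ← pow_add]; congr 1; ring
      _ ≤ _ := up _ (by omega)
  · calc 400 * p ^ 2 ≤ 2 ^ p * 2 ^ (2 * p) :=
          Nat.mul_le_mul (le_trans (by norm_num) c1) (pow_le_two_pow_EGCore p 2)
      _ = 2 ^ (3 * p) := by rw [← pow_add]; congr 1; ring
      _ ≤ _ := up _ (by omega)
  · calc 10 * (J + 1) ≤ 2 ^ p * 2 ^ p := Nat.mul_le_mul (le_trans (by norm_num) c1) (hJ.trans c2)
      _ = 2 ^ (2 * p) := by rw [← pow_add]; congr 1; ring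
      _ ≤ _ := up _ (by omega)

theorem eps_EGCore {m p : ℕ} (hp : 10 ^ 20 ≤ p) {H : ℝ} (hH0 : 0 ≤ H) (hH : H ≤ 2 ^ p ^ 5) :
    10 * p * (1 / 2 ^ p ^ 17 : ℝ) * (QQ m (p ^ 15) : ℝ) ^ 2 * (p : ℝ) ^ 2 * H ^ 5 ≤ 1 / 10 ^ 9 := by
  have c2 : p ≤ 2 ^ p := Nat.lt_two_pow_self.le
  have hQ : QQ m (p ^ 15) ≤ 2 ^ (10 + 2 * p ^ 15) := by
    refine (QQ_le m _).trans ?_
    rw [pow_add, pow_mul]
    exact Nat.mul_le_mul (by norm_num) (by norm_num)
  have e1 : p ≤ p ^ 15 := Nat.le_self_pow (by norm_num) p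
  have e2 : p ^ 5 ≤ p ^ 15 := Nat.pow_le_pow_right (by omega) (by norm_num)
  have e3 : 100 * p ^ 15 ≤ p ^ 17 := by
    calc 100 * p ^ 15 ≤ p ^ 2 * p ^ 15 := by
          apply Nat.mul_le_mul_right
          calc 100 ≤ p := by omega
            _ ≤ p ^ 2 := Nat.le_self_pow (by norm_num) p
      _ = p ^ 17 := by ring
  have key : 10 ^ 10 * p ^ 3 * QQ m (p ^ 15) ^ 2 * (2 ^ p ^ 5) ^ 5 ≤ 2 ^ p ^ 17 := by
    calc 10 ^ 10 * p ^ 3 * QQ m (p ^ 15) ^ 2 * (2 ^ p ^ 5) ^ 5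
        ≤ 2 ^ p * 2 ^ (3 * p) * (2 ^ (10 + 2 * p ^ 15)) ^ 2 * (2 ^ p ^ 5) ^ 5 := by
          apply Nat.mul_le_mul_right
          exact Nat.mul_le_mul (Nat.mul_le_mul (le_trans (by omega) c2) (pow_le_two_pow_EGCore p 3))
            (Nat.pow_le_pow_left hQ 2)
      _ = 2 ^ (p + 3 * p + (10 + 2 * p ^ 15) * 2 + p ^ 5 * 5) := by
          rw [← pow_mul, ← pow_mul, ← pow_add, ← pow_add, ← pow_add]
      _ ≤ _ := Nat.pow_le_pow_right (by norm_num) (by omega)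
  have key' : (10 : ℝ) ^ 10 * (p : ℝ) ^ 3 * (QQ m (p ^ 15) : ℝ) ^ 2 * (2 ^ p ^ 5) ^ 5 ≤ 2 ^ p ^ 17 := by
    exact_mod_cast key
  have h5 : H ^ 5 ≤ (2 ^ p ^ 5) ^ 5 := pow_le_pow_left₀ hH0 hH 5
  have hpos : (0 : ℝ) < 2 ^ p ^ 17 := by positivity
  have h6 : (10 : ℝ) ^ 10 * (p : ℝ) ^ 3 * (QQ m (p ^ 15) : ℝ) ^ 2 * H ^ 5 ≤ 2 ^ p ^ 17 :=
    le_trans (mul_le_mul_of_nonneg_left h5 (by positivity)) key'
  generalize (2 : ℝ) ^ p ^ 17 = T at hpos h6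
  rw [le_div_iff₀ (by positivity)]
  calc 10 * p * (1 / T) * (QQ m (p ^ 15) : ℝ) ^ 2 * (p : ℝ) ^ 2 * H ^ 5 * 10 ^ 9
      = ((10 : ℝ) ^ 10 * (p : ℝ) ^ 3 * (QQ m (p ^ 15) : ℝ) ^ 2 * H ^ 5) / T := by ring
    _ ≤ 1 := by rwa [div_le_one hpos]

theorem count_EGCore {p κ lp : ℕ} (hlp : 1 ≤ lp) (hκ1 : 20 * lp ≤ κ) (hκ2 : 10 ^ 15 * κ ^ 2 * lp ≤ p) :
    16 * ((216 * lp + 1) * 600 * (8964 * κ) ^ 2 + 2 + 60000) ≤ p ∧ κ ^ 2 ≤ p ∧ 8964 * κ ≤ p ^ 2 ∧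
      216 * lp + 1 ≤ p := by
  have h1 : 1 ≤ κ := by omega
  have h2 : 1 ≤ κ ^ 2 := Nat.one_le_pow _ _ h1
  have h3 : κ ≤ κ ^ 2 := Nat.le_self_pow (by norm_num) κ
  have h4 : κ ^ 2 ≤ κ ^ 2 * lp := Nat.le_mul_of_pos_right _ hlp
  have h5 : lp ≤ κ ^ 2 * lp := Nat.le_mul_of_pos_left _ h2
  have h6 : p ≤ p ^ 2 := Nat.le_self_pow (by norm_num) p
  have e : (216 * lp + 1) * 600 * (8964 * κ) ^ 2 =
      600 * 8964 ^ 2 * (216 * (κ ^ 2 * lp) + κ ^ 2) := by ring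
  have e2 : 10 ^ 15 * κ ^ 2 * lp = 10 ^ 15 * (κ ^ 2 * lp) := by ring
  rw [e]
  rw [e2] at hκ2
  generalize κ ^ 2 * lp = X at *
  generalize κ ^ 2 = K at *
  omega

/-- The core theorem: enough split primes of one size give the polygon. -/
theorem core (m p κ lp : ℕ) (hsq : Squarefree m) (h4 : m % 4 = 3) (hp : p.Prime) (hpm : p ∣ m)
    (hmax : ∀ q, q.Prime → q ∣ m → q ≤ p) (hp0 : 10 ^ 20 ≤ p) (hlp : p < 2 ^ lp) (hlp2 : 2 ^ lp ≤ 2 * p)
    (hκ1 : 20 * lp ≤ κ) (hκ2 : 10 ^ 15 * κ ^ 2 * lp ≤ p) (PP : Finset ℕ)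
    (hPP : ∀ l ∈ PP, Split m l ∧ 2 ^ (990 * κ) < l ∧ l ≤ 2 ^ (1001 * κ))
    (hc : 2 ^ (998 * κ) ≤ PP.card) : HasGon m p := by
  classical
  have hm2 : 2 ≤ m := by omega
  have hm : 1 ≤ m := by omega
  have hmodd : m % 2 = 1 := by omega
  have hmp := m_le_four_pow hsq hmax
  have hlp1 : 1 ≤ lp := by
    rcases Nat.eq_zero_or_pos lp with h | h
    · subst h; omega
    · exact h
  have hpodd : p % 2 = 1 := hp.eq_two_or_odd.resolve_left (by omega)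
  obtain ⟨hn, hκ3, hs2, hJ⟩ := count_EGCore hlp1 hκ1 hκ2
  obtain ⟨lam, e, U, D, hD1, hD2, hD3, hj, hch, hH, htop⟩ :=
    tower m p κ lp hm2 hmp hp0 hlp hlp2 hκ1 hκ3 PP hPP hc
  set J := 216 * lp with hJd
  set s := 8964 * κ with hsd
  set n1 := (J + 1) * 600 * s ^ 2 + 2 with hn1
  have hpY : p ≤ p ^ 15 := Nat.le_self_pow (by norm_num) p
  have hsm : Smo (p ^ 15) m := fun q hq h => (hmax q hq h).trans hpY
  have hD4 : ∀ l ∈ D, l.Prime ∧ p ^ 60 ≤ l := fun l hl => by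
    obtain ⟨h1, h2, _⟩ := hPP l (hD1 hl)
    refine ⟨h1.1, le_trans ?_ h2.le⟩
    calc p ^ 60 ≤ (2 ^ lp) ^ 60 := Nat.pow_le_pow_left hlp.le 60
      _ = 2 ^ (lp * 60) := by rw [← pow_mul]
      _ ≤ _ := Nat.pow_le_pow_right (by norm_num) (by omega)
  obtain ⟨zg, R, c1, c2, c3, c4, c5, c6, c7, c8, c9⟩ :=
    coords m p (n1 + 60000) hsq h4 hmax hmp hp0 hpodd hn (e J) D hD4 hD2 hD3
  have lam1 : ∀ j ≤ J, (1 : ℝ) ≤ lam j := fun j h => le_trans (one_le_pow₀ (by norm_num)) (hj j h).2.1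
  have hH1 : (1 : ℝ) ≤ lam 0 ^ 121 := one_le_pow₀ (lam1 0 (Nat.zero_le _))
  obtain ⟨z, m1, m2, m3, m4, m5, m6, m7, m8⟩ :=
    random_mid m p hm hmax hmp hp0 (lam 0 ^ 121) hH _ c2 c3 c4
  obtain ⟨zI, zII, NN0, Mg, l1, l2, l3, l4, l5, l6, l7, l8, l9, l10, l11, l12⟩ :=
    random_lift m p hm hmax hmp hp0 (lam 0 ^ 121) hH1 hH _ (c1.mul m4) m1 m2 m3
  set C := midC z * (base zI * base zII) with hC
  set G2 := e J ^ 2 * R * C with hG2
  have hG : star zg * (e J ^ 2 * R) * midC z * (base zI * base zII) = star zg * G2 := by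
    rw [hG2, hC]; ring
  rw [hG] at l1 l2 l3
  have hC1 : (M1 m (p ^ 15) : O m) ∣ C - 1 := by
    have : C - 1 = (midC z - 1) * (base zI * base zII) + (base zI * base zII - 1) := by
      rw [hC]; ring
    rw [this]
    exact dvd_add (m4.mul_right _) l4
  obtain ⟨S, s1, s2, s3, s4⟩ := c9 C hC1
  have hQ1 := QQ_pos m (p ^ 15)
  have hp1 : (1 : ℝ) ≤ p := by exact_mod_cast (by omega : 1 ≤ p)
  have hNN0 : 0 < NN0 := lt_of_lt_of_le (by
    have : (1 : ℝ) ≤ QQ m (p ^ 15) := by exact_mod_cast hQ1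
    positivity) l11
  have hf : ∀ j, ∃ f : O m, j ≤ J → e J = e j * f := fun j => by
    by_cases h : j ≤ J
    · obtain ⟨f, hf⟩ := (hj j h).2.2.1
      exact ⟨f, fun _ => hf⟩
    · exact ⟨0, fun h' => absurd h' h⟩
  choose f hf using hf
  set g : ℕ → O m := fun j => if j = J then R * C else f j ^ 2 * R * C with hg
  have hge : ∀ j ≤ J, g j * e j ^ 2 = G2 := fun j h => by
    by_cases hjJ : j = J
    · simp only [hg, hjJ, if_true, hG2]; ring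
    · simp only [hg, hjJ, if_false, hG2]; rw [hf j h]; ring
  have hUne : ∀ j : Fin (J + 1), Nonempty (U j) := fun j => by
    have h1 := (hj j (Nat.lt_succ_iff.1 j.2)).2.2.2.1
    have h2 : (1 : ℝ) ≤ lam j ^ 99 := one_le_pow₀ (lam1 j (Nat.lt_succ_iff.1 j.2))
    have h3 : 0 < (U j).card := by exact_mod_cast lt_of_lt_of_le one_pos (h2.trans h1)
    obtain ⟨u, hu⟩ := card_pos.1 h3
    exact ⟨⟨u, hu⟩⟩
  have : Nonempty (OmB J U) := ⟨fun j _ => ((hUne j).some, (hUne j).some)⟩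
  have hΓp : e J ^ 2 * R * midC z * (base zI * base zII) = G2 := by rw [hG2, hC]; ring
  have hΓm : e J ^ 2 * R * (base zI * base zII) * midC z = G2 := by rw [hG2, hC]; ring
  have psum := psi_sum J s g e U (e J ^ 2 * R * midC z) zI zII (fun j h => by rw [hΓp]; exact hge j h)
    (fun j h => (hj j h).2.2.2.2) l6 l7
  rw [hΓp] at psum
  have hη : (0 : ℝ) ≤ 1 / (2 * (p : ℝ) ^ 6 * 2 ^ p ^ 17) := by positivity
  have msum := mid_sum (e J ^ 2 * R * (base zI * base zII)) ((QQ m (p ^ 15) : O m) * mu m) z _ hη m6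
  rw [hΓm] at msum
  have hηe : 2 * ((p ^ 6 : ℕ) : ℝ) * (1 / (2 * (p : ℝ) ^ 6 * 2 ^ p ^ 17)) = 1 / 2 ^ p ^ 17 := by
    push_cast
    field_simp
  rw [hηe] at msum
  obtain ⟨b1, b2, b3, b4⟩ := small_EGCore hp0 hmp hs2 hJ
  have hs1 : (1 : ℝ) ≤ s := by exact_mod_cast (by omega : 1 ≤ s)
  have hnorm : ∀ j ≤ J, ((star zg * g j).norm : ℝ) * lam j ^ 200 = (star zg * G2).norm := fun j h => by
    rw [← hge j h, ← mul_assoc, Zsqrtd.norm_mul (star zg * g j), norm_pow']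
    push_cast
    rw [(hj j h).1]
    ring
  have hminor := minor m p J Mg hm (by omega) lam (fun j => star zg * g j) U s NN0 hs1 hNN0 l10
    (fun j h => by
      have hl := (hj j h).2.1
      refine ⟨?_, by rw [hnorm j h]; exact l2, by rw [hnorm j h]; exact l3, ?_, ?_, ?_, ?_, ?_,
        (hj j h).2.2.2.1⟩
      · have h1 : star zg * g j ∣ star zg * G2 := ⟨e j ^ 2, by rw [← hge j h]; ring⟩
        exact (l1.of_isCoprime_of_dvd_left h1).of_isCoprime_of_dvd_right (dvd_star h1)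
      · exact le_trans (by exact_mod_cast b1) hl
      · exact le_trans (by exact_mod_cast b2) hl
      · exact le_trans (by exact_mod_cast b3) hl
      · exact le_trans (by exact_mod_cast b4) hl
      · exact fun u hu => ((hj j h).2.2.2.2 u hu).norm_le (le_trans zero_le_one (lam1 j h)) (hj j h).1)
    hch (by
      have h1 : star zg * g J = star zg * R * (midC z * (base zI * base zII)) := by
        simp only [hg, if_true, hC]; ring
      have h2 : (star zg * g J).norm ≤ 2 ^ p ^ 21 * (2 ^ p ^ 25 * 2 ^ p ^ 25) := by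
        rw [h1, Zsqrtd.norm_mul (star zg * R), Zsqrtd.norm_mul (midC z)]
        exact mul_le_mul c5 (mul_le_mul m5 l5 (norm_nonneg' _) (by positivity))
          (mul_nonneg (norm_nonneg' _) (norm_nonneg' _)) (by positivity)
      have e1 : p ^ 21 ≤ p ^ 25 := Nat.pow_le_pow_right (by omega) (by norm_num)
      have e2 : 3 * p ^ 25 ≤ p ^ 28 := by
        calc 3 * p ^ 25 ≤ p ^ 3 * p ^ 25 := by
              apply Nat.mul_le_mul_right
              calc 3 ≤ p := by omega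
                _ ≤ p ^ 3 := Nat.le_self_pow (by norm_num) p
          _ = p ^ 28 := by ring
      have h3 : (2 : ℤ) ^ p ^ 21 * (2 ^ p ^ 25 * 2 ^ p ^ 25) ≤ 2 ^ p ^ 28 := by
        rw [← pow_add, ← pow_add]
        exact pow_le_pow_right₀ (by norm_num) (by omega)
      have h5 : ((star zg * g J).norm : ℝ) ≤ 2 ^ p ^ 28 := by exact_mod_cast h2.trans h3
      calc ((star zg * g J).norm : ℝ) ≤ lam J := h5.trans htop
        _ ≤ lam J ^ 50 := le_self_pow₀ (lam1 J le_rfl) (by norm_num))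
  have hrep := endgame m p (p ^ 15) (QQ m (p ^ 15)) Mg n1 60000 (p - 4 * (n1 + 60000)) (lam 0 ^ 121) NN0
    (1 / 2 ^ p ^ 17) (Ω := OmP J (p ^ 6) U) (Ω' := OmM (p ^ 6) × OmM (p ^ 6)) zg G2 S
    (fun ω => psiA J g U (e J ^ 2 * R * midC z) zI zII ω.1.1 ω.2.1.1 ω.2.2)
    (fun ω => psiA J g U (e J ^ 2 * R * midC z) zI zII ω.1.2 ω.2.1.2 ω.2.2)
    (fun ω => midY (e J ^ 2 * R * (base zI * base zII)) z ω.1)
    (fun ω => midY (e J ^ 2 * R * (base zI * base zII)) z ω.2) (WW z) hm (by omega) hQ1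
    (coprime_QQ hmodd _) l8 hH1 l9 l10 l11 (by positivity)
    (eps_EGCore hp0 (le_trans zero_le_one hH1) hH) (by omega) l3 c6 c7 c8
    (fun ω => psum _ _ _) (fun ω => psum _ _ _) (fun ω => msum _) (fun ω => msum _) ⟨s1, s2, s3, s4⟩
    (le_trans (sum_le_sum fun n _ => (psi_ch J g U (star zg) _ zI zII _).1) hminor)
    (le_trans (sum_le_sum fun n _ => by
      have := (psi_ch J g U (star zg) (e J ^ 2 * R * midC z) zI zII (gp m Mg n)).2
      rwa [← mul_assoc (star zg)] at this) l12)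
    (fun d β h1 _ h3 h5 => by
      have hΓ : star zg * (e J ^ 2 * R * (base zI * base zII)) * midC z = star zg * G2 := by
        rw [← hΓm]; ring
      have := mid_bound m (p ^ 15) (p ^ 6) d hm (by omega) hsm
        (star zg * (e J ^ 2 * R * (base zI * base zII))) z (by rw [hΓ]; exact l1)
        (fun b a i => (Dvd.intro_left _ rfl).trans (m6 b a i).1) m7 h1 h3 β h5
      rw [hΓ] at this
      simp only [midY_mul]
      exact_mod_cast this)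
    (WW_nonneg z) m8
  refine hasGon_of_rep hp (by omega) hpm hsq ?_ hrep
  exact (lt_of_lt_of_le hNN0 l2).ne'

end Pool.Agent.P.MP_b75a1e_co.EG
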