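import Pool.Agent.K.MP_b75a1e_co.C4

set_option autoImplicit false

open Finset
open scoped BigOperators ComplexConjugate

namespace Pool.Agent.P.MP_b75a1e_co.EG

lemma musq_FLPoint (m : ℕ) : mu m * mu m = -(m : O m) ^ 3 := by
  rw [mu_eq]; linear_combination (m : O m) ^ 2 * rt_sq (m := m)

lemma small_FLPoint {m : ℕ} {β : O m} {d f n : ℕ} (hβ : PrimAt β d) (hn : 1 ≤ n) (hm : 1 ≤ m)
    (h1 : f ∣ d * m ^ 3) (h2 : (f : O m) ∣ β * n) : f ≤ m ^ 3 * n := by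
  obtain ⟨f', n', hc, hf, hn'⟩ := Nat.exists_coprime f n
  have hc0 : 0 < Nat.gcd f n := Nat.gcd_pos_of_pos_right _ hn
  have hle : Nat.gcd f n ≤ n := Nat.gcd_le_right _ hn
  generalize Nat.gcd f n = c at hf hn' hc0 hle
  have key : ∀ z : ℤ, (f : ℤ) ∣ z * n → (f' : ℤ) ∣ z := fun z hz => by
    rw [hf, hn', Nat.cast_mul, Nat.cast_mul, ← mul_assoc] at hz
    exact (Nat.isCoprime_iff_coprime.2 hc).dvd_of_dvd_mul_right
      ((mul_dvd_mul_iff_right (by exact_mod_cast hc0.ne')).1 hz)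
  obtain ⟨h3, h4⟩ := (nat_dvd_iff _ _).1 h2
  have h5 : (f' : O m) ∣ β := (nat_dvd_iff _ _).2 ⟨key _ (by simpa using h3), key _ (by simpa using h4)⟩
  have h6 : Nat.Coprime f' d := Nat.coprime_of_dvd fun l hl a b =>
    hβ l hl b ((Nat.cast_dvd_cast a).trans h5)
  have h7 : f' ∣ m ^ 3 := h6.dvd_of_dvd_mul_left ((Dvd.intro _ hf.symm).trans h1)
  rw [hf]
  exact Nat.mul_le_mul (Nat.le_of_dvd (by positivity) h7) hle

lemma dec_FLPoint {m : ℕ} (hm : 1 ≤ m) (β g : O m) {d : ℕ} (hd : 1 ≤ d) (η : ℂ) :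
    (ph m β / d + η) / ph m (mu m) * ph m g =
      ph m (-(β * g * mu m)) / (d * m ^ 3 : ℕ) + η / ph m (mu m) * ph m g := by
  have h0 := ph_ne_zero hm (mu_ne_zero hm)
  have h1 := congrArg (ph m) (musq_FLPoint m)
  rw [map_mul, map_neg, map_pow, map_natCast] at h1
  have h2 : (d : ℂ) ≠ 0 := by exact_mod_cast (by omega : d ≠ 0)
  have h3 : (m : ℂ) ≠ 0 := by exact_mod_cast (by omega : m ≠ 0)
  simp only [map_neg, map_mul]
  push_cast
  field_simp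
  linear_combination ph m β * ph m g * h1

lemma nrm_FLPoint {m : ℕ} (hm : 1 ≤ m) (g : O m) (η : ℂ) :
    ‖η / ph m (mu m) * ph m g‖ ^ 2 * (m : ℝ) ^ 3 = ‖η‖ ^ 2 * g.norm := by
  have h3 : (m : ℝ) ≠ 0 := by exact_mod_cast (by omega : m ≠ 0)
  rw [norm_mul, norm_div, mul_pow, div_pow, norm_sq_ph, norm_sq_ph, norm_mu]
  push_cast
  field_simp

lemma low_FLPoint {m : ℕ} (hm : 1 ≤ m) {g : O m} (hg : g ≠ 0) {θ : ℂ} {A B X Y : ℝ}
    (hA : (m : ℝ) ^ 3 * g.norm * A ≤ B) (hX : X ≤ g.norm * Y)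
    (h : Low m (θ / ph m (mu m) * ph m g) A Y) : Low m θ B X := by
  obtain ⟨w, a, hw, h1, h2⟩ := h
  have hm' : (1 : ℝ) ≤ (m : ℝ) ^ 3 := one_le_pow₀ (by exact_mod_cast hm)
  have hG : (0 : ℝ) ≤ g.norm := by exact_mod_cast norm_nonneg' g
  have hw' : (0 : ℝ) ≤ w.norm := by exact_mod_cast norm_nonneg' w
  have h0 := ph_ne_zero hm (mu_ne_zero hm)
  refine ⟨g * w, mu m * a, fun h => hw (o_cancel hm hg (by rw [h, mul_zero])), ?_, ?_⟩
  · rw [Zsqrtd.norm_mul, Int.cast_mul]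
    calc (g.norm : ℝ) * w.norm ≤ 1 * (g.norm * A) := by rw [one_mul]; gcongr
      _ ≤ (m : ℝ) ^ 3 * (g.norm * A) := by
        have : 0 ≤ (g.norm : ℝ) * A := mul_nonneg hG (hw'.trans h1)
        gcongr
      _ ≤ B := by rwa [← mul_assoc]
  · have e : θ * ph m (g * w) - ph m (mu m * a) =
        ph m (mu m) * (θ / ph m (mu m) * ph m g * ph m w - ph m a) := by
      simp only [map_mul]; field_simp
    rw [e, norm_mul, mul_pow, norm_sq_ph, norm_mu]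
    push_cast
    calc _ ≤ (m : ℝ) ^ 3 * ‖θ / ph m (mu m) * ph m g * ph m w - ph m a‖ ^ 2 * (g.norm * Y) := by
          gcongr
      _ = (m : ℝ) ^ 3 * g.norm * (‖θ / ph m (mu m) * ph m g * ph m w - ph m a‖ ^ 2 * Y) := by ring
      _ ≤ (m : ℝ) ^ 3 * g.norm * A := by gcongr
      _ ≤ B := hA

lemma nb_FLPoint {x d : ℝ} (hx : 0 ≤ x) (hd : 0 < d) (h : x ≤ d ^ (-1 / 600 : ℝ)) :
    x ^ 3600 ≤ 1 / d ^ 6 := by
  refine (pow_le_pow_left₀ hx h _).trans (le_of_eq ?_)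
  rw [← Real.rpow_natCast, ← Real.rpow_mul hd.le, one_div, ← Real.rpow_natCast,
    ← Real.rpow_neg hd.le]
  congr 1
  norm_num

lemma wb_FLPoint {x T t k : ℝ} (hx : 0 ≤ x) (hk : 5 ≤ k) (hT : k ^ 1000 ≤ T) (ht : 0 < t)
    (h1 : t ≤ T ^ 2 * k ^ 3) (h : x ≤ 5 * T ^ (-1 / 25 : ℝ)) : x ^ 360 ≤ 1 / t ^ 6 := by
  have hk1 : 1 ≤ k := by linarith
  have hT1 : 1 ≤ T := (one_le_pow₀ hk1).trans hT
  have hT0 : 0 < T := by linarith
  have e1 : (T ^ (-1 / 25 : ℝ)) ^ 360 ≤ 1 / T ^ 14 := by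
    rw [← Real.rpow_natCast, ← Real.rpow_mul hT0.le, one_div, ← Real.rpow_natCast,
      ← Real.rpow_neg hT0.le]
    exact Real.rpow_le_rpow_of_exponent_le hT1 (by norm_num)
  have e2 : (5 : ℝ) ^ 360 ≤ k ^ 360 := pow_le_pow_left₀ (by norm_num) hk _
  have e3 : t ^ 6 ≤ T ^ 12 * k ^ 18 := by
    refine (pow_le_pow_left₀ ht.le h1 6).trans (le_of_eq ?_)
    rw [mul_pow, ← pow_mul, ← pow_mul]
  have e4 : k ^ 360 * k ^ 18 ≤ T ^ 2 := by
    rw [← pow_add]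
    refine ((pow_le_pow_right₀ hk1 (by norm_num)).trans hT).trans ?_
    exact le_self_pow₀ hT1 (by norm_num)
  refine (pow_le_pow_left₀ hx h _).trans ?_
  rw [mul_pow]
  refine (mul_le_mul e2 e1 (by positivity) (by positivity)).trans ?_
  rw [mul_one_div, div_le_div_iff₀ (by positivity) (by positivity), one_mul]
  have hk0 : 0 ≤ k ^ 360 := by positivity
  generalize k ^ 360 = c at e4 hk0 ⊢
  calc c * t ^ 6 ≤ c * (T ^ 12 * k ^ 18) := by gcongr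
    _ = T ^ 12 * (c * k ^ 18) := by ring
    _ ≤ T ^ 12 * T ^ 2 := by gcongr
    _ = T ^ 14 := by ring

/-- The pointwise bound away from the major arcs. -/
theorem point {m s y : ℕ} {k ν : ℝ} (hP : Par m s y k ν) (e g : O m) (NN0 H : ℝ)
    (he : (e.norm : ℝ) = ν ^ 2000) (hg : IsCoprime (g * e) (star (g * e)))
    (hgn : (g.norm : ℝ) ^ 10 ≤ ν) (h0 : 0 < NN0) (h1 : NN0 ≤ (g * e).norm)
    (h2 : ((g * e).norm : ℝ) ≤ 2 * NN0) (hH : k ^ 8000 ≤ H) (φ1 φ2 φ3 : ℂ → ℂ)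
    (b1 : ∀ b, ‖φ1 b‖ ≤ 1) (b2 : ∀ b, ‖φ2 b‖ ≤ 1) (b3 : ∀ b, ‖φ3 b‖ ≤ 1) (p1 : HB m y ν φ1)
    (p2 : NB e k ν φ2) (p3 : WB m k ν φ3) (θ : ℂ) (hθ : ¬ Low m θ (H ^ 3) NN0) :
    ‖φ1 (θ / ph m (mu m) * ph m g)‖ ≤ 1 / ν ∨
      ∃ (H' : ℝ) (β : O m) (d : ℕ), H ≤ H' ∧ Near m θ β d H' NN0 ∧
        (‖φ2 (θ / ph m (mu m) * ph m g)‖ ^ 3600 ≤ 1 / H' ^ 6 ∨
          ‖φ2 (conj θ / ph m (mu m) * ph m g)‖ ^ 3600 ≤ 1 / H' ^ 6 ∨
          ‖φ3 (θ / ph m (mu m) * ph m g)‖ ^ 360 ≤ 1 / H' ^ 6) := by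
  have hm := hP.sml.m1
  have hk : (10 : ℝ) ^ 10 ≤ k := hP.sml.k1
  have hk64 : 64 ≤ k := le_trans (by norm_num) hk
  have hk1 : 1 ≤ k := by linarith
  have hmk : (m : ℝ) ≤ k := hP.sml.mk'
  have hm1 : (1 : ℝ) ≤ m := by exact_mod_cast hm
  have hkν : ∀ j : ℕ, j ≤ 100 → k ^ j ≤ ν := fun j hj => (pow_le_pow_right₀ hk1 hj).trans hP.kν
  have hν : k ≤ ν := by simpa using hkν 1 (by norm_num)
  have hν1 : 1 ≤ ν := hk1.trans hν
  have hν0 : 0 < ν := by linarith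
  have hm3 : (m : ℝ) ^ 3 ≤ k ^ 3 := by gcongr
  have hm3' : (1 : ℝ) ≤ (m : ℝ) ^ 3 := one_le_pow₀ hm1
  have hm3ν : (m : ℝ) ^ 3 ≤ ν := hm3.trans (hkν 3 (by norm_num))
  rw [Zsqrtd.norm_mul, Int.cast_mul, he] at h1 h2
  have hg0 : g ≠ 0 := by
    rintro rfl
    simp only [Zsqrtd.norm_zero, Int.cast_zero, zero_mul] at h1
    linarith
  have hG1 : 1 ≤ g.norm := norm_pos' hm hg0
  have hG : (1 : ℝ) ≤ g.norm := by exact_mod_cast hG1
  by_cases hl : Low m θ (ν ^ 461) NN0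
  swap
  · refine Or.inl (p1.1 _ fun h => hl (low_FLPoint hm hg0 ?_ h1 h))
    have a1 : k ^ 5 * g.norm ≤ ν := by
      refine le_of_pow_le_pow_left₀ (n := 10) (by norm_num) hν0.le ?_
      rw [mul_pow, ← pow_mul]
      calc _ ≤ ν * ν := mul_le_mul (hkν _ (by norm_num)) hgn (by positivity) hν0.le
        _ = ν ^ 2 := by ring
        _ ≤ _ := pow_le_pow_right₀ hν1 (by norm_num)
    have a2 : (y : ℝ) ^ 4 ≤ ν ^ 460 := by
      refine (pow_le_pow_left₀ (Nat.cast_nonneg _) hP.y2 4).trans (le_of_eq ?_)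
      rw [← pow_mul]
    calc _ ≤ k ^ 3 * g.norm * (k * k * ν ^ 460) := by gcongr
      _ = k ^ 5 * g.norm * ν ^ 460 := by ring
      _ ≤ ν * ν ^ 460 := by gcongr
      _ = _ := by rw [← pow_succ']
  obtain ⟨β, d, hd1, hd2, hβ, ht⟩ := near_of_low m hm θ _ _ h0.le hl
  obtain ⟨η, rfl⟩ : ∃ η, θ = ph m β / d + η := ⟨θ - ph m β / d, by ring⟩
  rw [add_sub_cancel_left] at ht
  have hd : (1 : ℝ) ≤ d := by exact_mod_cast hd1
  have hD1 : 1 ≤ d * m ^ 3 := Nat.mul_pos hd1 (by positivity)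
  have hT : ∀ ξ : ℂ, ‖ξ‖ = ‖η‖ → ‖η‖ ^ 2 * NN0 ≤ (‖ξ / ph m (mu m) * ph m g‖ * ν ^ 1000) ^ 2 * (m : ℝ) ^ 3 ∧
      (‖ξ / ph m (mu m) * ph m g‖ * ν ^ 1000) ^ 2 ≤ 2 * (‖η‖ ^ 2 * NN0) := fun ξ hξ => by
    have a1 : (‖ξ / ph m (mu m) * ph m g‖ * ν ^ 1000) ^ 2 * (m : ℝ) ^ 3 =
        ‖η‖ ^ 2 * (g.norm * ν ^ 2000) := by
      rw [mul_pow, ← pow_mul, mul_right_comm, nrm_FLPoint hm, hξ, mul_assoc]
    refine ⟨by rw [a1]; gcongr, (le_mul_of_one_le_right (by positivity) hm3').trans ?_⟩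
    rw [a1]
    calc _ ≤ ‖η‖ ^ 2 * (2 * NN0) := by gcongr
      _ = _ := by ring
  have ht0 : 0 ≤ ‖η‖ ^ 2 * NN0 := by positivity
  by_cases hc : ν ^ 22 ≤ d ∨ ν ^ 44 ≤ ‖η‖ ^ 2 * NN0
  · left
    obtain ⟨T1, T2⟩ := hT η rfl
    rw [dec_FLPoint hm β g hd1]
    refine p1.2 _ _ _ hD1 ?_ ?_ (hc.imp (fun h => ⟨?_, fun f f1 f2 => ?_⟩) fun h => ?_)
    · push_cast
      calc _ ≤ ν ^ 461 * ν := by gcongr
        _ = _ := by rw [← pow_succ]
    · refine le_of_pow_le_pow_left₀ (n := 2) (by norm_num) (by positivity) (T2.trans ?_)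
      calc _ ≤ ν * ν ^ 461 := mul_le_mul (by linarith) ht ht0 hν0.le
        _ ≤ _ := by rw [← pow_succ', ← pow_mul]; exact pow_le_pow_right₀ hν1 (by norm_num)
    · push_cast
      exact h.trans (le_mul_of_one_le_right (by positivity) hm3')
    · obtain ⟨n, hn⟩ : ∃ n : ℕ, (n : ℤ) = g.norm := ⟨g.norm.toNat, Int.toNat_of_nonneg (by omega)⟩
      have a0 : (n : O m) = g * star g := by
        rw [← Zsqrtd.norm_eq_mul_conj, ← hn, Int.cast_natCast]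
      have a1 : f ≤ m ^ 3 * (n * m ^ 3) := by
        refine small_FLPoint hβ (Nat.mul_pos (by omega) (by positivity)) hm f1 ?_
        have : β * ((n * m ^ 3 : ℕ) : O m) = -(β * g * mu m) * (star g * mu m) := by
          push_cast
          rw [a0]
          linear_combination β * g * star g * musq_FLPoint m
        rw [this]
        exact f2.mul_right _
      have a2 : (f : ℝ) ≤ k ^ 3 * (g.norm * k ^ 3) := by
        have : (n : ℝ) = g.norm := by exact_mod_cast hn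
        calc (f : ℝ) ≤ (m : ℝ) ^ 3 * (n * (m : ℝ) ^ 3) := by exact_mod_cast a1
          _ ≤ _ := by rw [this]; gcongr
      refine le_of_pow_le_pow_left₀ (n := 2) (by norm_num) hν0.le ?_
      calc ((f : ℝ) ^ 5) ^ 2 = (f : ℝ) ^ 10 := by ring
        _ ≤ (k ^ 3 * (g.norm * k ^ 3)) ^ 10 := by gcongr
        _ = k ^ 60 * (g.norm : ℝ) ^ 10 := by ring
        _ ≤ ν * ν := mul_le_mul (hkν _ (by norm_num)) hgn (by positivity) hν0.le
        _ = ν ^ 2 := by ring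
    · refine le_of_mul_le_mul_right ?_ hν0
      rw [← pow_succ]
      exact (h.trans T1).trans (by gcongr)
  right
  rw [not_or, not_le, not_le] at hc
  have hH0 : 0 ≤ H := le_trans (by positivity) hH
  have hb : ∀ ξ : ℂ, ‖ξ‖ = ‖η‖ → ‖ξ / ph m (mu m) * ph m g‖ * ν ^ 1000 ≤ 2 * ν ^ 22 := fun ξ hξ => by
    refine le_of_pow_le_pow_left₀ (n := 2) (by norm_num) (by positivity) ((hT ξ hξ).2.trans ?_)
    rw [mul_pow, ← pow_mul]
    exact mul_le_mul (by norm_num) hc.2.le ht0 (by norm_num)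
  have hH' : H ≤ max (d : ℝ) (‖η‖ ^ 2 * NN0) := by
    by_contra hlt
    rw [not_le, max_lt_iff] at hlt
    have hd0 : (d : ℂ) ≠ 0 := by exact_mod_cast (by omega : d ≠ 0)
    refine hθ ⟨d, β, fun h => ?_, ?_, ?_⟩
    · have := congrArg Zsqrtd.re h
      simp at this
      omega
    · rw [Zsqrtd.norm_natCast]
      push_cast
      calc (d : ℝ) * d = d * d * 1 := by ring
        _ ≤ H * H * H := by
          have := hlt.1.le
          gcongr
          exact hd.trans this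
        _ = _ := by ring
    · have e : (ph m β / d + η) * ph m d - ph m β = d * η := by
        rw [map_natCast]; field_simp; ring
      rw [e, norm_mul, Complex.norm_natCast]
      calc _ = (d : ℝ) * d * (‖η‖ ^ 2 * NN0) := by ring
        _ ≤ H * H * H := by
          have := hlt.1.le
          have := hlt.2.le
          gcongr
        _ = _ := by ring
  refine ⟨_, β, d, hH', ⟨hd1, le_max_left _ _, hβ, by rw [add_sub_cancel_left]; exact le_max_right _ _⟩, ?_⟩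
  rcases le_total (‖η‖ ^ 2 * NN0) d with h | h
  · rw [max_eq_left h] at hH' ⊢
    rcases version (g * e) β d hg hβ hd1 with hv | hv
    · left
      rw [dec_FLPoint hm β g hd1]
      exact nb_FLPoint (norm_nonneg _) (by linarith)
        (p2 g β d _ (hH.trans hH') hc.1.le hv (hb η rfl))
    · right; left
      rw [map_add, map_div₀, map_natCast, ← ph_star, dec_FLPoint hm (star β) g hd1]
      exact nb_FLPoint (norm_nonneg _) (by linarith)
        (p2 g (star β) d _ (hH.trans hH') hc.1.le hv (hb _ (Complex.norm_conj η)))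
  · rw [max_eq_right h] at hH' ⊢
    right; right
    have T1 : ‖η‖ ^ 2 * NN0 ≤ (‖η / ph m (mu m) * ph m g‖ * ν ^ 1000) ^ 2 * k ^ 3 :=
      (hT η rfl).1.trans (by gcongr)
    have T3 : k ^ 1000 ≤ ‖η / ph m (mu m) * ph m g‖ * ν ^ 1000 := by
      refine le_of_pow_le_pow_left₀ (n := 2) (by norm_num) (by positivity) ?_
      refine le_of_mul_le_mul_right (le_trans ?_ ((hH.trans hH').trans T1)) (by positivity)
      rw [← pow_mul, ← pow_add]
      exact pow_le_pow_right₀ hk1 (by norm_num)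
    rw [dec_FLPoint hm β g hd1]
    refine wb_FLPoint (norm_nonneg _) (by linarith) T3 (by linarith) T1
      (p3 _ _ _ hD1 ?_ T3 (hb η rfl))
    push_cast
    have := hc.1.le
    gcongr

end Pool.Agent.P.MP_b75a1e_co.EG
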