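import Pool.Agent.K.MP_b75a1e_co.C6
import Pool.Agent.K.MP_b75a1e_co.C4
import Pool.Agent.K.MP_b75a1e_co.C7

set_option autoImplicit false

open Finset
open scoped BigOperators ComplexConjugate

namespace Pool.Agent.P.MP_b75a1e_co.EG

variable {m s y J : ℕ} {k ν : ℝ} {F U : Finset (O m)} {e : O m}

theorem pow_FLH {k t : ℝ} (hk : 10 ^ 10 ≤ k) (ht : k ^ 10 ≤ t) : 10 ^ 10 * k ^ 6 ≤ t := by
  have h1 : (1 : ℝ) ≤ k := le_trans (by norm_num) hk
  calc 10 ^ 10 * k ^ 6 ≤ k * k ^ 6 := by gcongr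
    _ = k ^ 7 := by ring
    _ ≤ k ^ 10 := pow_le_pow_right₀ h1 (by norm_num)
    _ ≤ t := ht

theorem root_FLH (hP : Par m s y k ν) : ∃ t : ℝ, t ^ 10 = ν ∧ 10 ^ 10 * k ^ 6 ≤ t := by
  have h1 : (0 : ℝ) ≤ k := le_trans (by norm_num) hP.sml.k1
  have h2 : 0 ≤ ν := le_trans (by positivity) hP.kν
  have h3 : (ν ^ ((10 : ℕ) : ℝ)⁻¹) ^ 10 = ν := Real.rpow_inv_natCast_pow h2 (by norm_num)
  refine ⟨_, h3, pow_FLH hP.sml.k1 ?_⟩
  rw [← pow_le_pow_iff_left₀ (by positivity) (by positivity) (by norm_num : 10 ≠ 0), h3, ← pow_mul]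
  exact hP.kν

theorem big_FLH (hP : Par m s y k ν) :
    1 ≤ k ∧ 10 ^ 10 * k ^ 6 ≤ ν ∧ 100 ≤ ν ∧ Real.sqrt m ≤ k ∧ k ≤ ν ∧ (0 : ℝ) < y := by
  have hk := hP.sml.k1
  have h1 : (1 : ℝ) ≤ k := le_trans (by norm_num) hk
  have h2 : 10 ^ 10 * k ^ 6 ≤ ν :=
    pow_FLH hk ((pow_le_pow_right₀ h1 (by norm_num)).trans hP.kν)
  have h3 : k ≤ ν := (le_self_pow₀ h1 (by norm_num)).trans hP.kν
  have h4 : (1 : ℝ) ≤ m := by exact_mod_cast hP.sml.m1
  refine ⟨h1, h2, by linarith, le_trans ?_ hP.sml.mk', h3, lt_of_lt_of_le ?_ hP.y1⟩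
  · rw [Real.sqrt_le_left (by linarith)]; nlinarith
  · have : 0 < ν := by linarith
    positivity

theorem norm_w_FLH (δ δ0 : O m) :
    ‖ph m (δ * star δ0 - δ0 * star δ)‖ = 2 * |(ph m δ * conj (ph m δ0)).im| := by
  have : ph m (δ * star δ0 - δ0 * star δ) =
      ph m δ * conj (ph m δ0) - conj (ph m δ * conj (ph m δ0)) := by
    rw [map_sub, map_mul, map_mul, ph_star, ph_star, map_mul, Complex.conj_conj, mul_comm (ph m δ0)]
  rw [this, Complex.sub_conj, norm_mul, Complex.norm_I, mul_one, Complex.norm_real, Real.norm_eq_abs,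
    abs_mul, abs_two]

theorem norm_w_le_FLH (h : Fam m y J k F) {δ δ0 : O m} (hδ : δ ∈ F) (h0 : δ0 ∈ F) :
    ‖ph m (δ * star δ0 - δ0 * star δ)‖ ≤ 8 * (y : ℝ) ^ 2 := by
  rw [norm_w_FLH]
  have h1 := Complex.abs_im_le_norm (ph m δ * conj (ph m δ0))
  rw [norm_mul, Complex.norm_conj] at h1
  have h2 := mul_le_mul (h.abs hδ).2 (h.abs h0).2 (norm_nonneg _) (by positivity)
  linarith

open Classical in
theorem hb_gen (hP : Par m s y k ν) (h : Fam m y J k F) (hU : Pile e s ν U) :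
    ∃ φ : ℂ → ℂ, Adm e (6 * s) φ ∧ ∀ b : ℂ, (∀ δ0 ∈ F, ((F.filter fun δ => ∃ a : O m,
      ‖b * ph m (δ * star δ0 - δ0 * star δ) - ph m a‖ ≤
        8 * (y : ℝ) ^ 2 * Real.sqrt m / ν ^ 1000).card : ℝ) * (10 ^ 5 * k ^ 2 * ν ^ 21) ≤ F.card) →
      ‖φ b‖ ≤ 1 / ν := by
  obtain ⟨hk, hkν, hν, hm', hk', hy⟩ := big_FLH hP
  have hm := hP.sml.m1
  have hν0 : 0 < ν := by linarith
  have hν1 : 1 ≤ ν := by linarith
  have hs : (1 : ℝ) ≤ s := by exact_mod_cast hP.s1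
  have hF : (0 : ℝ) < F.card := by exact_mod_cast (h.ne hm).card_pos
  have hUc : (0 : ℝ) < U.card := lt_of_lt_of_le (by positivity) hU.crd
  have hG : ∀ δ ∈ F, Good m (4 * y ^ 2) δ 1 := fun δ hδ =>
    ⟨by rw [mul_one]; exact h.sqf hδ, by rw [mul_one]; exact h.cop2 hm hδ,
      by rw [mul_one]; exact h.nat_le hδ, (h.box δ hδ).2.2.1, by simp⟩
  have hL0 : ν ^ 1000 ≤ s * ν ^ 1000 := le_mul_of_one_le_left (by positivity) hs
  have hL : 1 ≤ s * ν ^ 1000 := (one_le_pow₀ hν1).trans hL0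
  have hΔ : 4 * Real.sqrt m * ((4 * y ^ 2 : ℕ) : ℝ) < s * ν ^ 1000 := by
    push_cast
    calc 4 * Real.sqrt m * (4 * (y : ℝ) ^ 2) ≤ 4 * ν * (4 * (ν ^ 115) ^ 2) := by
          gcongr
          · exact hm'.trans hk'
          · exact hP.y2
      _ = 16 * ν ^ 231 := by ring
      _ < ν * ν ^ 231 := by gcongr; linarith
      _ = ν ^ 232 := by ring
      _ ≤ ν ^ 1000 := pow_le_pow_right₀ hν1 (by norm_num)
      _ ≤ _ := hL0
  have hu := fun u (hu : u ∈ U) => hU.norm_le hν0.le hu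
  have h0 := Tb_zero hm F (fun δ => δ) (fun _ => 1) e s (4 * y ^ 2) U (s * ν ^ 1000)
    (24 * k * F.card / y) hG hL (by positivity) hu hΔ fun δ hδ => by
      rw [le_div_iff₀ hy]
      simpa only [mul_one] using cnt_cop h hδ
  have h1 : 10 ^ 4 * (24 * k * F.card / y) * (s * ν ^ 1000) ^ 2 * U.card ≤
      (F.card : ℝ) * U.card ^ 2 / 2 := by
    have h2 : 10 ^ 4 * (24 * k / y) * (s * ν ^ 1000) ^ 2 ≤ U.card / 2 := by
      calc 10 ^ 4 * (24 * k / y) * (s * ν ^ 1000) ^ 2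
          ≤ 10 ^ 4 * (24 * k / ν ^ 45) * (k * ν ^ 1000) ^ 2 := by
            gcongr
            · exact hP.y1
            · exact hP.sk
        _ = (480000 * k ^ 3) * ν ^ 1955 / 2 := by field_simp; ring
        _ ≤ ν ^ 25 * ν ^ 1955 / 2 := by
            gcongr
            calc 480000 * k ^ 3 ≤ 10 ^ 10 * k ^ 6 := by
                  gcongr
                  · norm_num
                  · norm_num
              _ ≤ ν := hkν
              _ ≤ ν ^ 25 := le_self_pow₀ hν1 (by norm_num)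
        _ = ν ^ 1980 / 2 := by ring
        _ ≤ _ := by gcongr; exact hU.crd
    calc _ = 10 ^ 4 * (24 * k / y) * (s * ν ^ 1000) ^ 2 * (F.card * U.card) := by ring
      _ ≤ U.card / 2 * (F.card * U.card) := by gcongr
      _ = _ := by ring
  have h2 : (F.card : ℝ) * U.card ^ 2 / 2 ≤ ‖Tb F (fun δ => δ) (fun _ => 1) e s U 0‖ := by
    have h3 := norm_sub_norm_le ((F.card : ℂ) * (U.card : ℂ) ^ 2)
      (Tb F (fun δ => δ) (fun _ => 1) e s U 0)
    rw [norm_sub_rev, norm_mul, norm_pow, Complex.norm_natCast, Complex.norm_natCast] at h3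
    linarith
  have h3 : 0 < ‖Tb F (fun δ => δ) (fun _ => 1) e s U 0‖ := lt_of_lt_of_le (by positivity) h2
  refine ⟨_, block_adm hm F (fun δ => δ) (fun _ => 1) e s (4 * y ^ 2) U hG hU.sum
    (norm_pos_iff.1 h3), fun b hb => ?_⟩
  have h4 := err_le hm F (fun δ => δ) (fun _ => 1) e s (4 * y ^ 2) U (s * ν ^ 1000)
    (F.card / (10 ^ 5 * k ^ 2 * ν ^ 21)) b (fun _ _ => True) hG hL (by positivity) hu hΔ
    fun δ0 hδ0 c _ => by
      rw [le_div_iff₀ (by positivity)]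
      refine le_trans ?_ (hb δ0 hδ0)
      gcongr with δ hδ
      rintro ⟨c', a, -, ha⟩
      refine ⟨a * star δ * star δ0 - c' * star δ0 + c * star δ, ?_⟩
      have e1 : conj (ph m δ) ≠ 0 := by simpa using ph_ne_zero hm (h.ne_zero hδ)
      have e2 : conj (ph m δ0) ≠ 0 := by simpa using ph_ne_zero hm (h.ne_zero hδ0)
      have e3 : b * ph m (δ * star δ0 - δ0 * star δ) -
          ph m (a * star δ * star δ0 - c' * star δ0 + c * star δ) =
          (pt δ 1 b c' - pt δ0 1 b c - ph m a) * (conj (ph m δ) * conj (ph m δ0)) := by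
        simp only [pt, mul_one, map_one, map_sub, map_add, map_mul, map_natCast, ph_star]
        field_simp
        ring
      rw [e3, norm_mul, norm_mul, Complex.norm_conj, Complex.norm_conj]
      calc _ ≤ 2 * Real.sqrt m / (s * ν ^ 1000) * (2 * y * (2 * y)) := by
            gcongr
            · exact (h.abs hδ).2
            · exact (h.abs hδ0).2
        _ ≤ 2 * Real.sqrt m / ν ^ 1000 * (2 * y * (2 * y)) := by gcongr
        _ = _ := by ring
  simp only [filter_true] at h4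
  rw [norm_div, div_le_iff₀ h3]
  calc _ ≤ _ := h4
    _ ≤ 10 ^ 4 * (F.card / (10 ^ 5 * k ^ 2 * ν ^ 21)) * (k * ν ^ 1000) ^ 2 * U.card := by
        gcongr; exact hP.sk
    _ = 1 / ν * (F.card * (ν ^ 1980 * U.card) / 10) := by field_simp
    _ ≤ 1 / ν * (F.card * (U.card * U.card) / 2) := by
        gcongr
        · exact hU.crd
        · norm_num
    _ ≤ _ := by rw [← sq]; gcongr

theorem exact_FLH (hP : Par m s y k ν) {γ w a : O m} {D : ℕ} {η : ℂ} (hD : 1 ≤ D)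
    (hD' : (D : ℝ) ≤ ν ^ 462) (hη : ‖η‖ * ν ^ 1000 ≤ ν ^ 232) (hw : ‖ph m w‖ ≤ 8 * (y : ℝ) ^ 2)
    (ha : ‖(ph m γ / D + η) * ph m w - ph m a‖ ≤ 8 * (y : ℝ) ^ 2 * Real.sqrt m / ν ^ 1000) :
    γ * w = D * a ∧ ‖η‖ * ν ^ 1000 * ‖ph m w‖ ≤ 8 * (y : ℝ) ^ 2 * Real.sqrt m := by
  obtain ⟨hk, hkν, hν, hm', hk', hy⟩ := big_FLH hP
  have hν0 : 0 < ν := by linarith
  have hν1 : 1 ≤ ν := by linarith
  have hD0 : (D : ℂ) ≠ 0 := by exact_mod_cast (by omega : D ≠ 0)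
  have e1 : ph m (γ * w - D * a) = D * (((ph m γ / D + η) * ph m w - ph m a) - η * ph m w) := by
    simp only [map_sub, map_mul, map_natCast]; field_simp; ring
  have hη' : ‖η‖ ≤ ν ^ 232 / ν ^ 1000 := by rwa [le_div_iff₀ (by positivity)]
  have e2 : γ * w = D * a := by
    refine sub_eq_zero.1 (eq_zero_of_norm_lt hP.sml.m1 ?_)
    rw [e1, norm_mul, Complex.norm_natCast]
    calc _ ≤ ν ^ 462 * (8 * (y : ℝ) ^ 2 * Real.sqrt m / ν ^ 1000 +
          ν ^ 232 / ν ^ 1000 * (8 * (y : ℝ) ^ 2)) := by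
          gcongr
          refine (norm_sub_le _ _).trans ?_
          rw [norm_mul η]
          gcongr
      _ ≤ ν ^ 462 * (8 * (ν ^ 115) ^ 2 * ν ^ 232 / ν ^ 1000 +
          ν ^ 232 / ν ^ 1000 * (8 * (ν ^ 115) ^ 2)) := by
          gcongr
          · exact hP.y2
          · exact (hm'.trans hk').trans (le_self_pow₀ hν1 (by norm_num))
          · exact hP.y2
      _ = 16 / ν ^ 76 := by field_simp; ring
      _ < 1 := by
          rw [div_lt_one (by positivity)]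
          exact lt_of_lt_of_le (by linarith) (le_self_pow₀ hν1 (by norm_num))
  refine ⟨e2, ?_⟩
  rw [e2, sub_self, map_zero, eq_comm, mul_eq_zero, or_iff_right hD0, sub_eq_zero] at e1
  rw [e1, norm_mul, le_div_iff₀ (by positivity)] at ha
  linarith

/-- The block with one rotation. -/
theorem hblock (hP : Par m s y k ν) (h : Fam m y J k F) (hJ : y ≤ 20 * m ^ 2 * J)
    (hU : Pile e s ν U) : ∃ φ : ℂ → ℂ, Adm e (6 * s) φ ∧ HB m y ν φ := by
  classical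
  obtain ⟨φ, hφ, H⟩ := hb_gen hP h hU
  obtain ⟨hk, hkν, hν, hm', hk', hy⟩ := big_FLH hP
  obtain ⟨t, ht, hkt⟩ := root_FLH hP
  have hm := hP.sml.m1
  have hmk := hP.sml.mk'
  have hν0 : 0 < ν := by linarith
  have hν1 : 1 ≤ ν := by linarith
  have hm1 : (1 : ℝ) ≤ m := by exact_mod_cast hm
  have hk6 : 1 ≤ k ^ 6 := one_le_pow₀ hk
  have ht1 : 1 ≤ t := by linarith
  have hyk : 10 ^ 10 * k ^ 6 * ν ^ 21 / y ≤ 1 := by
    rw [div_le_one hy]
    calc _ ≤ ν * ν ^ 21 := by gcongr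
      _ = ν ^ 22 := by ring
      _ ≤ ν ^ 45 := pow_le_pow_right₀ hν1 (by norm_num)
      _ ≤ y := hP.y1
  have hk56 : k ^ 5 ≤ k ^ 6 := pow_le_pow_right₀ hk (by norm_num)
  have hk36 : k ^ 3 ≤ k ^ 6 := pow_le_pow_right₀ hk (by norm_num)
  have arc : ∀ δ0 ∈ F, ∀ a : ℝ, 0 ≤ a → 10 ^ 8 * k ^ 5 * ν ^ 21 * a ≤ 1 →
      ((F.filter fun δ => |(ph m δ * conj (ph m δ0)).im| ≤ a * (y : ℝ) ^ 2).card : ℝ) *
        (10 ^ 5 * k ^ 2 * ν ^ 21) ≤ F.card := fun δ0 h0 a ha ha' => by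
    calc _ ≤ 40 * k * k ^ 2 * (3 * a + 1 / y) * F.card * (10 ^ 5 * k ^ 2 * ν ^ 21) := by
          refine mul_le_mul_of_nonneg_right ((cnt_arc h hm hJ h0 a ha).trans ?_) (by positivity)
          gcongr
      _ = (12 / 100 * (10 ^ 8 * k ^ 5 * ν ^ 21 * a) +
            4 / 10 ^ 4 * (10 ^ 10 * k ^ 5 * ν ^ 21 / y)) * F.card := by ring
      _ ≤ (12 / 100 * 1 + 4 / 10 ^ 4 * (10 ^ 10 * k ^ 6 * ν ^ 21 / y)) * F.card := by gcongr
      _ ≤ (12 / 100 * 1 + 4 / 10 ^ 4 * 1) * F.card := by gcongr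
      _ ≤ 1 * F.card := by gcongr; norm_num
      _ = _ := one_mul _
  refine ⟨φ, hφ, fun b hb => H b fun δ0 h0 => ?_, fun γ D η hD hD' hη hc => H _ fun δ0 h0 => ?_⟩
  · refine le_trans ?_ (arc δ0 h0 0 le_rfl (by simp))
    gcongr with δ hδ
    rintro ⟨a, ha⟩
    have hw : δ * star δ0 - δ0 * star δ = 0 := by
      by_contra hw
      refine hb ⟨_, a, hw, ?_, ?_⟩
      · rw [← norm_sq_ph]
        calc _ ≤ (8 * (y : ℝ) ^ 2) ^ 2 := by gcongr; exact norm_w_le_FLH h hδ h0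
          _ = 64 * 1 * (y : ℝ) ^ 4 := by ring
          _ ≤ _ := by gcongr
      · calc _ ≤ (8 * (y : ℝ) ^ 2 * Real.sqrt m / ν ^ 1000) ^ 2 * ν ^ 2000 := by gcongr
          _ = 64 * Real.sqrt m ^ 2 * (y : ℝ) ^ 4 := by field_simp; ring
          _ = _ := by rw [Real.sq_sqrt (by positivity)]
    have := norm_w_FLH δ δ0
    rw [hw, map_zero, norm_zero] at this
    linarith
  rcases hc with ⟨hc, hf⟩ | hc
  · have hD0 : (0 : ℝ) < D := by exact_mod_cast hD
    have h1 := cnt_lin h hm D hD (γ * star δ0) (-(γ * δ0)) (t ^ 2) fun f h1 h2 h3 => by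
      obtain ⟨u, v, huv⟩ := cop_star (h.sqf h0) (h.cop2 hm h0)
      have h4 : (f : O m) ∣ γ := by
        have : γ = v * (γ * star δ0) - u * -(γ * δ0) := by linear_combination (-γ) * huv
        rw [this]
        exact dvd_sub (h2.mul_left _) (h3.mul_left _)
      rw [← pow_le_pow_iff_left₀ (by positivity) (by positivity) (by norm_num : 5 ≠ 0), ← pow_mul,
        ht]
      exact hf f h1 h4
    have h2 : (D.divisors.card : ℝ) ≤ k * t ^ 5 := by
      refine (hP.sml.tau D hD).trans (mul_le_mul_of_nonneg_left ?_ (by positivity))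
      have h3 : (D : ℝ) ≤ (t ^ 5) ^ 1000 := by
        calc _ ≤ ν ^ 462 := hD'
          _ ≤ ν ^ 500 := pow_le_pow_right₀ hν1 (by norm_num)
          _ = _ := by rw [← ht, ← pow_mul, ← pow_mul]
      calc _ ≤ ((t ^ 5) ^ 1000) ^ (1 / 1000 : ℝ) := by gcongr
        _ = _ := by
          have h4 : (0 : ℝ) ≤ t ^ 5 := by positivity
          generalize t ^ 5 = x at h4
          rw [← Real.rpow_natCast, ← Real.rpow_mul h4]
          norm_num
    calc _ ≤ ((F.filter fun δ => (D : O m) ∣ γ * star δ0 * δ + -(γ * δ0) * star δ).card : ℝ) *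
          (10 ^ 5 * k ^ 2 * ν ^ 21) := by
          gcongr with δ hδ
          rintro ⟨a, ha⟩
          exact ⟨a, by
            linear_combination (exact_FLH hP hD hD' hη (norm_w_le_FLH h hδ h0) ha).1⟩
      _ ≤ k * (8 * k ^ 2 * t ^ 2 * (k * t ^ 5) / ν ^ 22 + 2 / y) * F.card *
          (10 ^ 5 * k ^ 2 * ν ^ 21) := by
          refine mul_le_mul_of_nonneg_right (h1.trans ?_) (by positivity)
          gcongr
      _ = (8 / 10 ^ 5 * (10 ^ 10 * k ^ 6 * t ^ 7 / ν) +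
            2 / 10 ^ 5 * (10 ^ 10 * k ^ 3 * ν ^ 21 / y)) * F.card := by field_simp
      _ ≤ (8 / 10 ^ 5 * (t * t ^ 9 / ν) +
            2 / 10 ^ 5 * (10 ^ 10 * k ^ 6 * ν ^ 21 / y)) * F.card := by
          gcongr
          norm_num
      _ ≤ (8 / 10 ^ 5 * 1 + 2 / 10 ^ 5 * 1) * F.card := by
          gcongr
          rw [← pow_succ', ht, div_self hν0.ne']
      _ ≤ 1 * F.card := by gcongr; norm_num
      _ = _ := one_mul _
  · obtain ⟨T, hT⟩ : ∃ T, T = ‖η‖ * ν ^ 1000 := ⟨_, rfl⟩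
    have hT0 : 0 ≤ T := by rw [hT]; positivity
    have hT1 : ν ^ 21 * t ^ 5 ≤ T := by
      rw [← pow_le_pow_iff_left₀ (by positivity) hT0 two_ne_zero, mul_pow, ← pow_mul t, ht, hT]
      calc _ = ν ^ 43 := by ring
        _ ≤ _ := hc
    have hT2 : 0 < T := lt_of_lt_of_le (by positivity) hT1
    refine le_trans ?_ (arc δ0 h0 (4 * Real.sqrt m / T) (by positivity) ?_)
    · gcongr with δ hδ
      rintro ⟨a, ha⟩
      have := (exact_FLH hP hD hD' hη (norm_w_le_FLH h hδ h0) ha).2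
      rw [← hT, norm_w_FLH] at this
      rw [div_mul_eq_mul_div, le_div_iff₀ hT2]
      linarith
    · rw [← mul_div_assoc, div_le_one hT2]
      calc _ ≤ 10 ^ 8 * k ^ 5 * ν ^ 21 * (4 * k) := by gcongr
        _ = ν ^ 21 * (4 * 10 ^ 8 * k ^ 6) := by ring
        _ ≤ ν ^ 21 * t ^ 5 := by
          gcongr
          exact le_trans (by linarith) (hkt.trans (le_self_pow₀ ht1 (by norm_num)))
        _ ≤ T := hT1

end Pool.Agent.P.MP_b75a1e_co.EG
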