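import Pool.Agent.K.MP_b75a1e_co.C7
import Pool.Agent.K.MP_b75a1e_co.C3
import Pool.Agent.K.MP_b75a1e_co.C4
import Pool.Agent.K.MP_b75a1e_co.C8
import Pool.Agent.K.MP_b75a1e_co.C9
import Pool.Agent.K.MP_b75a1e_co.C10
import Pool.Agent.K.MP_b75a1e_co.C5

-- part Pool.Agent.P.MP_b75a1e_co.FLQuad0
section

set_option autoImplicit false

open Finset
open scoped BigOperators ComplexConjugate

namespace Pool.Agent.P.MP_b75a1e_co.EG

variable {m y J : ℕ} {k : ℝ} {F : Finset (O m)}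

theorem gcd_FLQuad0 (m D g : ℕ) (hm : 1 ≤ m) (hD : 1 ≤ D) (v0 v1 j : ℤ) (hg : g ∣ D)
    (h0 : (g : ℤ) ∣ 4 * m ^ 3 * j ^ 2 * v0) (h1 : (g : ℤ) ∣ 4 * m ^ 3 * j ^ 2 * v1)
    (hV : ∀ f : ℕ, f ∣ D → (f : ℤ) ∣ v0 → (f : ℤ) ∣ v1 → f ^ 4 ≤ D) :
    ∃ f : ℕ, f ^ 4 ≤ D ∧ g ≤ f * (4 * m ^ 3 * Nat.gcd j.natAbs D ^ 2) := by
  have hg0 : 0 < g := Nat.pos_of_dvd_of_pos hg hD
  set T : ℕ := 4 * m ^ 3 * j.natAbs ^ 2 with hT
  have hT' : (T : ℤ) = 4 * m ^ 3 * j ^ 2 := by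
    rw [hT]; push_cast; rw [sq_abs]
  have hd : 0 < Nat.gcd g T := Nat.gcd_pos_of_pos_left _ hg0
  obtain ⟨f, hf⟩ := Nat.gcd_dvd_left g T
  obtain ⟨T', hT2⟩ := Nat.gcd_dvd_right g T
  have hc : Nat.Coprime f T' := by
    have := Nat.coprime_div_gcd_div_gcd hd
    rwa [Nat.div_eq_of_eq_mul_right hd hf, Nat.div_eq_of_eq_mul_right hd hT2] at this
  have key : ∀ v : ℤ, (g : ℤ) ∣ 4 * m ^ 3 * j ^ 2 * v → (f : ℤ) ∣ v := fun v hv => by
    rw [← hT'] at hv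
    have e1 : (g : ℤ) = (Nat.gcd g T : ℕ) * f := by exact_mod_cast hf
    have e2 : (T : ℤ) = (Nat.gcd g T : ℕ) * T' := by exact_mod_cast hT2
    generalize Nat.gcd g T = d at e1 e2 hd
    rw [e1, e2, mul_assoc] at hv
    exact (Nat.isCoprime_iff_coprime.2 hc).dvd_of_dvd_mul_left
      ((mul_dvd_mul_iff_left (by exact_mod_cast hd.ne')).1 hv)
  refine ⟨f, hV f ((Dvd.intro_left _ hf.symm).trans hg) (key _ h0) (key _ h1), ?_⟩
  have hG : 0 < Nat.gcd j.natAbs D := Nat.gcd_pos_of_pos_right _ hD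
  have h2 : Nat.gcd g T ∣ 4 * m ^ 3 * Nat.gcd j.natAbs D ^ 2 := by
    have a1 : Nat.gcd g T ∣ D := (Nat.gcd_dvd_left g T).trans hg
    have a2 : Nat.gcd g T ∣ 4 * m ^ 3 * j.natAbs ^ 2 := Nat.gcd_dvd_right g T
    generalize Nat.gcd g T = d at a1 a2
    have a3 : d ∣ 4 * m ^ 3 * j.natAbs * Nat.gcd j.natAbs D := by
      rw [← Nat.gcd_mul_left]
      exact Nat.dvd_gcd (by rwa [mul_assoc _ j.natAbs, ← sq]) (a1.mul_left _)
    rw [sq, ← mul_assoc, ← Nat.gcd_mul_left]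
    exact Nat.dvd_gcd (by rwa [mul_right_comm]) (a1.mul_left _)
  have h3 := Nat.le_of_dvd (by positivity) h2
  calc g = Nat.gcd g T * f := hf
    _ ≤ (4 * m ^ 3 * Nat.gcd j.natAbs D ^ 2) * f := Nat.mul_le_mul_right _ h3
    _ = _ := mul_comm _ _

theorem fib_FLQuad0 (m D len : ℕ) (hm : 1 ≤ m) (hD : 1 ≤ D) (hlen : D ≤ len) (v0 v1 n j : ℤ)
    (hV : ∀ f : ℕ, f ∣ D → (f : ℤ) ∣ v0 → (f : ℤ) ∣ v1 → f ^ 4 ≤ D) (R : ℝ) (hR : 1 ≤ R)
    (hR4 : R ^ 4 = D) :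
    (((range len).filter fun t : ℕ => (D : ℤ) ∣ (n + 2 * v0) * t ^ 2 + 4 * m * v1 * (m * j) * t +
      m * (m * j) ^ 2 * (n - 2 * v0)).card : ℝ) ≤ 16 * len * m * Nat.gcd j.natAbs D / R := by
  set g : ℕ := Int.gcd (Int.gcd (n + 2 * v0) (4 * m * v1 * (m * j)))
    (Int.gcd (m * (m * j) ^ 2 * (n - 2 * v0)) D) with hg
  have d1 : (g : ℤ) ∣ n + 2 * v0 := (Int.gcd_dvd_left _ _).trans (Int.gcd_dvd_left _ _)
  have d2 : (g : ℤ) ∣ 4 * m * v1 * (m * j) := (Int.gcd_dvd_left _ _).trans (Int.gcd_dvd_right _ _)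
  have d3 : (g : ℤ) ∣ m * (m * j) ^ 2 * (n - 2 * v0) :=
    (Int.gcd_dvd_right _ _).trans (Int.gcd_dvd_left _ _)
  have d4 : (g : ℤ) ∣ D := (Int.gcd_dvd_right _ _).trans (Int.gcd_dvd_right _ _)
  have d5 : g ∣ D := by exact_mod_cast d4
  obtain ⟨f, hf, hgf⟩ := gcd_FLQuad0 m D g hm hD v0 v1 j d5
    (((d1.mul_left (m * (m * j) ^ 2)).sub d3).trans (dvd_of_eq (by ring)))
    ((d2.mul_right (m * j)).trans (dvd_of_eq (by ring))) hV
  have hG : 1 ≤ Nat.gcd j.natAbs D := Nat.gcd_pos_of_pos_right _ hD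
  generalize Nat.gcd j.natAbs D = G at hG hgf
  have hG' : (1 : ℝ) ≤ G := by exact_mod_cast hG
  have hm' : (1 : ℝ) ≤ m := by exact_mod_cast hm
  have hR0 : 0 < R := by linarith
  have hmG : (1 : ℝ) ≤ m * G := one_le_mul_of_one_le_of_one_le hm' hG'
  have hfR : (f : ℝ) ≤ R := by
    refine le_of_pow_le_pow_left₀ (n := 4) (by norm_num) hR0.le ?_
    rw [hR4]; exact_mod_cast hf
  have hRD : R ≤ D := by
    rw [← hR4]; exact le_self_pow₀ hR (by norm_num)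
  have hl : (D : ℝ) ≤ len := by exact_mod_cast hlen
  obtain ⟨W, hW1, hW2, hW3, hW4⟩ : ∃ W : ℕ, 1 ≤ W ∧ W ^ 3 * g ≤ D ∧ R ≤ 4 * m * G * W ∧
      (W : ℝ) ≤ len := by
    by_cases hc : 1 ≤ R / (2 * m * G)
    · have a1 := Nat.floor_le (le_trans zero_le_one hc)
      have a2 := Nat.lt_floor_add_one (R / (2 * m * G))
      have a3 : 1 ≤ ⌊R / (2 * m * G)⌋₊ := Nat.le_floor (by exact_mod_cast hc)
      generalize ⌊R / (2 * m * G)⌋₊ = W at a1 a2 a3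
      have a4 : (1 : ℝ) ≤ W := by exact_mod_cast a3
      have hp : (0 : ℝ) < 2 * m * G := by positivity
      rw [le_div_iff₀ hp] at a1
      rw [div_lt_iff₀ hp] at a2
      refine ⟨W, a3, ?_, by nlinarith, by nlinarith⟩
      have b1 : (g : ℝ) ≤ f * (4 * m ^ 3 * G ^ 2) := by exact_mod_cast hgf
      have b2 : ((W : ℝ) * (2 * m * G)) ^ 3 ≤ R ^ 3 := pow_le_pow_left₀ (by positivity) a1 3
      have b3 : (W : ℝ) ^ 3 * g ≤ D := by
        calc (W : ℝ) ^ 3 * g ≤ W ^ 3 * (R * (4 * m ^ 3 * G ^ 2)) := by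
              gcongr; exact b1.trans (by gcongr)
          _ ≤ W ^ 3 * (R * (8 * m ^ 3 * G ^ 3)) := by
              gcongr
              · norm_num
              · norm_num
          _ = (W * (2 * m * G)) ^ 3 * R := by ring
          _ ≤ R ^ 3 * R := by gcongr
          _ = D := by rw [← hR4]; ring
      exact_mod_cast b3
    · have hp : (0 : ℝ) < 2 * m * G := by positivity
      rw [not_le, div_lt_one hp] at hc
      refine ⟨1, le_rfl, by simpa using Nat.le_of_dvd hD d5, by push_cast; nlinarith, ?_⟩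
      push_cast; linarith
  have hW0 : (0 : ℝ) < W := by exact_mod_cast hW1
  refine (quad_count len D W _ _ _ hD hW1 hW2).trans ?_
  have c1 : (1 : ℝ) ≤ len / W := (one_le_div hW0).2 hW4
  have c2 : (len : ℝ) / W ≤ 4 * len * m * G / R := by
    rw [div_le_div_iff₀ hW0 hR0]
    calc (len : ℝ) * R ≤ len * (4 * m * G * W) := by gcongr
      _ = _ := by ring
  calc 2 * ((len : ℝ) / W + 1) ≤ 4 * (len / W) := by linarith
    _ ≤ 4 * (4 * len * m * G / R) := by linarith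
    _ = _ := by ring

open Classical in
theorem cnt_quad (hS : Sml m k) (h : Fam m y J k F) (D : ℕ) (h1 : k ^ 1000 ≤ D) (h2 : D ≤ y)
    (V : O m) (hV : ∀ f : ℕ, f ∣ D → (f : O m) ∣ V → f ^ 4 ≤ D) :
    ((F.filter fun δ => (D : ℤ) ∣ V.norm * δ.norm + 2 * (star V * δ ^ 2).re).card : ℝ) ≤
      100 * k ^ 2 * (D : ℝ) ^ (-12 / 100 : ℝ) * F.card := by
  have hm := hS.m1
  have hk1 : (1 : ℝ) ≤ k := le_trans (by norm_num) hS.k1
  have hD' : (1 : ℝ) ≤ D := (one_le_pow₀ hk1).trans h1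
  have hD : 1 ≤ D := by exact_mod_cast hD'
  have hD0 : (0 : ℝ) < D := by linarith
  have hV' : ∀ f : ℕ, f ∣ D → (f : ℤ) ∣ V.re → (f : ℤ) ∣ V.im → f ^ 4 ≤ D := fun f a b c =>
    hV f a ((nat_dvd_iff f V).2 ⟨b, c⟩)
  set R : ℝ := (D : ℝ) ^ (1 / 4 : ℝ) with hR
  have hR1 : 1 ≤ R := Real.one_le_rpow hD' (by norm_num)
  have hR4 : R ^ 4 = D := by
    rw [hR, ← Real.rpow_natCast, ← Real.rpow_mul hD0.le]; norm_num
  let A : ℤ → Finset ℕ := fun j => (range (2 * y + 1)).filter fun t : ℕ =>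
    (D : ℤ) ∣ (V.norm + 2 * V.re) * t ^ 2 + 4 * m * V.im * (m * j) * t +
      m * (m * j) ^ 2 * (V.norm - 2 * V.re)
  let B : ℤ → Finset (O m) := fun j => (A j).image fun t : ℕ => (⟨t, m * j⟩ : O m)
  have hB : ∀ j : ℤ, ((B j).card : ℝ) ≤ 48 * y * m * Nat.gcd j.natAbs D / R := fun j => by
    have a1 : ((B j).card : ℝ) ≤ (A j).card := by exact_mod_cast card_image_le
    refine a1.trans ((fib_FLQuad0 m D (2 * y + 1) hm hD (by omega) _ _ _ j hV' R hR1 hR4).trans ?_)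
    have a2 : ((2 * y + 1 : ℕ) : ℝ) ≤ 3 * y := by exact_mod_cast (by omega : 2 * y + 1 ≤ 3 * y)
    calc 16 * ((2 * y + 1 : ℕ) : ℝ) * m * Nat.gcd j.natAbs D / R
        ≤ 16 * (3 * y) * m * Nat.gcd j.natAbs D / R := by gcongr
      _ = _ := by ring
  have hsub : (F.filter fun δ => (D : ℤ) ∣ V.norm * δ.norm + 2 * (star V * δ ^ 2).re) ⊆
      (Icc 1 J).biUnion fun j : ℕ => B j ∪ B (-j) := fun δ hδ => by
    obtain ⟨hF, hd⟩ := mem_filter.1 hδ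
    obtain ⟨b1, b2, ⟨j, hj⟩, b4⟩ := h.box δ hF
    have b5 := h.im_ne hF
    have hm' : (0 : ℤ) < m := by exact_mod_cast hm
    have hj0 : j ≠ 0 := fun e => b5 (by rw [hj, e, mul_zero])
    have hjJ : |j| ≤ J := by
      rw [hj, abs_mul, abs_of_pos hm'] at b4
      exact le_of_mul_le_mul_left b4 hm'
    have hx : ((δ.re.toNat : ℕ) : ℤ) = δ.re := Int.toNat_of_nonneg (by omega)
    have hmem : δ ∈ B j := by
      refine mem_image.2 ⟨δ.re.toNat, mem_filter.2 ⟨mem_range.2 (by omega), ?_⟩, ?_⟩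
      · rw [hx]
        convert hd using 1
        rw [norm_eq δ, ← hj]
        simp [Zsqrtd.re_mul, Zsqrtd.im_mul, sq]
        ring
      · ext <;> simp [hj]
        omega
    rw [← Int.natCast_natAbs] at hjJ
    refine mem_biUnion.2 ⟨j.natAbs, mem_Icc.2 ⟨by omega, by omega⟩, mem_union.2 ?_⟩
    rcases Int.natAbs_eq j with e | e
    · exact Or.inl (e ▸ hmem)
    · exact Or.inr (e ▸ hmem)
  have s1 : ((F.filter fun δ => (D : ℤ) ∣ V.norm * δ.norm + 2 * (star V * δ ^ 2).re).card : ℝ) ≤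
      ∑ j ∈ Icc 1 J, (((B (j : ℕ)).card : ℝ) + (B (-(j : ℕ))).card) := by
    exact_mod_cast (card_le_card hsub).trans
      (card_biUnion_le.trans (sum_le_sum fun j _ => card_union_le _ _))
  have s2 : ∑ j ∈ Icc 1 J, (((B (j : ℕ)).card : ℝ) + (B (-(j : ℕ))).card) ≤
      ∑ j ∈ Icc 1 J, 96 * y * m / R * (Nat.gcd j D : ℝ) := sum_le_sum fun j _ => by
    have a1 := hB j
    have a2 := hB (-j)
    rw [Int.natAbs_neg] at a2
    rw [Int.natAbs_natCast] at a1 a2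
    calc _ ≤ 48 * y * m * (Nat.gcd j D : ℝ) / R + 48 * y * m * (Nat.gcd j D : ℝ) / R :=
          add_le_add a1 a2
      _ = _ := by ring
  rw [← mul_sum] at s2
  have s3 := gcd_sum D J hD
  have s4 := hS.tau D hD
  set E : ℝ := (D : ℝ) ^ (1 / 1000 : ℝ) with hE
  have hE0 : 0 < E := Real.rpow_pos_of_pos hD0 _
  have hkE : k ≤ E := by
    refine le_of_pow_le_pow_left₀ (n := 1000) (by norm_num) hE0.le ?_
    rw [hE, ← Real.rpow_natCast ((D : ℝ) ^ (1 / 1000 : ℝ)), ← Real.rpow_mul hD0.le]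
    norm_num
    exact h1
  have hER : E * E / R ≤ (D : ℝ) ^ (-12 / 100 : ℝ) := by
    rw [hE, hR, ← Real.rpow_add hD0, ← Real.rpow_sub hD0]
    exact Real.rpow_le_rpow_of_exponent_le hD' (by norm_num)
  have hk0 : 0 ≤ k := by linarith
  have hR0 : 0 < R := by linarith
  have hmk := hS.mk'
  have hb : (y : ℝ) * J ≤ E * F.card := h.big.trans (by gcongr)
  calc _ ≤ 96 * y * m / R * (D.divisors.card * J) :=
        s1.trans (s2.trans (by gcongr))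
    _ = 96 * m * D.divisors.card * (y * J) / R := by ring
    _ ≤ 100 * k * (k * E) * (E * F.card) / R := by
        refine div_le_div_of_nonneg_right (mul_le_mul (mul_le_mul (mul_le_mul (by norm_num) hmk
          (by positivity) (by positivity)) s4 (by positivity) (by positivity)) hb (by positivity)
          (by positivity)) hR0.le
    _ = 100 * k ^ 2 * (E * E / R) * F.card := by ring
    _ ≤ _ := by gcongr

end Pool.Agent.P.MP_b75a1e_co.EG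
end

-- part Pool.Agent.P.MP_b75a1e_co.FLSupply
section

set_option autoImplicit false

open Finset
open scoped BigOperators ComplexConjugate

namespace Pool.Agent.P.MP_b75a1e_co.EG

theorem sqfree_le_Supply {m p : ℕ} (hsq : Squarefree m) (hmax : ∀ q, q.Prime → q ∣ m → q ≤ p) :
    m ≤ 2 ^ (2 * p) := by
  have h1 : m ∣ primorial p := by
    rw [← Nat.prod_primeFactors_of_squarefree hsq]
    unfold primorial
    refine Finset.prod_dvd_prod_of_subset _ _ _ fun q hq => ?_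
    have hq' := Nat.prime_of_mem_primeFactors hq
    have := hmax q hq' (Nat.dvd_of_mem_primeFactors hq)
    simp only [Finset.mem_filter, Finset.mem_range]
    exact ⟨by omega, hq'⟩
  calc m ≤ primorial p := Nat.le_of_dvd (primorial_pos p) h1
    _ ≤ 4 ^ p := primorial_le_four_pow p
    _ = 2 ^ (2 * p) := by rw [pow_mul]; norm_num

theorem final_Supply (c C : ℝ) (hc : 0 < c) (hC : 0 < C) : ∃ B0 : ℕ, ∀ b : ℕ, B0 ≤ b →
    ∀ S : ℝ, S ≤ 10 ^ 11 * Real.sqrt b + 1 →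
      3 * C * Real.exp S < c * Real.exp (b / 200) := by
  set L : ℝ := |Real.log (3 * C / c)| with hL
  have hL0 : 0 ≤ L := abs_nonneg _
  set s0 : ℝ := 200 * (10 ^ 11 + 1 + L) + 1 with hs0
  refine ⟨⌈s0 ^ 2⌉₊, fun b hb S hS => ?_⟩
  have hb' : s0 ^ 2 ≤ b := Nat.ceil_le.1 hb
  have hs00 : 0 ≤ s0 := by positivity
  have hs : s0 ≤ Real.sqrt b := Real.le_sqrt_of_sq_le hb'
  have hsq : Real.sqrt b * Real.sqrt b = b := Real.mul_self_sqrt (Nat.cast_nonneg b)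
  generalize Real.sqrt b = s at hs hsq hS
  have hs1 : 1 ≤ s := by
    have : (0 : ℝ) ≤ 200 * (10 ^ 11 + 1 + L) := by positivity
    linarith
  have h1 : s0 * s ≤ s * s := mul_le_mul_of_nonneg_right hs (by linarith)
  have h2 : (1 + L) * 1 ≤ (1 + L) * s := mul_le_mul_of_nonneg_left hs1 (by linarith)
  have h3 : S + L < b / 200 := by
    rw [← hsq]
    rw [hs0] at h1
    nlinarith
  have h4 : 3 * C / c ≤ Real.exp L := by
    calc 3 * C / c = Real.exp (Real.log (3 * C / c)) := (Real.exp_log (by positivity)).symm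
      _ ≤ Real.exp L := Real.exp_le_exp.2 (le_abs_self _)
  have h5 : 3 * C ≤ c * Real.exp L := by
    rw [div_le_iff₀ hc] at h4
    linarith
  calc 3 * C * Real.exp S ≤ c * Real.exp L * Real.exp S :=
        mul_le_mul_of_nonneg_right h5 (Real.exp_pos _).le
    _ = c * Real.exp (S + L) := by rw [Real.exp_add]; ring
    _ < c * Real.exp (b / 200) := mul_lt_mul_of_pos_left (Real.exp_lt_exp.2 h3) hc

theorem two_rpow_Supply (p lp b : ℕ) (h2 : 2 ^ lp ≤ 2 * p) (hb : p ≤ 2 * 10 ^ 12 * b) :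
    (2 : ℝ) ^ ((1001 / 50000 : ℝ) * ((20 * lp : ℕ) : ℝ)) ≤ 2 * 10 ^ 6 * Real.sqrt b := by
  have h1 : (2 : ℝ) ^ ((1001 / 50000 : ℝ) * ((20 * lp : ℕ) : ℝ)) ≤ (2 : ℝ) ^ ((lp : ℝ) * (1 / 2)) := by
    refine Real.rpow_le_rpow_of_exponent_le (by norm_num) ?_
    push_cast
    have : (0 : ℝ) ≤ lp := Nat.cast_nonneg lp
    linarith
  refine h1.trans ?_
  rw [Real.rpow_mul (by norm_num), ← Real.sqrt_eq_rpow, Real.rpow_natCast]
  have h3 : (2 : ℝ) ^ lp ≤ (2 * 10 ^ 6) ^ 2 * b := by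
    have h4 : 2 ^ lp ≤ (2 * 10 ^ 6) ^ 2 * b := by
      have : (2 * 10 ^ 6) ^ 2 * b = 2 * (2 * 10 ^ 12 * b) := by ring
      omega
    exact_mod_cast h4
  calc Real.sqrt ((2 : ℝ) ^ lp) ≤ Real.sqrt ((2 * 10 ^ 6) ^ 2 * b) := Real.sqrt_le_sqrt h3
    _ = 2 * 10 ^ 6 * Real.sqrt b := by
        rw [Real.sqrt_mul (by positivity), Real.sqrt_sq (by positivity)]

/-- Every admissible modulus has a pool of split primes at some scale below `exp (c p)`. -/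
theorem supply : ∃ p0 : ℕ, ∀ m p lp : ℕ, p0 ≤ p → Squarefree m → m % 4 = 3 →
    (∀ q, q.Prime → q ∣ m → q ≤ p) → p < 2 ^ lp → 2 ^ lp ≤ 2 * p →
    ∃ (κ : ℕ) (PP : Finset ℕ), 20 * lp ≤ κ ∧ 10 ^ 12 * κ ≤ p ∧
      (∀ l ∈ PP, Split m l ∧ 2 ^ (990 * κ) < l ∧ l ≤ 2 ^ (1001 * κ)) ∧ 2 ^ (998 * κ) ≤ PP.card := by
  obtain ⟨r, hr⟩ : ∃ r : ℕ, r = 10 ^ 11 := ⟨_, rfl⟩
  obtain ⟨c, Z0, hc, hlow⟩ := lower r (1 / 10000) (by norm_num)
  obtain ⟨C, hC, hdiv⟩ := Pool.Agent.EQ.div_bound (ε := 1 / 200000) (by norm_num)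
  obtain ⟨B0, hB0⟩ := final_Supply c C hc hC
  refine ⟨10 ^ 12 * (B0 + Z0 + 2000), fun m p lp hp hsq h4 hmax h1 h2 => ?_⟩
  by_contra hcon
  obtain ⟨b, hb⟩ : ∃ b : ℕ, b = p / 10 ^ 12 := ⟨_, rfl⟩
  have hb1 : 10 ^ 12 * b ≤ p := by rw [hb]; exact Nat.mul_div_le p _
  have hb2 : p < 10 ^ 12 * (b + 1) := by
    rw [hb]; exact Nat.lt_mul_div_succ p (by norm_num)
  have hb3 : B0 + Z0 + 2000 ≤ b := by
    rw [hb]
    exact (Nat.le_div_iff_mul_le (by norm_num)).2 (by rw [mul_comm]; exact hp)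
  have hlp : 50 ≤ lp := by
    by_contra h
    have h5 : 2 ^ lp ≤ 2 ^ 50 := Nat.pow_le_pow_right (by norm_num) (by omega)
    omega
  have hfew := few_sum m p (20 * lp) b h4 hmax (by omega)
    (h1.le.trans (Nat.pow_le_pow_right (by norm_num) (by omega))) (by
      intro κ hκ1 hκ2 PP hPP
      by_contra h
      refine hcon ⟨κ, PP, hκ1, ?_, hPP, not_lt.1 h⟩
      exact (Nat.mul_le_mul_left _ hκ2).trans hb1)
  have hbpow : b + 1 ≤ 2 ^ b := Nat.lt_two_pow_self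
  have hZp : p ≤ 2 ^ (50 * b) := by
    have h5 : 2 ^ 49 ≤ 2 ^ (49 * b) := Nat.pow_le_pow_right (by norm_num) (by omega)
    calc p ≤ 10 ^ 12 * (b + 1) := hb2.le
      _ ≤ 2 ^ (49 * b) * 2 ^ b := Nat.mul_le_mul (le_trans (by norm_num) h5) hbpow
      _ = 2 ^ (50 * b) := by rw [← pow_add]; congr 1; ring
  have hZ0 : Z0 ≤ 2 ^ (50 * b) := by omega
  have hm : m ≤ (2 ^ (50 * b)) ^ r := by
    rw [← pow_mul]
    refine (sqfree_le_Supply hsq hmax).trans (Nat.pow_le_pow_right (by norm_num) ?_)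
    have : 50 * b * r = 5 * 10 ^ 12 * b := by rw [hr]; ring
    omega
  have hlo := hlow m (2 ^ (50 * b)) hZ0 (Nat.odd_iff.2 (by omega)) hsq (by omega)
    (fun l hl hlm => (hmax l hl hlm).trans hZp) hm
  have hX : (2 ^ (50 * b)) ^ 20 = 2 ^ (1000 * b) := by rw [← pow_mul]; congr 1; ring
  rw [hX] at hlo
  have hup := upper m (2 ^ (1000 * b)) (49999 / 50000)
    (C * ((2 ^ (1000 * b) : ℕ) : ℝ) ^ (1 / 200000 : ℝ)) (by norm_num) (by positivity) (by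
      intro n hn
      rw [Finset.mem_Icc] at hn
      refine (hdiv n hn.1).trans (mul_le_mul_of_nonneg_left ?_ hC.le)
      exact Real.rpow_le_rpow (Nat.cast_nonneg n) (by exact_mod_cast hn.2) (by norm_num))
  have hS := two_rpow_Supply p lp b h2 (by omega)
  generalize hSS : ∑ l ∈ (Icc 1 (2 ^ (1000 * b))).filter
    (fun l : ℕ => l.Prime ∧ jacobiSym l m ≠ -1), (l : ℝ) ^ (-(49999 / 50000) : ℝ) = S at hfew hup
  have hfin := hB0 b (by omega) S (by linarith)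
  have hall := hlo.trans hup
  have e1 : ((2 ^ (50 * b) : ℕ) : ℝ) = Real.exp (50 * (b * Real.log 2)) := by
    rw [show 50 * (b * Real.log 2) = ((50 * b : ℕ) : ℝ) * Real.log 2 by push_cast; ring,
      ← Real.log_pow, Real.exp_log (by positivity)]
    push_cast
    rfl
  have e2 : ((2 ^ (1000 * b) : ℕ) : ℝ) = Real.exp (1000 * (b * Real.log 2)) := by
    rw [show 1000 * (b * Real.log 2) = ((1000 * b : ℕ) : ℝ) * Real.log 2 by push_cast; ring,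
      ← Real.log_pow, Real.exp_log (by positivity)]
    push_cast
    rfl
  rw [e1, e2, ← Real.exp_nat_mul, ← Real.exp_mul, ← Real.exp_mul, ← Real.exp_mul] at hall
  have hl2 : (b : ℝ) / 2 ≤ b * Real.log 2 := by
    have := Real.log_two_gt_d9
    have h0 : (0 : ℝ) ≤ b := Nat.cast_nonneg b
    nlinarith
  generalize b * Real.log 2 = t at hall hl2
  have e3 : c * Real.exp (((20 : ℕ) : ℝ) * (50 * t)) * Real.exp (50 * t * -(1 / 10000)) =
      (c * Real.exp (t / 100)) * Real.exp (1000 * t - 3 * t / 200) := by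
    rw [mul_assoc c, mul_assoc c, ← Real.exp_add, ← Real.exp_add]
    congr 2
    push_cast
    ring
  have e4 : 3 * (C * Real.exp (1000 * t * (1 / 200000))) * Real.exp (1000 * t * (49999 / 50000)) *
      Real.exp S = (3 * C * Real.exp S) * Real.exp (1000 * t - 3 * t / 200) := by
    have : Real.exp (1000 * t - 3 * t / 200) =
        Real.exp (1000 * t * (1 / 200000)) * Real.exp (1000 * t * (49999 / 50000)) := by
      rw [← Real.exp_add]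
      congr 1
      ring
    rw [this]
    ring
  rw [e3, e4] at hall
  have h6 := le_of_mul_le_mul_right hall (Real.exp_pos _)
  have h7 : c * Real.exp (b / 200) ≤ c * Real.exp (t / 100) :=
    mul_le_mul_of_nonneg_left (Real.exp_le_exp.2 (by linarith)) hc.le
  linarith

end Pool.Agent.P.MP_b75a1e_co.EG
end

-- part Pool.Agent.P.MP_b75a1e_co.FLQuad
section

set_option autoImplicit false

open Finset
open scoped BigOperators ComplexConjugate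

namespace Pool.Agent.P.MP_b75a1e_co.EG

variable {m y J : ℕ} {k : ℝ} {F : Finset (O m)}

open Classical in
theorem lin_FLQuad (hS : Sml m k) (h : Fam m y J k F) (D g : ℕ) (hD1 : 1 ≤ D) (hD : D ≤ y)
    (hg : g ∣ D) (B : O m) :
    ∑ δ ∈ F, (if (g : O m) ∣ tb D δ - B then (1 : ℝ) else 0) ≤
      10 * k ^ 4 * (g : ℝ) ^ (-999 / 1000 : ℝ) * F.card := by
  have h1 := tb_lin hS h D g hD1 hD hg 1 (-B) 1 (by
    intro f _ hf _
    have h2 := ((nat_dvd_iff f 1).1 hf).1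
    have h3 : (f : ℤ) ∣ 1 := by simpa using h2
    have h4 : f ∣ 1 := by exact_mod_cast h3
    have h5 : f = 1 := Nat.dvd_one.1 h4
    simp [h5])
  rw [Finset.sum_boole]
  simpa [sub_eq_add_neg] using h1

theorem norm_cong_FLQuad {E : ℕ} {a b : O m} (h : (E : O m) ∣ a - b) :
    (E : ℤ) ∣ a.norm - b.norm := by
  obtain ⟨h1, h2⟩ := (nat_dvd_iff E _).1 h
  rw [Zsqrtd.re_sub] at h1
  rw [Zsqrtd.im_sub] at h2
  rw [norm_eq, norm_eq]
  have : a.re ^ 2 + m * a.im ^ 2 - (b.re ^ 2 + m * b.im ^ 2) =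
      (a.re - b.re) * (a.re + b.re) + (a.im - b.im) * (m * (a.im + b.im)) := by ring
  rw [this]
  exact dvd_add (h1.mul_right _) (h2.mul_right _)

theorem norm_add_FLQuad (a V : O m) : (a + V).norm = a.norm + V.norm + 2 * (star V * a).re := by
  rw [norm_eq, norm_eq, norm_eq]
  simp only [Zsqrtd.re_add, Zsqrtd.im_add, Zsqrtd.re_mul, Zsqrtd.re_star, Zsqrtd.im_star]
  ring

theorem quad_FLQuad (h : Fam m y J k F) {D E : ℕ} (hD1 : 1 ≤ D) (hD : D ≤ y) (hd : E ∣ D)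
    {δ δ' : O m} (hδ : δ ∈ F) (hδ' : δ' ∈ F) (V : O m)
    (hV : (E : O m) ∣ tb D δ - (tb D δ' + V)) :
    (E : ℤ) ∣ V.norm * δ'.norm + 2 * (star V * δ' ^ 2).re := by
  have hd' : (E : ℤ) ∣ (D : ℤ) := by exact_mod_cast hd
  have a1 := hd'.trans (tb_norm hD1 (h.cop hδ hD1 hD))
  have a2 := hd'.trans (tb_norm hD1 (h.cop hδ' hD1 hD))
  have a3 := norm_cong_FLQuad hV
  rw [norm_add_FLQuad] at a3
  have a4 : (E : ℤ) ∣ V.norm + 2 * (star V * tb D δ').re := by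
    have := dvd_sub (dvd_sub a1 a2) a3
    have e : (tb D δ).norm - 1 - ((tb D δ').norm - 1) -
        ((tb D δ).norm - ((tb D δ').norm + V.norm + 2 * (star V * tb D δ').re)) =
        V.norm + 2 * (star V * tb D δ').re := by ring
    rwa [e] at this
  have a5 := hd'.trans (inv_spec hD1 (h.cop hδ' hD1 hD))
  have a6 : (star V * tb D δ').re =
      (star V * δ' ^ 2).re * ((((δ'.norm : ZMod D)⁻¹).val : ℕ) : ℤ) := by
    unfold tb
    rw [← mul_assoc]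
    generalize (((δ'.norm : ZMod D)⁻¹).val : ℕ) = i
    generalize star V * δ' ^ 2 = w
    simp [Zsqrtd.re_mul]
  rw [a6] at a4
  generalize ((((δ'.norm : ZMod D)⁻¹).val : ℕ) : ℤ) = i at a4 a5
  generalize (star V * δ' ^ 2).re = r at a4 ⊢
  have e : V.norm * δ'.norm + 2 * r =
      (V.norm + 2 * (r * i)) * δ'.norm - (δ'.norm * i - 1) * (2 * r) := by ring
  rw [e]
  exact dvd_sub (a4.mul_right _) (a5.mul_right _)

open Classical in
theorem bad_FLQuad (hS : Sml m k) (h : Fam m y J k F) (D E : ℕ) (hD1 : 1 ≤ D) (hD : D ≤ y)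
    (hd : E ∣ D) (B : O m) :
    ∑ δ ∈ F, (if ∀ f : ℕ, f ∣ E → (f : O m) ∣ tb D δ - B → f ^ 4 ≤ E then (0 : ℝ) else 1) ≤
      10 * k ^ 5 * (E : ℝ) ^ (-12 / 100 : ℝ) * F.card := by
  have hE1 : 1 ≤ E := Nat.pos_of_dvd_of_pos hd hD1
  have hE : (1 : ℝ) ≤ E := by exact_mod_cast hE1
  have hk : (0 : ℝ) ≤ k := le_trans (by norm_num) hS.k1
  set G := E.divisors.filter fun g => E < g ^ 4 with hG
  have s1 : ∀ δ ∈ F,
      (if ∀ f : ℕ, f ∣ E → (f : O m) ∣ tb D δ - B → f ^ 4 ≤ E then (0 : ℝ) else 1) ≤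
        ∑ g ∈ G, (if (g : O m) ∣ tb D δ - B then (1 : ℝ) else 0) := by
    intro δ _
    split_ifs with hc
    · exact Finset.sum_nonneg fun g _ => by split_ifs <;> norm_num
    · push Not at hc
      obtain ⟨f, hf1, hf2, hf3⟩ := hc
      have hfG : f ∈ G := by
        rw [hG, Finset.mem_filter, Nat.mem_divisors]
        exact ⟨⟨hf1, by omega⟩, hf3⟩
      have := Finset.single_le_sum
        (f := fun g : ℕ => if (g : O m) ∣ tb D δ - B then (1 : ℝ) else 0)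
        (fun g _ => by split_ifs <;> norm_num) hfG
      simpa [hf2] using this
  have s2 : ∀ g ∈ G, ∑ δ ∈ F, (if (g : O m) ∣ tb D δ - B then (1 : ℝ) else 0) ≤
      10 * k ^ 4 * (E : ℝ) ^ (-999 / 4000 : ℝ) * F.card := by
    intro g hg
    rw [hG, Finset.mem_filter, Nat.mem_divisors] at hg
    refine (lin_FLQuad hS h D g hD1 hD (hg.1.1.trans hd) B).trans ?_
    have hg0 : (0 : ℝ) ≤ g := by positivity
    have b1 : (E : ℝ) ≤ (g : ℝ) ^ 4 := by exact_mod_cast hg.2.le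
    have b2 : (g : ℝ) ^ (-999 / 1000 : ℝ) = ((g : ℝ) ^ 4) ^ (-999 / 4000 : ℝ) := by
      rw [← Real.rpow_natCast, ← Real.rpow_mul hg0]
      norm_num
    have b3 : ((g : ℝ) ^ 4) ^ (-999 / 4000 : ℝ) ≤ (E : ℝ) ^ (-999 / 4000 : ℝ) :=
      Real.rpow_le_rpow_of_nonpos (by linarith) b1 (by norm_num)
    rw [b2]
    gcongr
  have s3 : (G.card : ℝ) ≤ k * (E : ℝ) ^ (1 / 1000 : ℝ) := by
    refine le_trans ?_ (hS.tau E hE1)
    exact_mod_cast Finset.card_filter_le _ _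
  have s4 : (E : ℝ) ^ (1 / 1000 : ℝ) * (E : ℝ) ^ (-999 / 4000 : ℝ) ≤
      (E : ℝ) ^ (-12 / 100 : ℝ) := by
    rw [← Real.rpow_add (by linarith)]
    exact Real.rpow_le_rpow_of_exponent_le hE (by norm_num)
  calc _ ≤ ∑ δ ∈ F, ∑ g ∈ G, (if (g : O m) ∣ tb D δ - B then (1 : ℝ) else 0) :=
        Finset.sum_le_sum s1
    _ = ∑ g ∈ G, ∑ δ ∈ F, (if (g : O m) ∣ tb D δ - B then (1 : ℝ) else 0) := Finset.sum_comm
    _ ≤ ∑ _g ∈ G, 10 * k ^ 4 * (E : ℝ) ^ (-999 / 4000 : ℝ) * F.card := Finset.sum_le_sum s2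
    _ = G.card * (10 * k ^ 4 * (E : ℝ) ^ (-999 / 4000 : ℝ) * F.card) := by
        rw [Finset.sum_const, nsmul_eq_mul]
    _ ≤ k * (E : ℝ) ^ (1 / 1000 : ℝ) * (10 * k ^ 4 * (E : ℝ) ^ (-999 / 4000 : ℝ) * F.card) := by
        gcongr
    _ = 10 * k ^ 5 * ((E : ℝ) ^ (1 / 1000 : ℝ) * (E : ℝ) ^ (-999 / 4000 : ℝ)) * F.card := by ring
    _ ≤ _ := by gcongr

open Classical in
theorem fix_FLQuad (hS : Sml m k) (h : Fam m y J k F) (D E : ℕ) (hD1 : 1 ≤ D) (hD : D ≤ y)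
    (hd : E ∣ D) (h1 : k ^ 1000 ≤ E) (V : O m) :
    ∑ δ ∈ F, ∑ δ' ∈ F, (if (E : O m) ∣ (tb D δ - tb D δ') - V then (1 : ℝ) else 0) ≤
      10 * k ^ 4 * (E : ℝ) ^ (-999 / 1000 : ℝ) * F.card * F.card *
        (100 * k ^ 2 * (E : ℝ) ^ (-12 / 100 : ℝ) +
          if ∀ f : ℕ, f ∣ E → (f : O m) ∣ V → f ^ 4 ≤ E then (0 : ℝ) else 1) := by
  have hk : (0 : ℝ) ≤ k := le_trans (by norm_num) hS.k1
  have hEy : E ≤ y := (Nat.le_of_dvd hD1 hd).trans hD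
  rw [Finset.sum_comm]
  set a : ℝ := 10 * k ^ 4 * (E : ℝ) ^ (-999 / 1000 : ℝ) * F.card with ha
  have ha0 : 0 ≤ a := by positivity
  have s1 : ∀ δ' ∈ F, ∑ δ ∈ F, (if (E : O m) ∣ (tb D δ - tb D δ') - V then (1 : ℝ) else 0) ≤
      a * (if (E : ℤ) ∣ V.norm * δ'.norm + 2 * (star V * δ' ^ 2).re then (1 : ℝ) else 0) := by
    intro δ' hδ'
    have e : ∀ δ : O m, tb D δ - tb D δ' - V = tb D δ - (tb D δ' + V) := fun δ => by ring
    simp only [e]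
    by_cases hc : (E : ℤ) ∣ V.norm * δ'.norm + 2 * (star V * δ' ^ 2).re
    · rw [if_pos hc, mul_one]
      exact lin_FLQuad hS h D E hD1 hD hd _
    · rw [if_neg hc, mul_zero]
      refine le_of_eq (Finset.sum_eq_zero fun δ hδ => if_neg fun hv => hc ?_)
      exact quad_FLQuad h hD1 hD hd hδ hδ' V hv
  refine (Finset.sum_le_sum s1).trans ?_
  rw [← Finset.mul_sum, Finset.sum_boole, mul_assoc a]
  refine mul_le_mul_of_nonneg_left ?_ ha0
  split_ifs with hc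
  · have := cnt_quad hS h E h1 hEy V hc
    linarith
  · have b1 : ((F.filter fun δ' =>
        (E : ℤ) ∣ V.norm * δ'.norm + 2 * (star V * δ' ^ 2).re).card : ℝ) ≤ F.card := by
      exact_mod_cast Finset.card_filter_le _ _
    have b2 : (0 : ℝ) ≤ F.card * (100 * k ^ 2 * (E : ℝ) ^ (-12 / 100 : ℝ)) := by positivity
    linarith

open Classical in
/-- The additive energy of the reduced rotations. -/
theorem energy (hS : Sml m k) (h : Fam m y J k F) (D D' : ℕ) (hD1 : 1 ≤ D) (hD : D ≤ y)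
    (hd : D' ∣ D) (h1 : k ^ 1000 ≤ D') :
    𝔼 q : (F × F) × (F × F), (if (D' : O m) ∣ (tb D (q.1.1 : O m) - tb D (q.1.2 : O m)) -
      (tb D (q.2.1 : O m) - tb D (q.2.2 : O m)) then (1 : ℝ) else 0) ≤
      2000 * k ^ 9 * (D' : ℝ) ^ (-111 / 100 : ℝ) := by
  have hk1 : (1 : ℝ) ≤ k := le_trans (by norm_num) hS.k1
  have hE1 : 1 ≤ D' := Nat.pos_of_dvd_of_pos hd hD1
  have hE : (1 : ℝ) ≤ D' := by exact_mod_cast hE1
  have hN : (0 : ℝ) < F.card := by exact_mod_cast (h.ne hS.m1).card_pos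
  have two : ∀ φ : O m → O m → ℝ, ∑ p : F × F, φ p.1 p.2 = ∑ δ ∈ F, ∑ δ' ∈ F, φ δ δ' := by
    intro φ
    rw [Fintype.sum_prod_type, ← Finset.sum_coe_sort F]
    exact Finset.sum_congr rfl fun δ _ => Finset.sum_coe_sort F (φ δ)
  set a : ℝ := 10 * k ^ 4 * (D' : ℝ) ^ (-999 / 1000 : ℝ) * F.card * F.card with ha
  have ha0 : 0 ≤ a := by positivity
  set b : ℝ := (D' : ℝ) ^ (-12 / 100 : ℝ) with hb
  have hb0 : 0 ≤ b := by positivity
  have s1 : ∑ q : (F × F) × (F × F), (if (D' : O m) ∣ (tb D (q.1.1 : O m) - tb D (q.1.2 : O m)) -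
      (tb D (q.2.1 : O m) - tb D (q.2.2 : O m)) then (1 : ℝ) else 0) ≤
      ∑ p : F × F, a * (100 * k ^ 2 * b + if ∀ f : ℕ, f ∣ D' →
        (f : O m) ∣ tb D (p.1 : O m) - tb D (p.2 : O m) → f ^ 4 ≤ D' then (0 : ℝ) else 1) := by
    rw [Fintype.sum_prod_type_right]
    refine Finset.sum_le_sum fun p _ => ?_
    have := two fun δ δ' => if (D' : O m) ∣ (tb D δ - tb D δ') -
      (tb D (p.1 : O m) - tb D (p.2 : O m)) then (1 : ℝ) else 0
    exact this.le.trans (fix_FLQuad hS h D D' hD1 hD hd h1 _)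
  have s2 : ∑ p : F × F, (if ∀ f : ℕ, f ∣ D' →
        (f : O m) ∣ tb D (p.1 : O m) - tb D (p.2 : O m) → f ^ 4 ≤ D' then (0 : ℝ) else 1) ≤
      F.card * (10 * k ^ 5 * b * F.card) := by
    have := two fun δ δ' => if ∀ f : ℕ, f ∣ D' →
        (f : O m) ∣ tb D δ - tb D δ' → f ^ 4 ≤ D' then (0 : ℝ) else 1
    refine this.le.trans ?_
    rw [Finset.sum_comm]
    refine (Finset.sum_le_sum fun δ' _ => bad_FLQuad hS h D D' hD1 hD hd (tb D δ')).trans ?_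
    rw [Finset.sum_const, nsmul_eq_mul]
  rw [← Finset.mul_sum, Finset.sum_add_distrib, Finset.sum_const, nsmul_eq_mul] at s1
  have c1 : ((univ : Finset (F × F)).card : ℝ) = F.card * F.card := by
    simp
  have c2 : (Fintype.card ((F × F) × (F × F)) : ℝ) = F.card * F.card * (F.card * F.card) := by
    simp
  rw [c1] at s1
  rw [Fintype.expect_eq_sum_div_card, c2, div_le_iff₀ (by positivity)]
  have s4 : (D' : ℝ) ^ (-999 / 1000 : ℝ) * b ≤ (D' : ℝ) ^ (-111 / 100 : ℝ) := by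
    rw [hb, ← Real.rpow_add (by linarith)]
    exact Real.rpow_le_rpow_of_exponent_le hE (by norm_num)
  have s5 : 10 * k ^ 4 * (100 * k ^ 2 + 10 * k ^ 5) ≤ 2000 * k ^ 9 := by
    have : k ^ 6 ≤ k ^ 9 := pow_le_pow_right₀ hk1 (by norm_num)
    have : 0 ≤ k ^ 9 := by positivity
    nlinarith
  calc _ ≤ a * (F.card * F.card * (100 * k ^ 2 * b) + F.card * (10 * k ^ 5 * b * F.card)) :=
        s1.trans (by gcongr)
    _ = 10 * k ^ 4 * (100 * k ^ 2 + 10 * k ^ 5) * ((D' : ℝ) ^ (-999 / 1000 : ℝ) * b) *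
        (F.card * F.card * (F.card * F.card)) := by rw [ha]; ring
    _ ≤ _ := by gcongr

end Pool.Agent.P.MP_b75a1e_co.EG
end

-- part Pool.Agent.P.MP_b75a1e_co.FLArith
section

set_option autoImplicit false

open Finset
open scoped BigOperators ComplexConjugate

namespace Pool.Agent.P.MP_b75a1e_co.EG

variable {m s y J : ℕ} {k ν : ℝ} {F U : Finset (O m)} {e : O m}

theorem exp_sub_FLArith {M : Type} [AddCommMonoid M] [Module ℚ≥0 M] (F : Finset (O m))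
    (f : O m → M) : 𝔼 δ ∈ F, f δ = 𝔼 δ : F, f δ := by
  rw [Finset.expect, Finset.expect, Finset.card_univ, Fintype.card_coe, Finset.sum_coe_sort]

theorem norm_exp_le_FLArith {ι : Type} (T : Finset ι) (f : ι → ℂ) (c : ℝ) (hc : 0 ≤ c)
    (h : ∀ i ∈ T, ‖f i‖ ≤ c) : ‖𝔼 i ∈ T, f i‖ ≤ c := by
  refine (RCLike.norm_expect_le (K := ℂ)).trans ?_
  rcases T.eq_empty_or_nonempty with rfl | hT
  · simpa using hc
  · exact Finset.expect_le hT h

theorem sq_exp_le_FLArith {Ω : Type} [Fintype Ω] (f : Ω → ℂ) :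
    ‖𝔼 i, f i‖ ^ 2 ≤ 𝔼 i, ‖f i‖ ^ 2 := by
  have h1 : ‖𝔼 i, f i‖ ≤ 𝔼 i, ‖f i‖ := RCLike.norm_expect_le (K := ℂ)
  have h2 := Finset.expect_mul_sq_le_sq_mul_sq (univ : Finset Ω) (fun i => ‖f i‖) (fun _ => (1 : ℝ))
  have h3 : 𝔼 _i : Ω, (1 : ℝ) ^ 2 ≤ 1 := by
    rcases isEmpty_or_nonempty Ω with hΩ | hΩ
    · simp
    · simp
  have h4 : 0 ≤ 𝔼 i, ‖f i‖ ^ 2 := Finset.expect_nonneg fun i _ => by positivity
  simp only [mul_one] at h2
  calc ‖𝔼 i, f i‖ ^ 2 ≤ (𝔼 i, ‖f i‖) ^ 2 := pow_le_pow_left₀ (norm_nonneg _) h1 2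
    _ ≤ (𝔼 i, ‖f i‖ ^ 2) * 𝔼 _i : Ω, (1 : ℝ) ^ 2 := h2
    _ ≤ (𝔼 i, ‖f i‖ ^ 2) * 1 := mul_le_mul_of_nonneg_left h3 h4
    _ = _ := mul_one _

open Classical in
theorem coll_FLArith (hS : Sml m k) (h : Fam m y J k F) (D D' : ℕ) (hD1 : 1 ≤ D) (hD : D ≤ y)
    (hd : D' ∣ D) (γ : O m) (hγ : ∀ f : ℕ, f ∣ D' → (f : O m) ∣ γ → (f : ℝ) ≤ 1) :
    (𝔼 q : F × F, if (D' : O m) ∣ γ * (tb D (q.1 : O m) - tb D (q.2 : O m)) then (1 : ℝ) else 0) ≤
      10 * k ^ 4 * (D' : ℝ) ^ (-999 / 1000 : ℝ) := by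
  have hne := h.ne hS.m1
  have hpos : (0 : ℝ) < F.card := by exact_mod_cast hne.card_pos
  have : Nonempty F := hne.to_subtype
  rw [← Finset.univ_product_univ, Finset.expect_product, Finset.expect_comm]
  refine Finset.expect_le Finset.univ_nonempty fun δ2 _ => ?_
  have h1 := tb_lin hS h D D' hD1 hD hd γ (-(γ * tb D (δ2 : O m))) 1 fun f a b _ => hγ f a b
  rw [← exp_sub_FLArith F fun δ =>
    if (D' : O m) ∣ γ * (tb D δ - tb D (δ2 : O m)) then (1 : ℝ) else 0]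
  rw [Finset.expect_eq_sum_div_card, div_le_iff₀ hpos, Finset.sum_boole]
  have e1 : ∀ δ : O m, γ * (tb D δ - tb D (δ2 : O m)) = γ * tb D δ + -(γ * tb D (δ2 : O m)) := by
    intro δ; ring
  simp only [e1]
  simpa only [mul_one] using h1

theorem num_FLArith {k d : ℝ} (hk : 10 ^ 10 ≤ k) (hd : k ^ 1000 ≤ d) :
    d ^ 2 * (2000 * k ^ 9 * d ^ (-111 / 100 : ℝ)) * (10 * k ^ 4 * d ^ (-999 / 1000 : ℝ)) ≤
      d ^ (-1 / 16 : ℝ) := by
  have hk1 : (1 : ℝ) ≤ k := le_trans (by norm_num) hk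
  have hk0 : (0 : ℝ) < k := by linarith
  have hd1 : (1 : ℝ) ≤ d := le_trans (one_le_pow₀ hk1) hd
  have hd0 : (0 : ℝ) < d := by linarith
  have h1 : k ^ 14 ≤ d ^ (14 / 1000 : ℝ) := by
    have := Real.rpow_le_rpow (by positivity) hd (show (0 : ℝ) ≤ 14 / 1000 by norm_num)
    rw [← Real.rpow_natCast k 1000, ← Real.rpow_mul hk0.le] at this
    have e : ((1000 : ℕ) : ℝ) * (14 / 1000) = ((14 : ℕ) : ℝ) := by norm_num
    rwa [e, Real.rpow_natCast] at this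
  have h2 : 20000 * k ^ 13 ≤ k ^ 14 := by
    have : k ^ 14 = k * k ^ 13 := by ring
    rw [this]
    exact mul_le_mul_of_nonneg_right (le_trans (by norm_num) hk) (by positivity)
  have e2 : d ^ 2 = d ^ (2 : ℝ) := by
    rw [← Real.rpow_natCast]; norm_num
  have e3 : d ^ (2 : ℝ) * d ^ (-111 / 100 : ℝ) * d ^ (-999 / 1000 : ℝ) = d ^ (-109 / 1000 : ℝ) := by
    rw [← Real.rpow_add hd0, ← Real.rpow_add hd0]; norm_num
  calc d ^ 2 * (2000 * k ^ 9 * d ^ (-111 / 100 : ℝ)) * (10 * k ^ 4 * d ^ (-999 / 1000 : ℝ))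
      = 20000 * k ^ 13 * (d ^ (2 : ℝ) * d ^ (-111 / 100 : ℝ) * d ^ (-999 / 1000 : ℝ)) := by
        rw [e2]; ring
    _ = 20000 * k ^ 13 * d ^ (-109 / 1000 : ℝ) := by rw [e3]
    _ ≤ d ^ (14 / 1000 : ℝ) * d ^ (-109 / 1000 : ℝ) :=
        mul_le_mul_of_nonneg_right (h2.trans h1) (by positivity)
    _ = d ^ (-95 / 1000 : ℝ) := by rw [← Real.rpow_add hd0]; norm_num
    _ ≤ d ^ (-1 / 16 : ℝ) := Real.rpow_le_rpow_of_exponent_le hd1 (by norm_num)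

theorem prim_FLArith (hS : Sml m k) (h : Fam m y J k F) (D D' : ℕ) (hD1 : 1 ≤ D) (hD : D ≤ y)
    (hd : D' ∣ D) (hk : k ^ 1000 ≤ D') (γ : O m)
    (hγ : ∀ f : ℕ, f ∣ D' → (f : O m) ∣ γ → (f : ℝ) ≤ 1) :
    ‖𝔼 δ1 : F, 𝔼 δ2 : F, ee (((γ * (tb D (δ1 : O m) * tb D (δ2 : O m))).im : ℝ) / D')‖ ^ 4 ≤
      (D' : ℝ) ^ (-1 / 16 : ℝ) := by
  have hm := hS.m1
  have hD' : 1 ≤ D' := Nat.pos_of_dvd_of_pos hd hD1
  have a1 : ∀ δ1 : F, 𝔼 δ2 : F, ee (((γ * (tb D (δ1 : O m) * tb D (δ2 : O m))).im : ℝ) / D') =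
      ch (fun δ2 : F => tb D (δ2 : O m)) (ph m (γ * tb D (δ1 : O m)) / ((D' : ℝ) : ℂ)) := by
    intro δ1
    unfold ch
    refine Finset.expect_congr rfl fun δ2 _ => ?_
    rw [pr_ph_div hm, mul_assoc]
  simp only [a1]
  set c : F → ℂ := fun δ1 =>
    ch (fun δ2 : F => tb D (δ2 : O m)) (ph m (γ * tb D (δ1 : O m)) / ((D' : ℝ) : ℂ)) with hc
  have a2 : (((𝔼 δ1 : F, ‖c δ1‖ ^ 2 : ℝ)) : ℂ) =
      ch (fun q : (F × F) × F => tb D (q.2 : O m) * (tb D (q.1.1 : O m) - tb D (q.1.2 : O m)))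
        (ph m γ / D') := by
    rw [Complex.ofReal_expect]
    unfold ch
    rw [← Finset.univ_product_univ (α := F × F), Finset.expect_product, Finset.expect_comm]
    refine Finset.expect_congr rfl fun δ1 _ => ?_
    rw [hc, norm_ch_sq]
    refine Finset.expect_congr rfl fun q _ => ?_
    have b1 := pr_ph_div hm γ (tb D (δ1 : O m) * (tb D (q.1 : O m) - tb D (q.2 : O m))) (D' : ℝ)
    rw [Complex.ofReal_natCast] at b1
    rw [pr_ph_div hm, b1, mul_assoc]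
  have a3 := bilin m D' hm hD' γ (fun δ : F => tb D (δ : O m))
    (fun q : F × F => tb D (q.1 : O m) - tb D (q.2 : O m))
  have a4 := energy hS h D D' hD1 hD hd hk
  have a5 := coll_FLArith hS h D D' hD1 hD hd γ hγ
  have a6 := sq_exp_le_FLArith c
  have a7 : 0 ≤ 𝔼 δ1 : F, ‖c δ1‖ ^ 2 := Finset.expect_nonneg fun i _ => by positivity
  have hk0 : (0 : ℝ) ≤ k := le_trans (by norm_num) hS.k1
  rw [← a2, Complex.norm_real, Real.norm_of_nonneg a7] at a3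
  calc ‖𝔼 δ1, c δ1‖ ^ 4 = (‖𝔼 δ1, c δ1‖ ^ 2) ^ 2 := by ring
    _ ≤ (𝔼 δ1 : F, ‖c δ1‖ ^ 2) ^ 2 := pow_le_pow_left₀ (by positivity) a6 2
    _ ≤ _ := a3
    _ ≤ (D' : ℝ) ^ 2 * (2000 * k ^ 9 * (D' : ℝ) ^ (-111 / 100 : ℝ)) *
        (10 * k ^ 4 * (D' : ℝ) ^ (-999 / 1000 : ℝ)) := by
        refine mul_le_mul (mul_le_mul_of_nonneg_left a4 (by positivity)) a5 ?_ (by positivity)
        exact Finset.expect_nonneg fun i _ => by split_ifs <;> norm_num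
    _ ≤ _ := num_FLArith hS.k1 hk

theorem Sm_arith (hS : Sml m k) (h : Fam m y J k F) (D : ℕ) (hD1 : 1 ≤ D) (hD : D ≤ y) (γ : O m)
    (R : ℝ) (hR : k ^ 1000 ≤ R) (hγ : ∀ g : ℕ, g ∣ D → (g : O m) ∣ γ → g * R ≤ D) :
    ‖Sm F D γ 0‖ ≤ R ^ (-1 / 64 : ℝ) := by
  obtain ⟨g, hg⟩ : ∃ g : ℕ, g = Nat.gcd D (Int.gcd γ.re γ.im) := ⟨_, rfl⟩
  have g1 : g ∣ D := hg ▸ Nat.gcd_dvd_left _ _
  have g2 : g ∣ Int.gcd γ.re γ.im := hg ▸ Nat.gcd_dvd_right _ _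
  have g3 : (g : O m) ∣ γ := by
    rw [nat_dvd_iff]
    have := Int.natCast_dvd_natCast.mpr g2
    exact ⟨this.trans (Int.gcd_dvd_left _ _), this.trans (Int.gcd_dvd_right _ _)⟩
  have g0 : 0 < g := Nat.pos_of_dvd_of_pos g1 hD1
  have g0' : (0 : ℝ) < g := by exact_mod_cast g0
  have hgR := hγ g g1 g3
  obtain ⟨D', hD'⟩ := g1
  obtain ⟨γ', hγ'⟩ := g3
  have hRD : R ≤ D' := by
    rw [hD'] at hgR
    push_cast at hgR
    exact le_of_mul_le_mul_left hgR g0'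
  have hd : D' ∣ D := ⟨g, by rw [hD', mul_comm]⟩
  have hp : ∀ f : ℕ, f ∣ D' → (f : O m) ∣ γ' → (f : ℝ) ≤ 1 := by
    intro f f1 f2
    have b1 : g * f ∣ D := hD' ▸ Nat.mul_dvd_mul_left g f1
    have b2 : ((g * f : ℕ) : O m) ∣ γ := by
      rw [hγ']; push_cast; exact mul_dvd_mul_left _ f2
    rw [nat_dvd_iff] at b2
    have b3 : g * f ∣ Int.gcd γ.re γ.im := Int.dvd_gcd b2.1 b2.2
    have b4 : g * f ∣ g := by
      have := Nat.dvd_gcd b1 b3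
      rwa [← hg] at this
    have b5 : g * f ≤ g * 1 := by simpa using Nat.le_of_dvd g0 b4
    exact_mod_cast Nat.le_of_mul_le_mul_left b5 g0
  have hk1 : (1 : ℝ) ≤ k := le_trans (by norm_num) hS.k1
  have hR0 : (0 : ℝ) < R := lt_of_lt_of_le (by positivity) hR
  have a1 := prim_FLArith hS h D D' hD1 hD hd (hR.trans hRD) γ' hp
  have a2 : Sm F D γ 0 =
      𝔼 δ1 : F, 𝔼 δ2 : F, ee (((γ' * (tb D (δ1 : O m) * tb D (δ2 : O m))).im : ℝ) / D') := by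
    unfold Sm
    rw [exp_sub_FLArith]
    refine Finset.expect_congr rfl fun δ1 _ => ?_
    rw [exp_sub_FLArith]
    refine Finset.expect_congr rfl fun δ2 _ => ?_
    have b1 : ∀ x : O m, ((γ * x).im : ℝ) / D = ((γ' * x).im : ℝ) / D' := by
      intro x
      have : (γ * x).im = g * (γ' * x).im := by
        rw [hγ', mul_assoc]; simp
      rw [this]
      have b2 : (D : ℝ) = g * D' := by exact_mod_cast hD'
      rw [b2]
      push_cast
      exact mul_div_mul_left _ _ g0'.ne'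
    rw [b1]
    simp [pr]
  rw [a2]
  have a3 : (D' : ℝ) ^ (-1 / 16 : ℝ) ≤ R ^ (-1 / 16 : ℝ) :=
    Real.rpow_le_rpow_of_nonpos hR0 hRD (by norm_num)
  have a4 : R ^ (-1 / 16 : ℝ) = (R ^ (-1 / 64 : ℝ)) ^ 4 := by
    rw [← Real.rpow_natCast, ← Real.rpow_mul hR0.le]; norm_num
  exact le_of_pow_le_pow_left₀ (by norm_num) (by positivity) (a1.trans (a3.trans a4.le))

theorem norm_Sm_le (F : Finset (O m)) (D : ℕ) (γ : O m) (ζ : ℂ) : ‖Sm F D γ ζ‖ ≤ 1 := by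
  unfold Sm
  exact norm_exp_le_FLArith _ _ 1 zero_le_one fun δ1 _ =>
    norm_exp_le_FLArith _ _ 1 zero_le_one fun δ2 _ => (norm_ee _).le

theorem Sm_narrow (hm : 1 ≤ m) (h : Fam m y J k F) (D : ℕ) (γ : O m) (ζ : ℂ) :
    ‖Sm F D γ ζ‖ ≤ ‖Sm F D γ 0‖ + 60 * (m : ℝ) ^ 2 * J / y * ‖ζ‖ := by
  have key : ‖Sm F D γ ζ - Sm F D γ 0 * ee (pr m ζ 1)‖ ≤ 60 * (m : ℝ) ^ 2 * J / y * ‖ζ‖ := by
    unfold Sm
    rw [Finset.expect_mul, ← Finset.expect_sub_distrib]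
    refine norm_exp_le_FLArith _ _ _ (by positivity) fun δ1 h1 => ?_
    rw [Finset.expect_mul, ← Finset.expect_sub_distrib]
    refine norm_exp_le_FLArith _ _ _ (by positivity) fun δ2 h2 => ?_
    rw [← ee_add]
    refine (norm_ee_sub _ _).trans ?_
    have b0 : pr m 0 (rot δ1 * rot δ2) = 0 := by simp [pr]
    rw [b0, add_zero, add_sub_add_left_eq_sub, ← pr_sub_right]
    have b1 := abs_pr_le hm ζ (rot δ1 * rot δ2 - 1)
    have b2 : ‖rot δ1 * rot δ2 - 1‖ ≤ 4 * (m : ℝ) ^ 2 * J / y := by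
      have c1 := h.rot_one hm h1
      have c2 := h.rot_one hm h2
      have c3 := norm_rot hm (h.ne_zero h2)
      have c4 : rot δ1 * rot δ2 - 1 = (rot δ1 - 1) * rot δ2 + (rot δ2 - 1) := by ring
      have c5 := norm_add_le ((rot δ1 - 1) * rot δ2) (rot δ2 - 1)
      rw [norm_mul, c3, mul_one] at c5
      rw [c4]
      calc _ ≤ _ := c5
        _ ≤ 2 * (m : ℝ) ^ 2 * J / y + 2 * (m : ℝ) ^ 2 * J / y := add_le_add c1 c2
        _ = _ := by ring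
    have b3 : (0 : ℝ) ≤ (m : ℝ) ^ 2 * J / y * ‖ζ‖ := by positivity
    calc 7 * |pr m ζ (rot δ1 * rot δ2 - 1)| ≤ 7 * (‖ζ‖ * (4 * (m : ℝ) ^ 2 * J / y)) :=
          mul_le_mul_of_nonneg_left
            (b1.trans (mul_le_mul_of_nonneg_left b2 (norm_nonneg _))) (by norm_num)
      _ = 28 * ((m : ℝ) ^ 2 * J / y * ‖ζ‖) := by ring
      _ ≤ 60 * ((m : ℝ) ^ 2 * J / y * ‖ζ‖) := mul_le_mul_of_nonneg_right (by norm_num) b3
      _ = _ := by ring
  have h2 := norm_add_le (Sm F D γ 0 * ee (pr m ζ 1)) (Sm F D γ ζ - Sm F D γ 0 * ee (pr m ζ 1))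
  rw [add_sub_cancel, norm_mul, norm_ee, mul_one] at h2
  linarith

end Pool.Agent.P.MP_b75a1e_co.EG
end

-- part Pool.Agent.P.MP_b75a1e_co.FLNarrow
section

set_option autoImplicit false

open Finset
open scoped BigOperators ComplexConjugate

namespace Pool.Agent.P.MP_b75a1e_co.EG

variable {m s y J : ℕ} {k ν : ℝ} {F U : Finset (O m)} {e : O m}

theorem cop_part_FLNarrow {f n : ℕ} (hn : 1 ≤ n) :
    ∃ f1 : ℕ, f ≤ f1 * n ∧ ∀ a : ℤ, (f : ℤ) ∣ n * a → (f1 : ℤ) ∣ a := by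
  obtain ⟨f1, n1, hc, h1, h2⟩ := Nat.exists_coprime f n
  have hg : 0 < Nat.gcd f n := Nat.gcd_pos_of_pos_right _ hn
  have hg' : Nat.gcd f n ≤ n := Nat.gcd_le_right _ hn
  generalize Nat.gcd f n = t at *
  refine ⟨f1, h1 ▸ Nat.mul_le_mul_left _ hg', fun a ha => ?_⟩
  rw [h1, h2] at ha
  push_cast at ha
  rw [mul_right_comm] at ha
  have h3 : (f1 : ℤ) ∣ n1 * a :=
    (mul_dvd_mul_iff_right (by exact_mod_cast hg.ne' : (t : ℤ) ≠ 0)).1 ha
  exact (Nat.isCoprime_iff_coprime.2 hc).dvd_of_dvd_mul_left h3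

theorem div_le_FLNarrow (hm : 1 ≤ m) (hs : 1 ≤ s) {g β : O m} {d : ℕ}
    (hd : ∀ f : ℕ, f ∣ d → (f : O m) ∣ β * (g * e) → f ^ 2 ≤ d) {f : ℕ} (h1 : f ∣ d * m ^ 3)
    (h2 : (f : O m) ∣ -(β * g * mu m) * (((4 * s : ℕ) : O m) * e)) :
    (f : ℝ) ≤ 4 * s * m ^ 3 * (d : ℝ) ^ (1 / 2 : ℝ) := by
  have hn : 1 ≤ 4 * s * m ^ 3 := Nat.one_le_iff_ne_zero.2 (by positivity)
  obtain ⟨f1, hf, hf1⟩ := cop_part_FLNarrow (f := f) hn
  have hmu : mu m * mu m = -(m : O m) ^ 3 := by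
    rw [mu_eq]; linear_combination (m : O m) ^ 2 * rt_sq (m := m)
  have h3 : (f : O m) ∣ ((4 * s * m ^ 3 : ℕ) : O m) * (β * (g * e)) := by
    have e1 : ((4 * s * m ^ 3 : ℕ) : O m) * (β * (g * e)) =
        -(β * g * mu m) * (((4 * s : ℕ) : O m) * e) * mu m := by
      push_cast
      linear_combination (4 * (s : O m) * β * g * e) * hmu
    rw [e1]
    exact h2.mul_right _
  rw [nat_dvd_iff] at h3
  have h4 : (f1 : O m) ∣ β * (g * e) := by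
    rw [nat_dvd_iff]
    exact ⟨hf1 _ (by simpa only [Zsqrtd.re_mul, Zsqrtd.re_natCast, Zsqrtd.im_natCast, mul_zero,
      zero_mul, add_zero] using h3.1), hf1 _ (by
      simpa only [Zsqrtd.im_mul, Zsqrtd.re_natCast, Zsqrtd.im_natCast, mul_zero,
        zero_mul, add_zero] using h3.2)⟩
  have h5 : f1 ∣ d := by
    have : f ∣ 4 * s * m ^ 3 * d := h1.trans ⟨4 * s, by ring⟩
    exact_mod_cast hf1 d (by exact_mod_cast this)
  have h6 : (f1 : ℝ) ^ 2 ≤ d := by exact_mod_cast hd f1 h5 h4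
  have h7 : (f1 : ℝ) ≤ (d : ℝ) ^ (1 / 2 : ℝ) := by
    rw [← Real.sqrt_eq_rpow]
    exact Real.le_sqrt_of_sq_le h6
  have h8 : (f : ℝ) ≤ f1 * (4 * s * m ^ 3) := by exact_mod_cast hf
  calc (f : ℝ) ≤ f1 * (4 * s * m ^ 3) := h8
    _ ≤ (d : ℝ) ^ (1 / 2 : ℝ) * (4 * s * m ^ 3) := by gcongr
    _ = _ := mul_comm _ _

open Classical in
/-- The share of rotations at which the numerator has a large common divisor with `D`. -/
theorem bad_FLNarrow (hS : Sml m k) (h : Fam m y J k F) {D : ℕ} (hD1 : 1 ≤ D) (hD : D ≤ y)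
    {x : ℝ} (hx : 1 ≤ x) (hk : k ≤ x ^ (1 / 8000 : ℝ)) (hD2 : x ≤ D) (hD3 : (D : ℝ) ≤ x ^ 2)
    (A B : O m) (hB : ∀ f : ℕ, f ∣ D → (f : O m) ∣ B → (f : ℝ) ≤ 4 * k ^ 4 * x ^ (1 / 2 : ℝ)) :
    ((F.filter fun δ => ∃ g : ℕ, g ∣ D ∧ (g : O m) ∣ A * tb D δ + B ∧
      (D : ℝ) < g * x ^ (1 / 8 : ℝ)).card : ℝ) ≤ x ^ (-1 / 512 : ℝ) * F.card := by
  have hx0 : 0 < x := by linarith
  have hk1 : (40 : ℝ) ≤ k := le_trans (by norm_num) hS.k1
  have hk0 : 0 ≤ k := by linarith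
  set G := D.divisors.filter fun g : ℕ => (D : ℝ) < g * x ^ (1 / 8 : ℝ) with hG
  have hsub : (F.filter fun δ => ∃ g : ℕ, g ∣ D ∧ (g : O m) ∣ A * tb D δ + B ∧
      (D : ℝ) < g * x ^ (1 / 8 : ℝ)) ⊆
      G.biUnion fun g => F.filter fun δ => (g : O m) ∣ A * tb D δ + B := by
    intro δ hδ
    obtain ⟨h1, g, h2, h3, h4⟩ := mem_filter.1 hδ
    exact mem_biUnion.2 ⟨g, mem_filter.2 ⟨Nat.mem_divisors.2 ⟨h2, by omega⟩, h4⟩,
      mem_filter.2 ⟨h1, h3⟩⟩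
  have hone : ∀ g ∈ G, ((F.filter fun δ => (g : O m) ∣ A * tb D δ + B).card : ℝ) ≤
      10 * k ^ 4 * (4 * k ^ 4 * x ^ (1 / 2 : ℝ)) * x ^ (-874 / 1000 : ℝ) * F.card := by
    intro g hg
    obtain ⟨h1, h2⟩ := mem_filter.1 hg
    have h3 := (Nat.mem_divisors.1 h1).1
    refine (tb_lin hS h D g hD1 hD h3 A B _ fun f hf _ hf' => hB f (hf.trans h3) hf').trans ?_
    have h4 : x ^ (7 / 8 : ℝ) ≤ g := by
      have e1 : x ^ (7 / 8 : ℝ) * x ^ (1 / 8 : ℝ) = x := by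
        rw [← Real.rpow_add hx0]; norm_num
      exact le_of_mul_le_mul_right (by rw [e1]; exact hD2.trans h2.le)
        (Real.rpow_pos_of_pos hx0 (1 / 8 : ℝ))
    have h5 : (g : ℝ) ^ (-999 / 1000 : ℝ) ≤ x ^ (-874 / 1000 : ℝ) :=
      calc (g : ℝ) ^ (-999 / 1000 : ℝ) ≤ (x ^ (7 / 8 : ℝ)) ^ (-999 / 1000 : ℝ) :=
            Real.rpow_le_rpow_of_nonpos (Real.rpow_pos_of_pos hx0 _) h4 (by norm_num)
        _ = x ^ ((7 / 8 : ℝ) * (-999 / 1000 : ℝ)) := (Real.rpow_mul hx0.le _ _).symm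
        _ ≤ _ := Real.rpow_le_rpow_of_exponent_le hx (by norm_num)
    gcongr
  have hcard : (G.card : ℝ) ≤ k * x ^ (2 / 1000 : ℝ) :=
    calc (G.card : ℝ) ≤ D.divisors.card := by exact_mod_cast card_filter_le _ _
      _ ≤ k * (D : ℝ) ^ (1 / 1000 : ℝ) := hS.tau D hD1
      _ ≤ k * (x ^ 2) ^ (1 / 1000 : ℝ) := by gcongr
      _ = _ := by
        rw [← Real.rpow_natCast, ← Real.rpow_mul hx0.le]; norm_num
  have hk10 : 40 * k ^ 9 ≤ x ^ (10 / 8000 : ℝ) :=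
    calc 40 * k ^ 9 ≤ k * k ^ 9 := by gcongr
      _ = k ^ 10 := by ring
      _ ≤ (x ^ (1 / 8000 : ℝ)) ^ 10 := by gcongr
      _ = _ := by rw [← Real.rpow_natCast, ← Real.rpow_mul hx0.le]; norm_num
  calc _ ≤ ((G.biUnion fun g => F.filter fun δ => (g : O m) ∣ A * tb D δ + B).card : ℝ) := by
        exact_mod_cast card_le_card hsub
    _ ≤ ∑ g ∈ G, ((F.filter fun δ => (g : O m) ∣ A * tb D δ + B).card : ℝ) := by
        exact_mod_cast card_biUnion_le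
    _ ≤ G.card * (10 * k ^ 4 * (4 * k ^ 4 * x ^ (1 / 2 : ℝ)) * x ^ (-874 / 1000 : ℝ) * F.card) := by
        rw [← nsmul_eq_mul]; exact sum_le_card_nsmul _ _ _ hone
    _ ≤ k * x ^ (2 / 1000 : ℝ) *
        (10 * k ^ 4 * (4 * k ^ 4 * x ^ (1 / 2 : ℝ)) * x ^ (-874 / 1000 : ℝ) * F.card) := by gcongr
    _ = 40 * k ^ 9 * (x ^ (2 / 1000 : ℝ) * x ^ (1 / 2 : ℝ) * x ^ (-874 / 1000 : ℝ)) * F.card := by
        ring
    _ ≤ x ^ (10 / 8000 : ℝ) * (x ^ (2 / 1000 : ℝ) * x ^ (1 / 2 : ℝ) * x ^ (-874 / 1000 : ℝ)) *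
        F.card := by gcongr
    _ ≤ _ := by
        rw [← Real.rpow_add hx0, ← Real.rpow_add hx0, ← Real.rpow_add hx0]
        exact mul_le_mul_of_nonneg_right (Real.rpow_le_rpow_of_exponent_le hx (by norm_num))
          (Nat.cast_nonneg _)

theorem err_FLNarrow (hP : Par m s y k ν) (h : Fam m y J k F) (hJ : (J : ℝ) * ν ^ 25 ≤ y)
    (hU : Pile e s ν U) {η : ℂ} (hη : ‖η‖ * ν ^ 1000 ≤ 2 * ν ^ 22) {δ u u' : O m} (hδ : δ ∈ F)
    (hu : u ∈ U) (hu' : u' ∈ U) :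
    60 * (m : ℝ) ^ 2 * J / y * ‖η * (rot δ * ph m (u + u') + ((4 * s : ℕ) : ℂ) * ph m e)‖ ≤
      1 / ν := by
  have hk1 : (720 : ℝ) ≤ k := le_trans (by norm_num) hP.sml.k1
  have hk4 : 720 * k ^ 3 ≤ ν :=
    calc 720 * k ^ 3 ≤ k * k ^ 3 := by gcongr
      _ = k ^ 4 := by ring
      _ ≤ k ^ 100 := pow_le_pow_right₀ (by linarith) (by norm_num)
      _ ≤ ν := hP.kν
  have hν1 : 1 ≤ ν := (one_le_pow₀ (by linarith)).trans hP.kν
  have hν0 : 0 < ν := by linarith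
  have hy : (0 : ℝ) < y := lt_of_lt_of_le (by positivity) hP.y1
  have h1 := hU.norm_le hν0.le hu
  have h2 := hU.norm_le hν0.le hu'
  have h3 := hU.norm_e hν0.le
  generalize ν ^ 1000 = N at *
  have h4 : ‖rot δ * ph m (u + u') + ((4 * s : ℕ) : ℂ) * ph m e‖ ≤ 6 * s * N := by
    refine (norm_add_le _ _).trans ?_
    rw [norm_mul, norm_mul, norm_rot hP.sml.m1 (h.ne_zero hδ), one_mul, map_add, h3,
      Complex.norm_natCast]
    push_cast
    linarith [norm_add_le (ph m u) (ph m u')]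
  have h5 : ‖η * (rot δ * ph m (u + u') + ((4 * s : ℕ) : ℂ) * ph m e)‖ ≤ 12 * k * ν ^ 22 :=
    calc _ ≤ ‖η‖ * (6 * s * N) := by rw [norm_mul]; gcongr
      _ = 6 * s * (‖η‖ * N) := by ring
      _ ≤ 6 * k * (2 * ν ^ 22) := by
        have := hP.sk
        have h0 : 0 ≤ ‖η‖ * N := by rw [← h3]; positivity
        gcongr
      _ = _ := by ring
  have h6 : 60 * (m : ℝ) ^ 2 * J / y ≤ 60 * k ^ 2 / ν ^ 25 := by
    rw [div_le_div_iff₀ hy (by positivity), mul_assoc]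
    have := hP.sml.mk'
    gcongr
  calc _ ≤ 60 * k ^ 2 / ν ^ 25 * (12 * k * ν ^ 22) := by gcongr
    _ = 720 * k ^ 3 / ν ^ 3 := by field_simp; ring
    _ ≤ ν / ν ^ 2 := by gcongr; norm_num
    _ = 1 / ν := by field_simp

theorem narrow (hP : Par m s y k ν) (h : Fam m y J k F) (hJ : (J : ℝ) * ν ^ 25 ≤ y)
    (hU : Pile e s ν U) {φ : ℂ → ℂ} (hφ : MB F U e s ν φ) : NB e k ν φ := by
  classical
  intro g β d η hd1 hd2 hf hη
  have hm := hP.sml.m1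
  have hmk := hP.sml.mk'
  have hk1 : (13 : ℝ) ≤ k := le_trans (by norm_num) hP.sml.k1
  have hk0 : 0 ≤ k := by linarith
  have hν1 : k ≤ ν := (le_self_pow₀ (by linarith) (by norm_num)).trans hP.kν
  have hν0 : 0 < ν := by linarith
  have hk3 : k ^ 3 ≤ ν := (pow_le_pow_right₀ (by linarith) (by norm_num)).trans hP.kν
  have hk3' : k ^ 3 ≤ d := (pow_le_pow_right₀ (by linarith) (by norm_num)).trans hd1
  have hx : (1 : ℝ) ≤ d := (one_le_pow₀ (by linarith)).trans hk3'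
  have hx0 : (0 : ℝ) < d := by linarith
  have hk : k ≤ (d : ℝ) ^ (1 / 8000 : ℝ) := by
    rw [one_div, Real.le_rpow_inv_iff_of_pos hk0 hx0.le (by norm_num)]
    exact_mod_cast hd1
  have hm3 : (m : ℝ) ^ 3 ≤ k ^ 3 := by gcongr
  have hm1 : (1 : ℝ) ≤ (m : ℝ) ^ 3 := one_le_pow₀ (by exact_mod_cast hm)
  have hDc : ((d * m ^ 3 : ℕ) : ℝ) = d * (m : ℝ) ^ 3 := by push_cast; rfl
  have hD2 : (d : ℝ) ≤ (d * m ^ 3 : ℕ) := by rw [hDc]; exact le_mul_of_one_le_right hx0.le hm1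
  have hD3 : ((d * m ^ 3 : ℕ) : ℝ) ≤ (d : ℝ) ^ 2 := by
    rw [hDc, sq]; exact mul_le_mul_of_nonneg_left (hm3.trans hk3') hx0.le
  have hD4 : ((d * m ^ 3 : ℕ) : ℝ) ≤ ν ^ 23 := by
    rw [hDc, pow_succ ν 22]; exact mul_le_mul hd2 (hm3.trans hk3) (by positivity) (by positivity)
  have hD1 : 1 ≤ d * m ^ 3 := by exact_mod_cast hx.trans hD2
  have hD : d * m ^ 3 ≤ y := by
    exact_mod_cast hD4.trans ((pow_le_pow_right₀ (by linarith) (by norm_num)).trans hP.y1)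
  have hB : ∀ f : ℕ, f ∣ d * m ^ 3 →
      (f : O m) ∣ -(β * g * mu m) * (((4 * s : ℕ) : O m) * e) →
      (f : ℝ) ≤ 4 * k ^ 4 * (d : ℝ) ^ (1 / 2 : ℝ) := fun f h1 h2 => by
    refine (div_le_FLNarrow hm hP.s1 hf h1 h2).trans ?_
    have := hP.sk
    rw [show 4 * k ^ 4 = 4 * k * k ^ 3 by ring]
    gcongr
  generalize d * m ^ 3 = D at *
  generalize -(β * g * mu m) = γ at *
  have hR : k ^ 1000 ≤ (d : ℝ) ^ (1 / 8 : ℝ) :=
    calc k ^ 1000 ≤ ((d : ℝ) ^ (1 / 8000 : ℝ)) ^ 1000 := pow_le_pow_left₀ hk0 hk _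
      _ = _ := by rw [← Real.rpow_natCast, ← Real.rpow_mul hx0.le]; norm_num
  have hRe : ((d : ℝ) ^ (1 / 8 : ℝ)) ^ (-1 / 64 : ℝ) = (d : ℝ) ^ (-1 / 512 : ℝ) := by
    rw [← Real.rpow_mul hx0.le]; norm_num
  have hνL : 1 / ν ≤ (d : ℝ) ^ (-1 / 512 : ℝ) := by
    have h1 : (d : ℝ) ^ (1 / 512 : ℝ) ≤ ν :=
      calc (d : ℝ) ^ (1 / 512 : ℝ) ≤ (d : ℝ) ^ ((22 : ℝ)⁻¹) :=
            Real.rpow_le_rpow_of_exponent_le hx (by norm_num)
        _ ≤ ν := by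
          rw [Real.rpow_inv_le_iff_of_pos hx0.le hν0.le (by norm_num)]
          exact_mod_cast hd2
    rw [neg_div, Real.rpow_neg hx0.le, one_div]
    exact inv_anti₀ (Real.rpow_pos_of_pos hx0 _) h1
  have hL0 : 0 ≤ (d : ℝ) ^ (-1 / 512 : ℝ) := by positivity
  have hfin : 13 * (d : ℝ) ^ (-1 / 512 : ℝ) ≤ (d : ℝ) ^ (-1 / 600 : ℝ) :=
    calc 13 * (d : ℝ) ^ (-1 / 512 : ℝ) ≤ (d : ℝ) ^ (1 / 8000 : ℝ) * (d : ℝ) ^ (-1 / 512 : ℝ) :=
          mul_le_mul_of_nonneg_right (hk1.trans hk) hL0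
      _ ≤ _ := by
        rw [← Real.rpow_add hx0]
        exact Real.rpow_le_rpow_of_exponent_le hx (by norm_num)
  have hbad := fun A => bad_FLNarrow hP.sml h hD1 hD hx hk hD2 hD3 A _ hB
  have hgood := fun γ' => Sm_arith hP.sml h D hD1 hD γ' _ hR
  rw [hRe] at hgood
  generalize (d : ℝ) ^ (-1 / 512 : ℝ) = L at *
  have hUne : U.Nonempty := card_pos.1 (by
    exact_mod_cast lt_of_lt_of_le (pow_pos hν0 _) hU.crd)
  have hFc : (0 : ℝ) < F.card := by exact_mod_cast card_pos.2 (h.ne hm)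
  have key : ∀ u ∈ U, ∀ u' ∈ U, 𝔼 δ ∈ F,
      ‖Sm F D (γ * (tb D δ * (u + u') + ((4 * s : ℕ) : O m) * e))
        (η * (rot δ * ph m (u + u') + ((4 * s : ℕ) : ℂ) * ph m e))‖ ≤ 3 * L := by
    intro u hu u' hu'
    have h1 := hbad (γ * (u + u'))
    rw [expect_eq_sum_div_card, div_le_iff₀ hFc]
    refine (sum_le_sum (g := fun δ => (if ∃ g : ℕ, g ∣ D ∧
      (g : O m) ∣ γ * (u + u') * tb D δ + γ * (((4 * s : ℕ) : O m) * e) ∧
      (D : ℝ) < g * (d : ℝ) ^ (1 / 8 : ℝ) then (1 : ℝ) else 0) + 2 * L) fun δ hδ => ?_).trans ?_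
    · split_ifs with hb
      · linarith [norm_Sm_le F D (γ * (tb D δ * (u + u') + ((4 * s : ℕ) : O m) * e))
          (η * (rot δ * ph m (u + u') + ((4 * s : ℕ) : ℂ) * ph m e))]
      · have h2 := hgood (γ * (tb D δ * (u + u') + ((4 * s : ℕ) : O m) * e)) fun g h3 h4 =>
          not_lt.1 fun h5 => hb ⟨g, h3, by rwa [mul_add, mul_comm (tb D δ), ← mul_assoc] at h4, h5⟩
        linarith [Sm_narrow hm h D (γ * (tb D δ * (u + u') + ((4 * s : ℕ) : O m) * e))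
          (η * (rot δ * ph m (u + u') + ((4 * s : ℕ) : ℂ) * ph m e)),
          err_FLNarrow hP h hJ hU hη hδ hu hu']
    · rw [sum_add_distrib, sum_boole, sum_const, nsmul_eq_mul]
      linarith
  have hη' : ‖η‖ * ν ^ 1000 ≤ ν ^ 23 := by
    refine hη.trans ?_
    rw [pow_succ' ν 22]
    exact mul_le_mul_of_nonneg_right (by linarith) (by positivity)
  have hmain := hφ γ D η hD1 hD4 hη'
  rw [expect_comm] at hmain
  have h3 : 𝔼 u ∈ U, 𝔼 δ ∈ F, 𝔼 u' ∈ U,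
      ‖Sm F D (γ * (tb D δ * (u + u') + ((4 * s : ℕ) : O m) * e))
        (η * (rot δ * ph m (u + u') + ((4 * s : ℕ) : ℂ) * ph m e))‖ ≤ 3 * L :=
    expect_le hUne fun u hu => by
      rw [expect_comm]
      exact expect_le hUne fun u' hu' => key u hu u' hu'
  have h4 : 1 / ν ^ 10 ≤ 1 / ν :=
    one_div_le_one_div_of_le hν0 (le_self_pow₀ (by linarith) (by norm_num))
  linarith

end Pool.Agent.P.MP_b75a1e_co.EG
end

-- part Pool.Agent.P.MP_b75a1e_co.FLWide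
section

set_option autoImplicit false

open Finset
open scoped BigOperators ComplexConjugate

namespace Pool.Agent.P.MP_b75a1e_co.EG

variable {m s y J : ℕ} {k ν : ℝ} {F U : Finset (O m)} {e : O m}

theorem cs_FLWide {ι κ β : Type} (F : Finset ι) (G : Finset κ) (B : Finset β) (π : β → ι)
    (hB : ∀ i ∈ F, ∃ b ∈ B, π b = i) (f : ι → κ → ℂ) :
    ‖∑ i ∈ F, ∑ j ∈ G, f i j‖ ^ 2 ≤
      F.card * ∑ j ∈ G, ∑ j' ∈ G, ‖∑ b ∈ B, f (π b) j * conj (f (π b) j')‖ := by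
  classical
  have h1 : ‖∑ i ∈ F, ∑ j ∈ G, f i j‖ ^ 2 ≤ F.card * ∑ i ∈ F, ‖∑ j ∈ G, f i j‖ ^ 2 :=
    le_trans (pow_le_pow_left₀ (norm_nonneg _) (norm_sum_le _ _) 2) sq_sum_le_card_mul_sum_sq
  refine h1.trans (mul_le_mul_of_nonneg_left ?_ (Nat.cast_nonneg _))
  have h2 : ∑ i ∈ F, ‖∑ j ∈ G, f i j‖ ^ 2 ≤ ∑ b ∈ B, ‖∑ j ∈ G, f (π b) j‖ ^ 2 := by
    refine le_trans (sum_le_sum_of_subset_of_nonneg (t := B.image π)
      (fun i hi => mem_image.2 (hB i hi)) fun _ _ _ => by positivity) ?_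
    exact sum_image_le_of_nonneg (f := fun i => ‖∑ j ∈ G, f i j‖ ^ 2) fun _ _ => by positivity
  refine h2.trans ?_
  have h3 : ((∑ b ∈ B, ‖∑ j ∈ G, f (π b) j‖ ^ 2 : ℝ) : ℂ) =
      ∑ j ∈ G, ∑ j' ∈ G, ∑ b ∈ B, f (π b) j * conj (f (π b) j') := by
    push_cast
    simp only [← Complex.mul_conj', map_sum, sum_mul_sum]
    rw [sum_comm]
    exact sum_congr rfl fun j _ => sum_comm
  calc _ ≤ ‖((∑ b ∈ B, ‖∑ j ∈ G, f (π b) j‖ ^ 2 : ℝ) : ℂ)‖ := by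
        rw [Complex.norm_real]; exact le_abs_self _
    _ ≤ _ := by
        rw [h3]
        exact (norm_sum_le _ _).trans (sum_le_sum fun j _ => norm_sum_le _ _)

theorem rp_FLWide {t : ℝ} (ht : 0 < t) (a b : ℕ) (c : ℝ) (h : a * c = -b) :
    (t ^ a) ^ c = (t ^ b)⁻¹ := by
  rw [← Real.rpow_natCast, ← Real.rpow_mul ht.le, h, Real.rpow_neg ht.le, Real.rpow_natCast]

theorem pair_FLWide (hm : 1 ≤ m) (hJ1 : 1 ≤ J) (h1 : 10 * m ^ 2 * J ≤ y) (hJ : y ≤ 20 * m ^ 2 * J)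
    (D : ℕ) (hD : 1 ≤ D) (γ : O m) (ζ : ℂ) {t : ℝ} (ht : 1 ≤ t) (hζ : ‖ζ‖ = t ^ 100)
    (h2 : 20 * D * (m : ℝ) ^ 2 * ‖ζ‖ ≤ y) {δ δ' : O m} (hδ : δ ≠ 0) (hδ' : δ' ≠ 0) :
    ‖∑ b ∈ Ioc ((y : ℤ) / 2) (2 * y) ×ˢ Icc (-(J : ℤ)) J,
      ee (((γ * (tb D (⟨b.1, m * b.2⟩ : O m) * tb D δ)).im : ℝ) / D +
          pr m ζ (rot (⟨b.1, m * b.2⟩ : O m) * rot δ)) *
        conj (ee (((γ * (tb D (⟨b.1, m * b.2⟩ : O m) * tb D δ')).im : ℝ) / D +
          pr m ζ (rot (⟨b.1, m * b.2⟩ : O m) * rot δ')))‖ ≤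
      10 ^ 4 * (m : ℝ) ^ 2 * (t ^ 9)⁻¹ * (y * J) +
        (if ‖rot δ - rot δ'‖ ≤ (t ^ 10)⁻¹ then 6 * ((y : ℝ) * J) else 0) := by
  have ht0 : 0 < t := by linarith
  split_ifs with hn
  · refine le_trans ?_ (le_add_of_nonneg_left (by positivity))
    refine (norm_sum_le _ _).trans ?_
    simp only [norm_mul, Complex.norm_conj, norm_ee, mul_one, sum_const, card_product, nsmul_eq_mul]
    have c1 : (Ioc ((y : ℤ) / 2) (2 * y)).card ≤ 2 * y := by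
      rw [Int.card_Ioc]; omega
    have c2 : (Icc (-(J : ℤ)) J).card ≤ 3 * J := by
      rw [Int.card_Icc]; omega
    have c3 := Nat.mul_le_mul c1 c2
    calc _ ≤ ((2 * y * (3 * J) : ℕ) : ℝ) := by exact_mod_cast c3
      _ = _ := by push_cast; ring
  · rw [add_zero, sum_product]
    have hn' := (not_le.1 hn).le
    have hξ : t ^ 90 ≤ ‖ζ * (rot δ - rot δ')‖ := by
      rw [norm_mul, hζ]
      calc t ^ 90 = t ^ 100 * (t ^ 10)⁻¹ := by field_simp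
        _ ≤ _ := mul_le_mul_of_nonneg_left hn' (by positivity)
    have hξ2 : ‖ζ * (rot δ - rot δ')‖ ≤ ‖ζ‖ * 2 := by
      rw [norm_mul]
      refine mul_le_mul_of_nonneg_left ((norm_sub_le _ _).trans ?_) (norm_nonneg _)
      rw [norm_rot hm hδ, norm_rot hm hδ']; norm_num
    have ho := osc m y J D hm hD h1 hJ
      (fun x j => ee (((γ * (tb D (⟨x, m * j⟩ : O m) * (tb D δ - tb D δ'))).im : ℝ) / D + 0))
      (fun x j => (norm_ee _).le) (fun x j => by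
        refine ee_im_congr hD ?_ 0
        have e1 : (⟨x, m * (j + D)⟩ : O m) = ⟨x, m * j⟩ + (D : O m) * ⟨0, m⟩ := by
          ext <;> simp <;> ring
        rw [e1, ← mul_sub, ← sub_mul]
        exact ((tb_shift D _ _).mul_right _).mul_left _)
      (ζ * (rot δ - rot δ')) ((one_le_pow₀ ht).trans hξ)
      (le_trans (mul_le_mul_of_nonneg_left hξ2 (by positivity)) (by linarith))
    have hp : ‖ζ * (rot δ - rot δ')‖ ^ (-1 / 10 : ℝ) ≤ (t ^ 9)⁻¹ := by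
      rw [← rp_FLWide ht0 90 9 (-1 / 10) (by norm_num)]
      exact Real.rpow_le_rpow_of_nonpos (by positivity) hξ (by norm_num)
    refine le_trans (le_of_eq ?_) (ho.trans ?_)
    · congr 1
      refine sum_congr rfl fun x _ => sum_congr rfl fun j _ => ?_
      rw [← ee_neg, ← ee_add, ← ee_add]
      congr 1
      simp only [pr, mul_sub, Zsqrtd.im_sub]
      have e2 : ∀ a b c : ℂ, (ζ * a - ζ * b) * c = ζ * (c * a) - ζ * (c * b) := fun a b c => by ring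
      rw [e2, Complex.sub_im]
      push_cast
      ring
    · gcongr

theorem Sm_arch (hS : Sml m k) (h : Fam m y J k F) (hJ : y ≤ 20 * m ^ 2 * J) (D : ℕ) (hD : 1 ≤ D)
    (γ : O m) (ζ : ℂ) (h1 : k ^ 1000 ≤ ‖ζ‖) (h2 : 20 * D * (m : ℝ) ^ 2 * ‖ζ‖ ≤ y) :
    ‖Sm F D γ ζ‖ ≤ ‖ζ‖ ^ (-1 / 25 : ℝ) := by
  classical
  have hm := hS.m1
  have hk := hS.k1
  have hmk := hS.mk'
  have hk0 : (1 : ℝ) ≤ k := le_trans (by norm_num) hk
  have hT : 0 < ‖ζ‖ := lt_of_lt_of_le (by positivity) h1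
  obtain ⟨t, ht0, hζ⟩ : ∃ t : ℝ, 0 < t ∧ ‖ζ‖ = t ^ 100 :=
    ⟨‖ζ‖ ^ ((100 : ℕ) : ℝ)⁻¹, by positivity, (Real.rpow_inv_natCast_pow hT.le (by norm_num)).symm⟩
  have htk : k ^ 10 ≤ t := by
    refine le_of_pow_le_pow_left₀ (n := 100) (by norm_num) ht0.le ?_
    rw [← pow_mul, ← hζ]
    exact h1
  have ht : 1 ≤ t := (one_le_pow₀ hk0).trans htk
  have hn : (0 : ℝ) < F.card := by exact_mod_cast (h.ne hm).card_pos
  have hm1 : (1 : ℝ) ≤ m := by exact_mod_cast hm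
  have hD1 : (1 : ℝ) ≤ D := by exact_mod_cast hD
  have hy : t ^ 10 ≤ y := by
    have e1 : t ^ 10 ≤ t ^ 100 := pow_le_pow_right₀ ht (by norm_num)
    have e2 : (1 : ℝ) ≤ 20 * D * (m : ℝ) ^ 2 := by nlinarith [one_le_pow₀ (n := 2) hm1]
    have e3 := mul_le_mul_of_nonneg_right e2 hT.le
    linarith
  have hy0 : (0 : ℝ) < y := lt_of_lt_of_le (by positivity) hy
  have hcs := cs_FLWide F F (Ioc ((y : ℤ) / 2) (2 * y) ×ˢ Icc (-(J : ℤ)) J)
    (fun b => (⟨b.1, m * b.2⟩ : O m)) (fun δ hδ => by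
      obtain ⟨b1, b2, ⟨j, hj⟩, b4⟩ := h.box δ hδ
      refine ⟨(δ.re, j), ?_, ?_⟩
      · rw [hj, abs_mul, abs_of_nonneg (Int.natCast_nonneg m)] at b4
        have b5 := abs_le.1 (le_of_mul_le_mul_left b4 (by exact_mod_cast hm))
        simp only [mem_product, mem_Ioc, mem_Icc]
        omega
      · ext
        · rfl
        · exact hj.symm)
    (fun δ1 δ2 => ee (((γ * (tb D δ1 * tb D δ2)).im : ℝ) / D + pr m ζ (rot δ1 * rot δ2)))
  have hnear : ∀ δ' ∈ F, ((F.filter fun δ => ‖rot δ - rot δ'‖ ≤ (t ^ 10)⁻¹).card : ℝ) ≤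
      280 * k ^ 3 * (t ^ 10)⁻¹ * F.card := by
    intro δ' hδ'
    have c1 := cnt_arc h hm hJ hδ' (2 * (t ^ 10)⁻¹) (by positivity)
    refine le_trans (Nat.cast_le.2 (card_le_card fun δ hδ => ?_)) (c1.trans ?_)
    · rw [mem_filter] at hδ ⊢
      refine ⟨hδ.1, ?_⟩
      have c2 := norm_rot_sub hm (h.ne_zero hδ.1) (h.ne_zero hδ')
      have c3 : ‖rot δ - rot δ'‖ * (‖ph m δ‖ * ‖ph m δ'‖) ≤ (t ^ 10)⁻¹ * (2 * y * (2 * y)) := by
        have := (h.abs hδ.1).2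
        have := (h.abs hδ').2
        have := hδ.2
        gcongr
      linarith
    · have c4 : 1 / (y : ℝ) ≤ (t ^ 10)⁻¹ := by
        rw [one_div]; exact inv_anti₀ (by positivity) hy
      calc _ ≤ 40 * k * k ^ 2 * (3 * (2 * (t ^ 10)⁻¹) + (t ^ 10)⁻¹) * F.card := by gcongr
        _ = _ := by ring
  have hsum := hcs.trans (mul_le_mul_of_nonneg_left (sum_le_sum fun δ hδ => sum_le_sum fun δ' hδ' =>
    pair_FLWide hm h.pos h.thin hJ D hD γ ζ ht hζ h2 (h.ne_zero hδ) (h.ne_zero hδ')) hn.le)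
  have hb : ∑ δ ∈ F, ∑ δ' ∈ F, (10 ^ 4 * (m : ℝ) ^ 2 * (t ^ 9)⁻¹ * (y * J) +
      (if ‖rot δ - rot δ'‖ ≤ (t ^ 10)⁻¹ then 6 * ((y : ℝ) * J) else 0)) ≤
      F.card * (F.card * (10 ^ 4 * k ^ 2 * (t ^ 9)⁻¹ * (k * F.card)) +
        280 * k ^ 3 * (t ^ 9)⁻¹ * F.card * (6 * (k * F.card))) := by
    rw [sum_comm]
    refine (sum_le_card_nsmul _ _ _ fun δ' hδ' => ?_).trans (nsmul_eq_mul _ _).le
    rw [sum_add_distrib, sum_const, nsmul_eq_mul, ← sum_filter, sum_const, nsmul_eq_mul]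
    have c1 := hnear δ' hδ'
    have c2 := h.big
    have c3 : (t ^ 10)⁻¹ ≤ (t ^ 9)⁻¹ :=
      inv_anti₀ (by positivity) (pow_le_pow_right₀ ht (by norm_num))
    have c4 : 280 * k ^ 3 * (t ^ 10)⁻¹ * F.card ≤ 280 * k ^ 3 * (t ^ 9)⁻¹ * F.card := by gcongr
    have c5 := c1.trans c4
    gcongr
  have hfin := hsum.trans (mul_le_mul_of_nonneg_left hb hn.le)
  have hS2 : Sm F D γ ζ = (∑ δ1 ∈ F, ∑ δ2 ∈ F,
      ee (((γ * (tb D δ1 * tb D δ2)).im : ℝ) / D + pr m ζ (rot δ1 * rot δ2))) /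
        ((F.card : ℂ) * F.card) := by
    simp only [Sm, expect_eq_sum_div_card]
    rw [← sum_div, div_div]
  rw [hζ, rp_FLWide ht0 100 4 (-1 / 25) (by norm_num), hS2, norm_div, norm_mul, Complex.norm_natCast,
    div_le_iff₀ (by positivity)]
  refine le_of_pow_le_pow_left₀ (n := 2) (by norm_num) (by positivity) (hfin.trans ?_)
  have c6 : 10 ^ 4 * k ^ 3 + 1680 * k ^ 4 ≤ t := by
    have d1 : k ^ 3 ≤ k ^ 4 := pow_le_pow_right₀ hk0 (by norm_num)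
    have d2 : k ^ 5 ≤ k ^ 10 := pow_le_pow_right₀ hk0 (by norm_num)
    have d3 : 10 ^ 10 * k ^ 4 ≤ k * k ^ 4 := mul_le_mul_of_nonneg_right hk (by positivity)
    have d4 : k * k ^ 4 = k ^ 5 := by ring
    have d5 : 0 ≤ k ^ 4 := by positivity
    linarith
  calc _ = (10 ^ 4 * k ^ 3 + 1680 * k ^ 4) * ((t ^ 9)⁻¹ * (F.card : ℝ) ^ 4) := by ring
    _ ≤ t * ((t ^ 9)⁻¹ * (F.card : ℝ) ^ 4) := by gcongr
    _ = _ := by field_simp

theorem wide (hP : Par m s y k ν) (h : Fam m y J k F) (hJ : y ≤ 20 * m ^ 2 * J)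
    (hU : Pile e s ν U) {φ : ℂ → ℂ} (hφ : MB F U e s ν φ) : WB m k ν φ := by
  intro γ D η hD1 hD h1 h2
  have hm := hP.sml.m1
  have hk := hP.sml.k1
  have hmk := hP.sml.mk'
  have hsk := hP.sk
  have hk0 : (1 : ℝ) ≤ k := le_trans (by norm_num) hk
  have hs1 : (1 : ℝ) ≤ s := by exact_mod_cast hP.s1
  have hν1 : k ^ 7 ≤ ν := (pow_le_pow_right₀ hk0 (by norm_num)).trans hP.kν
  have hν2 : 240 * k ^ 6 ≤ ν := by
    have d1 : 240 * k ^ 6 ≤ k * k ^ 6 :=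
      mul_le_mul_of_nonneg_right (le_trans (by norm_num) hk) (by positivity)
    have d2 : k * k ^ 6 = k ^ 7 := by ring
    linarith
  have hk6 : 1 ≤ k ^ 6 := one_le_pow₀ hk0
  have hν3 : 2 ≤ ν := by linarith
  have hν0 : 0 < ν := by linarith
  have hk3 : k ^ 3 ≤ ν := (pow_le_pow_right₀ hk0 (by norm_num)).trans hν1
  have hT0 : 0 < ‖η‖ * ν ^ 1000 := lt_of_lt_of_le (by positivity) h1
  have e23 : ν ^ 23 = ν ^ 22 * ν := by ring
  have h3 : ‖η‖ * ν ^ 1000 ≤ ν ^ 23 := by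
    rw [e23]
    refine h2.trans ?_
    rw [mul_comm]
    exact mul_le_mul_of_nonneg_left hν3 (by positivity)
  have hUn : U.Nonempty := by
    rw [← card_pos]
    have : (0 : ℝ) < U.card := lt_of_lt_of_le (by positivity) hU.crd
    exact_mod_cast this
  have hb := hφ γ D η hD1 (hD.trans (by rw [e23]; gcongr)) h3
  have hE : (𝔼 δ ∈ F, 𝔼 u ∈ U, 𝔼 u' ∈ U,
      ‖Sm F D (γ * (tb D δ * (u + u') + ((4 * s : ℕ) : O m) * e))
        (η * (rot δ * ph m (u + u') + ((4 * s : ℕ) : ℂ) * ph m e))‖) ≤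
      (‖η‖ * ν ^ 1000) ^ (-1 / 25 : ℝ) := by
    refine expect_le (h.ne hm) fun δ hδ => expect_le hUn fun u hu => expect_le hUn fun u' hu' => ?_
    have a1 : ‖rot δ * ph m (u + u')‖ ≤ 2 * (s * ν ^ 1000) := by
      rw [norm_mul, norm_rot hm (h.ne_zero hδ), one_mul, map_add]
      have := hU.norm_le hν0.le hu
      have := hU.norm_le hν0.le hu'
      have := norm_add_le (ph m u) (ph m u')
      linarith
    have a2 : ‖((4 * s : ℕ) : ℂ) * ph m e‖ = 4 * (s * ν ^ 1000) := by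
      rw [norm_mul, Complex.norm_natCast, hU.norm_e hν0.le]
      push_cast
      ring
    have a3 : ν ^ 1000 ≤ s * ν ^ 1000 := le_mul_of_one_le_left (by positivity) hs1
    have a4 : s * ν ^ 1000 ≤ k * ν ^ 1000 := mul_le_mul_of_nonneg_right hsk (by positivity)
    have a0 : 0 < ν ^ 1000 := by positivity
    generalize rot δ * ph m (u + u') = A at a1 ⊢
    generalize ((4 * s : ℕ) : ℂ) * ph m e = B at a2 ⊢
    have a5 : ‖A + B‖ ≤ 6 * (k * ν ^ 1000) := by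
      have := norm_add_le A B
      linarith
    have a6 : ν ^ 1000 ≤ ‖A + B‖ := by
      have := norm_sub_le (A + B) A
      rw [add_sub_cancel_left] at this
      linarith
    have a7 : ‖η‖ * ν ^ 1000 ≤ ‖η * (A + B)‖ := by
      rw [norm_mul]
      exact mul_le_mul_of_nonneg_left a6 (norm_nonneg _)
    have a8 : ‖η * (A + B)‖ ≤ 6 * k * (2 * ν ^ 22) := by
      rw [norm_mul]
      calc _ ≤ ‖η‖ * (6 * (k * ν ^ 1000)) := mul_le_mul_of_nonneg_left a5 (norm_nonneg _)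
        _ = 6 * k * (‖η‖ * ν ^ 1000) := by ring
        _ ≤ _ := mul_le_mul_of_nonneg_left h2 (by positivity)
    refine (Sm_arch hP.sml h hJ D hD1 _ _ (h1.trans a7) ?_).trans
      (Real.rpow_le_rpow_of_nonpos hT0 a7 (by norm_num))
    calc _ ≤ 20 * (ν ^ 22 * k ^ 3) * k ^ 2 * (6 * k * (2 * ν ^ 22)) := by gcongr
      _ = 240 * k ^ 6 * ν ^ 44 := by ring
      _ ≤ ν * ν ^ 44 := by gcongr
      _ = ν ^ 45 := by ring
      _ ≤ y := hP.y1
  have hL : 1 / ν ^ 10 ≤ (‖η‖ * ν ^ 1000) ^ (-1 / 25 : ℝ) := by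
    rw [one_div, ← rp_FLWide hν0 250 10 (-1 / 25) (by norm_num)]
    exact Real.rpow_le_rpow_of_nonpos hT0
      (h3.trans (pow_le_pow_right₀ (by linarith) (by norm_num))) (by norm_num)
  linarith

end Pool.Agent.P.MP_b75a1e_co.EG
end

-- part Pool.Agent.P.MP_b75a1e_co.FLFlips
section

set_option autoImplicit false

open Finset
open scoped BigOperators ComplexConjugate

namespace Pool.Agent.P.MP_b75a1e_co.EG

theorem six_FLFlips {a1 a2 a3 b1 b2 b3 : ℝ} (p1 : 0 ≤ a1) (p2 : 0 ≤ a2) (p3 : 0 ≤ a3)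
    (q1 : 0 ≤ b1) (q2 : 0 ≤ b2) (q3 : 0 ≤ b3) (r1 : a1 ≤ 1) (r2 : a2 ≤ 1) (r3 : a3 ≤ 1)
    (s1 : b1 ≤ 1) (s2 : b2 ≤ 1) (s3 : b3 ≤ 1) :
    a1 * a2 * a3 * (b1 * b2 * b3) ≤ a1 ∧ a1 * a2 * a3 * (b1 * b2 * b3) ≤ a2 ∧
      a1 * a2 * a3 * (b1 * b2 * b3) ≤ b2 ∧ a1 * a2 * a3 * (b1 * b2 * b3) ≤ a3 := by
  refine ⟨?_, ?_, ?_, ?_⟩
  · calc _ ≤ a1 * 1 * 1 * (1 * 1 * 1) := by gcongr
      _ = a1 := by ring
  · calc _ ≤ 1 * a2 * 1 * (1 * 1 * 1) := by gcongr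
      _ = a2 := by ring
  · calc _ ≤ 1 * 1 * 1 * (1 * b2 * 1) := by gcongr
      _ = b2 := by ring
  · calc _ ≤ 1 * 1 * a3 * (1 * 1 * 1) := by gcongr
      _ = a3 := by ring

theorem fam_FLFlips {m y J : ℕ} {k : ℝ} (hS : Sml m k) (P : Finset ℕ)
    (hP : ∀ l ∈ P, Split m l ∧ y < l ∧ l ≤ 2 * y) (hc : (y : ℝ) ≤ k ^ 5 * P.card)
    (hJ1 : k ^ 12 < J + 1) (hJ2 : 10 * m ^ 2 * J ≤ y) :
    ∃ F : Finset (O m), Fam m y J (k ^ 20) F := by
  have hk := hS.k1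
  have hk1 : 1 ≤ k := le_trans (by norm_num) hk
  have hm5 : ((m : ℝ) + 1) ^ 5 ≤ 32 * k ^ 5 := by
    calc ((m : ℝ) + 1) ^ 5 ≤ (2 * k) ^ 5 := by
          gcongr
          linarith [hS.mk']
      _ = 32 * k ^ 5 := by ring
  have h10 : 1 ≤ k ^ 10 := one_le_pow₀ hk1
  refine family m y J (k ^ 5) (k ^ 20) hS.m1 P hP hc (one_le_pow₀ hk1) ?_ hJ2 ?_
  · calc 40 * k ^ 5 * ((m : ℝ) + 1) ^ 5 ≤ 40 * k ^ 5 * (32 * k ^ 5) := by gcongr
      _ = 1280 * k ^ 10 := by ring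
      _ ≤ J := by
        have h1 : 1281 * k ^ 10 ≤ k ^ 2 * k ^ 10 := by
          gcongr
          nlinarith
        have h2 : k ^ 2 * k ^ 10 = k ^ 12 := by ring
        linarith
  · calc 80 * (k ^ 5) ^ 2 * ((m : ℝ) + 1) ^ 5 ≤ 80 * (k ^ 5) ^ 2 * (32 * k ^ 5) := by gcongr
      _ = 2560 * k ^ 15 := by ring
      _ ≤ k ^ 5 * k ^ 15 := by
        gcongr
        exact le_trans (by linarith) (le_self_pow₀ hk1 (by norm_num))
      _ = k ^ 20 := by ring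

theorem fams_FLFlips {m s : ℕ} {k ν : ℝ} (hS : Sml m k) (hs1 : 1 ≤ s) (hs : (s : ℝ) ≤ k)
    (hν : k ^ 2000 ≤ ν) (hlog : Real.log ν ≤ k) :
    ∃ (y J J' : ℕ) (F F' : Finset (O m)), Par m s y (k ^ 20) ν ∧ Fam m y J (k ^ 20) F ∧
      y ≤ 20 * m ^ 2 * J ∧ Fam m y J' (k ^ 20) F' ∧ (J' : ℝ) * ν ^ 25 ≤ y := by
  have hk := hS.k1
  have hk1 : 1 ≤ k := le_trans (by norm_num) hk
  have hm1 := hS.m1
  have hmk := hS.mk'
  have hkK : k ≤ k ^ 20 := le_self_pow₀ hk1 (by norm_num)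
  have hkν : ∀ a : ℕ, a ≤ 2000 → k ^ a ≤ ν := fun a ha => (pow_le_pow_right₀ hk1 ha).trans hν
  have hν1 : k ≤ ν := by simpa using hkν 1 (by norm_num)
  have hν2 : 2 ≤ ν := le_trans (by linarith) hν1
  have hν0 : 1 ≤ ν := by linarith
  obtain ⟨X, hX1, hX2⟩ : ∃ X : ℕ, ν ^ 114 ≤ X ∧ (X : ℝ) ≤ ν ^ 115 := by
    refine ⟨⌊ν ^ 115⌋₊, ?_, Nat.floor_le (by positivity)⟩
    have h1 := Nat.lt_floor_add_one (ν ^ 115)
    have h2 : 1 ≤ ν ^ 114 := one_le_pow₀ hν0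
    have h3 : ν ^ 115 = ν * ν ^ 114 := by ring
    nlinarith
  have hνX : ν ≤ X := (le_self_pow₀ hν0 (by norm_num)).trans hX1
  have hX : (10 ^ 4 * m) ^ 200 ≤ X := by
    have h1 : ((10 ^ 4 * m : ℕ) : ℝ) ≤ k ^ 2 := by
      push_cast
      nlinarith
    have h2 : ((10 ^ 4 * m : ℕ) : ℝ) ^ 200 ≤ X :=
      calc ((10 ^ 4 * m : ℕ) : ℝ) ^ 200 ≤ (k ^ 2) ^ 200 :=
            pow_le_pow_left₀ (Nat.cast_nonneg _) h1 _
        _ = k ^ (2 * 200) := (pow_mul _ _ _).symm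
        _ ≤ X := (hkν _ (by norm_num)).trans hνX
    rw [← Nat.cast_pow] at h2
    exact Nat.cast_le.1 h2
  obtain ⟨y, P, hy1, hy2, hP, hc⟩ := big_primes m X hm1 hX
  have hy45 : ν ^ 45 ≤ y := by
    refine le_of_pow_le_pow_left₀ (n := 5) (by norm_num) (Nat.cast_nonneg _) ?_
    calc (ν ^ 45) ^ 5 = ν ^ (45 * 5) := (pow_mul _ _ _).symm
      _ ≤ ν ^ (114 * 2) := pow_le_pow_right₀ hν0 (by norm_num)
      _ = (ν ^ 114) ^ 2 := pow_mul _ _ _
      _ ≤ (X : ℝ) ^ 2 := pow_le_pow_left₀ (by positivity) hX1 _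
      _ ≤ (y : ℝ) ^ 5 := by exact_mod_cast hy1
  have hνy : ν ≤ y := (le_self_pow₀ hν0 (by norm_num)).trans hy45
  have hlX : Real.log X ≤ k * k := by
    calc Real.log X ≤ Real.log (ν ^ 115) := Real.log_le_log (by linarith) hX2
      _ = 115 * Real.log ν := by rw [Real.log_pow]; norm_num
      _ ≤ 115 * k := by linarith
      _ ≤ k * k := by gcongr; linarith
  have hc' : (y : ℝ) ≤ k ^ 5 * P.card := by
    refine hc.trans (mul_le_mul_of_nonneg_right ?_ (Nat.cast_nonneg _))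
    calc 10 ^ 10 * (m : ℝ) ^ 2 * Real.log X ≤ 10 ^ 10 * (m : ℝ) ^ 2 * (k * k) := by gcongr
      _ ≤ k * k ^ 2 * (k * k) := by gcongr
      _ = k ^ 5 := by ring
  have h10 : 10 * (m : ℝ) ^ 2 ≤ k ^ 3 := by
    calc 10 * (m : ℝ) ^ 2 ≤ k * k ^ 2 := by gcongr; linarith
      _ = k ^ 3 := by ring
  have hpos : 0 < 10 * m ^ 2 := by positivity
  have hw1 : y < 10 * m ^ 2 * (y / (10 * m ^ 2) + 1) := Nat.lt_mul_div_succ y hpos
  have hw2 : 10 * m ^ 2 * (y / (10 * m ^ 2)) ≤ y := Nat.mul_div_le _ _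
  generalize y / (10 * m ^ 2) = J at hw1 hw2
  have hw3 : k ^ 12 < J + 1 := by
    have h1 : (y : ℝ) < 10 * (m : ℝ) ^ 2 * (J + 1) := by exact_mod_cast hw1
    have h2 : 10 * (m : ℝ) ^ 2 * (J + 1) ≤ k ^ 3 * (J + 1) := by gcongr
    have h3 : k ^ 3 * k ^ 12 ≤ y := by
      rw [← pow_add]
      exact (hkν _ (by norm_num)).trans hνy
    exact lt_of_mul_lt_mul_left (a := k ^ 3) (by linarith) (by positivity)
  have hJ1 : 1 ≤ J := by
    have h1 : (2 : ℝ) ≤ k ^ 12 := le_trans (by linarith) (le_self_pow₀ hk1 (by norm_num))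
    have h2 : (1 : ℝ) < J := by linarith
    exact_mod_cast h2.le
  obtain ⟨F, hF⟩ := fam_FLFlips hS P hP hc' hw3 hw2
  have h25 : 0 < ν ^ 25 := by positivity
  have hn1 : (⌊(y : ℝ) / ν ^ 25⌋₊ : ℝ) * ν ^ 25 ≤ y :=
    (le_div_iff₀ h25).1 (Nat.floor_le (by positivity))
  have hn2 : k ^ 12 < ⌊(y : ℝ) / ν ^ 25⌋₊ + 1 := by
    refine lt_of_le_of_lt ?_ (Nat.lt_floor_add_one _)
    rw [le_div_iff₀ h25]
    calc k ^ 12 * ν ^ 25 ≤ ν ^ 20 * ν ^ 25 := by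
          gcongr
          exact (hkν _ (by norm_num)).trans (le_self_pow₀ hν0 (by norm_num))
      _ = ν ^ 45 := by ring
      _ ≤ y := hy45
  generalize ⌊(y : ℝ) / ν ^ 25⌋₊ = J' at hn1 hn2
  have hn3 : 10 * m ^ 2 * J' ≤ y := by
    have h1 : 10 * (m : ℝ) ^ 2 * J' ≤ y := by
      refine le_trans ?_ hn1
      rw [mul_comm]
      gcongr
      exact h10.trans ((hkν _ (by norm_num)).trans (le_self_pow₀ hν0 (by norm_num)))
    exact_mod_cast h1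
  obtain ⟨F', hF'⟩ := fam_FLFlips hS P hP hc' hn2 hn3
  refine ⟨y, J, J', F, F', ⟨⟨hm1, hk.trans hkK, hmk.trans hkK, fun n hn =>
    (hS.tau n hn).trans (by gcongr)⟩, hs1, hs.trans hkK, ?_, hy45,
      le_trans (by exact_mod_cast hy2) hX2⟩, hF, by nlinarith, hF', hn1⟩
  rw [← pow_mul]
  exact hν

open Classical in
/-- Rotated piles control all minor arcs at linear cost. -/
theorem flips (m p s Mg : ℕ) (k ν H NN0 : ℝ) (e g : O m) (U : Finset (O m)) (hS : Sml m k)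
    (hs1 : 1 ≤ s) (hs : (s : ℝ) ≤ k) (hp1 : 1 ≤ p) (hp : (p : ℝ) ≤ k) (hν : k ^ 2000 ≤ ν)
    (hlog : Real.log ν ≤ k) (hH : k ^ 160000 ≤ H) (hU : Pile e s ν U)
    (hg : IsCoprime (g * e) (star (g * e))) (hgn : (g.norm : ℝ) ^ 10 ≤ ν) (h0 : 0 < NN0)
    (h1 : NN0 ≤ (g * e).norm) (h2 : ((g * e).norm : ℝ) ≤ 2 * NN0)
    (hMg : (Mg : ℝ) ≤ 9 * p * Real.sqrt NN0) :
    ∃ φ : ℂ → ℂ, Adm e (35820 * s) φ ∧
      ∑ n ∈ (grid Mg).filter (fun n => ¬ Low m (gp m Mg n) (H ^ 3) NN0),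
        ‖φ (gp m Mg n / ph m (mu m) * ph m g)‖ * ‖φ (conj (gp m Mg n) / ph m (mu m) * ph m g)‖ ≤
        1 / 10 := by
  obtain ⟨y, J, J', F, F', hP, hF, hJ, hF', hJ'⟩ := fams_FLFlips hS hs1 hs hν hlog
  obtain ⟨φ1, a1, p1⟩ := hblock hP hF hJ hU
  obtain ⟨φ2, a2, p2⟩ := mblock hP hF' hU
  obtain ⟨φ3, a3, p3⟩ := mblock hP hF hU
  have hk := hS.k1
  have hk1 : 1 ≤ k := le_trans (by norm_num) hk
  have hk3 : k ^ 3 ≤ ν := (pow_le_pow_right₀ hk1 (by norm_num)).trans hν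
  have hν0 : 1 ≤ ν := (one_le_pow₀ hk1).trans hk3
  have hk2 : k ^ 2 ≤ H := (pow_le_pow_right₀ hk1 (by norm_num)).trans hH
  have hH1 : 1 ≤ H := (one_le_pow₀ hk1).trans hk2
  have hH' : (k ^ 20) ^ 8000 ≤ H := by
    rw [← pow_mul]
    exact hH
  have hA := ((a1.pow 2010).mul (a2.pow 3600)).mul (a3.pow 360)
  rw [show 2010 * (6 * s) + 3600 * (6 * s) + 360 * (6 * s) = 35820 * s by ring] at hA
  refine ⟨_, hA, ?_⟩
  have hsix := fun b b' : ℂ => six_FLFlips (a1 := ‖φ1 b‖ ^ 2010) (a2 := ‖φ2 b‖ ^ 3600)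
    (a3 := ‖φ3 b‖ ^ 360) (b1 := ‖φ1 b'‖ ^ 2010) (b2 := ‖φ2 b'‖ ^ 3600) (b3 := ‖φ3 b'‖ ^ 360)
    (by positivity) (by positivity) (by positivity) (by positivity) (by positivity) (by positivity)
    (pow_le_one₀ (norm_nonneg _) (a1.norm_le b)) (pow_le_one₀ (norm_nonneg _) (a2.norm_le b))
    (pow_le_one₀ (norm_nonneg _) (a3.norm_le b)) (pow_le_one₀ (norm_nonneg _) (a1.norm_le b'))
    (pow_le_one₀ (norm_nonneg _) (a2.norm_le b')) (pow_le_one₀ (norm_nonneg _) (a3.norm_le b'))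
  simp only [norm_mul, norm_pow]
  rw [← sum_filter_add_sum_filter_not _
    fun n => ‖φ1 (gp m Mg n / ph m (mu m) * ph m g)‖ ≤ 1 / ν]
  refine le_trans (add_le_add (b := 1 / 20) (d := 1 / 20) ?_ ?_) (by norm_num)
  · refine le_trans (sum_le_card_nsmul _ _ ((1 / ν) ^ 2010) fun n hn => ?_) ?_
    · exact (hsix _ _).1.trans (pow_le_pow_left₀ (norm_nonneg _) (mem_filter.1 hn).2 _)
    · have hc : ((((grid Mg).filter fun n => ¬ Low m (gp m Mg n) (H ^ 3) NN0).filter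
          fun n => ‖φ1 (gp m Mg n / ph m (mu m) * ph m g)‖ ≤ 1 / ν).card : ℝ) ≤ (Mg : ℝ) ^ 2 := by
        have h3 := (card_filter_le _
          fun n => ‖φ1 (gp m Mg n / ph m (mu m) * ph m g)‖ ≤ 1 / ν).trans
          (card_filter_le (grid Mg) fun n => ¬ Low m (gp m Mg n) (H ^ 3) NN0)
        have h4 : (grid Mg).card = Mg ^ 2 := by simp [grid, sq]
        rw [h4] at h3
        exact_mod_cast h3
      have hgν : (g.norm : ℝ) ≤ ν := by
        rcases le_total (g.norm : ℝ) 1 with h | h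
        · exact h.trans hν0
        · exact (le_self_pow₀ h (by norm_num)).trans hgn
      have hN : NN0 ≤ ν * ν ^ 2000 := by
        refine h1.trans ?_
        rw [Zsqrtd.norm_mul, Int.cast_mul, hU.nrm]
        exact mul_le_mul_of_nonneg_right hgν (by positivity)
      have hM : (Mg : ℝ) ^ 2 ≤ 81 * k ^ 2 * (ν * ν ^ 2000) :=
        calc (Mg : ℝ) ^ 2 ≤ (9 * p * Real.sqrt NN0) ^ 2 := by gcongr
          _ = 81 * (p : ℝ) ^ 2 * NN0 := by rw [mul_pow, Real.sq_sqrt h0.le]; ring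
          _ ≤ _ := by gcongr
      have h5 : 81 * k ^ 2 * 20 ≤ ν ^ 9 := by
        refine le_trans ?_ (hk3.trans (le_self_pow₀ hν0 (by norm_num)))
        calc 81 * k ^ 2 * 20 = 1620 * k ^ 2 := by ring
          _ ≤ k * k ^ 2 := by gcongr; linarith
          _ = k ^ 3 := by ring
      have h6 : ν ^ 2010 = ν ^ 9 * (ν * ν ^ 2000) := by rw [← pow_succ', ← pow_add]
      rw [nsmul_eq_mul, one_div_pow, mul_one_div, div_le_div_iff₀ (by positivity) (by norm_num),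
        one_mul, h6]
      generalize ν * ν ^ 2000 = Z at hM hN
      have hZ : 0 ≤ Z := h0.le.trans hN
      calc _ ≤ 81 * k ^ 2 * Z * 20 := by gcongr; exact hc.trans hM
        _ = 81 * k ^ 2 * 20 * Z := by ring
        _ ≤ ν ^ 9 * Z := by gcongr
  · refine le_trans (dyadic m p Mg hS.m1 hp1 H NN0 hH1 h0 hMg _
      ((filter_subset _ _).trans (filter_subset _ _)) _ fun n hn => ?_) ?_
    · obtain ⟨hn1, hn2⟩ := mem_filter.1 hn
      obtain ⟨H', β, d, c1, c2, c3⟩ := (point hP e g NN0 H hU.nrm hg hgn h0 h1 h2 hH' φ1 φ2 φ3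
        a1.norm_le a2.norm_le a3.norm_le p1 (narrow hP hF' hJ' hU p2) (wide hP hF hJ hU p3) _
        (mem_filter.1 hn1).2).resolve_left hn2
      refine ⟨H', β, d, c1, c2, ?_⟩
      rcases c3 with c3 | c3 | c3
      · exact (hsix _ _).2.1.trans c3
      · exact (hsix _ _).2.2.1.trans c3
      · exact (hsix _ _).2.2.2.trans c3
    · rw [div_le_div_iff₀ (by positivity) (by norm_num), one_mul]
      calc 10 ^ 4 * (p : ℝ) ^ 2 * 20 ≤ 10 ^ 4 * k ^ 2 * 20 := by gcongr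
        _ = 200000 * k ^ 2 := by ring
        _ ≤ k ^ 2 * k ^ 2 := by gcongr; nlinarith
        _ = (k ^ 2) ^ 2 := by ring
        _ ≤ H ^ 2 := by gcongr

end Pool.Agent.P.MP_b75a1e_co.EG
end

-- part Pool.Agent.P.MP_b75a1e_co.FLCore
section

set_option autoImplicit false

open Finset
open scoped BigOperators ComplexConjugate

namespace Pool.Agent.P.MP_b75a1e_co.EG

/-- The sum of the rotated piles and of the two lifting summands. -/
def psiB {m r : ℕ} (g x Γ : O m) (zI zII : Fin r → O m) (ε2 ε1 : Fin r → Bool) : O m :=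
  g * x + Γ * base zI * cube zII ε2 + Γ * base zII * cube zI ε1

theorem psi_sum_FLCore {m r n : ℕ} (g e x Γ : O m) (zI zII : Fin r → O m)
    (hg : g * e = Γ * (base zI * base zII))
    (hx : Rep m e.norm n (ph m x) ∧ mu m ∣ x - (n : O m) * e) (hI : ∀ i, mu m ∣ zI i - star (zI i))
    (hII : ∀ i, mu m ∣ zII i - star (zII i)) (ε2 ε1 : Fin r → Bool) :
    Rep m (Γ * (base zI * base zII)).norm (n + 2) (ph m (psiB g x Γ zI zII ε2 ε1)) ∧
      mu m ∣ psiB g x Γ zI zII ε2 ε1 - ((n + 2 : ℕ) : O m) * (Γ * (base zI * base zII)) := by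
  constructor
  · have a := hx.1.mul_left g
    have e1 : (g.norm : ℝ) * e.norm = (Γ * (base zI * base zII)).norm := by
      rw [← hg, Zsqrtd.norm_mul]; push_cast; ring
    rw [e1, ← map_mul] at a
    have b : SumOf (Γ * (base zI * base zII)).norm 1 (Γ * base zI * cube zII ε2) :=
      SumOf.single (by simp only [Zsqrtd.norm_mul, norm_cube]; ring)
    have c : SumOf (Γ * (base zI * base zII)).norm 1 (Γ * base zII * cube zI ε1) :=
      SumOf.single (by simp only [Zsqrtd.norm_mul, norm_cube]; ring)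
    have d := (a.add b.rep).add c.rep
    rw [← map_add, ← map_add] at d
    exact d
  · have e2 : psiB g x Γ zI zII ε2 ε1 - ((n + 2 : ℕ) : O m) * (Γ * (base zI * base zII)) =
        g * (x - (n : O m) * e) + Γ * base zI * (cube zII ε2 - base zII) +
          Γ * base zII * (cube zI ε1 - base zI) := by
      rw [psiB]
      push_cast
      linear_combination (n : O m) * hg
    rw [e2]
    exact dvd_add (dvd_add (hx.2.mul_left _) ((dvd_cube_sub zII _ hII ε2).mul_left _))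
      ((dvd_cube_sub zI _ hI ε1).mul_left _)

theorem psi_ch_FLCore {m r : ℕ} {Ω : Type} [Fintype Ω] (X : Ω → O m) (g h Γ : O m)
    (zI zII : Fin r → O m) (θ : ℂ) :
    ‖ch (fun ω : (Ω × Ω) × ((Fin r → Bool) × (Fin r → Bool)) × (Fin r → Bool) =>
        h * psiB g (X ω.1.1) Γ zI zII ω.2.1.1 ω.2.2 +
        star (h * psiB g (X ω.1.2) Γ zI zII ω.2.1.2 ω.2.2)) (θ / ph m (mu m))‖ ≤
        ‖ch X (θ / ph m (mu m) * ph m (h * g))‖ * ‖ch X (conj θ / ph m (mu m) * ph m (h * g))‖ ∧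
      ‖ch (fun ω : (Ω × Ω) × ((Fin r → Bool) × (Fin r → Bool)) × (Fin r → Bool) =>
        h * psiB g (X ω.1.1) Γ zI zII ω.2.1.1 ω.2.2 +
        star (h * psiB g (X ω.1.2) Γ zI zII ω.2.1.2 ω.2.2)) (θ / ph m (mu m))‖ ≤
        ‖FI (h * Γ) zI zII θ‖ * ‖FII (h * Γ) zI zII θ‖ := by
  set A : Ω → O m := fun b => (h * g) * X b with hA
  set B : (Fin r → Bool) → O m := fun ε => h * Γ * base zI * cube zII ε with hB
  set C : (Fin r → Bool) → O m := fun ε => h * Γ * base zII * cube zI ε with hC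
  have e1 : ∀ b ε2 ε1, h * psiB g (X b) Γ zI zII ε2 ε1 = A b + B ε2 + C ε1 := fun b ε2 ε1 => by
    simp only [psiB, hA, hB, hC, mul_add, mul_assoc]
  have e2 : (fun ω : (Ω × Ω) × ((Fin r → Bool) × (Fin r → Bool)) × (Fin r → Bool) =>
      h * psiB g (X ω.1.1) Γ zI zII ω.2.1.1 ω.2.2 +
      star (h * psiB g (X ω.1.2) Γ zI zII ω.2.1.2 ω.2.2)) =
      fun ω : (Ω × Ω) × ((Fin r → Bool) × (Fin r → Bool)) × (Fin r → Bool) =>
      A ω.1.1 + star (A ω.1.2) +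
        (B ω.2.1.1 + star (B ω.2.1.2) + (C ω.2.2 + star (C ω.2.2))) := by
    funext ω
    simp only [e1, star_add]
    ring
  have a1 := ch_mul X (h * g) (θ / ph m (mu m))
  have a2 := ch_mul X (h * g) (conj θ / ph m (mu m))
  have b1 : ch B (θ / ph m (mu m)) = FII (h * Γ) zI zII θ := rfl
  have c1 : ch (fun ε => C ε + star (C ε)) (θ / ph m (mu m)) = FI (h * Γ) zI zII θ := rfl
  have q1 := ch_prod A (fun b => star (A b)) (θ / ph m (mu m))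
  have q2 := ch_prod B (fun ε => star (B ε)) (θ / ph m (mu m))
  have q3 := ch_prod (fun q : (Fin r → Bool) × (Fin r → Bool) => B q.1 + star (B q.2))
    (fun ε => C ε + star (C ε)) (θ / ph m (mu m))
  have q4 := ch_prod (fun q : Ω × Ω => A q.1 + star (A q.2))
    (fun q : ((Fin r → Bool) × (Fin r → Bool)) × (Fin r → Bool) =>
      B q.1.1 + star (B q.1.2) + (C q.2 + star (C q.2))) (θ / ph m (mu m))
  rw [e2, q4, q3, q2, q1, ch_star_mu A, norm_mul, norm_mul, norm_mul, norm_mul]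
  have n1 := norm_ch_le A (θ / ph m (mu m))
  have n2 := norm_ch_le A (conj θ / ph m (mu m))
  have n3 := norm_ch_le B (θ / ph m (mu m))
  have n4 := norm_ch_le (fun ε => star (B ε)) (θ / ph m (mu m))
  have n5 := norm_ch_le (fun ε => C ε + star (C ε)) (θ / ph m (mu m))
  constructor
  · refine (mul_le_of_le_one_right (by positivity)
      (mul_le_one₀ (mul_le_one₀ n3 (norm_nonneg _) n4) (norm_nonneg _) n5)).trans (le_of_eq ?_)
    rw [a1, a2]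
  · refine (mul_le_of_le_one_left (by positivity) (mul_le_one₀ n1 (norm_nonneg _) n2)).trans ?_
    rw [← b1, ← c1, mul_comm]
    exact mul_le_mul_of_nonneg_left (mul_le_of_le_one_right (norm_nonneg _) n4) (norm_nonneg _)

theorem four_FLCore (p a : ℕ) : ((4 : ℝ) ^ p) ^ a = 2 ^ (2 * p * a) := by
  rw [show (4 : ℝ) = 2 ^ 2 by norm_num, ← pow_mul, ← pow_mul, mul_assoc]

theorem cnt_FLCore {p κ s : ℕ} (hp : 10 ^ 20 ≤ p) (h1 : 1 ≤ κ) (h2 : 10 ^ 12 * κ ≤ p)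
    (hs : s = 8964 * κ) : 16 * (35820 * s + 2 + 60000) ≤ p ∧ 1 ≤ s ∧ s ≤ p ∧ 1001 * κ ≤ p := by
  omega

theorem log_FLCore {ν a b : ℝ} (h6 : Real.log ν ≤ a * Real.log 2) (h8 : a ≤ b) (h9 : 0 ≤ a) :
    Real.log ν ≤ b := by
  have h7 : Real.log 2 ≤ 1 := by
    have := Real.log_two_lt_d9
    linarith
  nlinarith

theorem exps_FLCore {p : ℕ} (hp : 10 ^ 20 ≤ p) :
    2 * p * 160000 ≤ p ^ 4 ∧ p ^ 4 * 3 ≤ p ^ 5 ∧ 2 * p * 2000 * 20 ≤ p ^ 28 ∧
      3 * p ^ 25 * 10 * 20 ≤ p ^ 28 ∧ p ^ 21 + (p ^ 25 + p ^ 25) ≤ 3 * p ^ 25 ∧ p ^ 38 ≤ 4 ^ p := by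
  have s : ∀ a, 10 ^ 20 * p ^ a ≤ p ^ (a + 1) := fun a => by
    rw [pow_succ p a, mul_comm]
    exact Nat.mul_le_mul_left _ hp
  have mo : ∀ {a b}, a ≤ b → p ^ a ≤ p ^ b := fun h => Nat.pow_le_pow_right (by omega) h
  have s1 := s 1
  have s4 := s 4
  have s25 := s 25
  have m1 : p ^ (1 + 1) ≤ p ^ 4 := mo (by norm_num)
  have m2 : p ^ (1 + 1) ≤ p ^ 28 := mo (by norm_num)
  have m3 : p ^ (25 + 1) ≤ p ^ 28 := mo (by norm_num)
  have m4 : p ^ 21 ≤ p ^ 25 := mo (by norm_num)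
  rw [pow_one] at s1
  have e5 : p ^ (4 + 1) = p ^ 5 := rfl
  refine ⟨by omega, by omega, by omega, by omega, by omega, ?_⟩
  have h1 : p / 19 < 2 ^ (p / 38 / 2) := by
    have a := Nat.lt_two_pow_self (n := p / 38 / 2 / 2)
    have b : 2 ^ (p / 38 / 2 / 2) * 2 ^ (p / 38 / 2 / 2) ≤ 2 ^ (p / 38 / 2) := by
      rw [← pow_add]
      exact Nat.pow_le_pow_right (by norm_num) (by omega)
    have c : 1000 ≤ p / 38 / 2 / 2 := by omega
    have d : (p / 38 / 2 / 2) * 1000 ≤ 2 ^ (p / 38 / 2 / 2) * 2 ^ (p / 38 / 2 / 2) :=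
      Nat.mul_le_mul a.le (c.trans a.le)
    omega
  have h2 : p ≤ 2 ^ (p / 38) := by
    have b : 2 ^ (p / 38 / 2) * 2 ^ (p / 38 / 2) ≤ 2 ^ (p / 38) := by
      rw [← pow_add]
      exact Nat.pow_le_pow_right (by norm_num) (by omega)
    have c : 100 ≤ p / 19 := by omega
    have d : (p / 19) * 100 ≤ 2 ^ (p / 38 / 2) * 2 ^ (p / 38 / 2) :=
      Nat.mul_le_mul h1.le (c.trans h1.le)
    omega
  calc p ^ 38 ≤ (2 ^ (p / 38)) ^ 38 := Nat.pow_le_pow_left h2 38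
    _ = 2 ^ (p / 38 * 38) := by rw [← pow_mul]
    _ ≤ 2 ^ p := Nat.pow_le_pow_right (by norm_num) (Nat.div_mul_le_self p 38)
    _ ≤ 4 ^ p := Nat.pow_le_pow_left (by norm_num) p

/-- The core theorem at linear cost: enough split primes of one size give the polygon. -/
theorem core' (m p κ lp : ℕ) (hsq : Squarefree m) (h4 : m % 4 = 3) (hp : p.Prime) (hpm : p ∣ m)
    (hmax : ∀ q, q.Prime → q ∣ m → q ≤ p) (hp0 : 10 ^ 20 ≤ p) (hlp : p < 2 ^ lp) (hlp2 : 2 ^ lp ≤ 2 * p)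
    (hκ1 : 20 * lp ≤ κ) (hκ2 : 10 ^ 12 * κ ≤ p) (PP : Finset ℕ)
    (hPP : ∀ l ∈ PP, Split m l ∧ 2 ^ (990 * κ) < l ∧ l ≤ 2 ^ (1001 * κ))
    (hc : 2 ^ (998 * κ) ≤ PP.card)
    (hτ : ∀ n : ℕ, 1 ≤ n → (n.divisors.card : ℝ) ≤ 4 ^ p * (n : ℝ) ^ (1 / 1000 : ℝ)) :
    HasGon m p := by
  classical
  have hm2 : 2 ≤ m := by omega
  have hm : 1 ≤ m := by omega
  have hmodd : m % 2 = 1 := by omega
  have hmp := m_le_four_pow hsq hmax
  have hlp1 : 1 ≤ lp := by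
    rcases Nat.eq_zero_or_pos lp with h | h
    · subst h; omega
    · exact h
  have hpodd : p % 2 = 1 := hp.eq_two_or_odd.resolve_left (by omega)
  have hκ3 : κ * 10 ^ 10 ≤ p :=
    le_trans (by rw [mul_comm]; exact Nat.mul_le_mul_right _ (by norm_num)) hκ2
  obtain ⟨lam0, e0, U0, D, hD1, hD2, hD3, hj, -, -, htop⟩ :=
    tower_FLTower m p κ lp hm2 hmp hp0 hlp hlp2 hκ1 hκ3 PP hPP hc
  obtain ⟨hen, -, -, hUc, hUs⟩ := hj (216 * lp) le_rfl
  generalize lam0 (216 * lp) = lam at hen hUc htop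
  generalize e0 (216 * lp) = e at hen hUs hD3
  generalize U0 (216 * lp) = U at hUc hUs
  clear hj
  obtain ⟨x1, x2, x3, x4, x5, x6⟩ := exps_FLCore hp0
  obtain ⟨s, hsd⟩ : ∃ s, s = 8964 * κ := ⟨_, rfl⟩
  rw [← hsd] at hUs
  obtain ⟨hn, hs1, hsp, hκp⟩ := cnt_FLCore hp0 (by omega) hκ2 hsd
  have hpY : p ≤ p ^ 15 := Nat.le_self_pow (by norm_num) p
  have hsm : Smo (p ^ 15) m := fun q hq h => (hmax q hq h).trans hpY
  have hD4 : ∀ l ∈ D, l.Prime ∧ p ^ 60 ≤ l := fun l hl => by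
    obtain ⟨h1, h2, _⟩ := hPP l (hD1 hl)
    refine ⟨h1.1, le_trans ?_ h2.le⟩
    calc p ^ 60 ≤ (2 ^ lp) ^ 60 := Nat.pow_le_pow_left hlp.le 60
      _ = 2 ^ (lp * 60) := by rw [← pow_mul]
      _ ≤ _ := Nat.pow_le_pow_right (by norm_num) (by omega)
  obtain ⟨zg, R, c1, c2, c3, c4, c5, c6, c7, c8, c9⟩ :=
    coords_FLCoords m p (35820 * s + 2 + 60000) hsq h4 hmax hmp hp0 hpodd hn e D hD4 hD2 hD3
  obtain ⟨H, hHd⟩ : ∃ H : ℝ, H = 2 ^ p ^ 4 := ⟨_, rfl⟩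
  have hH0 : (1 : ℝ) ≤ H := by rw [hHd]; exact one_le_pow₀ (by norm_num)
  have hH1 : (1 : ℝ) ≤ H ^ 3 := one_le_pow₀ hH0
  have hH : H ^ 3 ≤ 2 ^ p ^ 5 := by
    rw [hHd, ← pow_mul]
    exact pow_le_pow_right₀ (by norm_num) x2
  obtain ⟨z, m1, m2, m3, m4, m5, m6, m7, m8⟩ :=
    random_mid m p hm hmax hmp hp0 (H ^ 3) hH _ c2 c3 c4
  obtain ⟨zI, zII, NN0, Mg, l1, l2, l3, l4, l5, l6, l7, l8, l9, l10, l11, l12⟩ :=
    random_lift m p hm hmax hmp hp0 (H ^ 3) hH1 hH _ (c1.mul m4) m1 m2 m3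
  set C := midC z * (base zI * base zII) with hC
  set G2 := e * R * C with hG2
  have hG : star zg * (e * R) * midC z * (base zI * base zII) = star zg * G2 := by
    rw [hG2, hC]; ring
  rw [hG] at l1 l2 l3
  have hC1 : (M1 m (p ^ 15) : O m) ∣ C - 1 := by
    have : C - 1 = (midC z - 1) * (base zI * base zII) + (base zI * base zII - 1) := by
      rw [hC]; ring
    rw [this]
    exact dvd_add (m4.mul_right _) l4
  obtain ⟨S, s1, s2, s3, s4⟩ := c9 C hC1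
  have hQ1 := QQ_pos m (p ^ 15)
  have hp1 : (1 : ℝ) ≤ p := by exact_mod_cast (by omega : 1 ≤ p)
  have hNN0 : 0 < NN0 := lt_of_lt_of_le (by
    have : (1 : ℝ) ≤ QQ m (p ^ 15) := by exact_mod_cast hQ1
    positivity) l11
  have hlam0 : 0 ≤ lam := le_trans (by positivity) htop
  obtain ⟨ν, hν0, hν⟩ : ∃ ν : ℝ, 0 ≤ ν ∧ ν ^ 20 = lam :=
    ⟨lam ^ ((20 : ℕ) : ℝ)⁻¹, Real.rpow_nonneg hlam0 _, Real.rpow_inv_natCast_pow hlam0 (by norm_num)⟩
  have hνlow : ∀ a : ℕ, a * 20 ≤ p ^ 28 → (2 : ℝ) ^ a ≤ ν := fun a ha => by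
    refine le_of_pow_le_pow_left₀ (n := 20) (by norm_num) hν0 ?_
    rw [hν, ← pow_mul]
    exact (pow_le_pow_right₀ (by norm_num) ha).trans htop
  have hpile : Pile e s ν U := by
    refine ⟨?_, ?_, hUs⟩
    · rw [hen, ← hν, ← pow_mul]
    · rw [show 1980 = 20 * 99 from rfl, pow_mul, hν]
      exact hUc
  have hp4 : (p : ℝ) ≤ 4 ^ p := by
    have : p ≤ 4 ^ p := (Nat.le_self_pow (by norm_num) p).trans x6
    exact_mod_cast this
  have hp20 : (10 : ℝ) ^ 20 ≤ p := by exact_mod_cast hp0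
  have hSml : Sml m (4 ^ p) :=
    ⟨hm, le_trans (le_trans (by norm_num) hp20) hp4, by exact_mod_cast hmp, hτ⟩
  have hν1 : 1 ≤ ν := by simpa using hνlow 0 (Nat.zero_le _)
  have hlog : Real.log ν ≤ 4 ^ p := by
    have h1 := (prod_bounds_EGTower D _ _ fun l hl => (hPP l (hD1 hl)).2).2
    rw [← hD3, hpile.nrm] at h1
    have h2 : ν ≤ ν ^ 2000 := le_self_pow₀ hν1 (by norm_num)
    have h3 : 1001 * κ * D.card ≤ p ^ 38 := by
      calc 1001 * κ * D.card ≤ p * p ^ 37 := Nat.mul_le_mul hκp hD2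
        _ = p ^ 38 := by ring
    have h5 : ν ≤ 2 ^ p ^ 38 := (h2.trans h1).trans (pow_le_pow_right₀ (by norm_num) h3)
    have h6 := Real.log_le_log (by linarith) h5
    rw [Real.log_pow] at h6
    exact log_FLCore h6 (by exact_mod_cast x6) (Nat.cast_nonneg _)
  have hge : star zg * (R * C) * e = star zg * G2 := by rw [hG2]; ring
  have hgn : ((star zg * (R * C)).norm : ℝ) ^ 10 ≤ ν := by
    have h1 : star zg * (R * C) = star zg * R * (midC z * (base zI * base zII)) := by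
      rw [hC]; ring
    have h2 : (star zg * (R * C)).norm ≤ 2 ^ p ^ 21 * (2 ^ p ^ 25 * 2 ^ p ^ 25) := by
      rw [h1, Zsqrtd.norm_mul (star zg * R), Zsqrtd.norm_mul (midC z)]
      exact mul_le_mul c5 (mul_le_mul m5 l5 (norm_nonneg' _) (by positivity))
        (mul_nonneg (norm_nonneg' _) (norm_nonneg' _)) (by positivity)
    have h3 : (2 : ℤ) ^ p ^ 21 * (2 ^ p ^ 25 * 2 ^ p ^ 25) ≤ 2 ^ (3 * p ^ 25) := by
      rw [← pow_add, ← pow_add]
      exact pow_le_pow_right₀ (by norm_num) x5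
    have h5 : ((star zg * (R * C)).norm : ℝ) ≤ 2 ^ (3 * p ^ 25) := by exact_mod_cast h2.trans h3
    have h6 : (0 : ℝ) ≤ ((star zg * (R * C)).norm : ℝ) := by exact_mod_cast norm_nonneg' _
    refine (pow_le_pow_left₀ h6 h5 10).trans ?_
    rw [← pow_mul]
    exact hνlow _ x4
  obtain ⟨φ, ⟨Ω, _, _, X, hX, hXφ⟩, hminor⟩ := flips m p s Mg (4 ^ p) ν H NN0 e (star zg * (R * C)) U
    hSml hs1 (le_trans (by exact_mod_cast hsp) hp4) (by omega) hp4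
    (by rw [four_FLCore]; exact hνlow _ x3) hlog
    (by rw [four_FLCore, hHd]; exact pow_le_pow_right₀ (by norm_num) x1) hpile
    (by rw [hge]; exact l1) hgn hNN0 (by rw [hge]; exact l2) (by rw [hge]; exact l3) l10
  have hΓp : e * R * midC z * (base zI * base zII) = G2 := by rw [hG2, hC]; ring
  have hΓm : e * R * (base zI * base zII) * midC z = G2 := by rw [hG2, hC]; ring
  have psum := fun ω => psi_sum_FLCore (R * C) e (X ω) (e * R * midC z) zI zII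
    (by rw [hΓp, hG2]; ring) (hX ω) l6 l7
  rw [hΓp] at psum
  have hη : (0 : ℝ) ≤ 1 / (2 * (p : ℝ) ^ 6 * 2 ^ p ^ 17) := by positivity
  have msum := mid_sum (e * R * (base zI * base zII)) ((QQ m (p ^ 15) : O m) * mu m) z _ hη m6
  rw [hΓm] at msum
  have hηe : 2 * ((p ^ 6 : ℕ) : ℝ) * (1 / (2 * (p : ℝ) ^ 6 * 2 ^ p ^ 17)) = 1 / 2 ^ p ^ 17 := by
    push_cast
    field_simp
  rw [hηe] at msum
  have hrep := endgame_FLEnd m p (p ^ 15) (QQ m (p ^ 15)) Mg (35820 * s + 2) 60000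
    (p - 4 * (35820 * s + 2 + 60000)) (H ^ 3) NN0 (1 / 2 ^ p ^ 17)
    (Ω := (Ω × Ω) × ((Fin (p ^ 6) → Bool) × (Fin (p ^ 6) → Bool)) × (Fin (p ^ 6) → Bool))
    (Ω' := OmM (p ^ 6) × OmM (p ^ 6)) zg G2 S
    (fun ω => psiB (R * C) (X ω.1.1) (e * R * midC z) zI zII ω.2.1.1 ω.2.2)
    (fun ω => psiB (R * C) (X ω.1.2) (e * R * midC z) zI zII ω.2.1.2 ω.2.2)
    (fun ω => midY (e * R * (base zI * base zII)) z ω.1)
    (fun ω => midY (e * R * (base zI * base zII)) z ω.2) (WW z) hm (by omega) hQ1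
    (coprime_QQ hmodd _) l8 hH1 l9 l10 l11 (by positivity)
    (eps_EGCore hp0 (le_trans zero_le_one hH1) hH) (by omega) l3 c6 c7 c8
    (fun ω => psum _ _ _) (fun ω => psum _ _ _) (fun ω => msum _) (fun ω => msum _) ⟨s1, s2, s3, s4⟩
    (le_trans (sum_le_sum fun n _ => by
      have := (psi_ch_FLCore X (R * C) (star zg) (e * R * midC z) zI zII (gp m Mg n)).1
      rwa [hXφ, hXφ] at this) hminor)
    (le_trans (sum_le_sum fun n _ => by
      have := (psi_ch_FLCore X (R * C) (star zg) (e * R * midC z) zI zII (gp m Mg n)).2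
      rwa [← mul_assoc (star zg)] at this) l12)
    (fun d β h1 _ h3 h5 => by
      have hΓ : star zg * (e * R * (base zI * base zII)) * midC z = star zg * G2 := by
        rw [← hΓm]; ring
      have := mid_bound m (p ^ 15) (p ^ 6) d hm (by omega) hsm
        (star zg * (e * R * (base zI * base zII))) z (by rw [hΓ]; exact l1)
        (fun b a i => (Dvd.intro_left _ rfl).trans (m6 b a i).1) m7 h1 h3 β h5
      rw [hΓ] at this
      simp only [midY_mul]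
      exact_mod_cast this)
    (WW_nonneg z) m8
  refine hasGon_of_rep hp (by omega) hpm hsq ?_ hrep
  exact (lt_of_lt_of_le hNN0 l2).ne'

end Pool.Agent.P.MP_b75a1e_co.EG
end

-- part Pool.Agent.P.MP_b75a1e_co.FLMain
section

set_option autoImplicit false

open Finset
open scoped BigOperators ComplexConjugate

namespace Pool.Agent.P.MP_b75a1e_co.EG

/-- The polygon exists whenever the largest prime factor is large. -/
theorem all_large : ∃ p0 : ℕ, ∀ m p : ℕ, Squarefree m → m % 4 = 3 → p.Prime → p ∣ m →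
    (∀ q, q.Prime → q ∣ m → q ≤ p) → p0 ≤ p → HasGon m p := by
  obtain ⟨p1, h1⟩ := supply
  obtain ⟨C, hC0, hC⟩ := Pool.Agent.EQ.div_bound (ε := 1 / 1000) (by norm_num)
  refine ⟨max (max p1 (10 ^ 20)) ⌈C⌉₊, fun m p hsq h4 hp hpm hmax h0 => ?_⟩
  have a1 : p1 ≤ p := ((le_max_left _ _).trans (le_max_left _ _)).trans h0
  have a2 : 10 ^ 20 ≤ p := ((le_max_right _ _).trans (le_max_left _ _)).trans h0
  have a3 : ⌈C⌉₊ ≤ p := (le_max_right _ _).trans h0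
  have b1 : p < 2 ^ (Nat.log 2 p + 1) := Nat.lt_pow_succ_log_self (by norm_num) p
  have b2 : 2 ^ (Nat.log 2 p + 1) ≤ 2 * p := by
    have := Nat.pow_log_le_self 2 hp.ne_zero
    rw [pow_succ]
    omega
  obtain ⟨κ, PP, k1, k2, k3, k4⟩ := h1 m p _ a1 hsq h4 hmax b1 b2
  refine core' m p κ _ hsq h4 hp hpm hmax a2 b1 b2 k1 k2 PP k3 k4 fun n hn => (hC n hn).trans ?_
  refine mul_le_mul_of_nonneg_right ?_ (by positivity)
  have c1 : p ≤ 4 ^ p := (Nat.lt_pow_self (by norm_num)).le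
  have c2 : ((⌈C⌉₊ : ℕ) : ℝ) ≤ 4 ^ p := by exact_mod_cast a3.trans c1
  exact (Nat.le_ceil C).trans c2

end Pool.Agent.P.MP_b75a1e_co.EG
end
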