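import Mathlib
import Pool.Agent.K.MP_b75a1e_co.C2

-- part Pool.Agent.P.MP_b75a1e_co.Chain
section

set_option autoImplicit false

open Finset

namespace Pool.Agent.P.MP_b75a1e_co

/-- Mixed radix representation along a chain of small indices. -/
theorem chain {ι : Type} [DecidableEq ι] (𝓢 : Finset ι) (T : ι → ℤ) (top : ι) (htop : top ∈ 𝓢) (A : ℕ)
    (X : ℤ) (Q : ℕ → ℤ → Prop) (Q0 : ∀ c, Q c 0)
    (Qadd : ∀ c c' t t', Q c t → Q c' t' → Q (c + c') (t + t'))
    (Q1 : ∀ S ∈ 𝓢, ∀ k : ℕ, Q k (k * T S)) (hX : ∀ S ∈ 𝓢, |T S| ≤ X)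
    (closed : ∀ 𝓕 : Finset ι, 𝓕 ⊆ 𝓢 → top ∈ 𝓕 →
      (∀ S ∈ 𝓢, ∀ a : ℕ, 0 < a → a ≤ A → (a : ℤ) * T S ∈ Ideal.span (T '' 𝓕) → S ∈ 𝓕) → 𝓢 ⊆ 𝓕) :
    ∀ R ∈ Ideal.span (T '' 𝓢), ∃ k t : ℤ, R = k * T top + t ∧ Q (𝓢.card * A) t ∧
      |t| ≤ 𝓢.card * A * X := by
  have hX0 : 0 ≤ X := (abs_nonneg _).trans (hX top htop)
  have main : ∀ (n : ℕ) (𝓕 : Finset ι), 𝓕 ⊆ 𝓢 → top ∈ 𝓕 → 𝓕.card + n = 𝓢.card →
      (∀ R ∈ Ideal.span (T '' 𝓕), ∃ k t : ℤ, R = k * T top + t ∧ Q (𝓕.card * A) t ∧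
        |t| ≤ 𝓕.card * A * X) →
      ∀ R ∈ Ideal.span (T '' 𝓢), ∃ k t : ℤ, R = k * T top + t ∧ Q (𝓢.card * A) t ∧
        |t| ≤ 𝓢.card * A * X := by
    intro n
    induction n with
    | zero =>
      intro 𝓕 h1 _ h3 h4
      rwa [eq_of_subset_of_card_le h1 (by omega)] at h4
    | succ n ih =>
      intro 𝓕 h1 h2 h3 h4
      obtain ⟨S, hS, a, a0, aA, ha, hS'⟩ : ∃ S ∈ 𝓢, ∃ a : ℕ, 0 < a ∧ a ≤ A ∧
          (a : ℤ) * T S ∈ Ideal.span (T '' 𝓕) ∧ S ∉ 𝓕 := by
        by_contra h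
        push Not at h
        have := card_le_card (closed 𝓕 h1 h2 h)
        omega
      refine ih (insert S 𝓕) (insert_subset hS h1) (mem_insert_of_mem h2)
        (by rw [card_insert_of_notMem hS']; omega) fun R hR => ?_
      rw [coe_insert, Set.image_insert_eq, Ideal.mem_span_insert] at hR
      obtain ⟨x, z, hz, rfl⟩ := hR
      have a0' : (0 : ℤ) < a := by exact_mod_cast a0
      obtain ⟨k, t, e1, e2, e3⟩ := h4 _ (add_mem hz (Ideal.mul_mem_left _ (x / a) ha))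
      obtain ⟨ρ, hρ⟩ := Int.eq_ofNat_of_zero_le (Int.emod_nonneg x a0'.ne')
      have hρa : ρ ≤ A := by
        have := Int.emod_lt_of_pos x a0'
        omega
      refine ⟨k, t + ρ * T S, ?_, ?_, ?_⟩
      · have := Int.mul_ediv_add_emod x a
        rw [← hρ]
        linear_combination e1 - T S * this
      · have := Qadd _ _ _ _ (Qadd _ _ _ _ e2 (Q1 S hS ρ)) (Q0 (A - ρ))
        rw [add_zero] at this
        rw [card_insert_of_notMem hS']
        convert this using 1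
        rw [add_mul]
        omega
      · have k1 : |(ρ : ℤ) * T S| ≤ A * X := by
          rw [abs_mul, Nat.abs_cast]
          exact mul_le_mul (by exact_mod_cast hρa) (hX S hS) (abs_nonneg _) (Nat.cast_nonneg _)
        rw [card_insert_of_notMem hS']
        push_cast
        linarith [abs_add_le t (ρ * T S)]
  refine main (𝓢.card - 1) {top} (singleton_subset_iff.2 htop) (mem_singleton_self _)
    (by have := card_pos.2 ⟨top, htop⟩; rw [card_singleton]; omega) fun R hR => ?_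
  rw [coe_singleton, Set.image_singleton, Ideal.mem_span_singleton'] at hR
  obtain ⟨k, rfl⟩ := hR
  exact ⟨k, 0, by simp, Q0 _, by simp; positivity⟩

theorem moves (r n : ℕ) (P : Finset ℕ → Prop)
    (h : ∀ S i, S ⊆ range r → S.card = n → i + 1 ∈ S → i ∉ S →
      (P S ↔ P (insert i (S.erase (i + 1))))) (k : ℕ) :
    ∀ S, S ⊆ range r → S.card = n → ∑ i ∈ S, i = k → (P S ↔ P (range n)) := by
  induction k using Nat.strong_induction_on with
  | _ k ih =>
    intro S h1 h2 h3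
    by_cases hm : ∃ i, i + 1 ∈ S ∧ i ∉ S
    · obtain ⟨i, hi, hi'⟩ := hm
      have hn : i ∉ S.erase (i + 1) := fun e => hi' (mem_of_mem_erase e)
      rw [h S i h1 h2 hi hi']
      refine ih (k - 1) ?_ _ ?_ ?_ ?_
      · have := single_le_sum (f := fun i => i) (fun _ _ => Nat.zero_le _) hi
        omega
      · refine insert_subset ?_ ((erase_subset _ _).trans h1)
        have := mem_range.1 (h1 hi)
        exact mem_range.2 (by omega)
      · rw [card_insert_of_notMem hn, card_erase_of_mem hi]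
        have := card_pos.2 ⟨_, hi⟩
        omega
      · have := add_sum_erase S (fun i => i) hi
        rw [sum_insert hn]
        omega
    · push Not at hm
      have hd : ∀ j i, i + j ∈ S → i ∈ S := by
        intro j
        induction j with
        | zero => exact fun _ h => h
        | succ j ihj => exact fun i hi => ihj i (hm _ hi)
      have : S = range n := by
        refine eq_of_subset_of_card_le (fun i hi => mem_range.2 ?_) (by simp [h2])
        have : range (i + 1) ⊆ S := fun j hj => hd (i - j) j (by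
          rwa [Nat.add_sub_cancel' (Nat.lt_succ_iff.1 (mem_range.1 hj))])
        have := card_le_card this
        rw [card_range] at this
        omega
      rw [this]

end Pool.Agent.P.MP_b75a1e_co
end

-- part Pool.Agent.P.MP_b75a1e_co.Three
section

set_option autoImplicit false

open Finset

namespace Pool.Agent.P.MP_b75a1e_co

/-- `z` is a sum of `n` elements of norm `N`. -/
def Rep {d : ℤ} (N : ℤ) (n : ℕ) (z : ℤ√d) : Prop :=
  ∃ l : Multiset (ℤ√d), l.card = n ∧ (∀ x ∈ l, x.norm = N) ∧ l.sum = z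

theorem Rep.zero {d : ℤ} (N : ℤ) : Rep N 0 (0 : ℤ√d) := ⟨0, rfl, by simp, rfl⟩

theorem Rep.single {d : ℤ} (x : ℤ√d) : Rep x.norm 1 x := ⟨{x}, rfl, by simp, by simp⟩

theorem Rep.add {d N : ℤ} {n n' : ℕ} {z z' : ℤ√d} (h : Rep N n z) (h' : Rep N n' z') :
    Rep N (n + n') (z + z') := by
  obtain ⟨l, rfl, h1, rfl⟩ := h
  obtain ⟨l', rfl, h2, rfl⟩ := h'
  exact ⟨l + l', by simp, fun x hx => (Multiset.mem_add.1 hx).elim (h1 x) (h2 x), by simp⟩

theorem Rep.mul {d N : ℤ} {n : ℕ} {z : ℤ√d} (h : Rep N n z) (y : ℤ√d) :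
    Rep (N * y.norm) n (z * y) := by
  obtain ⟨l, rfl, h1, rfl⟩ := h
  refine ⟨l.map (· * y), by simp, fun x hx => ?_, by rw [Multiset.sum_map_mul_right]; simp⟩
  obtain ⟨w, hw, rfl⟩ := Multiset.mem_map.1 hx
  rw [Zsqrtd.norm_mul, h1 w hw]

theorem Rep.nsmul {d N : ℤ} {n : ℕ} {z : ℤ√d} (h : Rep N n z) (k : ℕ) :
    Rep N (k * n) ((k : ℤ√d) * z) := by
  induction k with
  | zero => simpa using Rep.zero N
  | succ k ih =>
    have := ih.add h
    rwa [← Nat.succ_mul, show (k : ℤ√d) * z + z = ((k + 1 : ℕ) : ℤ√d) * z by push_cast; ring] at this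

theorem Rep.of_eq {d N N' : ℤ} {n n' : ℕ} {z z' : ℤ√d} (h : Rep N n z) (h1 : N = N') (h2 : n = n')
    (h3 : z = z') : Rep N' n' z' := h1 ▸ h2 ▸ h3 ▸ h

theorem hasGon_of_rep {p m : ℕ} (hp : p.Prime) (h29 : 29 ≤ p) (h1 : p ∣ m) (h2 : ¬ p ^ 2 ∣ m) {N : ℤ}
    (hN : N ≠ 0) (h : Rep N p (0 : ℤ√(-(m : ℤ)))) : HasGon m p := by
  obtain ⟨l, k1, k2, k3⟩ := h
  induction l using Quotient.inductionOn with
  | _ L =>
    have k1' : L.length = p := k1
    subst k1'
    have : Fact L.length.Prime := ⟨hp⟩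
    refine hasGon_of_walk h29 h1 h2 (fun i => emb m (L[i.1]).re (L[i.1]).im) (fun i => ⟨_, _, rfl⟩) N
      (by exact_mod_cast hN) (fun i => ?_) ?_
    · rw [normSq_emb, ← k2 L[i.1] (by simp), Zsqrtd.norm_def]
      push_cast
      ring
    · have e : ∑ i : Fin L.length, L[i.1] = 0 := by
        rw [Fin.sum_univ_getElem]
        simpa using k3
      have e1 : ∀ (T : Finset (Fin L.length)) (f : Fin L.length → ℤ√(-(m : ℤ))),
          (∑ i ∈ T, f i).re = ∑ i ∈ T, (f i).re ∧ (∑ i ∈ T, f i).im = ∑ i ∈ T, (f i).im := by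
        intro T f
        induction T using Finset.induction_on with
        | empty => simp
        | insert a T ha ih => simp [sum_insert ha, ih.1, ih.2]
      rw [sum_emb, ← Int.cast_sum, ← Int.cast_sum, ← (e1 _ _).1, ← (e1 _ _).2, e]
      simpa using emb_zero m

theorem three_factors {p a b c m : ℕ} (hp : p.Prime) (h29 : 29 ≤ p) (hm : m = p * (a * b * c))
    (h2 : ¬ p ^ 2 ∣ m) (h4 : m % 4 = 3) (hs : a + b + c ≤ p) : HasGon m p := by
  have key : ∀ p a b c : ZMod 4, p * (a * b * c) = 3 →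
      p + a + c = b ∧ p + a + b = c ∧ p = a + b + c ∧ p + b + c = a := by decide
  obtain ⟨e1, e2, e3, e4⟩ := key p a b c (by
    have : ((m : ℕ) : ZMod 4) = ((3 : ℕ) : ZMod 4) := (ZMod.natCast_eq_natCast_iff' _ _ _).2 h4
    rw [hm] at this
    exact_mod_cast this)
  have f1 : (p + a + c) % 4 = b % 4 := (ZMod.natCast_eq_natCast_iff' _ _ _).1 (by exact_mod_cast e1)
  have f2 : (p + a + b) % 4 = c % 4 := (ZMod.natCast_eq_natCast_iff' _ _ _).1 (by exact_mod_cast e2)
  have f3 : p % 4 = (a + b + c) % 4 := (ZMod.natCast_eq_natCast_iff' _ _ _).1 (by exact_mod_cast e3)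
  have f4 : (p + b + c) % 4 = a % 4 := (ZMod.natCast_eq_natCast_iff' _ _ _).1 (by exact_mod_cast e4)
  obtain ⟨n1, g1⟩ : ∃ n, 4 * n + b = p + a + c := ⟨(p + a + c - b) / 4, by omega⟩
  obtain ⟨n2, g2⟩ : ∃ n, 4 * n + c = p + a + b := ⟨(p + a + b - c) / 4, by omega⟩
  obtain ⟨n3, g3⟩ : ∃ n, 4 * n + (a + b + c) = p := ⟨(p - (a + b + c)) / 4, by omega⟩
  obtain ⟨n4, g4⟩ : ∃ n, 4 * n + a = p + b + c := ⟨(p + b + c - a) / 4, by omega⟩
  have hm0 : 0 < m := by omega
  have hmz : (m : ℤ) = p * (a * b * c) := by exact_mod_cast hm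
  have r : ∀ (ε η : ℤ) (n : ℕ), ε ^ 2 = 1 → η ^ 2 = 1 →
      Rep (((a * c) ^ 2 + m) * ((b * c) ^ 2 + m)) n
        ((n : ℤ√(-(m : ℤ))) * (⟨a * c, ε⟩ * ⟨b * c, η⟩)) := by
    intro ε η n hε hη
    refine ((Rep.single _).nsmul n).of_eq ?_ (mul_one n) rfl
    rw [Zsqrtd.norm_mul, Zsqrtd.norm_def, Zsqrtd.norm_def]
    simp only
    congr 1
    · linear_combination (m : ℤ) * hε
    · linear_combination (m : ℤ) * hη
  refine hasGon_of_rep hp h29 ⟨_, hm⟩ h2 (N := ((a * c) ^ 2 + m) * ((b * c) ^ 2 + m)) (by positivity)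
    (((((r 1 1 n1 rfl rfl).add (r 1 (-1) n2 rfl rfl)).add (r (-1) 1 n3 rfl rfl)).add
      (r (-1) (-1) n4 rfl rfl)).of_eq rfl (by omega) ?_)
  zify at g1 g2 g3 g4
  ext
  · simp only [Zsqrtd.re_add, Zsqrtd.re_mul, Zsqrtd.im_mul, Zsqrtd.re_natCast, Zsqrtd.im_natCast,
      Zsqrtd.re_zero]
    apply mul_left_cancel₀ (show (4 : ℤ) ≠ 0 by norm_num)
    rw [hmz]
    linear_combination ((a : ℤ) * b * c ^ 2 - p * (a * b * c)) * (g1 + g4) +
      ((a : ℤ) * b * c ^ 2 + p * (a * b * c)) * (g2 + g3)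
  · simp only [Zsqrtd.im_add, Zsqrtd.re_mul, Zsqrtd.im_mul, Zsqrtd.re_natCast, Zsqrtd.im_natCast,
      Zsqrtd.im_zero]
    apply mul_left_cancel₀ (show (4 : ℤ) ≠ 0 by norm_num)
    linear_combination ((a : ℤ) * c + b * c) * (g1 - g4) + ((b : ℤ) * c - a * c) * (g2 - g3)

end Pool.Agent.P.MP_b75a1e_co
end

-- part Pool.Agent.P.MP_b75a1e_co.Cube
section

set_option autoImplicit false

open Finset

namespace Pool.Agent.P.MP_b75a1e_co

/-- The quadratic order. -/
abbrev ZK (m : ℕ) : Type := ℤ√(-(m : ℤ))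

variable (m : ℕ) (D : ℕ → ℤ)

/-- The monomial attached to a set of slots. -/
def mon (r : ℕ) (S : Finset ℕ) : ZK m :=
  ∏ i ∈ range r, if i ∈ S then Zsqrtd.sqrtd else (D i : ZK m)

/-- The common norm of the vertices of the cube. -/
def cn (r : ℕ) : ℤ := ∏ i ∈ range r, (D i ^ 2 + m)

/-- The integer coefficient of a monomial. -/
def tt (r : ℕ) (S : Finset ℕ) : ℤ := (-(m : ℤ)) ^ (S.card / 2) * ∏ i ∈ range r \ S, D i

theorem norm_slot (a η : ℤ) (hη : η ^ 2 = 1) :
    ((a : ZK m) + (η : ZK m) * Zsqrtd.sqrtd).norm = a ^ 2 + m := by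
  rw [Zsqrtd.norm_def]
  simp
  linear_combination (m : ℤ) * hη

theorem cube0 (r : ℕ) : Rep (cn m D r) (2 ^ r) (2 ^ r * mon m D r ∅) := by
  induction r with
  | zero => simpa [cn, mon] using Rep.single (1 : ZK m)
  | succ r ih =>
    have h1 := ih.mul ((D r : ZK m) + ((1 : ℤ) : ZK m) * Zsqrtd.sqrtd)
    have h2 := ih.mul ((D r : ZK m) + ((-1 : ℤ) : ZK m) * Zsqrtd.sqrtd)
    rw [norm_slot m _ 1 rfl] at h1
    rw [norm_slot m _ (-1) rfl] at h2
    refine (h1.add h2).of_eq (by rw [cn, cn, prod_range_succ]) (by ring) ?_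
    simp only [mon, prod_range_succ, notMem_empty, if_false]
    push_cast
    ring

theorem cube1 (S : Finset ℕ) (r : ℕ) : (∃ i ∈ S, i < r) → ∀ η : ℤ, η ^ 2 = 1 →
    Rep (cn m D r) (2 ^ r) (2 ^ r * (mon m D r ∅ + (η : ZK m) * mon m D r S)) := by
  induction r with
  | zero => rintro ⟨i, -, h⟩; omega
  | succ r ih =>
    intro h η hη
    have hη' : (η : ZK m) ^ 2 = 1 := by exact_mod_cast congrArg (Int.cast (R := ZK m)) hη
    by_cases h' : ∃ i ∈ S, i < r
    · by_cases hr : r ∈ S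
      · have h1 := (ih h' 1 rfl).mul ((D r : ZK m) + (η : ZK m) * Zsqrtd.sqrtd)
        have h2 := (ih h' (-1) rfl).mul ((D r : ZK m) + ((-η : ℤ) : ZK m) * Zsqrtd.sqrtd)
        rw [norm_slot m _ _ hη] at h1
        rw [norm_slot m _ _ (by rw [neg_sq, hη])] at h2
        refine (h1.add h2).of_eq (by rw [cn, cn, prod_range_succ]) (by ring) ?_
        simp only [mon, prod_range_succ, notMem_empty, if_false, hr, if_true]
        push_cast
        ring
      · have h1 := (ih h' η hη).mul ((D r : ZK m) + ((1 : ℤ) : ZK m) * Zsqrtd.sqrtd)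
        have h2 := (ih h' η hη).mul ((D r : ZK m) + ((-1 : ℤ) : ZK m) * Zsqrtd.sqrtd)
        rw [norm_slot m _ 1 rfl] at h1
        rw [norm_slot m _ (-1) rfl] at h2
        refine (h1.add h2).of_eq (by rw [cn, cn, prod_range_succ]) (by ring) ?_
        simp only [mon, prod_range_succ, notMem_empty, if_false, hr]
        push_cast
        ring
    · obtain ⟨i, hi, hir⟩ := h
      have hr : r ∈ S := by
        by_contra hr
        exact h' ⟨i, hi, lt_of_le_of_ne (by omega) fun e => hr (e ▸ hi)⟩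
      have e : mon m D r S = mon m D r ∅ :=
        prod_congr rfl fun j hj => by
          rw [if_neg fun hj' => h' ⟨j, hj', mem_range.1 hj⟩, if_neg (notMem_empty j)]
      have h1 := (cube0 m D r).mul ((D r : ZK m) + (η : ZK m) * Zsqrtd.sqrtd)
      rw [norm_slot m _ _ hη] at h1
      refine (h1.add h1).of_eq (by rw [cn, cn, prod_range_succ]) (by ring) ?_
      have e1 : mon m D (r + 1) S = mon m D r ∅ * Zsqrtd.sqrtd := by
        rw [← e, mon, prod_range_succ, if_pos hr, mon]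
      have e2 : mon m D (r + 1) ∅ = mon m D r ∅ * (D r : ZK m) := by
        rw [mon, prod_range_succ, if_neg (notMem_empty r), mon]
      rw [e1, e2]
      ring

theorem sqrtd_pow (n : ℕ) : (Zsqrtd.sqrtd : ZK m) ^ n =
    (((-(m : ℤ)) ^ (n / 2) : ℤ) : ZK m) * Zsqrtd.sqrtd ^ (n % 2) := by
  conv_lhs => rw [← Nat.div_add_mod n 2, pow_add, pow_mul, sq, Zsqrtd.dmuld]
  push_cast
  rfl

theorem mon_eq' {r : ℕ} {S : Finset ℕ} (h : S ⊆ range r) :
    mon m D r S = Zsqrtd.sqrtd ^ S.card * ∏ i ∈ range r \ S, (D i : ZK m) := by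
  rw [mon, prod_ite, prod_const, filter_mem_eq_inter, inter_eq_right.2 h, ← sdiff_eq_filter]

theorem mon_eq {r : ℕ} {S : Finset ℕ} (h : S ⊆ range r) :
    mon m D r S = (tt m D r S : ZK m) * Zsqrtd.sqrtd ^ (S.card % 2) := by
  rw [mon_eq' m D h, sqrtd_pow, tt]
  push_cast
  ring

/-- `z` can be added to `c` full cubes without changing the number of vertices. -/
def Cov (r c : ℕ) (z : ZK m) : Prop :=
  Rep (cn m D r) (2 ^ r * c) (2 ^ r * ((c : ZK m) * mon m D r ∅ + z))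

variable {m D}

theorem Cov.add {r c c' : ℕ} {z z' : ZK m} (h : Cov m D r c z) (h' : Cov m D r c' z') :
    Cov m D r (c + c') (z + z') :=
  (Rep.add h h').of_eq rfl (by ring) (by push_cast; ring)

theorem cov_zero (r c : ℕ) : Cov m D r c 0 :=
  ((cube0 m D r).nsmul c).of_eq rfl (by ring) (by ring)

theorem Cov.mono {r c c' : ℕ} {z : ZK m} (h : Cov m D r c z) (hc : c ≤ c') : Cov m D r c' z := by
  have := h.add (cov_zero r (c' - c))
  rwa [add_zero, Nat.add_sub_cancel' hc] at this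

theorem cov_mon {r : ℕ} {S : Finset ℕ} (h : S ⊆ range r) (hS : S.Nonempty) (k : ℤ) :
    Cov m D r k.natAbs ((k : ZK m) * mon m D r S) := by
  obtain ⟨i, hi⟩ := hS
  obtain ⟨η, h1, h2⟩ : ∃ η : ℤ, η ^ 2 = 1 ∧ k = η * k.natAbs := by
    rcases Int.natAbs_eq k with e | e
    · exact ⟨1, rfl, by rw [one_mul]; exact e⟩
    · exact ⟨-1, rfl, by rw [neg_one_mul]; exact e⟩
  refine ((cube1 m D S r ⟨i, hi, mem_range.1 (h hi)⟩ η h1).nsmul k.natAbs).of_eq rfl (by ring) ?_
  have : (k : ZK m) = (η : ZK m) * ((k.natAbs : ℕ) : ZK m) := by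
    rw [← Int.cast_natCast k.natAbs, ← Int.cast_mul, ← h2]
  rw [this]
  ring

theorem tt_move {r i j : ℕ} {S : Finset ℕ} (hi : i ∈ S) (hj : j ∉ S) (hi' : i < r) (hj' : j < r) :
    tt m D r (insert j (S.erase i)) * D j = tt m D r S * D i := by
  have hn : j ∉ S.erase i := fun e => hj (mem_of_mem_erase e)
  have hc : (insert j (S.erase i)).card = S.card := by
    rw [card_insert_of_notMem hn, card_erase_of_mem hi]
    have := card_pos.2 ⟨_, hi⟩
    omega
  have e1 : range r \ S.erase i = insert j (range r \ insert j (S.erase i)) := by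
    ext k; simp only [mem_sdiff, mem_insert, mem_range, mem_erase]; by_cases k = j <;> simp_all
  have e2 : range r \ S.erase i = insert i (range r \ S) := by
    ext k; simp only [mem_sdiff, mem_insert, mem_range, mem_erase]; by_cases k = i <;> simp_all
  have k1 := congrArg (fun U => ∏ k ∈ U, D k) (e1.symm.trans e2)
  rw [prod_insert (by simp), prod_insert (by simp [hi])] at k1
  rw [tt, tt, hc]
  linear_combination (-(m : ℤ)) ^ (S.card / 2) * k1

theorem tt_erase {r i j : ℕ} {S : Finset ℕ} (h : S ⊆ range r) (hi : i ∈ S) (hj : j ∈ S) (hij : i ≠ j) :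
    tt m D r ((S.erase i).erase j) * (-(m : ℤ)) = tt m D r S * (D i * D j) := by
  have hj' : j ∈ S.erase i := mem_erase.2 ⟨hij.symm, hj⟩
  have hc : S.card / 2 = ((S.erase i).erase j).card / 2 + 1 := by
    have := card_pos.2 ⟨_, hj'⟩
    rw [card_erase_of_mem hj']
    rw [card_erase_of_mem hi] at this ⊢
    omega
  have e : range r \ (S.erase i).erase j = insert i (insert j (range r \ S)) := by
    have := mem_range.1 (h hi)
    have := mem_range.1 (h hj)
    ext k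
    simp only [mem_sdiff, mem_insert, mem_range, mem_erase]
    by_cases k = i <;> by_cases k = j <;> simp_all
  rw [tt, tt, hc, e, prod_insert (by simp [hi, hij]), prod_insert (by simp [hj])]
  ring

/-- The nonempty sets of slots of a given parity. -/
def cls (r δ : ℕ) : Finset (Finset ℕ) := (range r).powerset.filter fun S => S.card % 2 = δ ∧ S.Nonempty

theorem mem_cls {r δ : ℕ} {S : Finset ℕ} : S ∈ cls r δ ↔ S ⊆ range r ∧ S.card % 2 = δ ∧ S.Nonempty := by
  simp [cls]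

theorem cls_closed {r A a b c δ : ℕ} (hδ : δ < 2) (hD : ∀ i, D i ≠ 0) (hA : 0 < A)
    (adj : ∀ i, i + 1 < r → ∃ u : ℕ, 0 < u ∧ u ≤ A ∧ D i ∣ u * D (i + 1) ∧ D (i + 1) ∣ u * D i)
    (ha : a < r) (hb : b < r) (hc : c < r) (hab : a ≠ b) (hac : a ≠ c) (hbc : b ≠ c)
    (cab : IsCoprime (D a) (D b)) (cac : IsCoprime (D a) (D c)) (cbc : IsCoprime (D b) (D c))
    (𝓕 : Finset (Finset ℕ)) (h0 : range (2 - δ) ∈ 𝓕)
    (hcl : ∀ S ∈ cls r δ, ∀ u : ℕ, 0 < u → u ≤ A →
      (u : ℤ) * tt m D r S ∈ Ideal.span (tt m D r '' 𝓕) → S ∈ 𝓕) : cls r δ ⊆ 𝓕 := by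
  have mv : ∀ (S : Finset ℕ) (i j u : ℕ), S ∈ cls r δ → 0 < u → u ≤ A → ∀ S' ∈ 𝓕,
      tt m D r S' * D j = tt m D r S * D i → D i ∣ u * D j → S ∈ 𝓕 := by
    intro S i j u hS u0 uA S' hS' e ⟨w, hw⟩
    refine hcl S hS u u0 uA ?_
    have : (u : ℤ) * tt m D r S = w * tt m D r S' :=
      mul_right_cancel₀ (hD i) (by linear_combination (-(u : ℤ)) * e + tt m D r S' * hw)
    rw [this]
    exact Ideal.mul_mem_left _ _ (Ideal.subset_span ⟨S', hS', rfl⟩)
  have lev : ∀ n, n % 2 = δ → 0 < n → ∀ S, S ⊆ range r → S.card = n → (S ∈ 𝓕 ↔ range n ∈ 𝓕) := by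
    intro n hn hn0 S h1 h2
    refine moves r n (· ∈ 𝓕) (fun S i h1 h2 hi hi' => ?_) _ S h1 h2 rfl
    have hir := mem_range.1 (h1 hi)
    obtain ⟨u, u0, uA, d1, d2⟩ := adj i hir
    have e := tt_move (m := m) (D := D) hi hi' hir (by omega)
    have hn' : i ∉ S.erase (i + 1) := fun e => hi' (mem_of_mem_erase e)
    refine ⟨fun h => mv _ i (i + 1) u (mem_cls.2 ⟨?_, ?_, insert_nonempty _ _⟩) u0 uA S h e.symm d1,
      fun h => mv S (i + 1) i u (mem_cls.2 ⟨h1, h2 ▸ hn, ⟨_, hi⟩⟩) u0 uA _ h e d2⟩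
    · exact insert_subset (mem_range.2 (by omega)) ((erase_subset _ _).trans h1)
    · rw [card_insert_of_notMem hn', card_erase_of_mem hi]
      omega
  have all : ∀ k, ∀ S, S ⊆ range r → S.card = 2 - δ + 2 * k → S ∈ 𝓕 := by
    intro k
    induction k with
    | zero => exact fun S h1 h2 => (lev (2 - δ) (by omega) (by omega) S h1 h2).2 h0
    | succ k ih =>
      intro S h1 h2
      have hle := card_le_card h1
      have h3 : ({a, b, c} : Finset ℕ) ⊆ range r := by simp [insert_subset_iff, ha, hb, hc]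
      obtain ⟨U, u1, u2, u3⟩ := exists_subsuperset_card_eq h3
        (show _ ≤ S.card from card_le_three.trans (by omega)) hle
      rw [lev S.card (by omega) (by omega) S h1 rfl, ← lev S.card (by omega) (by omega) U u2 u3]
      have ma : a ∈ U := u1 (by simp)
      have mb : b ∈ U := u1 (by simp)
      have mc : c ∈ U := u1 (by simp)
      have er : ∀ i j, i ∈ U → j ∈ U → i ≠ j →
          tt m D r U * (D i * D j) ∈ Ideal.span (tt m D r '' 𝓕) := by
        intro i j hi hj hij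
        rw [← tt_erase u2 hi hj hij]
        refine Ideal.mul_mem_right _ _ (Ideal.subset_span ⟨_, ih _
          ((erase_subset _ _).trans ((erase_subset _ _).trans u2)) ?_, rfl⟩)
        rw [card_erase_of_mem (mem_erase.2 ⟨hij.symm, hj⟩), card_erase_of_mem hi]
        omega
      refine hcl U (mem_cls.2 ⟨u2, by omega, ⟨a, ma⟩⟩) 1 one_pos hA ?_
      obtain ⟨α, β, e1⟩ := cab.mul_right cac
      obtain ⟨γ, ε, e2⟩ := cbc
      have : ((1 : ℕ) : ℤ) * tt m D r U = α * γ * (tt m D r U * (D a * D b)) +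
          α * ε * (tt m D r U * (D a * D c)) + β * (tt m D r U * (D b * D c)) := by
        push_cast
        linear_combination (-tt m D r U) * e1 - tt m D r U * α * D a * e2
      rw [this]
      exact add_mem (add_mem (Ideal.mul_mem_left _ _ (er a b ma mb hab))
        (Ideal.mul_mem_left _ _ (er a c ma mc hac))) (Ideal.mul_mem_left _ _ (er b c mb mc hbc))
  intro S hS
  obtain ⟨h1, h2, h3⟩ := mem_cls.1 hS
  have := card_pos.2 h3
  exact all ((S.card - (2 - δ)) / 2) S h1 (by omega)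

theorem span_even {r : ℕ} (hr : r % 2 = 0) (h2 : 2 ≤ r) (hD : ∀ i, IsCoprime (D i) (m : ℤ)) :
    (m : ℤ) ∈ Ideal.span (tt m D r '' cls r 0) := by
  have h1 : tt m D r (range r) ∈ Ideal.span (tt m D r '' cls r 0) :=
    Ideal.subset_span ⟨_, mem_cls.2 ⟨Subset.rfl, by simpa, nonempty_range_iff.2 (by omega)⟩, rfl⟩
  have h3 : tt m D r (range 2) ∈ Ideal.span (tt m D r '' cls r 0) :=
    Ideal.subset_span ⟨_, mem_cls.2 ⟨range_subset_range.2 h2, by simp, by simp⟩, rfl⟩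
  obtain ⟨k, hk⟩ : ∃ k, r / 2 = k + 1 := ⟨r / 2 - 1, by omega⟩
  obtain ⟨α, β, e⟩ : IsCoprime (∏ i ∈ range r \ range 2, D i) ((-(m : ℤ)) ^ k) :=
    (IsCoprime.prod_left fun i _ => (hD i).neg_right).pow_right
  have : (m : ℤ) = -α * tt m D r (range 2) + -β * tt m D r (range r) := by
    simp only [tt, card_range, hk, sdiff_self, bot_eq_empty, prod_empty]
    linear_combination (-(m : ℤ)) * e
  rw [this]
  exact add_mem (Ideal.mul_mem_left _ _ h3) (Ideal.mul_mem_left _ _ h1)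

theorem span_odd {r a b : ℕ} (hr : r % 2 = 0) (ha : a < r) (hb : b < r) (cab : IsCoprime (D a) (D b))
    (hD : ∀ i, IsCoprime (D i) (m : ℤ)) : (1 : ℤ) ∈ Ideal.span (tt m D r '' cls r 1) := by
  have h1 : ∀ i, i < r → (-(m : ℤ)) ^ ((r - 1) / 2) * D i ∈ Ideal.span (tt m D r '' cls r 1) := by
    intro i hi
    have hc : ((range r).erase i).card = r - 1 := by rw [card_erase_of_mem (mem_range.2 hi), card_range]
    refine Ideal.subset_span ⟨(range r).erase i, mem_cls.2 ⟨erase_subset _ _, by omega,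
      card_pos.1 (by omega)⟩, ?_⟩
    rw [tt, hc, sdiff_erase_self (mem_range.2 hi), prod_singleton]
  have h3 : tt m D r (range 1) ∈ Ideal.span (tt m D r '' cls r 1) :=
    Ideal.subset_span ⟨_, mem_cls.2 ⟨range_subset_range.2 (by omega), by simp, by simp⟩, rfl⟩
  obtain ⟨α, β, e⟩ : IsCoprime (∏ i ∈ range r \ range 1, D i) ((-(m : ℤ)) ^ ((r - 1) / 2)) :=
    (IsCoprime.prod_left fun i _ => (hD i).neg_right).pow_right
  obtain ⟨γ, ε, e'⟩ := cab
  have : (1 : ℤ) = α * tt m D r (range 1) + (β * γ * ((-(m : ℤ)) ^ ((r - 1) / 2) * D a) +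
      β * ε * ((-(m : ℤ)) ^ ((r - 1) / 2) * D b)) := by
    simp only [tt, card_range]
    linear_combination -e - β * (-(m : ℤ)) ^ ((r - 1) / 2) * e'
  rw [this]
  exact add_mem (Ideal.mul_mem_left _ _ h3)
    (add_mem (Ideal.mul_mem_left _ _ (h1 a ha)) (Ideal.mul_mem_left _ _ (h1 b hb)))

/-- One parity class: every element of the span is a small combination of monomials. -/
theorem cov_class {r A a b c δ : ℕ} (hδ : δ < 2) (hD : ∀ i, D i ≠ 0) (hA : 0 < A) (h2 : 2 ≤ r)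
    (adj : ∀ i, i + 1 < r → ∃ u : ℕ, 0 < u ∧ u ≤ A ∧ D i ∣ u * D (i + 1) ∧ D (i + 1) ∣ u * D i)
    (ha : a < r) (hb : b < r) (hc : c < r) (hab : a ≠ b) (hac : a ≠ c) (hbc : b ≠ c)
    (cab : IsCoprime (D a) (D b)) (cac : IsCoprime (D a) (D c)) (cbc : IsCoprime (D b) (D c))
    (hm : m ≠ 0) (L : ℕ) (hL : ∀ S ∈ cls r δ, |tt m D r S| ≤ L * |tt m D r (range (2 - δ))|)
    (R : ℤ) (hR : R ∈ Ideal.span (tt m D r '' cls r δ)) (k : ℕ)
    (hk : |R| ≤ k * |tt m D r (range (2 - δ))|) :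
    Cov m D r (k + 2 ^ r * A * (L + 1)) ((R : ZK m) * Zsqrtd.sqrtd ^ δ) := by
  have ht : range (2 - δ) ∈ cls r δ :=
    mem_cls.2 ⟨range_subset_range.2 (by omega), by rw [card_range]; omega,
      nonempty_range_iff.2 (by omega)⟩
  have Q1 : ∀ S ∈ cls r δ, ∀ x : ℤ, Cov m D r x.natAbs (((x * tt m D r S : ℤ) : ZK m) * Zsqrtd.sqrtd ^ δ) := by
    intro S hS x
    obtain ⟨h1, h2, h3⟩ := mem_cls.1 hS
    have := cov_mon (m := m) (D := D) h1 h3 x
    rw [mon_eq m D h1, h2] at this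
    push_cast
    rwa [mul_assoc]
  obtain ⟨x, t, e1, e2, e3⟩ := chain (cls r δ) (tt m D r) _ ht A _
    (fun c t => Cov m D r c ((t : ZK m) * Zsqrtd.sqrtd ^ δ)) (fun c => by simpa using cov_zero r c)
    (fun c c' t t' h h' => by push_cast; rw [add_mul]; exact h.add h')
    (fun S hS k => by simpa using Q1 S hS k) hL
    (fun 𝓕 _ h0 hcl => cls_closed hδ hD hA adj ha hb hc hab hac hbc cab cac cbc 𝓕 h0 hcl) R hR
  have hcard : (cls r δ).card ≤ 2 ^ r := by
    refine (card_filter_le _ _).trans ?_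
    rw [card_powerset, card_range]
  have h0 : 0 < |tt m D r (range (2 - δ))| := abs_pos.2 (mul_ne_zero
    (pow_ne_zero _ (neg_ne_zero.2 (by exact_mod_cast hm))) (prod_ne_zero_iff.2 fun i _ => hD i))
  have hx : x.natAbs ≤ k + (cls r δ).card * A * L := by
    have k1 : |x| * |tt m D r (range (2 - δ))| ≤ |R| + |t| := by
      rw [← abs_mul, show x * tt m D r (range (2 - δ)) = R - t by linear_combination -e1]
      exact abs_sub _ _
    have k2 : |x| ≤ k + (cls r δ).card * A * L := le_of_mul_le_mul_right (by nlinarith) h0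
    rw [← Int.natCast_natAbs] at k2
    exact_mod_cast k2
  have := (Q1 _ ht x).add e2
  rw [← add_mul, ← Int.cast_add, ← e1] at this
  refine this.mono ?_
  have := Nat.mul_le_mul_right (A * (L + 1)) hcard
  nlinarith

end Pool.Agent.P.MP_b75a1e_co
end

-- part Pool.Agent.P.MP_b75a1e_co.Types
section

set_option autoImplicit false

open Finset

namespace Pool.Agent.P.MP_b75a1e_co

/-- The complex embedding. -/
noncomputable def toC (m : ℕ) : ZK m →+* ℂ :=
  Zsqrtd.lift ⟨(Real.sqrt m : ℂ) * Complex.I, by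
    have : (Real.sqrt m : ℂ) * (Real.sqrt m : ℂ) = m := by
      rw [← Complex.ofReal_mul, Real.mul_self_sqrt (Nat.cast_nonneg _)]; simp
    push_cast
    linear_combination (Complex.I * Complex.I) * this + (m : ℂ) * Complex.I_mul_I⟩

variable {m : ℕ}

theorem toC_re (z : ZK m) : (toC m z).re = z.re := by simp [toC]

theorem toC_im (z : ZK m) : (toC m z).im = z.im * Real.sqrt m := by simp [toC]

theorem toC_sq (z : ZK m) : ‖toC m z‖ ^ 2 = z.norm := by
  have := Real.mul_self_sqrt (Nat.cast_nonneg (α := ℝ) m)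
  rw [← Complex.normSq_eq_norm_sq, Complex.normSq_apply, toC_re, toC_im, Zsqrtd.norm_def]
  push_cast
  linear_combination (z.im : ℝ) ^ 2 * this

theorem toC_le {z w : ZK m} {k : ℝ} (hk : 0 ≤ k) (h : (z.norm : ℝ) ≤ k ^ 2 * w.norm) :
    ‖toC m z‖ ≤ k * ‖toC m w‖ := by
  refine (pow_le_pow_iff_left₀ (norm_nonneg _) (by positivity) two_ne_zero).1 ?_
  rwa [mul_pow, toC_sq, toC_sq]

/-- Reduction modulo a ramified prime. -/
def toZ {q : ℕ} (h : q ∣ m) : ZK m →+* ZMod q :=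
  Zsqrtd.lift ⟨0, by simp [(ZMod.natCast_eq_zero_iff m q).2 h]⟩

theorem toZ_apply {q : ℕ} (h : q ∣ m) (z : ZK m) : toZ h z = z.re := by simp [toZ]

theorem toZ_eq_zero {q : ℕ} (h : q ∣ m) {z : ZK m} (hz : (m : ℤ) ∣ z.re) : toZ h z = 0 := by
  rw [toZ_apply, ZMod.intCast_zmod_eq_zero_iff_dvd]
  exact (Int.natCast_dvd_natCast.2 h).trans hz

theorem exists_shift {d d' : ℕ} (hm : m = d * d') (hc : Nat.Coprime d d') (ho : m % 2 = 1) (F : ZK m) :
    ∃ z y : ZK m, (m : ℤ) ∣ z.re ∧ ‖toC m z‖ ≤ 50 * (m : ℝ) ^ 3 ∧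
      F + (⟨4 * d - d', -4⟩ : ZK m) * z = (⟨4 * d - d', 4⟩ : ZK m) * y := by
  have hmz : (m : ℤ) = d * d' := by exact_mod_cast hm
  have hd : Odd d ∧ Odd d' := Nat.odd_mul.1 (hm ▸ Nat.odd_iff.2 ho)
  have c0 : IsCoprime (d : ℤ) d' := Nat.isCoprime_iff_coprime.2 hc
  have c2 : IsCoprime (2 : ℤ) d' := by
    have := Nat.isCoprime_iff_coprime.2 (Nat.coprime_two_left.2 hd.2)
    exact_mod_cast this
  have c4 : IsCoprime (4 * d : ℤ) d' := by
    have := (c2.mul_left c2).mul_left c0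
    rwa [show (2 : ℤ) * 2 = 4 by norm_num] at this
  have cX : IsCoprime (4 * d - d' : ℤ) d' := by
    have := c4.add_mul_left_left (-1)
    rwa [show (4 * d + d' * -1 : ℤ) = 4 * d - d' by ring] at this
  have cXm : IsCoprime (4 * d - d' : ℤ) m := by
    rw [hmz]
    refine IsCoprime.mul_right ?_ cX
    have := c0.symm.neg_left.add_mul_left_left 4
    rwa [show (-d' + d * 4 : ℤ) = 4 * d - d' by ring] at this
  have c2X : IsCoprime (2 : ℤ) (4 * d - d') := by
    have := c2.neg_right.add_mul_left_right (2 * d)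
    rwa [show (-d' + 2 * (2 * d) : ℤ) = 4 * d - d' by ring] at this
  have cν : IsCoprime (2 * (4 * d - d') : ℤ) ((4 * d + d') ^ 2) := by
    refine IsCoprime.pow_right (IsCoprime.mul_left ?_ ?_)
    · have := c2.add_mul_left_right (2 * d)
      rwa [show (d' + 2 * (2 * d) : ℤ) = 4 * d + d' by ring] at this
    · have := (c2X.symm.mul_right cX).add_mul_left_right 1
      rwa [show (2 * d' + (4 * d - d') * 1 : ℤ) = 4 * d + d' by ring] at this
  set γ : ZK m := ⟨4 * d - d', 4⟩ with hγ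
  set γ' : ZK m := ⟨4 * d - d', -4⟩ with hγ'
  have e1 : γ * γ' = (((4 * d + d') ^ 2 : ℤ) : ZK m) := by
    ext
    · simp only [hγ, hγ', Zsqrtd.re_mul, Zsqrtd.re_intCast]; rw [hmz]; ring
    · simp only [hγ, hγ', Zsqrtd.im_mul, Zsqrtd.im_intCast]; ring
  have e2 : γ + γ' = ((2 * (4 * d - d') : ℤ) : ZK m) := by
    ext
    · simp only [hγ, hγ', Zsqrtd.re_add, Zsqrtd.re_intCast]; ring
    · simp only [hγ, hγ', Zsqrtd.im_add, Zsqrtd.im_intCast]; ring
  have e3 : γ = ((4 * d - d' : ℤ) : ZK m) + 4 * Zsqrtd.sqrtd := by ext <;> simp [hγ]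
  have e4 : (Zsqrtd.sqrtd : ZK m) * Zsqrtd.sqrtd = ((-(m : ℤ) : ℤ) : ZK m) := Zsqrtd.dmuld
  have k1 : IsCoprime γ γ' := by
    obtain ⟨a, b, h⟩ := cν
    have h' := congrArg (Int.cast (R := ZK m)) h
    rw [Int.cast_add, Int.cast_mul a, Int.cast_mul b, ← e1, ← e2, Int.cast_one] at h'
    exact ⟨(a : ZK m) + (b : ZK m) * γ', a, by linear_combination h'⟩
  have k2 : IsCoprime γ (Zsqrtd.sqrtd : ZK m) := by
    obtain ⟨a, b, h⟩ := cXm
    have h' := congrArg (Int.cast (R := ZK m)) h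
    rw [Int.cast_add, Int.cast_mul a, Int.cast_mul b, Int.cast_one] at h'
    rw [Int.cast_neg] at e4
    exact ⟨a, -4 * (a : ZK m) - (b : ZK m) * Zsqrtd.sqrtd, by linear_combination h' + (a : ZK m) * e3 - (b : ZK m) * e4⟩
  obtain ⟨u, v, huv⟩ := k1.mul_right k2
  set z0 : ZK m := Zsqrtd.sqrtd * (-(F * v)) with hz0
  have hz : (m : ℤ) ∣ z0.re := ⟨(F * v).im, by simp [hz0]⟩
  set ν : ℤ := (4 * d + d') ^ 2 with hν
  have hm0 : (0 : ℤ) < m := by exact_mod_cast (show 0 < m by omega)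
  have hd0 : (1 : ℤ) ≤ d := by exact_mod_cast hd.1.pos
  have hd1 : (1 : ℤ) ≤ d' := by exact_mod_cast hd.2.pos
  have hν0 : 0 < ν := by positivity
  have hν1 : ν ≤ 25 * (m : ℤ) ^ 2 := by
    have : (4 * d + d' : ℤ) ≤ 5 * m := by rw [hmz]; nlinarith
    calc ν ≤ (5 * (m : ℤ)) ^ 2 := pow_le_pow_left₀ (by positivity) this 2
      _ = _ := by ring
  refine ⟨⟨z0.re % (m * ν), z0.im % ν⟩, F * u - γ' * γ' * ⟨m * (z0.re / (m * ν)), z0.im / ν⟩,
    (EuclideanDomain.dvd_mod_iff (dvd_mul_right _ _)).2 hz, ?_, ?_⟩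
  · refine (Complex.norm_le_abs_re_add_abs_im _).trans ?_
    rw [toC_re, toC_im, abs_mul, abs_of_nonneg (Real.sqrt_nonneg _)]
    have a1 : |z0.re % (m * ν)| ≤ 25 * (m : ℤ) ^ 3 := by
      rw [abs_of_nonneg (Int.emod_nonneg _ (by positivity))]
      have := Int.emod_lt_of_pos z0.re (show 0 < m * ν by positivity)
      nlinarith
    have a2 : |z0.im % ν| ≤ 25 * (m : ℤ) ^ 2 := by
      rw [abs_of_nonneg (Int.emod_nonneg _ hν0.ne')]
      have := Int.emod_lt_of_pos z0.im hν0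
      linarith
    have a3 : Real.sqrt m ≤ m := by
      rw [Real.sqrt_le_left (Nat.cast_nonneg _)]
      have : (1 : ℝ) ≤ m := by exact_mod_cast hm0
      nlinarith
    have a1' : |((z0.re % (m * ν) : ℤ) : ℝ)| ≤ 25 * (m : ℝ) ^ 3 := by exact_mod_cast a1
    have a2' : |((z0.im % ν : ℤ) : ℝ)| ≤ 25 * (m : ℝ) ^ 2 := by exact_mod_cast a2
    have := mul_le_mul a2' a3 (Real.sqrt_nonneg _) (by positivity)
    simp only
    nlinarith
  · have e5 : (⟨z0.re % (m * ν), z0.im % ν⟩ : ZK m) =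
        z0 - (ν : ZK m) * ⟨m * (z0.re / (m * ν)), z0.im / ν⟩ := by
      ext
      · simp only [Zsqrtd.re_sub, Zsqrtd.re_smul, Int.emod_def]; ring
      · simp only [Zsqrtd.im_sub, Zsqrtd.im_smul, Int.emod_def]
    rw [e5, ← e1, hz0]
    linear_combination (-F) * huv

theorem exists_bits (l : ℕ) : ∀ t, t < 2 ^ l → ∃ A ⊆ range l, ∑ j ∈ A, 2 ^ j = t := by
  induction l with
  | zero => exact fun t h => ⟨∅, empty_subset _, by simp; omega⟩
  | succ l ih =>
    intro t h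
    by_cases h' : t < 2 ^ l
    · obtain ⟨A, h1, h2⟩ := ih t h'
      exact ⟨A, h1.trans (range_subset_range.2 (by omega)), h2⟩
    · obtain ⟨A, h1, h2⟩ := ih (t - 2 ^ l) (by rw [pow_succ] at h; omega)
      refine ⟨insert l A, by rw [range_add_one]; exact insert_subset_insert _ h1, ?_⟩
      rw [sum_insert fun e => by simpa using h1 e]
      omega

/-- A family of vectors of one norm whose sums cover the ramified ideal. -/
structure Bulk (m : ℕ) where
  N : ℤ
  E : ℕ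
  C : ℕ
  L : ℕ
  M : ZK m
  w : ZK m
  τ : ℝ
  hN : N ≠ 0
  hE : 0 < E
  hM : Rep N E ((E : ZK m) * M)
  hw : Rep N 1 ((E : ZK m) * w)
  hC : ∀ (z : ZK m) (c : ℕ), (m : ℤ) ∣ z.re → ‖toC m z‖ ≤ c * τ →
    Rep N (E * (2 * c + C)) ((E : ZK m) * (((2 * c + C : ℕ) : ZK m) * M + z))
  hMw : (m : ℤ) ∣ ((E : ZK m) * w - M).re
  sM : 32 * ‖toC m M‖ ≤ τ
  sw : ‖toC m w‖ ≤ L * τ
  sτ : 50 * (m : ℝ) ^ 3 ≤ τ

theorem Bulk.types (B : Bulk m) (ho : m % 2 = 1) (d d' : ℕ → ℕ) (hd : ∀ j, m = d j * d' j)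
    (hc : ∀ j, Nat.Coprime (d j) (d' j)) (l : ℕ) :
    ∃ (Γ y : ZK m) (α : ℕ), Γ.norm ≠ 0 ∧
      Rep (B.N * Γ.norm) (∑ j ∈ range l, 2 ^ j + l * (B.E * (2 + B.C))) ((B.E : ZK m) * y * Γ) ∧
      B.E * α ≤ ∑ j ∈ range l, 2 ^ j + l * (B.E * (2 + B.C)) ∧
      ‖toC m y‖ ≤ α * ‖toC m B.M‖ + l * (B.E * ‖toC m B.w‖) + l * B.τ ∧
      ∀ q, q.Prime → ∀ h : q ∣ m, toZ h y =
        (∑ j ∈ range l, (if q ∣ d j then -1 else 1) * 2 ^ j + l * (B.E * (2 + B.C))) * toZ h B.w := by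
  induction l with
  | zero => exact ⟨1, 0, 0, by simp, by simpa using Rep.zero _, by simp, by simp, by simp⟩
  | succ l ih =>
    obtain ⟨Γ, y, α, h1, h2, h3, h4, h5⟩ := ih
    obtain ⟨a, b, hb, hab⟩ : ∃ a b, b < B.E ∧ 2 ^ l = B.E * a + b :=
      ⟨_, _, Nat.mod_lt _ B.hE, (Nat.div_add_mod _ _).symm⟩
    have hmz : (m : ℤ) = d l * d' l := by exact_mod_cast hd l
    have hdo : Odd (d l) ∧ Odd (d' l) := Nat.odd_mul.1 (hd l ▸ Nat.odd_iff.2 ho)
    set γ : ZK m := ⟨4 * d l - d' l, 4⟩ with hγ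
    set γ' : ZK m := ⟨4 * d l - d' l, -4⟩ with hγ'
    set ν : ℕ := 4 * d l + d' l with hν
    have hν0 : 0 < ν := by have := hdo.2.pos; omega
    have n1 : γ.norm = ν * ν := by
      simp only [hγ, Zsqrtd.norm_def, hν]; rw [hmz]; push_cast; ring
    have n2 : γ'.norm = ν * ν := by
      simp only [hγ', Zsqrtd.norm_def, hν]; rw [hmz]; push_cast; ring
    obtain ⟨z, y', k1, k2, k3⟩ := exists_shift (hd l) (hc l) ho
      ((ν : ZK m) * ((a : ZK m) * B.M + (b : ZK m) * B.w) + γ' * (((2 * 1 + B.C : ℕ) : ZK m) * B.M))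
    have r1 := (((B.hM.nsmul a).add (B.hw.nsmul b)).mul (ν : ZK m)).mul Γ
    have r2 := ((B.hC z 1 k1 (by simpa using k2.trans B.sτ)).mul γ').mul Γ
    have r3 := h2.mul γ
    rw [Zsqrtd.norm_natCast] at r1
    rw [n2] at r2
    rw [n1, mul_right_comm] at r3
    rw [← hγ, ← hγ'] at k3
    refine ⟨Γ * γ, y + y', α + (a + (2 + B.C)), ?_, ((r3.add r1).add r2).of_eq ?_ ?_ ?_, ?_, ?_, ?_⟩
    · rw [Zsqrtd.norm_mul, n1]
      exact mul_ne_zero h1 (by positivity)
    · rw [Zsqrtd.norm_mul, n1]; ring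
    · rw [sum_range_succ, hab]; ring
    · linear_combination (B.E : ZK m) * Γ * k3
    · rw [sum_range_succ, hab]; nlinarith
    · have s1 : ‖toC m γ‖ = ν := by
        refine (pow_left_inj₀ (norm_nonneg _) (Nat.cast_nonneg _) two_ne_zero).1 ?_
        rw [toC_sq, n1]; push_cast; ring
      have s2 : ‖toC m γ'‖ = ν := by
        refine (pow_left_inj₀ (norm_nonneg _) (Nat.cast_nonneg _) two_ne_zero).1 ?_
        rw [toC_sq, n2]; push_cast; ring
      have s3 := congrArg (fun x => ‖toC m x‖) k3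
      simp only [map_add, map_mul, map_natCast, norm_mul, s1] at s3
      have s4 : ‖toC m y'‖ ≤ a * ‖toC m B.M‖ + b * ‖toC m B.w‖ +
          (2 * 1 + B.C : ℕ) * ‖toC m B.M‖ + ‖toC m z‖ := by
        refine le_of_mul_le_mul_left ?_ (show (0 : ℝ) < ν by exact_mod_cast hν0)
        rw [← s3]
        refine (norm_add_le _ _).trans ((add_le_add_left (norm_add_le _ _) _).trans ?_)
        have := norm_add_le ((a : ℂ) * toC m B.M) ((b : ℂ) * toC m B.w)
        simp only [norm_mul, s2, Complex.norm_natCast] at this ⊢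
        have := mul_le_mul_of_nonneg_left this (Nat.cast_nonneg (α := ℝ) ν)
        nlinarith
      have s5 : (b : ℝ) * ‖toC m B.w‖ ≤ B.E * ‖toC m B.w‖ :=
        mul_le_mul_of_nonneg_right (by exact_mod_cast hb.le) (norm_nonneg _)
      rw [map_add]
      refine (norm_add_le _ _).trans ?_
      push_cast at s4 ⊢
      linarith [k2.trans B.sτ]
    · intro q hq h
      have : Fact q.Prime := ⟨hq⟩
      have t1 := congrArg (toZ h) k3
      have t2 := toZ_eq_zero h B.hMw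
      have t3 : toZ h γ = 4 * d l - d' l := by rw [toZ_apply]; simp [hγ]
      have t4 : toZ h γ' = 4 * d l - d' l := by rw [toZ_apply]; simp [hγ']
      have t5 : (2 : ZMod q) ^ l = B.E * a + b := by exact_mod_cast congrArg (Nat.cast (R := ZMod q)) hab
      simp only [map_add, map_mul, map_sub, map_natCast, toZ_eq_zero h k1, t3, t4, hν] at t1 t2
      push_cast at t1
      rw [map_add, h5 q hq h, sum_range_succ]
      push_cast
      split_ifs with hq'
      · have u1 : (d l : ZMod q) = 0 := (ZMod.natCast_eq_zero_iff _ _).2 hq'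
        have u2 : (d' l : ZMod q) ≠ 0 := fun e => hq.one_lt.ne' (Nat.eq_one_of_dvd_coprimes (hc l) hq'
          ((ZMod.natCast_eq_zero_iff _ _).1 e))
        rw [u1] at t1
        apply mul_left_cancel₀ u2
        linear_combination t1 + (d' l : ZMod q) * toZ h B.w * t5 +
          (d' l : ZMod q) * (a - (2 + B.C)) * t2
      · have u1 : (d' l : ZMod q) = 0 := (ZMod.natCast_eq_zero_iff _ _).2
          (((Nat.Prime.dvd_mul hq).1 (hd l ▸ h)).resolve_left hq')
        have u3 : ¬ q ∣ 2 := fun e => by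
          rw [(Nat.prime_dvd_prime_iff_eq hq Nat.prime_two).1 e] at h
          omega
        have u2 : ((2 ^ 2 * d l : ℕ) : ZMod q) ≠ 0 := fun e =>
          ((Nat.Prime.dvd_mul hq).1 ((ZMod.natCast_eq_zero_iff _ _).1 e)).elim
            (fun e => u3 (hq.dvd_of_dvd_pow e)) hq'
        rw [u1] at t1
        apply mul_left_cancel₀ u2
        push_cast
        linear_combination -t1 - (4 * d l : ZMod q) * toZ h B.w * t5 -
          (4 * d l : ZMod q) * (a + (2 + B.C)) * t2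

theorem Bulk.seed (B : Bulk m) (ho : m % 2 = 1) (hsq : Squarefree m) {p : ℕ} (hp : p % 2 = 1)
    (hq : ∀ q, q.Prime → q ∣ m → q ≤ p)
    (hbig : 4 * (B.E * ((Nat.log 2 p + 1) * (B.C + 2 * (B.E * B.L) + 4))) ≤ p) :
    ∃ N : ℤ, N ≠ 0 ∧ Rep N p (0 : ZK m) := by
  classical
  set l := Nat.log 2 (2 * p / 3) with hl
  have hE := B.hE
  have hp16 : 16 ≤ p := by
    have : 1 * (1 * 4) ≤ B.E * ((Nat.log 2 p + 1) * (B.C + 2 * (B.E * B.L) + 4)) :=
      Nat.mul_le_mul hE (Nat.mul_le_mul (by omega) (by omega))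
    omega
  have l1 : 2 ^ l ≤ 2 * p / 3 := Nat.pow_log_le_self 2 (by omega)
  have l2 : 2 * p / 3 < 2 ^ (l + 1) := Nat.lt_pow_succ_log_self (by norm_num) _
  have l3 : l ≤ Nat.log 2 p := Nat.log_mono_right (by omega)
  have ex : ∀ q, ∃ A ⊆ range l, q.Prime → q ∣ m → ∃ k, p = 2 * ∑ j ∈ A, 2 ^ j + q * k := by
    intro q
    by_cases h : q.Prime ∧ q ∣ m
    · have h1 := hq q h.1 h.2
      have h2 : q % 2 = 1 := Nat.odd_iff.1 (Odd.of_dvd_nat (Nat.odd_iff.2 ho) h.2)
      have h3 := Nat.div_add_mod (p - q) (2 * q)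
      have h4 := Nat.mod_lt (p - q) (show 0 < 2 * q by omega)
      have h5 := Nat.mod_le (p - q) (2 * q)
      rw [mul_assoc] at h3
      obtain ⟨A, a1, a2⟩ := exists_bits l ((p - q) % (2 * q) / 2) (by rw [pow_succ] at l2; omega)
      refine ⟨A, a1, fun _ _ => ⟨1 + 2 * ((p - q) / (2 * q)), ?_⟩⟩
      rw [a2, mul_add, mul_left_comm]
      omega
    · exact ⟨∅, empty_subset _, fun h1 h2 => absurd ⟨h1, h2⟩ h⟩
  choose A hA hA' using ex
  set d : ℕ → ℕ := fun j => ∏ q ∈ m.primeFactors.filter (fun q => j ∈ A q), q with hd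
  set d' : ℕ → ℕ := fun j => ∏ q ∈ m.primeFactors.filter (fun q => ¬ j ∈ A q), q with hd'
  have hdd : ∀ j, m = d j * d' j := fun j => by
    rw [hd, hd', prod_filter_mul_prod_filter_not, Nat.prod_primeFactors_of_squarefree hsq]
  have hm0 : m ≠ 0 := by omega
  have hdq : ∀ q, q.Prime → q ∣ m → ∀ j, q ∣ d j ↔ j ∈ A q := by
    intro q h1 h2 j
    refine ⟨fun h => ?_, fun h => dvd_prod_of_mem _ (mem_filter.2 ⟨Nat.mem_primeFactors.2 ⟨h1, h2, hm0⟩, h⟩)⟩
    obtain ⟨q', k1, k2⟩ := (Prime.dvd_finsetProd_iff h1.prime _).1 h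
    rw [(Nat.prime_dvd_prime_iff_eq h1 (Nat.prime_of_mem_primeFactors (mem_filter.1 k1).1)).1 k2]
    exact (mem_filter.1 k1).2
  obtain ⟨Γ, y, α, h1, h2, h3, h4, h5⟩ := B.types ho d d' hdd
    (fun j => Nat.coprime_of_squarefree_mul (hdd j ▸ hsq)) l
  have hS : ∑ j ∈ range l, 2 ^ j + 1 = 2 ^ l := by
    have := Nat.geomSum_eq (le_refl 2) l
    have h0 : 0 < 2 ^ l := by positivity
    omega
  set S := ∑ j ∈ range l, 2 ^ j with hSd
  have hbig' : 4 * (B.E * ((l + 1) * (B.C + 2 * (B.E * B.L) + 4))) ≤ p :=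
    le_trans (by gcongr) hbig
  obtain ⟨k0, p0, hp0, hk0⟩ : ∃ k0 p0, p0 < B.E ∧ p = S + l * (B.E * (2 + B.C)) + (B.E * k0 + p0) := by
    refine ⟨(p - (S + l * (B.E * (2 + B.C)))) / B.E, _,
      Nat.mod_lt (p - (S + l * (B.E * (2 + B.C)))) hE, ?_⟩
    rw [Nat.div_add_mod, Nat.add_sub_cancel']
    nlinarith [Nat.zero_le (B.E * B.L), Nat.zero_le (l * B.E * (B.E * B.L)), Nat.div_mul_le_self (2 * p) 3]
  set Y : ZK m := y + (p0 : ZK m) * B.w + (k0 : ZK m) * B.M with hY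
  have hYm : (m : ℤ) ∣ (-Y).re := by
    rw [Zsqrtd.re_neg, dvd_neg, Int.natCast_dvd]
    conv_lhs => rw [← Nat.prod_primeFactors_of_squarefree hsq]
    refine prod_primes_dvd _ (fun q h => (Nat.prime_of_mem_primeFactors h).prime) fun q h => ?_
    have q1 := Nat.prime_of_mem_primeFactors h
    have q2 := Nat.dvd_of_mem_primeFactors h
    rw [← Int.natCast_dvd, ← ZMod.intCast_zmod_eq_zero_iff_dvd, ← toZ_apply q2]
    obtain ⟨k, hk⟩ := hA' q q1 q2
    have t1 := h5 q q1 q2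
    have t2 := toZ_eq_zero q2 B.hMw
    have t3 : ∑ j ∈ range l, (if q ∣ d j then -1 else 1) * (2 : ZMod q) ^ j =
        (S : ℕ) - 2 * ((∑ j ∈ A q, 2 ^ j : ℕ) : ZMod q) := by
      rw [hSd, ← inter_eq_right.2 (hA q), ← filter_mem_eq_inter, sum_filter]
      push_cast
      rw [mul_sum, ← sum_sub_distrib]
      refine sum_congr rfl fun j _ => ?_
      simp only [hdq q q1 q2]
      split_ifs <;> ring
    have t4 := congrArg (Nat.cast (R := ZMod q)) hk
    have t5 := congrArg (Nat.cast (R := ZMod q)) hk0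
    rw [Nat.cast_add, Nat.cast_mul, Nat.cast_mul q, ZMod.natCast_self, Nat.cast_ofNat] at t4
    rw [t3] at t1
    simp only [hY, map_add, map_mul, map_sub, map_natCast] at t2 ⊢
    push_cast at t5
    linear_combination t1 - (k0 : ZMod q) * t2 + toZ q2 B.w * (t4 - t5)
  have hτ : 0 ≤ B.τ := le_trans (by positivity) B.sM
  obtain ⟨c, c1, c2⟩ : ∃ c : ℕ, α + k0 ≤ 32 * c ∧ 32 * c ≤ α + k0 + 32 :=
    ⟨(α + k0) / 32 + 1, by omega, by omega⟩
  have hYs : ‖toC m (-Y)‖ ≤ (c + (l + 1) * (B.E * B.L) + l : ℕ) * B.τ := by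
    rw [map_neg, norm_neg, hY, map_add, map_add]
    refine (norm_add_le _ _).trans ((add_le_add_left (norm_add_le _ _) _).trans ?_)
    simp only [map_mul, map_natCast, norm_mul, Complex.norm_natCast]
    have s1 : (p0 : ℝ) * ‖toC m B.w‖ ≤ B.E * ‖toC m B.w‖ :=
      mul_le_mul_of_nonneg_right (by exact_mod_cast hp0.le) (norm_nonneg _)
    have s2 : ((α : ℝ) + k0) * ‖toC m B.M‖ ≤ c * B.τ := by
      have : (α : ℝ) + k0 ≤ 32 * c := by exact_mod_cast c1
      calc _ ≤ 32 * c * ‖toC m B.M‖ := mul_le_mul_of_nonneg_right this (norm_nonneg _)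
        _ = c * (32 * ‖toC m B.M‖) := by ring
        _ ≤ _ := mul_le_mul_of_nonneg_left B.sM (Nat.cast_nonneg _)
    have s3 : ((l : ℝ) + 1) * (B.E * ‖toC m B.w‖) ≤ (l + 1) * (B.E * (B.L * B.τ)) := by
      have := B.sw
      gcongr
    push_cast
    nlinarith
  have hle : 2 * (c + (l + 1) * (B.E * B.L) + l) + B.C ≤ k0 := by
    refine Nat.le_of_mul_le_mul_left ?_ (show 0 < 48 * B.E by omega)
    have c3 := Nat.mul_le_mul_left B.E c2
    have := Nat.div_mul_le_self (2 * p) 3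
    nlinarith
  obtain ⟨k1, rfl⟩ := Nat.exists_eq_add_of_le hle
  have r1 := ((B.hC _ _ hYm hYs).add (B.hM.nsmul k1)).mul Γ
  have r2 := (B.hw.nsmul p0).mul Γ
  refine ⟨B.N * Γ.norm, mul_ne_zero B.hN h1, ((h2.add r1).add r2).of_eq rfl ?_ ?_⟩
  · rw [hk0]; ring
  · rw [hY]; push_cast; ring

end Pool.Agent.P.MP_b75a1e_co
end

-- part Pool.Agent.P.MP_b75a1e_co.Quasi
section

set_option autoImplicit false

open Finset

namespace Pool.Agent.P.MP_b75a1e_co

variable {m : ℕ} {D : ℕ → ℤ}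

theorem norm_mon (r : ℕ) (S : Finset ℕ) :
    (mon m D r S).norm = ∏ i ∈ range r, if i ∈ S then (m : ℤ) else D i ^ 2 := by
  have := map_prod (Zsqrtd.normMonoidHom (d := -(m : ℤ)))
    (fun i => if i ∈ S then Zsqrtd.sqrtd else (D i : ZK m)) (range r)
  refine this.trans (prod_congr rfl fun i _ => ?_)
  show Zsqrtd.norm _ = _
  split_ifs
  · simp [Zsqrtd.norm_def]
  · rw [Zsqrtd.norm_intCast, sq]

theorem norm_mon' {r : ℕ} {S : Finset ℕ} (h : S ⊆ range r) :
    (mon m D r S).norm = tt m D r S ^ 2 * m ^ (S.card % 2) := by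
  rw [mon_eq m D h, Zsqrtd.norm_mul, Zsqrtd.norm_intCast, sq]
  congr 1
  rcases Nat.mod_two_eq_zero_or_one S.card with e | e <;> simp [e, Zsqrtd.norm_def]

theorem exists_vertex (h4 : m % 4 = 3) (hD : ∀ i, D i % 2 = 1) (k : ℕ) :
    ∃ w : ZK m, (((2 ^ (2 * k) : ℕ) : ZK m) * w).norm = cn m D (2 * k) ∧
      toZ (dvd_refl m) (((2 ^ (2 * k) : ℕ) : ZK m) * w) = toZ (dvd_refl m) (mon m D (2 * k) ∅) := by
  induction k with
  | zero => exact ⟨1, by simp [cn], by simp [mon]⟩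
  | succ k ih =>
    obtain ⟨w, h1, h2⟩ := ih
    obtain ⟨η, u, hη, hu⟩ : ∃ (η : ℤ) (u : ZK m), η ^ 2 = 1 ∧
        ((D (2 * k) : ZK m) + ((1 : ℤ) : ZK m) * Zsqrtd.sqrtd) *
          ((D (2 * k + 1) : ZK m) + (η : ZK m) * Zsqrtd.sqrtd) = ((4 : ℤ) : ZK m) * u := by
      obtain ⟨a, ha⟩ : ∃ a, D (2 * k) = 2 * a + 1 := ⟨D (2 * k) / 2, by have := hD (2 * k); omega⟩
      obtain ⟨b, hb⟩ : ∃ b, D (2 * k + 1) = 2 * b + 1 :=
        ⟨D (2 * k + 1) / 2, by have := hD (2 * k + 1); omega⟩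
      obtain ⟨c, hc⟩ : ∃ c : ℤ, (m : ℤ) = 4 * c + 3 := ⟨m / 4, by omega⟩
      rcases Int.even_or_odd' (a + b) with ⟨e, he | he⟩
      · refine ⟨-1, ⟨a * b + e + c + 1, e - a⟩, rfl, ?_⟩
        ext
        · simp [ha, hb]; linear_combination 2 * he + hc
        · simp [ha, hb]; linear_combination 2 * he
      · refine ⟨1, ⟨a * b + e - c, e + 1⟩, rfl, ?_⟩
        ext
        · simp [ha, hb]; linear_combination 2 * he - hc
        · simp [ha, hb]; linear_combination 2 * he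
    have e : ((2 ^ (2 * (k + 1)) : ℕ) : ZK m) * (w * u) = ((2 ^ (2 * k) : ℕ) : ZK m) * w *
        (((D (2 * k) : ZK m) + ((1 : ℤ) : ZK m) * Zsqrtd.sqrtd) *
          ((D (2 * k + 1) : ZK m) + (η : ZK m) * Zsqrtd.sqrtd)) := by
      rw [hu]; push_cast; ring
    have e' : 2 * (k + 1) = 2 * k + 1 + 1 := by ring
    refine ⟨w * u, ?_, ?_⟩
    · rw [e, Zsqrtd.norm_mul, Zsqrtd.norm_mul _ (_ + _), h1, norm_slot m _ 1 rfl, norm_slot m _ η hη, e',
        cn, cn, prod_range_succ, prod_range_succ, mul_assoc]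
    · have hs : toZ (dvd_refl m) (Zsqrtd.sqrtd : ZK m) = 0 := by rw [toZ_apply]; simp
      rw [e, map_mul, h2, e']
      simp only [mon, prod_range_succ, notMem_empty, if_false, map_mul, map_add, hs]
      ring

theorem exists_bulk (h4 : m % 4 = 3) {x y z n : ℕ} (hx : 32 ≤ x) (hxy : x ≤ y) (hyz : y ≤ z)
    (ox : Odd x) (oy : Odd y) (oz : Odd z) (cxy : x.Coprime y) (cxz : x.Coprime z) (cyz : y.Coprime z)
    (cx : x.Coprime m) (cy : y.Coprime m) (cz : z.Coprime m) (h1 : x ^ (2 * (n + 2)) ≤ m)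
    (h2 : m ≤ x ^ (2 * (n + 3))) :
    ∃ B : Bulk m, B.E = 2 ^ (2 * (n + 4)) ∧ B.C = 2 ^ (2 * (n + 4)) * z ^ 3 * (x + 3) ∧ B.L = x := by
  set Dn : ℕ → ℕ := fun i => x ^ (if i = 0 then n else n + 4 - i) *
    y ^ (min (i - 1) (2 * n + 7 - i)) * z ^ (i - (n + 4)) with hDn
  set D : ℕ → ℤ := fun i => Dn i with hD
  have x0 : 0 < x := by omega
  have y0 : 0 < y := by omega
  have z0 : 0 < z := by omega
  have m0 : 0 < m := by omega
  have Dpos : ∀ i, 0 < Dn i := fun i => by simp only [hDn]; positivity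
  have D0 : ∀ i, D i ≠ 0 := fun i => by simp only [hD]; exact_mod_cast (Dpos i).ne'
  have Dodd : ∀ i, D i % 2 = 1 := fun i => by
    have : Dn i % 2 = 1 := Nat.odd_iff.1 ((ox.pow.mul oy.pow).mul oz.pow)
    simp only [hD]
    omega
  have Dm : ∀ i, IsCoprime (D i) (m : ℤ) := fun i => Nat.isCoprime_iff_coprime.2
    (Nat.Coprime.mul_left (Nat.Coprime.mul_left (cx.pow_left _) (cy.pow_left _)) (cz.pow_left _))
  have d0 : Dn 0 = x ^ n := by simp [hDn]
  have d1 : Dn 1 = x ^ (n + 3) := by simp [hDn]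
  have d2 : Dn (n + 4) = y ^ (n + 3) := by
    simp only [hDn]
    rw [if_neg (by omega), show n + 4 - (n + 4) = 0 by omega,
      show min (n + 4 - 1) (2 * n + 7 - (n + 4)) = n + 3 by omega]
    simp
  have d3 : Dn (2 * n + 7) = z ^ (n + 3) := by
    simp only [hDn]
    rw [if_neg (by omega), show n + 4 - (2 * n + 7) = 0 by omega,
      show min (2 * n + 7 - 1) (2 * n + 7 - (2 * n + 7)) = 0 by omega,
      show 2 * n + 7 - (n + 4) = n + 3 by omega]
    simp
  have big : ∀ i, i + 1 < 2 * (n + 4) → (m : ℤ) ≤ D (i + 1) ^ 2 := by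
    intro i hi
    have : x ^ (n + 3) ≤ Dn (i + 1) := by
      simp only [hDn]
      rw [if_neg (by omega)]
      calc x ^ (n + 3) = x ^ (n + 4 - (i + 1)) * x ^ (min (i + 1 - 1) (2 * n + 7 - (i + 1))) *
            x ^ (i + 1 - (n + 4)) := by rw [← pow_add, ← pow_add]; congr 1; omega
        _ ≤ _ := by gcongr; exact hxy.trans hyz
    have h3 : m ≤ Dn (i + 1) ^ 2 := h2.trans (by rw [mul_comm, pow_mul]; gcongr)
    simp only [hD]
    exact_mod_cast h3
  have adj : ∀ i, i + 1 < 2 * (n + 4) → ∃ u : ℕ, 0 < u ∧ u ≤ z ^ 3 ∧ D i ∣ u * D (i + 1) ∧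
      D (i + 1) ∣ u * D i := by
    intro i hi
    have hxz := hxy.trans hyz
    by_cases h : i = 0
    · subst h
      refine ⟨x ^ 3, by positivity, by gcongr, ?_, ?_⟩ <;> simp only [hD, zero_add, d0, d1]
      · exact ⟨x ^ 6, by push_cast; ring⟩
      · exact ⟨1, by push_cast; ring⟩
    · have key : ∀ a b c a' b' c' : ℕ, a ≤ a' + 1 → b ≤ b' + 1 → c ≤ c' + 1 →
          ((x ^ a * y ^ b * z ^ c : ℕ) : ℤ) ∣ (x * y * z : ℕ) * ((x ^ a' * y ^ b' * z ^ c' : ℕ) : ℤ) := by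
        intro a b c a' b' c' k1 k2 k3
        have := mul_dvd_mul (mul_dvd_mul (pow_dvd_pow x k1) (pow_dvd_pow y k2)) (pow_dvd_pow z k3)
        rw [← Nat.cast_mul, Int.natCast_dvd_natCast]
        exact this.trans (dvd_of_eq (by ring))
      refine ⟨x * y * z, by positivity, ?_, key _ _ _ _ _ _ ?_ ?_ ?_, key _ _ _ _ _ _ ?_ ?_ ?_⟩
      · calc x * y * z ≤ z * z * z := by gcongr
          _ = _ := by ring
      all_goals first | omega | (rw [if_neg h, if_neg (Nat.succ_ne_zero i)]; omega)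
  have c1 : IsCoprime (D 1) (D (n + 4)) := Nat.isCoprime_iff_coprime.2 (by
    rw [d1, d2]; exact cxy.pow _ _)
  have c2 : IsCoprime (D 1) (D (2 * n + 7)) := Nat.isCoprime_iff_coprime.2 (by
    rw [d1, d3]; exact cxz.pow _ _)
  have c3 : IsCoprime (D (n + 4)) (D (2 * n + 7)) := Nat.isCoprime_iff_coprime.2 (by
    rw [d2, d3]; exact cyz.pow _ _)
  set r := 2 * (n + 4) with hr
  have hr2 : r = 2 * n + 6 + 1 + 1 := by omega
  set V : ℤ := ∏ i ∈ range (2 * n + 6), D (i + 1 + 1) ^ 2 with hV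
  have V0 : 0 ≤ V := prod_nonneg fun i _ => sq_nonneg _
  have mz : (0 : ℤ) < m := by exact_mod_cast m0
  have h1z : (x : ℤ) ^ (2 * (n + 2)) ≤ m := by exact_mod_cast h1
  have xz : (32 : ℤ) ≤ x := by exact_mod_cast hx
  have e0 : D 0 = (x : ℤ) ^ n := by simp only [hD, d0]; push_cast; rfl
  have e1 : D 1 = (x : ℤ) ^ (n + 3) := by simp only [hD, d1]; push_cast; rfl
  have s0 : D 0 ^ 2 ≤ m := by
    rw [e0, ← pow_mul]
    exact (pow_le_pow_right₀ (by omega) (by omega)).trans h1z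
  have s1 : D 1 ^ 2 ≤ x ^ 2 * m := by
    calc D 1 ^ 2 = x ^ 2 * (x : ℤ) ^ (2 * (n + 2)) := by rw [e1]; ring
      _ ≤ _ := by gcongr
  have n0 : (mon m D r ∅).norm = V * D 1 ^ 2 * D 0 ^ 2 := by
    rw [norm_mon, hr2, prod_range_succ', prod_range_succ']; simp [hV]
  have n1 : (mon m D r (range 1)).norm = V * D 1 ^ 2 * m := by
    rw [norm_mon, hr2, prod_range_succ', prod_range_succ']; simp [hV]
  have n2 : (mon m D r (range 2)).norm = V * m * m := by
    rw [norm_mon, hr2, prod_range_succ', prod_range_succ']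
    congr 2
  have nS : ∀ S, (mon m D r S).norm ≤ (mon m D r (range 1)).norm := by
    intro S
    rw [norm_mon, norm_mon]
    refine prod_le_prod (fun i _ => by split_ifs <;> positivity) fun i hi => ?_
    rcases i with _ | i
    · rw [if_pos (show 0 ∈ range 1 by simp)]; split_ifs; exacts [le_rfl, s0]
    · rw [if_neg (show i + 1 ∉ range 1 by simp)]; split_ifs
      exacts [big i (mem_range.1 hi), le_rfl]
  have n12 : (mon m D r (range 1)).norm ≤ x ^ 2 * (mon m D r (range 2)).norm := by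
    rw [n1, n2]
    calc V * D 1 ^ 2 * m ≤ V * (x ^ 2 * m) * m := by gcongr
      _ = _ := by ring
  have n21 : (mon m D r (range 2)).norm ≤ (mon m D r (range 1)).norm := nS _
  have t2 : (mon m D r (range 2)).norm = tt m D r (range 2) ^ 2 := by
    rw [norm_mon' (range_subset_range.2 (by omega))]; simp
  have t1 : (mon m D r (range 1)).norm = tt m D r (range 1) ^ 2 * m := by
    rw [norm_mon' (range_subset_range.2 (by omega))]; simp
  have τ2 : ‖toC m (mon m D r (range 2))‖ = |tt m D r (range 2)| := by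
    refine (pow_left_inj₀ (norm_nonneg _) (by positivity) two_ne_zero).1 ?_
    rw [toC_sq, t2]; push_cast; rw [sq_abs]
  have τ1 : ‖toC m (mon m D r (range 1))‖ = |tt m D r (range 1)| * Real.sqrt m := by
    refine (pow_left_inj₀ (norm_nonneg _) (by positivity) two_ne_zero).1 ?_
    rw [toC_sq, t1, mul_pow, Real.sq_sqrt (Nat.cast_nonneg _)]; push_cast; rw [sq_abs]
  obtain ⟨w, w1, w2⟩ := exists_vertex h4 Dodd (n + 4)
  rw [← hr] at w1 w2
  refine ⟨⟨cn m D r, 2 ^ r, 2 ^ r * z ^ 3 * (x + 3), x, mon m D r ∅, w, ‖toC m (mon m D r (range 2))‖,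
    (prod_pos fun i _ => by positivity).ne', by positivity, by simpa using cube0 m D r,
    w1 ▸ Rep.single _, fun u c hu hc => ?_, ?_, ?_, ?_, ?_⟩, rfl, rfl, rfl⟩
  · have a0 := cov_class (m := m) (D := D) (δ := 0) (by omega) D0 (pow_pos z0 3) (by omega) adj
      (by omega) (by omega) (by omega) (by omega) (by omega) (by omega) c1 c2 c3 m0.ne' x
      (fun S hS => ?_) u.re (by
        obtain ⟨k, hk⟩ := hu
        rw [hk]
        exact Ideal.mul_mem_right _ _ (span_even (by omega) (by omega) Dm)) c (by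
        have := (Complex.abs_re_le_norm _).trans hc
        rw [toC_re, τ2] at this
        exact_mod_cast this)
    · have a1 := cov_class (m := m) (D := D) (δ := 1) (by omega) D0 (pow_pos z0 3) (by omega) adj
        (by omega) (by omega) (by omega) (by omega) (by omega) (by omega) c1 c2 c3 m0.ne' 1
        (fun S hS => ?_) u.im (by
          simpa using Ideal.mul_mem_left _ u.im
            (span_odd (r := r) (by omega) (by omega) (by omega) c1 Dm)) c (by
          have k1 := toC_le (z := mon m D r (range 2)) (w := mon m D r (range 1)) zero_le_one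
            (by rw [one_pow, one_mul]; exact_mod_cast n21)
          have k2 := ((Complex.abs_im_le_norm _).trans hc).trans
            (mul_le_mul_of_nonneg_left k1 (Nat.cast_nonneg c))
          rw [toC_im, τ1, abs_mul, abs_of_nonneg (Real.sqrt_nonneg _), one_mul, ← mul_assoc] at k2
          have := le_of_mul_le_mul_right k2 (by positivity)
          exact_mod_cast this)
      · refine Rep.of_eq (a0.add a1) rfl (by ring) ?_
        have : (u.re : ZK m) * Zsqrtd.sqrtd ^ 0 + (u.im : ZK m) * Zsqrtd.sqrtd ^ 1 = u := by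
          ext <;> simp
        rw [this]
        push_cast
        ring
      · obtain ⟨k1, k2, -⟩ := mem_cls.1 hS
        have := nS S
        rw [norm_mon' k1, k2, t1, pow_one] at this
        rw [Nat.cast_one, one_mul]
        exact sq_le_sq.1 (le_of_mul_le_mul_right this mz)
    · obtain ⟨k1, k2, -⟩ := mem_cls.1 hS
      have := (nS S).trans n12
      rw [norm_mon' k1, k2, t2, pow_zero, mul_one, ← mul_pow] at this
      have := sq_le_sq.1 this
      rwa [abs_mul, Nat.abs_cast] at this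
  · rw [← ZMod.intCast_zmod_eq_zero_iff_dvd, ← toZ_apply (dvd_refl m), map_sub, w2, sub_self]
  · have : ‖toC m (mon m D r ∅)‖ ≤ 1 / 32 * ‖toC m (mon m D r (range 2))‖ := by
      refine toC_le (by norm_num) ?_
      have k : 32 ^ 2 * (mon m D r ∅).norm ≤ (mon m D r (range 2)).norm := by
        rw [n0, n2]
        calc 32 ^ 2 * (V * D 1 ^ 2 * D 0 ^ 2) ≤ x ^ 2 * (V * D 1 ^ 2 * D 0 ^ 2) := by gcongr
          _ = V * (x : ℤ) ^ (2 * (n + 2)) * (x : ℤ) ^ (2 * (n + 2)) := by rw [e0, e1]; ring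
          _ ≤ _ := by gcongr
      have k' : (32 : ℝ) ^ 2 * (mon m D r ∅).norm ≤ (mon m D r (range 2)).norm := by exact_mod_cast k
      linarith
    linarith
  · refine toC_le (Nat.cast_nonneg _) ?_
    have k1 : cn m D r ≤ 2 ^ r * (mon m D r (range 1)).norm := by
      rw [norm_mon, cn, ← card_range r, ← prod_const, card_range, ← prod_mul_distrib]
      refine prod_le_prod (fun i _ => by positivity) fun i hi => ?_
      rcases i with _ | i
      · rw [if_pos (show 0 ∈ range 1 by simp)]; linarith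
      · rw [if_neg (show i + 1 ∉ range 1 by simp)]; linarith [big i (mem_range.1 hi)]
    rw [← w1, Zsqrtd.norm_mul, Zsqrtd.norm_natCast] at k1
    push_cast at k1
    have k2 : 0 ≤ w.norm := Zsqrtd.norm_nonneg (by omega) w
    have k3 : (1 : ℤ) ≤ 2 ^ r := one_le_pow₀ (by norm_num)
    have k4 : w.norm ≤ (mon m D r (range 1)).norm :=
      le_of_mul_le_mul_left (a := 2 ^ r) (by nlinarith [mul_nonneg k2 (sub_nonneg.2 k3)]) (by positivity)
    exact_mod_cast k4.trans n12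
  · refine (pow_le_pow_iff_left₀ (by positivity) (norm_nonneg _) two_ne_zero).1 ?_
    rw [toC_sq, n2]
    have k1 : (m : ℤ) ^ (2 * n + 6) ≤ V := by
      rw [hV, ← card_range (2 * n + 6), ← prod_const, card_range]
      exact prod_le_prod (fun i _ => mz.le) fun i hi => big _ (by have := mem_range.1 hi; omega)
    have k2 : (m : ℤ) ^ 6 ≤ V := (pow_le_pow_right₀ (by omega) (by omega)).trans k1
    have k3 : (50 : ℤ) ≤ m := le_trans (by
      calc (50 : ℤ) ≤ 32 ^ 2 := by norm_num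
        _ ≤ (x : ℤ) ^ 2 := by gcongr
        _ ≤ _ := pow_le_pow_right₀ (by omega) (by omega)) h1z
    have k4 : (50 * (m : ℤ) ^ 3) ^ 2 ≤ V * m * m := by
      calc (50 * (m : ℤ) ^ 3) ^ 2 = m ^ 6 * 50 * 50 := by ring
        _ ≤ _ := by gcongr
    exact_mod_cast k4

theorem exists_primes (J w : ℕ) (hm0 : m ≠ 0) (hm : m < 2 ^ (J * w)) :
    ∃ x y z : ℕ, x.Prime ∧ y.Prime ∧ z.Prime ∧ 2 ^ J < x ∧ x < y ∧ y < z ∧ z ≤ 2 ^ (J + w + 3) ∧
      ¬ x ∣ m ∧ ¬ y ∣ m ∧ ¬ z ∣ m := by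
  choose f hf h1 h2 using fun j : ℕ => Nat.exists_prime_lt_and_le_two_mul (2 ^ (J + j)) (by positivity)
  have mono : StrictMono f := strictMono_nat_of_lt_succ fun j =>
    (h2 j).trans_lt (by rw [← pow_succ']; exact h1 (j + 1))
  have hG : ((range (w + 3)).filter fun j => f j ∣ m).card < w := by
    set G := (range (w + 3)).filter fun j => f j ∣ m with hGd
    have a1 : ∏ j ∈ G, f j ∣ m := by
      rw [← prod_image (f := fun q => q) (mono.injective.injOn)]
      refine prod_primes_dvd _ (fun q hq => ?_) fun q hq => ?_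
      · obtain ⟨j, -, rfl⟩ := mem_image.1 hq
        exact (hf j).prime
      · obtain ⟨j, hj, rfl⟩ := mem_image.1 hq
        exact (mem_filter.1 hj).2
    have a2 : (2 ^ J) ^ G.card ≤ ∏ j ∈ G, f j := pow_card_le_prod _ _ _ fun j _ =>
      (Nat.pow_le_pow_right (by norm_num) (by omega)).trans (h1 j).le
    have a3 := (a2.trans (Nat.le_of_dvd (Nat.pos_of_ne_zero hm0) a1)).trans_lt hm
    rw [← pow_mul, Nat.pow_lt_pow_iff_right (by norm_num)] at a3
    exact lt_of_mul_lt_mul_left a3 (Nat.zero_le _)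
  have hc := card_filter_add_card_filter_not (s := range (w + 3)) fun j => f j ∣ m
  rw [card_range] at hc
  obtain ⟨H, a1, a2⟩ := exists_subset_card_eq
    (show 3 ≤ ((range (w + 3)).filter fun j => ¬ f j ∣ m).card by omega)
  have hm' := fun i => mem_filter.1 (a1 (orderEmbOfFin_mem H a2 i))
  refine ⟨f (H.orderEmbOfFin a2 0), f (H.orderEmbOfFin a2 1), f (H.orderEmbOfFin a2 2), hf _, hf _, hf _,
    (Nat.pow_le_pow_right (by norm_num) (by omega)).trans_lt (h1 _),
    mono ((H.orderEmbOfFin a2).strictMono (by decide)), mono ((H.orderEmbOfFin a2).strictMono (by decide)),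
    (h2 _).trans ?_, (hm' 0).2, (hm' 1).2, (hm' 2).2⟩
  rw [← pow_succ']
  have := mem_range.1 (hm' 2).1
  exact Nat.pow_le_pow_right (by norm_num) (by omega)

theorem quasi_nat {p : ℕ} (hsq : Squarefree m) (h4 : m % 4 = 3) (hp : p.Prime) (hpm : p ∣ m)
    (hq : ∀ q, q.Prime → q ∣ m → q ≤ p) (J w : ℕ) (hJ : 5 ≤ J) (hm : m < 2 ^ (J * w))
    (hbig : (Nat.log 2 p + 1) * 2 ^ (4 * J + 6 * w + 22) ≤ p) : HasGon m p := by
  have m0 : m ≠ 0 := by omega
  obtain ⟨x, y, z, px, py, pz, a1, a2, a3, a4, nx, ny, nz⟩ := exists_primes J w m0 hm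
  have x32 : 32 ≤ x := le_trans (Nat.pow_le_pow_right (n := 2) (by norm_num) hJ) a1.le
  have pm : p ≤ m := Nat.le_of_dvd (by omega) hpm
  have b1 : 2 ^ (4 * J + 6 * w + 22) ≤ p := le_trans (Nat.le_mul_of_pos_left _ (by omega)) hbig
  have x4 : x ^ 4 ≤ m := by
    calc x ^ 4 ≤ (2 ^ (J + w + 3)) ^ 4 := by gcongr; omega
      _ ≤ 2 ^ (4 * J + 6 * w + 22) := by
        rw [← pow_mul]; exact Nat.pow_le_pow_right (by norm_num) (by omega)
      _ ≤ m := b1.trans pm
  have l4 : 4 ≤ Nat.log x m := Nat.le_log_of_pow_le px.one_lt x4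
  have lw : Nat.log x m < w := Nat.log_lt_of_lt_pow m0 (hm.trans_le (by rw [pow_mul]; gcongr))
  obtain ⟨n, n1, n2⟩ : ∃ n, 2 * (n + 2) ≤ Nat.log x m ∧ Nat.log x m + 1 ≤ 2 * (n + 3) :=
    ⟨Nat.log x m / 2 - 2, by omega, by omega⟩
  obtain ⟨B, e1, e2, e3⟩ := exists_bulk (n := n) h4 x32 a2.le a3.le (px.odd_of_ne_two (by omega))
    (py.odd_of_ne_two (by omega)) (pz.odd_of_ne_two (by omega))
    ((Nat.coprime_primes px py).2 a2.ne) ((Nat.coprime_primes px pz).2 (a2.trans a3).ne)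
    ((Nat.coprime_primes py pz).2 a3.ne) (px.coprime_iff_not_dvd.2 nx) (py.coprime_iff_not_dvd.2 ny)
    (pz.coprime_iff_not_dvd.2 nz)
    ((Nat.pow_le_pow_right px.pos n1).trans (Nat.pow_log_le_self x m0))
    ((Nat.lt_pow_succ_log_self px.one_lt m).le.trans (Nat.pow_le_pow_right px.pos n2))
  have p29 : 29 ≤ p := le_trans (le_trans (by norm_num)
    (Nat.pow_le_pow_right (n := 2) (by norm_num) (show 5 ≤ _ by omega))) b1
  obtain ⟨N, k1, k2⟩ := B.seed (by omega) hsq (Nat.odd_iff.1 (hp.odd_of_ne_two (by omega))) hq (by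
    refine le_trans ?_ hbig
    have hE : B.E ≤ 2 ^ (w + 3) := e1 ▸ Nat.pow_le_pow_right (by norm_num) (by omega)
    have hE1 := B.hE
    have hz : 1 ≤ z ^ 3 := Nat.one_le_pow _ _ pz.pos
    have c1 : B.C + 2 * (B.E * B.L) + 4 ≤ 4 * (B.E * (z ^ 3 * z)) := by
      rw [e2, e3, ← e1]
      have u1 : B.E * x ≤ B.E * (z ^ 3 * x) := by gcongr; exact Nat.le_mul_of_pos_left _ hz
      have u2 : B.E * (z ^ 3 * x) ≤ B.E * (z ^ 3 * z) := by gcongr; omega
      have u3 : B.E * (z ^ 3 * 32) ≤ B.E * (z ^ 3 * z) := by gcongr; omega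
      have u4 : 1 * 1 ≤ B.E * z ^ 3 := Nat.mul_le_mul hE1 hz
      nlinarith
    calc 4 * (B.E * ((Nat.log 2 p + 1) * (B.C + 2 * (B.E * B.L) + 4)))
        ≤ 4 * (2 ^ (w + 3) * ((Nat.log 2 p + 1) *
          (4 * (2 ^ (w + 3) * ((2 ^ (J + w + 3)) ^ 3 * 2 ^ (J + w + 3)))))) := by
          gcongr
          exact c1.trans (by gcongr)
      _ = _ := by ring)
  exact hasGon_of_rep hp p29 hpm (fun h => hp.prime.not_isUnit (hsq p (by rwa [← sq]))) k1 k2

theorem quasi {p : ℕ} (hsq : Squarefree m) (h4 : m % 4 = 3) (hp : p.Prime) (hpm : p ∣ m)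
    (hq : ∀ q, q.Prime → q ∣ m → q ≤ p) (h : Real.log m ≤ Real.log p ^ 2 / 200) : HasGon m p := by
  have p1 : (1 : ℝ) < p := by exact_mod_cast hp.one_lt
  have pm : (p : ℝ) ≤ m := by exact_mod_cast Nat.le_of_dvd (by omega) hpm
  have l0 := Real.log_pos p1
  have l1 := (Real.log_le_log (by linarith) pm).trans h
  have l2 : 200 ≤ Real.log p := by nlinarith
  set k := Nat.log 2 p with hk
  have k1 : 2 ^ k ≤ p := Nat.pow_log_le_self 2 hp.ne_zero
  have k2 : p < 2 ^ (k + 1) := Nat.lt_pow_succ_log_self (by norm_num) p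
  have t1 := Real.log_two_lt_d9
  have t0 := Real.log_pos (show (1 : ℝ) < 2 by norm_num)
  have l3 : Real.log p < (k + 1) * Real.log 2 := by
    have : (p : ℝ) < 2 ^ (k + 1) := by exact_mod_cast k2
    have := Real.log_lt_log (by linarith) this
    rwa [Real.log_pow, Nat.cast_succ] at this
  have k3 : 200 ≤ k := by
    have : (200 : ℝ) < k + 1 := by nlinarith [Nat.cast_nonneg (α := ℝ) k]
    have : 200 < k + 1 := by exact_mod_cast this
    omega
  refine quasi_nat hsq h4 hp hpm hq (k / 10) (k / 20) (by omega) ?_ ?_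
  · have a1 : (k : ℝ) - 9 ≤ 10 * (k / 10 : ℕ) := by
      have : k ≤ 10 * (k / 10) + 9 := by omega
      have : (k : ℝ) ≤ 10 * (k / 10 : ℕ) + 9 := by exact_mod_cast this
      linarith
    have a2 : (k : ℝ) - 19 ≤ 20 * (k / 20 : ℕ) := by
      have : k ≤ 20 * (k / 20) + 19 := by omega
      have : (k : ℝ) ≤ 20 * (k / 20 : ℕ) + 19 := by exact_mod_cast this
      linarith
    have k4 : (200 : ℝ) ≤ k := by exact_mod_cast k3
    have a3 := mul_le_mul a1 a2 (by linarith) (by positivity)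
    have a4 : ((k : ℝ) + 1) ^ 2 * Real.log 2 ≤ 200 * ((k / 10 : ℕ) * (k / 20 : ℕ)) := by nlinarith
    have a5 : Real.log p ^ 2 < ((k + 1) * Real.log 2) ^ 2 := by gcongr
    have a6 : Real.log m < Real.log (2 ^ (k / 10 * (k / 20))) := by
      rw [Real.log_pow]
      push_cast
      nlinarith
    have := (Real.log_lt_log_iff (by linarith) (by positivity)).1 a6
    exact_mod_cast this
  · have a1 : ∀ j, 10 * (j + 7) + 10 ≤ 2 ^ (j + 7) := by
      intro j
      induction j with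
      | zero => norm_num
      | succ j ih => rw [show j + 1 + 7 = j + 7 + 1 by ring, pow_succ]; omega
    have a2 := a1 (k / 10 - 7)
    rw [Nat.sub_add_cancel (by omega)] at a2
    calc (k + 1) * 2 ^ (4 * (k / 10) + 6 * (k / 20) + 22)
        ≤ 2 ^ (k / 10) * 2 ^ (4 * (k / 10) + 6 * (k / 20) + 22) := by gcongr; omega
      _ ≤ 2 ^ k := by rw [← pow_add]; exact Nat.pow_le_pow_right (by norm_num) (by omega)
      _ ≤ p := k1

end Pool.Agent.P.MP_b75a1e_co
end
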